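import Mathlib

set_option autoImplicit false

namespace Pool.Agent.H30.AE

/-- The board: the edge set of `K_n`. -/
def board (n : ℕ) : Finset (Sym2 (Fin n)) := Finset.univ.filter (fun e => ¬ e.IsDiag)

/-- Enforcer has a winning strategy in the strict `(1:b)` Avoider-Enforcer `H`-game on `K_n`,
Avoider moving first. A position `p` (Avoider to move) records Avoider's edges `p.1` and Enforcer's
edges `p.2`; `S` is a set of positions containing the start in which Enforcer can stay: whichever
free edge `e` Avoider claims, Enforcer can claim exactly `b` free edges (all of them if fewer remain)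
and reach `S` again, and in every finished position of `S` Avoider's graph contains a copy of `H`. -/
def EnforcerWins {V : Type} (H : SimpleGraph V) (n b : ℕ) : Prop :=
  ∃ S : Set (Finset (Sym2 (Fin n)) × Finset (Sym2 (Fin n))),
    ((∅ : Finset (Sym2 (Fin n))), (∅ : Finset (Sym2 (Fin n)))) ∈ S ∧
    ∀ p ∈ S,
      (board n \ (p.1 ∪ p.2) = ∅ →
        H.IsContained (SimpleGraph.fromEdgeSet (p.1 : Set (Sym2 (Fin n))))) ∧
      ∀ e ∈ board n \ (p.1 ∪ p.2),
        ∃ T : Finset (Sym2 (Fin n)),
          T ⊆ board n \ (insert e (p.1 ∪ p.2)) ∧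
          T.card = min b (board n \ (insert e (p.1 ∪ p.2))).card ∧
          (insert e p.1, p.2 ∪ T) ∈ S

/-- The upper threshold: the largest `b ≥ 1` for which Enforcer wins. -/
noncomputable def fPlus {V : Type} (H : SimpleGraph V) (n : ℕ) : ℕ :=
  sSup {b : ℕ | 1 ≤ b ∧ EnforcerWins H n b}

/-- The lower threshold: the largest `m` such that Enforcer wins for every `1 ≤ b ≤ m`. -/
noncomputable def fMinus {V : Type} (H : SimpleGraph V) (n : ℕ) : ℕ :=
  sSup {m : ℕ | ∀ b : ℕ, 1 ≤ b → b ≤ m → EnforcerWins H n b}

/-- `H - e`: delete the edge `e` together with any end of `e` that has degree one in `H`. -/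
def delEdge {V : Type} (H : SimpleGraph V) (e : Sym2 V) :
    SimpleGraph {v : V | ¬ (v ∈ e ∧ (H.neighborSet v).ncard = 1)} :=
  (H.deleteEdges {e}).induce {v : V | ¬ (v ∈ e ∧ (H.neighborSet v).ncard = 1)}

end Pool.Agent.H30.AE
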