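import Pool.Agent.H30.AETri

set_option autoImplicit false

namespace Pool.Agent.H30.AE

open Finset

def Cherry {n : ℕ} (A : Finset (Sym2 (Fin n))) : Prop :=
  ∃ x y v : Fin n, x ≠ y ∧ x ≠ v ∧ y ≠ v ∧ s(x, v) ∈ A ∧ s(y, v) ∈ A

def Touch {n : ℕ} (A : Finset (Sym2 (Fin n))) (e : Sym2 (Fin n)) : Prop :=
  ∃ f ∈ A, ∃ v, v ∈ e ∧ v ∈ f

theorem cherry_of {n : ℕ} (A : Finset (Sym2 (Fin n))) (hA : A ⊆ board n) (f g : Sym2 (Fin n))
    (hf : f ∈ A) (hg : g ∈ A) (hfg : f ≠ g) (v : Fin n) (h1 : v ∈ f) (h2 : v ∈ g) : Cherry A := by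
  obtain ⟨x, rfl⟩ := Sym2.mem_iff_exists.1 h1
  obtain ⟨y, rfl⟩ := Sym2.mem_iff_exists.1 h2
  have a1 := mem_board.1 (hA hf)
  have a2 := mem_board.1 (hA hg)
  simp only [Sym2.mk_isDiag_iff] at a1 a2
  refine ⟨x, y, v, ?_, Ne.symm a1, Ne.symm a2, by rw [Sym2.eq_swap]; exact hf,
    by rw [Sym2.eq_swap]; exact hg⟩
  rintro rfl; exact hfg rfl

def bip {n : ℕ} (U W : Finset (Fin n)) : Finset (Sym2 (Fin n)) :=
  (U ×ˢ W).image (fun p => s(p.1, p.2))

theorem card_bip {n : ℕ} (U W : Finset (Fin n)) (h : Disjoint U W) :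
    (bip U W).card = U.card * W.card := by
  unfold bip
  rw [Finset.card_image_of_injOn, Finset.card_product]
  rintro ⟨a, b⟩ h1 ⟨c, d⟩ h2 h3
  simp only [Finset.coe_product, Set.mem_prod, Finset.mem_coe] at h1 h2 h3
  rcases Sym2.eq_iff.1 h3 with ⟨rfl, rfl⟩ | ⟨rfl, rfl⟩
  · rfl
  · exact absurd h2.2 (Finset.disjoint_left.1 h h1.1)

theorem mem_bip {n : ℕ} {U W : Finset (Fin n)} {e : Sym2 (Fin n)} (h : e ∈ bip U W) :
    ∃ a ∈ U, ∃ b ∈ W, e = s(a, b) := by
  obtain ⟨p, hp, rfl⟩ := Finset.mem_image.1 h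
  rw [Finset.mem_product] at hp
  exact ⟨_, hp.1, _, hp.2, rfl⟩

theorem card_lt {n : ℕ} (a b : ℕ) (hb : b ≤ n) :
    (Finset.univ.filter (fun v : Fin n => a ≤ v.val ∧ v.val < b)).card = b - a := by
  rw [← Nat.card_Ico]
  apply Finset.card_bij (fun v _ => v.val)
  · intro v hv; simpa using hv
  · intro v _ w _ h; exact Fin.ext h
  · intro x hx
    rw [Finset.mem_Ico] at hx
    exact ⟨⟨x, by omega⟩, by simpa using hx, rfl⟩

theorem card_verts_eq {n : ℕ} (A : Finset (Sym2 (Fin n))) (hA : A ⊆ board n) (hc : ¬ Cherry A) :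
    (A.biUnion Sym2.toFinset).card = 2 * A.card := by
  rw [Finset.card_biUnion, Finset.sum_congr rfl (g := fun _ => 2)]
  · simp [mul_comm]
  · intro e he
    rw [Sym2.card_toFinset, if_neg (mem_board.1 (hA he))]
  · intro f hf g hg hfg
    rw [Function.onFun, Finset.disjoint_left]
    intro v h1 h2
    exact hc (cherry_of A hA f g hf hg hfg v (by simpa using h1) (by simpa using h2))

open Classical in
theorem many_touch {n k : ℕ} (hk : 4 * k ≤ n) (A B : Finset (Sym2 (Fin n))) (hA : A ⊆ board n)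
    (hc : ¬ Cherry A) (hB : ∀ e ∈ B, ∀ v ∈ e, v.val < 2 * k) :
    A.card * (2 * k) ≤ ((board n \ (A ∪ B)).filter (Touch A)).card + A.card := by
  set L := Finset.univ.filter (fun v : Fin n => 0 ≤ v.val ∧ v.val < 2 * k) with hL
  set R := Finset.univ.filter (fun v : Fin n => 2 * k ≤ v.val ∧ v.val < n) with hR
  have cL : L.card = 2 * k := by rw [hL, card_lt _ _ (by omega)]; omega
  have cR : 2 * k ≤ R.card := by rw [hR, card_lt _ _ le_rfl]; omega
  set VA := A.biUnion Sym2.toFinset with hVA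
  have cV : VA.card = 2 * A.card := card_verts_eq A hA hc
  have split : VA.card ≤ (VA ∩ L).card + (VA ∩ R).card := by
    refine le_trans (Finset.card_le_card ?_) (Finset.card_union_le _ _)
    intro v hv
    simp only [hL, hR, Finset.mem_union, Finset.mem_inter, Finset.mem_filter, Finset.mem_univ,
      true_and]
    have := v.2
    by_cases h : v.val < 2 * k
    · exact Or.inl ⟨hv, by omega, h⟩
    · exact Or.inr ⟨hv, by omega, this⟩
  have key : ∀ U W : Finset (Fin n), U ⊆ L → W ⊆ R → (U ⊆ VA ∨ W ⊆ VA) →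
      U.card * W.card ≤ ((board n \ (A ∪ B)).filter (Touch A)).card + A.card := by
    intro U W hU hW hUW
    have hd : Disjoint U W := by
      rw [Finset.disjoint_left]
      intro v h1 h2
      have := hU h1
      have := hW h2
      simp only [hL, hR, Finset.mem_filter] at *
      omega
    rw [← card_bip U W hd]
    refine le_trans (Finset.card_le_card ?_) (Finset.card_union_le _ _)
    intro e he
    obtain ⟨a, ha, b, hb, rfl⟩ := mem_bip he
    by_cases hin : s(a, b) ∈ A
    · exact Finset.mem_union_right _ hin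
    apply Finset.mem_union_left
    have ha' := hU ha
    have hb' := hW hb
    simp only [hL, hR, Finset.mem_filter] at ha' hb'
    simp only [Finset.mem_filter, Finset.mem_sdiff, Finset.mem_union, not_or, mem_board,
      Sym2.mk_isDiag_iff]
    refine ⟨⟨?_, hin, ?_⟩, ?_⟩
    · rintro rfl; omega
    · intro h; have := hB _ h b (by simp); omega
    · rcases hUW with h | h
      · obtain ⟨f, hf, hv⟩ := Finset.mem_biUnion.1 (h ha)
        exact ⟨f, hf, a, by simp, by simpa using hv⟩
      · obtain ⟨f, hf, hv⟩ := Finset.mem_biUnion.1 (h hb)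
        exact ⟨f, hf, b, by simp, by simpa using hv⟩
  by_cases h : A.card ≤ (VA ∩ L).card
  · exact le_trans (Nat.mul_le_mul h cR)
      (key _ _ Finset.inter_subset_right subset_rfl (Or.inl Finset.inter_subset_left))
  · have := key L (VA ∩ R) subset_rfl Finset.inter_subset_right (Or.inr Finset.inter_subset_left)
    rw [cL, mul_comm] at this
    exact le_trans (Nat.mul_le_mul_right _ (by omega)) this

open Classical in
theorem enf_path {V : Type} (H : SimpleGraph V) (n b k : ℕ) (hk : 4 * k ≤ n) (hk1 : 1 ≤ k)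
    (hb : (b + 1) ^ 2 ≤ k ^ 3)
    (hH : ∀ A : Finset (Sym2 (Fin n)), Cherry A →
      H.IsContained (SimpleGraph.fromEdgeSet (A : Set (Sym2 (Fin n))))) :
    EnforcerWins H n b := by
  set LL := (board n).filter (fun e => ∀ v ∈ e, v.val < 2 * k) with hLL
  have cLL : k * k ≤ LL.card := by
    have h1 := card_lt (n := n) 0 k (by omega)
    have h2 := card_lt (n := n) k (2 * k) (by omega)
    have h3 := card_bip (Finset.univ.filter (fun v : Fin n => 0 ≤ v.val ∧ v.val < k))
      (Finset.univ.filter (fun v : Fin n => k ≤ v.val ∧ v.val < 2 * k)) (by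
        rw [Finset.disjoint_left]; intro v h1 h2; simp only [Finset.mem_filter] at h1 h2; omega)
    rw [h1, h2, show 2 * k - k = k by omega, Nat.sub_zero] at h3
    rw [← h3]
    apply Finset.card_le_card
    intro e he
    obtain ⟨a, ha, c, hc, rfl⟩ := mem_bip he
    simp only [Finset.mem_filter] at ha hc
    simp only [hLL, Finset.mem_filter, mem_board, Sym2.mk_isDiag_iff, Sym2.mem_iff]
    refine ⟨by rintro rfl; omega, ?_⟩
    rintro v (rfl | rfl) <;> omega
  refine ⟨{p | p.1 ⊆ board n ∧ (Cherry p.1 ∨ (p.2 ⊆ LL ∧ p.2.card = p.1.card * b) ∨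
    b + 1 ≤ ((board n \ (p.1 ∪ p.2)).filter (Touch p.1)).card ∨
    ((board n \ (p.1 ∪ p.2)).Nonempty ∧ ∀ e ∈ board n \ (p.1 ∪ p.2), Touch p.1 e))},
    ⟨by simp, Or.inr (Or.inl (by simp))⟩, ?_⟩
  rintro ⟨A, B⟩ ⟨hA, hp⟩
  simp only at hA hp ⊢
  have hk2 : 1 ≤ k * k := Nat.mul_pos hk1 hk1
  constructor
  · intro hF
    apply hH
    by_contra hc
    rcases hp with h | ⟨h1, h2⟩ | h | ⟨h, -⟩
    · exact hc h
    · have t := many_touch hk A B hA hc (fun e he => (Finset.mem_filter.1 (h1 he)).2)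
      rw [hF] at t
      simp only [Finset.filter_empty, Finset.card_empty, zero_add] at t
      have hA0 : A.card = 0 := by
        by_contra h0
        have : 1 ≤ A.card := by omega
        nlinarith
      rw [hA0, zero_mul] at h2
      rw [Finset.card_eq_zero] at hA0 h2
      subst hA0 h2
      have : LL ⊆ ∅ := by
        rw [← hF, Finset.union_empty, Finset.sdiff_empty]; exact Finset.filter_subset _ _
      have := Finset.card_le_card this
      simp only [Finset.card_empty] at this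
      omega
    · rw [hF] at h; simp at h
    · rw [hF] at h; simp at h
  · intro e he
    have he' := he
    simp only [Finset.mem_sdiff, Finset.mem_union, not_or] at he'
    have hA' : insert e A ⊆ board n := Finset.insert_subset he'.1 hA
    set F := board n \ insert e (A ∪ B) with hF
    have eF : ∀ T, board n \ (insert e A ∪ (B ∪ T)) = F \ T := by
      intro T; ext x
      simp only [hF, Finset.mem_sdiff, Finset.mem_union, Finset.mem_insert]; tauto
    have eF0 : board n \ (insert e A ∪ B) = F := by rw [Finset.insert_union]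
    by_cases hc : Cherry (insert e A)
    · obtain ⟨T, t1, t2⟩ := Finset.exists_subset_card_eq (s := F) (n := min b F.card)
        (min_le_right _ _)
      exact ⟨T, t1, t2, hA', Or.inl hc⟩
    have hnt : ¬ Touch A e := by
      rintro ⟨f, hf, v, h1, h2⟩
      exact hc (cherry_of _ hA' e f (by simp) (by simp [hf]) (by rintro rfl; exact he'.2.1 hf)
        v h1 h2)
    have gen : b + 1 ≤ (F.filter (Touch (insert e A))).card →
        ∃ T ⊆ F, T.card = min b F.card ∧ (insert e A ⊆ board n ∧ (Cherry (insert e A) ∨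
          (B ∪ T ⊆ LL ∧ (B ∪ T).card = (insert e A).card * b) ∨
          b + 1 ≤ ((board n \ (insert e A ∪ (B ∪ T))).filter (Touch (insert e A))).card ∨
          ((board n \ (insert e A ∪ (B ∪ T))).Nonempty ∧
            ∀ x ∈ board n \ (insert e A ∪ (B ∪ T)), Touch (insert e A) x))) := by
      intro hD
      have hDF := Finset.card_filter_le F (Touch (insert e A))
      by_cases hs : b ≤ (F.filter (fun x => ¬ Touch (insert e A) x)).card
      · obtain ⟨T, t1, t2⟩ := Finset.exists_subset_card_eq hs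
        refine ⟨T, t1.trans (Finset.filter_subset _ _), by omega, hA',
          Or.inr (Or.inr (Or.inl ?_))⟩
        refine le_trans hD (Finset.card_le_card ?_)
        rw [eF]
        intro x hx
        rw [Finset.mem_filter] at hx
        rw [Finset.mem_filter, Finset.mem_sdiff]
        exact ⟨⟨hx.1, fun h => (Finset.mem_filter.1 (t1 h)).2 hx.2⟩, hx.2⟩
      · obtain ⟨T, t1, t2, t3⟩ := Finset.exists_subsuperset_card_eq
          (Finset.filter_subset (fun x => ¬ Touch (insert e A) x) F) (n := b) (by omega)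
          (by omega)
        refine ⟨T, t2, by omega, hA', Or.inr (Or.inr (Or.inr ⟨?_, ?_⟩))⟩
        · rw [eF, ← Finset.card_pos, Finset.card_sdiff_of_subset t2]; omega
        · rw [eF]
          intro x hx
          rw [Finset.mem_sdiff] at hx
          by_contra h
          exact hx.2 (t1 (Finset.mem_filter.2 ⟨hx.1, h⟩))
    rcases hp with h | ⟨h1, h2⟩ | h | ⟨-, h⟩
    · exfalso
      obtain ⟨x, y, v, a1, a2, a3, a4, a5⟩ := h
      exact hc ⟨x, y, v, a1, a2, a3, Finset.mem_insert_of_mem a4, Finset.mem_insert_of_mem a5⟩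
    · by_cases hs : b ≤ (F ∩ LL).card
      · obtain ⟨T, t1, t2⟩ := Finset.exists_subset_card_eq hs
        have t3 : T ⊆ F := t1.trans Finset.inter_subset_left
        have t4 := Finset.card_le_card t3
        refine ⟨T, t3, by omega, hA', Or.inr (Or.inl ⟨Finset.union_subset h1
          (t1.trans Finset.inter_subset_right), ?_⟩)⟩
        simp only
        rw [Finset.card_union_of_disjoint, Finset.card_insert_of_notMem he'.2.1, h2, t2]
        · ring
        · rw [Finset.disjoint_right]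
          intro x hx hxB
          have := t3 hx
          simp [hF, hxB] at this
      · apply gen
        have t := many_touch hk (insert e A) B hA' hc
          (fun e he => (Finset.mem_filter.1 (h1 he)).2)
        rw [eF0] at t
        have u : LL.card ≤ (F ∩ LL).card + ((insert e A).card + B.card) := by
          refine le_trans (Finset.card_le_card (t := (F ∩ LL) ∪ (insert e A ∪ B)) ?_)
            (le_trans (Finset.card_union_le _ _)
              (Nat.add_le_add_left (Finset.card_union_le _ _) _))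
          intro x hx
          have := (Finset.mem_filter.1 hx).1
          simp only [hF, Finset.mem_union, Finset.mem_inter, Finset.mem_sdiff,
            Finset.mem_insert]
          tauto
        rw [Finset.card_insert_of_notMem he'.2.1] at t u
        set a := A.card + 1 with ha
        set D := (F.filter (Touch (insert e A))).card
        have v1 : k * k ≤ a * (b + 1) := by rw [ha]; nlinarith
        have v2 : a * k ≤ D := by nlinarith
        by_contra hlt
        push Not at hlt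
        have v3 : k * k * k ≤ a * (b + 1) * k := Nat.mul_le_mul_right _ v1
        have v4 : a * k * (b + 1) ≤ b * (b + 1) := Nat.mul_le_mul_right _ (by omega)
        nlinarith
    · apply gen
      refine le_trans h (Finset.card_le_card ?_)
      intro x hx
      rw [Finset.mem_filter] at hx
      obtain ⟨hx1, f, hf, hv⟩ := hx
      rw [Finset.mem_filter]
      refine ⟨?_, f, Finset.mem_insert_of_mem hf, hv⟩
      simp only [hF, Finset.mem_sdiff, Finset.mem_insert, not_or] at hx1 ⊢
      refine ⟨hx1.1, ?_, hx1.2⟩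
      rintro rfl
      exact hnt ⟨f, hf, hv⟩
    · exact absurd (h e he) hnt

theorem mem_sub (v : Fin 3) : v ∈ {v : Fin 3 | ¬ (v ∈ s((0 : Fin 3), 1) ∧
    (((⊤ : SimpleGraph (Fin 3)).neighborSet v).ncard = 1))} := by
  rintro ⟨-, h⟩
  rw [Set.ncard_eq_toFinset_card'] at h
  revert v; decide

theorem path_contained {n : ℕ} (A : Finset (Sym2 (Fin n))) (h : Cherry A) :
    (delEdge (⊤ : SimpleGraph (Fin 3)) s(0, 1)).IsContained
      (SimpleGraph.fromEdgeSet (A : Set (Sym2 (Fin n)))) := by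
  obtain ⟨x, y, v, a1, a2, a3, a4, a5⟩ := h
  refine ⟨⟨⟨fun i => ![x, y, v] i.1, ?_⟩, ?_⟩⟩
  · rintro ⟨i, hi⟩ ⟨j, hj⟩ hij
    simp only [delEdge, SimpleGraph.comap_adj, Function.Embedding.subtype_apply,
      SimpleGraph.deleteEdges_adj, SimpleGraph.top_adj, Set.mem_singleton_iff] at hij
    rw [SimpleGraph.fromEdgeSet_adj]
    have a4' : s(v, x) ∈ A := by rw [Sym2.eq_swap]; exact a4
    have a5' : s(v, y) ∈ A := by rw [Sym2.eq_swap]; exact a5
    dsimp only
    clear hi hj
    fin_cases i <;> fin_cases j <;> simp_all [eq_comm]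
  · rintro ⟨i, hi⟩ ⟨j, hj⟩ hij
    simp only [RelHom.coeFn_mk] at hij
    apply Subtype.ext
    dsimp only
    clear hi hj
    fin_cases i <;> fin_cases j <;> simp_all [eq_comm]

theorem path_big (n b : ℕ) (hn : 2 ≤ n) (hb : n.choose 2 ≤ b) :
    ¬ EnforcerWins (delEdge (⊤ : SimpleGraph (Fin 3)) s(0, 1)) n b := by
  rintro ⟨S, h0, hS⟩
  have he : s((⟨0, by omega⟩ : Fin n), (⟨1, by omega⟩ : Fin n)) ∈ board n \ (∅ ∪ ∅) := by
    simp [mem_board]
  obtain ⟨T, t1, t2, t3⟩ := (hS _ h0).2 _ he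
  have hc := free_step (b := b) ∅ ∅ T _ he t1 t2
  have h1 : (board n \ (∅ ∪ ∅)).card = n.choose 2 := by simp [card_board]
  rw [h1, show n.choose 2 - (b + 1) = 0 by omega, Finset.card_eq_zero] at hc
  obtain ⟨f⟩ := (hS _ t3).1 hc
  have adj : ∀ i : Fin 3, i ≠ 2 → s(f ⟨i, mem_sub i⟩, f ⟨2, mem_sub 2⟩)
      = s((⟨0, by omega⟩ : Fin n), (⟨1, by omega⟩ : Fin n)) := by
    intro i hi
    have : (delEdge (⊤ : SimpleGraph (Fin 3)) s(0, 1)).Adj ⟨i, mem_sub i⟩ ⟨2, mem_sub 2⟩ := by
      simp only [delEdge, SimpleGraph.comap_adj, Function.Embedding.subtype_apply,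
        SimpleGraph.deleteEdges_adj, SimpleGraph.top_adj, Set.mem_singleton_iff]
      revert i; decide
    have := f.toHom.map_adj this
    rw [SimpleGraph.fromEdgeSet_adj] at this
    have t := this.1
    simp only [Finset.mem_coe, Finset.mem_insert, Finset.notMem_empty, or_false] at t
    exact t
  have := (adj 0 (by decide)).trans (adj 1 (by decide)).symm
  rw [Sym2.congr_left] at this
  have := f.injective this
  simp at this

theorem fMinus_ge (n m : ℕ) (hn : 4 ≤ n) (hm : (m + 1) ^ 2 ≤ (n / 4) ^ 3) :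
    m ≤ fMinus (delEdge (⊤ : SimpleGraph (Fin 3)) s(0, 1)) n := by
  apply le_csSup
  · refine ⟨n.choose 2 + 1, fun x hx => ?_⟩
    by_contra h
    exact path_big n (n.choose 2 + 1) (by omega) (by omega) (hx _ (by omega) (by omega))
  · intro b _ hb
    exact enf_path _ n b (n / 4) (by omega) (by omega)
      (le_trans (Nat.pow_le_pow_left (by omega) 2) hm) path_contained

theorem fPlus_small (c : ℝ) (hc : 0 < c) (n0 : ℕ) :
    ∃ n, n0 ≤ n ∧ (fPlus (⊤ : SimpleGraph (Fin 3)) n : ℝ)
      < c * fMinus (delEdge (⊤ : SimpleGraph (Fin 3)) s(0, 1)) n := by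
  obtain ⟨n, h1, h2⟩ := tri_main ⌈500 / c ^ 2⌉₊ (n0 + 12) (Nat.ceil_pos.2 (by positivity))
  refine ⟨n, by omega, ?_⟩
  by_contra hlt
  push Not at hlt
  set k := n / 4 with hk
  have hk3 : 3 ≤ k := by omega
  have hk27 : 27 ≤ k ^ 3 := le_trans (by norm_num) (Nat.pow_le_pow_left hk3 3)
  set s := Nat.sqrt (k ^ 3) with hs
  have hs3 : 3 ≤ s := Nat.le_sqrt.2 (by omega)
  have hm := fMinus_ge n (s - 1) (by omega) (by
    rw [show s - 1 + 1 = s by omega]; exact Nat.sqrt_le' _)
  set m := fMinus (delEdge (⊤ : SimpleGraph (Fin 3)) s(0, 1)) n with hmdef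
  set b := fPlus (⊤ : SimpleGraph (Fin 3)) n with hb
  have hm2 : 2 ≤ m := by omega
  have hm2' : (2 : ℝ) ≤ m := by exact_mod_cast hm2
  have hb0 : b ≠ 0 := by
    intro h; rw [h] at hlt; push_cast at hlt; nlinarith
  have hw : EnforcerWins (⊤ : SimpleGraph (Fin 3)) n b := by
    by_cases hbd : BddAbove {b : ℕ | 1 ≤ b ∧ EnforcerWins (⊤ : SimpleGraph (Fin 3)) n b}
    · rcases Set.eq_empty_or_nonempty
        {b : ℕ | 1 ≤ b ∧ EnforcerWins (⊤ : SimpleGraph (Fin 3)) n b} with h | h
      · exact absurd (by rw [hb, fPlus, h]; simp) hb0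
      · exact (Nat.sSup_mem h hbd).2
    · exact absurd (by rw [hb, fPlus, csSup_of_not_bddAbove hbd]; simp) hb0
  apply h2 b _ hw
  have a1 : k ^ 3 < (s + 1) ^ 2 := Nat.lt_succ_sqrt' _
  have a2 : (s + 1) ^ 2 ≤ (2 * m) ^ 2 := Nat.pow_le_pow_left (by omega) 2
  have a3 : n ^ 3 ≤ (5 * k) ^ 3 := Nat.pow_le_pow_left (by omega) 3
  have a4 : n ^ 3 ≤ 500 * m ^ 2 := by nlinarith
  have a5 : (n : ℝ) ^ 3 ≤ 500 * (m : ℝ) ^ 2 := by exact_mod_cast a4
  have a6 : (c * m) ^ 2 ≤ (b : ℝ) ^ 2 := pow_le_pow_left₀ (by positivity) hlt 2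
  have a7 : 500 / c ^ 2 ≤ (⌈500 / c ^ 2⌉₊ : ℝ) := Nat.le_ceil _
  have a8 : 500 * (m : ℝ) ^ 2 ≤ 500 / c ^ 2 * (b : ℝ) ^ 2 := by
    rw [div_mul_eq_mul_div, le_div_iff₀ (by positivity)]; nlinarith
  have a9 : (n : ℝ) ^ 3 ≤ (⌈500 / c ^ 2⌉₊ : ℝ) * (b : ℝ) ^ 2 :=
    le_trans a5 (le_trans a8 (mul_le_mul_of_nonneg_right a7 (by positivity)))
  exact_mod_cast a9

end Pool.Agent.H30.AE
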