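import Pool.Agent.H30.DivGap2

set_option autoImplicit false

namespace Pool.Agent.H30.DivGap

open Finset

open Classical in
theorem exists_params (K C n0 : ℕ) (hK : 1 ≤ K) (hC : 1 ≤ C) :
    ∃ M, n0 ≤ M ∧ 1 ≤ M ∧ ∃ x < M * M, ∀ r, 1 ≤ r → r ≤ K → ∀ q : ℕ,
      (q : ℤ) ∣ g (8 * K + 1) r (M * M + x) →
      (8 * K + 1).factorial * M ≤ 3 * K * q → q ≤ 2 * C * ((8 * K + 1).factorial * M) → False := by
  set P := 8 * K + 1 with hP
  set F := P.factorial with hF
  have hF1 : 1 ≤ F := Nat.factorial_pos P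
  set D := 2 * C * (144 * K ^ 2) ^ 2 + 4 * F + 1 + n0 with hD
  obtain ⟨z, hz0, hs⟩ := exists_z P (2 * 216 * 87 * K ^ 3 * C) (2 * C * F * D + P + 9)
  set s := ∑ p ∈ QQ P z, (1 : ℝ) / p with hsdef
  set w := ⌈2 * K * s⌉₊ with hw
  have hK' : (1 : ℝ) ≤ K := by exact_mod_cast hK
  have hC' : (1 : ℝ) ≤ C := by exact_mod_cast hC
  have hs1 : 1 ≤ s := by
    have : (1 : ℝ) ≤ K ^ 3 * C := one_le_mul_of_one_le_of_one_le (one_le_pow₀ hK') hC'
    nlinarith
  have hw1 : 2 * K * s ≤ w := Nat.le_ceil _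
  have hw2 : (w : ℝ) ≤ 2 * K * s + 1 := (Nat.ceil_lt_add_one (by positivity)).le
  set E := 3 * (2 * K * z) ^ (6 * w + 2) with hE
  have hz9 : 9 ≤ z := by omega
  have hE1 : 1 ≤ E := by
    have : 1 ≤ (2 * K * z) ^ (6 * w + 2) := Nat.one_le_pow _ _ (by positivity)
    omega
  have h8 : 1 ≤ 8 ^ w := Nat.one_le_pow _ _ (by norm_num)
  set M := D * E ^ 2 * 8 ^ w with hM
  have hDM : D * E ^ 2 ≤ M := Nat.le_mul_of_pos_right _ h8
  have hDM2 : D ≤ M := le_trans (Nat.le_mul_of_pos_right _ (by positivity)) hDM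
  refine ⟨M, by omega, by omega, ?_⟩
  apply sieve_step K C P z w M hK le_rfl (by omega) hw1
  · set Y := F * M with hY
    have hMY : M ≤ Y := Nat.le_mul_of_pos_left _ hF1
    have hY1 : 1 ≤ Y := by omega
    set X := Nat.sqrt (2 * C * Y) with hX
    have hzN : (z : ℝ) ≤ 2 * K * z := by
      have : (0 : ℝ) ≤ z := Nat.cast_nonneg z
      nlinarith
    have hz9' : (9 : ℝ) ≤ z := by exact_mod_cast hz9
    have t := sum_tau P z w (2 * C * Y) X (2 * K * z) (by nlinarith) hzN (by nlinarith)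
      (fun a ha => Nat.le_sqrt.2 ha)
    refine le_trans t ?_
    rw [← hsdef]
    set L := ∑ a ∈ (Icc 1 X).filter (Rough z), (1 : ℝ) / a with hL
    have hX1 : 1 ≤ X := Nat.le_sqrt.2 (by nlinarith)
    have hXz : X * z ≤ z ^ (25 * w + 11) := by
      have a1 : X ≤ 2 * C * Y := Nat.sqrt_le_self _
      have a2 : 2 * C * F * D ≤ z := by omega
      have a3 : 8 ^ w ≤ z ^ w := Nat.pow_le_pow_left (by omega) w
      have a4 : E ^ 2 ≤ z * z ^ (24 * w + 8) := by
        have b1 : 2 * K * z ≤ z ^ 2 := by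
          rw [pow_two]; exact Nat.mul_le_mul_right _ (by omega)
        have b2 : (2 * K * z) ^ (6 * w + 2) ≤ (z ^ 2) ^ (6 * w + 2) := Nat.pow_le_pow_left b1 _
        have b3 : ((2 * K * z) ^ (6 * w + 2)) ^ 2 ≤ ((z ^ 2) ^ (6 * w + 2)) ^ 2 :=
          Nat.pow_le_pow_left b2 _
        have b4 : ((z ^ 2) ^ (6 * w + 2)) ^ 2 = z ^ (24 * w + 8) := by
          rw [← pow_mul, ← pow_mul]; congr 1; ring
        rw [hE, mul_pow, ← b4]
        exact Nat.mul_le_mul (by omega) b3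
      calc X * z ≤ 2 * C * Y * z := Nat.mul_le_mul_right _ a1
        _ = (2 * C * F * D) * E ^ 2 * 8 ^ w * z := by rw [hY, hM]; ring
        _ ≤ z * (z * z ^ (24 * w + 8)) * z ^ w * z :=
          Nat.mul_le_mul_right _ (Nat.mul_le_mul (Nat.mul_le_mul a2 a4) a3)
        _ = z ^ (25 * w + 11) := by ring
    have hlog1 : 1 ≤ Real.log z := by
      rw [Real.le_log_iff_exp_le (by linarith)]
      linarith [Real.exp_one_lt_d9]
    have hLb : L ≤ 25 * w + 12 := by
      have r1 := rough_harm z X (by omega)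
      rw [← hL] at r1
      have r2 : Real.log (X * z) ≤ (25 * w + 11 : ℕ) * Real.log z := by
        rw [← Real.log_pow]
        apply Real.log_le_log
        · have : (1 : ℝ) ≤ X := by exact_mod_cast hX1
          positivity
        · exact_mod_cast hXz
      push_cast at r2
      by_contra hlt
      push Not at hlt
      nlinarith
    have hL2 : L ≤ 87 * K * s := by nlinarith
    have hL0 : 0 ≤ L := Finset.sum_nonneg (fun _ _ => by positivity)
    have hexp : 216 * K ^ 2 * C * L ≤ Real.exp s := by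
      have q1 := Real.quadratic_le_exp_of_nonneg (x := s) (by linarith)
      have q2 : 216 * K ^ 2 * C * L ≤ 216 * K ^ 2 * C * (87 * K * s) :=
        mul_le_mul_of_nonneg_left hL2 (by positivity)
      nlinarith
    have hY0 : (0 : ℝ) < Y := by exact_mod_cast hY1
    have c1 : 3 * ((2 * C * Y : ℕ) : ℝ) * Real.exp (-s) * L ≤ Y / (36 * K ^ 2) := by
      rw [le_div_iff₀ (by positivity), Real.exp_neg]
      push_cast
      have he := Real.exp_pos s
      have : 216 * K ^ 2 * C * L * (Real.exp s)⁻¹ ≤ 1 := by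
        rw [← div_eq_mul_inv, div_le_one he]; exact hexp
      nlinarith
    have c2 : 144 * K ^ 2 * E * X ≤ Y := by
      have d1 : X * X ≤ 2 * C * Y := Nat.sqrt_le _
      have d2 : 2 * C * (144 * K ^ 2 * E) ^ 2 ≤ Y := by
        calc _ = 2 * C * (144 * K ^ 2) ^ 2 * E ^ 2 := by ring
          _ ≤ D * E ^ 2 := Nat.mul_le_mul_right _ (by omega)
          _ ≤ Y := by omega
      apply Nat.mul_self_le_mul_self_iff.1
      calc _ = (144 * K ^ 2 * E) ^ 2 * (X * X) := by ring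
        _ ≤ (144 * K ^ 2 * E) ^ 2 * (2 * C * Y) := Nat.mul_le_mul_left _ d1
        _ = (2 * C * (144 * K ^ 2 * E) ^ 2) * Y := by ring
        _ ≤ Y * Y := Nat.mul_le_mul_right _ d2
    have c3 : 12 * (2 * K * z : ℝ) ^ (6 * w + 2) * X ≤ Y / (36 * K ^ 2) := by
      rw [le_div_iff₀ (by positivity)]
      have : (144 * K ^ 2 * E * X : ℝ) ≤ Y := by exact_mod_cast c2
      rw [hE] at this
      push_cast at this
      linarith
    have c4 : (Y : ℝ) / (18 * K ^ 2) = Y / (36 * K ^ 2) + Y / (36 * K ^ 2) := by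
      field_simp; ring
    linarith
  · rw [← hE, ← hF]
    calc 4 * 8 ^ w * E * F < (4 * F + 1) * E * 8 ^ w := by nlinarith
      _ ≤ D * E ^ 2 * 8 ^ w := by
        apply Nat.mul_le_mul_right
        exact Nat.mul_le_mul (by omega) (by nlinarith)

/-- There are arbitrarily large `n` such that none of `C(n,2) - 1, …, C(n,2) - K` has a
divisor `i` with `n / 9 ≤ i ^ 2 ≤ C n`. -/
theorem gap (K C n0 : ℕ) (hK : 1 ≤ K) (hC : 1 ≤ C) :
    ∃ n, n0 ≤ n ∧ ∀ r, 1 ≤ r → r ≤ K → ∀ i : ℕ, (i : ℤ) ∣ ((n.choose 2 : ℕ) : ℤ) - r →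
      n ≤ 9 * i ^ 2 → i ^ 2 ≤ C * n → False := by
  obtain ⟨M, h0, h1, x, hx, H⟩ := exists_params K C n0 hK hC
  set P := 8 * K + 1 with hP
  have hF1 : 1 ≤ P.factorial := Nat.factorial_pos P
  refine ⟨2 * P.factorial ^ 2 * (M * M + x), ?_, ?_⟩
  · have : 1 ≤ P.factorial ^ 2 := Nat.one_le_pow _ _ hF1
    nlinarith
  intro r hr1 hr2 i hi h2 h3
  rw [choose_eq P r _ hr1 (by omega)] at hi
  set d := Nat.gcd i r with hd
  have hd0 : 0 < d := Nat.gcd_pos_of_pos_right _ hr1
  have hdr : d ≤ r := Nat.le_of_dvd hr1 (Nat.gcd_dvd_right _ _)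
  obtain ⟨q, hq⟩ : d ∣ i := Nat.gcd_dvd_left _ _
  obtain ⟨r', hr'⟩ : d ∣ r := Nat.gcd_dvd_right _ _
  have cop : Nat.Coprime q r' := by
    have := Nat.coprime_div_gcd_div_gcd (m := i) (n := r) hd0
    rw [← hd] at this
    have e1 : i / d = q := by rw [hq]; exact Nat.mul_div_cancel_left _ hd0
    have e2 : r / d = r' := by rw [hr']; exact Nat.mul_div_cancel_left _ hd0
    rwa [e1, e2] at this
  have hqg : (q : ℤ) ∣ g P r (M * M + x) := by
    have e1 : (i : ℤ) = d * q := by exact_mod_cast hq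
    have e2 : (r : ℤ) = d * r' := by exact_mod_cast hr'
    rw [e1, e2, mul_assoc] at hi
    have := Int.dvd_of_mul_dvd_mul_left (by exact_mod_cast hd0.ne') hi
    exact (Nat.isCoprime_iff_coprime.2 cop).dvd_of_dvd_mul_left this
  apply H r hr1 hr2 q hqg
  · have a1 : P.factorial * M ≤ 3 * i := by
      apply Nat.mul_self_le_mul_self_iff.1
      nlinarith [Nat.zero_le (P.factorial ^ 2 * x), Nat.zero_le (P.factorial ^ 2 * (M * M))]
    have a2 : i ≤ K * q := by rw [hq]; exact Nat.mul_le_mul_right _ (by omega)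
    nlinarith
  · have a1 : i ≤ 2 * C * (P.factorial * M) := by
      apply Nat.mul_self_le_mul_self_iff.1
      have b1 : P.factorial ^ 2 * x ≤ P.factorial ^ 2 * (M * M) := Nat.mul_le_mul_left _ hx.le
      have b2 : C * (P.factorial ^ 2 * x) ≤ C * (P.factorial ^ 2 * (M * M)) :=
        Nat.mul_le_mul_left _ b1
      have b3 : C * (P.factorial ^ 2 * (M * M)) ≤ C * (C * (P.factorial ^ 2 * (M * M))) :=
        Nat.le_mul_of_pos_left _ hC
      nlinarith
    have a2 : q ≤ i := by rw [hq]; exact Nat.le_mul_of_pos_left _ hd0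
    omega

end Pool.Agent.H30.DivGap
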