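import Pool.Agent.H30.AEDefs
import Pool.Agent.H30.DivGap

set_option autoImplicit false

namespace Pool.Agent.H30.AE

open Finset

theorem mem_board {n : ℕ} {e : Sym2 (Fin n)} : e ∈ board n ↔ ¬ e.IsDiag := by simp [board]

theorem card_board (n : ℕ) : (board n).card = n.choose 2 := by
  have := Sym2.card_subtype_not_diag (α := Fin n)
  rw [Fintype.card_subtype] at this
  simpa [board] using this

theorem free_step {n b : ℕ} (A B T : Finset (Sym2 (Fin n))) (e : Sym2 (Fin n))
    (he : e ∈ board n \ (A ∪ B)) (hT : T ⊆ board n \ (insert e (A ∪ B)))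
    (hc : T.card = min b (board n \ (insert e (A ∪ B))).card) :
    (board n \ (insert e A ∪ (B ∪ T))).card = (board n \ (A ∪ B)).card - (b + 1) := by
  have e1 : board n \ (insert e A ∪ (B ∪ T)) = (board n \ (insert e (A ∪ B))) \ T := by
    ext x; simp only [Finset.mem_sdiff, Finset.mem_union, Finset.mem_insert]; tauto
  have e2 : board n \ (insert e (A ∪ B)) = (board n \ (A ∪ B)).erase e := by
    ext x; simp only [Finset.mem_sdiff, Finset.mem_union, Finset.mem_insert, Finset.mem_erase]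
    tauto
  rw [e1, Finset.card_sdiff_of_subset hT, hc, e2, Finset.card_erase_of_mem he]
  omega

def TriFree {n : ℕ} (A : Finset (Sym2 (Fin n))) : Prop :=
  ∀ x y z : Fin n, x ≠ y → x ≠ z → y ≠ z → s(x, y) ∈ A → s(x, z) ∈ A → s(y, z) ∈ A → False

def IsM {n : ℕ} (M : Finset (Sym2 (Fin n))) : Prop :=
  ∀ v : Fin n, ∀ f ∈ M, ∀ g ∈ M, v ∈ f → v ∈ g → f = g

def Threat {n : ℕ} (A : Finset (Sym2 (Fin n))) (e : Sym2 (Fin n)) : Prop :=
  ∃ x y v : Fin n, e = s(x, y) ∧ x ≠ y ∧ s(x, v) ∈ A ∧ s(y, v) ∈ A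

theorem triFree_insert {n : ℕ} (A : Finset (Sym2 (Fin n))) (e : Sym2 (Fin n)) (h : TriFree A)
    (he : ¬ Threat A e) : TriFree (insert e A) := by
  intro x y z hxy hxz hyz h1 h2 h3
  simp only [Finset.mem_insert] at h1 h2 h3
  rcases h1 with h1 | h1 <;> rcases h2 with h2 | h2 <;> rcases h3 with h3 | h3
  · rw [← h2] at h1; simp only [Sym2.eq_iff] at h1; grind
  · rw [← h2] at h1; simp only [Sym2.eq_iff] at h1; grind
  · rw [← h3] at h1; simp only [Sym2.eq_iff] at h1; grind
  · exact he ⟨x, y, z, h1.symm, hxy, h2, h3⟩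
  · rw [← h3] at h2; simp only [Sym2.eq_iff] at h2; grind
  · exact he ⟨x, z, y, h2.symm, hxz, h1, by rw [Sym2.eq_swap]; exact h3⟩
  · exact he ⟨y, z, x, h3.symm, hyz, by rw [Sym2.eq_swap]; exact h1, by rw [Sym2.eq_swap]; exact h2⟩
  · exact h x y z hxy hxz hyz h1 h2 h3

theorem card_verts {n : ℕ} (X : Finset (Sym2 (Fin n))) :
    (X.biUnion Sym2.toFinset).card ≤ 2 * X.card := by
  refine le_trans Finset.card_biUnion_le ?_
  rw [mul_comm, ← smul_eq_mul]
  apply Finset.sum_le_card_nsmul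
  intro e _
  rw [Sym2.card_toFinset]; split_ifs <;> omega

theorem threats_le {n : ℕ} (M X F : Finset (Sym2 (Fin n))) (hM : IsM M)
    (hF : ∀ e ∈ F, Threat (M ∪ X) e) : F.card ≤ 36 * X.card ^ 2 := by
  classical
  set VX := X.biUnion Sym2.toFinset with hVX
  set MX := VX.biUnion (fun v => M.filter (fun f => v ∈ f)) with hMX
  have h1 : VX.card ≤ 2 * X.card := card_verts X
  have h2 : MX.card ≤ VX.card := by
    refine le_trans Finset.card_biUnion_le ?_
    rw [← mul_one VX.card, ← smul_eq_mul]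
    apply Finset.sum_le_card_nsmul
    intro v _
    rw [Finset.card_le_one]
    intro f hf g hg
    rw [Finset.mem_filter] at hf hg
    exact hM v f hf.1 g hg.1 hf.2 hg.2
  have h3 := card_verts MX
  set U := VX ∪ MX.biUnion Sym2.toFinset with hU
  have h4 : U.card ≤ 6 * X.card := le_trans (Finset.card_union_le _ _) (by omega)
  have key : ∀ x y v : Fin n, s(x, v) ∈ X → s(y, v) ∈ M ∪ X → x ∈ U ∧ y ∈ U := by
    intro x y v k1 k2
    have hx : x ∈ VX := Finset.mem_biUnion.2 ⟨_, k1, by simp⟩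
    have hv : v ∈ VX := Finset.mem_biUnion.2 ⟨_, k1, by simp⟩
    refine ⟨Finset.mem_union_left _ hx, ?_⟩
    rcases Finset.mem_union.1 k2 with k | k
    · apply Finset.mem_union_right
      exact Finset.mem_biUnion.2 ⟨_, Finset.mem_biUnion.2
        ⟨v, hv, Finset.mem_filter.2 ⟨k, by simp⟩⟩, by simp⟩
    · exact Finset.mem_union_left _ (Finset.mem_biUnion.2 ⟨_, k, by simp⟩)
  have h5 : F ⊆ (U ×ˢ U).image (fun p => s(p.1, p.2)) := by
    intro e he
    obtain ⟨x, y, v, rfl, hxy, k1, k2⟩ := hF e he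
    have : x ∈ U ∧ y ∈ U := by
      rcases Finset.mem_union.1 k1 with a | a
      · rcases Finset.mem_union.1 k2 with c | c
        · have := hM v _ a _ c (by simp) (by simp)
          simp only [Sym2.eq_iff] at this; grind
        · exact (key y x v c k1).symm
      · exact key x y v a k2
    exact Finset.mem_image.2 ⟨(x, y), Finset.mem_product.2 this, rfl⟩
  calc F.card ≤ _ := Finset.card_le_card h5
    _ ≤ (U ×ˢ U).card := Finset.card_image_le
    _ = U.card * U.card := Finset.card_product _ _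
    _ ≤ (6 * X.card) * (6 * X.card) := Nat.mul_le_mul h4 h4
    _ = _ := by ring

theorem touch_le {n : ℕ} (M F : Finset (Sym2 (Fin n)))
    (hF : ∀ e ∈ F, ∃ f ∈ M, ∃ v, v ∈ e ∧ v ∈ f) : F.card ≤ 2 * M.card * n := by
  have h5 : F ⊆ (M.biUnion Sym2.toFinset ×ˢ (Finset.univ : Finset (Fin n))).image
      (fun p => s(p.1, p.2)) := by
    intro e he
    obtain ⟨f, hf, v, hv1, hv2⟩ := hF e he
    refine Finset.mem_image.2 ⟨(v, Sym2.Mem.other hv1), ?_, Sym2.other_spec hv1⟩
    simp only [Finset.mem_product, Finset.mem_univ, and_true]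
    exact Finset.mem_biUnion.2 ⟨f, hf, by simpa using hv2⟩
  refine le_trans (Finset.card_le_card h5) (le_trans Finset.card_image_le ?_)
  rw [Finset.card_product]
  simp only [Finset.card_univ, Fintype.card_fin]
  exact Nat.mul_le_mul_right _ (card_verts M)

theorem arith (n b D i m x r : ℕ) (hD : n ^ 3 ≤ D * b ^ 2) (hn : 36 * D ^ 2 + 4 ≤ n)
    (hi : i = m + x) (hr : n.choose 2 = i * (b + 1) + r) (hr1 : 1 ≤ r) (hr2 : r ≤ 36 * x ^ 2)
    (hm : n.choose 2 ≤ m * (b + 1) + 2 * m * n) :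
    r ≤ 36 * D ^ 2 ∧ n ≤ 9 * i ^ 2 ∧ i ^ 2 ≤ D * n := by
  have hN : 2 * n.choose 2 + n = n * n := by
    rw [Nat.choose_two_right]
    have h1 : 2 ∣ n * (n - 1) := (Nat.even_mul_pred_self n).two_dvd
    rw [Nat.mul_div_cancel' h1]
    obtain ⟨k, rfl⟩ : ∃ k, n = k + 1 := ⟨n - 1, by omega⟩
    simp; ring
  have hx1 : 1 ≤ x := by
    rcases Nat.eq_zero_or_pos x with h | h
    · subst h; omega
    · exact h
  have h1 : x * (b + 1) < 2 * i * n := by subst hi; nlinarith
  have h2 : 2 * (i * (b + 1)) < n * n := by omega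
  have h3 : x * (b + 1) * (b + 1) < n ^ 3 := by
    have : x * (b + 1) * (b + 1) ≤ 2 * i * n * (b + 1) := Nat.mul_le_mul_right _ h1.le
    have h4 : 2 * (i * (b + 1)) * n < n * n * n := Nat.mul_lt_mul_of_pos_right h2 (by omega)
    nlinarith
  have h4 : x ≤ D := by
    by_contra h
    push Not at h
    have : D * ((b + 1) * (b + 1)) ≤ x * ((b + 1) * (b + 1)) := Nat.mul_le_mul_right _ h.le
    nlinarith
  have h5 : r ≤ 36 * D ^ 2 := le_trans hr2 (by nlinarith)
  refine ⟨h5, ?_, ?_⟩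
  · by_contra h
    push Not at h
    have a1 : b + 1 ≤ 2 * i * n := by nlinarith
    have a2 : i * (b + 1) ≤ i * (2 * i * n) := Nat.mul_le_mul_left _ a1
    have a3 : 9 * i ^ 2 * n ≤ n * n := Nat.mul_le_mul_right _ h.le
    nlinarith
  · by_contra h
    push Not at h
    have a1 : (i * (b + 1)) * (i * (b + 1)) ≤ (n * n) * (n * n) :=
      Nat.mul_le_mul (by omega) (by omega)
    have a2 : D * n * b ^ 2 ≤ i ^ 2 * b ^ 2 := Nat.mul_le_mul_right _ h.le
    have a3 : n ^ 3 * n ≤ D * b ^ 2 * n := Nat.mul_le_mul_right _ hD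
    have a4 : 1 ≤ i := by omega
    nlinarith

theorem avoider_tri (n b D : ℕ) (hD : n ^ 3 ≤ D * b ^ 2) (hn : 36 * D ^ 2 + 4 ≤ n)
    (hNT : ∀ r, 1 ≤ r → r ≤ 36 * D ^ 2 → ∀ i : ℕ, (i : ℤ) ∣ ((n.choose 2 : ℕ) : ℤ) - r →
      n ≤ 9 * i ^ 2 → i ^ 2 ≤ D * n → False) :
    ¬ EnforcerWins (⊤ : SimpleGraph (Fin 3)) n b := by
  classical
  rintro ⟨S, h0, hS⟩
  have main : ∀ k : ℕ, ∀ M X B : Finset (Sym2 (Fin n)), (M ∪ X, B) ∈ S → Disjoint M X → IsM M →
      TriFree (M ∪ X) →
      (board n \ ((M ∪ X) ∪ B)).card = n.choose 2 - (M.card + X.card) * (b + 1) →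
      (X = ∅ ∨ n.choose 2 ≤ M.card * (b + 1) + 2 * M.card * n) →
      (board n \ ((M ∪ X) ∪ B)).card ≤ k → False := by
    intro k
    induction k using Nat.strong_induction_on with
    | _ k ih =>
    intro M X B hp hd hM hT hc hX hk
    obtain ⟨hend, hstep⟩ := hS _ hp
    simp only at hend hstep
    set F := board n \ ((M ∪ X) ∪ B) with hF
    rcases F.eq_empty_or_nonempty with he | hne
    · obtain ⟨f⟩ := hend he
      have adj : ∀ i j : Fin 3, i ≠ j → s(f i, f j) ∈ M ∪ X := by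
        intro i j hij
        have := f.toHom.map_adj (show (⊤ : SimpleGraph (Fin 3)).Adj i j from hij)
        rw [SimpleGraph.fromEdgeSet_adj] at this
        exact Finset.mem_coe.1 this.1
      exact hT (f 0) (f 1) (f 2) (f.injective.ne (by decide)) (f.injective.ne (by decide))
        (f.injective.ne (by decide)) (adj _ _ (by decide)) (adj _ _ (by decide))
        (adj _ _ (by decide))
    have hFpos : 0 < F.card := Finset.card_pos.2 hne
    have nm : ∀ e ∈ F, e ∉ M ∧ e ∉ X := by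
      intro e he
      simp only [hF, Finset.mem_sdiff, Finset.mem_union, not_or] at he
      exact he.2.1
    by_cases hA : X = ∅ ∧ ∃ e ∈ F, ∀ f ∈ M, ∀ v, v ∈ e → v ∉ f
    · obtain ⟨rfl, e, he, hdisj⟩ := hA
      obtain ⟨T, t1, t2, t3⟩ := hstep e he
      have hc' := free_step _ _ T e he t1 t2
      rw [← Finset.insert_union] at t3 hc'
      apply ih (k - 1) (by omega) (insert e M) ∅ (B ∪ T) t3 (by simp)
      · intro v f hf g hg hvf hvg
        rcases Finset.mem_insert.1 hf with rfl | hf' <;>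
          rcases Finset.mem_insert.1 hg with rfl | hg'
        · rfl
        · exact absurd hvg (hdisj g hg' v hvf)
        · exact absurd hvf (hdisj f hf' v hvg)
        · exact hM v f hf' g hg' hvf hvg
      · rw [Finset.insert_union]
        apply triFree_insert _ _ hT
        rintro ⟨x, y, v, rfl, -, k1, -⟩
        simp only [Finset.union_empty] at k1
        exact hdisj _ k1 x (by simp) (by simp)
      · rw [hc', ← hF, hc, Finset.card_insert_of_notMem (nm e he).1]
        simp only [Finset.card_empty, add_zero]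
        rw [add_mul M.card 1]; omega
      · exact Or.inl rfl
      · rw [hc', ← hF]; omega
    · have hX' : n.choose 2 ≤ M.card * (b + 1) + 2 * M.card * n := by
        rcases hX with rfl | h
        · have : F.card ≤ 2 * M.card * n := by
            apply touch_le
            intro e he
            by_contra hcon
            apply hA
            refine ⟨rfl, e, he, fun f hf v hv hv' => hcon ⟨f, hf, v, hv, hv'⟩⟩
          simp only [Finset.card_empty, add_zero] at hc
          omega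
        · exact h
      have : ∃ e ∈ F, ¬ Threat (M ∪ X) e := by
        by_contra hcon
        push Not at hcon
        have t := threats_le M X F hM hcon
        have hr : n.choose 2 = (M.card + X.card) * (b + 1) + F.card := by omega
        obtain ⟨a1, a2, a3⟩ := arith n b D _ M.card X.card F.card hD hn rfl hr hFpos t hX'
        refine hNT F.card hFpos a1 (M.card + X.card) ⟨(b + 1 : ℕ), ?_⟩ a2 a3
        rw [hr]; push_cast; ring
      obtain ⟨e, he, hth⟩ := this
      obtain ⟨T, t1, t2, t3⟩ := hstep e he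
      have hc' := free_step _ _ T e he t1 t2
      rw [← Finset.union_insert] at t3 hc'
      apply ih (k - 1) (by omega) M (insert e X) (B ∪ T) t3
      · rw [Finset.disjoint_insert_right]; exact ⟨(nm e he).1, hd⟩
      · exact hM
      · rw [Finset.union_insert]; exact triFree_insert _ _ hT hth
      · rw [hc', ← hF, hc, Finset.card_insert_of_notMem (nm e he).2, ← add_assoc,
          add_mul (M.card + X.card) 1]
        omega
      · exact Or.inr hX'
      · rw [hc', ← hF]; omega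
  apply main _ ∅ ∅ ∅ (by simpa using h0) (by simp) (by intro v f hf; simp at hf)
    (by intro x y z _ _ _ h; simp at h) (by simp [card_board]) (Or.inl rfl) le_rfl

/-- For every `D` there are arbitrarily large `n` such that Avoider wins the triangle game for
every bias `b` with `n^3 ≤ D b^2`. -/
theorem tri_main (D n0 : ℕ) (hD : 1 ≤ D) :
    ∃ n, n0 ≤ n ∧ ∀ b, n ^ 3 ≤ D * b ^ 2 → ¬ EnforcerWins (⊤ : SimpleGraph (Fin 3)) n b := by
  obtain ⟨n, h1, h2⟩ := DivGap.gap (36 * D ^ 2) D (n0 + (36 * D ^ 2 + 4)) (by nlinarith) hD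
  exact ⟨n, by omega, fun b hb => avoider_tri n b D hb (by omega) h2⟩

theorem cube_le (c : ℝ) (hc : 0 < c) (n b : ℕ) (h : c * (n : ℝ) ^ ((3 : ℝ) / 2) ≤ b) :
    n ^ 3 ≤ ⌈1 / c ^ 2⌉₊ * b ^ 2 := by
  have h1 : ((n : ℝ) ^ ((3 : ℝ) / 2)) ^ 2 = (n : ℝ) ^ 3 := by
    rw [← Real.rpow_natCast, ← Real.rpow_mul (Nat.cast_nonneg n)]
    norm_num
  have h2 : (c * (n : ℝ) ^ ((3 : ℝ) / 2)) ^ 2 ≤ (b : ℝ) ^ 2 :=
    pow_le_pow_left₀ (by positivity) h 2
  rw [mul_pow, h1] at h2
  have h3 : 1 / c ^ 2 ≤ (⌈1 / c ^ 2⌉₊ : ℝ) := Nat.le_ceil _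
  have h4 : (n : ℝ) ^ 3 ≤ 1 / c ^ 2 * (b : ℝ) ^ 2 := by
    rw [div_mul_eq_mul_div, le_div_iff₀ (by positivity)]; linarith
  have h5 : (n : ℝ) ^ 3 ≤ (⌈1 / c ^ 2⌉₊ : ℝ) * (b : ℝ) ^ 2 :=
    le_trans h4 (mul_le_mul_of_nonneg_right h3 (by positivity))
  exact_mod_cast h5

end Pool.Agent.H30.AE
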