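import Pool.Agent.H30.CycDefs

set_option autoImplicit false

namespace Pool.Agent.H30.Cyc
open Pool.Agent.H30.CycDefs List

def wt (r : List ℕ) : ℕ :=
  if r ∈ [[0, 2, 1], [0, 1, 3, 2], [0, 2, 3, 1], [0, 1, 2, 4, 3], [0, 1, 3, 2, 4], [0, 2, 1, 3, 4],
    [0, 2, 3, 4, 1], [0, 3, 1, 4, 2], [0, 4, 1, 2, 3]] then 1
  else if r ∈ [[0, 2, 1, 3], [0, 3, 1, 2]] then 2 else if r = [0, 3, 2, 1] then 3 else 0

def cstL (w : List ℕ) : ℕ := ((std w).cyclicPermutations.map wt).sum

theorem std_rot {a b : List ℕ} (h : a ~r b) : std a ~r std b := by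
  have : (fun x => a.countP (· < x)) = fun x => b.countP (· < x) := by
    funext x; exact h.perm.countP_eq _
  unfold std
  rw [this]
  exact h.map _

theorem cstL_rot {a b : List ℕ} (h : a ~r b) : cstL a = cstL b :=
  ((std_rot h).cyclicPermutations.perm.map wt).sum_eq

def cst : Cycle ℕ → ℕ := Quotient.lift cstL fun _ _ h => cstL_rot h

theorem cst_coe (w : List ℕ) : cst (w : Cycle ℕ) = cstL w := rfl

theorem cstL_big (w : List ℕ) (h : 6 ≤ w.length) : cstL w = 0 := by
  unfold cstL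
  apply List.sum_eq_zero
  intro x hx
  obtain ⟨r, hr, rfl⟩ := List.mem_map.1 hx
  have : r.length = w.length := by
    rw [(List.mem_cyclicPermutations_iff.1 hr).perm.length_eq]; simp [std]
  unfold wt
  rw [if_neg, if_neg, if_neg]
  · rintro rfl; simp at this; omega
  · simp only [mem_cons, not_mem_nil, or_false]
    rintro (rfl | rfl) <;> simp at this <;> omega
  · simp only [mem_cons, not_mem_nil, or_false]
    rintro (rfl | rfl | rfl | rfl | rfl | rfl | rfl | rfl | rfl) <;> simp at this <;> omega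

theorem std_map (w : List ℕ) (f : ℕ → ℕ) (hf : ∀ x ∈ w, ∀ y ∈ w, f x < f y ↔ x < y) :
    std (w.map f) = std w := by
  unfold std
  rw [List.map_map]
  apply List.map_congr_left
  intro x hx
  simp only [Function.comp, List.countP_map]
  apply List.countP_congr
  intro y hy
  simp [hf y hy x hx]

/-- shuffles without the positivity condition -/
def Sh0 (π σ : List ℕ) : Set (Cycle ℕ) :=
  {c | ∃ τ : List ℕ, c = (τ : Cycle ℕ) ∧ τ.Nodup ∧ τ.length = π.length + σ.length ∧
    (∃ π', π' ~r π ∧ π'.Sublist τ) ∧ (∃ σ', σ' ~r σ ∧ σ'.Sublist τ)}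

theorem perm_of {π σ τ : List ℕ} (h : (π ++ σ).Nodup) (hl : τ.length = π.length + σ.length)
    (h1 : ∃ π', π' ~r π ∧ π'.Sublist τ) (h2 : ∃ σ', σ' ~r σ ∧ σ'.Sublist τ) : π ++ σ ~ τ := by
  obtain ⟨a, a1, a2⟩ := h1
  obtain ⟨b, b1, b2⟩ := h2
  apply (List.subperm_of_subset h ?_).perm_of_length_le (by simp [hl])
  intro x hx
  rcases List.mem_append.1 hx with h | h
  · exact a2.subset (a1.perm.mem_iff.2 h)
  · exact b2.subset (b1.perm.mem_iff.2 h)

theorem Sh_eq {π σ : List ℕ} (h : (π ++ σ).Nodup) (hp : ∀ x ∈ π ++ σ, 0 < x) :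
    Sh π σ = Sh0 π σ := by
  ext c
  constructor
  · rintro ⟨τ, e, w, l, h1, h2⟩
    exact ⟨τ, e, w.1, l, h1, h2⟩
  · rintro ⟨τ, e, w, l, h1, h2⟩
    exact ⟨τ, e, ⟨w, fun x hx => hp x ((perm_of h l h1 h2).mem_iff.2 hx)⟩, l, h1, h2⟩

theorem map_mem {π σ : List ℕ} (h : (π ++ σ).Nodup) (f : ℕ → ℕ)
    (hf : ∀ x ∈ π ++ σ, ∀ y ∈ π ++ σ, f x = f y → x = y) (c : Cycle ℕ) (hc : c ∈ Sh0 π σ) :
    c.map f ∈ Sh0 (π.map f) (σ.map f) := by
  obtain ⟨τ, rfl, w, l, h1, h2⟩ := hc
  have hp := perm_of h l h1 h2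
  obtain ⟨a, a1, a2⟩ := h1
  obtain ⟨b, b1, b2⟩ := h2
  refine ⟨τ.map f, rfl, ?_, by simp [l], ⟨a.map f, a1.map f, a2.map f⟩, ⟨b.map f, b1.map f, b2.map f⟩⟩
  exact w.map_on fun x hx y hy => hf x (hp.mem_iff.2 hx) y (hp.mem_iff.2 hy)

theorem map_map_eq {π σ : List ℕ} (h : (π ++ σ).Nodup) (f g : ℕ → ℕ)
    (hg : ∀ x ∈ π ++ σ, g (f x) = x) (c : Cycle ℕ) (hc : c ∈ Sh0 π σ) : (c.map f).map g = c := by
  obtain ⟨τ, rfl, w, l, h1, h2⟩ := hc
  have hp := perm_of h l h1 h2
  rw [Cycle.map_coe, Cycle.map_coe, List.map_map]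
  congr 1
  conv_rhs => rw [← List.map_id τ]
  exact List.map_congr_left fun x hx => hg x (hp.mem_iff.2 hx)

theorem transfer {π σ : List ℕ} (h : (π ++ σ).Nodup) (f : ℕ → ℕ)
    (hf : ∀ x ∈ π ++ σ, ∀ y ∈ π ++ σ, f x = f y → x = y)
    (hc : ∀ τ, π ++ σ ~ τ → cstL (τ.map f) = cstL τ) (v : ℕ) :
    {c ∈ Sh0 π σ | cst c = v}.ncard = {c ∈ Sh0 (π.map f) (σ.map f) | cst c = v}.ncard := by
  classical
  let g : ℕ → ℕ := fun y => if hy : ∃ x ∈ π ++ σ, f x = y then hy.choose else 0
  have hg : ∀ x ∈ π ++ σ, g (f x) = x := by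
    intro x hx
    have hy : ∃ z ∈ π ++ σ, f z = f x := ⟨x, hx, rfl⟩
    simp only [g]
    rw [dif_pos hy]
    exact hf _ hy.choose_spec.1 _ hx hy.choose_spec.2
  have hcst : ∀ c ∈ Sh0 π σ, cst (c.map f) = cst c := by
    rintro c ⟨τ, rfl, w, l, h1, h2⟩
    exact hc τ (perm_of h l h1 h2)
  have h' : (π.map f ++ σ.map f).Nodup := by
    rw [← List.map_append]; exact h.map_on hf
  have e1 : (π.map f).map g = π := by
    rw [List.map_map]
    conv_rhs => rw [← List.map_id π]
    exact List.map_congr_left fun x hx => hg x (List.mem_append_left _ hx)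
  have e2 : (σ.map f).map g = σ := by
    rw [List.map_map]
    conv_rhs => rw [← List.map_id σ]
    exact List.map_congr_left fun x hx => hg x (List.mem_append_right _ hx)
  have hfg : ∀ y ∈ π.map f ++ σ.map f, f (g y) = y := by
    intro y hy
    rw [← List.map_append] at hy
    obtain ⟨x, hx, rfl⟩ := List.mem_map.1 hy
    rw [hg x hx]
  apply Set.ncard_congr (fun c _ => c.map f)
  · intro c hc
    exact ⟨map_mem h f hf c hc.1, (hcst c hc.1).trans hc.2⟩
  · intro a b ha hb e
    rw [← map_map_eq h f g hg a ha.1, e, map_map_eq h f g hg b hb.1]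
  · intro c hc
    have m := map_mem h' g (fun x hx y hy e => by rw [← hfg x hx, e, hfg y hy]) c hc.1
    rw [e1, e2] at m
    have k := map_map_eq h' g f hfg c hc.1
    exact ⟨c.map g, ⟨m, by rw [← hcst _ m, k]; exact hc.2⟩, k⟩

def shufB (π σ τ : List ℕ) : Bool :=
  π.cyclicPermutations.any (·.isSublist τ) && σ.cyclicPermutations.any (·.isSublist τ)

def D (N : ℕ) (π σ : List ℕ) : List ℕ :=
  (((List.range' 1 N).permutations'.filter fun ρ => shufB π σ (0 :: ρ))).map fun ρ => cstL (0 :: ρ)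

theorem sub_rot {a s t : List ℕ} (h : a.Sublist (s ++ t)) : ∃ b, b ~r a ∧ b.Sublist (t ++ s) := by
  obtain ⟨x, y, rfl, h1, h2⟩ := List.sublist_append_iff.1 h
  exact ⟨y ++ x, List.isRotated_append, h2.append h1⟩

theorem cons_inj {ρ ρ' : List ℕ} (h : (0 :: ρ).Nodup) (e : (0 :: ρ) ~r (0 :: ρ')) : ρ = ρ' := by
  obtain ⟨k, hk, e⟩ := List.isRotated_iff_mod.1 e
  by_cases h0 : k % (0 :: ρ).length = 0
  · rw [← List.rotate_mod, h0, List.rotate_zero] at e
    simpa using e
  · exfalso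
    have h1 : ((0 :: ρ).rotate k)[0]'(by simp) = 0 := by simp [e]
    rw [List.getElem_rotate] at h1
    have h2 : (0 :: ρ)[0]'(by simp) = 0 := rfl
    have := (h.getElem_inj_iff).1 (h1.trans h2.symm)
    simp only [zero_add] at this
    exact h0 this

theorem count_eq (N : ℕ) (π σ : List ℕ) (h : π ++ σ ~ List.range (N + 1)) (v : ℕ) :
    {c ∈ Sh0 π σ | cst c = v}.ncard = (D N π σ).count v := by
  have hr : List.range (N + 1) = 0 :: List.range' 1 N := by
    rw [List.range_eq_range', List.range'_succ]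
  have hn : (π ++ σ).Nodup := h.nodup_iff.2 List.nodup_range
  have hnd : (((List.range' 1 N).permutations'.filter fun ρ => shufB π σ (0 :: ρ)).filter
      fun ρ => cstL (0 :: ρ) == v).Nodup :=
    (((List.permutations_perm_permutations' _).nodup_iff.1
      (List.nodup_permutations _ (List.nodup_range' 1))).filter _).filter _
  rw [D, List.count_eq_countP, List.countP_map, List.countP_eq_length_filter,
    Function.comp_def, ← List.toFinset_card_of_nodup hnd, ← Set.ncard_coe_finset]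
  symm
  apply Set.ncard_congr (fun ρ _ => ((0 :: ρ : List ℕ) : Cycle ℕ))
  · intro ρ hρ
    simp only [List.coe_toFinset, List.mem_filter, List.mem_permutations', Set.mem_setOf_eq,
      shufB, Bool.and_eq_true, List.any_eq_true, List.mem_cyclicPermutations_iff,
      List.isSublist_iff_sublist, beq_iff_eq] at hρ
    obtain ⟨⟨p, s1, s2⟩, e⟩ := hρ
    have p2 : (0 :: ρ) ~ List.range (N + 1) := by rw [hr]; exact p.cons 0
    refine ⟨⟨0 :: ρ, rfl, p2.nodup_iff.2 List.nodup_range, ?_, s1, s2⟩, e⟩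
    rw [← List.length_append, h.length_eq, p2.length_eq]
  · intro ρ ρ' hρ _ e
    simp only [List.coe_toFinset, List.mem_filter, List.mem_permutations', Set.mem_setOf_eq] at hρ
    have p2 : (0 :: ρ) ~ List.range (N + 1) := by rw [hr]; exact hρ.1.1.cons 0
    exact cons_inj (p2.nodup_iff.2 List.nodup_range) (Cycle.coe_eq_coe.1 e)
  · rintro c ⟨⟨τ, rfl, w, l, h1, h2⟩, e⟩
    have hp := (perm_of hn l h1 h2).symm.trans h
    obtain ⟨s, t, rfl⟩ := List.append_of_mem (hp.mem_iff.2 (List.mem_range.2 (Nat.succ_pos N)))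
    have rot : (0 :: (t ++ s)) ~r (s ++ 0 :: t) := by
      rw [← List.cons_append]; exact List.isRotated_append
    refine ⟨t ++ s, ?_, Cycle.coe_eq_coe.2 rot⟩
    simp only [List.coe_toFinset, List.mem_filter, List.mem_permutations', Set.mem_setOf_eq,
      shufB, Bool.and_eq_true, List.any_eq_true, List.mem_cyclicPermutations_iff,
      List.isSublist_iff_sublist, beq_iff_eq]
    obtain ⟨a, a1, a2⟩ := h1
    obtain ⟨b, b1, b2⟩ := h2
    obtain ⟨a', a3, a4⟩ := sub_rot a2
    obtain ⟨b', b3, b4⟩ := sub_rot b2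
    refine ⟨⟨?_, ⟨a', a3.trans a1, a4⟩, ⟨b', b3.trans b1, b4⟩⟩, (cstL_rot rot).trans e⟩
    have := rot.perm.trans hp
    rw [hr] at this
    exact this.cons_inv

def tab (k : ℕ) : List ℕ := (List.lookup k [(1000, [1, 0, 0, 0]),
  (1100, [1, 0, 0, 0]),
  (2000, [1, 0, 0, 0]),
  (2100, [1, 0, 0, 0]),
  (2200, [1, 0, 0, 0]),
  (3000, [1, 0, 0, 0]),
  (3001, [0, 1, 0, 0]),
  (3100, [1, 1, 0, 0]),
  (3200, [1, 1, 0, 0]),
  (3300, [1, 0, 0, 0]),
  (3310, [0, 1, 0, 0]),
  (4000, [1, 0, 0, 0]),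
  (4001, [0, 1, 0, 0]),
  (4002, [0, 0, 1, 0]),
  (4003, [0, 0, 0, 1]),
  (4100, [1, 1, 1, 0]),
  (4101, [0, 1, 1, 1]),
  (4200, [1, 2, 2, 1]),
  (4300, [1, 1, 1, 0]),
  (4310, [0, 1, 1, 1]),
  (4400, [1, 0, 0, 0]),
  (4410, [0, 1, 0, 0]),
  (4420, [0, 0, 1, 0]),
  (4430, [0, 0, 0, 1]),
  (5000, [1, 0, 0, 0]),
  (5001, [0, 1, 0, 0]),
  (5100, [2, 2, 0, 0]),
  (5101, [3, 1, 0, 0]),
  (5102, [3, 1, 0, 0]),
  (5103, [4, 0, 0, 0]),
  (5200, [8, 4, 0, 0]),
  (5201, [10, 2, 0, 0]),
  (5300, [8, 4, 0, 0]),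
  (5310, [10, 2, 0, 0]),
  (5400, [2, 2, 0, 0]),
  (5410, [3, 1, 0, 0]),
  (5420, [3, 1, 0, 0]),
  (5430, [4, 0, 0, 0]),
  (5500, [1, 0, 0, 0]),
  (5510, [0, 1, 0, 0])]).getD []

def chk (N : ℕ) : Bool := (List.range (N + 1)).permutations'.all fun p =>
  (List.range (N + 2)).all fun m =>
    let d := D N (p.take m) (p.drop m)
    d.all (· < 4) && ([0, 1, 2, 3].map fun v => d.count v) ==
      tab ((N + 1) * 1000 + m * 100 + cstL (p.take m) * 10 + cstL (p.drop m))

theorem chk_all : ∀ N < 5, chk N = true := by decide +kernel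

theorem count_tab (N : ℕ) (hN : N < 5) (π σ : List ℕ) (h : π ++ σ ~ List.range (N + 1)) (v : ℕ) :
    (D N π σ).count v =
      (tab ((N + 1) * 1000 + π.length * 100 + cstL π * 10 + cstL σ)).getD v 0 := by
  have := chk_all N hN
  simp only [chk, List.all_eq_true, List.mem_permutations', List.mem_range, Bool.and_eq_true,
    decide_eq_true_eq, beq_iff_eq] at this
  have hl := h.length_eq
  simp only [List.length_append, List.length_range] at hl
  have := this _ h π.length (by omega)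
  simp only [List.take_left', List.drop_left'] at this
  rw [← this.2]
  by_cases hv : v < 4
  · interval_cases v <;> rfl
  · rw [List.count_eq_zero_of_not_mem (fun hh => hv (this.1 v hh)), List.getD_eq_default]
    simp; omega

theorem rank_lt (L : List ℕ) (x y : ℕ) (hx : x ∈ L) (hy : y ∈ L) :
    L.countP (· < x) < L.countP (· < y) ↔ x < y := by
  have key : ∀ x y, x ∈ L → x < y → L.countP (· < x) < L.countP (· < y) := by
    intro x y hx hxy
    obtain ⟨s, t, rfl⟩ := List.append_of_mem hx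
    have a := List.countP_mono_left (l := s) (p := (· < x)) (q := (· < y))
      (fun z _ h => by simp at h ⊢; omega)
    have b := List.countP_mono_left (l := t) (p := (· < x)) (q := (· < y))
      (fun z _ h => by simp at h ⊢; omega)
    simp only [List.countP_append, List.countP_cons, lt_irrefl, decide_false, hxy, decide_true]
    simp only [Bool.false_eq_true, if_false, if_true]
    omega
  constructor
  · intro h
    rcases lt_trichotomy x y with h1 | h1 | h1
    · exact h1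
    · subst h1; omega
    · have := key y x hy h1; omega
  · exact key x y hx

theorem small (N : ℕ) (hN : N < 5) (π σ : List ℕ) (h : (π ++ σ).Nodup)
    (hl : π.length + σ.length = N + 1) (v : ℕ) : {c ∈ Sh0 π σ | cst c = v}.ncard =
      (tab ((N + 1) * 1000 + π.length * 100 + cstL π * 10 + cstL σ)).getD v 0 := by
  let f : ℕ → ℕ := fun x => (π ++ σ).countP (· < x)
  have hf : ∀ x ∈ π ++ σ, ∀ y ∈ π ++ σ, f x < f y ↔ x < y := fun x hx y hy => rank_lt _ x y hx hy
  have hi : ∀ x ∈ π ++ σ, ∀ y ∈ π ++ σ, f x = f y → x = y := by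
    intro x hx y hy e
    have := hf x hx y hy
    have := hf y hy x hx
    omega
  have hc : ∀ τ : List ℕ, τ ⊆ π ++ σ → cstL (τ.map f) = cstL τ := by
    intro τ hτ
    unfold cstL
    rw [std_map τ f fun x hx y hy => hf x (hτ hx) y (hτ hy)]
  have hp : π.map f ++ σ.map f ~ List.range (N + 1) := by
    rw [← List.map_append]
    apply (List.subperm_of_subset (h.map_on hi) ?_).perm_of_length_le (by simp [hl])
    intro y hy
    obtain ⟨x, hx, rfl⟩ := List.mem_map.1 hy
    rw [List.mem_range, ← hl, ← List.length_append]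
    exact List.countP_lt_length_iff.2 ⟨x, hx, by simp⟩
  rw [transfer h f hi (fun τ hτ => hc τ hτ.symm.subset) v, count_eq N _ _ hp,
    count_tab N hN _ _ hp, hc π (List.subset_append_left _ _), hc σ (List.subset_append_right _ _),
    List.length_map]

theorem compat (π σ π' σ' : List ℕ) (h : (π ++ σ).Nodup) (h' : (π' ++ σ').Nodup)
    (l1 : π.length = π'.length) (l2 : σ.length = σ'.length) (c1 : cstL π = cstL π')
    (c2 : cstL σ = cstL σ') (v : ℕ) :
    {c ∈ Sh0 π σ | cst c = v}.ncard = {c ∈ Sh0 π' σ' | cst c = v}.ncard := by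
  by_cases h0 : π.length + σ.length = 0
  · have a : π = [] := List.length_eq_zero_iff.1 (by omega)
    have b : σ = [] := List.length_eq_zero_iff.1 (by omega)
    have c : π' = [] := List.length_eq_zero_iff.1 (by omega)
    have d : σ' = [] := List.length_eq_zero_iff.1 (by omega)
    rw [a, b, c, d]
  by_cases h5 : π.length + σ.length ≤ 5
  · rw [small (π.length + σ.length - 1) (by omega) π σ h (by omega),
      small (π.length + σ.length - 1) (by omega) π' σ' h' (by omega), l1, c1, c2]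
  · let f : ℕ → ℕ := fun x => (π' ++ σ').getD ((π ++ σ).idxOf x) 0
    have hl : (π ++ σ).length = (π' ++ σ').length := by simp [l1, l2]
    have e : (π ++ σ).map f = π' ++ σ' := by
      apply List.ext_getElem (by simp [l1, l2])
      intro i h1 h2
      simp only [List.getElem_map, f]
      rw [h.idxOf_getElem, List.getD_eq_getElem]
    have hi : ∀ x ∈ π ++ σ, ∀ y ∈ π ++ σ, f x = f y → x = y :=
      List.inj_on_of_nodup_map (by rw [e]; exact h')
    rw [List.map_append] at e
    obtain ⟨e1, e2⟩ := List.append_inj e (by simp [l1])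
    rw [transfer h f hi (fun τ hτ => by
      have := hτ.length_eq
      rw [List.length_append] at this
      rw [cstL_big _ (by simp; omega), cstL_big _ (by omega)]) v, e1, e2]

end Pool.Agent.H30.Cyc
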