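import Mathlib

set_option autoImplicit false

namespace Pool.Agent.H30.CycDefs

/-- A linear permutation: a word of distinct positive integers. -/
def IsWord (w : List ℕ) : Prop := w.Nodup ∧ ∀ x ∈ w, 0 < x

/-- Standardization (ranks counted from `0`). -/
def std (w : List ℕ) : List ℕ := w.map fun x => w.countP (· < x)

/-- The set of cyclic shuffles of the cyclic permutations of `π` and `σ`. -/
def Sh (π σ : List ℕ) : Set (Cycle ℕ) :=
  {c | ∃ τ : List ℕ, c = (τ : Cycle ℕ) ∧ IsWord τ ∧ τ.length = π.length + σ.length ∧
    (∃ π', π' ~r π ∧ π'.Sublist τ) ∧ (∃ σ', σ' ~r σ ∧ σ'.Sublist τ)}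

/-- Cyclic descent set of a word (positions counted from `0`). -/
def cDes (w : List ℕ) : Finset ℕ :=
  (Finset.range w.length).filter fun i => w.getD ((i + 1) % w.length) 0 < w.getD i 0

/-- The multiset of cyclic descent sets of all rotations. -/
def cDesCyc (w : List ℕ) : Multiset (Finset ℕ) := (w.cyclicPermutations.map cDes : List _)

end Pool.Agent.H30.CycDefs
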