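import Pool.Agent.H30.Sieve2

set_option autoImplicit false

namespace Pool.Agent.H30.DivGap

open Finset

def Rough (z q : ℕ) : Prop := ∀ p, p.Prime → p ∣ q → z < p

theorem Rough.mono {z z' q : ℕ} (h : Rough z q) (hz : z' ≤ z) : Rough z' q :=
  fun p hp hd => lt_of_le_of_lt hz (h p hp hd)

theorem Rough.of_dvd {z q a : ℕ} (h : Rough z q) (ha : a ∣ q) : Rough z a :=
  fun p hp hd => h p hp (hd.trans ha)

theorem Rough.coprime {z q m : ℕ} (h : Rough z q) (hm : 0 < m) (hz : m ≤ z) : Nat.Coprime q m := by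
  rw [Nat.coprime_iff_gcd_eq_one]
  by_contra hne
  obtain ⟨p, hp, hd⟩ := Nat.exists_prime_and_dvd hne
  have h1 := h p hp (hd.trans (Nat.gcd_dvd_left _ _))
  have h2 := Nat.le_of_dvd hm (hd.trans (Nat.gcd_dvd_right _ _))
  omega

theorem Rough.coprime_fact {P q : ℕ} (h : Rough P q) : Nat.Coprime q P.factorial := by
  rw [Nat.coprime_iff_gcd_eq_one]
  by_contra hne
  obtain ⟨p, hp, hd⟩ := Nat.exists_prime_and_dvd hne
  have h1 := h p hp (hd.trans (Nat.gcd_dvd_left _ _))
  have h2 := (hp.dvd_factorial).1 (hd.trans (Nat.gcd_dvd_right _ _))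
  omega

/-- the quadratic polynomial `(C(n,2) - r)/r` at `n = 2 (P!)^2 t`. -/
def g (P r t : ℕ) : ℤ :=
  ((P.factorial * (P.factorial / r) : ℕ) : ℤ) * t * (2 * (P.factorial : ℤ) ^ 2 * t - 1) - 1

theorem r_mul (P r : ℕ) (h1 : 1 ≤ r) (h2 : r ≤ P) :
    (r : ℤ) * ((P.factorial * (P.factorial / r) : ℕ) : ℤ) = (P.factorial : ℤ) ^ 2 := by
  have hd : r ∣ P.factorial := Nat.dvd_factorial h1 h2
  have := Nat.mul_div_cancel' hd
  have e : r * (P.factorial * (P.factorial / r)) = P.factorial ^ 2 := by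
    calc _ = P.factorial * (r * (P.factorial / r)) := by ring
      _ = _ := by rw [this]; ring
  exact_mod_cast e

theorem g_periodic (P r J q : ℕ) (x : ℕ) :
    (q : ℤ) ∣ g P r (J + (x + q)) ↔ (q : ℤ) ∣ g P r (J + x) := by
  have : (q : ℤ) ∣ g P r (J + (x + q)) - g P r (J + x) := by
    unfold g
    push_cast
    refine ⟨(P.factorial * ((P.factorial : ℤ) / r)) *
      (2 * (P.factorial : ℤ) ^ 2 * (2 * (J + x) + q) - 1), by ring⟩
  constructor
  · intro h; have := dvd_sub h this; simpa using this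
  · intro h; have := dvd_add this h; simpa using this

open Classical in
theorem roots (P r J q : ℕ) (h1 : 1 ≤ r) (h2 : 8 * r + 1 ≤ P) (hq : 0 < q) (hR : Rough P q) :
    ((range q).filter (fun x => (q : ℤ) ∣ g P r (J + x))).card ≤ q.divisors.card := by
  set S := (range q).filter (fun x => (q : ℤ) ∣ g P r (J + x)) with hS
  rcases S.eq_empty_or_nonempty with he | ⟨x0, hx0⟩
  · simp [he]
  set F : ℤ := (P.factorial : ℤ) with hF
  set U : ℕ := P.factorial * (P.factorial / r) with hU
  have hrU : (r : ℤ) * U = F ^ 2 := r_mul P r h1 (by omega)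
  have hcF : IsCoprime (q : ℤ) F := Nat.isCoprime_iff_coprime.2 hR.coprime_fact
  have hc2 : IsCoprime (q : ℤ) 2 := by
    have := hR.coprime (m := 2) (by norm_num) (by omega)
    exact_mod_cast Nat.isCoprime_iff_coprime.2 this
  have hcU : IsCoprime (q : ℤ) U := by
    have : IsCoprime (q : ℤ) ((r : ℤ) * U) := by rw [hrU]; exact hcF.pow_right
    exact this.of_mul_right_right
  have hx0' : (q : ℤ) ∣ g P r (J + x0) := (Finset.mem_filter.1 hx0).2
  have key : ∀ x ∈ S, (q : ℤ) ∣ ((x : ℤ) - x0) * (2 * F ^ 2 * (2 * J + x + x0) - 1) := by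
    intro x hx
    have hx' : (q : ℤ) ∣ g P r (J + x) := (Finset.mem_filter.1 hx).2
    have := dvd_sub hx' hx0'
    have e : g P r (J + x) - g P r (J + x0)
        = U * (((x : ℤ) - x0) * (2 * F ^ 2 * (2 * J + x + x0) - 1)) := by
      unfold g; rw [← hU, ← hF]; push_cast; ring
    rw [e] at this
    exact hcU.dvd_of_dvd_mul_left this
  apply Finset.card_le_card_of_injOn (fun x : ℕ => Int.gcd q ((x : ℤ) - x0))
  · intro x _
    simp only [Finset.mem_coe, Nat.mem_divisors]
    exact ⟨by have := Int.gcd_dvd_left (q : ℤ) ((x : ℤ) - x0); exact_mod_cast this, by omega⟩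
  · intro x hx y hy hxy
    simp only [Finset.mem_coe] at hx hy hxy
    set a := Int.gcd q ((x : ℤ) - x0) with ha
    have ha0 : 0 < a := Int.gcd_pos_of_ne_zero_left _ (by exact_mod_cast hq.ne')
    have hdq : (a : ℤ) ∣ q := Int.gcd_dvd_left _ _
    obtain ⟨b, hb⟩ := hdq
    have hstep : ∀ v ∈ S, a = Int.gcd q ((v : ℤ) - x0) →
        (a : ℤ) ∣ (v : ℤ) - x0 ∧ b ∣ 2 * F ^ 2 * (2 * J + v + x0) - 1 := by
      intro v hv hav
      have d1 : (a : ℤ) ∣ (v : ℤ) - x0 := by rw [hav]; exact Int.gcd_dvd_right _ _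
      refine ⟨d1, ?_⟩
      obtain ⟨c, hc⟩ := d1
      have k := key v hv
      rw [hb, hc, mul_assoc] at k
      have k2 := Int.dvd_of_mul_dvd_mul_left (by exact_mod_cast ha0.ne') k
      have cop : IsCoprime b c := by
        rw [Int.isCoprime_iff_gcd_eq_one]
        have := hav
        rw [hb, hc, Int.gcd_mul_left] at this
        simp only [Int.natAbs_natCast] at this
        exact (Nat.mul_right_inj ha0.ne').1 (by rw [mul_one]; exact this.symm)
      exact cop.dvd_of_dvd_mul_left k2
    obtain ⟨p1, p2⟩ := hstep x hx ha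
    obtain ⟨p3, p4⟩ := hstep y hy hxy
    have hbq : b ∣ (q : ℤ) := ⟨a, by rw [hb]; ring⟩
    have d1 : (a : ℤ) ∣ (x : ℤ) - y := by have := dvd_sub p1 p3; simpa using this
    have d2 : b ∣ (x : ℤ) - y := by
      have := dvd_sub p2 p4
      have e : 2 * F ^ 2 * (2 * J + x + x0) - 1 - (2 * F ^ 2 * (2 * J + y + x0) - 1)
          = (2 * F ^ 2) * ((x : ℤ) - y) := by ring
      rw [e] at this
      have c1 : IsCoprime b (2 * F ^ 2) :=
        (hc2.mul_right hcF.pow_right).of_isCoprime_of_dvd_left hbq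
      exact c1.dvd_of_dvd_mul_left this
    have cab : IsCoprime (a : ℤ) b := by
      rw [Int.isCoprime_iff_gcd_eq_one]
      by_contra hne
      obtain ⟨p, hp, hd⟩ := Nat.exists_prime_and_dvd hne
      have hd' : (p : ℤ) ∣ (Int.gcd a b : ℤ) := by exact_mod_cast hd
      have pa : (p : ℤ) ∣ a := hd'.trans (Int.gcd_dvd_left _ _)
      have pb : (p : ℤ) ∣ b := hd'.trans (Int.gcd_dvd_right _ _)
      have pq : (p : ℤ) ∣ q := pb.trans hbq
      have hPp := hR p hp (by exact_mod_cast pq)
      have q1 := pa.trans p1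
      have q2 := pb.trans p2
      have q3 := pq.trans hx0'
      have q4 : (p : ℤ) ∣ 4 * F ^ 2 * (J + x0) - 1 := by
        have := dvd_sub q2 (Dvd.dvd.mul_left q1 (2 * F ^ 2))
        have e : 2 * F ^ 2 * (2 * J + x + x0) - 1 - 2 * F ^ 2 * ((x : ℤ) - x0)
            = 4 * F ^ 2 * (J + x0) - 1 := by ring
        rwa [e] at this
      have q5 : (p : ℤ) ∣ 8 * r + 1 := by
        have := dvd_sub (Dvd.dvd.mul_left q4 (4 * F ^ 2 * (J + x0) - 1))
          (Dvd.dvd.mul_left q3 (8 * r))
        have e : (4 * F ^ 2 * (J + x0) - 1) * (4 * F ^ 2 * (J + x0) - 1)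
            - 8 * r * g P r (J + x0) = 8 * r + 1 := by
          unfold g; rw [← hU, ← hF]; push_cast
          have : (8 : ℤ) * r * (U * (J + x0) * (2 * F ^ 2 * (J + x0) - 1) - 1)
              = 8 * (r * U) * (J + x0) * (2 * F ^ 2 * (J + x0) - 1) - 8 * r := by ring
          rw [this, hrU]; ring
        rwa [e] at this
      have q6 : p ∣ 8 * r + 1 := by exact_mod_cast q5
      have := Nat.le_of_dvd (by omega) q6
      omega
    have d3 : (q : ℤ) ∣ (x : ℤ) - y := by rw [hb]; exact cab.mul_dvd d1 d2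
    have hxq : x < q := Finset.mem_range.1 (Finset.mem_filter.1 hx).1
    have hyq : y < q := Finset.mem_range.1 (Finset.mem_filter.1 hy).1
    have := Int.eq_zero_of_abs_lt_dvd d3 (by rw [abs_lt]; constructor <;> omega)
    omega

open Classical in
theorem rough_harm (z X : ℕ) (hz : 1 ≤ z) :
    (∑ a ∈ (Icc 1 X).filter (Rough z), (1 : ℝ) / a) * Real.log z ≤ 1 + Real.log (X * z) := by
  have h1 : Real.log z ≤ ∑ m ∈ Icc 1 z, (1 : ℝ) / m := by
    have := log_add_one_le_harmonic z
    rw [harmonic_eq_sum_Icc] at this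
    push_cast at this
    have h2 : Real.log z ≤ Real.log (z + 1) :=
      Real.log_le_log (by exact_mod_cast hz) (by linarith)
    simp only [one_div]
    linarith
  have h3 : ∑ m ∈ Icc 1 (X * z), (1 : ℝ) / m ≤ 1 + Real.log (X * z) := by
    have := harmonic_le_one_add_log (X * z)
    rw [harmonic_eq_sum_Icc] at this
    push_cast at this
    simpa only [one_div] using this
  have h0 : 0 ≤ ∑ a ∈ (Icc 1 X).filter (Rough z), (1 : ℝ) / a :=
    Finset.sum_nonneg (fun a _ => by positivity)
  refine le_trans (mul_le_mul_of_nonneg_left h1 h0) (le_trans ?_ h3)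
  rw [Finset.sum_mul_sum, ← Finset.sum_product']
  have e : ∀ x : ℕ × ℕ, (1 : ℝ) / x.1 * (1 / x.2) = 1 / ((x.1 * x.2 : ℕ) : ℝ) := by
    intro x; push_cast; rw [div_mul_div_comm, one_mul]
  simp_rw [e]
  rw [← Finset.sum_image (s := (Icc 1 X).filter (Rough z) ×ˢ Icc 1 z)
    (g := fun x : ℕ × ℕ => x.1 * x.2) (f := fun m : ℕ => (1 : ℝ) / m)]
  · apply Finset.sum_le_sum_of_subset_of_nonneg
    · intro m hm
      obtain ⟨x, hx, rfl⟩ := Finset.mem_image.1 hm
      simp only [Finset.mem_product, Finset.mem_filter, Finset.mem_Icc] at hx ⊢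
      exact ⟨Nat.mul_pos hx.1.1.1 hx.2.1, Nat.mul_le_mul hx.1.1.2 hx.2.2⟩
    · intros; positivity
  · rintro ⟨a, m⟩ hx ⟨a', m'⟩ hy h
    simp only [Finset.coe_product, Set.mem_prod, Finset.mem_coe, Finset.mem_filter,
      Finset.mem_Icc] at hx hy h
    have c1 := hx.1.2.coprime hy.2.1 hy.2.2
    have c2 := hy.1.2.coprime hx.2.1 hx.2.2
    have d1 : a ∣ a' := c1.dvd_of_dvd_mul_right ⟨m, h.symm⟩
    have d2 : a' ∣ a := c2.dvd_of_dvd_mul_right ⟨m', h⟩
    have := Nat.dvd_antisymm d1 d2
    subst this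
    have := (Nat.mul_right_inj (by omega : a ≠ 0)).1 h
    subst this
    rfl

/-- primes in `(P, z]` -/
def QQ (P z : ℕ) : Finset ℕ := (Ioc P z).filter Nat.Prime

theorem sum_dvd_ind (p : ℕ) (hp : 0 < p) :
    ∑ x ∈ range p, (if p ∣ x then (1 : ℝ) else 0) = 1 := by
  rw [Finset.sum_eq_single 0]
  · simp
  · intro x hx h0
    rw [if_neg]
    intro h
    have := Nat.le_of_dvd (by omega) h
    have := Finset.mem_range.1 hx
    omega
  · intro h; simp at h; omega

open Classical in
theorem rough_count (P z w : ℕ) (N : ℝ) (hN : 1 ≤ N) (hzN : (z : ℝ) ≤ N)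
    (hw : ∑ p ∈ QQ P z, (1 : ℝ) / p ≤ w) (B : ℕ) :
    (((range B).filter (Rough z)).card : ℝ) ≤
      3 / 2 * B * Real.exp (-∑ p ∈ QQ P z, (1 : ℝ) / p) + 3 * N ^ (6 * w + 2) := by
  have hQ : ∀ p ∈ QQ P z, p.Prime := fun p hp => (Finset.mem_filter.1 hp).2
  have hs : ∀ p ∈ QQ P z, ∑ x ∈ range p, (if p ∣ x then (1 : ℝ) else 0) = 1 :=
    fun p hp => sum_dvd_ind p (hQ p hp).pos
  have u := Sieve2.upper (QQ P z) hQ (fun p x => if p ∣ x then 1 else 0)
    (fun p x => by split_ifs <;> norm_num) (fun p x => by split_ifs <;> norm_num)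
    (fun p _ x => by simp only [Nat.dvd_add_self_right])
    (fun p hp => by
      rw [hs p hp]
      have : (2 : ℝ) ≤ p := by exact_mod_cast (hQ p hp).two_le
      exact one_div_le_one_div_of_le (by norm_num) this) w
    (by rw [Finset.sum_congr rfl (fun p hp => by rw [hs p hp])]; exact hw) N hN
    (by
      rw [Finset.sum_congr rfl hs]
      simp only [Finset.sum_const, nsmul_eq_mul, mul_one]
      have : (QQ P z).card ≤ z := by
        refine le_trans (Finset.card_filter_le _ _) ?_
        simp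
      have : ((QQ P z).card : ℝ) ≤ z := by exact_mod_cast this
      linarith)
    (fun _ => 1) 1 one_pos (fun _ => zero_le_one) (fun _ => rfl)
    (fun p _ => Nat.coprime_one_right p) B
  simp only [one_mul, Finset.range_one, Finset.sum_singleton, Nat.cast_one, div_one,
    mul_one] at u
  have h1 : (((range B).filter (Rough z)).card : ℝ) ≤
      ∑ x ∈ range B, ∏ p ∈ QQ P z, (1 - if p ∣ x then (1 : ℝ) else 0) := by
    rw [Finset.card_filter]
    push_cast
    apply Finset.sum_le_sum
    intro x _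
    split_ifs with h
    · rw [Finset.prod_eq_one]
      intro p hp
      rw [if_neg, sub_zero]
      intro hd
      have := h p (hQ p hp) hd
      have := (Finset.mem_Ioc.1 (Finset.mem_filter.1 hp).1).2
      omega
    · exact Finset.prod_nonneg (fun p _ => by split_ifs <;> norm_num)
  have h2 : ∏ p ∈ QQ P z, (1 - (∑ x ∈ range p, if p ∣ x then (1 : ℝ) else 0) / p)
      ≤ Real.exp (-∑ p ∈ QQ P z, (1 : ℝ) / p) := by
    rw [← Finset.sum_neg_distrib, Real.exp_sum]
    apply Finset.prod_le_prod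
    · intro p hp
      rw [hs p hp]
      have : (1 : ℝ) ≤ p := by exact_mod_cast (hQ p hp).one_le
      have : (1 : ℝ) / p ≤ 1 := by rw [div_le_one (by linarith)]; exact this
      linarith
    · intro p hp
      rw [hs p hp]
      have := Real.add_one_le_exp (-(1 / (p : ℝ)))
      linarith
  have h3 : (0 : ℝ) ≤ 3 / 2 * B := by positivity
  have := mul_le_mul_of_nonneg_left h2 h3
  linarith

theorem exists_z (P : ℕ) (S : ℝ) (z0 : ℕ) :
    ∃ z, z0 ≤ z ∧ S ≤ ∑ p ∈ QQ P z, (1 : ℝ) / p := by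
  have h := not_summable_one_div_on_primes
  rw [not_summable_iff_tendsto_nat_atTop_of_nonneg
    (fun n => Set.indicator_nonneg (fun _ _ => by positivity) n)] at h
  obtain ⟨z, hz1, hz2⟩ := ((h.eventually_ge_atTop (S + (P + 1))).and
    (Filter.eventually_ge_atTop z0)).exists
  refine ⟨z, hz2, ?_⟩
  have : ∑ i ∈ range z, Set.indicator {p : ℕ | p.Prime} (fun n : ℕ => (1 : ℝ) / n) i
      ≤ ∑ i ∈ range (P + 1), (1 : ℝ) + ∑ p ∈ QQ P z, (1 : ℝ) / p := by
    rw [← Finset.sum_filter_add_sum_filter_not (range z) (fun i => i ≤ P)]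
    apply add_le_add
    · refine le_trans (Finset.sum_le_sum (g := fun _ => (1 : ℝ)) ?_) ?_
      · intro i _
        by_cases hi : i.Prime
        · rw [Set.indicator_of_mem (by exact hi)]
          have : (1 : ℝ) ≤ i := by exact_mod_cast hi.one_le
          rw [div_le_one (by linarith)]; exact this
        · rw [Set.indicator_of_notMem (by exact hi)]; norm_num
      · apply Finset.sum_le_sum_of_subset_of_nonneg
        · intro i hi
          simp only [Finset.mem_filter, Finset.mem_range] at hi ⊢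
          omega
        · intros; norm_num
    · unfold QQ
      rw [Finset.sum_filter (s := Ioc P z)]
      refine le_trans (le_of_eq (Finset.sum_congr rfl
        (g := fun i => if i.Prime then (1 : ℝ) / i else 0) ?_)) ?_
      · intro i _
        by_cases hi : i.Prime
        · rw [Set.indicator_of_mem (by exact hi), if_pos hi]
        · rw [Set.indicator_of_notMem (by exact hi), if_neg hi]
      · apply Finset.sum_le_sum_of_subset_of_nonneg
        · intro i hi
          simp only [Finset.mem_filter, Finset.mem_range, Finset.mem_Ioc] at hi ⊢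
          omega
        · intros; split_ifs <;> positivity
  simp only [Finset.sum_const, Finset.card_range, nsmul_eq_mul, mul_one] at this
  push_cast at this
  linarith

end Pool.Agent.H30.DivGap
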