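import Pool.Agent.H30.DivGap1

set_option autoImplicit false

namespace Pool.Agent.H30.DivGap

open Finset

theorem tau_le (q : ℕ) :
    q.divisors.card ≤ 2 * (q.divisors.filter (fun a => a * a ≤ q)).card := by
  rw [← Finset.card_filter_add_card_filter_not (s := q.divisors) (fun a => a * a ≤ q), two_mul]
  apply Nat.add_le_add_left
  apply Finset.card_le_card_of_injOn (fun a => q / a)
  · intro a ha
    simp only [Finset.coe_filter, Nat.mem_divisors, Set.mem_ofPred_eq, not_le] at ha ⊢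
    obtain ⟨⟨⟨b, rfl⟩, h0⟩, h1⟩ := ha
    have ha0 : 0 < a := Nat.pos_of_ne_zero (by rintro rfl; simp at h0)
    rw [Nat.mul_div_cancel_left _ ha0]
    refine ⟨⟨Dvd.intro_left _ rfl, h0⟩, ?_⟩
    have : b < a := lt_of_mul_lt_mul_left h1 (Nat.zero_le _)
    nlinarith
  · intro a ha b hb h
    simp only [Finset.coe_filter, Nat.mem_divisors, Set.mem_ofPred_eq, not_le] at ha hb h
    have e1 := Nat.div_div_self ha.1.1 ha.1.2
    have e2 := Nat.div_div_self hb.1.1 hb.1.2
    rw [← e1, ← e2, h]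

open Classical in
theorem sum_tau (P z w Z X : ℕ) (N : ℝ) (hN : 1 ≤ N) (hzN : (z : ℝ) ≤ N)
    (hw : ∑ p ∈ QQ P z, (1 : ℝ) / p ≤ w) (hX : ∀ a, a * a ≤ Z → a ≤ X) :
    ∑ q ∈ (Icc 1 Z).filter (Rough z), (q.divisors.card : ℝ) ≤
      3 * Z * Real.exp (-∑ p ∈ QQ P z, (1 : ℝ) / p) * (∑ a ∈ (Icc 1 X).filter (Rough z), (1 : ℝ) / a)
        + 12 * N ^ (6 * w + 2) * X := by
  set V := Real.exp (-∑ p ∈ QQ P z, (1 : ℝ) / p) with hV
  have hV1 : V ≤ 1 := by
    rw [hV, Real.exp_le_one_iff, neg_nonpos]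
    exact Finset.sum_nonneg (fun _ _ => by positivity)
  have hV0 : 0 < V := Real.exp_pos _
  have hE : 1 ≤ N ^ (6 * w + 2) := one_le_pow₀ hN
  have h1 : ∑ q ∈ (Icc 1 Z).filter (Rough z), (q.divisors.filter (fun a => a * a ≤ q)).card
      ≤ ∑ a ∈ (Icc 1 X).filter (Rough z), ((range (Z / a + 1)).filter (Rough z)).card := by
    rw [← Finset.card_sigma, ← Finset.card_sigma]
    apply Finset.card_le_card_of_injOn (fun x => (⟨x.2, x.1 / x.2⟩ : Σ _ : ℕ, ℕ))
    · rintro ⟨q, a⟩ hx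
      simp only [Finset.mem_coe, Finset.mem_sigma, Finset.mem_filter, Finset.mem_Icc,
        Nat.mem_divisors, Finset.mem_range] at hx ⊢
      obtain ⟨⟨⟨k1, k2⟩, k3⟩, ⟨k4, k5⟩, k6⟩ := hx
      refine ⟨⟨⟨Nat.pos_of_dvd_of_pos k4 k1, hX a (by omega)⟩, k3.of_dvd k4⟩, ?_,
        k3.of_dvd (Nat.div_dvd_of_dvd k4)⟩
      have := Nat.div_le_div_right (c := a) k2
      omega
    · rintro ⟨q, a⟩ hx ⟨q', a'⟩ hy h
      simp only [Finset.mem_coe, Finset.mem_sigma, Finset.mem_filter, Finset.mem_Icc,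
        Nat.mem_divisors] at hx hy
      simp only [Sigma.mk.injEq, heq_eq_eq] at h
      obtain ⟨rfl, h2⟩ := h
      have e1 := Nat.mul_div_cancel' hx.2.1.1
      have e2 := Nat.mul_div_cancel' hy.2.1.1
      have : q = q' := by rw [← e1, ← e2, h2]
      subst this; rfl
  have h2 : ∑ q ∈ (Icc 1 Z).filter (Rough z), (q.divisors.card : ℝ) ≤
      2 * ∑ a ∈ (Icc 1 X).filter (Rough z), (((range (Z / a + 1)).filter (Rough z)).card : ℝ) := by
    have : ∑ q ∈ (Icc 1 Z).filter (Rough z), q.divisors.card ≤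
        2 * ∑ a ∈ (Icc 1 X).filter (Rough z), ((range (Z / a + 1)).filter (Rough z)).card := by
      refine le_trans (Finset.sum_le_sum (fun q _ => tau_le q)) ?_
      rw [← Finset.mul_sum]
      omega
    exact_mod_cast this
  have h3 : ∑ a ∈ (Icc 1 X).filter (Rough z), (((range (Z / a + 1)).filter (Rough z)).card : ℝ)
      ≤ ∑ a ∈ (Icc 1 X).filter (Rough z), (3 / 2 * Z * V * (1 / a) + 6 * N ^ (6 * w + 2)) := by
    apply Finset.sum_le_sum
    intro a _
    refine le_trans (rough_count P z w N hN hzN hw _) ?_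
    have : ((Z / a : ℕ) : ℝ) ≤ Z / a := Nat.cast_div_le
    push_cast
    have e : 3 / 2 * (Z : ℝ) * V * (1 / a) = 3 / 2 * (Z / a) * V := by ring
    rw [e, ← hV]
    nlinarith
  rw [Finset.sum_add_distrib, ← Finset.mul_sum] at h3
  simp only [Finset.sum_const, nsmul_eq_mul] at h3
  have h4 : (((Icc 1 X).filter (Rough z)).card : ℝ) ≤ X := by
    have : ((Icc 1 X).filter (Rough z)).card ≤ X := le_trans (Finset.card_filter_le _ _) (by simp)
    exact_mod_cast this
  nlinarith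

theorem choose_eq (P r t : ℕ) (h1 : 1 ≤ r) (h2 : r ≤ P) :
    (((2 * P.factorial ^ 2 * t).choose 2 : ℕ) : ℤ) - r = r * g P r t := by
  have hr := r_mul P r h1 h2
  have e : (((2 * P.factorial ^ 2 * t).choose 2 : ℕ) : ℤ)
      = (P.factorial : ℤ) ^ 2 * t * (2 * (P.factorial : ℤ) ^ 2 * t - 1) := by
    have := Nat.cast_choose_two ℚ (2 * P.factorial ^ 2 * t)
    have e2 : (((2 * P.factorial ^ 2 * t).choose 2 : ℕ) : ℚ)
        = (P.factorial : ℚ) ^ 2 * t * (2 * (P.factorial : ℚ) ^ 2 * t - 1) := by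
      rw [this]; push_cast; ring
    exact_mod_cast e2
  rw [e, ← hr]
  unfold g
  rw [← hr]
  ring

open Classical in
/-- the sieve step, with all size conditions as hypotheses -/
theorem sieve_step (K C P z w M : ℕ) (hK : 1 ≤ K) (hP : 8 * K + 1 ≤ P) (hz : P ≤ z)
    (hw : 2 * K * ∑ p ∈ QQ P z, (1 : ℝ) / p ≤ w)
    (hT : ∑ q ∈ (Icc 1 (2 * C * (P.factorial * M))).filter (Rough z), (q.divisors.card : ℝ)
      ≤ (P.factorial * M : ℕ) / (18 * K ^ 2))
    (hM : 4 * 8 ^ w * (3 * (2 * K * z) ^ (6 * w + 2)) * P.factorial < M) :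
    ∃ x < M * M, ∀ r, 1 ≤ r → r ≤ K → ∀ q : ℕ, (q : ℤ) ∣ g P r (M * M + x) →
      P.factorial * M ≤ 3 * K * q → q ≤ 2 * C * (P.factorial * M) → False := by
  by_contra hcon
  push Not at hcon
  set J := M * M with hJ
  set Y := P.factorial * M with hY
  set N : ℝ := 2 * K * z with hNdef
  have hK' : (1 : ℝ) ≤ K := by exact_mod_cast hK
  have hz' : (1 : ℝ) ≤ z := by exact_mod_cast (by omega : 1 ≤ z)
  have hN : 1 ≤ N := by rw [hNdef]; nlinarith
  have hQ : ∀ p ∈ QQ P z, p.Prime := fun p hp => (Finset.mem_filter.1 hp).2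
  have hQ2 : ∀ p ∈ QQ P z, P < p ∧ p ≤ z := fun p hp =>
    Finset.mem_Ioc.1 (Finset.mem_filter.1 hp).1
  set f : ℕ → ℕ → ℝ := fun p x =>
    if ∃ r ∈ Icc 1 K, (p : ℤ) ∣ g P r (J + x) then 1 else 0 with hf
  set h : ℕ → ℕ → ℕ → ℝ := fun r q x => if (q : ℤ) ∣ g P r (J + x) then 1 else 0 with hh
  have hf0 : ∀ p x, 0 ≤ f p x := fun p x => by simp only [hf]; split_ifs <;> norm_num
  have hf1 : ∀ p x, f p x ≤ 1 := fun p x => by simp only [hf]; split_ifs <;> norm_num
  have hh0 : ∀ r q x, 0 ≤ h r q x := fun r q x => by simp only [hh]; split_ifs <;> norm_num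
  have hper : ∀ p ∈ QQ P z, Function.Periodic (f p) p := fun p _ x => by
    simp only [hf, g_periodic]
  have hhp : ∀ r q, Function.Periodic (h r q) q := fun r q x => by
    simp only [hh, g_periodic]
  have hhs : ∀ r ∈ Icc 1 K, ∀ q, 0 < q → Rough P q →
      ∑ x ∈ range q, h r q x ≤ q.divisors.card := by
    intro r hr q hq hR
    rw [Finset.mem_Icc] at hr
    have := roots P r J q hr.1 (by omega) hq hR
    rw [Finset.card_filter] at this
    have t2 : ((∑ i ∈ range q, if (q : ℤ) ∣ g P r (J + i) then 1 else 0 : ℕ) : ℝ)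
        ≤ q.divisors.card := by exact_mod_cast this
    push_cast at t2
    exact t2
  have hcp : ∀ p ∈ QQ P z, ∑ x ∈ range p, f p x ≤ 2 * K := by
    intro p hp
    have h1 : ∑ x ∈ range p, f p x ≤ ∑ x ∈ range p, ∑ r ∈ Icc 1 K, h r p x := by
      apply Finset.sum_le_sum
      intro x _
      simp only [hf]
      split_ifs with hc
      · obtain ⟨r, hr, hd⟩ := hc
        refine le_trans ?_ (Finset.single_le_sum (f := fun r => h r p x)
          (fun r _ => hh0 r p x) hr)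
        simp [hh, hd]
      · exact Finset.sum_nonneg (fun r _ => hh0 r p x)
    rw [Finset.sum_comm] at h1
    have h2 : ∑ r ∈ Icc 1 K, ∑ x ∈ range p, h r p x ≤ ∑ r ∈ Icc 1 K, (2 : ℝ) := by
      apply Finset.sum_le_sum
      intro r hr
      refine le_trans (hhs r hr p (hQ p hp).pos ?_) ?_
      · intro p' hp' hd
        rw [(Nat.prime_dvd_prime_iff_eq hp' (hQ p hp)).1 hd]; exact (hQ2 p hp).1
      · rw [(hQ p hp).divisors, Finset.card_pair (hQ p hp).one_lt.ne]; norm_num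
    simp only [Finset.sum_const, Nat.card_Icc, nsmul_eq_mul, Nat.add_sub_cancel] at h2
    linarith
  have hhalf : ∀ p ∈ QQ P z, (∑ x ∈ range p, f p x) / p ≤ 1 / 2 := by
    intro p hp
    have h1 : (0 : ℝ) < p := by exact_mod_cast (hQ p hp).pos
    have h2 : (4 * K : ℝ) ≤ p := by
      have := (hQ2 p hp).1
      exact_mod_cast (by omega : 4 * K ≤ p)
    rw [div_le_iff₀ h1]
    linarith [hcp p hp]
  have hw' : ∑ p ∈ QQ P z, (∑ x ∈ range p, f p x) / p ≤ w := by
    refine le_trans ?_ hw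
    rw [Finset.mul_sum]
    apply Finset.sum_le_sum
    intro p hp
    rw [mul_one_div]
    exact div_le_div_of_nonneg_right (hcp p hp) (Nat.cast_nonneg p)
  have hc : ∑ p ∈ QQ P z, ∑ x ∈ range p, f p x ≤ N := by
    refine le_trans (Finset.sum_le_sum hcp) ?_
    simp only [Finset.sum_const, nsmul_eq_mul]
    have : (QQ P z).card ≤ z := le_trans (Finset.card_filter_le _ _) (by simp)
    have : ((QQ P z).card : ℝ) ≤ z := by exact_mod_cast this
    rw [hNdef]; nlinarith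
  have lo := Sieve2.lower (QQ P z) hQ f hf0 hf1 hper hhalf w hw' N hN hc J
  have hVlo := (Sieve2.level_small (QQ P z) (fun p => (∑ x ∈ range p, f p x) / p)
    (fun p => div_nonneg (Finset.sum_nonneg (fun x _ => hf0 p x)) (Nat.cast_nonneg p))
    hhalf w hw').1
  set V := ∏ p ∈ QQ P z, (1 - (∑ x ∈ range p, f p x) / p) with hV
  set E := 3 * N ^ (6 * w + 2) with hE
  have hE1 : 1 ≤ E := by have := one_le_pow₀ (n := 6 * w + 2) hN; rw [hE]; linarith
  have h8 : (0 : ℝ) < 8 ^ w := by positivity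
  have hV0 : 0 < V := lt_of_lt_of_le (by positivity) hVlo
  have hM0 : 0 < M := by omega
  have hY0 : 0 < Y := Nat.mul_pos (Nat.factorial_pos _) hM0
  have hY0' : (0 : ℝ) < Y := by exact_mod_cast hY0
  set I := ((Icc 1 (2 * C * Y)).filter (Rough z)).filter (fun q => Y ≤ 3 * K * q) with hI
  have hprod0 : ∀ x, 0 ≤ ∏ p ∈ QQ P z, (1 - f p x) :=
    fun x => Finset.prod_nonneg (fun p _ => by linarith [hf1 p x])
  have pt : ∀ x ∈ range J, ∏ p ∈ QQ P z, (1 - f p x) ≤
      ∑ r ∈ Icc 1 K, ∑ q ∈ I, h r q x * ∏ p ∈ QQ P z, (1 - f p x) := by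
    intro x hx
    by_cases h0 : ∏ p ∈ QQ P z, (1 - f p x) = 0
    · rw [h0]; simp
    obtain ⟨r, hr1, hr2, q, hq1, hq2, hq3, -⟩ := hcon x (Finset.mem_range.1 hx)
    have hr : r ∈ Icc 1 K := Finset.mem_Icc.2 ⟨hr1, hr2⟩
    have hqI : q ∈ I := by
      simp only [hI, Finset.mem_filter, Finset.mem_Icc]
      refine ⟨⟨⟨?_, hq3⟩, ?_⟩, hq2⟩
      · rcases Nat.eq_zero_or_pos q with rfl | hq
        · omega
        · exact hq
      · intro p hp hd
        have hd' : (p : ℤ) ∣ g P r (J + x) := (Int.natCast_dvd_natCast.2 hd).trans hq1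
        by_contra hlt
        push Not at hlt
        by_cases hpP : p ≤ P
        · have d1 : p ∣ P.factorial := (hp.dvd_factorial).2 hpP
          have d2 : (p : ℤ) ∣ ((P.factorial * (P.factorial / r) : ℕ) : ℤ) :=
            Int.natCast_dvd_natCast.2 (Dvd.dvd.mul_right d1 _)
          unfold g at hd'
          have d3 := dvd_sub (Dvd.dvd.mul_right (Dvd.dvd.mul_right d2 ((J + x : ℕ) : ℤ))
            (2 * (P.factorial : ℤ) ^ 2 * ((J + x : ℕ) : ℤ) - 1)) hd'
          simp only [sub_sub_cancel] at d3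
          have : p ∣ 1 := by exact_mod_cast d3
          exact hp.one_lt.ne' (Nat.dvd_one.1 this)
        · apply h0
          have hpQ : p ∈ QQ P z := by
            simp only [QQ, Finset.mem_filter, Finset.mem_Ioc]; exact ⟨⟨by omega, hlt⟩, hp⟩
          apply Finset.prod_eq_zero hpQ
          simp only [hf]
          rw [if_pos ⟨r, hr, hd'⟩]; ring
    refine le_trans ?_ (Finset.single_le_sum
      (f := fun r => ∑ q ∈ I, h r q x * ∏ p ∈ QQ P z, (1 - f p x))
      (fun r _ => Finset.sum_nonneg (fun q _ => mul_nonneg (hh0 _ _ _) (hprod0 x))) hr)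
    refine le_trans ?_ (Finset.single_le_sum
      (f := fun q => h r q x * ∏ p ∈ QQ P z, (1 - f p x))
      (fun q _ => mul_nonneg (hh0 _ _ _) (hprod0 x)) hqI)
    simp [hh, hq1]
  have up : ∀ r ∈ Icc 1 K, ∀ q ∈ I, ∑ x ∈ range J, h r q x * ∏ p ∈ QQ P z, (1 - f p x)
      ≤ (3 / 2 * J * V * (3 * K / Y) + E) * q.divisors.card := by
    intro r hr q hq
    simp only [hI, Finset.mem_filter, Finset.mem_Icc] at hq
    obtain ⟨⟨⟨q1, q2⟩, q3⟩, q4⟩ := hq
    have u := Sieve2.upper (QQ P z) hQ f hf0 hf1 hper hhalf w hw' N hN hc (h r q) q q1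
      (hh0 r q) (hhp r q) (fun p hp => (q3.coprime (hQ p hp).pos (hQ2 p hp).2).symm) J
    have s := hhs r hr q q1 (q3.mono hz)
    have s0 : 0 ≤ ∑ x ∈ range q, h r q x := Finset.sum_nonneg (fun x _ => hh0 r q x)
    have hq0 : (0 : ℝ) < q := by exact_mod_cast q1
    have q5 : (Y : ℝ) ≤ 3 * K * q := by exact_mod_cast q4
    have s2 : (∑ x ∈ range q, h r q x) / q ≤ 3 * K / Y * q.divisors.card := by
      rw [div_le_iff₀ hq0]
      have : (1 : ℝ) ≤ 3 * K / Y * q := by
        rw [div_mul_eq_mul_div, le_div_iff₀ hY0']; linarith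
      have t0 : (0 : ℝ) ≤ q.divisors.card := Nat.cast_nonneg _
      nlinarith
    have s3 : (0 : ℝ) ≤ 3 / 2 * J * V := by positivity
    have s4 := mul_le_mul_of_nonneg_left s2 s3
    have s5 := mul_le_mul_of_nonneg_left s (by linarith : 0 ≤ E)
    rw [← hV, ← hE] at u
    nlinarith
  have tot : ∑ x ∈ range J, ∏ p ∈ QQ P z, (1 - f p x)
      ≤ K * ((3 / 2 * J * V * (3 * K / Y) + E) * (Y / (18 * K ^ 2))) := by
    refine le_trans (Finset.sum_le_sum pt) ?_
    rw [Finset.sum_comm]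
    have : ∀ r ∈ Icc 1 K, ∑ x ∈ range J, ∑ q ∈ I, h r q x * ∏ p ∈ QQ P z, (1 - f p x)
        ≤ (3 / 2 * J * V * (3 * K / Y) + E) * (Y / (18 * K ^ 2)) := by
      intro r hr
      rw [Finset.sum_comm]
      refine le_trans (Finset.sum_le_sum (up r hr)) ?_
      rw [← Finset.mul_sum]
      apply mul_le_mul_of_nonneg_left _ (by positivity)
      refine le_trans ?_ hT
      exact Finset.sum_le_sum_of_subset_of_nonneg (Finset.filter_subset _ _)
        (fun _ _ _ => Nat.cast_nonneg _)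
    refine le_trans (Finset.sum_le_sum this) ?_
    simp
  have e1 : K * ((3 / 2 * J * V * (3 * K / Y) + E) * (Y / (18 * K ^ 2)))
      = J * V / 4 + E * Y / (18 * K) := by field_simp; ring
  have e2 : E * Y / (18 * K) ≤ E * Y / 18 :=
    div_le_div_of_nonneg_left (by positivity) (by norm_num) (by linarith)
  have hM' : 4 * 8 ^ w * E * P.factorial < M := by
    rw [hE, hNdef]; exact_mod_cast hM
  have hF1 : (1 : ℝ) ≤ P.factorial := by exact_mod_cast Nat.factorial_pos P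
  have hYe : (Y : ℝ) = P.factorial * M := by rw [hY]; push_cast; ring
  have hJe : (J : ℝ) = M * M := by rw [hJ]; push_cast; ring
  have h81 : (1 : ℝ) ≤ 8 ^ w := one_le_pow₀ (by norm_num)
  have hM4 : (4 : ℝ) ≤ M := by
    have : (1 : ℝ) ≤ 8 ^ w * E * P.factorial :=
      one_le_mul_of_one_le_of_one_le (one_le_mul_of_one_le_of_one_le h81 hE1) hF1
    linarith
  have hY2 : (2 : ℝ) ≤ Y := by rw [hYe]; nlinarith
  have f1 : (J : ℝ) * V / 4 ≤ E * Y := by nlinarith
  have f2 : (J : ℝ) * (1 / 8 ^ w) ≤ J * V := mul_le_mul_of_nonneg_left hVlo (Nat.cast_nonneg _)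
  have f3 : (J : ℝ) ≤ 4 * E * Y * 8 ^ w := by
    rw [mul_one_div, div_le_iff₀ h8] at f2
    nlinarith
  rw [hJe, hYe] at f3
  nlinarith

end Pool.Agent.H30.DivGap
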