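import Mathlib

/-! A honeycomb of parity gadgets realised by disks: the geometry. -/

namespace Pool.Agent.H30.Dk

abbrev Z2 := ZMod 2

def act (t : Fin 7) (p : Fin 3) : Prop := t = 0 ∨ t.val = p + 1 ∨ t.val = p + 4
instance (t : Fin 7) (p : Fin 3) : Decidable (act t p) := by unfold act; infer_instance

def ox (b : Bool) (p : Fin 3) : ℕ := if b = true ∧ p = 1 then 1 else 0
def oy (b : Bool) (p : Fin 3) : ℕ := if b = true ∧ p = 2 then 1 else 0

def Rel (dx dy : ℤ) (b : Bool) (t : Fin 7) (a : Fin 3 → Z2) (b' : Bool) (t' : Fin 7)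
    (a' : Fin 3 → Z2) : Prop :=
  (dx = 0 ∧ dy = 0 ∧ b = b' ∧ ((t.val ≤ 3 ∧ t'.val ≤ 3) ∨ ∃ p, act t p ∧ act t' p ∧ a p = a' p)) ∨
  ∃ p : Fin 3, b ≠ b' ∧ (ox b p : ℤ) = dx + ox b' p ∧ (oy b p : ℤ) = dy + oy b' p ∧
    t.val ≤ p + 1 ∧ t'.val ≤ p + 1 ∧ (t.val = p + 1 → t'.val = p + 1 → a p = a' p)

instance (dx dy b t a b' t' a') : Decidable (Rel dx dy b t a b' t' a') := by
  unfold Rel; infer_instance

def idx (t : Fin 7) (a : Fin 3 → Z2) : ℕ :=
  if t = 0 then (a 0).val + 2 * (a 1).val else 2 * t + 2 + (a 0 + a 1 + a 2).val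

def cx (t : Fin 7) (a : Fin 3 → Z2) : ℤ :=
  [0, -500000150, -500000005, 1000000000, -700000007, 700000007, -15200004560, 15200004560,
    520400000000, -520400000000, -50000000380000004, 50000000630000006, -50000014880004464,
    50000015130004539, 99999999760000000, -100000000260000000].getD (idx t a) 0
def cy (t : Fin 7) (a : Fin 3 → Z2) : ℤ :=
  [0, -866025317, 866025401, 0, 1212435561, -1212435561, -26327169642, 26327169642, 0, 0,
    86602539881922629, -86602540314935329, -86602531510339421, 86602531943352079, 0, 0].getD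
    (idx t a) 0
def rd (t : Fin 7) : ℤ :=
  [100000000000000000, 99999999000000000, 99999970000000000, 99999480000000000].getD t 10000000

def ib (b : Bool) : ℤ := if b then 1 else 0

def geo (dx dy : ℤ) (b : Bool) (t : Fin 7) (a : Fin 3 → Z2) (b' : Bool) (t' : Fin 7)
    (a' : Fin 3 → Z2) : Prop :=
  (dx * 346410089922338610 + dy * 173205078447486648 + (ib b' - ib b) * 173205078447486648 +
    cx t' a' - cx t a) ^ 2 + (dy * 299998960000000000 + (ib b' - ib b) * 100000000000000000 +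
    cy t' a' - cy t a) ^ 2 ≤ (rd t + rd t') ^ 2

instance (dx dy b t a b' t' a') : Decidable (geo dx dy b t a b' t' a') := by
  unfold geo; infer_instance

def Val (t : Fin 7) (a : Fin 3 → Z2) : Prop :=
  (∀ p, ¬ act t p → a p = 0) ∧ (t = 0 → a 0 + a 1 + a 2 = 0)

instance (t a) : Decidable (Val t a) := by unfold Val; infer_instance

theorem check : ∀ (t : Fin 7) (a0 a1 a2 : Fin 2), Val t ![a0, a1, a2] →
    ∀ (t' : Fin 7) (b0 b1 b2 : Fin 2), Val t' ![b0, b1, b2] → ∀ (dx dy : Fin 3) (b b' : Bool),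
      (geo ((dx : ℕ) - 1) ((dy : ℕ) - 1) b t ![a0, a1, a2] b' t' ![b0, b1, b2] ↔
        Rel ((dx : ℕ) - 1) ((dy : ℕ) - 1) b t ![a0, a1, a2] b' t' ![b0, b1, b2]) := by
  decide +kernel

theorem bound : ∀ (t : Fin 7) (a0 a1 a2 : Fin 2), Val t ![a0, a1, a2] → 0 < rd t ∧
    |cx t ![a0, a1, a2]| + rd t ≤ 100000001000000000 ∧
    |cy t ![a0, a1, a2]| + rd t ≤ 100000001000000000 := by
  decide +kernel

theorem eta (a : Fin 3 → Z2) : a = ![a 0, a 1, a 2] := by
  funext i; fin_cases i <;> rfl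

theorem geo_iff (dx dy : ℤ) (b : Bool) {t : Fin 7} {a : Fin 3 → Z2} (b' : Bool) {t' : Fin 7}
    {a' : Fin 3 → Z2} (h : Val t a) (h' : Val t' a') :
    geo dx dy b t a b' t' a' ↔ Rel dx dy b t a b' t' a' := by
  rw [eta a] at h ⊢
  rw [eta a'] at h' ⊢
  by_cases c : -1 ≤ dx ∧ dx ≤ 1 ∧ -1 ≤ dy ∧ dy ≤ 1
  · have := check t _ _ _ h t' _ _ _ h' ⟨(dx + 1).toNat, by omega⟩ ⟨(dy + 1).toNat, by omega⟩ b b'
    rwa [show (((dx + 1).toNat : ℕ) : ℤ) - 1 = dx by omega,
      show (((dy + 1).toNat : ℕ) : ℤ) - 1 = dy by omega] at this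
  · refine iff_of_false (fun g => c ?_) ?_
    · obtain ⟨r1, x1, y1⟩ := bound t _ _ _ h
      obtain ⟨r2, x2, y2⟩ := bound t' _ _ _ h'
      unfold geo at g
      have g1 := abs_le_of_sq_le_sq' ((le_add_of_nonneg_right (sq_nonneg _)).trans g) (by omega)
      have g2 := abs_le_of_sq_le_sq' ((le_add_of_nonneg_left (sq_nonneg _)).trans g) (by omega)
      have := abs_le.1 (le_refl |cx t ![a 0, a 1, a 2]|)
      have := abs_le.1 (le_refl |cy t ![a 0, a 1, a 2]|)
      have := abs_le.1 (le_refl |cx t' ![a' 0, a' 1, a' 2]|)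
      have := abs_le.1 (le_refl |cy t' ![a' 0, a' 1, a' 2]|)
      have hb : ∀ b, 0 ≤ ib b ∧ ib b ≤ 1 := by decide
      have := hb b
      have := hb b'
      omega
    · rintro (⟨rfl, rfl, -⟩ | ⟨p, -, h1, h2, -⟩)
      · simp at c
      · simp only [ox, oy] at h1 h2
        split_ifs at h1 h2 <;> omega

end Pool.Agent.H30.Dk
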