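import Pool.Agent.H30.DkA

/-! The twisted and untwisted honeycomb graphs: pebble game and non-isomorphism. -/

namespace Pool.Agent.H30.Dk

open Function

abbrev Cl := ℕ × ℕ × Bool × Fin 7
abbrev Ed := ℕ × ℕ × Fin 3
abbrev Rw := Cl × (Fin 3 → Z2)

def he (c : Cl) (p : Fin 3) : Ed := (c.1 + ox c.2.2.1 p, c.2.1 + oy c.2.2.1 p, p)

def D (v w : Rw) : Prop :=
  Rel ((w.1.1 : ℤ) - v.1.1) ((w.1.2.1 : ℤ) - v.1.2.1) v.1.2.2.1 v.1.2.2.2 v.2 w.1.2.2.1 w.1.2.2.2 w.2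

theorem D_iff (v w : Rw) : D v w ↔
    (v.1.1 = w.1.1 ∧ v.1.2.1 = w.1.2.1 ∧ v.1.2.2.1 = w.1.2.2.1 ∧
      ((v.1.2.2.2.val ≤ 3 ∧ w.1.2.2.2.val ≤ 3) ∨
        ∃ p, act v.1.2.2.2 p ∧ act w.1.2.2.2 p ∧ v.2 p = w.2 p)) ∨
    ∃ p : Fin 3, v.1.2.2.1 ≠ w.1.2.2.1 ∧ he v.1 p = he w.1 p ∧ v.1.2.2.2.val ≤ p + 1 ∧
      w.1.2.2.2.val ≤ p + 1 ∧ (v.1.2.2.2.val = p + 1 → w.1.2.2.2.val = p + 1 → v.2 p = w.2 p) := by
  refine or_congr ?_ (exists_congr fun p => and_congr_right' ?_)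
  · rw [← and_assoc, ← and_assoc (a := v.1.1 = w.1.1)]
    exact and_congr_left' (by omega)
  · rw [← and_assoc]
    refine and_congr_left' ?_
    simp only [he, Prod.mk.injEq, and_true]
    omega

theorem D.symm {v w : Rw} (h : D v w) : D w v := by
  rw [D_iff] at h ⊢
  rcases h with ⟨h1, h2, h3, h4 | ⟨p, h4, h5, h6⟩⟩ | ⟨p, h1, h2, h3, h4, h5⟩
  exacts [.inl ⟨h1.symm, h2.symm, h3.symm, .inl h4.symm⟩,
    .inl ⟨h1.symm, h2.symm, h3.symm, .inr ⟨p, h5, h4, h6.symm⟩⟩,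
    .inr ⟨p, h1.symm, h2.symm, h4, h3, fun a b => (h5 b a).symm⟩]

theorem D.refl (v : Rw) : D v v := by
  rw [D_iff]
  refine .inl ⟨rfl, rfl, rfl, ?_⟩
  have : ∀ t : Fin 7, (t.val ≤ 3 ∧ t.val ≤ 3) ∨ ∃ p, act t p := by decide
  exact (this _).imp_right fun ⟨p, h⟩ => ⟨p, h, h, rfl⟩

def K (c d : Cl) (p : Fin 3) : Prop :=
  he c p = he d p ∧ act c.2.2.2 p ∧ act d.2.2.2 p ∧
    (c.2.2.1 = d.2.2.1 → ¬ (c.2.2.2.val ≤ 3 ∧ d.2.2.2.val ≤ 3)) ∧
    (c.2.2.1 ≠ d.2.2.1 → c.2.2.2.val = p + 1 ∧ d.2.2.2.val = p + 1)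

theorem D_K (c d : Cl) (a a' : Fin 3 → Z2) :
    D (c, a) (d, a') ↔ D (c, 0) (d, 0) ∧ ∀ p, K c d p → a p = a' p := by
  rw [D_iff, D_iff]
  constructor
  · rintro (⟨h1, h2, h3, h4⟩ | ⟨q, h1, h2, h3, h4, h5⟩)
    · refine ⟨.inl ⟨h1, h2, h3, h4.imp_right fun ⟨p, h4, h5, _⟩ => ⟨p, h4, h5, rfl⟩⟩, ?_⟩
      rintro p ⟨-, g1, g2, g3, -⟩
      obtain ⟨q, g4, g5, g6⟩ := h4.resolve_left (g3 h3)
      have : ∀ (t t' : Fin 7) (p q : Fin 3), ¬ (t.val ≤ 3 ∧ t'.val ≤ 3) → act t p → act t' p →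
        act t q → act t' q → q = p := by decide
      exact this _ _ _ _ (g3 h3) g1 g2 g4 g5 ▸ g6
    · refine ⟨.inr ⟨q, h1, h2, h3, h4, fun _ _ => rfl⟩, ?_⟩
      rintro p ⟨g0, -, -, -, g⟩
      obtain rfl : q = p := by
        obtain ⟨x, y, b, t⟩ := c
        obtain ⟨x', y', b', t'⟩ := d
        simp only [he, Prod.mk.injEq, and_true] at h1 h2 g0
        cases b <;> cases b' <;> fin_cases p <;> fin_cases q <;> simp [ox, oy] at h1 h2 g0 ⊢ <;>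
          omega
      exact h5 (g h1).1 (g h1).2
  · rintro ⟨⟨h1, h2, h3, h4⟩ | ⟨p, h1, h2, h3, h4, -⟩, h⟩
    · refine .inl ⟨h1, h2, h3, ?_⟩
      by_cases e : c.2.2.2.val ≤ 3 ∧ d.2.2.2.val ≤ 3
      · exact .inl e
      obtain ⟨p, h4, h5, -⟩ := h4.resolve_left e
      exact .inr ⟨p, h4, h5, h p ⟨by dsimp only at *; rw [he, he, h1, h2, h3], h4, h5, fun _ => e,
        fun n => (n h3).elim⟩⟩
    · exact .inr ⟨p, h1, h2, h3, h4, fun e e' => h p ⟨h2, .inr (.inl e), .inr (.inl e'),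
        fun n => (h1 n).elim, fun _ => ⟨e, e'⟩⟩⟩

def intr (N : ℕ) (e : Ed) : Prop :=
  e.1 < N ∧ e.2.1 < N ∧ (e.2.2 = 1 → e.1 ≠ 0) ∧ (e.2.2 = 2 → e.2.1 ≠ 0)

def dl (y : ℕ) (c : Cl) : Z2 := if c.1 = 0 ∧ c.2.1 = y ∧ c.2.2.1 = false then 1 else 0

def Ok (N : ℕ) (τ : Cl → Z2) (v : Rw) : Prop :=
  v.1.1 < N ∧ v.1.2.1 < N ∧ (∀ p, ¬ (act v.1.2.2.2 p ∧ intr N (he v.1 p)) → v.2 p = 0) ∧
    (v.1.2.2.2 = 0 → v.2 0 + v.2 1 + v.2 2 = τ v.1)

abbrev V (N : ℕ) (τ : Cl → Z2) := {v : Rw // Ok N τ v}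

instance (N : ℕ) (τ : Cl → Z2) : Finite (V N τ) :=
  Finite.of_injective (fun v : V N τ => ((⟨v.1.1.1, v.2.1⟩ : Fin N), (⟨v.1.1.2.1, v.2.2.1⟩ : Fin N),
    v.1.1.2.2, v.1.2)) fun v w h => by
      simp only [Prod.mk.injEq, Fin.mk.injEq] at h
      exact Subtype.ext (Prod.ext (Prod.ext h.1 (Prod.ext h.2.1 h.2.2.1)) h.2.2.2)

def G (N : ℕ) (τ : Cl → Z2) : SimpleGraph (V N τ) where
  Adj v w := v ≠ w ∧ D v.1 w.1
  symm := ⟨fun _ _ h => ⟨h.1.symm, h.2.symm⟩⟩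
  loopless := ⟨fun _ h => h.1 rfl⟩

def sh (s : Ed → Z2) (v : Rw) : Rw :=
  (v.1, fun p => v.2 p + if act v.1.2.2.2 p then s (he v.1 p) else 0)

theorem z2 (a : Z2) : a + a = 0 := CharTwo.add_self_eq_zero a

theorem sh_sh (s : Ed → Z2) (v : Rw) : sh s (sh s v) = v :=
  Prod.ext rfl (funext fun p => by simp only [sh]; rw [add_assoc, z2, add_zero])

theorem D_sh (s : Ed → Z2) (v w : Rw) : D (sh s v) (sh s w) ↔ D v w := by
  obtain ⟨c, a⟩ := v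
  obtain ⟨d, a'⟩ := w
  rw [sh, sh, D_K, D_K c d a]
  refine and_congr_right' (forall_congr' fun p => imp_congr_right fun h => ?_)
  simp only [h.1, h.2.1, h.2.2.1, if_true, add_left_inj]

def bd (s : Ed → Z2) (c : Cl) : Z2 := s (he c 0) + s (he c 1) + s (he c 2)

def Sh (N : ℕ) (s : Ed → Z2) (y : ℕ) : Prop :=
  y < N ∧ (∀ e, ¬ intr N e → s e = 0) ∧ ∀ c, bd s c = dl 0 c + dl y c

theorem ok_sh {N : ℕ} {s : Ed → Z2} {y : ℕ} (h : Sh N s y) {τ τ' : Cl → Z2}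
    (ht : ∀ c, τ' c = τ c + dl 0 c) {v : Rw} (hy : v.1.2.1 ≠ y) (o : Ok N τ v) :
    Ok N τ' (sh s v) := by
  refine ⟨o.1, o.2.1, fun p hp => ?_, fun e => ?_⟩
  · simp only [sh, o.2.2.1 p hp, zero_add, ite_eq_right_iff]
    exact fun a => h.2.1 _ fun b => hp ⟨a, b⟩
  · have e' : v.1.2.2.2 = 0 := e
    have := h.2.2 v.1
    simp only [sh, act, e', true_or, if_true, ht, ← o.2.2.2 e]
    rw [show dl y v.1 = 0 from if_neg fun a => hy a.2.1, add_zero, bd] at this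
    rw [← this]
    ring

/-- a row path followed by a column path -/
def T (y x : ℕ) (e : Ed) : Z2 :=
  (if e.2.1 = y ∧ ((e.2.2 = 0 ∧ e.1 < x) ∨ (e.2.2 = 1 ∧ 1 ≤ e.1 ∧ e.1 ≤ x)) then 1 else 0) +
  (if e.1 = x ∧ ((e.2.2 = 0 ∧ e.2.1 < y) ∨ (e.2.2 = 2 ∧ 1 ≤ e.2.1 ∧ e.2.1 ≤ y)) then 1 else 0)

theorem bd_T (y x : ℕ) (c : Cl) : bd (T y x) c = dl y c +
    if c.1 = x ∧ c.2.1 = 0 ∧ c.2.2.1 = false then 1 else 0 := by
  obtain ⟨i, j, b, t⟩ := c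
  cases b <;> simp [bd, T, he, ox, oy, dl] <;> split_ifs <;> first | rfl | omega

theorem T_out {N y x : ℕ} (hy : y < N) (hx : x < N) {e : Ed} (h : ¬ intr N e) : T y x e = 0 := by
  obtain ⟨i, j, p⟩ := e
  rw [T, if_neg, if_neg, add_zero] <;> fin_cases p <;> simp [intr] at h ⊢ <;> omega

theorem T_he {y x : ℕ} {c : Cl} (hy : c.2.1 ≠ y) (hx : c.1 ≠ x) (p : Fin 3) :
    T y x (he c p) = 0 := by
  rw [T, if_neg, if_neg, add_zero] <;> fin_cases p <;> simp [he, ox, oy, hx, hy]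

theorem fresh {k N : ℕ} (hk : k + 1 < N) (f : Fin k → ℕ) (r : ℕ) :
    ∃ y < N, y ≠ r ∧ ∀ j, f j ≠ y := by
  classical
  by_contra H
  push Not at H
  have : Finset.range N ⊆ insert r (Finset.univ.image f) := fun y hy => by
    by_cases e : y = r
    · simp [e]
    · simpa [e] using H y (Finset.mem_range.1 hy) e
  have h1 := Finset.card_le_card this
  have h2 := Finset.card_insert_le r (Finset.univ.image f)
  have h3 := Finset.card_image_le (s := Finset.univ) (f := f)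
  simp only [Finset.card_range, Finset.card_univ, Fintype.card_fin] at h1 h3
  omega

theorem move {k N : ℕ} (hk : k + 1 < N) {s : Ed → Z2} {y : ℕ} (h : Sh N s y) (p : Fin k → Rw)
    (hp : ∀ j, (p j).1.2.1 ≠ y) : ∃ f : V N 0 ≃ V N (dl 0), ∀ v, ∃ s' y', Sh N s' y' ∧
      v.1.1.2.1 ≠ y' ∧ (f v).1 = sh s' v.1 ∧ ∀ j, (p j).1.2.1 ≠ y' ∧ sh s' (p j) = sh s (p j) := by
  obtain ⟨x, hx, -, hx'⟩ := fresh hk (fun j => (p j).1.1) 0
  choose Y h1 h2 h3 using fresh hk fun j => (p j).1.2.1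
  let S : ℕ → Ed → Z2 := fun r e => s e + T y x e + T (Y r) x e
  have hS : ∀ r, Sh N (S r) (Y r) := fun r => ⟨h1 r, fun e he => by
    simp only [S, h.2.1 e he, T_out h.1 hx he, T_out (h1 r) hx he, add_zero], fun c => by
    have a1 := h.2.2 c
    have a2 := bd_T y x c
    have a3 := bd_T (Y r) x c
    simp only [bd, S] at *
    linear_combination a1 + a2 + a3 + z2 (dl y c) +
      z2 (if c.1 = x ∧ c.2.1 = 0 ∧ c.2.2.1 = false then 1 else 0)⟩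
  refine ⟨⟨fun v => ⟨sh (S v.1.1.2.1) v.1, ok_sh (hS _) (fun c => (zero_add _).symm) (h2 _).symm
    v.2⟩, fun v => ⟨sh (S v.1.1.2.1) v.1, ok_sh (hS _) (fun c => (z2 _).symm) (h2 _).symm v.2⟩,
    fun v => Subtype.ext (sh_sh _ _), fun v => Subtype.ext (sh_sh _ _)⟩, fun v =>
      ⟨_, _, hS _, (h2 _).symm, rfl, fun j => ⟨h3 _ j, ?_⟩⟩⟩
  simp only [sh, S, T_he (hp j) (hx' j), T_he (h3 _ j) (hx' j), add_zero]

theorem tele (f : ℕ → Z2) (N : ℕ) : ∑ i ∈ Finset.range N, (f i + f (i + 1)) = f 0 + f N := by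
  induction N with
  | zero => simp [z2]
  | succ N ih => rw [Finset.sum_range_succ, ih]; linear_combination z2 (f N)

theorem no_id {N : ℕ} (hN : 0 < N) (a : Cl → Fin 3 → Z2)
    (h1 : ∀ c : Cl, c.1 < N → c.2.1 < N → Ok N (dl 0) (c, a c))
    (h2 : ∀ c d : Cl, c.1 < N → c.2.1 < N → d.1 < N → d.2.1 < N → D (c, 0) (d, 0) →
      D (c, a c) (d, a d)) : False := by
  let X : Fin 3 → Fin 7 := fun p => ⟨p + 1, by omega⟩
  let U : Fin 3 → Fin 7 := fun p => ⟨p + 4, by omega⟩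
  have e1 : ∀ x y b p t, x < N → y < N → act t p → a (x, y, b, t) p = a (x, y, b, U p) p :=
    fun x y b p t hx hy ht => ((D_K _ _ _ _).1 (h2 (x, y, b, t) (x, y, b, U p) hx hy hx hy
      ((D_iff _ _).2
      (.inl ⟨rfl, rfl, rfl, .inr ⟨p, ht, .inr (.inr rfl), rfl⟩⟩)))).2 p
      ⟨rfl, ht, .inr (.inr rfl), fun _ h => absurd (show p.val + 4 ≤ 3 from h.2) (by omega),
        fun h => (h rfl).elim⟩
  have e2 : ∀ x y b p, x < N → y < N → a (x, y, b, 0) p = a (x, y, b, X p) p :=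
    fun x y b p hx hy => (e1 x y b p _ hx hy (.inl rfl)).trans
      (e1 x y b p _ hx hy (.inr (.inl rfl))).symm
  let s : Ed → Z2 := fun e => if e.1 < N ∧ e.2.1 < N then a (e.1, e.2.1, false, 0) e.2.2 else 0
  have e3 : ∀ x y b p, x < N → y < N → a (x, y, b, 0) p = s (he (x, y, b, 0) p) := by
    intro x y b p hx hy
    cases b
    · simp [s, he, ox, oy, hx, hy]
    · simp only [s]
      split_ifs with c
      · rw [e2 _ _ _ _ hx hy, e2 _ _ _ _ c.1 c.2]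
        have e : he (x, y, true, X p) p = he ((he (x, y, true, 0) p).1, (he (x, y, true, 0) p).2.1,
          false, X p) p := by simp [he, ox, oy]
        exact ((D_K _ _ _ _).1 (h2 _ _ hx hy c.1 c.2 ((D_iff _ _).2 (.inr ⟨p, by simp, e, le_rfl,
          le_rfl, fun _ _ => rfl⟩)))).2 p ⟨e, .inr (.inl rfl), .inr (.inl rfl), by simp,
          fun _ => ⟨rfl, rfl⟩⟩
      · exact (h1 (x, y, true, 0) hx hy).2.2.1 p fun h => c ⟨h.2.1, h.2.2.1⟩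
  have e4 : ∀ x y b, x < N → y < N → bd s (x, y, b, 0) = dl 0 (x, y, b, 0) := fun x y b hx hy => by
    rw [bd, ← e3 _ _ _ _ hx hy, ← e3 _ _ _ _ hx hy, ← e3 _ _ _ _ hx hy]
    exact (h1 (x, y, b, 0) hx hy).2.2.2 rfl
  have e5 : ∑ x ∈ Finset.range N, ∑ y ∈ Finset.range N,
      (bd s (x, y, false, 0) + bd s (x, y, true, 0)) = 1 := by
    rw [Finset.sum_eq_single 0, Finset.sum_eq_single 0]
    · rw [e4 _ _ _ hN hN, e4 _ _ _ hN hN]; rfl
    · intro y hy h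
      rw [e4 _ _ _ hN (Finset.mem_range.1 hy), e4 _ _ _ hN (Finset.mem_range.1 hy)]
      simp [dl, h]
    · simp [hN]
    · refine fun x hx h => Finset.sum_eq_zero fun y hy => ?_
      rw [e4 _ _ _ (Finset.mem_range.1 hx) (Finset.mem_range.1 hy),
        e4 _ _ _ (Finset.mem_range.1 hx) (Finset.mem_range.1 hy)]
      simp [dl, h]
    · simp [hN]
  have e6 : ∀ x y, bd s (x, y, false, 0) + bd s (x, y, true, 0) =
      (s (x, y, 1) + s (x + 1, y, 1)) + (s (x, y, 2) + s (x, y + 1, 2)) := fun x y => by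
    simp only [bd, he, ox, oy]
    simp
    linear_combination z2 (s (x, y, 0))
  simp only [e6, Finset.sum_add_distrib (f := fun y => s (_, y, 1) + s (_, y, 1))] at e5
  rw [Finset.sum_add_distrib, Finset.sum_comm, Finset.sum_eq_zero, Finset.sum_eq_zero] at e5
  · cases e5
  · intro x hx
    rw [tele fun y => s (x, y, 2)]
    simp only [s, lt_irrefl, and_false, if_false, add_zero, ite_eq_right_iff]
    exact fun c => (h1 (x, 0, false, 0) c.1 c.2).2.2.1 2 fun h => h.2.2.2.2 rfl rfl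
  · intro y hy
    rw [tele fun x => s (x, y, 1)]
    simp only [s, lt_irrefl, false_and, if_false, add_zero, ite_eq_right_iff]
    exact fun c => (h1 (0, y, false, 0) c.1 c.2).2.2.1 1 fun h => h.2.2.2.1 rfl rfl

theorem not_iso {N : ℕ} (hN : 0 < N) : IsEmpty (G N 0 ≃g G N (dl 0)) := by
  classical
  refine ⟨fun e => ?_⟩
  let C := {c : Cl // c.1 < N ∧ c.2.1 < N}
  have : Finite C := Finite.of_injective (fun c : C => (⟨(c.1, 0), c.2.1, c.2.2, fun _ _ => rfl,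
    fun _ => by simp⟩ : V N 0)) fun c d h => Subtype.ext (congrArg (·.1.1) h)
  let H := fun τ => {φ : C → V N τ // ∀ c d, D (c.1, 0) (d.1, 0) → D (φ c).1 (φ d).1}
  have hD : ∀ {τ} (v w : V N τ), D v.1 w.1 ↔ v = w ∨ (G N τ).Adj v w := fun v w =>
    ⟨fun h => (em (v = w)).imp_right fun n => ⟨n, h⟩, by rintro (rfl | h); exacts [D.refl _, h.2]⟩
  let F : H 0 → H (dl 0) := fun φ => ⟨fun c => e (φ.1 c), fun c d h => by
    have := φ.2 c d h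
    rw [hD] at this ⊢
    exact this.imp (congrArg e) e.map_adj_iff.2⟩
  have hF : Injective F := fun φ ψ h => Subtype.ext (funext fun c =>
    e.injective (congrFun (congrArg Subtype.val h) c))
  let pat : H (dl 0) → C → Cl := fun φ c => (φ.1 c).1.1
  have ex : ∀ φ : H (dl 0), ∃ β, pat β = pat φ := fun φ => ⟨φ, rfl⟩
  let B : H (dl 0) → H (dl 0) := fun φ => (ex φ).choose
  have hB : ∀ φ c, ((B φ).1 c).1.1 = (φ.1 c).1.1 := fun φ => congrFun (ex φ).choose_spec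
  let J : H (dl 0) → H 0 := fun φ => ⟨fun c => ⟨((φ.1 c).1.1, (φ.1 c).1.2 + ((B φ).1 c).1.2),
    (φ.1 c).2.1, (φ.1 c).2.2.1, fun p hp => by
      dsimp only
      rw [Pi.add_apply, (φ.1 c).2.2.2.1 p hp, ((B φ).1 c).2.2.2.1 p (by rwa [hB]), add_zero],
    fun h => by
      have a1 := (φ.1 c).2.2.2.2 h
      have a2 := ((B φ).1 c).2.2.2.2 (by rwa [hB])
      rw [hB] at a2
      simp only [Pi.add_apply, Pi.zero_apply]
      linear_combination a1 + a2 + z2 (dl 0 (φ.1 c).1.1)⟩, fun c d h => by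
    have a1 := (D_K _ _ _ _).1 (φ.2 c d h)
    have a2 := (D_K _ _ _ _).1 ((B φ).2 c d h)
    rw [hB, hB] at a2
    exact (D_K _ _ _ _).2 ⟨a1.1, fun p k => by
      rw [Pi.add_apply, Pi.add_apply, a1.2 p k, a2.2 p k]⟩⟩
  have hJ : Injective J := fun φ ψ h => by
    have h' := fun c => congrArg Subtype.val (congrFun (congrArg Subtype.val h) c)
    have e1 : pat φ = pat ψ := funext fun c => (congrArg Prod.fst (h' c) :)
    have e2 : B φ = B ψ := by simp only [B, e1]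
    refine Subtype.ext (funext fun c => Subtype.ext (Prod.ext (congrFun e1 c) ?_))
    have := congrArg Prod.snd (h' c)
    simp only [J, e2] at this
    exact add_right_cancel this
  obtain ⟨φ, hφ⟩ := (Finite.injective_iff_surjective.1 (hJ.comp hF)).of_comp
    ⟨fun c => ⟨(c.1, 0), c.2.1, c.2.2, fun _ _ => rfl, fun _ => by simp⟩, fun _ _ => id⟩
  have e1 : ∀ c, (φ.1 c).1.1 = c.1 := fun c => congrArg (·.1.1) (congrFun (congrArg Subtype.val hφ) c)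
  refine no_id hN (fun c => if h : c.1 < N ∧ c.2.1 < N then (φ.1 ⟨c, h⟩).1.2 else 0)
    (fun c h1 h2 => ?_) fun c d h1 h2 h3 h4 h => ?_
  · rw [dif_pos ⟨h1, h2⟩]
    convert (φ.1 ⟨c, h1, h2⟩).2 using 1
    exact Prod.ext (e1 ⟨c, h1, h2⟩).symm rfl
  · have := φ.2 ⟨c, h1, h2⟩ ⟨d, h3, h4⟩ h
    rw [dif_pos ⟨h1, h2⟩, dif_pos ⟨h3, h4⟩]
    convert this using 1
    exacts [Prod.ext (e1 ⟨c, h1, h2⟩).symm rfl, Prod.ext (e1 ⟨d, h3, h4⟩).symm rfl]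

end Pool.Agent.H30.Dk
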