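import Mathlib

set_option autoImplicit false

namespace Pool.Agent.H30.Dom

open Matrix Finset

/-- one Schur step: matrices with `M + Mᵀ = 2 z zᵀ` and a nonzero `z i`. -/
theorem sq_step (n : ℕ)
    (ih : ∀ (M : Matrix (Fin n) (Fin n) ℚ) (z : Fin n → ℚ),
      (∀ j k, M j k + M k j = 2 * z j * z k) → IsSquare M.det)
    (M : Matrix (Fin (n + 1)) (Fin (n + 1)) ℚ) (z : Fin (n + 1) → ℚ)
    (h : ∀ j k, M j k + M k j = 2 * z j * z k) (i : Fin (n + 1)) (hi : z i ≠ 0) :
    IsSquare M.det := by
  have hii : M i i = z i * z i := by have := h i i; linarith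
  let c : Fin (n + 1) → ℚ := fun j => if j = i then 0 else M j i / (z i * z i)
  let B : Matrix (Fin (n + 1)) (Fin (n + 1)) ℚ := fun j k => M j k - c j * M i k
  have hBi : ∀ k, B i k = M i k := by intro k; simp [B, c]
  have hdet : M.det = B.det := by
    apply det_eq_of_forall_row_eq_smul_add_const c i (by simp [c])
    intro j k
    rw [hBi]; simp [B]
  rw [hdet, det_succ_column B i, Finset.sum_eq_single i]
  · have h1 : (-1 : ℚ) ^ ((i : ℕ) + (i : ℕ)) = 1 := by
      rw [← two_mul, pow_mul]; simp
    rw [h1, one_mul, hBi, hii]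
    refine IsSquare.mul ⟨_, rfl⟩ ?_
    apply ih _ (fun j => (M (i.succAbove j) i - z (i.succAbove j) * z i) / z i)
    intro j k
    have hj : i.succAbove j ≠ i := Fin.succAbove_ne i j
    have hk : i.succAbove k ≠ i := Fin.succAbove_ne i k
    simp only [submatrix_apply, B, c, if_neg hj, if_neg hk]
    have e1 := h (i.succAbove j) (i.succAbove k)
    have e2 := h (i.succAbove j) i
    have e3 := h (i.succAbove k) i
    have e2' : M i (i.succAbove j) = 2 * z (i.succAbove j) * z i - M (i.succAbove j) i := by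
      linarith
    have e3' : M i (i.succAbove k) = 2 * z (i.succAbove k) * z i - M (i.succAbove k) i := by
      linarith
    have e1' : M (i.succAbove j) (i.succAbove k) =
        2 * z (i.succAbove j) * z (i.succAbove k) - M (i.succAbove k) (i.succAbove j) := by
      linarith
    rw [e2', e3', e1']
    field_simp
    ring
  · intro j _ hj
    have : B j i = 0 := by
      simp only [B, c, if_neg hj, hii]
      field_simp
      ring
    simp [this]
  · simp

theorem sq_fin (n : ℕ) : ∀ (M : Matrix (Fin n) (Fin n) ℚ) (z : Fin n → ℚ),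
    (∀ j k, M j k + M k j = 2 * z j * z k) → IsSquare M.det := by
  induction n with
  | zero => intro M z _; simp
  | succ n ih =>
    intro M z h
    by_cases hz : ∃ i, z i ≠ 0
    · obtain ⟨i, hi⟩ := hz
      exact sq_step n ih M z h i hi
    · push Not at hz
      by_cases hd : M.det = 0
      · rw [hd]; exact IsSquare.zero
      have hu : IsUnit M.det := isUnit_iff_ne_zero.2 hd
      have hT : Mᵀ = -M := by
        ext j k
        have := h j k
        rw [hz j] at this
        simp only [transpose_apply, Matrix.neg_apply]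
        linarith
      have hinv : (M⁻¹)ᵀ = -M⁻¹ := by
        rw [transpose_nonsing_inv, hT]
        apply inv_eq_right_inv
        rw [Matrix.neg_mul, Matrix.mul_neg, neg_neg, mul_nonsing_inv _ hu]
      have h00 : M⁻¹ 0 0 = 0 := by
        have := congrFun (congrFun hinv 0) 0
        simp only [transpose_apply, Matrix.neg_apply] at this
        linarith
      let U : Matrix (Fin (n + 1)) Unit ℚ := fun j _ => if j = 0 then 1 else 0
      have key := det_add_mul (A := M) U Uᵀ hu
      have h1 : (1 + Uᵀ * M⁻¹ * U).det = 1 := by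
        rw [det_unique]
        simp [U, mul_apply, h00]
      rw [h1, mul_one] at key
      rw [← key]
      apply sq_step n ih _ (fun j => if j = 0 then 1 else 0) _ 0 (by simp)
      intro j k
      have := h j k
      rw [hz j] at this
      have hU : ∀ a b, (U * Uᵀ) a b = (if a = 0 then 1 else 0) * (if b = 0 then 1 else 0) := by
        intro a b
        rw [Matrix.mul_apply, Fintype.sum_unique, transpose_apply]
      rw [Matrix.add_apply, Matrix.add_apply, hU, hU]
      split_ifs <;> linarith

theorem sq_det {ι : Type*} [Fintype ι] [DecidableEq ι] (M : Matrix ι ι ℚ) (z : ι → ℚ)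
    (h : ∀ j k, M j k + M k j = 2 * z j * z k) : IsSquare M.det := by
  let e := (Fintype.equivFin ι).symm
  rw [← det_submatrix_equiv_self e M]
  exact sq_fin _ _ (fun j => z (e j)) (fun j k => h _ _)

/-- determinant of a matrix that is triangular for a rank function -/
theorem det_of_rank {ι R : Type*} [Fintype ι] [DecidableEq ι] [CommRing R] (M : Matrix ι ι R)
    (φ : ι → ℤ) (h : ∀ i j, i ≠ j → M i j ≠ 0 → φ j < φ i) : M.det = ∏ i, M i i := by
  rw [det_apply, Finset.sum_eq_single 1]
  · simp
  · intro σ _ hσ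
    by_contra hne
    have hp : ∏ i, M (σ i) i ≠ 0 := fun h0 => hne (by rw [h0]; simp)
    have hall : ∀ i, M (σ i) i ≠ 0 := fun i h0 => hp (Finset.prod_eq_zero (mem_univ i) h0)
    obtain ⟨i0, hi0⟩ : ∃ i, σ i ≠ i := by
      by_contra hc
      push Not at hc
      exact hσ (Equiv.ext hc)
    have hlt : ∑ i, φ i < ∑ i, φ (σ i) := by
      apply Finset.sum_lt_sum
      · intro i _
        by_cases hi : σ i = i
        · rw [hi]
        · exact (h _ _ hi (hall i)).le
      · exact ⟨i0, mem_univ _, h _ _ hi0 (hall i0)⟩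
    rw [Equiv.sum_comp σ φ] at hlt
    exact lt_irrefl _ hlt
  · simp

theorem sign_pairs {ι α : Type*} [Fintype ι] [DecidableEq ι] [LinearOrder α] (ρ : ι → α)
    (hρ : Function.Injective ρ) (f : ι → ι → ℤ) (hf : ∀ i j, f i j = -f j i)
    (σ : Equiv.Perm ι) :
    ∏ i, ∏ j, (if ρ i < ρ j then f (σ i) (σ j) else 1) =
      (Equiv.Perm.sign σ : ℤ) * ∏ i, ∏ j, (if ρ i < ρ j then f i j else 1) := by
  letI : LinearOrder ι := LinearOrder.lift' ρ hρ
  let φ := Fintype.orderIsoFinOfCardEq ι rfl
  have hlt : ∀ i j, ρ (φ i) < ρ (φ j) ↔ i < j := fun i j => φ.lt_iff_lt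
  have conv : ∀ g : ι → ι → ℤ, ∏ i, ∏ j, (if ρ i < ρ j then g i j else 1) =
      ∏ i, ∏ j ∈ Finset.Ioi i, g (φ i) (φ j) := by
    intro g
    rw [← Equiv.prod_comp φ.toEquiv]
    refine Finset.prod_congr rfl fun i _ => ?_
    rw [← Equiv.prod_comp φ.toEquiv, ← Finset.prod_filter]
    apply Finset.prod_congr
    · ext j
      simp only [Finset.mem_filter, Finset.mem_univ, true_and, Finset.mem_Ioi]
      exact hlt i j
    · intro j _; rfl
  rw [conv (fun i j => f (σ i) (σ j)), conv f]
  let τ : Equiv.Perm (Fin (Fintype.card ι)) := φ.toEquiv.symm.permCongr σ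
  have hτ : ∀ i, φ (τ i) = σ (φ i) := by
    intro i; simp [τ, Equiv.permCongr_apply]
  have := τ.prod_Ioi_comp_eq_sign_mul_prod (f := fun i j => f (φ i) (φ j)) (fun i j => hf _ _)
  simp only [hτ] at this
  rw [this]
  congr 1
  simp [τ, Equiv.Perm.sign_permCongr]

theorem sum_fiber_congr {ι : Type*} [Fintype ι] (u v : ι → ℕ)
    (h : ∀ d, (univ.filter fun b => u b = d).card = (univ.filter fun b => v b = d).card)
    (ψ : ℕ → ℕ) : ∑ b, ψ (u b) = ∑ b, ψ (v b) := by
  classical
  let S := univ.image u ∪ univ.image v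
  have key : ∀ w : ι → ℕ, (∀ b, w b ∈ S) →
      ∑ b, ψ (w b) = ∑ d ∈ S, (univ.filter fun b => w b = d).card * ψ d := by
    intro w hw
    rw [← Finset.sum_fiberwise_of_maps_to (s := univ) (t := S) (g := w) (fun b _ => hw b)]
    refine Finset.sum_congr rfl fun d _ => ?_
    rw [Finset.sum_congr rfl (g := fun _ => ψ d)]
    · simp
    · intro b hb
      rw [(Finset.mem_filter.1 hb).2]
  rw [key u (fun b => by simp [S]), key v (fun b => by simp [S])]
  exact Finset.sum_congr rfl fun d _ => by rw [h d]

end Pool.Agent.H30.Dom
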