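import Pool.Agent.H30.DomA

set_option autoImplicit false

namespace Pool.Agent.H30.Dom

open Matrix Finset

def cM (n : ℕ) : Matrix (Fin n) (Fin n) ℚ :=
  fun i j => if j < i then 2 else if j = i then 1 else 0

def PM (R : Type) [CommRing R] (n r : ℕ) : Matrix (Fin n) (Fin n) R :=
  diagonal fun j => if (j : ℕ) < r then 1 else 0

def JM (n : ℕ) : Matrix (Fin n) (Fin n) ℚ := fun _ _ => 1

theorem cM_add (n : ℕ) : cM n + (cM n)ᵀ = (2 : ℚ) • JM n := by
  ext i j
  simp only [Matrix.add_apply, transpose_apply, cM, JM, Matrix.smul_apply, smul_eq_mul]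
  rcases lt_trichotomy i j with h | h | h
  · simp [h, h.ne', not_lt.2 h.le]
  · subst h; simp; norm_num
  · simp [h, h.ne', not_lt.2 h.le]

theorem cM_det (n : ℕ) : (cM n).det = 1 := by
  rw [det_of_rank (cM n) (fun i => (i : ℤ))]
  · simp [cM]
  · intro i j hij h
    simp only [cM] at h
    by_cases h1 : j < i
    · exact_mod_cast h1
    · simp [h1, Ne.symm hij] at h

theorem cP (n s : ℕ) : (cM n)ᵀ * PM ℚ n s = PM ℚ n s * (cM n)ᵀ * PM ℚ n s := by
  ext i j
  simp only [PM, mul_diagonal, diagonal_mul, transpose_apply, cM]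
  by_cases h1 : (i : ℕ) < s
  · simp [h1]
  · by_cases h2 : (j : ℕ) < s
    · have : j < i := by
        rw [Fin.lt_def]; omega
      simp [h1, h2, not_lt.2 this.le, this.ne']
    · simp [h2]

theorem PM_T (n s : ℕ) : (PM ℚ n s)ᵀ = PM ℚ n s := by simp [PM]

theorem JM_T (n : ℕ) : (JM n)ᵀ = JM n := rfl

theorem alg (n : ℕ) (O E : Matrix (Fin n) (Fin n) ℚ) (hO : O.det ≠ 0)
    (h1 : Oᵀ * cM n * O = Eᵀ * cM n * E) (h2 : ∀ t, ∑ j, O j t = ∑ j, E j t) (r s : ℕ) :
    IsSquare |(fromBlocks O (PM ℚ n r * O) (PM ℚ n s * E) E).det| := by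
  have hu : IsUnit O.det := isUnit_iff_ne_zero.2 hO
  set L := E * O⁻¹ with hL
  set c := cM n with hc
  set P := PM ℚ n s with hP
  set Q := PM ℚ n r with hQ
  set J := JM n with hJ
  have hLO : L * O = E := by rw [hL, Matrix.mul_assoc, nonsing_inv_mul _ hu, Matrix.mul_one]
  have hfac : fromBlocks O (Q * O) (P * E) E = fromBlocks 1 Q (P * L) L * fromBlocks O 0 0 O := by
    rw [fromBlocks_multiply]
    simp [Matrix.mul_assoc, hLO]
  have huT : IsUnit (Oᵀ).det := by rwa [det_transpose]
  have hLc : Lᵀ * c * L = c := by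
    have : Oᵀ * (Lᵀ * c * L) * O = Oᵀ * c * O := by
      rw [h1, ← hLO, transpose_mul L O]
      simp only [Matrix.mul_assoc]
    have h3 := congrArg (fun X => (Oᵀ)⁻¹ * X * O⁻¹) this
    simp only [Matrix.mul_assoc, mul_nonsing_inv _ hu, Matrix.mul_one] at h3
    simp only [← Matrix.mul_assoc, nonsing_inv_mul _ huT, Matrix.one_mul] at h3
    exact h3
  have hJL : J * L = J := by
    have : J * E = J * O := by
      ext i t
      simp [hJ, JM, Matrix.mul_apply, h2 t]
    rw [hL, ← Matrix.mul_assoc, this, Matrix.mul_assoc, mul_nonsing_inv _ hu, Matrix.mul_one]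
  have hcc : c + cᵀ = (2 : ℚ) • J := cM_add n
  have hLcT : Lᵀ * cᵀ * L = cᵀ := by
    have := congrArg transpose hLc
    simpa [transpose_mul, Matrix.mul_assoc] using this
  set H := (2 : ℚ) • J - Lᵀ * cᵀ with hH
  have hHL : H * L = c := by
    rw [hH, Matrix.sub_mul, Matrix.smul_mul, hJL, hLcT, ← hcc]; simp
  have hdL : L.det * L.det = 1 := by
    have := congrArg det hLc
    rw [det_mul, det_mul, det_transpose, cM_det] at this
    linarith
  have hdH : H.det * L.det = 1 := by
    have := congrArg det hHL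
    rwa [det_mul, cM_det] at this
  have habsH : |H.det| = 1 := by
    have a1 : |L.det| = 1 := by
      have := congrArg abs hdL
      rw [abs_mul, abs_one] at this
      nlinarith [abs_nonneg L.det]
    have := congrArg abs hdH
    rwa [abs_mul, a1, mul_one, abs_one] at this
  set M' := c - H * P * L with hM'
  have hsym : M' + M'ᵀ = (2 : ℚ) • ((1 - P * L)ᵀ * J * (1 - P * L)) := by
    have e1 : cᵀ * P = P * cᵀ * P := cP n s
    have e2 : Pᵀ = P := PM_T n s
    have e3 : Jᵀ = J := JM_T n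
    have e4 : H * P * L = (2 : ℚ) • (J * P * L) - Lᵀ * (P * cᵀ * P) * L := by
      rw [hH, Matrix.sub_mul, Matrix.sub_mul, ← e1]
      simp [Matrix.mul_assoc]
    have e5 : P * cᵀ * P + P * c * P = (2 : ℚ) • (P * J * P) := by
      rw [← Matrix.add_mul, ← Matrix.mul_add, add_comm, hcc]; simp
    have e6 : Lᵀ * (P * cᵀ * P) * L + Lᵀ * (P * c * P) * L =
        (2 : ℚ) • (Lᵀ * (P * J * P) * L) := by
      rw [← Matrix.add_mul, ← Matrix.mul_add, e5]; simp
    rw [hM', e4]
    simp only [transpose_sub, transpose_smul, transpose_mul, transpose_transpose, e2, e3,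
      transpose_one, Matrix.sub_mul, Matrix.mul_sub, Matrix.one_mul, Matrix.mul_one, smul_sub]
    simp only [Matrix.mul_assoc] at e6 ⊢
    rw [← e6, ← hcc]
    abel
  let ζ : Fin n → ℚ := fun j => ∑ a, (1 - P * L) a j
  have hent : ∀ i j, M' i j + M' j i = 2 * ζ i * ζ j := by
    intro i j
    have := congrFun (congrFun hsym i) j
    rw [Matrix.add_apply, transpose_apply] at this
    rw [this, Matrix.smul_apply, Matrix.mul_apply, smul_eq_mul]
    simp only [Matrix.mul_apply (M := (1 - P * L)ᵀ), hJ, JM, mul_one, transpose_apply, ζ]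
    rw [← Finset.mul_sum, mul_assoc]
  set Mf := c - H * P * L * Q with hMf
  have hMfN : H * (L - P * L * Q) = Mf := by
    rw [Matrix.mul_sub, hHL, hMf]; simp [Matrix.mul_assoc]
  have hMf1 : ∀ i j : Fin n, Mf i j = if (j : ℕ) < r then M' i j else c i j := by
    intro i j
    rw [hMf, hM', Matrix.sub_apply, Matrix.sub_apply, hQ, PM, mul_diagonal]
    split_ifs <;> simp
  have hdM : IsSquare Mf.det := by
    rw [twoBlockTriangular_det' Mf (fun j => (j : ℕ) < r)]
    · have b2 : (toSquareBlockProp Mf fun i => ¬ ((i : ℕ) < r)).det = 1 := by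
        rw [det_of_rank _ (fun i => ((i.1 : ℕ) : ℤ))]
        · apply Finset.prod_eq_one
          intro i _
          simp only [toSquareBlockProp_def, of_apply]
          rw [hMf1, if_neg i.2]; simp [hc, cM]
        · intro i j hij h
          simp only [toSquareBlockProp_def, of_apply] at h
          rw [hMf1, if_neg j.2] at h
          simp only [hc, cM] at h
          by_cases h1 : j.1 < i.1
          · exact_mod_cast h1
          · have : j.1 ≠ i.1 := fun e => hij (Subtype.ext e.symm)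
            simp [h1, this] at h
      rw [b2, mul_one]
      apply sq_det _ (fun j => ζ j.1)
      intro j k
      simp only [toSquareBlockProp_def, of_apply]
      rw [hMf1, hMf1, if_pos j.2, if_pos k.2]
      exact hent _ _
    · intro i hi j hj
      rw [hMf1, if_neg hj]
      have : i < j := by rw [Fin.lt_def]; omega
      simp [hc, cM, not_lt.2 this.le, this.ne']
  rw [hfac, det_mul, det_fromBlocks_one₁₁, det_fromBlocks_zero₁₂, abs_mul]
  have hN : |(L - P * L * Q).det| = Mf.det := by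
    have := congrArg (fun X => |X.det|) hMfN
    simp only [det_mul, abs_mul, habsH, one_mul] at this
    rw [this]
    obtain ⟨k, hk⟩ := hdM
    rw [hk]; exact abs_mul_self k
  rw [hN, abs_mul_self]
  exact hdM.mul ⟨_, rfl⟩

/-- the kernel sequences -/
def yy (τ : ℕ) : ℕ → ℕ → ℤ
  | 0, i => if i = 1 ∧ τ = 0 then 1 else 0
  | k + 1, i => if i = 0 ∨ 2 * k + 3 < i then 0 else
      (if τ = k + 1 then 1 else 0) + ∑ l ∈ range (i - 1), (yy τ k (l + 1) + yy τ k l)

theorem yy_zero (τ k : ℕ) : yy τ k 0 = 0 := by cases k <;> simp [yy]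

theorem yy_big (τ k i : ℕ) (h : 2 * k + 2 ≤ i) : yy τ k i = 0 := by
  cases k with
  | zero => simp only [yy]; rw [if_neg]; omega
  | succ k => simp only [yy]; rw [if_pos]; omega

theorem yy_one (τ k : ℕ) : yy τ k 1 = if τ = k then 1 else 0 := by
  cases k with
  | zero => simp [yy]
  | succ k => simp [yy]

theorem yy_rec (τ k i : ℕ) (h : i ≤ 2 * k + 1) :
    yy τ (k + 1) (i + 2) = yy τ (k + 1) (i + 1) + yy τ k (i + 1) + yy τ k i := by
  simp only [yy]
  rw [if_neg (by omega), if_neg (show ¬ (i + 1 = 0 ∨ 2 * k + 3 < i + 1) by omega)]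
  rw [show i + 2 - 1 = i + 1 by omega, show i + 1 - 1 = i by omega, sum_range_succ]
  ring

def Gr (a b : ℕ → ℤ) (M : ℕ) : ℤ := ∑ i ∈ range M, (-1) ^ i * (a i * b (i + 1) - b i * a (i + 1))

theorem green (τ τ' k : ℕ) : Gr (yy τ k) (yy τ' k) (2 * k + 2) = 0 := by
  induction k with
  | zero => simp [Gr, sum_range_succ, yy]
  | succ k ih =>
    have key : ∀ M, M ≤ 2 * k + 2 → Gr (yy τ (k + 1)) (yy τ' (k + 1)) (M + 1) =
        Gr (yy τ k) (yy τ' k) M + (-1) ^ M *
          (yy τ (k + 1) (M + 1) * yy τ' k M - yy τ' (k + 1) (M + 1) * yy τ k M) := by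
      intro M
      induction M with
      | zero => intro _; simp [Gr, yy_zero]
      | succ M ihM =>
        intro hM
        have := ihM (by omega)
        unfold Gr at this ⊢
        rw [sum_range_succ _ (M + 1), this, sum_range_succ _ M, yy_rec τ k M (by omega),
          yy_rec τ' k M (by omega)]
        ring
    have := key (2 * k + 2) le_rfl
    rw [ih, yy_big τ k _ le_rfl, yy_big τ' k _ le_rfl] at this
    unfold Gr at this ⊢
    rw [show 2 * (k + 1) + 2 = 2 * k + 2 + 1 + 1 by ring, sum_range_succ, this,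
      yy_big τ (k + 1) (2 * k + 2 + 1 + 1) (by omega),
      yy_big τ' (k + 1) (2 * k + 2 + 1 + 1) (by omega)]
    ring

theorem par_sum (a : ℕ → ℤ) (ha : a 0 = 0) (M : ℕ) :
    ∑ j ∈ range M, (a (2 * j + 1 + 1) + a (2 * j + 1)) =
      ∑ j ∈ range M, (a (2 * j + 1) + a (2 * j)) + a (2 * M) := by
  induction M with
  | zero => simp [ha]
  | succ M ih =>
    rw [sum_range_succ, sum_range_succ, ih, show 2 * (M + 1) = 2 * M + 1 + 1 by ring]; ring

theorem kappa (a b : ℕ → ℤ) (ha : a 0 = 0) (hb : b 0 = 0) (M : ℕ) :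
    ∑ j ∈ range M, (a (2 * j + 1) + a (2 * j)) *
        ((b (2 * j + 1) + b (2 * j)) + 2 * ∑ l ∈ range j, (b (2 * l + 1) + b (2 * l))) -
      ∑ j ∈ range M, (a (2 * j + 1 + 1) + a (2 * j + 1)) *
        ((b (2 * j + 1 + 1) + b (2 * j + 1)) +
          2 * ∑ l ∈ range j, (b (2 * l + 1 + 1) + b (2 * l + 1))) =
      Gr a b (2 * M) - a (2 * M) * (2 * ∑ l ∈ range M, (b (2 * l + 1) + b (2 * l)) + b (2 * M)) := by
  induction M with
  | zero => simp [Gr, ha]
  | succ M ih =>
    rw [sum_range_succ, sum_range_succ, sum_range_succ (n := M), par_sum b hb M]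
    unfold Gr at ih ⊢
    rw [show 2 * (M + 1) = 2 * M + 1 + 1 by ring, sum_range_succ (n := 2 * M + 1),
      sum_range_succ (n := 2 * M), pow_succ, pow_mul]
    simp only [even_two, Even.neg_pow, one_pow]
    linear_combination ih

def xx (n τ i : ℕ) : ℤ := yy τ (n - 1) (i + 1) + yy τ (n - 1) i

def OM (n : ℕ) : Matrix (Fin n) (Fin n) ℤ := fun j t => xx n (n - 1 - t) (2 * j)
def EM (n : ℕ) : Matrix (Fin n) (Fin n) ℤ := fun j t => xx n (n - 1 - t) (2 * j + 1)

theorem form_entry (n : ℕ) (u v : ℕ → ℚ) :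
    ∑ j' : Fin n, (∑ j : Fin n, u j * cM n j j') * v j' =
      ∑ j ∈ range n, u j * (v j + 2 * ∑ l ∈ range j, v l) := by
  simp only [Finset.sum_mul]
  rw [Finset.sum_comm, ← Fin.sum_univ_eq_sum_range
    (fun j => u j * (v j + 2 * ∑ l ∈ range j, v l))]
  refine Finset.sum_congr rfl fun j _ => ?_
  simp only [mul_assoc]
  rw [← Finset.mul_sum]
  congr 1
  have : ∀ j' : Fin n, cM n j j' * v j' =
      (fun l : ℕ => (if l = j then v l else 0) + 2 * (if l < j then v l else 0)) j' := by
    intro j'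
    simp only [cM, Fin.lt_def, Fin.ext_iff]
    split_ifs <;> first | omega | ring
  rw [Finset.sum_congr rfl (fun j' _ => this j'), Fin.sum_univ_eq_sum_range
    (fun l : ℕ => (if l = j then v l else 0) + 2 * (if l < j then v l else 0)), sum_add_distrib,
    ← Finset.mul_sum, Finset.sum_ite_eq', if_pos (by simp), ← Finset.sum_filter]
  congr 3
  ext l
  simp only [mem_filter, mem_range]
  have := j.2
  omega

theorem F1 (n : ℕ) (hn : 1 ≤ n) :
    ((OM n).map (Int.castRingHom ℚ))ᵀ * cM n * (OM n).map (Int.castRingHom ℚ) =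
      ((EM n).map (Int.castRingHom ℚ))ᵀ * cM n * (EM n).map (Int.castRingHom ℚ) := by
  ext t t'
  simp only [Matrix.mul_apply, transpose_apply, map_apply, OM, EM, eq_intCast]
  rw [form_entry n (fun j => (xx n (n - 1 - t) (2 * j) : ℚ))
    (fun j => (xx n (n - 1 - t') (2 * j) : ℚ)),
    form_entry n (fun j => (xx n (n - 1 - t) (2 * j + 1) : ℚ))
    (fun j => (xx n (n - 1 - t') (2 * j + 1) : ℚ))]
  have h := kappa (yy (n - 1 - t) (n - 1)) (yy (n - 1 - t') (n - 1)) (yy_zero _ _) (yy_zero _ _) n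
  have g := green (n - 1 - t) (n - 1 - t') (n - 1)
  rw [show 2 * (n - 1) + 2 = 2 * n by omega] at g
  rw [g, yy_big _ (n - 1) (2 * n) (by omega), zero_mul, sub_zero, sub_eq_zero] at h
  unfold xx
  exact_mod_cast h

theorem F2 (n : ℕ) (hn : 1 ≤ n) (t : Fin n) :
    ∑ j, (OM n).map (Int.castRingHom ℚ) j t = ∑ j, (EM n).map (Int.castRingHom ℚ) j t := by
  simp only [map_apply, OM, EM, eq_intCast]
  rw [Fin.sum_univ_eq_sum_range (fun j => (xx n (n - 1 - t) (2 * j) : ℚ)),
    Fin.sum_univ_eq_sum_range (fun j => (xx n (n - 1 - t) (2 * j + 1) : ℚ))]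
  have h := par_sum (yy (n - 1 - t) (n - 1)) (yy_zero _ _) n
  rw [yy_big _ (n - 1) (2 * n) (by omega), add_zero] at h
  unfold xx
  exact_mod_cast h.symm

theorem yy_mod (τ k : ℕ) : ∀ i, (yy τ k i : ZMod 2) =
    if τ ≤ k ∧ k - τ < i ∧ i ≤ k + τ + 1 then 1 else 0 := by
  induction k with
  | zero =>
    intro i
    simp only [yy]
    split_ifs <;> first | omega | simp
  | succ k ih =>
    have key : ∀ i, i ≤ 2 * k + 2 → (yy τ (k + 1) (i + 1) : ZMod 2) =
        (if τ = k + 1 then 1 else 0) + (yy τ k i : ZMod 2) := by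
      intro i
      induction i with
      | zero => intro _; simp [yy_one, yy_zero]
      | succ i ihi =>
        intro hi
        rw [yy_rec τ k i (by omega)]
        push_cast
        rw [ihi (by omega)]
        have : (yy τ k i : ZMod 2) + (yy τ k i : ZMod 2) = 0 := CharTwo.add_self_eq_zero _
        linear_combination this
    intro i
    rcases i with _ | i
    · simp [yy_zero]
    · by_cases hi : i ≤ 2 * k + 2
      · rw [key i hi, ih]
        split_ifs <;> first | omega | simp
      · rw [yy_big _ _ _ (by omega), if_neg (by omega)]; simp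

theorem xx_mod (n : ℕ) (t : Fin n) (i : ℕ) : (xx n (n - 1 - t) i : ZMod 2) =
    if i = t ∨ i + t + 1 = 2 * n then 1 else 0 := by
  have := t.2
  unfold xx
  push_cast
  rw [yy_mod, yy_mod]
  split_ifs <;> first | omega | simp | decide

theorem xx_sum (n i : ℕ) (v : Fin n → ZMod 2) (t : Fin n) (h : i = t ∨ i + t + 1 = 2 * n) :
    ∑ t' : Fin n, (xx n (n - 1 - t') i : ZMod 2) * v t' = v t := by
  rw [Finset.sum_eq_single t]
  · rw [xx_mod, if_pos h, one_mul]
  · intro t' _ ht'
    have := t.2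
    have := t'.2
    have : (t' : ℕ) ≠ t := fun e => ht' (Fin.ext e)
    rw [xx_mod, if_neg (by omega), zero_mul]
  · simp

def NM (n m : ℕ) : Matrix (Fin n ⊕ Fin n) (Fin n ⊕ Fin n) ℤ :=
  fromBlocks (OM n) (PM ℤ n ((m + 1) / 2) * OM n) (PM ℤ n (m / 2) * EM n) (EM n)

theorem zmod_two : ∀ z : ZMod 2, z ≠ 0 → z = 1 := by decide

theorem NM_odd (n m : ℕ) (hm : m ≤ n) : Odd (NM n m).det := by
  have : Fact (Nat.Prime 2) := ⟨Nat.prime_two⟩
  rw [← ZMod.intCast_eq_one_iff_odd]
  have hne : (((NM n m).det : ℤ) : ZMod 2) ≠ 0 := by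
    have : (((NM n m).det : ℤ) : ZMod 2) = ((NM n m).map (Int.castRingHom (ZMod 2))).det := by
      rw [← RingHom.mapMatrix_apply, ← RingHom.map_det]; rfl
    rw [this]
    intro h0
    obtain ⟨v, hv, hz⟩ := exists_mulVec_eq_zero_iff.2 h0
    apply hv
    have r1 : ∀ (j t : Fin n), (2 * (j : ℕ) = t ∨ 2 * (j : ℕ) + t + 1 = 2 * n) →
        v (Sum.inl t) + (if (j : ℕ) < (m + 1) / 2 then v (Sum.inr t) else 0) = 0 := by
      intro j t h
      have := congrFun hz (Sum.inl j)
      simp only [mulVec, dotProduct, Fintype.sum_sum_type, map_apply, NM, fromBlocks_apply₁₁,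
        fromBlocks_apply₁₂, PM, diagonal_mul, OM, eq_intCast, Pi.zero_apply] at this
      rw [xx_sum n _ (fun t => v (Sum.inl t)) t h] at this
      split_ifs at this ⊢
      · simp only [one_mul] at this
        rwa [xx_sum n _ (fun t => v (Sum.inr t)) t h] at this
      · simpa using this
    have r2 : ∀ (j t : Fin n), (2 * (j : ℕ) + 1 = t ∨ 2 * (j : ℕ) + 1 + t + 1 = 2 * n) →
        (if (j : ℕ) < m / 2 then v (Sum.inl t) else 0) + v (Sum.inr t) = 0 := by
      intro j t h
      have := congrFun hz (Sum.inr j)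
      simp only [mulVec, dotProduct, Fintype.sum_sum_type, map_apply, NM, fromBlocks_apply₂₁,
        fromBlocks_apply₂₂, PM, diagonal_mul, EM, eq_intCast, Pi.zero_apply] at this
      rw [xx_sum n _ (fun t => v (Sum.inr t)) t h] at this
      split_ifs at this ⊢
      · simp only [one_mul] at this
        rwa [xx_sum n _ (fun t => v (Sum.inl t)) t h] at this
      · simpa using this
    have both : ∀ t : Fin n, v (Sum.inl t) = 0 ∧ v (Sum.inr t) = 0 := by
      intro t
      have ht := t.2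
      rcases Nat.even_or_odd' (t : ℕ) with ⟨a, ha | ha⟩
      · have b1 := r2 ⟨n - 1 - a, by omega⟩ t (by simp only; omega)
        rw [if_neg (by simp only; omega), zero_add] at b1
        have b2 := r1 ⟨a, by omega⟩ t (by simp only; omega)
        rw [b1] at b2
        exact ⟨by simpa using b2, b1⟩
      · have b1 := r1 ⟨n - 1 - a, by omega⟩ t (by simp only; omega)
        rw [if_neg (by simp only; omega), add_zero] at b1
        have b2 := r2 ⟨a, by omega⟩ t (by simp only; omega)
        rw [b1] at b2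
        exact ⟨b1, by simpa using b2⟩
    funext x
    rcases x with t | t
    · exact (both t).1
    · exact (both t).2
  exact zmod_two _ hne

theorem NM_sq (n m : ℕ) (hn : 1 ≤ n) : ∃ k : ℕ, (NM n m).det.natAbs = k ^ 2 := by
  have hO : ((OM n).map (Int.castRingHom ℚ)).det ≠ 0 := by
    have h := NM_odd n 0 (Nat.zero_le _)
    have e : PM ℤ n 0 = 0 := by ext i j; simp [PM]
    simp only [NM, zero_add, Nat.reduceDiv, Nat.zero_div, e, Matrix.zero_mul,
      det_fromBlocks_zero₁₂] at h
    rw [← RingHom.mapMatrix_apply, ← RingHom.map_det]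
    intro h0
    have : (OM n).det = 0 := by simpa using h0
    rw [this, zero_mul] at h
    exact absurd h (by decide)
  have h := alg n _ _ hO (F1 n hn) (F2 n hn) ((m + 1) / 2) (m / 2)
  have hP : ∀ r, (PM ℤ n r).map (Int.castRingHom ℚ) = PM ℚ n r := by
    intro r; ext i j
    simp only [PM, map_apply, diagonal_apply]
    split_ifs <;> simp
  have e : fromBlocks ((OM n).map (Int.castRingHom ℚ))
      (PM ℚ n ((m + 1) / 2) * (OM n).map (Int.castRingHom ℚ))
      (PM ℚ n (m / 2) * (EM n).map (Int.castRingHom ℚ)) ((EM n).map (Int.castRingHom ℚ)) =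
      (NM n m).map (Int.castRingHom ℚ) := by
    rw [NM, fromBlocks_map, Matrix.map_mul, Matrix.map_mul, hP, hP]
  rw [e, ← RingHom.mapMatrix_apply, ← RingHom.map_det] at h
  have h' : IsSquare (((NM n m).det.natAbs : ℕ) : ℚ) := by
    rw [Nat.cast_natAbs]; simpa using h
  obtain ⟨k, hk⟩ := Rat.isSquare_natCast_iff.1 h'
  exact ⟨k, by rw [hk]; ring⟩

def DM (n m : ℕ) : Matrix (Fin n ⊕ Fin n) (Fin n ⊕ Fin n) ℤ :=
  fromBlocks (OM n) ((1 - PM ℤ n ((m + 1) / 2)) * OM n) (EM n) (-((1 - PM ℤ n (m / 2)) * EM n))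

theorem two_sub_det (n r : ℕ) : ((2 : ℤ) • 1 - PM ℤ n r).det = 2 ^ (n - r) := by
  have : (2 : ℤ) • (1 : Matrix (Fin n) (Fin n) ℤ) - PM ℤ n r =
      diagonal fun j : Fin n => if (j : ℕ) < r then 1 else 2 := by
    ext i j
    simp only [PM, Matrix.sub_apply, Matrix.smul_apply, diagonal_apply, one_apply]
    split_ifs <;> simp
  rw [this, det_diagonal, Fin.prod_univ_eq_prod_range (fun j => if j < r then (1 : ℤ) else 2)]
  clear this
  induction n with
  | zero => simp
  | succ n ih =>
    rw [prod_range_succ, ih]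
    split_ifs with h
    · rw [mul_one]; congr 1; omega
    · rw [← pow_succ]; congr 1; omega

theorem DM_det (n m : ℕ) (hm : m ≤ 2 * n) :
    (DM n m).det.natAbs * 2 ^ n = 2 ^ (2 * n - m) * (NM n m).det.natAbs := by
  have hPP : ∀ r, PM ℤ n r * PM ℤ n r = PM ℤ n r := by
    intro r
    simp only [PM, diagonal_mul_diagonal]
    congr 1; funext j; split_ifs <;> simp
  have e : DM n m * fromBlocks 1 1 1 (-1) =
      fromBlocks ((2 : ℤ) • 1 - PM ℤ n ((m + 1) / 2)) 0 0 ((2 : ℤ) • 1 - PM ℤ n (m / 2)) *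
        NM n m := by
    rw [DM, NM, fromBlocks_multiply, fromBlocks_multiply]
    simp only [Matrix.mul_one, Matrix.mul_neg, Matrix.zero_mul, add_zero, zero_add,
      Matrix.sub_mul, Matrix.add_mul, Matrix.one_mul, ← Matrix.mul_assoc, hPP, two_smul]
    congr 1 <;> abel
  have := congrArg (fun X => X.det.natAbs) e
  simp only [det_mul, det_fromBlocks_one₁₁, det_fromBlocks_zero₁₂, two_sub_det,
    Int.natAbs_mul, Int.natAbs_pow] at this
  have e2 : ((-1 : Matrix (Fin n) (Fin n) ℤ) - 1 * 1).det.natAbs = 2 ^ n := by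
    have : (-1 : Matrix (Fin n) (Fin n) ℤ) - 1 * 1 = (-2 : ℤ) • 1 := by
      rw [Matrix.mul_one, neg_smul, two_smul]; abel
    rw [this, det_smul]; simp [Int.natAbs_pow]
  rw [e2] at this
  rw [this, ← pow_add]
  congr 2
  omega

end Pool.Agent.H30.Dom
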