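import Pool.Agent.H30.DomB

set_option autoImplicit false

namespace Pool.Agent.H30.Dom

open Matrix Finset

def Sq (n : ℕ) : Finset (ℕ × ℕ) := range (2 * n) ×ˢ range (2 * n)
def Bs (n : ℕ) : Finset (ℕ × ℕ) := (Sq n).filter fun p => (p.1 + p.2) % 2 = 0
def Ws (n : ℕ) : Finset (ℕ × ℕ) := (Sq n).filter fun p => ¬ (p.1 + p.2) % 2 = 0

theorem mem_Bs {n : ℕ} {p : ℕ × ℕ} :
    p ∈ Bs n ↔ p.1 < 2 * n ∧ p.2 < 2 * n ∧ (p.1 + p.2) % 2 = 0 := by
  simp [Bs, Sq, and_assoc]

theorem mem_Ws {n : ℕ} {p : ℕ × ℕ} :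
    p ∈ Ws n ↔ p.1 < 2 * n ∧ p.2 < 2 * n ∧ (p.1 + p.2) % 2 = 1 := by
  simp [Ws, Sq, and_assoc]

abbrev BB (n : ℕ) := {p : ℕ × ℕ // p ∈ Bs n}
abbrev WW (n : ℕ) := {p : ℕ × ℕ // p ∈ Ws n}

def ee (p : ℕ × ℕ) : ℕ × ℕ :=
  if p.1 < p.2 then (p.1 + 1, p.2) else if p.2 < p.1 then (p.1, p.2 + 1)
  else if p.1 % 2 = 0 then (0, p.1 + 1) else (p.1, 0)

def ei (p : ℕ × ℕ) : ℕ × ℕ :=
  if p.1 < p.2 then (if p.1 = 0 then (p.2 - 1, p.2 - 1) else (p.1 - 1, p.2))
  else (if p.2 = 0 then (p.1, p.1) else (p.1, p.2 - 1))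

def eqv (n : ℕ) : BB n ≃ WW n where
  toFun b := ⟨ee b.1, by
    have := mem_Bs.1 b.2
    rw [mem_Ws]; unfold ee; split_ifs <;> simp only <;> omega⟩
  invFun w := ⟨ei w.1, by
    have := mem_Ws.1 w.2
    rw [mem_Bs]; unfold ei; split_ifs <;> simp only <;> omega⟩
  left_inv b := by
    obtain ⟨⟨r, c⟩, hb⟩ := b
    have := mem_Bs.1 hb
    simp only at this
    apply Subtype.ext
    change ei (ee (r, c)) = (r, c)
    unfold ee
    split_ifs <;> unfold ei <;> split_ifs <;> rw [Prod.ext_iff] <;> dsimp only at * <;> omega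
  right_inv w := by
    obtain ⟨⟨r, c⟩, hb⟩ := w
    have := mem_Ws.1 hb
    simp only at this
    apply Subtype.ext
    change ee (ei (r, c)) = (r, c)
    unfold ei
    split_ifs <;> unfold ee <;> split_ifs <;> rw [Prod.ext_iff] <;> dsimp only at * <;> omega

def Kw (m : ℕ) (b w : ℕ × ℕ) : ℤ :=
  (if w.1 = b.1 ∧ w.2 = b.2 + 1 then 1 else 0) + (if w.1 + 1 = b.1 ∧ w.2 = b.2 then 1 else 0) +
    (if b.1 = b.2 ∧ b.1 < m then 0 else
      ((if w.1 = b.1 ∧ w.2 + 1 = b.2 then 1 else 0) - (if w.1 = b.1 + 1 ∧ w.2 = b.2 then 1 else 0)))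

def KM (n m : ℕ) : Matrix (BB n) (BB n) ℤ := fun b b' => Kw m b.1 (ee b'.1)

def lam (n j : ℕ) (r c : ℕ) : ℤ :=
  if j % 2 = 0 then
    (if r < c then yy (n - 1 - j / 2) ((2 * n - 1 - (c - r)) / 2) (r + 1) else 0)
  else
    (if c < r then (-1) ^ (c + (r - c) / 2 + 1) *
      yy (n - 1 - j / 2) ((2 * n - 1 - (r - c)) / 2) (c + 1) else 0)

theorem lam_out1 (n j r : ℕ) (h : r < 2 * n) (h2 : r % 2 = 1) : lam n j r (2 * n) = 0 := by
  unfold lam
  split_ifs
  · exact yy_big _ _ _ (by omega)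
  · omega
  · rfl

theorem lam_out2 (n j c : ℕ) (h : c < 2 * n) (h2 : c % 2 = 1) : lam n j (2 * n) c = 0 := by
  unfold lam
  split_ifs
  · omega
  · rfl
  · rw [yy_big _ _ _ (by omega), mul_zero]

theorem pick (n : ℕ) (f : ℕ → ℕ → ℤ) (P : ℕ × ℕ → Prop) [DecidablePred P] (r c : ℕ)
    (hP : ∀ w, P w ↔ w = (r, c)) (h : (r, c) ∈ Ws n ∨ f r c = 0) :
    ∑ w ∈ Ws n, (if P w then (1 : ℤ) else 0) * f w.1 w.2 = f r c := by
  simp only [hP, ite_mul, one_mul, zero_mul]
  rw [Finset.sum_ite_eq']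
  split_ifs with h1
  · rfl
  · exact (h.resolve_left h1).symm

theorem pick0 (n : ℕ) (f : ℕ → ℕ → ℤ) (P : ℕ × ℕ → Prop) [DecidablePred P]
    (hP : ∀ w, ¬ P w) :
    ∑ w ∈ Ws n, (if P w then (1 : ℤ) else 0) * f w.1 w.2 = 0 := by
  simp [hP]

theorem Ksum (n m j : ℕ) (r c : ℕ) (hb : (r, c) ∈ Bs n) :
    ∑ b' : BB n, Kw m (r, c) (ee b'.1) * lam n j (ee b'.1).1 (ee b'.1).2 =
      lam n j r (c + 1) + (if r = 0 then 0 else lam n j (r - 1) c) +
        (if r = c ∧ r < m then 0 else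
          ((if c = 0 then 0 else lam n j r (c - 1)) - lam n j (r + 1) c)) := by
  have hb' := mem_Bs.1 hb
  simp only at hb'
  have e1 : ∑ b' : BB n, Kw m (r, c) (ee b'.1) * lam n j (ee b'.1).1 (ee b'.1).2 =
      ∑ w ∈ Ws n, Kw m (r, c) w * lam n j w.1 w.2 := by
    rw [← Finset.sum_coe_sort (Ws n), ← Equiv.sum_comp (eqv n)]
    rfl
  rw [e1]
  have p1 : ∑ w ∈ Ws n, (if w.1 = r ∧ w.2 = c + 1 then (1 : ℤ) else 0) * lam n j w.1 w.2 =
      lam n j r (c + 1) := by
    apply pick n (lam n j) (fun w => w.1 = r ∧ w.2 = c + 1) r (c + 1) (fun w => by simp [Prod.ext_iff])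
    by_cases h : c + 1 = 2 * n
    · right; rw [h]; exact lam_out1 n j r hb'.1 (by omega)
    · left; rw [mem_Ws]; simp only; omega
  have p2 : ∑ w ∈ Ws n, (if w.1 + 1 = r ∧ w.2 = c then (1 : ℤ) else 0) * lam n j w.1 w.2 =
      if r = 0 then 0 else lam n j (r - 1) c := by
    split_ifs with h
    · exact pick0 n (lam n j) (fun w => w.1 + 1 = r ∧ w.2 = c) (fun w => by omega)
    · apply pick n (lam n j) (fun w => w.1 + 1 = r ∧ w.2 = c) (r - 1) c
        (fun w => by rw [Prod.ext_iff]; simp only; omega)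
      left; rw [mem_Ws]; simp only; omega
  have p3 : ∑ w ∈ Ws n, (if w.1 = r ∧ w.2 + 1 = c then (1 : ℤ) else 0) * lam n j w.1 w.2 =
      if c = 0 then 0 else lam n j r (c - 1) := by
    split_ifs with h
    · exact pick0 n (lam n j) (fun w => w.1 = r ∧ w.2 + 1 = c) (fun w => by omega)
    · apply pick n (lam n j) (fun w => w.1 = r ∧ w.2 + 1 = c) r (c - 1)
        (fun w => by rw [Prod.ext_iff]; simp only; omega)
      left; rw [mem_Ws]; simp only; omega
  have p4 : ∑ w ∈ Ws n, (if w.1 = r + 1 ∧ w.2 = c then (1 : ℤ) else 0) * lam n j w.1 w.2 =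
      lam n j (r + 1) c := by
    apply pick n (lam n j) (fun w => w.1 = r + 1 ∧ w.2 = c) (r + 1) c (fun w => by simp [Prod.ext_iff])
    by_cases h : r + 1 = 2 * n
    · right; rw [h]; exact lam_out2 n j c hb'.2.1 (by omega)
    · left; rw [mem_Ws]; simp only; omega
  unfold Kw
  simp only
  by_cases h : r = c ∧ r < m
  · simp only [if_pos h, add_zero, add_mul, sum_add_distrib, p1, p2]
  · simp only [if_neg h, add_mul, sub_mul, sum_add_distrib, sum_sub_distrib, p1, p2, p3, p4]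

theorem kernel (n m j r c : ℕ) (hb : (r, c) ∈ Bs n) (hrc : r ≠ c) :
    ∑ b' : BB n, Kw m (r, c) (ee b'.1) * lam n j (ee b'.1).1 (ee b'.1).2 = 0 := by
  rw [Ksum n m j r c hb, if_neg (show ¬ (r = c ∧ r < m) by omega)]
  have hb' := mem_Bs.1 hb
  simp only at hb'
  unfold lam
  rcases lt_or_gt_of_ne hrc with h | h
  · obtain ⟨d, hd⟩ : ∃ d, c = r + 2 * d + 2 := ⟨(c - r) / 2 - 1, by omega⟩
    obtain ⟨k, hk⟩ : ∃ k, n = d + k + 2 := ⟨n - d - 2, by omega⟩
    by_cases hj : j % 2 = 0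
    · simp only [if_pos hj]
      rw [if_pos (by omega), if_neg (show ¬ c = 0 by omega), if_pos (show r < c - 1 by omega),
        if_pos (show r + 1 < c by omega),
        show (2 * n - 1 - (c + 1 - r)) / 2 = k by omega,
        show (2 * n - 1 - (c - 1 - r)) / 2 = k + 1 by omega,
        show (2 * n - 1 - (c - (r + 1))) / 2 = k + 1 by omega, yy_rec _ k r (by omega)]
      split_ifs with h0 h1
      · rw [h0, yy_zero]; ring
      · rw [show (2 * n - 1 - (c - (r - 1))) / 2 = k by omega, show r - 1 + 1 = r by omega]; ring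
      · omega
    · simp only [if_neg hj]
      rw [if_neg (by omega), if_neg (show ¬ c < r - 1 by omega), if_neg (show ¬ c - 1 < r by omega),
        if_neg (show ¬ c < r + 1 by omega)]
      simp
  · obtain ⟨d, hd⟩ : ∃ d, r = c + 2 * d + 2 := ⟨(r - c) / 2 - 1, by omega⟩
    obtain ⟨k, hk⟩ : ∃ k, n = d + k + 2 := ⟨n - d - 2, by omega⟩
    by_cases hj : j % 2 = 0
    · simp only [if_pos hj]
      rw [if_neg (by omega), if_neg (show ¬ r - 1 < c by omega), if_neg (show ¬ r < c - 1 by omega),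
        if_neg (show ¬ r + 1 < c by omega)]
      simp
    · simp only [if_neg hj]
      rw [if_pos (by omega), if_neg (show ¬ r = 0 by omega), if_pos (show c < r - 1 by omega),
        if_pos (show c < r + 1 by omega),
        show (2 * n - 1 - (r + 1 - c)) / 2 = k by omega,
        show (2 * n - 1 - (r - 1 - c)) / 2 = k + 1 by omega,
        show (2 * n - 1 - (r - (c + 1))) / 2 = k + 1 by omega, yy_rec _ k c (by omega),
        show (r - (c + 1)) / 2 = d by omega, show (r - 1 - c) / 2 = d by omega,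
        show (r + 1 - c) / 2 = d + 1 by omega]
      split_ifs with h0 h1
      · rw [h0, yy_zero]; ring
      · rw [show (2 * n - 1 - (r - (c - 1))) / 2 = k by omega, show c - 1 + 1 = c by omega,
          show c - 1 + (r - (c - 1)) / 2 + 1 = c + d + 1 by omega]
        ring
      · omega

theorem diag_even (n m j i : ℕ) (hi : i < 2 * n) (hj : j % 2 = 0) :
    ∑ b' : BB n, Kw m (i, i) (ee b'.1) * lam n j (ee b'.1).1 (ee b'.1).2 =
      xx n (n - 1 - j / 2) i := by
  rw [Ksum n m j i i (by rw [mem_Bs]; simp only; omega)]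
  unfold lam xx
  simp only [if_pos hj]
  rw [if_pos (by omega), if_neg (show ¬ i < i - 1 by omega), if_neg (show ¬ i + 1 < i by omega),
    show (2 * n - 1 - (i + 1 - i)) / 2 = n - 1 by omega]
  simp only [ite_self, sub_zero, add_zero]
  split_ifs with h0 h1
  · rw [h0, yy_zero]
  · rw [show (2 * n - 1 - (i - (i - 1))) / 2 = n - 1 by omega, show i - 1 + 1 = i by omega]
  · omega

theorem diag_odd (n m j i : ℕ) (hi : i < 2 * n) (hj : ¬ j % 2 = 0) :
    ∑ b' : BB n, Kw m (i, i) (ee b'.1) * lam n j (ee b'.1).1 (ee b'.1).2 =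
      if i < m then 0 else (-1) ^ i * xx n (n - 1 - j / 2) i := by
  rw [Ksum n m j i i (by rw [mem_Bs]; simp only; omega)]
  unfold lam xx
  simp only [if_neg hj]
  rw [if_neg (by omega), if_neg (show ¬ i < i - 1 by omega), if_pos (show i < i + 1 by omega),
    show (2 * n - 1 - (i + 1 - i)) / 2 = n - 1 by omega, show (i + 1 - i) / 2 = 0 by omega]
  simp only [ite_self, zero_add, true_and, add_zero]
  split_ifs with h h0 h1
  · rfl
  · rw [h0, yy_zero]; ring
  · rw [show (2 * n - 1 - (i - (i - 1))) / 2 = n - 1 by omega, show i - 1 + 1 = i by omega,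
      show i - 1 + (i - (i - 1)) / 2 + 1 = i by omega]
    ring
  · omega

def Pm (n : ℕ) : Matrix (BB n) (BB n) ℤ := fun b j =>
  if j.1.1 = j.1.2 then lam n j.1.1 (ee b.1).1 (ee b.1).2 else if b = j then 1 else 0

theorem natAbs_prod_one {ι : Type*} [Fintype ι] (f : ι → ℤ) (h : ∀ i, (f i).natAbs = 1) :
    (∏ i, f i).natAbs = 1 := by
  rw [← Int.natAbsHom_apply, map_prod]
  exact Finset.prod_eq_one fun i _ => h i

theorem lam_diag (n i j : ℕ) (hi : i < 2 * n) (hj : j < 2 * n) :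
    (lam n j (ee (i, i)).1 (ee (i, i)).2).natAbs = if i = j then 1 else 0 := by
  unfold ee lam
  simp only [lt_irrefl, if_false]
  by_cases h1 : i % 2 = 0
  · simp only [if_pos h1]
    by_cases h2 : j % 2 = 0
    · rw [if_pos h2, if_pos (by omega), zero_add, yy_one]
      split_ifs <;> omega
    · rw [if_neg h2, if_neg (by omega), if_neg (by omega)]; simp
  · simp only [if_neg h1]
    by_cases h2 : j % 2 = 0
    · rw [if_pos h2, if_neg (by omega), if_neg (by omega)]; simp
    · rw [if_neg h2, if_pos (by omega), show (0 : ℕ) + 1 = 1 from rfl, yy_one]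
      split_ifs <;> first | omega | simp

theorem Pm_det (n : ℕ) : (Pm n).det.natAbs = 1 := by
  rw [det_of_rank (Pm n) (fun b => if b.1.1 = b.1.2 then 0 else 1)]
  · apply natAbs_prod_one
    rintro ⟨⟨r, c⟩, hb⟩
    have := mem_Bs.1 hb
    simp only [Pm]
    split_ifs with h
    · subst h
      rw [lam_diag n r r this.1 this.1, if_pos rfl]
    · rfl
  · rintro ⟨⟨r, c⟩, hb⟩ ⟨⟨r', c'⟩, hb'⟩ hne h
    have h1 := mem_Bs.1 hb
    have h2 := mem_Bs.1 hb'
    simp only [Pm, if_neg hne] at h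
    by_cases hd : r' = c'
    · simp only [if_pos hd] at h ⊢
      by_cases hd2 : r = c
      · exfalso
        subst hd hd2
        have := lam_diag n r r' h1.1 h2.1
        rw [if_neg (fun e => hne (by subst e; rfl))] at this
        exact h (Int.natAbs_eq_zero.1 this)
      · simp [hd2]
    · simp [hd] at h

def dq (n : ℕ) : Fin n ⊕ Fin n ≃ {b : BB n // b.1.1 = b.1.2} where
  toFun x := match x with
    | Sum.inl j => ⟨⟨(2 * j, 2 * j), by have := j.2; rw [mem_Bs]; simp only; omega⟩, rfl⟩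
    | Sum.inr j => ⟨⟨(2 * j + 1, 2 * j + 1), by have := j.2; rw [mem_Bs]; simp only; omega⟩, rfl⟩
  invFun b := if b.1.1.1 % 2 = 0 then
      Sum.inl ⟨b.1.1.1 / 2, by have := mem_Bs.1 b.1.2; omega⟩
    else Sum.inr ⟨b.1.1.1 / 2, by have := mem_Bs.1 b.1.2; omega⟩
  left_inv x := by
    rcases x with j | j
    · simp
    · simp only
      rw [if_neg (by omega)]
      congr 1; apply Fin.ext; simp only; omega
  right_inv b := by
    obtain ⟨⟨⟨r, c⟩, hb⟩, h⟩ := b
    simp only at h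
    subst h
    simp only
    split_ifs with h
    · simp only [Subtype.mk.injEq, Prod.mk.injEq]; omega
    · simp only [Subtype.mk.injEq, Prod.mk.injEq]; omega

theorem KM_det (n m : ℕ) : (KM n m).det.natAbs = (DM n m).det.natAbs := by
  have hcol : ∀ b j : BB n, (KM n m * Pm n) b j = if j.1.1 = j.1.2 then
      ∑ b' : BB n, Kw m b.1 (ee b'.1) * lam n j.1.1 (ee b'.1).1 (ee b'.1).2
      else Kw m b.1 (ee j.1) := by
    intro b j
    rw [Matrix.mul_apply]
    simp only [KM, Pm]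
    split_ifs with h
    · rfl
    · simp
  have h1 : (KM n m).det.natAbs = (KM n m * Pm n).det.natAbs := by
    rw [det_mul, Int.natAbs_mul, Pm_det, mul_one]
  rw [h1, twoBlockTriangular_det _ (fun b : BB n => b.1.1 = b.1.2), Int.natAbs_mul]
  · have b2 : (toSquareBlockProp (KM n m * Pm n) fun b : BB n => ¬ b.1.1 = b.1.2).det.natAbs = 1 := by
      rw [det_of_rank _ (fun b => ((min b.1.1.1 b.1.1.2 : ℕ) : ℤ))]
      · apply natAbs_prod_one
        rintro ⟨⟨⟨r, c⟩, hb⟩, h⟩
        have := mem_Bs.1 hb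
        simp only [toSquareBlockProp_def, of_apply] at h this ⊢
        rw [hcol, if_neg h]
        simp only [Kw, ee]
        split_ifs <;> omega
      · rintro ⟨⟨⟨r, c⟩, hb⟩, h⟩ ⟨⟨⟨r', c'⟩, hb'⟩, h'⟩ hne hK
        have h1 := mem_Bs.1 hb
        have h2 := mem_Bs.1 hb'
        have hne' : ¬ (r = r' ∧ c = c') := by
          rintro ⟨rfl, rfl⟩; exact hne rfl
        simp only [toSquareBlockProp_def, of_apply] at h h' h1 h2 hK ⊢
        rw [hcol, if_neg h'] at hK
        simp only [Kw, ee] at hK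
        split_ifs at hK <;> omega
    rw [b2, mul_one, ← det_submatrix_equiv_self (dq n)]
    congr 2
    ext x y
    simp only [submatrix_apply, toSquareBlockProp_def, of_apply]
    rw [hcol, if_pos (dq n y).2]
    rcases x with j | j <;> rcases y with t | t
    · have := j.2
      refine (diag_even n m (2 * t) (2 * j) (by omega) (by omega)).trans ?_
      simp [DM, OM]
    · have := j.2
      refine (diag_odd n m (2 * t + 1) (2 * j) (by omega) (by omega)).trans ?_
      simp only [DM, OM, fromBlocks_apply₁₂, Matrix.sub_mul, Matrix.one_mul, Matrix.sub_apply, PM,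
        diagonal_mul]
      rw [show (2 * (t : ℕ) + 1) / 2 = t by omega, pow_mul]
      split_ifs <;> first | omega | simp
    · have := j.2
      refine (diag_even n m (2 * t) (2 * j + 1) (by omega) (by omega)).trans ?_
      simp [DM, EM]
    · have := j.2
      refine (diag_odd n m (2 * t + 1) (2 * j + 1) (by omega) (by omega)).trans ?_
      simp only [DM, EM, fromBlocks_apply₂₂, Matrix.sub_mul, Matrix.one_mul, Matrix.sub_apply, PM,
        diagonal_mul, Matrix.neg_apply]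
      rw [show (2 * (t : ℕ) + 1) / 2 = t by omega, pow_succ, pow_mul]
      split_ifs <;> first | omega | simp
  · rintro ⟨⟨r, c⟩, hb⟩ h j hj
    rw [hcol, if_pos hj]
    exact kernel n m _ r c hb h

end Pool.Agent.H30.Dom
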