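import Pool.Agent.H30.DomC

set_option autoImplicit false

namespace Pool.Agent.H30.Dom

open Matrix Finset

def adj (b w : ℕ × ℕ) : Prop :=
  (b.1 = w.1 ∧ (b.2 + 1 = w.2 ∨ w.2 + 1 = b.2)) ∨ (b.2 = w.2 ∧ (b.1 + 1 = w.1 ∨ w.1 + 1 = b.1))

def dl (n : ℕ) (x : ℕ × ℕ) : ℕ := x.2 + 2 * n - x.1

def lt2 (n : ℕ) (x y : ℕ × ℕ) : Prop := dl n x < dl n y ∨ (dl n x = dl n y ∧ x.1 < y.1)

instance (n : ℕ) (x y : ℕ × ℕ) : Decidable (lt2 n x y) := by unfold lt2; infer_instance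

def bef (n : ℕ) (x y : ℕ × ℕ) : ℕ := if dl n x = dl n y ∧ x.1 < y.1 then 1 else 0

def hi (n : ℕ) (b w : ℕ × ℕ) : ℕ × ℕ := if dl n b < dl n w then w else b
def lo (n : ℕ) (b w : ℕ × ℕ) : ℕ × ℕ := if dl n b < dl n w then b else w

theorem split_sum (n : ℕ) (G : BB n ≃ WW n) (φ : ℕ × ℕ → ℕ) :
    ∑ b : BB n, (φ (lo n b.1 (G b).1) + φ (hi n b.1 (G b).1)) = ∑ x ∈ Sq n, φ x := by
  have : ∀ b : BB n, φ (lo n b.1 (G b).1) + φ (hi n b.1 (G b).1) = φ b.1 + φ (G b).1 := by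
    intro b; unfold lo hi; split_ifs <;> omega
  rw [Finset.sum_congr rfl (fun b _ => this b), sum_add_distrib,
    Equiv.sum_comp G (fun w : WW n => φ w.1), Finset.sum_coe_sort (Bs n) φ,
    Finset.sum_coe_sort (Ws n) φ, Bs, Ws, Finset.sum_filter_add_sum_filter_not]

theorem pos_sum (n : ℕ) (y : ℕ × ℕ) (h1 : y.1 < 2 * n) (h2 : y.2 < 2 * n) :
    ∑ x ∈ Sq n, bef n x y = y.1 - (y.1 - y.2) := by
  rw [Sq, Finset.sum_product]
  have : ∀ r ∈ range (2 * n), ∑ c ∈ range (2 * n), bef n (r, c) y =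
      if r ∈ Ico (y.1 - y.2) y.1 then 1 else 0 := by
    intro r hr
    have hr := mem_range.1 hr
    split_ifs with h
    · have h := mem_Ico.1 h
      rw [Finset.sum_eq_single (y.2 + r - y.1)]
      · unfold bef dl; rw [if_pos]; simp only; omega
      · intro c _ hc; unfold bef dl; rw [if_neg]; simp only; omega
      · intro hc; exfalso; apply hc; rw [mem_range]; omega
    · apply Finset.sum_eq_zero
      intro c _
      rw [mem_Ico] at h
      unfold bef dl; rw [if_neg]; simp only; omega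
  rw [Finset.sum_congr rfl this, ← Finset.sum_filter, Finset.filter_mem_eq_inter,
    Finset.inter_eq_right.2 (by intro r hr; rw [mem_Ico] at hr; rw [mem_range]; omega)]
  simp

def inv (n : ℕ) (G : BB n ≃ WW n) : ℕ :=
  ∑ b : BB n, ∑ b' : BB n, if lt2 n b.1 b'.1 ∧ ¬ lt2 n (G b).1 (G b').1 then 1 else 0

def ups (n : ℕ) (G : BB n ≃ WW n) : ℕ :=
  ∑ b : BB n, if (G b).1.1 = b.1.1 + 1 then 1 else 0

theorem sym_double {ι : Type*} [Fintype ι] (f g : ι → ι → ℕ)
    (h : ∀ a b, f a b + f b a = g a b + g b a) : ∑ a, ∑ b, f a b = ∑ a, ∑ b, g a b := by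
  have key : ∀ f : ι → ι → ℕ, 2 * ∑ a, ∑ b, f a b = ∑ a, ∑ b, (f a b + f b a) := by
    intro f
    simp only [sum_add_distrib]
    rw [Finset.sum_comm (f := fun a b => f b a), two_mul]
  have := key f
  rw [Finset.sum_congr rfl (fun a _ => Finset.sum_congr rfl (fun b _ => h a b)), ← key g] at this
  omega

theorem dom_facts (n : ℕ) (b w : ℕ × ℕ) (hb : b ∈ Bs n) (hw : w ∈ Ws n) (ha : adj b w) :
    (dl n w = dl n b + 1 ∧ (w.1 = b.1 ∨ w.1 + 1 = b.1)) ∨
      (dl n w + 1 = dl n b ∧ (w.1 = b.1 ∨ w.1 = b.1 + 1)) := by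
  rw [mem_Bs] at hb
  rw [mem_Ws] at hw
  unfold adj at ha
  unfold dl
  omega

theorem par_B (n : ℕ) (b : ℕ × ℕ) (hb : b ∈ Bs n) : dl n b % 2 = 0 := by
  rw [mem_Bs] at hb
  unfold dl
  omega

theorem par_W (n : ℕ) (b : ℕ × ℕ) (hb : b ∈ Ws n) : dl n b % 2 = 1 := by
  rw [mem_Ws] at hb
  unfold dl
  omega

theorem eq_iff_dl (n : ℕ) (b b' : ℕ × ℕ) (hb : b.1 < 2 * n) (hb' : b'.1 < 2 * n) :
    b = b' ↔ dl n b = dl n b' ∧ b.1 = b'.1 := by
  rw [Prod.ext_iff]
  unfold dl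
  omega

theorem pair_case (n : ℕ) (b b' w w' : ℕ × ℕ) (hb : b ∈ Bs n) (hb' : b' ∈ Bs n)
    (hw : w ∈ Ws n) (hw' : w' ∈ Ws n) (ha : adj b w) (ha' : adj b' w')
    (hne : b = b' ↔ w = w') :
    ((if lt2 n b b' ∧ ¬ lt2 n w w' then 1 else 0) + (if lt2 n b' b ∧ ¬ lt2 n w' w then 1 else 0) : ℕ)
      = bef n (lo n b w) (hi n b' w') + bef n (lo n b' w') (hi n b w) := by
  have f1 := dom_facts n b w hb hw ha
  have f2 := dom_facts n b' w' hb' hw' ha'
  have p1 := par_B n b hb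
  have p2 := par_B n b' hb'
  rw [eq_iff_dl n b b' (mem_Bs.1 hb).1 (mem_Bs.1 hb').1,
    eq_iff_dl n w w' (mem_Ws.1 hw).1 (mem_Ws.1 hw').1] at hne
  have hne' : (dl n b = dl n b' ∧ b.1 = b'.1 ∧ dl n w = dl n w' ∧ w.1 = w'.1) ∨
      (¬ (dl n b = dl n b' ∧ b.1 = b'.1) ∧ ¬ (dl n w = dl n w' ∧ w.1 = w'.1)) := by tauto
  clear hne ha ha' hb hb' hw hw'
  unfold lo hi
  rcases f1 with f1 | f1 <;> rcases f2 with f2 | f2
  · rw [if_pos (show dl n b < dl n w by omega), if_pos (show dl n b' < dl n w' by omega),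
      if_pos (show dl n b' < dl n w' by omega), if_pos (show dl n b < dl n w by omega)]
    unfold bef lt2
    split_ifs <;> omega
  · rw [if_pos (show dl n b < dl n w by omega), if_neg (show ¬ dl n b' < dl n w' by omega),
      if_neg (show ¬ dl n b' < dl n w' by omega), if_pos (show dl n b < dl n w by omega)]
    unfold bef lt2
    split_ifs <;> omega
  · rw [if_neg (show ¬ dl n b < dl n w by omega), if_pos (show dl n b' < dl n w' by omega),
      if_pos (show dl n b' < dl n w' by omega), if_neg (show ¬ dl n b < dl n w by omega)]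
    unfold bef lt2
    split_ifs <;> omega
  · rw [if_neg (show ¬ dl n b < dl n w by omega), if_neg (show ¬ dl n b' < dl n w' by omega),
      if_neg (show ¬ dl n b' < dl n w' by omega), if_neg (show ¬ dl n b < dl n w by omega)]
    unfold bef lt2
    split_ifs <;> omega

theorem hi_inj (n : ℕ) (b b' w w' : ℕ × ℕ) (hb : b ∈ Bs n) (hb' : b' ∈ Bs n)
    (hw : w ∈ Ws n) (hw' : w' ∈ Ws n) (hne : b = b' ↔ w = w') :
    bef n (hi n b w) (hi n b' w') + bef n (hi n b' w') (hi n b w) + (if b = b' then 1 else 0) =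
      if dl n (hi n b w) = dl n (hi n b' w') then 1 else 0 := by
  have p1 := par_B n b hb
  have p2 := par_B n b' hb'
  have p3 := par_W n w hw
  have p4 := par_W n w' hw'
  simp only [eq_iff_dl n b b' (mem_Bs.1 hb).1 (mem_Bs.1 hb').1,
    eq_iff_dl n w w' (mem_Ws.1 hw).1 (mem_Ws.1 hw').1] at hne ⊢
  have hne' : (dl n b = dl n b' ∧ b.1 = b'.1 ∧ dl n w = dl n w' ∧ w.1 = w'.1) ∨
      (¬ (dl n b = dl n b' ∧ b.1 = b'.1) ∧ ¬ (dl n w = dl n w' ∧ w.1 = w'.1)) := by tauto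
  clear hne hb hb' hw hw'
  unfold hi
  by_cases h1 : dl n b < dl n w <;> by_cases h2 : dl n b' < dl n w' <;>
    simp only [h1, h2, if_true, if_false] <;> unfold bef <;> split_ifs <;> omega

theorem hi_facts (n : ℕ) (b w : ℕ × ℕ) (hb : b ∈ Bs n) (hw : w ∈ Ws n) (ha : adj b w) :
    (hi n b w).1 < 2 * n ∧ (hi n b w).2 < 2 * n ∧ dl n (hi n b w) = dl n (lo n b w) + 1 ∧
      (hi n b w).1 - ((hi n b w).1 - (hi n b w).2) + (2 * n - dl n (hi n b w)) +
        (if w.1 = b.1 + 1 then 1 else 0) = w.1 := by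
  obtain ⟨r, c⟩ := b
  obtain ⟨s, t⟩ := w
  rw [mem_Bs] at hb
  rw [mem_Ws] at hw
  unfold adj at ha
  unfold hi lo dl
  dsimp only at *
  split_ifs <;> dsimp only at * <;> omega

def cnt (n : ℕ) (G : BB n ≃ WW n) (d : ℕ) : ℕ :=
  (univ.filter fun b : BB n => dl n (hi n b.1 (G b).1) = d).card

theorem cnt_rec (n : ℕ) (G : BB n ≃ WW n) (hG : ∀ b, adj b.1 (G b).1) (d : ℕ) :
    cnt n G (d + 1) + cnt n G d = ∑ x ∈ Sq n, if dl n x = d then 1 else 0 := by
  rw [← split_sum n G, sum_add_distrib, cnt, cnt, card_filter, card_filter]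
  congr 1
  refine Finset.sum_congr rfl fun b _ => ?_
  rw [(hi_facts n _ _ b.2 (G b).2 (hG b)).2.2.1]
  simp

theorem cnt_eq (n : ℕ) (G G' : BB n ≃ WW n) (hG : ∀ b, adj b.1 (G b).1)
    (hG' : ∀ b, adj b.1 (G' b).1) (d : ℕ) : cnt n G d = cnt n G' d := by
  induction d with
  | zero =>
    have : ∀ G : BB n ≃ WW n, (∀ b, adj b.1 (G b).1) → cnt n G 0 = 0 := by
      intro G hG
      rw [cnt, card_eq_zero, filter_eq_empty_iff]
      intro b _
      rw [(hi_facts n _ _ b.2 (G b).2 (hG b)).2.2.1]; omega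
    rw [this G hG, this G' hG']
  | succ d ih =>
    have h1 := cnt_rec n G hG d
    have h2 := cnt_rec n G' hG' d
    omega

theorem val_formula (n : ℕ) (G : BB n ≃ WW n) (hG : ∀ b, adj b.1 (G b).1) :
    2 * (inv n G + ups n G) + ∑ b : BB n, cnt n G (dl n (hi n b.1 (G b).1)) +
      2 * ∑ b : BB n, (2 * n - dl n (hi n b.1 (G b).1)) =
      2 * ∑ w : WW n, w.1.1 + Fintype.card (BB n) := by
  have hne : ∀ b b' : BB n, b.1 = b'.1 ↔ (G b).1 = (G b').1 := by
    intro b b'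
    rw [Subtype.val_inj, Subtype.val_inj, G.injective.eq_iff]
  have s1 : inv n G = ∑ b : BB n, ∑ b' : BB n, bef n (lo n b.1 (G b).1) (hi n b'.1 (G b').1) :=
    sym_double _ _ fun b b' =>
      pair_case n _ _ _ _ b.2 b'.2 (G b).2 (G b').2 (hG b) (hG b') (hne b b')
  set H := ∑ b : BB n, ∑ b' : BB n, bef n (hi n b.1 (G b).1) (hi n b'.1 (G b').1) with hH
  have s2 : inv n G + H = ∑ b' : BB n, ((hi n b'.1 (G b').1).1 -
      ((hi n b'.1 (G b').1).1 - (hi n b'.1 (G b').1).2)) := by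
    rw [s1, hH, ← sum_add_distrib]
    simp only [← sum_add_distrib]
    rw [Finset.sum_comm]
    refine Finset.sum_congr rfl fun b' _ => ?_
    have hf := hi_facts n _ _ b'.2 (G b').2 (hG b')
    rw [split_sum n G (fun x => bef n x (hi n b'.1 (G b').1)), pos_sum n _ hf.1 hf.2.1]
  have s3 : 2 * H + Fintype.card (BB n) = ∑ b : BB n, cnt n G (dl n (hi n b.1 (G b).1)) := by
    have e : ∑ b : BB n, ∑ b' : BB n, (bef n (hi n b.1 (G b).1) (hi n b'.1 (G b').1) +
        bef n (hi n b'.1 (G b').1) (hi n b.1 (G b).1) + (if b.1 = b'.1 then 1 else 0)) =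
        ∑ b : BB n, cnt n G (dl n (hi n b.1 (G b).1)) := by
      refine Finset.sum_congr rfl fun b _ => ?_
      rw [cnt, card_filter]
      refine Finset.sum_congr rfl fun b' _ => ?_
      rw [hi_inj n _ _ _ _ b.2 b'.2 (G b).2 (G b').2 (hne b b')]
      simp only [eq_comm]
    rw [← e]
    simp only [sum_add_distrib, Subtype.val_inj, Finset.sum_ite_eq, mem_univ, if_true]
    rw [Finset.sum_comm (f := fun b b' : BB n => bef n (hi n b'.1 (G b').1) (hi n b.1 (G b).1)),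
      ← hH, two_mul]
    simp
  have s4 : ∑ b' : BB n, ((hi n b'.1 (G b').1).1 -
      ((hi n b'.1 (G b').1).1 - (hi n b'.1 (G b').1).2)) +
      ∑ b : BB n, (2 * n - dl n (hi n b.1 (G b).1)) + ups n G = ∑ w : WW n, w.1.1 := by
    rw [ups, ← sum_add_distrib, ← sum_add_distrib, ← Equiv.sum_comp G (fun w : WW n => w.1.1)]
    exact Finset.sum_congr rfl fun b _ => (hi_facts n _ _ b.2 (G b).2 (hG b)).2.2.2
  omega

theorem val_eq (n : ℕ) (G G' : BB n ≃ WW n) (hG : ∀ b, adj b.1 (G b).1)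
    (hG' : ∀ b, adj b.1 (G' b).1) : inv n G + ups n G = inv n G' + ups n G' := by
  have h1 := val_formula n G hG
  have h2 := val_formula n G' hG'
  have hc := cnt_eq n G G' hG hG'
  have e1 := sum_fiber_congr (fun b : BB n => dl n (hi n b.1 (G b).1))
    (fun b : BB n => dl n (hi n b.1 (G' b).1)) hc (cnt n G)
  have e2 := sum_fiber_congr (fun b : BB n => dl n (hi n b.1 (G b).1))
    (fun b : BB n => dl n (hi n b.1 (G' b).1)) hc (fun d => 2 * n - d)
  have e3 : cnt n G = cnt n G' := funext hc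
  rw [e1, e2, e3] at h1
  omega

theorem Kw_ne (m : ℕ) (b w : ℕ × ℕ) : Kw m b w ≠ 0 ↔
    adj b w ∧ (b.1 = b.2 ∧ b.1 < m → w.1 < w.2) := by
  unfold Kw adj
  split_ifs <;> omega

theorem Kw_val (m : ℕ) (b w : ℕ × ℕ) (h : Kw m b w ≠ 0) :
    Kw m b w = (-1) ^ (if w.1 = b.1 + 1 then 1 else 0) := by
  unfold Kw at h ⊢
  split_ifs at h ⊢ <;> omega

def fsg (n : ℕ) (w w' : ℕ × ℕ) : ℤ := if lt2 n w w' then 1 else if lt2 n w' w then -1 else 0

theorem term_val (n m : ℕ) : ∃ J : ℤ, ∀ σ : Equiv.Perm (BB n), (∀ b, Kw m b.1 (ee (σ b).1) ≠ 0) →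
    (Equiv.Perm.sign σ : ℤ) * J = (-1) ^ inv n (σ.trans (eqv n)) ∧
    ∏ b, Kw m b.1 (ee (σ b).1) = (-1) ^ ups n (σ.trans (eqv n)) := by
  let ρ : BB n → ℕ ×ₗ ℕ := fun b => toLex (dl n b.1, b.1.1)
  have hρ : Function.Injective ρ := by
    rintro ⟨⟨r, c⟩, hb⟩ ⟨⟨r', c'⟩, hb'⟩ h
    have h1 := mem_Bs.1 hb
    have h2 := mem_Bs.1 hb'
    simp only [ρ, toLex_inj, Prod.mk.injEq, dl] at h h1 h2
    simp only [Subtype.mk.injEq, Prod.mk.injEq]
    omega
  have hlt : ∀ b b', ρ b < ρ b' ↔ lt2 n b.1 b'.1 := fun b b' => Prod.Lex.toLex_lt_toLex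
  refine ⟨∏ i, ∏ j, (if ρ i < ρ j then fsg n (ee i.1) (ee j.1) else 1), fun σ hσ => ⟨?_, ?_⟩⟩
  · rw [← sign_pairs ρ hρ (fun i j => fsg n (ee i.1) (ee j.1)) _ σ]
    · rw [inv, ← Finset.prod_pow_eq_pow_sum]
      refine Finset.prod_congr rfl fun b _ => ?_
      rw [← Finset.prod_pow_eq_pow_sum]
      refine Finset.prod_congr rfl fun b' _ => ?_
      simp only [hlt]
      change (if lt2 n b.1 b'.1 then fsg n ((σ.trans (eqv n)) b).1 ((σ.trans (eqv n)) b').1 else 1) = _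
      generalize σ.trans (eqv n) = G
      by_cases h : lt2 n b.1 b'.1
      · have hbb : b ≠ b' := by
          rintro rfl
          unfold lt2 at h; omega
        have hne : (G b).1 ≠ (G b').1 := fun e => hbb (G.injective (Subtype.ext e))
        have h1 := mem_Ws.1 (G b).2
        have h2 := mem_Ws.1 (G b').2
        rw [Ne, Prod.ext_iff] at hne
        simp only [h, if_true, true_and, fsg]
        by_cases h3 : lt2 n (G b).1 (G b').1
        · simp [h3]
        · have h4 : lt2 n (G b').1 (G b).1 := by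
            unfold lt2 dl at *; omega
          simp [h3, h4]
      · simp [h]
    · intro i j
      unfold fsg
      split_ifs with h1 h2 <;> first | rfl | (unfold lt2 at *; omega)
  · rw [ups, ← Finset.prod_pow_eq_pow_sum]
    exact Finset.prod_congr rfl fun b _ => Kw_val m _ _ (hσ b)

theorem det_count (n m : ℕ) : (KM n m).det.natAbs =
    Nat.card {σ : Equiv.Perm (BB n) // ∀ b, Kw m b.1 (ee (σ b).1) ≠ 0} := by
  classical
  obtain ⟨J, hJ⟩ := term_val n m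
  let S := univ.filter fun σ : Equiv.Perm (BB n) => ∀ b, Kw m b.1 (ee (σ b).1) ≠ 0
  have hcard : Nat.card {σ : Equiv.Perm (BB n) // ∀ b, Kw m b.1 (ee (σ b).1) ≠ 0} = S.card := by
    rw [Nat.card_eq_fintype_card, Fintype.card_subtype]
  have hdet : (KM n m).det = ∑ σ ∈ S, (Equiv.Perm.sign σ : ℤ) * ∏ b, Kw m b.1 (ee (σ b).1) := by
    rw [← det_transpose, det_apply', Finset.sum_filter]
    refine Finset.sum_congr rfl fun σ _ => ?_
    split_ifs with h
    · rfl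
    · push Not at h
      obtain ⟨b, hb⟩ := h
      rw [Finset.prod_eq_zero (mem_univ b) hb, mul_zero]
  rw [hcard, hdet]
  rcases S.eq_empty_or_nonempty with h0 | ⟨σ0, h0⟩
  · simp [h0]
  have g0 := (mem_filter.1 h0).2
  set v := inv n (σ0.trans (eqv n)) + ups n (σ0.trans (eqv n))
  have hJ1 : J.natAbs = 1 := by
    have := congrArg Int.natAbs (hJ σ0 g0).1
    simpa [Int.natAbs_mul, Int.natAbs_pow] using this
  have : (∑ σ ∈ S, (Equiv.Perm.sign σ : ℤ) * ∏ b, Kw m b.1 (ee (σ b).1)) * J =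
      S.card * (-1) ^ v := by
    rw [Finset.sum_mul, Finset.sum_congr rfl (g := fun _ => (-1) ^ v)]
    · simp
    · intro σ hσ
      have g := (mem_filter.1 hσ).2
      have hv := val_eq n (σ.trans (eqv n)) (σ0.trans (eqv n))
        (fun b => ((Kw_ne m _ _).1 (g b)).1) (fun b => ((Kw_ne m _ _).1 (g0 b)).1)
      rw [mul_right_comm, (hJ σ g).1, (hJ σ g).2, ← pow_add, hv]
  have h2 := congrArg Int.natAbs this
  simpa [Int.natAbs_mul, Int.natAbs_pow, hJ1] using h2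

end Pool.Agent.H30.Dom
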