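import Pool.Agent.H30.DomD

set_option autoImplicit false

namespace Pool.Agent.H30.Dom

open Finset

def RR (n m : ℕ) : Set (ℕ × ℕ) :=
  {p : ℕ × ℕ | p.1 < 2 * n ∧ p.2 < 2 * n ∧ ¬ ∃ i : ℕ, i < m ∧ p.1 = i ∧ (p.2 = i ∨ p.2 = i + 1)}

theorem mem_RR {n m : ℕ} {p : ℕ × ℕ} : p ∈ RR n m ↔
    p.1 < 2 * n ∧ p.2 < 2 * n ∧ ¬ (p.1 < m ∧ (p.2 = p.1 ∨ p.2 = p.1 + 1)) := by
  simp only [RR, Set.mem_ofPred_eq]
  refine and_congr_right fun _ => and_congr_right fun _ => not_congr ⟨?_, ?_⟩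
  · rintro ⟨i, h1, h2, h3⟩; subst h2; exact ⟨h1, h3⟩
  · rintro ⟨h1, h2⟩; exact ⟨_, h1, rfl, h2⟩

abbrev Til (n m : ℕ) := {f : RR n m → RR n m // ∀ x, f (f x) = x ∧ adj x.1 (f x).1}

abbrev Good (n m : ℕ) := {G : BB n ≃ WW n // ∀ b, Kw m b.1 (G b).1 ≠ 0}

open Classical in
noncomputable def ext (n m : ℕ) (f : Til n m) (x : ℕ × ℕ) : ℕ × ℕ :=
  if h : x ∈ RR n m then (f.1 ⟨x, h⟩).1 else if x.1 = x.2 then (x.1, x.2 + 1) else (x.1, x.2 - 1)

theorem ext_in (n m : ℕ) (f : Til n m) (x : RR n m) : ext n m f x.1 = (f.1 x).1 := by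
  unfold ext; rw [dif_pos x.2]

theorem ext_facts (n m : ℕ) (hm : m < 2 * n) (f : Til n m) (x : ℕ × ℕ) (h1 : x.1 < 2 * n)
    (h2 : x.2 < 2 * n) :
    (ext n m f x).1 < 2 * n ∧ (ext n m f x).2 < 2 * n ∧ adj x (ext n m f x) ∧
      ext n m f (ext n m f x) = x ∧ (x.1 = x.2 ∧ x.1 < m → (ext n m f x).1 < (ext n m f x).2) := by
  by_cases h : x ∈ RR n m
  · have e := ext_in n m f ⟨x, h⟩
    simp only at e
    have h3 := mem_RR.1 (f.1 ⟨x, h⟩).2
    have h4 := mem_RR.1 h
    rw [e, ext_in, (f.2 _).1]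
    exact ⟨h3.1, h3.2.1, (f.2 ⟨x, h⟩).2, rfl, fun h5 => by omega⟩
  · have h' := h
    rw [mem_RR] at h'
    obtain ⟨r, c⟩ := x
    dsimp only at *
    by_cases hd : r = c
    · have e : ext n m f (r, c) = (r, c + 1) := by
        unfold ext; rw [dif_neg h, if_pos hd]
      have e2 : ext n m f (r, c + 1) = (r, c) := by
        unfold ext
        rw [dif_neg (by rw [mem_RR]; dsimp only; omega), if_neg (by dsimp only; omega)]
        simp
      rw [e, e2]
      unfold adj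
      dsimp only
      refine ⟨by omega, by omega, by omega, rfl, by omega⟩
    · have e : ext n m f (r, c) = (r, c - 1) := by
        unfold ext; rw [dif_neg h, if_neg hd]
      have e2 : ext n m f (r, c - 1) = (r, c) := by
        unfold ext
        rw [dif_neg (by rw [mem_RR]; dsimp only; omega), if_pos (by dsimp only; omega)]
        rw [Prod.ext_iff]; dsimp only; omega
      rw [e, e2]
      unfold adj
      dsimp only
      refine ⟨by omega, by omega, by omega, rfl, by omega⟩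

noncomputable def toGood (n m : ℕ) (hm : m < 2 * n) (f : Til n m) : Good n m :=
  ⟨{ toFun := fun b => ⟨ext n m f b.1, by
        have hb := mem_Bs.1 b.2
        have := ext_facts n m hm f b.1 hb.1 hb.2.1
        unfold adj at this
        rw [mem_Ws]; omega⟩
     invFun := fun w => ⟨ext n m f w.1, by
        have hb := mem_Ws.1 w.2
        have := ext_facts n m hm f w.1 hb.1 hb.2.1
        unfold adj at this
        rw [mem_Bs]; omega⟩
     left_inv := fun b => Subtype.ext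
        (ext_facts n m hm f b.1 (mem_Bs.1 b.2).1 (mem_Bs.1 b.2).2.1).2.2.2.1
     right_inv := fun b => Subtype.ext
        (ext_facts n m hm f b.1 (mem_Ws.1 b.2).1 (mem_Ws.1 b.2).2.1).2.2.2.1 }, by
    intro b
    have := ext_facts n m hm f b.1 (mem_Bs.1 b.2).1 (mem_Bs.1 b.2).2.1
    exact (Kw_ne m _ _).2 ⟨this.2.2.1, this.2.2.2.2⟩⟩

theorem forced (n m : ℕ) (G : Good n m) : ∀ i, i < m → ∀ h : (i, i) ∈ Bs n,
    (G.1 ⟨(i, i), h⟩).1 = (i, i + 1) := by
  intro i
  induction i with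
  | zero =>
    intro hi h
    obtain ⟨h1, h2⟩ := (Kw_ne m _ _).1 (G.2 ⟨(0, 0), h⟩)
    have h3 := h2 ⟨rfl, hi⟩
    unfold adj at h1
    rw [Prod.ext_iff]
    dsimp only at *
    omega
  | succ i ih =>
    intro hi h
    have h' : (i, i) ∈ Bs n := by
      rw [mem_Bs] at h ⊢; dsimp only at *; omega
    have e := ih (by omega) h'
    obtain ⟨h1, h2⟩ := (Kw_ne m _ _).1 (G.2 ⟨(i + 1, i + 1), h⟩)
    have h3 := h2 ⟨rfl, hi⟩
    have hne : (G.1 ⟨(i + 1, i + 1), h⟩).1 ≠ (i, i + 1) := by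
      intro e2
      have := G.1.injective (Subtype.ext (e2.trans e.symm))
      simp at this
    unfold adj at h1
    rw [Ne, Prod.ext_iff] at hne
    rw [Prod.ext_iff]
    dsimp only at *
    omega

theorem adj_symm {x y : ℕ × ℕ} (h : adj x y) : adj y x := by
  unfold adj at *; omega

theorem toGood_bij (n m : ℕ) (hm : m < 2 * n) : Function.Bijective (toGood n m hm) := by
  constructor
  · intro f f' h
    apply Subtype.ext
    funext x
    apply Subtype.ext
    have hx := mem_RR.1 x.2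
    rw [← ext_in, ← ext_in]
    by_cases hp : (x.1.1 + x.1.2) % 2 = 0
    · exact congrArg (fun G : Good n m => (G.1 ⟨x.1, mem_Bs.2 ⟨hx.1, hx.2.1, hp⟩⟩).1) h
    · exact congrArg (fun G : Good n m => (G.1.symm ⟨x.1, mem_Ws.2 ⟨hx.1, hx.2.1, by omega⟩⟩).1) h
  · intro G
    have hB : ∀ b : BB n, b.1 ∈ RR n m ↔ (G.1 b).1 ∈ RR n m := by
      intro b
      have h1 := mem_Bs.1 b.2
      have h2 := mem_Ws.1 (G.1 b).2
      rw [mem_RR, mem_RR]
      constructor
      · rintro ⟨-, -, h3⟩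
        refine ⟨h2.1, h2.2.1, fun h4 => h3 ?_⟩
        have hi : ((G.1 b).1.1, (G.1 b).1.1) ∈ Bs n := by rw [mem_Bs]; dsimp only; omega
        have e := forced n m G _ h4.1 hi
        have : G.1 ⟨_, hi⟩ = G.1 b := by
          apply Subtype.ext; rw [e, Prod.ext_iff]; dsimp only; omega
        have := congrArg Subtype.val (G.1.injective this)
        rw [Prod.ext_iff] at this
        dsimp only at this
        omega
      · rintro ⟨-, -, h3⟩
        refine ⟨h1.1, h1.2.1, fun h4 => h3 ?_⟩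
        have hi : (b.1.1, b.1.1) ∈ Bs n := by rw [mem_Bs]; dsimp only; omega
        have e := forced n m G _ h4.1 hi
        have : (⟨_, hi⟩ : BB n) = b := by
          apply Subtype.ext; rw [Prod.ext_iff]; dsimp only; omega
        rw [this] at e
        rw [e]; dsimp only; omega
    have mB : ∀ x : RR n m, (x.1.1 + x.1.2) % 2 = 0 → x.1 ∈ Bs n := fun x hp =>
      mem_Bs.2 ⟨(mem_RR.1 x.2).1, (mem_RR.1 x.2).2.1, hp⟩
    have mW : ∀ x : RR n m, ¬ (x.1.1 + x.1.2) % 2 = 0 → x.1 ∈ Ws n := fun x hp =>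
      mem_Ws.2 ⟨(mem_RR.1 x.2).1, (mem_RR.1 x.2).2.1, by omega⟩
    let f : RR n m → RR n m := fun x =>
      if hp : (x.1.1 + x.1.2) % 2 = 0 then ⟨(G.1 ⟨x.1, mB x hp⟩).1, (hB _).1 x.2⟩
      else ⟨(G.1.symm ⟨x.1, mW x hp⟩).1, (hB _).2 (by rw [Equiv.apply_symm_apply]; exact x.2)⟩
    have f1 : ∀ (x : RR n m) (h : x.1 ∈ Bs n), (f x).1 = (G.1 ⟨x.1, h⟩).1 := by
      intro x h
      simp only [f]
      rw [dif_pos (mem_Bs.1 h).2.2]
    have f2 : ∀ (x : RR n m) (h : x.1 ∈ Ws n), (f x).1 = (G.1.symm ⟨x.1, h⟩).1 := by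
      intro x h
      simp only [f]
      rw [dif_neg (by have := (mem_Ws.1 h).2.2; omega)]
    refine ⟨⟨f, fun x => ?_⟩, ?_⟩
    · by_cases hp : (x.1.1 + x.1.2) % 2 = 0
      · have e := f1 x (mB x hp)
        have hw : (f x).1 ∈ Ws n := by rw [e]; exact (G.1 _).2
        constructor
        · apply Subtype.ext
          rw [f2 _ hw, show (⟨(f x).1, hw⟩ : WW n) = G.1 ⟨x.1, mB x hp⟩ from Subtype.ext e,
            Equiv.symm_apply_apply]
        · rw [e]; exact ((Kw_ne m _ _).1 (G.2 ⟨x.1, mB x hp⟩)).1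
      · have e := f2 x (mW x hp)
        have hw : (f x).1 ∈ Bs n := by rw [e]; exact (G.1.symm _).2
        constructor
        · apply Subtype.ext
          rw [f1 _ hw, show (⟨(f x).1, hw⟩ : BB n) = G.1.symm ⟨x.1, mW x hp⟩ from Subtype.ext e,
            Equiv.apply_symm_apply]
        · rw [e]
          have := ((Kw_ne m _ _).1 (G.2 (G.1.symm ⟨x.1, mW x hp⟩))).1
          rw [Equiv.apply_symm_apply] at this
          exact adj_symm this
    · apply Subtype.ext
      apply Equiv.ext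
      intro b
      apply Subtype.ext
      change ext n m _ b.1 = _
      by_cases h : b.1 ∈ RR n m
      · exact (ext_in n m _ ⟨b.1, h⟩).trans (f1 ⟨b.1, h⟩ b.2)
      · have h1 := mem_Bs.1 b.2
        have h' := h
        rw [mem_RR] at h'
        have hi : (b.1.1, b.1.1) ∈ Bs n := by rw [mem_Bs]; dsimp only; omega
        have e := forced n m G _ (by omega) hi
        have : (⟨_, hi⟩ : BB n) = b := by
          apply Subtype.ext; rw [Prod.ext_iff]; dsimp only; omega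
        rw [this] at e
        unfold ext
        rw [dif_neg h, if_pos (by omega), e, Prod.ext_iff]
        dsimp only; omega

theorem til_det (n m : ℕ) (hm : m < 2 * n) : Nat.card (Til n m) = (DM n m).det.natAbs := by
  rw [← KM_det, det_count, Nat.card_eq_of_bijective _ (toGood_bij n m hm)]
  symm
  exact Nat.card_congr (Equiv.subtypeEquiv (Equiv.equivCongr (Equiv.refl _) (eqv n))
    (fun σ => Iff.rfl))

theorem main_le (n m : ℕ) (hn : 1 ≤ n) (hm : m ≤ n) :
    ∃ k : ℕ, Odd k ∧ Nat.card (Til n m) = 2 ^ (n - m) * k ^ 2 := by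
  obtain ⟨k, hk⟩ := NM_sq n m hn
  have ho := Int.natAbs_odd.2 (NM_odd n m hm)
  rw [hk] at ho
  refine ⟨k, (Nat.odd_pow_iff (by norm_num)).1 ho, ?_⟩
  have := DM_det n m (by omega)
  rw [hk, show 2 * n - m = (n - m) + n by omega, pow_add, mul_right_comm] at this
  rw [til_det n m (by omega)]
  exact Nat.eq_of_mul_eq_mul_right (by positivity) this

theorem sq_or_two (a : ℕ) : ∀ T k : ℕ, T * 2 ^ a = k ^ 2 → ∃ j, T = j ^ 2 ∨ T = 2 * j ^ 2 := by
  induction a using Nat.twoStepInduction with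
  | zero => intro T k h; exact ⟨k, Or.inl (by simpa using h)⟩
  | one =>
    intro T k h
    have : Even (k ^ 2) := ⟨T, by rw [← h]; ring⟩
    obtain ⟨j, rfl⟩ := (Nat.even_pow.1 this).1
    exact ⟨j, Or.inr (by nlinarith)⟩
  | more a ih _ =>
    intro T k h
    have : Even (k ^ 2) := ⟨T * 2 ^ (a + 1), by rw [← h]; ring⟩
    obtain ⟨j, rfl⟩ := (Nat.even_pow.1 this).1
    apply ih T j
    have : 4 * (T * 2 ^ a) = 4 * j ^ 2 := by
      rw [show 4 * j ^ 2 = (j + j) ^ 2 by ring, ← h]; ring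
    omega

theorem main_all (n m : ℕ) (hn : 1 ≤ n) (hm : m < 2 * n) :
    ∃ j : ℕ, Nat.card (Til n m) = j ^ 2 ∨ Nat.card (Til n m) = 2 * j ^ 2 := by
  obtain ⟨k, hk⟩ := NM_sq n m hn
  have := DM_det n m (by omega)
  rw [hk, ← til_det n m hm] at this
  apply sq_or_two (n + (2 * n - m)) _ (2 ^ (2 * n - m) * k)
  rw [pow_add, ← mul_assoc, this]; ring

end Pool.Agent.H30.Dom
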