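import Pool.Agent.H30.DomE

set_option autoImplicit false

namespace Pool.Agent.H30.Dom

open Matrix Finset

/-! Kasteleyn theory for an arbitrary finite region of the square grid. -/

def BR (R : Finset (ℕ × ℕ)) : Finset (ℕ × ℕ) := R.filter fun p => (p.1 + p.2) % 2 = 0
def WR (R : Finset (ℕ × ℕ)) : Finset (ℕ × ℕ) := R.filter fun p => ¬ (p.1 + p.2) % 2 = 0

def posR (n : ℕ) (R : Finset (ℕ × ℕ)) (y : ℕ × ℕ) : ℕ := ∑ x ∈ R, bef n x y

instance (b w : ℕ × ℕ) : Decidable (adj b w) := by unfold adj; infer_instance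

def KR (n : ℕ) (R : Finset (ℕ × ℕ)) (b w : ℕ × ℕ) : ℤ :=
  if adj b w then (-1) ^ posR n R (hi n b w) else 0

section
variable {n : ℕ} {R : Finset (ℕ × ℕ)} (hR : R ⊆ Sq n)
include hR

theorem BR_Bs (b : BR R) : b.1 ∈ Bs n := filter_subset_filter _ hR b.2
theorem WR_Ws (b : WR R) : b.1 ∈ Ws n := filter_subset_filter _ hR b.2

omit hR in
theorem split_sumR (G : BR R ≃ WR R) (φ : ℕ × ℕ → ℕ) :
    ∑ b : BR R, (φ (lo n b.1 (G b).1) + φ (hi n b.1 (G b).1)) = ∑ x ∈ R, φ x := by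
  have : ∀ b : BR R, φ (lo n b.1 (G b).1) + φ (hi n b.1 (G b).1) = φ b.1 + φ (G b).1 := by
    intro b; unfold lo hi; split_ifs <;> omega
  rw [Finset.sum_congr rfl (fun b _ => this b), sum_add_distrib,
    Equiv.sum_comp G (fun w : WR R => φ w.1), Finset.sum_coe_sort (BR R) φ,
    Finset.sum_coe_sort (WR R) φ, BR, WR, Finset.sum_filter_add_sum_filter_not]

def invR (n : ℕ) (G : BR R ≃ WR R) : ℕ :=
  ∑ b : BR R, ∑ b' : BR R, if lt2 n b.1 b'.1 ∧ ¬ lt2 n (G b).1 (G b').1 then 1 else 0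

def cntR (n : ℕ) (G : BR R ≃ WR R) (d : ℕ) : ℕ :=
  (univ.filter fun b : BR R => dl n (hi n b.1 (G b).1) = d).card

theorem cnt_recR (G : BR R ≃ WR R) (hG : ∀ b, adj b.1 (G b).1) (d : ℕ) :
    cntR n G (d + 1) + cntR n G d = ∑ x ∈ R, if dl n x = d then 1 else 0 := by
  rw [← split_sumR (n := n) G, sum_add_distrib, cntR, cntR, card_filter, card_filter]
  congr 1
  refine Finset.sum_congr rfl fun b _ => ?_
  rw [(hi_facts n _ _ (BR_Bs hR b) (WR_Ws hR (G b)) (hG b)).2.2.1]
  simp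

theorem cnt_eqR (G G' : BR R ≃ WR R) (hG : ∀ b, adj b.1 (G b).1)
    (hG' : ∀ b, adj b.1 (G' b).1) (d : ℕ) : cntR n G d = cntR n G' d := by
  induction d with
  | zero =>
    have : ∀ G : BR R ≃ WR R, (∀ b, adj b.1 (G b).1) → cntR n G 0 = 0 := by
      intro G hG
      rw [cntR, card_eq_zero, filter_eq_empty_iff]
      intro b _
      rw [(hi_facts n _ _ (BR_Bs hR b) (WR_Ws hR (G b)) (hG b)).2.2.1]; omega
    rw [this G hG, this G' hG']
  | succ d ih =>
    have h1 := cnt_recR hR G hG d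
    have h2 := cnt_recR hR G' hG' d
    omega

theorem val_formulaR (G : BR R ≃ WR R) (hG : ∀ b, adj b.1 (G b).1) :
    2 * invR n G + ∑ b : BR R, cntR n G (dl n (hi n b.1 (G b).1)) =
      2 * ∑ b : BR R, posR n R (hi n b.1 (G b).1) + Fintype.card (BR R) := by
  have hne : ∀ b b' : BR R, b.1 = b'.1 ↔ (G b).1 = (G b').1 := by
    intro b b'
    rw [Subtype.val_inj, Subtype.val_inj, G.injective.eq_iff]
  have s1 : invR n G = ∑ b : BR R, ∑ b' : BR R, bef n (lo n b.1 (G b).1) (hi n b'.1 (G b').1) :=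
    sym_double _ _ fun b b' =>
      pair_case n _ _ _ _ (BR_Bs hR b) (BR_Bs hR b') (WR_Ws hR (G b)) (WR_Ws hR (G b'))
        (hG b) (hG b') (hne b b')
  set H := ∑ b : BR R, ∑ b' : BR R, bef n (hi n b.1 (G b).1) (hi n b'.1 (G b').1) with hH
  have s2 : invR n G + H = ∑ b' : BR R, posR n R (hi n b'.1 (G b').1) := by
    rw [s1, hH, ← sum_add_distrib]
    simp only [← sum_add_distrib]
    rw [Finset.sum_comm]
    refine Finset.sum_congr rfl fun b' _ => ?_
    rw [split_sumR G (fun x => bef n x (hi n b'.1 (G b').1))]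
    rfl
  have s3 : 2 * H + Fintype.card (BR R) = ∑ b : BR R, cntR n G (dl n (hi n b.1 (G b).1)) := by
    have e : ∑ b : BR R, ∑ b' : BR R, (bef n (hi n b.1 (G b).1) (hi n b'.1 (G b').1) +
        bef n (hi n b'.1 (G b').1) (hi n b.1 (G b).1) + (if b.1 = b'.1 then 1 else 0)) =
        ∑ b : BR R, cntR n G (dl n (hi n b.1 (G b).1)) := by
      refine Finset.sum_congr rfl fun b _ => ?_
      rw [cntR, card_filter]
      refine Finset.sum_congr rfl fun b' _ => ?_
      rw [hi_inj n _ _ _ _ (BR_Bs hR b) (BR_Bs hR b') (WR_Ws hR (G b)) (WR_Ws hR (G b'))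
        (hne b b')]
      simp only [eq_comm]
    rw [← e]
    simp only [sum_add_distrib, Subtype.val_inj, Finset.sum_ite_eq, mem_univ, if_true]
    rw [Finset.sum_comm (f := fun b b' : BR R => bef n (hi n b'.1 (G b').1) (hi n b.1 (G b).1)),
      ← hH, two_mul]
    simp
  omega

theorem val_eqR (G G' : BR R ≃ WR R) (hG : ∀ b, adj b.1 (G b).1)
    (hG' : ∀ b, adj b.1 (G' b).1) :
    (-1 : ℤ) ^ (invR n G + ∑ b : BR R, posR n R (hi n b.1 (G b).1)) =
      (-1) ^ (invR n G' + ∑ b : BR R, posR n R (hi n b.1 (G' b).1)) := by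
  have h1 := val_formulaR hR G hG
  have h2 := val_formulaR hR G' hG'
  have hc := cnt_eqR hR G G' hG hG'
  have e1 := sum_fiber_congr (fun b : BR R => dl n (hi n b.1 (G b).1))
    (fun b : BR R => dl n (hi n b.1 (G' b).1)) hc (cntR n G)
  have e3 : cntR n G = cntR n G' := funext hc
  rw [e1, e3] at h1
  rw [neg_one_pow_eq_pow_mod_two, neg_one_pow_eq_pow_mod_two (n := invR n G' + _)]
  congr 1
  omega

theorem term_valR (e : BR R ≃ WR R) : ∃ J : ℤ, ∀ σ : Equiv.Perm (BR R),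
    (Equiv.Perm.sign σ : ℤ) * J = (-1) ^ invR n (σ.trans e) := by
  let ρ : BR R → ℕ ×ₗ ℕ := fun b => toLex (dl n b.1, b.1.1)
  have hρ : Function.Injective ρ := by
    intro b b' h
    have h1 := mem_Bs.1 (BR_Bs hR b)
    have h2 := mem_Bs.1 (BR_Bs hR b')
    simp only [ρ, toLex_inj, Prod.mk.injEq, dl] at h
    apply Subtype.ext
    rw [Prod.ext_iff]
    omega
  have hlt : ∀ b b', ρ b < ρ b' ↔ lt2 n b.1 b'.1 := fun b b' => Prod.Lex.toLex_lt_toLex
  refine ⟨∏ i, ∏ j, (if ρ i < ρ j then fsg n (e i).1 (e j).1 else 1), fun σ => ?_⟩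
  rw [← sign_pairs ρ hρ (fun i j => fsg n (e i).1 (e j).1) _ σ]
  · rw [invR, ← Finset.prod_pow_eq_pow_sum]
    refine Finset.prod_congr rfl fun b _ => ?_
    rw [← Finset.prod_pow_eq_pow_sum]
    refine Finset.prod_congr rfl fun b' _ => ?_
    simp only [hlt]
    change (if lt2 n b.1 b'.1 then fsg n ((σ.trans e) b).1 ((σ.trans e) b').1 else 1) = _
    generalize σ.trans e = G
    by_cases h : lt2 n b.1 b'.1
    · have hbb : b ≠ b' := by
        rintro rfl
        unfold lt2 at h; omega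
      have hne : (G b).1 ≠ (G b').1 := fun e => hbb (G.injective (Subtype.ext e))
      have h1 := mem_Ws.1 (WR_Ws hR (G b))
      have h2 := mem_Ws.1 (WR_Ws hR (G b'))
      rw [Ne, Prod.ext_iff] at hne
      simp only [h, if_true, true_and, fsg]
      by_cases h3 : lt2 n (G b).1 (G b').1
      · simp [h3]
      · have h4 : lt2 n (G b').1 (G b).1 := by
          unfold lt2 dl at *; omega
        simp [h3, h4]
    · simp [h]
  · intro i j
    unfold fsg
    split_ifs with h1 h2 <;> first | rfl | (unfold lt2 at *; omega)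

theorem kast (e : BR R ≃ WR R) :
    (Matrix.of fun b b' : BR R => KR n R b.1 (e b').1).det.natAbs =
      Nat.card {G : BR R ≃ WR R // ∀ b, adj b.1 (G b).1} := by
  classical
  obtain ⟨J, hJ⟩ := term_valR hR e
  let S := univ.filter fun σ : Equiv.Perm (BR R) => ∀ b, adj b.1 (e (σ b)).1
  have hcard : Nat.card {G : BR R ≃ WR R // ∀ b, adj b.1 (G b).1} = S.card := by
    rw [← Nat.card_congr (Equiv.subtypeEquiv (p := fun σ => ∀ b, adj b.1 (e (σ b)).1)
      (Equiv.equivCongr (Equiv.refl _) e) (fun σ => Iff.rfl)),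
      Nat.card_eq_fintype_card, Fintype.card_subtype]
  have hdet : (Matrix.of fun b b' : BR R => KR n R b.1 (e b').1).det =
      ∑ σ ∈ S, (Equiv.Perm.sign σ : ℤ) * ∏ b, KR n R b.1 (e (σ b)).1 := by
    rw [← det_transpose, det_apply', Finset.sum_filter]
    refine Finset.sum_congr rfl fun σ _ => ?_
    split_ifs with h
    · rfl
    · push Not at h
      obtain ⟨b, hb⟩ := h
      rw [Finset.prod_eq_zero (mem_univ b) (by simp [KR, hb]), mul_zero]
  rw [hcard, hdet]
  rcases S.eq_empty_or_nonempty with h0 | ⟨σ0, h0⟩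
  · simp [h0]
  have g0 := (mem_filter.1 h0).2
  set v := invR n (σ0.trans e) + ∑ b : BR R, posR n R (hi n b.1 ((σ0.trans e) b).1)
  have hJ1 : J.natAbs = 1 := by
    have := congrArg Int.natAbs (hJ σ0)
    simpa [Int.natAbs_mul, Int.natAbs_pow] using this
  have : (∑ σ ∈ S, (Equiv.Perm.sign σ : ℤ) * ∏ b, KR n R b.1 (e (σ b)).1) * J =
      S.card * (-1) ^ v := by
    rw [Finset.sum_mul, Finset.sum_congr rfl (g := fun _ => (-1) ^ v)]
    · simp
    · intro σ hσ
      have g := (mem_filter.1 hσ).2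
      have hv := val_eqR hR (σ.trans e) (σ0.trans e) g g0
      have hp : ∏ b, KR n R b.1 (e (σ b)).1 =
          (-1) ^ ∑ b : BR R, posR n R (hi n b.1 ((σ.trans e) b).1) := by
        rw [← Finset.prod_pow_eq_pow_sum]
        exact Finset.prod_congr rfl fun b _ => if_pos (g b)
      rw [mul_right_comm, hJ σ, hp, ← pow_add, hv]
  have h2 := congrArg Int.natAbs this
  simpa [Int.natAbs_mul, Int.natAbs_pow, hJ1] using h2

end

theorem mem_BR {R : Finset (ℕ × ℕ)} {p : ℕ × ℕ} : p ∈ BR R ↔ p ∈ R ∧ (p.1 + p.2) % 2 = 0 := by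
  simp [BR]

theorem mem_WR {R : Finset (ℕ × ℕ)} {p : ℕ × ℕ} : p ∈ WR R ↔ p ∈ R ∧ (p.1 + p.2) % 2 = 1 := by
  simp [WR]

/-- tilings as involutions versus bijections between the colour classes -/
theorem til_card (R : Finset (ℕ × ℕ)) :
    Nat.card {f : R → R // ∀ x, f (f x) = x ∧ adj x.1 (f x).1} =
      Nat.card {G : BR R ≃ WR R // ∀ b, adj b.1 (G b).1} := by
  let Φ : {f : R → R // ∀ x, f (f x) = x ∧ adj x.1 (f x).1} →
      {G : BR R ≃ WR R // ∀ b, adj b.1 (G b).1} := fun f =>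
    ⟨{ toFun := fun b => ⟨(f.1 ⟨b.1, (mem_BR.1 b.2).1⟩).1, mem_WR.2 ⟨Subtype.prop _, by
          have h1 := (f.2 ⟨b.1, (mem_BR.1 b.2).1⟩).2
          have h2 := (mem_BR.1 b.2).2
          unfold adj at h1; dsimp only at h1; omega⟩⟩
       invFun := fun b => ⟨(f.1 ⟨b.1, (mem_WR.1 b.2).1⟩).1, mem_BR.2 ⟨Subtype.prop _, by
          have h1 := (f.2 ⟨b.1, (mem_WR.1 b.2).1⟩).2
          have h2 := (mem_WR.1 b.2).2
          unfold adj at h1; dsimp only at h1; omega⟩⟩
       left_inv := fun b => Subtype.ext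
          (congrArg (fun x : R => x.1) (f.2 ⟨b.1, (mem_BR.1 b.2).1⟩).1)
       right_inv := fun b => Subtype.ext
          (congrArg (fun x : R => x.1) (f.2 ⟨b.1, (mem_WR.1 b.2).1⟩).1) },
      fun b => (f.2 ⟨b.1, (mem_BR.1 b.2).1⟩).2⟩
  apply Nat.card_eq_of_bijective Φ
  constructor
  · intro f f' h
    apply Subtype.ext
    funext x
    apply Subtype.ext
    by_cases hp : (x.1.1 + x.1.2) % 2 = 0
    · exact congrArg (fun G => (G.1 ⟨x.1, mem_BR.2 ⟨x.2, hp⟩⟩).1) h
    · exact congrArg (fun G => (G.1.symm ⟨x.1, mem_WR.2 ⟨x.2, by omega⟩⟩).1) h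
  · intro G
    let f : R → R := fun x =>
      if hp : (x.1.1 + x.1.2) % 2 = 0 then
        ⟨(G.1 ⟨x.1, mem_BR.2 ⟨x.2, hp⟩⟩).1, (mem_WR.1 (Subtype.prop _)).1⟩
      else ⟨(G.1.symm ⟨x.1, mem_WR.2 ⟨x.2, by omega⟩⟩).1, (mem_BR.1 (Subtype.prop _)).1⟩
    have f1 : ∀ (x : R) (h : x.1 ∈ BR R), (f x).1 = (G.1 ⟨x.1, h⟩).1 := by
      intro x h
      simp only [f]
      rw [dif_pos (mem_BR.1 h).2]
    have f2 : ∀ (x : R) (h : x.1 ∈ WR R), (f x).1 = (G.1.symm ⟨x.1, h⟩).1 := by
      intro x h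
      simp only [f]
      rw [dif_neg (by have := (mem_WR.1 h).2; omega)]
    refine ⟨⟨f, fun x => ?_⟩, ?_⟩
    · by_cases hp : (x.1.1 + x.1.2) % 2 = 0
      · have hx : x.1 ∈ BR R := mem_BR.2 ⟨x.2, hp⟩
        have e := f1 x hx
        have hw : (f x).1 ∈ WR R := by rw [e]; exact (G.1 _).2
        constructor
        · apply Subtype.ext
          rw [f2 _ hw, show (⟨(f x).1, hw⟩ : WR R) = G.1 ⟨x.1, hx⟩ from Subtype.ext e,
            Equiv.symm_apply_apply]
        · rw [e]; exact G.2 ⟨x.1, hx⟩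
      · have hx : x.1 ∈ WR R := mem_WR.2 ⟨x.2, by omega⟩
        have e := f2 x hx
        have hw : (f x).1 ∈ BR R := by rw [e]; exact (G.1.symm _).2
        constructor
        · apply Subtype.ext
          rw [f1 _ hw, show (⟨(f x).1, hw⟩ : BR R) = G.1.symm ⟨x.1, hx⟩ from Subtype.ext e,
            Equiv.apply_symm_apply]
        · rw [e]
          have := G.2 (G.1.symm ⟨x.1, hx⟩)
          rw [Equiv.apply_symm_apply] at this
          exact adj_symm this
    · apply Subtype.ext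
      apply Equiv.ext
      intro b
      apply Subtype.ext
      exact f1 ⟨b.1, (mem_BR.1 b.2).1⟩ b.2

theorem posR_succ (n : ℕ) (R : Finset (ℕ × ℕ)) (hR : R ⊆ Sq n) (r c : ℕ) (hr : r < 2 * n) :
    posR n R (r + 1, c + 1) = posR n R (r, c) + if (r, c) ∈ R then 1 else 0 := by
  unfold posR
  rw [← Finset.sum_ite_eq' R (r, c) (fun _ => 1), ← sum_add_distrib]
  refine Finset.sum_congr rfl fun x hx => ?_
  have := hR hx
  simp only [Sq, mem_product, mem_range] at this
  unfold bef dl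
  simp only [Prod.ext_iff]
  split_ifs <;> omega

theorem nbr_sum {A : Type*} [AddCommMonoid A] (S : Finset (ℕ × ℕ)) (φ : ℕ × ℕ → A) (r c : ℕ)
    (hr : 1 ≤ r) (hc : 1 ≤ c) :
    ∑ x ∈ S, (if adj (r, c) x then φ x else 0) =
      (if (r + 1, c) ∈ S then φ (r + 1, c) else 0) + (if (r - 1, c) ∈ S then φ (r - 1, c) else 0) +
      (if (r, c + 1) ∈ S then φ (r, c + 1) else 0) + (if (r, c - 1) ∈ S then φ (r, c - 1) else 0) := by
  simp only [← Finset.sum_ite_eq' S _ φ, ← sum_add_distrib]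
  refine Finset.sum_congr rfl fun x _ => ?_
  unfold adj
  simp only [Prod.ext_iff]
  split_ifs <;> first | omega | simp

theorem four_dvd_det {ι : Type*} [Fintype ι] [DecidableEq ι] (K : Matrix ι ι ℤ) (f g : ι → ℤ)
    (i0 j0 : ι) (hf : Odd (f i0)) (hg : Odd (g j0)) (h1 : ∀ j, 2 ∣ ∑ i, f i * K i j)
    (h2 : ∀ i, 2 ∣ ∑ j, K i j * g j) (h3 : 4 ∣ ∑ j, (∑ i, f i * K i j) * g j) : 4 ∣ K.det := by
  let P : Matrix ι ι ℤ := fun i j => if i = i0 then f j else if i = j then 1 else 0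
  let Q : Matrix ι ι ℤ := fun i j => if j = j0 then g i else if i = j then 1 else 0
  have hP : P.det = f i0 := by
    rw [det_of_rank P (fun i => if i = i0 then 1 else 0), Finset.prod_eq_single i0]
    · simp [P]
    · intro i _ hi; simp [P, hi]
    · simp
    · intro i j hij h
      by_cases hi : i = i0
      · have : j ≠ i0 := fun e => hij (hi.trans e.symm)
        simp [hi, this]
      · simp [P, hi, hij] at h
  have hQ : Q.det = g j0 := by
    rw [det_of_rank Q (fun i => if i = j0 then 0 else 1), Finset.prod_eq_single j0]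
    · simp [Q]
    · intro i _ hi; simp [Q, hi]
    · simp
    · intro i j hij h
      by_cases hj : j = j0
      · have : i ≠ j0 := fun e => hij (e.trans hj.symm)
        simp [hj, this]
      · simp [Q, hj, hij] at h
  have hPK : ∀ i j, (P * K) i j = if i = i0 then ∑ a, f a * K a j else K i j := by
    intro i j
    rw [Matrix.mul_apply]
    split_ifs with h <;> simp [P, h]
  have hM : ∀ i j, (P * K * Q) i j = if j = j0 then ∑ a, (P * K) i a * g a else (P * K) i j := by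
    intro i j
    rw [Matrix.mul_apply]
    split_ifs with h <;> simp [Q, h]
  let d1 : ι → ℤ := fun i => if i = i0 then 2 else 1
  let d2 : ι → ℤ := fun j => if j = j0 then 2 else 1
  have hdvd : ∀ i j, d1 i * d2 j ∣ (P * K * Q) i j := by
    intro i j
    rw [hM]
    simp only [hPK, d1, d2]
    by_cases hi : i = i0 <;> by_cases hj : j = j0 <;> simp only [hi, hj, if_true, if_false]
    · exact h3
    · simpa using h1 j
    · simpa using h2 i
    · simp
  choose M' hM' using hdvd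
  have hfac : P * K * Q = diagonal d1 * Matrix.of M' * diagonal d2 := by
    ext i j
    rw [hM', mul_diagonal, diagonal_mul, of_apply]; ring
  have hdet := congrArg det hfac
  have e1 : ∏ i, d1 i = 2 := by simp [d1, Finset.prod_ite_eq']
  have e2 : ∏ i, d2 i = 2 := by simp [d2, Finset.prod_ite_eq']
  rw [det_mul, det_mul, det_mul, det_mul, hP, hQ, det_diagonal, det_diagonal, e1, e2] at hdet
  have : (4 : ℤ) ∣ (f i0 * g j0) * K.det := ⟨(Matrix.of M').det, by linarith⟩
  have hco : IsCoprime (4 : ℤ) (f i0 * g j0) := by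
    obtain ⟨k, hk⟩ := hf.mul hg
    rw [hk]
    exact ⟨-(k * k + k), 2 * k + 1, by ring⟩
  exact hco.dvd_of_dvd_mul_left this

end Pool.Agent.H30.Dom
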