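import Pool.Agent.H30.DomG

set_option autoImplicit false

namespace Pool.Agent.H30.Dom

open Matrix Finset

def HR (r c i j : ℕ) : Finset (ℕ × ℕ) := (Icc 1 r ×ˢ Icc 1 c).erase (i, j)

theorem mem_HR {r c i j : ℕ} {p : ℕ × ℕ} : p ∈ HR r c i j ↔
    1 ≤ p.1 ∧ p.1 ≤ r ∧ 1 ≤ p.2 ∧ p.2 ≤ c ∧ ¬ (p.1 = i ∧ p.2 = j) := by
  simp only [HR, mem_erase, mem_product, mem_Icc, Ne, Prod.ext_iff]
  tauto

def Fc (r c t : ℕ) : Finset (ℕ × ℕ) :=
  (Icc 1 r ×ˢ Icc 1 c).filter fun p => p.1 % 2 = 0 ∧ p.2 % 2 = 0 ∧ ((p.1 + p.2) / 2) % 2 = t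

theorem mem_Fc {r c t : ℕ} {p : ℕ × ℕ} : p ∈ Fc r c t ↔
    1 ≤ p.1 ∧ p.1 ≤ r ∧ 1 ≤ p.2 ∧ p.2 ≤ c ∧ p.1 % 2 = 0 ∧ p.2 % 2 = 0 ∧
      ((p.1 + p.2) / 2) % 2 = t := by
  simp only [Fc, mem_filter, mem_product, mem_Icc]
  tauto

theorem exists_F (r c i j : ℕ) (hr : r % 2 = 1) (hc : c % 2 = 1) (h3 : ¬ (r % 4 = 3 ∧ c % 4 = 3))
    (t : ℕ) (hh : (i, j) ∈ Fc r c t) :
    ∃ F : ℕ × ℕ → ZMod 2, (∀ x, F x ≠ 0 → x ∈ Fc r c (1 - t)) ∧ (∃ x, F x ≠ 0) ∧
      ∀ x ∈ (Fc r c t).erase (i, j),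
        F (x.1 + 2, x.2) + F (x.1 - 2, x.2) + F (x.1, x.2 + 2) + F (x.1, x.2 - 2) = 0 := by
  have hcard : ((Fc r c t).erase (i, j)).card < (Fc r c (1 - t)).card := by
    refine lt_of_lt_of_le (card_erase_lt_of_mem hh) ?_
    by_cases h1 : r % 4 = 1
    · apply card_le_card_of_injOn (fun p => (r + 1 - p.1, p.2))
      · intro p hp
        simp only [mem_coe, mem_Fc] at hp ⊢
        omega
      · intro p hp q hq h
        simp only [mem_coe, mem_Fc, Prod.ext_iff] at hp hq h ⊢
        omega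
    · apply card_le_card_of_injOn (fun p => (p.1, c + 1 - p.2))
      · intro p hp
        simp only [mem_coe, mem_Fc] at hp ⊢
        omega
      · intro p hp q hq h
        simp only [mem_coe, mem_Fc, Prod.ext_iff] at hp hq h ⊢
        omega
  let ex : (Fc r c (1 - t) → ZMod 2) → ℕ × ℕ → ZMod 2 := fun v x =>
    if h : x ∈ Fc r c (1 - t) then v ⟨x, h⟩ else 0
  let Φ : (Fc r c (1 - t) → ZMod 2) → (((Fc r c t).erase (i, j) : Finset _) → ZMod 2) :=
    fun v x => ex v (x.1.1 + 2, x.1.2) + ex v (x.1.1 - 2, x.1.2) + ex v (x.1.1, x.1.2 + 2) +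
      ex v (x.1.1, x.1.2 - 2)
  obtain ⟨v, v', hne, heq⟩ := Fintype.exists_ne_map_eq_of_card_lt Φ (by
    simp only [Fintype.card_fun, ZMod.card, Fintype.card_coe]
    exact Nat.pow_lt_pow_right (by norm_num) hcard)
  refine ⟨fun x => ex v x - ex v' x, ?_, ?_, ?_⟩
  · intro x hx
    by_contra h
    simp [ex, h] at hx
  · obtain ⟨x, hx⟩ := Function.ne_iff.1 hne
    refine ⟨x.1, ?_⟩
    simp only [ex, dif_pos x.2]
    exact sub_ne_zero.2 hx
  · intro x hx
    have := congrFun heq ⟨x, hx⟩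
    simp only [Φ] at this
    linear_combination this

theorem four_sign (a b : ℕ) : (4 : ℤ) ∣ 2 * (-1) ^ a + 2 * (-1) ^ b := by
  rcases neg_one_pow_eq_or ℤ a with h | h <;> rcases neg_one_pow_eq_or ℤ b with h' | h' <;>
    rw [h, h'] <;> decide

theorem two_sign (a b : ℕ) : (2 : ℤ) ∣ (-1) ^ a + (-1) ^ b := by
  rcases neg_one_pow_eq_or ℤ a with h | h <;> rcases neg_one_pow_eq_or ℤ b with h' | h' <;>
    rw [h, h'] <;> decide

theorem hole_main (r c i j : ℕ) (hr : r % 2 = 1) (hc : c % 2 = 1)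
    (h3 : ¬ (r % 4 = 3 ∧ c % 4 = 3)) (hi1 : 1 ≤ i) (hi2 : i ≤ r) (hj1 : 1 ≤ j) (hj2 : j ≤ c)
    (hie : i % 2 = 0) (hje : j % 2 = 0) :
    4 ∣ Nat.card {f : HR r c i j → HR r c i j // ∀ x, f (f x) = x ∧ adj x.1 (f x).1} := by
  rw [til_card]
  set R := HR r c i j with hRdef
  rcases isEmpty_or_nonempty (BR R ≃ WR R) with he | ⟨⟨e⟩⟩
  · rw [Nat.card_of_isEmpty]; exact dvd_zero _
  set n := r + c + 2 with hn
  have hR : R ⊆ Sq n := by
    intro p hp
    rw [hRdef, mem_HR] at hp
    simp only [Sq, mem_product, mem_range]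
    omega
  rw [← kast hR e]
  set t := ((i + j) / 2) % 2 with ht
  obtain ⟨F, hF0, ⟨x0, hx0⟩, hF2⟩ := exists_F r c i j hr hc h3 t (by rw [mem_Fc]; simp only; omega)
  let Fz : ℕ × ℕ → ℤ := fun x => ((F x).val : ℤ)
  have hFz : ∀ x, ((Fz x : ℤ) : ZMod 2) = F x := fun x => by simp [Fz]
  have hz : ∀ x, x ∉ Fc r c (1 - t) → F x = 0 := fun x hx => by
    by_contra h; exact hx (hF0 x h)
  have hz' : ∀ x, x ∉ Fc r c (1 - t) → Fz x = 0 := fun x hx => by simp [Fz, hz x hx]
  let g : ℕ × ℕ → ℤ := fun b => ∑ x ∈ Fc r c (1 - t), if adj b x then Fz x else 0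
  have hg : ∀ a b, 1 ≤ a → 1 ≤ b →
      g (a, b) = Fz (a + 1, b) + Fz (a - 1, b) + Fz (a, b + 1) + Fz (a, b - 1) := by
    intro a b ha hb
    have : ∀ x, (if x ∈ Fc r c (1 - t) then Fz x else 0) = Fz x := by
      intro x; split_ifs with h
      · rfl
      · exact (hz' x h).symm
    simp only [g]
    rw [nbr_sum _ _ a b ha hb, this, this, this, this]
  let f : ℕ × ℕ → ℤ := fun w => if w.1 % 2 = 1 then 1 else 0
  let s : ℕ × ℕ → ℤ := fun y => (-1) ^ posR n R y
  let u : ℕ × ℕ → ℤ := fun b => ∑ w ∈ BR R, f w * KR n R w b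
  have hu : ∀ a b, (a, b) ∈ WR R → u (a, b) =
      if a % 2 = 1 then s (a, b + 1) + s (a, b) else s (a, b) + s (a - 1, b) := by
    intro a b hab
    rw [mem_WR, hRdef, mem_HR] at hab
    dsimp only at hab
    have : u (a, b) = ∑ w ∈ BR R, if adj (a, b) w then f w * s (hi n w (a, b)) else 0 := by
      refine Finset.sum_congr rfl fun w _ => ?_
      unfold KR
      by_cases h : adj w (a, b)
      · rw [if_pos h, if_pos (adj_symm h)]
      · rw [if_neg h, if_neg (fun h' => h (adj_symm h')), mul_zero]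
    rw [this, nbr_sum _ _ a b hab.1.1 hab.1.2.2.1]
    have k1 : hi n (a + 1, b) (a, b) = (a, b) := by unfold hi dl; rw [if_pos]; simp only; omega
    have k2 : hi n (a - 1, b) (a, b) = (a - 1, b) := by unfold hi dl; rw [if_neg]; simp only; omega
    have k3 : hi n (a, b + 1) (a, b) = (a, b + 1) := by unfold hi dl; rw [if_neg]; simp only; omega
    have k4 : hi n (a, b - 1) (a, b) = (a, b) := by unfold hi dl; rw [if_pos]; simp only; omega
    rw [k1, k2, k3, k4]
    simp only [f]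
    by_cases ha : a % 2 = 1
    · rw [if_neg (show ¬ (a + 1) % 2 = 1 by omega), if_neg (show ¬ (a - 1) % 2 = 1 by omega),
        if_pos (show (a, b + 1) ∈ BR R by rw [mem_BR, hRdef, mem_HR]; dsimp only; omega),
        if_pos (show (a, b - 1) ∈ BR R by rw [mem_BR, hRdef, mem_HR]; dsimp only; omega)]
      simp [ha]
    · rw [if_pos (show (a + 1) % 2 = 1 by omega), if_pos (show (a - 1) % 2 = 1 by omega),
        if_pos (show (a + 1, b) ∈ BR R by rw [mem_BR, hRdef, mem_HR]; dsimp only; omega),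
        if_pos (show (a - 1, b) ∈ BR R by rw [mem_BR, hRdef, mem_HR]; dsimp only; omega)]
      simp [ha]
  have hs : ∀ a b, (a, b) ∈ R → s (a + 1, b + 1) = - s (a, b) := by
    intro a b hab
    have h' := hab
    rw [hRdef, mem_HR] at h'
    simp only [s]
    rw [posR_succ n R hR a b (by omega), if_pos hab, pow_succ]; ring
  -- minimal face in the support
  obtain ⟨y, hy, hmin⟩ := exists_min_image ((Fc r c (1 - t)).filter fun x => F x ≠ 0)
    (fun x => x.1) ⟨x0, mem_filter.2 ⟨hF0 x0 hx0, hx0⟩⟩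
  obtain ⟨hy1, hy2⟩ := mem_filter.1 hy
  have hy3 := mem_Fc.1 hy1
  have hb0 : (y.1 - 1, y.2) ∈ WR R := by rw [mem_WR, hRdef, mem_HR]; dsimp only; omega
  have hw0 : ((1, 1) : ℕ × ℕ) ∈ BR R := by rw [mem_BR, hRdef, mem_HR]; dsimp only; omega
  have sumW : ∀ φ : ℕ × ℕ → ℤ, ∑ b : BR R, φ (e b).1 = ∑ b ∈ WR R, φ b := by
    intro φ
    rw [Equiv.sum_comp e (fun w : WR R => φ w.1), Finset.sum_coe_sort (WR R) φ]
  have sumU : ∀ b : ℕ × ℕ, ∑ w : BR R, f w.1 * KR n R w.1 b = u b := fun b =>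
    Finset.sum_coe_sort (BR R) (fun w => f w * KR n R w b)
  have main := four_dvd_det (Matrix.of fun b b' : BR R => KR n R b.1 (e b').1) (fun w => f w.1)
    (fun b => g (e b).1) ⟨(1, 1), hw0⟩ (e.symm ⟨_, hb0⟩) (by simp [f]) ?_ ?_ ?_ ?_
  · exact Int.natAbs_dvd_natAbs.2 main
  · simp only [Equiv.apply_symm_apply]
    rw [hg _ _ (by omega) (by omega), show y.1 - 1 + 1 = y.1 by omega,
      hz' (y.1 - 1, y.2 + 1) (by rw [mem_Fc]; dsimp only; omega),
      hz' (y.1 - 1, y.2 - 1) (by rw [mem_Fc]; dsimp only; omega)]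
    have e1 : F (y.1 - 1 - 1, y.2) = 0 := by
      by_contra h
      have := hmin _ (mem_filter.2 ⟨hF0 _ h, h⟩)
      dsimp only at this
      omega
    have e2 : F (y.1, y.2) = 1 := zmod_two _ hy2
    simp only [Fz, e1, e2]
    decide
  · intro b
    simp only [of_apply]
    rw [sumU]
    obtain ⟨⟨a, a'⟩, hb⟩ := e b
    rw [hu a a' hb]
    split_ifs <;> exact two_sign _ _
  · rintro ⟨⟨a, b⟩, hw⟩
    simp only [of_apply]
    rw [sumW (fun x => KR n R (a, b) x * g x)]
    rw [mem_BR, hRdef, mem_HR] at hw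
    dsimp only at hw
    apply (ZMod.intCast_zmod_eq_zero_iff_dvd _ 2).1
    push_cast
    have : ∀ x ∈ WR R, ((KR n R (a, b) x : ℤ) : ZMod 2) * (g x : ZMod 2) =
        if adj (a, b) x then (g x : ZMod 2) else 0 := by
      intro x _
      unfold KR
      split_ifs
      · push_cast
        rw [show (-1 : ZMod 2) = 1 from rfl, one_pow, one_mul]
      · simp
    rw [Finset.sum_congr rfl this, nbr_sum _ _ a b hw.1.1 hw.1.2.2.1]
    by_cases ha : a % 2 = 1
    · have q : ∀ p q : ℕ, p % 2 = 1 ∨ q % 2 = 1 ∨ p = 0 ∨ q = 0 ∨ r < p ∨ c < q → F (p, q) = 0 :=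
        fun p q h => hz _ (by rw [mem_Fc]; dsimp only; omega)
      have g1 : (if (a + 1, b) ∈ WR R then (g (a + 1, b) : ZMod 2) else 0) =
          F (a + 1, b + 1) + F (a + 1, b - 1) := by
        split_ifs with h
        · rw [hg _ _ (by omega) (by omega)]; push_cast
          simp only [hFz]
          rw [q (a + 1 + 1) b (by omega), q a b (by omega)]; ring
        · rw [mem_WR, hRdef, mem_HR] at h; dsimp only at h
          rw [q _ _ (by omega), q _ _ (by omega), add_zero]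
      have g2 : (if (a - 1, b) ∈ WR R then (g (a - 1, b) : ZMod 2) else 0) =
          F (a - 1, b + 1) + F (a - 1, b - 1) := by
        split_ifs with h
        · rw [mem_WR, hRdef, mem_HR] at h; dsimp only at h
          rw [hg _ _ (by omega) (by omega)]; push_cast
          simp only [hFz]
          rw [q (a - 1 + 1) b (by omega), q (a - 1 - 1) b (by omega)]; ring
        · rw [mem_WR, hRdef, mem_HR] at h; dsimp only at h
          rw [q _ _ (by omega), q _ _ (by omega), add_zero]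
      have g3 : (if (a, b + 1) ∈ WR R then (g (a, b + 1) : ZMod 2) else 0) =
          F (a + 1, b + 1) + F (a - 1, b + 1) := by
        split_ifs with h
        · rw [hg _ _ (by omega) (by omega)]; push_cast
          simp only [hFz]
          rw [q a (b + 1 + 1) (by omega), q a b (by omega)]; ring
        · rw [mem_WR, hRdef, mem_HR] at h; dsimp only at h
          rw [q _ _ (by omega), q _ _ (by omega), add_zero]
      have g4 : (if (a, b - 1) ∈ WR R then (g (a, b - 1) : ZMod 2) else 0) =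
          F (a + 1, b - 1) + F (a - 1, b - 1) := by
        split_ifs with h
        · rw [mem_WR, hRdef, mem_HR] at h; dsimp only at h
          rw [hg _ _ (by omega) (by omega)]; push_cast
          simp only [hFz]
          rw [q a (b - 1 + 1) (by omega), q a (b - 1 - 1) (by omega)]; ring
        · rw [mem_WR, hRdef, mem_HR] at h; dsimp only at h
          rw [q _ _ (by omega), q _ _ (by omega), add_zero]
      rw [g1, g2, g3, g4]
      have two : (2 : ZMod 2) = 0 := rfl
      linear_combination (F (a + 1, b + 1) + F (a + 1, b - 1) + F (a - 1, b + 1) +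
        F (a - 1, b - 1)) * two
    · have q : ∀ p q : ℕ, p % 2 = 1 ∨ q % 2 = 1 → F (p, q) = 0 :=
        fun p q h => hz _ (by rw [mem_Fc]; dsimp only; omega)
      rw [if_pos (show (a + 1, b) ∈ WR R by rw [mem_WR, hRdef, mem_HR]; dsimp only; omega),
        if_pos (show (a - 1, b) ∈ WR R by rw [mem_WR, hRdef, mem_HR]; dsimp only; omega),
        if_pos (show (a, b + 1) ∈ WR R by rw [mem_WR, hRdef, mem_HR]; dsimp only; omega),
        if_pos (show (a, b - 1) ∈ WR R by rw [mem_WR, hRdef, mem_HR]; dsimp only; omega),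
        hg _ _ (by omega) (by omega), hg _ _ (by omega) (by omega),
        hg _ _ (by omega) (by omega), hg _ _ (by omega) (by omega)]
      push_cast
      simp only [hFz]
      rw [q (a + 1) (b + 1) (by omega), q (a + 1) (b - 1) (by omega), q (a - 1) (b + 1) (by omega),
        q (a - 1) (b - 1) (by omega), show a - 1 + 1 = a by omega,
        show b - 1 + 1 = b by omega,
        show a - 1 - 1 = a - 2 by omega, show b - 1 - 1 = b - 2 by omega]
      have two : (2 : ZMod 2) = 0 := rfl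
      have key : F (a + 2, b) + F (a - 2, b) + F (a, b + 2) + F (a, b - 2) = 0 := by
        by_cases hp : ((a + b) / 2) % 2 = t
        · refine hF2 (a, b) (mem_erase.2 ⟨?_, ?_⟩)
          · rw [Ne, Prod.ext_iff]; exact hw.1.2.2.2.2
          · rw [mem_Fc]; dsimp only; omega
        · rw [hz (a + 2, b) (by rw [mem_Fc]; dsimp only; omega),
            hz (a - 2, b) (by rw [mem_Fc]; dsimp only; omega),
            hz (a, b + 2) (by rw [mem_Fc]; dsimp only; omega),
            hz (a, b - 2) (by rw [mem_Fc]; dsimp only; omega)]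
          simp
      linear_combination key + (2 * F (a, b)) * two
  · simp only [of_apply, sumU]
    rw [sumW (fun x => u x * g x)]
    simp only [g, Finset.mul_sum]
    rw [Finset.sum_comm]
    apply Finset.dvd_sum
    rintro ⟨a, b⟩ hx
    rw [mem_Fc] at hx
    dsimp only at hx
    have : ∀ x ∈ WR R, (u x * if adj x (a, b) then Fz (a, b) else 0) =
        Fz (a, b) * if adj (a, b) x then u x else 0 := by
      intro x _
      by_cases h : adj x (a, b)
      · rw [if_pos h, if_pos (adj_symm h), mul_comm]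
      · rw [if_neg h, if_neg (fun h' => h (adj_symm h'))]; simp
    rw [Finset.sum_congr rfl this, ← Finset.mul_sum, nbr_sum _ _ a b hx.1 hx.2.2.1]
    apply Dvd.dvd.mul_left
    have m1 : (a + 1, b) ∈ WR R := by rw [mem_WR, hRdef, mem_HR]; dsimp only; omega
    have m2 : (a - 1, b) ∈ WR R := by rw [mem_WR, hRdef, mem_HR]; dsimp only; omega
    have m3 : (a, b + 1) ∈ WR R := by rw [mem_WR, hRdef, mem_HR]; dsimp only; omega
    have m4 : (a, b - 1) ∈ WR R := by rw [mem_WR, hRdef, mem_HR]; dsimp only; omega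
    rw [if_pos m1, if_pos m2, if_pos m3, if_pos m4, hu _ _ m1, hu _ _ m2, hu _ _ m3, hu _ _ m4,
      if_pos (by omega), if_pos (by omega), if_neg (by omega), if_neg (by omega)]
    have t1 := hs (a - 1) b (mem_WR.1 m2).1
    have t2 := hs a (b - 1) (mem_WR.1 m4).1
    have t3 := hs (a - 1) (b - 1) (by rw [hRdef, mem_HR]; dsimp only; omega)
    have t4 := hs a b (by rw [hRdef, mem_HR]; dsimp only; omega)
    rw [show a - 1 + 1 = a by omega] at t1 t3
    rw [show b - 1 + 1 = b by omega] at t2 t3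
    rw [t1, t2, t4, t3]
    have fs := four_sign (posR n R (a - 1, b - 1)) (posR n R (a - 1, b + 1))
    change (4 : ℤ) ∣ 2 * s (a - 1, b - 1) + 2 * s (a - 1, b + 1) at fs
    obtain ⟨k, hk⟩ := fs
    exact ⟨k, by linear_combination hk⟩

end Pool.Agent.H30.Dom
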