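import Pool.Agent.H65.Dprm2

/-! Undecidability of systems of equations in a monoid in which multiplication of exponents of
one generator is defined by a system of equations. -/

namespace Pool.Agent.H30.EqM

open Pool.Agent.H65.Dprm

variable {A M : Type} [Monoid M]

/-- Systems of equations with constants from `A` and variables from `V`. -/
abbrev Sys (A V : Type) : Type := List (List (A ⊕ V) × List (A ⊕ V))

def ev {V : Type} (g : A → M) (σ : V → M) (u : List (A ⊕ V)) : M := (u.map (Sum.elim g σ)).prod

def Sat {V : Type} (g : A → M) (σ : V → M) (S : Sys A V) : Prop :=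
  ∀ e ∈ S, ev g σ e.1 = ev g σ e.2

def ren {V W : Type} (f : V → W) (S : Sys A V) : Sys A W :=
  S.map fun e => (e.1.map (Sum.map id f), e.2.map (Sum.map id f))

theorem ev_map {V W : Type} (g : A → M) (σ : W → M) (f : V → W) (u : List (A ⊕ V)) :
    ev g σ (u.map (Sum.map id f)) = ev g (σ ∘ f) u := by
  rw [ev, ev, List.map_map]
  congr 2
  funext x
  cases x <;> rfl

theorem sat_ren {V W : Type} (g : A → M) (σ : W → M) (f : V → W) (S : Sys A V) :
    Sat g σ (ren f S) ↔ Sat g (σ ∘ f) S := by
  simp only [Sat, ren, List.forall_mem_map, ev_map]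

theorem sat_append {V : Type} (g : A → M) (σ : V → M) (S T : Sys A V) :
    Sat g σ (S ++ T) ↔ Sat g σ S ∧ Sat g σ T := List.forall_mem_append

theorem ev_rep {V : Type} (g : A → M) (σ : V → M) (x : V) (c : A) (m : ℕ) :
    ev g σ (.inr x :: List.replicate m (.inl c)) = σ x * g c ^ m := by
  simp [ev]

abbrev Vr : Type := (ℕ × Bool) ⊕ (ℕ × Bool) × (ℕ × Bool) × ℕ

def vm (s t : ℕ × Bool) : ℕ → Vr
  | 0 => .inl s
  | 1 => .inl t
  | r => .inr (s, t, r)

def P (i : ℕ) : A ⊕ Vr := .inr (.inl (i, true))
def Q (i : ℕ) : A ⊕ Vr := .inr (.inl (i, false))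
def R (i : ℕ) (s : Bool) (j : ℕ) (t : Bool) : A ⊕ Vr := .inr (.inr ((i, s), (j, t), 2))

def tr (c : A) (G : Sys A ℕ) : Eqn ℕ → Sys A Vr
  | .add i j k => [([P i, P j, Q k], [P k, Q i, Q j])]
  | .cst i d => [(P i :: List.replicate (-d).toNat (.inl c), Q i :: List.replicate d.toNat (.inl c))]
  | .mul i j k => [([R i true j true, R i false j false, Q k], [P k, R i true j false, R i false j true])] ++
      ren (vm (i, true) (j, true)) G ++ ren (vm (i, false) (j, false)) G ++
      ren (vm (i, true) (j, false)) G ++ ren (vm (i, false) (j, true)) G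

theorem undec [Primcodable A] (g : A → M) (c : A) (lg : M → ℤ) (h1 : ∀ x y, lg (x * y) = lg x + lg y)
    (h2 : lg (g c) = 1) (G : Sys A ℕ)
    (hs : ∀ σ : ℕ → M, Sat g σ G → lg (σ 0) * lg (σ 1) = lg (σ 2))
    (hc : ∀ n m : ℕ, ∃ σ : ℕ → M, σ 0 = g c ^ n ∧ σ 1 = g c ^ m ∧ σ 2 = g c ^ (n * m) ∧ Sat g σ G) :
    ¬ ComputablePred fun S : Sys A ℕ => ∃ σ : ℕ → M, Sat g σ S := by
  obtain ⟨i, S, hS⟩ := h10
  have h0 : lg 1 = 0 := by have := h1 1 1; rw [one_mul] at this; omega
  have hp : ∀ n : ℕ, lg (g c ^ n) = n := fun n => by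
    induction n with
    | zero => simpa using h0
    | succ n ih => rw [pow_succ, h1, ih, h2]; push_cast; rfl
  let T : ℕ → Sys A Vr := fun m =>
    [(P i :: List.replicate 0 (.inl c), Q i :: List.replicate m (.inl c))] ++ S.flatMap (tr c G)
  have key : ∀ m : ℕ, (∃ τ : Vr → M, Sat g τ (T m)) ↔ ∃ x : ℕ → ℤ, x i = m ∧ ∀ q ∈ S, q.Sat x := by
    refine fun m => ⟨?_, ?_⟩
    · rintro ⟨τ, h⟩
      rw [sat_append] at h
      refine ⟨fun j => lg (τ (.inl (j, true))) - lg (τ (.inl (j, false))), ?_, fun q hq => ?_⟩
      · have := congrArg lg (h.1 _ List.mem_cons_self)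
        simp only [P, Q, ev_rep, h1, hp] at this
        simp only
        omega
      · have h3 : Sat g τ (tr c G q) := fun e he => h.2 e (List.mem_flatMap.2 ⟨q, hq, he⟩)
        rcases q with ⟨j, k, l⟩ | ⟨j, k, l⟩ | ⟨j, d⟩
        · have := congrArg lg (h3 _ List.mem_cons_self)
          simp only [ev, P, Q, List.map, List.prod_cons, List.prod_nil, Sum.elim_inr, h1] at this
          simp only [Eqn.Sat]
          omega
        · simp only [tr, sat_append, sat_ren] at h3
          obtain ⟨⟨⟨⟨a0, a1⟩, a2⟩, a3⟩, a4⟩ := h3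
          have := congrArg lg (a0 _ List.mem_cons_self)
          simp only [ev, P, Q, R, List.map, List.prod_cons, List.prod_nil, Sum.elim_inr, h1] at this
          have b1 := hs _ a1
          have b2 := hs _ a2
          have b3 := hs _ a3
          have b4 := hs _ a4
          simp only [Function.comp, vm] at b1 b2 b3 b4
          simp only [Eqn.Sat]
          linear_combination b1 + b2 - b3 - b4 + this
        · have := congrArg lg (h3 _ List.mem_cons_self)
          simp only [P, Q, ev_rep, h1, hp] at this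
          simp only [Eqn.Sat]
          omega
    · rintro ⟨x, hx, h⟩
      choose F f0 f1 f2 f3 using hc
      let N : ℕ × Bool → ℕ := fun s => cond s.2 (x s.1).toNat (-x s.1).toNat
      let τ : Vr → M := Sum.elim (fun s => g c ^ N s) fun z => F (N z.1) (N z.2.1) z.2.2
      have hv : ∀ s t, Sat g τ (ren (vm s t) G) := fun s t => by
        rw [sat_ren]
        convert f3 (N s) (N t) using 1
        funext r
        match r with
        | 0 => exact (f0 _ _).symm
        | 1 => exact (f1 _ _).symm
        | r + 2 => rfl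
      refine ⟨τ, (sat_append _ _ _ _).2 ⟨?_, fun e he => ?_⟩⟩
      · simp only [Sat, List.forall_mem_singleton, P, Q, ev_rep, τ, Sum.elim_inl, ← pow_add, N, cond]
        congr 1
        omega
      · obtain ⟨q, hq, he'⟩ := List.mem_flatMap.1 he
        have h3 := h q hq
        refine (?_ : Sat g τ (tr c G q)) e he'
        clear he he' hq
        rcases q with ⟨j, k, l⟩ | ⟨j, k, l⟩ | ⟨j, d⟩
        · simp only [Eqn.Sat] at h3
          simp only [tr, Sat, List.forall_mem_singleton, ev, P, Q, List.map, List.prod_cons,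
            List.prod_nil, Sum.elim_inr, τ, Sum.elim_inl, ← pow_add, N, cond, mul_one]
          congr 1
          omega
        · simp only [Eqn.Sat] at h3
          simp only [tr, sat_append, hv, and_true]
          simp only [Sat, List.forall_mem_singleton, ev, P, Q, R, List.map, List.prod_cons,
            List.prod_nil, Sum.elim_inr, τ, Sum.elim_inl, f2, ← pow_add, N, cond, mul_one]
          congr 1
          have e1 := Int.toNat_sub_toNat_neg (x j)
          have e2 := Int.toNat_sub_toNat_neg (x k)
          have e3 := Int.toNat_sub_toNat_neg (x l)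
          zify
          linear_combination (((x k).toNat : ℤ) - (-x k).toNat) * e1 + x j * e2 - e3 + h3
        · simp only [Eqn.Sat] at h3
          simp only [tr, Sat, List.forall_mem_singleton, P, Q, ev_rep, τ, Sum.elim_inl, ← pow_add, N,
            cond]
          congr 1
          omega
  have key2 : ∀ m, (∃ σ : ℕ → M, Sat g σ (ren Encodable.encode (T m))) ↔
      ∃ τ : Vr → M, Sat g τ (T m) := fun m =>
    ⟨fun ⟨σ, h⟩ => ⟨_, (sat_ren _ _ _ _).1 h⟩, fun ⟨τ, h⟩ =>
      ⟨fun n => (Encodable.decode n : Option Vr).elim 1 τ, (sat_ren _ _ _ _).2 (by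
        convert h using 1
        funext v
        rw [Function.comp, Encodable.encodek]
        rfl)⟩⟩
  have hr : Primrec fun m : ℕ => List.replicate m (Sum.inl c : A ⊕ ℕ) := by
    have : Primrec fun m : ℕ => Nat.rec (motive := fun _ => List (A ⊕ ℕ)) []
        (fun _ l => Sum.inl c :: l) m :=
      Primrec.nat_rec₁ [] (Primrec.list_cons.comp (Primrec.const _) Primrec.snd).to₂
    refine this.of_eq fun m => ?_
    induction m with
    | zero => rfl
    | succ m ih => simp [List.replicate_succ, ← ih]
  have hT : Computable fun m => ren Encodable.encode (T m) := by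
    have := Primrec.list_cons.comp (Primrec.pair
      (Primrec.const [(Sum.inr (Encodable.encode (Sum.inl (i, true) : Vr)) : A ⊕ ℕ)])
      (Primrec.list_cons.comp
        (Primrec.const (Sum.inr (Encodable.encode (Sum.inl (i, false) : Vr)) : A ⊕ ℕ)) hr))
      (Primrec.const (ren Encodable.encode (S.flatMap (tr c G))))
    exact this.to_comp.of_eq fun m => by simp [T, ren, P, Q]
  rintro ⟨d, hd⟩
  exact hS (ComputablePred.of_eq ⟨fun m => d _, hd.comp hT⟩ fun m => (key2 m).trans (key m))

end Pool.Agent.H30.EqM
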