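import Pool.Agent.H30.EqA

/-! The monoid with generators `a, c` and the relation `aacc = 1` has an undecidable
Diophantine problem. -/

namespace Pool.Agent.H30.EqM

theorem comm_pow {α : Type} : ∀ (n : ℕ) (U Y : List α), U.length + Y.length ≤ n → U ++ Y = Y ++ U →
    ∃ (r : List α) (i j : ℕ), U = (List.replicate i r).flatten ∧ Y = (List.replicate j r).flatten
  | 0, U, Y, h, _ => ⟨[], 0, 0, by simpa using List.length_eq_zero_iff.1 (by omega : U.length = 0),
      by simpa using List.length_eq_zero_iff.1 (by omega : Y.length = 0)⟩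
  | n + 1, U, Y, h, e => by
    rcases U.eq_nil_or_concat' with rfl | hU
    · exact ⟨Y, 0, 1, by simp, by simp⟩
    rcases Y.eq_nil_or_concat' with rfl | hY
    · exact ⟨U, 1, 0, by simp, by simp⟩
    have h1 : 0 < U.length := by obtain ⟨_, _, rfl⟩ := hU; simp
    have h2 : 0 < Y.length := by obtain ⟨_, _, rfl⟩ := hY; simp
    rcases List.append_eq_append_iff.1 e with ⟨Z, rfl, -⟩ | ⟨Z, rfl, -⟩
    · obtain ⟨r, i, j, rfl, rfl⟩ := comm_pow n U Z (by simp at h; omega)
        (by simpa using e)
      exact ⟨r, i, i + j, rfl, by rw [List.replicate_add, List.flatten_append]⟩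
    · obtain ⟨r, i, j, rfl, rfl⟩ := comm_pow n Y Z (by simp at h; omega)
        (by simpa using e.symm)
      exact ⟨r, i + j, i, by rw [List.replicate_add, List.flatten_append], rfl⟩

section Conj

variable {M : Type} [Monoid M]

def Cj (y y' : M) : Prop := ∃ x z, x * y * z = 1 ∧ x * z * y' = 1

theorem Cj.trans {y y' y'' : M} : Cj y y' → Cj y' y'' → Cj y y''
  | ⟨x, z, h1, h2⟩, ⟨x', z', h3, h4⟩ => ⟨x' * x, z * y' * z', by
      calc _ = x' * (x * y * z) * y' * z' := by simp only [mul_assoc]
        _ = 1 := by rw [h1, mul_one, h3], by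
      calc _ = x' * (x * z * y') * z' * y'' := by simp only [mul_assoc]
        _ = 1 := by rw [h2, mul_one, h4]⟩

/-- Left invertible elements. -/
def LI (M : Type) [Monoid M] : Submonoid M where
  carrier := {y | ∃ x, x * y = 1}
  one_mem' := ⟨1, one_mul 1⟩
  mul_mem' := fun {a b} ⟨x, hx⟩ ⟨y, hy⟩ => ⟨y * x, by
    rw [mul_assoc, ← mul_assoc x, hx, one_mul, hy]⟩

def cn (M : Type) [Monoid M] : Con (LI M) where
  r y y' := ∀ l r : LI M, Cj (l * y * r).1 (l * y' * r).1 ∧ Cj (l * y' * r).1 (l * y * r).1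
  iseqv := ⟨fun y l r => by
      obtain ⟨x, hx⟩ := (l * y * r).2
      exact ⟨⟨x, 1, by simpa using hx, by simpa using hx⟩, ⟨x, 1, by simpa using hx, by simpa using hx⟩⟩,
    fun h l r => (h l r).symm,
    fun h h' l r => ⟨(h l r).1.trans (h' l r).1, (h' l r).2.trans (h l r).2⟩⟩
  mul' := fun {w x y z} h h' l r => by
    have a := h l (y * r)
    have b := h' (l * x) r
    simp only [mul_assoc] at a b ⊢
    exact ⟨a.1.trans b.1, b.2.trans a.2⟩

theorem cn_of {y y' : LI M} {x : M} (h : x * y = 1) (h' : x * y' = 1) : cn M y y' := fun l r => by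
  obtain ⟨p, hp⟩ := l.2
  obtain ⟨q, hq⟩ := r.2
  have k : ∀ t : LI M, x * t = 1 → q * x * p * (l * t * r).1 = 1 := fun t ht => by
    calc _ = q * (x * ((p * l) * t)) * r := by simp only [Submonoid.coe_mul, mul_assoc]
      _ = 1 := by rw [hp, one_mul, ht, mul_one, hq]
  exact ⟨⟨_, 1, by simpa using k y h, by simpa using k y' h'⟩,
    ⟨_, 1, by simpa using k y' h', by simpa using k y h⟩⟩

theorem sq_pow {α β : M} (h : α * α = β * β) (n m : ℕ) :
    (α ^ n * α ^ n * (α * β)) ^ m = α ^ (n * m) * α ^ (n * m) * (α * β) ^ m ∧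
      (α * β) ^ m * α * (α * β) ^ m = α ^ m * α ^ m * α ^ m * α ^ m * α := by
  have c1 : Commute (α * α) β := h ▸ (Commute.refl β).mul_left (Commute.refl β)
  have c2 : Commute (α * α) α := (Commute.refl α).mul_left (Commute.refl α)
  have c3 : Commute (α * α) (α * β) := c2.mul_right c1
  constructor
  · rw [← (Commute.refl α).mul_pow, (c3.pow_left n).mul_pow, ← pow_mul, ← (Commute.refl α).mul_pow]
  · induction m with
    | zero => simp
    | succ m ih =>
      have e : α * β * α * (α * β) = α * α * (α * α) * α := by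
        calc _ = α * β * (α * α) * β := by simp only [mul_assoc]
          _ = α * (β * β) * (β * β) := by rw [h]; simp only [mul_assoc]
          _ = _ := by rw [← h]; simp only [mul_assoc]
      calc _ = (α * β) ^ m * (α * β * α * (α * β)) * (α * β) ^ m := by
            nth_rewrite 2 [pow_succ']
            rw [pow_succ]
            simp only [mul_assoc]
        _ = α * α * (α * α) * ((α * β) ^ m * α * (α * β) ^ m) := by
            rw [e, ← mul_assoc ((α * β) ^ m), ← ((c3.mul_left c3).pow_right m).eq]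
            simp only [mul_assoc]
        _ = _ := by
            rw [ih]
            simp only [← pow_succ', ← pow_succ, ← pow_add, mul_assoc]
            congr 1
            omega

theorem cj_pow {a c : M} (h : a * a * c * c = 1) (n m : ℕ) :
    Cj ((c ^ n * c ^ n * (c * (a * c * c))) ^ m) (c ^ (n * m) * c ^ (n * m) * (c * (a * c * c)) ^ m) ∧
      Cj ((c * (a * c * c)) ^ m * c * (c * (a * c * c)) ^ m) (c ^ m * c ^ m * c ^ m * c ^ m * c) := by
  have h' : a * (a * c * c) = 1 := by simpa only [mul_assoc] using h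
  let α : LI M := ⟨c, a * a * c, h⟩
  let β : LI M := ⟨a * c * c, a, h'⟩
  have e : cn M (α * α) (β * β) := cn_of (x := a * a) ((mul_assoc _ c c).symm.trans h) (by
    change a * a * (a * c * c * (a * c * c)) = 1
    rw [mul_assoc, ← mul_assoc a (a * c * c), h', one_mul, h'])
  have := sq_pow (α := (cn M).mk' α) (β := (cn M).mk' β)
    (by rw [← map_mul, ← map_mul]; exact (Con.eq _).2 e) n m
  simp only [← map_mul, ← map_pow] at this
  exact ⟨by simpa using ((Con.eq _).1 this.1 1 1).1, by simpa using ((Con.eq _).1 this.2 1 1).1⟩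

end Conj

abbrev cg : Con (FreeMonoid (Fin 2)) :=
  conGen fun x y : FreeMonoid (Fin 2) => x = FreeMonoid.ofList [0, 0, 1, 1] ∧ y = 1

abbrev MM : Type := cg.Quotient

def g (i : Fin 2) : MM := cg.mk' (FreeMonoid.of i)

def mk (u : List (Fin 2)) : MM := (u.map g).prod

theorem mk_eq (u : List (Fin 2)) : cg.mk' (FreeMonoid.ofList u) = mk u := by
  induction u with
  | nil => rfl
  | cons i u ih => rw [FreeMonoid.ofList_cons, map_mul, ih]; rfl

theorem mk_surj (y : MM) : ∃ u, y = mk u := by
  obtain ⟨u, rfl⟩ := cg.mk'_surjective y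
  exact ⟨u.toList, mk_eq _⟩

theorem rel : g 0 * g 0 * g 1 * g 1 = 1 := by
  have : cg.mk' (FreeMonoid.ofList [0, 0, 1, 1]) = cg.mk' 1 := (Con.eq _).2 (ConGen.Rel.of _ _ ⟨rfl, rfl⟩)
  rw [mk_eq, map_one] at this
  simpa [mk, mul_assoc] using this

def lift {N : Type} [Monoid N] (f : Fin 2 → N) (h : f 0 * f 0 * f 1 * f 1 = 1) : MM →* N :=
  cg.lift (FreeMonoid.lift f) (Con.conGen_le.2 (by
    rintro _ _ ⟨rfl, rfl⟩
    simpa [Con.ker_rel, FreeMonoid.lift_ofList, mul_assoc] using h))

theorem lift_g {N : Type} [Monoid N] (f : Fin 2 → N) (h : f 0 * f 0 * f 1 * f 1 = 1) (i : Fin 2) :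
    lift f h (g i) = f i := by
  simp [lift, g]

def st (i : Fin 2) (s : List (Fin 2)) : List (Fin 2) :=
  if i = 0 ∧ s.take 3 = [0, 1, 1] then s.drop 3 else i :: s

def act : MM →* Function.End (List (Fin 2)) :=
  lift st (by funext s; change st 0 (st 0 (st 1 (st 1 s))) = s; simp [st])

theorem act_cons (i : Fin 2) (u s : List (Fin 2)) : act (mk (i :: u)) s = st i (act (mk u) s) := by
  change act (g i * mk u) s = _
  rw [map_mul, act, lift_g]
  rfl

theorem act_nil (s : List (Fin 2)) : act (mk []) s = s := by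
  change act 1 s = s
  rw [map_one]
  rfl

theorem mk_append (u v : List (Fin 2)) : mk (u ++ v) = mk u * mk v := by simp [mk]

theorem mk_act (u s : List (Fin 2)) : mk (act (mk u) s) = mk u * mk s := by
  induction u with
  | nil => rw [act_nil]; exact (one_mul _).symm
  | cons i u ih =>
    rw [act_cons, show mk (i :: u) = g i * mk u from rfl, mul_assoc, ← ih, st]
    split_ifs with h
    · conv_rhs => rw [← List.take_append_drop 3 (act (mk u) s), h.2, h.1, mk_append, ← mul_assoc]
      rw [show g 0 * mk [0, 1, 1] = 1 by simpa [mk, mul_assoc] using rel, one_mul]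
    · rfl

theorem act_len (u s : List (Fin 2)) :
    act (mk u) s = u ++ s ∨ (act (mk u) s).length < u.length + s.length := by
  induction u with
  | nil => exact Or.inl (act_nil s)
  | cons i u ih =>
    rw [act_cons, st]
    have : (act (mk u) s).length ≤ u.length + s.length := by
      rcases ih with h | h
      · simp [h]
      · exact h.le
    split_ifs with h
    · right
      simp
      omega
    · rcases ih with h | h
      · simp [h]
      · right
        simp
        omega

theorem cent {U : List (Fin 2)} (hU : ∀ s, act (mk U) s = U ++ s) {i : Fin 2} (hi : U.count i = 1)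
    {y : MM} (h : y * mk U = mk U * y) : ∃ j : ℕ, y = mk U ^ j := by
  obtain ⟨Y, hY, hY'⟩ : ∃ Y, y = mk Y ∧ act y [] = Y := by
    obtain ⟨u, rfl⟩ := mk_surj y
    exact ⟨_, ((mk_act u []).trans (mul_one _)).symm, rfl⟩
  have h1 : act y U = U ++ Y := by
    have := congrArg (fun t => act t []) h
    simp only [map_mul] at this
    change act y (act (mk U) []) = act (mk U) (act y []) at this
    rwa [hU, hU, hY', List.append_nil] at this
  have h2 : U ++ Y = Y ++ U := by
    rcases act_len Y U with h2 | h2 <;> rw [← hY, h1] at h2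
    · exact h2
    · simp at h2
      omega
  obtain ⟨r, k, j, rfl, rfl⟩ := comm_pow _ U Y le_rfl h2
  obtain rfl : k = 1 := by
    simp only [List.count_flatten, List.map_replicate, List.sum_replicate, smul_eq_mul] at hi
    exact Nat.eq_one_of_mul_eq_one_right hi
  refine ⟨j, hY.trans ?_⟩
  clear * -
  induction j with
  | zero => simp [mk]
  | succ j ih => rw [List.replicate_succ, List.flatten_cons, mk_append, ih, pow_succ']; simp

theorem cent_c {y : MM} (h : y * g 1 = g 1 * y) : ∃ j : ℕ, y = g 1 ^ j := by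
  simpa [mk] using cent (U := [1]) (fun s => by simp [act_cons, act_nil, st]) (i := 1) rfl (y := y)
    (by simpa [mk] using h)

theorem cent_u (n : ℕ) {y : MM} (h : y * (g 1 ^ n * (g 0 * g 1 * g 1)) = g 1 ^ n * (g 0 * g 1 * g 1) * y) :
    ∃ j : ℕ, y = (g 1 ^ n * (g 0 * g 1 * g 1)) ^ j := by
  have e : mk (List.replicate n 1 ++ [0, 1, 1]) = g 1 ^ n * (g 0 * g 1 * g 1) := by
    simp [mk, mul_assoc]
  rw [← e] at h ⊢
  refine cent (fun s => ?_) (i := 0) (by simp [List.count_replicate]) h
  clear * -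
  induction n with
  | zero => simp [act_cons, act_nil, st]
  | succ n ih => rw [List.replicate_succ, List.cons_append, act_cons, ih]; simp [st]

def wt : MM →* Multiplicative ℤ := lift ![.ofAdd (-1), .ofAdd 1] rfl

def dh : MM →* DihedralGroup 0 := lift ![.sr 1, .sr 0] (by simp)

def gad : Sys (Fin 2) ℕ :=
  [([.inr 0, .inl 1], [.inl 1, .inr 0]), ([.inr 2, .inl 1], [.inl 1, .inr 2]),
    ([.inr 3, .inr 0, .inr 0, .inl 1, .inl 0, .inl 1, .inl 1],
      [.inr 0, .inr 0, .inl 1, .inl 0, .inl 1, .inl 1, .inr 3]),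
    ([.inr 4, .inl 1, .inl 0, .inl 1, .inl 1], [.inl 1, .inl 0, .inl 1, .inl 1, .inr 4]),
    ([.inr 5, .inr 3, .inr 6], []), ([.inr 5, .inr 6, .inr 2, .inr 2, .inr 4], []),
    ([.inr 7, .inr 4, .inl 1, .inr 4, .inr 8], []),
    ([.inr 7, .inr 8, .inr 1, .inr 1, .inr 1, .inr 1, .inl 1], [])]

theorem main : ¬ ComputablePred fun S : Sys (Fin 2) ℕ => ∃ σ : ℕ → MM, Sat g σ S := by
  have w0 : wt (g 0) = .ofAdd (-1) := lift_g _ _ _
  have w1 : wt (g 1) = .ofAdd 1 := lift_g _ _ _
  have d0 : dh (g 0) = .sr 1 := lift_g _ _ _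
  have d1 : dh (g 1) = .sr 0 := lift_g _ _ _
  refine undec g 1 (fun y => (wt y).toAdd) (fun x y => by simp) (by simp [w1]) gad (fun σ h => ?_)
    fun n m => ?_
  · simp only [Sat, gad, List.forall_mem_cons, ev, List.map, List.prod_cons, List.prod_nil,
      Sum.elim_inl, Sum.elim_inr, mul_one] at h
    obtain ⟨e0, e2, e3, e4, e5, e6, e7, e8, -⟩ := h
    obtain ⟨n, hn⟩ := cent_c e0
    obtain ⟨k, hk⟩ := cent_c e2
    obtain ⟨m, hm⟩ := cent_u (n + n + 1) (y := σ 3) (by
      simpa only [hn, pow_add, pow_one, mul_assoc] using e3)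
    obtain ⟨l, hl⟩ := cent_u 1 (y := σ 4) (by simpa only [pow_one, mul_assoc] using e4)
    have a1 := congrArg (fun y => (wt y).toAdd) (e5.trans e6.symm)
    have a2 := congrArg (fun y => (wt y).toAdd) (e7.trans e8.symm)
    have a3 := congrArg dh (e5.trans e6.symm)
    simp only [hn, hk, hm, hl, map_mul, map_pow, w0, w1, toAdd_mul, toAdd_pow, toAdd_ofAdd,
      nsmul_eq_mul] at a1 a2 ⊢
    have s2 : ∀ j : ℕ, (DihedralGroup.sr 0 : DihedralGroup 0) ^ j * .sr 0 ^ j = 1 := fun j => by
      rw [← (Commute.refl _).mul_pow]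
      simp
    simp only [hk, hm, hl, map_mul, map_pow, d0, d1, mul_right_inj, pow_add, pow_one, s2,
      ← mul_assoc (DihedralGroup.sr 0 ^ k)] at a3
    have a4 : m = l := by
      generalize dh (σ 6) = z at a3
      rcases z with z | z
      · simp only [one_mul, DihedralGroup.sr_mul_sr, DihedralGroup.r_mul_sr, DihedralGroup.r_pow,
          DihedralGroup.r_mul_r, DihedralGroup.r.injEq] at a3
        have : (m : ZMod 0) = l := by linear_combination a3
        exact Nat.cast_injective this
      · simp only [one_mul, DihedralGroup.sr_mul_sr, DihedralGroup.r_mul_sr, DihedralGroup.r_pow,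
          DihedralGroup.sr_mul_r, DihedralGroup.sr.injEq] at a3
        have : ((m + l : ℕ) : ZMod 0) = 0 := by push_cast; linear_combination -a3
        have := Nat.cast_eq_zero.1 this
        omega
    subst a4
    push_cast at a1 a2
    have b : (wt (σ 1)).toAdd = m := by omega
    rw [b]
    linarith
  · obtain ⟨⟨x, z, h1, h2⟩, x', z', h3, h4⟩ := cj_pow rel n m
    refine ⟨fun r => [g 1 ^ n, g 1 ^ m, g 1 ^ (n * m), (g 1 ^ n * g 1 ^ n * (g 1 * (g 0 * g 1 * g 1))) ^ m,
      (g 1 * (g 0 * g 1 * g 1)) ^ m, x, z, x', z'].getD r 1, rfl, rfl, rfl, ?_⟩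
    simp only [Sat, gad, List.forall_mem_cons, ev, List.map, List.prod_cons, List.prod_nil,
      Sum.elim_inl, Sum.elim_inr, mul_one, List.getD_cons_succ, List.getD_cons_zero]
    simp only [mul_assoc] at h1 h2 h3 h4 ⊢
    refine ⟨(pow_mul_comm' _ _), (pow_mul_comm' _ _), ?_, ?_, h1, h2, h3, h4, by simp⟩
    · simpa only [mul_assoc] using pow_mul_comm' (g 1 ^ n * g 1 ^ n * (g 1 * (g 0 * g 1 * g 1))) m
    · simpa only [mul_assoc] using pow_mul_comm' (g 1 * (g 0 * g 1 * g 1)) m

inductive Lw : List (Fin 2) → Prop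
  | nil : Lw []
  | c {s : List (Fin 2)} : Lw s → Lw (1 :: s)
  | b {s : List (Fin 2)} : Lw s → Lw (0 :: 1 :: 1 :: s)

theorem units (y : MMˣ) : y = 1 := by
  have k1 : ∀ u s, Lw (act (mk u) s) → Lw s := fun u s h => by
    induction u with
    | nil => rwa [act_nil] at h
    | cons i u ih =>
      refine ih ?_
      rw [act_cons, st] at h
      generalize act (mk u) s = t at h
      split_ifs at h with h1
      · rw [← List.take_append_drop 3 t, h1.2]
        exact h.b
      · cases h with
        | c h => exact h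
        | b h => exact h.c.c
  have k2 : ∀ u s, Lw u → act (mk u) s = u ++ s := fun u s h => by
    induction h with
    | nil => exact act_nil s
    | c _ ih => rw [act_cons, ih]; simp [st]
    | b _ ih => rw [act_cons, act_cons, act_cons, ih]; simp [st]
  have k3 : ∀ x z : MM, x * z = 1 → act x (act z []) = [] := fun x z h => by
    change (act x * act z) [] = []
    rw [← map_mul, h, map_one]
    rfl
  obtain ⟨u, hu⟩ := mk_surj y
  obtain ⟨v, hv⟩ := mk_surj y⁻¹.1
  have e : mk (act y.1 []) = y := by rw [hu]; exact (mk_act u []).trans (mul_one _)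
  have h1 : Lw (act y.1 []) := k1 v _ (by rw [← hv, k3 _ _ y.inv_mul]; exact .nil)
  have h2 := k3 _ _ y.mul_inv
  rw [← e, k2 _ _ h1] at h2
  refine Units.ext (e.symm.trans ?_)
  rw [(List.append_eq_nil_iff.1 h2).1]
  rfl

theorem mk_flat (σ : ℕ → List (Fin 2)) (u : List (Fin 2 ⊕ ℕ)) :
    mk (u.flatMap (Sum.elim (fun a => [a]) σ)) = ev g (fun n => mk (σ n)) u := by
  induction u with
  | nil => rfl
  | cons x u ih =>
    rw [List.flatMap_cons, mk_append, ih]
    cases x <;> simp [ev, mk]

end Pool.Agent.H30.EqM
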