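import Pool.Agent.H30.EqcDefs

/-!
Balancing lemmas for equitable list colourings of stars.
-/

namespace Pool.Agent.H30.Eqc

open Finset

def Sg {ι : Type} (τ : ι → ℤ) : Prop := ∀ i, τ i = 1 ∨ τ i = -1

theorem sign_lemma {ι : Type} [DecidableEq ι] (δ : ι → ℕ → ℤ) (C : Finset ℕ) (s : Finset ι) :
    ∃ τ : ι → ℤ, Sg τ ∧
      ∑ x ∈ C, (∑ i ∈ s, τ i * δ i x) ^ 2 ≤ ∑ i ∈ s, ∑ x ∈ C, δ i x ^ 2 := by
  induction s using Finset.induction_on with
  | empty => exact ⟨fun _ => 1, fun _ => Or.inl rfl, by simp⟩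
  | insert j s hj ih =>
    obtain ⟨τ, hτ, h⟩ := ih
    have key : ∀ t : ℤ, (t = 1 ∨ t = -1) →
        ∑ x ∈ C, (t * δ j x + ∑ i ∈ s, τ i * δ i x) ^ 2 ≤
          ∑ x ∈ C, δ j x ^ 2 + ∑ i ∈ s, ∑ x ∈ C, δ i x ^ 2 →
        ∃ τ : ι → ℤ, Sg τ ∧ ∑ x ∈ C, (∑ i ∈ insert j s, τ i * δ i x) ^ 2 ≤
          ∑ i ∈ insert j s, ∑ x ∈ C, δ i x ^ 2 := by
      intro t ht H
      refine ⟨Function.update τ j t, fun i => ?_, ?_⟩
      · by_cases e : i = j
        · subst e; simpa using ht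
        · simpa [e] using hτ i
      · rw [sum_insert hj]
        refine le_trans (le_of_eq (sum_congr rfl fun x _ => ?_)) H
        rw [sum_insert hj, Function.update_self]
        congr 2
        refine sum_congr rfl fun i hi => ?_
        rw [Function.update_of_ne (by rintro rfl; exact hj hi)]
    have par : ∑ x ∈ C, (1 * δ j x + ∑ i ∈ s, τ i * δ i x) ^ 2 +
        ∑ x ∈ C, (-1 * δ j x + ∑ i ∈ s, τ i * δ i x) ^ 2 =
        2 * ∑ x ∈ C, δ j x ^ 2 + 2 * ∑ x ∈ C, (∑ i ∈ s, τ i * δ i x) ^ 2 := by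
      rw [mul_sum, mul_sum, ← sum_add_distrib, ← sum_add_distrib]
      exact sum_congr rfl fun x _ => by ring
    by_cases H : ∑ x ∈ C, (1 * δ j x + ∑ i ∈ s, τ i * δ i x) ^ 2 ≤
          ∑ x ∈ C, δ j x ^ 2 + ∑ i ∈ s, ∑ x ∈ C, δ i x ^ 2
    · exact key 1 (Or.inl rfl) H
    · exact key (-1) (Or.inr rfl) (by linarith)

/-- The numerical condition on the star sizes. -/
def Good {ι : Type} [Fintype ι] [DecidableEq ι] (w : ι → ℤ) : Prop :=
  ∀ K : Finset ι, ∃ τ : ι → ℤ, Sg τ ∧ 2 * |∑ i ∈ Kᶜ, τ i * (w i - 2)| ≤ ∑ i ∈ K, w i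

theorem sq_sum_le (C : Finset ℕ) (u : ℕ → ℤ) (h : ∀ c, 0 ≤ u c) (W : ℤ)
    (hW : ∑ c ∈ C, u c ≤ W) : ∑ c ∈ C, u c ^ 2 ≤ W ^ 2 := by
  have h1 : ∑ c ∈ C, u c ^ 2 ≤ (∑ c ∈ C, u c) ^ 2 := sum_sq_le_sq_sum_of_nonneg fun c _ => h c
  exact h1.trans (pow_le_pow_left₀ (sum_nonneg fun c _ => h c) hW 2)

theorem two_heavy {ι : Type} [Fintype ι] [DecidableEq ι] (w : ι → ℤ) (u v : ι → ℕ → ℤ)
    (hu : ∀ i c, 0 ≤ u i c) (hv : ∀ i c, 0 ≤ v i c) (c d : ℕ)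
    (h3 : ∀ i, u i c + v i c + u i d + v i d ≤ w i ∨
      (u i c ≤ 1 ∧ u i d ≤ w i - 1 ∧ v i c ≤ w i - 1 ∧ v i d ≤ 1) ∨
      (u i d ≤ 1 ∧ u i c ≤ w i - 1 ∧ v i d ≤ w i - 1 ∧ v i c ≤ 1))
    (hg : Good w) : ∃ τ : ι → ℤ, Sg τ ∧
      ∑ i, (u i c + v i c + τ i * (u i c - v i c)) ≤ ∑ i, w i ∧
      ∑ i, (u i d + v i d + τ i * (u i d - v i d)) ≤ ∑ i, w i := by
  set K : Finset ι := univ.filter fun i => u i c + v i c + u i d + v i d ≤ w i with hK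
  obtain ⟨τ, hτ, hE⟩ := hg K
  have hs : ∀ i, ∃ t : ℤ, (t = 1 ∨ t = -1) ∧ (i ∈ K →
      (u i c + v i c + t * (u i c - v i c)) + (u i d + v i d + t * (u i d - v i d)) ≤ w i) := by
    intro i
    by_cases h : u i c + u i d ≤ v i c + v i d
    · exact ⟨1, Or.inl rfl, fun hi => by have := (mem_filter.1 hi).2; linarith⟩
    · exact ⟨-1, Or.inr rfl, fun hi => by have := (mem_filter.1 hi).2; linarith⟩
  choose s hs1 hs2 using hs
  have hr : ∀ i (e : ℤ), ∃ t : ℤ, (t = 1 ∨ t = -1) ∧ ((e = 1 ∨ e = -1) → i ∉ K →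
      u i c + v i c + t * (u i c - v i c) ≤ w i + e * (w i - 2) ∧
      u i d + v i d + t * (u i d - v i d) ≤ w i - e * (w i - 2)) := by
    intro i e
    by_cases hi : i ∈ K
    · exact ⟨1, Or.inl rfl, fun _ h => absurd hi h⟩
    have hi' : ¬ u i c + v i c + u i d + v i d ≤ w i := fun h => hi (mem_filter.2 ⟨mem_univ _, h⟩)
    rcases h3 i with h | h | h
    · exact absurd h hi'
    · by_cases he : e = 1
      · exact ⟨-1, Or.inr rfl, fun _ _ => by subst he; constructor <;> linarith [h.1, h.2.1, h.2.2.1, h.2.2.2]⟩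
      · refine ⟨1, Or.inl rfl, fun h' _ => ?_⟩
        obtain rfl := h'.resolve_left he
        constructor <;> linarith [h.1, h.2.1, h.2.2.1, h.2.2.2]
    · by_cases he : e = 1
      · exact ⟨1, Or.inl rfl, fun _ _ => by subst he; constructor <;> linarith [h.1, h.2.1, h.2.2.1, h.2.2.2]⟩
      · refine ⟨-1, Or.inr rfl, fun h' _ => ?_⟩
        obtain rfl := h'.resolve_left he
        constructor <;> linarith [h.1, h.2.1, h.2.2.1, h.2.2.2]
  choose r hr1 hr2 using hr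
  have pos : ∀ i x (t : ℤ), (t = 1 ∨ t = -1) → 0 ≤ u i x + v i x + t * (u i x - v i x) := by
    rintro i x t (rfl | rfl) <;> linarith [hu i x, hv i x]
  set Sc := ∑ i ∈ K, (u i c + v i c + s i * (u i c - v i c)) with hSc
  set Sd := ∑ i ∈ K, (u i d + v i d + s i * (u i d - v i d)) with hSd
  have c0 : 0 ≤ Sc := sum_nonneg fun i _ => pos i c _ (hs1 i)
  have d0 : 0 ≤ Sd := sum_nonneg fun i _ => pos i d _ (hs1 i)
  have cd : Sc + Sd ≤ ∑ i ∈ K, w i := by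
    rw [hSc, hSd, ← sum_add_distrib]; exact sum_le_sum fun i hi => hs2 i hi
  set E := ∑ i ∈ Kᶜ, τ i * (w i - 2) with hEdef
  obtain ⟨η, hη, a1, a2⟩ : ∃ η : ℤ, (η = 1 ∨ η = -1) ∧ Sc + η * E ≤ ∑ i ∈ K, w i ∧
      Sd - η * E ≤ ∑ i ∈ K, w i := by
    have e1 := le_abs_self E
    have e2 := neg_abs_le E
    by_cases h1 : Sc ≤ Sd <;> by_cases h2 : 0 ≤ E
    · exact ⟨1, Or.inl rfl, by linarith, by linarith⟩
    · exact ⟨-1, Or.inr rfl, by linarith, by linarith⟩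
    · exact ⟨-1, Or.inr rfl, by linarith, by linarith⟩
    · exact ⟨1, Or.inl rfl, by linarith, by linarith⟩
  have hητ : ∀ i, η * τ i = 1 ∨ η * τ i = -1 := fun i => by
    rcases hη with rfl | rfl <;> rcases hτ i with h | h <;> simp [h]
  have hηE : ∑ i ∈ Kᶜ, η * τ i * (w i - 2) = η * E := by
    rw [hEdef, mul_sum]; exact sum_congr rfl fun i _ => by ring
  refine ⟨fun i => if i ∈ K then s i else r i (η * τ i), fun i => ?_, ?_, ?_⟩
  · dsimp only; split_ifs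
    · exact hs1 i
    · exact hr1 i _
  · rw [← sum_add_sum_compl K, ← sum_add_sum_compl K w]
    have b1 : ∑ i ∈ K, (u i c + v i c + (if i ∈ K then s i else r i (η * τ i)) * (u i c - v i c))
        = Sc := sum_congr rfl fun i hi => by rw [if_pos hi]
    have b2 : ∑ i ∈ Kᶜ, (u i c + v i c + (if i ∈ K then s i else r i (η * τ i)) * (u i c - v i c))
        ≤ ∑ i ∈ Kᶜ, (w i + η * τ i * (w i - 2)) := sum_le_sum fun i hi => by
      rw [if_neg (mem_compl.1 hi)]; exact (hr2 i _ (hητ i) (mem_compl.1 hi)).1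
    rw [sum_add_distrib (s := Kᶜ) (f := w), hηE] at b2
    linarith
  · rw [← sum_add_sum_compl K, ← sum_add_sum_compl K w]
    have b1 : ∑ i ∈ K, (u i d + v i d + (if i ∈ K then s i else r i (η * τ i)) * (u i d - v i d))
        = Sd := sum_congr rfl fun i hi => by rw [if_pos hi]
    have b2 : ∑ i ∈ Kᶜ, (u i d + v i d + (if i ∈ K then s i else r i (η * τ i)) * (u i d - v i d))
        ≤ ∑ i ∈ Kᶜ, (w i - η * τ i * (w i - 2)) := sum_le_sum fun i hi => by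
      rw [if_neg (mem_compl.1 hi)]; exact (hr2 i _ (hητ i) (mem_compl.1 hi)).2
    rw [sum_sub_distrib (s := Kᶜ) (f := w), hηE] at b2
    linarith

theorem balance {ι : Type} [Fintype ι] [DecidableEq ι] (w : ι → ℤ) (u v : ι → ℕ → ℤ)
    (hu : ∀ i c, 0 ≤ u i c) (hv : ∀ i c, 0 ≤ v i c) (h1 : ∀ i c, u i c + v i c ≤ w i)
    (h2u : ∀ i (C : Finset ℕ), ∑ c ∈ C, u i c ≤ w i)
    (h2v : ∀ i (C : Finset ℕ), ∑ c ∈ C, v i c ≤ w i)
    (h3 : ∀ i c d, c ≠ d → u i c + v i c + u i d + v i d ≤ w i ∨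
      (u i c ≤ 1 ∧ u i d ≤ w i - 1 ∧ v i c ≤ w i - 1 ∧ v i d ≤ 1) ∨
      (u i d ≤ 1 ∧ u i c ≤ w i - 1 ∧ v i d ≤ w i - 1 ∧ v i c ≤ 1))
    (W : ℤ) (hW : ∀ i, w i ≤ W) (hN : 32 * Fintype.card ι * W ^ 2 ≤ (∑ i, w i) ^ 2)
    (hg : Good w) (C : Finset ℕ) : ∃ τ : ι → ℤ, Sg τ ∧
      ∀ c ∈ C, ∑ i, (u i c + v i c + τ i * (u i c - v i c)) ≤ ∑ i, w i := by
  have N0 : 0 ≤ ∑ i, w i := sum_nonneg fun i _ => by linarith [hu i 0, hv i 0, h1 i 0]
  by_cases hh : ∃ c d, c ≠ d ∧ 3 * ∑ i, w i < 4 * ∑ i, (u i c + v i c) ∧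
      3 * ∑ i, w i < 4 * ∑ i, (u i d + v i d)
  · obtain ⟨c, d, hcd, hc, hd⟩ := hh
    obtain ⟨τ, hτ, a, b⟩ := two_heavy w u v hu hv c d (fun i => h3 i c d hcd) hg
    refine ⟨τ, hτ, fun e _ => ?_⟩
    by_cases ec : e = c
    · rw [ec]; exact a
    by_cases ed : e = d
    · rw [ed]; exact b
    have t1 : ∑ i, ((u i c + v i c) + (u i d + v i d) + (u i e + v i e)) ≤ ∑ i, 2 * w i := by
      refine sum_le_sum fun i _ => ?_
      have x1 := h2u i {c, d, e}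
      have x2 := h2v i {c, d, e}
      rw [sum_insert (by simp [hcd, Ne.symm ec]), sum_pair (Ne.symm ed)] at x1 x2
      linarith
    rw [sum_add_distrib, sum_add_distrib, ← mul_sum] at t1
    have t2 : ∑ i, (u i e + v i e + τ i * (u i e - v i e)) ≤ ∑ i, 2 * (u i e + v i e) :=
      sum_le_sum fun i _ => by rcases hτ i with h | h <;> rw [h] <;> linarith [hu i e, hv i e]
    rw [← mul_sum] at t2
    linarith
  obtain ⟨τ, hτ, hs⟩ := sign_lemma (fun i x => u i x - v i x) C univ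
  have hb : ∑ i, ∑ x ∈ C, (u i x - v i x) ^ 2 ≤ Fintype.card ι * (2 * W ^ 2) := by
    have : ∀ i ∈ (univ : Finset ι), ∑ x ∈ C, (u i x - v i x) ^ 2 ≤ 2 * W ^ 2 := fun i _ => by
      have y1 := sq_sum_le C (u i) (hu i) W ((h2u i C).trans (hW i))
      have y2 := sq_sum_le C (v i) (hv i) W ((h2v i C).trans (hW i))
      have y3 : ∑ x ∈ C, (u i x - v i x) ^ 2 ≤ ∑ x ∈ C, (u i x ^ 2 + v i x ^ 2) :=
        sum_le_sum fun x _ => by nlinarith [mul_nonneg (hu i x) (hv i x)]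
      rw [sum_add_distrib] at y3
      linarith
    have := sum_le_card_nsmul _ _ _ this
    simpa using this
  have hD : ∀ c ∈ C, 4 * |∑ i, τ i * (u i c - v i c)| ≤ ∑ i, w i := fun c hc => by
    have z1 : (∑ i, τ i * (u i c - v i c)) ^ 2 ≤ ∑ x ∈ C, (∑ i, τ i * (u i x - v i x)) ^ 2 :=
      single_le_sum (f := fun x => (∑ i, τ i * (u i x - v i x)) ^ 2) (fun x _ => sq_nonneg _) hc
    have z2 : (4 * |∑ i, τ i * (u i c - v i c)|) ^ 2 ≤ (∑ i, w i) ^ 2 := by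
      rw [mul_pow, sq_abs]; linarith
    exact (pow_le_pow_iff_left₀ (by positivity) N0 (by norm_num)).1 z2
  have hT : ∀ c, ∑ i, (u i c + v i c) ≤ ∑ i, w i := fun c => sum_le_sum fun i _ => h1 i c
  have fin : ∀ η : ℤ, (η = 1 ∨ η = -1) →
      (∀ c, 3 * ∑ i, w i < 4 * ∑ i, (u i c + v i c) → η * ∑ i, τ i * (u i c - v i c) ≤ 0) →
      ∃ τ : ι → ℤ, Sg τ ∧
      ∀ c ∈ C, ∑ i, (u i c + v i c + τ i * (u i c - v i c)) ≤ ∑ i, w i := by
    intro η hη H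
    refine ⟨fun i => η * τ i, fun i => ?_, fun c hc => ?_⟩
    · rcases hη with rfl | rfl <;> rcases hτ i with h | h <;> simp [h]
    · have e : ∑ i, η * τ i * (u i c - v i c) = η * ∑ i, τ i * (u i c - v i c) := by
        rw [mul_sum]; exact sum_congr rfl fun i _ => by ring
      rw [sum_add_distrib, e]
      by_cases hc' : 3 * ∑ i, w i < 4 * ∑ i, (u i c + v i c)
      · linarith [H c hc', hT c]
      · have := hD c hc
        have e1 := le_abs_self (∑ i, τ i * (u i c - v i c))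
        have e2 := neg_abs_le (∑ i, τ i * (u i c - v i c))
        rcases hη with rfl | rfl <;> linarith
  by_cases h0 : ∃ c, 3 * ∑ i, w i < 4 * ∑ i, (u i c + v i c)
  · obtain ⟨c, hc⟩ := h0
    have uq : ∀ d, 3 * ∑ i, w i < 4 * ∑ i, (u i d + v i d) → d = c := fun d hd => by
      by_contra hne; exact hh ⟨d, c, hne, hd, hc⟩
    by_cases hs : ∑ i, τ i * (u i c - v i c) ≤ 0
    · exact fin 1 (Or.inl rfl) fun d hd => by rw [uq d hd]; linarith
    · exact fin (-1) (Or.inr rfl) fun d hd => by rw [uq d hd]; linarith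
  · exact fin 1 (Or.inl rfl) fun d hd => absurd ⟨d, hd⟩ h0

end Pool.Agent.H30.Eqc
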