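import Pool.Agent.H30.EqcA

/-!
From the numerical condition to equitable list colourings of stars, and back.
-/

namespace Pool.Agent.H30.Eqc

open Finset

theorem complete {V : Type} [Fintype V] [DecidableEq V] (L : V → Finset ℕ)
    (hL : ∀ v, (L v).card = 2) (cap : ℕ) (hV : Fintype.card V ≤ 2 * cap) (S : Finset V)
    (g : V → ℕ) (hg : ∀ c, (S.filter fun v => g v = c).card ≤ cap) (T : Finset V) :
    ∃ f : V → ℕ, (∀ v ∈ S, f v = g v) ∧ (∀ v ∈ T, v ∉ S → f v ∈ L v) ∧
      ∀ c, ((S ∪ T).filter fun v => f v = c).card ≤ cap := by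
  induction T using Finset.induction_on with
  | empty => exact ⟨g, fun _ _ => rfl, by simp, by simpa using hg⟩
  | insert x T hx ih =>
    obtain ⟨f, h1, h2, h3⟩ := ih
    by_cases hS : x ∈ S
    · refine ⟨f, h1, fun v hv hv' => h2 v ?_ hv', fun c => ?_⟩
      · rcases mem_insert.1 hv with rfl | h
        · exact absurd hS hv'
        · exact h
      · rw [union_insert, insert_eq_of_mem (mem_union_left _ hS)]; exact h3 c
    have hx' : x ∉ S ∪ T := by simp [hS, hx]
    obtain ⟨e, he, hlt⟩ : ∃ e ∈ L x, ((S ∪ T).filter fun v => f v = e).card < cap := by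
      obtain ⟨a, b, hab, e⟩ := card_eq_two.1 (hL x)
      by_contra hn
      push Not at hn
      have ha := hn a (by simp [e])
      have hb := hn b (by simp [e])
      have d : Disjoint ((S ∪ T).filter fun v => f v = a) ((S ∪ T).filter fun v => f v = b) :=
        disjoint_filter.2 fun v _ h h' => hab (h.symm.trans h')
      have c1 := card_union_of_disjoint d
      have c2 := card_le_card (union_subset (filter_subset (fun v => f v = a) (S ∪ T))
        (filter_subset (fun v => f v = b) (S ∪ T)))
      have c3 : (insert x (S ∪ T)).card ≤ Fintype.card V := card_le_univ _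
      rw [card_insert_of_notMem hx'] at c3
      omega
    refine ⟨Function.update f x e, fun v hv => ?_, fun v hv hv' => ?_, fun c => ?_⟩
    · rw [Function.update_of_ne (by rintro rfl; exact hS hv)]; exact h1 v hv
    · rcases mem_insert.1 hv with rfl | h
      · simpa using he
      · rw [Function.update_of_ne (by rintro rfl; exact hx h)]; exact h2 v h hv'
    · have q : ((S ∪ T).filter fun v => Function.update f x e v = c) =
          (S ∪ T).filter fun v => f v = c := filter_congr fun v hv => by
        rw [Function.update_of_ne (by rintro rfl; exact hx' hv)]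
      rw [union_insert, filter_insert, q, Function.update_self]
      split_ifs with h
      · subst h; exact (card_insert_le _ _).trans hlt
      · exact h3 c

def li (a b x c : ℕ) : ℤ := if (x = a ∧ c = b) ∨ (x = b ∧ c = a) then 1 else 0

def load {n : ℕ} (a b : Fin n → ℕ) (x c : ℕ) : ℤ :=
  (if x = c then 1 else 0) + ∑ j, li (a j) (b j) x c

theorem sum_le_n {n : ℕ} (f : Fin n → ℤ) (h : ∀ j, f j ≤ 1) : ∑ j, f j ≤ n := by
  simpa using sum_le_card_nsmul univ f 1 fun j _ => h j

section
variable {n : ℕ} {a b : Fin n → ℕ}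

theorem load_nonneg (x c) : 0 ≤ load a b x c :=
  add_nonneg (by split_ifs <;> simp) (sum_nonneg fun j _ => by unfold li; split_ifs <;> simp)

theorem load1 (hab : ∀ j, a j ≠ b j) {p q : ℕ} (h : p ≠ q) (c) :
    load a b p c + load a b q c ≤ n + 1 := by
  have := sum_le_n (fun j => li (a j) (b j) p c + li (a j) (b j) q c) fun j => by
    have := hab j
    unfold li; split_ifs <;> omega
  rw [sum_add_distrib] at this
  unfold load; split_ifs <;> omega

theorem load2 (hab : ∀ j, a j ≠ b j) (x) (C : Finset ℕ) : ∑ c ∈ C, load a b x c ≤ n + 1 := by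
  unfold load
  rw [sum_add_distrib, sum_comm]
  have h1 : ∑ c ∈ C, (if x = c then (1 : ℤ) else 0) ≤ 1 := by
    rw [sum_ite_eq]; split_ifs <;> simp
  have h2 := sum_le_n (fun j => ∑ c ∈ C, li (a j) (b j) x c) fun j => by
    have : ∑ c ∈ C, li (a j) (b j) x c ≤
        ∑ c ∈ C, (if (if x = a j then b j else a j) = c then (1 : ℤ) else 0) :=
      sum_le_sum fun c _ => by
        have := hab j
        unfold li; split_ifs <;> omega
    refine this.trans ?_
    rw [sum_ite_eq]; split_ifs <;> simp
  linarith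

theorem load_self (hab : ∀ j, a j ≠ b j) (x) : load a b x x ≤ 1 := by
  have : ∑ j, li (a j) (b j) x x = 0 := sum_eq_zero fun j _ => by
    have := hab j
    unfold li; split_ifs <;> omega
  simp [load, this]

theorem load_ne {x c} (h : x ≠ c) : load a b x c ≤ n + 1 - 1 := by
  have := sum_le_n (fun j => li (a j) (b j) x c) fun j => by unfold li; split_ifs <;> omega
  simp [load, h, this]

theorem load3 (hab : ∀ j, a j ≠ b j) {p q : ℕ} (h : p ≠ q) {c d} (hcd : c ≠ d) :
    load a b p c + load a b q c + load a b p d + load a b q d ≤ n + 1 ∨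
      (load a b p c ≤ 1 ∧ load a b p d ≤ n + 1 - 1 ∧ load a b q c ≤ n + 1 - 1 ∧
        load a b q d ≤ 1) ∨
      (load a b p d ≤ 1 ∧ load a b p c ≤ n + 1 - 1 ∧ load a b q d ≤ n + 1 - 1 ∧
        load a b q c ≤ 1) := by
  by_cases h1 : p = c ∧ q = d
  · obtain ⟨rfl, rfl⟩ := h1
    exact Or.inr (Or.inl ⟨load_self hab _, load_ne h, load_ne h.symm, load_self hab _⟩)
  by_cases h2 : p = d ∧ q = c
  · obtain ⟨rfl, rfl⟩ := h2
    exact Or.inr (Or.inr ⟨load_self hab _, load_ne h, load_ne h.symm, load_self hab _⟩)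
  left
  have := sum_le_n (fun j => li (a j) (b j) p c + li (a j) (b j) q c + li (a j) (b j) p d +
      li (a j) (b j) q d) fun j => by
    have := hab j
    unfold li; split_ifs <;> omega
  rw [sum_add_distrib, sum_add_distrib, sum_add_distrib] at this
  unfold load; split_ifs <;> omega
end

theorem card_stars {ι : Type} [Fintype ι] (m : ι → ℕ) :
    (Fintype.card (Σ i : ι, Option (Fin (m i))) : ℤ) = ∑ i, ((m i : ℤ) + 1) := by
  simp [Fintype.card_sigma]

theorem choosable_of {ι : Type} [Fintype ι] [DecidableEq ι] (m : ι → ℕ) (W : ℤ)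
    (hW : ∀ i, (m i : ℤ) + 1 ≤ W)
    (hN : 32 * Fintype.card ι * W ^ 2 ≤ (∑ i, ((m i : ℤ) + 1)) ^ 2)
    (hg : Good fun i => (m i : ℤ) + 1) : EqChoosable (starsG m) 2 := by
  intro L hL
  choose a b hab e using fun z => card_eq_two.1 (hL z)
  obtain ⟨τ, hτ, H⟩ := balance (fun i => (m i : ℤ) + 1)
    (fun i => load (fun j => a ⟨i, some j⟩) (fun j => b ⟨i, some j⟩) (a ⟨i, none⟩))
    (fun i => load (fun j => a ⟨i, some j⟩) (fun j => b ⟨i, some j⟩) (b ⟨i, none⟩))
    (fun i c => load_nonneg _ _) (fun i c => load_nonneg _ _)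
    (fun i c => load1 (fun j => hab _) (hab _) c)
    (fun i C => load2 (fun j => hab _) _ C) (fun i C => load2 (fun j => hab _) _ C)
    (fun i c d h => load3 (fun j => hab _) (hab _) h) W hW hN hg (univ.biUnion L)
  let X : ι → ℕ := fun i => if τ i = 1 then a ⟨i, none⟩ else b ⟨i, none⟩
  have hX : ∀ i, X i ∈ L ⟨i, none⟩ := fun i => by
    simp only [X, e]; split_ifs <;> simp
  let S : Finset (Σ i : ι, Option (Fin (m i))) := univ.filter fun z => X z.1 ∈ L z
  let g : (Σ i : ι, Option (Fin (m i))) → ℕ := fun z =>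
    if z.2 = none then X z.1 else if X z.1 = a z then b z else a z
  have hgL : ∀ z ∈ S, g z ∈ L z := fun z hz => by
    have := (mem_filter.1 hz).2
    simp only [g]; split_ifs
    · exact this
    · simp [e]
    · simp [e]
  have hc := card_stars m
  obtain ⟨f, f1, f2, f3⟩ := complete L hL (Fintype.card (Σ i : ι, Option (Fin (m i))) ⌈/⌉ 2)
    (by rw [Nat.ceilDiv_eq_add_pred_div]; omega) S g (fun c => by
      by_cases hC : c ∈ univ.biUnion L
      · have h1 := H c hC
        have h2 : ((S.filter fun v => g v = c).card : ℤ) =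
            ∑ i, load (fun j => a ⟨i, some j⟩) (fun j => b ⟨i, some j⟩) (X i) c := by
          rw [filter_filter, card_filter]
          push_cast
          rw [Fintype.sum_sigma]
          refine sum_congr rfl fun i _ => ?_
          rw [Fintype.sum_option, load]
          congr 1
          · simp [g, hX i]
          · refine sum_congr rfl fun j _ => ?_
            have := hab ⟨i, some j⟩
            simp only [g, e, li, mem_insert, mem_singleton, reduceCtorEq, if_false]
            split_ifs <;> omega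
        have h3 : ∑ i, 2 * load (fun j => a ⟨i, some j⟩) (fun j => b ⟨i, some j⟩) (X i) c ≤
            ∑ i, ((m i : ℤ) + 1) := by
          refine le_trans (le_of_eq (sum_congr rfl fun i _ => ?_)) h1
          rcases hτ i with h | h <;> simp only [X, h] <;> norm_num <;> ring
        rw [← mul_sum] at h3
        rw [Nat.ceilDiv_eq_add_pred_div]; omega
      · rw [filter_false_of_mem, card_empty]
        · exact Nat.zero_le _
        · rintro z hz rfl
          exact hC (mem_biUnion.2 ⟨z, mem_univ _, hgL z hz⟩)) univ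
  have pr : ∀ i j, f ⟨i, none⟩ ≠ f ⟨i, some j⟩ := fun i j => by
    rw [f1 ⟨i, none⟩ (mem_filter.2 ⟨mem_univ _, hX i⟩)]
    have g0 : g ⟨i, none⟩ = X i := by simp [g]
    rw [g0]
    by_cases hS : (⟨i, some j⟩ : Σ i : ι, Option (Fin (m i))) ∈ S
    · rw [f1 _ hS]
      have h1 := (mem_filter.1 hS).2
      have := hab ⟨i, some j⟩
      simp only [g, e, mem_insert, mem_singleton, reduceCtorEq, if_false] at h1 ⊢
      split_ifs <;> omega
    · intro h
      exact hS (mem_filter.2 ⟨mem_univ _, h ▸ f2 _ (mem_univ _) hS⟩)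
  refine ⟨f, fun v => ?_, ?_, fun c => ?_⟩
  · by_cases hv : v ∈ S
    · rw [f1 v hv]; exact hgL v hv
    · exact f2 v (mem_univ _) hv
  · have : ∀ x y : Σ i : ι, Option (Fin (m i)), x.1 = y.1 ∧ x.2 = none ∧ y.2 ≠ none →
        f x ≠ f y := by
      rintro ⟨i, o⟩ ⟨i', o'⟩ ⟨h1, h2, h3⟩
      dsimp only at h1 h2 h3
      subst h1 h2
      obtain ⟨j, rfl⟩ := Option.ne_none_iff_exists'.1 h3
      exact pr i j
    rintro x y ⟨-, h | h⟩
    · exact this x y h
    · exact (this y x h).symm
  · have := f3 c
    rwa [union_eq_right.2 (subset_univ S)] at this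

theorem signs_of {ι : Type} [Fintype ι] [DecidableEq ι] (m : ι → ℕ)
    (h : EqChoosable (starsG m) 2) : ∃ τ : ι → ℤ, Sg τ ∧ |∑ i, τ i * ((m i : ℤ) - 1)| ≤ 1 := by
  obtain ⟨f, f1, f2, f3⟩ := h (fun _ => {0, 1}) (fun _ => rfl)
  simp only [mem_insert, mem_singleton] at f1
  refine ⟨fun i => if f ⟨i, none⟩ = 0 then 1 else -1, fun i => by dsimp only; split_ifs <;> simp, ?_⟩
  have c0 := f3 0
  have c1 := f3 1
  rw [Nat.ceilDiv_eq_add_pred_div] at c0 c1
  have e1 : ((univ.filter fun v => f v = 0).card : ℤ) + (univ.filter fun v => f v = 1).card =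
      Fintype.card (Σ i : ι, Option (Fin (m i))) := by
    rw [card_filter, card_filter, ← card_univ, card_eq_sum_ones]
    push_cast
    rw [← sum_add_distrib]
    exact sum_congr rfl fun z _ => by rcases f1 z with h | h <;> simp [h]
  have e2 : ((univ.filter fun v => f v = 1).card : ℤ) - (univ.filter fun v => f v = 0).card =
      ∑ i, (if f ⟨i, none⟩ = 0 then 1 else -1) * ((m i : ℤ) - 1) := by
    rw [card_filter, card_filter]
    push_cast
    rw [← sum_sub_distrib, Fintype.sum_sigma]
    refine sum_congr rfl fun i _ => ?_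
    rw [Fintype.sum_option]
    have : ∀ j, ((if f ⟨i, some j⟩ = 1 then (1 : ℤ) else 0) - if f ⟨i, some j⟩ = 0 then 1 else 0)
        = if f ⟨i, none⟩ = 0 then 1 else -1 := fun j => by
      have x1 := f2 ⟨i, none⟩ ⟨i, some j⟩ (by simp [starsG])
      have x2 := f1 ⟨i, none⟩
      have x3 := f1 ⟨i, some j⟩
      split_ifs <;> omega
    rw [sum_congr rfl fun j _ => this j]
    rcases f1 ⟨i, none⟩ with h | h <;> simp [h] <;> ring
  rw [← e2, abs_le]
  omega

end Pool.Agent.H30.Eqc
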