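import Pool.Agent.H30.EqcB

/-!
A family of star forests whose equitable choosability is decided by one partition problem.
-/

namespace Pool.Agent.H30.Eqc

open Finset

theorem sign_sum {ι : Type} [DecidableEq ι] (A : Finset ι) (p : ℕ) (hp : p ≤ A.card) :
    ∃ τ : ι → ℤ, Sg τ ∧ ∑ i ∈ A, τ i = 2 * p - A.card := by
  obtain ⟨B, hB, rfl⟩ := exists_subset_card_eq hp
  refine ⟨fun i => if i ∈ B then 1 else -1, fun i => by dsimp only; split_ifs <;> simp, ?_⟩
  have : ∀ i, (if i ∈ B then (1 : ℤ) else -1) = 2 * (if i ∈ B then 1 else 0) - 1 := fun i => by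
    split_ifs <;> simp
  rw [sum_congr rfl fun i _ => this i, sum_sub_distrib, ← mul_sum, sum_ite_mem, inter_eq_right.2 hB]
  simp

theorem small_cases (k g s t : ℕ) (h1 : 1 ≤ s + t) (h2 : 130 ≤ s + k) (h3 : t + g = 2) :
    ∃ p ≤ k, ∃ r ≤ g, 2 * |2 * (2 * (p : ℤ) - k) + 3 * (2 * (r : ℤ) - g)| + 1 ≤ 2 * s + 3 * t := by
  have : ∀ p r : ℕ, p ≤ k → r ≤ g →
      2 * (2 * (2 * (p : ℤ) - k) + 3 * (2 * (r : ℤ) - g)) + 1 ≤ 2 * s + 3 * t →
      -2 * (2 * (2 * (p : ℤ) - k) + 3 * (2 * (r : ℤ) - g)) + 1 ≤ 2 * s + 3 * t →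
      ∃ p ≤ k, ∃ r ≤ g,
        2 * |2 * (2 * (p : ℤ) - k) + 3 * (2 * (r : ℤ) - g)| + 1 ≤ 2 * s + 3 * t :=
    fun p r a b c d => ⟨p, a, r, b, by
      rcases abs_cases (2 * (2 * (p : ℤ) - k) + 3 * (2 * (r : ℤ) - g)) with h | h <;> omega⟩
  by_cases hk : k < 3
  · exact this 0 0 (by omega) (by omega) (by omega) (by omega)
  by_cases g2 : g = 2
  · by_cases e : k % 2 = 0
    · exact this (k / 2) 1 (by omega) (by omega) (by omega) (by omega)
    · exact this ((k + 3) / 2) 0 (by omega) (by omega) (by omega) (by omega)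
  · by_cases g1 : g = 1
    · exact this ((k + 2) / 2) 0 (by omega) (by omega) (by omega) (by omega)
    · exact this (k / 2) 0 (by omega) (by omega) (by omega) (by omega)

theorem family {ι : Type} [Fintype ι] [DecidableEq ι] (m : ι → ℕ) (S : Finset ι) (b : ι → ℤ)
    (M : ℤ) (hb : ∀ i, 0 ≤ b i) (hB : 2 * ∑ i ∈ S, b i ≤ M)
    (h1 : ∀ i ∈ S, (m i : ℤ) - 1 = 2 * M + b i) (h2 : ∀ i ∉ S, (m i : ℤ) - 1 = 3 * M)
    (hS : 130 ≤ S.card) (hS' : Sᶜ.card = 2)
    (h0 : ∃ τ : ι → ℤ, Sg τ ∧ ∑ i, τ i * ((m i : ℤ) - 1) = 0) : EqChoosable (starsG m) 2 := by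
  have B0 : 0 ≤ ∑ i ∈ S, b i := sum_nonneg fun i _ => hb i
  have M0 : 0 ≤ M := by linarith
  refine choosable_of m (3 * (M + 1)) (fun i => ?_) ?_ fun K => ?_
  · by_cases hi : i ∈ S
    · have := single_le_sum (fun i _ => hb i) hi
      linarith [h1 i hi]
    · linarith [h2 i hi]
  · have n1 : (130 : ℤ) ≤ Fintype.card ι := by exact_mod_cast hS.trans (card_le_univ S)
    have n2 : (Fintype.card ι : ℤ) * (2 * (M + 1)) ≤ ∑ i, ((m i : ℤ) + 1) := by
      have := card_nsmul_le_sum univ (fun i => (m i : ℤ) + 1) (2 * (M + 1)) fun i _ => by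
        by_cases hi : i ∈ S
        · linarith [h1 i hi, hb i]
        · linarith [h2 i hi]
      simpa using this
    refine le_trans ?_ (pow_le_pow_left₀ (by positivity) n2 2)
    generalize (Fintype.card ι : ℤ) = n at *
    have : 0 ≤ n * (M + 1) ^ 2 * (n - 72) := mul_nonneg (by positivity) (by linarith)
    linarith
  rcases K.eq_empty_or_nonempty with rfl | hK
  · obtain ⟨τ, hτ, h⟩ := h0
    refine ⟨τ, hτ, ?_⟩
    have : ∑ i, τ i * ((m i : ℤ) + 1 - 2) = 0 := by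
      rw [← h]; exact sum_congr rfl fun i _ => by ring
    simp [this]
  have k1 := card_sdiff_add_card_inter K S
  have k2 : (K ∩ S).card + (Kᶜ ∩ S).card = S.card := by
    rw [← card_union_of_disjoint (disjoint_left.2 fun i h h' =>
      mem_compl.1 (mem_inter.1 h').1 (mem_inter.1 h).1), ← union_inter_distrib_right]
    simp
  have k3 : (K \ S).card + (Kᶜ \ S).card = 2 := by
    rw [← card_union_of_disjoint (disjoint_left.2 fun i h h' =>
      mem_compl.1 (mem_sdiff.1 h').1 (mem_sdiff.1 h).1), ← union_sdiff_distrib, ← hS', union_compl,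
      compl_eq_univ_sdiff]
  have k4 := hK.card_pos
  obtain ⟨p, hp, r, hr, H⟩ := small_cases (Kᶜ ∩ S).card (Kᶜ \ S).card (K ∩ S).card (K \ S).card
    (by omega) (by omega) k3
  obtain ⟨σ, hσ, e1⟩ := sign_sum _ p hp
  obtain ⟨ρ, hρ, e2⟩ := sign_sum _ r hr
  refine ⟨fun i => if i ∈ S then σ i else ρ i, fun i => ?_, ?_⟩
  · dsimp only; split_ifs
    · exact hσ i
    · exact hρ i
  have q1 : ∑ i ∈ Kᶜ, (if i ∈ S then σ i else ρ i) * ((m i : ℤ) + 1 - 2) =
      M * (2 * ∑ i ∈ Kᶜ ∩ S, σ i + 3 * ∑ i ∈ Kᶜ \ S, ρ i) + ∑ i ∈ Kᶜ ∩ S, σ i * b i := by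
    rw [← sum_inter_add_sum_sdiff Kᶜ S, mul_add, mul_sum, mul_sum, mul_sum, mul_sum, add_right_comm,
      ← sum_add_distrib]
    congr 1
    · refine sum_congr rfl fun i hi => ?_
      have hi' := (mem_inter.1 hi).2
      rw [if_pos hi', show (m i : ℤ) + 1 - 2 = 2 * M + b i by linarith [h1 i hi']]; ring
    · refine sum_congr rfl fun i hi => ?_
      have hi' := (mem_sdiff.1 hi).2
      rw [if_neg hi', show (m i : ℤ) + 1 - 2 = 3 * M by linarith [h2 i hi']]; ring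
  have q2 : |∑ i ∈ Kᶜ ∩ S, σ i * b i| ≤ ∑ i ∈ S, b i := by
    refine (abs_sum_le_sum_abs _ _).trans (le_trans (sum_le_sum fun i _ => ?_)
      (sum_le_sum_of_subset_of_nonneg inter_subset_right fun i _ _ => hb i))
    rcases hσ i with h | h <;> simp [h, abs_of_nonneg (hb i)]
  have q3 : M * (2 * (K ∩ S).card + 3 * (K \ S).card) ≤ ∑ i ∈ K, ((m i : ℤ) + 1) := by
    rw [← sum_inter_add_sum_sdiff K S]
    have a1 := card_nsmul_le_sum (K ∩ S) (fun i => (m i : ℤ) + 1) (2 * M) fun i hi => by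
      linarith [h1 i (mem_inter.1 hi).2, hb i]
    have a2 := card_nsmul_le_sum (K \ S) (fun i => (m i : ℤ) + 1) (3 * M) fun i hi => by
      linarith [h2 i (mem_sdiff.1 hi).2]
    rw [nsmul_eq_mul] at a1 a2
    linarith
  rw [q1, e1, e2]
  refine le_trans ?_ q3
  have q4 := mul_le_mul_of_nonneg_left H M0
  have q5 := abs_add_le (M * (2 * (2 * (p : ℤ) - (Kᶜ ∩ S).card) + 3 * (2 * (r : ℤ) - (Kᶜ \ S).card)))
    (∑ i ∈ Kᶜ ∩ S, σ i * b i)
  rw [abs_mul, abs_of_nonneg M0] at q5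
  linarith

theorem digits_zero (n : ℕ) (d : ℕ → ℤ) (hd : ∀ j, |d j| ≤ 4)
    (h : ∑ j ∈ range n, 8 ^ j * d j = 0) : ∀ j < n, d j = 0 := by
  induction n generalizing d with
  | zero => simp
  | succ n ih =>
    rw [sum_range_succ'] at h
    have e : ∑ j ∈ range n, 8 ^ (j + 1) * d (j + 1) = 8 * ∑ j ∈ range n, 8 ^ j * d (j + 1) := by
      rw [mul_sum]; exact sum_congr rfl fun j _ => by ring
    have h0 := abs_le.1 (hd 0)
    rw [e, pow_zero, one_mul] at h
    intro j hj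
    cases j with
    | zero => omega
    | succ j => exact ih (fun j => d (j + 1)) (fun j => hd _) (by omega) j (by omega)

end Pool.Agent.H30.Eqc
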