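import Pool.Agent.H30.EqcC
import Pool.Agent.H38.ER.Big
import Pool.Agent.Lead.Ham.One3

/-!
The reduction from one-in-three satisfiability.
-/

namespace Pool.Agent.H30.Eqc

open Finset Pool.Agent.H38.NP Pool.Agent.H38.ER Pool.Agent.Lead.Ham

def nv (φ : F3) : ℕ := ((List.range (3 * φ.length)).map fun o => (litAt φ o).1).sum + 64

def idx (l : Lit) : ℕ := 2 * l.1 + l.2.toNat

def pos (φ : F3) (j k : ℕ) : ℕ :=
  if j < nv φ + 1 then 2 * j + k % 2 else
    if k = 3 then 2 * nv φ + 1 else idx (litAt φ (3 * (j - (nv φ + 1)) + k))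

def bb (φ : F3) (i : ℕ) : ℤ :=
  ((List.range (nv φ + 1 + φ.length)).map fun j => (List.replicate j (8 : ℤ)).prod *
    ((List.range 4).map fun k => if pos φ j k = i then (1 : ℤ) else 0).sum).sum

def MM (φ : F3) : ℤ := 2 * ((List.range (2 * (nv φ + 1))).map (bb φ)).sum + 1

def yy (φ : F3) (i : ℕ) : ℤ :=
  if i < 2 * (nv φ + 1) then 2 * (2 * MM φ + bb φ i) else 6 * MM φ

def red (φ : F3) : List Bin :=
  (List.range (2 * (nv φ + 1) + 2)).map fun i => Bin.mk (yy φ i + 1).toNat

section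
variable {α : Type} [Enc α] {φ : α → F3} {y z : α → ℕ}
@[fun_prop] theorem pt_nv (h : PT φ) : PT fun a => nv (φ a) := by unfold nv; fun_prop
@[fun_prop] theorem pt_ps (h : PT φ) (hy : PT y) (hz : PT z) : PT fun a => pos (φ a) (y a) (z a) := by
  unfold pos idx; fun_prop
@[fun_prop] theorem pt_bb (h : PT φ) (hy : PT y) : PT fun a => bb (φ a) (y a) := by
  unfold bb; fun_prop
@[fun_prop] theorem pt_MM (h : PT φ) : PT fun a => MM (φ a) := by unfold MM; fun_prop
@[fun_prop] theorem pt_yy (h : PT φ) (hy : PT y) : PT fun a => yy (φ a) (y a) := by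
  unfold yy; fun_prop
theorem pt_red : PT red :=
  PT.map (f := fun φ i => Bin.mk (yy φ i + 1).toNat) (pt_pos (by fun_prop)) (by fun_prop)
end

theorem lsum {β : Type} [AddCommMonoid β] (n : ℕ) (f : ℕ → β) :
    ((List.range n).map f).sum = ∑ i ∈ range n, f i := rfl

theorem bb_eq (φ i) : bb φ i = ∑ j ∈ range (nv φ + 1 + φ.length),
    8 ^ j * ∑ k ∈ range 4, if pos φ j k = i then (1 : ℤ) else 0 := by
  simp only [bb, lsum, List.prod_replicate]

theorem bb_nonneg (φ i) : 0 ≤ bb φ i := by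
  rw [bb_eq]
  exact sum_nonneg fun j _ => mul_nonneg (by positivity)
    (sum_nonneg fun k _ => by split_ifs <;> simp)

theorem MM_eq (φ) : MM φ = 2 * ∑ i ∈ range (2 * (nv φ + 1)), bb φ i + 1 := by
  simp only [MM, lsum]

theorem MM_pos (φ) : 1 ≤ MM φ := by
  have : 0 ≤ ∑ i ∈ range (2 * (nv φ + 1)), bb φ i := sum_nonneg fun i _ => bb_nonneg φ i
  rw [MM_eq]; linarith

theorem yy_nonneg (φ i) : 0 ≤ yy φ i := by
  have := MM_pos φ
  have := bb_nonneg φ i
  unfold yy; split_ifs <;> linarith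

theorem lit_lt (φ : F3) {o} (h : o < 3 * φ.length) : (litAt φ o).1 < nv φ := by
  have := single_le_sum (f := fun o => (litAt φ o).1) (fun _ _ => Nat.zero_le _) (mem_range.2 h)
  rw [nv, lsum]; omega

theorem pos_lt (φ : F3) {j k} (hj : j < nv φ + 1 + φ.length) (hk : k < 4) :
    pos φ j k < 2 * (nv φ + 1) := by
  unfold pos; split_ifs
  · omega
  · omega
  · have := lit_lt φ (o := 3 * (j - (nv φ + 1)) + k) (by omega)
    have := Bool.toNat_le (litAt φ (3 * (j - (nv φ + 1)) + k)).2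
    unfold idx; omega

theorem dsum (φ : F3) (ε : ℕ → ℤ) : ∑ i ∈ range (2 * (nv φ + 1)), ε i * bb φ i =
    ∑ j ∈ range (nv φ + 1 + φ.length), 8 ^ j * ∑ k ∈ range 4, ε (pos φ j k) := by
  simp only [bb_eq, mul_sum]
  rw [sum_comm]
  refine sum_congr rfl fun j hj => ?_
  rw [sum_comm]
  refine sum_congr rfl fun k hk => ?_
  simp only [mul_ite, mul_one, mul_zero]
  rw [sum_ite_eq, if_pos (mem_range.2 (pos_lt φ (mem_range.1 hj) (mem_range.1 hk))), mul_comm]

theorem ysum (φ : F3) (ε : ℕ → ℤ) : ∑ i ∈ range (2 * (nv φ + 1) + 2), ε i * yy φ i =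
    2 * (MM φ * (2 * ∑ i ∈ range (2 * (nv φ + 1)), ε i +
      3 * (ε (2 * (nv φ + 1)) + ε (2 * (nv φ + 1) + 1))) +
      ∑ i ∈ range (2 * (nv φ + 1)), ε i * bb φ i) := by
  rw [sum_range_succ, sum_range_succ]
  have : ∑ i ∈ range (2 * (nv φ + 1)), ε i * yy φ i =
      4 * MM φ * ∑ i ∈ range (2 * (nv φ + 1)), ε i +
        2 * ∑ i ∈ range (2 * (nv φ + 1)), ε i * bb φ i := by
    rw [mul_sum, mul_sum, ← sum_add_distrib]
    exact sum_congr rfl fun i hi => by rw [yy, if_pos (mem_range.1 hi)]; ring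
  rw [this, yy, yy, if_neg (by omega), if_neg (by omega)]; ring

theorem fwd (φ : F3) (h : One3 φ) :
    ∃ ε : ℕ → ℤ, Sg ε ∧ ∑ i ∈ range (2 * (nv φ + 1) + 2), ε i * yy φ i = 0 := by
  obtain ⟨a, ha⟩ := (one3_iff φ).1 h
  let ε : ℕ → ℤ := fun i =>
    if (Function.update a (nv φ) true (i / 2)).toNat = i % 2 then 1 else -1
  have e1 : ∀ v, ε (2 * v) + ε (2 * v + 1) = 0 := fun v => by
    simp only [ε, show 2 * v / 2 = v by omega, show (2 * v + 1) / 2 = v by omega,
      show 2 * v % 2 = 0 by omega, show (2 * v + 1) % 2 = 1 by omega]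
    cases Function.update a (nv φ) true v <;> simp
  have e2 : ∀ n, ∑ i ∈ range (2 * n), ε i = 0 := fun n => by
    induction n with
    | zero => simp
    | succ n ih => rw [mul_add, mul_one, sum_range_succ, sum_range_succ, ih]; linarith [e1 n]
  have e3 : ε (2 * nv φ + 1) = 1 := by
    simp [ε, show (2 * nv φ + 1) / 2 = nv φ by omega, show (2 * nv φ + 1) % 2 = 1 by omega]
  have e4 : ∀ l : Lit, l.1 < nv φ → ε (idx l) = 2 * ((a l.1 == l.2).toNat : ℤ) - 1 := by
    rintro ⟨v, s⟩ hv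
    have := Bool.toNat_le s
    simp only [ε, idx, show (2 * v + s.toNat) / 2 = v by omega,
      show (2 * v + s.toNat) % 2 = s.toNat by omega, Function.update_of_ne hv.ne]
    cases a v <;> cases s <;> simp
  refine ⟨ε, fun i => by simp only [ε]; split_ifs <;> simp, ?_⟩
  rw [ysum, e2, e1, dsum, sum_eq_zero]
  · simp
  intro j hj
  have hj' := mem_range.1 hj
  refine mul_eq_zero_of_right _ ?_
  simp only [sum_range_succ, range_zero, sum_empty, pos]
  by_cases c : j < nv φ + 1
  · simp only [if_pos c]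
    norm_num
    linarith [e1 j]
  · simp only [if_neg c]
    norm_num
    have := ha (j - (nv φ + 1)) (by omega)
    rw [e3, e4 _ (lit_lt φ (by omega)), e4 _ (lit_lt φ (by omega)), e4 _ (lit_lt φ (by omega))]
    unfold Ex1 at this
    omega

theorem bwd (φ : F3) (ε : ℕ → ℤ) (hε : Sg ε)
    (h : |∑ i ∈ range (2 * (nv φ + 1) + 2), ε i * yy φ i| ≤ 1) : One3 φ := by
  rw [ysum] at h
  have q : |∑ i ∈ range (2 * (nv φ + 1)), ε i * bb φ i| ≤ ∑ i ∈ range (2 * (nv φ + 1)), bb φ i := by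
    refine (abs_sum_le_sum_abs _ _).trans (sum_le_sum fun i _ => ?_)
    rcases hε i with h | h <;> simp [h, abs_of_nonneg (bb_nonneg φ i)]
  have D0 : ∑ i ∈ range (2 * (nv φ + 1)), ε i * bb φ i = 0 := by
    have hM := MM_eq φ
    generalize 2 * ∑ i ∈ range (2 * (nv φ + 1)), ε i +
      3 * (ε (2 * (nv φ + 1)) + ε (2 * (nv φ + 1) + 1)) = z at h
    generalize ∑ i ∈ range (2 * (nv φ + 1)), ε i * bb φ i = D at *
    generalize ∑ i ∈ range (2 * (nv φ + 1)), bb φ i = B at *
    generalize MM φ = M at *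
    rw [abs_le] at h q
    have h0 : M * z + D = 0 := by omega
    rcases lt_trichotomy z 0 with hz | hz | hz
    · have := mul_le_mul_of_nonneg_left (show z ≤ -1 by omega) (show 0 ≤ M by omega)
      omega
    · subst hz; omega
    · have := mul_le_mul_of_nonneg_left (show 1 ≤ z by omega) (show 0 ≤ M by omega)
      omega
  rw [dsum] at D0
  have dz := digits_zero _ _ (fun j => by
    simp only [sum_range_succ, range_zero, sum_empty]
    have := hε (pos φ j 0)
    have := hε (pos φ j 1)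
    have := hε (pos φ j 2)
    have := hε (pos φ j 3)
    rw [abs_le]; omega) D0
  simp only [sum_range_succ, range_zero, sum_empty, pos] at dz
  have e1 : ∀ v < nv φ + 1, ε (2 * v) + ε (2 * v + 1) = 0 := fun v hv => by
    have := dz v (by omega)
    simp only [if_pos hv] at this
    norm_num at this
    linarith
  refine (one3_iff φ).2 ⟨fun v => decide (ε (2 * v + 1) = ε (2 * nv φ + 1)), fun c hc => ?_⟩
  have e4 : ∀ l : Lit, l.1 < nv φ →
      ((decide (ε (2 * l.1 + 1) = ε (2 * nv φ + 1)) == l.2).toNat : ℤ) =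
        if ε (idx l) = ε (2 * nv φ + 1) then 1 else 0 := by
    rintro ⟨v, s⟩ hv
    have x1 := e1 v (by omega)
    have x2 := hε (2 * v + 1)
    have x3 := hε (2 * nv φ + 1)
    cases s
    · have x4 : ε (2 * v) = -ε (2 * v + 1) := by linarith
      simp only [idx, Bool.toNat_false, add_zero, x4]
      rcases x2 with x2 | x2 <;> rcases x3 with x3 | x3 <;> simp [x2, x3]
    · simp only [idx, Bool.toNat_true]
      rcases x2 with x2 | x2 <;> rcases x3 with x3 | x3 <;> simp [x2, x3]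
  have d := dz (nv φ + 1 + c) (by omega)
  simp only [if_neg (show ¬ nv φ + 1 + c < nv φ + 1 by omega), Nat.add_sub_cancel_left] at d
  norm_num at d
  have a0 := e4 _ (lit_lt φ (o := 3 * c) (by omega))
  have a1 := e4 _ (lit_lt φ (o := 3 * c + 1) (by omega))
  have a2 := e4 _ (lit_lt φ (o := 3 * c + 2) (by omega))
  have b0 := hε (idx (litAt φ (3 * c)))
  have b1 := hε (idx (litAt φ (3 * c + 1)))
  have b2 := hε (idx (litAt φ (3 * c + 2)))
  have b3 := hε (2 * nv φ + 1)
  unfold Ex1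
  beta_reduce
  split_ifs at a0 a1 a2 <;> omega

theorem red_iff (φ : F3) (n : ℕ) (hn : n = 2 * (nv φ + 1) + 2) (m : Fin n → ℕ)
    (hm : ∀ i, (m i : ℤ) - 1 = yy φ i) : One3 φ ↔ EqChoosable (starsG m) 2 := by
  subst hn
  constructor
  · intro h
    obtain ⟨ε, hε, e⟩ := fwd φ h
    have c1 : (univ.filter fun i : Fin (2 * (nv φ + 1) + 2) => i.val < 2 * (nv φ + 1)).card =
        2 * (nv φ + 1) := by rw [Fin.card_filter_val_lt]; omega
    refine family m (univ.filter fun i => i.val < 2 * (nv φ + 1)) (fun i => 2 * bb φ i)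
      (2 * MM φ) (fun i => by linarith [bb_nonneg φ i]) ?_ (fun i hi => ?_) (fun i hi => ?_) ?_ ?_
      ⟨fun i => ε i, fun i => hε i, ?_⟩
    · rw [sum_filter, Fin.sum_univ_eq_sum_range
        (fun i => if i < 2 * (nv φ + 1) then 2 * bb φ i else 0), sum_range_succ, sum_range_succ,
        if_neg (by omega), if_neg (by omega),
        sum_congr rfl fun i hi => if_pos (mem_range.1 hi), ← mul_sum, MM_eq]
      linarith
    · rw [hm, yy, if_pos (mem_filter.1 hi).2]; ring
    · rw [hm, yy, if_neg fun h => hi (mem_filter.2 ⟨mem_univ _, h⟩)]; ring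
    · rw [c1, nv]; omega
    · rw [card_compl, c1]; simp
    · simp only [hm]
      rw [Fin.sum_univ_eq_sum_range (fun i => ε i * yy φ i), e]
  · intro h
    obtain ⟨τ, hτ, e⟩ := signs_of m h
    refine bwd φ (fun i => if h : i < 2 * (nv φ + 1) + 2 then τ ⟨i, h⟩ else 1) (fun i => ?_) ?_
    · dsimp only; split_ifs
      · exact hτ _
      · exact Or.inl rfl
    · rw [← Fin.sum_univ_eq_sum_range
        (fun i => (if h : i < 2 * (nv φ + 1) + 2 then τ ⟨i, h⟩ else 1) * yy φ i)]
      simpa only [hm, Fin.is_lt, dite_true] using e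

theorem stars_nph : NPH (fun l : List Bin => l ≠ [] ∧ ∀ m ∈ l, 1 ≤ m.val)
    fun l => EqChoosable (stars l) 2 := by
  refine one3_nph.reduce red pt_red fun φ _ => ⟨⟨by simp [red], ?_⟩, ?_⟩
  · simp only [red, List.mem_map]
    rintro _ ⟨i, -, rfl⟩
    have := yy_nonneg φ i
    dsimp only; omega
  · refine red_iff φ _ (by simp [red]) _ fun i => ?_
    have := yy_nonneg φ i
    simp only [red, List.get_eq_getElem, List.getElem_map, List.getElem_range]
    omega

end Pool.Agent.H30.Eqc
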