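import Pool.Agent.H38.NP.Defs

/-!
Equitable choosability and disjoint unions of stars.
-/

namespace Pool.Agent.H30.Eqc

open Finset Pool.Agent.H38.NP

/-- `G` is equitably `k`-choosable: for every assignment of lists of exactly `k` colours there is
a proper colouring from the lists that uses each colour on at most `⌈|V| / k⌉` vertices. -/
def EqChoosable {V : Type} [Fintype V] (G : SimpleGraph V) (k : ℕ) : Prop :=
  ∀ L : V → Finset ℕ, (∀ v, (L v).card = k) →
    ∃ f : V → ℕ, (∀ v, f v ∈ L v) ∧ (∀ u v, G.Adj u v → f u ≠ f v) ∧
      ∀ c, (univ.filter fun v => f v = c).card ≤ Fintype.card V ⌈/⌉ k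

/-- The disjoint union of the stars `K_{1, m i}`: the vertex `⟨i, none⟩` is the centre of the star
number `i`, the vertices `⟨i, some j⟩` are its leaves. -/
def starsG {ι : Type} (m : ι → ℕ) : SimpleGraph (Σ i : ι, Option (Fin (m i))) :=
  SimpleGraph.fromRel fun x y => x.1 = y.1 ∧ x.2 = none ∧ y.2 ≠ none

/-- The disjoint union of stars given by a list of binary numbers. -/
def stars (l : List Bin) : SimpleGraph (Σ i : Fin l.length, Option (Fin (l.get i).val)) :=
  starsG fun i => (l.get i).val

end Pool.Agent.H30.Eqc
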