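import Pool.Agent.H30.EulDefs

set_option autoImplicit false
open Classical

namespace Pool.Agent.H30.Eul
open Pool.Agent.H30.EulDefs

variable {V : Type} [Fintype V]

noncomputable def sg (D : V → V → Prop) (σ : V → ℕ) : ℤ :=
  (-1) ^ (Finset.univ.filter fun p : V × V => D p.1 p.2 ∧ σ p.2 < σ p.1).card

theorem sg_prod (D : V → V → Prop) (σ : V → ℕ) :
    sg D σ = ∏ p : V × V, if D p.1 p.2 ∧ σ p.2 < σ p.1 then (-1 : ℤ) else 1 := by
  rw [sg, Finset.prod_ite]; simp

theorem sg_sq (D : V → V → Prop) (σ : V → ℕ) : sg D σ * sg D σ = 1 := by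
  rw [sg, ← pow_add, ← two_mul, pow_mul]; simp

theorem eulerAt_eq (D : V → V → Prop) {n : ℕ} (h : Fintype.card V = n) :
    eulerAt D (-1) = ∑ σ : V ≃ Fin n, sg D (fun v => σ v) := by
  subst h
  rfl

theorem split_card {α : Type} [Fintype α] (A B : α → Prop) [DecidablePred A]
    [DecidablePred fun x => A x ∧ B x] [DecidablePred fun x => A x ∧ ¬ B x] :
    (Finset.univ.filter A).card = (Finset.univ.filter fun x => A x ∧ B x).card +
      (Finset.univ.filter fun x => A x ∧ ¬ B x).card := by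
  rw [← Finset.card_filter_add_card_filter_not (s := Finset.univ.filter A) B,
    Finset.filter_filter, Finset.filter_filter]
  congr

theorem kalai {G : SimpleGraph V} {D D' : V → V → Prop} (h : IsOrientation G D)
    (h' : IsOrientation G D') : ∃ c : ℤ, |c| = 1 ∧ ∀ σ : V → ℕ, Function.Injective σ →
      sg D σ = c * sg D' σ := by
  refine ⟨(-1) ^ (Finset.univ.filter fun p : V × V => D p.1 p.2 ∧ ¬ D' p.1 p.2).card, by simp, ?_⟩
  intro σ hσ
  have e1 : (Finset.univ.filter fun p : V × V => D p.1 p.2 ∧ σ p.2 < σ p.1).card =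
      (Finset.univ.filter fun p : V × V => (D p.1 p.2 ∧ σ p.2 < σ p.1) ∧ D' p.1 p.2).card +
      (Finset.univ.filter fun p : V × V => (D p.1 p.2 ∧ σ p.2 < σ p.1) ∧ ¬ D' p.1 p.2).card := by
    apply split_card
  have e2 : (Finset.univ.filter fun p : V × V => D' p.1 p.2 ∧ σ p.2 < σ p.1).card =
      (Finset.univ.filter fun p : V × V => (D' p.1 p.2 ∧ σ p.2 < σ p.1) ∧ D p.1 p.2).card +
      (Finset.univ.filter fun p : V × V => (D' p.1 p.2 ∧ σ p.2 < σ p.1) ∧ ¬ D p.1 p.2).card := by
    apply split_card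
  have e3 : (Finset.univ.filter fun p : V × V => D p.1 p.2 ∧ ¬ D' p.1 p.2).card =
      (Finset.univ.filter fun p : V × V => (D p.1 p.2 ∧ ¬ D' p.1 p.2) ∧ σ p.2 < σ p.1).card +
      (Finset.univ.filter fun p : V × V => (D p.1 p.2 ∧ ¬ D' p.1 p.2) ∧ ¬ σ p.2 < σ p.1).card := by
    apply split_card
  have e4 : (Finset.univ.filter fun p : V × V => (D' p.1 p.2 ∧ σ p.2 < σ p.1) ∧ D p.1 p.2).card =
      (Finset.univ.filter fun p : V × V => (D p.1 p.2 ∧ σ p.2 < σ p.1) ∧ D' p.1 p.2).card := by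
    congr 1; ext p; simp only [Finset.mem_filter]; tauto
  have e5 : (Finset.univ.filter fun p : V × V => (D p.1 p.2 ∧ ¬ D' p.1 p.2) ∧ σ p.2 < σ p.1).card =
      (Finset.univ.filter fun p : V × V => (D p.1 p.2 ∧ σ p.2 < σ p.1) ∧ ¬ D' p.1 p.2).card := by
    congr 1; ext p; simp only [Finset.mem_filter]; tauto
  have e6 : (Finset.univ.filter fun p : V × V => (D' p.1 p.2 ∧ σ p.2 < σ p.1) ∧ ¬ D p.1 p.2).card =
      (Finset.univ.filter fun p : V × V => (D p.1 p.2 ∧ ¬ D' p.1 p.2) ∧ ¬ σ p.2 < σ p.1).card := by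
    apply Finset.card_equiv (Equiv.prodComm V V)
    rintro ⟨u, w⟩
    simp only [Finset.mem_filter, Finset.mem_univ, true_and, Equiv.prodComm_apply, Prod.swap_prod_mk]
    have a1 := h.1 u w
    have a2 := h'.1 u w
    have a3 := h.2 u w
    have a4 := h'.2 u w
    have a5 := h.2 w u
    have a6 := h'.2 w u
    have a7 : G.Adj u w → σ u ≠ σ w := fun hh h2 => hh.ne (hσ h2)
    constructor
    · rintro ⟨⟨b1, b2⟩, b3⟩
      refine ⟨⟨by tauto, by tauto⟩, by omega⟩
    · rintro ⟨⟨b1, b2⟩, b3⟩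
      have := a7 (by tauto)
      refine ⟨⟨by tauto, by omega⟩, by tauto⟩
  rw [sg, sg, e1, e2, e3, e4, e5, e6]
  simp only [pow_add]
  set x := (-1 : ℤ) ^ (Finset.univ.filter
    fun p : V × V => (D p.1 p.2 ∧ ¬ D' p.1 p.2) ∧ ¬ σ p.2 < σ p.1).card with hx
  have : x * x = 1 := by rw [hx, ← pow_add, ← two_mul, pow_mul]; simp
  linear_combination (-((-1 : ℤ) ^ (Finset.univ.filter
    fun p : V × V => (D p.1 p.2 ∧ σ p.2 < σ p.1) ∧ D' p.1 p.2).card * (-1 : ℤ) ^ (Finset.univ.filter
    fun p : V × V => (D p.1 p.2 ∧ σ p.2 < σ p.1) ∧ ¬ D' p.1 p.2).card)) * this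

theorem inc_card {G : SimpleGraph V} {D : V → V → Prop} (h : IsOrientation G D) (x : V) :
    (Finset.univ.filter fun p : V × V => D p.1 p.2 ∧ (p.1 = x ∨ p.2 = x)).card = G.degree x := by
  rw [← SimpleGraph.card_neighborFinset_eq_degree]
  symm
  apply Finset.card_bij (fun u _ => if D x u then (x, u) else (u, x))
  · intro u hu
    rw [SimpleGraph.mem_neighborFinset] at hu
    have := (h.1 x u).1 hu
    split_ifs with h1 <;> simp <;> tauto
  · intro u hu w hw huw
    rw [SimpleGraph.mem_neighborFinset] at hu hw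
    split_ifs at huw with h1 h2 h2 <;> simp only [Prod.mk.injEq] at huw
    · exact huw.2
    · exact absurd huw.1 hw.ne
    · exact absurd huw.1 hu.ne'
    · exact huw.1
  · rintro ⟨u, w⟩ hp
    simp only [Finset.mem_filter, Finset.mem_univ, true_and] at hp
    obtain ⟨h1, rfl | rfl⟩ := hp
    · exact ⟨w, by rw [SimpleGraph.mem_neighborFinset, h.1]; tauto, by simp [h1]⟩
    · exact ⟨u, by rw [SimpleGraph.mem_neighborFinset, h.1]; tauto, by simp [h.2 _ _ h1]⟩

theorem rot {G : SimpleGraph V} {D : V → V → Prop} (h : IsOrientation G D)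
    (he : ∀ v, Even (G.degree v)) {m : ℕ} (σ : V ≃ Fin (m + 1)) :
    sg D (fun v => (σ.trans (finRotate (m + 1))) v) = sg D (fun v => σ v) := by
  have key : sg D (fun v => (σ.trans (finRotate (m + 1))) v) * sg D (fun v => σ v) = 1 := by
    rw [sg_prod, sg_prod, ← Finset.prod_mul_distrib]
    have e : (∏ p : V × V, if D p.1 p.2 ∧ (p.1 = σ.symm (Fin.last m) ∨ p.2 = σ.symm (Fin.last m))
        then (-1 : ℤ) else 1) = 1 := by
      rw [Finset.prod_ite]
      simp only [Finset.prod_const, one_pow, mul_one]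
      rw [inc_card h, (he _).neg_one_pow]
    refine Eq.trans ?_ e
    apply Finset.prod_congr rfl
    rintro ⟨u, w⟩ -
    by_cases hD : D u w
    · have hne : σ u ≠ σ w := fun h2 => ((h.1 u w).2 (Or.inl hD)).ne (σ.injective h2)
      have hne' : (σ u : ℕ) ≠ σ w := fun h2 => hne (Fin.ext h2)
      have r : ∀ a : Fin (m + 1), ((finRotate (m + 1) a : Fin (m + 1)) : ℕ) =
          if (a : ℕ) = m then (0 : ℕ) else (a : ℕ) + 1 := by
        intro a
        rw [coe_finRotate]
        simp [Fin.ext_iff]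
      have s : ∀ v, v = σ.symm (Fin.last m) ↔ (σ v : ℕ) = m := by
        intro v
        rw [Equiv.eq_symm_apply, Fin.ext_iff, Fin.val_last]
      have b1 := (σ u).2
      have b2 := (σ w).2
      simp only [hD, true_and, Equiv.trans_apply, r, s]
      split_ifs <;> omega
    · simp [hD]
  have := sg_sq D (fun v => σ v)
  linear_combination (sg D (fun v => σ v)) * key -
    sg D (fun v => (σ.trans (finRotate (m + 1))) v) * this

noncomputable def S (D : V → V → Prop) {m : ℕ} (v : V) (k : Fin (m + 1)) : ℤ :=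
  ∑ σ ∈ Finset.univ.filter (fun σ : V ≃ Fin (m + 1) => σ v = k), sg D (fun v => σ v)

theorem S_rot {G : SimpleGraph V} {D : V → V → Prop} (h : IsOrientation G D)
    (he : ∀ v, Even (G.degree v)) {m : ℕ} (v : V) (k : Fin (m + 1)) :
    S D v (finRotate (m + 1) k) = S D v k := by
  unfold S
  symm
  apply Finset.sum_equiv (Equiv.equivCongr (Equiv.refl V) (finRotate (m + 1)))
  · intro σ
    simp
  · intro σ _
    rw [← rot h he σ]
    rfl

theorem S_const {G : SimpleGraph V} {D : V → V → Prop} (h : IsOrientation G D)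
    (he : ∀ v, Even (G.degree v)) {m : ℕ} (v : V) (k : Fin (m + 1)) :
    S D v k = S D v (0 : Fin (m + 1)) := by
  induction k using Fin.induction with
  | zero => rfl
  | succ i ih =>
    rw [← ih, ← S_rot h he v i.castSucc]
    congr 1
    rw [finRotate_apply, Fin.coeSucc_eq_succ]

theorem total {G : SimpleGraph V} {D : V → V → Prop} (h : IsOrientation G D)
    (he : ∀ v, Even (G.degree v)) {m : ℕ} (hm : Fintype.card V = m + 1) (v : V) :
    eulerAt D (-1) = (m + 1) * S D v (Fin.last m) := by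
  rw [eulerAt_eq D hm, ← Finset.sum_fiberwise (s := Finset.univ)
    (g := fun σ : V ≃ Fin (m + 1) => σ v)]
  have : ∀ k : Fin (m + 1), S D v k = S D v (Fin.last m) := fun k => by
    rw [S_const h he, S_const h he v (Fin.last m)]
  change ∑ k : Fin (m + 1), S D v k = _
  simp [this]

theorem S_last {G : SimpleGraph V} {D : V → V → Prop} (h : IsOrientation G D) {m : ℕ}
    (hm : Fintype.card V = m + 1) (v : V) :
    |S D v (Fin.last m)| = |eulerAt (fun a b : {u // u ≠ v} => D a.1 b.1) (-1)| := by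
  have hc : Fintype.card {u // u ≠ v} = m := by
    rw [Fintype.card_subtype_compl, hm]; simp
  rw [eulerAt_eq _ hc]
  let Φ : ({u // u ≠ v} ≃ Fin m) → (V ≃ Fin (m + 1)) := fun τ =>
    (Equiv.optionSubtypeNe v).symm.trans ((Equiv.optionCongr τ).trans finSuccEquivLast.symm)
  have Φv : ∀ τ, Φ τ v = Fin.last m := by intro τ; simp [Φ]
  have Φu : ∀ τ (u : {u // u ≠ v}), Φ τ u.1 = (τ u).castSucc := by
    intro τ u
    simp [Φ, Equiv.optionSubtypeNe_symm_of_ne u.2]
  have e : S D v (Fin.last m) = ∑ τ : {u // u ≠ v} ≃ Fin m, sg D (fun a => Φ τ a) := by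
    unfold S
    symm
    apply Finset.sum_bij (fun τ _ => Φ τ)
    · intro τ _; simp [Φv]
    · intro τ _ τ' _ hh
      ext u
      have := Φu τ u
      rw [hh, Φu] at this
      rw [Fin.castSucc_injective _ this]
    · intro σ hσ
      simp only [Finset.mem_filter, Finset.mem_univ, true_and] at hσ
      have hne : ∀ u : {u // u ≠ v}, σ u.1 ≠ Fin.last m := fun u h2 =>
        u.2 (σ.injective (h2.trans hσ.symm))
      have hb : Function.Bijective (fun u : {u // u ≠ v} => (σ u.1).castPred (hne u)) := by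
        rw [Fintype.bijective_iff_injective_and_card]
        refine ⟨fun a b hab => ?_, by simp [hc]⟩
        have := congrArg Fin.castSucc hab
        simp only [Fin.castSucc_castPred] at this
        exact Subtype.ext (σ.injective this)
      refine ⟨Equiv.ofBijective _ hb, Finset.mem_univ _, ?_⟩
      ext a
      by_cases ha : a = v
      · rw [ha, Φv, hσ]
      · rw [Φu _ ⟨a, ha⟩]; simp
    · intro τ _; rfl
  have e2 : ∀ τ, sg D (fun a => Φ τ a) =
      (-1) ^ (Finset.univ.filter fun p : V × V => D p.1 p.2 ∧ p.1 = v).card *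
      sg (fun a b : {u // u ≠ v} => D a.1 b.1) (fun a => τ a) := by
    intro τ
    rw [sg, sg, ← pow_add]
    congr 1
    rw [← Finset.card_filter_add_card_filter_not (fun p : V × V => p.1 = v)]
    congr 1
    · congr 1
      ext ⟨a, b⟩
      simp only [Finset.mem_filter, Finset.mem_univ, true_and]
      constructor
      · tauto
      · rintro ⟨h1, rfl⟩
        refine ⟨⟨h1, ?_⟩, rfl⟩
        have hb : b ≠ a := ((h.1 a b).2 (Or.inl h1)).ne'
        rw [Φv, Φu _ ⟨b, hb⟩]
        simp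
    · symm
      apply Finset.card_bij (fun p _ => (p.1.1, p.2.1))
      · rintro ⟨a, b⟩ hp
        simp only [Finset.mem_filter, Finset.mem_univ, true_and] at hp ⊢
        rw [Φu, Φu]
        exact ⟨⟨hp.1, by simpa using hp.2⟩, a.2⟩
      · rintro ⟨a, b⟩ _ ⟨c, d⟩ _ hh
        simp only [Prod.mk.injEq] at hh ⊢
        exact ⟨Subtype.ext hh.1, Subtype.ext hh.2⟩
      · rintro ⟨a, b⟩ hp
        simp only [Finset.mem_filter, Finset.mem_univ, true_and] at hp
        have hb : b ≠ v := by
          rintro rfl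
          have := hp.1.2
          rw [Φv, Φu _ ⟨a, hp.2⟩] at this
          have := (τ ⟨a, hp.2⟩).2
          simp only [Fin.val_last, Fin.val_castSucc] at *
          omega
        refine ⟨(⟨a, hp.2⟩, ⟨b, hb⟩), ?_, rfl⟩
        simp only [Finset.mem_filter, Finset.mem_univ, true_and]
        obtain ⟨⟨p1, p2⟩, p3⟩ := hp
        rw [Φu _ ⟨a, p3⟩, Φu _ ⟨b, hb⟩] at p2
        exact ⟨p1, by simpa using p2⟩
  rw [e]
  simp only [e2]
  rw [← Finset.mul_sum, abs_mul]
  simp only [abs_pow, abs_neg, abs_one, one_pow, one_mul]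
  congr
  exact Subsingleton.elim _ _

theorem abs_indep {G : SimpleGraph V} {D D' : V → V → Prop} (h : IsOrientation G D)
    (h' : IsOrientation G D') : |eulerAt D (-1)| = |eulerAt D' (-1)| := by
  obtain ⟨c, hc, h2⟩ := kalai h h'
  rw [eulerAt_eq D rfl, eulerAt_eq D' rfl]
  rw [Finset.sum_congr rfl (fun σ _ => h2 (fun v => σ v) (Fin.val_injective.comp σ.injective)),
    ← Finset.mul_sum, abs_mul, hc, one_mul]

theorem main {G : SimpleGraph V} [Nonempty V] (he : ∀ v, Even (G.degree v)) {D : V → V → Prop}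
    (h : IsOrientation G D) (D' : ∀ v : V, {u // u ≠ v} → {u // u ≠ v} → Prop)
    (h' : ∀ v, IsOrientation (G.comap (Subtype.val : {u // u ≠ v} → V)) (D' v)) :
    |eulerAt D (-1)| = ∑ v : V, |eulerAt (D' v) (-1)| := by
  obtain ⟨m, hm⟩ : ∃ m, Fintype.card V = m + 1 :=
    ⟨Fintype.card V - 1, by have := Fintype.card_pos (α := V); omega⟩
  have e : ∀ v, |eulerAt D (-1)| = (m + 1) * |eulerAt (D' v) (-1)| := by
    intro v
    rw [total h he hm v, abs_mul, S_last h hm v, abs_of_nonneg (by positivity)]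
    congr 1
    exact abs_indep (G := G.comap (Subtype.val : {u // u ≠ v} → V))
      ⟨fun a b => h.1 a.1 b.1, fun a b => h.2 a.1 b.1⟩ (h' v)
  have e2 : ∑ v : V, |eulerAt D (-1)| = ∑ v : V, (m + 1) * |eulerAt (D' v) (-1)| :=
    Finset.sum_congr rfl fun v _ => e v
  rw [← Finset.mul_sum, Finset.sum_const, Finset.card_univ, hm, nsmul_eq_mul] at e2
  push_cast at e2
  exact mul_left_cancel₀ (by positivity) e2

end Pool.Agent.H30.Eul
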