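import Mathlib

set_option autoImplicit false
open Classical

namespace Pool.Agent.H30.EulDefs

/-- `D` is an orientation of `G`: every edge is directed in exactly one way. -/
def IsOrientation {V : Type} (G : SimpleGraph V) (D : V → V → Prop) : Prop :=
  (∀ u w, G.Adj u w ↔ D u w ∨ D w u) ∧ ∀ u w, D u w → ¬ D w u

/-- Number of `D`-descents of a bijective labelling. -/
noncomputable def des {V : Type} [Fintype V] (D : V → V → Prop)
    (σ : V ≃ Fin (Fintype.card V)) : ℕ :=
  (Finset.univ.filter fun p : V × V => D p.1 p.2 ∧ σ p.2 < σ p.1).card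

/-- The Eulerian polynomial of `D` evaluated at the integer `t`. -/
noncomputable def eulerAt {V : Type} [Fintype V] (D : V → V → Prop) (t : ℤ) : ℤ :=
  ∑ σ : V ≃ Fin (Fintype.card V), t ^ des D σ

end Pool.Agent.H30.EulDefs
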