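import Mathlib

set_option autoImplicit false

namespace Pool.Agent.H30.PermSum

def toL {n : ℕ} (σ : Equiv.Perm (Fin n)) : List ℕ := List.ofFn fun i => (σ i : ℕ)

theorem toL_getD {n : ℕ} (σ : Equiv.Perm (Fin n)) (i : ℕ) (h : i < n) :
    (toL σ).getD i 0 = σ ⟨i, h⟩ := by
  rw [List.getD_eq_getElem _ _ (by simpa [toL] using h)]
  simp [toL]

theorem sum_perm (n : ℕ) (F : List ℕ → ℕ) :
    ∑ σ : Equiv.Perm (Fin n), F (toL σ) = ((List.range n).permutations'.map F).sum := by
  have hnd : (List.range n).permutations'.Nodup :=
    (List.permutations_perm_permutations' _).nodup_iff.1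
      (List.nodup_permutations _ List.nodup_range)
  rw [← List.sum_toFinset _ hnd]
  apply Finset.sum_bij (fun σ _ => toL σ)
  · intro σ _
    rw [List.mem_toFinset, List.mem_permutations']
    apply (List.subperm_of_subset (List.nodup_ofFn.2 (Fin.val_injective.comp σ.injective))
      ?_).perm_of_length_le (by simp)
    intro x hx
    obtain ⟨i, rfl⟩ := List.mem_ofFn.1 hx
    exact List.mem_range.2 (σ i).2
  · intro σ _ τ _ h
    ext i
    exact congrFun (List.ofFn_injective h) i
  · intro l hl
    rw [List.mem_toFinset, List.mem_permutations'] at hl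
    have len : l.length = n := by simpa using hl.length_eq
    have hb : Function.Bijective (fun i : Fin n => (⟨l[(i : ℕ)]'(by rw [len]; exact i.2),
        List.mem_range.1 (hl.mem_iff.1 (List.getElem_mem _))⟩ : Fin n)) := by
      rw [← Finite.injective_iff_bijective]
      intro i j h
      simp only [Fin.mk.injEq] at h
      exact Fin.ext (((hl.nodup_iff.2 List.nodup_range).getElem_inj_iff).1 h)
    refine ⟨Equiv.ofBijective _ hb, Finset.mem_univ _, ?_⟩
    apply List.ext_getElem (by simp [toL, len])
    intro i h1 h2
    simp [toL]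
  · intro _ _; rfl

end Pool.Agent.H30.PermSum
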