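import Pool.Agent.H30.ExpDefs
import Pool.Agent.H30.PermSum

set_option autoImplicit false

namespace Pool.Agent.H30.Exp
open Pool.Agent.H30.ExpDefs Pool.Agent.H30.PermSum

def b (x y : ℕ) : ℕ := cond (Nat.blt x y) 1 0

theorem b_eq (x y : ℕ) : b x y = if x < y then 1 else 0 := by
  unfold b
  by_cases h : x < y
  · rw [show Nat.blt x y = true by rw [Nat.blt_eq]; exact h, if_pos h]; rfl
  · have : Nat.blt x y = false := by
      rw [← Bool.not_eq_true, Nat.blt_eq]; exact h
    rw [this, if_neg h]; rfl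

def invL : List ℕ → ℕ
  | [a0, a1, a2, a3, a4, a5, a6] => b a1 a0 + b a2 a0 + b a3 a0 + b a4 a0 + b a5 a0 + b a6 a0 + b a2 a1 + b a3 a1 + b a4 a1 + b a5 a1 + b a6 a1 + b a3 a2 + b a4 a2 + b a5 a2 + b a6 a2 + b a4 a3 + b a5 a3 + b a6 a3 + b a5 a4 + b a6 a4 + b a6 a5
  | _ => 0

def pat : Equiv.Perm (Fin 5) := Equiv.swap 0 3 * Equiv.swap 1 2

def occL : List ℕ → ℕ
  | [a0, a1, a2, a3, a4, a5, a6] => b a3 a2 * b a2 a1 * b a1 a0 * b a0 a4 + b a4 a3 * b a3 a2 * b a2 a1 * b a1 a5 + b a5 a4 * b a4 a3 * b a3 a2 * b a2 a6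
  | _ => 0

theorem toL7 (σ : Equiv.Perm (Fin 7)) :
    toL σ = [(σ 0 : ℕ), (σ 1 : ℕ), (σ 2 : ℕ), (σ 3 : ℕ), (σ 4 : ℕ), (σ 5 : ℕ), (σ 6 : ℕ)] := by
  simp [toL, List.ofFn_succ]

theorem inv_eq (σ : Equiv.Perm (Fin 7)) : inv σ = invL (toL σ) := by
  rw [toL7]
  unfold inv invL
  rw [Finset.card_filter, ← Finset.univ_product_univ, Finset.sum_product]
  simp only [Fin.sum_univ_seven, ite_and, Fin.reduceLT, if_true, if_false, lt_irrefl]
  simp only [b_eq, Fin.lt_def]
  ring

theorem occ_iff (σ : Equiv.Perm (Fin 7)) (i : ℕ) (h : i + 5 ≤ 7) : OccAt pat σ i ↔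
    σ ⟨i + 3, by omega⟩ < σ ⟨i + 2, by omega⟩ ∧ σ ⟨i + 2, by omega⟩ < σ ⟨i + 1, by omega⟩ ∧
    σ ⟨i + 1, by omega⟩ < σ ⟨i, by omega⟩ ∧ σ ⟨i, by omega⟩ < σ ⟨i + 4, by omega⟩ := by
  constructor
  · rintro ⟨_, h2⟩
    exact ⟨(h2 3 2).1 (by decide), (h2 2 1).1 (by decide), (h2 1 0).1 (by decide),
      (h2 0 4).1 (by decide)⟩
  · rintro ⟨h1, h2, h3, h4⟩
    refine ⟨h, fun x y => ?_⟩
    have e : ∀ z : Fin 5, (pat z : ℕ) = if (z : ℕ) = 4 then 4 else 3 - (z : ℕ) := by decide
    simp only [Fin.lt_def, e] at *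
    fin_cases x <;> fin_cases y <;> simp <;> omega

theorem occ_eq (σ : Equiv.Perm (Fin 7)) : occ pat σ = occL (toL σ) := by
  rw [toL7]
  unfold occ occL
  have n : ∀ i, 3 ≤ i → ¬ OccAt pat σ i := fun i hi h => by
    obtain ⟨h, -⟩ := h
    omega
  rw [Finset.card_filter]
  simp only [Finset.sum_range_succ, Finset.sum_range_zero, n 3, n 4, n 5, n 6, n 7, Nat.reduceLeDiff,
    le_refl, not_false_eq_true, if_false, occ_iff σ 0 (by omega), occ_iff σ 1 (by omega),
    occ_iff σ 2 (by omega), b_eq, ite_and, Fin.lt_def]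
  simp only [ite_mul, mul_ite, one_mul, mul_one, zero_mul, mul_zero, add_zero, zero_add]
  congr 1
  · congr 1 <;> split_ifs <;> simp_all
  · split_ifs <;> simp_all

theorem E_eq (m : ℕ) : E 7 m pat =
    ((((List.range 7).permutations'.map fun l => if invL l = m then occL l else 0).sum : ℕ) : ℚ) /
    ((((List.range 7).permutations'.map fun l => if invL l = m then 1 else 0).sum : ℕ) : ℚ) := by
  unfold E
  rw [← sum_perm, ← sum_perm, Finset.sum_filter, Finset.card_filter]
  simp only [inv_eq, occ_eq]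

theorem c1 : ((List.range 7).permutations'.map fun l => if invL l = 12 then occL l else 0).sum = 18 := by
  decide +kernel
theorem c2 : ((List.range 7).permutations'.map fun l => if invL l = 13 then occL l else 0).sum = 15 := by
  decide +kernel
theorem c3 : ((List.range 7).permutations'.map fun l => if invL l = 14 then occL l else 0).sum = 12 := by
  decide +kernel
theorem d1 : ((List.range 7).permutations'.map fun l => if invL l = 12 then 1 else 0).sum = 531 := by
  decide +kernel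
theorem d2 : ((List.range 7).permutations'.map fun l => if invL l = 13 then 1 else 0).sum = 455 := by
  decide +kernel
theorem d3 : ((List.range 7).permutations'.map fun l => if invL l = 14 then 1 else 0).sum = 359 := by
  decide +kernel

end Pool.Agent.H30.Exp
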