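import Mathlib

set_option autoImplicit false

namespace Pool.Agent.H30.ExpDefs

/-- Number of inversions. -/
def inv {n : ℕ} (σ : Equiv.Perm (Fin n)) : ℕ :=
  (Finset.univ.filter fun p : Fin n × Fin n => p.1 < p.2 ∧ σ p.2 < σ p.1).card

/-- `π` occurs consecutively in `σ` starting at position `i` (counted from `0`). -/
def OccAt {n k : ℕ} (π : Equiv.Perm (Fin k)) (σ : Equiv.Perm (Fin n)) (i : ℕ) : Prop :=
  ∃ h : i + k ≤ n, ∀ a b : Fin k,
    (π a < π b ↔ σ ⟨i + a, by omega⟩ < σ ⟨i + b, by omega⟩)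

instance {n k : ℕ} (π : Equiv.Perm (Fin k)) (σ : Equiv.Perm (Fin n)) : DecidablePred (OccAt π σ) :=
  fun _ => by unfold OccAt; infer_instance

/-- Number of consecutive occurrences. -/
def occ {n k : ℕ} (π : Equiv.Perm (Fin k)) (σ : Equiv.Perm (Fin n)) : ℕ :=
  ((Finset.range (n + 1)).filter (OccAt π σ)).card

/-- Expected number of occurrences in a uniform permutation of length `n` with `m` inversions. -/
def E (n m : ℕ) {k : ℕ} (π : Equiv.Perm (Fin k)) : ℚ :=
  ((∑ σ ∈ Finset.univ.filter (fun σ : Equiv.Perm (Fin n) => inv σ = m), occ π σ : ℕ) : ℚ) /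
    ((Finset.univ.filter fun σ : Equiv.Perm (Fin n) => inv σ = m).card : ℕ)

end Pool.Agent.H30.ExpDefs
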