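import Mathlib

/-! Free submonoids of a free monoid inside a factorial transitive rational language. -/

namespace Pool.Agent.H30.FreeSub

variable {A : Type}

/-- every factor of a word of `L` lies in `L` -/
def Factorial (L : Language A) : Prop := ∀ w ∈ L, ∀ u : List A, u <:+: w → u ∈ L

def Transitive (L : Language A) : Prop := ∀ u ∈ L, ∀ v ∈ L, ∃ w : List A, u ++ w ++ v ∈ L

def IsSub (M : Set (List A)) : Prop := [] ∈ M ∧ ∀ u ∈ M, ∀ v ∈ M, u ++ v ∈ M

/-- the minimal generating set: nonempty words of `M` that are not products of two such -/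
def base (M : Set (List A)) : Set (List A) :=
  {w | w ∈ M ∧ w ≠ [] ∧ ¬ ∃ u ∈ M, ∃ v ∈ M, u ≠ [] ∧ v ≠ [] ∧ w = u ++ v}

/-- a submonoid each element of which factors uniquely over its minimal generating set -/
def IsFree (M : Set (List A)) : Prop :=
  IsSub M ∧ ∀ w ∈ M, ∃! l : List (List A), (∀ x ∈ l, x ∈ base M) ∧ l.flatten = w

def MaxFree (L : Language A) (M : Set (List A)) : Prop :=
  IsFree M ∧ (∀ w ∈ M, w ∈ L) ∧ ∀ N : Set (List A), IsFree N → M ⊆ N → (∀ w ∈ N, w ∈ L) → N = M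

def Stable (M : Set (List A)) : Prop :=
  ∀ u v w, u ∈ M → v ∈ M → u ++ w ∈ M → w ++ v ∈ M → w ∈ M

theorem flat_mem {M : Set (List A)} (h : IsSub M) :
    ∀ l : List (List A), (∀ x ∈ l, x ∈ base M) → l.flatten ∈ M
  | [], _ => h.1
  | x :: l, hl => by
    rw [List.flatten_cons]
    exact h.2 _ (hl x (by simp)).1 _ (flat_mem h l fun y hy => hl y (by simp [hy]))

theorem stable_of_free {M : Set (List A)} (h : IsFree M) : Stable M := by
  intro u v w hu hv huw hwv
  obtain ⟨a, ⟨ha, ea⟩, -⟩ := h.2 u hu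
  obtain ⟨b, ⟨hb, eb⟩, -⟩ := h.2 v hv
  obtain ⟨c, ⟨hc, ec⟩, -⟩ := h.2 _ huw
  obtain ⟨d, ⟨hd, ed⟩, -⟩ := h.2 _ hwv
  have e : a ++ d = c ++ b := by
    refine (h.2 _ (h.1.2 _ hu _ hwv)).unique ⟨?_, by simp [ea, ed]⟩ ⟨?_, by simp [ec, eb]⟩
    · intro x hx
      rcases List.mem_append.1 hx with hx | hx
      exacts [ha x hx, hd x hx]
    · intro x hx
      rcases List.mem_append.1 hx with hx | hx
      exacts [hc x hx, hb x hx]
  rcases List.append_eq_append_iff.1 e with ⟨l, e1, -⟩ | ⟨l, e1, -⟩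
  · rw [e1, List.flatten_append, ea] at ec
    rw [← List.append_cancel_left ec]
    exact flat_mem h.1 l fun x hx => hc x (by simp [e1, hx])
  · rw [e1, List.flatten_append, ec, List.append_assoc] at ea
    have : w ++ l.flatten = [] := by simpa using ea
    rw [(List.append_eq_nil_iff.1 this).1]
    exact h.1.1

theorem fact_ex {M : Set (List A)} :
    ∀ n, ∀ w ∈ M, w.length < n → ∃ l : List (List A), (∀ x ∈ l, x ∈ base M) ∧ l.flatten = w
  | 0, _, _, h => absurd h (by omega)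
  | n + 1, w, hw, h => by
    by_cases h0 : w = []
    · exact ⟨[], by simp, by simp [h0]⟩
    by_cases hb : ∃ u ∈ M, ∃ v ∈ M, u ≠ [] ∧ v ≠ [] ∧ w = u ++ v
    · obtain ⟨u, hu, v, hv, u0, v0, rfl⟩ := hb
      have := List.length_pos_iff.2 u0
      have := List.length_pos_iff.2 v0
      rw [List.length_append] at h
      obtain ⟨a, ha, ea⟩ := fact_ex n u hu (by omega)
      obtain ⟨b, hb, eb⟩ := fact_ex n v hv (by omega)
      refine ⟨a ++ b, fun x hx => ?_, by simp [ea, eb]⟩
      rcases List.mem_append.1 hx with hx | hx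
      exacts [ha x hx, hb x hx]
    · exact ⟨[w], by simpa using ⟨hw, h0, hb⟩, by simp⟩

theorem fact_un {M : Set (List A)} (h : IsSub M) (hs : Stable M) :
    ∀ a b : List (List A), (∀ x ∈ a, x ∈ base M) → (∀ x ∈ b, x ∈ base M) →
      a.flatten = b.flatten → a = b
  | [], [], _, _, _ => rfl
  | [], y :: b, _, hb, e => by
    have := (hb y (by simp)).2.1
    simp only [List.flatten_nil, List.flatten_cons] at e
    exact absurd (List.append_eq_nil_iff.1 e.symm).1 this
  | x :: a, [], ha, _, e => by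
    have := (ha x (by simp)).2.1
    simp only [List.flatten_nil, List.flatten_cons] at e
    exact absurd (List.append_eq_nil_iff.1 e).1 this
  | x :: a, y :: b, ha, hb, e => by
    have hx := ha x (by simp)
    have hy := hb y (by simp)
    have ha' : ∀ z ∈ a, z ∈ base M := fun z hz => ha z (by simp [hz])
    have hb' : ∀ z ∈ b, z ∈ base M := fun z hz => hb z (by simp [hz])
    have fa := flat_mem h a ha'
    have fb := flat_mem h b hb'
    simp only [List.flatten_cons] at e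
    have : x = y := by
      rcases List.append_eq_append_iff.1 e with ⟨w, e1, e2⟩ | ⟨w, e1, e2⟩
      · have hw := hs x _ w hx.1 fb (e1 ▸ hy.1) (e2 ▸ fa)
        by_contra hne
        exact hy.2.2 ⟨x, hx.1, w, hw, hx.2.1, fun h0 => hne (by simp [e1, h0]), e1⟩
      · have hw := hs y _ w hy.1 fa (e1 ▸ hx.1) (e2 ▸ fb)
        by_contra hne
        exact hx.2.2 ⟨y, hy.1, w, hw, hy.2.1, fun h0 => hne (by simp [e1, h0]), e1⟩
    subst this
    rw [fact_un h hs a b ha' hb' (List.append_cancel_left e)]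

theorem free_of_stable {M : Set (List A)} (h : IsSub M) (hs : Stable M) : IsFree M := by
  refine ⟨h, fun w hw => ?_⟩
  obtain ⟨l, hl, e⟩ := fact_ex _ w hw (Nat.lt_succ_self _)
  exact ⟨l, ⟨hl, e⟩, fun l' hl' => fact_un h hs _ _ hl'.1 hl (hl'.2.trans e.symm)⟩

theorem exists_max (L : Language A) (M : Set (List A)) (hM : IsFree M) (hL : ∀ w ∈ M, w ∈ L) :
    ∃ N, M ⊆ N ∧ MaxFree L N := by
  obtain ⟨N, hMN, hN⟩ := zorn_subset_nonempty {N : Set (List A) | IsFree N ∧ ∀ w ∈ N, w ∈ L}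
    (fun c hc hch hne => by
      have two : ∀ u ∈ ⋃₀ c, ∀ v ∈ ⋃₀ c, ∃ s ∈ c, u ∈ s ∧ v ∈ s := by
        rintro u ⟨s, hs, hu⟩ v ⟨t, ht, hv⟩
        rcases hch.total hs ht with h | h
        exacts [⟨t, ht, h hu, hv⟩, ⟨s, hs, hu, h hv⟩]
      refine ⟨⋃₀ c, ⟨free_of_stable ⟨?_, ?_⟩ ?_, ?_⟩, fun s hs => Set.subset_sUnion_of_mem hs⟩
      · obtain ⟨s, hs⟩ := hne
        exact ⟨s, hs, (hc hs).1.1.1⟩
      · intro u hu v hv
        obtain ⟨s, hs, h1, h2⟩ := two u hu v hv
        exact ⟨s, hs, (hc hs).1.1.2 _ h1 _ h2⟩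
      · intro u v w h1 h2 h3 h4
        obtain ⟨s, hs, a1, a2⟩ := two _ h1 _ h2
        obtain ⟨t, ht, a3, a4⟩ := two _ h3 _ h4
        rcases hch.total hs ht with h | h
        · exact ⟨t, ht, stable_of_free (hc ht).1 u v w (h a1) (h a2) a3 a4⟩
        · exact ⟨s, hs, stable_of_free (hc hs).1 u v w a1 a2 (h a3) (h a4)⟩
      · rintro w ⟨s, hs, hw⟩
        exact (hc hs).2 w hw) M ⟨hM, hL⟩
  exact ⟨N, hMN, hN.1.1, hN.1.2, fun N' h1 h2 h3 => (hN.eq_of_subset ⟨h1, h3⟩ h2).symm⟩

/-- the words over `0, 1` without the factor `1 0 1` -/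
def L0 : Language (Fin 2) := {w | ¬ [1, 0, 1] <:+: w}

def dfa : DFA (Fin 2) (Fin 4) where
  step := fun s x => ![![0, 1], ![2, 1], ![0, 3], ![3, 3]] s x
  start := 0
  accept := {s | s ≠ 3}

def pre : Fin 4 → List (Fin 2) := ![[], [1], [1, 0], [1, 0, 1]]

theorem dfa_eval : ∀ (w : List (Fin 2)) (s : Fin 4),
    dfa.evalFrom s w ≠ 3 ↔ ¬ [1, 0, 1] <:+: pre s ++ w
  | [], s => by
    fin_cases s <;> simp [pre, DFA.evalFrom] <;> decide
  | x :: w, s => by
    rw [show dfa.evalFrom s (x :: w) = dfa.evalFrom (dfa.step s x) w from rfl, dfa_eval w]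
    fin_cases s <;> fin_cases x <;> simp [pre, dfa, List.infix_cons_iff]

theorem reg : L0.IsRegular := by
  refine ⟨Fin 4, inferInstance, dfa, ?_⟩
  ext w
  exact dfa_eval w 0

theorem fac : Factorial L0 := fun _ hw _ hu h => hw (h.trans hu)

theorem tra : Transitive L0 := by
  intro u hu v hv
  refine ⟨[0, 0], ?_⟩
  have h1 := (dfa_eval u 0).2 hu
  have h2 := (dfa_eval v 0).2 hv
  refine (dfa_eval (u ++ [0, 0] ++ v) 0).1 ?_
  rw [DFA.evalFrom_of_append, DFA.evalFrom_of_append]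
  have : ∀ s, s ≠ 3 → dfa.evalFrom s [0, 0] = 0 := by decide
  rw [this _ h1]
  exact h2

def stp (p : ℕ) : Option (ZMod p) → Fin 2 → Option (ZMod p)
  | none, _ => none
  | some s, x => if x = 0 then some (s + 1) else if s = 0 then some 0 else none

def Mp (p : ℕ) : Set (List (Fin 2)) := {w | w.foldl (stp p) (some 0) = some 0}

theorem fold_none (p : ℕ) : ∀ w : List (Fin 2), w.foldl (stp p) none = none
  | [] => rfl
  | _ :: w => fold_none p w

theorem fold_rep (p : ℕ) : ∀ (k : ℕ) (s : ZMod p),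
    (List.replicate k (0 : Fin 2)).foldl (stp p) (some s) = some (s + k)
  | 0, s => by simp
  | k + 1, s => by
    rw [List.replicate_succ, List.foldl_cons, show stp p (some s) 0 = some (s + 1) by simp [stp],
      fold_rep p k]
    push_cast
    ring_nf

theorem Mp_free (p : ℕ) : IsFree (Mp p) := by
  refine free_of_stable ⟨rfl, fun u hu v hv => ?_⟩ fun u v w hu _ huw _ => ?_
  · show (u ++ v).foldl _ _ = _
    rw [List.foldl_append, hu]
    exact hv
  · have : (u ++ w).foldl (stp p) (some 0) = some 0 := huw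
    rw [List.foldl_append, hu] at this
    exact this

theorem Mp_sub (p : ℕ) (hp : 1 < p) : ∀ w ∈ Mp p, w ∈ L0 := by
  rintro _ hw ⟨x, y, rfl⟩
  have : Fact (1 < p) := ⟨hp⟩
  have : (x ++ [1, 0, 1] ++ y).foldl (stp p) (some 0) = some 0 := hw
  rw [List.foldl_append, List.foldl_append] at this
  have e : [1, 0, 1].foldl (stp p) (x.foldl (stp p) (some 0)) = none := by
    rcases x.foldl (stp p) (some 0) with _ | s
    · rfl
    · by_cases hs : s = 0 <;> simp [stp, hs]
  rw [e, fold_none] at this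
  exact absurd this (by simp)

theorem rep_mem {M : Set (List (Fin 2))} (h : IsSub M) {k : ℕ} (hk : List.replicate k 0 ∈ M) :
    ∀ i, List.replicate (i * k) 0 ∈ M
  | 0 => by simpa using h.1
  | i + 1 => by
    rw [Nat.succ_mul, List.replicate_add]
    exact h.2 _ (rep_mem h hk i) _ hk

theorem infinite_max : {M | MaxFree L0 M}.Infinite := by
  have : ∀ p : ℕ, ∃ N, p.Prime → Mp p ⊆ N ∧ MaxFree L0 N := fun p => by
    by_cases hp : p.Prime
    · obtain ⟨N, h⟩ := exists_max L0 _ (Mp_free p) (Mp_sub p hp.one_lt)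
      exact ⟨N, fun _ => h⟩
    · exact ⟨∅, fun h => absurd h hp⟩
  choose N hN using this
  refine Set.infinite_of_injOn_mapsTo (f := N) ?_ (fun p hp => (hN p hp).2)
    Nat.infinite_setOfPred_prime
  intro p hp q hq e
  by_contra hne
  have hr : ∀ r : ℕ, List.replicate r (0 : Fin 2) ∈ Mp r := fun r => by
    show List.foldl _ _ _ = _
    rw [fold_rep]
    simp
  have hF := (hN p hp).2.1
  have h1 : List.replicate p (0 : Fin 2) ∈ N p := (hN p hp).1 (hr p)
  have h2 : List.replicate q (0 : Fin 2) ∈ N p := e ▸ (hN q hq).1 (hr q)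
  have hb : [1] ∈ N p := (hN p hp).1 (by show List.foldl _ _ _ = _; simp [stp])
  obtain ⟨i, -, hi⟩ := Nat.exists_mul_mod_eq_one_of_coprime
    ((Nat.coprime_primes hp hq).2 hne) (Nat.Prime.one_lt hq)
  have e1 : i * p = p * i / q * q + 1 := by
    have := Nat.div_add_mod (p * i) q
    rw [hi] at this
    rw [mul_comm i, mul_comm _ q]
    omega
  have h3 := rep_mem hF.1 h1 i
  have h4 := rep_mem hF.1 h2 (p * i / q)
  have ha : [0] ∈ N p := by
    refine stable_of_free hF _ _ _ h4 h4 ?_ ?_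
    · rw [e1, List.replicate_succ'] at h3
      exact h3
    · rw [e1, List.replicate_succ] at h3
      exact h3
  exact (hN p hp).2.2.1 _ (hF.1.2 _ hb _ (hF.1.2 _ ha _ hb)) (List.infix_refl _)

end Pool.Agent.H30.FreeSub
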