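import Pool.Agent.H30.GigDefs
import Pool.Agent.H38.CM.W

/-! Emptiness of global index grammars is undecidable: simulation of while programs. -/

namespace Pool.Agent.H30.Gig

open Pool.Agent.H38.CM Relation Function

/-- stack effect of a sentential form under an interpretation of the nonterminals -/
def Eff (R : ℕ → List ℕ → List ℕ → Prop) : List Sym → List ℕ → List ℕ → Prop
  | [], δ, δ' => δ' = δ
  | .inr _ :: l, δ, δ' => Eff R l δ δ'
  | .inl A :: l, δ, δ' => ∃ m, R A δ m ∧ Eff R l m δ'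

theorem Eff_append (R : ℕ → List ℕ → List ℕ → Prop) : ∀ (l l' : List Sym) (δ δ' : List ℕ),
    Eff R (l ++ l') δ δ' ↔ ∃ m, Eff R l δ m ∧ Eff R l' m δ'
  | [], l', δ, δ' => by simp [Eff]
  | .inr _ :: l, l', δ, δ' => Eff_append R l l' δ δ'
  | .inl A :: l, l', δ, δ' => by
    simp only [List.cons_append, Eff, Eff_append R l l']
    constructor
    · rintro ⟨m, h, k, h1, h2⟩
      exact ⟨k, ⟨m, h, h1⟩, h2⟩
    · rintro ⟨k, ⟨m, h, h1⟩, h2⟩
      exact ⟨m, h, k, h1, h2⟩

theorem Eff_term (R : ℕ → List ℕ → List ℕ → Prop) : ∀ (u : List ℕ) (l : List Sym) (δ δ' : List ℕ),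
    Eff R (u.map Sum.inr ++ l) δ δ' ↔ Eff R l δ δ'
  | [], _, _, _ => Iff.rfl
  | _ :: u, l, δ, δ' => Eff_term R u l δ δ'

theorem sound (G : List Pr) (R : ℕ → List ℕ → List ℕ → Prop)
    (h : ∀ p ∈ G, ∀ δ δ1 β δ2, Ap p.2.1 p.2.2 δ δ1 β → Eff R β δ1 δ2 → R p.1 δ δ2)
    {w : List ℕ} (hw : w ∈ lang G) : R 0 [] [] := by
  have key : ∀ c d, ReflTransGen (Step G) c d → ∀ f, Eff R d.2 d.1 f → Eff R c.2 c.1 f := by
    intro c d hd
    induction hd with
    | refl => exact fun _ h => h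
    | tail _ hs ih =>
      intro f hf
      apply ih
      obtain ⟨p, hp, u, γ, β, ha, e1, e2⟩ := hs
      rw [e2, List.append_assoc, Eff_term, Eff_append] at hf
      obtain ⟨m, h1, h2⟩ := hf
      rw [e1, Eff_term]
      exact ⟨m, h p hp _ _ _ _ ha h1, h2⟩
  have := key _ _ hw [] (by simpa using (Eff_term R w [] [] []).2 rfl)
  obtain ⟨m, h1, h2⟩ := this
  cases h2
  exact h1

/-- derivability of a terminal word with a given stack effect, in every context -/
def D (G : List Pr) (A : ℕ) (δ δ' : List ℕ) : Prop :=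
  ∀ (u : List ℕ) (γ : List Sym), ∃ v : List ℕ,
    ReflTransGen (Step G) (δ, u.map Sum.inr ++ Sum.inl A :: γ) (δ', v.map Sum.inr ++ γ)

theorem complete (G : List Pr) {p : Pr} (hp : p ∈ G) {δ δ1 δ2 : List ℕ} {β : List Sym}
    (ha : Ap p.2.1 p.2.2 δ δ1 β) (he : Eff (D G) β δ1 δ2) : D G p.1 δ δ2 := by
  have key : ∀ (l : List Sym) (a b : List ℕ), Eff (D G) l a b → ∀ (u : List ℕ) (γ : List Sym),
      ∃ v : List ℕ, ReflTransGen (Step G) (a, u.map Sum.inr ++ l ++ γ) (b, v.map Sum.inr ++ γ) := by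
    intro l
    induction l with
    | nil =>
      intro a b h u γ
      cases h
      exact ⟨u, by simpa using ReflTransGen.refl⟩
    | cons x l ih =>
      intro a b h u γ
      cases x with
      | inr t => simpa using ih a b h (u ++ [t]) γ
      | inl A =>
        obtain ⟨m, h1, h2⟩ := h
        obtain ⟨v, hv⟩ := h1 u (l ++ γ)
        obtain ⟨v', hv'⟩ := ih m b h2 v γ
        exact ⟨v', by simpa using hv.trans (by simpa using hv')⟩
  intro u γ
  obtain ⟨v, hv⟩ := key β δ1 δ2 he u γ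
  exact ⟨v, ReflTransGen.head ⟨p, hp, u, γ, β, ha, rfl, rfl⟩ hv⟩

def cd : W → ℕ
  | .inc r => Nat.pair 0 r
  | .skip => Nat.pair 1 0
  | .seq a b => Nat.pair 2 (Nat.pair (cd a) (cd b))
  | .loop r b => Nat.pair 3 (Nat.pair r (cd b))

theorem cd_inj : ∀ a b : W, cd a = cd b → a = b := by
  intro a
  induction a with
  | inc r => intro b h; cases b <;> simp_all [cd]
  | skip => intro b h; cases b <;> simp_all [cd]
  | seq a1 a2 ih1 ih2 =>
    intro b h
    cases b <;> simp only [cd, Nat.pair_eq_pair] at h <;> try omega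
    rw [ih1 _ h.2.1, ih2 _ h.2.2]
  | loop r a ih =>
    intro b h
    cases b <;> simp only [cd, Nat.pair_eq_pair] at h <;> try omega
    rw [h.2.1, ih _ h.2.2]

def nW (w : W) : ℕ := Nat.pair 1 (cd w)
def nF (r : ℕ) : ℕ := Nat.pair 2 r
def nZ (r : ℕ) : ℕ := Nat.pair 3 r
def nP (r : ℕ) : ℕ := Nat.pair 4 r
def nC : ℕ := Nat.pair 5 0

def kPush (x : ℕ) : Kind := .inr (.inr (.inl (x, 0)))
def kPop (x : ℕ) : Kind := .inr (.inr (.inr x))

def rules (K : ℕ) : W → List Pr
  | .inc r => [(nW (.inc r), kPush r, [])]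
  | .skip => [(nW .skip, .inl (), [])]
  | .seq a b => (nW (.seq a b), .inl (), [.inl (nW a), .inl (nW b)]) :: (rules K a ++ rules K b)
  | .loop r b =>
    (nW (.loop r b), .inl (), [.inl (nF r), .inl (nW b), .inl (nW (.loop r b))]) ::
    (nW (.loop r b), .inl (), [.inl (nZ r)]) :: (nF r, kPop r, []) ::
    (nZ r, .inr (.inl none), []) ::
    ((List.range K).map (fun y => (nF r, kPop y, [.inl (nF r), .inl (nP y)])) ++
      ((List.range K).filter (· ≠ r)).map (fun y => (nZ r, kPop y, [.inl (nZ r), .inl (nP y)])) ++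
      rules K b)

def glob (K : ℕ) : List Pr :=
  (nC, .inl (), []) :: ((List.range K).map (fun y => (nP y, kPush y, [])) ++
    (List.range K).map (fun y => (nC, kPop y, [.inl nC])))

def start (P : W) (n : ℕ) : Pr :=
  (0, .inl (), List.replicate n (.inl (nP 0)) ++ [.inl (nW P), .inl nC])

def val (δ : List ℕ) : ℕ → ℕ := fun r => δ.count r

theorem val_cons (x : ℕ) (δ : List ℕ) : val (x :: δ) = update (val δ) x (val δ x + 1) := by
  funext s
  by_cases h : s = x
  · subst h; simp [val]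
  · simp [val, update_of_ne h, Ne.symm h]

theorem val_rep (n : ℕ) : val (List.replicate n 0) = init n := by
  funext r
  by_cases hr : r = 0
  · subst hr; simp [init, val]
  · simp [init, val, hr, List.count_replicate, Ne.symm hr]

def Rl (P : W) (n : ℕ) (k : ℕ) (δ δ' : List ℕ) : Prop :=
  (∀ w, k = nW w → Ev w (val δ) (val δ')) ∧ (∀ r, k = nF r → δ.Perm (r :: δ')) ∧
  (∀ r, k = nZ r → δ' = δ ∧ r ∉ δ) ∧ (∀ y, k = nP y → δ' = y :: δ) ∧
  (k = 0 → δ = [] → ∃ v, Ev P (init n) v)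

theorem z0 : (0 : ℕ) = Nat.pair 0 0 := rfl

theorem Rl_W {P n w δ δ'} : Rl P n (nW w) δ δ' ↔ Ev w (val δ) (val δ') := by
  refine ⟨fun h => h.1 w rfl, fun h => ⟨fun w' e => ?_, ?_, ?_, ?_, ?_⟩⟩
  · rw [← cd_inj _ _ (Nat.pair_eq_pair.1 e).2]; exact h
  all_goals (try rw [z0]); simp [nW, nF, nZ, nP, Nat.pair_eq_pair]
theorem Rl_F {P n r δ δ'} : Rl P n (nF r) δ δ' ↔ δ.Perm (r :: δ') := by
  refine ⟨fun h => h.2.1 r rfl, fun h => ⟨?_, fun w' e => ?_, ?_, ?_, ?_⟩⟩
  any_goals (rw [← (Nat.pair_eq_pair.1 e).2]; exact h)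
  all_goals (try rw [z0]); simp [nW, nF, nZ, nP, Nat.pair_eq_pair]
theorem Rl_Z {P n r δ δ'} : Rl P n (nZ r) δ δ' ↔ δ' = δ ∧ r ∉ δ := by
  refine ⟨fun h => h.2.2.1 r rfl, fun h => ⟨?_, ?_, fun w' e => ?_, ?_, ?_⟩⟩
  any_goals (rw [← (Nat.pair_eq_pair.1 e).2]; exact h)
  all_goals (try rw [z0]); simp [nW, nF, nZ, nP, Nat.pair_eq_pair]
theorem Rl_P {P n r δ δ'} : Rl P n (nP r) δ δ' ↔ δ' = r :: δ := by
  refine ⟨fun h => h.2.2.2.1 r rfl, fun h => ⟨?_, ?_, ?_, fun w' e => ?_, ?_⟩⟩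
  any_goals (rw [← (Nat.pair_eq_pair.1 e).2]; exact h)
  all_goals (try rw [z0]); simp [nW, nF, nZ, nP, Nat.pair_eq_pair]
theorem Rl_C {P n δ δ'} : Rl P n nC δ δ' := by
  refine ⟨?_, ?_, ?_, ?_, ?_⟩
  all_goals (try rw [z0]); simp [nW, nF, nZ, nP, nC, Nat.pair_eq_pair]
theorem Rl_0 {P n δ δ'} (h : δ = [] → ∃ v, Ev P (init n) v) : Rl P n 0 δ δ' := by
  refine ⟨?_, ?_, ?_, ?_, fun _ => h⟩
  all_goals rw [z0]; simp [nW, nF, nZ, nP, Nat.pair_eq_pair]

theorem rules_sound (P : W) (n K : ℕ) : ∀ w, ∀ p ∈ rules K w, ∀ δ δ1 β δ2,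
    Ap p.2.1 p.2.2 δ δ1 β → Eff (Rl P n) β δ1 δ2 → Rl P n p.1 δ δ2 := by
  intro w
  induction w with
  | inc r =>
    intro p hp δ δ1 β δ2 ha he
    simp only [rules, List.mem_singleton] at hp
    subst hp
    cases ha
    cases he
    rw [Rl_W, val_cons]
    exact Ev.inc _ _
  | skip =>
    intro p hp δ δ1 β δ2 ha he
    simp only [rules, List.mem_singleton] at hp
    subst hp
    cases ha
    cases he
    rw [Rl_W]
    exact Ev.skip _
  | seq a b iha ihb =>
    intro p hp δ δ1 β δ2 ha he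
    simp only [rules, List.mem_cons, List.mem_append] at hp
    rcases hp with rfl | hp | hp
    · cases ha
      obtain ⟨m, h1, m', h2, rfl⟩ := he
      exact Rl_W.2 (Ev.seq (Rl_W.1 h1) (Rl_W.1 h2))
    · exact iha p hp _ _ _ _ ha he
    · exact ihb p hp _ _ _ _ ha he
  | loop r b ihb =>
    intro p hp δ δ1 β δ2 ha he
    simp only [rules, List.mem_cons, List.mem_append, List.mem_map, List.mem_filter] at hp
    rcases hp with rfl | rfl | rfl | rfl | (⟨y, -, rfl⟩ | ⟨y, hy, rfl⟩) | hp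
    · cases ha
      obtain ⟨m, h1, m', h2, m'', h3, rfl⟩ := he
      have e : val δ = val (r :: m) := funext fun s => (Rl_F.1 h1).count_eq s
      refine Rl_W.2 (Ev.l1 (n := val m r) (by rw [e, val_cons]; simp) ?_ (Rl_W.1 h3))
      rw [e, val_cons, update_idem, update_eq_self]
      exact Rl_W.1 h2
    · cases ha
      obtain ⟨m, h1, rfl⟩ := he
      obtain ⟨rfl, h2⟩ := Rl_Z.1 h1
      exact Rl_W.2 (Ev.l0 (List.count_eq_zero.2 h2))
    · cases ha
      cases he
      exact Rl_F.2 (List.Perm.refl _)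
    · have : ∀ k α, Ap k α δ δ1 β → k = .inr (.inl none) → δ = [] ∧ δ1 = [] ∧ β = α := by
        intro k α h e
        cases h <;> simp_all
      obtain ⟨rfl, rfl, rfl⟩ := this _ _ ha rfl
      cases he
      exact Rl_Z.2 ⟨rfl, by simp⟩
    · cases ha
      obtain ⟨m, h1, m', h2, rfl⟩ := he
      rw [Rl_P.1 h2]
      exact Rl_F.2 (((Rl_F.1 h1).cons y).trans (List.Perm.swap _ _ _))
    · cases ha
      obtain ⟨m, h1, m', h2, rfl⟩ := he
      obtain ⟨rfl, h3⟩ := Rl_Z.1 h1
      rw [Rl_P.1 h2]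
      have : y ≠ r := by simpa using hy.2
      exact Rl_Z.2 ⟨rfl, by simp [h3, Ne.symm this]⟩
    · exact ihb p hp _ _ _ _ ha he

def gram (P : W) (K n : ℕ) : List Pr := start P n :: (glob K ++ rules K P)

theorem gram_sound (P : W) (K n : ℕ) {w : List ℕ} (hw : w ∈ lang (gram P K n)) :
    ∃ v, Ev P (init n) v := by
  refine (sound _ (Rl P n) ?_ hw).2.2.2.2 rfl rfl
  intro p hp δ δ1 β δ2 ha he
  simp only [gram, glob, List.mem_cons, List.mem_append, List.mem_map] at hp
  rcases hp with rfl | (rfl | ⟨y, -, rfl⟩ | ⟨y, -, rfl⟩) | hp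
  · cases ha
    refine Rl_0 ?_
    rintro rfl
    obtain ⟨m, h1, m', h2, -⟩ := (Eff_append _ _ _ _ _).1 he
    have : ∀ k a b, Eff (Rl P n) (List.replicate k (.inl (nP 0))) a b →
        b = List.replicate k 0 ++ a := by
      intro k
      induction k with
      | zero => intro a b h; exact h
      | succ k ih =>
        rintro a b ⟨c, h1, h2⟩
        rw [ih _ _ h2, Rl_P.1 h1, List.replicate_succ']
        simp
    rw [this _ _ _ h1, List.append_nil] at h2
    exact ⟨_, val_rep n ▸ Rl_W.1 h2⟩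
  · exact Rl_C
  · cases ha
    cases he
    exact Rl_P.2 rfl
  · exact Rl_C
  · exact rules_sound P n K P p hp _ _ _ _ ha he

def bd : W → ℕ
  | .inc r => r + 1
  | .skip => 1
  | .seq a b => bd a + bd b
  | .loop _ b => bd b

theorem bd_pos : ∀ w, 0 < bd w
  | .inc _ => Nat.succ_pos _
  | .skip => Nat.one_pos
  | .seq a _ => Nat.add_pos_left (bd_pos a) _
  | .loop _ b => bd_pos b

section
variable {G : List Pr} {K : ℕ} (hG : ∀ p ∈ glob K, p ∈ G)
include hG

theorem D_P {y : ℕ} (hy : y < K) (δ : List ℕ) : D G (nP y) δ (y :: δ) :=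
  complete G (p := (nP y, kPush y, [])) (hG _ (by simp [glob]; exact Or.inr ⟨y, hy, rfl, rfl⟩)) (Ap.push _ _ _ _) rfl

theorem D_C : ∀ δ : List ℕ, (∀ y ∈ δ, y < K) → D G nC δ []
  | [], _ => complete G (p := (nC, .inl (), [])) (hG _ (by simp [glob])) (Ap.cf _ _) rfl
  | y :: δ, h => complete G (p := (nC, kPop y, [.inl nC]))
      (hG _ (by simp [glob]; exact ⟨y, h y (by simp), rfl⟩)) (Ap.pop _ _ _)
      ⟨_, D_C δ fun z hz => h z (by simp [hz]), rfl⟩

theorem D_ev {w : W} {v v' : ℕ → ℕ} (h : Ev w v v') : bd w ≤ K → (∀ p ∈ rules K w, p ∈ G) →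
    ∀ δ, (∀ y ∈ δ, y < K) → val δ = v → ∃ δ', (∀ y ∈ δ', y < K) ∧ val δ' = v' ∧ D G (nW w) δ δ' := by
  induction h with
  | inc r v =>
    rintro hb hr δ hδ rfl
    refine ⟨r :: δ, by simpa using ⟨hb, hδ⟩, val_cons _ _, ?_⟩
    exact complete G (p := (nW (.inc r), kPush r, [])) (hr _ (by simp [rules]))
      (Ap.push _ _ _ _) rfl
  | skip v =>
    rintro hb hr δ hδ rfl
    exact ⟨δ, hδ, rfl, complete G (p := (nW .skip, .inl (), [])) (hr _ (by simp [rules]))
      (Ap.cf _ _) rfl⟩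
  | @seq a b _ _ _ _ _ ih1 ih2 =>
    intro hb hr δ hδ e
    simp only [bd] at hb
    obtain ⟨m, h1, e1, d1⟩ := ih1 (by omega) (fun p hp => hr p (by simp [rules, hp])) δ hδ e
    obtain ⟨m', h2, e2, d2⟩ := ih2 (by omega) (fun p hp => hr p (by simp [rules, hp])) m h1 e1
    exact ⟨m', h2, e2, complete G (p := (nW (.seq a b), .inl (), [.inl (nW a), .inl (nW b)]))
      (hr _ (by simp [rules])) (Ap.cf _ _) ⟨m, d1, m', d2, rfl⟩⟩
  | @l0 r b v h0 =>
    rintro hb hr δ hδ rfl
    have hz : ∀ δ : List ℕ, (∀ y ∈ δ, y < K) → r ∉ δ → D G (nZ r) δ δ := by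
      intro δ
      induction δ with
      | nil =>
        intro _ _
        exact complete G (p := (nZ r, .inr (.inl none), [])) (hr _ (by simp [rules]))
          (Ap.test _ []) rfl
      | cons y δ ih =>
        intro h1 h2
        have hy := h1 y (by simp)
        have hy' : y ≠ r := fun e => h2 (by simp [e])
        exact complete G (p := (nZ r, kPop y, [.inl (nZ r), .inl (nP y)]))
          (hr _ (by simp [rules]; exact Or.inr (Or.inl ⟨y, ⟨hy, hy'⟩, rfl, rfl⟩))) (Ap.pop _ _ _)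
          ⟨_, ih (fun z hz => h1 z (by simp [hz])) (fun e => h2 (by simp [e])), _,
            D_P hG hy _, rfl⟩
    exact ⟨δ, hδ, rfl, complete G (p := (nW (.loop r b), .inl (), [.inl (nZ r)]))
      (hr _ (by simp [rules])) (Ap.cf _ _) ⟨_, hz δ hδ (List.count_eq_zero.1 h0), rfl⟩⟩
  | @l1 r b v u w n h0 _ _ ih1 ih2 =>
    rintro hb hr δ hδ rfl
    have hf : ∀ δ : List ℕ, (∀ y ∈ δ, y < K) → r ∈ δ → D G (nF r) δ (δ.erase r) := by
      intro δ
      induction δ with
      | nil => intro _ h; simp at h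
      | cons y δ ih =>
        intro h1 h2
        by_cases hy' : y = r
        · subst hy'
          rw [List.erase_cons_head]
          exact complete G (p := (nF y, kPop y, [])) (hr _ (by simp [rules])) (Ap.pop _ _ _) rfl
        · have hy := h1 y (by simp)
          rw [List.erase_cons_tail (by simpa using hy')]
          exact complete G (p := (nF r, kPop y, [.inl (nF r), .inl (nP y)]))
            (hr _ (by simp [rules]; exact Or.inl ⟨y, hy, rfl, rfl⟩)) (Ap.pop _ _ _)
            ⟨_, ih (fun z hz => h1 z (by simp [hz]))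
              (by simpa [Ne.symm hy'] using h2), _, D_P hG hy _, rfl⟩
    have hm : r ∈ δ := List.count_pos_iff.1 (by have : δ.count r = n + 1 := h0; omega)
    have e : val δ = val (r :: δ.erase r) := funext fun s => (List.perm_cons_erase hm).count_eq s
    have e' : val (δ.erase r) = update (val δ) r n := by
      have h2 : val (δ.erase r) r = n := by
        rw [e, val_cons] at h0
        simpa using h0
      rw [e, val_cons, update_idem, ← h2, update_eq_self]
    obtain ⟨m, h1, e1, d1⟩ := ih1 hb (fun p hp => hr p (by simp [rules, hp])) _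
      (fun y hy => hδ y (List.mem_of_mem_erase hy)) e'
    obtain ⟨m', h2, e2, d2⟩ := ih2 hb hr m h1 e1
    exact ⟨m', h2, e2, complete G (p := (nW (.loop r b), .inl (),
      [.inl (nF r), .inl (nW b), .inl (nW (.loop r b))])) (hr _ (by simp [rules])) (Ap.cf _ _)
      ⟨_, hf δ hδ hm, m, d1, m', d2, rfl⟩⟩

end

theorem gram_complete (P : W) (n : ℕ) {v : ℕ → ℕ} (h : Ev P (init n) v) :
    ∃ w, w ∈ lang (gram P (bd P) n) := by
  have hG : ∀ p ∈ glob (bd P), p ∈ gram P (bd P) n := fun p hp => by simp [gram, hp]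
  obtain ⟨m, h1, -, d1⟩ := D_ev hG h le_rfl (fun p hp => by simp [gram, hp]) (List.replicate n 0)
    (fun y hy => by rw [(List.mem_replicate.1 hy).2]; exact bd_pos P) (val_rep n)
  have : ∀ k a, Eff (D (gram P (bd P) n)) (List.replicate k (.inl (nP 0))) a
      (List.replicate k 0 ++ a) := by
    intro k
    induction k with
    | zero => intro a; rfl
    | succ k ih =>
      intro a
      refine ⟨_, D_P hG (bd_pos P) a, ?_⟩
      rw [List.replicate_succ', List.append_assoc]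
      exact ih _
  obtain ⟨w, hw⟩ := complete (gram P (bd P) n) (p := start P n) (by simp [gram]) (Ap.cf _ [])
    ((Eff_append _ _ _ _ _).2 ⟨_, this n [], m, by simpa using d1, [], D_C hG m h1, rfl⟩) [] []
  exact ⟨w, by rw [List.append_nil] at hw; exact hw⟩

theorem main : ¬ ComputablePred fun G : List Pr => lang G = ∅ := by
  obtain ⟨P, hP⟩ := exists_undec
  have hc : Computable fun n => gram P (bd P) n := by
    refine Primrec.to_comp (Primrec.list_cons.comp (Primrec.pair (Primrec.const _)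
      (Primrec.pair (Primrec.const _) (Primrec.list_append.comp ?_ (Primrec.const _))))
      (Primrec.const _))
    refine (Primrec.list_map Primrec.list_range
      (Primrec.const (Sum.inl (nP 0) : Sym)).to₂).of_eq fun n => by simp
  intro h
  apply hP
  have h2 : ComputablePred fun n : ℕ => lang (gram P (bd P) n) = ∅ := by
    obtain ⟨d, hd⟩ := h
    exact ⟨fun c => d _, hd.comp hc⟩
  refine h2.not.of_eq fun n => ⟨fun h => ?_, fun ⟨v, hv⟩ e => ?_⟩
  · obtain ⟨w, hw⟩ := Set.nonempty_iff_ne_empty.2 h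
    exact gram_sound P _ n hw
  · obtain ⟨w, hw⟩ := gram_complete P n hv
    rw [e] at hw
    exact hw

end Pool.Agent.H30.Gig
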