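import Mathlib

/-! Global index grammars. Nonterminals, terminals and stack indices are natural numbers
(three disjoint copies); the start symbol is the nonterminal `0`. -/

namespace Pool.Agent.H30.Gig

/-- `inl A` is a nonterminal, `inr a` a terminal -/
abbrev Sym : Type := ℕ ⊕ ℕ

/-- the four kinds of productions: context-free; test of the top symbol (`none` is the bottom);
push `x` with leading terminal `a`, written `(x, a)`; pop `x` -/
abbrev Kind : Type := Unit ⊕ Option ℕ ⊕ (ℕ × ℕ) ⊕ ℕ

/-- left-hand side, kind, and the string `α` of the production -/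
abbrev Pr : Type := ℕ × Kind × List Sym

/-- `Ap k α δ δ' β`: a production of kind `k` with string `α` turns the stack `δ` (top on the
left, bottom symbol omitted) into `δ'` and replaces its nonterminal by `β` -/
inductive Ap : Kind → List Sym → List ℕ → List ℕ → List Sym → Prop
  | cf (α : List Sym) (δ : List ℕ) : Ap (.inl ()) α δ δ α
  | test (α : List Sym) (δ : List ℕ) : Ap (.inr (.inl δ.head?)) α δ δ α
  | push (x a : ℕ) (α : List Sym) (δ : List ℕ) :
      Ap (.inr (.inr (.inl (x, a)))) α δ (x :: δ) (.inr a :: α)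
  | pop (x : ℕ) (α : List Sym) (δ : List ℕ) : Ap (.inr (.inr (.inr x))) α (x :: δ) δ α

/-- one leftmost derivation step -/
def Step (G : List Pr) (c d : List ℕ × List Sym) : Prop :=
  ∃ p ∈ G, ∃ (u : List ℕ) (γ β : List Sym), Ap p.2.1 p.2.2 c.1 d.1 β ∧
    c.2 = u.map Sum.inr ++ Sum.inl p.1 :: γ ∧ d.2 = u.map Sum.inr ++ β ++ γ

def lang (G : List Pr) : Set (List ℕ) :=
  {w | Relation.ReflTransGen (Step G) ([], [Sum.inl 0]) ([], w.map Sum.inr)}

end Pool.Agent.H30.Gig
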