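import Pool.Agent.H30.GonDefs

set_option autoImplicit false

namespace Pool.Agent.H30.Gon
open Finset Classical

set_option linter.unusedSectionVars false

variable {V : Type} [Fintype V] [DecidableEq V]

def P (A : V → V → ℕ) (D : V → ℤ) (r : ℕ) : Prop :=
  ∀ E : V → ℤ, (∀ v, 0 ≤ E v) → deg E = r → Win A (D - E)

theorem pair_lap {A : V → V → ℕ} (hs : ∀ u v, A u v = A v u) (f c : V → ℤ) :
    ∑ v, lap A f v * c v = ∑ v, f v * lap A c v := by
  simp only [lap, sum_mul, mul_sum]
  have h1 : ∑ v, ∑ u, (A v u : ℤ) * (f v - f u) * c v =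
      ∑ v, ∑ u, (A v u : ℤ) * f v * c v - ∑ v, ∑ u, (A v u : ℤ) * f u * c v := by
    rw [← sum_sub_distrib]; refine sum_congr rfl fun v _ => ?_
    rw [← sum_sub_distrib]; refine sum_congr rfl fun u _ => ?_
    ring
  have h2 : ∑ v, ∑ u, f v * ((A v u : ℤ) * (c v - c u)) =
      ∑ v, ∑ u, (A v u : ℤ) * f v * c v - ∑ v, ∑ u, (A v u : ℤ) * f v * c u := by
    rw [← sum_sub_distrib]; refine sum_congr rfl fun v _ => ?_
    rw [← sum_sub_distrib]; refine sum_congr rfl fun u _ => ?_
    ring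
  rw [h1, h2, sum_comm (f := fun v u => (A v u : ℤ) * f u * c v)]
  congr 1
  refine sum_congr rfl fun v _ => sum_congr rfl fun u _ => ?_
  rw [hs]

theorem deg_lap {A : V → V → ℕ} (hs : ∀ u v, A u v = A v u) (f : V → ℤ) : deg (lap A f) = 0 := by
  have := pair_lap hs f (fun _ => 1)
  simpa [lap, deg] using this

theorem deg_sub (D E : V → ℤ) : deg (D - E) = deg D - deg E := by
  simp [deg, sum_sub_distrib]

theorem deg_add (D E : V → ℤ) : deg (D + E) = deg D + deg E := by
  simp [deg, sum_add_distrib]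

theorem deg_single (v : V) (k : ℤ) : deg (Pi.single v k : V → ℤ) = k := by
  simp [deg]

theorem Win.deg_nonneg {A : V → V → ℕ} (hs : ∀ u v, A u v = A v u) {D : V → ℤ} (h : Win A D) :
    0 ≤ deg D := by
  obtain ⟨D', h1, f, h2⟩ := h
  have := deg_lap hs f
  rw [← h2, deg_sub] at this
  have h3 : 0 ≤ deg D' := sum_nonneg fun v _ => h1 v
  omega

theorem Win.add {A : V → V → ℕ} {D : V → ℤ} (h : Win A D) (E : V → ℤ) (hE : ∀ v, 0 ≤ E v) :
    Win A (D + E) := by
  obtain ⟨D', h1, f, h2⟩ := h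
  refine ⟨D' + E, fun v => add_nonneg (h1 v) (hE v), f, ?_⟩
  rw [← h2]; abel

theorem single_nonneg (v : V) (k : ℤ) (hk : 0 ≤ k) (w : V) : 0 ≤ (Pi.single v k : V → ℤ) w := by
  by_cases h : w = v
  · subst h; simpa
  · simp [h]

theorem P.mono [Nonempty V] {A : V → V → ℕ} {D : V → ℤ} {r s : ℕ} (h : P A D s) (hrs : r ≤ s) :
    P A D r := by
  intro E hE hd
  obtain ⟨v⟩ := ‹Nonempty V›
  have hk : (0 : ℤ) ≤ (s : ℤ) - r := by omega
  have := (h (E + Pi.single v ((s : ℤ) - r)) (fun w => add_nonneg (hE w) (single_nonneg _ _ hk w))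
    (by rw [deg_add, deg_single, hd]; ring)).add _ (single_nonneg v _ hk)
  convert this using 1
  abel

theorem P.le_deg [Nonempty V] {A : V → V → ℕ} (hs : ∀ u v, A u v = A v u) {D : V → ℤ} {r : ℕ}
    (h : P A D r) : (r : ℤ) ≤ deg D := by
  obtain ⟨v⟩ := ‹Nonempty V›
  have := (h (Pi.single v r) (single_nonneg _ _ (by positivity)) (deg_single _ _)).deg_nonneg hs
  rw [deg_sub, deg_single] at this
  omega

theorem P.add {A : V → V → ℕ} {D : V → ℤ} {r : ℕ} (h : P A D r) (F : V → ℤ) (hF : ∀ v, 0 ≤ F v) :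
    P A (D + F) r := by
  intro E hE hd
  convert (h E hE hd).add F hF using 1
  abel

theorem rank_ge [Nonempty V] {A : V → V → ℕ} (hs : ∀ u v, A u v = A v u) (D : V → ℤ) (r : ℕ) :
    (r : ℤ) ≤ rank A D ↔ P A D r := by
  have hb : BddAbove {r : ℕ | P A D r} := ⟨(deg D).toNat, fun s h => by
    have := P.le_deg hs h
    omega⟩
  have h0 : Win A D ↔ P A D 0 := by
    constructor
    · intro h E hE hd
      have : E = 0 := by
        funext v
        exact (sum_eq_zero_iff_of_nonneg (fun w _ => hE w)).1 hd v (mem_univ _)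
      simpa [this] using h
    · intro h
      simpa using h 0 (fun _ => le_rfl) (by simp [deg])
  unfold rank
  constructor
  · intro h
    split_ifs at h with hw
    · have h1 : P A D (sSup {r : ℕ | P A D r}) := Nat.sSup_mem ⟨0, h0.1 hw⟩ hb
      exact h1.mono (by exact_mod_cast h)
    · omega
  · intro h
    rw [if_pos (h0.2 (h.mono (Nat.zero_le _)))]
    exact_mod_cast le_csSup hb h

theorem gon_le [Nonempty V] {A : V → V → ℕ} (hs : ∀ u v, A u v = A v u) (D : V → ℤ) (r d : ℕ)
    (hd : deg D = d) (h : P A D r) : gon A r ≤ d :=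
  Nat.sInf_le ⟨D, hd, (rank_ge hs D r).2 h⟩

theorem gon_eq [Nonempty V] {A : V → V → ℕ} (hs : ∀ u v, A u v = A v u) (D : V → ℤ) (r d : ℕ)
    (hd : deg D = (d + 1 : ℕ)) (h : P A D r) (h2 : ∀ D', deg D' = d → ¬ P A D' r) :
    gon A r = d + 1 := by
  apply le_antisymm (gon_le hs D r _ hd h)
  by_contra hlt
  obtain ⟨D', h3, h4⟩ := Nat.sInf_mem (s := {d : ℕ | ∃ D : V → ℤ, deg D = d ∧ (r : ℤ) ≤ rank A D})
    ⟨d + 1, D, hd, (rank_ge hs D r).2 h⟩
  obtain ⟨v⟩ := ‹Nonempty V›
  have hk : (0 : ℤ) ≤ (d : ℤ) - gon A r := by omega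
  apply h2 (D' + Pi.single v ((d : ℤ) - gon A r))
  · rw [deg_add, deg_single, h3]; unfold gon; ring
  · exact ((rank_ge hs D' r).1 h4).add _ (single_nonneg _ _ hk)

theorem P.pred {A : V → V → ℕ} {D : V → ℤ} {r : ℕ} (h : P A D (r + 1)) (v : V) :
    P A (D - Pi.single v 1) r := by
  intro E hE hd
  convert h (E + Pi.single v 1) (fun w => add_nonneg (hE w) (single_nonneg _ _ zero_le_one w))
    (by rw [deg_add, deg_single, hd]; push_cast; ring) using 1
  abel

theorem exists_list (k : ℕ) (E : V → ℤ) (hE : ∀ v, 0 ≤ E v) (hd : deg E = k) :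
    ∃ l : List V, l.length = k ∧ E = (l.map fun v => (Pi.single v 1 : V → ℤ)).sum := by
  induction k generalizing E with
  | zero =>
    refine ⟨[], rfl, ?_⟩
    funext v
    exact (sum_eq_zero_iff_of_nonneg (fun w _ => hE w)).1 hd v (mem_univ _)
  | succ k ih =>
    have : ∃ v, 0 < E v := by
      by_contra hc
      push Not at hc
      have : deg E ≤ 0 := sum_nonpos fun v _ => hc v
      omega
    obtain ⟨v, hv⟩ := this
    obtain ⟨l, h1, h2⟩ := ih (E - Pi.single v 1) (fun w => by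
      by_cases h : w = v
      · subst h; simp; omega
      · simp [h, hE w]) (by rw [deg_sub, deg_single, hd]; push_cast; ring)
    refine ⟨v :: l, by simp [h1], ?_⟩
    rw [List.map_cons, List.sum_cons, ← h2]; abel

theorem pair_list (c : V → ℤ) (l : List V) :
    ∑ w, (l.map fun v => (Pi.single v 1 : V → ℤ)).sum w * c w = (l.map c).sum := by
  induction l with
  | nil => simp
  | cons v l ih =>
    simp only [List.map_cons, List.sum_cons, Pi.add_apply, add_mul, sum_add_distrib, ih]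
    congr 1
    rw [sum_eq_single v]
    · simp
    · intro w _ h; simp [h]
    · simp

/-- residue test: a winnable divisor of degree `k` has the invariant of a list of `k` vertices -/
theorem Win.residue {A : V → V → ℕ} (hs : ∀ u v, A u v = A v u) (c : V → ℤ) (N : ℤ)
    (hc : ∀ v, N ∣ lap A c v) {D : V → ℤ} (h : Win A D) (k : ℕ) (hd : deg D = k) :
    ∃ l : List V, l.length = k ∧ (∑ w, D w * c w) % N = (l.map c).sum % N := by
  obtain ⟨D', h1, f, h2⟩ := h
  have h3 := deg_lap hs f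
  rw [← h2, deg_sub] at h3
  obtain ⟨l, hl, h4⟩ := exists_list k D' h1 (by omega)
  refine ⟨l, hl, ?_⟩
  rw [← pair_list, ← h4]
  have h5 : N ∣ ∑ w, D w * c w - ∑ w, D' w * c w := by
    have : ∑ w, D w * c w - ∑ w, D' w * c w = ∑ w, lap A f w * c w := by
      rw [← h2, ← sum_sub_distrib]
      refine sum_congr rfl fun w _ => ?_
      simp [sub_mul]
    rw [this, pair_lap hs]
    exact dvd_sum fun w _ => Dvd.dvd.mul_left (hc w) _
  exact (Int.emod_emod_of_dvd _ dvd_rfl).symm.trans (by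
    rw [Int.emod_emod_of_dvd _ dvd_rfl]
    exact (Int.emod_eq_emod_iff_emod_sub_eq_zero.2 (Int.emod_eq_zero_of_dvd h5)))

theorem P_of_list {A : V → V → ℕ} (D : V → ℤ) (r : ℕ) (F : List (V → ℤ))
    (h : ∀ l : List V, l.length = r → ∃ f ∈ F, ∀ w, (l.count w : ℤ) ≤ D w - lap A f w) :
    P A D r := by
  intro E hE hd
  obtain ⟨l, hl, h1⟩ := exists_list r E hE hd
  obtain ⟨f, -, hf⟩ := h l hl
  have h2 : ∀ w, E w = l.count w := by
    intro w
    rw [h1]
    clear h1 hf hl
    induction l with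
    | nil => simp
    | cons v l ih =>
      simp only [List.map_cons, List.sum_cons, Pi.add_apply, ih, List.count_cons]
      by_cases e : v = w
      · subst e; simp; ring
      · simp [e, Ne.symm e]
  refine ⟨D - E - lap A f, fun w => ?_, f, by abel⟩
  have := hf w
  simp only [Pi.sub_apply, h2]
  omega

theorem no_rank_one {A : V → V → ℕ} (hs : ∀ u v, A u v = A v u) (c : V → ℕ) (N : ℕ) (hN : 0 < N)
    (hc : ∀ v, (N : ℤ) ∣ lap A (fun u => (c u : ℤ)) v) (k : ℕ) (S : ℕ → Bool)
    (h1 : ∀ l : List V, l.length = k → S ((l.map c).sum % N) = true)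
    (h2 : ∀ x < N, ∃ w, S ((x + (N - 1) * c w) % N) = false) (D : V → ℤ)
    (hd : deg D = (k + 1 : ℕ)) : ¬ P A D 1 := by
  intro h
  have hN' : (0 : ℤ) < N := by exact_mod_cast hN
  have a1 := Int.emod_nonneg (∑ w, D w * c w) hN'.ne'
  have a2 := Int.emod_lt_of_pos (∑ w, D w * c w) hN'
  obtain ⟨w, hw⟩ := h2 ((∑ w, D w * c w) % N).toNat (by omega)
  obtain ⟨l, hl, h3⟩ := (h (Pi.single w 1) (single_nonneg _ _ zero_le_one)
    (by rw [deg_single]; rfl)).residue hs _ N hc k (by rw [deg_sub, deg_single, hd]; push_cast; ring)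
  have h4 := h1 l hl
  have h5 : ∑ u, (D - Pi.single w 1 : V → ℤ) u * c u = ∑ u, D u * c u - c w := by
    simp only [Pi.sub_apply, sub_mul, sum_sub_distrib]
    congr 1
    rw [sum_eq_single w]
    · simp
    · intro u _ h; simp [h]
    · simp
  have h6 : (l.map fun u => (c u : ℤ)).sum = ((l.map c).sum : ℕ) := by
    rw [Nat.cast_list_sum, List.map_map]; rfl
  rw [h5, h6] at h3
  have h7 : (((∑ w, D w * c w) % N).toNat + (N - 1) * c w) % N = (l.map c).sum % N := by
    apply Int.ofNat_inj.1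
    rw [Int.natCast_mod, Int.natCast_mod, ← h3, Nat.cast_add, Int.toNat_of_nonneg a1, Nat.cast_mul,
      Nat.cast_sub hN, Int.emod_add_emod]
    rw [show ∑ w, D w * c w + ((N : ℤ) - (1 : ℕ)) * c w = ∑ w, D w * c w - c w + N * c w by
      push_cast; ring, Int.add_mul_emod_self_left]
  rw [h7, h4] at hw
  exact absurd hw (by decide)

theorem conn_of_root {W : Type} {A : W → W → ℕ} (hs : ∀ u v, A u v = A v u) (o : W)
    (h : ∀ v, Relation.ReflTransGen (fun a b => 0 < A a b) o v) (u v : W) :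
    Relation.ReflTransGen (fun a b => 0 < A a b) u v := by
  refine Relation.ReflTransGen.trans ?_ (h v)
  induction h u with
  | refl => exact .refl
  | tail _ h2 ih => exact .head (hs _ _ ▸ h2) ih

end Pool.Agent.H30.Gon
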