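import Pool.Agent.H30.GonDefs

set_option autoImplicit false

namespace Pool.Agent.H30.Gon
open Finset

/-- The multigraph with edge type `E`, where edge `e` joins the two vertices `ends e`:
number of edges joining `u` and `v`. -/
def mult {V E : Type} [Fintype E] [DecidableEq V] (ends : E → V × V) (u v : V) : ℕ :=
  (univ.filter fun e => ends e = (u, v) ∨ ends e = (v, u)).card

/-- The `j`-th vertex (`0 ≤ j ≤ k`) on the path of `k` edges that replaces the edge `e`. -/
def node {V E : Type} (ends : E → V × V) (k : ℕ) (e : E) (j : ℕ) : V ⊕ E × Fin (k - 1) :=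
  if h0 : j = 0 then Sum.inl (ends e).1
  else if h : j < k then Sum.inr (e, ⟨j - 1, by omega⟩)
  else Sum.inl (ends e).2

/-- The `k`-regular subdivision: every edge `e` becomes the path with edges `(e, 0), ..., (e, k-1)`
through `k - 1` new vertices. -/
def subdiv {V E : Type} (ends : E → V × V) (k : ℕ) (p : E × Fin k) :
    (V ⊕ E × Fin (k - 1)) × (V ⊕ E × Fin (k - 1)) :=
  (node ends k p.1 p.2, node ends k p.1 (p.2 + 1))

end Pool.Agent.H30.Gon
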