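import Pool.Agent.H30.Gon
import Pool.Agent.H30.GonSubDefs

set_option autoImplicit false
set_option linter.unusedSectionVars false

namespace Pool.Agent.H30.Gon
open Finset

variable {V : Type} [Fintype V] [DecidableEq V]

theorem mult_symm {E : Type} [Fintype E] (ends : E → V × V) (u v : V) :
    mult ends u v = mult ends v u := by
  unfold mult
  simp only [or_comm]

theorem lap_mult {E : Type} [Fintype E] (ends : E → V × V) (f : V → ℤ) (v : V) :
    lap (mult ends) f v = ∑ e, ((if (ends e).1 = v then f (ends e).1 - f (ends e).2 else 0) +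
      (if (ends e).2 = v then f (ends e).2 - f (ends e).1 else 0)) := by
  simp only [lap, mult, card_filter, Nat.cast_sum, sum_mul]
  rw [sum_comm]
  refine sum_congr rfl fun e _ => ?_
  obtain ⟨a, b⟩ := ends e
  simp only [Prod.mk.injEq]
  by_cases h1 : a = v <;> by_cases h2 : b = v
  · subst h1; subst h2
    simp only [true_and, and_true, or_self, if_true, sub_self, add_zero]
    refine sum_eq_zero fun u _ => ?_
    split_ifs with h
    · subst h; simp
    · simp
  · subst h1
    rw [sum_eq_single b]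
    · simp [h2]
    · intro u _ hu; simp [h2, Ne.symm hu]
    · simp
  · subst h2
    rw [sum_eq_single a]
    · simp [h1]
    · intro u _ hu; simp [h1, Ne.symm hu]
    · simp
  · simp [h1, h2]

def lapN (EL : List (ℕ × ℕ)) (g : ℕ → ℤ) (i : ℕ) : ℤ :=
  (EL.map fun p => (if p.1 = i then g p.1 - g p.2 else 0) + (if p.2 = i then g p.2 - g p.1 else 0)).sum

theorem lap_list {E : Type} [Fintype E] (ends : E → V × V) (idx : V → ℕ)
    (hi : Function.Injective idx) (EL : List (ℕ × ℕ))
    (h : (univ.val.map fun e => (idx (ends e).1, idx (ends e).2)) = (EL : Multiset (ℕ × ℕ)))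
    (g : ℕ → ℤ) (v : V) : lap (mult ends) (fun u => g (idx u)) v = lapN EL g (idx v) := by
  rw [lap_mult, lapN, ← Multiset.sum_coe, ← Multiset.map_coe, ← h, Multiset.map_map]
  simp only [Function.comp_def, hi.eq_iff]
  rfl

theorem lt_gon [Nonempty V] {A : V → V → ℕ} (hs : ∀ u v, A u v = A v u) (d : ℕ)
    (h2 : ∀ D', deg D' = d → ¬ P A D' 1) : d < gon A 1 := by
  have h : P A (fun _ => 1) 1 := by
    apply P_of_list _ 1 [0]
    intro l hl
    obtain ⟨u, rfl⟩ := List.length_eq_one_iff.1 hl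
    refine ⟨0, by simp, fun w => ?_⟩
    simp only [lap, Pi.zero_apply, sub_self, mul_zero, sum_const_zero, sub_zero]
    exact_mod_cast List.count_le_length (a := w) (l := [u])
  by_contra hlt
  obtain ⟨D', h3, h4⟩ := Nat.sInf_mem
    (s := {d : ℕ | ∃ D : V → ℤ, deg D = d ∧ ((1 : ℕ) : ℤ) ≤ rank A D})
    ⟨Fintype.card V, fun _ => 1, by simp [deg], (rank_ge hs _ 1).2 h⟩
  obtain ⟨v⟩ := ‹Nonempty V›
  have hk : (0 : ℤ) ≤ (d : ℤ) - gon A 1 := by omega
  apply h2 (D' + Pi.single v ((d : ℤ) - gon A 1))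
  · rw [deg_add, deg_single, h3]; unfold gon; ring
  · exact ((rank_ge hs D' 1).1 h4).add _ (single_nonneg _ _ hk)

def rot (N x s : ℕ) : ℕ := ((x <<< s) % 2 ^ N) ||| (x >>> (N - s))

theorem rot_bit {N x s y : ℕ} (hs : s < N) (hy : y < N) (h : x.testBit y = true) :
    (rot N x s).testBit ((s + y) % N) = true := by
  rw [rot, Nat.testBit_or, Bool.or_eq_true]
  by_cases c : s + y < N
  · left
    rw [Nat.mod_eq_of_lt c, Nat.testBit_mod_two_pow, Nat.testBit_shiftLeft]
    simp [c, h]
  · right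
    rw [Nat.testBit_shiftRight, Nat.mod_eq_sub_mod (by omega), Nat.mod_eq_of_lt (by omega),
      show N - s + (s + y - N) = y by omega, h]

def orR (N : ℕ) (cs : List ℕ) : ℕ → ℕ
  | 0 => 0
  | x + 1 => cs.foldr (fun s a => rot N (x + 1) s ||| a) 0

def andR (N : ℕ) (cs : List ℕ) : ℕ → ℕ
  | 0 => 0
  | x + 1 => cs.foldr (fun s a => rot N (x + 1) s &&& a) (2 ^ N - 1)

def RR (N : ℕ) (cs : List ℕ) : ℕ → ℕ
  | 0 => 1
  | j + 1 => orR N cs (RR N cs j)

theorem orR_bit {N x s y : ℕ} {cs : List ℕ} (hc : s ∈ cs) (hs : s < N) (hy : y < N)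
    (h : x.testBit y = true) : (orR N cs x).testBit ((s + y) % N) = true := by
  cases x with
  | zero => simp at h
  | succ x =>
    rw [orR]
    induction cs with
    | nil => simp at hc
    | cons t cs ih =>
      rw [List.foldr_cons, Nat.testBit_or, Bool.or_eq_true]
      rcases List.mem_cons.1 hc with rfl | hc
      · exact Or.inl (rot_bit hs hy h)
      · exact Or.inr (ih hc)

theorem andR_bit {N x y : ℕ} {cs : List ℕ} (hx : x ≠ 0) (hy : y < N)
    (h : ∀ s ∈ cs, (rot N x s).testBit y = true) : (andR N cs x).testBit y = true := by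
  cases x with
  | zero => simp at hx
  | succ x =>
    rw [andR]
    induction cs with
    | nil => simp [hy]
    | cons t cs ih =>
      rw [List.foldr_cons, Nat.testBit_and, Bool.and_eq_true]
      exact ⟨h t (by simp), ih fun s hs => h s (by simp [hs])⟩

theorem no_rank_one_bits [Nonempty V] {A : V → V → ℕ} (hs : ∀ u v, A u v = A v u) (c : V → ℕ)
    (N : ℕ) (hN : 1 < N) (hc : ∀ v, (N : ℤ) ∣ lap A (fun u => (c u : ℤ)) v) (hlt : ∀ v, c v < N)
    (cs : List ℕ) (h1 : ∀ v, c v ∈ cs) (h2 : ∀ s ∈ cs, ∃ v, c v = s) (k : ℕ)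
    (h : andR N cs (RR N cs k) = 0) : ∀ D, deg D = (k + 1 : ℕ) → ¬ P A D 1 := by
  apply no_rank_one hs c N (by omega) hc k (RR N cs k).testBit
  · intro l hl
    subst hl
    clear h
    induction l with
    | nil => simp [RR]
    | cons v l ih =>
      rw [List.length_cons, RR, List.map_cons, List.sum_cons, ← Nat.add_mod_mod]
      exact orR_bit (h1 v) (hlt v) (Nat.mod_lt _ (by omega)) ih
  · intro x hx
    by_contra hcon
    push Not at hcon
    obtain ⟨v0⟩ := ‹Nonempty V›
    have h0 : RR N cs k ≠ 0 := by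
      intro e
      have := hcon v0
      simp [e] at this
    have := andR_bit (cs := cs) h0 hx (fun s hs => by
      obtain ⟨v, rfl⟩ := h2 s hs
      have h3 := rot_bit (hlt v) (Nat.mod_lt _ (by omega)) (Bool.of_not_eq_false (hcon v))
      rwa [Nat.add_mod_mod, show c v + (x + (N - 1) * c v) = x + N * c v by
        obtain ⟨M, rfl⟩ : ∃ M, N = M + 1 := ⟨N - 1, by omega⟩
        simp; ring, Nat.add_mul_mod_self_left, Nat.mod_eq_of_lt hx] at h3)
    simp [h] at this

end Pool.Agent.H30.Gon
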