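import Mathlib

set_option autoImplicit false

namespace Pool.Agent.H30.Gon
open Finset Classical

/-- A finite connected loopless multigraph on a nonempty vertex type `V`:
`A u v` is the number of edges joining `u` and `v`. -/
structure IsGraph {V : Type} (A : V → V → ℕ) : Prop where
  ne : Nonempty V
  symm : ∀ u v, A u v = A v u
  loopless : ∀ v, A v v = 0
  conn : ∀ u v, Relation.ReflTransGen (fun a b => 0 < A a b) u v

variable {V : Type} [Fintype V]

/-- Number of edges: half the sum of all multiplicities over ordered pairs. -/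
def numEdges (A : V → V → ℕ) : ℕ := (∑ u, ∑ v, A u v) / 2

/-- Genus: edges minus vertices plus one. -/
def genus (A : V → V → ℕ) : ℤ := (numEdges A : ℤ) - Fintype.card V + 1

/-- Degree of a divisor. -/
def deg (D : V → ℤ) : ℤ := ∑ v, D v

/-- The graph Laplacian applied to an integer function on the vertices. -/
def lap (A : V → V → ℕ) (f : V → ℤ) : V → ℤ := fun v => ∑ u, (A v u : ℤ) * (f v - f u)

/-- `D` is linearly equivalent to an effective divisor. -/
def Win (A : V → V → ℕ) (D : V → ℤ) : Prop :=
  ∃ D' : V → ℤ, (∀ v, 0 ≤ D' v) ∧ ∃ f : V → ℤ, D - D' = lap A f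

/-- Baker-Norine rank. -/
noncomputable def rank (A : V → V → ℕ) (D : V → ℤ) : ℤ :=
  if Win A D then
    (sSup {r : ℕ | ∀ E : V → ℤ, (∀ v, 0 ≤ E v) → deg E = r → Win A (D - E)} : ℕ)
  else -1

/-- The `r`-th gonality: least degree of a divisor of rank at least `r`. -/
noncomputable def gon (A : V → V → ℕ) (r : ℕ) : ℕ :=
  sInf {d : ℕ | ∃ D : V → ℤ, deg D = d ∧ (r : ℤ) ≤ rank A D}

end Pool.Agent.H30.Gon
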