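import Pool.Agent.H30.GonDefs

set_option autoImplicit false

namespace Pool.Agent.H30.Gon

/-- Cartesian product of multigraphs (multiplicities kept). -/
def boxProd {V W : Type} [DecidableEq V] [DecidableEq W] (A : V → V → ℕ) (B : W → W → ℕ) :
    V × W → V × W → ℕ :=
  fun x y => (if x.2 = y.2 then A x.1 y.1 else 0) + (if x.1 = y.1 then B x.2 y.2 else 0)

end Pool.Agent.H30.Gon
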