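import Pool.Agent.H30.GonB

set_option autoImplicit false

namespace Pool.Agent.H30.GonS
open Finset Pool.Agent.H30.Gon

def ends : Fin 31 → Fin 13 × Fin 13 := fun e =>
  ([(1, 2), (3, 4), (5, 6), (7, 8), (9, 10), (11, 12), (0, 2), (0, 6), (0, 9), (0, 7), (0, 12), (2, 5), (2, 5), (2, 11), (2, 11), (2, 11), (4, 6), (4, 6), (6, 9), (6, 9), (1, 3), (1, 3), (1, 3), (1, 7), (1, 7), (1, 7), (8, 10), (8, 10), (8, 12), (8, 12), (8, 12)] : List (Fin 13 × Fin 13)).getD e.val (0, 0)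

def cs : List ℕ := [0, 686459, 309326, 1032089, 548335, 308370, 306458, 466540, 273323, 216854, 254500, 287361, 221466]

theorem isGraph : IsGraph (mult ends) := by
  refine ⟨inferInstance, mult_symm ends, by decide +kernel,
    conn_of_root (mult_symm ends) 0 fun v => ?_⟩
  have s : ∀ u v, 0 < mult ends u v → Relation.ReflTransGen (fun a b => 0 < mult ends a b) u v :=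
    fun u v h => Relation.ReflTransGen.single h
  have h2 := s 0 2 (by decide +kernel)
  have h6 := s 0 6 (by decide +kernel)
  have h7 := s 0 7 (by decide +kernel)
  have h9 := s 0 9 (by decide +kernel)
  have h12 := s 0 12 (by decide +kernel)
  have h1 := h2.trans (s 2 1 (by decide +kernel))
  have h5 := h2.trans (s 2 5 (by decide +kernel))
  have h11 := h2.trans (s 2 11 (by decide +kernel))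
  have h4 := h6.trans (s 6 4 (by decide +kernel))
  have h3 := h4.trans (s 4 3 (by decide +kernel))
  have h8 := h7.trans (s 7 8 (by decide +kernel))
  have h10 := h9.trans (s 9 10 (by decide +kernel))
  fin_cases v
  exacts [.refl, h1, h2, h3, h4, h5, h6, h7, h8, h9, h10, h11, h12]

theorem low : 8 < gon (mult ends) 1 := by
  apply lt_gon (mult_symm ends)
  refine no_rank_one_bits (mult_symm ends) (fun v => cs.getD v.val 0) 1520644 (by norm_num) ?_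
    (by decide +kernel) cs (by decide +kernel) (by decide +kernel) 7 (by decide +kernel)
  simp only [lap_mult]
  decide +kernel

def idx : Fin 13 ⊕ Fin 31 × Fin (3 - 1) → ℕ
  | Sum.inl x => x.val
  | Sum.inr p => 13 + 2 * p.1.val + p.2.val

def EL : List (ℕ × ℕ) := [(1, 13), (13, 14), (14, 2), (3, 15), (15, 16), (16, 4), (5, 17), (17, 18), (18, 6), (7, 19), (19, 20), (20, 8), (9, 21), (21, 22), (22, 10), (11, 23), (23, 24), (24, 12), (0, 25), (25, 26), (26, 2), (0, 27), (27, 28), (28, 6), (0, 29), (29, 30), (30, 9), (0, 31), (31, 32), (32, 7), (0, 33), (33, 34), (34, 12), (2, 35), (35, 36), (36, 5), (2, 37), (37, 38), (38, 5), (2, 39), (39, 40), (40, 11), (2, 41), (41, 42), (42, 11), (2, 43), (43, 44), (44, 11),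 (4, 45), (45, 46), (46, 6), (4, 47), (47, 48), (48, 6), (6, 49), (49, 50), (50, 9), (6, 51), (51, 52), (52, 9), (1, 53), (53, 54), (54, 3), (1, 55), (55, 56), (56, 3), (1, 57), (57, 58), (58, 3), (1, 59), (59, 60), (60, 7), (1, 61), (61, 62), (62, 7), (1, 63), (63, 64), (64, 7), (8, 65), (65, 66), (66, 10), (8, 67), (67, 68), (68, 10), (8, 69), (69, 70), (70, 12), (8, 71), (71, 72), (72, 12), (8, 73), (73, 74), (74, 12)]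

def S : List (List ℕ × List ℕ) := [([0, 1, 15, 18, 19, 21, 23, 31],[0, 1, 0, 1, 0, 0, 0, 1, 0, 0, 0, 0, 0, 0, 0, 1, 0, 0, 0, 1, 0, 0, 0, 0, 0, 0, 0, 0, 0, 0, 0, 1, 1, 0, 0, 0, 0, 0, 0, 0, 0, 0, 0, 0, 0, 0, 0, 0, 0, 0, 0, 0, 0, 1, 1, 1, 1, 1, 1, 1, 1, 1, 1, 1, 1, 0, 0, 0, 0, 0, 0, 0, 0, 0, 0]),
  ([2, 5, 8, 11, 16, 22, 26, 33],[0, 0, 2, 0, 0, 2, 0, 0, 1, 0, 1, 2, 1, 0, 1, 0, 0, 1, 0, 0, 0, 0, 1, 1, 1, 1, 2, 0, 0, 0, 0, 0, 0, 1, 1, 2, 2, 2, 2, 2, 2, 2, 2, 2, 2, 0, 0, 0, 0, 0, 0, 0, 0, 0, 0, 0, 0, 0, 0, 0, 0, 0, 0, 0, 0, 1, 1, 1, 1, 1, 1, 1, 1, 1, 1]),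
  ([4, 6, 9, 13, 20, 23, 27, 29],[0, 0, 0, 0, 1, 0, 1, 0, 0, 1, 0, 0, 0, 0, 0, 0, 0, 0, 0, 0, 0, 0, 0, 0, 0, 0, 0, 1, 1, 1, 1, 0, 0, 0, 0, 0, 0, 0, 0, 0, 0, 0, 0, 0, 0, 1, 1, 1, 1, 1, 1, 1, 1, 0, 0, 0, 0, 0, 0, 0, 0, 0, 0, 0, 0, 0, 0, 0, 0, 0, 0, 0, 0, 0, 0]),
  ([3, 11, 17, 21, 25, 32, 59, 60],[0, 2, 1, 2, 0, 1, 0, 2, 0, 0, 0, 1, 0, 1, 1, 1, 0, 1, 0, 1, 0, 0, 0, 0, 0, 1, 1, 0, 0, 0, 0, 1, 2, 0, 0, 1, 1, 1, 1, 1, 1, 1, 1, 1, 1, 0, 0, 0, 0, 0, 0, 0, 0, 2, 2, 2, 2, 2, 2, 3, 3, 2, 2, 2, 2, 0, 0, 0, 0, 0, 0, 0, 0, 0, 0]),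
  ([1, 12, 15, 18, 31, 34, 65, 66],[0, 1, 0, 1, 0, 0, 0, 1, 2, 0, 2, 0, 2, 0, 0, 1, 0, 0, 0, 1, 1, 0, 1, 0, 1, 0, 0, 0, 0, 0, 0, 1, 1, 1, 2, 0, 0, 0, 0, 0, 0, 0, 0, 0, 0, 0, 0, 0, 0, 0, 0, 0, 0, 1, 1, 1, 1, 1, 1, 1, 1, 1, 1, 1, 1, 3, 3, 2, 2, 2, 2, 2, 2, 2, 2]),
  ([1, 10, 15, 18, 31, 34, 69, 70],[0, 1, 0, 1, 0, 0, 0, 1, 2, 0, 2, 0, 2, 0, 0, 1, 0, 0, 0, 1, 1, 0, 1, 0, 1, 0, 0, 0, 0, 0, 0, 1, 1, 1, 2, 0, 0, 0, 0, 0, 0, 0, 0, 0, 0, 0, 0, 0, 0, 0, 0, 0, 0, 1, 1, 1, 1, 1, 1, 1, 1, 1, 1, 1, 1, 2, 2, 2, 2, 3, 3, 2, 2, 2, 2]),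
  ([7, 11, 17, 21, 25, 32, 53, 54],[0, 2, 1, 2, 0, 1, 0, 2, 0, 0, 0, 1, 0, 1, 1, 1, 0, 1, 0, 1, 0, 0, 0, 0, 0, 1, 1, 0, 0, 0, 0, 1, 2, 0, 0, 1, 1, 1, 1, 1, 1, 1, 1, 1, 1, 0, 0, 0, 0, 0, 0, 0, 0, 3, 3, 2, 2, 2, 2, 2, 2, 2, 2, 2, 2, 0, 0, 0, 0, 0, 0, 0, 0, 0, 0]),
  ([13, 20, 23, 27, 30, 30, 45, 46],[0, 0, 0, 0, 1, 0, 1, 0, 0, 1, 0, 0, 0, 0, 0, 0, 0, 0, 0, 0, 0, 0, 0, 0, 0, 0, 0, 1, 1, 1, 2, 0, 0, 0, 0, 0, 0, 0, 0, 0, 0, 0, 0, 0, 0, 2, 2, 1, 1, 1, 1, 1, 1, 0, 0, 0, 0, 0, 0, 0, 0, 0, 0, 0, 0, 0, 0, 0, 0, 0, 0, 0, 0, 0, 0]),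
  ([1, 12, 15, 18, 31, 34, 67, 68],[0, 1, 0, 1, 0, 0, 0, 1, 2, 0, 2, 0, 2, 0, 0, 1, 0, 0, 0, 1, 1, 0, 1, 0, 1, 0, 0, 0, 0, 0, 0, 1, 1, 1, 2, 0, 0, 0, 0, 0, 0, 0, 0, 0, 0, 0, 0, 0, 0, 0, 0, 0, 0, 1, 1, 1, 1, 1, 1, 1, 1, 1, 1, 1, 1, 2, 2, 3, 3, 2, 2, 2, 2, 2, 2]),
  ([1, 10, 15, 18, 31, 34, 71, 72],[0, 1, 0, 1, 0, 0, 0, 1, 2, 0, 2, 0, 2, 0, 0, 1, 0, 0, 0, 1, 1, 0, 1, 0, 1, 0, 0, 0, 0, 0, 0, 1, 1, 1, 2, 0, 0, 0, 0, 0, 0, 0, 0, 0, 0, 0, 0, 0, 0, 0, 0, 0, 0, 1, 1, 1, 1, 1, 1, 1, 1, 1, 1, 1, 1, 2, 2, 2, 2, 2, 2, 3, 3, 2, 2]),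
  ([1, 10, 15, 18, 31, 34, 73, 74],[0, 1, 0, 1, 0, 0, 0, 1, 2, 0, 2, 0, 2, 0, 0, 1, 0, 0, 0, 1, 1, 0, 1, 0, 1, 0, 0, 0, 0, 0, 0, 1, 1, 1, 2, 0, 0, 0, 0, 0, 0, 0, 0, 0, 0, 0, 0, 0, 0, 0, 0, 0, 0, 1, 1, 1, 1, 1, 1, 1, 1, 1, 1, 1, 1, 2, 2, 2, 2, 2, 2, 2, 2, 3, 3]),
  ([3, 11, 17, 21, 25, 32, 61, 62],[0, 2, 1, 2, 0, 1, 0, 2, 0, 0, 0, 1, 0, 1, 1, 1, 0, 1, 0, 1, 0, 0, 0, 0, 0, 1, 1, 0, 0, 0, 0, 1, 2, 0, 0, 1, 1, 1, 1, 1, 1, 1, 1, 1, 1, 0, 0, 0, 0, 0, 0, 0, 0, 2, 2, 2, 2, 2, 2, 2, 2, 3, 3, 2, 2, 0, 0, 0, 0, 0, 0, 0, 0, 0, 0]),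
  ([3, 11, 17, 21, 25, 32, 63, 64],[0, 2, 1, 2, 0, 1, 0, 2, 0, 0, 0, 1, 0, 1, 1, 1, 0, 1, 0, 1, 0, 0, 0, 0, 0, 1, 1, 0, 0, 0, 0, 1, 2, 0, 0, 1, 1, 1, 1, 1, 1, 1, 1, 1, 1, 0, 0, 0, 0, 0, 0, 0, 0, 2, 2, 2, 2, 2, 2, 2, 2, 2, 2, 3, 3, 0, 0, 0, 0, 0, 0, 0, 0, 0, 0]),
  ([4, 13, 20, 23, 27, 29, 49, 50],[0, 0, 0, 0, 1, 0, 1, 0, 0, 1, 0, 0, 0, 0, 0, 0, 0, 0, 0, 0, 0, 0, 0, 0, 0, 0, 0, 1, 1, 1, 1, 0, 0, 0, 0, 0, 0, 0, 0, 0, 0, 0, 0, 0, 0, 1, 1, 1, 1, 2, 2, 1, 1, 0, 0, 0, 0, 0, 0, 0, 0, 0, 0, 0, 0, 0, 0, 0, 0, 0, 0, 0, 0, 0, 0]),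
  ([4, 13, 20, 23, 27, 29, 51, 52],[0, 0, 0, 0, 1, 0, 1, 0, 0, 1, 0, 0, 0, 0, 0, 0, 0, 0, 0, 0, 0, 0, 0, 0, 0, 0, 0, 1, 1, 1, 1, 0, 0, 0, 0, 0, 0, 0, 0, 0, 0, 0, 0, 0, 0, 1, 1, 1, 1, 1, 1, 2, 2, 0, 0, 0, 0, 0, 0, 0, 0, 0, 0, 0, 0, 0, 0, 0, 0, 0, 0, 0, 0, 0, 0]),
  ([5, 8, 16, 22, 26, 33, 39, 40],[0, 0, 2, 0, 0, 2, 0, 0, 1, 0, 1, 2, 1, 0, 1, 0, 0, 1, 0, 0, 0, 0, 1, 1, 1, 1, 2, 0, 0, 0, 0, 0, 0, 1, 1, 2, 2, 2, 2, 3, 3, 2, 2, 2, 2, 0, 0, 0, 0, 0, 0, 0, 0, 0, 0, 0, 0, 0, 0, 0, 0, 0, 0, 0, 0, 1, 1, 1, 1, 1, 1, 1, 1, 1, 1]),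
  ([5, 8, 16, 22, 26, 33, 41, 42],[0, 0, 2, 0, 0, 2, 0, 0, 1, 0, 1, 2, 1, 0, 1, 0, 0, 1, 0, 0, 0, 0, 1, 1, 1, 1, 2, 0, 0, 0, 0, 0, 0, 1, 1, 2, 2, 2, 2, 2, 2, 3, 3, 2, 2, 0, 0, 0, 0, 0, 0, 0, 0, 0, 0, 0, 0, 0, 0, 0, 0, 0, 0, 0, 0, 1, 1, 1, 1, 1, 1, 1, 1, 1, 1]),
  ([5, 8, 16, 22, 26, 33, 43, 44],[0, 0, 2, 0, 0, 2, 0, 0, 1, 0, 1, 2, 1, 0, 1, 0, 0, 1, 0, 0, 0, 0, 1, 1, 1, 1, 2, 0, 0, 0, 0, 0, 0, 1, 1, 2, 2, 2, 2, 2, 2, 2, 2, 3, 3, 0, 0, 0, 0, 0, 0, 0, 0, 0, 0, 0, 0, 0, 0, 0, 0, 0, 0, 0, 0, 1, 1, 1, 1, 1, 1, 1, 1, 1, 1]),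
  ([7, 11, 17, 21, 25, 32, 55, 56],[0, 2, 1, 2, 0, 1, 0, 2, 0, 0, 0, 1, 0, 1, 1, 1, 0, 1, 0, 1, 0, 0, 0, 0, 0, 1, 1, 0, 0, 0, 0, 1, 2, 0, 0, 1, 1, 1, 1, 1, 1, 1, 1, 1, 1, 0, 0, 0, 0, 0, 0, 0, 0, 2, 2, 3, 3, 2, 2, 2, 2, 2, 2, 2, 2, 0, 0, 0, 0, 0, 0, 0, 0, 0, 0]),
  ([7, 11, 17, 21, 25, 32, 57, 58],[0, 2, 1, 2, 0, 1, 0, 2, 0, 0, 0, 1, 0, 1, 1, 1, 0, 1, 0, 1, 0, 0, 0, 0, 0, 1, 1, 0, 0, 0, 0, 1, 2, 0, 0, 1, 1, 1, 1, 1, 1, 1, 1, 1, 1, 0, 0, 0, 0, 0, 0, 0, 0, 2, 2, 2, 2, 3, 3, 2, 2, 2, 2, 2, 2, 0, 0, 0, 0, 0, 0, 0, 0, 0, 0]),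
  ([8, 11, 16, 22, 26, 33, 35, 36],[0, 0, 2, 0, 0, 2, 0, 0, 1, 0, 1, 2, 1, 0, 1, 0, 0, 1, 0, 0, 0, 0, 1, 1, 1, 1, 2, 0, 0, 0, 0, 0, 0, 1, 1, 3, 3, 2, 2, 2, 2, 2, 2, 2, 2, 0, 0, 0, 0, 0, 0, 0, 0, 0, 0, 0, 0, 0, 0, 0, 0, 0, 0, 0, 0, 1, 1, 1, 1, 1, 1, 1, 1, 1, 1]),
  ([8, 11, 16, 22, 26, 33, 37, 38],[0, 0, 2, 0, 0, 2, 0, 0, 1, 0, 1, 2, 1, 0, 1, 0, 0, 1, 0, 0, 0, 0, 1, 1, 1, 1, 2, 0, 0, 0, 0, 0, 0, 1, 1, 2, 2, 3, 3, 2, 2, 2, 2, 2, 2, 0, 0, 0, 0, 0, 0, 0, 0, 0, 0, 0, 0, 0, 0, 0, 0, 0, 0, 0, 0, 1, 1, 1, 1, 1, 1, 1, 1, 1, 1]),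
  ([9, 13, 20, 23, 27, 29, 47, 48],[0, 0, 0, 0, 1, 0, 1, 0, 0, 1, 0, 0, 0, 0, 0, 0, 0, 0, 0, 0, 0, 0, 0, 0, 0, 0, 0, 1, 1, 1, 1, 0, 0, 0, 0, 0, 0, 0, 0, 0, 0, 0, 0, 0, 0, 1, 1, 2, 2, 1, 1, 1, 1, 0, 0, 0, 0, 0, 0, 0, 0, 0, 0, 0, 0, 0, 0, 0, 0, 0, 0, 0, 0, 0, 0]),
  ([0, 8, 13, 16, 18, 22, 24, 33],[0, 0, 0, 0, 0, 0, 0, 0, 1, 0, 1, 0, 1, 0, 0, 0, 0, 0, 0, 0, 0, 0, 1, 0, 1, 0, 0, 0, 0, 0, 0, 0, 0, 1, 1, 0, 0, 0, 0, 0, 0, 0, 0, 0, 0, 0, 0, 0, 0, 0, 0, 0, 0, 0, 0, 0, 0, 0, 0, 0, 0, 0, 0, 0, 0, 1, 1, 1, 1, 1, 1, 1, 1, 1, 1]),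
  ([0, 11, 14, 16, 17, 20, 21, 25],[0, 0, 1, 0, 0, 1, 0, 0, 0, 0, 0, 1, 0, 0, 1, 0, 0, 1, 0, 0, 0, 0, 0, 0, 0, 1, 1, 0, 0, 0, 0, 0, 0, 0, 0, 1, 1, 1, 1, 1, 1, 1, 1, 1, 1, 0, 0, 0, 0, 0, 0, 0, 0, 0, 0, 0, 0, 0, 0, 0, 0, 0, 0, 0, 0, 0, 0, 0, 0, 0, 0, 0, 0, 0, 0]),
  ([4, 9, 13, 20, 23, 28, 28, 29],[0, 0, 0, 0, 1, 0, 1, 0, 0, 1, 0, 0, 0, 0, 0, 0, 0, 0, 0, 0, 0, 0, 0, 0, 0, 0, 0, 1, 2, 1, 1, 0, 0, 0, 0, 0, 0, 0, 0, 0, 0, 0, 0, 0, 0, 1, 1, 1, 1, 1, 1, 1, 1, 0, 0, 0, 0, 0, 0, 0, 0, 0, 0, 0, 0, 0, 0, 0, 0, 0, 0, 0, 0, 0, 0])]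

def D : List ℕ := [13, 16, 18, 20, 21, 23, 0, 0]

theorem idx_inj : Function.Injective idx := by
  rintro (x | ⟨e, j⟩) (y | ⟨e', j'⟩) h <;> simp only [idx] at h
  · rw [Fin.ext h]
  · omega
  · omega
  · have h1 : e = e' := Fin.ext (by omega)
    have h2 : j = j' := Fin.ext (by omega)
    rw [h1, h2]

theorem idx_lt : ∀ w, idx w < 75 := by
  rintro (x | ⟨e, j⟩) <;> simp only [idx] <;> omega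

theorem up : gon (mult (subdiv ends 3)) 1 ≤ 8 := by
  have h0 : (univ.val.map fun e => (idx (subdiv ends 3 e).1, idx (subdiv ends 3 e).2)) =
      (EL : Multiset (ℕ × ℕ)) := by decide +kernel
  have a : ∀ x ∈ S, ∀ i < 75, (D.count i : ℤ) - lapN EL (fun j => -(x.2.getD j 0 : ℕ)) i =
      (x.1.count i : ℕ) := by decide +kernel
  have b : ∀ i < 75, ∃ x ∈ S, 1 ≤ x.1.count i := by decide +kernel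
  refine gon_le (mult_symm _) (fun w => (D.count (idx w) : ℕ)) 1 8 (by decide +kernel) ?_
  apply P_of_list _ 1 (S.map fun x w => -(x.2.getD (idx w) 0 : ℕ))
  intro l hl
  obtain ⟨u, rfl⟩ := List.length_eq_one_iff.1 hl
  obtain ⟨x, hx, h⟩ := b _ (idx_lt u)
  refine ⟨_, List.mem_map.2 ⟨x, hx, rfl⟩, fun w => ?_⟩
  rw [lap_list _ idx idx_inj EL h0 (fun j => -(x.2.getD j 0 : ℕ)), a x hx _ (idx_lt w)]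
  by_cases e : u = w
  · subst e; simpa using h
  · simp [e]

end Pool.Agent.H30.GonS
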