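import Pool.Agent.H30.Gon

set_option autoImplicit false

namespace Pool.Agent.H30.GonT
open Finset Pool.Agent.H30.Gon

def vec (l : List ℤ) : Fin 9 → ℤ := fun v => l.getD v.val 0

def A : Fin 9 → Fin 9 → ℕ := fun u v => ([[0, 0, 2, 0, 0, 0, 0, 2, 0], [0, 0, 0, 0, 3, 0, 1, 0, 0], [2, 0, 0, 1, 0, 0, 0, 0, 0], [0, 0, 1, 0, 0, 1, 0, 0, 0], [0, 3, 0, 0, 0, 1, 0, 1, 0], [0, 0, 0, 1, 1, 0, 1, 0, 0], [0, 1, 0, 0, 0, 1, 0, 0, 2], [2, 0, 0, 0, 1, 0, 0, 0, 1], [0, 0, 0, 0, 0, 0, 2, 1, 0]].getD u.val []).getD v.val 0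

def c : Fin 9 → ℕ := fun v => [0, 72, 238, 172, 71, 106, 75, 33, 61].getD v.val 0

def M : ℕ := 449891595655222627433083445869610120172280508789133798760459241911519087510040347966677422801257258385169258081730974528212981426153683951463721728990458255770209

def E2 : List (List ℤ × List ℤ) := [([2, 1, 0, 1, 1, 1, 0, 0, 0], [-1, -2, -1, -2, -2, -2, -1, -1, 0]), ([2, 0, 1, 0, 0, 0, 2, 1, 0], [-1, -1, -1, -1, -1, -1, -1, -1, 0]), ([2, 0, 1, 0, 0, 0, 0, 0, 3], [0, 0, 0, 0, 0, 0, 0, 0, 0]), ([0, 5, 0, 0, 0, 0, 0, 0, 1], [0, -4, 0, -1, -3, -2, -2, -1, -1]), ([0, 1, 3, 0, 1, 1, 0, 0, 0], [-1, -2, -2, -2, -2, -2, -1, -1, 0]), ([0, 1, 2, 2, 1, 0, 0, 0, 0], [-1, -2, -2, -3, -2, -2, -1, -1, 0]), ([0, 1, 0, 0, 3, 0, 1, 0, 1], [0, -3, 0, -1, -3, -2, -2, -1, -1]), ([0, 1, 0, 0, 1, 2, 0, 2, 0], [0, -2, 0, -1, -2, -2, -1,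 -1, 0]), ([0, 0, 0, 1, 0, 0, 2, 3, 0], [0, -1, 0, -1, -1, -1, -1, -1, 0]), ([0, 0, 0, 1, 0, 0, 0, 2, 3], [0, -1, 0, -1, -1, -1, -1, -1, -1]), ([0, 0, 0, 0, 1, 1, 2, 1, 1], [0, -2, 0, -1, -2, -2, -2, -1, -1]), ([0, 0, 0, 0, 1, 1, 0, 0, 4], [0, -2, 0, -1, -2, -2, -2, -1, -2])]

def E3 : List (List ℤ × List ℤ) := [([4, 1, 1, 1, 0, 0, 1, 0, 0], [-2, 0, -2, -1, 0, 0, 0, -1, 0]), ([2, 2, 1, 0, 2, 0, 0, 1, 0], [-1, -1, -1, 0, -1, 0, 0, -1, 0]), ([2, 1, 4, 0, 0, 0, 1, 0, 0], [-2, 0, -3, -1, 0, 0, 0, -1, 0]), ([2, 1, 1, 0, 0, 1, 1, 2, 0], [-1, 0, -1, 0, 0, 0, 0, -1, 0]), ([2, 1, 0, 2, 0, 0, 1, 2, 0], [-1, 0, -1, -1, 0, 0, 0, -1, 0]), ([2, 1, 0, 1, 1, 1, 1, 0, 1], [0, 0, 0, 0, 0, 0, 0, 0, 0]), ([2, 1, 0, 0, 0, 4, 0, 0, 1], [0, 0, 0, 0, 0, -1, 0, 0, 0]), ([2, 0, 1, 0, 0, 0, 3, 1, 1], [-1, 0, -1, 0, 0, 0, -1, -1, -1]),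 ([2, 0, 1, 0, 0, 0, 1, 0, 4], [-1, 0, -1, 0, 0, 0, -1, -1, -2]), ([0, 5, 0, 0, 0, 0, 1, 0, 2], [0, -3, 0, 0, -2, -1, -2, -1, -2]), ([0, 2, 0, 1, 2, 0, 0, 3, 0], [0, -1, 0, 0, -1, 0, 0, -1, 0]), ([0, 2, 0, 0, 3, 1, 0, 1, 1], [0, -2, 0, 0, -2, -1, -1, -1, -1]), ([0, 1, 3, 1, 0, 0, 1, 2, 0], [-1, 0, -2, -1, 0, 0, 0, -1, 0]), ([0, 1, 3, 0, 1, 1, 1, 0, 1], [0, 0, -1, 0, 0, 0, 0, 0, 0]), ([0, 1, 2, 2, 1, 0, 1, 0, 1], [0, 0, -1, -1, 0, 0, 0, 0, 0]), ([0, 1, 2, 1, 0, 3, 0, 0, 1], [0, 0, -1, -1, 0, -1, 0, 0, 0]), ([0, 1, 1, 3, 0, 2, 0, 0, 1], [0, 0, -1, -2, 0, -1, 0, 0, 0]), ([0, 1, 0, 5, 0, 1, 0, 0, 1], [0, 0, -1, -3, 0, -1, 0, 0, 0]), ([0, 1, 0, 1, 0, 1, 1, 4, 0], [0, 0, 0, 0, 0, 0, 0, -1, 0]), ([0, 1, 0, 0, 3, 0, 2, 0, 2], [0, -2, 0, 0, -2, -1, -2, -1, -2]), ([0, 1, 0, 0, 1, 2, 1, 2, 1], [0, -1, 0, 0, -1, -1, -1,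 -1, -1]), ([0, 0, 0, 1, 0, 0, 3, 3, 1], [0, 0, 0, 0, 0, 0, -1, -1, -1]), ([0, 0, 0, 1, 0, 0, 1, 2, 4], [0, 0, 0, 0, 0, 0, -1, -1, -2]), ([0, 0, 0, 0, 1, 1, 3, 1, 2], [0, -1, 0, 0, -1, -1, -2, -1, -2]), ([0, 0, 0, 0, 1, 1, 1, 0, 5], [0, -1, 0, 0, -1, -1, -2, -1, -3])]

def D2 : Fin 9 → ℤ := vec [2, 0, 1, 0, 0, 0, 0, 0, 3]
def D3 : Fin 9 → ℤ := vec [2, 1, 0, 1, 1, 1, 1, 0, 1]

theorem symm : ∀ u v, A u v = A v u := by decide +kernel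

theorem isGraph : IsGraph A := by
  refine ⟨inferInstance, symm, by decide +kernel, ?_⟩
  have s : ∀ u v, 0 < A u v → Relation.ReflTransGen (fun a b => 0 < A a b) u v :=
    fun u v h => Relation.ReflTransGen.single h
  have h2 := s 0 2 (by decide)
  have h7 := s 0 7 (by decide)
  have h3 := h2.trans (s 2 3 (by decide))
  have h5 := h3.trans (s 3 5 (by decide))
  have h4 := h7.trans (s 7 4 (by decide))
  have h8 := h7.trans (s 7 8 (by decide))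
  have h1 := h4.trans (s 4 1 (by decide))
  have h6 := h8.trans (s 8 6 (by decide))
  have h : ∀ v, Relation.ReflTransGen (fun a b => 0 < A a b) 0 v := by
    intro v
    fin_cases v
    exacts [Relation.ReflTransGen.refl, h1, h2, h3, h4, h5, h6, h7, h8]
  exact conn_of_root symm 0 h

theorem genus_eq : genus A = 8 := by decide +kernel

theorem p2 : P A D2 2 := by
  have a : ∀ x ∈ E2, ∀ w, D2 w - lap A (vec x.2) w = vec x.1 w := by decide +kernel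
  have b : ∀ u v : Fin 9, ∃ x ∈ E2, ∀ w, (([u, v].count w : ℕ) : ℤ) ≤ vec x.1 w := by
    decide +kernel
  apply P_of_list D2 2 (E2.map fun x => vec x.2)
  intro l hl
  obtain ⟨u, v, rfl⟩ := List.length_eq_two.1 hl
  obtain ⟨x, hx, h⟩ := b u v
  exact ⟨_, List.mem_map.2 ⟨x, hx, rfl⟩, fun w => (a x hx w).symm ▸ h w⟩

theorem p3 : P A D3 3 := by
  have a : ∀ x ∈ E3, ∀ w, D3 w - lap A (vec x.2) w = vec x.1 w := by decide +kernel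
  have b : ∀ u v t : Fin 9, ∃ x ∈ E3, ∀ w, (([u, v, t].count w : ℕ) : ℤ) ≤ vec x.1 w := by
    decide +kernel
  apply P_of_list D3 3 (E3.map fun x => vec x.2)
  intro l hl
  obtain ⟨u, v, t, rfl⟩ := List.length_eq_three.1 hl
  obtain ⟨x, hx, h⟩ := b u v t
  exact ⟨_, List.mem_map.2 ⟨x, hx, rfl⟩, fun w => (a x hx w).symm ▸ h w⟩

theorem n4 : ∀ D, deg D = (4 : ℕ) → ¬ P A D 1 := by
  apply no_rank_one symm c 542 (by norm_num) (by decide +kernel) 3 M.testBit _ (by decide +kernel)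
  have b : ∀ u v t : Fin 9, M.testBit (([u, v, t].map c).sum % 542) = true := by decide +kernel
  intro l hl
  obtain ⟨u, v, t, rfl⟩ := List.length_eq_three.1 hl
  exact b u v t

theorem g1 : gon A 1 = 5 :=
  gon_eq symm (D2 - Pi.single 0 1) 1 4 (by decide +kernel) (p2.pred 0) n4

theorem g2 : gon A 2 = 6 :=
  gon_eq symm D2 2 5 (by decide +kernel) p2 fun D hd h =>
    n4 (D - Pi.single 0 1) (by rw [deg_sub, deg_single, hd]; rfl) (h.pred 0)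

theorem g3 : gon A 3 ≤ 8 := gon_le symm D3 3 8 (by decide +kernel) p3

end Pool.Agent.H30.GonT
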