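import Pool.Agent.H30.IepDefs
import Pool.Agent.H37.RE

/-! A decidable normal extension of GL with undecidable interpolant existence problem. -/

namespace Pool.Agent.H30.Iep

open Pool.Agent.H37

/-- chain `0 .. a+b-1`, root `a+b`, side point `a+b+1` of height `a` seen only by the root -/
def R (a b x y : ℕ) : Prop :=
  (x ≤ a + b ∧ y < x) ∨ (x = a + b ∧ y = a + b + 1) ∨ (x = a + b + 1 ∧ y < a)

def Sat (a b : ℕ) (V : ℕ → ℕ → Prop) : Fm → ℕ → Prop
  | .var n, x => V n x
  | .bot, _ => False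
  | .imp φ ψ, x => Sat a b V φ x → Sat a b V ψ x
  | .box φ, x => ∀ y, R a b x y → Sat a b V φ y

def J (n s : ℕ) : Prop := s ≤ n ∨ Kst n s = false

def Val (a b : ℕ) (φ : Fm) : Prop := ∀ V, ∀ x < a + b + 2, Sat a b V φ x

def L : Set Fm := {φ | ∀ a s, J (a / 2) s → Val a (2 * s + 1) φ}

theorem sat_subst (a b : ℕ) (V : ℕ → ℕ → Prop) (σ : ℕ → Fm) : ∀ (φ : Fm) (x : ℕ),
    Sat a b V (φ.subst σ) x ↔ Sat a b (fun n => Sat a b V (σ n)) φ x
  | .var _, _ => Iff.rfl
  | .bot, _ => Iff.rfl
  | .imp φ ψ, x => imp_congr (sat_subst a b V σ φ x) (sat_subst a b V σ ψ x)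
  | .box φ, _ => forall_congr' fun y => imp_congr_right fun _ => sat_subst a b V σ φ y

theorem normal : Normal L where
  taut := fun _ h a s _ V x _ => h (fun φ => Sat a (2 * s + 1) V φ x) id fun _ _ => Iff.rfl
  k := fun _ _ _ _ _ _ h1 h2 y hy => h1 y hy (h2 y hy)
  mp := fun _ _ h1 h2 a s j V x hx => h1 a s j V x hx (h2 a s j V x hx)
  nec := fun _ h a s j V x _ y hy => h a s j V y (by unfold R at hy; omega)
  sub := fun φ h σ a s j V x hx => (sat_subst _ _ V σ φ x).2 (h a s j _ x hx)

def ht (a b x : ℕ) : ℕ := if x = a + b + 1 then a else x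

theorem ht_lt {a b x y : ℕ} (hb : 0 < b) (h : R a b x y) : ht a b y < ht a b x := by
  unfold R at h; unfold ht; split_ifs <;> omega

theorem R_ht {a b x k : ℕ} (hx : x < a + b + 2) (h : k < ht a b x) :
    R a b x k ∧ ht a b k = k := by
  unfold R; unfold ht at *; split_ifs at * <;> omega

theorem lob_mem : lob ∈ L := by
  intro a s _ V x _ h
  have key : ∀ k y, ht a (2 * s + 1) y < k → R a (2 * s + 1) x y → V 0 y := by
    intro k
    induction k with
    | zero => intro y h; omega
    | succ k ih =>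
      intro y hy hr
      refine h y hr fun z hz => ih z ?_ ?_
      · have := ht_lt (by omega) hz
        omega
      · unfold R at *; omega
  exact fun y hy => key _ y (Nat.lt_succ_self _) hy

theorem coin {a b : ℕ} {V V' : ℕ → ℕ → Prop} : ∀ (φ : Fm),
    (∀ p ∈ φ.vars, ∀ x < a + b + 2, V p x ↔ V' p x) → ∀ x < a + b + 2,
      Sat a b V φ x ↔ Sat a b V' φ x
  | .var n, h, x, hx => h n rfl x hx
  | .bot, _, _, _ => Iff.rfl
  | .imp φ ψ, h, x, hx => imp_congr (coin φ (fun p hp => h p (Or.inl hp)) x hx)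
      (coin ψ (fun p hp => h p (Or.inr hp)) x hx)
  | .box φ, h, _, _ => forall_congr' fun y => imp_congr_right fun hy =>
      coin φ h y (by unfold R at hy; omega)

/-! shrinking -/

noncomputable def bad (a b : ℕ) (V : ℕ → ℕ → Prop) : Fm → Finset ℕ
  | .var _ => ∅
  | .bot => ∅
  | .imp φ ψ => bad a b V φ ∪ bad a b V ψ
  | .box φ => insert (sInf {i | ¬ Sat a b V φ i}) (bad a b V φ)

theorem bad_card (a b : ℕ) (V : ℕ → ℕ → Prop) : ∀ φ, (bad a b V φ).card ≤ (cd φ).length
  | .var _ => by simp [bad]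
  | .bot => by simp [bad]
  | .imp φ ψ => by
    have := bad_card a b V φ
    have := bad_card a b V ψ
    have := Finset.card_union_le (bad a b V φ) (bad a b V ψ)
    simp only [bad, cd, List.length_append]
    omega
  | .box φ => by
    have := bad_card a b V φ
    have := Finset.card_insert_le (sInf {i | ¬ Sat a b V φ i}) (bad a b V φ)
    simp only [bad, cd, List.length_append, List.length_singleton]
    omega

def up (j i : ℕ) : ℕ := if i < j then i else i + 1

theorem del {a b a' b' j : ℕ} {V : ℕ → ℕ → Prop} (hj : j < a + b)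
    (hR : ∀ x y, R a' b' x y ↔ R a b (up j x) (up j y)) : ∀ φ, j ∉ bad a b V φ → ∀ x,
      Sat a' b' (fun n i => V n (up j i)) φ x ↔ Sat a b V φ (up j x)
  | .var _, _, _ => Iff.rfl
  | .bot, _, _ => Iff.rfl
  | .imp φ ψ, h, x => imp_congr (del hj hR φ (fun h' => h (Finset.mem_union_left _ h')) x)
      (del hj hR ψ (fun h' => h (Finset.mem_union_right _ h')) x)
  | .box φ, h, x => by
    simp only [bad, Finset.mem_insert, not_or] at h
    have ih := del hj hR φ h.2
    refine ⟨fun H y hy => ?_, fun H y hy => (ih y).2 (H _ ((hR _ _).1 hy))⟩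
    by_contra hn
    have sur : ∀ z, z ≠ j → ∃ z', up j z' = z := fun z hz => by
      by_cases h1 : z < j
      · exact ⟨z, by simp [up, h1]⟩
      · exact ⟨z - 1, by unfold up; split_ifs <;> omega⟩
    obtain ⟨z, h1, h2, h3⟩ : ∃ z, z ≠ j ∧ R a b (up j x) z ∧ ¬ Sat a b V φ z := by
      by_cases hy' : y < a + b
      · have h4 : sInf {i | ¬ Sat a b V φ i} ≤ y := Nat.sInf_le hn
        refine ⟨_, Ne.symm h.1, ?_, Nat.sInf_mem (s := {i | ¬ Sat a b V φ i}) ⟨y, hn⟩⟩
        unfold R at *; omega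
      · exact ⟨y, by omega, hy, hn⟩
    obtain ⟨z', rfl⟩ := sur z h1
    exact h3 ((ih z').1 (H z' ((hR _ _).2 h2)))

theorem shrink {a b a' b' lo n : ℕ} {φ : Fm} (hn : (cd φ).length + 1 < n) (h1 : lo + n ≤ a + b)
    (h2 : a' + b' + 1 = a + b)
    (hR : ∀ j, lo ≤ j → j < lo + n → ∀ x y, R a' b' x y ↔ R a b (up j x) (up j y))
    (h : Val a' b' φ) : Val a b φ := by
  intro V x hx
  obtain ⟨j, hj, hj'⟩ := Finset.exists_mem_notMem_of_card_lt_card
    (s := insert x (bad a b V φ)) (t := Finset.Ico lo (lo + n)) (by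
      have := bad_card a b V φ
      have := Finset.card_insert_le x (bad a b V φ)
      simp only [Nat.card_Ico]
      omega)
  simp only [Finset.mem_Ico, Finset.mem_insert, not_or] at hj hj'
  obtain ⟨x', hx', rfl⟩ : ∃ x', x' < a' + b' + 2 ∧ up j x' = x := by
    by_cases h1 : x < j
    · exact ⟨x, by omega, by simp [up, h1]⟩
    · exact ⟨x - 1, by omega, by unfold up; split_ifs <;> omega⟩
  exact (del (by omega) (hR j hj.1 hj.2) φ hj'.2 x').1 (h _ x' hx')

theorem val_a {φ : Fm} {a b : ℕ} (h1 : (cd φ).length + 1 ≤ a) (h : Val a b φ) :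
    ∀ k, Val (a + k) b φ
  | 0 => h
  | k + 1 => shrink (lo := 0) (n := a + k + 1) (by omega) (by omega) (by omega)
      (fun j _ _ x y => by unfold R up; split_ifs <;> omega) (val_a h1 h k)

theorem val_b {φ : Fm} {a b : ℕ} (h1 : (cd φ).length + 1 ≤ b) (h : Val a b φ) :
    ∀ k, Val a (b + k) φ
  | 0 => h
  | k + 1 => shrink (lo := a) (n := b + k + 1) (by omega) (by omega) (by omega)
      (fun j _ _ x y => by unfold R up; split_ifs <;> omega) (val_b h1 h k)

theorem mem_L_iff (φ : Fm) : φ ∈ L ↔ ∀ a < 2 * ((cd φ).length + 1) + 1, ∀ s < (cd φ).length + 2,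
    J (a / 2) s → Val a (2 * s + 1) φ := by
  refine ⟨fun h a _ s _ => h a s, fun h a s j => ?_⟩
  set m := (cd φ).length + 1 with hm
  have h1 : Val (min a (2 * m)) (2 * min s m + 1) φ := by
    refine h _ (by omega) _ (by omega) ?_
    by_cases ha : a ≤ 2 * m
    · rw [min_eq_left ha]
      rcases j with j | j
      · exact Or.inl (by omega)
      · right
        by_contra h'
        rw [Kst_mono (min_le_left s m) (by simpa using h')] at j
        cases j
    · exact Or.inl (by omega)
  have h2 : Val a (2 * min s m + 1) φ := by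
    by_cases ha : a ≤ 2 * m
    · rwa [min_eq_left ha] at h1
    · have := val_a (by omega) h1 (a - 2 * m)
      rwa [show min a (2 * m) + (a - 2 * m) = a by omega] at this
  by_cases hs : s ≤ m
  · rwa [min_eq_left hs] at h2
  · have := val_b (by omega) h2 (2 * (s - m))
    rwa [show 2 * min s m + 1 + 2 * (s - m) = 2 * s + 1 by omega] at this

/-! model checking -/

def Rb (a b x y : ℕ) : Bool :=
  (decide (x ≤ a + b) && decide (y < x)) || (decide (x = a + b) && decide (y = a + b + 1)) ||
    (decide (x = a + b + 1) && decide (y < a))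

theorem Rb_iff (a b x y : ℕ) : Rb a b x y = true ↔ R a b x y := by simp [Rb, R, or_assoc]

def bit (v i : ℕ) : Bool := decide (v / 2 ^ i % 2 = 1)

def stp (a b v : ℕ) (st : List (List Bool)) (c : ℕ) : List (List Bool) :=
  if c = 0 then (List.range (a + b + 2)).map (fun _ => false) :: st
  else if c = 1 then (List.range (a + b + 2)).map (fun x =>
    !((st.getD 1 []).getD x false) || (st.getD 0 []).getD x false) :: st.drop 2
  else if c = 2 then (List.range (a + b + 2)).map (fun x => (List.range (a + b + 2)).all fun y =>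
    !(Rb a b x y) || (st.getD 0 []).getD y false) :: st.drop 1
  else (List.range (a + b + 2)).map (fun x => bit v ((c - 3) * (a + b + 2) + x)) :: st

def VV (N v : ℕ) : ℕ → ℕ → Prop := fun p x => bit v (p * N + x) = true

open Classical in
noncomputable def tt (a b v : ℕ) (φ : Fm) : List Bool :=
  (List.range (a + b + 2)).map fun x => decide (Sat a b (VV (a + b + 2) v) φ x)

theorem tt_get (a b v : ℕ) (φ : Fm) {x : ℕ} (hx : x < a + b + 2) :
    (tt a b v φ).getD x false = true ↔ Sat a b (VV (a + b + 2) v) φ x := by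
  simp [tt, List.getD_eq_getElem?_getD, hx]

open Classical in
theorem fold_cd (a b v : ℕ) : ∀ (φ : Fm) (st : List (List Bool)),
    (cd φ).foldl (stp a b v) st = tt a b v φ :: st
  | .var n, st => by simp [cd, stp, tt, Sat, VV]
  | .bot, st => by simp [cd, stp, tt, Sat]
  | .imp φ ψ, st => by
    rw [cd, List.foldl_append, List.foldl_append, fold_cd a b v φ, fold_cd a b v ψ]
    simp only [List.foldl_cons, List.foldl_nil, stp, one_ne_zero, if_false, if_true,
      List.getD_cons_succ, List.getD_cons_zero, List.drop_succ_cons, List.drop_zero,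
      List.cons.injEq, and_true]
    refine List.map_congr_left fun x hx => ?_
    have hx := List.mem_range.1 hx
    rw [Bool.eq_iff_iff, Bool.or_eq_true, Bool.not_eq_true', ← Bool.not_eq_true, tt_get _ _ _ _ hx,
      tt_get _ _ _ _ hx, decide_eq_true_eq, Sat, imp_iff_not_or]
  | .box φ, st => by
    rw [cd, List.foldl_append, fold_cd a b v φ]
    simp only [List.foldl_cons, List.foldl_nil, stp, OfNat.ofNat_ne_zero, OfNat.ofNat_ne_one,
      if_false, if_true, List.getD_cons_zero, List.drop_succ_cons, List.drop_zero,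
      List.cons.injEq, and_true]
    refine List.map_congr_left fun x _ => ?_
    rw [Bool.eq_iff_iff, List.all_eq_true, decide_eq_true_eq, Sat]
    refine forall_congr' fun y => ?_
    rw [Bool.or_eq_true, Bool.not_eq_true', ← Bool.not_eq_true, Rb_iff, List.mem_range]
    constructor
    · intro h hr
      have hy : y < a + b + 2 := by unfold R at hr; omega
      exact (tt_get _ _ _ _ hy).1 ((h hy).resolve_left (not_not.2 hr))
    · intro h hy
      rw [tt_get _ _ _ _ hy]
      exact imp_iff_not_or.1 h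

theorem vars_lt : ∀ (φ : Fm), ∀ p ∈ φ.vars, p < (cd φ).sum
  | .var n, p, h => by cases h; simp [cd]
  | .bot, p, h => by cases h
  | .imp φ ψ, p, h => by
    simp only [cd, List.sum_append]
    rcases h with h | h
    · have := vars_lt φ p h; omega
    · have := vars_lt ψ p h; omega
  | .box φ, p, h => by
    have := vars_lt φ p h
    simp only [cd, List.sum_append]
    omega

def valB (a b : ℕ) (l : List ℕ) : Bool :=
  (List.range (2 ^ (l.sum * (a + b + 2)))).all fun v => (List.range (a + b + 2)).all fun x =>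
    ((l.foldl (stp a b v) []).getD 0 []).getD x false

theorem valB_iff (a b : ℕ) (φ : Fm) : valB a b (cd φ) = true ↔ Val a b φ := by
  classical
  simp only [valB, List.all_eq_true, List.mem_range, fold_cd, List.getD_cons_zero]
  refine ⟨fun h V x hx => ?_, fun h v _ x hx => (tt_get _ _ _ _ hx).2 (h _ x hx)⟩
  set N := a + b + 2 with hN
  have := (tt_get _ _ _ _ hx).1 (h (Nat.ofBits fun i : Fin ((cd φ).sum * N) =>
    decide (V (i / N) (i % N))) (Nat.ofBits_lt_two_pow _) x hx)
  refine (coin φ (fun p hp y hy => ?_) x hx).1 this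
  have hp := vars_lt φ p hp
  have h1 : p * N + y < (cd φ).sum * N := by nlinarith
  have h2 := Nat.testBit_ofBits_lt (fun i : Fin ((cd φ).sum * N) => decide (V (i / N) (i % N))) _ h1
  rw [Nat.testBit_eq_decide_div_mod_eq] at h2
  rw [VV, bit, h2]
  have e1 : (p * N + y) / N = p := by
    rw [add_comm, Nat.add_mul_div_right _ _ (by omega), Nat.div_eq_of_lt hy, zero_add]
  have e2 : (p * N + y) % N = y := by rw [add_comm, Nat.add_mul_mod_self_right, Nat.mod_eq_of_lt hy]
  simp [e1, e2]

theorem ci_stp : CI ∅ fun q : (ℕ × ℕ × ℕ) × List (List Bool) × ℕ =>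
    stp q.1.1 q.1.2.1 q.1.2.2 q.2.1 q.2.2 := by
  unfold stp Rb bit
  fun_prop

theorem ci_valB : CI ∅ fun q : ℕ × ℕ × List ℕ => valB q.1 q.2.1 q.2.2 := by
  have h : CI ∅ fun q : (ℕ × ℕ × ℕ) × List ℕ => q.2.foldl (stp q.1.1 q.1.2.1 q.1.2.2) [] :=
    CI.foldl (f := fun q : (ℕ × ℕ × ℕ) × List ℕ => stp q.1.1 q.1.2.1 q.1.2.2)
      (ci_stp.comp (g := fun p : ((ℕ × ℕ × ℕ) × List ℕ) × List (List Bool) × ℕ => (p.1.1, p.2))
        (by fun_prop)) (by fun_prop) (by fun_prop)
  unfold valB
  refine CI.all (by fun_prop) (CI.all (by fun_prop) (CI.getD (CI.getD ?_ (by fun_prop)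
    (by fun_prop)) (by fun_prop) (by fun_prop)))
  exact h.comp (g := fun p : ((ℕ × ℕ × List ℕ) × ℕ) × ℕ =>
    ((p.1.1.1, p.1.1.2.1, p.1.2), p.1.1.2.2)) (by fun_prop)

theorem decL : DecL L := by
  refine ⟨fun l => (List.range (2 * (l.length + 1) + 1)).all fun a =>
    (List.range (l.length + 2)).all fun s =>
      (!decide (s ≤ a / 2) && Kst (a / 2) s) || valB a (2 * s + 1) l, CI.computable ?_, fun φ => ?_⟩
  · refine CI.all (by fun_prop) (CI.all (by fun_prop) (CI.or (by fun_prop) ?_))
    exact ci_valB.comp (g := fun p : (List ℕ × ℕ) × ℕ => (p.1.2, 2 * p.2 + 1, p.1.1)) (by fun_prop)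
  · rw [mem_L_iff]
    simp only [List.all_eq_true, List.mem_range, Bool.or_eq_true, valB_iff, J]
    refine forall₄_congr fun a _ s _ => ?_
    by_cases h : s ≤ a / 2 <;> cases Kst (a / 2) s <;> simp [h]

/-! the interpolation instances -/

def neg (φ : Fm) : Fm := .imp φ .bot
def con (φ ψ : Fm) : Fm := neg (.imp φ (neg ψ))
def dia (φ : Fm) : Fm := neg (.box (neg φ))
def B : ℕ → Fm
  | 0 => .bot
  | k + 1 => .box (B k)
def H (h : ℕ) : Fm := con (B (h + 1)) (neg (B h))
def T (p h : ℕ) : Fm := con (dia (con (.var p) (H h))) (dia (con (neg (.var p)) (H h)))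
def D : ℕ → Fm
  | 0 => .bot
  | k + 1 => .imp (neg (D k)) (H (2 * k + 1))

section
variable {a b : ℕ} {V : ℕ → ℕ → Prop}

theorem sat_neg {φ x} : Sat a b V (neg φ) x ↔ ¬ Sat a b V φ x := Iff.rfl
theorem sat_con {φ ψ x} : Sat a b V (con φ ψ) x ↔ Sat a b V φ x ∧ Sat a b V ψ x := by
  simp [con, neg, Sat]
theorem sat_dia {φ x} : Sat a b V (dia φ) x ↔ ∃ y, R a b x y ∧ Sat a b V φ y := by
  simp [dia, neg, Sat]

theorem sat_B (hb : 0 < b) : ∀ k x, x < a + b + 2 → (Sat a b V (B k) x ↔ ht a b x < k)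
  | 0, x, _ => by simp [B, Sat]
  | k + 1, x, hx => by
    constructor
    · intro h
      by_contra h'
      obtain ⟨h1, h2⟩ := R_ht (k := k) hx (by omega)
      have := (sat_B hb k k (by unfold R at h1; omega)).1 (h k h1)
      omega
    · intro h y hy
      have := ht_lt hb hy
      exact (sat_B hb k y (by unfold R at hy; omega)).2 (by omega)

theorem sat_H (hb : 0 < b) {h x : ℕ} (hx : x < a + b + 2) : Sat a b V (H h) x ↔ ht a b x = h := by
  rw [H, sat_con, sat_neg, sat_B hb _ _ hx, sat_B hb _ _ hx]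
  omega

theorem sat_D (hb : 0 < b) {x : ℕ} (hx : x < a + b + 2) :
    ∀ k, Sat a b V (D k) x ↔ ht a b x % 2 = 1 ∧ ht a b x < 2 * k
  | 0 => by simp [D, Sat]
  | k + 1 => by
    rw [D, Sat, sat_neg, sat_D hb hx k, sat_H hb hx]
    omega

theorem sat_T (hb : 0 < b) {p h x : ℕ} (hs : Sat a b V (T p h) x) : h = a ∧ x = a + b := by
  simp only [T, sat_con, sat_dia, sat_neg] at hs
  obtain ⟨⟨y, r1, v1, h1⟩, z, r2, v2, h2⟩ := hs
  rw [sat_H hb (by unfold R at r1; omega)] at h1
  rw [sat_H hb (by unfold R at r2; omega)] at h2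
  have : y ≠ z := fun e => v2 (e ▸ v1)
  unfold R at r1 r2
  unfold ht at h1 h2
  split_ifs at h1 h2 <;> omega

theorem sat_T' (hb : 0 < b) (p : ℕ) : Sat a b (fun _ x => x = a + b + 1) (T p a) (a + b) := by
  simp only [T, sat_con, sat_dia, sat_neg]
  refine ⟨⟨a + b + 1, by unfold R; omega, rfl, (sat_H hb (by omega)).2 (by simp [ht])⟩,
    a, by unfold R; omega, by simp [Sat]; omega, (sat_H hb (by omega)).2 ?_⟩
  unfold ht
  split_ifs <;> omega

end

theorem closed {a b a' b' : ℕ} {V V' : ℕ → ℕ → Prop} (hb : 0 < b) (hb' : 0 < b') : ∀ (χ : Fm),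
    χ.vars ⊆ ∅ → ∀ x x', x < a + b + 2 → x' < a' + b' + 2 → (ht a b x = ht a' b' x' ∨
      ((cd χ).length ≤ ht a b x ∧ (cd χ).length ≤ ht a' b' x')) →
      (Sat a b V χ x ↔ Sat a' b' V' χ x')
  | .var n, h, _, _, _, _, _ => (h rfl).elim
  | .bot, _, _, _, _, _, _ => Iff.rfl
  | .imp φ ψ, h, x, x', hx, hx', e => by
    simp only [cd, List.length_append] at e
    exact imp_congr (closed hb hb' φ (fun p hp => h (Or.inl hp)) x x' hx hx' (by omega))
      (closed hb hb' ψ (fun p hp => h (Or.inr hp)) x x' hx hx' (by omega))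
  | .box φ, h, x, x', hx, hx', e => by
    simp only [cd, List.length_append, List.length_singleton] at e
    constructor
    · intro H y hy
      have := ht_lt hb' hy
      obtain ⟨r1, r2⟩ := R_ht (k := min (ht a' b' y) (ht a b x - 1)) hx (by omega)
      exact (closed hb hb' φ h _ y (by unfold R at r1; omega) (by unfold R at hy; omega)
        (by omega)).1 (H _ r1)
    · intro H y hy
      have := ht_lt hb hy
      obtain ⟨r1, r2⟩ := R_ht (k := min (ht a b y) (ht a' b' x' - 1)) hx' (by omega)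
      exact (closed hb hb' φ h y _ (by unfold R at hy; omega) (by unfold R at r1; omega)
        (by omega)).2 (H _ r1)

theorem vars_B : ∀ k, (B k).vars = ∅
  | 0 => rfl
  | k + 1 => vars_B k

theorem vars_D : ∀ k, (D k).vars = ∅
  | 0 => rfl
  | k + 1 => by simp [D, H, con, neg, Fm.vars, vars_D k, vars_B]

theorem vars_T (p h : ℕ) : (T p h).vars = {p} := by
  simp [T, H, dia, con, neg, Fm.vars, vars_B]

theorem int_iff (n : ℕ) :
    HasInt L (T 0 (2 * n)) (neg (T 1 (2 * n + 1))) ↔ ∃ s, Kst n s = true := by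
  constructor
  · rintro ⟨χ, hv, h1, h2⟩
    by_contra hK
    have hJ : ∀ s, J n s := fun s => Or.inr (by simpa using fun h => hK ⟨s, h⟩)
    have hv' : χ.vars ⊆ ∅ := by simpa [neg, Fm.vars, vars_T] using hv
    set s := (cd χ).length
    have g1 := h1 (2 * n) s (by rw [show 2 * n / 2 = n by omega]; exact hJ s) _ _ (by omega)
      (sat_T' (by omega) 0)
    refine h2 (2 * n + 1) s (by rw [show (2 * n + 1) / 2 = n by omega]; exact hJ s) _ _ (by omega)
      ((closed (by omega) (by omega) χ hv' _ _ (by omega) (by omega) ?_).1 g1) (sat_T' (by omega) 1)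
    unfold ht
    split_ifs <;> omega
  · rintro ⟨s0, hs⟩
    refine ⟨D (n + n + s0 + 1), by simp [vars_D], fun a s j V x hx h => ?_,
      fun a s j V x hx h h' => ?_⟩
    · obtain ⟨rfl, rfl⟩ := sat_T (by omega) h
      rw [show 2 * n / 2 = n by omega] at j
      have : s ≤ n + s0 := by
        rcases j with j | j
        · omega
        · by_contra h'
          rw [Kst_mono (by omega) hs] at j
          cases j
      rw [sat_D (by omega) hx]
      unfold ht
      split_ifs <;> omega
    · obtain ⟨rfl, rfl⟩ := sat_T (by omega) h'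
      rw [sat_D (by omega) hx] at h
      unfold ht at h
      split_ifs at h <;> omega

theorem cd_B : ∀ k, cd (B k) = 0 :: List.replicate k 2
  | 0 => rfl
  | k + 1 => by rw [B, cd, cd_B k, List.replicate_succ']; rfl

theorem not_decIEP : ¬ DecIEP L := by
  rintro ⟨f, hf, h⟩
  refine K_not_computable (fun n => f (cd (T 0 (2 * n)), cd (neg (T 1 (2 * n + 1))))) ?_
    fun n => ?_
  · refine CI.comp1 hf ?_
    simp only [T, H, dia, con, neg, cd, cd_B]
    fun_prop
  · rw [h, int_iff]

end Pool.Agent.H30.Iep
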