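import Mathlib

/-! Unimodal formulas, normal modal logics, interpolants, and decidability via a postfix code. -/

namespace Pool.Agent.H30.Iep

inductive Fm : Type
  | var (n : ℕ) : Fm
  | bot : Fm
  | imp (a b : Fm) : Fm
  | box (a : Fm) : Fm

def Fm.vars : Fm → Set ℕ
  | .var n => {n}
  | .bot => ∅
  | .imp a b => a.vars ∪ b.vars
  | .box a => a.vars

def Fm.subst (σ : ℕ → Fm) : Fm → Fm
  | .var n => σ n
  | .bot => .bot
  | .imp a b => .imp (a.subst σ) (b.subst σ)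
  | .box a => .box (a.subst σ)

/-- postfix code of a formula -/
def cd : Fm → List ℕ
  | .var n => [n + 3]
  | .bot => [0]
  | .imp a b => cd a ++ cd b ++ [1]
  | .box a => cd a ++ [2]

/-- true under every classical truth assignment (variables and boxed formulas are atoms) -/
def Taut (φ : Fm) : Prop :=
  ∀ β : Fm → Prop, ¬ β .bot → (∀ a b, β (.imp a b) ↔ (β a → β b)) → β φ

structure Normal (L : Set Fm) : Prop where
  taut : ∀ φ, Taut φ → φ ∈ L
  k : Fm.imp (.box (.imp (.var 0) (.var 1))) (.imp (.box (.var 0)) (.box (.var 1))) ∈ L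
  mp : ∀ a b, Fm.imp a b ∈ L → a ∈ L → b ∈ L
  nec : ∀ a ∈ L, Fm.box a ∈ L
  sub : ∀ a ∈ L, ∀ σ, a.subst σ ∈ L

def lob : Fm := .imp (.box (.imp (.box (.var 0)) (.var 0))) (.box (.var 0))

def HasInt (L : Set Fm) (φ ψ : Fm) : Prop :=
  ∃ χ : Fm, χ.vars ⊆ φ.vars ∩ ψ.vars ∧ Fm.imp φ χ ∈ L ∧ Fm.imp χ ψ ∈ L

def DecL (L : Set Fm) : Prop :=
  ∃ f : List ℕ → Bool, Computable f ∧ ∀ φ, f (cd φ) = true ↔ φ ∈ L

def DecIEP (L : Set Fm) : Prop :=
  ∃ f : List ℕ × List ℕ → Bool, Computable f ∧ ∀ φ ψ, f (cd φ, cd ψ) = true ↔ HasInt L φ ψ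

end Pool.Agent.H30.Iep
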