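import Mathlib

/-! Jumping grammars. -/

namespace Pool.Agent.H30.Jump

open Relation

/-- a grammar with terminal alphabet `T` and nonterminal alphabet `N`; `inl` = nonterminal -/
structure Gr (T N : Type) where
  start : N
  rules : Finset (List (N ⊕ T) × List (N ⊕ T))
  lhs : ∀ r ∈ rules, ∃ A : N, Sum.inl A ∈ r.1

variable {T N : Type}

def Mono (G : Gr T N) : Prop := ∀ r ∈ G.rules, r.1.length ≤ r.2.length

def CS (G : Gr T N) : Prop :=
  ∀ r ∈ G.rules, ∃ (α β γ : List (N ⊕ T)) (A : N),
    γ ≠ [] ∧ r.1 = α ++ Sum.inl A :: β ∧ r.2 = α ++ γ ++ β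

def JStep (G : Gr T N) (s t : List (N ⊕ T)) : Prop :=
  ∃ r ∈ G.rules, ∃ u v u' v', s = u ++ r.1 ++ v ∧ t = u' ++ r.2 ++ v' ∧ u ++ v = u' ++ v'

def BStep (G : Gr T N) (s t : List (N ⊕ T)) : Prop :=
  ∃ (α β γ : List (N ⊕ T)) (A : N) (u v u' v' : List (N ⊕ T)), γ ≠ [] ∧
    (α ++ Sum.inl A :: β, α ++ γ ++ β) ∈ G.rules ∧ s = u ++ (α ++ Sum.inl A :: β) ++ v ∧
    t = u' ++ (α ++ γ ++ β) ++ v' ∧ u ++ (α ++ β) ++ v = u' ++ (α ++ β) ++ v'

def lang (G : Gr T N) (ρ : List (N ⊕ T) → List (N ⊕ T) → Prop) : Set (List T) :=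
  {w | ReflTransGen ρ [Sum.inl G.start] (w.map Sum.inr)}

abbrev Sy := Bool ⊕ Bool
abbrev a : Sy := .inr false
abbrev b : Sy := .inr true
abbrev S : Sy := .inl false
abbrev A : Sy := .inl true

/-- `S → A b`, `A b → a A b`, `A b → a b` -/
def G0 : Gr Bool Bool where
  start := false
  rules := {([S], [A, b]), ([A, b], [a, A, b]), ([A, b], [a, b])}
  lhs := by
    intro r hr
    simp only [Finset.mem_insert, Finset.mem_singleton] at hr
    rcases hr with rfl | rfl | rfl <;> simp

theorem G0_cs : CS G0 := by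
  intro r hr
  simp only [G0, Finset.mem_insert, Finset.mem_singleton] at hr
  rcases hr with rfl | rfl | rfl
  · exact ⟨[], [], [A, b], false, by simp, rfl, rfl⟩
  · exact ⟨[], [b], [a, A], true, by simp, rfl, rfl⟩
  · exact ⟨[], [b], [a], true, by simp, rfl, rfl⟩

theorem G0_der (n : ℕ) : ReflTransGen (BStep G0) [S] (List.replicate n a ++ [A, b]) := by
  induction n with
  | zero =>
    exact ReflTransGen.single ⟨[], [], [A, b], false, [], [], [], [], by simp, by decide,
      rfl, rfl, rfl⟩
  | succ n ih =>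
    exact ih.tail ⟨[], [b], [a, A], true, List.replicate n a, [], List.replicate n a, [],
      by simp, by decide, by simp, by simp [List.replicate_succ'], rfl⟩

theorem G0_mem (n : ℕ) : List.replicate (n + 1) false ++ [true] ∈ lang G0 (BStep G0) :=
  (G0_der n).tail ⟨[], [b], [a], true, List.replicate n a, [], List.replicate n a, [],
    by simp, by decide, by simp, by simp [List.replicate_succ'], rfl⟩

theorem dec {α β : List Sy} {X : Bool} {Y : Bool} (h : α ++ Sum.inl X :: β = [.inl Y, b]) :
    α = [] ∧ β = [b] := by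
  rcases α with _ | ⟨x, _ | ⟨y, α⟩⟩ <;> simp_all

theorem last_b {u v z : List Sy} (hz : b ∉ z) (h : u ++ b :: v = z ++ [b]) : v = [] ∧ u = z := by
  rcases List.eq_nil_or_concat v with rfl | ⟨v', x, rfl⟩
  · exact ⟨rfl, by simpa using h⟩
  · rw [List.concat_eq_append, ← List.cons_append, ← List.append_assoc] at h
    have := (List.append_inj' h rfl).1
    exact absurd (by rw [← this]; simp) hz

theorem G0_inv {s : List Sy} (h : ReflTransGen (BStep G0) [S] s) :
    s = [S] ∨ ∃ z, b ∉ z ∧ S ∉ z ∧ s = z ++ [b] := by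
  induction h with
  | refl => exact Or.inl rfl
  | tail _ hs ih =>
    right
    obtain ⟨α, β, γ, X, u, v, u', v', -, hr, rfl, rfl, e⟩ := hs
    simp only [G0, Finset.mem_insert, Finset.mem_singleton, Prod.mk.injEq] at hr
    have key : ∀ y : List Sy, b ∉ y → S ∉ y → α ++ Sum.inl X :: β = [A, b] →
        α ++ γ ++ β = y ++ [b] → ∃ z, b ∉ z ∧ S ∉ z ∧ u' ++ (α ++ γ ++ β) ++ v' = z ++ [b] := by
      intro y h1 h2 e1 e2
      obtain ⟨rfl, rfl⟩ := dec e1
      rw [e1] at ih
      rcases ih with ih | ⟨z, z1, z2, ih⟩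
      · have := congrArg List.length ih
        simp at this
        omega
      · obtain ⟨rfl, rfl⟩ := last_b (u := u ++ [A]) (v := v) z1 (by simpa using ih)
        have hu : b ∉ u := fun h => z1 (by simp [h])
        obtain ⟨rfl, rfl⟩ := last_b (u := u') (v := v') hu (by simpa using e.symm)
        refine ⟨u' ++ y, by simp [hu, h1], ?_, by rw [e2]; simp⟩
        have : S ∉ u' := fun h => z2 (by simp [h])
        simp [this, h2]
    rcases hr with ⟨e1, e2⟩ | ⟨e1, e2⟩ | ⟨e1, e2⟩
    · rw [e1] at ih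
      rcases ih with ih | ⟨z, z1, z2, ih⟩
      · have h1 := congrArg List.length ih
        have h2 := congrArg List.length e1
        have h3 := congrArg List.length e
        simp only [List.length_append, List.length_cons, List.length_nil] at h1 h2 h3
        rw [e2, List.length_eq_zero_iff.1 (show u'.length = 0 by omega),
          List.length_eq_zero_iff.1 (show v'.length = 0 by omega)]
        exact ⟨[A], by simp, by simp, rfl⟩
      · have : S ∈ z ++ [b] := by rw [← ih]; simp
        simp [z2] at this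
    · exact key [a, A] (by simp) (by simp) e1 e2
    · exact key [a] (by simp) (by simp) e1 e2

theorem G0_lang {w : List Bool} (h : w ∈ lang G0 (BStep G0)) : ∃ z, true ∉ z ∧ w = z ++ [true] := by
  rcases G0_inv h with h | ⟨z, h1, -, h⟩
  · rcases w with _ | ⟨x, w⟩ <;> simp at h
  · obtain ⟨z', y, rfl, rfl, e⟩ := List.map_eq_append_iff.1 h
    obtain ⟨x, y', rfl, e1, e2⟩ := List.map_eq_cons_iff.1 e
    rw [List.map_eq_nil_iff.1 e2, Sum.inr.inj e1]
    exact ⟨z', by simpa using h1, rfl⟩

theorem main (N : Type) (G : Gr Bool N) (hG : Mono G) : lang G (JStep G) ≠ lang G0 (BStep G0) := by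
  intro e
  let n := G.rules.sup fun r => r.2.length
  have h := G0_mem n
  rw [← e] at h
  rcases ReflTransGen.cases_tail h with h | ⟨s, hs, r, hr, u, v, u', v', rfl, e1, e2⟩
  · simp [List.replicate_succ] at h
  obtain ⟨w12, w3, e3, e4, rfl⟩ := List.map_eq_append_iff.1 e1
  obtain ⟨w1, w2, rfl, rfl, e5⟩ := List.map_eq_append_iff.1 e4
  have hl : w2.length ≤ n := by
    have : r.2.length ≤ n := Finset.le_sup (f := fun r => r.2.length) hr
    rwa [← e5, List.length_map] at this
  have hp : 0 < w2.length := by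
    obtain ⟨X, hX⟩ := G.lhs r hr
    have := List.length_pos_of_mem hX
    have := hG r hr
    rw [← e5, List.length_map] at this
    omega
  have m1 : w2 ++ (w1 ++ w3) ∈ lang G0 (BStep G0) := by
    rw [← e]
    exact hs.tail ⟨r, hr, u, v, [], (w1 ++ w3).map Sum.inr, rfl, by simp [e5], by simpa using e2⟩
  have m2 : (w1 ++ w3) ++ w2 ∈ lang G0 (BStep G0) := by
    rw [← e]
    exact hs.tail ⟨r, hr, u, v, (w1 ++ w3).map Sum.inr, [], rfl, by simp [e5], by simpa using e2⟩
  obtain ⟨z1, h1, f1⟩ := G0_lang m1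
  obtain ⟨z2, h2, f2⟩ := G0_lang m2
  have hlen := congrArg List.length e3
  simp only [List.length_append, List.length_replicate, List.length_cons, List.length_nil] at hlen
  rcases List.eq_nil_or_concat w2 with rfl | ⟨w2', x, rfl⟩
  · simp at hp
  rw [List.concat_eq_append, ← List.append_assoc] at f2
  obtain rfl : x = true := by simpa using (List.append_inj' f2 rfl).2
  rcases List.eq_nil_or_concat (w1 ++ w3) with h0 | ⟨y, x, h0⟩
  · have := congrArg List.length h0
    simp only [List.length_append, List.length_nil] at this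
    omega
  · rw [h0, List.concat_eq_append, List.concat_eq_append, ← List.append_assoc] at f1
    exact h1 (by rw [← (List.append_inj' f1 rfl).1]; simp)

end Pool.Agent.H30.Jump
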