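import Pool.Agent.H30.KidDefs
import Pool.Agent.H38.NP.TG

/-!
Padding a graph to a regular graph with copies of a clique minus an edge.
-/

namespace Pool.Agent.H30.Kid

open Finset Pool.Agent.H38.NP

variable {X : Type} [DecidableEq X]

instance (rel : X → X → Bool) (x y : X) : Decidable (TA rel x y) := by unfold TA; infer_instance

def dg (W : Finset X) (rel : X → X → Bool) (x : X) : ℕ := (W.filter (TA rel x)).card

def KI (k : ℕ) (W : Finset X) (rel : X → X → Bool) (S : Finset X) : Prop :=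
  S ⊆ W ∧ ∀ x ∈ S, dg S rel x ≤ k

def DI (W : Finset X) (rel : X → X → Bool) (S : Finset X) : Prop :=
  S ⊆ W ∧ ∀ x ∈ S, ∃ y ∈ W, y ∉ S ∧ TA rel x y

theorem ki_iff_di {k : ℕ} {W : Finset X} {rel : X → X → Bool} (h : ∀ x ∈ W, dg W rel x = k + 1)
    (S : Finset X) : KI k W rel S ↔ DI W rel S := by
  refine and_congr_right fun hS => forall₂_congr fun x hx => ⟨fun H => ?_, ?_⟩
  · by_contra hn
    push Not at hn
    have : W.filter (TA rel x) ⊆ S.filter (TA rel x) := fun y hy => by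
      obtain ⟨a, b⟩ := mem_filter.1 hy
      exact mem_filter.2 ⟨by_contra fun c => hn y a c b, b⟩
    have := card_le_card this
    have := h x (hS hx)
    unfold dg at *; omega
  · rintro ⟨y, a, b, c⟩
    have : S.filter (TA rel x) ⊆ (W.filter (TA rel x)).erase y := fun z hz => by
      obtain ⟨d, e⟩ := mem_filter.1 hz
      exact mem_erase.2 ⟨by rintro rfl; exact b d, mem_filter.2 ⟨hS d, e⟩⟩
    have h1 := card_le_card this
    rw [card_erase_of_mem (mem_filter.2 ⟨a, c⟩)] at h1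
    have := h x (hS hx)
    unfold dg at *; omega

def gl (Vs : List X) (s : X → ℕ) (r : ℕ) : List (X × ℕ) :=
  (Vs.product (List.range (r + 1))).filter fun p => decide (1 ≤ p.2) && decide (p.2 ≤ s p.1)

def pv (Vs : List X) (s : X → ℕ) (r : ℕ) : List (X × ℕ × ℕ) :=
  (Vs.product ((List.range (r + 1)).product (List.range (r + 1)))).filter fun x =>
    (decide (x.2.1 = 0) && decide (x.2.2 = 0)) || (decide (1 ≤ x.2.1) && decide (x.2.1 ≤ s x.1))

def pr (rel : X → X → Bool) (π : X → X) (x y : X × ℕ × ℕ) : Bool :=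
  (decide (x.2.1 = 0) && decide (y.2.1 = 0) && rel x.1 y.1) ||
  (decide (1 ≤ x.2.1) && decide (x.1 = y.1) && decide (x.2.1 = y.2.1) && decide (2 ≤ x.2.2)) ||
  (decide (1 ≤ x.2.1) && decide (x.2.2 = 0) && decide (y.2.1 = 0) && decide (y.1 = x.1)) ||
  (decide (1 ≤ x.2.1) && decide (x.2.2 = 1) && decide (y.2.1 = 0) && decide (y.1 = π x.1))

omit [DecidableEq X] in
theorem pv_nodup {Vs : List X} (h : Vs.Nodup) (s r) : (pv Vs s r).Nodup :=
  (h.product (List.nodup_range.product List.nodup_range)).filter _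

omit [DecidableEq X] in
theorem gl_nodup {Vs : List X} (h : Vs.Nodup) (s r) : (gl Vs s r).Nodup :=
  (h.product List.nodup_range).filter _

variable {Vs : List X} {s : X → ℕ} {r : ℕ} {rel : X → X → Bool} {π : X → X}

theorem mem_pv (hs : ∀ v, s v ≤ r) {v i t} : (v, i, t) ∈ (pv Vs s r).toFinset ↔
    v ∈ Vs.toFinset ∧ ((i = 0 ∧ t = 0) ∨ (1 ≤ i ∧ i ≤ s v ∧ t ≤ r)) := by
  have := hs v
  simp only [pv, List.mem_toFinset, List.mem_filter, List.pair_mem_product, List.mem_range,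
    Bool.or_eq_true, Bool.and_eq_true, decide_eq_true_eq]
  exact ⟨fun ⟨⟨a, b, c⟩, d⟩ => ⟨a, by omega⟩, fun ⟨a, b⟩ => ⟨⟨a, by omega⟩, by omega⟩⟩

theorem mem_gl (hs : ∀ v, s v ≤ r) {v i} : (v, i) ∈ (gl Vs s r).toFinset ↔
    v ∈ Vs.toFinset ∧ 1 ≤ i ∧ i ≤ s v := by
  have := hs v
  simp only [gl, List.mem_toFinset, List.mem_filter, List.pair_mem_product, List.mem_range,
    Bool.and_eq_true, decide_eq_true_eq]
  exact ⟨fun ⟨⟨a, b⟩, d⟩ => ⟨a, by omega⟩, fun ⟨a, b⟩ => ⟨⟨a, by omega⟩, by omega⟩⟩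

theorem ta00 {v u : X} : TA (pr rel π) (v, 0, 0) (u, 0, 0) ↔ TA rel v u := by
  simp [TA, pr]

theorem ta0i {v u : X} {i t} (hi : 1 ≤ i) :
    TA (pr rel π) (v, 0, 0) (u, i, t) ↔ (t = 0 ∧ v = u) ∨ (t = 1 ∧ v = π u) := by
  have : i ≠ 0 := by omega
  have : 0 ≠ i := by omega
  simp [TA, pr, *]

theorem taii {v u : X} {i t j t'} (hi : 1 ≤ i) (hj : 1 ≤ j) :
    TA (pr rel π) (v, i, t) (u, j, t') ↔ v = u ∧ i = j ∧ t ≠ t' ∧ (2 ≤ t ∨ 2 ≤ t') := by
  have : i ≠ 0 := by omega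
  have : j ≠ 0 := by omega
  simp only [TA, pr, *, ne_eq, Prod.mk.injEq, decide_false, decide_true, Bool.false_and,
    Bool.true_and, Bool.and_false, Bool.or_false, Bool.false_or, Bool.and_eq_true,
    decide_eq_true_eq]
  constructor
  · rintro ⟨a, ⟨⟨rfl, rfl⟩, b⟩ | ⟨⟨rfl, rfl⟩, b⟩⟩
    · exact ⟨rfl, rfl, fun h => a ⟨rfl, rfl, h⟩, Or.inl b⟩
    · exact ⟨rfl, rfl, fun h => a ⟨rfl, rfl, h⟩, Or.inr b⟩
  · rintro ⟨rfl, rfl, a, b | b⟩
    · exact ⟨fun h => a h.2.2, Or.inl ⟨⟨rfl, rfl⟩, b⟩⟩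
    · exact ⟨fun h => a h.2.2, Or.inr ⟨⟨rfl, rfl⟩, b⟩⟩

theorem ta_comm {Y : Type} {q : Y → Y → Bool} {x y : Y} : TA q x y ↔ TA q y x := ⟨TA.symm, TA.symm⟩

theorem pad_regular (hr : 2 ≤ r) (hs : ∀ v, s v ≤ r) (hπ : ∀ v, π (π v) = v)
    (hπ' : ∀ v ∈ Vs.toFinset, π v ∈ Vs.toFinset)
    (hd : ∀ v ∈ Vs.toFinset, dg Vs.toFinset rel v + s v + s (π v) = r) :
    ∀ x ∈ (pv Vs s r).toFinset, dg (pv Vs s r).toFinset (pr rel π) x = r := by
  rintro ⟨v, i, t⟩ hx
  obtain ⟨hv, ⟨rfl, rfl⟩ | ⟨h1, h2, h3⟩⟩ := (mem_pv hs).1 hx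
  · have : (pv Vs s r).toFinset.filter (TA (pr rel π) (v, 0, 0)) =
        ((Vs.toFinset.filter (TA rel v)).image fun u => (u, 0, 0)) ∪
        (((Icc 1 (s v)).image fun j => (v, j, 0)) ∪
          (Icc 1 (s (π v))).image fun j => (π v, j, 1)) := by
      ext ⟨u, j, t⟩
      simp only [mem_filter, mem_pv hs, mem_union, mem_image, mem_Icc, Prod.mk.injEq]
      constructor
      · rintro ⟨⟨a, ⟨rfl, rfl⟩ | ⟨b, c, d⟩⟩, e⟩
        · exact Or.inl ⟨u, ⟨a, ta00.1 e⟩, rfl, rfl, rfl⟩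
        · rcases (ta0i b).1 e with ⟨rfl, rfl⟩ | ⟨rfl, rfl⟩
          · exact Or.inr (Or.inl ⟨j, ⟨b, c⟩, rfl, rfl, rfl⟩)
          · exact Or.inr (Or.inr ⟨j, ⟨b, by rwa [hπ]⟩, hπ u, rfl, rfl⟩)
      · rintro (⟨u, ⟨a, e⟩, rfl, rfl, rfl⟩ | ⟨j, ⟨b, c⟩, rfl, rfl, rfl⟩ | ⟨j, ⟨b, c⟩, rfl, rfl, rfl⟩)
        · exact ⟨⟨a, Or.inl ⟨rfl, rfl⟩⟩, ta00.2 e⟩
        · exact ⟨⟨hv, Or.inr ⟨b, c, by omega⟩⟩, (ta0i b).2 (Or.inl ⟨rfl, rfl⟩)⟩
        · exact ⟨⟨hπ' v hv, Or.inr ⟨b, c, by omega⟩⟩, (ta0i b).2 (Or.inr ⟨rfl, (hπ v).symm⟩)⟩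
    rw [dg, this, card_union_of_disjoint, card_union_of_disjoint, card_image_of_injective,
      card_image_of_injective, card_image_of_injective, ← hd v hv, dg]
    · simp [add_assoc]
    · exact fun a b h => by simpa using h
    · exact fun a b h => by simpa using h
    · exact fun a b h => by simpa using h
    · simp only [disjoint_left, mem_image, mem_Icc]
      rintro _ ⟨j, -, rfl⟩ ⟨j', -, h⟩
      simp at h
    · simp only [disjoint_left, mem_image, mem_Icc, mem_union]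
      rintro _ ⟨j, -, rfl⟩ (⟨j', h', h⟩ | ⟨j', h', h⟩) <;> simp only [Prod.mk.injEq] at h <;> omega
  · by_cases ht : 2 ≤ t
    · have : (pv Vs s r).toFinset.filter (TA (pr rel π) (v, i, t)) =
          ((range (r + 1)).erase t).image fun j => (v, i, j) := by
        ext ⟨u, j, t'⟩
        simp only [mem_filter, mem_pv hs, mem_image, mem_erase, mem_range, Prod.mk.injEq]
        constructor
        · rintro ⟨⟨a, ⟨rfl, rfl⟩ | ⟨b, c, d⟩⟩, e⟩
          · have := (ta0i h1).1 e.symm; omega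
          · obtain ⟨rfl, rfl, f, -⟩ := (taii h1 b).1 e
            exact ⟨t', ⟨f.symm, by omega⟩, rfl, rfl, rfl⟩
        · rintro ⟨t', ⟨a, b⟩, rfl, rfl, rfl⟩
          exact ⟨⟨hv, Or.inr ⟨h1, h2, by omega⟩⟩, (taii h1 h1).2 ⟨rfl, rfl, a.symm, Or.inl ht⟩⟩
      rw [dg, this, card_image_of_injective _ fun a b h => by simpa using h,
        card_erase_of_mem (mem_range.2 (by omega))]
      simp
    · have : (pv Vs s r).toFinset.filter (TA (pr rel π) (v, i, t)) =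
          insert (if t = 0 then v else π v, 0, 0) ((Icc 2 r).image fun j => (v, i, j)) := by
        ext ⟨u, j, t'⟩
        simp only [mem_filter, mem_pv hs, mem_image, mem_insert, mem_Icc, Prod.mk.injEq]
        constructor
        · rintro ⟨⟨a, ⟨rfl, rfl⟩ | ⟨b, c, d⟩⟩, e⟩
          · rcases (ta0i h1).1 e.symm with ⟨rfl, rfl⟩ | ⟨rfl, rfl⟩ <;> simp
          · obtain ⟨rfl, rfl, f, g⟩ := (taii h1 b).1 e
            exact Or.inr ⟨t', ⟨by omega, d⟩, rfl, rfl, rfl⟩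
        · rintro (⟨rfl, rfl, rfl⟩ | ⟨t', ⟨a, b⟩, rfl, rfl, rfl⟩)
          · refine ⟨⟨?_, Or.inl ⟨rfl, rfl⟩⟩, TA.symm ((ta0i h1).2 ?_)⟩
            · split_ifs
              · exact hv
              · exact hπ' v hv
            · split_ifs with h
              · exact Or.inl ⟨h, rfl⟩
              · exact Or.inr ⟨by omega, rfl⟩
          · exact ⟨⟨hv, Or.inr ⟨h1, h2, b⟩⟩, (taii h1 h1).2 ⟨rfl, rfl, by omega, Or.inr a⟩⟩
      rw [dg, this, card_insert_of_notMem, card_image_of_injective _ fun a b h => by simpa using h]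
      · simp; omega
      · simp only [mem_image, Prod.mk.injEq]
        rintro ⟨j, -, -, h, -⟩; omega

def fib (S : Finset (X × ℕ × ℕ)) (r : ℕ) (γ : X × ℕ) : Finset ℕ :=
  (range (r + 1)).filter fun t => (γ.1, γ.2, t) ∈ S

theorem card_split (hs : ∀ v, s v ≤ r) {S : Finset (X × ℕ × ℕ)} (hS : S ⊆ (pv Vs s r).toFinset) :
    S.card = (Vs.toFinset.filter fun v => (v, 0, 0) ∈ S).card +
      ∑ γ ∈ (gl Vs s r).toFinset, (fib S r γ).card := by
  rw [← card_filter_add_card_filter_not (s := S) (fun x => x.2.1 = 0)]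
  congr 1
  · refine card_bij (fun x _ => x.1) ?_ ?_ ?_
    · rintro ⟨v, i, t⟩ hx
      obtain ⟨a, b⟩ := mem_filter.1 hx
      obtain ⟨hv, ⟨rfl, rfl⟩ | ⟨h1, h2, h3⟩⟩ := (mem_pv hs).1 (hS a)
      · exact mem_filter.2 ⟨hv, a⟩
      · dsimp only at b; omega
    · rintro ⟨v, i, t⟩ hx ⟨v', i', t'⟩ hx' h
      have a := ((mem_pv hs).1 (hS (mem_filter.1 hx).1)).2
      have b := ((mem_pv hs).1 (hS (mem_filter.1 hx').1)).2
      have c := (mem_filter.1 hx).2
      have d := (mem_filter.1 hx').2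
      dsimp only at c d h
      simp only [Prod.mk.injEq]; exact ⟨h, by omega, by omega⟩
    · intro v hv
      exact ⟨(v, 0, 0), mem_filter.2 ⟨(mem_filter.1 hv).2, rfl⟩, rfl⟩
  · rw [card_eq_sum_card_fiberwise (f := fun x => (x.1, x.2.1)) (t := (gl Vs s r).toFinset)]
    · refine sum_congr rfl ?_
      rintro ⟨v, i⟩ hγ
      have h1 := ((mem_gl hs).1 hγ).2.1
      refine card_bij (fun x _ => x.2.2) ?_ ?_ ?_
      · rintro ⟨v', i', t⟩ hx
        simp only [mem_filter, Prod.mk.injEq] at hx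
        obtain ⟨⟨a, b⟩, rfl, rfl⟩ := hx
        have := ((mem_pv hs).1 (hS a)).2
        exact mem_filter.2 ⟨mem_range.2 (by dsimp only; omega), a⟩
      · rintro ⟨v', i', t⟩ hx ⟨v'', i'', t'⟩ hx' h
        simp only [mem_filter, Prod.mk.injEq] at hx hx'
        dsimp only at h
        simp [hx.2.1, hx.2.2, hx'.2.1, hx'.2.2, h]
      · intro t ht
        exact ⟨(v, i, t), mem_filter.2 ⟨mem_filter.2 ⟨(mem_filter.1 ht).2, by dsimp only; omega⟩,
          rfl⟩, rfl⟩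
    · rintro ⟨v, i, t⟩ hx
      obtain ⟨a, b⟩ := mem_filter.1 (mem_coe.1 hx)
      obtain ⟨hv, h⟩ := (mem_pv hs).1 (hS a)
      exact mem_coe.2 ((mem_gl hs).2 ⟨hv, by dsimp only at b ⊢; omega⟩)

theorem fib_le {k : ℕ} (hk : 1 ≤ k) {W S : Finset (X × ℕ × ℕ)} (hS : KI k W (pr rel π) S)
    {γ : X × ℕ} (h1 : 1 ≤ γ.2) : (fib S r γ).card ≤ k + 1 := by
  by_cases h : ∃ t ∈ fib S r γ, 2 ≤ t
  · obtain ⟨t, ht, h2⟩ := h
    have a := hS.2 _ (mem_filter.1 ht).2
    have : ((fib S r γ).erase t).image (fun j => (γ.1, γ.2, j)) ⊆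
        S.filter (TA (pr rel π) (γ.1, γ.2, t)) := by
      intro x hx
      obtain ⟨j, hj, rfl⟩ := mem_image.1 hx
      exact mem_filter.2 ⟨(mem_filter.1 (mem_erase.1 hj).2).2,
        (taii h1 h1).2 ⟨rfl, rfl, (mem_erase.1 hj).1.symm, Or.inl h2⟩⟩
    have b := card_le_card this
    rw [card_image_of_injective _ fun a b h => by simpa using h, card_erase_of_mem ht] at b
    unfold dg at a; omega
  · have : fib S r γ ⊆ range 2 := fun t ht => mem_range.2 (by_contra fun c => h ⟨t, ht, by omega⟩)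
    have := card_le_card this
    rw [card_range] at this; omega

def lift (Vs : List X) (s : X → ℕ) (r : ℕ) (S : Finset X) (J : Finset ℕ) : Finset (X × ℕ × ℕ) :=
  (pv Vs s r).toFinset.filter fun x => if x.2.1 = 0 then x.1 ∈ S else x.2.2 ∈ J

theorem card_lift (hs : ∀ v, s v ≤ r) (hn : Vs.Nodup) {S : Finset X} (hS : S ⊆ Vs.toFinset)
    {J : Finset ℕ} (hJ : J ⊆ range (r + 1)) :
    (lift Vs s r S J).card = S.card + J.card * (gl Vs s r).length := by
  unfold lift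
  rw [card_split hs (filter_subset _ _), ← List.toFinset_card_of_nodup (gl_nodup hn s r), mul_comm,
    ← smul_eq_mul, ← sum_const]
  congr 1
  · congr 1
    ext v
    simp only [mem_filter, mem_pv hs]
    exact ⟨fun h => by simpa using h.2.2, fun h => ⟨hS h, ⟨hS h, by simp⟩, by simpa using h⟩⟩
  · refine sum_congr rfl ?_
    rintro ⟨v, i⟩ hγ
    obtain ⟨a, b, c⟩ := (mem_gl hs).1 hγ
    congr 1
    ext t
    simp only [fib, mem_filter, mem_pv hs, if_neg (show i ≠ 0 by omega), mem_range]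
    exact ⟨fun h => h.2.2, fun h => by
      have := mem_range.1 (hJ h)
      exact ⟨this, ⟨a, Or.inr ⟨b, c, by omega⟩⟩, h⟩⟩

theorem padB {k : ℕ} (hk : 1 ≤ k) (hr : k + 2 ≤ r) (hs : ∀ v, s v ≤ r) (hn : Vs.Nodup) (p : ℕ) :
    (∃ S, KI k Vs.toFinset rel S ∧ p ≤ S.card) ↔
      ∃ S, KI k (pv Vs s r).toFinset (pr rel π) S ∧ p + (k + 1) * (gl Vs s r).length ≤ S.card := by
  constructor
  · rintro ⟨S, hS, hp⟩
    refine ⟨lift Vs s r S (Icc 2 (k + 2)), ⟨filter_subset _ _, ?_⟩, ?_⟩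
    · rintro ⟨v, i, t⟩ hx
      obtain ⟨a, b⟩ := mem_filter.1 hx
      obtain ⟨hv, ⟨rfl, rfl⟩ | ⟨h1, h2, h3⟩⟩ := (mem_pv hs).1 a
      · have : (lift Vs s r S (Icc 2 (k + 2))).filter (TA (pr rel π) (v, 0, 0)) ⊆
            (S.filter (TA rel v)).image fun u => (u, 0, 0) := by
          rintro ⟨u, j, t⟩ hy
          obtain ⟨c, e⟩ := mem_filter.1 hy
          obtain ⟨c, d⟩ := mem_filter.1 c
          obtain ⟨hu, ⟨rfl, rfl⟩ | ⟨h1, h2, h3⟩⟩ := (mem_pv hs).1 c
          · exact mem_image.2 ⟨u, mem_filter.2 ⟨by simpa using d, ta00.1 e⟩, rfl⟩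
          · simp only [if_neg (show j ≠ 0 by omega), mem_Icc] at d
            have := (ta0i h1).1 e; omega
        exact (card_le_card this).trans (card_image_le.trans (hS.2 v (by simpa using b)))
      · simp only [if_neg (show i ≠ 0 by omega)] at b
        have : (lift Vs s r S (Icc 2 (k + 2))).filter (TA (pr rel π) (v, i, t)) ⊆
            ((Icc 2 (k + 2)).erase t).image fun j => (v, i, j) := by
          rintro ⟨u, j, t'⟩ hy
          obtain ⟨c, e⟩ := mem_filter.1 hy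
          obtain ⟨c, d⟩ := mem_filter.1 c
          obtain ⟨hu, ⟨rfl, rfl⟩ | ⟨h4, h5, h6⟩⟩ := (mem_pv hs).1 c
          · have := (ta0i h1).1 e.symm
            have := mem_Icc.1 b; omega
          · simp only [if_neg (show j ≠ 0 by omega)] at d
            obtain ⟨rfl, rfl, f, -⟩ := (taii h1 h4).1 e
            exact mem_image.2 ⟨t', mem_erase.2 ⟨f.symm, d⟩, rfl⟩
        refine (card_le_card this).trans (card_image_le.trans ?_)
        rw [card_erase_of_mem b]; simp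
    · rw [card_lift hs hn hS.1 fun t ht => mem_range.2 (by have := mem_Icc.1 ht; omega)]
      simp only [Nat.card_Icc, show k + 2 + 1 - 2 = k + 1 by omega]; omega
  · rintro ⟨S, hS, hp⟩
    refine ⟨Vs.toFinset.filter fun v => (v, 0, 0) ∈ S, ⟨filter_subset _ _, fun v hv => ?_⟩, ?_⟩
    · refine le_trans ?_ (hS.2 _ (mem_filter.1 hv).2)
      refine card_le_card_of_injOn (fun u => (u, 0, 0)) (fun u hu => ?_) fun a _ b _ h => by
        simpa using h
      obtain ⟨a, b⟩ := mem_filter.1 (mem_coe.1 hu)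
      exact mem_coe.2 (mem_filter.2 ⟨(mem_filter.1 a).2, ta00.2 b⟩)
    · rw [card_split hs hS.1] at hp
      have := sum_le_card_nsmul (gl Vs s r).toFinset (fun γ => (fib S r γ).card) (k + 1)
        fun γ hγ => fib_le hk hS ((mem_gl hs).1 hγ).2.1
      rw [List.toFinset_card_of_nodup (gl_nodup hn s r), smul_eq_mul, mul_comm] at this
      omega

theorem padA {k : ℕ} (hk : 1 ≤ k) (hs : ∀ v, s v ≤ k + 1) (hn : Vs.Nodup)
    (hd : ∀ x ∈ (pv Vs s (k + 1)).toFinset, dg (pv Vs s (k + 1)).toFinset (pr rel id) x = k + 1)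
    (p : ℕ) : (∃ S, DI Vs.toFinset rel S ∧ p ≤ S.card) ↔
      ∃ S, KI k (pv Vs s (k + 1)).toFinset (pr rel id) S ∧
        p + (k + 1) * (gl Vs s (k + 1)).length ≤ S.card := by
  constructor
  · rintro ⟨S, hS, hp⟩
    refine ⟨lift Vs s (k + 1) S ((range (k + 2)).erase 2), (ki_iff_di hd _).2
      ⟨filter_subset _ _, ?_⟩, ?_⟩
    · rintro ⟨v, i, t⟩ hx
      obtain ⟨a, b⟩ := mem_filter.1 hx
      obtain ⟨hv, ⟨rfl, rfl⟩ | ⟨h1, h2, h3⟩⟩ := (mem_pv hs).1 a
      · obtain ⟨u, c, d, e⟩ := hS.2 v (by simpa using b)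
        exact ⟨(u, 0, 0), (mem_pv hs).2 ⟨c, Or.inl ⟨rfl, rfl⟩⟩,
          fun h => d (by simpa using (mem_filter.1 h).2), ta00.2 e⟩
      · simp only [if_neg (show i ≠ 0 by omega)] at b
        refine ⟨(v, i, 2), (mem_pv hs).2 ⟨hv, Or.inr ⟨h1, h2, by omega⟩⟩, fun h => ?_,
          (taii h1 h1).2 ⟨rfl, rfl, (mem_erase.1 b).1, Or.inr le_rfl⟩⟩
        have := (mem_filter.1 h).2
        simp [show i ≠ 0 by omega] at this
    · rw [card_lift hs hn hS.1 (erase_subset _ _), card_erase_of_mem (mem_range.2 (by omega))]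
      simp only [card_range, show k + 2 - 1 = k + 1 by omega]; omega
  · rintro ⟨S, hS, hp⟩
    have hD := (ki_iff_di hd S).1 hS
    set Bd := (gl Vs s (k + 1)).toFinset.filter fun γ => (fib S (k + 1) γ).card ≤ k with hBd
    refine ⟨(Vs.toFinset.filter fun v => (v, 0, 0) ∈ S) \ Bd.image Prod.fst,
      ⟨sdiff_subset.trans (filter_subset _ _), fun v hv => ?_⟩, ?_⟩
    · obtain ⟨a, b⟩ := mem_sdiff.1 hv
      obtain ⟨a, a'⟩ := mem_filter.1 a
      obtain ⟨⟨u, j, t⟩, c, d, e⟩ := hD.2 _ a'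
      obtain ⟨hu, ⟨rfl, rfl⟩ | ⟨h1, h2, h3⟩⟩ := (mem_pv hs).1 c
      · exact ⟨u, hu, fun h => d (mem_filter.1 (mem_sdiff.1 h).1).2, ta00.1 e⟩
      exfalso
      have e' := (ta0i h1).1 e
      obtain rfl : v = u := by rcases e' with h | h <;> exact h.2
      have f : ¬ (fib S (k + 1) (v, j)).card ≤ k := fun h =>
        b (mem_image.2 ⟨(v, j), mem_filter.2 ⟨(mem_gl hs).2 ⟨hu, h1, h2⟩, h⟩, rfl⟩)
      have g : fib S (k + 1) (v, j) = (range (k + 2)).erase t := by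
        refine eq_of_subset_of_card_le (fun t' ht' => mem_erase.2 ⟨?_, (mem_filter.1 ht').1⟩) ?_
        · rintro rfl; exact d (mem_filter.1 ht').2
        · rw [card_erase_of_mem (mem_range.2 (by omega)), card_range]; omega
      have g' : ∀ t' ≤ k + 1, t' ≠ t → (v, j, t') ∈ S := fun t' x y =>
        (mem_filter.1 (g ▸ mem_erase.2 ⟨y, mem_range.2 (by omega)⟩ :
          t' ∈ fib S (k + 1) (v, j))).2
      obtain ⟨⟨u', j', t'⟩, c', d', e''⟩ := hD.2 _ (g' (1 - t) (by omega) (by omega))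
      obtain ⟨hu', ⟨rfl, rfl⟩ | ⟨h4, h5, h6⟩⟩ := (mem_pv hs).1 c'
      · obtain rfl : u' = v := by rcases (ta0i h1).1 e''.symm with h | h <;> exact h.2
        exact d' a'
      · obtain ⟨rfl, rfl, x, y⟩ := (taii h1 h4).1 e''
        exact d' (g' t' h6 (by omega))
    · rw [card_split hs hS.1] at hp
      have a := le_card_sdiff (Bd.image Prod.fst) (Vs.toFinset.filter fun v => (v, 0, 0) ∈ S)
      have b : (Bd.image Prod.fst).card ≤ Bd.card := card_image_le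
      have c := sum_le_card_nsmul (gl Vs s (k + 1)).toFinset (fun γ => (fib S (k + 1) γ).card +
        if (fib S (k + 1) γ).card ≤ k then 1 else 0) (k + 1) fun γ hγ => by
          have := fib_le (r := k + 1) hk hS ((mem_gl hs).1 hγ).2.1
          split_ifs <;> omega
      rw [List.toFinset_card_of_nodup (gl_nodup hn s _), smul_eq_mul, mul_comm, sum_add_distrib,
        ← card_filter, ← hBd] at c
      omega

end Pool.Agent.H30.Kid
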