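import Pool.Agent.H30.KidA

/-!
Transfer to coded graphs, doubling, and `k`-independent sets in graphs of degree at most `k + 2`.
-/

namespace Pool.Agent.H30.Kid

open Finset Pool.Agent.H38.NP

section
variable {X : Type} [DecidableEq X]

theorem transfer {Ws : List X} (hn : Ws.Nodup) (q : X → X → Bool) (d : X) {r : ℕ}
    (h : ∀ x ∈ Ws.toFinset, dg Ws.toFinset q x = r) (k p : ℕ) :
    Regular (graphOf Ws.length (tgE Ws q d)) r ∧
      ((∃ S, KI k Ws.toFinset q S ∧ p ≤ S.card) ↔
        ∃ S, RegInd (graphOf Ws.length (tgE Ws q d)) k S ∧ p ≤ S.card) := by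
  obtain ⟨e, inj, mem, adj⟩ := tg_spec hn q d
  have key : ∀ (S : Finset (Fin Ws.length)) v,
      ((graphOf Ws.length (tgE Ws q d)).neighborSet v ∩ S).ncard = dg (S.image e) q (e v) := by
    intro S v
    rw [← Set.ncard_image_of_injective _ inj, dg, ← Set.ncard_coe_finset]
    congr 1
    ext y
    simp only [Set.mem_image, Set.mem_inter_iff, SimpleGraph.mem_neighborSet, adj, mem_coe,
      mem_filter, mem_image]
    exact ⟨fun ⟨u, ⟨a, b⟩, c⟩ => ⟨⟨u, b, c⟩, c ▸ a⟩, fun ⟨⟨u, b, c⟩, a⟩ => ⟨u, ⟨c ▸ a, b⟩, c⟩⟩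
  have hu : univ.image e = Ws.toFinset := by
    ext x; simp [mem]
  have reg : Regular (graphOf Ws.length (tgE Ws q d)) r := fun v => by
    have := key univ v
    rw [coe_univ, Set.inter_univ, hu] at this
    rw [this]; exact h _ (hu ▸ mem_image_of_mem _ (mem_univ v))
  refine ⟨reg, ?_, ?_⟩
  · rintro ⟨S, hS, hp⟩
    obtain ⟨S', -, rfl⟩ := subset_image_iff.1 (hu ▸ hS.1)
    refine ⟨S', ⟨fun v hv => ?_, fun u _ v _ => by rw [reg u, reg v]⟩, ?_⟩
    · rw [key]; exact hS.2 _ (mem_image_of_mem _ hv)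
    · rwa [card_image_of_injective _ inj] at hp
  · rintro ⟨S, hS, hp⟩
    refine ⟨S.image e, ⟨hu ▸ image_subset_image (subset_univ _), fun x hx => ?_⟩, ?_⟩
    · obtain ⟨v, hv, rfl⟩ := mem_image.1 hx
      rw [← key]; exact hS.1 v hv
    · rwa [card_image_of_injective _ inj]

def dV (Vs : List X) : List (Bool × X) := [true, false].product Vs

def dR (rel : X → X → Bool) (x y : Bool × X) : Bool := decide (x.1 = y.1) && rel x.2 y.2

omit [DecidableEq X] in
theorem dV_nodup {Vs : List X} (h : Vs.Nodup) : (dV Vs).Nodup := List.Nodup.product (by simp) h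

theorem mem_dV {Vs : List X} {x} : x ∈ (dV Vs).toFinset ↔ x.2 ∈ Vs.toFinset := by
  obtain ⟨b, x⟩ := x
  cases b <;> simp [dV]

omit [DecidableEq X] in
theorem ta_dR {rel : X → X → Bool} {b c x y} : TA (dR rel) (b, x) (c, y) ↔ b = c ∧ TA rel x y := by
  by_cases h : b = c
  · subst h; simp [TA, dR]
  · simp [TA, dR, h, Ne.symm h]

theorem dg_prod (S : Finset X) (rel : X → X → Bool) (b x) :
    dg (univ ×ˢ S) (dR rel) (b, x) = dg S rel x := by
  unfold dg
  rw [← card_image_of_injective (S.filter (TA rel x)) (f := fun y => (b, y))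
    fun a b h => by simpa using h]
  congr 1
  ext ⟨c, y⟩
  simp only [mem_filter, mem_product, mem_univ, true_and, ta_dR, mem_image, Prod.mk.injEq]
  exact ⟨fun ⟨a, b, c⟩ => ⟨y, ⟨a, c⟩, b, rfl⟩, fun ⟨z, ⟨a, c⟩, b, d⟩ => d ▸ ⟨a, b, c⟩⟩

theorem dV_eq (Vs : List X) : (dV Vs).toFinset = univ ×ˢ Vs.toFinset := by
  ext x; rw [mem_dV]; simp

theorem dbl (Vs : List X) (rel : X → X → Bool) (k p : ℕ) :
    (∃ S, KI k Vs.toFinset rel S ∧ p ≤ S.card) ↔
      ∃ S, KI k (dV Vs).toFinset (dR rel) S ∧ 2 * p ≤ S.card := by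
  constructor
  · rintro ⟨S, hS, hp⟩
    refine ⟨univ ×ˢ S, ⟨dV_eq Vs ▸ product_subset_product_right hS.1, ?_⟩, by simp; omega⟩
    rintro ⟨b, x⟩ hx
    rw [dg_prod]; exact hS.2 x (mem_product.1 hx).2
  · rintro ⟨S, hS, hp⟩
    obtain ⟨b, hb⟩ : ∃ b, p ≤ (S.filter fun x => x.1 = b).card := by
      have := card_eq_sum_card_fiberwise (s := S) (f := Prod.fst) (t := univ)
        fun _ _ => mem_coe.2 (mem_univ _)
      rw [Fintype.sum_bool] at this
      by_contra hn
      push Not at hn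
      have := hn true
      have := hn false
      omega
    refine ⟨(S.filter fun x => x.1 = b).image Prod.snd, ⟨fun y hy => ?_, fun y hy => ?_⟩, ?_⟩
    · obtain ⟨x, hx, rfl⟩ := mem_image.1 hy
      exact mem_dV.1 (hS.1 (mem_filter.1 hx).1)
    · obtain ⟨⟨c, x⟩, hx, rfl⟩ := mem_image.1 hy
      obtain ⟨a, a'⟩ := mem_filter.1 hx
      dsimp only at a'
      subst a'
      refine le_trans ?_ (hS.2 _ a)
      refine card_le_card_of_injOn (fun u => (c, u)) (fun u hu => ?_) fun a _ b _ h => by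
        simpa using h
      obtain ⟨e, f⟩ := mem_filter.1 (mem_coe.1 hu)
      obtain ⟨⟨c', u⟩, g, rfl⟩ := mem_image.1 e
      obtain ⟨g1, g'⟩ := mem_filter.1 g
      dsimp only at g'
      subst g'
      exact mem_coe.2 (mem_filter.2 ⟨g1, ta_dR.2 ⟨rfl, f⟩⟩)
    · rwa [card_image_of_injOn]
      intro x hx y hy h
      exact Prod.ext ((mem_filter.1 hx).2.trans (mem_filter.1 hy).2.symm) h
end

def bV (n k : ℕ) : List (ℕ × ℕ × ℕ) :=
  (List.range n).product ((List.range (3 * n + 2)).product (List.range k))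

def bR (E : List (ℕ × ℕ)) (x y : ℕ × ℕ × ℕ) : Bool :=
  (decide (x.2.2 = 0) && decide (x.1 = y.1) && decide (x.2.1 = y.2.1)) ||
  (decide (x.2.2 = 0) && decide (y.2.2 = 0) && decide (x.1 = y.1) && decide (x.2.1 + 1 = y.2.1)) ||
  (decide (x.2.2 = 0) && decide (y.2.2 = 0) && decide (x.2.1 = 3 * y.1) &&
    decide (y.2.1 = 3 * x.1) && decide ((x.1, y.1) ∈ E))

theorem bV_nodup (n k) : (bV n k).Nodup :=
  List.nodup_range.product (List.nodup_range.product List.nodup_range)

theorem mem_bV {n k v p l} : (v, p, l) ∈ (bV n k).toFinset ↔ v < n ∧ p < 3 * n + 2 ∧ l < k := by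
  simp [bV]

theorem bV_card (n k) : (bV n k).toFinset.card = n * ((3 * n + 2) * k) := by
  rw [List.toFinset_card_of_nodup (bV_nodup n k)]
  simp [bV, List.product, List.length_flatMap]

theorem ta_bR {E v p l u q m} : TA (bR E) (v, p, l) (u, q, m) ↔
    (v = u ∧ p = q ∧ l ≠ m ∧ (l = 0 ∨ m = 0)) ∨ (l = 0 ∧ m = 0 ∧ ((v = u ∧ (p + 1 = q ∨ q + 1 = p)) ∨
      (v ≠ u ∧ p = 3 * u ∧ q = 3 * v ∧ ((v, u) ∈ E ∨ (u, v) ∈ E)))) := by
  simp only [TA, bR, ne_eq, Prod.mk.injEq, Bool.or_eq_true, Bool.and_eq_true, decide_eq_true_eq]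
  by_cases h1 : (v, u) ∈ E <;> by_cases h2 : (u, v) ∈ E <;> 
    simp only [h1, h2, and_true, and_false, or_true, or_false] <;> omega

theorem b_sub {E k} {S : Finset (ℕ × ℕ × ℕ)} (hS : ∀ x ∈ S, x.2.2 < k) (v p)
    (Z : Finset (ℕ × ℕ × ℕ)) (h : ∀ u q, (u, q, 0) ∈ S → TA (bR E) (v, p, 0) (u, q, 0) →
      (u, q, 0) ∈ Z) : dg S (bR E) (v, p, 0) ≤ k - 1 + Z.card := by
  have : S.filter (TA (bR E) (v, p, 0)) ⊆ ((Ico 1 k).image fun l => (v, p, l)) ∪ Z := by
    rintro ⟨u, q, m⟩ hx
    obtain ⟨a, b⟩ := mem_filter.1 hx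
    by_cases hm : m = 0
    · subst hm; exact mem_union_right _ (h u q a b)
    · have := hS _ a
      rcases ta_bR.1 b with ⟨rfl, rfl, -⟩ | ⟨-, c, -⟩
      · exact mem_union_left _ (mem_image.2 ⟨m, mem_Ico.2 ⟨by omega, this⟩, rfl⟩)
      · exact absurd c hm
  refine (card_le_card this).trans ((card_union_le _ _).trans ?_)
  have := card_image_le (s := Ico 1 k) (f := fun l => (v, p, l))
  rw [Nat.card_Ico] at this; omega

theorem b_leaf {E} (S : Finset (ℕ × ℕ × ℕ)) (v p l) (hl : l ≠ 0) : dg S (bR E) (v, p, l) ≤ 1 := by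
  have : S.filter (TA (bR E) (v, p, l)) ⊆ {(v, p, 0)} := by
    rintro ⟨u, q, m⟩ hx
    have := ta_bR.1 (mem_filter.1 hx).2
    simp only [mem_singleton, Prod.mk.injEq]; omega
  exact (card_le_card this).trans (by simp)

theorem b_deg {n k E} (x) (hx : x ∈ (bV n k).toFinset) : dg (bV n k).toFinset (bR E) x ≤ k + 2 := by
  obtain ⟨v, p, l⟩ := x
  have := (mem_bV.1 hx).2.2
  by_cases hl : l = 0
  · subst hl
    have h := b_sub (E := E) (k := k) (S := (bV n k).toFinset) (fun x hx => (mem_bV.1 hx).2.2) v p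
      {(v, p + 1, 0), (v, p - 1, 0), (p / 3, 3 * v, 0)} fun u q _ h => by
        simp only [mem_insert, mem_singleton, Prod.mk.injEq, and_true]
        rcases ta_bR.1 h with h | ⟨-, -, h | ⟨h1, h2, h3, -⟩⟩ <;> omega
    have := card_le_three (a := (v, p + 1, 0)) (b := (v, p - 1, 0)) (c := (p / 3, 3 * v, 0))
    omega
  · have := b_leaf (E := E) (bV n k).toFinset v p l hl; omega

theorem b_fwd {n k E} (hk : 1 ≤ k) {I} (hI : IndepN n E I) :
    ∃ S, KI k (bV n k).toFinset (bR E) S ∧ n * ((3 * n + 2) * (k - 1) + 2 * n + 1) + I.card ≤ S.card := by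
  refine ⟨(bV n k).toFinset.filter fun x => ¬ (x.2.2 = 0 ∧ x.2.1 % 3 = if x.1 ∈ I then 2 else 0),
    ⟨filter_subset _ _, ?_⟩, ?_⟩
  · rintro ⟨v, p, l⟩ hx
    by_cases hl : l = 0
    · subst hl
      have b := (mem_filter.1 hx).2
      refine (b_sub (k := k) (fun x hx => (mem_bV.1 (mem_filter.1 hx).1).2.2) v p
        {(v, if p % 3 = if v ∈ I then 0 else 1 then p + 1 else p - 1, 0)} fun u q h1 h2 => ?_).trans
        (by simp; omega)
      have c := (mem_filter.1 h1).2
      simp only [mem_singleton, Prod.mk.injEq, true_and, and_true] at b c ⊢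
      rcases ta_bR.1 h2 with h | ⟨-, -, ⟨rfl, h⟩ | ⟨h3, h4, h5, h6⟩⟩
      · omega
      · refine ⟨rfl, ?_⟩
        split_ifs at * <;> omega
      · exfalso
        by_cases a1 : v ∈ I
        · by_cases a2 : u ∈ I
          · rcases h6 with h6 | h6
            · exact hI.2 v a1 u a2 h3 h6
            · exact hI.2 u a2 v a1 (Ne.symm h3) h6
          · rw [if_neg a2] at c; omega
        · rw [if_neg a1] at b; omega
    · exact (b_leaf _ v p l hl).trans hk
  · have a := card_filter_add_card_filter_not (s := (bV n k).toFinset)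
      (fun x => x.2.2 = 0 ∧ x.2.1 % 3 = if x.1 ∈ I then 2 else 0)
    have : (bV n k).toFinset.filter (fun x => x.2.2 = 0 ∧ x.2.1 % 3 = if x.1 ∈ I then 2 else 0) ⊆
        ((range n ×ˢ range n).image fun y => (y.1, 3 * y.2 + if y.1 ∈ I then 2 else 0, 0)) ∪
        (range n \ I).image fun v => (v, 3 * n, 0) := by
      rintro ⟨v, p, l⟩ hx
      obtain ⟨b, c, d⟩ := mem_filter.1 hx
      obtain ⟨b1, b2, b3⟩ := mem_bV.1 b
      dsimp only at c d
      subst c
      by_cases e : p / 3 < n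
      · refine mem_union_left _ (mem_image.2 ⟨(v, p / 3), by simp [b1, e], ?_⟩)
        simp only [Prod.mk.injEq, true_and, and_true]; omega
      · refine mem_union_right _ (mem_image.2 ⟨v, mem_sdiff.2 ⟨mem_range.2 b1, fun h => ?_⟩, ?_⟩)
        · rw [if_pos h] at d; omega
        · simp only [Prod.mk.injEq, true_and, and_true]
          split_ifs at d <;> omega
    have b := (card_le_card this).trans ((card_union_le _ _).trans
      (add_le_add card_image_le card_image_le))
    have c := card_sdiff_add_card_eq_card (show I ⊆ range n from fun v hv => mem_range.2 (hI.1 v hv))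
    rw [card_product, card_range] at b
    rw [card_range] at c
    rw [bV_card] at a
    obtain ⟨k, rfl⟩ : ∃ k', k = k' + 1 := ⟨k - 1, by omega⟩
    have e : n * ((3 * n + 2) * (k + 1)) =
      n * ((3 * n + 2) * (k + 1 - 1) + 2 * n + 1) + n * n + n := by simp; ring
    omega

theorem b_bwd {n k E} {S} (hS : KI k (bV n k).toFinset (bR E) S) (hk : 1 ≤ k) :
    ∃ I, IndepN n E I ∧ S.card ≤ n * ((3 * n + 2) * (k - 1) + 2 * n + 1) + I.card := by
  let M : ℕ → Finset ℕ := fun v => (range (3 * n + 2)).filter fun p => ∃ l < k, (v, p, l) ∉ S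
  have hM : ∀ v p, p < 3 * n + 2 → p ∉ M v → ∀ l < k, (v, p, l) ∈ S := fun v p h1 h2 l hl =>
    by_contra fun h => h2 (mem_filter.2 ⟨mem_range.2 h1, l, hl, h⟩)
  have key : ∀ v p u q w z, p < 3 * n + 2 → q < 3 * n + 2 → z < 3 * n + 2 → p ∉ M v → q ∉ M u →
      z ∉ M w → (u, q) ≠ (w, z) → TA (bR E) (v, p, 0) (u, q, 0) → TA (bR E) (v, p, 0) (w, z, 0) →
      False := by
    intro v p u q w z h1 h2 h3 h4 h5 h6 h7 h8 h9
    have a := hS.2 _ (hM v p h1 h4 0 hk)
    have : insert (u, q, 0) (insert (w, z, 0) ((Ico 1 k).image fun l => (v, p, l))) ⊆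
        S.filter (TA (bR E) (v, p, 0)) := by
      simp only [insert_subset_iff, mem_filter, image_subset_iff, mem_Ico]
      exact ⟨⟨hM u q h2 h5 0 hk, h8⟩, ⟨hM w z h3 h6 0 hk, h9⟩,
        fun l hl => ⟨hM v p h1 h4 l hl.2, ta_bR.2 (by omega)⟩⟩
    have b := card_le_card this
    rw [card_insert_of_notMem, card_insert_of_notMem,
      card_image_of_injective _ fun a b h => by simpa using h, Nat.card_Ico] at b
    · unfold dg at a; omega
    · simp only [mem_image, mem_Ico, Prod.mk.injEq]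
      rintro ⟨l, x, y⟩; omega
    · simp only [mem_insert, mem_image, mem_Ico, Prod.mk.injEq, ne_eq] at h7 ⊢
      rintro (x | ⟨l, x, y⟩) <;> omega
  have sur : ∀ v, range n ⊆ (M v).image (· / 3) := fun v u hu => by
    have hu := mem_range.1 hu
    by_contra h
    have g : ∀ p, p / 3 = u → p ∉ M v := fun p e h' => h (mem_image.2 ⟨p, h', e⟩)
    exact key v (3 * u + 1) v (3 * u) v (3 * u + 2) (by omega) (by omega) (by omega)
      (g _ (by omega)) (g _ (by omega)) (g _ (by omega)) (by simp) (ta_bR.2 (by omega))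
      (ta_bR.2 (by omega))
  have low : ∀ v, n ≤ ((M v).image (· / 3)).card := fun v => by
    simpa using card_le_card (sur v)
  have tight : ∀ v, (M v).card ≤ n → ∀ u ≤ n, 3 * u ∉ M v ∧ 3 * u + 1 ∉ M v := by
    intro v hv
    have a : ((M v).image (· / 3)).card ≤ (M v).card := card_image_le
    have inj := card_image_iff.1 (show ((M v).image (· / 3)).card = (M v).card by
      have := low v; omega)
    have e : range n = (M v).image (· / 3) :=
      eq_of_subset_of_card_le (sur v) (by rw [card_range]; omega)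
    have : ∀ d u, u + d = n → 3 * u ∉ M v ∧ 3 * u + 1 ∉ M v := by
      intro d
      induction d with
      | zero =>
        intro u hu
        constructor <;> intro h <;> have := mem_range.1 (e ▸ mem_image_of_mem (· / 3) h) <;> omega
      | succ d ih =>
        intro u hu
        obtain ⟨x, y⟩ := ih (u + 1) (by omega)
        have z : 3 * u + 2 ∈ M v := by_contra fun z =>
          key v (3 * (u + 1)) v (3 * u + 2) v (3 * (u + 1) + 1) (by omega) (by omega) (by omega)
            x z y (by simp; omega) (ta_bR.2 (by omega)) (ta_bR.2 (by omega))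
        constructor <;> intro h <;> have := inj h z (by dsimp only; omega) <;> omega
    exact fun u hu => this (n - u) u (by omega)
  refine ⟨(range n).filter fun v => (M v).card ≤ n, ⟨fun v hv => mem_range.1 (mem_filter.1 hv).1,
    fun u hu v hv hne hE => ?_⟩, ?_⟩
  · obtain ⟨u1, u2⟩ := mem_filter.1 hu
    obtain ⟨v1, v2⟩ := mem_filter.1 hv
    have u1 := mem_range.1 u1
    have v1 := mem_range.1 v1
    exact key u (3 * v) u (3 * v + 1) v (3 * u) (by omega) (by omega) (by omega)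
      (tight u u2 v v1.le).1 (tight u u2 v v1.le).2 (tight v v2 u u1.le).1 (by simp [hne])
      (ta_bR.2 (by omega)) (ta_bR.2 (Or.inr ⟨rfl, rfl, Or.inr ⟨hne, rfl, rfl, Or.inl hE⟩⟩))
  · have a := card_sdiff_add_card_eq_card hS.1
    have b := card_eq_sum_card_fiberwise (s := (bV n k).toFinset \ S) (f := Prod.fst)
      (t := range n) fun x hx => mem_coe.2 (mem_range.2 (mem_bV.1 (mem_sdiff.1 hx).1).1)
    have c : ∑ v ∈ range n, (n + 1) ≤ ∑ v ∈ range n,
        ((((bV n k).toFinset \ S).filter fun x => x.1 = v).card +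
          if (M v).card ≤ n then 1 else 0) := sum_le_sum fun v hv => by
      have : M v ⊆ (((bV n k).toFinset \ S).filter fun x => x.1 = v).image fun x => x.2.1 := by
        intro p hp
        obtain ⟨x, l, y, z⟩ := mem_filter.1 hp
        exact mem_image.2 ⟨(v, p, l), mem_filter.2 ⟨mem_sdiff.2
          ⟨mem_bV.2 ⟨mem_range.1 hv, mem_range.1 x, y⟩, z⟩, rfl⟩, rfl⟩
      have x := (card_le_card this).trans card_image_le
      have y := (low v).trans card_image_le
      split_ifs <;> omega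
    rw [sum_const, card_range, smul_eq_mul, sum_add_distrib, ← b, ← card_filter] at c
    rw [bV_card] at a
    obtain ⟨k, rfl⟩ : ∃ k', k = k' + 1 := ⟨k - 1, by omega⟩
    have e : n * ((3 * n + 2) * (k + 1)) =
      n * ((3 * n + 2) * (k + 1 - 1) + 2 * n + 1) + n * (n + 1) := by simp; ring
    omega

end Pool.Agent.H30.Kid
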