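import Pool.Agent.H30.KidB
import Pool.Agent.Lead.Ham.One3

/-!
Dominating sets in graphs whose degrees have a prescribed parity.
-/

namespace Pool.Agent.H30.Kid

open Finset Pool.Agent.H38.NP
open Pool.Agent.Lead.Ham (F3 nx nx_spec pv_spec nx_const pt_nx)

def lt (φ : F3) (o : ℕ) : ℕ := if (litAt φ o).2 = true then 0 else 1

def aV (L e : ℕ) : List (ℕ × ℕ) :=
  (List.range (3 * L)).product (List.range (3 + 4 * e)) ++
    (List.range L).product (List.range' 7 (2 - e))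

def aR (φ : F3) (x y : ℕ × ℕ) : Bool :=
  (decide (x.2 ≤ 1) && decide (y.1 = x.1) && decide (y.2 = x.2 + 1)) ||
  (decide (x.2 = 2) && decide (y.1 = nx φ x.1) && decide (y.2 = 0)) ||
  (decide (x.2 = 3) && decide (y.1 = x.1) &&
    (decide (y.2 = 2) || decide (y.2 + lt φ x.1 = 1) || decide (y.2 = 4))) ||
  (decide (x.2 = 4) && decide (y.1 = x.1) && (decide (y.2 = 5) || decide (y.2 = 6))) ||
  (decide (7 ≤ x.2) && decide (y.1 / 3 = x.1) && decide (y.2 = lt φ y.1)) ||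
  (decide (x.2 = 7) && decide (y.1 = x.1) && decide (y.2 = 8))

def AR (φ : F3) (o t u m : ℕ) : Prop :=
  (t ≤ 1 ∧ u = o ∧ m = t + 1) ∨ (t = 2 ∧ u = nx φ o ∧ m = 0) ∨
  (t = 3 ∧ u = o ∧ (m = 2 ∨ m + lt φ o = 1 ∨ m = 4)) ∨ (t = 4 ∧ u = o ∧ (m = 5 ∨ m = 6)) ∨
  (7 ≤ t ∧ u / 3 = o ∧ m = lt φ u) ∨ (t = 7 ∧ u = o ∧ m = 8)

theorem lt_le (φ o) : lt φ o ≤ 1 := by unfold lt; split_ifs <;> omega

theorem aR_iff {φ o t u m} : aR φ (o, t) (u, m) = true ↔ AR φ o t u m := by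
  simp only [aR, AR, Bool.or_eq_true, Bool.and_eq_true, decide_eq_true_eq, and_assoc, or_assoc]

theorem AR_ne {φ o t u m} (h : AR φ o t u m) : t ≠ m := by
  have := lt_le φ o
  have := lt_le φ u
  rcases h with h | h | h | h | h | h <;> omega

theorem ta_aR {φ o t u m} : TA (aR φ) (o, t) (u, m) ↔ AR φ o t u m ∨ AR φ u m o t := by
  rw [TA, aR_iff, aR_iff]
  refine ⟨fun h => h.2, fun h => ⟨fun e => ?_, h⟩⟩
  have := (Prod.mk.inj e).2
  rcases h with h | h
  · exact AR_ne h this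
  · exact AR_ne h this.symm

theorem aV_nodup (L) {e} (he : e ≤ 1) : (aV L e).Nodup := by
  refine List.Nodup.append (List.nodup_range.product List.nodup_range)
    (List.nodup_range.product List.nodup_range') ?_
  rintro ⟨o, t⟩ h1 h2
  simp only [List.pair_mem_product, List.mem_range, List.mem_range'_1] at h1 h2
  omega

theorem mem_aV {L e o t} : (o, t) ∈ (aV L e).toFinset ↔
    (o < 3 * L ∧ t < 3 + 4 * e) ∨ (o < L ∧ 7 ≤ t ∧ t < 7 + (2 - e)) := by
  simp only [aV, List.mem_toFinset, List.mem_append, List.pair_mem_product, List.mem_range,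
    List.mem_range'_1]

theorem aV_card (L) {e} (he : e ≤ 1) :
    (aV L e).toFinset.card = 3 * L * (2 + 3 * e) + L * (2 - e) + 3 * L * (1 + e) := by
  rw [List.toFinset_card_of_nodup (aV_nodup L he)]
  simp [aV, List.product, List.length_flatMap]; ring

def NF (φ : F3) (o t u m : ℕ) : Prop :=
  match t with
  | 0 => (u = o ∧ m = 1) ∨ (m = 2 ∧ o = nx φ u) ∨ (m = 3 ∧ u = o ∧ lt φ o = 1) ∨
      (7 ≤ m ∧ o / 3 = u ∧ lt φ o = 0)
  | 1 => (u = o ∧ m = 2) ∨ (u = o ∧ m = 0) ∨ (m = 3 ∧ u = o ∧ lt φ o = 0) ∨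
      (7 ≤ m ∧ o / 3 = u ∧ lt φ o = 1)
  | 2 => (u = nx φ o ∧ m = 0) ∨ (u = o ∧ m = 1) ∨ (u = o ∧ m = 3)
  | 3 => u = o ∧ (m = 2 ∨ m + lt φ o = 1 ∨ m = 4)
  | 4 => u = o ∧ (m = 3 ∨ m = 5 ∨ m = 6)
  | 5 => u = o ∧ m = 4
  | 6 => u = o ∧ m = 4
  | 7 => (u / 3 = o ∧ m = lt φ u) ∨ (u = o ∧ m = 8)
  | 8 => (u / 3 = o ∧ m = lt φ u) ∨ (u = o ∧ m = 7)
  | _ => False

theorem ta_nf {φ o t u m} (ht : t ≤ 8) : TA (aR φ) (o, t) (u, m) ↔ NF φ o t u m := by
  rw [ta_aR]
  have h1 := lt_le φ o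
  have h2 := lt_le φ u
  constructor
  · intro h
    have h3 : u = o → lt φ u = lt φ o := fun h => by rw [h]
    interval_cases t <;> simp only [NF] <;>
      rcases h with (h | h | h | h | h | h) | (h | h | h | h | h | h) <;> omega
  · intro h
    interval_cases t <;> simp only [NF] at h
    · rcases h with ⟨rfl, rfl⟩ | ⟨rfl, rfl⟩ | ⟨rfl, rfl, h⟩ | ⟨h, rfl, h'⟩ <;> simp [AR, *]
    · rcases h with ⟨rfl, rfl⟩ | ⟨rfl, rfl⟩ | ⟨rfl, rfl, h⟩ | ⟨h, rfl, h'⟩ <;> simp [AR, *]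
    · rcases h with ⟨rfl, rfl⟩ | ⟨rfl, rfl⟩ | ⟨rfl, rfl⟩ <;> simp [AR]
    · exact Or.inl (Or.inr (Or.inr (Or.inl ⟨rfl, h⟩)))
    · rcases h with ⟨rfl, rfl | rfl | rfl⟩ <;> simp [AR]
    · rcases h with ⟨rfl, rfl⟩; simp [AR]
    · rcases h with ⟨rfl, rfl⟩; simp [AR]
    · rcases h with ⟨rfl, rfl⟩ | ⟨rfl, rfl⟩ <;> simp [AR]
    · rcases h with ⟨rfl, rfl⟩ | ⟨rfl, rfl⟩ <;> simp [AR]

theorem a_deg (φ : F3) {e} (he : e ≤ 1) (x) (hx : x ∈ (aV φ.length e).toFinset) :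
    dg (aV φ.length e).toFinset (aR φ) x ≤ 4 - e ∧ dg (aV φ.length e).toFinset (aR φ) x % 2 = e := by
  obtain ⟨o, t⟩ := x
  have hx := mem_aV.1 hx
  obtain ⟨l, h1, h2, h3, h4⟩ : ∃ l : List (ℕ × ℕ), l.Nodup ∧ l.length ≤ 4 - e ∧ l.length % 2 = e ∧
      ∀ u m, ((u < 3 * φ.length ∧ m < 3 + 4 * e) ∨ (u < φ.length ∧ 7 ≤ m ∧ m < 7 + (2 - e))) ∧
        NF φ o t u m ↔ (u, m) ∈ l := by
    have l0 := lt_le φ o
    have : (t = 0 ∧ e = 0 ∧ lt φ o = 0) ∨ (t = 0 ∧ e = 0 ∧ lt φ o = 1) ∨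
        (t = 0 ∧ e = 1 ∧ lt φ o = 0) ∨ (t = 0 ∧ e = 1 ∧ lt φ o = 1) ∨
        (t = 1 ∧ e = 0 ∧ lt φ o = 0) ∨ (t = 1 ∧ e = 0 ∧ lt φ o = 1) ∨
        (t = 1 ∧ e = 1 ∧ lt φ o = 0) ∨ (t = 1 ∧ e = 1 ∧ lt φ o = 1) ∨
        (t = 2 ∧ e = 0 ∧ 0 = 0) ∨ (t = 2 ∧ e = 1 ∧ 0 = 0) ∨ (t = 3 ∧ e = 1 ∧ lt φ o = 0) ∨
        (t = 3 ∧ e = 1 ∧ lt φ o = 1) ∨ (t = 4 ∧ e = 1 ∧ 0 = 0) ∨ (t = 5 ∧ e = 1 ∧ 0 = 0) ∨
        (t = 6 ∧ e = 1 ∧ 0 = 0) ∨ (t = 7 ∧ e = 0 ∧ 0 = 0) ∨ (t = 7 ∧ e = 1 ∧ 0 = 0) ∨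
        (t = 8 ∧ e = 0 ∧ 0 = 0) := by
      have : t ≤ 8 := by omega
      generalize lt φ o = z at *
      interval_cases t <;> interval_cases e <;> interval_cases z <;> simp <;> omega
    rcases this with h | h | h | h | h | h | h | h | h | h | h | h | h | h | h | h | h | h <;>
      obtain ⟨rfl, rfl, h⟩ := h
    on_goal 1 => refine ⟨[(o, 1), (Lead.Ham.pv φ o, 2), (o / 3, 7), (o / 3, 8)], ?_⟩
    on_goal 2 => refine ⟨[(o, 1), (Lead.Ham.pv φ o, 2)], ?_⟩
    on_goal 3 => refine ⟨[(o, 1), (Lead.Ham.pv φ o, 2), (o / 3, 7)], ?_⟩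
    on_goal 4 => refine ⟨[(o, 1), (Lead.Ham.pv φ o, 2), (o, 3)], ?_⟩
    on_goal 5 => refine ⟨[(o, 0), (o, 2)], ?_⟩
    on_goal 6 => refine ⟨[(o, 0), (o, 2), (o / 3, 7), (o / 3, 8)], ?_⟩
    on_goal 7 => refine ⟨[(o, 0), (o, 2), (o, 3)], ?_⟩
    on_goal 8 => refine ⟨[(o, 0), (o, 2), (o / 3, 7)], ?_⟩
    on_goal 9 => refine ⟨[(o, 1), (nx φ o, 0)], ?_⟩
    on_goal 10 => refine ⟨[(o, 1), (nx φ o, 0), (o, 3)], ?_⟩
    on_goal 11 => refine ⟨[(o, 2), (o, 1), (o, 4)], ?_⟩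
    on_goal 12 => refine ⟨[(o, 2), (o, 0), (o, 4)], ?_⟩
    on_goal 13 => refine ⟨[(o, 3), (o, 5), (o, 6)], ?_⟩
    on_goal 14 => refine ⟨[(o, 4)], ?_⟩
    on_goal 15 => refine ⟨[(o, 4)], ?_⟩
    on_goal 16 => refine ⟨[(3 * o, lt φ (3 * o)), (3 * o + 1, lt φ (3 * o + 1)),
      (3 * o + 2, lt φ (3 * o + 2)), (o, 8)], ?_⟩
    on_goal 17 => refine ⟨[(3 * o, lt φ (3 * o)), (3 * o + 1, lt φ (3 * o + 1)),
      (3 * o + 2, lt φ (3 * o + 2))], ?_⟩
    on_goal 18 => refine ⟨[(3 * o, lt φ (3 * o)), (3 * o + 1, lt φ (3 * o + 1)),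
      (3 * o + 2, lt φ (3 * o + 2)), (o, 7)], ?_⟩
    all_goals
      have := lt_le φ (3 * o)
      have := lt_le φ (3 * o + 1)
      have := lt_le φ (3 * o + 2)
      refine ⟨?_, by simp, by simp, fun u m => ?_⟩
      · simp only [List.nodup_cons, List.mem_cons, Prod.mk.injEq, List.not_mem_nil, or_false,
          not_false_eq_true, List.nodup_nil, and_true, true_and]
        try omega
      · simp only [NF, List.mem_cons, Prod.mk.injEq, List.not_mem_nil, or_false]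
        constructor
        · rintro ⟨hW, hN⟩
          first
          | omega
          | (have : u < 3 * φ.length → o = nx φ u → u = Lead.Ham.pv φ o :=
              fun g k => by rw [k, (nx_spec g).2.2]
             omega)
          | (have : u = 3 * o → lt φ u = lt φ (3 * o) := fun h => by rw [h]
             have : u = 3 * o + 1 → lt φ u = lt φ (3 * o + 1) := fun h => by rw [h]
             have : u = 3 * o + 2 → lt φ u = lt φ (3 * o + 2) := fun h => by rw [h]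
             omega)
        · intro hN
          casesm* _ ∨ _, _ ∧ _
          all_goals
            subst u m
            first
            | omega
            | (have := nx_spec (φ := φ) (o := o) (by omega)
               have := pv_spec (φ := φ) (o := o) (by omega)
               omega)
  have : (aV φ.length e).toFinset.filter (TA (aR φ) (o, t)) = l.toFinset := by
    ext ⟨u, m⟩
    rw [mem_filter, mem_aV, ta_nf (by omega), h4, List.mem_toFinset]
  rw [dg, this, List.toFinset_card_of_nodup h1]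
  exact ⟨h2, h3⟩

theorem a_fwd (φ : F3) {e} (he : e ≤ 1) (h : Sat3 φ) : ∃ S, DI (aV φ.length e).toFinset (aR φ) S ∧
    3 * φ.length * (2 + 3 * e) + φ.length * (2 - e) ≤ S.card := by
  obtain ⟨a, ha⟩ := (sat3_iff_litAt φ).1 h
  obtain ⟨val, v1, v2, v3⟩ : ∃ val : ℕ → ℕ, (∀ o, val o ≤ 1) ∧
      (∀ o < 3 * φ.length, val (nx φ o) = val o) ∧
      ∀ o, a (litAt φ o).1 = (litAt φ o).2 → val o = lt φ o :=
    ⟨fun o => if a (litAt φ o).1 = true then 0 else 1, fun o => by dsimp only; split_ifs <;> omega,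
      fun o ho => by simp only [(nx_spec ho).2.1], fun o h => by simp only [lt, h]⟩
  refine ⟨(aV φ.length e).toFinset.filter fun x => ¬ (x.2 = val x.1 ∨ x.2 = 4),
    ⟨filter_subset _ _, ?_⟩, ?_⟩
  · rintro ⟨o, t⟩ hx
    obtain ⟨b, c⟩ := mem_filter.1 hx
    have b := mem_aV.1 b
    dsimp only at c
    have t8 : t ≤ 8 := by omega
    suffices H : ∃ u m, ((u < 3 * φ.length ∧ m < 3 + 4 * e) ∧ (m = val u ∨ m = 4)) ∧
        NF φ o t u m by
      obtain ⟨u, m, ⟨x, y⟩, z⟩ := H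
      exact ⟨(u, m), mem_aV.2 (Or.inl x), fun h => (mem_filter.1 h).2 y, (ta_nf t8).2 z⟩
    have := v1 o
    by_cases t7 : 7 ≤ t
    · obtain ⟨j, hj, x⟩ := ha o (by omega)
      have := v3 _ x
      have := lt_le φ (3 * o + j)
      refine ⟨3 * o + j, lt φ (3 * o + j), by omega, ?_⟩
      interval_cases t <;> simp only [NF, true_and, and_true, true_or, or_true] <;> omega
    by_cases t3 : 3 ≤ t
    · refine ⟨o, 4, by omega, ?_⟩
      interval_cases t <;> simp only [NF, true_and, and_true, true_or, or_true] <;> omega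
    by_cases t2 : t = 2 ∧ val o = 0
    · have := v2 o (by omega)
      have := (nx_spec (show o < 3 * φ.length by omega)).1
      refine ⟨nx φ o, 0, by omega, ?_⟩
      rw [t2.1]; simp [NF]
    · refine ⟨o, val o, by omega, ?_⟩
      interval_cases t <;> simp only [NF, true_and, and_true, true_or, or_true] <;> omega
  · have x := card_filter_add_card_filter_not (s := (aV φ.length e).toFinset)
      (fun x => x.2 = val x.1 ∨ x.2 = 4)
    have : (aV φ.length e).toFinset.filter (fun x => x.2 = val x.1 ∨ x.2 = 4) ⊆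
        ((range (3 * φ.length)).image fun o => (o, val o)) ∪
        (range (3 * φ.length * e)).image fun o => (o, 4) := by
      rintro ⟨o, t⟩ hx
      obtain ⟨b, c⟩ := mem_filter.1 hx
      have b := mem_aV.1 b
      have := v1 o
      dsimp only at c
      rcases c with rfl | rfl
      · exact mem_union_left _ (mem_image.2 ⟨o, mem_range.2 (by omega), rfl⟩)
      · obtain rfl : e = 1 := by omega
        exact mem_union_right _ (mem_image.2 ⟨o, mem_range.2 (by omega), rfl⟩)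
    have b := (card_le_card this).trans ((card_union_le _ _).trans
      (add_le_add card_image_le card_image_le))
    rw [aV_card _ he, mul_add _ 1 e] at x
    rw [card_range, card_range] at b
    omega

theorem a_bwd (φ : F3) {e} (he : e ≤ 1) {S} (hS : DI (aV φ.length e).toFinset (aR φ) S)
    (hc : 3 * φ.length * (2 + 3 * e) + φ.length * (2 - e) ≤ S.card) : Sat3 φ := by
  set T := (aV φ.length e).toFinset \ S with hT
  have c1 : T.card ≤ 3 * φ.length * (1 + e) := by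
    have := card_sdiff_add_card_eq_card hS.1
    rw [aV_card _ he, ← hT] at this; omega
  have hW : ∀ o t, (o, t) ∈ T → (o < 3 * φ.length ∧ t < 3 + 4 * e) ∨
      (o < φ.length ∧ 7 ≤ t ∧ t < 7 + (2 - e)) := fun o t h => mem_aV.1 (mem_sdiff.1 h).1
  have dom : ∀ o t, (o < 3 * φ.length ∧ t < 3 + 4 * e) ∨ (o < φ.length ∧ t = 7) →
      (o, t) ∈ T ∨ ∃ u m, (u, m) ∈ T ∧ NF φ o t u m := fun o t h => by
    by_cases a : (o, t) ∈ S
    · obtain ⟨⟨u, m⟩, x, y, z⟩ := hS.2 _ a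
      exact Or.inr ⟨u, m, mem_sdiff.2 ⟨x, y⟩, (ta_nf (by omega)).1 z⟩
    · exact Or.inl (mem_sdiff.2 ⟨mem_aV.2 (by omega), a⟩)
  let reg : ℕ × ℕ → ℕ := fun x => if x.2 = 0 then Lead.Ham.pv φ x.1 else if x.2 ≤ 3 then x.1 else
    if x.2 ≤ 6 then 3 * φ.length + x.1 else 6 * φ.length
  have r0 : ∀ o < 3 * φ.length, reg (nx φ o, 0) = o := fun o ho => by simp [reg, (nx_spec ho).2.2]
  have r1 : ∀ o t, 1 ≤ t → t ≤ 3 → reg (o, t) = o := fun o t a b => by
    simp [reg, b, show t ≠ 0 by omega]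
  have r2 : ∀ o t, 4 ≤ t → t ≤ 6 → reg (o, t) = 3 * φ.length + o := fun o t a b => by
    simp [reg, b, show t ≠ 0 by omega, show ¬ t ≤ 3 by omega]
  have r3 : ∀ o t, 7 ≤ t → reg (o, t) = 6 * φ.length := fun o t a => by
    simp [reg, show t ≠ 0 by omega, show ¬ t ≤ 3 by omega, show ¬ t ≤ 6 by omega]
  have sur : range (3 * φ.length * (1 + e)) ⊆ T.image reg := fun ρ hρ => by
    have hρ := mem_range.1 hρ
    by_cases c : ρ < 3 * φ.length
    · rcases dom ρ 2 (by omega) with h | ⟨u, m, h, g⟩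
      · exact mem_image.2 ⟨_, h, r1 _ _ (by omega) (by omega)⟩
      · have := lt_le φ ρ
        have : (u = nx φ ρ ∧ m = 0) ∨ (u = ρ ∧ 1 ≤ m ∧ m ≤ 3) := by simp only [NF] at g; omega
        rcases this with ⟨rfl, rfl⟩ | ⟨rfl, x, y⟩
        · exact mem_image.2 ⟨_, h, r0 _ c⟩
        · exact mem_image.2 ⟨_, h, r1 _ _ x y⟩
    · obtain rfl : e = 1 := by
        by_contra x
        obtain rfl : e = 0 := by omega
        omega
      rcases dom (ρ - 3 * φ.length) 5 (by omega) with h | ⟨u, m, h, g⟩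
      · exact mem_image.2 ⟨_, h, by rw [r2 _ _ (by omega) (by omega)]; omega⟩
      · have := lt_le φ (ρ - 3 * φ.length)
        have : u = ρ - 3 * φ.length ∧ m = 4 := by simp only [NF] at g; omega
        exact mem_image.2 ⟨_, h, by rw [r2 _ _ (by omega) (by omega)]; omega⟩
  have c2 := card_le_card sur
  have c3 : (T.image reg).card ≤ T.card := card_image_le
  rw [card_range] at c2
  have inj := card_image_iff.1 (show (T.image reg).card = T.card by omega)
  have e1 : range (3 * φ.length * (1 + e)) = T.image reg :=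
    eq_of_subset_of_card_le sur (by rw [card_range]; omega)
  have n7 : ∀ o t, (o, t) ∈ T → t < 7 := fun o t h => by
    by_contra x
    have := mem_range.1 (e1 ▸ mem_image_of_mem reg h)
    rw [r3 _ _ (by omega)] at this
    have : 3 * φ.length * (1 + e) ≤ 3 * φ.length * 2 := Nat.mul_le_mul_left _ (by omega)
    omega
  have uq : ∀ o < 3 * φ.length, (nx φ o, 0) ∈ T → ∀ t, 1 ≤ t → t ≤ 3 → (o, t) ∉ T :=
    fun o ho h t a b g => by
      have := inj h g (by rw [r0 o ho, r1 o t a b])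
      simp only [Prod.mk.injEq] at this; omega
  have rule : ∀ o < 3 * φ.length, (nx φ o, 0) ∈ T → (o, 0) ∈ T := fun o ho h => by
    rcases dom o 1 (by omega) with g | ⟨u, m, g, g'⟩
    · exact absurd g (uq o ho h 1 (by omega) (by omega))
    · have := n7 u m g
      have : u = o ∧ m ≤ 3 := by simp only [NF] at g'; omega
      obtain ⟨rfl, x⟩ := this
      by_cases y : m = 0
      · exact y ▸ g
      · exact absurd g (uq u ho h m (by omega) x)
  have cst : ∀ o < 3 * φ.length, decide ((nx φ o, 0) ∈ T) = decide ((o, 0) ∈ T) := by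
    have x : ((range (3 * φ.length)).filter fun o => (nx φ o, 0) ∈ T) =
        (range (3 * φ.length)).filter fun o => (o, 0) ∈ T := by
      refine eq_of_subset_of_card_le (fun o ho => mem_filter.2 ⟨(mem_filter.1 ho).1,
        rule o (mem_range.1 (mem_filter.1 ho).1) (mem_filter.1 ho).2⟩) ?_
      refine card_le_card_of_injOn (Lead.Ham.pv φ) (fun o ho => ?_) fun o ho o' ho' h => ?_
      · obtain ⟨a, b⟩ := mem_filter.1 (mem_coe.1 ho)
        obtain ⟨p1, -, p2⟩ := pv_spec (mem_range.1 a)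
        exact mem_coe.2 (mem_filter.2 ⟨mem_range.2 p1, by rwa [p2]⟩)
      · rw [← (pv_spec (mem_range.1 (mem_filter.1 ho).1)).2.2, h,
          (pv_spec (mem_range.1 (mem_filter.1 ho').1)).2.2]
    intro o ho
    have := Finset.ext_iff.1 x o
    simpa [ho] using this
  classical
  refine (sat3_iff_litAt φ).2 ⟨fun x => decide (∃ o < 3 * φ.length, (litAt φ o).1 = x ∧ (o, 0) ∈ T),
    fun c hc => ?_⟩
  rcases dom c 7 (by omega) with g | ⟨u, m, g, g'⟩
  · exact absurd (n7 _ _ g) (by omega)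
  have := n7 u m g
  have := lt_le φ c
  have : u / 3 = c ∧ m = lt φ u := by simp only [NF] at g'; omega
  obtain ⟨x, rfl⟩ := this
  have hu : u < 3 * φ.length := by omega
  refine ⟨u % 3, Nat.mod_lt _ (by omega), ?_⟩
  rw [show 3 * c + u % 3 = u by omega]
  cases hb : (litAt φ u).2
  · simp only [lt, hb, Bool.false_eq_true, if_false] at g
    simp only [decide_eq_false_iff_not]
    rintro ⟨o, ho, y, z⟩
    have w := nx_const (f := fun o => decide ((o, 0) ∈ T)) cst hu ho y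
    rw [← cst u hu] at w
    exact uq u hu (by simpa [z] using w) 1 (by omega) (by omega) g
  · simp only [lt, hb, if_true] at g
    simp only [decide_eq_true_eq]
    exact ⟨u, hu, rfl, g⟩

end Pool.Agent.H30.Kid
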