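import Pool.Agent.H30.KidC
import Pool.Agent.H38.ER.Big

/-!
NP-completeness of the regular `k`-independent set problem on regular graphs.
-/

namespace Pool.Agent.H30.Kid

open Finset Pool.Agent.H38.NP Pool.Agent.H38.ER
open Pool.Agent.Lead.Ham (F3 nx pt_nx)

section
variable {X : Type} [DecidableEq X]

def dl (Vs : List X) (rel : X → X → Bool) (x : X) : ℕ :=
  (Vs.filter fun y => decide (x ≠ y) && (rel x y || rel y x)).length

theorem dl_eq {Vs : List X} (hn : Vs.Nodup) (rel x) : dl Vs rel x = dg Vs.toFinset rel x := by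
  rw [dl, dg, ← List.toFinset_card_of_nodup (hn.filter _)]
  congr 1
  ext y
  simp [TA]

def inst (k r : ℕ) (d : X) (Vs : List X) (rel : X → X → Bool) (s : X → ℕ) (π : X → X) (p : ℕ) :
    (ℕ × List (ℕ × ℕ)) × Bin :=
  (((pv Vs s r).length, tgE (pv Vs s r) (pr rel π) (d, 0, 0)),
    Bin.mk (p + (k + 1) * (gl Vs s r).length))

variable {α : Type} [Enc α] [Enc X] [EncInj X] {Vs : α → List X} {rel : α → X → X → Bool}

theorem pt_dl (hV : PT Vs) (hr : PT fun a : α × X × X => rel a.1 a.2.1 a.2.2) :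
    PT fun a : α × X => dl (Vs a.1) (rel a.1) a.2 := by
  refine PT.length (PT.filter (f := fun (a : α × X) y =>
    decide (a.2 ≠ y) && (rel a.1 a.2 y || rel a.1 y a.2)) (PT.and (by fun_prop) (PT.or ?_ ?_))
    (by fun_prop))
  · exact hr.comp (g := fun a : (α × X) × X => (a.1.1, a.1.2, a.2)) (by fun_prop)
  · exact hr.comp (g := fun a : (α × X) × X => (a.1.1, a.2, a.1.2)) (by fun_prop)

theorem pt_inst (k r : ℕ) (d : X) {s : α → X → ℕ} {π : X → X} {p : α → ℕ} (hV : PT Vs)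
    (hr : PT fun a : α × X × X => rel a.1 a.2.1 a.2.2) (hs : PT fun a : α × X => s a.1 a.2)
    (hπ : PT π) (hp : PT p) : PT fun a => inst k r d (Vs a) (rel a) (s a) π (p a) := by
  have h1 : PT fun a => pv (Vs a) (s a) r := by
    refine PT.filter (PT.or (by fun_prop) (PT.and (by fun_prop) (PT.le (by fun_prop) ?_)))
      (by fun_prop)
    exact hs.comp (g := fun a : α × X × ℕ × ℕ => (a.1, a.2.1)) (by fun_prop)
  have h2 : PT fun a => gl (Vs a) (s a) r := by
    refine PT.filter (PT.and (by fun_prop) (PT.le (by fun_prop) ?_)) (by fun_prop)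
    exact hs.comp (g := fun a : α × X × ℕ => (a.1, a.2.1)) (by fun_prop)
  refine PT.mk (PT.mk h1.length (PT.tgE _ h1 ?_)) (pt_bin (by fun_prop))
  unfold pr
  refine PT.or (PT.or (PT.or (PT.and (by fun_prop) ?_) (by fun_prop)) (by fun_prop)) (by fun_prop)
  exact hr.comp (g := fun a : α × (X × ℕ × ℕ) × X × ℕ × ℕ => (a.1, a.2.1.1, a.2.2.1)) (by fun_prop)

omit [Enc X] [EncInj X] in
theorem inst_iff {k r : ℕ} (d : X) {Vs : List X} (hn : Vs.Nodup) {rel : X → X → Bool} {s : X → ℕ}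
    {π : X → X} {p : ℕ} (hp : 1 ≤ p)
    (h : ∀ x ∈ (pv Vs s r).toFinset, dg (pv Vs s r).toFinset (pr rel π) x = r) :
    (∃ S, KI k (pv Vs s r).toFinset (pr rel π) S ∧ p + (k + 1) * (gl Vs s r).length ≤ S.card) ↔
      RegMIS k r (inst k r d Vs rel s π p) := by
  obtain ⟨a, b⟩ := transfer (pv_nodup hn s r) (pr rel π) (d, 0, 0) h k
    (p + (k + 1) * (gl Vs s r).length)
  rw [b]
  exact ⟨fun h => ⟨a, le_add_right hp, h⟩, fun h => h.2.2⟩
end

theorem hardA {k : ℕ} (hk : 2 ≤ k) : NPH (fun _ => True) (RegMIS k (k + 1)) := by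
  have h0 : NPH (fun φ : F3 => 0 < φ.length) Sat3 := by
    refine sat3_nph.reduce (fun φ => ((0, true), (0, false), (0, true)) :: φ) (by fun_prop)
      fun φ _ => ⟨by simp, exists_congr fun a => ?_⟩
    simp
  have he : (k + 1) % 2 ≤ 1 := by omega
  have hV : PT fun φ : F3 => aV φ.length ((k + 1) % 2) := by unfold aV; fun_prop
  have hr : PT fun a : F3 × (ℕ × ℕ) × ℕ × ℕ => aR a.1 a.2.1 a.2.2 := by unfold aR lt; fun_prop
  have hd := pt_dl hV hr
  refine h0.reduce (fun φ => inst k (k + 1) (0, 0) (aV φ.length ((k + 1) % 2)) (aR φ)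
    (fun x => (k + 1 - dl (aV φ.length ((k + 1) % 2)) (aR φ) x) / 2) id
    (3 * φ.length * (2 + 3 * ((k + 1) % 2)) + φ.length * (2 - (k + 1) % 2)))
    (pt_inst _ _ _ hV hr (PT.div (PT.sub (PT.const _) hd) (PT.const _)) PT.id' (by fun_prop))
    fun φ hφ => ⟨trivial, ?_⟩
  have hn := aV_nodup φ.length he
  have hs : ∀ x, (k + 1 - dl (aV φ.length ((k + 1) % 2)) (aR φ) x) / 2 ≤ k + 1 := fun x => by omega
  have reg := pad_regular (rel := aR φ) (π := id) (by omega) hs (fun _ => rfl) (fun _ h => h)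
    fun v hv => by
      have := a_deg φ he v hv
      simp only [id, dl_eq hn]; omega
  rw [← inst_iff _ hn (le_add_right (Nat.mul_pos (by omega) (by omega))) reg, ← padA (by omega) hs hn reg]
  exact ⟨a_fwd φ he, fun ⟨S, h1, h2⟩ => a_bwd φ he h1 h2⟩

theorem hardB {k r : ℕ} (hk : 1 ≤ k) (hr' : k + 2 ≤ r) : NPH (fun _ => True) (RegMIS k r) := by
  have h0 : NPH
      (fun p : ℕ × List (ℕ × ℕ) × ℕ => 0 < p.1 ∧ ∀ S, IndepN p.1 p.2.1 S → S.card ≤ p.2.2)
      (fun p => ∃ S, IndepN p.1 p.2.1 S ∧ S.card = p.2.2) := by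
    refine indep_nph.reduce (fun p => if p.1 = 0 then (1, [], 1) else p) (by fun_prop)
      fun p hp => ?_
    split_ifs with h
    · refine ⟨⟨by simp, fun S hS => ?_⟩, fun _ => ⟨{0}, by simp [IndepN], rfl⟩,
        fun _ => ⟨∅, by simp [IndepN], by have := hp.1; simp; omega⟩⟩
      simpa using card_le_card (show S ⊆ range 1 from fun v hv => mem_range.2 (hS.1 v hv))
    · exact ⟨⟨by omega, hp.2⟩, Iff.rfl⟩
  have hV : PT fun a : ℕ × List (ℕ × ℕ) × ℕ => bV a.1 k := by unfold bV; fun_prop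
  have hr : PT fun a : (ℕ × List (ℕ × ℕ) × ℕ) × (ℕ × ℕ × ℕ) × ℕ × ℕ × ℕ =>
    bR a.1.2.1 a.2.1 a.2.2 := by unfold bR; fun_prop
  have hd := pt_dl (rel := fun a => bR a.2.1) hV hr
  refine h0.reduce (fun a => inst k r (true, 0, 0, 0) (dV (bV a.1 k)) (dR (bR a.2.1))
    (fun x => cond x.1 (r - dl (bV a.1 k) (bR a.2.1) x.2) 0) (fun x => (!x.1, x.2))
    (2 * (a.1 * ((3 * a.1 + 2) * (k - 1) + 2 * a.1 + 1) + a.2.2)))
    (pt_inst _ _ _ (by unfold dV; fun_prop) (PT.and (by fun_prop) (hr.comp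
      (g := fun a : (ℕ × List (ℕ × ℕ) × ℕ) × (Bool × ℕ × ℕ × ℕ) × Bool × ℕ × ℕ × ℕ =>
        (a.1, a.2.1.2, a.2.2.2)) (by fun_prop)))
      (PT.cond (by fun_prop) (PT.sub (PT.const _) (hd.comp
        (g := fun a : (ℕ × List (ℕ × ℕ) × ℕ) × Bool × ℕ × ℕ × ℕ => (a.1, a.2.2)) (by fun_prop)))
        (PT.const _)) (by fun_prop) (by fun_prop))
    fun ⟨n, E, κ⟩ ha => ⟨trivial, ?_⟩
  obtain ⟨h1, h2⟩ := ha
  dsimp only at h1 h2 ⊢
  have hn := bV_nodup n k
  have hs : ∀ x : Bool × ℕ × ℕ × ℕ, cond x.1 (r - dl (bV n k) (bR E) x.2) 0 ≤ r := fun x => by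
    cases x.1 <;> simp
  have reg := pad_regular (Vs := dV (bV n k)) (rel := dR (bR E)) (π := fun x => (!x.1, x.2))
    (by omega) hs (fun _ => by simp) (fun x h => mem_dV.2 ((mem_dV (x := x)).1 h))
    fun ⟨b, v⟩ hv => by
      have := b_deg (E := E) v (mem_dV.1 hv)
      rw [dV_eq, dg_prod]
      cases b <;> simp only [dl_eq hn, Bool.not_true, Bool.not_false, cond_true, cond_false] <;>
        omega
  rw [← inst_iff _ (dV_nodup hn) (Nat.mul_pos (by omega)
    (Nat.add_pos_left (Nat.mul_pos h1 (by omega)) _)) reg,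
    ← padB hk hr' hs (dV_nodup hn), ← dbl]
  constructor
  · rintro ⟨I, hI, rfl⟩
    exact b_fwd hk hI
  · rintro ⟨S, hS, hc⟩
    obtain ⟨I, hI, hc'⟩ := b_bwd hS hk
    exact ⟨I, hI, by have := h2 I hI; omega⟩

instance : Dec Bin := ⟨fun x => ⟨bval x.val⟩, pt_ofBits (PT.bval PT.id'), fun x => by
  change Bin.mk (bval x.val.bits) = x
  rw [bval_bits]⟩

def eR (E : List (ℕ × ℕ)) (x y : ℕ) : Bool := decide ((x, y) ∈ E)

theorem nc (n E) (S : Finset (Fin n)) (v) :
    ((graphOf n E).neighborSet v ∩ S).ncard = dg (S.image Fin.val) (eR E) v := by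
  rw [← Set.ncard_image_of_injective _ Fin.val_injective, dg, ← Set.ncard_coe_finset]
  congr 1
  ext y
  simp only [Set.mem_image, Set.mem_inter_iff, SimpleGraph.mem_neighborSet, graphOf_adj, mem_coe,
    mem_filter, mem_image, TA, eR, decide_eq_true_eq, ne_eq, Fin.ext_iff]
  exact ⟨fun ⟨u, ⟨a, b⟩, c⟩ => ⟨⟨u, b, c⟩, c ▸ a⟩, fun ⟨⟨u, b, c⟩, a⟩ => ⟨u, ⟨c ▸ a, b⟩, c⟩⟩

theorem inNP (k r : ℕ) : InNP (lang (RegMIS k r)) := by
  have hu : ∀ n, (univ : Finset (Fin n)).image Fin.val = (List.range n).toFinset := fun n => by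
    ext x; simp [Fin.exists_iff]
  have reg : ∀ n E, Regular (graphOf n E) r ↔ ∀ v < n, dl (List.range n) (eR E) v = r := by
    intro n E
    have : ∀ v : Fin n, ((graphOf n E).neighborSet v).ncard = dl (List.range n) (eR E) v := by
      intro v
      rw [dl_eq List.nodup_range, ← hu, ← nc, coe_univ, Set.inter_univ]
    exact ⟨fun h v hv => by rw [← this ⟨v, hv⟩, h], fun h v => by rw [this, h v v.2]⟩
  have d1 : PT fun a : (((ℕ × List (ℕ × ℕ)) × Bin) × List ℕ) × ℕ =>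
      dl (List.range a.1.1.1.1) (eR a.1.1.1.2) a.2 :=
    pt_dl (Vs := fun a : ((ℕ × List (ℕ × ℕ)) × Bin) × List ℕ => List.range a.1.1.1)
      (rel := fun a => eR a.1.1.2) (by fun_prop) (by unfold eR; fun_prop)
  have d2 : PT fun a : (((ℕ × List (ℕ × ℕ)) × Bin) × List ℕ) × ℕ =>
      dl a.1.2 (eR a.1.1.1.2) a.2 :=
    pt_dl (Vs := fun a : ((ℕ × List (ℕ × ℕ)) × Bin) × List ℕ => a.2)
      (rel := fun a => eR a.1.1.2) (by fun_prop) (by unfold eR; fun_prop)
  refine inNP_lang (fun a (w : List ℕ) =>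
    (List.range a.1.1).all (fun v => decide (dl (List.range a.1.1) (eR a.1.2) v = r)) &&
    decide ((Bin.mk 1).val ≤ a.2.val) && decide (a.2.val ≤ (Bin.mk w.length).val) &&
    decide w.Nodup && w.all fun v => decide (v < a.1.1) && decide (dl w (eR a.1.2) v ≤ k))
    (PT.and (PT.and (PT.and (PT.and (PT.all (PT.eq d1 (PT.const _)) (by fun_prop))
      (pt_ble (PT.const _) (by fun_prop))) (pt_ble (by fun_prop) (by fun_prop))) (by fun_prop))
      (PT.all (PT.and (by fun_prop) (PT.le d2 (PT.const _))) (by fun_prop)))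
    (B := fun a => a.1.1 * (2 * a.1.1 + 1))
    ((PT.pb (f := fun a : (ℕ × List (ℕ × ℕ)) × Bin => a.1.1 * (2 * a.1.1 + 1))
      (by fun_prop)).mono fun a => by simp) ?_ ?_
  · rintro ⟨⟨n, E⟩, p⟩ ⟨h1, h2, S, h3, h4⟩
    have hlt : ∀ v ∈ (S.image Fin.val).toList, v < n := fun v hv => by
      obtain ⟨u, -, rfl⟩ := mem_image.1 (mem_toList.1 hv); exact u.2
    have hc : (S.image Fin.val).toList.length = S.card := by
      rw [length_toList, card_image_of_injective _ Fin.val_injective]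
    refine ⟨(S.image Fin.val).toList, ?_, ?_⟩
    · refine (sz_le_of_forall (B := n) fun v hv => by simpa using (hlt v hv).le).trans ?_
      have : S.card ≤ n := by simpa using card_le_univ S
      rw [hc]; exact Nat.mul_le_mul_right _ this
    · simp only [Bool.and_eq_true, List.all_eq_true, decide_eq_true_eq, List.mem_range]
      refine ⟨⟨⟨⟨(reg n E).1 h1, h2⟩, by rw [hc]; exact h4⟩, nodup_toList _⟩,
        fun v hv => ⟨hlt v hv, ?_⟩⟩
      obtain ⟨u, hu, rfl⟩ := mem_image.1 (mem_toList.1 hv)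
      rw [dl_eq (nodup_toList _), toList_toFinset, ← nc]
      exact h3.1 u hu
  · rintro ⟨⟨n, E⟩, p⟩ w h
    simp only [Bool.and_eq_true, List.all_eq_true, decide_eq_true_eq, List.mem_range] at h
    obtain ⟨⟨⟨⟨h1, h2⟩, h3⟩, h4⟩, h5⟩ := h
    have hR := (reg n E).2 h1
    obtain ⟨S, -, hS⟩ := subset_image_iff.1 (show w.toFinset ⊆ (univ : Finset (Fin n)).image Fin.val
      from fun v hv => by rw [hu]; simpa using (h5 v (List.mem_toFinset.1 hv)).1)
    refine ⟨hR, h2, S, ⟨fun v hv => ?_, fun u _ v _ => by rw [hR u, hR v]⟩, ?_⟩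
    · rw [nc, hS, ← dl_eq h4]
      exact (h5 v (List.mem_toFinset.1 (hS ▸ mem_image_of_mem _ hv))).2
    · rw [← card_image_of_injective S Fin.val_injective, hS, List.toFinset_card_of_nodup h4]
      exact h3

theorem main {k r : ℕ} (hk : 1 ≤ k) (h : max 3 (k + 1) ≤ r) : NPComplete (lang (RegMIS k r)) := by
  refine ⟨inNP k r, ?_⟩
  by_cases e : r = k + 1
  · subst e
    exact (hardA (by omega)).npHard fun _ _ => Iff.rfl
  · exact (hardB hk (by omega)).npHard fun _ _ => Iff.rfl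

end Pool.Agent.H30.Kid
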