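import Pool.Agent.H38.NP.Defs

/-!
Regular `k`-independent sets.
-/

namespace Pool.Agent.H30.Kid

open Pool.Agent.H38.NP

/-- `G` is `r`-regular. -/
def Regular {V : Type} (G : SimpleGraph V) (r : ℕ) : Prop := ∀ v, (G.neighborSet v).ncard = r

/-- `S` is a regular `k`-independent set of `G`: the subgraph induced by `S` has maximum degree at
most `k`, and all vertices of `S` have the same degree in `G`. -/
def RegInd {V : Type} (G : SimpleGraph V) (k : ℕ) (S : Finset V) : Prop :=
  (∀ v ∈ S, (G.neighborSet v ∩ S).ncard ≤ k) ∧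
    ∀ u ∈ S, ∀ v ∈ S, (G.neighborSet u).ncard = (G.neighborSet v).ncard

/-- The yes-instances of reg-`k`MIS restricted to `r`-regular graphs: a number of vertices, a list
of edges and a binary number `p ≥ 1` such that the graph is `r`-regular and has a regular
`k`-independent set with at least `p` vertices. -/
def RegMIS (k r : ℕ) (a : (ℕ × List (ℕ × ℕ)) × Bin) : Prop :=
  Regular (graphOf a.1.1 a.1.2) r ∧ 1 ≤ a.2.val ∧
    ∃ S, RegInd (graphOf a.1.1 a.1.2) k S ∧ a.2.val ≤ S.card

end Pool.Agent.H30.Kid
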