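import Pool.Agent.H30.NBa

/-! A group with three marked elements and words that vanish on all wrong triples. -/

namespace Pool.Agent.H30.Kuz

open Pool.Agent.H30.NB Function Filter

variable {G H Γ : Type} [Group G] [Group H] [Group Γ]

def qw (d e : G) : G := e * (d ^ 3)⁻¹

def pw (d e : G) (j : ℕ) : G := cm ((d ^ (2 * j))⁻¹ * qw d e * d ^ (2 * j)) (d⁻¹ * qw d e * d)

def uw (d e : G) (N j l : ℕ) : G := cm (qw d e ^ N * pw d e j * (qw d e ^ N)⁻¹) (pw d e l)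

theorem map_uw (φ : G →* H) (d e : G) (N j l : ℕ) : φ (uw d e N j l) = uw (φ d) (φ e) N j l := by
  simp [uw, pw, qw, map_cm]

/-- bounded support -/
def Bd (Γ : Type) [Group Γ] : Subgroup (Wr Γ) where
  carrier := {g | ∃ L : ℤ, ∀ i, L < |i| → g.f i = 1}
  one_mem' := ⟨0, fun _ _ => rfl⟩
  mul_mem' := by
    rintro a b ⟨L, hL⟩ ⟨M, hM⟩
    refine ⟨|L| + |M| + |a.n|, fun i hi => ?_⟩
    have := abs_sub_abs_le_abs_sub i a.n
    have := le_abs_self L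
    have := le_abs_self M
    have := abs_nonneg L
    have := abs_nonneg M
    have := abs_nonneg a.n
    rw [Wr.mul_f, hL i (by omega), hM _ (by omega), one_mul]
  inv_mem' := by
    rintro a ⟨L, hL⟩
    refine ⟨L + |a.n|, fun i hi => ?_⟩
    have := abs_sub_abs_le_abs_add i a.n
    rw [Wr.inv_f, hL _ (by omega), inv_one]

theorem commute_base {g h : Wr Γ} (hg : g.n = 0) (hh : h.n = 0)
    (H : ∀ i, g.f i = 1 ∨ h.f i = 1) : Commute g h := by
  show g * h = h * g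
  ext i
  · rcases H i with e | e <;> simp [hg, hh, e]
  · simp [hg, hh]

theorem far {g h q : Wr Γ} (hg : g.n = 0) (hh : h.n = 0) (bg : g ∈ Bd Γ) (bh : h ∈ Bd Γ)
    (hq : q.n ≠ 0) : ∀ᶠ N : ℕ in atTop, Commute (q ^ N * g * (q ^ N)⁻¹) h := by
  obtain ⟨L, hL⟩ := bg
  obtain ⟨M, hM⟩ := bh
  filter_upwards [eventually_ge_atTop ((L + M).toNat + 1)] with N hN
  refine commute_base (by simp [hg]) hh fun i => ?_
  by_cases hi : M < |i|
  · exact Or.inr (hM i hi)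
  · left
    have h1 : (N : ℤ) ≤ |(q ^ N).n| := by
      rw [Wr.pow_n, abs_mul, Nat.abs_cast]
      exact le_mul_of_one_le_right (by positivity) (Int.one_le_abs hq)
    have h2 := abs_sub_abs_le_abs_sub (q ^ N).n i
    rw [abs_sub_comm] at h2
    simp [hg, hL (i - (q ^ N).n) (by omega)]

theorem cm_n (a b : Wr Γ) : (cm a b).n = 0 := by simp [cm]

theorem pw_n (d e : Wr Γ) (j : ℕ) : (pw d e j).n = 0 := cm_n _ _

theorem cm_mem {S : Subgroup G} {a b : G} (ha : a ∈ S) (hb : b ∈ S) : cm a b ∈ S :=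
  S.mul_mem (S.mul_mem (S.mul_mem ha hb) (S.inv_mem ha)) (S.inv_mem hb)

theorem pw_mem {S : Subgroup G} {d e : G} (hd : d ∈ S) (he : e ∈ S) (j : ℕ) : pw d e j ∈ S := by
  have hq : qw d e ∈ S := S.mul_mem he (S.inv_mem (S.pow_mem hd _))
  exact cm_mem (S.mul_mem (S.mul_mem (S.inv_mem (S.pow_mem hd _)) hq) (S.pow_mem hd _))
    (S.mul_mem (S.mul_mem (S.inv_mem hd) hq) hd)

theorem uw_far {d e : Wr Γ} (hd : d ∈ Bd Γ) (he : e ∈ Bd Γ) (hq : (qw d e).n ≠ 0) (j l : ℕ) :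
    ∀ᶠ N : ℕ in atTop, uw d e N j l = 1 :=
  (far (pw_n d e j) (pw_n d e l) (pw_mem hd he j) (pw_mem hd he l) hq).mono
    fun _ hN => cm_eq_one.2 hN

/-- the function carried by the third element -/
def fn (τ : Γ) (Y : ℤ → Γ) (i : ℤ) : Γ := if i = 1 then τ else if 2 ∣ i ∧ 0 < i then Y (i / 2) else 1

theorem pw_id (τ : Γ) (Y : ℤ → Γ) (j : ℕ) (hj : 0 < j) :
    pw (Wr.sh 1) (⟨fn τ Y, 3⟩ : Wr Γ) j = Wr.pt (cm (Y j) τ) := by
  have hq : qw (Wr.sh 1) (⟨fn τ Y, 3⟩ : Wr Γ) = ⟨fn τ Y, 0⟩ := by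
    rw [qw, Wr.sh_pow]
    ext i <;> simp
  rw [pw, hq, Wr.sh_pow]
  ext i
  · simp only [cm, Wr.mul_f, Wr.inv_f, Wr.mul_n, Wr.inv_n, Wr.sh_f, Wr.sh_n, Wr.pt_f, inv_one,
      one_mul, mul_one, add_zero, neg_add_cancel, sub_zero, neg_zero, sub_neg_eq_add]
    by_cases h : i = 0
    · subst h
      have e1 : fn τ Y (0 + (2 * j : ℕ)) = Y j := by
        rw [fn, if_neg (by omega), if_pos (by omega)]
        congr 1
        omega
      have e2 : fn τ Y (0 + 1) = τ := by simp [fn]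
      rw [e1, e2, if_pos rfl]
    · rw [if_neg h]
      by_cases h2 : 2 ∣ i
      · have e2 : fn τ Y (i + 1) = 1 := by rw [fn, if_neg (by omega), if_neg (by omega)]
        simp [e2]
      · by_cases h3 : i < 0
        · have e2 : fn τ Y (i + 1) = 1 := by rw [fn, if_neg (by omega), if_neg (by omega)]
          simp [e2]
        · have e1 : fn τ Y (i + (2 * j : ℕ)) = 1 := by
            rw [fn, if_neg (by omega), if_neg (by omega)]
          rw [e1]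
          simp
  · simp [cm]

theorem uw_id (τ : Γ) (Y : ℤ → Γ) (N j l : ℕ) (hj : 0 < j) (hl : 0 < l) :
    uw (Wr.sh 1) (⟨fn τ Y, 3⟩ : Wr Γ) N j l = Wr.pt (cm (cm (Y j) τ) (cm (Y l) τ)) := by
  have hq : qw (Wr.sh 1) (⟨fn τ Y, 3⟩ : Wr Γ) = ⟨fn τ Y, 0⟩ := by
    rw [qw, Wr.sh_pow]
    ext i <;> simp
  have hc : Commute (⟨fn τ Y, 0⟩ : Wr Γ) (Wr.pt (cm (Y j) τ)) :=
    commute_base rfl rfl fun i => by by_cases h : i = 0 <;> simp [h, fn]
  rw [uw, hq, pw_id τ Y j hj, pw_id τ Y l hl, (hc.pow_left N).eq, mul_inv_cancel_right, ← map_cm]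

theorem triple {I : Type} [Finite I] (γ : I → Γ) : ∃ (Δ : Type) (_ : Group Δ) (ι : Γ →* Δ)
    (b : Fin 3 → Δ) (N l : ℕ) (e : I → ℕ), Injective ι ∧ b 0 = 1 ∧
    (∀ i, uw (b 1) (b 2) N (e i) l = ι (γ i)) ∧ ∀ x y z : Fin 3, (x = 0 ∧ y = 1 ∧ z = 2) ∨
      ∀ i, uw (b y * (b x)⁻¹) (b z * (b x)⁻¹) N (e i) l = 1 := by
  obtain ⟨m, ⟨E⟩⟩ := Finite.exists_equiv_fin I
  choose A hA using fun g : Γ => Wr.pt_comm g
  choose B hB using fun g : Wr Γ => Wr.pt_comm g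
  let Y : ℤ → Wr (Wr Γ) := fun j => if j = 1 then B (Wr.sh 1) else
    if h : (j - 2).toNat < m then B (A (γ (E.symm ⟨_, h⟩))) else 1
  let b : Fin 3 → Wr (Wr (Wr Γ)) := ![1, Wr.sh 1, ⟨fn (Wr.sh 1) Y, 3⟩]
  have hb : ∀ x, b x ∈ Bd _ := by
    intro x
    fin_cases x
    · exact one_mem _
    · exact ⟨0, fun _ _ => rfl⟩
    · refine ⟨2 * m + 10, fun i hi => ?_⟩
      have h1 : i ≠ 1 := by rintro rfl; simp at hi; omega
      show fn _ Y i = 1
      rw [fn, if_neg h1]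
      split_ifs with h
      · rw [abs_of_pos h.2] at hi
        simp only [Y]
        rw [if_neg (by omega), dif_neg (by omega)]
      · rfl
  have key : ∀ᶠ N : ℕ in atTop, ∀ x y z : Fin 3, ∀ i : I, (x = 0 ∧ y = 1 ∧ z = 2) ∨
      uw (b y * (b x)⁻¹) (b z * (b x)⁻¹) N (E i + 2) 1 = 1 := by
    simp only [eventually_all]
    intro x y z i
    by_cases h1 : x = 0 ∧ y = 1 ∧ z = 2
    · exact Eventually.of_forall fun _ => Or.inl h1
    by_cases h2 : y = x ∧ z = x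
    · obtain ⟨rfl, rfl⟩ := h2
      exact Eventually.of_forall fun _ => Or.inr (by simp [uw, pw, qw, cm])
    have hd : b y * (b x)⁻¹ ∈ Bd _ := mul_mem (hb y) (inv_mem (hb x))
    have he : b z * (b x)⁻¹ ∈ Bd _ := mul_mem (hb z) (inv_mem (hb x))
    have hq : (qw (b y * (b x)⁻¹) (b z * (b x)⁻¹)).n ≠ 0 := by
      simp only [qw, Wr.mul_n, Wr.inv_n, Wr.pow_n]
      fin_cases x <;> fin_cases y <;> fin_cases z <;> simp [b] at h1 h2 ⊢
    exact (uw_far hd he hq (E i + 2) 1).mono fun _ hN => Or.inr hN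
  obtain ⟨N, hN⟩ := key.exists
  refine ⟨_, inferInstance, Wr.pt.comp (Wr.pt.comp Wr.pt), b, N, 1, fun i => E i + 2,
    Wr.pt_inj.comp (Wr.pt_inj.comp Wr.pt_inj), rfl, fun i => ?_, fun x y z => ?_⟩
  · have e1 : Y (((E i : ℕ) + 2 : ℕ) : ℤ) = B (A (γ i)) := by
      simp only [Y]
      rw [if_neg (by omega), dif_pos (by have := (E i).2; omega)]
      simp
    have e2 : Y ((1 : ℕ) : ℤ) = B (Wr.sh 1) := by simp [Y]
    show uw (Wr.sh 1) ⟨fn (Wr.sh 1) Y, 3⟩ N ((E i : ℕ) + 2) 1 = Wr.pt (Wr.pt (Wr.pt (γ i)))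
    rw [uw_id _ _ _ _ _ (Nat.succ_pos _) one_pos, e1, e2, ← hB, ← hB, ← map_cm, ← hA]
  · by_cases h1 : x = 0 ∧ y = 1 ∧ z = 2
    · exact Or.inl h1
    · exact Or.inr fun i => (hN x y z i).resolve_left h1

end Pool.Agent.H30.Kuz
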