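import Mathlib

/-! Group words and expressibility on a group. -/

namespace Pool.Agent.H30.Kuz

/-- A word: the letter `(j, true)` is the variable `x_j`, the letter `(j, false)` its inverse. -/
abbrev Word := List (ℕ × Bool)

/-- The value of a word in a group under an assignment of the variables. -/
def eval {G : Type} [Group G] (v : ℕ → G) (w : Word) : G :=
  (w.map fun p => bif p.2 then v p.1 else (v p.1)⁻¹).prod

/-- The formal inverse of a word. -/
def inv (w : Word) : Word := (w.map fun p => (p.1, !p.2)).reverse

/-- Substitution of the word `W j` for the variable `x_j`. -/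
def subst (W : ℕ → Word) (B : Word) : Word :=
  B.flatMap fun p => bif p.2 then W p.1 else inv (W p.1)

/-- The words expressible in the words of the list `Bs` on the group `G`. -/
inductive Expr (G : Type) [Group G] (Bs : List Word) : Word → Prop
  | var (j : ℕ) : Expr G Bs [(j, true)]
  | subst {B : Word} (W : ℕ → Word) : B ∈ Bs → (∀ p ∈ B, Expr G Bs (W p.1)) →
      Expr G Bs (subst W B)
  | ident {W W' : Word} : Expr G Bs W → (∀ v : ℕ → G, eval v W = eval v W') → Expr G Bs W'

/-- `A` is expressible in `Bs` on every group. -/
def ExprAll (A : Word) (Bs : List Word) : Prop := ∀ (G : Type) [Group G], Expr G Bs A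

end Pool.Agent.H30.Kuz
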