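import Pool.Agent.H38.CM.W

/-! A one-register multiplicative machine with non-computable halting set. -/

namespace Pool.Agent.H30.MulM

open Pool.Agent.H38.CM Function Relation

/-- kind `0`: multiply by `p`; kind `1`: divide by `p`; otherwise: keep, `p` does not divide -/
def ok (k p N N' : ℕ) : Prop :=
  if k = 0 then N' = p * N else if k = 1 then N = p * N' else N' = N ∧ ¬ p ∣ N

inductive Halt {Q : Type} (ins : Q → Bool → Option Q × ℕ × ℕ) : Option Q → ℕ → Prop
  | stop (N : ℕ) : Halt ins none N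
  | step {s : Q} {N N' : ℕ} (b : Bool) : ok (ins s b).2.1 ((ins s b).2.2 + 1) N N' →
      Halt ins (ins s b).1 N' → Halt ins (some s) N

def St : W → Type
  | .inc _ => Unit
  | .skip => Unit
  | .seq a b => St a ⊕ St b
  | .loop _ b => Option (St b)

theorem St.finite : ∀ w, Finite (St w)
  | .inc _ => inferInstanceAs (Finite Unit)
  | .skip => inferInstanceAs (Finite Unit)
  | .seq a b => by
    have := St.finite a; have := St.finite b; exact inferInstanceAs (Finite (St a ⊕ St b))
  | .loop _ b => by have := St.finite b; exact inferInstanceAs (Finite (Option (St b)))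

def entry : (w : W) → St w
  | .inc _ => ()
  | .skip => ()
  | .seq a _ => .inl (entry a)
  | .loop _ _ => none

def jmp {α β : Type} (f : α → β) (e : Option β) : Option α → Option β
  | none => e
  | some s => some (f s)

noncomputable def pr (r : ℕ) : ℕ := Nat.nth Nat.Prime r - 1

theorem pr_eq (r : ℕ) : pr r + 1 = Nat.nth Nat.Prime r :=
  Nat.sub_add_cancel (Nat.prime_nth_prime r).pos

noncomputable def ins : (w : W) → St w → Bool → Option (St w) × ℕ × ℕ
  | .inc r, _, _ => (none, 0, pr r)
  | .skip, _, _ => (none, 0, 0)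
  | .seq a b, .inl s, x => (jmp .inl (some (.inr (entry b))) (ins a s x).1, (ins a s x).2)
  | .seq _ b, .inr s, x => (jmp .inr none (ins b s x).1, (ins b s x).2)
  | .loop r b, none, true => (some (some (entry b)), 1, pr r)
  | .loop r _, none, false => (none, 2, pr r)
  | .loop _ b, some s, x => (jmp some (some none) (ins b s x).1, (ins b s x).2)

noncomputable def val (N : ℕ) : ℕ → ℕ := fun r => N.factorization (Nat.nth Nat.Prime r)

theorem val_mul (r : ℕ) {N : ℕ} (h : N ≠ 0) :
    val ((pr r + 1) * N) = update (val N) r (val N r + 1) := by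
  funext s
  have hp := Nat.prime_nth_prime r
  rw [pr_eq, val, Nat.factorization_mul hp.ne_zero h, hp.factorization]
  by_cases hs : s = r
  · subst hs; simp [val, add_comm]
  · have : Nat.nth Nat.Prime r ≠ Nat.nth Nat.Prime s := fun e =>
      hs (Nat.nth_injective Nat.infinite_setOfPred_prime e).symm
    simp [val, update_of_ne hs, this]

theorem val_zero (r : ℕ) {N : ℕ} (h : N ≠ 0) : val N r = 0 ↔ ¬ pr r + 1 ∣ N := by
  rw [pr_eq, val, (Nat.prime_nth_prime r).dvd_iff_one_le_factorization h]
  omega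

theorem val_init (n : ℕ) : val (2 ^ n) = init n := by
  funext r
  rw [val, Nat.prime_two.factorization_pow]
  by_cases hr : r = 0
  · subst hr; simp [init]
  · have : 2 ≠ Nat.nth Nat.Prime r := fun e =>
      hr (Nat.nth_injective Nat.infinite_setOfPred_prime (e.symm.trans Nat.nth_prime_zero_eq_two.symm))
    simp [init, hr, this]

def MS (w : W) (c d : Option (St w) × ℕ) : Prop :=
  ∃ s b, c.1 = some s ∧ d.1 = (ins w s b).1 ∧ ok (ins w s b).2.1 ((ins w s b).2.2 + 1) c.2 d.2

theorem lift {a w : W} (f : St a → St w) (e : Option (St w))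
    (h : ∀ s x, ins w (f s) x = (jmp f e (ins a s x).1, (ins a s x).2))
    {c d : Option (St a) × ℕ} (hr : ReflTransGen (MS a) c d) :
    ReflTransGen (MS w) (jmp f e c.1, c.2) (jmp f e d.1, d.2) := by
  induction hr with
  | refl => exact ReflTransGen.refl
  | tail _ hs ih =>
    obtain ⟨s, x, e1, e2, e3⟩ := hs
    exact ih.tail ⟨f s, x, by rw [e1]; rfl, by rw [e2, h], by rw [h]; exact e3⟩

theorem run_of_ev {w : W} {v v' : ℕ → ℕ} (h : Ev w v v') : ∀ N, N ≠ 0 → val N = v →
    ∃ N', N' ≠ 0 ∧ val N' = v' ∧ ReflTransGen (MS w) (some (entry w), N) (none, N') := by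
  induction h with
  | inc r v =>
    rintro N hN rfl
    exact ⟨_, by positivity, val_mul r hN, .single ⟨(), true, rfl, rfl, by simp [ins, ok]⟩⟩
  | skip v =>
    rintro N hN rfl
    exact ⟨N, hN, rfl, .single ⟨(), true, rfl, rfl, by simp [ins, ok]⟩⟩
  | @seq a b _ _ _ _ _ ih1 ih2 =>
    intro N hN e
    obtain ⟨M, hM, e1, r1⟩ := ih1 N hN e
    obtain ⟨M', hM', e2, r2⟩ := ih2 M hM e1
    exact ⟨M', hM', e2, (lift (w := .seq a b) .inl (some (.inr (entry b))) (fun _ _ => rfl) r1).trans
      (lift (w := .seq a b) .inr none (fun _ _ => rfl) r2)⟩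
  | @l0 r b v h0 =>
    rintro N hN rfl
    exact ⟨N, hN, rfl, .single ⟨none, false, rfl, rfl, by
      simpa [ins, ok] using (val_zero r hN).1 h0⟩⟩
  | @l1 r b v u w n h0 _ _ ih1 ih2 =>
    rintro N hN rfl
    obtain ⟨M, rfl⟩ : pr r + 1 ∣ N := by
      by_contra h
      have := (val_zero r hN).2 h
      omega
    have hM : M ≠ 0 := fun h => hN (by simp [h])
    rw [val_mul r hM] at h0 ih1
    obtain ⟨M1, h1, e1, r1⟩ := ih1 M hM (by
      rw [update_idem, ← show val M r = n by simpa using h0, update_eq_self])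
    obtain ⟨M2, h2, e2, r2⟩ := ih2 M1 h1 e1
    refine ⟨M2, h2, e2, ReflTransGen.head (b := (some (some (entry b)), M))
      ⟨none, true, rfl, rfl, by simp [ins, ok]⟩ ?_⟩
    exact (lift (w := .loop r b) some (some none) (fun _ _ => rfl) r1).trans r2

def K : (w : W) → St w → (ℕ → ℕ) → (ℕ → ℕ) → Prop
  | .inc r, _, v, v' => Ev (.inc r) v v'
  | .skip, _, v, v' => Ev .skip v v'
  | .seq a b, .inl s, v, v' => ∃ u, K a s v u ∧ Ev b u v'
  | .seq _ b, .inr s, v, v' => K b s v v'
  | .loop r b, none, v, v' => Ev (.loop r b) v v'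
  | .loop r b, some s, v, v' => ∃ u, K b s v u ∧ Ev (.loop r b) u v'

def K' (w : W) : Option (St w) → (ℕ → ℕ) → (ℕ → ℕ) → Prop
  | none, v, v' => v' = v
  | some s, v, v' => K w s v v'

theorem K_entry : ∀ (w : W) {v v'}, K w (entry w) v v' → Ev w v v'
  | .inc _, _, _, h => h
  | .skip, _, _, h => h
  | .seq a _, _, _, ⟨_, h1, h2⟩ => Ev.seq (K_entry a h1) h2
  | .loop _ _, _, _, h => h

theorem K_step : ∀ (w : W) (s : St w) (b : Bool) {N N' : ℕ} {v' : ℕ → ℕ}, N ≠ 0 →
    ok (ins w s b).2.1 ((ins w s b).2.2 + 1) N N' →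
    N' ≠ 0 ∧ (K' w (ins w s b).1 (val N') v' → K w s (val N) v')
  | .inc r, _, _, N, N', v', hN, h => by
    obtain rfl : N' = (pr r + 1) * N := by simpa [ins, ok] using h
    refine ⟨by positivity, ?_⟩
    rintro rfl
    rw [val_mul r hN]
    exact Ev.inc _ _
  | .skip, _, _, N, N', v', hN, h => by
    obtain rfl : N' = N := by simpa [ins, ok] using h
    refine ⟨hN, ?_⟩
    rintro rfl
    exact Ev.skip _
  | .seq a c, .inl s, b, N, N', v', hN, h => by
    refine ⟨(K_step a s b (v' := v') hN h).1, fun h' => ?_⟩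
    have := fun u => (K_step a s b (v' := u) hN h).2
    simp only [ins] at h'
    rcases e : (ins a s b).1 with _ | t <;> rw [e] at h' this
    · exact ⟨_, this _ rfl, K_entry c h'⟩
    · obtain ⟨u, h1, h2⟩ := h'
      exact ⟨u, this u h1, h2⟩
  | .seq a c, .inr s, b, N, N', v', hN, h => by
    refine ⟨(K_step c s b (v' := v') hN h).1, fun h' => ?_⟩
    have := (K_step c s b (v' := v') hN h).2
    simp only [ins] at h'
    rcases e : (ins c s b).1 with _ | t <;> rw [e] at h' this <;> exact this h'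
  | .loop r c, none, true, N, N', v', hN, h => by
    obtain rfl : N = (pr r + 1) * N' := by simpa [ins, ok] using h
    have hM : N' ≠ 0 := fun h => hN (by simp [h])
    refine ⟨hM, ?_⟩
    rintro ⟨u, h1, h2⟩
    refine Ev.l1 (n := val N' r) (by rw [val_mul r hM]; simp) ?_ h2
    rw [val_mul r hM, update_idem, update_eq_self]
    exact K_entry c h1
  | .loop r c, none, false, N, N', v', hN, h => by
    obtain ⟨rfl, h2⟩ : N' = N ∧ ¬ pr r + 1 ∣ N := by simpa [ins, ok] using h
    refine ⟨hN, ?_⟩
    rintro rfl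
    exact Ev.l0 ((val_zero r hN).2 h2)
  | .loop r c, some s, b, N, N', v', hN, h => by
    refine ⟨(K_step c s b (v' := v') hN h).1, fun h' => ?_⟩
    have := fun u => (K_step c s b (v' := u) hN h).2
    simp only [ins] at h'
    rcases e : (ins c s b).1 with _ | t <;> rw [e] at h' this
    · exact ⟨_, this _ rfl, h'⟩
    · obtain ⟨u, h1, h2⟩ := h'
      exact ⟨u, this u h1, h2⟩

theorem halt_iff (w : W) (n : ℕ) :
    Halt (ins w) (some (entry w)) (2 ^ n) ↔ ∃ v, Ev w (init n) v := by
  constructor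
  · intro h
    have key : ∀ q N, Halt (ins w) q N → N ≠ 0 → ∃ v, K' w q (val N) v := by
      intro q N h
      induction h with
      | stop N => exact fun _ => ⟨_, rfl⟩
      | step b h1 _ ih =>
        intro hN
        obtain ⟨v, hv⟩ := ih (K_step w _ b (v' := fun _ => 0) hN h1).1
        exact ⟨v, (K_step w _ b hN h1).2 hv⟩
    obtain ⟨v, hv⟩ := key _ _ h (by positivity)
    exact ⟨v, val_init n ▸ K_entry w hv⟩
  · rintro ⟨v, hv⟩
    obtain ⟨N', -, -, h⟩ := run_of_ev hv (2 ^ n) (by positivity) (val_init n)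
    have key : ∀ c, ReflTransGen (MS w) c (none, N') → Halt (ins w) c.1 c.2 := by
      intro c hc
      induction hc using ReflTransGen.head_induction_on with
      | refl => exact Halt.stop _
      | head hs _ ih =>
        obtain ⟨s, b, e1, e2, e3⟩ := hs
        rw [e1]
        exact Halt.step b e3 (e2 ▸ ih)
    exact key _ h

theorem exists_undec : ∃ (Q : Type) (_ : Finite Q) (ins : Q → Bool → Option Q × ℕ × ℕ) (q0 : Q),
    ¬ ComputablePred fun n : ℕ => Halt ins (some q0) (2 ^ n) := by
  obtain ⟨P, hP⟩ := Pool.Agent.H38.CM.exists_undec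
  exact ⟨St P, St.finite P, ins P, entry P, fun h => hP (h.of_eq fun n => halt_iff P n)⟩

end Pool.Agent.H30.MulM
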