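import Pool.Agent.H30.NBa
import Pool.Agent.H30.MulM

/-! A finitely presented group with non-computable word problem (Novikov, Boone), by the method
of Aanderaa and Cohen. -/

namespace Pool.Agent.H30.NB

open Pool.Agent.H30.MulM Pool.Agent.H38.CM Function

theorem ok_fun {k p N N1 N2 : ℕ} (h1 : ok k (p + 1) N N1) (h2 : ok k (p + 1) N N2) : N1 = N2 := by
  unfold ok at h1 h2
  split_ifs at h1 h2
  · omega
  · exact Nat.eq_of_mul_eq_mul_left (Nat.succ_pos p) (h1.symm.trans h2)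
  · omega

theorem ins_det : ∀ (w : W) (s : St w) {N N1 N2 : ℕ},
    ok (ins w s true).2.1 ((ins w s true).2.2 + 1) N N1 →
    ok (ins w s false).2.1 ((ins w s false).2.2 + 1) N N2 → ins w s true = ins w s false
  | .inc _, _, _, _, _, _, _ => rfl
  | .skip, _, _, _, _, _, _ => rfl
  | .seq a c, .inl s, _, _, _, h1, h2 => by simp only [ins, ins_det a s h1 h2]
  | .seq a c, .inr s, _, _, _, h1, h2 => by simp only [ins, ins_det c s h1 h2]
  | .loop r c, none, N, N1, N2, h1, h2 => by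
    obtain rfl : N = (pr r + 1) * N1 := by simpa [ins, ok] using h1
    simp [ins, ok] at h2
  | .loop r c, some s, _, _, _, h1, h2 => by simp only [ins, ins_det c s h1 h2]

theorem exists_det : ∃ (Q : Type) (_ : Finite Q) (ins : Q → Bool → Option Q × ℕ × ℕ) (q0 : Q),
    (¬ ComputablePred fun n : ℕ => Halt ins (some q0) (2 ^ n)) ∧
    ∀ s b N N', ok (ins s b).2.1 ((ins s b).2.2 + 1) N N' →
      (Halt ins (some s) N ↔ Halt ins (ins s b).1 N') := by
  obtain ⟨P, hP⟩ := Pool.Agent.H38.CM.exists_undec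
  refine ⟨St P, St.finite P, ins P, entry P, fun h => hP (h.of_eq fun n => halt_iff P n),
    fun s b N N' h => ⟨fun h' => ?_, Halt.step b h⟩⟩
  cases h' with
  | step b' h1 h2 =>
    have e : ins P s b' = ins P s b := by
      cases b <;> cases b'
      · rfl
      · exact ins_det P s h1 h
      · exact (ins_det P s h h1).symm
      · rfl
    rw [e] at h1 h2
    rwa [ok_fun h h1]

/-- A transition `(q, a + M u) ↦ (q', b + N u)`. -/
abbrev Tr (Q : Type) := (Q × ℕ × ℕ) × (Q × ℕ × ℕ)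

def Good {Q : Type} (H : Q → ℤ → Prop) (P : ℕ) : Set (Tr Q) :=
  {τ | τ.1.2.1 ≤ P ∧ τ.1.2.2 ≤ P ∧ τ.2.2.1 ≤ P ∧ τ.2.2.2 ≤ P ∧ 0 < τ.1.2.2 ∧ 0 < τ.2.2.2 ∧
    ∀ u : ℤ, H τ.1.1 (τ.1.2.1 + τ.1.2.2 * u) ↔ H τ.2.1 (τ.2.2.1 + τ.2.2.2 * u)}

theorem Good.finite {Q : Type} [Finite Q] (H : Q → ℤ → Prop) (P : ℕ) : (Good H P).Finite := by
  have h := (Set.finite_univ (α := Q)).prod ((Set.finite_Iic P).prod (Set.finite_Iic P))
  refine (h.prod h).subset ?_
  rintro τ ⟨h1, h2, h3, h4, -⟩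
  exact ⟨⟨trivial, h1, h2⟩, trivial, h3, h4⟩

/-- The defining relations. -/
def Rel {G Q : Type} [Group G] (S : Set (Tr Q)) (h : Q) (k x : G) (t : Q → G) (r : S → G) : Prop :=
  Commute k (t h) ∧ ∀ τ : S, Commute k (r τ) ∧
    r τ * (x ^ τ.1.1.2.1 * t τ.1.1.1 * (x ^ τ.1.1.2.1)⁻¹) * (r τ)⁻¹ =
      x ^ τ.1.2.2.1 * t τ.1.2.1 * (x ^ τ.1.2.2.1)⁻¹ ∧
    r τ * x ^ τ.1.1.2.2 * (r τ)⁻¹ = x ^ τ.1.2.2.2

theorem Rel.step {G Q : Type} [Group G] {S : Set (Tr Q)} {h : Q} {k x : G} {t : Q → G} {r : S → G}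
    (H : Rel S h k x t r) {q q' : Q} {a M b N : ℕ} (hτ : ((q, a, M), (q', b, N)) ∈ S) (u : ℕ)
    (hc : Commute k (x ^ (N * u + b) * t q' * (x ^ (N * u + b))⁻¹)) :
    Commute k (x ^ (M * u + a) * t q * (x ^ (M * u + a))⁻¹) := by
  obtain ⟨h1, h2, h3⟩ := H.2 ⟨_, hτ⟩
  dsimp only at h2 h3
  generalize r ⟨_, hτ⟩ = ρ at h1 h2 h3
  have h4 : ρ * x ^ (M * u) * ρ⁻¹ = x ^ (N * u) := by rw [pow_mul, pow_mul, ← h3, conj_pow]
  have e : x ^ (M * u + a) * t q * (x ^ (M * u + a))⁻¹ =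
      ρ⁻¹ * (x ^ (N * u + b) * t q' * (x ^ (N * u + b))⁻¹) * ρ := by
    rw [pow_add, pow_add, show x ^ (N * u) * x ^ b * t q' * (x ^ (N * u) * x ^ b)⁻¹ =
      x ^ (N * u) * (x ^ b * t q' * (x ^ b)⁻¹) * (x ^ (N * u))⁻¹ by group, ← h2, ← h4]
    group
  rw [e]
  exact (h1.inv_right.mul_right hc).mul_right h1

open Classical in
/-- Embedding of the lamplighter-type group along an arithmetic progression. -/
noncomputable def emb {Q C : Type} [Group C] (q : Q) (a M : ℕ) (hM : 0 < M) : Wr C →* Wr (Q → C) where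
  toFun g := ⟨fun i => if (M : ℤ) ∣ i - a then Pi.mulSingle q (g.f ((i - a) / M)) else 1, M * g.n⟩
  map_one' := by ext i <;> simp
  map_mul' g h := by
    ext i : 2
    · simp only [Wr.mul_f]
      by_cases hd : (M : ℤ) ∣ i - a
      · obtain ⟨c, hc⟩ := hd
        have e : i - M * g.n - a = M * (c - g.n) := by linear_combination hc
        have hM' : (M : ℤ) ≠ 0 := by omega
        simp [e, hc, Int.mul_ediv_cancel_left _ hM', Pi.mulSingle_mul]
      · have : ¬ (M : ℤ) ∣ i - M * g.n - a := fun h => hd (by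
          have := dvd_add h (dvd_mul_right (M : ℤ) g.n)
          rwa [show i - M * g.n - a + M * g.n = i - a by ring] at this)
        simp [hd, this]
    · simp [mul_add]

open Classical in
theorem emb_f {Q C : Type} [Group C] (q : Q) (a M : ℕ) (hM : 0 < M) (g : Wr C) (i : ℤ) :
    (emb q a M hM g).f i = if (M : ℤ) ∣ i - a then Pi.mulSingle q (g.f ((i - a) / M)) else 1 := rfl

theorem emb_n {Q C : Type} [Group C] (q : Q) (a M : ℕ) (hM : 0 < M) (g : Wr C) :
    (emb q a M hM g).n = M * g.n := rfl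

theorem emb_at {Q C : Type} [Group C] (q : Q) (a M : ℕ) (hM : 0 < M) (g : Wr C) (u : ℤ) :
    (emb q a M hM g).f (a + M * u) q = g.f u := by
  have hM' : (M : ℤ) ≠ 0 := by omega
  simp [emb_f, Int.mul_ediv_cancel_left _ hM']

theorem emb_inj {Q C : Type} [Group C] (q : Q) (a M : ℕ) (hM : 0 < M) :
    Injective (emb (C := C) q a M hM) := by
  intro g h e
  ext u
  · rw [← emb_at q a M hM g, e, emb_at]
  · have := congrArg Wr.n e
    have hM' : (M : ℤ) ≠ 0 := by omega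
    simpa [emb_n, hM.ne'] using this

/-- base elements supported on `H` -/
def supp {Q : Type} (C : Type) [Group C] (H : Q → ℤ → Prop) : Subgroup (Wr (Q → C)) where
  carrier := {g | g.n = 0 ∧ ∀ q i, ¬ H q i → g.f i q = 1}
  one_mem' := ⟨rfl, fun _ _ _ => rfl⟩
  mul_mem' := fun {a b} ha hb => ⟨by simp [ha.1, hb.1], fun q i h => by
    simp [ha.1, ha.2 q i h, hb.2 q i h]⟩
  inv_mem' := fun {a} ha => ⟨by simp [ha.1], fun q i h => by simp [ha.1, ha.2 q i h]⟩

theorem emb_mem {Q C : Type} [Group C] (H : Q → ℤ → Prop) (q : Q) (a M : ℕ) (hM : 0 < M)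
    (g : Wr C) : emb q a M hM g ∈ supp C H ↔ g.n = 0 ∧ ∀ u, ¬ H q (a + M * u) → g.f u = 1 := by
  classical
  have hM' : (M : ℤ) ≠ 0 := by omega
  refine ⟨fun h => ⟨by simpa [emb_n, hM.ne'] using h.1, fun u hu => ?_⟩, fun h =>
    ⟨by simp [emb_n, h.1], fun q' i hi => ?_⟩⟩
  · rw [← emb_at q a M hM g, h.2 _ _ hu]
  · rw [emb_f]
    split_ifs with hd
    · obtain ⟨c, hc⟩ := hd
      by_cases e : q' = q
      · subst e
        rw [hc, Int.mul_ediv_cancel_left _ hM', h.2 c (by rwa [← hc, add_sub_cancel])]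
        simp
      · simp [Pi.mulSingle_eq_of_ne e]
    · rfl

open Classical in
theorem emb_pt {Q C : Type} [Group C] (q : Q) (a M : ℕ) (hM : 0 < M) (c : C) :
    emb q a M hM (Wr.pt c) =
      Wr.sh 1 ^ a * Wr.pt (Pi.mulSingle q c) * (Wr.sh 1 ^ a)⁻¹ := by
  have hM' : (M : ℤ) ≠ 0 := by omega
  rw [Wr.sh_pow]
  ext i : 2
  · simp only [emb_f, Wr.mul_f, Wr.inv_f, Wr.sh_f, Wr.sh_n, Wr.pt_f, one_mul, inv_one, mul_one]
    by_cases h : i - a = 0
    · simp [h]
    · rw [if_neg h]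
      split_ifs with h1 h2
      · exact absurd (Int.eq_zero_of_ediv_eq_zero h1 h2) h
      · simp
      · rfl
  · simp [emb_n]

theorem emb_sh {Q C : Type} [Group C] (q : Q) (a M : ℕ) (hM : 0 < M) :
    emb (C := C) q a M hM (Wr.sh 1) = Wr.sh 1 ^ M := by
  rw [Wr.sh_pow]
  ext i : 2 <;> simp [emb_f, emb_n]

theorem model {Q : Type} [Finite Q] (H : Q → ℤ → Prop) (P : ℕ) (h : Q) (h0 : H h 0) :
    ∃ (G : Type) (_ : Group G) (k x : G) (t : Q → G) (r : Good H P → G), Rel (Good H P) h k x t r ∧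
      ∀ q (n : ℕ), Commute k (x ^ n * t q * (x ^ n)⁻¹) → H q n := by
  classical
  have := (Good.finite H P).fintype
  let C := Multiplicative ℤ
  let c : C := Multiplicative.ofAdd 1
  let E : Good H P → (Wr C →* Wr (Q → C)) × (Wr C →* Wr (Q → C)) := fun τ =>
    (emb τ.1.1.1 τ.1.1.2.1 τ.1.1.2.2 τ.2.2.2.2.2.1, emb τ.1.2.1 τ.1.2.2.1 τ.1.2.2.2 τ.2.2.2.2.2.2.1)
  obtain ⟨G1, _, ι, T, a1, a2, a3⟩ := hnn_list (supp C H) (Finset.univ.toList.map E) (by
    intro p hp
    obtain ⟨τ, -, rfl⟩ := List.mem_map.1 hp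
    refine ⟨emb_inj _ _ _ τ.2.2.2.2.2.1, emb_inj _ _ _ τ.2.2.2.2.2.2.1, fun g => ?_⟩
    simp only [E, emb_mem, τ.2.2.2.2.2.2.2])
  choose r hr hr' using fun τ => a3 (E τ) (List.mem_map.2 ⟨τ, by simp, rfl⟩)
  obtain ⟨G, _, ρ, k, hk⟩ := exists_cent T
  have key : ∀ q (n : ℕ), Commute k (ρ (ι (Wr.sh 1)) ^ n * ρ (ι (Wr.pt (Pi.mulSingle q c))) *
      (ρ (ι (Wr.sh 1)) ^ n)⁻¹) ↔ H q n := by
    intro q n
    rw [← map_pow, ← map_pow, ← map_inv, ← map_inv, ← map_mul, ← map_mul, ← map_mul, ← map_mul,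
      hk, a2, ← emb_pt q n 1 one_pos, emb_mem]
    refine ⟨fun h => by_contra fun h' => ?_, fun h => ⟨rfl, fun u hu => ?_⟩⟩
    · have h3 : c = 1 := by simpa using h.2 0 (by simpa using h')
      exact absurd h3 (by decide)
    · rw [Wr.pt_f, if_neg]
      rintro rfl
      exact hu (by simpa using h)
  refine ⟨G, inferInstance, k, ρ (ι (Wr.sh 1)), fun q => ρ (ι (Wr.pt (Pi.mulSingle q c))),
    fun τ => ρ (r τ), ⟨by simpa using (key h 0).2 h0, fun τ => ⟨(hk _).2 (hr τ), ?_, ?_⟩⟩,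
    fun q n => (key q n).1⟩
  · have := congrArg ρ (hr' τ (Wr.pt c))
    have hi : ∀ g : Wr (Q → C), ι g⁻¹ = (ι g)⁻¹ := map_inv ι
    simpa only [E, emb_pt, map_mul, hi, map_inv, map_pow] using this
  · have := congrArg ρ (hr' τ (Wr.sh 1))
    simpa only [E, emb_sh, map_mul, map_inv, map_pow] using this

/-- the test word -/
def tw {G : Type} [Group G] (k x t : G) (n : ℕ) : G := cm k (x ^ n * t * (x ^ n)⁻¹)

theorem complete {Q : Type} [Finite Q] (ins : Q → Bool → Option Q × ℕ × ℕ)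
    (hd : ∀ s b N N', ok (ins s b).2.1 ((ins s b).2.2 + 1) N N' →
      (Halt ins (some s) N ↔ Halt ins (ins s b).1 N')) : ∃ P, ∀ (G : Type) [Group G] (k x : G)
    (t : Option Q → G) (r : Good (fun q (z : ℤ) => 0 ≤ z ∧ Halt ins q z.toNat) P → G),
    Rel _ none k x t r → ∀ q N, Halt ins q N → Commute k (x ^ N * t q * (x ^ N)⁻¹) := by
  obtain ⟨P, hP⟩ := Finite.exists_le fun z : Q × Bool => (ins z.1 z.2).2.2 + 1
  refine ⟨P + 2, fun G _ k x t r hr q N h => ?_⟩
  have neg : ∀ (a M : ℕ) (u : ℤ), a < M → (0 ≤ (a : ℤ) + M * u ↔ 0 ≤ u) := by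
    intro a M u h
    constructor
    · intro h1
      by_contra h2
      nlinarith
    · intro h1
      positivity
  have good : ∀ (q q' : Option Q) (a M b N : ℕ), a < M → b < N → M ≤ P + 2 → N ≤ P + 2 →
      (∀ u : ℕ, Halt ins q (M * u + a) ↔ Halt ins q' (N * u + b)) →
      ((q, a, M), (q', b, N)) ∈ Good (fun q (z : ℤ) => 0 ≤ z ∧ Halt ins q z.toNat) (P + 2) := by
    intro q q' a M b N h1 h2 h3 h4 h5
    refine ⟨by dsimp only; omega, h3, by dsimp only; omega, h4, by dsimp only; omega,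
      by dsimp only; omega, fun u => ?_⟩
    dsimp only
    rw [neg a M u h1, neg b N u h2]
    refine and_congr_right fun hu => ?_
    obtain ⟨u, rfl⟩ := Int.eq_ofNat_of_zero_le hu
    rw [show (a : ℤ) + M * u = (M * u + a : ℕ) by push_cast; ring,
      show (b : ℤ) + N * u = (N * u + b : ℕ) by push_cast; ring, Int.toNat_natCast,
      Int.toNat_natCast, h5]
  induction h with
  | stop N =>
    induction N using Nat.strong_induction_on with
    | _ N ih =>
      rcases Nat.eq_zero_or_pos N with rfl | hN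
      · simpa using hr.1
      · have := hr.step (good none none (N % 2) 2 0 1 (by omega) (by omega) (by omega) (by omega)
          fun u => ⟨fun _ => .stop _, fun _ => .stop _⟩) (N / 2)
          (by simpa using ih (N / 2) (by omega))
        rwa [Nat.div_add_mod] at this
  | @step s N N' b h1 _ ih =>
    have hp := hP (s, b)
    have hd' := hd s b
    dsimp only at hp
    generalize (ins s b).2.2 = p at h1 hp hd'
    unfold ok at h1 hd'
    split_ifs at h1 hd'
    · subst h1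
      simpa using hr.step (good (some s) (ins s b).1 0 1 0 (p + 1) (by omega) (by omega) (by omega)
        (by omega) fun u => hd' _ _ (by simp)) N (by simpa using ih)
    · subst h1
      simpa using hr.step (good (some s) (ins s b).1 0 (p + 1) 0 1 (by omega) (by omega) (by omega)
        (by omega) fun u => hd' _ _ (by simp)) N' (by simpa using ih)
    · obtain ⟨rfl, h2⟩ := h1
      have h3 := Nat.mod_lt N' (Nat.succ_pos p)
      have := hr.step (good (some s) (ins s b).1 (N' % (p + 1)) (p + 1) (N' % (p + 1)) (p + 1)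
        h3 h3 (by omega) (by omega) fun u => hd' _ _ ⟨rfl, fun h => h2
          ((Nat.dvd_mod_iff dvd_rfl).1 ((Nat.dvd_add_right (dvd_mul_right _ _)).1 h))⟩)
        (N' / (p + 1)) (by rwa [Nat.div_add_mod])
      rwa [Nat.div_add_mod] at this

/-- The Novikov-Boone theorem. -/
theorem novikov_boone : ∃ (I : Type) (_ : Finite I) (R : Set (FreeGroup I)) (k x t : I)
    (K : ℕ → Prop), R.Finite ∧ ¬ ComputablePred K ∧
    (∀ n, K n → tw (.of k) (.of x) (.of t) (2 ^ n) ∈ Subgroup.normalClosure R) ∧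
    ∃ (Γ : Type) (_ : Group Γ) (γ : FreeGroup I →* Γ), (∀ r ∈ R, γ r = 1) ∧
      ∀ n, γ (tw (.of k) (.of x) (.of t) (2 ^ n)) = 1 → K n := by
  obtain ⟨Q, _, ins, q0, h1, h2⟩ := exists_det
  obtain ⟨P, hP⟩ := complete ins h2
  set S := Good (fun q (z : ℤ) => 0 ≤ z ∧ Halt ins q z.toNat) P with hS
  have : Finite S := Good.finite _ _
  let I := Bool ⊕ Option Q ⊕ S
  let k : FreeGroup I := .of (.inl true)
  let x : FreeGroup I := .of (.inl false)
  let t : Option Q → FreeGroup I := fun q => .of (.inr (.inl q))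
  let r : S → FreeGroup I := fun τ => .of (.inr (.inr τ))
  let R : Set (FreeGroup I) := {cm k (t none)} ∪ Set.range (fun τ => cm k (r τ)) ∪
    Set.range (fun τ : S => r τ * (x ^ τ.1.1.2.1 * t τ.1.1.1 * (x ^ τ.1.1.2.1)⁻¹) * (r τ)⁻¹ *
      (x ^ τ.1.2.2.1 * t τ.1.2.1 * (x ^ τ.1.2.2.1)⁻¹)⁻¹) ∪
    Set.range (fun τ : S => r τ * x ^ τ.1.1.2.2 * (r τ)⁻¹ * (x ^ τ.1.2.2.2)⁻¹)
  have hR : ∀ (G : Type) [Group G] (φ : FreeGroup I →* G), (∀ z ∈ R, φ z = 1) ↔
      Rel S none (φ k) (φ x) (fun q => φ (t q)) (fun τ => φ (r τ)) := by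
    intro G _ φ
    simp only [R, Set.mem_union, or_imp, forall_and, Set.mem_singleton_iff, forall_eq,
      Set.forall_mem_range, map_cm, cm_eq_one, map_mul, map_inv, map_pow, mul_inv_eq_one, Rel,
      and_assoc]
  refine ⟨I, inferInstance, R, .inl true, .inl false, .inr (.inl (some q0)), _,
    (((Set.finite_singleton _).union (Set.finite_range _)).union (Set.finite_range _)).union
      (Set.finite_range _), h1, fun n hn => ?_, ?_⟩
  · rw [← QuotientGroup.eq_one_iff]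
    have := hP _ _ _ _ _ ((hR _ (QuotientGroup.mk' (Subgroup.normalClosure R))).1 fun z hz =>
      (QuotientGroup.eq_one_iff z).2 (Subgroup.subset_normalClosure hz)) _ _ hn
    rw [← cm_eq_one] at this
    simpa [tw, cm] using this
  · obtain ⟨G, _, k', x', t', r', a1, a2⟩ := model (fun q (z : ℤ) => 0 ≤ z ∧ Halt ins q z.toNat) P
      none ⟨le_rfl, .stop _⟩
    refine ⟨G, inferInstance, FreeGroup.lift (Sum.elim (fun b => bif b then k' else x')
      (Sum.elim t' r')), (hR _ _).2 (by simpa [k, x, t, r] using a1), fun n hn => ?_⟩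
    have := a2 (some q0) (2 ^ n) (by simpa [tw, map_cm, cm_eq_one] using hn)
    simpa only [Int.toNat_natCast] using this.2

end Pool.Agent.H30.NB
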