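import Pool.Agent.H30.KuzA
import Pool.Agent.H30.KuzDefs
import Pool.Agent.H30.NBb

/-! Expressibility of group words on every group is undecidable. -/

namespace Pool.Agent.H30.Kuz

open Pool.Agent.H30.NB Function

variable {G : Type} [Group G]

theorem eval_eq (v : ℕ → G) (w : Word) : eval v w = FreeGroup.lift v (FreeGroup.mk w) :=
  (FreeGroup.lift_mk).symm

theorem eval_append (v : ℕ → G) (a b : Word) : eval v (a ++ b) = eval v a * eval v b := by
  simp [eval]

theorem eval_inv (v : ℕ → G) (w : Word) : eval v (inv w) = (eval v w)⁻¹ := by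
  induction w with
  | nil => simp [eval, inv]
  | cons p w ih =>
    have : inv (p :: w) = inv w ++ [(p.1, !p.2)] := by simp [inv]
    rw [this, eval_append, ih]
    rcases p with ⟨j, _ | _⟩ <;> simp [eval]

theorem eval_subst (v : ℕ → G) (W : ℕ → Word) (B : Word) :
    eval v (subst W B) = eval (fun j => eval v (W j)) B := by
  induction B with
  | nil => simp [eval, subst]
  | cons p B ih =>
    have : subst W (p :: B) = (bif p.2 then W p.1 else inv (W p.1)) ++ subst W B := by simp [subst]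
    rw [this, eval_append, ih]
    rcases p with ⟨j, _ | _⟩
    · simp only [cond_false, eval_inv]; simp [eval]
    · simp [eval]

theorem eval_congr {v v' : ℕ → G} {B : Word} (h : ∀ p ∈ B, v p.1 = v' p.1) :
    eval v B = eval v' B := by
  unfold eval
  congr 1
  exact List.map_congr_left fun p hp => by rw [h p hp]

theorem Expr.pres {Bs : List Word} {S : Set G} {s : G} (hs : s ∈ S)
    (h : ∀ B ∈ Bs, ∀ v : ℕ → G, (∀ j, v j ∈ S) → eval v B ∈ S) {A : Word} (hA : Expr G Bs A)
    (v : ℕ → G) (hv : ∀ j, v j ∈ S) : eval v A ∈ S := by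
  classical
  induction hA with
  | var j => simpa [eval] using hv j
  | @subst B W hB _ ih =>
    rw [eval_subst, eval_congr (v' := fun j => if eval v (W j) ∈ S then eval v (W j) else s)
      fun p hp => by simp [ih p hp]]
    refine h B hB _ fun j => ?_
    split_ifs with h1
    exacts [h1, hs]
  | ident _ e ih => exact e v ▸ ih

/-- the group element represented by an expressible word -/
def Ex (G : Type) [Group G] (Bs : List Word) (z : FreeGroup ℕ) : Prop :=
  ∃ w, Expr G Bs w ∧ FreeGroup.mk w = z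

theorem Ex.op {Bs : List Word} {g z : FreeGroup ℕ} (hg : g.toWord ∈ Bs) (hz : Ex G Bs z) :
    Ex G Bs (FreeGroup.lift (update FreeGroup.of 0 z) g) := by
  obtain ⟨w, h1, rfl⟩ := hz
  have hm : ∀ u : Word, eval FreeGroup.of u = FreeGroup.mk u := fun u => by
    rw [eval_eq, FreeGroup.lift_of_eq_id]; rfl
  refine ⟨_, Expr.subst (update (fun j => [(j, true)]) 0 w) hg fun p _ => ?_, ?_⟩
  · by_cases h : p.1 = 0
    · simpa [h] using h1
    · simpa [h] using Expr.var p.1
  · rw [← hm, eval_subst, eval_eq, FreeGroup.mk_toWord]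
    congr 2
    funext j
    by_cases h : j = 0
    · simp [h, hm]
    · simp [h, eval]

section
variable {I : Type} (N l : ℕ) (e : I → ℕ)

/-- the generators as words in three parameters -/
def beta (v : ℕ → G) : FreeGroup I →* G :=
  FreeGroup.lift fun i => uw (v 2 * (v 1)⁻¹) (v 3 * (v 1)⁻¹) N (e i) l

def op (v : ℕ → G) (g h : FreeGroup I) : G :=
  v 1 * beta N l e v g * (v 1)⁻¹ * v 0 * (beta N l e v h)⁻¹

theorem lift_beta (v : ℕ → G) (g : FreeGroup I) :
    FreeGroup.lift v (beta N l e FreeGroup.of g) = beta N l e v g := by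
  have : (FreeGroup.lift v).comp (beta N l e FreeGroup.of) = beta N l e v := by
    ext i
    simp [beta, map_uw]
  exact DFunLike.congr_fun this g

theorem lift_op (v : ℕ → G) (g h : FreeGroup I) :
    FreeGroup.lift v (op N l e FreeGroup.of g h) = op N l e v g h := by
  simp [op, lift_beta]

theorem complete {Bs : List Word} {R : Set (FreeGroup I)}
    (h1 : ∀ i, (op N l e FreeGroup.of (.of i) (.of i)).toWord ∈ Bs)
    (h2 : ∀ i, (op N l e FreeGroup.of (FreeGroup.of i)⁻¹ (FreeGroup.of i)⁻¹).toWord ∈ Bs)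
    (h3 : ∀ r ∈ R, (op N l e FreeGroup.of r 1).toWord ∈ Bs)
    (h4 : ∀ r ∈ R, (op N l e FreeGroup.of r⁻¹ 1).toWord ∈ Bs)
    {w : FreeGroup I} (hw : w ∈ Subgroup.normalClosure R) :
    Ex G Bs (op N l e FreeGroup.of w 1) := by
  let P : FreeGroup I → FreeGroup I → Prop := fun g h => ∀ z, Ex G Bs z →
    Ex G Bs (op N l e (update FreeGroup.of 0 z) g h)
  have hb : ∀ z : FreeGroup ℕ, beta N l e (update FreeGroup.of 0 z) = beta N l e FreeGroup.of :=
    fun z => by simp [beta]
  have p0 : ∀ g h, (op N l e FreeGroup.of g h).toWord ∈ Bs → P g h := fun g h H z hz => by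
    simpa only [lift_op] using Ex.op H hz
  have p1 : P 1 1 := fun z hz => by simpa [op] using hz
  have p2 : ∀ g h g' h', P g h → P g' h' → P (g * g') (h * h') := by
    intro g h g' h' a b z hz
    have := a _ (b z hz)
    simp only [op, hb, map_mul, update_self, ne_eq, one_ne_zero, not_false_eq_true,
      update_of_ne] at this ⊢
    convert this using 1
    group
  have p3 : ∀ g, P g g := by
    intro g
    induction g using FreeGroup.induction_on with
    | C1 => exact p1
    | of i => exact p0 _ _ (h1 i)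
    | inv_of i _ => exact p0 _ _ (h2 i)
    | mul a b ha hb => exact p2 _ _ _ _ ha hb
  have p4 : ∀ g c, P g 1 → P (c * g * c⁻¹) 1 := fun g c h => by
    simpa using p2 _ _ _ _ (p2 _ _ _ _ (p3 c) h) (p3 c⁻¹)
  have key : P w 1 ∧ P w⁻¹ 1 := by
    induction hw using Subgroup.closure_induction with
    | mem x hx =>
      obtain ⟨r, hr, hc⟩ := Group.mem_conjugatesOfSet_iff.1 hx
      obtain ⟨c, rfl⟩ := isConj_iff.1 hc
      exact ⟨p4 _ _ (p0 _ _ (h3 r hr)), by simpa [mul_assoc] using p4 _ c (p0 _ _ (h4 r hr))⟩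
    | one => simpa using p1
    | mul a b _ _ ha hb =>
      exact ⟨by simpa using p2 _ _ _ _ ha.1 hb.1, by simpa using p2 _ _ _ _ hb.2 ha.2⟩
    | inv a _ ha => exact ⟨ha.2, by simpa using ha.1⟩
  simpa using key.1 (.of 0) ⟨_, Expr.var 0, rfl⟩

end

/-- left translation on the first coordinate -/
def Lt {Δ : Type} [Group Δ] : Δ →* Equiv.Perm (Δ × Δ) where
  toFun g := (Equiv.mulLeft g).prodCongr (Equiv.refl Δ)
  map_one' := by ext <;> simp
  map_mul' a b := by ext <;> simp [mul_assoc]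

theorem Lt_apply {Δ : Type} [Group Δ] (g : Δ) (p : Δ × Δ) : Lt g p = (g * p.1, p.2) := rfl

/-- the marked permutations -/
def mk {Δ : Type} [Group Δ] (b : Δ) : Equiv.Perm (Δ × Δ) := Lt b * Equiv.prodComm Δ Δ

theorem mk_apply {Δ : Type} [Group Δ] (g : Δ) (p : Δ × Δ) : mk g p = (g * p.2, p.1) := rfl

theorem mk_div {Δ : Type} [Group Δ] (a b : Δ) : mk a * (mk b)⁻¹ = Lt (a * b⁻¹) := by
  simp [mk, mul_assoc]

theorem mk_op {Δ : Type} [Group Δ] (a b g : Δ) :
    mk a * Lt g * (mk a)⁻¹ * mk b * (Lt g)⁻¹ = mk b := by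
  rw [mul_inv_eq_iff_eq_mul, mul_assoc, mk, mk, mul_inv_rev, ← map_inv]
  generalize hc : a⁻¹ = c
  ext p <;> simp [Lt_apply, Equiv.Perm.inv_def, mul_assoc]
  simp [← hc]

theorem reduction : ∃ (Bs : List Word) (k x t : FreeGroup ℕ) (K : ℕ → Prop), ¬ ComputablePred K ∧
    ∀ n (A : Word), FreeGroup.mk A = .of 1 * tw k x t (2 ^ n) * (FreeGroup.of 1)⁻¹ * .of 0 →
      (ExprAll A Bs ↔ K n) := by
  classical
  obtain ⟨I, _, R, k, x, t, K, hR, hK, c1, Γ, _, γ, c2, c3⟩ := novikov_boone
  obtain ⟨Δ, _, ι, b, N, l, e, d1, d2, d3, d4⟩ := triple fun i => γ (.of i)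
  have := Fintype.ofFinite I
  let f : FreeGroup I × FreeGroup I → Word := fun p => (op N l e FreeGroup.of p.1 p.2).toWord
  let L : List (FreeGroup I × FreeGroup I) :=
    Finset.univ.toList.map (fun i => (.of i, .of i)) ++
    Finset.univ.toList.map (fun i => ((FreeGroup.of i)⁻¹, (FreeGroup.of i)⁻¹)) ++
    hR.toFinset.toList.map (fun r => (r, 1)) ++ hR.toFinset.toList.map (fun r => (r⁻¹, 1))
  have hL : ∀ p ∈ L, p.1 = p.2 ∨ (γ p.1 = 1 ∧ p.2 = 1) := by
    simp only [L, List.mem_append, List.mem_map]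
    rintro p (((⟨i, -, rfl⟩ | ⟨i, -, rfl⟩) | ⟨r, hr, rfl⟩) | ⟨r, hr, rfl⟩)
    · exact Or.inl rfl
    · exact Or.inl rfl
    · exact Or.inr ⟨c2 r (by simpa using hr), rfl⟩
    · exact Or.inr ⟨by simpa using c2 r (by simpa using hr), rfl⟩
  refine ⟨L.map f, beta N l e FreeGroup.of (.of k), beta N l e FreeGroup.of (.of x),
    beta N l e FreeGroup.of (.of t), K, hK, fun n A hA => ?_⟩
  have hA' : FreeGroup.mk A = op N l e FreeGroup.of (tw (.of k) (.of x) (.of t) (2 ^ n)) 1 := by
    simp [hA, op, tw, map_cm]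
  constructor
  · intro h
    have hb : ∀ v : ℕ → Equiv.Perm (Δ × Δ), ∀ x y z, v 1 = mk (b x) → v 2 = mk (b y) →
        v 3 = mk (b z) → (x = 0 ∧ y = 1 ∧ z = 2 ∧ ∀ g, beta N l e v g = Lt (ι (γ g))) ∨
        (¬ (x = 0 ∧ y = 1 ∧ z = 2) ∧ ∀ g, beta N l e v g = 1) := by
      intro v x y z e1 e2 e3
      by_cases h0 : x = 0 ∧ y = 1 ∧ z = 2
      · obtain ⟨rfl, rfl, rfl⟩ := h0
        refine Or.inl ⟨rfl, rfl, rfl, fun g => ?_⟩
        have : beta N l e v = Lt.comp (ι.comp γ) := by
          ext i : 1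
          simp only [beta, e1, e2, e3, mk_div, d2, inv_one, mul_one, ← map_uw, d3,
            FreeGroup.lift_apply_of, MonoidHom.comp_apply]
        rw [this]; rfl
      · refine Or.inr ⟨h0, fun g => ?_⟩
        have : beta N l e v = 1 := by
          ext i : 1
          simp only [beta, e1, e2, e3, mk_div, ← map_uw, (d4 x y z).resolve_left h0 i, map_one,
            FreeGroup.lift_apply_of, MonoidHom.one_apply]
        rw [this]; rfl
    have := (h (Equiv.Perm (Δ × Δ))).pres (S := Set.range fun i => mk (b i)) ⟨0, rfl⟩ (by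
      intro B hB v hv
      obtain ⟨p, hp, rfl⟩ := List.mem_map.1 hB
      rw [eval_eq, FreeGroup.mk_toWord, lift_op]
      obtain ⟨x, e1⟩ := hv 1
      obtain ⟨y, e2⟩ := hv 2
      obtain ⟨z, e3⟩ := hv 3
      obtain ⟨u, e0⟩ := hv 0
      refine ⟨u, ?_⟩
      rcases hb v x y z e1.symm e2.symm e3.symm with ⟨-, -, -, h1⟩ | ⟨-, h1⟩
      · rcases hL p hp with h2 | ⟨h2, h3⟩
        · simp only [op, h1, h2, ← e1, ← e0, mk_op]
        · simp [op, h1, h2, h3, ← e0]
      · simp [op, h1, ← e0])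
      (fun j => if j = 2 then mk (b 1) else if j = 3 then mk (b 2) else mk (b 0))
      (fun j => by split_ifs <;> exact ⟨_, rfl⟩)
    rw [eval_eq, hA', lift_op] at this
    obtain ⟨u, hu⟩ := this
    rcases hb (fun j => if j = 2 then mk (b 1) else if j = 3 then mk (b 2) else mk (b 0)) 0 1 2
      rfl rfl rfl with ⟨-, -, -, h1⟩ | ⟨h1, -⟩
    · simp only [op, h1] at hu
      have h2 := congrArg (fun π : Equiv.Perm (Δ × Δ) => (π (1, 1)).2) hu
      refine c3 n (d1 ?_)
      simpa [mk_apply, Lt_apply, eq_comm] using h2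
    · exact absurd ⟨rfl, rfl, rfl⟩ h1
  · intro h G _
    have m : ∀ p ∈ L, f p ∈ L.map f := fun p hp => List.mem_map_of_mem hp
    obtain ⟨w, h1, h2⟩ := complete (G := G) N l e (Bs := L.map f) (R := R)
      (fun i => m (.of i, .of i) (by simp [L]))
      (fun i => m ((FreeGroup.of i)⁻¹, (FreeGroup.of i)⁻¹) (by simp [L]))
      (fun r hr => m (r, 1) (by simp [L, hr])) (fun r hr => m (r⁻¹, 1) (by simp [L, hr])) (c1 n h)
    exact h1.ident fun v => by rw [eval_eq, eval_eq, h2, hA']

/-- power of a word -/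
def rep (w : Word) (m : ℕ) : Word := (fun u => w ++ u)^[m] []

theorem mk_rep (w : Word) (m : ℕ) : FreeGroup.mk (rep w m) = FreeGroup.mk w ^ m := by
  induction m with
  | zero => rfl
  | succ m ih => rw [rep, iterate_succ_apply', ← FreeGroup.mul_mk, ← rep, ih, pow_succ']

theorem rep_prim (w : Word) : Primrec fun n : ℕ => rep w (2 ^ n) := by
  have h : Primrec fun n : ℕ => 2 ^ n :=
    (Primrec.nat_iterate Primrec.id (Primrec.const 1)
      (Primrec.nat_double.comp Primrec.snd).to₂).of_eq fun n => by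
        induction n with
        | zero => rfl
        | succ n ih => simp only [id] at ih ⊢; rw [iterate_succ_apply', ih, pow_succ']
  exact Primrec.nat_iterate h (Primrec.const [])
    (Primrec.list_append.comp (Primrec.const w) Primrec.snd).to₂

theorem undec : ¬ ComputablePred fun p : Word × List Word => ExprAll p.1 p.2 := by
  obtain ⟨Bs, k, x, t, K, hK, H⟩ := reduction
  intro h
  let A : ℕ → Word := fun n => ((1, true) :: k.toWord) ++ rep x.toWord (2 ^ n) ++ t.toWord ++
    rep x⁻¹.toWord (2 ^ n) ++ k⁻¹.toWord ++ rep x.toWord (2 ^ n) ++ t⁻¹.toWord ++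
    rep x⁻¹.toWord (2 ^ n) ++ [(1, false), (0, true)]
  have hA : Primrec A := by
    have a := @Primrec.list_append (ℕ × Bool) _
    exact a.comp (a.comp (a.comp (a.comp (a.comp (a.comp (a.comp (a.comp (Primrec.const _)
      (rep_prim _)) (Primrec.const _)) (rep_prim _)) (Primrec.const _)) (rep_prim _))
      (Primrec.const _)) (rep_prim _)) (Primrec.const _)
  obtain ⟨_, h⟩ := h
  refine hK (ComputablePred.of_eq ⟨_, h.comp (hA.to_comp.pair (Computable.const Bs))⟩ fun n =>
    H n (A n) ?_)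
  have e1 : FreeGroup.mk ((1, true) :: k.toWord) = .of 1 * k := by
    rw [← List.singleton_append, ← FreeGroup.mul_mk, FreeGroup.mk_toWord]; rfl
  have e2 : FreeGroup.mk [((1 : ℕ), false), (0, true)] = (FreeGroup.of 1)⁻¹ * .of 0 := rfl
  simp only [A, ← FreeGroup.mul_mk, e1, e2, mk_rep, FreeGroup.mk_toWord, tw, cm]
  group

end Pool.Agent.H30.Kuz
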