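import Pool.Agent.H30.KuzA

/-! Finite version of the group with three marked elements. -/

namespace Pool.Agent.H30.Kuz

open Pool.Agent.H30.NB Function

/-- The wreath product with a cyclic group. -/
@[ext] structure Wc (m : ℕ) (Γ : Type) where
  f : ZMod m → Γ
  n : ZMod m

namespace Wc
variable {m : ℕ} {Γ : Type} [Group Γ]

instance : Mul (Wc m Γ) := ⟨fun a b => ⟨fun i => a.f i * b.f (i - a.n), a.n + b.n⟩⟩
instance : One (Wc m Γ) := ⟨⟨fun _ => 1, 0⟩⟩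
instance : Inv (Wc m Γ) := ⟨fun a => ⟨fun i => (a.f (i + a.n))⁻¹, -a.n⟩⟩

@[simp] theorem mul_f (a b : Wc m Γ) (i : ZMod m) : (a * b).f i = a.f i * b.f (i - a.n) := rfl
@[simp] theorem mul_n (a b : Wc m Γ) : (a * b).n = a.n + b.n := rfl
@[simp] theorem one_f (i : ZMod m) : (1 : Wc m Γ).f i = 1 := rfl
@[simp] theorem one_n : (1 : Wc m Γ).n = 0 := rfl
@[simp] theorem inv_f (a : Wc m Γ) (i : ZMod m) : a⁻¹.f i = (a.f (i + a.n))⁻¹ := rfl
@[simp] theorem inv_n (a : Wc m Γ) : a⁻¹.n = -a.n := rfl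

instance : Group (Wc m Γ) := Group.ofLeftAxioms
  (fun a b c => by ext i <;> simp [mul_assoc, sub_sub, add_assoc])
  (fun a => by ext i <;> simp)
  (fun a => by ext i <;> simp)

instance [NeZero m] [Finite Γ] : Finite (Wc m Γ) :=
  Finite.of_injective (fun g : Wc m Γ => (g.f, g.n)) fun _ _ h =>
    Wc.ext (Prod.mk.inj h).1 (Prod.mk.inj h).2

def sh (n : ZMod m) : Wc m Γ := ⟨fun _ => 1, n⟩

@[simp] theorem sh_f (n i : ZMod m) : (sh n : Wc m Γ).f i = 1 := rfl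
@[simp] theorem sh_n (n : ZMod m) : (sh n : Wc m Γ).n = n := rfl

theorem sh_pow (a : ZMod m) (k : ℕ) : (sh a : Wc m Γ) ^ k = sh (a * (k : ZMod m)) := by
  induction k with
  | zero => ext i <;> simp
  | succ k ih => rw [pow_succ, ih]; ext i <;> simp [mul_add]

theorem pow_n (a : Wc m Γ) (k : ℕ) : (a ^ k).n = k * a.n := by
  induction k with
  | zero => simp
  | succ k ih => rw [pow_succ, mul_n, ih]; push_cast; ring

def pt : Γ →* Wc m Γ where
  toFun g := ⟨fun i => if i = 0 then g else 1, 0⟩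
  map_one' := by ext i <;> simp
  map_mul' a b := by
    ext i
    · by_cases h : i = 0 <;> simp [h]
    · simp

@[simp] theorem pt_f (g : Γ) (i : ZMod m) : (pt g : Wc m Γ).f i = if i = 0 then g else 1 := rfl
@[simp] theorem pt_n (g : Γ) : (pt g : Wc m Γ).n = 0 := rfl

theorem pt_inj : Injective (pt : Γ →* Wc m Γ) := fun a b h => by
  simpa using congrArg (fun z => z.f 0) h

theorem commute_base {g h : Wc m Γ} (hg : g.n = 0) (hh : h.n = 0)
    (H : ∀ i, g.f i = 1 ∨ h.f i = 1) : Commute g h := by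
  show g * h = h * g
  ext i
  · rcases H i with e | e <;> simp [hg, hh, e]
  · simp [hg, hh]

/-- support and shift bounded by `L` -/
def Sp (L : ℕ) (g : Wc m Γ) : Prop :=
  (∀ j, g.f j ≠ 1 → ∃ i : ℤ, |i| ≤ L ∧ j = i) ∧ ∃ d : ℤ, |d| ≤ L ∧ g.n = d

theorem Sp.mul {L L' : ℕ} {g h : Wc m Γ} (a : Sp L g) (b : Sp L' h) : Sp (L + L') (g * h) := by
  obtain ⟨a1, d, a2, a3⟩ := a
  obtain ⟨b1, e, b2, b3⟩ := b
  refine ⟨fun j hj => ?_, d + e, (abs_add_le _ _).trans (by omega), by simp [a3, b3]⟩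
  by_cases h1 : g.f j = 1
  · obtain ⟨i, c1, c2⟩ := b1 (j - g.n) (by simpa [h1] using hj)
    exact ⟨i + d, (abs_add_le _ _).trans (by omega), by simp [← c2, ← a3]⟩
  · obtain ⟨i, c1, c2⟩ := a1 j h1
    exact ⟨i, by omega, c2⟩

theorem Sp.inv {L : ℕ} {g : Wc m Γ} (a : Sp L g) : Sp (L + L) g⁻¹ := by
  obtain ⟨a1, d, a2, a3⟩ := a
  refine ⟨fun j hj => ?_, -d, by rw [abs_neg]; omega, by simp [a3]⟩
  obtain ⟨i, c1, c2⟩ := a1 (j + g.n) (by simpa using hj)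
  exact ⟨i - d, (abs_sub _ _).trans (by omega), by simp [← c2, ← a3]⟩

theorem Sp.pow {L : ℕ} {g : Wc m Γ} (a : Sp L g) (k : ℕ) : Sp (k * L) (g ^ k) := by
  induction k with
  | zero => exact ⟨fun j h => absurd rfl h, 0, by simp, by simp⟩
  | succ k ih => rw [pow_succ, Nat.succ_mul]; exact ih.mul a

theorem Sp.mono {L L' : ℕ} {g : Wc m Γ} (a : Sp L g) (h : L ≤ L') : Sp L' g := by
  obtain ⟨a1, d, a2, a3⟩ := a
  refine ⟨fun j hj => ?_, d, by omega, a3⟩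
  obtain ⟨i, c1, c2⟩ := a1 j hj
  exact ⟨i, by omega, c2⟩

theorem Sp.cm {L L' : ℕ} {g h : Wc m Γ} (a : Sp L g) (b : Sp L' h) :
    Sp (L + L' + (L + L) + (L' + L')) (cm g h) := ((a.mul b).mul a.inv).mul b.inv

end Wc

open Wc

theorem pw_sp (L j : ℕ) : ∃ L', ∀ (m : ℕ) (Γ : Type) [Group Γ] (d e : Wc m Γ), Sp L d → Sp L e →
    Sp L' (pw d e j) :=
  ⟨_, fun _ _ _ _ _ hd he => (((hd.pow (2 * j)).inv.mul (he.mul (hd.pow 3).inv)).mul
    (hd.pow (2 * j))).cm ((hd.inv.mul (he.mul (hd.pow 3).inv)).mul hd)⟩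

variable {m : ℕ} {Γ : Type} [Group Γ]

theorem pw_n' (d e : Wc m Γ) (j : ℕ) : (pw d e j).n = 0 := by simp [pw, cm]

theorem uw_far' {L j l : ℕ} {d e : Wc m Γ} (h1 : Sp L (pw d e j)) (h2 : Sp L (pw d e l)) {c : ℤ}
    (hq : (qw d e).n = c) (c0 : c ≠ 0) (c1 : |c| ≤ 12) (hm : 26 * L + 12 < m) :
    uw d e (2 * L + 1) j l = 1 := by
  refine cm_eq_one.2 (Wc.commute_base (by simp [pw_n']) (pw_n' _ _ _) fun i => ?_)
  by_contra hn
  rw [not_or] at hn
  obtain ⟨a, a1, a2⟩ := h2.1 i hn.2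
  obtain ⟨b, b1, b2⟩ := h1.1 (i - (qw d e ^ (2 * L + 1)).n) fun H => hn.1 (by simp [H, pw_n'])
  rw [pow_n, hq, a2] at b2
  have : (m : ℤ) ∣ a - (2 * L + 1) * c - b := by
    rw [← ZMod.intCast_zmod_eq_zero_iff_dvd]
    push_cast at b2 ⊢
    rw [b2, sub_self]
  have h3 := Int.eq_zero_of_abs_lt_dvd this (by
    rw [abs_le] at a1 b1 c1
    rw [abs_lt]
    constructor <;> nlinarith)
  rw [abs_le] at a1 b1
  rcases lt_or_gt_of_ne c0 with h | h <;> nlinarith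

theorem fn_ne {τ : Γ} {Y : ℤ → Γ} {P : ℕ} (hY : ∀ j : ℤ, P < j → Y j = 1) {i : ℤ}
    (h : fn τ Y i ≠ 1) : i = 1 ∨ (2 ∣ i ∧ 0 < i ∧ i ≤ 2 * P) := by
  unfold fn at h
  split_ifs at h with h1 h2
  · exact Or.inl h1
  · refine Or.inr ⟨h2.1, h2.2, ?_⟩
    by_contra h3
    exact h (hY _ (by omega))
  · exact absurd rfl h

theorem val_add' [NeZero m] (i : ZMod m) (c : ℕ) (hc : c < m) :
    (i + c).val = i.val + c ∨ (i + c).val + m = i.val + c := by
  have h1 := i.val_lt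
  rw [ZMod.val_add, ZMod.val_natCast, Nat.mod_eq_of_lt hc]
  by_cases h : i.val + c < m
  · exact Or.inl (Nat.mod_eq_of_lt h)
  · right
    rw [Nat.mod_eq_sub_mod (by omega), Nat.mod_eq_of_lt (by omega)]
    omega

theorem uw_id' [NeZero m] (τ : Γ) (Y : ℤ → Γ) {P : ℕ} (hY : ∀ j : ℤ, P < j → Y j = 1)
    (hm : 4 * P + 4 < m) (m2 : 2 ∣ m) (N j l : ℕ) (hj : 0 < j) (hl : 0 < l) (jP : j ≤ P)
    (lP : l ≤ P) : uw (sh 1) (⟨fun i => fn τ Y i.val, 3⟩ : Wc m Γ) N j l =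
      pt (cm (cm (Y j) τ) (cm (Y l) τ)) := by
  have hq : qw (sh 1) (⟨fun i => fn τ Y i.val, 3⟩ : Wc m Γ) = ⟨fun i => fn τ Y i.val, 0⟩ := by
    rw [qw, sh_pow]
    ext i <;> simp
  have hp : ∀ j : ℕ, 0 < j → j ≤ P →
      pw (sh 1) (⟨fun i => fn τ Y i.val, 3⟩ : Wc m Γ) j = pt (cm (Y j) τ) := by
    intro j hj jP
    rw [pw, hq, sh_pow]
    ext i
    · simp only [cm, mul_f, inv_f, mul_n, inv_n, sh_f, sh_n, pt_f, inv_one,
        one_mul, mul_one, add_zero, neg_add_cancel, sub_zero, neg_zero, sub_neg_eq_add]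
      have v1 := val_add' i 1 (by omega)
      have v2 := val_add' i (2 * j) (by omega)
      rw [Nat.cast_one] at v1
      have v3 := i.val_lt
      by_cases h : i = 0
      · have h' : i.val = 0 := by simp [h]
        have w1 : (i + 1).val = 1 := by have := (i + 1).val_lt; omega
        have w2 : (i + (2 * j : ℕ)).val = 2 * j := by omega
        have e1 : fn τ Y (2 * j : ℕ) = Y j := by
          rw [fn, if_neg (by omega), if_pos (by omega)]
          congr 1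
          omega
        rw [w1, w2, e1, if_pos h]
        simp [fn]
      · rw [if_neg h]
        have h' : i.val ≠ 0 := fun e => h ((ZMod.val_eq_zero i).1 e)
        by_cases e2 : fn τ Y ((i + 1).val : ℕ) = 1
        · rw [e2]; simp
        by_cases e1 : fn τ Y ((i + (2 * j : ℕ)).val : ℕ) = 1
        · rw [e1]; simp
        have := fn_ne hY e1
        have := fn_ne hY e2
        omega
    · simp [cm]
  have hc : Commute (⟨fun i => fn τ Y i.val, 0⟩ : Wc m Γ) (pt (cm (Y j) τ)) :=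
    Wc.commute_base rfl rfl fun i => by by_cases h : i = 0 <;> simp [h, fn]
  rw [uw, hq, hp j hj jP, hp l hl lP, (hc.pow_left N).eq, mul_inv_cancel_right, ← map_cm]

theorem comm_fin (Γ : Type) [Group Γ] [Finite Γ] : ∃ (Δ : Type) (_ : Group Δ) (_ : Finite Δ)
    (ι : Γ →* Δ) (τ : Δ), Injective ι ∧ ∀ g, ∃ A, ι g = cm A τ := by
  have : NeZero (Nat.card Γ) := ⟨Nat.card_pos.ne'⟩
  let ι : Γ →* Wc (Nat.card Γ) Γ :=
    { toFun := fun g => ⟨fun _ => g, 0⟩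
      map_one' := rfl
      map_mul' := fun a b => by ext <;> simp }
  refine ⟨_, inferInstance, inferInstance, ι, sh 1, fun a b h => congrArg (fun z => z.f 0) h,
    fun g => ⟨⟨fun i => g ^ i.val, 0⟩, ?_⟩⟩
  ext i
  · obtain ⟨i, rfl⟩ : ∃ j, i = j + 1 := ⟨i - 1, by simp⟩
    have : g ^ (i + 1).val = g * g ^ i.val := by
      rw [ZMod.val_add, pow_mod_natCard, ZMod.val_one_eq_one_mod, pow_add, pow_mod_natCard,
        pow_one, pow_mul_comm']
    simp [cm, this, ι]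
  · simp [cm, ι]

theorem triple_fin (I : Type) [Finite I] : ∃ (N l : ℕ) (e : I → ℕ), ∀ (Γ : Type) [Group Γ]
    [Finite Γ] (γ : I → Γ), ∃ (Δ : Type) (_ : Group Δ) (_ : Finite Δ) (ι : Γ →* Δ)
    (b : Fin 3 → Δ), Injective ι ∧ b 0 = 1 ∧
    (∀ i, uw (b 1) (b 2) N (e i) l = ι (γ i)) ∧ ∀ x y z : Fin 3, (x = 0 ∧ y = 1 ∧ z = 2) ∨
      ∀ i, uw (b y * (b x)⁻¹) (b z * (b x)⁻¹) N (e i) l = 1 := by
  obtain ⟨k, ⟨E⟩⟩ := Finite.exists_equiv_fin I
  choose Lp hLp using pw_sp (2 * k + 5 + (2 * k + 5 + (2 * k + 5)))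
  obtain ⟨L, hL⟩ := Finite.exists_le fun j : Fin (k + 2) => Lp j
  refine ⟨2 * L + 1, 1, fun i => E i + 2, fun Γ _ _ γ => ?_⟩
  obtain ⟨Γ1, _, _, ι1, τ1, i1, c1⟩ := comm_fin Γ
  obtain ⟨Γ2, _, _, ι2, τ2, i2, c2⟩ := comm_fin Γ1
  choose A hA using c1
  choose B hB using c2
  let Y : ℤ → Γ2 := fun j => if j = 1 then B τ1 else
    if h : (j - 2).toNat < k then B (A (γ (E.symm ⟨_, h⟩))) else 1
  have hY : ∀ j : ℤ, (k + 1 : ℕ) < j → Y j = 1 := fun j hj => by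
    simp only [Y]
    rw [if_neg (by omega), dif_neg (by omega)]
  obtain ⟨m, m1, m2, m3⟩ : ∃ m, 26 * L + 12 < m ∧ 4 * (k + 1) + 4 < m ∧ 2 ∣ m :=
    ⟨2 * (13 * L + 2 * k + 20), by omega, by omega, by omega⟩
  have : NeZero m := ⟨by omega⟩
  let b : Fin 3 → Wc m Γ2 := ![1, sh 1, ⟨fun i => fn τ2 Y i.val, 3⟩]
  have hb : ∀ x, Sp (2 * k + 5) (b x) := by
    intro x
    fin_cases x
    · exact ⟨fun j h => absurd rfl h, 0, by simp; positivity, by simp [b]⟩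
    · exact ⟨fun j h => absurd rfl h, 1, by simp; omega, by simp [b]⟩
    · refine ⟨fun j h => ⟨j.val, ?_, by simp⟩, 3, by simp; omega, by simp [b]⟩
      have := fn_ne hY h
      rw [Nat.abs_cast]
      omega
  have hn : ∀ x, (b x).n = ((![0, 1, 3] x : ℤ) : ZMod m) := fun x => by
    fin_cases x <;> simp [b]
  refine ⟨_, inferInstance, inferInstance, pt.comp (ι2.comp ι1), b, pt_inj.comp (i2.comp i1), rfl,
    fun i => ?_, fun x y z => ?_⟩
  · have := (E i).2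
    have e1 : Y (((E i : ℕ) + 2 : ℕ) : ℤ) = B (A (γ i)) := by
      simp only [Y]
      rw [if_neg (by omega), dif_pos (by omega)]
      simp
    have e2 : Y ((1 : ℕ) : ℤ) = B τ1 := by simp [Y]
    show uw (sh 1) ⟨fun i => fn τ2 Y i.val, 3⟩ _ ((E i : ℕ) + 2) 1 = pt (ι2 (ι1 (γ i)))
    rw [uw_id' _ _ hY m2 m3 _ _ _ (Nat.succ_pos _) one_pos (by omega) (by omega), e1, e2, ← hB,
      ← hB, ← map_cm, ← hA]
  by_cases h1 : x = 0 ∧ y = 1 ∧ z = 2
  · exact Or.inl h1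
  refine Or.inr fun i => ?_
  by_cases h2 : y = x ∧ z = x
  · obtain ⟨rfl, rfl⟩ := h2
    simp [uw, pw, qw, cm]
  have hd : Sp _ (b y * (b x)⁻¹) := (hb y).mul (hb x).inv
  have he : Sp _ (b z * (b x)⁻¹) := (hb z).mul (hb x).inv
  have := (E i).2
  refine uw_far' ((hLp _ _ _ _ _ hd he).mono (hL ⟨E i + 2, by omega⟩))
    ((hLp _ _ _ _ _ hd he).mono (hL ⟨1, by omega⟩))
    (c := ![0, 1, 3] z - ![0, 1, 3] x - 3 * (![0, 1, 3] y - ![0, 1, 3] x)) ?_ ?_ ?_ m1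
  · simp only [qw, mul_n, inv_n, pow_n, hn]
    push_cast
    ring
  · clear hd he; revert x y z; decide
  · clear hd he; revert x y z; decide

end Pool.Agent.H30.Kuz
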