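import Pool.Agent.H30.KuzDefs

/-! Expressibility of group words on finite groups. -/

namespace Pool.Agent.H30.Kuz

/-- The class of words expressible in the words of the list `Bs` on the group `G`. -/
inductive Cl (G : Type) [Group G] (Bs : List Word) : Word → Prop
  | var (j : ℕ) : Cl G Bs [(j, true)]
  | base {B : Word} : B ∈ Bs → Cl G Bs B
  | subst {W : Word} (U : ℕ → Word) : Cl G Bs W → (∀ p ∈ W, Cl G Bs (U p.1)) →
      Cl G Bs (subst U W)
  | ident {W W' : Word} : Cl G Bs W → (∀ v : ℕ → G, eval v W = eval v W') → Cl G Bs W'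

/-- `A` is expressible in `Bs` on every finite group. -/
def ExprFin (A : Word) (Bs : List Word) : Prop :=
  ∀ (G : Type) [Group G] [Finite G], Cl G Bs A

end Pool.Agent.H30.Kuz
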