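import Pool.Agent.H30.SlB

/-! Finite models and Slobodskoi's theorem. -/

namespace Pool.Agent.H30.Sl

open Pool.Agent.H30.MulM Pool.Agent.H30.NB Function Relation

section
variable {T Z : Type} [DecidableEq T] [CommRing Z] [DecidableEq Z]

def px : Equiv.Perm ((T × Z) × Z) :=
  ((Equiv.refl T).prodCongr (Equiv.addRight 1)).prodCongr (Equiv.refl Z)

def py : Equiv.Perm ((T × Z) × Z) := (Equiv.refl _).prodCongr (Equiv.addRight 1)

def pa (s s' : T) : Equiv.Perm ((T × Z) × Z) :=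
  Equiv.prodCongrLeft fun y => if y = 0 then (Equiv.swap s s').prodCongr (Equiv.refl Z)
    else Equiv.refl _

def pb (s : T) (M : Z) : Equiv.Perm ((T × Z) × Z) where
  toFun p := if p.1.1 = s then ((p.1.1, p.1.2 - M), p.2 + 1) else p
  invFun p := if p.1.1 = s then ((p.1.1, p.1.2 + M), p.2 - 1) else p
  left_inv p := by by_cases h : p.1.1 = s <;> simp [h]; simp [← h]
  right_inv p := by by_cases h : p.1.1 = s <;> simp [h]; simp [← h]

def pc (u u' : T × Z) : Equiv.Perm ((T × Z) × Z) := (Equiv.swap u u').prodCongr (Equiv.refl Z)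

omit [DecidableEq T] [DecidableEq Z] in
theorem px_apply (s : T) (v y : Z) : px ((s, v), y) = ((s, v + 1), y) := rfl
omit [DecidableEq T] [DecidableEq Z] in
theorem py_apply (u : T × Z) (y : Z) : py (u, y) = (u, y + 1) := rfl
theorem pa_apply (s s' q : T) (v y : Z) :
    pa s s' ((q, v), y) = ((if y = 0 then Equiv.swap s s' q else q, v), y) := by
  by_cases h : y = 0 <;> simp [pa, h]
omit [DecidableEq Z] in
theorem pb_apply (s q : T) (M v y : Z) :
    pb s M ((q, v), y) = if q = s then ((q, v - M), y + 1) else ((q, v), y) := rfl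
omit [CommRing Z] in
theorem pc_apply (u u' w : T × Z) (y : Z) : pc u u' (w, y) = (Equiv.swap u u' w, y) := rfl

omit [DecidableEq T] [DecidableEq Z] in
theorem px_pow (n : ℕ) (s : T) (v y : Z) : (px ^ n) ((s, v), y) = ((s, v + n), y) := by
  induction n with
  | zero => simp
  | succ n ih => rw [pow_succ', Equiv.Perm.mul_apply, ih, px_apply]; simp [add_assoc]

theorem pa_px (s s' : T) : Commute (pa (Z := Z) s s') px := by
  show _ * _ = _ * _
  refine Equiv.ext fun ⟨⟨q, v⟩, y⟩ => by simp [pa_apply, px_apply]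

omit [DecidableEq Z] in
theorem pb_px (s : T) (M : Z) : Commute (pb s M) px := by
  show _ * _ = _ * _
  refine Equiv.ext fun ⟨⟨q, v⟩, y⟩ => ?_
  by_cases h : q = s <;> simp [pb_apply, px_apply, h, add_sub_right_comm]

omit [DecidableEq Z] in
theorem pb_py (s : T) (M : Z) : Commute (pb s M) py := by
  show _ * _ = _ * _
  refine Equiv.ext fun ⟨⟨q, v⟩, y⟩ => ?_
  by_cases h : q = s <;> simp [pb_apply, py_apply, h]

theorem pc_py (u u' : T × Z) : Commute (pc u u') py := rfl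

end

theorem model {Q : Type} [Finite Q] {F : Set (Q → ℤ → Prop)} (P : ℕ) (h : Q) {D : Q → ℤ → Prop}
    (hD : D ∈ F) (h0 : ¬ D h 0) {L : ℕ} (hL : 0 < L) (hp : ∀ q v z, D q (v + L * z) ↔ D q v) :
    ∃ (G : Type) (_ : Group G) (_ : Finite G) (k x y : G) (t : Q → G) (r : Good F P → Fin 5 → G),
      Rel (Good F P) h k x y t r ∧ ∀ q (n : ℕ), D q n → ¬ Commute k (cj (x ^ n) (t q)) := by
  classical
  have : Finite (Good F P) := Good.finite F P
  have : NeZero L := ⟨hL.ne'⟩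
  let D' : Q → ZMod L → Prop := fun q v => D q v.val
  have hD' : ∀ q (z : ℤ), D' q z ↔ D q z := fun q z => by
    simp only [D', ZMod.val_intCast]
    rw [← hp q _ (z / L), Int.emod_add_mul_ediv]
  let sd : Good F P × Bool → Q × ℕ × ℕ := fun σ => bif σ.2 then σ.1.1.2 else σ.1.1.1
  let DX : ((Q ⊕ Good F P × Bool) × ZMod L) × ZMod L → Prop := fun p =>
    p.1.1.elim (fun q => D' q p.1.2) fun σ => D' (sd σ).1 (p.1.2 + (sd σ).2.2 * p.2)
  obtain ⟨G, _, _, ρ, T, k, a1, a2, a3⟩ := points _ DX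
  have half : ∀ σ, Half k (ρ px) (ρ py) (T ((.inl (sd σ).1, 0), 0)) (sd σ).2.2
      (ρ (pa (.inl (sd σ).1) (.inr σ))) (ρ (pb (.inr σ) (sd σ).2.2)) := by
    intro σ
    refine ⟨a2 _ ?_, a2 _ ?_, (pa_px _ _).map ρ, (pb_px _ _).map ρ, (pb_py _ _).map ρ, ?_⟩
    · rintro ⟨⟨q, v⟩, y⟩
      rw [pa_apply]
      split_ifs with hy
      · subst hy
        rw [Equiv.swap_apply_def]
        split_ifs with e1 e2
        · simp [DX, e1]
        · simp [DX, e2]
        · rfl
      · rfl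
    · rintro ⟨⟨q, v⟩, y⟩
      rw [pb_apply]
      split_ifs with e
      · simp only [DX, e, Sum.elim_inr]
        rw [show v - ((sd σ).2.2 : ZMod L) + (sd σ).2.2 * (y + 1) = v + (sd σ).2.2 * y by ring]
      · rfl
    · simp [← map_pow, a1, pa_apply, pb_apply, px_pow, py_apply]
  refine ⟨G, inferInstance, inferInstance, k, ρ px, ρ py, fun q => T ((.inl q, 0), 0), fun τ =>
    ![ρ (pa (.inl τ.1.1.1) (.inr (τ, false))), ρ (pb (.inr (τ, false)) τ.1.1.2.2),
      ρ (pa (.inl τ.1.2.1) (.inr (τ, true))), ρ (pb (.inr (τ, true)) τ.1.2.2.2),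
      ρ (pc (.inr (τ, false), τ.1.1.2.1) (.inr (τ, true), τ.1.2.2.1))],
    ⟨Commute.map (x := px) (y := py) rfl ρ, (a3 _).2 fun H => h0 ((hD' h 0).1 (by simpa [DX] using H)), fun τ =>
      ⟨half (τ, false), half (τ, true), a2 _ ?_, (pc_py _ _).map ρ, ?_⟩⟩, fun q n hn H => ?_⟩
  · rintro ⟨u, y⟩
    obtain ⟨y, rfl⟩ := ZMod.intCast_surjective y
    have := τ.2.2.2.2.2 D hD y
    rw [← hD', ← hD'] at this
    push_cast at this
    rw [pc_apply, Equiv.swap_apply_def]
    split_ifs with e1 e2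
    · simpa [DX, e1, sd] using this.symm
    · simpa [DX, e2, sd] using this
    · rfl
  · simp [← map_pow, a1, pa_apply, pc_apply, px_pow]
  · rw [← map_pow, a1, a3, px_pow] at H
    exact H (by simpa [DX] using (hD' q n).2 hn)

/-- Slobodskoi's theorem in the form of recursive inseparability. -/
theorem slobodskoi : ∃ (I : Type) (_ : Finite I) (R : Set (FreeGroup I)) (k x t : I)
    (A B : ℕ → Prop), R.Finite ∧ Insep A B ∧
    (∀ n, A n → tw (.of k) (.of x) (.of t) (2 ^ n) ∈ Subgroup.normalClosure R) ∧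
    ∀ n, B n → ∃ (Γ : Type) (_ : Group Γ) (_ : Finite Γ) (γ : FreeGroup I →* Γ),
      (∀ r ∈ R, γ r = 1) ∧ γ (tw (.of k) (.of x) (.of t) (2 ^ n)) ≠ 1 := by
  obtain ⟨Q, _, h, q0, E, P, A, B, h1, h2, h3, h4⟩ := machine
  set S := Good (Fam E h) (P + 1) with hS
  have : Finite S := Good.finite _ _
  let I := Fin 3 ⊕ Q ⊕ S × Fin 5
  let k : FreeGroup I := .of (.inl 0)
  let x : FreeGroup I := .of (.inl 1)
  let y : FreeGroup I := .of (.inl 2)
  let t : Q → FreeGroup I := fun q => .of (.inr (.inl q))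
  let r : S → Fin 5 → FreeGroup I := fun τ i => .of (.inr (.inr (τ, i)))
  let hf : FreeGroup I → ℕ → FreeGroup I → FreeGroup I → Set (FreeGroup I) := fun t M α β =>
    {cm k α, cm k β, cm α x, cm β x, cm β y, cj (x ^ M) (cj β (cj α t)) * (cj y (cj α t))⁻¹}
  let R : Set (FreeGroup I) := {cm x y, cm k (t h)} ∪ ⋃ τ : S,
    hf (t τ.1.1.1) τ.1.1.2.2 (r τ 0) (r τ 1) ∪ (hf (t τ.1.2.1) τ.1.2.2.2 (r τ 2) (r τ 3) ∪
      {cm k (r τ 4), cm (r τ 4) y, cj (r τ 4) (cj (x ^ τ.1.1.2.1) (cj (r τ 0) (t τ.1.1.1))) *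
        (cj (x ^ τ.1.2.2.1) (cj (r τ 2) (t τ.1.2.1)))⁻¹})
  have hR : ∀ (G : Type) [Group G] (φ : FreeGroup I →* G), (∀ z ∈ R, φ z = 1) ↔
      Rel S h (φ k) (φ x) (φ y) (fun q => φ (t q)) (fun τ i => φ (r τ i)) := by
    intro G _ φ
    have u1 : ∀ (s t : Set (FreeGroup I)) (p : FreeGroup I → Prop), (∀ z ∈ s ∪ t, p z) ↔
        (∀ z ∈ s, p z) ∧ ∀ z ∈ t, p z := fun s t p => by simp [or_imp, forall_and]
    have u2 : ∀ (s : S → Set (FreeGroup I)) (p : FreeGroup I → Prop), (∀ z ∈ ⋃ i, s i, p z) ↔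
        ∀ i, ∀ z ∈ s i, p z := fun s p =>
      ⟨fun H i z hz => H z (Set.mem_iUnion.2 ⟨i, hz⟩), fun H z hz =>
        (Set.mem_iUnion.1 hz).elim fun i hi => H i z hi⟩
    simp only [R, hf, u1, u2, Set.forall_mem_insert,
      Set.mem_singleton_iff, forall_eq, map_cm, cm_eq_one, map_mul, map_inv, map_pow, map_cj,
      mul_inv_eq_one, Rel, Half, and_assoc]
  refine ⟨I, inferInstance, R, .inl 0, .inl 1, .inr (.inl q0), A, B,
    (Set.toFinite _).union (Set.finite_iUnion fun τ => Set.toFinite _), h1, fun n hn => ?_,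
    fun n hn => ?_⟩
  · rw [← QuotientGroup.eq_one_iff]
    obtain ⟨N, hN⟩ := h3 n hn
    have := complete h2 ((hR _ (QuotientGroup.mk' (Subgroup.normalClosure R))).1 fun z hz =>
      (QuotientGroup.eq_one_iff z).2 (Subgroup.subset_normalClosure hz)) hN
    rw [← cm_eq_one] at this
    simpa [tw, cm, cj] using this
  · obtain ⟨C, b, c1, c2, c3⟩ := h4 n hn
    obtain ⟨D, d1, L, d2, d3, d4⟩ := periodic h2 c1 c3
    obtain ⟨G, _, _, k', x', y', t', r', a1, a2⟩ := model (P + 1) h d1 (d1.1 0) d2 d3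
    refine ⟨G, inferInstance, inferInstance, FreeGroup.lift (Sum.elim ![k', x', y']
      (Sum.elim t' fun z => r' z.1 z.2)), (hR _ _).2 (by simpa [k, x, y, t, r] using a1),
      fun H => a2 q0 (2 ^ n) (d4 _ c2) ?_⟩
    simpa [tw, map_cm, cm_eq_one, cj] using H

end Pool.Agent.H30.Sl
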