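import Pool.Agent.H30.KuzB
import Pool.Agent.H30.KuzF
import Pool.Agent.H30.KuzFDefs
import Pool.Agent.H30.SlC

/-! Expressibility of group words on every finite group is undecidable. -/

namespace Pool.Agent.H30.Kuz

open Pool.Agent.H30.NB Pool.Agent.H30.Sl Function

variable {G : Type} [Group G]

theorem Expr.cl {Bs : List Word} {A : Word} (h : Expr G Bs A) : Cl G Bs A := by
  induction h with
  | var j => exact .var j
  | subst W hB _ ih => exact .subst W (.base hB) ih
  | ident _ e ih => exact ih.ident e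

theorem Cl.pres {Bs : List Word} {S : Set G} {s : G} (hs : s ∈ S)
    (h : ∀ B ∈ Bs, ∀ v : ℕ → G, (∀ j, v j ∈ S) → eval v B ∈ S) {A : Word} (hA : Cl G Bs A)
    (v : ℕ → G) (hv : ∀ j, v j ∈ S) : eval v A ∈ S := by
  classical
  induction hA generalizing v with
  | var j => simpa [eval] using hv j
  | base hB => exact h _ hB v hv
  | @subst B W _ _ ih1 ih =>
    rw [eval_subst, eval_congr (v' := fun j => if eval v (W j) ∈ S then eval v (W j) else s)
      fun p hp => by simp [ih p hp v hv]]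
    refine ih1 _ fun j => ?_
    split_ifs with h1
    exacts [h1, hs]
  | ident _ e ih => exact e v ▸ ih v hv

theorem reduction_fin : ∃ (Bs : List Word) (k x t : FreeGroup ℕ) (K K' : ℕ → Prop), Insep K K' ∧
    ∀ n (A : Word), FreeGroup.mk A = .of 1 * tw k x t (2 ^ n) * (FreeGroup.of 1)⁻¹ * .of 0 →
      (K n → ExprFin A Bs) ∧ (K' n → ¬ ExprFin A Bs) := by
  classical
  obtain ⟨I, _, R, k, x, t, K, K', hR, hK, c1, c4⟩ := slobodskoi
  obtain ⟨N, l, e, d0⟩ := triple_fin I
  have := Fintype.ofFinite I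
  let f : FreeGroup I × FreeGroup I → Word := fun p => (op N l e FreeGroup.of p.1 p.2).toWord
  let L : List (FreeGroup I × FreeGroup I) :=
    Finset.univ.toList.map (fun i => (.of i, .of i)) ++
    Finset.univ.toList.map (fun i => ((FreeGroup.of i)⁻¹, (FreeGroup.of i)⁻¹)) ++
    hR.toFinset.toList.map (fun r => (r, 1)) ++ hR.toFinset.toList.map (fun r => (r⁻¹, 1))
  refine ⟨L.map f, beta N l e FreeGroup.of (.of k), beta N l e FreeGroup.of (.of x),
    beta N l e FreeGroup.of (.of t), K, K', hK, fun n A hA => ?_⟩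
  have hA' : FreeGroup.mk A = op N l e FreeGroup.of (tw (.of k) (.of x) (.of t) (2 ^ n)) 1 := by
    simp [hA, op, tw, map_cm]
  refine And.symm ⟨?_, ?_⟩
  · intro hn h
    obtain ⟨Γ, _, _, γ, c2, c3⟩ := c4 n hn
    obtain ⟨Δ, _, _, ι, b, d1, d2, d3, d4⟩ := d0 Γ fun i => γ (.of i)
    have hL : ∀ p ∈ L, p.1 = p.2 ∨ (γ p.1 = 1 ∧ p.2 = 1) := by
      simp only [L, List.mem_append, List.mem_map]
      rintro p (((⟨i, -, rfl⟩ | ⟨i, -, rfl⟩) | ⟨r, hr, rfl⟩) | ⟨r, hr, rfl⟩)
      · exact Or.inl rfl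
      · exact Or.inl rfl
      · exact Or.inr ⟨c2 r (by simpa using hr), rfl⟩
      · exact Or.inr ⟨by simpa using c2 r (by simpa using hr), rfl⟩
    have hb : ∀ v : ℕ → Equiv.Perm (Δ × Δ), ∀ x y z, v 1 = mk (b x) → v 2 = mk (b y) →
        v 3 = mk (b z) → (x = 0 ∧ y = 1 ∧ z = 2 ∧ ∀ g, beta N l e v g = Lt (ι (γ g))) ∨
        (¬ (x = 0 ∧ y = 1 ∧ z = 2) ∧ ∀ g, beta N l e v g = 1) := by
      intro v x y z e1 e2 e3
      by_cases h0 : x = 0 ∧ y = 1 ∧ z = 2
      · obtain ⟨rfl, rfl, rfl⟩ := h0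
        refine Or.inl ⟨rfl, rfl, rfl, fun g => ?_⟩
        have : beta N l e v = Lt.comp (ι.comp γ) := by
          ext i : 1
          simp only [beta, e1, e2, e3, mk_div, d2, inv_one, mul_one, ← map_uw, d3,
            FreeGroup.lift_apply_of, MonoidHom.comp_apply]
        rw [this]; rfl
      · refine Or.inr ⟨h0, fun g => ?_⟩
        have : beta N l e v = 1 := by
          ext i : 1
          simp only [beta, e1, e2, e3, mk_div, ← map_uw, (d4 x y z).resolve_left h0 i, map_one,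
            FreeGroup.lift_apply_of, MonoidHom.one_apply]
        rw [this]; rfl
    have := (h (Equiv.Perm (Δ × Δ))).pres (S := Set.range fun i => mk (b i)) ⟨0, rfl⟩ (by
      intro B hB v hv
      obtain ⟨p, hp, rfl⟩ := List.mem_map.1 hB
      rw [eval_eq, FreeGroup.mk_toWord, lift_op]
      obtain ⟨x, e1⟩ := hv 1
      obtain ⟨y, e2⟩ := hv 2
      obtain ⟨z, e3⟩ := hv 3
      obtain ⟨u, e0⟩ := hv 0
      refine ⟨u, ?_⟩
      rcases hb v x y z e1.symm e2.symm e3.symm with ⟨-, -, -, h1⟩ | ⟨-, h1⟩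
      · rcases hL p hp with h2 | ⟨h2, h3⟩
        · simp only [op, h1, h2, ← e1, ← e0, mk_op]
        · simp [op, h1, h2, h3, ← e0]
      · simp [op, h1, ← e0])
      (fun j => if j = 2 then mk (b 1) else if j = 3 then mk (b 2) else mk (b 0))
      (fun j => by split_ifs <;> exact ⟨_, rfl⟩)
    rw [eval_eq, hA', lift_op] at this
    obtain ⟨u, hu⟩ := this
    rcases hb (fun j => if j = 2 then mk (b 1) else if j = 3 then mk (b 2) else mk (b 0)) 0 1 2
      rfl rfl rfl with ⟨-, -, -, h1⟩ | ⟨h1, -⟩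
    · simp only [op, h1] at hu
      have h2 := congrArg (fun π : Equiv.Perm (Δ × Δ) => (π (1, 1)).2) hu
      refine c3 (d1 ?_)
      simpa [mk_apply, Lt_apply, eq_comm] using h2
    · exact absurd ⟨rfl, rfl, rfl⟩ h1
  · intro h G _ _
    have m : ∀ p ∈ L, f p ∈ L.map f := fun p hp => List.mem_map_of_mem hp
    obtain ⟨w, h1, h2⟩ := complete (G := G) N l e (Bs := L.map f) (R := R)
      (fun i => m (.of i, .of i) (by simp [L]))
      (fun i => m ((FreeGroup.of i)⁻¹, (FreeGroup.of i)⁻¹) (by simp [L]))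
      (fun r hr => m (r, 1) (by simp [L, hr])) (fun r hr => m (r⁻¹, 1) (by simp [L, hr])) (c1 n h)
    exact h1.cl.ident fun v => by rw [eval_eq, eval_eq, h2, hA']

theorem undec_fin : ¬ ComputablePred fun p : Word × List Word => ExprFin p.1 p.2 := by
  obtain ⟨Bs, k, x, t, K, K', hK, H⟩ := reduction_fin
  intro h
  let A : ℕ → Word := fun n => ((1, true) :: k.toWord) ++ rep x.toWord (2 ^ n) ++ t.toWord ++
    rep x⁻¹.toWord (2 ^ n) ++ k⁻¹.toWord ++ rep x.toWord (2 ^ n) ++ t⁻¹.toWord ++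
    rep x⁻¹.toWord (2 ^ n) ++ [(1, false), (0, true)]
  have hA : Primrec A := by
    have a := @Primrec.list_append (ℕ × Bool) _
    exact a.comp (a.comp (a.comp (a.comp (a.comp (a.comp (a.comp (a.comp (Primrec.const _)
      (rep_prim _)) (Primrec.const _)) (rep_prim _)) (Primrec.const _)) (rep_prim _))
      (Primrec.const _)) (rep_prim _)) (Primrec.const _)
  obtain ⟨_, h⟩ := h
  suffices e : ∀ n, FreeGroup.mk (A n) = _ from
    hK (fun n => ExprFin (A n) Bs) ⟨_, h.comp (hA.to_comp.pair (Computable.const Bs))⟩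
      (fun n => (H n (A n) (e n)).1) fun n => (H n (A n) (e n)).2
  intro n
  have e1 : FreeGroup.mk ((1, true) :: k.toWord) = .of 1 * k := by
    rw [← List.singleton_append, ← FreeGroup.mul_mk, FreeGroup.mk_toWord]; rfl
  have e2 : FreeGroup.mk [((1 : ℕ), false), (0, true)] = (FreeGroup.of 1)⁻¹ * .of 0 := rfl
  simp only [A, ← FreeGroup.mul_mk, e1, e2, mk_rep, FreeGroup.mk_toWord, tw, cm]
  group

end Pool.Agent.H30.Kuz
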