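import Pool.Agent.H30.LdDefs

/-! A small formula language with named variables, constants and walks of length `2 ^ n`. -/

namespace Pool.Agent.H30.Ld

open FirstOrder Language Function

inductive Fm (C : Type) : Type
  | adj (s t : ℕ ⊕ C)
  | eq (s t : ℕ ⊕ C)
  | fls
  | imp (φ ψ : Fm C)
  | all (i : ℕ) (φ : Fm C)
  | walk (i j a b : ℕ) (φ : Fm C)

def It {V : Type} (r : V → V → Prop) : ℕ → V → V → Prop
  | 0, x, y => x = y
  | k + 1, x, y => ∃ z, It r k x z ∧ r z y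

theorem It.add {V : Type} {r : V → V → Prop} (a b : ℕ) (x y : V) :
    It r (a + b) x y ↔ ∃ z, It r a x z ∧ It r b z y := by
  induction b generalizing y with
  | zero => simp [It]
  | succ b ih =>
    rw [← add_assoc]
    simp only [It, ih]
    constructor
    · rintro ⟨z, ⟨w, h1, h2⟩, h3⟩; exact ⟨w, h1, z, h2, h3⟩
    · rintro ⟨w, h1, z, h2, h3⟩; exact ⟨z, ⟨w, h1, h2⟩, h3⟩

variable {C V : Type}

def ev (G : SimpleGraph V) (pal : C → V) (n : ℕ) : Fm C → (ℕ → V) → Prop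
  | .adj s t, e => G.Adj (Sum.elim e pal s) (Sum.elim e pal t)
  | .eq s t, e => Sum.elim e pal s = Sum.elim e pal t
  | .fls, _ => False
  | .imp φ ψ, e => ev G pal n φ e → ev G pal n ψ e
  | .all i φ, e => ∀ x, ev G pal n φ (update e i x)
  | .walk i j a b φ, e =>
    It (fun x y => ev G pal n φ (update (update e a x) b y)) (2 ^ n) (e i) (e j)

def dp (n : ℕ) : Fm C → ℕ
  | .adj _ _ => 0
  | .eq _ _ => 0
  | .fls => 0
  | .imp φ ψ => max (dp n φ) (dp n ψ)
  | .all _ φ => dp n φ + 1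
  | .walk _ _ _ _ φ => n + dp n φ

abbrev BF (N : ℕ) := Language.graph.BoundedFormula Empty N

def tv {N : ℕ} (i : Fin N) : Language.graph.Term (Empty ⊕ Fin N) := Term.var (Sum.inr i)

def wk (a b : ℕ) (T : (N : ℕ) → (C → Fin N) → (ℕ → Fin N) → BF N) :
    ℕ → (N : ℕ) → (C → Fin N) → (ℕ → Fin N) → Fin N → Fin N → BF N
  | 0, N, π, ρ, x, y => T N π (update (update ρ a x) b y)
  | d + 1, N, π, ρ, x, y => BoundedFormula.ex
      (wk a b T d (N + 1) (Fin.castSucc ∘ π) (Fin.castSucc ∘ ρ) x.castSucc (Fin.last N) ⊓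
        wk a b T d (N + 1) (Fin.castSucc ∘ π) (Fin.castSucc ∘ ρ) (Fin.last N) y.castSucc)

def tr (n : ℕ) : Fm C → (N : ℕ) → (C → Fin N) → (ℕ → Fin N) → BF N
  | .adj s t, _, π, ρ => Language.adj.boundedFormula₂ (tv (Sum.elim ρ π s)) (tv (Sum.elim ρ π t))
  | .eq s t, _, π, ρ => (tv (Sum.elim ρ π s)).bdEqual (tv (Sum.elim ρ π t))
  | .fls, _, _, _ => .falsum
  | .imp φ ψ, N, π, ρ => .imp (tr n φ N π ρ) (tr n ψ N π ρ)
  | .all i φ, N, π, ρ =>
    .all (tr n φ (N + 1) (Fin.castSucc ∘ π) (update (Fin.castSucc ∘ ρ) i (Fin.last N)))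
  | .walk i j a b φ, N, π, ρ => wk a b (tr n φ) n N π ρ (ρ i) (ρ j)

def Rz (G : SimpleGraph V) {N : ℕ} (φ : BF N) (xs : Fin N → V) : Prop :=
  @BoundedFormula.Realize _ V G.structure _ _ φ default xs

theorem snoc_cs {N : ℕ} {α : Type} (xs : Fin N → V) (x : V) (π : α → Fin N) :
    (Fin.snoc xs x : Fin (N + 1) → V) ∘ (Fin.castSucc ∘ π) = xs ∘ π := by
  funext c; simp

theorem rz_wk (G : SimpleGraph V) (a b : ℕ) (T : (N : ℕ) → (C → Fin N) → (ℕ → Fin N) → BF N)
    (P : (C → V) → (ℕ → V) → Prop)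
    (hT : ∀ N π ρ xs, Rz G (T N π ρ) xs ↔ P (xs ∘ π) (xs ∘ ρ)) (d : ℕ) :
    ∀ N π ρ x y xs, Rz G (wk a b T d N π ρ x y) xs ↔
      It (fun u v => P (xs ∘ π) (update (update (xs ∘ ρ) a u) b v)) (2 ^ d) (xs x) (xs y) := by
  induction d with
  | zero =>
    intro N π ρ x y xs
    simp [wk, hT, It, comp_update]
  | succ d ih =>
    intro N π ρ x y xs
    let _ := G.structure
    rw [pow_succ, mul_two, It.add]
    simp only [wk, Rz, BoundedFormula.realize_ex, BoundedFormula.realize_inf]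
    refine exists_congr fun z => ?_
    have h1 := ih (N + 1) (Fin.castSucc ∘ π) (Fin.castSucc ∘ ρ) x.castSucc (Fin.last N)
      (Fin.snoc xs z)
    have h2 := ih (N + 1) (Fin.castSucc ∘ π) (Fin.castSucc ∘ ρ) (Fin.last N) y.castSucc
      (Fin.snoc xs z)
    rw [snoc_cs, snoc_cs, Fin.snoc_castSucc, Fin.snoc_last] at h1 h2
    exact and_congr h1 h2

theorem rz_tr (G : SimpleGraph V) (n : ℕ) (φ : Fm C) : ∀ N π ρ xs,
    Rz G (tr n φ N π ρ) xs ↔ ev G (xs ∘ π) n φ (xs ∘ ρ) := by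
  let _ := G.structure
  induction φ with
  | adj s t =>
    intro N π ρ xs
    simp only [tr, Rz, BoundedFormula.realize_rel₂, ev]
    cases s <;> cases t <;> rfl
  | eq s t =>
    intro N π ρ xs
    cases s <;> cases t <;> rfl
  | fls => intro N π ρ xs; rfl
  | imp φ ψ ih1 ih2 =>
    intro N π ρ xs
    exact imp_congr (ih1 N π ρ xs) (ih2 N π ρ xs)
  | all i φ ih =>
    intro N π ρ xs
    refine forall_congr' fun x => ?_
    have := ih (N + 1) (Fin.castSucc ∘ π) (update (Fin.castSucc ∘ ρ) i (Fin.last N))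
      (Fin.snoc xs x)
    rw [snoc_cs, comp_update, snoc_cs, Fin.snoc_last] at this
    exact this
  | walk i j a b φ ih =>
    intro N π ρ xs
    exact rz_wk G a b (tr n φ) (fun p e => ev G p n φ e) ih n N π ρ (ρ i) (ρ j) xs

theorem qd_ex {N : ℕ} (φ : BF (N + 1)) : qd φ.ex = qd φ + 1 := by
  change max (max (qd φ) 0 + 1) 0 = _
  simp

theorem qd_inf {N : ℕ} (φ ψ : BF N) : qd (φ ⊓ ψ) = max (qd φ) (qd ψ) := by
  change max (max (qd φ) (max (qd ψ) 0)) 0 = _
  simp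

theorem qd_tr (n : ℕ) (φ : Fm C) : ∀ N π ρ, qd (tr n φ N π ρ) = dp n φ := by
  induction φ with
  | adj s t => intro N π ρ; rfl
  | eq s t => intro N π ρ; rfl
  | fls => intro N π ρ; rfl
  | imp φ ψ ih1 ih2 => intro N π ρ; simp only [tr, qd, dp, ih1, ih2]
  | all i φ ih => intro N π ρ; simp only [tr, qd, dp, ih]
  | walk i j a b φ ih =>
    intro N π ρ
    have : ∀ d N π ρ x y, qd (wk a b (tr n φ) d N π ρ x y) = d + dp n φ := by
      intro d
      induction d with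
      | zero => intro N π ρ x y; simp [wk, ih]
      | succ d ihd => intro N π ρ x y; simp only [wk, qd_ex, qd_inf, ihd]; omega
    exact this _ _ _ _ _ _

theorem qd_exs : ∀ {N : ℕ} (φ : BF N), qd φ.exs = qd φ + N
  | 0, _ => rfl
  | N + 1, φ => by rw [BoundedFormula.exs, qd_exs, qd_ex]; omega

/-- the sentence: there are constants such that `ψ` holds -/
def Phi {m : ℕ} (n : ℕ) (ψ : Fm C) (π : C ≃ Fin m) (c0 : C) : Language.graph.Sentence :=
  (tr n ψ m π fun _ => π c0).exs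

theorem qd_Phi {m : ℕ} (n : ℕ) (ψ : Fm C) (π : C ≃ Fin m) (c0 : C) :
    qd (Phi n ψ π c0) = dp n ψ + m := by
  rw [Phi, qd_exs, qd_tr]

theorem sat_Phi {m : ℕ} (G : SimpleGraph V) (n : ℕ) (ψ : Fm C) (π : C ≃ Fin m) (c0 : C) :
    Sat G (Phi n ψ π c0) ↔ ∃ pal : C → V, ev G pal n ψ fun _ => pal c0 := by
  let _ := G.structure
  rw [Sat, Sentence.Realize, Phi, BoundedFormula.realize_exs]
  constructor
  · rintro ⟨xs, h⟩
    exact ⟨xs ∘ π, (rz_tr G n ψ m π _ xs).1 h⟩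
  · rintro ⟨pal, h⟩
    refine ⟨pal ∘ π.symm, (rz_tr G n ψ m π _ _).2 ?_⟩
    convert h using 1
    · funext c; simp
    · funext c; simp

theorem sat_iso {W : Type} {G : SimpleGraph V} {H : SimpleGraph W} (e : G ≃g H)
    (φ : Language.graph.Sentence) : Sat G φ ↔ Sat H φ := by
  let _ := G.structure
  let _ := H.structure
  let g : Language.Equiv Language.graph V W :=
    { toEquiv := e.toEquiv
      map_fun' := fun f => f.elim
      map_rel' := by
        rintro _ ⟨⟩ x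
        exact e.map_rel_iff }
  exact StrongHomClass.realize_sentence g φ

/-! derived connectives -/

namespace Fm
def nt (φ : Fm C) : Fm C := .imp φ .fls
def an (φ ψ : Fm C) : Fm C := nt (.imp φ (nt ψ))
def orr (φ ψ : Fm C) : Fm C := .imp (nt φ) ψ
def iff (φ ψ : Fm C) : Fm C := an (.imp φ ψ) (.imp ψ φ)
def ex (i : ℕ) (φ : Fm C) : Fm C := nt (.all i (nt φ))
def cj {α : Type} (l : List α) (f : α → Fm C) : Fm C := l.foldr (fun a ψ => an (f a) ψ) (nt .fls)
def dj {α : Type} (l : List α) (f : α → Fm C) : Fm C := l.foldr (fun a ψ => orr (f a) ψ) .fls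
end Fm

section
variable (G : SimpleGraph V) (pal : C → V) (n : ℕ) (φ ψ : Fm C) (e : ℕ → V)

@[simp] theorem ev_imp : ev G pal n (.imp φ ψ) e ↔ (ev G pal n φ e → ev G pal n ψ e) := Iff.rfl
@[simp] theorem ev_all (i) : ev G pal n (.all i φ) e ↔ ∀ x, ev G pal n φ (update e i x) := Iff.rfl
@[simp] theorem ev_nt : ev G pal n φ.nt e ↔ ¬ ev G pal n φ e := Iff.rfl
@[simp] theorem ev_an : ev G pal n (φ.an ψ) e ↔ ev G pal n φ e ∧ ev G pal n ψ e := by
  simp [Fm.an]
@[simp] theorem ev_orr : ev G pal n (φ.orr ψ) e ↔ ev G pal n φ e ∨ ev G pal n ψ e := by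
  simp [Fm.orr, or_iff_not_imp_left]
@[simp] theorem ev_iff : ev G pal n (φ.iff ψ) e ↔ (ev G pal n φ e ↔ ev G pal n ψ e) := by
  simp [Fm.iff, iff_iff_implies_and_implies]
@[simp] theorem ev_ex (i) : ev G pal n (.ex i φ) e ↔ ∃ x, ev G pal n φ (update e i x) := by
  simp [Fm.ex]
@[simp] theorem ev_cj {α : Type} (l : List α) (f : α → Fm C) :
    ev G pal n (.cj l f) e ↔ ∀ a ∈ l, ev G pal n (f a) e := by
  induction l with
  | nil => simp [Fm.cj, ev]
  | cons a l ih => simp only [Fm.cj, List.foldr_cons, ev_an] at ih ⊢; simp [ih]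
@[simp] theorem ev_dj {α : Type} (l : List α) (f : α → Fm C) :
    ev G pal n (.dj l f) e ↔ ∃ a ∈ l, ev G pal n (f a) e := by
  induction l with
  | nil => simp [Fm.dj, ev]
  | cons a l ih => simp only [Fm.dj, List.foldr_cons, ev_orr] at ih ⊢; simp [ih]

@[simp] theorem dp_imp : dp n (.imp φ ψ) = max (dp n φ) (dp n ψ) := rfl
@[simp] theorem dp_all (i) : dp n (.all i φ) = dp n φ + 1 := rfl
@[simp] theorem dp_nt : dp n φ.nt = dp n φ := by simp [Fm.nt, dp]
@[simp] theorem dp_an : dp n (φ.an ψ) = max (dp n φ) (dp n ψ) := by simp [Fm.an]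
@[simp] theorem dp_orr : dp n (φ.orr ψ) = max (dp n φ) (dp n ψ) := by simp [Fm.orr]
@[simp] theorem dp_iff : dp n (φ.iff ψ) = max (dp n φ) (dp n ψ) := by simp [Fm.iff, max_comm]
@[simp] theorem dp_ex (i) : dp n (.ex i φ) = dp n φ + 1 := by simp [Fm.ex]
theorem dp_cj {α : Type} (l : List α) (f : α → Fm C) (d : ℕ) (h : ∀ a, dp n (f a) ≤ d) :
    dp n (.cj l f) ≤ d := by
  induction l with
  | nil => simp [Fm.cj, dp]
  | cons a l ih => simp only [Fm.cj, List.foldr_cons, dp_an] at ih ⊢; exact max_le (h a) ih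
theorem dp_dj {α : Type} (l : List α) (f : α → Fm C) (d : ℕ) (h : ∀ a, dp n (f a) ≤ d) :
    dp n (.dj l f) ≤ d := by
  induction l with
  | nil => simp [Fm.dj, dp]
  | cons a l ih => simp only [Fm.dj, List.foldr_cons, dp_orr] at ih ⊢; exact max_le (h a) ih
end

/-- every finite nonempty graph has a defining sentence -/
theorem exists_defines {N : ℕ} (G : SimpleGraph (Fin N)) (c0 : Fin N) :
    ∃ φ, Defines φ G := by
  classical
  let L := List.finRange N
  let ψ : Fm (Fin N) := Fm.an (.cj L fun a => .cj L fun b =>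
      Fm.an (if G.Adj a b then .adj (.inr a) (.inr b) else (Fm.adj (.inr a) (.inr b)).nt)
        (if a = b then Fm.fls.nt else (Fm.eq (.inr a) (.inr b)).nt))
    (.all 0 (.dj L fun a => .eq (.inl 0) (.inr a)))
  have key : ∀ (W : Type) (H : SimpleGraph W) (pal : Fin N → W) e, ev H pal 0 ψ e ↔
      (∀ a b, (H.Adj (pal a) (pal b) ↔ G.Adj a b) ∧ (pal a = pal b → a = b)) ∧
        ∀ x, ∃ a, x = pal a := by
    intro W H pal e
    simp only [ψ, L, ev_an, ev_cj, ev_all, ev_dj, List.mem_finRange, true_and, forall_true_left]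
    refine and_congr (forall₂_congr fun a b => and_congr ?_ ?_) (by simp [ev])
    · split_ifs with h <;> simp [h, ev]
    · split_ifs with h <;> simp [h, ev]
  refine ⟨Phi 0 ψ (Equiv.refl _) c0, ?_, fun m H h => ?_⟩
  · rw [sat_Phi]
    exact ⟨id, (key _ _ _ _).2 ⟨fun a b => ⟨Iff.rfl, id⟩, fun x => ⟨x, rfl⟩⟩⟩
  · rw [sat_Phi] at h
    obtain ⟨pal, h⟩ := h
    obtain ⟨h1, h2⟩ := (key _ _ _ _).1 h
    exact ⟨RelIso.symm ⟨Equiv.ofBijective pal ⟨fun a b => (h1 a b).2,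
      fun x => (h2 x).imp fun _ => Eq.symm⟩, (h1 _ _).1⟩⟩

end Pool.Agent.H30.Ld
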