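import Pool.Agent.H30.LdA

/-! Model checking on coded graphs is primitive recursive; the abstract reduction. -/

namespace Pool.Agent.H30.Ld

open FirstOrder Language Function

variable {C : Type}

def aN (N e i j : ℕ) : Prop :=
  i ≠ j ∧ (e / 2 ^ (i * N + j) % 2 = 1 ∨ e / 2 ^ (j * N + i) % 2 = 1)

def gr (N e : ℕ) : SimpleGraph (Fin N) where
  Adj i j := aN N e i j
  symm := ⟨fun _ _ h => ⟨h.1.symm, h.2.symm⟩⟩
  loopless := ⟨fun _ h => h.1 rfl⟩

def ItN (N : ℕ) (r : ℕ → ℕ → Prop) : ℕ → ℕ → ℕ → Prop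
  | 0, x, y => x = y
  | k + 1, x, y => ∃ z < N, ItN N r k x z ∧ r z y

def evN (N e : ℕ) (pal : C → ℕ) (n : ℕ) : Fm C → (ℕ → ℕ) → Prop
  | .adj s t, v => aN N e (Sum.elim v pal s) (Sum.elim v pal t)
  | .eq s t, v => Sum.elim v pal s = Sum.elim v pal t
  | .fls, _ => False
  | .imp φ ψ, v => evN N e pal n φ v → evN N e pal n ψ v
  | .all i φ, v => ∀ x < N, evN N e pal n φ (update v i x)
  | .walk i j a b φ, v =>
    ItN N (fun x y => evN N e pal n φ (update (update v a x) b y)) (2 ^ n) (v i) (v j)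

theorem itN_iff {N : ℕ} {r : ℕ → ℕ → Prop} {s : Fin N → Fin N → Prop}
    (h : ∀ x y : Fin N, r x y ↔ s x y) (k : ℕ) (x y : Fin N) : ItN N r k x y ↔ It s k x y := by
  induction k generalizing y with
  | zero => exact Fin.val_inj
  | succ k ih =>
    constructor
    · rintro ⟨z, hz, h1, h2⟩
      exact ⟨⟨z, hz⟩, (ih ⟨z, hz⟩).1 h1, (h ⟨z, hz⟩ y).1 h2⟩
    · rintro ⟨z, h1, h2⟩
      exact ⟨z, z.2, (ih z).2 h1, (h z y).2 h2⟩

theorem evN_iff (N e : ℕ) (pal : C → Fin N) (n : ℕ) (φ : Fm C) : ∀ v : ℕ → Fin N,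
    evN N e (Fin.val ∘ pal) n φ (Fin.val ∘ v) ↔ ev (gr N e) pal n φ v := by
  induction φ with
  | adj s t => intro v; cases s <;> cases t <;> rfl
  | eq s t => intro v; cases s <;> cases t <;> exact Fin.val_inj
  | fls => intro v; rfl
  | imp φ ψ ih1 ih2 => intro v; exact imp_congr (ih1 v) (ih2 v)
  | all i φ ih =>
    intro v
    simp only [evN, ev, ← ih, comp_update]
    exact ⟨fun h x => h x x.2, fun h x hx => h ⟨x, hx⟩⟩
  | walk i j a b φ ih =>
    intro v
    exact itN_iff (fun x y => by simp only [← ih, comp_update]) _ (v i) (v j)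

theorem pr_pow : Primrec₂ ((· ^ ·) : ℕ → ℕ → ℕ) := Primrec₂.unpaired'.1 Nat.Primrec.pow

theorem pr_aN {α : Type} [Primcodable α] {N e i j : α → ℕ} (hN : Primrec N) (he : Primrec e)
    (hi : Primrec i) (hj : Primrec j) : PrimrecPred fun a => aN (N a) (e a) (i a) (j a) := by
  have k : ∀ {i j : α → ℕ}, Primrec i → Primrec j →
      PrimrecPred fun a => e a / 2 ^ (i a * N a + j a) % 2 = 1 := fun hi hj =>
    Primrec.eq.comp (Primrec.nat_mod.comp (Primrec.nat_div.comp he (pr_pow.comp (.const 2)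
      (Primrec.nat_add.comp (Primrec.nat_mul.comp hi hN) hj))) (.const 2)) (.const 1)
  exact (Primrec.eq.comp hi hj).not.and ((k hi hj).or (k hj hi))

theorem pr_all {α : Type} [Primcodable α] {N : α → ℕ} (hN : Primrec N) {P : α → ℕ → Prop}
    (hP : PrimrecPred fun q : α × ℕ => P q.1 q.2) : PrimrecPred fun a => ∀ x < N a, P a x :=
  (PrimrecRel.comp (PrimrecRel.forall_mem_list (R := fun (x : ℕ) (a : α) => P a x)
    (hP.comp (Primrec.snd.pair Primrec.fst))) (Primrec.list_range.comp hN) Primrec.id).of_eq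
    fun a => by simp

theorem pr_upd {α : Type} [Primcodable α] {v : α → ℕ → ℕ} (hv : ∀ i, Primrec fun a => v a i)
    {x : α → ℕ} (hx : Primrec x) (i j : ℕ) : Primrec fun a => update (v a) i (x a) j := by
  by_cases h : j = i
  · subst h; simpa using hx
  · simpa [h] using hv j

theorem pr_itN {α : Type} [Primcodable α] {N k x y : α → ℕ} (hN : Primrec N) (hk : Primrec k)
    (hx : Primrec x) (hy : Primrec y) {r : α → ℕ → ℕ → Prop}
    (hr : PrimrecPred fun q : (α × ℕ) × ℕ => r q.1.1 q.1.2 q.2) :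
    PrimrecPred fun a => ItN (N a) (r a) (k a + 1) (x a) (y a) := by
  classical
  let F : α → List ℕ := fun a => Nat.rec (motive := fun _ => List ℕ) [x a]
    (fun _ L => (List.range (N a)).filter fun w => ∃ z ∈ L, z < N a ∧ r a z w) (k a)
  have h0 : PrimrecRel fun (L : List ℕ) (q : α × ℕ) => ∃ z ∈ L, z < N q.1 ∧ r q.1 z q.2 :=
    PrimrecRel.exists_mem_list (R := fun z (q : α × ℕ) => z < N q.1 ∧ r q.1 z q.2)
      ((Primrec.nat_lt.comp Primrec.fst (hN.comp (Primrec.fst.comp Primrec.snd))).and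
        (hr.comp (((Primrec.fst.comp Primrec.snd).pair Primrec.fst).pair
          (Primrec.snd.comp Primrec.snd))))
  have hF : Primrec F := by
    refine Primrec.nat_rec' hk (Primrec.list_cons.comp hx (.const [])) (h := fun a q =>
      (List.range (N a)).filter fun w => ∃ z ∈ q.2, z < N a ∧ r a z w) ?_
    have h1 : PrimrecRel fun (w : ℕ) (q : α × ℕ × List ℕ) => ∃ z ∈ q.2.2, z < N q.1 ∧ r q.1 z w :=
      h0.comp (Primrec.snd.comp (Primrec.snd.comp Primrec.snd))
        ((Primrec.fst.comp Primrec.snd).pair Primrec.fst)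
    exact (PrimrecRel.listFilter h1).comp (Primrec.list_range.comp (hN.comp Primrec.fst))
      Primrec.id
  refine (h0.comp hF (Primrec.id.pair hy)).of_eq fun a => ?_
  have : ∀ m z, z < N a → (z ∈ Nat.rec (motive := fun _ => List ℕ) [x a]
      (fun _ L => (List.range (N a)).filter fun w => ∃ z ∈ L, z < N a ∧ r a z w) m ↔
      ItN (N a) (r a) m (x a) z) := by
    intro m
    induction m with
    | zero => intro z _; simp [ItN, eq_comm]
    | succ m ih =>
      intro z hz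
      simp only [List.mem_filter, List.mem_range, hz, true_and, decide_eq_true_eq, ItN]
      exact exists_congr fun w => ⟨fun h => ⟨h.2.1, (ih w h.2.1).1 h.1, h.2.2⟩,
        fun h => ⟨(ih w h.1).2 h.2.1, h.1, h.2.2⟩⟩
  exact exists_congr fun w => ⟨fun h => ⟨h.2.1, (this _ w h.2.1).1 h.1, h.2.2⟩,
    fun h => ⟨(this _ w h.1).2 h.2.1, h.1, h.2.2⟩⟩

theorem pr_evN (φ : Fm C) : ∀ {α : Type} [Primcodable α] {N e n : α → ℕ} {pal : α → C → ℕ}
    {v : α → ℕ → ℕ}, Primrec N → Primrec e → Primrec n → (∀ c, Primrec fun a => pal a c) →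
    (∀ i, Primrec fun a => v a i) →
    PrimrecPred fun a => evN (N a) (e a) (pal a) (n a) φ (v a) := by
  induction φ with
  | adj s t =>
    intro α _ N e n pal v hN he _ hp hv
    refine pr_aN hN he ?_ ?_
    · cases s; exacts [hv _, hp _]
    · cases t; exacts [hv _, hp _]
  | eq s t =>
    intro α _ N e n pal v hN he _ hp hv
    refine Primrec.eq.comp (f := fun a => Sum.elim (v a) (pal a) s)
      (g := fun a => Sum.elim (v a) (pal a) t) ?_ ?_
    · cases s; exacts [hv _, hp _]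
    · cases t; exacts [hv _, hp _]
  | fls =>
    intro α _ N e n pal v _ _ _ _ _
    exact (Primrec.eq.comp (Primrec.const 0) (Primrec.const 1)).of_eq fun _ => by simp [evN]
  | imp φ ψ ih1 ih2 =>
    intro α _ N e n pal v hN he hn hp hv
    exact ((ih1 hN he hn hp hv).not.or (ih2 hN he hn hp hv)).of_eq fun _ =>
      imp_iff_not_or.symm
  | all i φ ih =>
    intro α _ N e n pal v hN he hn hp hv
    exact pr_all hN (ih (hN.comp .fst) (he.comp .fst) (hn.comp .fst) (fun c => (hp c).comp .fst)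
      (pr_upd (fun c => (hv c).comp .fst) .snd i))
  | walk i j a b φ ih =>
    intro α _ N e n pal v hN he hn hp hv
    have hf : Primrec fun q : (α × ℕ) × ℕ => q.1.1 := Primrec.fst.comp .fst
    refine (pr_itN (k := fun a => 2 ^ n a - 1) hN
      (Primrec.nat_sub.comp (pr_pow.comp (.const 2) hn) (.const 1)) (hv i) (hv j)
      (r := fun x u w => evN (N x) (e x) (pal x) (n x) φ (update (update (v x) a u) b w))
      (ih (hN.comp hf) (he.comp hf) (hn.comp hf) (fun c => (hp c).comp hf)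
        (pr_upd (pr_upd (fun c => (hv c).comp hf) (Primrec.snd.comp .fst) a) .snd b))).of_eq
      fun x => ?_
    rw [Nat.sub_add_cancel Nat.one_le_two_pow]
    rfl

theorem gr_surj {N : ℕ} (G : SimpleGraph (Fin N)) : ∃ e < 2 ^ (N * N), gr N e = G := by
  classical
  let f : Fin (N * N) → Fin 2 := fun b =>
    if G.Adj (finProdFinEquiv.symm b).1 (finProdFinEquiv.symm b).2 then 1 else 0
  have key : ∀ i j : Fin N, (finFunctionFinEquiv f : ℕ) / 2 ^ (i * N + j) % 2 = 1 ↔ G.Adj i j := by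
    intro i j
    have := finFunctionFinEquiv_symm_apply_val (finFunctionFinEquiv f) (finProdFinEquiv (i, j))
    rw [Equiv.symm_apply_apply, finProdFinEquiv_apply_val] at this
    rw [show (i : ℕ) * N + j = j + N * i by ring, ← this]
    simp only [f, Equiv.symm_apply_apply]
    split_ifs with h <;> simp [h]
  refine ⟨finFunctionFinEquiv f, (finFunctionFinEquiv f).2, ?_⟩
  ext i j
  change aN _ _ _ _ ↔ _
  rw [aN, key, key]
  exact ⟨fun h => h.2.elim id G.adj_symm, fun h => ⟨fun e => h.ne (Fin.ext e), Or.inl h⟩⟩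

def Md {V : Type} (ψ : Fm C) (c0 : C) (n : ℕ) (G : SimpleGraph V) : Prop :=
  ∃ pal : C → V, ev G pal n ψ fun _ => pal c0

def MdN {m : ℕ} (ψ : Fm C) (π : C ≃ Fin m) (c0 : C) (n N e : ℕ) : Prop :=
  ∃ w < N ^ m, evN N e (fun c => w / N ^ (π c : ℕ) % N) n ψ fun _ => w / N ^ (π c0 : ℕ) % N

theorem mdN_iff {m : ℕ} (ψ : Fm C) (π : C ≃ Fin m) (c0 : C) (n N e : ℕ) :
    MdN ψ π c0 n N e ↔ Md ψ c0 n (gr N e) := by
  constructor
  · rintro ⟨w, hw, h⟩
    refine ⟨fun c => finFunctionFinEquiv.symm ⟨w, hw⟩ (π c), (evN_iff _ _ _ _ _ _).1 ?_⟩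
    convert h using 1 <;> funext c <;> exact finFunctionFinEquiv_symm_apply_val _ _
  · rintro ⟨pal, h⟩
    have key : ∀ c, (finFunctionFinEquiv (pal ∘ π.symm) : ℕ) / N ^ (π c : ℕ) % N = pal c := by
      intro c
      rw [← finFunctionFinEquiv_symm_apply_val, Equiv.symm_apply_apply]
      simp
    refine ⟨finFunctionFinEquiv (pal ∘ π.symm), (finFunctionFinEquiv _).2, ?_⟩
    simp only [key]
    exact (evN_iff _ _ _ _ _ _).2 h

theorem pr_mdN {m : ℕ} (ψ : Fm C) (π : C ≃ Fin m) (c0 : C) {α : Type} [Primcodable α]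
    {n N e : α → ℕ} (hn : Primrec n) (hN : Primrec N) (he : Primrec e) :
    PrimrecPred fun a => MdN ψ π c0 (n a) (N a) (e a) := by
  have k : ∀ c : C, Primrec fun q : α × ℕ => q.2 / N q.1 ^ (π c : ℕ) % N q.1 := fun c =>
    Primrec.nat_mod.comp (Primrec.nat_div.comp .snd (pr_pow.comp (hN.comp .fst) (.const _)))
      (hN.comp .fst)
  have := pr_all (N := fun a => N a ^ m) (pr_pow.comp hN (.const m))
    (P := fun a w => ¬ evN (N a) (e a) (fun c => w / N a ^ (π c : ℕ) % N a) (n a) ψ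
      fun _ => w / N a ^ (π c0 : ℕ) % N a)
    (pr_evN ψ (hN.comp .fst) (he.comp .fst) (hn.comp .fst) k fun _ => k c0).not
  exact this.not.of_eq fun a => by simp [MdN]

open Classical in
noncomputable def mat (N e : ℕ) : List (List Bool) :=
  (List.range N).map fun i => (List.range N).map fun j => decide (aN N e i j)

theorem pr_mat : Primrec₂ mat := by
  classical
  have h1 : Primrec₂ fun (q : (ℕ × ℕ) × ℕ) (j : ℕ) => decide (aN q.1.1 q.1.2 q.2 j) :=
    (pr_aN (α := ((ℕ × ℕ) × ℕ) × ℕ) (Primrec.fst.comp (Primrec.fst.comp .fst))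
      (Primrec.snd.comp (Primrec.fst.comp .fst)) (Primrec.snd.comp .fst) .snd).decide
  exact Primrec.list_map (Primrec.list_range.comp .fst)
    (Primrec.list_map (Primrec.list_range.comp (Primrec.fst.comp .fst)) h1).to₂

open Classical in
theorem adjM_gr (N e : ℕ) : adjM (gr N e) = mat N e := by
  apply List.ext_getElem
  · simp [adjM, mat]
  · intro i h1 h2
    apply List.ext_getElem
    · simp [adjM, mat]
    · intro j h3 h4
      simp only [adjM, mat, List.getElem_ofFn, List.getElem_map, List.getElem_range]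
      rfl

theorem dp_le (φ : Fm C) : ∃ K, ∀ n, dp n φ ≤ K * n + K := by
  induction φ with
  | adj => exact ⟨0, fun _ => by simp [dp]⟩
  | eq => exact ⟨0, fun _ => by simp [dp]⟩
  | fls => exact ⟨0, fun _ => by simp [dp]⟩
  | imp φ ψ ih1 ih2 =>
    obtain ⟨a, ha⟩ := ih1
    obtain ⟨b, hb⟩ := ih2
    exact ⟨a + b, fun n => max_le (by have := ha n; nlinarith) (by have := hb n; nlinarith)⟩
  | all i φ ih =>
    obtain ⟨a, ha⟩ := ih
    exact ⟨a + 1, fun n => by have := ha n; rw [dp]; nlinarith⟩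
  | walk _ _ _ _ φ ih =>
    obtain ⟨a, ha⟩ := ih
    exact ⟨a + 1, fun n => by have := ha n; rw [dp]; nlinarith⟩

theorem reduction [Finite C] (c0 : C) (ψ : Fm C) (K : ℕ) (hK : ∀ n, dp n ψ ≤ K * n + K)
    (Hlt : ℕ → Prop) (g : ℕ → ℕ) (hg : Primrec g) (hre : ¬ REPred fun a => ¬ Hlt a)
    (hmain : ∀ a, ∃ (W : Type) (_ : Finite W) (G : SimpleGraph W), Md ψ c0 (g a) G ∧
      (∀ (N : ℕ) (X : SimpleGraph (Fin N)), Md ψ c0 (g a) X →
        ∃ E : G ↪g X, ¬ Hlt a → Surjective E) ∧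
      (Hlt a → ∃ (W' : Type) (_ : Finite W') (G' : SimpleGraph W'), Nat.card W < Nat.card W' ∧
        ∀ φ, qd φ ≤ K * g a + K + Nat.card C → Sat G φ → Sat G' φ)) :
    ¬ ∃ f : List (List Bool) → ℕ, Computable f ∧
      ∀ (n : ℕ) (G : SimpleGraph (Fin n)) [DecidableRel G.Adj], f (adjM G) = depth G := by
  classical
  rintro ⟨f, hf, hD⟩
  let π := Finite.equivFin C
  let P : ℕ → ℕ × ℕ → Prop := fun a q => MdN ψ π c0 (g a) q.1 q.2 ∧
    ∀ N < q.1, ∀ e < 2 ^ (N * N), ¬ MdN ψ π c0 (g a) N e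
  have hP : PrimrecPred fun q : ℕ × ℕ × ℕ => P q.1 q.2 := by
    refine (pr_mdN ψ π c0 (hg.comp .fst) (Primrec.fst.comp .snd) (Primrec.snd.comp .snd)).and
      (pr_all (Primrec.fst.comp .snd) (pr_all (pr_pow.comp (.const 2)
        (Primrec.nat_mul.comp .snd .snd)) ?_))
    exact (pr_mdN ψ π c0 (hg.comp (Primrec.fst.comp (Primrec.fst.comp .fst)))
      (Primrec.snd.comp .fst) .snd).not
  let D : ℕ → ℕ → Bool := fun a s => decide (P a s.unpair) &&
    decide (f (mat s.unpair.1 s.unpair.2) ≤ K * g a + K + Nat.card C)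
  have hDc : Computable₂ D := by
    refine Primrec.and.to_comp.comp (hP.decide.comp (Primrec.fst.pair
      (Primrec.unpair.comp .snd))).to_comp ?_
    refine Primrec.nat_le.decide.to_comp.comp (hf.comp (pr_mat.comp
      (Primrec.fst.comp (Primrec.unpair.comp .snd))
      (Primrec.snd.comp (Primrec.unpair.comp .snd))).to_comp) ?_
    exact (Primrec.nat_add.comp (Primrec.nat_add.comp (Primrec.nat_mul.comp (.const K)
      (hg.comp .fst)) (.const K))
      (.const _)).to_comp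
  refine hre ((Partrec.rfind (p := fun a s => Part.some (D a s)) hDc.partrec₂).dom_re.of_eq
    fun a => ?_)
  rw [Nat.rfind_dom]
  simp only [Part.mem_some_iff, Part.some_dom, implies_true, and_true, D, eq_comm (a := true),
    Bool.and_eq_true, decide_eq_true_eq]
  obtain ⟨W, _, G, hG, hE, hH⟩ := hmain a
  have fin : ∀ (V : Type) [Finite V] (X : SimpleGraph V), ∃ e < 2 ^ (Nat.card V * Nat.card V),
      Nonempty (gr (Nat.card V) e ≃g X) := fun V _ X => by
    obtain ⟨e, he, h⟩ := gr_surj (X.comap (Finite.equivFin V).symm)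
    exact ⟨e, he, ⟨h ▸ SimpleGraph.Iso.comap (Finite.equivFin V).symm X⟩⟩
  have md : ∀ {V : Type} (X : SimpleGraph V), Md ψ c0 (g a) X ↔ Sat X (Phi (g a) ψ π c0) :=
    fun X => (sat_Phi X _ ψ π c0).symm
  obtain ⟨e0, he0, ⟨i0⟩⟩ := fin W G
  have h0 : MdN ψ π c0 (g a) (Nat.card W) e0 := by rw [mdN_iff, md, sat_iso i0, ← md]; exact hG
  constructor
  · rintro ⟨s, ⟨h1, h2⟩, h3⟩ hh
    rw [mdN_iff] at h1
    obtain ⟨W', _, G', hc, hG'⟩ := hH hh
    obtain ⟨E, -⟩ := hE _ _ h1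
    have hle : s.unpair.1 ≤ Nat.card W := not_lt.1 fun h => h2 _ h _ he0 h0
    have hb : Bijective E := (Nat.bijective_iff_injective_and_card E).2 ⟨E.injective,
      le_antisymm (Nat.card_le_card_of_injective E E.injective) (by simpa using hle)⟩
    let i1 : G ≃g gr s.unpair.1 s.unpair.2 := ⟨Equiv.ofBijective E hb, E.map_rel_iff⟩
    obtain ⟨pal, -⟩ := h1
    obtain ⟨φ0, hφ0⟩ := exists_defines (gr s.unpair.1 s.unpair.2) (pal c0)
    obtain ⟨φ, hφ, hq⟩ := Nat.sInf_mem (s := {d | ∃ φ, Defines φ (gr s.unpair.1 s.unpair.2) ∧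
      qd φ = d}) ⟨_, φ0, hφ0, rfl⟩
    rw [← adjM_gr, hD] at h3
    obtain ⟨e1, -, ⟨i2⟩⟩ := fin W' G'
    obtain ⟨i3⟩ := hφ.2 _ _ ((sat_iso i2 φ).2 (hG' φ (hq.trans_le h3) ((sat_iso i1 φ).2 hφ.1)))
    have := Nat.card_congr (i3.trans i1.symm).toEquiv
    simp only [Nat.card_eq_fintype_card, Fintype.card_fin] at this
    omega
  · intro hh
    have iso : ∀ (N : ℕ) (X : SimpleGraph (Fin N)), Md ψ c0 (g a) X → Nonempty (G ≃g X) :=
      fun N X hX => by
        obtain ⟨E, h⟩ := hE N X hX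
        exact ⟨⟨Equiv.ofBijective E ⟨E.injective, h hh⟩, E.map_rel_iff⟩⟩
    refine ⟨Nat.pair (Nat.card W) e0, ?_⟩
    rw [Nat.unpair_pair]
    refine ⟨⟨h0, fun N hN e _ h => ?_⟩, ?_⟩
    · obtain ⟨i⟩ := iso _ _ ((mdN_iff _ _ _ _ _ _).1 h)
      have := Nat.card_congr i.toEquiv
      simp only [Nat.card_eq_fintype_card, Fintype.card_fin] at this
      omega
    · rw [← adjM_gr, hD]
      refine (Nat.sInf_le (s := {d | ∃ φ, Defines φ (gr (Nat.card W) e0) ∧ qd φ = d})
        ⟨Phi (g a) ψ π c0, ⟨(md _).1 ((mdN_iff _ _ _ _ _ _).1 h0),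
        fun N X hX => ?_⟩, rfl⟩).trans ?_
      · obtain ⟨i⟩ := iso N X ((md _).2 hX)
        exact ⟨i.symm.trans i0.symm⟩
      · rw [qd_Phi]
        have := hK (g a)
        omega

end Pool.Agent.H30.Ld
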