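import Pool.Agent.H30.LdA

/-! A Hanf type locality lemma with a rigid core. -/

namespace Pool.Agent.H30.Ld

open FirstOrder Language Function

variable {V : Type}

/-- graph with palette vertices `Pl` and core `K` -/
structure Cx (V : Type) where
  G : SimpleGraph V
  Pl : V → Prop
  K : V → Prop
  pk : ∀ x, Pl x → K x

namespace Cx
variable (c : Cx V)

def E (x y : V) : Prop := c.G.Adj x y ∧ ¬ c.Pl x ∧ ¬ c.Pl y

theorem E.symm {c : Cx V} {x y : V} (h : c.E x y) : c.E y x := ⟨h.1.symm, h.2.2, h.2.1⟩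

def Bl (Z : V → Prop) : ℕ → V → Prop
  | 0, x => Z x
  | t + 1, x => Bl Z t x ∨ ∃ y, Bl Z t y ∧ c.E y x

variable {c}

theorem Bl.le {Z : V → Prop} {s t : ℕ} {x : V} (h : c.Bl Z s x) (hst : s ≤ t) : c.Bl Z t x := by
  induction hst with
  | refl => exact h
  | step _ ih => exact Or.inl ih

theorem Bl.trans {Z Y : V → Prop} {s t : ℕ} (hY : ∀ y, Y y → c.Bl Z s y) :
    ∀ {x}, c.Bl Y t x → c.Bl Z (s + t) x := by
  induction t with
  | zero => exact fun h => hY _ h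
  | succ t ih =>
    rintro x (h | ⟨y, h1, h2⟩)
    exacts [Or.inl (ih h), Or.inr ⟨y, ih h1, h2⟩]

theorem Bl.back {Z : V → Prop} {y : V} {t : ℕ} :
    ∀ {s x}, c.Bl (· = y) t x → c.Bl Z s x → c.Bl Z (s + t) y := by
  induction t with
  | zero => rintro s x rfl h; exact h
  | succ t ih =>
    rintro s x (h | ⟨z, h1, h2⟩) h'
    · exact Or.inl (ih h h')
    · exact (ih (s := s + 1) h1 (Or.inr ⟨x, h', h2.symm⟩)).le (by omega)

def PI (c : Cx V) (F : V → V → Prop) : Prop :=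
  ∀ a b a' b', F a b → F a' b' → (a = a' ↔ b = b') ∧ (c.G.Adj a a' ↔ c.G.Adj b b')

theorem PI.flip {F : V → V → Prop} (h : c.PI F) : c.PI (flip F) := fun _ _ _ _ h1 h2 =>
  ⟨(h _ _ _ _ h1 h2).1.symm, (h _ _ _ _ h1 h2).2.symm⟩

/-- position of the game: `L`, `R` are the marked points on the two sides -/
structure St (c : Cx V) (F : V → V → Prop) (L R : V → Prop) (r : ℕ) : Prop where
  pi : c.PI F
  k : ∀ z, c.K z → F z z
  lr : ∀ z, L z → ∃ w, R w ∧ F z w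
  rl : ∀ w, R w → ∃ z, L z ∧ F z w
  tl : ∀ z, c.Bl (fun x => c.K x ∨ L x) r z → ∃ w, F z w
  tr : ∀ w, c.Bl (fun x => c.K x ∨ R x) r w → ∃ z, F z w

theorem St.flip {F : V → V → Prop} {L R : V → Prop} {r : ℕ} (h : c.St F L R r) :
    c.St (flip F) R L r := ⟨h.pi.flip, h.k, h.rl, h.lr, h.tr, h.tl⟩

theorem St.pl {F : V → V → Prop} {L R : V → Prop} {r : ℕ} (h : c.St F L R r) {a b : V}
    (hab : F a b) : (c.Pl a → a = b) ∧ (c.Pl b → a = b) :=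
  ⟨fun ha => (h.pi _ _ _ _ (h.k a (c.pk a ha)) hab).1.1 rfl,
    fun hb => (h.pi _ _ _ _ hab (h.k b (c.pk b hb))).1.2 rfl⟩

theorem St.lift {F : V → V → Prop} {L R : V → Prop} {r : ℕ} (h : c.St F L R r) {t : ℕ}
    (ht : t ≤ r) : ∀ {z w}, F z w → c.Bl (fun x => c.K x ∨ R x) t w →
      c.Bl (fun x => c.K x ∨ L x) t z := by
  induction t with
  | zero =>
    rintro z w hF (hw | hw)
    · exact Or.inl ((h.pi _ _ _ _ hF (h.k w hw)).1.2 rfl ▸ hw)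
    · obtain ⟨z', h1, h2⟩ := h.rl w hw
      exact Or.inr ((h.pi _ _ _ _ hF h2).1.2 rfl ▸ h1)
  | succ t ih =>
    rintro z w hF (hw | ⟨w', h1, h2⟩)
    · exact Or.inl (ih (by omega) hF hw)
    · obtain ⟨z', h3⟩ := h.tr w' (h1.le (by omega))
      refine Or.inr ⟨z', ih (by omega) h3 h1, (h.pi _ _ _ _ h3 hF).2.2 h2.1, fun hp => ?_,
        fun hp => ?_⟩
      · exact h2.2.1 ((h.pl h3).1 hp ▸ hp)
      · exact h2.2.2 ((h.pl hF).1 hp ▸ hp)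

theorem St.near {F : V → V → Prop} {L R : V → Prop} {r : ℕ} (h : c.St F L R (3 * r + 1))
    {z w : V} (hF : F z w) (hw : c.Bl (fun x => c.K x ∨ R x) (2 * r + 1) w) :
    c.St F (fun x => L x ∨ x = z) (fun x => R x ∨ x = w) r := by
  have hz := h.lift (by omega) hF hw
  refine ⟨h.pi, h.k, ?_, ?_, fun x hx => h.tl x ((Bl.trans (s := 2 * r + 1) ?_ hx).le (by omega)),
    fun x hx => h.tr x ((Bl.trans (s := 2 * r + 1) ?_ hx).le (by omega))⟩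
  · rintro x (hx | rfl)
    · obtain ⟨y, h1, h2⟩ := h.lr x hx; exact ⟨y, Or.inl h1, h2⟩
    · exact ⟨w, Or.inr rfl, hF⟩
  · rintro x (hx | rfl)
    · obtain ⟨y, h1, h2⟩ := h.rl x hx; exact ⟨y, Or.inl h1, h2⟩
    · exact ⟨z, Or.inr rfl, hF⟩
  · rintro y (hy | hy | rfl)
    exacts [Bl.le (s := 0) (Or.inl hy) (by omega), Bl.le (s := 0) (Or.inr hy) (by omega), hz]
  · rintro y (hy | hy | rfl)
    exacts [Bl.le (s := 0) (Or.inl hy) (by omega), Bl.le (s := 0) (Or.inr hy) (by omega), hw]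

/-- a local isomorphism between the balls around `z` and `w` -/
structure Lc (c : Cx V) (F : V → V → Prop) (z w : V) (r : ℕ) : Prop where
  pi : c.PI F
  zw : F z w
  pl : ∀ a b, F a b → ¬ c.Pl a ∧ ¬ c.Pl b ∧ ∀ p, c.Pl p → (c.G.Adj p a ↔ c.G.Adj p b)
  tl : ∀ x, c.Bl (· = z) r x → ∃ y, c.Bl (· = w) r y ∧ F x y
  tr : ∀ y, c.Bl (· = w) r y → ∃ x, c.Bl (· = z) r x ∧ F x y

theorem Lc.flip {F : V → V → Prop} {z w : V} {r : ℕ} (h : c.Lc F z w r) :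
    c.Lc (flip F) w z r := ⟨h.pi.flip, h.zw, fun a b hab =>
  ⟨(h.pl b a hab).2.1, (h.pl b a hab).1, fun p hp => ((h.pl b a hab).2.2 p hp).symm⟩, h.tr, h.tl⟩

theorem bl_or {Z Y : V → Prop} {t : ℕ} :
    ∀ {x}, c.Bl (fun x => Z x ∨ Y x) t x → c.Bl Z t x ∨ c.Bl Y t x := by
  induction t with
  | zero => exact id
  | succ t ih =>
    rintro x (h | ⟨y, h1, h2⟩)
    · exact (ih h).imp Or.inl Or.inl
    · exact (ih h1).imp (fun h => Or.inr ⟨y, h, h2⟩) fun h => Or.inr ⟨y, h, h2⟩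

theorem St.far {F F1 : V → V → Prop} {L R : V → Prop} {r : ℕ} (h : c.St F L R (3 * r + 1))
    {z w : V} (h1 : c.Lc F1 z w r) (hz : ¬ c.Bl (fun x => c.K x ∨ L x) (2 * r + 1) z)
    (hw : ¬ c.Bl (fun x => c.K x ∨ R x) (2 * r + 1) w) :
    c.St (fun a b => (F a b ∧ c.Bl (fun x => c.K x ∨ L x) r a ∧ c.Bl (fun x => c.K x ∨ R x) r b) ∨
      (F1 a b ∧ c.Bl (· = z) r a ∧ c.Bl (· = w) r b))
      (fun x => L x ∨ x = z) (fun x => R x ∨ x = w) r := by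
  have sep : ∀ {Z : V → Prop} {z a a' : V}, ¬ c.Bl Z (2 * r + 1) z → c.Bl Z r a →
      c.Bl (· = z) r a' → a ≠ a' ∧ ¬ c.E a a' := by
    intro Z z a a' hz ha ha'
    refine ⟨?_, fun e => hz ((Bl.back (s := r + 1) ha' (Or.inr ⟨a, ha, e⟩)).le (by omega))⟩
    rintro rfl
    exact hz ((Bl.back ha' ha).le (by omega))
  have cross : ∀ a b a' b', (F a b ∧ c.Bl (fun x => c.K x ∨ L x) r a ∧
      c.Bl (fun x => c.K x ∨ R x) r b) → (F1 a' b' ∧ c.Bl (· = z) r a' ∧ c.Bl (· = w) r b') →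
      (a = a' ↔ b = b') ∧ (c.G.Adj a a' ↔ c.G.Adj b b') := by
    rintro a b a' b' ⟨f, ba, bb⟩ ⟨f', ba', bb'⟩
    obtain ⟨s1, s2⟩ := sep hz ba ba'
    obtain ⟨s3, s4⟩ := sep hw bb bb'
    obtain ⟨p1, p2, p3⟩ := h1.pl _ _ f'
    refine ⟨by simp [s1, s3], ?_⟩
    by_cases hp : c.Pl a
    · obtain rfl := (h.pl f).1 hp
      exact p3 a hp
    · have hp' : ¬ c.Pl b := fun hb => hp ((h.pl f).2 hb ▸ hb)
      exact ⟨fun e => (s2 ⟨e, hp, p1⟩).elim, fun e => (s4 ⟨e, hp', p2⟩).elim⟩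
  have z0 : ∀ {Z : V → Prop} {x}, Z x → c.Bl Z r x := fun h => Bl.le (s := 0) h (by omega)
  have as : ∀ {Z : V → Prop} {z x : V}, c.Bl (fun x => c.K x ∨ (Z x ∨ x = z)) r x →
      c.Bl (fun x => c.K x ∨ Z x) r x ∨ c.Bl (· = z) r x := fun hx =>
    bl_or (by simpa only [or_assoc] using hx)
  refine ⟨?_, fun x hx => Or.inl ⟨h.k x hx, z0 (Or.inl hx), z0 (Or.inl hx)⟩, ?_, ?_, ?_, ?_⟩
  · rintro a b a' b' (f | f) (f' | f')
    · exact h.pi _ _ _ _ f.1 f'.1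
    · exact cross _ _ _ _ f f'
    · have := cross _ _ _ _ f' f
      exact ⟨by rw [eq_comm, this.1, eq_comm], by rw [c.G.adj_comm, this.2, c.G.adj_comm]⟩
    · exact h1.pi _ _ _ _ f.1 f'.1
  · rintro x (hx | rfl)
    · obtain ⟨y, h2, h3⟩ := h.lr x hx
      exact ⟨y, Or.inl h2, Or.inl ⟨h3, z0 (Or.inr hx), z0 (Or.inr h2)⟩⟩
    · exact ⟨w, Or.inr rfl, Or.inr ⟨h1.zw, z0 rfl, z0 rfl⟩⟩
  · rintro x (hx | rfl)
    · obtain ⟨y, h2, h3⟩ := h.rl x hx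
      exact ⟨y, Or.inl h2, Or.inl ⟨h3, z0 (Or.inr h2), z0 (Or.inr hx)⟩⟩
    · exact ⟨z, Or.inr rfl, Or.inr ⟨h1.zw, z0 rfl, z0 rfl⟩⟩
  · intro x hx
    rcases as hx with hx | hx
    · obtain ⟨y, hy⟩ := h.tl x (hx.le (by omega))
      exact ⟨y, Or.inl ⟨hy, hx, h.flip.lift (by omega) hy hx⟩⟩
    · obtain ⟨y, h2, h3⟩ := h1.tl x hx
      exact ⟨y, Or.inr ⟨h3, hx, h2⟩⟩
  · intro x hx
    rcases as hx with hx | hx
    · obtain ⟨y, hy⟩ := h.tr x (hx.le (by omega))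
      exact ⟨y, Or.inl ⟨hy, h.lift (by omega) hy hx, hx⟩⟩
    · obtain ⟨y, h2, h3⟩ := h1.tr x hx
      exact ⟨y, Or.inr ⟨h3, h2, hx⟩⟩

/-- zig-zag relations give local isomorphisms -/
theorem lc_of {F : V → V → Prop} {z w : V} {r : ℕ} (hpi : c.PI F) (hzw : F z w)
    (hpl : ∀ a b, F a b → ¬ c.Pl a ∧ ¬ c.Pl b ∧ ∀ p, c.Pl p → (c.G.Adj p a ↔ c.G.Adj p b))
    (zig : ∀ a b a', F a b → c.E a a' → ¬ c.K a' → ∃ b', F a' b')
    (zag : ∀ a b b', F a b → c.E b b' → ∃ a', c.E a a' ∧ (¬ c.K a' → F a' b'))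
    (hz : ¬ c.Bl c.K r z) : c.Lc F z w r := by
  have nk : ∀ {t a}, t ≤ r → c.Bl (· = z) t a → ¬ c.K a := fun ht ha hk =>
    hz ((Bl.back (s := 0) ha hk).le (by omega))
  have key : ∀ t ≤ r, (∀ x, c.Bl (· = z) t x → ∃ y, c.Bl (· = w) t y ∧ F x y) ∧
      ∀ y, c.Bl (· = w) t y → ∃ x, c.Bl (· = z) t x ∧ F x y := by
    intro t ht
    induction t with
    | zero => exact ⟨by rintro x rfl; exact ⟨w, rfl, hzw⟩, by rintro x rfl; exact ⟨z, rfl, hzw⟩⟩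
    | succ t ih =>
      obtain ⟨i1, i2⟩ := ih (by omega)
      constructor
      · rintro x (hx | ⟨a, h1, h2⟩)
        · obtain ⟨y, h1, h2⟩ := i1 x hx; exact ⟨y, Or.inl h1, h2⟩
        · obtain ⟨b, h3, h4⟩ := i1 a h1
          obtain ⟨b', h5⟩ := zig a b x h4 h2 (nk ht (Or.inr ⟨a, h1, h2⟩))
          exact ⟨b', Or.inr ⟨b, h3, (hpi _ _ _ _ h4 h5).2.1 h2.1, (hpl _ _ h4).2.1,
            (hpl _ _ h5).2.1⟩, h5⟩
      · rintro y (hy | ⟨b, h1, h2⟩)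
        · obtain ⟨x, h1, h2⟩ := i2 y hy; exact ⟨x, Or.inl h1, h2⟩
        · obtain ⟨a, h3, h4⟩ := i2 b h1
          obtain ⟨a', h5, h6⟩ := zag a b y h4 h2
          exact ⟨a', Or.inr ⟨a, h3, h5⟩, h6 (nk ht (Or.inr ⟨a, h3, h5⟩))⟩
  exact ⟨hpi, hzw, hpl, (key r le_rfl).1, (key r le_rfl).2⟩

end Cx

def rr : ℕ → ℕ
  | 0 => 0
  | j + 1 => 3 * rr j + 1

theorem rr_lt (j : ℕ) : 2 * rr j + 1 ≤ 4 ^ j := by
  induction j with
  | zero => simp [rr]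
  | succ j ih => rw [rr, pow_succ]; omega

open Cx in
theorem hanf {W I : Type} (c : Cx V) (A : SimpleGraph W) (ι : W → V) (hι : Injective ι)
    (hA : ∀ a b, A.Adj a b ↔ c.G.Adj (ι a) (ι b)) (hK : ∀ x, c.K x → x ∈ Set.range ι)
    (hS : ∀ x y, c.E x y → x ∈ Set.range ι → y ∈ Set.range ι) (π : V → I)
    (hπ : ∀ x y, c.E x y → ¬ c.K x → ¬ c.K y → π x = π y) (k : ℕ)
    (H : ∀ j < k, ∀ x, ¬ c.Bl c.K (2 * rr j + 1) x → ∀ J : Finset I, J.card ≤ k →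
      ∃ y ∈ Set.range ι, π y ∉ J ∧ ¬ c.Bl c.K (2 * rr j + 1) y ∧ ∃ F, c.Lc F y x (rr j))
    (φ : Language.graph.Sentence) (hφ : qd φ ≤ k) : Sat A φ ↔ Sat c.G φ := by
  classical
  have bS : ∀ {Z : V → Prop} {t x}, (∀ z, Z z → z ∈ Set.range ι) → c.Bl Z t x →
      x ∈ Set.range ι := by
    intro Z t x hZ
    induction t generalizing x with
    | zero => exact hZ x
    | succ t ih => rintro (h | ⟨y, h1, h2⟩); exacts [ih h, hS _ _ h2 (ih h1)]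
  have bπ : ∀ {Z : V → Prop} {t y}, c.Bl (fun x => c.K x ∨ Z x) t y →
      c.Bl c.K t y ∨ ∃ z, Z z ∧ π z = π y ∧ ¬ c.K y := by
    intro Z t
    induction t with
    | zero =>
      rintro y (h | h)
      · exact Or.inl h
      · by_cases hy : c.K y
        exacts [Or.inl hy, Or.inr ⟨y, h, rfl, hy⟩]
    | succ t ih =>
      rintro y (h | ⟨x, h1, h2⟩)
      · exact (ih h).imp Or.inl id
      · rcases ih h1 with h | ⟨z, h3, h4, h5⟩
        · exact Or.inl (Or.inr ⟨x, h, h2⟩)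
        · by_cases hy : c.K y
          · exact Or.inl (Bl.le (s := 0) hy (by omega))
          · exact Or.inr ⟨z, h3, h4.trans (hπ _ _ h2 h5 hy), hy⟩
  have fresh : ∀ j < k, ∀ {N} (zs : Fin N → V), N ≤ k → ∀ {Z : V → Prop} x,
      ¬ c.Bl (fun x => c.K x ∨ Z x) (2 * rr j + 1) x → ∃ y ∈ Set.range ι,
        ¬ c.Bl (fun x => c.K x ∨ ∃ i, zs i = x) (2 * rr j + 1) y ∧ ∃ F, c.Lc F y x (rr j) := by
    intro j hj N zs hN Z x hx
    obtain ⟨y, h1, h2, h3, h4⟩ := H j hj x (fun h => hx (by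
      simpa using Bl.trans (s := 0) (Z := fun x => c.K x ∨ Z x) (fun _ => Or.inl) h))
      (Finset.univ.image (π ∘ zs)) (Finset.card_image_le.trans (by simpa using hN))
    refine ⟨y, h1, fun h => ?_, h4⟩
    rcases bπ h with h | ⟨_, ⟨i, rfl⟩, h5, -⟩
    · exact h3 h
    · exact h2 (Finset.mem_image.2 ⟨i, Finset.mem_univ _, h5⟩)
  let P : (j N : ℕ) → (Fin N → W) → (Fin N → V) → Prop := fun j N xs ys => ∃ F,
    c.St F (fun x => ∃ i, ι (xs i) = x) (fun x => ∃ i, ys i = x) (rr j) ∧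
      (∀ i, F (ι (xs i)) (ys i)) ∧ ∀ a b, F a b → a ∈ Set.range ι
  have ext : ∀ j N (xs : Fin N → W) (ys : Fin N → V) F a b,
      c.St F (fun x => (∃ i, ι (xs i) = x) ∨ x = ι a) (fun x => (∃ i, ys i = x) ∨ x = b) (rr j) →
      (∀ i, F (ι (xs i)) (ys i)) → F (ι a) b → (∀ a b, F a b → a ∈ Set.range ι) →
      P j (N + 1) (Fin.snoc xs a) (Fin.snoc ys b) := by
    intro j N xs ys F a b h1 h2 h3 h4
    refine ⟨F, ?_, fun i => by refine Fin.lastCases ?_ (fun i => ?_) i <;> simp [h2, h3], h4⟩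
    convert h1 using 2 <;> simp [Fin.exists_fin_succ', eq_comm]
  have step : ∀ j N xs ys, N + j + 1 ≤ k → P (j + 1) N xs ys →
      (∀ a, ∃ b, P j (N + 1) (Fin.snoc xs a) (Fin.snoc ys b)) ∧
      ∀ b, ∃ a, P j (N + 1) (Fin.snoc xs a) (Fin.snoc ys b) := by
    rintro j N xs ys hk ⟨F, h1, h2, h3⟩
    have z0 : ∀ {Z : V → Prop} {x}, Z x → c.Bl Z (rr j) x := fun h => Bl.le (s := 0) h (by omega)
    have far : ∀ a b F1, c.Lc F1 (ι a) b (rr j) →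
        ¬ c.Bl (fun x => c.K x ∨ ∃ i, ι (xs i) = x) (2 * rr j + 1) (ι a) →
        ¬ c.Bl (fun x => c.K x ∨ ∃ i, ys i = x) (2 * rr j + 1) b →
        P j (N + 1) (Fin.snoc xs a) (Fin.snoc ys b) := by
      intro a b F1 g1 g2 g3
      refine ext j N xs ys _ a b (St.far h1 g1 g2 g3) (fun i => Or.inl ⟨h2 i, z0 (Or.inr ⟨i, rfl⟩),
        z0 (Or.inr ⟨i, rfl⟩)⟩) (Or.inr ⟨g1.zw, z0 rfl, z0 rfl⟩) ?_
      rintro x y (h | h)
      · exact h3 _ _ h.1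
      · exact bS (by rintro _ rfl; exact ⟨a, rfl⟩) h.2.1
    constructor
    · intro a
      by_cases ha : c.Bl (fun x => c.K x ∨ ∃ i, ι (xs i) = x) (2 * rr j + 1) (ι a)
      · obtain ⟨b, hb⟩ := h1.tl _ (ha.le (by rw [rr]; omega))
        exact ⟨b, ext j N xs ys F a b (St.near h1.flip hb ha).flip h2 hb h3⟩
      · obtain ⟨b, -, g1, F1, g2⟩ := fresh j (by omega) ys (by omega) _ ha
        exact ⟨b, far a b _ g2.flip ha g1⟩
    · intro b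
      by_cases hb : c.Bl (fun x => c.K x ∨ ∃ i, ys i = x) (2 * rr j + 1) b
      · obtain ⟨z, hz⟩ := h1.tr _ (hb.le (by rw [rr]; omega))
        obtain ⟨a, rfl⟩ := h3 _ _ hz
        exact ⟨a, ext j N xs ys F a b (St.near h1 hz hb) h2 hz h3⟩
      · obtain ⟨_, ⟨a, rfl⟩, g1, F1, g2⟩ := fresh j (by omega) (ι ∘ xs) (by omega) _ hb
        exact ⟨a, far a b _ g2 g1 hb⟩
  have main : ∀ {N} (φ : BF N) j xs ys, qd φ ≤ j → N + j ≤ k → P j N xs ys →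
      (Rz A φ xs ↔ Rz c.G φ ys) := by
    intro N φ
    have tm : ∀ {N} (t : Language.graph.Term (Empty ⊕ Fin N)), ∃ i, t = tv i := by
      rintro N ((e | i) | f)
      exacts [e.elim, ⟨i, rfl⟩, f.elim]
    induction φ with
    | falsum => intro j xs ys _ _ _; rfl
    | equal s t =>
      rintro j xs ys _ _ ⟨F, h1, h2, -⟩
      obtain ⟨a, rfl⟩ := tm s
      obtain ⟨b, rfl⟩ := tm t
      exact hι.eq_iff.symm.trans (h1.pi _ _ _ _ (h2 a) (h2 b)).1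
    | rel R ts =>
      rintro j xs ys _ _ ⟨F, h1, h2, -⟩
      cases R
      obtain ⟨a, ha⟩ := tm (ts 0)
      obtain ⟨b, hb⟩ := tm (ts 1)
      change A.Adj _ _ ↔ c.G.Adj _ _
      simp only [ha, hb]
      exact (hA _ _).trans (h1.pi _ _ _ _ (h2 a) (h2 b)).2
    | imp φ ψ ih1 ih2 =>
      intro j xs ys h1 h2 h3
      exact imp_congr (ih1 j xs ys ((le_max_left _ _).trans h1) h2 h3)
        (ih2 j xs ys ((le_max_right _ _).trans h1) h2 h3)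
    | all φ ih =>
      intro j xs ys h1 h2 h3
      obtain _ | j := j
      · simp [qd] at h1
      obtain ⟨s1, s2⟩ := step j _ xs ys h2 h3
      have h4 : qd φ ≤ j := by simpa [qd] using h1
      constructor
      · intro h b
        obtain ⟨a, ha⟩ := s2 b
        exact (ih j _ _ h4 (by omega) ha).1 (h a)
      · intro h a
        obtain ⟨b, hb⟩ := s1 a
        exact (ih j _ _ h4 (by omega) hb).2 (h b)
  have bK : ∀ {Z : V → Prop} {x}, (∀ z, ¬ Z z) → c.Bl (fun x => c.K x ∨ Z x) (rr k) x →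
      x ∈ Set.range ι := fun hZ => bS fun z hz => hK z (hz.resolve_right (hZ z))
  refine main φ k default default hφ (by simp) ⟨fun a b => a = b ∧ a ∈ Set.range ι, ⟨?_,
    fun z hz => ⟨rfl, hK z hz⟩, fun _ ⟨i, _⟩ => i.elim0, fun _ ⟨i, _⟩ => i.elim0,
    fun z hz => ⟨z, rfl, bK (fun _ ⟨i, _⟩ => i.elim0) hz⟩,
    fun z hz => ⟨z, rfl, bK (fun _ ⟨i, _⟩ => i.elim0) hz⟩⟩, fun i => i.elim0, fun _ _ h => h.2⟩
  rintro a b a' b' ⟨rfl, -⟩ ⟨rfl, -⟩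
  exact ⟨Iff.rfl, Iff.rfl⟩

end Pool.Agent.H30.Ld
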