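import Pool.Agent.H30.MulM

/-! Counter machines, and their computations written on cyclic binary pyramids. -/

namespace Pool.Agent.H30.Ld

open Pool.Agent.H38.CM Pool.Agent.H30.MulM Function

structure Mc where
  Q : Type
  fin : Finite Q
  kr : Q → ℕ × ℕ
  nx : Q → Bool → Q
  h : Q
  q0 : Q
  hk : kr h = (2, 0)
  hn : ∀ b, nx h b = h

def br (k : ℕ × ℕ) (v : ℕ → ℕ) : Bool := decide (k.1 = 1 → v k.2 ≠ 0)

def up (k : ℕ × ℕ) (v : ℕ → ℕ) : ℕ → ℕ :=
  if k.1 = 0 then update v k.2 (v k.2 + 1) else if k.1 = 1 then update v k.2 (v k.2 - 1) else v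

def Mc.stp (M : Mc) (c : M.Q × (ℕ → ℕ)) : M.Q × (ℕ → ℕ) :=
  (M.nx c.1 (br (M.kr c.1) c.2), up (M.kr c.1) c.2)

def Mc.Halts (M : Mc) (x : ℕ) : Prop := ∃ t, (M.stp^[t] (M.q0, init x)).1 = M.h

def wkr : (w : W) → St w → ℕ × ℕ
  | .inc r, _ => (0, r)
  | .skip, _ => (2, 0)
  | .seq a _, .inl s => wkr a s
  | .seq _ b, .inr s => wkr b s
  | .loop r _, none => (1, r)
  | .loop _ b, some s => wkr b s

def wnx : (w : W) → St w → Bool → Option (St w)
  | .inc _, _, _ => none
  | .skip, _, _ => none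
  | .seq a b, .inl s, x => jmp .inl (some (.inr (entry b))) (wnx a s x)
  | .seq _ b, .inr s, x => jmp .inr none (wnx b s x)
  | .loop _ b, none, true => some (some (entry b))
  | .loop _ _, none, false => none
  | .loop _ b, some s, x => jmp some (some none) (wnx b s x)

def wM (w : W) : Mc where
  Q := Option (St w)
  fin := by have := St.finite w; infer_instance
  kr := fun q => q.elim (2, 0) (wkr w)
  nx := fun q b => q.elim none fun s => wnx w s b
  h := none
  q0 := some (entry w)
  hk := rfl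
  hn := fun _ => rfl

def WS (w : W) (c d : Option (St w) × (ℕ → ℕ)) : Prop := c.1 ≠ none ∧ d = (wM w).stp c

open Relation in
theorem wlift {a w : W} (f : St a → St w) (e : Option (St w))
    (h1 : ∀ s, wkr w (f s) = wkr a s) (h2 : ∀ s x, wnx w (f s) x = jmp f e (wnx a s x))
    {c d : Option (St a) × (ℕ → ℕ)} (h : ReflTransGen (WS a) c d) :
    ReflTransGen (WS w) (jmp f e c.1, c.2) (jmp f e d.1, d.2) := by
  induction h with
  | refl => exact .refl
  | @tail b c _ hs ih =>
    obtain ⟨_ | s, v⟩ := b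
    · exact (hs.1 rfl).elim
    · refine ih.tail ⟨by simp [jmp], ?_⟩
      rw [hs.2]
      simp [Mc.stp, wM, jmp, h1, h2]

open Relation in
theorem wrun {w : W} {v v' : ℕ → ℕ} (h : Ev w v v') :
    ReflTransGen (WS w) (some (entry w), v) (none, v') := by
  induction h with
  | inc r v => exact .single ⟨by simp, rfl⟩
  | skip v => exact .single ⟨by simp, rfl⟩
  | @seq a b _ _ _ _ _ ih1 ih2 =>
    exact (wlift (w := .seq a b) .inl (some (.inr (entry b))) (fun _ => rfl) (fun _ _ => rfl)
      ih1).trans (wlift (w := .seq a b) .inr none (fun _ => rfl) (fun _ _ => rfl) ih2)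
  | @l0 r b v h0 =>
    refine .single ⟨by simp, ?_⟩
    simp [Mc.stp, wM, entry, wkr, br, up, h0, wnx]
  | @l1 r b v u w n h0 _ _ ih1 ih2 =>
    refine ReflTransGen.head (b := (some (some (entry b)), update v r n)) ⟨by simp, ?_⟩
      ((wlift (w := .loop r b) some (some none) (fun _ => rfl) (fun _ _ => rfl) ih1).trans ih2)
    simp [Mc.stp, wM, entry, wkr, br, up, h0, wnx]
    rfl

theorem wK : ∀ (w : W) (s : St w) {v v' : ℕ → ℕ},
    K' w (wnx w s (br (wkr w s) v)) (up (wkr w s) v) v' → K w s v v'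
  | .inc r, _, v, _, h => by cases h; exact Ev.inc _ _
  | .skip, _, v, _, h => by cases h; exact Ev.skip _
  | .seq a c, .inl s, v, v', h => by
    have := fun u => wK a s (v := v) (v' := u)
    simp only [wnx, wkr] at h
    rcases e : wnx a s (br (wkr a s) v) with _ | t <;> rw [e] at h this
    · exact ⟨_, this _ rfl, K_entry c h⟩
    · obtain ⟨u, h1, h2⟩ := h
      exact ⟨u, this u h1, h2⟩
  | .seq a c, .inr s, v, v', h => by
    have := wK c s (v := v) (v' := v')
    simp only [wnx, wkr] at h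
    rcases e : wnx c s (br (wkr c s) v) with _ | t <;> rw [e] at h this <;> exact this h
  | .loop r c, none, v, v', h => by
    rcases e : v r with _ | n
    · simp only [wkr, br, up, e] at h
      obtain rfl : v' = update v r 0 := by simpa [wnx, K'] using h
      rw [← e, update_eq_self]
      exact Ev.l0 e
    · simp only [wkr, br, up, e] at h
      obtain ⟨u, h1, h2⟩ : ∃ u, K c (entry c) (update v r n) u ∧ Ev (.loop r c) u v' := by
        simpa [wnx, K', K] using h
      exact Ev.l1 e (K_entry c h1) h2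
  | .loop r c, some s, v, v', h => by
    have := fun u => wK c s (v := v) (v' := u)
    simp only [wnx, wkr] at h
    rcases e : wnx c s (br (wkr c s) v) with _ | t <;> rw [e] at h this
    · exact ⟨_, this _ rfl, h⟩
    · obtain ⟨u, h1, h2⟩ := h
      exact ⟨u, this u h1, h2⟩

theorem halts_iff (w : W) (x : ℕ) : (wM w).Halts x ↔ ∃ u, Ev w (init x) u := by
  constructor
  · rintro ⟨t, ht⟩
    have key : ∀ t (c : Option (St w) × (ℕ → ℕ)), ((wM w).stp^[t] c).1 = none →
        ∃ u, K' w c.1 c.2 u := by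
      intro t
      induction t with
      | zero => rintro ⟨q, v⟩ rfl; exact ⟨v, rfl⟩
      | succ t ih =>
        rintro ⟨_ | s, v⟩ h
        · exact ⟨v, rfl⟩
        · obtain ⟨u, hu⟩ := ih _ h
          exact ⟨u, wK w s hu⟩
    obtain ⟨u, hu⟩ := key t _ ht
    exact ⟨u, K_entry w hu⟩
  · rintro ⟨u, hu⟩
    have key : ∀ c d, Relation.ReflTransGen (WS w) c d → ∃ t, (wM w).stp^[t] c = d := by
      intro c d h
      induction h with
      | refl => exact ⟨0, rfl⟩
      | tail _ hs ih =>
        obtain ⟨t, rfl⟩ := ih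
        exact ⟨t + 1, by rw [iterate_succ_apply', hs.2]⟩
    obtain ⟨t, ht⟩ := key _ _ (wrun hu)
    exact ⟨t, congrArg Prod.fst ht⟩

open Nat.Partrec.Code in
theorem exists_mc : ∃ (M : Mc) (Hlt : ℕ → Prop), (¬ REPred fun a => ¬ Hlt a) ∧
    ∀ a c, M.Halts (2 ^ Nat.pair a c + 1) ↔ Hlt a := by
  have pw : Primrec₂ ((· ^ ·) : ℕ → ℕ → ℕ) := Primrec₂.unpaired'.1 Nat.Primrec.pow
  obtain ⟨w, hw⟩ := exists_search (fun x k => decide (2 ^ k.unpair.1 + 1 = x) &&
    (evaln k.unpair.2 (Denumerable.ofNat Nat.Partrec.Code k.unpair.1.unpair.1) 0).isSome) (by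
      have u : Primrec fun q : ℕ × ℕ => q.2.unpair := Primrec.unpair.comp .snd
      refine Primrec.and.comp (Primrec.eq.decide.comp (Primrec.succ.comp (pw.comp (.const 2)
        (Primrec.fst.comp u))) .fst) (Primrec.option_isSome.comp ?_)
      exact primrec_evaln.comp ((((Primrec.snd.comp u).pair ((Primrec.ofNat Nat.Partrec.Code).comp
        (Primrec.fst.comp (Primrec.unpair.comp (Primrec.fst.comp u)))))).pair (Primrec.const 0)))
  refine ⟨wM w, fun a => (eval (Denumerable.ofNat Nat.Partrec.Code a) 0).Dom, fun h => ?_,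
    fun a c => ?_⟩
  · refine ComputablePred.halting_problem_not_re 0 ?_
    exact (Partrec.dom_re (Partrec.comp h Computable.encode (α := Nat.Partrec.Code))).of_eq
      fun c => by simp [Part.assert]
  · rw [halts_iff, hw]
    constructor
    · rintro ⟨k, hk⟩
      simp only [Bool.and_eq_true, decide_eq_true_eq, add_left_inj] at hk
      rw [Nat.pow_right_injective le_rfl hk.1, Nat.unpair_pair] at hk
      obtain ⟨y, hy⟩ := Option.isSome_iff_exists.1 hk.2
      exact Part.dom_iff_mem.2 ⟨y, evaln_sound hy⟩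
    · intro h
      obtain ⟨y, hy⟩ := Part.dom_iff_mem.1 h
      obtain ⟨k, hk⟩ := evaln_complete.1 hy
      refine ⟨Nat.pair (Nat.pair a c) k, ?_⟩
      simp only [Nat.unpair_pair, decide_true, Bool.true_and]
      exact Option.isSome_iff_exists.2 ⟨y, hk⟩

end Pool.Agent.H30.Ld
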