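import Mathlib

/-! Logical depth of a finite graph. -/

namespace Pool.Agent.H30.Ld

open FirstOrder

/-- quantifier depth (an existential quantifier is a negated universal one) -/
def qd : ∀ {n : ℕ}, Language.graph.BoundedFormula Empty n → ℕ
  | _, .falsum => 0
  | _, .equal _ _ => 0
  | _, .rel _ _ => 0
  | _, .imp f g => max (qd f) (qd g)
  | _, .all f => qd f + 1

/-- the graph `G` satisfies the sentence `φ` -/
def Sat {V : Type} (G : SimpleGraph V) (φ : Language.graph.Sentence) : Prop :=
  @Language.Sentence.Realize _ V G.structure φ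

/-- `φ` holds in `G`, and each finite graph satisfying `φ` is isomorphic to `G` -/
def Defines {n : ℕ} (φ : Language.graph.Sentence) (G : SimpleGraph (Fin n)) : Prop :=
  Sat G φ ∧ ∀ (m : ℕ) (H : SimpleGraph (Fin m)), Sat H φ → Nonempty (H ≃g G)

/-- logical depth: least quantifier depth of a sentence defining `G` -/
noncomputable def depth {n : ℕ} (G : SimpleGraph (Fin n)) : ℕ :=
  sInf {d | ∃ φ : Language.graph.Sentence, Defines φ G ∧ qd φ = d}

/-- adjacency matrix as a list of rows -/
def adjM {n : ℕ} (G : SimpleGraph (Fin n)) [DecidableRel G.Adj] : List (List Bool) :=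
  List.ofFn fun i => List.ofFn fun j => decide (G.Adj i j)

end Pool.Agent.H30.Ld
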