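import Pool.Agent.H30.LdD

/-! Labels on cyclic binary pyramids. -/

namespace Pool.Agent.H30.Ld

open Pool.Agent.H38.CM Function

@[ext] structure Lab (Q : Type) where
  lev : ZMod 3
  idx : ZMod 3
  fst : Bool
  sl : Bool
  bb : Bool
  pre : Bool
  l : Bool
  r : Bool
  q : Q
  m : Option Q

instance {Q : Type} [Finite Q] : Finite (Lab Q) :=
  Finite.of_injective (fun a : Lab Q =>
    (a.lev, a.idx, a.fst, a.sl, a.bb, a.pre, a.l, a.r, a.q, a.m)) fun a b h => by
      simp only [Prod.mk.injEq] at h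
      ext1 <;> simp [h]

def wd (j : ℕ) : ℕ := 3 * 2 ^ j
theorem wd_succ (j : ℕ) : wd (j + 1) = 2 * wd j := by simp only [wd, pow_succ]; omega
theorem wd_ge (j : ℕ) : 3 ≤ wd j := Nat.le_mul_of_pos_right 3 (by positivity)
theorem wd_zero : wd 0 = 3 := rfl
theorem cast_mod (j a : ℕ) : ((a % wd j : ℕ) : ZMod 3) = a :=
  (ZMod.natCast_eq_natCast_iff' _ _ 3).2 (Nat.mod_mod_of_dvd a ⟨_, rfl⟩)

def In (h : ℕ) (u : ℕ × ℕ) : Prop := u.1 ≤ h ∧ u.2 < wd u.1
def rg (u : ℕ × ℕ) : ℕ × ℕ := (u.1, (u.2 + 1) % wd u.1)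
def ch (s : Fin 2) (u : ℕ × ℕ) : ℕ × ℕ := (u.1 + 1, 2 * u.2 + s)

theorem In.rg {h : ℕ} {u : ℕ × ℕ} (hu : In h u) : In h (rg u) :=
  ⟨hu.1, Nat.mod_lt _ (by have := wd_ge u.1; omega)⟩

theorem In.ch {h : ℕ} {u : ℕ × ℕ} (hu : In h u) (hl : u.1 < h) (s : Fin 2) : In h (ch s u) :=
  ⟨hl, by have := hu.2; have := s.2; simp only [Ld.ch, wd_succ]; omega⟩

theorem rg_lt {j i : ℕ} (h : i + 1 < wd j) : rg (j, i) = (j, i + 1) := by
  simp [rg, Nat.mod_eq_of_lt h]

theorem rg_last {j i : ℕ} (h : i + 1 = wd j) : rg (j, i) = (j, 0) := by simp [rg, h]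

theorem ch_par (j i : ℕ) : ch ⟨i % 2, Nat.mod_lt _ two_pos⟩ (j, i / 2) = (j + 1, i) := by
  simp only [ch, Prod.mk.injEq, true_and]; omega

variable (M : Mc)

def mk' (pre : Bool) (q : M.Q) (m : Option M.Q) : Bool :=
  m.elim false fun x => decide ((M.kr x).2 = (M.kr (if pre then M.h else q)).2)

variable {M}

def Lab.mk1 (a : Lab M.Q) : Bool := mk' M a.pre a.q a.m
def Lab.kn (a : Lab M.Q) : ℕ := if a.pre then 0 else (M.kr a.q).1
def Lab.nq (a : Lab M.Q) : M.Q :=
  if a.pre then a.q else M.nx a.q (decide (a.kn = 1 → (a.l || a.mk1 || a.r) = true))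
def Lab.nm (a : Lab M.Q) (s : Fin 2) : Option M.Q :=
  if s = 0 then (if a.kn = 1 ∧ a.mk1 = true ∧ a.l = false then none else a.m)
  else if a.kn = 0 ∧ a.fst = true then some (if a.pre then M.h else a.q) else none
def Lab.lk (a : Lab M.Q) : Prop := a.sl = true ∨ a.bb = true

def RH (a b : Lab M.Q) : Prop :=
  b.lev = a.lev ∧ b.idx = a.idx + 1 ∧ b.pre = a.pre ∧ b.bb = a.bb ∧
  (b.sl = false → b.l = (!b.fst && (a.l || a.mk1))) ∧
  (a.sl = false → a.r = (!b.fst && (b.r || b.mk1)))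

def RV (s : Fin 2) (a b : Lab M.Q) : Prop :=
  b.lev = a.lev + 1 ∧ b.idx = 2 * a.idx + (s : ℕ) ∧ a.bb = false ∧ (a.sl = false → b.sl = false) ∧
  (b.sl = false → b.fst = (a.fst && decide (s = 0)) ∧ b.q = a.nq ∧ b.m = a.nm s ∧
    (b.pre = true → a.pre = true))

def RT (a b : Lab M.Q) : Prop :=
  b.sl = a.sl ∧ (a.sl = false →
    a.lev = 0 ∧ a.fst = decide (a.idx = 0) ∧ a.pre = true ∧ a.q = M.q0 ∧ a.m = none)

def RB (a : Lab M.Q) : Prop := a.sl = false → a.bb = false → a.q = M.h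

structure Loc (h : ℕ) (L : ℕ × ℕ → Lab M.Q) : Prop where
  rh : ∀ u, In h u → RH (L u) (L (rg u))
  rv : ∀ u s, In h u → u.1 < h → RV s (L u) (L (ch s u))
  rt : ∀ i < 3, RT (L (0, i)) (L (rg (0, i)))
  rb : ∀ i < wd h, RB (L (h, i))

def Root (n h : ℕ) (L : ℕ × ℕ → Lab M.Q) : Prop :=
  (L (0, 0)).idx = 0 ∧ 2 ^ n + 1 ≤ h ∧ (L (2 ^ n, 0)).pre = true ∧ (L (2 ^ n + 1, 0)).pre = false

structure Good (n h : ℕ) (L : ℕ × ℕ → Lab M.Q) : Prop where
  loc : Loc h L
  root : (L (0, 0)).sl = false → Root n h L ∧ ∀ i < wd h, (L (h, i)).bb = true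
  seam : (L (0, 0)).sl = true → ∀ u, In h u → (u.2 = 0 ∨ u.2 + 1 = wd u.1) → (L u).sl = true

theorem row_const {α : Type} {h j : ℕ} (hj : j ≤ h) (f : ℕ × ℕ → α)
    (hf : ∀ u, In h u → u.1 = j → f (rg u) = f u) : ∀ i < wd j, f (j, i) = f (j, 0) := by
  intro i
  induction i with
  | zero => intro _; rfl
  | succ i ih =>
    intro hi
    rw [← rg_lt hi, hf (j, i) ⟨hj, by dsimp only; omega⟩ rfl, ih (by omega)]

/-- labels of a row are determined by their cores and two anchors -/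
theorem row_eq {j : ℕ} {L L' : ℕ × ℕ → Lab M.Q}
    (h : ∀ i < wd j, RH (L (j, i)) (L (rg (j, i))))
    (h' : ∀ i < wd j, RH (L' (j, i)) (L' (rg (j, i))))
    (hE : ∀ i < wd j, L (j, i) = L' (j, i) ∨ ((L (j, i)).sl = false ∧ (L' (j, i)).sl = false ∧
      {L (j, i) with l := false, r := false} = {L' (j, i) with l := false, r := false}))
    (h0 : (L (j, 0) = L' (j, 0) ∧ L (j, wd j - 1) = L' (j, wd j - 1)) ∨ (L (j, 0)).fst = true) :
    ∀ i < wd j, L (j, i) = L' (j, i) := by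
  have w3 := wd_ge j
  have c : ∀ i < wd j, {L (j, i) with l := false, r := false} =
      {L' (j, i) with l := false, r := false} := fun i hi =>
    (hE i hi).elim (fun e => by rw [e]) fun e => e.2.2
  have cf : ∀ i < wd j, (L (j, i)).fst = (L' (j, i)).fst := fun i hi => by
    simpa using congrArg Lab.fst (c i hi)
  have cm : ∀ i < wd j, (L (j, i)).mk1 = (L' (j, i)).mk1 := fun i hi => by
    simpa [Lab.mk1] using congrArg Lab.mk1 (c i hi)
  have hl : ∀ i < wd j, (L (j, i)).l = (L' (j, i)).l := by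
    intro i
    induction i with
    | zero =>
      intro hi
      rcases hE 0 hi with e | e
      · rw [e]
      rcases h0 with h0 | h0
      · rw [h0.1]
      have a1 := (h (wd j - 1) (by omega)).2.2.2.2.1
      have a2 := (h' (wd j - 1) (by omega)).2.2.2.2.1
      rw [rg_last (by omega)] at a1 a2
      rw [a1 e.1, a2 e.2.1, ← cf 0 hi, h0]
      rfl
    | succ i ih =>
      intro hi
      rcases hE _ hi with e | e
      · rw [e]
      have a1 := (h i (by omega)).2.2.2.2.1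
      have a2 := (h' i (by omega)).2.2.2.2.1
      rw [rg_lt hi] at a1 a2
      rw [a1 e.1, a2 e.2.1, cf _ hi, ih (by omega), cm i (by omega)]
  have hr : ∀ d i, i + d + 1 = wd j → (L (j, i)).r = (L' (j, i)).r := by
    intro d
    induction d with
    | zero =>
      intro i hi
      rcases hE i (by omega) with e | e
      · rw [e]
      rcases h0 with h0 | h0
      · rw [show i = wd j - 1 by omega, h0.2]
      have a1 := (h i (by omega)).2.2.2.2.2
      have a2 := (h' i (by omega)).2.2.2.2.2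
      rw [rg_last hi] at a1 a2
      rw [a1 e.1, a2 e.2.1, ← cf 0 (by omega), h0]
      rfl
    | succ d ih =>
      intro i hi
      rcases hE i (by omega) with e | e
      · rw [e]
      have a1 := (h i (by omega)).2.2.2.2.2
      have a2 := (h' i (by omega)).2.2.2.2.2
      rw [rg_lt (by omega)] at a1 a2
      rw [a1 e.1, a2 e.2.1, cf (i + 1) (by omega), ih (i + 1) (by omega), cm (i + 1) (by omega)]
  intro i hi
  have := c i hi
  simp only [Lab.mk.injEq] at this
  ext1 <;> simp [this, hl i hi, hr (wd j - 1 - i) i (by omega)]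

open Classical in
noncomputable def mkL (n j : ℕ) (c : M.Q × (ℕ → Option M.Q)) (i : ℕ) : Lab M.Q where
  lev := j
  idx := i
  fst := decide (i = 0)
  sl := false
  bb := false
  pre := decide (j ≤ 2 ^ n)
  l := decide (∃ k < i, mk' M (decide (j ≤ 2 ^ n)) c.1 (c.2 k) = true)
  r := decide (∃ k, i < k ∧ k < wd j ∧ mk' M (decide (j ≤ 2 ^ n)) c.1 (c.2 k) = true)
  q := c.1
  m := c.2 i

variable (M) in
noncomputable def cf (n : ℕ) : ℕ → M.Q × (ℕ → Option M.Q)
  | 0 => (M.q0, fun _ => none)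
  | j + 1 => ((mkL n j (cf n j) 0).nq,
      fun i => (mkL n j (cf n j) (i / 2)).nm ⟨i % 2, Nat.mod_lt _ two_pos⟩)

variable (M) in
/-- the labelling given by the true computation -/
noncomputable def rl (n : ℕ) (u : ℕ × ℕ) : Lab M.Q := mkL n u.1 (cf M n u.1) u.2

theorem nz_iff (n j : ℕ) (c : M.Q × (ℕ → Option M.Q)) {i : ℕ} (hi : i < wd j) :
    ((mkL n j c i).l || (mkL n j c i).mk1 || (mkL n j c i).r) = true ↔
      ∃ k < wd j, mk' M (decide (j ≤ 2 ^ n)) c.1 (c.2 k) = true := by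
  simp only [mkL, Lab.mk1, Bool.or_eq_true, decide_eq_true_eq]
  constructor
  · rintro ((⟨k, h1, h2⟩ | h) | ⟨k, h1, h2, h3⟩)
    exacts [⟨k, by omega, h2⟩, ⟨i, hi, h⟩, ⟨k, h2, h3⟩]
  · rintro ⟨k, h1, h2⟩
    rcases lt_trichotomy k i with h | rfl | h
    exacts [.inl (.inl ⟨k, h, h2⟩), .inl (.inr h2), .inr ⟨k, h, h1, h2⟩]

theorem rl_rh (n : ℕ) {h : ℕ} {u : ℕ × ℕ} (hu : In h u) : RH (rl M n u) (rl M n (rg u)) := by
  obtain ⟨j, i⟩ := u
  have hi : i < wd j := hu.2
  refine ⟨rfl, ?_, rfl, rfl, fun _ => ?_, fun _ => ?_⟩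
  · simp [rl, mkL, rg, cast_mod]
  · rcases (show i + 1 < wd j ∨ i + 1 = wd j by omega) with e | e
    · rw [rg_lt e, Bool.eq_iff_iff]
      simp [rl, mkL, Lab.mk1, le_iff_lt_or_eq, or_and_right, exists_or]
    · rw [rg_last e]
      simp [rl, mkL]
  · rcases (show i + 1 < wd j ∨ i + 1 = wd j by omega) with e | e
    · rw [rg_lt e, Bool.eq_iff_iff]
      simp only [rl, mkL, Lab.mk1, decide_eq_true_eq, Bool.and_eq_true, Bool.not_eq_true',
        decide_eq_false_iff_not, Bool.or_eq_true]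
      constructor
      · rintro ⟨k, h1, h2, h3⟩
        refine ⟨by omega, ?_⟩
        rcases (show i + 1 < k ∨ k = i + 1 by omega) with h | rfl
        exacts [.inl ⟨k, h, h2, h3⟩, .inr h3]
      · rintro ⟨-, ⟨k, h1, h2, h3⟩ | h⟩
        exacts [⟨k, by omega, h2, h3⟩, ⟨i + 1, by omega, e, h⟩]
    · rw [rg_last e]
      simp only [rl, mkL, decide_true, Bool.not_true, Bool.false_and, decide_eq_false_iff_not]
      rintro ⟨k, h1, h2, -⟩
      omega

theorem rl_rv (n : ℕ) {h : ℕ} {u : ℕ × ℕ} (hu : In h u) (s : Fin 2) :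
    RV s (rl M n u) (rl M n (ch s u)) := by
  obtain ⟨j, i⟩ := u
  have hs := s.2
  refine ⟨by simp [rl, mkL, ch], by simp [rl, mkL, ch], rfl, fun _ => rfl, fun _ =>
    ⟨?_, ?_, ?_, ?_⟩⟩
  · rw [Bool.eq_iff_iff]
    simp [rl, mkL, ch]
  · change (mkL n j (cf M n j) 0).nq = (mkL n j (cf M n j) i).nq
    simp only [Lab.nq, nz_iff n j _ hu.2, nz_iff n j _ (show 0 < wd j by have := wd_ge j; omega)]
    rfl
  · change (mkL n j (cf M n j) ((2 * i + s) / 2)).nm ⟨(2 * i + s) % 2, _⟩ = _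
    congr 2
    · omega
    · omega
  · simp only [rl, mkL, ch, decide_eq_true_eq]
    omega

theorem rl_rt (n : ℕ) {i : ℕ} (hi : i < 3) (b : Lab M.Q) (hb : b.sl = false) :
    RT (rl M n (0, i)) b := by
  refine ⟨hb, fun _ => ⟨rfl, ?_, by simp [rl, mkL], rfl, rfl⟩⟩
  interval_cases i <;> rfl

theorem Loc.top {h : ℕ} {L : ℕ × ℕ → Lab M.Q} (hL : Loc h L) :
    ∀ i < 3, (L (0, i)).sl = (L (0, 0)).sl :=
  row_const (h := h) (Nat.zero_le _) (fun u => (L u).sl) fun ⟨_, i⟩ hu e => by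
    obtain rfl : _ = 0 := e
    exact (hL.rt i hu.2).1

theorem Loc.bb {h : ℕ} {L : ℕ × ℕ → Lab M.Q} (hL : Loc h L) {j : ℕ} (hj : j ≤ h) :
    ∀ i < wd j, (L (j, i)).bb = (L (j, 0)).bb :=
  row_const hj (fun u => (L u).bb) fun u hu _ => (hL.rh u hu).2.2.2.1

theorem Loc.pre {h : ℕ} {L : ℕ × ℕ → Lab M.Q} (hL : Loc h L) {j : ℕ} (hj : j ≤ h) :
    ∀ i < wd j, (L (j, i)).pre = (L (j, 0)).pre :=
  row_const hj (fun u => (L u).pre) fun u hu _ => (hL.rh u hu).2.2.1

theorem Loc.par {h : ℕ} {L : ℕ × ℕ → Lab M.Q} (hL : Loc h L) {j i : ℕ} (hu : In h (j + 1, i)) :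
    In h (j, i / 2) ∧ RV ⟨i % 2, Nat.mod_lt _ two_pos⟩ (L (j, i / 2)) (L (j + 1, i)) := by
  have h1 : In h (j, i / 2) := ⟨by have := hu.1; dsimp only at *; omega,
    by have := hu.2; rw [wd_succ] at this; dsimp only at *; omega⟩
  exact ⟨h1, ch_par j i ▸ hL.rv _ _ h1 hu.1⟩

theorem Loc.nsl {h : ℕ} {L : ℕ × ℕ → Lab M.Q} (hL : Loc h L) (h0 : (L (0, 0)).sl = false) :
    ∀ j i, In h (j, i) → (L (j, i)).sl = false := by
  intro j
  induction j with
  | zero => intro i hi; rw [hL.top i hi.2, h0]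
  | succ j ih => intro i hi; exact (hL.par hi).2.2.2.2.1 (ih _ (hL.par hi).1)

theorem root_det {n h : ℕ} {L : ℕ × ℕ → Lab M.Q} (hL : Loc h L) (h0 : (L (0, 0)).sl = false)
    (hR : Root n h L) : ∀ j i, In h (j, i) →
      L (j, i) = {rl M n (j, i) with bb := (L (j, 0)).bb} := by
  have ns := hL.nsl h0
  have i0 : ∀ {j}, j ≤ h → In h (j, 0) := fun {j} hj => ⟨hj, by have := wd_ge j; dsimp only; omega⟩
  have mono : ∀ d j, j + d ≤ h → (L (j + d, 0)).pre = true → (L (j, 0)).pre = true := by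
    intro d
    induction d with
    | zero => exact fun _ _ h => h
    | succ d ih =>
      intro j hj e
      exact ih j (by omega) (((hL.par (i0 hj)).2.2.2.2.2 (ns _ _ (i0 hj))).2.2.2 e)
  have pre : ∀ j i, In h (j, i) → (L (j, i)).pre = decide (j ≤ 2 ^ n) := by
    intro j i hu
    rw [hL.pre hu.1 i hu.2]
    by_cases e : j ≤ 2 ^ n
    · rw [decide_eq_true e]
      refine mono (2 ^ n - j) j (by have := hR.2.1; omega) ?_
      rw [Nat.add_sub_cancel' e]
      exact hR.2.2.1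
    · rw [decide_eq_false e, Bool.eq_false_iff]
      intro e'
      have := mono (j - (2 ^ n + 1)) (2 ^ n + 1) (by have := hu.1; dsimp only at this; omega)
        (by rwa [Nat.add_sub_cancel' (by omega)])
      rw [hR.2.2.2] at this
      cases this
  have fin : ∀ j ≤ h, (∀ i < wd j, {L (j, i) with l := false, r := false} =
      {rl M n (j, i) with bb := (L (j, 0)).bb, l := false, r := false}) →
      ∀ i < wd j, L (j, i) = {rl M n (j, i) with bb := (L (j, 0)).bb} := fun j hj H =>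
    row_eq (L' := fun u => {rl M n u with bb := (L (j, 0)).bb}) (fun i hi => hL.rh _ ⟨hj, hi⟩)
      (fun i hi => by
        obtain ⟨a1, a2, a3, -, a5, a6⟩ := rl_rh (M := M) n (h := h) (u := (j, i)) ⟨hj, hi⟩
        exact ⟨a1, a2, a3, rfl, a5, a6⟩)
      (fun i hi => .inr ⟨ns _ _ ⟨hj, hi⟩, rfl, H i hi⟩)
      (.inr (congrArg Lab.fst (H 0 (i0 hj).2)))
  intro j
  induction j with
  | zero =>
    refine fun i hi => fin 0 hi.1 (fun i hi => ?_) i hi.2
    have hu : In h (0, i) := ⟨Nat.zero_le _, hi⟩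
    obtain ⟨a1, a2, -, a4, a5⟩ := (hL.rt i hi).2 (ns _ _ hu)
    have e1 := (hL.rh (0, 0) (i0 hu.1)).2.1
    have e2 := (hL.rh (0, 1) ⟨hu.1, by decide⟩).2.1
    have e3 : (L (0, i)).idx = i := by
      change (L (0, 1)).idx = _ at e1
      change (L (0, 2)).idx = _ at e2
      rw [wd_zero] at hi
      interval_cases i
      · exact hR.1
      · rw [e1, hR.1]; rfl
      · rw [e2, e1, hR.1]; rfl
    ext1
    exacts [a1, e3, by rw [a2, e3]; rw [wd_zero] at hi; interval_cases i <;> rfl, ns _ _ hu,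
      hL.bb hu.1 i hi, pre _ _ hu, rfl, rfl, a4, a5]
  | succ j ih =>
    refine fun i hi => fin _ hi.1 (fun i hi' => ?_) i hi.2
    have hu : In h (j + 1, i) := ⟨hi.1, hi'⟩
    obtain ⟨p1, p2⟩ := hL.par hu
    have e : L (j, i / 2) = rl M n (j, i / 2) := by
      rw [ih _ p1, ← hL.bb p1.1 _ p1.2, p2.2.2.1]
      rfl
    have p3 := rl_rv (M := M) n p1 ⟨i % 2, Nat.mod_lt _ two_pos⟩
    rw [ch_par, ← e] at p3
    obtain ⟨a1, a2, a3, -⟩ := p2.2.2.2.2 (ns _ _ hu)
    obtain ⟨b1, b2, b3, -⟩ := p3.2.2.2.2 rfl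
    ext1
    exacts [p2.1.trans p3.1.symm, p2.2.1.trans p3.2.1.symm, a1.trans b1.symm, ns _ _ hu,
      hL.bb hu.1 i hi', pre _ _ hu, rfl, rfl, a2.trans b2.symm, a3.trans b3.symm]

/-! the simulation -/

theorem sum_two (f : ℕ → ℕ) (w : ℕ) :
    ∑ i ∈ Finset.range (2 * w), f i = ∑ i ∈ Finset.range w, (f (2 * i) + f (2 * i + 1)) := by
  induction w with
  | zero => rfl
  | succ w ih => rw [mul_add, mul_one, Finset.sum_range_succ, Finset.sum_range_succ,
      Finset.sum_range_succ, ih, add_assoc]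

variable (M) in
def wt (r : ℕ) (m : Option M.Q) : ℕ := m.elim 0 fun x => if (M.kr x).2 = r then 1 else 0

variable (M) in
noncomputable def cnt (n j r : ℕ) : ℕ := ∑ i ∈ Finset.range (wd j), wt M r ((cf M n j).2 i)

theorem mk_iff (pre : Bool) (q : M.Q) (m : Option M.Q) :
    mk' M pre q m = true ↔ wt M (M.kr (if pre then M.h else q)).2 m = 1 := by
  cases m <;> simp [mk', wt]

theorem wt_le (r : ℕ) (m : Option M.Q) : wt M r m ≤ 1 := by
  cases m <;> simp only [wt, Option.elim]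
  · omega
  · split_ifs <;> omega

theorem cnt_ne (n j : ℕ) : cnt M n j (M.kr (if decide (j ≤ 2 ^ n) then M.h else (cf M n j).1)).2 ≠ 0
    ↔ ∃ k < wd j, mk' M (decide (j ≤ 2 ^ n)) (cf M n j).1 ((cf M n j).2 k) = true := by
  rw [cnt, Ne, Finset.sum_eq_zero_iff]
  simp only [Finset.mem_range, not_forall, mk_iff, exists_prop]
  refine exists_congr fun k => and_congr_right fun _ => ?_
  have := wt_le (M.kr (if decide (j ≤ 2 ^ n) then M.h else (cf M n j).1)).2 ((cf M n j).2 k)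
  omega

theorem cnt_succ (n j : ℕ) : cnt M n (j + 1) = up ((rl M n (j, 0)).kn,
    (M.kr (if decide (j ≤ 2 ^ n) then M.h else (cf M n j).1)).2) (cnt M n j) := by
  classical
  funext r
  have w3 := wd_ge j
  have cn := cnt_ne (M := M) n j
  set x := if decide (j ≤ 2 ^ n) then M.h else (cf M n j).1 with hx
  set k := (rl M n (j, 0)).kn with hk
  have e0 : ∀ i, (cf M n (j + 1)).2 (2 * i) = if k = 1 ∧ (rl M n (j, i)).mk1 = true ∧
      (rl M n (j, i)).l = false then none else (cf M n j).2 i := fun i => by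
    simp only [cf, Nat.mul_div_cancel_left i two_pos, Nat.mul_mod_right]
    rfl
  have e1 : ∀ i, (cf M n (j + 1)).2 (2 * i + 1) = if k = 0 ∧ i = 0 then some x else none :=
    fun i => by
      simp only [cf, show (2 * i + 1) / 2 = i by omega, show (2 * i + 1) % 2 = 1 by omega]
      simp only [Lab.nm, show ¬ (⟨1, Nat.one_lt_two⟩ : Fin 2) = 0 by decide, if_false]
      congr 1
      simp only [mkL, decide_eq_true_eq]
      rfl
  rw [cnt, wd_succ, sum_two, Finset.sum_add_distrib]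
  simp only [e0, e1]
  have s1 : ∑ i ∈ Finset.range (wd j), wt M r (if k = 0 ∧ i = 0 then some x else none) =
      if k = 0 ∧ (M.kr x).2 = r then 1 else 0 := by
    rw [Finset.sum_eq_single 0 (fun b _ hb => by simp [hb, wt]) (by simp; omega)]
    by_cases h : k = 0 <;> simp [h, wt]
  rw [s1]
  by_cases k1 : k = 1
  · simp only [k1, true_and, up, one_ne_zero, false_and, if_false, if_true, add_zero]
    by_cases ex : ∃ i < wd j, mk' M (decide (j ≤ 2 ^ n)) (cf M n j).1 ((cf M n j).2 i) = true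
    · have sp := Nat.find_spec ex
      have key : ∀ i < wd j, ((rl M n (j, i)).mk1 = true ∧ (rl M n (j, i)).l = false) ↔
          i = Nat.find ex := by
        intro i hi
        rw [eq_comm (a := i), Nat.find_eq_iff]
        simp only [rl, mkL, Lab.mk1, decide_eq_false_iff_not, hi, true_and]
        refine and_congr_right fun _ => ⟨fun h a ha hh => h ⟨a, ha, hh.2⟩, ?_⟩
        rintro h ⟨a, ha, hh⟩
        exact h a ha ⟨by omega, hh⟩
      have mem : Nat.find ex ∈ Finset.range (wd j) := Finset.mem_range.2 sp.1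
      have s2 : ∑ i ∈ Finset.range (wd j), wt M r (if (rl M n (j, i)).mk1 = true ∧
          (rl M n (j, i)).l = false then none else (cf M n j).2 i) +
          wt M r ((cf M n j).2 (Nat.find ex)) = cnt M n j r := by
        rw [cnt, ← Finset.add_sum_erase _ _ mem, ← Finset.add_sum_erase _ _ mem,
          if_pos ((key _ sp.1).2 rfl), add_comm]
        congr 1
        rw [show wt M r none = 0 from rfl, zero_add]
        refine Finset.sum_congr rfl fun i hi => ?_
        rw [Finset.mem_erase, Finset.mem_range] at hi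
        rw [if_neg (mt (key i hi.2).1 hi.1)]
      have s3 := (mk_iff _ _ _).1 sp.2
      rw [← hx] at s3
      by_cases hr : r = (M.kr x).2
      · subst hr
        rw [update_self]
        omega
      · rw [update_of_ne hr]
        have : wt M r ((cf M n j).2 (Nat.find ex)) = 0 := by
          revert s3
          rcases (cf M n j).2 (Nat.find ex) with _ | y
          · intro _; rfl
          · simp only [wt, Option.elim]
            intro s3
            rw [if_neg fun h => hr (h.symm.trans (by simpa using s3))]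
        omega
    · rw [← cn, not_not] at ex
      rw [ex, Nat.zero_sub, ← ex, update_eq_self]
      refine Finset.sum_congr rfl fun i hi => ?_
      rw [if_neg fun h => cn.2 ⟨i, Finset.mem_range.1 hi, h.1⟩ ex]
  · simp only [k1, false_and, if_false, up]
    change cnt M n j r + _ = _
    by_cases k0 : k = 0
    · by_cases hr : r = (M.kr x).2
      · subst hr; simp [k0]
      · simp [k0, hr, Ne.symm hr]
    · simp [k0]

theorem sim_pre (n : ℕ) : ∀ j ≤ 2 ^ n + 1, (cf M n j).1 = M.q0 ∧ cnt M n j = init j := by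
  intro j
  induction j with
  | zero => intro _; exact ⟨rfl, funext fun r => by simp [cnt, cf, wt, init]⟩
  | succ j ih =>
    intro hj
    obtain ⟨h1, h2⟩ := ih (by omega)
    have e : j ≤ 2 ^ n := by omega
    refine ⟨by simp [cf, Lab.nq, mkL, e, h1], ?_⟩
    rw [cnt_succ, h2]
    simp [up, rl, mkL, Lab.kn, e, M.hk, init]

theorem sim (n t : ℕ) : ((cf M n (2 ^ n + 1 + t)).1, cnt M n (2 ^ n + 1 + t)) =
    M.stp^[t] (M.q0, init (2 ^ n + 1)) := by
  induction t with
  | zero => rw [add_zero, (sim_pre n _ le_rfl).1, (sim_pre n _ le_rfl).2]; rfl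
  | succ t ih =>
    have e : ¬ 2 ^ n + 1 + t ≤ 2 ^ n := by omega
    rw [iterate_succ_apply', ← ih, ← add_assoc, cnt_succ]
    have cn := cnt_ne (M := M) n (2 ^ n + 1 + t)
    rw [← nz_iff n _ _ (show 0 < wd (2 ^ n + 1 + t) by have := wd_ge (2 ^ n + 1 + t); omega)] at cn
    simp only [e, decide_false, Bool.false_eq_true, if_false] at cn
    refine Prod.ext ?_ (by simp [Mc.stp, rl, mkL, Lab.kn, e])
    change (mkL n _ (cf M n _) 0).nq = M.nx _ (br _ _)
    simp only [Lab.nq, br, cn]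
    simp [mkL, Lab.kn, e]

theorem halts_of {n h : ℕ} {L : ℕ × ℕ → Lab M.Q} (hL : Loc h L) (h0 : (L (0, 0)).sl = false)
    (hR : Root n h L) (hb : (L (h, 0)).bb = false) : M.Halts (2 ^ n + 1) := by
  have hu : In h (h, 0) := ⟨le_rfl, by have := wd_ge h; dsimp only; omega⟩
  have := hL.rb 0 hu.2 (hL.nsl h0 _ _ hu) hb
  rw [root_det hL h0 hR _ _ hu] at this
  obtain ⟨t, rfl⟩ := Nat.exists_eq_add_of_le hR.2.1
  exact ⟨t, by rw [← sim]; exact this⟩

theorem halts_ev {n : ℕ} (H : M.Halts (2 ^ n + 1)) (h : ℕ) : ∃ j, h < j ∧ (cf M n j).1 = M.h := by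
  obtain ⟨t, ht⟩ := H
  have : ∀ d, (M.stp^[t + d] (M.q0, init (2 ^ n + 1))).1 = M.h := by
    intro d
    induction d with
    | zero => exact ht
    | succ d ih => rw [← add_assoc, iterate_succ_apply', Mc.stp, ih, M.hn]
  exact ⟨2 ^ n + 1 + (t + h), by have := Nat.one_le_two_pow (n := n); omega,
    (congrArg Prod.fst (sim n _)).trans (this h)⟩

end Pool.Agent.H30.Ld
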