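import Pool.Agent.H30.LdE
import Pool.Agent.H30.LdA

/-! Finite graphs that look locally like cyclic binary pyramids are unions of such pyramids. -/

namespace Pool.Agent.H30.Ld

open Function

abbrev Co (Q : Type) := Fin 5 × Lab Q
abbrev Cl (Q : Type) := Co Q ⊕ Co Q

def ck {Q : Type} : Cl Q → ℕ := Sum.elim (fun c => c.1) fun _ => 5
def cl {Q : Type} : Cl Q → Lab Q := Sum.elim (fun c => c.2) fun c => c.2

def gk (k : ℕ) : Prop := k = 0 ∨ k = 1 ∨ k = 4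
def rR {Q : Type} (c d : Cl Q) : Prop :=
  ck c = ck d ∧ gk (ck c) ∧ (cl d).lev = (cl c).lev ∧ (cl d).idx = (cl c).idx + 1
def rC {Q : Type} (s : Fin 2) (c d : Cl Q) : Prop :=
  ck c = ck d ∧ gk (ck c) ∧ (cl d).lev = (cl c).lev + 1 ∧ (cl d).idx = 2 * (cl c).idx + (s : ℕ)

structure CG (Q V : Type) where
  G : SimpleGraph V
  col : V → Cl Q

def St (u v : ℕ × ℕ) : Prop := v = rg u ∨ ∃ s, v = ch s u

theorem exists_lf {h : ℕ} {u : ℕ × ℕ} (hu : In h u) : ∃ v, In h v ∧ rg v = u := by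
  obtain ⟨j, _ | i⟩ := u
  · have := wd_ge j
    exact ⟨(j, wd j - 1), ⟨hu.1, by dsimp only; omega⟩, rg_last (by omega)⟩
  · exact ⟨(j, i), ⟨hu.1, by have := hu.2; dsimp only at *; omega⟩, rg_lt hu.2⟩

theorem exists_par {h j i : ℕ} (hu : In h (j + 1, i)) :
    ∃ s v, In h v ∧ v.1 < h ∧ ch s v = (j + 1, i) :=
  ⟨_, (j, i / 2), ⟨by have := hu.1; dsimp only at *; omega,
    by have := hu.2; rw [wd_succ] at this; dsimp only at *; omega⟩, hu.1, ch_par j i⟩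

theorem s_eq {a : ZMod 3} {s t : Fin 2} (h : a + (s : ℕ) = a + (t : ℕ)) : s = t := by
  have := add_left_cancel h
  clear h
  revert s t
  decide

namespace CG
variable {Q V : Type} (X : CG Q V)

def kd (x : V) : ℕ := ck (X.col x)
def lb (x : V) : Lab Q := cl (X.col x)
def R (x y : V) : Prop := X.G.Adj x y ∧ rR (X.col x) (X.col y)
def C (s : Fin 2) (x y : V) : Prop := X.G.Adj x y ∧ rC s (X.col x) (X.col y)
def Hc (x : V) : Prop := ∃ y, X.C 0 x y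
def Hp (x : V) : Prop := ∃ y, X.C 0 y x ∨ X.C 1 y x

structure Geo : Prop where
  g1 : ∀ x, gk (X.kd x) → ∃ y, X.R x y
  g2 : ∀ x y z, X.R x y → X.R x z → y = z
  g3 : ∀ x y z, X.R x z → X.R y z → x = y
  g4 : ∀ s x y z, X.C s x y → X.C s x z → y = z
  g5 : ∀ s t x y z, X.C s x z → X.C t y z → x = y
  g6 : ∀ s t x y, X.C s x y → ∃ z, X.C t x z
  g7 : ∀ x y z, X.C 0 x y → X.C 1 x z → X.R y z
  g8 : ∀ x y z w, X.C 1 x y → X.R x z → X.C 0 z w → X.R y w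
  g9 : ∀ x y, X.R x y → (X.Hc x ↔ X.Hc y) ∧ (X.Hp x ↔ X.Hp y)
  g10 : ∀ x y z, ¬ X.Hp x → X.R x y → X.R y z → X.R z x
  g11 : ∀ x y, X.G.Adj x y → X.kd x = X.kd y →
    X.R x y ∨ X.R y x ∨ X.C 0 x y ∨ X.C 1 x y ∨ X.C 0 y x ∨ X.C 1 y x

structure Cd (h : ℕ) (f : ℕ × ℕ → V) : Prop where
  inj : ∀ u v, In h u → In h v → f u = f v → u = v
  r : ∀ u, In h u → X.R (f u) (f (rg u))
  c : ∀ u s, In h u → u.1 < h → X.C s (f u) (f (ch s u))
  top : ∀ i < 3, ¬ X.Hp (f (0, i))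
  bot : ∀ i < wd h, ¬ X.Hc (f (h, i))

variable {X}

theorem hp_of {s : Fin 2} {x y : V} (h : X.C s x y) : X.Hp y := by
  fin_cases s
  exacts [⟨x, .inl h⟩, ⟨x, .inr h⟩]

theorem Hp.ex {y : V} (h : X.Hp y) : ∃ s x, X.C s x y := by
  obtain ⟨x, h | h⟩ := h
  exacts [⟨0, x, h⟩, ⟨1, x, h⟩]

section
variable (g : X.Geo) {h : ℕ} {f : ℕ × ℕ → V} (c : X.Cd h f)
include g c

theorem Cd.R_iff {u : ℕ × ℕ} (hu : In h u) (y : V) : X.R (f u) y ↔ y = f (rg u) :=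
  ⟨fun e => g.g2 _ _ _ e (c.r u hu), fun e => e ▸ c.r u hu⟩

omit g in
theorem Cd.hc {u : ℕ × ℕ} (hu : In h u) : X.Hc (f u) ↔ u.1 < h :=
  ⟨fun e => lt_of_le_of_ne hu.1 fun e' => by
    obtain ⟨j, i⟩ := u
    obtain rfl : j = h := e'
    exact c.bot i hu.2 e, fun e => ⟨_, c.c u 0 hu e⟩⟩

theorem Cd.C_iff {u : ℕ × ℕ} (hu : In h u) (s : Fin 2) (y : V) :
    X.C s (f u) y ↔ u.1 < h ∧ y = f (ch s u) :=
  ⟨fun e => have e' := (c.hc hu).1 (g.g6 _ _ _ _ e)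
    ⟨e', g.g4 _ _ _ _ e (c.c u s hu e')⟩, fun e => e.2 ▸ c.c u s hu e.1⟩

omit g in
theorem Cd.hp {u : ℕ × ℕ} (hu : In h u) : X.Hp (f u) ↔ 0 < u.1 := by
  obtain ⟨_ | j, i⟩ := u
  · simpa using c.top i hu.2
  · obtain ⟨s, v, h1, h2, e⟩ := exists_par hu
    exact ⟨fun _ => Nat.succ_pos _, fun _ => e ▸ hp_of (c.c v s h1 h2)⟩

theorem Cd.R_inv {u : ℕ × ℕ} (hu : In h u) {y : V} (e : X.R y (f u)) :
    ∃ v, In h v ∧ rg v = u ∧ y = f v := by
  obtain ⟨v, h1, rfl⟩ := exists_lf hu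
  exact ⟨v, h1, rfl, g.g3 _ _ _ e (c.r v h1)⟩

theorem Cd.C_inv {u : ℕ × ℕ} (hu : In h u) {s : Fin 2} {y : V} (e : X.C s y (f u)) :
    ∃ v, In h v ∧ v.1 < h ∧ ch s v = u ∧ y = f v := by
  have := (c.hp hu).1 (hp_of e)
  obtain ⟨_ | j, i⟩ := u
  · simp at this
  · obtain ⟨t, v, h1, h2, e'⟩ := exists_par hu
    have e2 := c.c v t h1 h2
    rw [e'] at e2
    obtain rfl := g.g5 _ _ _ _ _ e e2
    obtain rfl := s_eq (e.2.2.2.2.symm.trans e2.2.2.2.2)
    exact ⟨v, h1, h2, e', rfl⟩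

theorem Cd.nbr {u : ℕ × ℕ} (hu : In h u) {y : V} (e : X.G.Adj (f u) y)
    (k : X.kd (f u) = X.kd y) : ∃ v, In h v ∧ y = f v ∧ (St u v ∨ St v u) := by
  have a : ∀ s, X.C s (f u) y → ∃ v, In h v ∧ y = f v ∧ (St u v ∨ St v u) := fun s e => by
    rw [c.C_iff g hu] at e
    exact ⟨_, hu.ch e.1 s, e.2, .inl (.inr ⟨s, rfl⟩)⟩
  have b : ∀ s, X.C s y (f u) → ∃ v, In h v ∧ y = f v ∧ (St u v ∨ St v u) := fun s e => by
    obtain ⟨v, h1, -, h2, h3⟩ := c.C_inv g hu e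
    exact ⟨v, h1, h3, .inr (.inr ⟨s, h2.symm⟩)⟩
  rcases g.g11 _ _ e k with e | e | e | e | e | e
  · exact ⟨_, hu.rg, (c.R_iff g hu y).1 e, .inl (.inl rfl)⟩
  · obtain ⟨v, h1, h2, h3⟩ := c.R_inv g hu e
    exact ⟨v, h1, h3, .inr (.inl h2.symm)⟩
  exacts [a _ e, a _ e, b _ e, b _ e]

omit g in
theorem Cd.adj {u v : ℕ × ℕ} (hu : In h u) (hv : In h v) (e : St u v) :
    X.G.Adj (f u) (f v) ∧ X.kd (f u) = X.kd (f v) := by
  rcases e with rfl | ⟨s, rfl⟩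
  · exact ⟨(c.r u hu).1, (c.r u hu).2.1⟩
  · exact ⟨(c.c u s hu hv.1).1, (c.c u s hu hv.1).2.1⟩

end

theorem pos_ind {h : ℕ} {P : ℕ × ℕ → Prop} (H : ∀ u v, In h u → In h v → St u v → (P u ↔ P v)) :
    ∀ j i, In h (j, i) → (P (j, i) ↔ P (0, 0)) := by
  intro j
  induction j with
  | zero =>
    intro i hi
    have := row_const hi.1 P (fun u hu _ => propext (H u _ hu hu.rg (.inl rfl)).symm) i hi.2
    rw [this]
  | succ j ih =>
    intro i hi
    obtain ⟨s, v, h1, -, e⟩ := exists_par hi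
    have e1 : v.1 = j := by simpa [ch] using congrArg Prod.fst e
    rw [← H v _ h1 hi (.inr ⟨s, e.symm⟩), ← ih v.2 (e1 ▸ h1), ← e1]

theorem Cd.kd {h : ℕ} {f : ℕ × ℕ → V} (c : X.Cd h f) {u : ℕ × ℕ} (hu : In h u) :
    X.kd (f u) = X.kd (f (0, 0)) :=
  (pos_ind (P := fun u => X.kd (f u) = X.kd (f (0, 0)))
    (fun _ _ hu hv e => by rw [(c.adj hu hv e).2]) u.1 u.2 hu).2 rfl

theorem Cd.same (g : X.Geo) {h h' : ℕ} {f f' : ℕ × ℕ → V} (c : X.Cd h f) (c' : X.Cd h' f')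
    {u u' : ℕ × ℕ} (hu : In h u) (hu' : In h' u') (e : f u = f' u') {v : ℕ × ℕ} (hv : In h v) :
    ∃ v', In h' v' ∧ f v = f' v' := by
  have := pos_ind (h := h) (P := fun v => ∃ v', In h' v' ∧ f v = f' v') (fun a b ha hb s => by
    obtain ⟨a1, a2⟩ := c.adj ha hb s
    constructor
    · rintro ⟨w, h1, h2⟩
      rw [h2] at a1 a2
      obtain ⟨z, h3, h4, -⟩ := c'.nbr g h1 a1 a2
      exact ⟨z, h3, h4⟩
    · rintro ⟨w, h1, h2⟩
      rw [h2] at a1 a2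
      obtain ⟨z, h3, h4, -⟩ := c'.nbr g h1 a1.symm a2.symm
      exact ⟨z, h3, h4⟩)
  exact (this v.1 v.2 hv).2 ((this u.1 u.2 hu).1 ⟨u', hu', e⟩)

def Des (X : CG Q V) : ℕ → V → Prop
  | 0, _ => True
  | j + 1, x => ∃ y, X.C 0 x y ∧ Des X j y

theorem Geo.des_R (g : X.Geo) : ∀ j x y, X.R x y → (X.Des j x ↔ X.Des j y) := by
  intro j
  induction j with
  | zero => intro x y _; rfl
  | succ j ih =>
    intro x y e
    have key : ∀ a b, X.C 0 x a → X.C 0 y b → (X.Des j a ↔ X.Des j b) := fun a b h1 h2 => by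
      obtain ⟨z, hz⟩ := g.g6 0 1 _ _ h1
      exact (ih _ _ (g.g7 _ _ _ h1 hz)).trans (ih _ _ (g.g8 _ _ _ _ hz e h2))
    constructor
    · rintro ⟨a, h1, h2⟩
      obtain ⟨b, hb⟩ := (g.g9 _ _ e).1.1 ⟨a, h1⟩
      exact ⟨b, hb, (key a b h1 hb).1 h2⟩
    · rintro ⟨b, h1, h2⟩
      obtain ⟨a, ha⟩ := (g.g9 _ _ e).1.2 ⟨b, h1⟩
      exact ⟨a, ha, (key a b ha h1).2 h2⟩

theorem Geo.des_C (g : X.Geo) {s : Fin 2} {j : ℕ} {x y : V} (e : X.C s x y) :
    X.Des (j + 1) x ↔ X.Des j y := by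
  obtain ⟨a, ha⟩ := g.g6 _ 0 _ _ e
  have : X.Des j a ↔ X.Des j y := by
    fin_cases s
    · rw [g.g4 _ _ _ _ ha e]
    · exact g.des_R _ _ _ (g.g7 _ _ _ ha e)
  exact ⟨fun ⟨b, h1, h2⟩ => this.1 (g.g4 _ _ _ _ h1 ha ▸ h2), fun h => ⟨a, ha, this.2 h⟩⟩

theorem Geo.des_fin [Finite V] (g : X.Geo) (x : V) : ∃ j, ¬ X.Des j x := by
  by_contra H
  push Not at H
  have ex : ∀ p : {x // ∀ j, X.Des j x} × Fin 2, ∃ y : {x // ∀ j, X.Des j x}, X.C p.2 p.1 y := by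
    rintro ⟨⟨x, hx⟩, s⟩
    obtain ⟨a, ha, -⟩ := hx 1
    obtain ⟨y, hy⟩ := g.g6 _ s _ _ ha
    exact ⟨⟨y, fun j => (g.des_C hy).1 (hx _)⟩, hy⟩
  choose φ hφ using ex
  have inj : Injective φ := by
    rintro ⟨x, s⟩ ⟨y, t⟩ e
    have a := hφ (x, s)
    have b := hφ (y, t)
    rw [← e] at b
    obtain rfl : x = y := Subtype.ext (g.g5 _ _ _ _ _ a b)
    exact Prod.ext rfl (s_eq (a.2.2.2.2.symm.trans b.2.2.2.2))
  have := Nat.card_le_card_of_injective φ inj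
  have p : 0 < Nat.card {x // ∀ j, X.Des j x} := Nat.card_pos_iff.2 ⟨⟨⟨x, H⟩⟩, inferInstance⟩
  simp only [Nat.card_prod, Nat.card_eq_fintype_card, Fintype.card_fin] at this
  omega

theorem Geo.exists_cd [Finite V] (g : X.Geo) {o : V} (k : gk (X.kd o)) (t : ¬ X.Hp o) :
    ∃ h f, X.Cd h f ∧ f (0, 0) = o := by
  classical
  obtain ⟨o1, r1⟩ := g.g1 o k
  obtain ⟨o2, r2⟩ := g.g1 o1 (by have := r1.2.1; unfold kd; rwa [← this])
  have r3 := g.g10 _ _ _ t r1 r2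
  let cd : Fin 2 → V → V := fun s x => if h : ∃ y, X.C s x y then h.choose else x
  have hcd : ∀ s x, X.Hc x → X.C s x (cd s x) := fun s x ⟨y, hy⟩ => by
    have := g.g6 _ s _ _ hy
    simp only [cd, this, dif_pos]
    exact this.choose_spec
  let F : ℕ → ℕ → V := fun j => Nat.rec (motive := fun _ => ℕ → V)
    (fun i => if i = 0 then o else if i = 1 then o1 else o2)
    (fun _ p i => cd ⟨i % 2, Nat.mod_lt _ two_pos⟩ (p (i / 2))) j
  have hF : ∀ j i (s : Fin 2), F (j + 1) (2 * i + s) = cd s (F j i) := fun j i s => by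
    have := s.2
    change cd ⟨(2 * i + s) % 2, _⟩ (F j ((2 * i + s) / 2)) = _
    congr 2 <;> omega
  have hC : ∀ j i (s : Fin 2), X.Hc (F j i) → X.C s (F j i) (F (j + 1) (2 * i + s)) :=
    fun j i s h => hF j i s ▸ hcd s _ h
  have ex : ∃ j, ¬ X.Hc (F j 0) := by
    by_contra H
    push Not at H
    obtain ⟨m, hm⟩ := g.des_fin o
    have : ∀ m j, X.Des m (F j 0) := by
      intro m
      induction m with
      | zero => intro j; trivial
      | succ m ih => intro j; exact ⟨_, hcd 0 _ (H j), ih (j + 1)⟩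
    exact hm (this m 0)
  let f : ℕ × ℕ → V := fun u => F u.1 u.2
  have hcr : ∀ j, (∀ i < wd j, X.R (f (j, i)) (f (rg (j, i)))) →
      ∀ i < wd j, (X.Hc (f (j, i)) ↔ X.Hc (f (j, 0))) := fun j H i hi => by
    rw [row_const le_rfl (fun u => X.Hc (f u)) (fun u hu e => by
      subst e; exact propext (g.g9 _ _ (H _ hu.2)).1.symm) i hi]
  have row : ∀ j ≤ Nat.find ex, ∀ i < wd j, X.R (f (j, i)) (f (rg (j, i))) := by
    intro j
    induction j with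
    | zero =>
      intro _ i hi
      rw [wd_zero] at hi
      interval_cases i
      exacts [r1, r2, r3]
    | succ j ih =>
      intro hj i hi
      have hc : ∀ i < wd j, X.Hc (F j i) := fun i hi =>
        (hcr j (ih (by omega)) i hi).2 (not_not.1 (Nat.find_min ex hj))
      rw [wd_succ] at hi
      obtain ⟨a, rfl | rfl⟩ := Nat.even_or_odd' i
      · rw [rg_lt (by rw [wd_succ]; omega)]
        refine g.g7 (F j a) _ _ ?_ ?_
        · exact hC j a 0 (hc a (by omega))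
        · exact hC j a 1 (hc a (by omega))
      · have e : rg (j + 1, 2 * a + 1) = (j + 1, 2 * ((a + 1) % wd j) + (0 : Fin 2)) := by
          simp only [rg, wd_succ, ← Nat.mul_mod_mul_left]
          rfl
        rw [e]
        refine g.g8 (F j a) _ _ _ ?_ (ih (by omega) a (by omega)) ?_
        · exact hC j a 1 (hc a (by omega))
        · exact hC j _ 0 (hc ((a + 1) % wd j) (Nat.mod_lt _ (by omega)))
  have cc : ∀ u s, In (Nat.find ex) u → u.1 < Nat.find ex → X.C s (f u) (f (ch s u)) :=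
    fun u s hu hl =>
      hC _ _ s ((hcr _ (row _ hu.1) _ hu.2).2 (not_not.1 (Nat.find_min ex hl)))
  have top : ∀ i < 3, ¬ X.Hp (f (0, i)) := by
    intro i hi
    interval_cases i
    exacts [t, mt (g.g9 _ _ r1).2.2 t, mt (g.g9 _ _ r3).2.1 t]
  refine ⟨Nat.find ex, f, ⟨?_, fun u hu => row _ hu.1 _ hu.2, cc, top, fun i hi =>
    mt (hcr _ (row _ le_rfl) i hi).1 (Nat.find_spec ex)⟩, rfl⟩
  rintro ⟨j, i⟩ ⟨j', i'⟩
  induction j generalizing i j' i' with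
  | zero =>
    intro hu hv e
    rcases j' with _ | j'
    · have e1 := r1.2.2.2.2
      have e2 := r2.2.2.2.2
      have e3 : ∀ i < 3, (cl (X.col (f (0, i)))).idx = (cl (X.col o)).idx + i := by
        intro i hi
        interval_cases i
        · simp [f, F]
        · exact e1
        · exact e2.trans (by rw [e1]; push_cast; ring)
      have := (e3 i hu.2).symm.trans (e ▸ e3 i' hv.2)
      have := (ZMod.natCast_eq_natCast_iff' _ _ 3).1 (add_left_cancel this)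
      rw [Nat.mod_eq_of_lt (show i < 3 from hu.2), Nat.mod_eq_of_lt (show i' < 3 from hv.2)] at this
      rw [this]
    · obtain ⟨s, v, h1, h2, e'⟩ := exists_par hv
      exact (top i hu.2 (e ▸ e' ▸ hp_of (cc v s h1 h2))).elim
  | succ j ih =>
    intro hu hv e
    obtain ⟨s, v, h1, h2, e1⟩ := exists_par hu
    have a := cc v s h1 h2
    rw [e1, e] at a
    rcases j' with _ | j'
    · exact (top i' hv.2 (hp_of a)).elim
    · obtain ⟨s', v', h3, h4, e2⟩ := exists_par hv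
      have b := cc v' s' h3 h4
      rw [e2] at b
      have e3 := g.g5 _ _ _ _ _ a b
      have e4 : v.1 = j := by simpa [ch] using congrArg Prod.fst e1
      subst e4
      obtain rfl : v = v' := ih v.2 v'.1 v'.2 h1 h3 e3
      rw [← e1, ← e2, s_eq (a.2.2.2.2.symm.trans b.2.2.2.2)]

theorem Geo.cover [Finite V] (g : X.Geo) (x : V) (k : gk (X.kd x)) :
    ∃ h f u, X.Cd h f ∧ In h u ∧ f u = x := by
  classical
  let μ : V → ℕ := fun x => Nat.find (g.des_fin x)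
  obtain ⟨B, hB⟩ := Finite.exists_le μ
  have lt : ∀ s x y, X.C s x y → μ y < μ x := fun s x y e => by
    have := Nat.find_spec (g.des_fin x)
    rcases e' : Nat.find (g.des_fin x) with _ | m
    · rw [e'] at this; exact (this trivial).elim
    · rw [e', g.des_C e] at this
      exact (Nat.lt_succ_of_le (Nat.find_min' _ this)).trans_eq e'.symm
  induction hm : B - μ x using Nat.strong_induction_on generalizing x with
  | _ m ih =>
    by_cases hp : X.Hp x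
    · obtain ⟨s, y, e⟩ := hp.ex
      have := lt _ _ _ e
      have := hB y
      obtain ⟨h, f, u, c, hu, rfl⟩ := ih _ (by omega) y e.2.2.1 rfl
      rw [c.C_iff g hu] at e
      exact ⟨h, f, _, c, hu.ch e.1 s, e.2.symm⟩
    · obtain ⟨h, f, c, e⟩ := g.exists_cd k hp
      exact ⟨h, f, (0, 0), c, ⟨Nat.zero_le _, by decide⟩, e⟩

end CG

end Pool.Agent.H30.Ld
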