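import Pool.Agent.H30.LdF
import Pool.Agent.H30.LdB

/-! The axioms, semantically and as a formula. -/

namespace Pool.Agent.H30.Ld

open Function

def al (k l : ℕ) : Prop :=
  (k = 0 ∧ l = 1) ∨ (k = 2 ∧ l = 1) ∨ (k = 2 ∧ l = 3) ∨ (k = 4 ∧ (l = 0 ∨ l = 1 ∨ l = 3)) ∨ l = 5

def can (M : Mc) (a b : ZMod 3) : Lab M.Q :=
  ⟨a, b, false, false, false, false, false, false, M.h, none⟩

noncomputable def allL (α : Type) [Finite α] : List α :=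
  (@Finset.univ α (Fintype.ofFinite α)).toList

theorem mem_allL {α : Type} [Finite α] (a : α) : a ∈ allL α ↔ True := by simp [allL]

instance (M : Mc) : Finite M.Q := M.fin

namespace CG
variable {M : Mc} {V : Type} (X : CG M.Q V)

def Cor (k : ℕ) (x : V) : Prop := X.kd x = k ∧ ¬ X.Hp x ∧ (X.lb x).idx = 0
def Lb (p t u : V) : Prop := X.kd u = 2 ∧ X.G.Adj u p ∧ X.G.Adj u t
def Lk (x p a t : V) : Prop :=
  X.kd p = 3 ∧ X.kd a = 0 ∧ X.kd t = 1 ∧ X.G.Adj x p ∧ X.G.Adj x a ∧ X.G.Adj x t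
def Fs (t : V) : Prop := ∃ a, X.kd a = 0 ∧ X.G.Adj a t
def Wk (n : ℕ) (x y : V) : Prop := It (X.C 0) (2 ^ n) x y

def Gd (n : ℕ) (p : V) : Prop := X.kd p = 3 ∧
  (∀ t t' u u', X.kd t = 1 → X.Lb p t u → X.Lb p t' u' →
    (X.R t t' → RH (X.lb u) (X.lb u') ∧ (¬ X.Hp t → RT (X.lb u) (X.lb u'))) ∧
      ∀ s, X.C s t t' → RV s (X.lb u) (X.lb u')) ∧
  (∀ t u, X.kd t = 1 → X.Lb p t u → ¬ X.Hc t → RB (X.lb u)) ∧
  ∀ o u, X.Cor 1 o → X.Lb p o u →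
    ((X.lb u).sl = false → (X.lb u).idx = 0 ∧
      (∃ y z a b, X.Wk n o y ∧ X.C 0 y z ∧ X.Lb p y a ∧ X.Lb p z b ∧ (X.lb a).pre = true ∧
        (X.lb b).pre = false) ∧
      ∀ t a, X.kd t = 1 → ¬ X.Hc t → X.Lb p t a → (X.lb a).bb = true) ∧
    ((X.lb u).sl = true → ∀ t a, X.kd t = 1 → (X.Fs t ∨ ∃ t', X.R t t' ∧ X.Fs t') →
      X.Lb p t a → (X.lb a).sl = true)

structure Ax (n : ℕ) : Prop where
  geo : X.Geo
  e1 : ∀ x y, X.G.Adj x y → X.kd x ≠ X.kd y → al (X.kd x) (X.kd y) ∨ al (X.kd y) (X.kd x)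
  k1 : ∀ x, (X.kd x = 0 ∨ X.kd x = 1) →
    X.lb x = can M (X.lb x).lev (X.lb x).idx ∧ (¬ X.Hp x → (X.lb x).lev = 0)
  k2 : ∀ x, X.kd x = 3 → X.lb x = can M 0 0
  a2 : ∀ x y, X.Cor 0 x → X.Cor 0 y → x = y
  a3 : ∀ x y, X.Cor 1 x → X.Cor 1 y → x = y
  m1 : ∀ a t, X.kd a = 0 → X.kd t = 1 → X.G.Adj a t → ¬ X.Hc a
  m2 : ∀ a, X.kd a = 0 → ¬ X.Hc a → ∃ t, X.kd t = 1 ∧ X.G.Adj a t
  m3 : ∀ a t t', X.kd a = 0 → X.kd t = 1 → X.kd t' = 1 → X.G.Adj a t → X.G.Adj a t' → t = t'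
  m4 : ∀ a a' t, X.kd a = 0 → X.kd a' = 0 → X.kd t = 1 → X.G.Adj a t → X.G.Adj a' t → a = a'
  m5 : ∀ a a' t t', X.kd a = 0 → X.kd t = 1 → X.kd t' = 1 → X.G.Adj a t → X.R a a' →
    X.G.Adj a' t' → (X.Hc t → X.C 0 t t') ∧ (¬ X.Hc t → X.Cor 1 t')
  m6 : ∃ o y t, X.Cor 0 o ∧ X.Wk n o y ∧ ¬ X.Hc y ∧ X.Cor 1 t ∧ X.G.Adj y t
  u1 : ∀ u, X.kd u = 2 → ∃ t, X.kd t = 1 ∧ X.G.Adj u t
  u2 : ∀ u t t', X.kd u = 2 → X.kd t = 1 → X.kd t' = 1 → X.G.Adj u t → X.G.Adj u t' → t = t'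
  u3 : ∀ t, X.kd t = 1 → ∀ l, ∃ u, (X.kd u = 2 ∧ X.lb u = l) ∧ X.G.Adj u t
  u4 : ∀ t u u', X.kd t = 1 → X.kd u = 2 → X.kd u' = 2 → X.lb u = X.lb u' → X.G.Adj u t →
    X.G.Adj u' t → u = u'
  p1 : ∀ p t, X.kd p = 3 → X.kd t = 1 → ∃ u, X.Lb p t u
  p2 : ∀ p t u u', X.kd p = 3 → X.kd t = 1 → X.Lb p t u → X.Lb p t u' → u = u'
  p3 : ∀ p p', X.kd p = 3 → X.kd p' = 3 →
    (∀ u, X.kd u = 2 → (X.G.Adj u p ↔ X.G.Adj u p')) → p = p'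
  p4 : ∀ p u, X.kd p = 3 → X.kd u = 2 → ∃ p', X.kd p' = 3 ∧ X.G.Adj u p' ∧ ∀ u', X.kd u' = 2 →
    (¬ ∃ t, X.kd t = 1 ∧ X.G.Adj u t ∧ X.G.Adj u' t) → (X.G.Adj u' p ↔ X.G.Adj u' p')
  p5 : ∃ p, X.kd p = 3
  x1 : ∀ x y, X.kd x = 4 → X.R x y → RH (X.lb x) (X.lb y) ∧ (¬ X.Hp x → RT (X.lb x) (X.lb y))
  x2 : ∀ s x y, X.kd x = 4 → X.C s x y → RV s (X.lb x) (X.lb y)
  x3 : ∀ x, X.kd x = 4 → ¬ X.Hc x → RB (X.lb x)
  x4 : ∀ x, X.Cor 4 x → (X.lb x).sl = false → ∃ y z, X.Wk n x y ∧ X.C 0 y z ∧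
    (X.lb y).pre = true ∧ (X.lb z).pre = false
  l1 : ∀ x y, X.kd x = 4 → (X.kd y = 0 ∨ X.kd y = 1 ∨ X.kd y = 3) → X.G.Adj x y → (X.lb x).lk
  l2 : ∀ x, X.kd x = 4 → (X.lb x).lk → ∃ p a t, X.Lk x p a t
  l3 : ∀ x y z, X.kd x = 4 → X.kd y = X.kd z → (X.kd y = 0 ∨ X.kd y = 1 ∨ X.kd y = 3) →
    X.G.Adj x y → X.G.Adj x z → y = z
  l4 : ∀ x p a t, X.kd x = 4 → X.Lk x p a t → X.Gd n p ∧ (∀ u, X.Lb p t u → X.lb u = X.lb x) ∧
    (X.Hp x ↔ X.Hp t) ∧ (X.Hc x ↔ X.Hc t)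
  l5 : ∀ x p a t y t' u, X.kd x = 4 → X.Lk x p a t → ((X.R x y ∧ X.R t t') ∨
    (X.C 0 x y ∧ X.C 0 t t') ∨ (X.C 1 x y ∧ X.C 1 t t')) → X.Lb p t' u →
    X.lb y = X.lb u ∧ ((X.lb y).lk → X.Lk y p a t')
  l6 : ∀ p a t u, X.Gd n p → X.kd a = 0 → X.kd t = 1 → X.Lb p t u → (X.lb u).lk →
    ∃ x, X.kd x = 4 ∧ X.Lk x p a t
  l7 : ∀ x y p a t, X.kd x = 4 → X.kd y = 4 → X.Lk x p a t → X.Lk y p a t → x = y

structure Pal (pal : Co M.Q → V) : Prop where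
  h1 : ∀ x c, X.col x = .inr c ↔ x = pal c
  h2 : ∀ x c d, X.col x = .inl d → (X.G.Adj x (pal c) ↔ c = d)

end CG

variable {M : Mc}

abbrev F (M : Mc) := Fm (Co M.Q)

noncomputable def isF : Cl M.Q → ℕ → F M
  | .inl c, i => .an (.adj (.inl i) (.inr c)) (.cj (allL _) fun d => .nt (.eq (.inl i) (.inr d)))
  | .inr c, i => .eq (.inl i) (.inr c)

open Classical in
noncomputable def c2 (i j : ℕ) (r : Cl M.Q → Cl M.Q → Prop) : F M :=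
  .dj (allL (Cl M.Q × Cl M.Q)) fun c => if r c.1 c.2 then .an (isF c.1 i) (isF c.2 j) else .fls

open Classical in
noncomputable def fWC : F M := .all 0 (.dj (allL _) fun c => .an (isF c 0)
  (.cj (allL _) fun d => if d = c then .nt .fls else .nt (isF d 0)))

def fA (i j : ℕ) : F M := .adj (.inl i) (.inl j)
def fE (i j : ℕ) : F M := .eq (.inl i) (.inl j)
noncomputable def fK (k i : ℕ) : F M := c2 i i fun c _ => ck c = k
noncomputable def fR (i j : ℕ) : F M := .an (fA i j) (c2 i j rR)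
noncomputable def fC (s : Fin 2) (i j : ℕ) : F M := .an (fA i j) (c2 i j (rC s))
noncomputable def fHc (i : ℕ) : F M := .ex 30 (fC 0 i 30)
noncomputable def fHp (i : ℕ) : F M := .ex 30 (.orr (fC 0 30 i) (fC 1 30 i))
noncomputable def fCor (k i : ℕ) : F M :=
  .an (fK k i) (.an (.nt (fHp i)) (c2 i i fun c _ => (cl c).idx = 0))
noncomputable def fLb (p t u : ℕ) : F M := .an (fK 2 u) (.an (fA u p) (fA u t))
noncomputable def fLk (x p a t : ℕ) : F M :=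
  .an (fK 3 p) (.an (fK 0 a) (.an (fK 1 t) (.an (fA x p) (.an (fA x a) (fA x t)))))
noncomputable def fFs (t : ℕ) : F M := .ex 30 (.an (fK 0 30) (fA 30 t))
noncomputable def fWk (x y : ℕ) : F M := .walk x y 31 32 (fC 0 31 32)
noncomputable def fGd (p : ℕ) : F M :=
  (.an (fK 3 p) (.an (.all 10 (.all 11 (.all 12 (.all 13 (.imp (fK 1 10) (.imp (fLb p 10 12) (.imp
  (fLb p 11 13) (.an (.imp (fR 10 11) (.an (c2 12 13 fun c d => RH (cl c) (cl d)) (.imp (.nt (fHp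
  10)) (c2 12 13 fun c d => RT (cl c) (cl d))))) (.cj (List.finRange 2) fun s => (.imp (fC s 10
  11) (c2 12 13 fun c d => RV s (cl c) (cl d)))))))))))) (.an (.all 10 (.all 12 (.imp (fK 1 10)
  (.imp (fLb p 10 12) (.imp (.nt (fHc 10)) (c2 12 12 fun c _ => RB (cl c))))))) (.all 10 (.all 12
  (.imp (fCor 1 10) (.imp (fLb p 10 12) (.an (.imp (c2 12 12 fun c _ => (cl c).sl = false) (.an
  (c2 12 12 fun c _ => (cl c).idx = 0) (.an (.ex 13 (.ex 14 (.ex 15 (.ex 16 (.an (fWk 10 13) (.an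
  (fC 0 13 14) (.an (fLb p 13 15) (.an (fLb p 14 16) (.an (c2 15 15 fun c _ => (cl c).pre = true)
  (c2 16 16 fun c _ => (cl c).pre = false)))))))))) (.all 13 (.all 14 (.imp (fK 1 13) (.imp (.nt
  (fHc 13)) (.imp (fLb p 13 14) (c2 14 14 fun c _ => (cl c).bb = true))))))))) (.imp (c2 12 12 fun
  c _ => (cl c).sl = true) (.all 13 (.all 14 (.imp (fK 1 13) (.imp (.orr (fFs 13) (.ex 15 (.an (fR
  13 15) (fFs 15)))) (.imp (fLb p 13 14) (c2 14 14 fun c _ => (cl c).sl = true)))))))))))))))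

noncomputable def fg1 : F M :=
  (.all 0 (.imp (c2 0 0 fun c _ => gk (ck c)) (.ex 1 (fR 0 1))))
noncomputable def fg2 : F M :=
  (.all 0 (.all 1 (.all 2 (.imp (fR 0 1) (.imp (fR 0 2) (fE 1 2))))))
noncomputable def fg3 : F M :=
  (.all 0 (.all 1 (.all 2 (.imp (fR 0 2) (.imp (fR 1 2) (fE 0 1))))))
noncomputable def fg4 : F M :=
  (.cj (List.finRange 2) fun s => (.all 0 (.all 1 (.all 2 (.imp (fC s 0 1) (.imp (fC s 0 2) (fE 1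
  2)))))))
noncomputable def fg5 : F M :=
  (.cj (List.finRange 2) fun s => (.cj (List.finRange 2) fun t => (.all 0 (.all 1 (.all 2 (.imp
  (fC s 0 2) (.imp (fC t 1 2) (fE 0 1))))))))
noncomputable def fg6 : F M :=
  (.cj (List.finRange 2) fun s => (.cj (List.finRange 2) fun t => (.all 0 (.all 1 (.imp (fC s 0 1)
  (.ex 2 (fC t 0 2)))))))
noncomputable def fg7 : F M :=
  (.all 0 (.all 1 (.all 2 (.imp (fC 0 0 1) (.imp (fC 1 0 2) (fR 1 2))))))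
noncomputable def fg8 : F M :=
  (.all 0 (.all 1 (.all 2 (.all 3 (.imp (fC 1 0 1) (.imp (fR 0 2) (.imp (fC 0 2 3) (fR 1 3))))))))
noncomputable def fg9 : F M :=
  (.all 0 (.all 1 (.imp (fR 0 1) (.an (.iff (fHc 0) (fHc 1)) (.iff (fHp 0) (fHp 1))))))
noncomputable def fg10 : F M :=
  (.all 0 (.all 1 (.all 2 (.imp (.nt (fHp 0)) (.imp (fR 0 1) (.imp (fR 1 2) (fR 2 0)))))))
noncomputable def fg11 : F M :=
  (.all 0 (.all 1 (.imp (fA 0 1) (.imp (c2 0 1 fun c d => ck c = ck d) (.orr (fR 0 1) (.orr (fR 1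
  0) (.orr (fC 0 0 1) (.orr (fC 1 0 1) (.orr (fC 0 1 0) (fC 1 1 0))))))))))
noncomputable def fe1 : F M :=
  (.all 0 (.all 1 (.imp (fA 0 1) (c2 0 1 fun c d => ck c ≠ ck d → al (ck c) (ck d) ∨ al (ck d) (ck
  c)))))
noncomputable def fk1 : F M :=
  (.all 0 (.imp (c2 0 0 fun c _ => ck c = 0 ∨ ck c = 1) (.an (c2 0 0 fun c _ => cl c = can M (cl
  c).lev (cl c).idx) (.imp (.nt (fHp 0)) (c2 0 0 fun c _ => (cl c).lev = 0)))))
noncomputable def fk2 : F M :=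
  (.all 0 (.imp (fK 3 0) (c2 0 0 fun c _ => cl c = can M 0 0)))
noncomputable def fa2 : F M :=
  (.all 0 (.all 1 (.imp (fCor 0 0) (.imp (fCor 0 1) (fE 0 1)))))
noncomputable def fa3 : F M :=
  (.all 0 (.all 1 (.imp (fCor 1 0) (.imp (fCor 1 1) (fE 0 1)))))
noncomputable def fm1 : F M :=
  (.all 0 (.all 1 (.imp (fK 0 0) (.imp (fK 1 1) (.imp (fA 0 1) (.nt (fHc 0)))))))
noncomputable def fm2 : F M :=
  (.all 0 (.imp (fK 0 0) (.imp (.nt (fHc 0)) (.ex 1 (.an (fK 1 1) (fA 0 1))))))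
noncomputable def fm3 : F M :=
  (.all 0 (.all 1 (.all 2 (.imp (fK 0 0) (.imp (fK 1 1) (.imp (fK 1 2) (.imp (fA 0 1) (.imp (fA 0
  2) (fE 1 2)))))))))
noncomputable def fm4 : F M :=
  (.all 0 (.all 1 (.all 2 (.imp (fK 0 0) (.imp (fK 0 1) (.imp (fK 1 2) (.imp (fA 0 2) (.imp (fA 1
  2) (fE 0 1)))))))))
noncomputable def fm5 : F M :=
  (.all 0 (.all 1 (.all 2 (.all 3 (.imp (fK 0 0) (.imp (fK 1 2) (.imp (fK 1 3) (.imp (fA 0 2)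
  (.imp (fR 0 1) (.imp (fA 1 3) (.an (.imp (fHc 2) (fC 0 2 3)) (.imp (.nt (fHc 2)) (fCor 1
  3)))))))))))))
noncomputable def fm6 : F M :=
  (.ex 0 (.ex 1 (.ex 2 (.an (fCor 0 0) (.an (fWk 0 1) (.an (.nt (fHc 1)) (.an (fCor 1 2) (fA 1
  2))))))))
noncomputable def fu1 : F M :=
  (.all 0 (.imp (fK 2 0) (.ex 1 (.an (fK 1 1) (fA 0 1)))))
noncomputable def fu2 : F M :=
  (.all 0 (.all 1 (.all 2 (.imp (fK 2 0) (.imp (fK 1 1) (.imp (fK 1 2) (.imp (fA 0 1) (.imp (fA 0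
  2) (fE 1 2)))))))))
noncomputable def fu3 : F M :=
  (.all 0 (.imp (fK 1 0) (.cj (allL _) fun l => (.ex 1 (.an (c2 1 1 fun c _ => ck c = 2 ∧ cl c =
  l) (fA 1 0))))))
noncomputable def fu4 : F M :=
  (.all 0 (.all 1 (.all 2 (.imp (fK 1 0) (.imp (fK 2 1) (.imp (fK 2 2) (.imp (c2 1 2 fun c d => cl
  c = cl d) (.imp (fA 1 0) (.imp (fA 2 0) (fE 1 2))))))))))
noncomputable def fp1 : F M :=
  (.all 0 (.all 1 (.imp (fK 3 0) (.imp (fK 1 1) (.ex 2 (fLb 0 1 2))))))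
noncomputable def fp2 : F M :=
  (.all 0 (.all 1 (.all 2 (.all 3 (.imp (fK 3 0) (.imp (fK 1 1) (.imp (fLb 0 1 2) (.imp (fLb 0 1
  3) (fE 2 3)))))))))
noncomputable def fp3 : F M :=
  (.all 0 (.all 1 (.imp (fK 3 0) (.imp (fK 3 1) (.imp (.all 2 (.imp (fK 2 2) (.iff (fA 2 0) (fA 2
  1)))) (fE 0 1))))))
noncomputable def fp4 : F M :=
  (.all 0 (.all 1 (.imp (fK 3 0) (.imp (fK 2 1) (.ex 2 (.an (fK 3 2) (.an (fA 1 2) (.all 3 (.imp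
  (fK 2 3) (.imp (.nt (.ex 4 (.an (fK 1 4) (.an (fA 1 4) (fA 3 4))))) (.iff (fA 3 0) (fA 3
  2))))))))))))
noncomputable def fp5 : F M :=
  (.ex 0 (fK 3 0))
noncomputable def fx1 : F M :=
  (.all 0 (.all 1 (.imp (fK 4 0) (.imp (fR 0 1) (.an (c2 0 1 fun c d => RH (cl c) (cl d)) (.imp
  (.nt (fHp 0)) (c2 0 1 fun c d => RT (cl c) (cl d))))))))
noncomputable def fx2 : F M :=
  (.cj (List.finRange 2) fun s => (.all 0 (.all 1 (.imp (fK 4 0) (.imp (fC s 0 1) (c2 0 1 fun c d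
  => RV s (cl c) (cl d)))))))
noncomputable def fx3 : F M :=
  (.all 0 (.imp (fK 4 0) (.imp (.nt (fHc 0)) (c2 0 0 fun c _ => RB (cl c)))))
noncomputable def fx4 : F M :=
  (.all 0 (.imp (fCor 4 0) (.imp (c2 0 0 fun c _ => (cl c).sl = false) (.ex 1 (.ex 2 (.an (fWk 0
  1) (.an (fC 0 1 2) (.an (c2 1 1 fun c _ => (cl c).pre = true) (c2 2 2 fun c _ => (cl c).pre =
  false)))))))))
noncomputable def fl1 : F M :=
  (.all 0 (.all 1 (.imp (fK 4 0) (.imp (.orr (fK 0 1) (.orr (fK 1 1) (fK 3 1))) (.imp (fA 0 1) (c2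
  0 0 fun c _ => (cl c).lk))))))
noncomputable def fl2 : F M :=
  (.all 0 (.imp (fK 4 0) (.imp (c2 0 0 fun c _ => (cl c).lk) (.ex 1 (.ex 2 (.ex 3 (fLk 0 1 2
  3)))))))
noncomputable def fl3 : F M :=
  (.all 0 (.all 1 (.all 2 (.imp (fK 4 0) (.imp (c2 1 2 fun c d => ck c = ck d) (.imp (.orr (fK 0
  1) (.orr (fK 1 1) (fK 3 1))) (.imp (fA 0 1) (.imp (fA 0 2) (fE 1 2)))))))))
noncomputable def fl4 : F M :=
  (.all 0 (.all 1 (.all 2 (.all 3 (.imp (fK 4 0) (.imp (fLk 0 1 2 3) (.an (fGd 1) (.an (.all 4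
  (.imp (fLb 1 3 4) (c2 4 0 fun c d => cl c = cl d))) (.an (.iff (fHp 0) (fHp 3)) (.iff (fHc 0)
  (fHc 3)))))))))))
noncomputable def fl5 : F M :=
  (.all 0 (.all 1 (.all 2 (.all 3 (.all 4 (.all 5 (.all 6 (.imp (fK 4 0) (.imp (fLk 0 1 2 3) (.imp
  (.orr (.an (fR 0 4) (fR 3 5)) (.orr (.an (fC 0 0 4) (fC 0 3 5)) (.an (fC 1 0 4) (fC 1 3 5))))
  (.imp (fLb 1 5 6) (.an (c2 4 6 fun c d => cl c = cl d) (.imp (c2 4 4 fun c _ => (cl c).lk) (fLk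
  4 1 2 5))))))))))))))
noncomputable def fl6 : F M :=
  (.all 1 (.all 2 (.all 3 (.all 4 (.imp (fGd 1) (.imp (fK 0 2) (.imp (fK 1 3) (.imp (fLb 1 3 4)
  (.imp (c2 4 4 fun c _ => (cl c).lk) (.ex 0 (.an (fK 4 0) (fLk 0 1 2 3))))))))))))
noncomputable def fl7 : F M :=
  (.all 0 (.all 4 (.all 1 (.all 2 (.all 3 (.imp (fK 4 0) (.imp (fK 4 4) (.imp (fLk 0 1 2 3) (.imp
  (fLk 4 1 2 3) (fE 0 4))))))))))

noncomputable def fAx : F M := .cj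
  [fg1, fg2, fg3, fg4, fg5, fg6, fg7, fg8, fg9, fg10, fg11, fe1, fk1, fk2, fa2, fa3, fm1, fm2,
  fm3, fm4, fm5, fm6, fu1, fu2, fu3, fu4, fp1, fp2, fp3, fp4, fp5, fx1, fx2, fx3, fx4, fl1, fl2,
  fl3, fl4, fl5, fl6, fl7] id

variable {V : Type}

def Is (G : SimpleGraph V) (pal : Co M.Q → V) : Cl M.Q → V → Prop
  | .inl c, x => G.Adj x (pal c) ∧ ∀ d, x ≠ pal d
  | .inr c, x => x = pal c

theorem ev_isF (G : SimpleGraph V) (pal : Co M.Q → V) (n : ℕ) (c : Cl M.Q) (i : ℕ) (e : ℕ → V) :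
    ev G pal n (isF c i) e ↔ Is G pal c (e i) := by
  cases c
  · simp [isF, Is, mem_allL, ev]
  · rfl

theorem ev_fWC (G : SimpleGraph V) (pal : Co M.Q → V) (n : ℕ) (e : ℕ → V) :
    ev G pal n fWC e ↔ ∀ x, ∃ c, Is G pal c x ∧ ∀ d, Is G pal d x → d = c := by
  simp only [fWC, ev_all, ev_dj, ev_an, ev_cj, mem_allL, true_and, forall_true_left, ev_isF,
    update_self]
  refine forall_congr' fun x => exists_congr fun c => and_congr_right' (forall_congr' fun d => ?_)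
  split_ifs with h <;> simp [h, ev_isF, ev]

theorem CG.Pal.is {X : CG M.Q V} {pal : Co M.Q → V} (h : X.Pal pal) (c : Cl M.Q) (x : V) :
    Is X.G pal c x ↔ X.col x = c := by
  rcases c with c | c
  · constructor
    · rintro ⟨h1, h2⟩
      rcases e : X.col x with d | d
      · rw [(h.h2 x c d e).1 h1]
      · exact (h2 d ((h.h1 x d).1 e)).elim
    · intro e
      exact ⟨(h.h2 x c c e).2 rfl, fun d hd => by rw [(h.h1 x d).2 hd] at e; cases e⟩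
  · exact (h.h1 x c).symm

theorem wc_iff (G : SimpleGraph V) (pal : Co M.Q → V) (n : ℕ) (e : ℕ → V) :
    ev G pal n fWC e ↔ ∃ col, CG.Pal ⟨G, col⟩ pal := by
  rw [ev_fWC]
  constructor
  · intro h
    choose col h1 h2 using h
    refine ⟨col, fun x c => ⟨fun e => by have := h1 x; rwa [show col x = _ from e] at this,
      fun e => (h2 x (.inr c) e).symm⟩, fun x c d e => ?_⟩
    have := h1 x
    rw [show col x = _ from e] at this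
    exact ⟨fun a => Sum.inl_injective ((h2 x (.inl c) ⟨a, this.2⟩).trans e), fun a => a ▸ this.1⟩
  · rintro ⟨col, h⟩ x
    exact ⟨col x, (h.is _ _).2 rfl, fun d hd => ((h.is _ _).1 hd).symm⟩

section
variable {X : CG M.Q V} {pal : Co M.Q → V} (h : X.Pal pal) (n : ℕ) (e : ℕ → V)
include h

theorem ev_c2 (i j : ℕ) (r : Cl M.Q → Cl M.Q → Prop) :
    ev X.G pal n (c2 i j r) e ↔ r (X.col (e i)) (X.col (e j)) := by
  simp only [c2, ev_dj, mem_allL, true_and]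
  constructor
  · rintro ⟨c, hc⟩
    split_ifs at hc with h1
    · rw [ev_an, ev_isF, ev_isF, h.is, h.is] at hc
      rwa [hc.1, hc.2]
    · exact hc.elim
  · intro h1
    refine ⟨(X.col (e i), X.col (e j)), ?_⟩
    rw [if_pos h1, ev_an, ev_isF, ev_isF, h.is, h.is]
    exact ⟨rfl, rfl⟩

omit h in
theorem ev_fA (i j : ℕ) : ev X.G pal n (fA i j) e ↔ X.G.Adj (e i) (e j) := Iff.rfl
omit h in
theorem ev_fE (i j : ℕ) : ev X.G pal n (fE i j) e ↔ e i = e j := Iff.rfl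
omit h in
theorem ev_walk (i j a b : ℕ) (φ : F M) : ev X.G pal n (.walk i j a b φ) e ↔
    It (fun x y => ev X.G pal n φ (update (update e a x) b y)) (2 ^ n) (e i) (e j) := Iff.rfl

theorem ev_fAx : ev X.G pal n fAx e ↔ X.Ax n := by
  simp only [fAx, ev_cj, List.forall_mem_cons, id, List.not_mem_nil, false_imp_iff, implies_true,
    and_true]
  simp only [fg1, fg2, fg3, fg4, fg5, fg6, fg7, fg8, fg9, fg10, fg11, fe1, fk1, fk2, fa2, fa3, fm1, fm2,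
    fm3, fm4, fm5, fm6, fu1, fu2, fu3, fu4, fp1, fp2, fp3, fp4, fp5, fx1, fx2, fx3, fx4, fl1, fl2,
    fl3, fl4, fl5, fl6, fl7,
    fGd, fK, fR, fC, fHc, fHp, fCor, fLb, fLk, fFs, fWk, ev_imp, ev_all, ev_nt, ev_an, ev_orr,
    ev_iff, ev_ex, ev_cj, ev_c2 h, ev_fA, ev_fE, ev_walk, mem_allL, List.mem_finRange,
    forall_true_left, update_apply, Nat.reduceEqDiff, ↓reduceIte]
  constructor
  · rintro ⟨g1, g2, g3, g4, g5, g6, g7, g8, g9, g10, g11, e1, k1, k2, a2, a3, m1, m2, m3, m4, m5, m6,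
      u1, u2, u3, u4, p1, p2, p3, p4, p5, x1, x2, x3, x4, l1, l2, l3, l4, l5, l6, l7⟩
    exact ⟨⟨g1, g2, g3, g4, g5, g6, g7, g8, g9, g10, g11⟩,
      e1, k1, k2, a2, a3, m1, m2, m3, m4, m5, m6, u1, u2, u3, u4, p1, p2, p3, p4, p5, x1, x2, x3,
      x4, l1, l2, l3, l4, l5, l6, l7⟩
  · intro a
    exact ⟨a.geo.g1, a.geo.g2, a.geo.g3, a.geo.g4, a.geo.g5, a.geo.g6, a.geo.g7, a.geo.g8, a.geo.g9,
      a.geo.g10, a.geo.g11, a.e1, a.k1, a.k2, a.a2, a.a3, a.m1, a.m2, a.m3, a.m4, a.m5, a.m6,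
      a.u1, a.u2, a.u3, a.u4, a.p1, a.p2, a.p3, a.p4, a.p5, a.x1, a.x2, a.x3, a.x4, a.l1, a.l2,
      a.l3, a.l4, a.l5, a.l6, a.l7⟩

end

noncomputable def psi (M : Mc) : F M := .an fWC fAx

theorem md_iff (c0 : Co M.Q) (n : ℕ) (G : SimpleGraph V) :
    Md (psi M) c0 n G ↔ ∃ pal col, CG.Pal ⟨G, col⟩ pal ∧ CG.Ax (M := M) ⟨G, col⟩ n := by
  refine exists_congr fun pal => ?_
  rw [psi, ev_an, wc_iff]
  exact ⟨fun ⟨⟨col, h⟩, h'⟩ => ⟨col, h, (ev_fAx h _ _).1 h'⟩,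
    fun ⟨col, h, h'⟩ => ⟨⟨col, h⟩, (ev_fAx h _ _).2 h'⟩⟩

end Pool.Agent.H30.Ld
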