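import Pool.Agent.H30.LdG

/-! Template coordinates in models, and the grid components attached to good labellings. -/

namespace Pool.Agent.H30.Ld

open Function

theorem in0 {h j : ℕ} (hj : j ≤ h) : In h (j, 0) := ⟨hj, by have := wd_ge j; dsimp only; omega⟩

namespace CG
variable {M : Mc} {V : Type} {X : CG M.Q V} {h n : ℕ} {f : ℕ × ℕ → V}

theorem Cd.walk (g : X.Geo) (c : X.Cd h f) (k : ℕ) (y : V) :
    It (X.C 0) k (f (0, 0)) y ↔ k ≤ h ∧ y = f (k, 0) := by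
  induction k generalizing y with
  | zero => simp [It, eq_comm]
  | succ k ih =>
    simp only [It, ih]
    constructor
    · rintro ⟨z, ⟨h1, rfl⟩, h2⟩
      rw [c.C_iff g (in0 h1)] at h2
      exact h2
    · rintro ⟨h1, rfl⟩
      exact ⟨_, ⟨by omega, rfl⟩, c.c _ 0 (in0 (by omega)) h1⟩

theorem Cd.li (c : X.Cd h f) (h0 : (X.lb (f (0, 0))).idx = 0) : ∀ j i, In h (j, i) →
    (X.lb (f (j, i))).lev = (X.lb (f (0, 0))).lev + j ∧ (X.lb (f (j, i))).idx = i := by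
  intro j
  induction j with
  | zero =>
    intro i
    induction i with
    | zero => intro _; simp [h0]
    | succ i ih =>
      intro hi
      have hu : In h (0, i) := ⟨hi.1, by have := hi.2; dsimp only at *; omega⟩
      have := (c.r _ hu).2.2.2
      rw [rg_lt hi.2] at this
      exact ⟨this.1.trans (ih hu).1, this.2.trans (by rw [← lb, (ih hu).2]; simp)⟩
  | succ j ih =>
    intro i hi
    obtain ⟨s, ⟨a, b⟩, h1, h2, e⟩ := exists_par hi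
    have := (c.c _ s h1 h2).2.2.2
    rw [e] at this
    simp only [ch, Prod.mk.injEq, Nat.add_right_cancel_iff] at e
    obtain ⟨rfl, rfl⟩ := e
    exact ⟨this.1.trans (by rw [← lb, (ih _ h1).1]; push_cast; ring),
      this.2.trans (by rw [← lb, (ih _ h1).2]; simp)⟩

theorem Geo.cover0 [Finite V] (g : X.Geo) (x : V) (k : gk (X.kd x)) :
    ∃ h f u, X.Cd h f ∧ In h u ∧ f u = x ∧ X.Cor (X.kd x) (f (0, 0)) := by
  obtain ⟨h, f, u, c, hu, rfl⟩ := g.cover x k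
  have e1 := (c.r (0, 0) (in0 (Nat.zero_le _))).2.2.2.2
  have e2 := (c.r (0, 1) ⟨Nat.zero_le _, by decide⟩).2.2.2.2
  change (X.lb (f (0, 1))).idx = (X.lb (f (0, 0))).idx + 1 at e1
  change (X.lb (f (0, 2))).idx = (X.lb (f (0, 1))).idx + 1 at e2
  have : ∃ i < 3, (X.lb (f (0, i))).idx = 0 := by
    have z : ∀ a : ZMod 3, a = 0 ∨ a + 1 = 0 ∨ a + 1 + 1 = 0 := by decide
    rcases z (X.lb (f (0, 0))).idx with e | e | e
    exacts [⟨0, by decide, e⟩, ⟨1, by decide, e1.trans e⟩, ⟨2, by decide, by rw [e2, e1, e]⟩]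
  obtain ⟨i, hi, e⟩ := this
  have hv : In h (0, i) := ⟨Nat.zero_le _, hi⟩
  have e3 : X.kd (f (0, i)) = X.kd (f u) := (c.kd hv).trans (c.kd hu).symm
  obtain ⟨h', f', c', e'⟩ := g.exists_cd (e3 ▸ k) (c.top i hi)
  obtain ⟨v, h1, h2⟩ := c.same g c' hv (in0 (Nat.zero_le _)) e'.symm hu
  exact ⟨h', f', v, c', h1, h2.symm, e' ▸ ⟨e3, c.top i hi, e⟩⟩

theorem Geo.all_of [Finite V] (g : X.Geo) (c : X.Cd h f) {k : ℕ} (hk : gk k)
    (h0 : X.Cor k (f (0, 0))) (hu : ∀ x y, X.Cor k x → X.Cor k y → x = y) (t : V) :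
    X.kd t = k ↔ ∃ u, In h u ∧ t = f u := by
  constructor
  · rintro rfl
    obtain ⟨h', f', u, c', h1, rfl, h2⟩ := g.cover0 t hk
    exact c'.same g c (in0 (Nat.zero_le _)) (in0 (Nat.zero_le _)) (hu _ _ h2 h0) h1
  · rintro ⟨u, h1, rfl⟩
    exact (c.kd h1).trans h0.1

structure Tm (X : CG M.Q V) (h : ℕ) (f : ℕ × ℕ → V) : Prop where
  g : X.Geo
  c : X.Cd h f
  k : ∀ t, X.kd t = 1 ↔ ∃ u, In h u ∧ t = f u
  cor : ∀ o, X.Cor 1 o ↔ o = f (0, 0)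
  fs : ∀ u, In h u → (X.Fs (f u) ↔ u.2 = 0)

def Rep (X : CG M.Q V) (h : ℕ) (f : ℕ × ℕ → V) (p : V) (L : ℕ × ℕ → Lab M.Q) : Prop :=
  X.kd p = 3 ∧ ∀ u, In h u → (∃ v, X.Lb p (f u) v) ∧ ∀ v, X.Lb p (f u) v → X.lb v = L u

theorem Tm.gd (T : X.Tm h f) {p : V} {L : ℕ × ℕ → Lab M.Q} (R : X.Rep h f p L) :
    X.Gd n p ↔ Good n h L := by
  have g := T.g
  have c := T.c
  have k : ∀ {u}, In h u → X.kd (f u) = 1 := fun hu => (T.k _).2 ⟨_, hu, rfl⟩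
  have z : In h (0, 0) := in0 (Nat.zero_le _)
  have ex : ∀ u, In h u → ∃ v, X.Lb p (f u) v ∧ L u = X.lb v := fun u hu =>
    ((R.2 u hu).1).imp fun v hv => ⟨hv, ((R.2 u hu).2 v hv).symm⟩
  have un : ∀ {u v}, In h u → X.Lb p (f u) v → X.lb v = L u := fun hu => (R.2 _ hu).2 _
  constructor
  · rintro ⟨-, h1, h2, h3⟩
    obtain ⟨o, ho, eo⟩ := ex _ z
    obtain ⟨h4, h5⟩ := h3 _ o ((T.cor _).2 rfl) ho
    have a : ∀ u, In h u → RH (L u) (L (rg u)) ∧ (¬ X.Hp (f u) → RT (L u) (L (rg u))) :=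
      fun u hu => by
        obtain ⟨v, hv, e⟩ := ex u hu
        obtain ⟨v', hv', e'⟩ := ex _ hu.rg
        rw [e, e']
        exact (h1 _ _ _ _ (k hu) hv hv').1 (c.r u hu)
    refine ⟨⟨fun u hu => (a u hu).1, fun u s hu hl => ?_, fun i hi =>
      (a (0, i) ⟨z.1, hi⟩).2 (c.top i hi), fun i hi => ?_⟩, fun e => ?_, fun e u hu hs => ?_⟩
    · obtain ⟨v, hv, e⟩ := ex u hu
      obtain ⟨v', hv', e'⟩ := ex _ (hu.ch hl s)
      rw [e, e']
      exact (h1 _ _ _ _ (k hu) hv hv').2 s (c.c u s hu hl)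
    · obtain ⟨v, hv, e⟩ := ex (h, i) ⟨le_rfl, hi⟩
      rw [e]
      exact h2 _ _ (k ⟨le_rfl, hi⟩) hv (c.bot i hi)
    · obtain ⟨b1, ⟨y, w, a, b, b2, b3, b4, b5, b6, b7⟩, b8⟩ := h4 (eo ▸ e)
      obtain ⟨b9, rfl⟩ := (c.walk g _ _).1 b2
      obtain ⟨b10, rfl⟩ := (c.C_iff g (in0 b9) _ _).1 b3
      refine ⟨⟨eo ▸ b1, b10, un (in0 b9) b4 ▸ b6, ?_⟩, fun i hi => ?_⟩
      · rw [← b7, un (in0 b10) b5]
      · obtain ⟨v, hv, e⟩ := ex (h, i) ⟨le_rfl, hi⟩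
        rw [e]
        exact b8 _ _ (k ⟨le_rfl, hi⟩) (c.bot i hi) hv
    · obtain ⟨v, hv, e'⟩ := ex u hu
      rw [e']
      refine h5 (eo ▸ e) _ _ (k hu) (hs.imp (T.fs u hu).2 fun e => ⟨_, c.r u hu, ?_⟩) hv
      rw [T.fs _ hu.rg, rg_last e]
  · intro G
    refine ⟨R.1, fun t t' v v' ht hv hv' => ?_, fun t v ht hv hc => ?_, fun o v ho hv => ?_⟩
    · obtain ⟨u, hu, rfl⟩ := (T.k t).1 ht
      refine ⟨fun e => ?_, fun s e => ?_⟩
      · obtain rfl := (c.R_iff g hu _).1 e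
        rw [un hu hv, un hu.rg hv']
        refine ⟨G.loc.rh u hu, fun hp => ?_⟩
        rw [c.hp hu] at hp
        obtain ⟨_ | j, i⟩ := u
        exacts [G.loc.rt i hu.2, (hp (Nat.succ_pos _)).elim]
      · obtain ⟨hl, rfl⟩ := (c.C_iff g hu _ _).1 e
        rw [un hu hv, un (hu.ch hl s) hv']
        exact G.loc.rv u s hu hl
    · obtain ⟨⟨j, i⟩, hu, rfl⟩ := (T.k t).1 ht
      rw [c.hc hu] at hc
      obtain rfl : j = h := le_antisymm hu.1 (not_lt.1 hc)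
      rw [un hu hv]
      exact G.loc.rb i hu.2
    · obtain rfl := (T.cor o).1 ho
      rw [un z hv]
      refine ⟨fun e => ?_, fun e t a ht hs ha => ?_⟩
      · obtain ⟨⟨b1, b2, b3, b4⟩, b5⟩ := G.root e
        obtain ⟨a, ha, ea⟩ := ex _ (in0 (Nat.le_of_succ_le b2))
        obtain ⟨b, hb, eb⟩ := ex _ (in0 b2)
        refine ⟨b1, ⟨_, _, a, b, (c.walk g _ _).2 ⟨Nat.le_of_succ_le b2, rfl⟩,
          c.c _ 0 (in0 (Nat.le_of_succ_le b2)) b2, ha, hb, ea ▸ b3, eb ▸ b4⟩,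
          fun t a ht hc ha => ?_⟩
        obtain ⟨⟨j, i⟩, hu, rfl⟩ := (T.k t).1 ht
        rw [c.hc hu] at hc
        obtain rfl : j = h := le_antisymm hu.1 (not_lt.1 hc)
        rw [un hu ha]
        exact b5 i hu.2
      · obtain ⟨u, hu, rfl⟩ := (T.k t).1 ht
        rw [un hu ha]
        refine G.seam e u hu (hs.imp (T.fs u hu).1 ?_)
        rintro ⟨t', e1, e2⟩
        obtain rfl := (c.R_iff g hu _).1 e1
        rw [T.fs _ hu.rg] at e2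
        by_contra e3
        have := hu.2
        rw [rg_lt (by omega)] at e2
        cases e2

structure Sk (X : CG M.Q V) (n : ℕ) (fA fB : ℕ × ℕ → V) : Prop where
  T : X.Tm (wd (2 ^ n) - 1) fB
  cA : X.Cd (2 ^ n) fA
  kA : ∀ t, X.kd t = 0 ↔ ∃ u, In (2 ^ n) u ∧ t = fA u
  lA : ∀ u, In (2 ^ n) u → X.lb (fA u) = can M u.1 u.2
  lB : ∀ u, In (wd (2 ^ n) - 1) u → X.lb (fB u) = can M u.1 u.2
  ab : ∀ u v, In (2 ^ n) u → In (wd (2 ^ n) - 1) v →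
    (X.G.Adj (fA u) (fB v) ↔ u.1 = 2 ^ n ∧ v = (u.2, 0))

theorem Ax.skel [Finite V] (A : X.Ax n) : ∃ fA fB, X.Sk n fA fB := by
  have g := A.geo
  obtain ⟨oA, y, oB, c0, w, hy, c1, ad⟩ := A.m6
  obtain ⟨s, fA, cA, rfl⟩ := g.exists_cd (o := oA) (.inl c0.1) c0.2.1
  obtain ⟨h, fB, cB, rfl⟩ := g.exists_cd (o := oB) (.inr (.inl c1.1)) c1.2.1
  obtain ⟨h1, rfl⟩ := (cA.walk g _ _).1 w
  rw [cA.hc (in0 h1)] at hy
  obtain rfl : s = 2 ^ n := le_antisymm (not_lt.1 hy) h1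
  have kA := g.all_of cA (.inl rfl) c0 A.a2
  have kB := g.all_of cB (.inr (.inl rfl)) c1 A.a3
  have ka : ∀ {u}, In (2 ^ n) u → X.kd (fA u) = 0 := fun hu => (kA _).2 ⟨_, hu, rfl⟩
  have kb : ∀ {u}, In h u → X.kd (fB u) = 1 := fun hu => (kB _).2 ⟨_, hu, rfl⟩
  have lab : ∀ {h f k}, X.Cd h f → X.Cor k (f (0, 0)) → (k = 0 ∨ k = 1) → ∀ u, In h u →
      X.lb (f u) = can M u.1 u.2 := fun c c0 hk u hu => by
    have e := c.li c0.2.2 u.1 u.2 hu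
    rw [(A.k1 _ (c0.1 ▸ hk)).2 c0.2.1, zero_add] at e
    rw [(A.k1 _ (((c.kd hu).trans c0.1) ▸ hk)).1, e.1, e.2]
  have w3 := wd_ge (2 ^ n)
  have key : ∀ i < wd (2 ^ n), i ≤ h ∧ X.G.Adj (fA (2 ^ n, i)) (fB (i, 0)) := by
    intro i
    induction i with
    | zero => exact fun _ => ⟨Nat.zero_le _, ad⟩
    | succ i ih =>
      intro hi
      obtain ⟨b1, b2⟩ := ih (by omega)
      have u1 : In (2 ^ n) (2 ^ n, i) := ⟨le_rfl, by dsimp only; omega⟩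
      have u2 : In (2 ^ n) (2 ^ n, i + 1) := ⟨le_rfl, hi⟩
      obtain ⟨t, kt, a⟩ := A.m2 _ (ka u2) (cA.bot _ hi)
      have := A.m5 _ _ _ _ (ka u1) (kb (in0 b1)) kt b2 (rg_lt hi ▸ cA.r _ u1) a
      by_cases hc : X.Hc (fB (i, 0))
      · obtain ⟨b3, rfl⟩ := (cB.C_iff g (in0 b1) _ _).1 (this.1 hc)
        exact ⟨b3, a⟩
      · obtain rfl := A.a3 _ _ (this.2 hc) c1
        cases cA.inj _ _ u2 (in0 le_rfl) (A.m4 _ _ _ (ka u2) (ka (in0 le_rfl)) kt a ad)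
  obtain rfl : h = wd (2 ^ n) - 1 := by
    obtain ⟨b1, b2⟩ := key (wd (2 ^ n) - 1) (by omega)
    have u1 : In (2 ^ n) (2 ^ n, wd (2 ^ n) - 1) := ⟨le_rfl, by dsimp only; omega⟩
    have := A.m5 _ _ _ _ (ka u1) (kb (in0 b1)) c1.1 b2
      (rg_last (j := 2 ^ n) (i := wd (2 ^ n) - 1) (by omega) ▸ cA.r _ u1) ad
    by_contra e
    exact c1.2.1 (hp_of (this.1 ((cB.hc (in0 b1)).2 (by dsimp only; omega))))
  have ab : ∀ u v, In (2 ^ n) u → In (wd (2 ^ n) - 1) v →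
      (X.G.Adj (fA u) (fB v) ↔ u.1 = 2 ^ n ∧ v = (u.2, 0)) := by
    rintro ⟨j, i⟩ v hu hv
    constructor
    · intro a
      have := A.m1 _ _ (ka hu) (kb hv) a
      rw [cA.hc hu] at this
      obtain rfl : j = 2 ^ n := le_antisymm hu.1 (not_lt.1 this)
      obtain ⟨b1, b2⟩ := key i hu.2
      exact ⟨rfl, cB.inj _ _ hv (in0 b1) (A.m3 _ _ _ (ka hu) (kb hv) (kb (in0 b1)) a b2)⟩
    · rintro ⟨e, rfl⟩
      obtain rfl : j = 2 ^ n := e
      exact (key i hu.2).2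
  refine ⟨fA, fB, ⟨g, cB, kB, fun o => ⟨fun e => A.a3 _ _ e c1, fun e => e ▸ c1⟩, fun u hu =>
    ⟨?_, fun e => ?_⟩⟩, cA, kA, lab cA c0 (.inl rfl), lab cB c1 (.inr rfl), ab⟩
  · rintro ⟨a, b1, b2⟩
    obtain ⟨v, hv, rfl⟩ := (kA a).1 b1
    rw [((ab _ _ hv hu).1 b2).2]
  · have u1 : In (2 ^ n) (2 ^ n, u.1) := ⟨le_rfl, by have := hu.1; dsimp only; omega⟩
    exact ⟨_, ka u1, (ab _ _ u1 hu).2 ⟨rfl, Prod.ext rfl e⟩⟩

theorem Ax.exP (A : X.Ax n) (T : X.Tm h f) (L : ℕ × ℕ → Lab M.Q) : ∃ p, X.Rep h f p L := by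
  classical
  have k : ∀ {u}, In h u → X.kd (f u) = 1 := fun hu => (T.k _).2 ⟨_, hu, rfl⟩
  have : ∀ S : Finset (ℕ × ℕ), ∃ p, X.kd p = 3 ∧ ∀ u ∈ S, In h u → ∀ v, X.Lb p (f u) v →
      X.lb v = L u := by
    intro S
    induction S using Finset.induction_on with
    | empty => exact A.p5.imp fun p hp => ⟨hp, by simp⟩
    | insert w S _ ih =>
      obtain ⟨p, hp, ih⟩ := ih
      by_cases hw : In h w
      swap
      · refine ⟨p, hp, fun u hu hu' => ih u ?_ hu'⟩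
        exact (Finset.mem_insert.1 hu).resolve_left fun e => hw (e ▸ hu')
      obtain ⟨v0, ⟨b1, b2⟩, b3⟩ := A.u3 _ (k hw) (L w)
      obtain ⟨p', b4, b5, b6⟩ := A.p4 p v0 hp b1
      refine ⟨p', b4, fun u hu hu' v hv => ?_⟩
      by_cases e : u = w
      · subst e
        rw [A.p2 _ _ _ _ b4 (k hw) hv ⟨b1, b5, b3⟩, b2]
      · refine ih u ((Finset.mem_insert.1 hu).resolve_left e) hu' v
          ⟨hv.1, (b6 v hv.1 ?_).2 hv.2.1, hv.2.2⟩
        rintro ⟨t, c1, c2, c3⟩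
        exact e (T.c.inj _ _ hu' hw ((A.u2 _ _ _ hv.1 (k hu') c1 hv.2.2 c3).trans
          (A.u2 _ _ _ b1 c1 (k hw) c2 b3)))
  obtain ⟨p, hp, H⟩ := this (Finset.range (h + 1) ×ˢ Finset.range (wd h))
  refine ⟨p, hp, fun u hu => ⟨A.p1 _ _ hp (k hu), H u ?_ hu⟩⟩
  have : wd u.1 ≤ wd h := Nat.mul_le_mul_left _ (Nat.pow_le_pow_right two_pos hu.1)
  have := hu.1
  have := hu.2
  simp only [Finset.mem_product, Finset.mem_range]
  omega

theorem Ax.rep_eq (A : X.Ax n) (T : X.Tm h f) {p p' : V} {L : ℕ × ℕ → Lab M.Q}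
    (R : X.Rep h f p L) (R' : X.Rep h f p' L) : p = p' := by
  have : ∀ {p p'}, X.Rep h f p L → X.Rep h f p' L → ∀ u, X.kd u = 2 → X.G.Adj u p →
      X.G.Adj u p' := fun R R' u hu a => by
    obtain ⟨t, kt, b⟩ := A.u1 u hu
    obtain ⟨w, hw, rfl⟩ := (T.k t).1 kt
    obtain ⟨v, hv⟩ := (R'.2 w hw).1
    rw [A.u4 _ _ _ kt hu hv.1 (((R.2 w hw).2 u ⟨hu, a, b⟩).trans ((R'.2 w hw).2 v hv).symm) b hv.2.2]
    exact hv.2.1
  exact A.p3 _ _ R.1 R'.1 fun u hu => ⟨this R R' u hu, this R' R u hu⟩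

theorem Ax.exL (A : X.Ax n) (T : X.Tm h f) {p : V} (hp : X.kd p = 3) :
    ∃ L, (∀ u, ¬ In h u → L u = can M 0 0) ∧ X.Rep h f p L := by
  classical
  have k : ∀ {u}, In h u → X.kd (f u) = 1 := fun hu => (T.k _).2 ⟨_, hu, rfl⟩
  refine ⟨fun u => if hu : In h u then X.lb (A.p1 _ _ hp (k hu)).choose else can M 0 0,
    fun u hu => dif_neg hu, hp, fun u hu => ⟨A.p1 _ _ hp (k hu), fun v hv => ?_⟩⟩
  beta_reduce
  rw [dif_pos hu, A.p2 _ _ _ _ hp (k hu) hv (A.p1 _ _ hp (k hu)).choose_spec]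

theorem Ax.loc (A : X.Ax n) (c : X.Cd h f) (k : X.kd (f (0, 0)) = 4) :
    Loc h fun u => X.lb (f u) :=
  ⟨fun u hu => (A.x1 _ _ ((c.kd hu).trans k) (c.r u hu)).1,
    fun u s hu hl => A.x2 s _ _ ((c.kd hu).trans k) (c.c u s hu hl),
    fun i hi => (A.x1 _ _ ((c.kd (u := (0, i)) ⟨Nat.zero_le _, hi⟩).trans k)
      (c.r _ ⟨Nat.zero_le _, hi⟩)).2 (c.top i hi),
    fun i hi => A.x3 _ ((c.kd (u := (h, i)) ⟨le_rfl, hi⟩).trans k) (c.bot i hi)⟩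

theorem Ax.root (A : X.Ax n) (c : X.Cd h f) (k : X.Cor 4 (f (0, 0)))
    (e : (X.lb (f (0, 0))).sl = false) : Root n h fun u => X.lb (f u) := by
  obtain ⟨y, z, b1, b2, b3, b4⟩ := A.x4 _ k e
  obtain ⟨b5, rfl⟩ := (c.walk A.geo _ _).1 b1
  obtain ⟨b6, rfl⟩ := (c.C_iff A.geo (in0 b5) _ _).1 b2
  exact ⟨k.2.2, b6, b3, b4⟩

def Cmp (X : CG M.Q V) (h : ℕ) (fB : ℕ × ℕ → V) (p a : V) (L : ℕ × ℕ → Lab M.Q)
    (f : ℕ × ℕ → V) : Prop :=
  X.Cd h f ∧ X.kd (f (0, 0)) = 4 ∧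
    ∀ v, In h v → X.lb (f v) = L v ∧ ((L v).lk → X.Lk (f v) p a (fB v))

section
variable (A : X.Ax n) {fB : ℕ × ℕ → V} (T : X.Tm h fB) {p a : V} {L : ℕ × ℕ → Lab M.Q}
  (R : X.Rep h fB p L)
include A T R

theorem Ax.lab {u : ℕ × ℕ} (hu : In h u) {x : V} (k : X.kd x = 4) (l : X.Lk x p a (fB u)) :
    X.lb x = L u ∧ (X.Hp x ↔ 0 < u.1) ∧ (X.Hc x ↔ u.1 < h) := by
  obtain ⟨-, b1, b2, b3⟩ := A.l4 _ _ _ _ k l
  obtain ⟨⟨v, hv⟩, b4⟩ := R.2 u hu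
  exact ⟨(b1 v hv).symm.trans (b4 v hv), b2.trans (T.c.hp hu), b3.trans (T.c.hc hu)⟩

theorem Ax.stR {u : ℕ × ℕ} (hu : In h u) {x y : V} (k : X.kd x = 4) (l : X.Lk x p a (fB u))
    (e : X.R x y) : X.lb y = L (rg u) ∧ ((L (rg u)).lk → X.Lk y p a (fB (rg u))) := by
  obtain ⟨⟨v, hv⟩, b4⟩ := R.2 _ hu.rg
  have := A.l5 _ _ _ _ _ _ _ k l (.inl ⟨e, T.c.r u hu⟩) hv
  rw [b4 v hv] at this
  exact ⟨this.1, this.1 ▸ this.2⟩

theorem Ax.stC {u : ℕ × ℕ} (hu : In h u) (hl : u.1 < h) {x y : V} (k : X.kd x = 4)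
    (l : X.Lk x p a (fB u)) (s : Fin 2) (e : X.C s x y) :
    X.lb y = L (ch s u) ∧ ((L (ch s u)).lk → X.Lk y p a (fB (ch s u))) := by
  obtain ⟨⟨v, hv⟩, b4⟩ := R.2 _ (hu.ch hl s)
  have := A.l5 _ _ _ _ y _ _ k l (.inr (by
    have := T.c.c u s hu hl
    fin_cases s
    exacts [.inl ⟨e, this⟩, .inr ⟨e, this⟩])) hv
  rw [b4 v hv] at this
  exact ⟨this.1, this.1 ▸ this.2⟩

omit T in
theorem Ax.exX (G : X.Gd n p) (ka : X.kd a = 0) {u : ℕ × ℕ} (hu : In h u) (kt : X.kd (fB u) = 1)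
    (l : (L u).lk) : ∃ x, X.kd x = 4 ∧ X.Lk x p a (fB u) := by
  obtain ⟨⟨v, hv⟩, b4⟩ := R.2 u hu
  exact A.l6 _ _ _ v G ka kt hv (b4 v hv ▸ l)

theorem Ax.fake [Finite V] (G : Good n h L) (ka : X.kd a = 0) (e : (L (0, 0)).sl = true) :
    ∃ f, X.Cmp h fB p a L f := by
  have z : ∀ {h}, In h (0, 0) := in0 (Nat.zero_le _)
  obtain ⟨x0, k4, l0⟩ := A.exX R ((T.gd R).2 G) ka z ((T.k _).2 ⟨_, z, rfl⟩) (.inl e)
  obtain ⟨h', f, c, rfl⟩ := A.geo.exists_cd (o := x0) (.inr (.inr k4))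
    (by rw [(A.lab T R z k4 l0).2.1]; simp)
  have kf : ∀ {u}, In h' u → X.kd (f u) = 4 := fun hu => (c.kd hu).trans k4
  have lf := A.loc c k4
  have row : ∀ j ≤ h, j ≤ h' → (∀ i < wd j, (L (j, i)).lk) → X.Lk (f (j, 0)) p a (fB (j, 0)) →
      ∀ i < wd j, X.Lk (f (j, i)) p a (fB (j, i)) := fun j h1 h2 H l i => by
    induction i with
    | zero => exact fun _ => l
    | succ i ih =>
      intro hi
      have u1 : In h' (j, i) := ⟨h2, by dsimp only; omega⟩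
      have := (A.stR T R ⟨h1, u1.2⟩ (kf u1) (ih (by omega)) (c.r _ u1)).2
      rw [rg_lt hi] at this
      exact this (H _ hi)
  have main : ∀ j ≤ h, j ≤ h' → ∀ i < wd j, X.lb (f (j, i)) = L (j, i) ∧
      ((L (j, i)).lk → X.Lk (f (j, i)) p a (fB (j, i))) := by
    intro j
    induction j with
    | zero =>
      intro h1 h2 i hi
      have := row 0 h1 h2 (fun i hi => .inl ((G.loc.top i hi).trans e)) l0 i hi
      exact ⟨(A.lab T R ⟨h1, hi⟩ (kf ⟨h2, hi⟩) this).1, fun _ => this⟩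
    | succ j ih =>
      intro h1 h2
      have ih := ih (by omega) (by omega)
      have w3 := wd_ge j
      have w2 := wd_succ j
      have pl : ∀ i < wd (j + 1), (L (j, i / 2)).lk → X.lb (f (j + 1, i)) = L (j + 1, i) ∧
          ((L (j + 1, i)).lk → X.Lk (f (j + 1, i)) p a (fB (j + 1, i))) := fun i hi l => by
        have u1 : In h' (j, i / 2) := ⟨by dsimp only; omega, by dsimp only; omega⟩
        have := A.stC T R ⟨by dsimp only; omega, u1.2⟩ h1 (kf u1) ((ih _ u1.2).2 l) _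
          (c.c _ ⟨i % 2, Nat.mod_lt _ two_pos⟩ u1 h2)
        rwa [ch_par] at this
      have s0 := pl 0 (by omega) (.inl (G.seam e _ (in0 (by omega)) (.inl rfl)))
      have s1 := pl (wd (j + 1) - 1) (by omega) (.inl (G.seam e _
        ⟨by dsimp only; omega, by dsimp only; omega⟩ (.inr (by dsimp only; omega))))
      have ns : ∀ i < wd (j + 1), ¬ (L (j, i / 2)).lk → (L (j + 1, i)).sl = false :=
        fun i hi l => (G.loc.par ⟨h1, hi⟩).2.2.2.2.1 (Bool.eq_false_iff.2 fun e => l (.inl e))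
      have eq := row_eq (L := fun u => X.lb (f u)) (L' := L) (fun i hi => lf.rh _ ⟨h2, hi⟩)
        (fun i hi => G.loc.rh _ ⟨h1, hi⟩) (fun i hi => ?_) (.inl ⟨s0.1, s1.1⟩)
      · refine fun i hi => ⟨eq i hi, fun l => ?_⟩
        by_cases l' : (L (j, i / 2)).lk
        · exact (pl i hi l').2 l
        · have b : (L (j + 1, i)).bb = true := l.resolve_left (by simp [ns i hi l'])
          rw [G.loc.bb h1 i hi] at b
          exact row _ h1 h2 (fun i hi => .inr ((G.loc.bb h1 i hi).trans b)) (s0.2 (.inr b)) i hi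
      · by_cases l' : (L (j, i / 2)).lk
        · exact .inl (pl i hi l').1
        · have p1 := (lf.par ⟨h2, hi⟩).2
          have p2 := (G.loc.par ⟨h1, hi⟩).2
          beta_reduce at p1
          rw [(ih _ (by omega)).1] at p1
          have n1 := p1.2.2.2.1 (Bool.eq_false_iff.2 fun e => l' (.inl e))
          have n2 := ns i hi l'
          obtain ⟨a1, a2, a3, -⟩ := p1.2.2.2.2 n1
          obtain ⟨b1, b2, b3, -⟩ := p2.2.2.2.2 n2
          refine .inr ⟨n1, n2, ?_⟩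
          ext1
          exacts [p1.1.trans p2.1.symm, p1.2.1.trans p2.2.1.symm, a1.trans b1.symm,
            n1.trans n2.symm,
            (lf.bb h2 i hi).trans ((congrArg Lab.bb s0.1).trans (G.loc.bb h1 i hi).symm),
            (lf.pre h2 i hi).trans ((congrArg Lab.pre s0.1).trans (G.loc.pre h1 i hi).symm),
            rfl, rfl, a2.trans b2.symm, a3.trans b3.symm]
  have ht : ∀ j ≤ h, j ≤ h' → (j < h' ↔ j < h) := fun j h1 h2 =>
    (c.hc (in0 h2)).symm.trans (A.lab T R (in0 h1) (kf (in0 h2)) ((main j h1 h2 0 (in0 h1).2).2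
      (.inl (G.seam e _ (in0 h1) (.inl rfl))))).2.2
  obtain rfl : h' = h := by
    have := ht h le_rfl
    have := ht h'
    omega
  exact ⟨f, c, k4, fun v hv => main v.1 hv.1 hv.1 v.2 hv.2⟩

end

theorem Ax.exC [Finite V] (A : X.Ax n) {fB : ℕ × ℕ → V} (T : X.Tm h fB) {p a : V}
    {L : ℕ × ℕ → Lab M.Q} (R : X.Rep h fB p L) (G : Good n h L) (ka : X.kd a = 0) :
    ∃ f, X.Cmp h fB p a L f := by
  cases e : (L (0, 0)).sl
  swap
  · exact A.fake T R G ka e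
  have g := A.geo
  have z : ∀ {h}, In h (0, 0) := in0 (Nat.zero_le _)
  have zb : ∀ {h}, In h (h, 0) := in0 le_rfl
  obtain ⟨hR, hb⟩ := G.root e
  have D := root_det G.loc e hR
  obtain ⟨x0, k4, l0⟩ := A.exX R ((T.gd R).2 G) ka zb ((T.k _).2 ⟨_, zb, rfl⟩) (.inr (hb 0 zb.2))
  obtain ⟨b1, -, b2⟩ := A.lab T R zb k4 l0
  obtain ⟨h', f, ⟨j, i⟩, c, hu, rfl, c0⟩ := g.cover0 x0 (.inr (.inr k4))
  rw [k4] at c0
  have kf : ∀ {u}, In h' u → X.kd (f u) = 4 := fun hu => (c.kd hu).trans c0.1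
  have lf := A.loc c c0.1
  have e' : (X.lb (f (0, 0))).sl = false := by
    rw [Bool.eq_false_iff]
    intro e'
    obtain ⟨p', a', t, l⟩ := A.l2 _ c0.1 (.inl e')
    obtain ⟨L', -, R'⟩ := A.exL T l.1
    have G' := (T.gd R').1 (A.l4 _ _ _ _ c0.1 l).1
    obtain ⟨⟨j', i'⟩, hv, rfl⟩ := (T.k t).1 l.2.2.1
    obtain ⟨b3, b4, -⟩ := A.lab T R' hv c0.1 l
    obtain rfl : j' = 0 := by simpa using mt b4.2 c0.2.1
    have e2 : (L' (0, 0)).sl = true := by rw [← G'.loc.top i' hv.2, ← b3, e']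
    obtain ⟨f', c', k', H⟩ := A.fake T R' G' l.2.1 e2
    have := A.l7 _ _ _ _ _ c0.1 ((c'.kd hv).trans k') l ((H _ hv).2 (.inl (b3 ▸ e')))
    obtain ⟨w, hw, e3⟩ := c.same g c' z hv this hu
    have l' := (H w hw).2 (by rw [← (H w hw).1, ← e3, b1]; exact .inr (hb 0 zb.2))
    rw [← e3] at l'
    obtain rfl := A.l3 _ _ _ k4 (l0.1.trans l'.1.symm) (.inr (.inr l0.1)) l0.2.2.2.1 l'.2.2.2.1
    obtain ⟨⟨v, hv⟩, b5⟩ := R.2 _ z
    rw [← (R'.2 _ z).2 v hv, b5 v hv, e] at e2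
    cases e2
  have D' := root_det lf e' (A.root c c0 e')
  rw [c.hc hu] at b2
  obtain rfl : j = h' := by have := hu.1; dsimp only at *; omega
  have fs : ∀ {h i} {x : Lab M.Q} {b}, x = {rl M n (h, i) with bb := b} →
      (x.fst = true ↔ i = 0) := fun e => by rw [e]; simp [rl, mkL]
  obtain rfl : i = 0 := (fs (D' _ _ hu)).1 ((congrArg Lab.fst b1).trans ((fs (D _ _ zb)).2 rfl))
  have w1 := wd_ge h
  have w2 := wd_ge j
  have u1 : ∀ h i, In h (h, i % wd h) := fun h i =>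
    ⟨le_rfl, Nat.mod_lt _ (by have := wd_ge h; omega)⟩
  have row : ∀ i, X.Lk (f (j, i % wd j)) p a (fB (h, i % wd h)) := by
    intro i
    induction i with
    | zero => exact l0
    | succ i ih =>
      have := (A.stR T R (u1 h i) (kf (u1 j i)) ih (c.r _ (u1 j i))).2 (.inr (hb _ (u1 h i).rg.2))
      simpa only [rg, Nat.mod_add_mod] using this
  have eq : ∀ i, X.lb (f (j, i % wd j)) = L (h, i % wd h) := fun i =>
    (A.lab T R (u1 h i) (kf (u1 j i)) (row i)).1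
  have md : ∀ i, i % wd j = 0 ↔ i % wd h = 0 := fun i => by
    rw [← fs (D' _ _ (u1 j i)), ← fs (D _ _ (u1 h i)), ← eq]
  obtain rfl : j = h := by
    have := Nat.le_antisymm
      (Nat.le_of_dvd (by omega) (Nat.dvd_of_mod_eq_zero ((md (wd h)).2 (Nat.mod_self _))))
      (Nat.le_of_dvd (by omega) (Nat.dvd_of_mod_eq_zero ((md (wd j)).1 (Nat.mod_self _))))
    simpa [wd] using this
  refine ⟨f, c, c0.1, fun ⟨a, b⟩ hv => ?_⟩
  rcases (show a = j ∨ a < j from hv.1.eq_or_lt) with rfl | hl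
  · have := row b
    have := eq b
    rw [Nat.mod_eq_of_lt hv.2] at *
    exact ⟨this, fun _ => by assumption⟩
  · have n1 := (lf.rv _ 0 (in0 hv.1) hl).2.2.1
    have n2 := (G.loc.rv _ 0 (in0 hv.1) hl).2.2.1
    refine ⟨(D' _ _ hv).trans (by rw [D _ _ hv, n2, n1]), ?_⟩
    rintro (l | l)
    · rw [G.loc.nsl e _ _ hv] at l; cases l
    · rw [(G.loc.rv _ 0 hv hl).2.2.1] at l; cases l

end CG

end Pool.Agent.H30.Ld
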