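import Pool.Agent.H30.LdH

/-! The explicit model. -/

namespace Pool.Agent.H30.Ld

open Function

inductive Cp (M : Mc)
  | A
  | B
  | X (p : ℕ × ℕ → Lab M.Q) (a : ℕ × ℕ)
  | H

inductive V0 (M : Mc)
  | pal (c : Co M.Q)
  | U (u : ℕ × ℕ) (l : Lab M.Q)
  | P (p : ℕ × ℕ → Lab M.Q)
  | N (c : Cp M) (u : ℕ × ℕ)

variable {M : Mc}

abbrev hB (n : ℕ) : ℕ := wd (2 ^ n) - 1

def nrm (n : ℕ) (p : ℕ × ℕ → Lab M.Q) : Prop := ∀ u, ¬ In (hB n) u → p u = can M 0 0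

def ht (n hH : ℕ) : Cp M → ℕ
  | .A => 2 ^ n
  | .B => hB n
  | .X _ _ => hB n
  | .H => hH

def okc (n : ℕ) (ex : Prop) : Cp M → Prop
  | .A => True
  | .B => True
  | .X p a => nrm n p ∧ Good n (hB n) p ∧ In (2 ^ n) a
  | .H => ex

def ok (n hH : ℕ) (ex : Prop) : V0 M → Prop
  | .pal _ => True
  | .U u _ => In (hB n) u
  | .P p => nrm n p
  | .N c u => okc n ex c ∧ In (ht n hH c) u

def kc : Cp M → Fin 5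
  | .A => 0
  | .B => 1
  | .X _ _ => 4
  | .H => 4

noncomputable def lc (n : ℕ) : Cp M → ℕ × ℕ → Lab M.Q
  | .A, u => can M u.1 u.2
  | .B, u => can M u.1 u.2
  | .X p _, u => p u
  | .H, u => rl M n u

noncomputable def col (n : ℕ) : V0 M → Cl M.Q
  | .pal c => .inr c
  | .U _ l => .inl (2, l)
  | .P _ => .inl (3, can M 0 0)
  | .N c u => .inl (kc c, lc n c u)

def lnk (n : ℕ) : Cp M → ℕ × ℕ → Cp M → ℕ × ℕ → Prop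
  | .A, u, .B, v => u.1 = 2 ^ n ∧ v = (u.2, 0)
  | .X p a, u, .A, v => (p u).lk ∧ v = a
  | .X p _, u, .B, v => (p u).lk ∧ v = u
  | _, _, _, _ => False

def a0 (n : ℕ) : V0 M → V0 M → Prop
  | x, .pal c => col n x = .inl c
  | .N c u, .N d v => (c = d ∧ St u v) ∨ lnk n c u d v
  | .U u _, .N d v => d = .B ∧ v = u
  | .U u l, .P p => p u = l
  | .N (.X p _) u, .P q => (p u).lk ∧ q = p
  | _, _ => False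

abbrev Vx (M : Mc) (n hH : ℕ) (ex : Prop) := {x : V0 M // ok n hH ex x}

theorem not_st {h : ℕ} {u : ℕ × ℕ} (hu : In h u) : ¬ St u u := by
  obtain ⟨j, i⟩ := u
  have := wd_ge j
  have := hu.2
  rintro (e | ⟨s, e⟩)
  · rcases (show i + 1 < wd j ∨ i + 1 = wd j by dsimp only at *; omega) with e' | e'
    · simp [rg_lt e'] at e
    · simp only [rg_last e', Prod.mk.injEq] at e; omega
  · simp [ch] at e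

noncomputable def GG (M : Mc) (n hH : ℕ) (ex : Prop) : CG M.Q (Vx M n hH ex) where
  G := { Adj := fun x y => a0 n x.1 y.1 ∨ a0 n y.1 x.1
         symm := ⟨fun _ _ h => h.symm⟩
         loopless := ⟨by
          rintro ⟨c | _ | _ | ⟨c, u⟩, h⟩ <;> simp [a0, col]
          exact ⟨not_st h.2, by cases c <;> simp [lnk]⟩⟩ }
  col := fun x => col n x.1

theorem rg_inj {h : ℕ} {u v : ℕ × ℕ} (hu : In h u) (hv : In h v) (e : rg u = rg v) : u = v := by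
  obtain ⟨j, i⟩ := u
  obtain ⟨j', i'⟩ := v
  obtain rfl : j = j' := congrArg Prod.fst e
  have h1 : i < wd j := hu.2
  have h2 : i' < wd j := hv.2
  rcases (show i + 1 < wd j ∨ i + 1 = wd j by omega) with a | a <;>
    rcases (show i' + 1 < wd j ∨ i' + 1 = wd j by omega) with b | b <;>
    simp only [rg, Prod.mk.injEq, true_and] at e ⊢ <;>
    (first | rw [Nat.mod_eq_of_lt a] at e | rw [a, Nat.mod_self] at e) <;>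
    (first | rw [Nat.mod_eq_of_lt b] at e | rw [b, Nat.mod_self] at e) <;> omega

theorem ch_inj {s t : Fin 2} {u v : ℕ × ℕ} (e : ch s u = ch t v) : u = v := by
  have := s.2
  have := t.2
  simp only [ch, Prod.mk.injEq] at e
  ext <;> omega

theorem In.fin (h : ℕ) : {u | In h u}.Finite := by
  refine ((Set.finite_Iic h).prod (Set.finite_Iio (wd h))).subset fun u hu => ⟨hu.1, ?_⟩
  exact hu.2.trans_le (Nat.mul_le_mul_left _ (Nat.pow_le_pow_right two_pos hu.1))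

instance {n hH : ℕ} {ex : Prop} : Finite (Vx M n hH ex) := by
  have f1 : {p : ℕ × ℕ → Lab M.Q | nrm n p}.Finite := by
    have := (In.fin (hB n)).to_subtype
    refine Set.Finite.of_finite_image (f := fun p (u : {u | In (hB n) u}) => p u)
      (Set.toFinite _) fun p hp q hq e => funext fun u => ?_
    by_cases hu : In (hB n) u
    exacts [congrFun e ⟨u, hu⟩, (hp u hu).trans (hq u hu).symm]
  have f2 : {c : Cp M | okc n ex c}.Finite := by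
    refine (((f1.image2 Cp.X (In.fin (2 ^ n))).insert .A).insert .B |>.insert .H).subset ?_
    rintro (_ | _ | ⟨p, a⟩ | _) h <;> simp
    exact ⟨h.1, h.2.2⟩
  refine Set.Finite.subset (s := (Set.range V0.pal ∪ Set.image2 V0.U {u | In (hB n) u} Set.univ) ∪
    (V0.P '' {p | nrm n p} ∪ ⋃ c ∈ {c : Cp M | okc n ex c}, V0.N c '' {u | In (ht n hH c) u}))
    (((Set.finite_range _).union ((In.fin _).image2 _ Set.finite_univ)).union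
      ((f1.image _).union (f2.biUnion fun c _ => (In.fin _).image _))) ?_
  rintro (_ | _ | _ | ⟨c, u⟩) h <;> simp
  exacts [h, h, And.symm h]

variable {n hH : ℕ} {ex : Prop}

theorem lc_st {c : Cp M} (hc : okc n ex c) {u : ℕ × ℕ} (hu : In (ht n hH c) u) :
    ((lc n c (rg u)).lev = (lc n c u).lev ∧ (lc n c (rg u)).idx = (lc n c u).idx + 1) ∧
    ∀ s, u.1 < ht n hH c → (lc n c (ch s u)).lev = (lc n c u).lev + 1 ∧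
      (lc n c (ch s u)).idx = 2 * (lc n c u).idx + (s : ℕ) := by
  cases c
  · simp [lc, can, rg, ch, cast_mod]
  · simp [lc, can, rg, ch, cast_mod]
  · exact ⟨⟨(hc.2.1.loc.rh u hu).1, (hc.2.1.loc.rh u hu).2.1⟩,
      fun s hl => ⟨(hc.2.1.loc.rv u s hu hl).1, (hc.2.1.loc.rv u s hu hl).2.1⟩⟩
  · exact ⟨⟨(rl_rh n hu).1, (rl_rh n hu).2.1⟩, fun s _ => ⟨(rl_rv n hu s).1, (rl_rv n hu s).2.1⟩⟩

local instance : Fact (Nat.Prime 3) := ⟨by decide⟩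

theorem adj_iff (x y : Vx M n hH ex) : (GG M n hH ex).G.Adj x y ↔ a0 n x.1 y.1 ∨ a0 n y.1 x.1 :=
  Iff.rfl
theorem kd_eq (x : Vx M n hH ex) : (GG M n hH ex).kd x = ck (col n x.1) := rfl
theorem lb_eq (x : Vx M n hH ex) : (GG M n hH ex).lb x = cl (col n x.1) := rfl

theorem a0_k {x y : V0 M} (a : a0 n x y) : al (ck (col n x)) (ck (col n y)) ∧
    ck (col n x) ≠ ck (col n y) ∨ ∃ c u v, x = .N c u ∧ y = .N c v ∧ St u v := by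
  rcases y with c | _ | _ | ⟨d, v⟩
  · have : col n x = .inl c := by cases x <;> exact a
    rw [this]
    exact .inl ⟨by simp [al, col, ck], c.1.2.ne⟩
  · rcases x with _ | _ | _ | ⟨_ | _ | _ | _, u⟩ <;> exact a.elim
  · rcases x with _ | _ | _ | ⟨_ | _ | _ | _, u⟩ <;> first | exact a.elim | simp [al, col, ck, kc]
  · rcases x with _ | _ | _ | ⟨c, u⟩
    · exact a.elim
    · obtain ⟨rfl, -⟩ := a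
      simp [al, col, ck, kc]
    · exact a.elim
    · rcases a with ⟨rfl, a⟩ | a
      · exact .inr ⟨_, _, _, rfl, rfl, a⟩
      · cases c <;> cases d <;> first | exact a.elim | simp [al, col, ck, kc]

theorem same {x y : Vx M n hH ex} (a : (GG M n hH ex).G.Adj x y)
    (k : (GG M n hH ex).kd x = (GG M n hH ex).kd y) :
    ∃ c u v, x.1 = .N c u ∧ y.1 = .N c v ∧ (St u v ∨ St v u) := by
  rcases a with a | a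
  · obtain ⟨c, u, v, h1, h2, h3⟩ := (a0_k a).resolve_left fun h => h.2 k
    exact ⟨c, u, v, h1, h2, .inl h3⟩
  · obtain ⟨c, u, v, h1, h2, h3⟩ := (a0_k a).resolve_left fun h => h.2 k.symm
    exact ⟨c, v, u, h2, h1, .inr h3⟩

theorem R_iff (x y : Vx M n hH ex) :
    (GG M n hH ex).R x y ↔ ∃ c u, x.1 = .N c u ∧ y.1 = .N c (rg u) := by
  obtain ⟨x, hx⟩ := x
  obtain ⟨y, hy⟩ := y
  constructor
  · rintro ⟨a, k, -, e1, e2⟩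
    obtain ⟨c, u, v, rfl, rfl, h⟩ := same a k
    change (lc n c v).lev = (lc n c u).lev at e1
    change (lc n c v).idx = (lc n c u).idx + 1 at e2
    refine ⟨c, u, rfl, ?_⟩
    rcases h with (rfl | ⟨s, rfl⟩) | (rfl | ⟨s, rfl⟩)
    · rfl
    · simp [((lc_st hx.1 hx.2).2 s hy.2.1).1] at e1
    · rw [(lc_st hy.1 hy.2).1.2, add_assoc, left_eq_add] at e2
      cases e2
    · simp [((lc_st hy.1 hy.2).2 s hx.2.1).1] at e1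
  · rintro ⟨c, u, rfl, rfl⟩
    exact ⟨.inl (.inl ⟨rfl, .inl rfl⟩), rfl, by cases c <;> simp [GG, col, ck, kc, gk],
      (lc_st hx.1 hx.2).1⟩

theorem C_iff (s : Fin 2) (x y : Vx M n hH ex) :
    (GG M n hH ex).C s x y ↔ ∃ c u, x.1 = .N c u ∧ y.1 = .N c (ch s u) := by
  obtain ⟨x, hx⟩ := x
  obtain ⟨y, hy⟩ := y
  constructor
  · rintro ⟨a, k, -, e1, e2⟩
    obtain ⟨c, u, v, rfl, rfl, h⟩ := same a k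
    change (lc n c v).lev = (lc n c u).lev + 1 at e1
    change (lc n c v).idx = 2 * (lc n c u).idx + (s : ℕ) at e2
    refine ⟨c, u, rfl, ?_⟩
    rcases h with (rfl | ⟨t, rfl⟩) | (rfl | ⟨t, rfl⟩)
    · simp [(lc_st hx.1 hx.2).1.1] at e1
    · rw [s_eq (e2.symm.trans ((lc_st hx.1 hx.2).2 t hy.2.1).2)]
    · simp [(lc_st hy.1 hy.2).1.1] at e1
    · rw [((lc_st hy.1 hy.2).2 t hx.2.1).1, add_assoc, left_eq_add] at e1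
      cases e1
  · rintro ⟨c, u, rfl, rfl⟩
    exact ⟨.inl (.inl ⟨rfl, .inr ⟨s, rfl⟩⟩), rfl, by cases c <;> simp [GG, col, ck, kc, gk],
      (lc_st hx.1 hx.2).2 s hy.2.1⟩

theorem Hc_iff {c : Cp M} {u : ℕ × ℕ} (h : ok n hH ex (.N c u)) :
    (GG M n hH ex).Hc ⟨_, h⟩ ↔ u.1 < ht n hH c := by
  constructor
  · rintro ⟨⟨y, hy⟩, e⟩
    obtain ⟨c, u, ⟨⟩, rfl⟩ := (C_iff _ _ _).1 e
    exact hy.2.1
  · exact fun e => ⟨⟨.N c (ch 0 u), h.1, h.2.ch e 0⟩, (C_iff _ _ _).2 ⟨c, u, rfl, rfl⟩⟩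

theorem Hp_iff {c : Cp M} {u : ℕ × ℕ} (h : ok n hH ex (.N c u)) :
    (GG M n hH ex).Hp ⟨_, h⟩ ↔ 0 < u.1 := by
  constructor
  · intro e
    obtain ⟨s, ⟨y, hy⟩, e⟩ := e.ex
    obtain ⟨c, u, rfl, ⟨⟩⟩ := (C_iff _ _ _).1 e
    exact Nat.succ_pos _
  · obtain ⟨_ | j, i⟩ := u
    · simp
    · obtain ⟨s, v, h1, -, e⟩ := exists_par h.2
      exact fun _ => CG.hp_of ((C_iff s ⟨.N c v, h.1, h1⟩ _).2 ⟨c, v, rfl, congrArg (V0.N c) e.symm⟩)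

theorem GG_geo : (GG M n hH ex).Geo := by
  refine ⟨?_, ?_, ?_, ?_, ?_, ?_, ?_, ?_, ?_, ?_, fun x y a k => ?_⟩
  · rintro ⟨_ | _ | _ | ⟨c, u⟩, h⟩ k
    iterate 3 simp [kd_eq, col, ck, gk] at k
    exact ⟨⟨.N c (rg u), h.1, h.2.rg⟩, (R_iff _ _).2 ⟨c, u, rfl, rfl⟩⟩
  · simp only [R_iff]
    rintro ⟨x, hx⟩ ⟨y, hy⟩ ⟨z, hz⟩ ⟨c, u, rfl, rfl⟩ ⟨_, _, ⟨⟩, rfl⟩
    rfl
  · simp only [R_iff]
    rintro ⟨x, hx⟩ ⟨y, hy⟩ ⟨z, hz⟩ ⟨c, u, rfl, rfl⟩ ⟨_, v, rfl, e⟩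
    obtain ⟨rfl, e'⟩ := V0.N.inj e
    obtain rfl := rg_inj hx.2 hy.2 e'
    rfl
  · simp only [C_iff]
    rintro s ⟨x, hx⟩ ⟨y, hy⟩ ⟨z, hz⟩ ⟨c, u, rfl, rfl⟩ ⟨_, _, ⟨⟩, rfl⟩
    rfl
  · simp only [C_iff]
    rintro s t ⟨x, hx⟩ ⟨y, hy⟩ ⟨z, hz⟩ ⟨c, u, rfl, rfl⟩ ⟨_, v, rfl, e⟩
    obtain ⟨rfl, e'⟩ := V0.N.inj e
    obtain rfl := ch_inj e'
    rfl
  · simp only [C_iff]
    rintro s t ⟨x, hx⟩ ⟨y, hy⟩ ⟨c, u, rfl, rfl⟩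
    exact ⟨⟨.N c (ch t u), hx.1, hx.2.ch hy.2.1 t⟩, c, u, rfl, rfl⟩
  · simp only [C_iff, R_iff]
    rintro ⟨x, hx⟩ ⟨y, hy⟩ ⟨z, hz⟩ ⟨c, u, rfl, rfl⟩ ⟨_, _, ⟨⟩, rfl⟩
    exact ⟨c, _, rfl, congrArg _ (rg_lt hz.2.2).symm⟩
  · simp only [C_iff, R_iff]
    rintro ⟨x, hx⟩ ⟨y, hy⟩ ⟨z, hz⟩ ⟨w, hw⟩ ⟨c, u, rfl, rfl⟩ ⟨_, _, ⟨⟩, rfl⟩ ⟨_, _, ⟨⟩, rfl⟩
    refine ⟨c, _, rfl, congrArg (V0.N c) ?_⟩
    simp only [rg, ch, wd_succ, ← Nat.mul_mod_mul_left]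
    rfl
  · simp only [R_iff]
    rintro ⟨x, hx⟩ ⟨y, hy⟩ ⟨c, u, rfl, rfl⟩
    rw [Hc_iff, Hc_iff, Hp_iff, Hp_iff]
    exact ⟨Iff.rfl, Iff.rfl⟩
  · simp only [R_iff]
    rintro ⟨x, hx⟩ ⟨y, hy⟩ ⟨z, hz⟩ hp ⟨c, ⟨j, i⟩, rfl, rfl⟩ ⟨_, _, ⟨⟩, rfl⟩
    obtain rfl : j = 0 := by simpa using mt (Hp_iff hx).2 hp
    refine ⟨c, _, rfl, congrArg (V0.N c) ?_⟩
    have : i < 3 := hx.2.2
    interval_cases i <;> rfl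
  · simp only [C_iff, R_iff]
    obtain ⟨c, u, v, e1, e2, (rfl | ⟨t, rfl⟩) | (rfl | ⟨t, rfl⟩)⟩ := same a k
    · exact .inl ⟨c, _, e1, e2⟩
    · fin_cases t
      exacts [.inr (.inr (.inl ⟨c, _, e1, e2⟩)), .inr (.inr (.inr (.inl ⟨c, _, e1, e2⟩)))]
    · exact .inr (.inl ⟨c, _, e2, e1⟩)
    · fin_cases t
      exacts [.inr (.inr (.inr (.inr (.inl ⟨c, _, e2, e1⟩)))),
        .inr (.inr (.inr (.inr (.inr ⟨c, _, e2, e1⟩))))]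

theorem k0 {x : Vx M n hH ex} : (GG M n hH ex).kd x = 0 ↔ ∃ u, x.1 = .N .A u := by
  rcases x with ⟨_ | _ | _ | ⟨_ | _ | _ | _, u⟩, h⟩ <;> simp [kd_eq, col, ck, kc]
theorem k1 {x : Vx M n hH ex} : (GG M n hH ex).kd x = 1 ↔ ∃ u, x.1 = .N .B u := by
  rcases x with ⟨_ | _ | _ | ⟨_ | _ | _ | _, u⟩, h⟩ <;> simp [kd_eq, col, ck, kc]
theorem k2 {x : Vx M n hH ex} : (GG M n hH ex).kd x = 2 ↔ ∃ u l, x.1 = .U u l := by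
  rcases x with ⟨_ | _ | _ | ⟨_ | _ | _ | _, u⟩, h⟩ <;> simp [kd_eq, col, ck, kc]
theorem k3 {x : Vx M n hH ex} : (GG M n hH ex).kd x = 3 ↔ ∃ p, x.1 = .P p := by
  rcases x with ⟨_ | _ | _ | ⟨_ | _ | _ | _, u⟩, h⟩ <;> simp [kd_eq, col, ck, kc]
theorem k4 {x : Vx M n hH False} : (GG M n hH False).kd x = 4 ↔ ∃ p a u, x.1 = .N (.X p a) u := by
  rcases x with ⟨_ | _ | _ | ⟨_ | _ | _ | _, u⟩, h⟩ <;>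
    first | exact h.1.elim | simp [kd_eq, col, ck, kc]

section
variable {u v a : ℕ × ℕ} {l : Lab M.Q} {p q : ℕ × ℕ → Lab M.Q}
theorem aAB (h1 h2) : (GG M n hH ex).G.Adj ⟨.N .A u, h1⟩ ⟨.N .B v, h2⟩ ↔
    u.1 = 2 ^ n ∧ v = (u.2, 0) := by simp [adj_iff, a0, lnk]
theorem aUB (h1 h2) : (GG M n hH ex).G.Adj ⟨.U u l, h1⟩ ⟨.N .B v, h2⟩ ↔ v = u := by
  simp [adj_iff, a0]
theorem aUP (h1 h2) : (GG M n hH ex).G.Adj ⟨.U u l, h1⟩ ⟨.P p, h2⟩ ↔ p u = l := by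
  simp [adj_iff, a0]
theorem aXP (h1 h2) : (GG M n hH ex).G.Adj ⟨.N (.X p a) u, h1⟩ ⟨.P q, h2⟩ ↔ (p u).lk ∧ q = p := by
  simp [adj_iff, a0]
theorem aXA (h1 h2) : (GG M n hH ex).G.Adj ⟨.N (.X p a) u, h1⟩ ⟨.N .A v, h2⟩ ↔
    (p u).lk ∧ v = a := by simp [adj_iff, a0, lnk]
theorem aXB (h1 h2) : (GG M n hH ex).G.Adj ⟨.N (.X p a) u, h1⟩ ⟨.N .B v, h2⟩ ↔
    (p u).lk ∧ v = u := by simp [adj_iff, a0, lnk]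

theorem Lb_iff (h1 h2) (x : Vx M n hH ex) : (GG M n hH ex).Lb ⟨.P p, h1⟩ ⟨.N .B u, h2⟩ x ↔
    x = ⟨.U u (p u), h2.2⟩ := by
  constructor
  · obtain ⟨x, hx⟩ := x
    rintro ⟨k, b1, b2⟩
    obtain ⟨w, l, rfl⟩ := k2.1 k
    obtain rfl := (aUP _ _).1 b1
    obtain rfl := (aUB _ _).1 b2
    rfl
  · rintro rfl
    exact ⟨rfl, (aUP _ _).2 rfl, (aUB _ _).2 rfl⟩

theorem Lk_iff (h) (y z t : Vx M n hH ex) : (GG M n hH ex).Lk ⟨.N (.X p a) u, h⟩ y z t ↔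
    (p u).lk ∧ y = ⟨.P p, h.1.1⟩ ∧ z = ⟨.N .A a, trivial, h.1.2.2⟩ ∧
      t = ⟨.N .B u, trivial, h.2⟩ := by
  constructor
  · obtain ⟨y, hy⟩ := y
    obtain ⟨z, hz⟩ := z
    obtain ⟨t, ht⟩ := t
    rintro ⟨e1, e2, e3, b1, b2, b3⟩
    obtain ⟨_, rfl⟩ := k3.1 e1
    obtain ⟨_, rfl⟩ := k0.1 e2
    obtain ⟨_, rfl⟩ := k1.1 e3
    obtain ⟨b, rfl⟩ := (aXP _ _).1 b1
    obtain ⟨-, rfl⟩ := (aXA _ _).1 b2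
    obtain ⟨-, rfl⟩ := (aXB _ _).1 b3
    exact ⟨b, rfl, rfl, rfl⟩
  · rintro ⟨b, rfl, rfl, rfl⟩
    exact ⟨rfl, rfl, rfl, (aXP _ _).2 ⟨b, rfl⟩, (aXA _ _).2 ⟨b, rfl⟩, (aXB _ _).2 ⟨b, rfl⟩⟩

end

theorem top3 {h : ℕ} {u : ℕ × ℕ} (hu : In h u) (h1 : ¬ 0 < u.1) (h2 : (u.2 : ZMod 3) = 0) :
    u = (0, 0) := by
  obtain ⟨j, i⟩ := u
  obtain rfl : j = 0 := by simpa using h1
  have : i < 3 := hu.2
  interval_cases i <;> first | rfl | cases h2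

theorem cor0 {x : Vx M n hH ex} : (GG M n hH ex).Cor 0 x ↔ x.1 = .N .A (0, 0) := by
  obtain ⟨x, hx⟩ := x
  constructor
  · rintro ⟨k, h1, h2⟩
    obtain ⟨u, rfl⟩ := k0.1 k
    exact congrArg (V0.N _) (top3 hx.2 (mt (Hp_iff hx).2 h1) h2)
  · rintro rfl
    exact ⟨rfl, by simp [Hp_iff], rfl⟩

theorem cor1 {x : Vx M n hH ex} : (GG M n hH ex).Cor 1 x ↔ x.1 = .N .B (0, 0) := by
  obtain ⟨x, hx⟩ := x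
  constructor
  · rintro ⟨k, h1, h2⟩
    obtain ⟨u, rfl⟩ := k1.1 k
    exact congrArg (V0.N _) (top3 hx.2 (mt (Hp_iff hx).2 h1) h2)
  · rintro rfl
    exact ⟨rfl, by simp [Hp_iff], rfl⟩

theorem wk_N {c : Cp M} (hc : okc n ex c) (k : ℕ) (hk : k ≤ ht n hH c) :
    It ((GG M n hH ex).C 0) k ⟨.N c (0, 0), hc, in0 (Nat.zero_le _)⟩ ⟨.N c (k, 0), hc, in0 hk⟩ := by
  induction k with
  | zero => rfl
  | succ k ih => exact ⟨_, ih (by omega), (C_iff _ _ _).2 ⟨c, _, rfl, rfl⟩⟩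

open Classical in
noncomputable def nB (M : Mc) (n hH : ℕ) (ex : Prop) (u : ℕ × ℕ) : Vx M n hH ex :=
  if h : In (hB n) u then ⟨.N .B u, trivial, h⟩ else ⟨.pal (0, can M 0 0), trivial⟩

theorem nB_eq {u : ℕ × ℕ} (h : In (hB n) u) : nB M n hH ex u = ⟨.N .B u, trivial, h⟩ := dif_pos h

theorem inA {u : ℕ × ℕ} (h : In (hB n) u) : In (2 ^ n) (2 ^ n, u.1) :=
  ⟨le_rfl, by have := h.1; have := wd_ge (2 ^ n); dsimp only [hB] at *; omega⟩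

theorem GG_tm : (GG M n hH ex).Tm (hB n) (nB M n hH ex) := by
  refine ⟨GG_geo, ⟨fun u v hu hv e => ?_, fun u hu => ?_, fun u s hu hl => ?_, fun i hi => ?_,
    fun i hi => ?_⟩, fun ⟨t, ht⟩ => ⟨fun k => ?_, ?_⟩, fun o => ?_, fun u hu => ?_⟩
  · rw [nB_eq hu, nB_eq hv] at e
    cases e; rfl
  · rw [nB_eq hu, nB_eq hu.rg]
    exact (R_iff _ _).2 ⟨_, _, rfl, rfl⟩
  · rw [nB_eq hu, nB_eq (hu.ch hl s)]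
    exact (C_iff _ _ _).2 ⟨_, _, rfl, rfl⟩
  · rw [nB_eq (u := (0, i)) ⟨Nat.zero_le _, hi⟩, Hp_iff]
    simp
  · rw [nB_eq (u := (hB n, i)) ⟨le_rfl, hi⟩, Hc_iff]
    exact lt_irrefl _
  · obtain ⟨u, rfl⟩ := k1.1 k
    exact ⟨u, ht.2, (nB_eq ht.2).symm⟩
  · rintro ⟨u, hu, e⟩
    rw [e, nB_eq hu]
    rfl
  · rw [cor1, nB_eq (in0 (Nat.zero_le _)), Subtype.ext_iff]
  · rw [nB_eq hu]
    constructor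
    · rintro ⟨⟨a, ha⟩, k, e⟩
      obtain ⟨v, rfl⟩ := k0.1 k
      rw [((aAB _ _).1 e).2]
    · exact fun e => ⟨⟨.N .A (2 ^ n, u.1), trivial, inA hu⟩, rfl,
        (aAB _ _).2 ⟨rfl, Prod.ext rfl e⟩⟩

theorem GG_gd {p : ℕ × ℕ → Lab M.Q} (h) : (GG M n hH ex).Gd n ⟨.P p, h⟩ ↔ Good n (hB n) p :=
  GG_tm.gd ⟨rfl, fun u hu => by
    rw [nB_eq hu]
    exact ⟨⟨_, (Lb_iff _ _ _).2 rfl⟩, fun v hv => by rw [(Lb_iff _ _ _).1 hv]; rfl⟩⟩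

theorem GG_pal : (GG M n hH ex).Pal fun c => ⟨.pal c, trivial⟩ := by
  refine ⟨fun ⟨x, hx⟩ c => ?_, fun ⟨x, hx⟩ c d e => ?_⟩
  · cases x <;> simp [GG, col, Subtype.ext_iff]
  · change col n x = _ at e
    cases x <;> simp_all [adj_iff, a0, col, eq_comm]

theorem GG_ax : (GG M n hH False).Ax n := by
  have w3 := wd_ge (2 ^ n)
  refine ⟨GG_geo, fun x y a k => ?_, ?_, ?_, fun x y a b => Subtype.ext ((cor0.1 a).trans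
    (cor0.1 b).symm), fun x y a b => Subtype.ext ((cor1.1 a).trans (cor1.1 b).symm),
    ?_, ?_, ?_, ?_, ?_, ?_, ?_, ?_, ?_, ?_, ?_, ?_, ?_, ?_, ⟨⟨.P fun _ => can M 0 0, fun _ _ => rfl⟩,
    rfl⟩, ?_, ?_, ?_, ?_, ?_, ?_, ?_, ?_, ?_, ?_, ?_⟩
  all_goals try simp only [k0, k1, k2, k3, k4, R_iff, C_iff]
  · rcases a with a | a
    · refine .inl ((a0_k a).resolve_right ?_).1
      rintro ⟨c, u, v, e1, e2, -⟩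
      exact k (by rw [kd_eq, kd_eq, e1, e2]; rfl)
    · refine .inr ((a0_k a).resolve_right ?_).1
      rintro ⟨c, u, v, e1, e2, -⟩
      exact k (by rw [kd_eq, kd_eq, e1, e2]; rfl)
  · rintro ⟨x, hx⟩ (⟨⟨j, i⟩, rfl⟩ | ⟨⟨j, i⟩, rfl⟩) <;> refine ⟨rfl, fun h => ?_⟩ <;>
      obtain rfl : j = 0 := (by simpa using mt (Hp_iff hx).2 h) <;> rfl
  · rintro ⟨x, hx⟩ ⟨p, rfl⟩
    rfl
  · rintro ⟨x, hx⟩ ⟨y, hy⟩ ⟨u, rfl⟩ ⟨v, rfl⟩ a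
    rw [Hc_iff, ((aAB _ _).1 a).1]
    exact lt_irrefl _
  · rintro ⟨x, hx⟩ ⟨u, rfl⟩ a
    rw [Hc_iff] at a
    have e : u.1 = 2 ^ n := le_antisymm hx.2.1 (not_lt.1 a)
    exact ⟨⟨.N .B (u.2, 0), trivial, in0 (Nat.le_sub_one_of_lt (e ▸ hx.2.2))⟩, ⟨_, rfl⟩,
      (aAB _ _).2 ⟨e, rfl⟩⟩
  · rintro ⟨x, hx⟩ ⟨y, hy⟩ ⟨z, hz⟩ ⟨u, rfl⟩ ⟨v, rfl⟩ ⟨w, rfl⟩ a b
    obtain ⟨-, rfl⟩ := (aAB _ _).1 a
    obtain ⟨-, rfl⟩ := (aAB _ _).1 b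
    rfl
  · rintro ⟨x, hx⟩ ⟨y, hy⟩ ⟨z, hz⟩ ⟨⟨j, i⟩, rfl⟩ ⟨⟨j', i'⟩, rfl⟩ ⟨w, rfl⟩ a b
    obtain ⟨rfl, rfl⟩ : j = _ ∧ _ := (aAB _ _).1 a
    obtain ⟨rfl, ⟨⟩⟩ : j' = _ ∧ _ := (aAB _ _).1 b
    rfl
  · rintro ⟨x, hx⟩ ⟨y, hy⟩ ⟨z, hz⟩ ⟨t, ht⟩ ⟨⟨j, i⟩, rfl⟩ ⟨v, rfl⟩ ⟨w, rfl⟩ a ⟨_, _, ⟨⟩, rfl⟩ b
    obtain ⟨rfl, rfl⟩ : j = _ ∧ _ := (aAB _ _).1 a
    obtain ⟨-, rfl⟩ := (aAB _ _).1 b
    have : i < wd (2 ^ n) := hx.2.2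
    rw [Hc_iff, cor1]
    change (i < wd (2 ^ n) - 1 → _) ∧ (¬ i < wd (2 ^ n) - 1 → _)
    refine ⟨fun h => ⟨_, _, rfl, ?_⟩, fun h => ?_⟩
    · dsimp only; rw [rg_lt (by omega)]; rfl
    · dsimp only; rw [rg_last (by omega)]
  · exact ⟨_, _, ⟨.N .B (0, 0), trivial, in0 (Nat.zero_le _)⟩, cor0.2 rfl,
      wk_N (c := .A) trivial _ le_rfl, by rw [Hc_iff]; exact lt_irrefl _, cor1.2 rfl,
      (aAB _ _).2 ⟨rfl, rfl⟩⟩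
  · rintro ⟨x, hx⟩ ⟨u, l, rfl⟩
    exact ⟨⟨.N .B u, trivial, hx⟩, ⟨_, rfl⟩, (aUB _ _).2 rfl⟩
  · rintro ⟨x, hx⟩ ⟨y, hy⟩ ⟨z, hz⟩ ⟨u, l, rfl⟩ ⟨v, rfl⟩ ⟨w, rfl⟩ a b
    obtain rfl := (aUB _ _).1 a
    obtain rfl := (aUB _ _).1 b
    rfl
  · rintro ⟨x, hx⟩ ⟨u, rfl⟩ l
    exact ⟨⟨.U u l, hx.2⟩, ⟨⟨_, _, rfl⟩, rfl⟩, (aUB _ _).2 rfl⟩
  · rintro ⟨x, hx⟩ ⟨y, hy⟩ ⟨z, hz⟩ ⟨u, rfl⟩ ⟨v, l, rfl⟩ ⟨w, l', rfl⟩ e a b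
    obtain rfl := (aUB _ _).1 a
    obtain rfl := (aUB _ _).1 b
    obtain rfl : l = l' := e
    rfl
  · rintro ⟨x, hx⟩ ⟨y, hy⟩ ⟨p, rfl⟩ ⟨u, rfl⟩
    exact ⟨_, (Lb_iff _ _ _).2 rfl⟩
  · rintro ⟨x, hx⟩ ⟨y, hy⟩ z w ⟨p, rfl⟩ ⟨u, rfl⟩ a b
    rw [(Lb_iff _ _ _).1 a, (Lb_iff _ _ _).1 b]
  · rintro ⟨x, hx⟩ ⟨y, hy⟩ ⟨p, rfl⟩ ⟨q, rfl⟩ H
    obtain rfl : p = q := funext fun u => by
      by_cases hu : In (hB n) u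
      · exact ((aUP _ _).1 ((H ⟨.U u (p u), hu⟩ ⟨_, _, rfl⟩).1 ((aUP _ _).2 rfl))).symm
      · rw [hx u hu, hy u hu]
    rfl
  · rintro ⟨x, hx⟩ ⟨y, hy⟩ ⟨p, rfl⟩ ⟨u, l, rfl⟩
    refine ⟨⟨.P (update p u l), fun v hv => ?_⟩, ⟨_, rfl⟩, (aUP _ _).2 (update_self ..), ?_⟩
    · rw [update_of_ne (by rintro rfl; exact hv hy), hx v hv]
    · rintro ⟨z, hz⟩ ⟨v, l', rfl⟩ h
      rw [aUP, aUP, update_of_ne]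
      rintro rfl
      exact h ⟨⟨.N .B v, trivial, hy⟩, ⟨_, rfl⟩, (aUB _ _).2 rfl, (aUB _ _).2 rfl⟩
  · rintro ⟨x, hx⟩ ⟨y, hy⟩ ⟨p, a, ⟨j, i⟩, rfl⟩ ⟨_, _, ⟨⟩, rfl⟩
    refine ⟨hx.1.2.1.loc.rh _ hx.2, fun h => ?_⟩
    obtain rfl : j = 0 := by simpa using mt (Hp_iff hx).2 h
    exact hx.1.2.1.loc.rt i hx.2.2
  · rintro s ⟨x, hx⟩ ⟨y, hy⟩ ⟨p, a, u, rfl⟩ ⟨_, _, ⟨⟩, rfl⟩
    exact hx.1.2.1.loc.rv _ s hx.2 hy.2.1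
  · rintro ⟨x, hx⟩ ⟨p, a, ⟨j, i⟩, rfl⟩ h
    obtain rfl : j = hB n := le_antisymm hx.2.1 (not_lt.1 (mt (Hc_iff hx).2 h))
    exact hx.1.2.1.loc.rb i hx.2.2
  · rintro ⟨x, hx⟩ ⟨k, h1, h2⟩ e
    obtain ⟨p, a, ⟨j, i⟩, rfl⟩ := k4.1 k
    have G := hx.1.2.1
    obtain rfl : j = 0 := by simpa using mt (Hp_iff hx).2 h1
    have e0 : (p (0, 0)).sl = false := (G.loc.top i hx.2.2).symm.trans e
    have hR := (G.root e0).1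
    cases top3 hx.2 (by simp) ((congrArg Lab.idx (root_det G.loc e0 hR _ _ hx.2)).symm.trans h2)
    exact ⟨_, ⟨.N _ (2 ^ n + 1, 0), hx.1, in0 hR.2.1⟩, wk_N hx.1 _ (Nat.le_of_succ_le hR.2.1),
      ⟨_, _, rfl, rfl⟩, hR.2.2⟩
  · rintro ⟨x, hx⟩ ⟨y, hy⟩ ⟨p, a, u, rfl⟩ (⟨v, rfl⟩ | ⟨v, rfl⟩ | ⟨v, rfl⟩) e
    exacts [((aXA _ _).1 e).1, ((aXB _ _).1 e).1, ((aXP _ _).1 e).1]
  · rintro ⟨x, hx⟩ ⟨p, a, u, rfl⟩ l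
    exact ⟨_, _, _, (Lk_iff _ _ _ _).2 ⟨l, rfl, rfl, rfl⟩⟩
  · rintro ⟨x, hx⟩ ⟨y, hy⟩ ⟨z, hz⟩ ⟨p, a, u, rfl⟩ e (⟨v, rfl⟩ | ⟨v, rfl⟩ | ⟨v, rfl⟩) b c
    · obtain ⟨w, rfl⟩ := k0.1 e.symm
      obtain ⟨-, rfl⟩ := (aXA _ _).1 b
      obtain ⟨-, rfl⟩ := (aXA _ _).1 c
      rfl
    · obtain ⟨w, rfl⟩ := k1.1 e.symm
      obtain ⟨-, rfl⟩ := (aXB _ _).1 b
      obtain ⟨-, rfl⟩ := (aXB _ _).1 c
      rfl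
    · obtain ⟨w, rfl⟩ := k3.1 e.symm
      obtain ⟨-, rfl⟩ := (aXP _ _).1 b
      obtain ⟨-, rfl⟩ := (aXP _ _).1 c
      rfl
  · rintro ⟨x, hx⟩ y z t ⟨p, a, u, rfl⟩ l
    obtain ⟨b, rfl, rfl, rfl⟩ := (Lk_iff _ _ _ _).1 l
    refine ⟨(GG_gd _).2 hx.1.2.1, fun v hv => by rw [(Lb_iff _ _ _).1 hv]; rfl, ?_⟩
    rw [Hp_iff, Hp_iff, Hc_iff, Hc_iff]
    exact ⟨Iff.rfl, Iff.rfl⟩
  · rintro ⟨x, hx⟩ y z t ⟨x', hx'⟩ ⟨t', ht'⟩ v ⟨p, a, u, rfl⟩ l h hv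
    obtain ⟨b, rfl, rfl, rfl⟩ := (Lk_iff _ _ _ _).1 l
    rcases h with ⟨⟨_, _, ⟨⟩, rfl⟩, _, _, ⟨⟩, rfl⟩ | ⟨⟨_, _, ⟨⟩, rfl⟩, _, _, ⟨⟩, rfl⟩ |
      ⟨⟨_, _, ⟨⟩, rfl⟩, _, _, ⟨⟩, rfl⟩ <;> rw [(Lb_iff _ _ _).1 hv] <;>
      exact ⟨rfl, fun l => (Lk_iff _ _ _ _).2 ⟨l, rfl, rfl, rfl⟩⟩
  · rintro ⟨x, hx⟩ ⟨y, hy⟩ ⟨z, hz⟩ v G ⟨a, rfl⟩ ⟨u, rfl⟩ hv l
    obtain ⟨p, rfl⟩ := k3.1 G.1
    rw [(Lb_iff _ _ _).1 hv] at l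
    exact ⟨⟨.N (.X p a) u, ⟨hx, (GG_gd _).1 G, hy.2⟩, hz.2⟩, ⟨_, _, _, rfl⟩,
      (Lk_iff _ _ _ _).2 ⟨l, rfl, rfl, rfl⟩⟩
  · rintro ⟨x, hx⟩ ⟨x', hx'⟩ y z t ⟨p, a, u, rfl⟩ ⟨q, b, v, rfl⟩ l l'
    obtain ⟨-, rfl, rfl, rfl⟩ := (Lk_iff _ _ _ _).1 l
    obtain ⟨-, ⟨⟩, ⟨⟩, ⟨⟩⟩ := (Lk_iff _ _ _ _).1 l'
    rfl

end Pool.Agent.H30.Ld
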