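import Pool.Agent.H30.LdI

/-! The explicit model embeds in every finite model. -/

namespace Pool.Agent.H30.Ld

open Function

variable {M : Mc} {n hH : ℕ}

theorem Good.exlk {h : ℕ} {L : ℕ × ℕ → Lab M.Q} (G : Good n h L) : ∃ w, In h w ∧ (L w).lk := by
  cases e : (L (0, 0)).sl
  · exact ⟨_, in0 le_rfl, .inr ((G.root e).2 0 (in0 le_rfl).2)⟩
  · exact ⟨_, in0 (Nat.zero_le _), .inl e⟩

theorem CG.col_eq {V : Type} {X : CG M.Q V} {x : V} {k : Fin 5} {l : Lab M.Q} (h1 : X.kd x = k)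
    (h2 : X.lb x = l) : X.col x = .inl (k, l) := by
  unfold CG.kd at h1
  unfold CG.lb at h2
  rcases e : X.col x with ⟨a, b⟩ | c <;> rw [e] at h1 h2
  · rw [← h2, ← (Fin.ext h1 : a = k)]; rfl
  · exact (k.2.ne' h1).elim

theorem embed {V : Type} [Finite V] {X : CG M.Q V} {pal : Co M.Q → V} (P : X.Pal pal)
    (A : X.Ax n) : ∃ E : (GG M n hH False).G ↪g X.G, ¬ M.Halts (2 ^ n + 1) → Surjective E := by
  obtain ⟨fA, fB, S⟩ := A.skel
  have T := S.T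
  have g := A.geo
  have z : ∀ {h}, In h (0, 0) := in0 (Nat.zero_le _)
  have ka : ∀ {u}, In (2 ^ n) u → X.kd (fA u) = 0 := fun hu => (S.kA _).2 ⟨_, hu, rfl⟩
  have kb : ∀ {u}, In (hB n) u → X.kd (fB u) = 1 := fun hu => (T.k _).2 ⟨_, hu, rfl⟩
  have exU : ∀ u l, ∃ v, In (hB n) u → (X.kd v = 2 ∧ X.lb v = l) ∧ X.G.Adj v (fB u) := fun u l => by
    by_cases hu : In (hB n) u
    exacts [(A.u3 _ (kb hu) l).imp fun _ h _ => h, ⟨fB u, fun h => (hu h).elim⟩]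
  choose fU hU using exU
  choose fP hP using A.exP T
  have exX : ∀ p a, ∃ f, okc n False (.X p a) → X.Cmp (hB n) fB (fP p) (fA a) p f := fun p a => by
    by_cases h : okc n False (.X p a)
    exacts [(A.exC T (hP p) h.2.1 (ka h.2.2)).imp fun _ h _ => h, ⟨fB, fun h' => (h h').elim⟩]
  choose fX hX using exX
  let E1 : Cp M → ℕ × ℕ → V := fun c => match c with
    | .A => fA
    | .B => fB
    | .X p a => fX p a
    | .H => fB
  let E0 : V0 M → V := fun x => match x with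
    | .pal c => pal c
    | .U u l => fU u l
    | .P p => fP p
    | .N c u => E1 c u
  have cd : ∀ {c}, okc n False c → X.Cd (ht n hH c) (E1 c) := by
    rintro (_ | _ | _ | _) h
    exacts [S.cA, T.c, (hX _ _ h).1, h.elim]
  have kx : ∀ {p a u}, okc n False (.X p a) → In (hB n) u → X.kd (fX p a u) = 4 := fun h hu =>
    ((hX _ _ h).1.kd hu).trans (hX _ _ h).2.1
  have hcol : ∀ x : Vx M n hH False, X.col (E0 x.1) = col n x.1 := by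
    rintro ⟨c | ⟨u, l⟩ | p | ⟨_ | _ | ⟨p, a⟩ | _, u⟩, h⟩
    exacts [(P.h1 _ _).2 rfl, CG.col_eq (hU u l h).1.1 (hU u l h).1.2,
      CG.col_eq (hP p).1 (A.k2 _ (hP p).1), CG.col_eq (ka h.2) (S.lA u h.2),
      CG.col_eq (kb h.2) (S.lB u h.2), CG.col_eq (kx h.1 h.2) ((hX _ _ h.1).2.2 u h.2).1, h.1.elim]
  have hkd : ∀ x : Vx M n hH False, X.kd (E0 x.1) = (GG M n hH False).kd x := fun x =>
    congrArg ck (hcol x)
  have uu : ∀ {u v}, In (hB n) u → X.kd v = 2 → X.G.Adj v (fB u) → v = fU u (X.lb v) :=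
    fun hu k a => A.u4 _ _ _ (kb hu) k (hU _ _ hu).1.1 (hU _ _ hu).1.2.symm a (hU _ _ hu).2
  have uB : ∀ {u v l}, In (hB n) u → In (hB n) v → X.G.Adj (fU u l) (fB v) → v = u :=
    fun hu hv a => T.c.inj _ _ hv hu (A.u2 _ _ _ (hU _ _ hu).1.1 (kb hv) (kb hu) a (hU _ _ hu).2)
  have uP : ∀ {u l p}, In (hB n) u → (X.G.Adj (fU u l) (fP p) ↔ p u = l) := fun {u l p} hu => by
    refine ⟨fun a => (((hP p).2 u hu).2 _ ⟨(hU _ _ hu).1.1, a, (hU _ _ hu).2⟩).symm.trans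
      (hU _ _ hu).1.2, ?_⟩
    rintro rfl
    obtain ⟨⟨v, hv⟩, b⟩ := (hP p).2 u hu
    rw [← b v hv, ← uu hu hv.1 hv.2.2]
    exact hv.2.1
  have pi : ∀ {p q}, nrm n p → nrm n q → fP p = fP q → p = q := fun {p q} hp hq e => funext fun u => by
    by_cases hu : In (hB n) u
    · exact ((uP hu).1 (e ▸ (uP hu).2 rfl)).symm
    · rw [hp u hu, hq u hu]
  have inj : ∀ x y : Vx M n hH False, E0 x.1 = E0 y.1 → x = y := by
    intro x y e
    have hc : col n x.1 = col n y.1 := by rw [← hcol, ← hcol, e]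
    rcases x with ⟨c | ⟨u, l⟩ | p | ⟨_ | _ | ⟨p, a⟩ | _, u⟩, hx⟩ <;>
      rcases y with ⟨d | ⟨v, l'⟩ | q | ⟨_ | _ | ⟨q, b⟩ | _, v⟩, hy⟩ <;>
      (try exact hx.1.elim) <;> (try exact hy.1.elim) <;> simp [col, kc] at hc
    · rw [Subtype.mk.injEq, hc]
    · obtain rfl := uB hy hx ((show fU u l = fU v l' from e) ▸ (hU u l hx).2)
      rw [Subtype.mk.injEq, hc]
    · rw [Subtype.mk.injEq, pi hx hy e]
    · rw [Subtype.mk.injEq, S.cA.inj _ _ hx.2 hy.2 e]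
    · rw [Subtype.mk.injEq, T.c.inj _ _ hx.2 hy.2 e]
    · obtain ⟨w, hw, l⟩ := hx.1.2.1.exlk
      obtain ⟨w', hw', e'⟩ := (cd hx.1).same g (cd hy.1) hx.2 hy.2 e hw
      change fX p a w = fX q b w' at e'
      obtain ⟨b1, b2⟩ := (hX _ _ hx.1).2.2 w hw
      obtain ⟨b3, b4⟩ := (hX _ _ hy.1).2.2 w' hw'
      have b5 := b2 l
      have b6 := b4 (by rw [← b3, ← e', b1]; exact l)
      rw [← e'] at b6
      obtain rfl := pi hx.1.1 hy.1.1 (A.l3 _ _ _ (kx hx.1 hw) (b5.1.trans b6.1.symm)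
        (.inr (.inr b5.1)) b5.2.2.2.1 b6.2.2.2.1)
      obtain rfl := S.cA.inj _ _ hx.1.2.2 hy.1.2.2 (A.l3 _ _ _ (kx hx.1 hw)
        (b5.2.1.trans b6.2.1.symm) (.inl b5.2.1) b5.2.2.2.2.1 b6.2.2.2.2.1)
      rw [Subtype.mk.injEq, (cd hx.1).inj _ _ hx.2 hy.2 e]
  have fw : ∀ x y : Vx M n hH False, a0 n x.1 y.1 → X.G.Adj (E0 x.1) (E0 y.1) := by
    rintro x ⟨c | _ | q | ⟨d, v⟩, hy⟩ a
    · have : col n x.1 = .inl c := by obtain ⟨x, hx⟩ := x; cases x <;> exact a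
      exact (P.h2 _ _ _ ((hcol x).trans this)).2 rfl
    · rcases x with ⟨_ | _ | _ | ⟨_ | _ | _ | _, u⟩, hx⟩ <;> exact a.elim
    · rcases x with ⟨_ | _ | _ | ⟨_ | _ | ⟨p, b⟩ | _, u⟩, hx⟩ <;> try exact a.elim
      · exact (uP hx).2 a
      · obtain ⟨l, rfl⟩ := a
        exact (((hX _ _ hx.1).2.2 u hx.2).2 l).2.2.2.1
    · rcases x with ⟨_ | _ | _ | ⟨c, u⟩, hx⟩ <;> try exact a.elim
      · obtain ⟨rfl, rfl⟩ := a
        exact (hU _ _ hx).2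
      · rcases a with ⟨rfl, a⟩ | a
        · exact ((cd hx.1).adj hx.2 hy.2 a).1
        · cases c <;> cases d <;> try exact a.elim
          · exact (S.ab _ _ hx.2 hy.2).2 a
          · obtain ⟨l, rfl⟩ := a
            exact (((hX _ _ hx.1).2.2 u hx.2).2 l).2.2.2.2.1
          · obtain ⟨l, rfl⟩ := a
            exact (((hX _ _ hx.1).2.2 v hx.2).2 l).2.2.2.2.2
  have xl : ∀ {p a u y}, okc n False (.X p a) → In (hB n) u → X.G.Adj (fX p a u) y →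
      (X.kd y = 0 ∨ X.kd y = 1 ∨ X.kd y = 3) → (p u).lk ∧ X.Lk (fX p a u) (fP p) (fA a) (fB u) ∧
      ∀ z, X.kd y = X.kd z → X.G.Adj (fX p a u) z → y = z := fun {p a u y} h hu e k => by
    obtain ⟨b1, b2⟩ := (hX _ _ h).2.2 u hu
    have l : (p u).lk := b1 ▸ A.l1 _ _ (kx h hu) k e
    exact ⟨l, b2 l, fun z e1 e2 => A.l3 _ _ _ (kx h hu) e1 k e e2⟩
  have bw : ∀ x y : Vx M n hH False, X.G.Adj (E0 x.1) (E0 y.1) →
      al ((GG M n hH False).kd x) ((GG M n hH False).kd y) → a0 n x.1 y.1 := by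
    rintro ⟨x, hx⟩ ⟨y, hy⟩ a (⟨e1, e2⟩ | ⟨e1, e2⟩ | ⟨e1, e2⟩ | ⟨e1, e2 | e2 | e2⟩ | e2)
    · obtain ⟨u, rfl⟩ := k0.1 e1
      obtain ⟨v, rfl⟩ := k1.1 e2
      exact .inr ((S.ab _ _ hx.2 hy.2).1 a)
    · obtain ⟨u, l, rfl⟩ := k2.1 e1
      obtain ⟨v, rfl⟩ := k1.1 e2
      exact ⟨rfl, uB hx hy.2 a⟩
    · obtain ⟨u, l, rfl⟩ := k2.1 e1
      obtain ⟨v, rfl⟩ := k3.1 e2
      exact (uP hx).1 a
    · obtain ⟨p, b, u, rfl⟩ := k4.1 e1
      obtain ⟨v, rfl⟩ := k0.1 e2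
      obtain ⟨b1, b2, b3⟩ := xl hx.1 hx.2 a (.inl (ka hy.2))
      exact .inr ⟨b1, S.cA.inj _ _ hy.2 hx.1.2.2 (b3 _ ((ka hy.2).trans b2.2.1.symm) b2.2.2.2.2.1)⟩
    · obtain ⟨p, b, u, rfl⟩ := k4.1 e1
      obtain ⟨v, rfl⟩ := k1.1 e2
      obtain ⟨b1, b2, b3⟩ := xl hx.1 hx.2 a (.inr (.inl (kb hy.2)))
      exact .inr ⟨b1, T.c.inj _ _ hy.2 hx.2 (b3 _ ((kb hy.2).trans b2.2.2.1.symm) b2.2.2.2.2.2)⟩
    · obtain ⟨p, b, u, rfl⟩ := k4.1 e1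
      obtain ⟨v, rfl⟩ := k3.1 e2
      obtain ⟨b1, b2, b3⟩ := xl hx.1 hx.2 a (.inr (.inr (hP v).1))
      exact ⟨b1, pi hy hx.1.1 (b3 _ ((hP v).1.trans b2.1.symm) b2.2.2.2.1)⟩
    · obtain ⟨c, rfl⟩ : ∃ c, y = .pal c := by
        rcases y with _ | _ | _ | ⟨_ | _ | _ | _, u⟩ <;> simp [kd_eq, col, ck, kc] at e2 ⊢
      have : col n x = .inl c := by
        rcases e : col n x with d | d
        · rw [(P.h2 _ _ _ ((hcol ⟨x, hx⟩).trans e)).1 a]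
        · have e3 := (P.h1 _ _).1 ((hcol ⟨x, hx⟩).trans e)
          have e4 : X.kd (E0 x) = X.kd (pal c) := by
            rw [e3, CG.kd, CG.kd, (P.h1 _ _).2 rfl, (P.h1 _ _).2 rfl]; rfl
          have e5 : ¬ gk (X.kd (pal c)) := by rw [CG.kd, (P.h1 _ _).2 rfl]; simp [gk, ck]
          rcases g.g11 _ _ a e4 with h | h | h | h | h | h <;>
            first | exact (e5 h.2.2.1).elim | exact (e5 (e4 ▸ h.2.2.1)).elim
      cases x <;> exact this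
  refine ⟨⟨⟨fun x => E0 x.1, inj⟩, fun {x y} => ⟨fun a => ?_, fun a => a.elim (fw x y)
    fun a => (fw y x a).symm⟩⟩, fun nh x => ?_⟩
  · change X.G.Adj (E0 x.1) (E0 y.1) at a
    by_cases k : X.kd (E0 x.1) = X.kd (E0 y.1)
    · have : gk (X.kd (E0 x.1)) := by
        rcases g.g11 _ _ a k with h | h | h | h | h | h <;>
          first | exact h.2.2.1 | exact k ▸ h.2.2.1
      rw [hkd] at this
      rcases x with ⟨_ | _ | _ | ⟨c, u⟩, hx⟩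
      iterate 3 simp [kd_eq, col, ck, gk] at this
      obtain ⟨v, hv, e, s⟩ := (cd hx.1).nbr g hx.2 a k
      obtain rfl := inj y ⟨.N c v, hx.1, hv⟩ e
      exact s.imp (fun s => .inl ⟨rfl, s⟩) fun s => .inl ⟨rfl, s⟩
    · have := A.e1 _ _ a k
      rw [hkd, hkd] at this
      exact this.imp (bw x y a) (bw y x a.symm)
  · rcases e : X.col x with ⟨k, l⟩ | c
    swap
    · exact ⟨⟨.pal c, trivial⟩, ((P.h1 _ _).1 e).symm⟩
    have e' : X.kd x = k := congrArg ck e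
    fin_cases k
    · obtain ⟨u, hu, rfl⟩ := (S.kA x).1 e'
      exact ⟨⟨.N .A u, trivial, hu⟩, rfl⟩
    · obtain ⟨u, hu, rfl⟩ := (T.k x).1 e'
      exact ⟨⟨.N .B u, trivial, hu⟩, rfl⟩
    · obtain ⟨t, kt, a⟩ := A.u1 x e'
      obtain ⟨u, hu, rfl⟩ := (T.k t).1 kt
      exact ⟨⟨.U u _, hu⟩, (uu hu e' a).symm⟩
    · obtain ⟨L, h1, h2⟩ := A.exL T e'
      exact ⟨⟨.P L, h1⟩, A.rep_eq T (hP L) h2⟩
    · obtain ⟨h, f, u, c, hu, rfl, c0⟩ := g.cover0 x (.inr (.inr e'))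
      rw [show X.kd (f u) = 4 from e'] at c0
      have : ∃ w, In h w ∧ (X.lb (f w)).lk := by
        cases e1 : (X.lb (f (0, 0))).sl
        · cases e2 : (X.lb (f (h, 0))).bb
          · exact (nh (halts_of (A.loc c c0.1) e1 (A.root c c0 e1) e2)).elim
          · exact ⟨_, in0 le_rfl, .inr e2⟩
        · exact ⟨_, z, .inl e1⟩
      obtain ⟨w, hw, l⟩ := this
      have k4 := (c.kd hw).trans c0.1
      obtain ⟨p, a, t, lk⟩ := A.l2 _ k4 l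
      obtain ⟨L, h1, h2⟩ := A.exL T lk.1
      obtain rfl := A.rep_eq T (hP L) h2
      obtain ⟨a, ha, rfl⟩ := (S.kA a).1 lk.2.1
      obtain ⟨t, ht, rfl⟩ := (T.k t).1 lk.2.2.1
      have o : okc n False (.X L a) := ⟨h1, (T.gd h2).1 (A.l4 _ _ _ _ k4 lk).1, ha⟩
      have := A.l7 _ _ _ _ _ k4 (kx o ht) lk (((hX _ _ o).2.2 t ht).2 ((A.lab T h2 ht k4 lk).1 ▸ l))
      obtain ⟨v, hv, e3⟩ := c.same g (hX _ _ o).1 hw ht this hu
      exact ⟨⟨.N (.X L a) v, o, hv⟩, e3.symm⟩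

end Pool.Agent.H30.Ld
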