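import Pool.Agent.H30.LdJ
import Pool.Agent.H30.LdC

/-! The explicit model cannot be told from the model with one extra halting pyramid. -/

namespace Pool.Agent.H30.Ld

open Function

variable {M : Mc} {n hH : ℕ}

def fr : V0 M → Prop
  | .N (.X p _) u => ¬ (p u).lk
  | .N .H _ => True
  | _ => False

noncomputable def cx (M : Mc) (n hH : ℕ) : Cx (Vx M n hH True) where
  G := (GG M n hH True).G
  Pl x := ∃ c, x.1 = .pal c
  K x := ¬ fr x.1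
  pk := by rintro ⟨_, _⟩ ⟨c, rfl⟩; exact id

theorem fr_nb {x y : Vx M n hH True} (e : (cx M n hH).E x y) (f : fr x.1) :
    ∃ c u v, x.1 = .N c u ∧ y.1 = .N c v ∧ (St u v ∨ St v u) := by
  obtain ⟨a, -, hy⟩ := e
  refine same a ?_
  change a0 _ _ _ ∨ a0 _ _ _ at a
  rcases x with ⟨_ | _ | _ | ⟨_ | _ | _ | _, u⟩, hx⟩ <;> (try exact f.elim) <;>
    rcases y with ⟨_ | _ | _ | ⟨_ | _ | _ | _, v⟩, hy'⟩ <;> (try exact (hy ⟨_, rfl⟩).elim) <;>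
    (try rfl) <;> simp_all [a0, lnk, fr]

theorem adj_same {ex : Prop} {c : Cp M} {u v : ℕ × ℕ} (h1 h2) :
    (GG M n hH ex).G.Adj ⟨.N c u, h1⟩ ⟨.N c v, h2⟩ ↔ St u v ∨ St v u := by
  cases c <;> simp [adj_iff, a0, lnk]

theorem E_st {c : Cp M} {u v : ℕ × ℕ} (h1 h2) (s : St u v ∨ St v u) :
    (cx M n hH).E ⟨.N c u, h1⟩ ⟨.N c v, h2⟩ :=
  ⟨(adj_same _ _).2 s, by rintro ⟨_, ⟨⟩⟩, by rintro ⟨_, ⟨⟩⟩⟩

theorem piece {c : Cp M} (hc : okc n True c) (k4 : kc c = 4) {p : ℕ × ℕ → Lab M.Q} {a : ℕ × ℕ}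
    (o : okc n True (.X p a)) (φ : ℕ × ℕ → ℕ × ℕ)
    (h1 : ∀ v, In (hB n) v → ¬ (p v).lk →
      In (ht n hH c) (φ v) ∧ lc n c (φ v) = p v ∧ fr (.N c (φ v)))
    (h2 : ∀ v v', In (hB n) v → In (hB n) v' → φ v = φ v' → v = v')
    (h3 : ∀ v v', In (hB n) v → In (hB n) v' → ¬ (p v).lk → (St v v' ↔ St (φ v) (φ v')))
    (h4 : ∀ v z, In (hB n) v → ¬ (p v).lk → In (ht n hH c) z → (St (φ v) z ∨ St z (φ v)) →
      ∃ v', In (hB n) v' ∧ φ v' = z ∧ (St v v' ∨ St v' v))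
    (Nr : ℕ → ℕ × ℕ → Prop) (n0 : ∀ t v, In (hB n) v → (p v).lk → Nr t v)
    (n1 : ∀ t v, Nr t v → Nr (t + 1) v)
    (n2 : ∀ t v v', In (hB n) v → In (hB n) v' → (St v v' ∨ St v' v) → Nr t v → Nr (t + 1) v')
    {w : ℕ × ℕ} (hw : In (hB n) w) {r : ℕ} (nw : ¬ Nr (2 * r + 1) w) (hx) :
    ¬ (cx M n hH).Bl (cx M n hH).K (2 * r + 1) ⟨.N (.X p a) w, o, hw⟩ ∧
      ∃ F, (cx M n hH).Lc F ⟨.N (.X p a) w, o, hw⟩ ⟨.N c (φ w), hx⟩ r := by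
  have key : ∀ t x, (cx M n hH).Bl (cx M n hH).K t x → ∀ v, x.1 = .N (.X p a) v → Nr t v := by
    intro t
    induction t with
    | zero => rintro ⟨x, hx⟩ h v rfl; exact n0 _ _ hx.2 (not_not.1 h)
    | succ t ih =>
      rintro ⟨x, hx⟩ (h | ⟨⟨y, hy⟩, b1, b2⟩) v rfl
      · exact n1 _ _ (ih _ h v rfl)
      · by_cases l : (p v).lk
        · exact n0 _ _ hx.2 l
        · obtain ⟨_, _, v', ⟨⟩, rfl, s⟩ := fr_nb b2.symm l
          exact n2 _ _ _ hy.2 hx.2 s.symm (ih _ b1 v' rfl)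
  have far := fun h => nw (key _ ⟨.N (.X p a) w, o, hw⟩ h w rfl)
  refine ⟨far, fun x y => ∃ v, In (hB n) v ∧ ¬ (p v).lk ∧ x.1 = .N (.X p a) v ∧ y.1 = .N c (φ v),
    Cx.lc_of ?_ ⟨w, hw, fun l => nw (n0 _ _ hw l), rfl, rfl⟩ ?_ ?_ ?_
      fun h => far (h.le (by omega))⟩
  · rintro ⟨x, hx⟩ ⟨y, hy⟩ ⟨x', hx'⟩ ⟨y', hy'⟩ ⟨v, b1, b2, rfl, rfl⟩ ⟨v', b3, b4, rfl, rfl⟩
    refine ⟨?_, (adj_same _ _).trans ((or_congr (h3 _ _ b1 b3 b2) (h3 _ _ b3 b1 b4)).trans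
      (adj_same _ _).symm)⟩
    simp only [Subtype.mk.injEq, V0.N.injEq, true_and]
    exact ⟨congrArg φ, h2 _ _ b1 b3⟩
  · rintro ⟨x, hx⟩ ⟨y, hy⟩ ⟨v, b1, b2, rfl, rfl⟩
    refine ⟨by rintro ⟨_, ⟨⟩⟩, by rintro ⟨_, ⟨⟩⟩, ?_⟩
    rintro ⟨z, hz⟩ ⟨d, rfl⟩
    simp only [cx, adj_iff, a0, col, k4, (h1 v b1 b2).2.1]
    rfl
  · rintro ⟨x, hx⟩ ⟨y, hy⟩ ⟨x', hx'⟩ ⟨v, b1, b2, rfl, rfl⟩ e l
    obtain ⟨_, _, v', ⟨⟩, rfl, s⟩ := fr_nb e b2
    have l' : ¬ (p v').lk := not_not.1 l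
    exact ⟨⟨.N c (φ v'), hc, (h1 v' hx'.2 l').1⟩, v', hx'.2, l', rfl, rfl⟩
  · rintro ⟨x, hx⟩ ⟨y, hy⟩ ⟨y', hy'⟩ ⟨v, b1, b2, rfl, rfl⟩ e
    obtain ⟨_, _, z, ⟨⟩, rfl, s⟩ := fr_nb e (h1 v b1 b2).2.2
    obtain ⟨v', b3, rfl, b4⟩ := h4 v z b1 b2 hy'.2 s
    exact ⟨⟨.N (.X p a) v', o, b3⟩, E_st _ _ b4, fun l => ⟨v', b3, not_not.1 l, rfl, rfl⟩⟩

def ph (j0 b : ℕ) (v : ℕ × ℕ) : ℕ × ℕ := (j0 + v.1, (b * 2 ^ v.1 + v.2) % wd (j0 + v.1))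
def sm (v : ℕ × ℕ) : Prop := v.1 = 0 ∨ v.2 = 0 ∨ v.2 + 1 = wd v.1

open Classical in
noncomputable def wl (M : Mc) (n h hH j0 b : ℕ) (v : ℕ × ℕ) : Lab M.Q :=
  if In h v then {rl M n (ph j0 b v) with
    sl := decide (0 < j0 ∧ sm v), bb := decide (j0 + h < hH ∧ v.1 = h)} else can M 0 0

variable {h j0 b : ℕ}

theorem ph_ch (s : Fin 2) (v : ℕ × ℕ) : ph j0 b (ch s v) = ch s (ph j0 b v) := by
  have := s.2
  have := wd_ge (j0 + v.1)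
  simp only [ph, ch, ← add_assoc, wd_succ, Prod.mk.injEq, true_and]
  rw [show b * 2 ^ (v.1 + 1) + 2 * v.2 + s = s + 2 * (b * 2 ^ v.1 + v.2) by ring,
    Nat.mod_mul, Nat.add_mul_div_left _ _ two_pos, Nat.add_mul_mod_self_left,
    Nat.mod_eq_of_lt s.2, Nat.div_eq_of_lt s.2, zero_add, add_comm]

theorem ph_rg {v : ℕ × ℕ} (hv : In h v) (hb : j0 = 0 → b = 0) (hs : 0 < j0 → v.2 + 1 ≠ wd v.1) :
    ph j0 b (rg v) = rg (ph j0 b v) := by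
  rcases j0 with _ | j0
  · simp [ph, rg, hb rfl]
  · have := hv.2
    have := hs (Nat.succ_pos _)
    rw [rg_lt (by omega)]
    simp [ph, rg, add_assoc]

theorem ph_inj {v w : ℕ × ℕ} (hv : In h v) (hw : In h w) (e : ph j0 b v = ph j0 b w) : v = w := by
  obtain ⟨j, i⟩ := v
  obtain ⟨j', i'⟩ := w
  simp only [ph, Prod.mk.injEq, Nat.add_left_cancel_iff] at e
  obtain ⟨rfl, e⟩ := e
  have : wd j ≤ wd (j0 + j) := Nat.mul_le_mul_left _ (Nat.pow_le_pow_right two_pos (by omega))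
  rw [Nat.ModEq.eq_of_lt_of_lt (Nat.ModEq.add_left_cancel' _ e) (hv.2.trans_le this)
    (hw.2.trans_le this)]

theorem ph_in {v : ℕ × ℕ} (hv : In h v) (hj : j0 + h ≤ hH) : In hH (ph j0 b v) :=
  ⟨by have := hv.1; dsimp only [ph]; omega, Nat.mod_lt _ (by have := wd_ge (j0 + v.1); omega)⟩

theorem wl_sl {v : ℕ × ℕ} (hv : In h v) : (wl M n h hH j0 b v).sl = true ↔ 0 < j0 ∧ sm v := by
  simp [wl, hv]

theorem wl_bb {v : ℕ × ℕ} (hv : In h v) :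
    (wl M n h hH j0 b v).bb = true ↔ j0 + h < hH ∧ v.1 = h := by simp [wl, hv]

theorem wl_good (hb : j0 = 0 → b = 0) (hj : j0 + h ≤ hH) (h1 : h < hH)
    (h2 : (cf M n hH).1 = M.h) (h3 : 2 ^ n + 1 ≤ h) : Good n h (wl M n h hH j0 b) := by
  have z : In h (0, 0) := in0 (Nat.zero_le _)
  refine ⟨⟨fun u hu => ?_, fun u s hu hl => ?_, fun i hi => ?_, fun i hi e1 e2 => ?_⟩, fun e => ?_,
    fun e u hu hs => (wl_sl hu).2 ⟨((wl_sl z).1 e).1, .inr hs⟩⟩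
  · by_cases hs : 0 < j0 → u.2 + 1 ≠ wd u.1
    · obtain ⟨a1, a2, a3, -, a5, a6⟩ := rl_rh (M := M) n (ph_in (b := b) hu hj)
      rw [← ph_rg hu hb hs] at a1 a2 a3 a5 a6
      simp only [wl, hu, hu.rg, if_true]
      exact ⟨a1, a2, a3, rfl, fun _ => a5 rfl, fun _ => a6 rfl⟩
    · push Not at hs
      have s1 := (wl_sl (M := M) (n := n) (hH := hH) (b := b) hu).2 ⟨hs.1, .inr (.inr hs.2)⟩
      have s2 := (wl_sl (M := M) (n := n) (hH := hH) (b := b) hu.rg).2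
        ⟨hs.1, .inr (.inl (by rw [rg_last hs.2]))⟩
      refine ⟨?_, ?_, ?_, ?_, by simp [s2], by simp [s1]⟩ <;> simp only [wl, hu, hu.rg, if_true]
      · rfl
      · simp [rl, mkL, ph, rg, cast_mod, add_assoc]
      · rfl
      · rfl
  · obtain ⟨a1, a2, -, -, a5⟩ := rl_rv (M := M) n (ph_in (b := b) hu hj) s
    rw [← ph_ch] at a1 a2 a5
    have s1 := wl_sl (M := M) (n := n) (hH := hH) (b := b) (j0 := j0) hu
    have s2 := wl_sl (M := M) (n := n) (hH := hH) (b := b) (j0 := j0) (hu.ch hl s)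
    refine ⟨?_, ?_, ?_, ?_, fun _ => ?_⟩
    · simpa only [wl, hu, hu.ch hl s, if_true] using a1
    · simpa only [wl, hu, hu.ch hl s, if_true] using a2
    · rw [Bool.eq_false_iff, Ne, wl_bb hu]; omega
    · rw [Bool.eq_false_iff, Bool.eq_false_iff, Ne, Ne, s1, s2]
      simp only [sm, ch, wd_succ]
      have := s.2
      have := hu.2
      omega
    · simp only [wl, hu, hu.ch hl s, if_true]
      exact a5 rfl
  · have hu : In h (0, i) := ⟨z.1, hi⟩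
    refine ⟨by rw [Bool.eq_iff_iff, wl_sl hu, wl_sl hu.rg]; simp [sm, rg], fun e => ?_⟩
    rw [Bool.eq_false_iff, Ne, wl_sl hu] at e
    obtain rfl : j0 = 0 := by simpa [sm] using e
    have := (rl_rt (M := M) n hi (rl M n (0, 0)) rfl).2 rfl
    simpa [wl, hu, ph, hb rfl, Nat.mod_eq_of_lt (show i < wd 0 from hi)] using this
  · have hu : In h (h, i) := ⟨le_rfl, hi⟩
    rw [Bool.eq_false_iff, Ne, wl_bb hu] at e2
    obtain rfl : hH = j0 + h := by dsimp only at e2; omega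
    simp only [wl, hu, if_true]
    exact h2
  · rw [Bool.eq_false_iff, Ne, wl_sl z] at e
    obtain rfl : j0 = 0 := by simpa [sm] using e
    refine ⟨⟨?_, h3, ?_, ?_⟩, fun i hi => (wl_bb ⟨le_rfl, hi⟩).2 ⟨by omega, rfl⟩⟩
    · simp [wl, z, ph, hb rfl, rl, mkL]
    · simp [wl, in0 (Nat.le_of_succ_le h3), ph, rl, mkL]
    · simp [wl, in0 h3, ph, rl, mkL]

theorem wl_lk {v : ℕ × ℕ} (hv : In h v) : (wl M n h hH j0 b v).lk ↔
    (0 < j0 ∧ sm v) ∨ (j0 + h < hH ∧ v.1 = h) := or_congr (wl_sl hv) (wl_bb hv)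

def Nr (h hH j0 t : ℕ) (v : ℕ × ℕ) : Prop :=
  (0 < j0 ∧ (v.1 ≤ t ∨ v.2 + 1 ≤ 2 ^ t ∨ wd v.1 ≤ v.2 + 2 ^ t)) ∨ (j0 + h < hH ∧ h ≤ v.1 + t)

theorem st_cases {u v : ℕ × ℕ} (hu : In h u) (s : St u v) : (v.1 = u.1 ∧ (v.2 = u.2 + 1 ∨
    (v.2 = 0 ∧ u.2 + 1 = wd u.1))) ∨ (v.1 = u.1 + 1 ∧ (v.2 = 2 * u.2 ∨ v.2 = 2 * u.2 + 1)) := by
  obtain ⟨j, i⟩ := u
  rcases s with rfl | ⟨s, rfl⟩
  · rcases (show i + 1 < wd j ∨ i + 1 = wd j from (Nat.succ_le_of_lt hu.2).lt_or_eq) with e | e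
    · simp [rg_lt e]
    · simp [rg_last e, e]
  · have := s.2
    simp only [ch, true_and]
    omega

theorem nr_step {t : ℕ} {v v' : ℕ × ℕ} (hv : In h v) (hv' : In h v') (s : St v v' ∨ St v' v)
    (e : Nr h hH j0 t v) : Nr h hH j0 (t + 1) v' := by
  have := Nat.one_le_two_pow (n := t)
  obtain ⟨j, i⟩ := v
  obtain ⟨j', i'⟩ := v'
  have := wd_succ j
  have := wd_succ j'
  simp only [Nr, pow_succ] at e ⊢
  rcases s with s | s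
  · rcases st_cases hv s with ⟨e1, e2⟩ | ⟨e1, e2⟩ <;> dsimp only at e1 e2 <;> subst e1 <;> omega
  · rcases st_cases hv' s with ⟨e1, e2⟩ | ⟨e1, e2⟩ <;> dsimp only at e1 e2 <;> subst e1 <;> omega

theorem window (hb : j0 = 0 → b = 0) (hj : j0 + hB n ≤ hH) {a : ℕ × ℕ}
    (o : okc n True (.X (wl M n (hB n) hH j0 b) a)) {w : ℕ × ℕ} (hw : In (hB n) w) {r : ℕ}
    (nw : ¬ Nr (hB n) hH j0 (2 * r + 1) w) (hx) :
    ¬ (cx M n hH).Bl (cx M n hH).K (2 * r + 1) ⟨.N (.X _ a) w, o, hw⟩ ∧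
      ∃ F, (cx M n hH).Lc F ⟨.N (.X _ a) w, o, hw⟩ ⟨.N .H (ph j0 b w), hx⟩ r := by
  have R : ∀ {v}, In (hB n) v → ¬ (wl M n (hB n) hH j0 b v).lk →
      ph j0 b (rg v) = rg (ph j0 b v) := fun hv l =>
    ph_rg hv hb fun e e' => l ((wl_lk hv).2 (.inl ⟨e, .inr (.inr e')⟩))
  refine piece (c := .H) trivial rfl o (ph j0 b) (fun v hv l => ⟨ph_in hv hj, ?_, trivial⟩)
    (fun _ _ => ph_inj) (fun v v' hv hv' l => ⟨?_, ?_⟩) (fun v z hv l hz s => ?_)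
    (Nr (hB n) hH j0) (fun t v hv l => ?_) (fun t v e => ?_) (fun _ _ _ => nr_step) hw nw hx
  · rw [wl_lk hv, not_or] at l
    simp only [wl, hv, if_true, l.1, l.2, decide_false]
    rfl
  · rintro (rfl | ⟨s, rfl⟩)
    exacts [.inl (R hv l), .inr ⟨s, ph_ch s v⟩]
  · rintro (e | ⟨s, e⟩)
    · exact .inl (ph_inj hv' hv.rg (e.trans (R hv l).symm))
    · have : v'.1 = v.1 + 1 := by simpa [ph, ch, add_assoc] using congrArg Prod.fst e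
      exact .inr ⟨s, ph_inj hv' (hv.ch (by have := hv'.1; omega) s) (e.trans (ph_ch s v).symm)⟩
  · have l' := l
    rw [wl_lk hv] at l'
    rcases s with (rfl | ⟨s, rfl⟩) | (e | ⟨s, e⟩)
    · exact ⟨_, hv.rg, R hv l, .inl (.inl rfl)⟩
    · have := hv.1
      have : j0 + v.1 + 1 ≤ hH := hz.1
      exact ⟨_, hv.ch (by omega) s, ph_ch s v, .inl (.inr ⟨s, rfl⟩)⟩
    · obtain ⟨v', b1, rfl⟩ := exists_lf hv
      rw [ph_rg b1 hb fun e e' => l' (.inl ⟨e, .inr (.inl (by rw [rg_last e']))⟩)] at e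
      exact ⟨v', b1, rg_inj (ph_in b1 hj) hz e, .inr (.inl rfl)⟩
    · obtain ⟨_ | j, i⟩ := v
      · have : j0 + 0 = z.1 + 1 := congrArg Prod.fst e
        exact (l' (.inl ⟨by omega, .inl rfl⟩)).elim
      · obtain ⟨t, v', b1, -, b2⟩ := exists_par hv
        rw [← b2, ph_ch] at e
        exact ⟨v', b1, ch_inj e, .inr (.inr ⟨t, b2.symm⟩)⟩
  · have := Nat.one_le_two_pow (n := t)
    rw [wl_lk hv, sm] at l
    rw [Nr]
    omega
  · simp only [Nr, pow_succ] at e ⊢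
    omega

theorem ef {k : ℕ} (hk : 2 * k + 1 ≤ 2 ^ n) (h1 : hB n < hH) (h2 : (cf M n hH).1 = M.h)
    (φ : FirstOrder.Language.graph.Sentence) (hφ : qd φ ≤ k) :
    Sat (GG M n hH False).G φ ↔ Sat (GG M n hH True).G φ := by
  classical
  have mono : ∀ x : V0 M, ok n hH False x → ok n hH True x := by
    rintro (_ | _ | _ | ⟨_ | _ | _ | _, u⟩) h <;> first | exact h | exact h.1.elim
  let ι : Vx M n hH False → Vx M n hH True := fun x => ⟨x.1, mono _ x.2⟩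
  have rg : ∀ x, x ∈ Set.range ι ↔ ∀ u, x.1 ≠ .N .H u := by
    rintro ⟨x, hx⟩
    constructor
    · rintro ⟨⟨y, hy⟩, ⟨⟩⟩ u rfl
      exact hy.1
    · intro h
      refine ⟨⟨x, ?_⟩, rfl⟩
      rcases x with _ | _ | _ | ⟨_ | _ | _ | _, u⟩ <;> first | exact hx | exact (h u rfl).elim
  have p1 : 2 ^ n < 2 ^ 2 ^ n := Nat.lt_two_pow_self
  have p2 : 2 * 4 ^ k ≤ 2 ^ 2 ^ n := by
    rw [show 4 = 2 ^ 2 from rfl, ← pow_mul, ← pow_succ']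
    exact Nat.pow_le_pow_right two_pos hk
  have p3 : hB n = 3 * 2 ^ 2 ^ n - 1 := rfl
  refine hanf (cx M n hH) _ ι (fun x y e => Subtype.ext (congrArg (·.1) e))
    (fun _ _ => Iff.rfl) (fun x hx => (rg x).2 fun u e => hx (by rw [e]; trivial))
    (fun x y e hx => (rg y).2 fun u e' => ?_)
    (fun x => match x.1 with | .N c _ => some c | _ => none) (fun x y e hx _ => ?_) k
    (fun j hj x hx J hJ => ?_) φ hφ
  · obtain ⟨c, v, w, b1, b2, -⟩ := fr_nb e.symm (by rw [e']; trivial)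
    cases e'.symm.trans b1
    exact (rg x).1 hx _ b2
  · obtain ⟨c, v, w, b1, b2, -⟩ := fr_nb e (not_not.1 hx)
    simp only [b1, b2]
  have fresh : ∀ p : ℕ × ℕ → Lab M.Q, ∃ a, In (2 ^ n) a ∧ some (Cp.X p a) ∉ J := by
    intro p
    by_contra H
    push Not at H
    have := Finset.card_le_card_of_injOn (s := Finset.range (k + 1)) (t := J)
      (fun i => some (Cp.X p (2 ^ n, i))) (fun i hi => H _ ⟨le_rfl, by
        have := Finset.mem_range.1 hi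
        dsimp only [wd]; omega⟩) (fun i _ i' _ e => by simpa using e)
    rw [Finset.card_range] at this
    omega
  have f : fr x.1 := not_not.1 fun h => hx (Cx.Bl.le (s := 0) h (Nat.zero_le _))
  rcases x with ⟨_ | _ | _ | ⟨_ | _ | ⟨p, a0⟩ | _, u⟩, h⟩ <;> try exact f.elim
  · obtain ⟨a, ha, hJ⟩ := fresh p
    have := piece (hH := hH) h.1 rfl (a := a) ⟨h.1.1, h.1.2.1, ha⟩ id
      (fun v hv l => ⟨hv, rfl, l⟩) (fun _ _ _ _ => id) (fun _ _ _ _ _ => Iff.rfl)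
      (fun v z _ _ hz s => ⟨z, hz, rfl, s⟩)
      (fun t v => ∃ h', (cx M n hH).Bl (cx M n hH).K t ⟨.N (.X p a0) v, h'⟩)
      (fun t v hv l => ⟨⟨h.1, hv⟩, Cx.Bl.le (s := 0) (not_not.2 l) (Nat.zero_le _)⟩)
      (fun t v ⟨h', e⟩ => ⟨h', .inl e⟩)
      (fun t v v' _ hv' s ⟨h', e⟩ => ⟨⟨h.1, hv'⟩, .inr ⟨_, e, E_st _ _ s⟩⟩) h.2
      (fun ⟨_, e⟩ => hx e) h
    refine ⟨_, ?_, ?_, this⟩
    exacts [(rg _).2 (by simp), hJ]
  · have p4 : 2 * rr j + 1 ≤ 4 ^ k := (rr_lt j).trans (Nat.pow_le_pow_right (by omega) hj.le)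
    obtain ⟨J0, I⟩ := u
    have hJ0 : J0 ≤ hH := h.2.1
    have hI : I < wd J0 := h.2.2
    have key : ∃ j0 b w, (j0 = 0 → b = 0) ∧ j0 + hB n ≤ hH ∧ In (hB n) w ∧
        ¬ Nr (hB n) hH j0 (2 * rr j + 1) w ∧ ph j0 b w = (J0, I) := by
      generalize 2 * rr j + 1 = ρ at p4
      by_cases c : J0 ≤ ρ + 1
      · refine ⟨0, 0, (J0, I), fun _ => rfl, by omega, ⟨by dsimp only; omega, hI⟩, ?_, ?_⟩
        · rw [Nr]; omega
        · simp [ph, Nat.mod_eq_of_lt hI]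
      · obtain ⟨j0, d, rfl, c1, c2, c3, c4⟩ : ∃ j0 d, J0 = j0 + d ∧ ρ < d ∧ d ≤ hB n ∧
            j0 + hB n ≤ hH ∧ 0 < j0 ∧ (j0 + hB n < hH → d = ρ + 1) :=
          ⟨min (J0 - (ρ + 1)) (hH - hB n), J0 - min (J0 - (ρ + 1)) (hH - hB n), by omega⟩
        have q1 : I % 2 ^ d < 2 ^ d := Nat.mod_lt _ (by positivity)
        have q2 : 2 ^ ρ < 2 ^ d := Nat.pow_lt_pow_right one_lt_two c1
        refine ⟨j0, I / 2 ^ d + (wd j0 - 1), (d, 2 ^ d + I % 2 ^ d), by omega, c3,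
          ⟨c2, by dsimp only [wd]; omega⟩, ?_, ?_⟩
        · simp only [Nr, wd] at *; omega
        · have q3 : (I / 2 ^ d + (wd j0 - 1)) * 2 ^ d + (2 ^ d + I % 2 ^ d) = I + wd (j0 + d) := by
            have := wd_ge j0
            obtain ⟨m, hm⟩ : ∃ m, wd j0 = m + 1 := ⟨wd j0 - 1, by omega⟩
            have e : wd (j0 + d) = wd j0 * 2 ^ d := by simp only [wd]; ring
            rw [e, hm, Nat.add_sub_cancel]
            have := Nat.div_add_mod' I (2 ^ d)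
            linarith
          simp only [ph, q3, Nat.add_mod_right, Nat.mod_eq_of_lt hI]
    obtain ⟨j0, b, w, b1, b2, b3, b4, b5⟩ := key
    obtain ⟨a, ha, hJ⟩ := fresh (wl M n (hB n) hH j0 b)
    have := window (M := M) b1 b2 (a := a) ⟨fun u hu => if_neg hu,
      wl_good b1 b2 h1 h2 (by omega), ha⟩ b3 b4 (b5 ▸ h)
    simp only [b5] at this
    refine ⟨_, ?_, ?_, this⟩
    exacts [(rg _).2 (by simp), hJ]

end Pool.Agent.H30.Ld
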