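import Mathlib

/-! Terms and quasi-identities of Lie rings. -/

namespace Pool.Agent.H30.LieQ

/-- Terms in variables, zero, sum, negation and bracket. -/
inductive Term : Type
  | var (n : ℕ) : Term
  | zero : Term
  | add (s t : Term) : Term
  | neg (s : Term) : Term
  | br (s t : Term) : Term

/-- Value of a term in a Lie ring. -/
def Term.eval {L : Type} [LieRing L] (v : ℕ → L) : Term → L
  | .var n => v n
  | .zero => 0
  | .add s t => s.eval v + t.eval v
  | .neg s => -s.eval v
  | .br s t => ⁅s.eval v, t.eval v⁆

/-- Goedel number of a term. -/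
def Term.code : Term → ℕ
  | .var n => Nat.pair 0 n
  | .zero => Nat.pair 1 0
  | .add s t => Nat.pair 2 (Nat.pair s.code t.code)
  | .neg s => Nat.pair 3 s.code
  | .br s t => Nat.pair 4 (Nat.pair s.code t.code)

/-- A quasi-identity: a list of premises and a conclusion. -/
structure QI : Type where
  prem : List (Term × Term)
  concl : Term × Term

/-- The code of a quasi-identity. -/
def QI.code (q : QI) : List (ℕ × ℕ) × ℕ × ℕ :=
  (q.prem.map fun e => (e.1.code, e.2.code), q.concl.1.code, q.concl.2.code)

/-- The quasi-identity holds in the Lie ring `L`. -/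
def QI.Holds (q : QI) (L : Type) [LieRing L] : Prop :=
  ∀ v : ℕ → L, (∀ e ∈ q.prem, e.1.eval v = e.2.eval v) → q.concl.1.eval v = q.concl.2.eval v

end Pool.Agent.H30.LieQ
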