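import Pool.Agent.H30.SlA

/-! A finitely presented group for which triviality of words cannot be separated from
non-triviality in some finite quotient (Slobodskoi). -/

namespace Pool.Agent.H30.Sl

open Pool.Agent.H30.MulM Pool.Agent.H30.NB Function Relation

variable {G : Type} [Group G]

/-- conjugation -/
def cj (g z : G) : G := g * z * g⁻¹

theorem cj_mul (g h z : G) : cj (g * h) z = cj g (cj h z) := by simp [cj, mul_assoc]

theorem map_cj {H : Type} [Group H] (φ : G →* H) (g z : G) : φ (cj g z) = cj (φ g) (φ z) := by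
  simp [cj]

theorem cj_iff {k g : G} (h : Commute k g) (z : G) : Commute k (cj g z) ↔ Commute k z :=
  ⟨fun H => by simpa [cj, mul_assoc] using (h.inv_right.mul_right H).mul_right h,
    fun H => (h.mul_right H).mul_right h.inv_right⟩

theorem cj_comm {g h : G} (H : Commute g h) (z : G) : cj g (cj h z) = cj h (cj g z) := by
  rw [← cj_mul, H.eq, cj_mul]

/-- half of a transition gadget -/
def Half (k x y t : G) (M : ℕ) (α β : G) : Prop :=
  Commute k α ∧ Commute k β ∧ Commute α x ∧ Commute β x ∧ Commute β y ∧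
    cj (x ^ M) (cj β (cj α t)) = cj y (cj α t)

theorem Half.iff {k x y t α β : G} {M : ℕ} (h : Half k x y t M α β) (hxy : Commute x y)
    (u a : ℕ) : Commute k (cj (x ^ (M * u + a)) t) ↔
      Commute k (cj (y ^ u) (cj (x ^ a) (cj α t))) := by
  obtain ⟨h1, h2, h3, h4, h5, h6⟩ := h
  have key : ∀ u : ℕ, cj (β ^ u) (cj (x ^ (M * u)) (cj α t)) = cj (y ^ u) (cj α t) := by
    intro u
    induction u with
    | zero => simp [cj]
    | succ u ih =>
      rw [pow_succ' β, mul_add, mul_one, pow_add, (Commute.refl x).pow_pow _ _ |>.eq, cj_mul,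
        cj_mul, cj_comm (h4.pow_pow u M), ih, cj_comm (h4.pow_right M), cj_comm (h5.pow_right u),
        cj_comm (hxy.pow_pow M u), h6, pow_succ, cj_mul]
  rw [← cj_iff h1, cj_comm (h3.pow_right _), ← cj_iff (h2.pow_right u), add_comm, pow_add, cj_mul,
    cj_comm (h4.pow_pow u a), key, cj_comm (hxy.pow_pow a u)]

def Rel {Q : Type} (S : Set (Tr Q)) (h : Q) (k x y : G) (t : Q → G) (r : S → Fin 5 → G) : Prop :=
  Commute x y ∧ Commute k (t h) ∧ ∀ τ : S, Half k x y (t τ.1.1.1) τ.1.1.2.2 (r τ 0) (r τ 1) ∧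
    Half k x y (t τ.1.2.1) τ.1.2.2.2 (r τ 2) (r τ 3) ∧ Commute k (r τ 4) ∧ Commute (r τ 4) y ∧
    cj (r τ 4) (cj (x ^ τ.1.1.2.1) (cj (r τ 0) (t τ.1.1.1))) =
      cj (x ^ τ.1.2.2.1) (cj (r τ 2) (t τ.1.2.1))

theorem Rel.step {Q : Type} {S : Set (Tr Q)} {h : Q} {k x y : G} {t : Q → G} {r : S → Fin 5 → G}
    (H : Rel S h k x y t r) {q q' : Q} {a M b N : ℕ} (hτ : ((q, a, M), (q', b, N)) ∈ S) (u : ℕ)
    (hc : Commute k (cj (x ^ (N * u + b)) (t q'))) : Commute k (cj (x ^ (M * u + a)) (t q)) := by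
  obtain ⟨h1, h2, h3, h4, h5⟩ := H.2.2 ⟨_, hτ⟩
  rw [h2.iff H.1, ← h5, ← cj_comm (h4.pow_right u), cj_iff h3] at hc
  exact (h1.iff H.1 u a).2 hc

def okZ (k p : ℕ) (v v' : ℤ) : Prop :=
  if k = 0 then v' = p * v else if k = 1 then v = p * v' else v' = v ∧ ¬ (p : ℤ) ∣ v

def Fam {Q : Type} (E : Q → ℕ → ℕ → Q → Prop) (h : Q) : Set (Q → ℤ → Prop) :=
  {D | (∀ v, ¬ D h v) ∧ ∀ s k p s', E s k p s' → ∀ v v', okZ k p v v' → (D s v ↔ D s' v')}

def Good {Q : Type} (F : Set (Q → ℤ → Prop)) (P : ℕ) : Set (Tr Q) :=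
  {τ | τ.1.2.1 ≤ P ∧ τ.1.2.2 ≤ P ∧ τ.2.2.1 ≤ P ∧ τ.2.2.2 ≤ P ∧
    ∀ D ∈ F, ∀ u : ℤ, D τ.1.1 (τ.1.2.1 + τ.1.2.2 * u) ↔ D τ.2.1 (τ.2.2.1 + τ.2.2.2 * u)}

theorem Good.finite {Q : Type} [Finite Q] (F : Set (Q → ℤ → Prop)) (P : ℕ) :
    (Good F P).Finite := by
  have h := (Set.finite_univ (α := Q)).prod ((Set.finite_Iic P).prod (Set.finite_Iic P))
  refine (h.prod h).subset ?_
  rintro τ ⟨h1, h2, h3, h4, -⟩
  exact ⟨⟨trivial, h1, h2⟩, trivial, h3, h4⟩

theorem complete {Q : Type} {E : Q → ℕ → ℕ → Q → Prop} {h : Q} {P : ℕ}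
    (hE : ∀ s k p s', E s k p s' → 0 < p ∧ p ≤ P) {k x y : G} {t : Q → G}
    {r : Good (Fam E h) (P + 1) → Fin 5 → G} (hr : Rel _ h k x y t r) {c : Q × ℕ} {N : ℕ}
    (hc : ReflTransGen (Step E) c (h, N)) : Commute k (cj (x ^ c.2) (t c.1)) := by
  induction hc using ReflTransGen.head_induction_on with
  | refl =>
    induction N with
    | zero => simpa [cj] using hr.2.1
    | succ N ih =>
      simpa using hr.step (q := h) (q' := h) (a := 1) (M := 1) (b := 0) (N := 1)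
        ⟨by simp, by simp, by simp, by simp, fun D hD u => iff_of_false (hD.1 _) (hD.1 _)⟩ N
        (by simpa using ih)
  | @head c d hs _ ih =>
    obtain ⟨s, n⟩ := c
    obtain ⟨s', n'⟩ := d
    obtain ⟨j, p, e1, e2⟩ := hs
    dsimp only at e1 e2 ih ⊢
    obtain ⟨p1, p2⟩ := hE _ _ _ _ e1
    unfold ok at e2
    split_ifs at e2 with j0 j1
    · subst e2
      simpa using hr.step (q := s) (q' := s') (a := 0) (M := 1) (b := 0) (N := p)
        ⟨by simp, by simp, by simp, by dsimp only; omega, fun D hD u =>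
          hD.2 _ _ _ _ e1 _ _ (by simp [okZ, j0])⟩ n (by simpa using ih)
    · subst e2
      simpa using hr.step (q := s) (q' := s') (a := 0) (M := p) (b := 0) (N := 1)
        ⟨by simp, by dsimp only; omega, by simp, by simp, fun D hD u =>
          hD.2 _ _ _ _ e1 _ _ (by simp [okZ, j1])⟩ n' (by simpa using ih)
    · obtain ⟨rfl, h2⟩ := e2
      have h3 := Nat.mod_lt n' p1
      have := hr.step (q := s) (q' := s') (a := n' % p) (M := p) (b := n' % p) (N := p)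
        ⟨by dsimp only; omega, by dsimp only; omega, by dsimp only; omega, by dsimp only; omega,
          fun D hD u => hD.2 _ _ _ _ e1 _ _ (by
            simp only [okZ, j0, j1, ↓reduceIte, true_and]
            intro h
            have := (dvd_add_left (dvd_mul_right (p : ℤ) u)).1 h
            exact h2 ((Nat.dvd_mod_iff dvd_rfl).1 (Int.natCast_dvd_natCast.1 this)))⟩
        (n' / p) (by rwa [Nat.div_add_mod])
      rwa [Nat.div_add_mod] at this

theorem periodic {Q : Type} {E : Q → ℕ → ℕ → Q → Prop} {h : Q} {P b : ℕ}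
    (hE : ∀ s k p s', E s k p s' → 0 < p ∧ p ≤ P) {C : Set (Q × ℕ)}
    (h1 : ∀ c ∈ C, 0 < c.2 ∧ c.2 ≤ b ∧ c.1 ≠ h) (h2 : ∀ c d, Step E c d → (c ∈ C ↔ d ∈ C)) :
    ∃ D ∈ Fam E h, ∃ L : ℕ, 0 < L ∧ (∀ q v z, D q (v + L * z) ↔ D q v) ∧
      ∀ c ∈ C, D c.1 c.2 := by
  refine ⟨fun q v => ∃ (c : ℕ) (z : ℤ), (q, c) ∈ C ∧ v = c * (1 + P.factorial * z),
    ⟨?_, ?_⟩, P.factorial * b.factorial, by positivity, ?_, fun c hc => ⟨c.2, 0, hc, by simp⟩⟩
  · rintro v ⟨c, z, hc, -⟩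
    exact (h1 _ hc).2.2 rfl
  · intro s k p s' e v v' hv
    obtain ⟨p1, p2⟩ := hE _ _ _ _ e
    have p0 : (p : ℤ) ≠ 0 := by omega
    have cop : ∀ (c : ℕ) (z : ℤ), (p : ℤ) ∣ c * (1 + P.factorial * z) → p ∣ c := by
      intro c z hd
      obtain ⟨m, hm⟩ := Nat.dvd_factorial p1 p2
      have : IsCoprime (p : ℤ) (1 + P.factorial * z) := ⟨-(m * z), 1, by rw [hm]; push_cast; ring⟩
      exact Int.natCast_dvd_natCast.1 (this.dvd_of_dvd_mul_right hd)
    unfold okZ at hv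
    split_ifs at hv with j0 j1
    · subst hv
      constructor
      · rintro ⟨c, z, hc, rfl⟩
        exact ⟨p * c, z, (h2 (s, c) (s', p * c) ⟨k, p, e, by simp [ok, j0]⟩).1 hc,
          by push_cast; ring⟩
      · rintro ⟨c, z, hc, hv⟩
        obtain ⟨c, rfl⟩ := cop c z ⟨v, hv.symm⟩
        exact ⟨c, z, (h2 (s, c) (s', p * c) ⟨k, p, e, by simp [ok, j0]⟩).2 hc,
          mul_left_cancel₀ p0 (by rw [hv]; push_cast; ring)⟩
    · subst hv
      constructor
      · rintro ⟨c, z, hc, hv⟩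
        obtain ⟨c, rfl⟩ := cop c z ⟨v', hv.symm⟩
        exact ⟨c, z, (h2 (s, p * c) (s', c) ⟨k, p, e, by simp [ok, j1]⟩).1 hc,
          mul_left_cancel₀ p0 (by rw [hv]; push_cast; ring)⟩
      · rintro ⟨c, z, hc, rfl⟩
        exact ⟨p * c, z, (h2 (s, p * c) (s', c) ⟨k, p, e, by simp [ok, j1]⟩).2 hc,
          by push_cast; ring⟩
    · obtain ⟨rfl, hv⟩ := hv
      refine exists_congr fun c => exists_congr fun z => and_congr_left fun hc =>
        h2 (s, c) (s', c) ⟨k, p, e, ?_⟩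
      simp only [ok, j0, j1, ↓reduceIte, true_and]
      exact fun hd => hv (hc ▸ (Int.natCast_dvd_natCast.2 hd).mul_right _)
  · have key : ∀ q (v z : ℤ), (∃ (c : ℕ) (z : ℤ), (q, c) ∈ C ∧ v = c * (1 + P.factorial * z)) →
        ∃ (c : ℕ) (z' : ℤ), (q, c) ∈ C ∧ v + (P.factorial * b.factorial : ℕ) * z =
          c * (1 + P.factorial * z') := by
      rintro q v z ⟨c, w, hc, rfl⟩
      obtain ⟨m, hm⟩ := Nat.dvd_factorial (h1 _ hc).1 (h1 _ hc).2.1
      exact ⟨c, w + m * z, hc, by rw [hm]; push_cast; ring⟩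
    intro q v z
    exact ⟨fun H => by simpa using key q _ (-z) H, key q v z⟩

theorem points (X : Type) [Finite X] (D : X → Prop) : ∃ (G : Type) (_ : Group G) (_ : Finite G)
    (ρ : Equiv.Perm X →* G) (t : X → G) (k : G), (∀ π ξ, cj (ρ π) (t ξ) = t (π ξ)) ∧
    (∀ π : Equiv.Perm X, (∀ ξ, D (π ξ) ↔ D ξ) → Commute k (ρ π)) ∧
    ∀ ξ, Commute k (t ξ) ↔ ¬ D ξ := by
  classical
  let ρ : Equiv.Perm X →* Equiv.Perm (X × Fin 3) :=
    { toFun := fun π => π.prodCongr (Equiv.refl _)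
      map_one' := by ext <;> simp
      map_mul' := fun a b => by ext <;> simp }
  have hρ : ∀ π p, ρ π p = (π p.1, p.2) := fun _ _ => rfl
  refine ⟨_, inferInstance, inferInstance, ρ,
    fun ξ => Equiv.prodCongrRight fun η => if η = ξ then Equiv.swap 0 1 else 1,
    Equiv.prodCongrRight fun η => if D η then Equiv.swap 1 2 else 1, fun π ξ => ?_,
    fun π hπ => ?_, fun ξ => ⟨fun h hD => ?_, fun h => ?_⟩⟩
  · rw [cj, mul_inv_eq_iff_eq_mul]
    ext ⟨a, b⟩ <;> simp [hρ]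
  · show _ * _ = _ * _
    ext ⟨a, b⟩ <;> simp [hρ, hπ]
  · have := congrArg (fun π : Equiv.Perm (X × Fin 3) => (π (ξ, 0)).2) h.eq
    simp only [Equiv.Perm.mul_apply, Equiv.prodCongrRight_apply, hD, ↓reduceIte] at this
    exact absurd this (by decide)
  · show _ * _ = _ * _
    ext ⟨a, b⟩
    · simp
    · by_cases e : a = ξ
      · simp [e, h]
      · simp [e]

end Pool.Agent.H30.Sl
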