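import Pool.Agent.H30.LieDefs
import Pool.Agent.H30.SlB

/-! The quasi-identities of finite Lie rings are undecidable. -/

namespace Pool.Agent.H30.LieQ

open Pool.Agent.H30.MulM Pool.Agent.H30.NB Pool.Agent.H30.Sl Function Relation

theorem complete' {Q : Type} {E : Q → ℕ → ℕ → Q → Prop} {h : Q} {P : ℕ}
    (hE : ∀ s k p s', E s k p s' → 0 < p ∧ p ≤ P) {Z : Q → ℕ → Prop} (h0 : ∀ N, Z h N)
    (hr : ∀ {q q' : Q} {a M b N : ℕ}, ((q, a, M), (q', b, N)) ∈ Sl.Good (Fam E h) (P + 1) →
      ∀ u, Z q' (N * u + b) → Z q (M * u + a)) {c : Q × ℕ} {N : ℕ}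
    (hc : ReflTransGen (Step E) c (h, N)) : Z c.1 c.2 := by
  induction hc using ReflTransGen.head_induction_on with
  | refl => exact h0 N
  | @head c d hs _ ih =>
    obtain ⟨s, n⟩ := c
    obtain ⟨s', n'⟩ := d
    obtain ⟨j, p, e1, e2⟩ := hs
    dsimp only at e1 e2 ih ⊢
    obtain ⟨p1, p2⟩ := hE _ _ _ _ e1
    unfold ok at e2
    split_ifs at e2 with j0 j1
    · subst e2
      simpa using hr (q := s) (q' := s') (a := 0) (M := 1) (b := 0) (N := p)
        ⟨by simp, by simp, by simp, by dsimp only; omega, fun D hD u =>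
          hD.2 _ _ _ _ e1 _ _ (by simp [okZ, j0])⟩ n (by simpa using ih)
    · subst e2
      simpa using hr (q := s) (q' := s') (a := 0) (M := p) (b := 0) (N := 1)
        ⟨by simp, by dsimp only; omega, by simp, by simp, fun D hD u =>
          hD.2 _ _ _ _ e1 _ _ (by simp [okZ, j1])⟩ n' (by simpa using ih)
    · obtain ⟨rfl, h2⟩ := e2
      have h3 := Nat.mod_lt n' p1
      have := hr (q := s) (q' := s') (a := n' % p) (M := p) (b := n' % p) (N := p)
        ⟨by dsimp only; omega, by dsimp only; omega, by dsimp only; omega, by dsimp only; omega,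
          fun D hD u => hD.2 _ _ _ _ e1 _ _ (by
            simp only [okZ, j0, j1, ↓reduceIte, true_and]
            intro h
            have := (dvd_add_left (dvd_mul_right (p : ℤ) u)).1 h
            exact h2 ((Nat.dvd_mod_iff dvd_rfl).1 (Int.natCast_dvd_natCast.1 this)))⟩
        (n' / p) (by rwa [Nat.div_add_mod])
      rwa [Nat.div_add_mod] at this

variable {L : Type} [LieRing L]

/-- adjoint map -/
def ad (x z : L) : L := ⁅x, z⁆

theorem ad_comm {x y : L} (h : ⁅x, y⁆ = 0) : Function.Commute (ad x) (ad y) := fun z => by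
  simp only [ad]
  rw [leibniz_lie, h, zero_lie, zero_add]

/-- side of a transition -/
def sd {Q : Type} (τ : Tr Q) (i : Bool) : Q × ℕ × ℕ := bif i then τ.2 else τ.1

def Rel {Q : Type} (S : Set (Tr Q)) (h : Q) (a A b B : L) (t : Q → L) (p : S × Bool → L) : Prop :=
  (⁅a, b⁆ = 0 ∧ ⁅a, B⁆ = 0 ∧ ⁅A, b⁆ = 0 ∧ ⁅A, B⁆ = 0 ∧ t h = 0) ∧
  (∀ σ : S × Bool, ad B (t (sd σ.1.1 σ.2).1) = ad B (p σ)) ∧
  (∀ σ : S × Bool, (ad a)^[(sd σ.1.1 σ.2).2.2] (p σ) = ad b (p σ)) ∧
  ∀ τ : S, ad A ((ad a)^[τ.1.1.2.1] (p (τ, false))) = ad A ((ad a)^[τ.1.2.2.1] (p (τ, true)))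

def cfg (a A B t : L) (n : ℕ) : L := ad A ((ad a)^[n] (ad B t))

theorem Rel.half {Q : Type} {S : Set (Tr Q)} {h : Q} {a A b B : L} {t : Q → L} {p : S × Bool → L}
    (H : Rel S h a A b B t p) (σ : S × Bool) (u i : ℕ) :
    cfg a A B (t (sd σ.1.1 σ.2).1) ((sd σ.1.1 σ.2).2.2 * u + i) =
      ad B ((ad b)^[u] (ad A ((ad a)^[i] (p σ)))) := by
  obtain ⟨⟨h1, h2, h3, h4, -⟩, h5, h6, -⟩ := H
  have key : ∀ u, (ad a)^[(sd σ.1.1 σ.2).2.2 * u] (p σ) = (ad b)^[u] (p σ) := by
    intro u
    induction u with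
    | zero => rfl
    | succ u ih =>
      rw [mul_add, mul_one, iterate_add_apply, h6, (ad_comm h1).iterate_left, ih,
        iterate_succ_apply']
  rw [cfg, h5, (ad_comm h2).iterate_left, ad_comm h4, add_comm, iterate_add_apply, key,
    (ad_comm h1).iterate_iterate, (ad_comm h3).iterate_right]

section
variable {K : Type}

noncomputable instance lieEnd : LieRing (Module.End (ZMod 2) (Option K → ZMod 2)) :=
  LieRing.ofAssociativeRing

def op (g : K → Option K) : Module.End (ZMod 2) (Option K → ZMod 2) where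
  toFun f j := (j.bind g).elim 0 fun k => f (some k)
  map_add' f f' := by funext j; rcases e : j.bind g <;> simp [e]
  map_smul' c f := by funext j; rcases e : j.bind g <;> simp [e]

def vec (φ : K → ZMod 2) : Module.End (ZMod 2) (Option K → ZMod 2) where
  toFun f j := j.elim 0 φ * f none
  map_add' f f' := by funext j; simp [mul_add]
  map_smul' c f := by funext j; simp [mul_left_comm]

def act (g : K → Option K) (φ : K → ZMod 2) (k : K) : ZMod 2 := (g k).elim 0 φ

theorem op_apply (g : K → Option K) (f j) : op g f j = (j.bind g).elim 0 fun k => f (some k) := rfl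
theorem vec_apply (φ : K → ZMod 2) (f j) : vec φ f j = j.elim 0 φ * f none := rfl

theorem ad_vec (g : K → Option K) (φ : K → ZMod 2) : ad (op g) (vec φ) = vec (act g φ) := by
  refine LinearMap.ext fun f => funext fun j => ?_
  simp only [ad, Ring.lie_def, LinearMap.sub_apply, Module.End.mul_apply, Pi.sub_apply, op_apply,
    vec_apply]
  rcases j with _ | k
  · simp
  · rcases e : g k <;> simp [act, e]

theorem ad_iter (g : K → Option K) (φ : K → ZMod 2) (n : ℕ) :
    (ad (op g))^[n] (vec φ) = vec ((act g)^[n] φ) := by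
  induction n with
  | zero => rfl
  | succ n ih => rw [iterate_succ_apply', iterate_succ_apply', ih, ad_vec]

theorem op_comm {g g' : K → Option K} (h : ∀ k, (g k).bind g' = (g' k).bind g) :
    ⁅op g, op g'⁆ = 0 := by
  have key : ∀ (g g' : K → Option K) f j, op g (op g' f) j =
      ((j.bind g).bind g').elim 0 fun k => f (some k) := fun g g' f j => by
    rw [op_apply]
    rcases j.bind g <;> simp [op_apply]
  refine LinearMap.ext fun f => funext fun j => ?_
  simp only [Ring.lie_def, LinearMap.sub_apply, Module.End.mul_apply, Pi.sub_apply, key]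
  rcases j with _ | k
  · simp
  · simp [h k]

end

section
variable {Z : Type} [CommRing Z]

def ga (k : Option Z × Option Z) : Option (Option Z × Option Z) :=
  k.1.map fun v => (some (v + 1), k.2)
def gA (k : Option Z × Option Z) : Option (Option Z × Option Z) :=
  k.1.elim (some (some 0, k.2)) fun _ => none
def gb (k : Option Z × Option Z) : Option (Option Z × Option Z) :=
  k.2.map fun v => (k.1, some (v + 1))
def gB (k : Option Z × Option Z) : Option (Option Z × Option Z) :=
  k.2.elim (some (k.1, some 0)) fun _ => none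

theorem ga_some (φ : Option Z × Option Z → ZMod 2) (n : ℕ) (v : Z) (y : Option Z) :
    (act ga)^[n] φ (some v, y) = φ (some (v + n), y) := by
  induction n generalizing v with
  | zero => simp
  | succ n ih => rw [iterate_succ_apply']; simp [act, ga, ih, add_assoc, add_comm (1 : Z)]

theorem ga_none (φ : Option Z × Option Z → ZMod 2) (n : ℕ) (y : Option Z) (h : φ (none, y) = 0) :
    (act ga)^[n] φ (none, y) = 0 := by
  cases n with
  | zero => exact h
  | succ n => rw [iterate_succ_apply']; rfl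

end

theorem model {Q : Type} {F : Set (Q → ℤ → Prop)} (P : ℕ) (h : Q) {D : Q → ℤ → Prop}
    (hD : D ∈ F) (h0 : ∀ v, ¬ D h v) {m : ℕ} (hL : 0 < m)
    (hp : ∀ q v z, D q (v + m * z) ↔ D q v) :
    ∃ (L : Type) (_ : LieRing L) (_ : Finite L) (a A b B : L) (t : Q → L)
      (p : Sl.Good F P × Bool → L), Rel (Sl.Good F P) h a A b B t p ∧
      ∀ q (n : ℕ), D q n → cfg a A B (t q) n ≠ 0 := by
  classical
  have : NeZero m := ⟨hL.ne'⟩
  let D' : Q → ZMod m → Prop := fun q v => D q v.val
  have hD' : ∀ q (z : ℤ), D' q z ↔ D q z := fun q z => by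
    simp only [D', ZMod.val_intCast]
    rw [← hp q _ (z / m), Int.emod_add_mul_ediv]
  let φ : Q → ℕ → Option (ZMod m) × Option (ZMod m) → ZMod 2 := fun q M k =>
    k.1.elim 0 fun x => k.2.elim 0 fun y => if D' q (x + M * y) then 1 else 0
  refine ⟨Module.End (ZMod 2) (Option (Option (ZMod m) × Option (ZMod m)) → ZMod 2),
    inferInstance, Finite.of_injective _ DFunLike.coe_injective, op ga, op gA, op gb, op gB,
    fun q => vec (φ q 0), fun σ => vec (φ (sd σ.1.1 σ.2).1 (sd σ.1.1 σ.2).2.2),
    ⟨⟨op_comm ?_, op_comm ?_, op_comm ?_, op_comm ?_, ?_⟩, fun σ => ?_, fun σ => ?_, fun τ => ?_⟩,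
    fun q n hn H => ?_⟩
  · rintro ⟨_ | x, _ | y⟩ <;> rfl
  · rintro ⟨_ | x, _ | y⟩ <;> rfl
  · rintro ⟨_ | x, _ | y⟩ <;> rfl
  · rintro ⟨_ | x, _ | y⟩ <;> rfl
  · refine LinearMap.ext fun f => funext ?_
    rintro (_ | ⟨_ | x, _ | y⟩) <;> simp [vec_apply, φ, D', h0]
  · rw [ad_vec, ad_vec]
    congr 1
    funext ⟨x, y⟩
    rcases x with _ | x <;> rcases y with _ | y <;> simp [act, gB, φ]
  · rw [ad_iter, ad_vec]
    congr 1
    funext ⟨x, y⟩
    rcases x with _ | x
    · rw [ga_none _ _ _ rfl]
      rcases y with _ | y <;> simp [act, gb, φ]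
    · rw [ga_some]
      rcases y with _ | y <;> simp [act, gb, φ, mul_add, add_assoc, add_comm]
  · rw [ad_iter, ad_iter, ad_vec, ad_vec]
    congr 1
    funext ⟨x, y⟩
    rcases x with _ | x
    · rcases y with _ | y
      · simp [act, gA, ga_some, φ]
      · obtain ⟨y, rfl⟩ := ZMod.intCast_surjective y
        have := τ.2.2.2.2.2 D hD y
        rw [← hD', ← hD'] at this
        push_cast at this
        simp [act, gA, ga_some, φ, sd, this]
    · simp [act, gA]
  · rw [cfg, ad_vec, ad_iter, ad_vec] at H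
    have := congrFun (LinearMap.congr_fun H fun _ => 1) (some (none, none))
    have e := (hD' q n).2 hn
    push_cast at e
    simp [vec_apply, act, gA, ga_some, gB, φ, e] at this

/-- iterated bracket -/
def Term.it (x : Term) (n : ℕ) (t : Term) : Term := (Term.br x)^[n] t

theorem eval_it (v : ℕ → L) (x : Term) (n : ℕ) (t : Term) :
    (x.it n t).eval v = (ad (x.eval v))^[n] (t.eval v) := by
  induction n with
  | zero => rfl
  | succ n ih => rw [Term.it, iterate_succ_apply', iterate_succ_apply', ← ih]; rfl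

theorem code_it (x : Term) (n : ℕ) (t : Term) :
    (x.it n t).code = (fun z => Nat.pair 4 (Nat.pair x.code z))^[n] t.code := by
  induction n with
  | zero => rfl
  | succ n ih => rw [Term.it, iterate_succ_apply', iterate_succ_apply', ← ih]; rfl

theorem undec : ¬ ∃ f : List (ℕ × ℕ) × ℕ × ℕ → Bool, Computable f ∧ ∀ q : QI,
    (f q.code = true ↔ ∀ (L : Type) [LieRing L] [Finite L], q.Holds L) := by
  classical
  rintro ⟨f, hf, H⟩
  obtain ⟨Q, _, h, q0, E, P, A, B, h1, h2, h3, h4⟩ := machine
  set S := Sl.Good (Fam E h) (P + 1) with hS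
  have : Finite S := Sl.Good.finite _ _
  have := Fintype.ofFinite S
  obtain ⟨e, he⟩ := Countable.exists_injective_nat (Fin 4 ⊕ Q ⊕ S × Bool)
  let x : Fin 4 → Term := fun i => .var (e (.inl i))
  let t : Q → Term := fun q => .var (e (.inr (.inl q)))
  let p : S × Bool → Term := fun σ => .var (e (.inr (.inr σ)))
  let R : List (Term × Term) := [((x 0).br (x 2), .zero), ((x 0).br (x 3), .zero),
    ((x 1).br (x 2), .zero), ((x 1).br (x 3), .zero), (t h, .zero)] ++
    (Finset.univ.toList.map (fun σ : S × Bool => ((x 3).br (t (sd σ.1.1 σ.2).1), (x 3).br (p σ))) ++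
    (Finset.univ.toList.map (fun σ : S × Bool =>
      ((x 0).it (sd σ.1.1 σ.2).2.2 (p σ), (x 2).br (p σ))) ++
    Finset.univ.toList.map fun τ : S => ((x 1).br ((x 0).it τ.1.1.2.1 (p (τ, false))),
      (x 1).br ((x 0).it τ.1.2.2.1 (p (τ, true))))))
  have hR : ∀ (L : Type) [LieRing L] (v : ℕ → L), (∀ z ∈ R, z.1.eval v = z.2.eval v) ↔
      Rel S h (v (e (.inl 0))) (v (e (.inl 1))) (v (e (.inl 2))) (v (e (.inl 3)))
        (fun q => v (e (.inr (.inl q)))) (fun σ => v (e (.inr (.inr σ)))) := by
    intro L _ v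
    simp only [R, List.forall_mem_append, List.forall_mem_cons, List.forall_mem_map,
      Finset.mem_toList, Finset.mem_univ, true_imp_iff, List.not_mem_nil, false_imp_iff,
      implies_true, and_true, Term.eval, eval_it, x, t, p, Rel, ad]
  let qi : ℕ → QI := fun n => ⟨R, (x 1).br ((x 0).it (2 ^ n) ((x 3).br (t q0))), .zero⟩
  have hc : Primrec fun n => (qi n).code := by
    have h : Primrec fun n : ℕ => 2 ^ n :=
      (Primrec.nat_iterate Primrec.id (Primrec.const 1)
        (Primrec.nat_double.comp Primrec.snd).to₂).of_eq fun n => by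
          induction n with
          | zero => rfl
          | succ n ih => simp only [id] at ih ⊢; rw [iterate_succ_apply', ih, pow_succ']
    have np := Primrec₂.natPair
    have h' : Primrec fun n : ℕ => ((x 0).it (2 ^ n) ((x 3).br (t q0))).code :=
      (Primrec.nat_iterate h (Primrec.const _) (np.comp (Primrec.const 4)
        (np.comp (Primrec.const (x 0).code) Primrec.snd)).to₂).of_eq fun n => (code_it _ _ _).symm
    exact (Primrec.const _).pair ((np.comp (Primrec.const 4)
      (np.comp (Primrec.const (x 1).code) h')).pair (Primrec.const _))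
  refine h1 (fun n => f (qi n).code = true)
    ⟨inferInstance, by simpa using hf.comp hc.to_comp⟩ (fun n hn => ?_) fun n hn => ?_
  · refine (H _).2 fun L _ _ v hv => ?_
    obtain ⟨N, hN⟩ := h3 n hn
    have r := (hR L v).1 hv
    have := complete' h2 (Z := fun q n => cfg (v (e (.inl 0))) (v (e (.inl 1))) (v (e (.inl 3)))
      (v (e (.inr (.inl q)))) n = 0) (fun N => by
        have e1 : v (e (.inr (.inl h))) = 0 := r.1.2.2.2.2
        have e2 : ∀ y : L, ad y 0 = 0 := fun y => lie_zero y
        rw [cfg, e1, e2, iterate_fixed (e2 _), e2])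
      (fun {q q' a M b N} hτ u hu => by
        have a1 := r.half (⟨_, hτ⟩, false) u a
        have a2 := r.half (⟨_, hτ⟩, true) u b
        have a3 := r.2.2.2 ⟨_, hτ⟩
        exact a1.trans ((congrArg _ (congrArg _ a3)).trans (a2.symm.trans hu))) hN
    simpa only [qi, Term.eval, eval_it, cfg, ad, x, t] using this
  · rw [H]
    intro hq
    obtain ⟨C, b, c1, c2, c3⟩ := h4 n hn
    obtain ⟨D, d1, m, d2, d3, d4⟩ := periodic h2 c1 c3
    obtain ⟨L, _, _, a', A', b', B', t', p', a1, a2⟩ := model (P + 1) h d1 d1.1 d2 d3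
    have := hq L (extend e (Sum.elim ![a', A', b', B'] (Sum.elim t' p')) 0)
      ((hR L _).2 (by simpa [he.extend_apply] using a1))
    refine a2 q0 (2 ^ n) (d4 _ c2) ?_
    simpa [qi, Term.eval, eval_it, cfg, ad, x, t, he.extend_apply] using this

end Pool.Agent.H30.LieQ
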