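import Pool.Agent.H30.MGDefs

set_option autoImplicit false

namespace Pool.Agent.H30.MG

theorem iso_equiv : Equivalence Iso where
  refl G := ⟨Equiv.refl _, fun _ _ => rfl⟩
  symm := by
    rintro G H ⟨e, h⟩
    exact ⟨e.symm, fun i j => by rw [← h]; simp⟩
  trans := by
    rintro G H K ⟨e, h⟩ ⟨f, g⟩
    exact ⟨e.trans f, fun i j => by simp [g, h]⟩

theorem mk_eq {G H : MGraph} : Quot.mk Iso G = Quot.mk Iso H ↔ Iso G H := by
  rw [Quot.eq, iso_equiv.eqvGen_iff]

def par : Fin 11 → Fin 11 := ![4, 0, 0, 0, 5, 5, 5, 6, 7, 8, 8]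

def gm (i j : Fin 11) : ℕ := if i = j then i.val + 1 else if par i = j ∨ par j = i then 1 else 0

def GG : MGraph := ⟨11, gm, by decide⟩

def HH : MGraph := ⟨1, fun _ _ => 6, fun _ _ => rfl⟩

def dep : Fin 11 → ℕ := ![2, 3, 3, 3, 1, 0, 1, 2, 3, 4, 4]

/-- `x` lies in the subtree below `v` -/
def below (v x : Fin 11) : Prop := x = v ∨ par x = v ∨ par (par x) = v ∨ par (par (par x)) = v

instance (v x : Fin 11) : Decidable (below v x) := by unfold below; infer_instance

def fam (k : ℕ) : Finset (Finset (Fin 11)) :=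
  Finset.univ.filter (fun S => 5 ∈ S ∧ (∀ v ∈ S, par v ∈ S) ∧ S.card = 1 + k)

def ind (S : Finset (Fin 11)) : MGraph :=
  ⟨S.card, fun i j => gm (S.orderEmbOfFin rfl i) (S.orderEmbOfFin rfl j), fun _ _ => GG.symm _ _⟩

theorem gm_diag (i j : Fin 11) (h : gm i i = gm j j) : i = j := by
  simp only [gm, if_true] at h; exact Fin.ext (by omega)

theorem conn_of {K : MGraph} (f : Fin K.n ↪ Fin 11) (hf : ∀ i j, gm (f i) (f j) = K.m i j)
    (h5 : ∃ i, f i = 5) (hp : ∀ i, ∃ j, f j = par (f i)) : Conn K := by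
  obtain ⟨r, hr⟩ := h5
  have key : ∀ d : ℕ, ∀ i, dep (f i) = d →
      (SimpleGraph.fromRel (fun i j : Fin K.n => 0 < K.m i j)).Reachable i r := by
    intro d
    induction d with
    | zero =>
      intro i hi
      have : f i = 5 := by revert hi; generalize f i = x; revert x; decide
      rw [f.injective (this.trans hr.symm)]
    | succ d ih =>
      intro i hi
      obtain ⟨j, hj⟩ := hp i
      have h1 : ∀ x : Fin 11, dep x ≠ 0 → dep (par x) + 1 = dep x ∧ x ≠ par x ∧
          0 < gm x (par x) := by decide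
      obtain ⟨a1, a2, a3⟩ := h1 (f i) (by omega)
      refine SimpleGraph.Reachable.trans (SimpleGraph.Adj.reachable ?_) (ih j (by rw [hj]; omega))
      rw [SimpleGraph.fromRel_adj]
      refine ⟨?_, Or.inl ?_⟩
      · rintro rfl; exact a2 hj
      · rw [← hf, hj]; exact a3
  have : Nonempty (Fin K.n) := ⟨r⟩
  exact ⟨fun i j => (key _ i rfl).trans (key _ j rfl).symm⟩

theorem par_of {K : MGraph} (f : Fin K.n ↪ Fin 11) (hf : ∀ i j, gm (f i) (f j) = K.m i j)
    (h5 : ∃ i, f i = 5) (hc : Conn K) (i : Fin K.n) : ∃ j, f j = par (f i) := by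
  obtain ⟨r, hr⟩ := h5
  by_cases h : f i = 5
  · exact ⟨r, by rw [hr, h]; rfl⟩
  by_contra hn
  push Not at hn
  have step : ∀ v x y : Fin 11, v ≠ 5 → below v x → x ≠ y → (0 < gm x y ∨ 0 < gm y x) →
      y ≠ par v → below v y := by decide
  have key : ∀ a b : Fin K.n, (SimpleGraph.fromRel (fun i j : Fin K.n => 0 < K.m i j)).Walk a b →
      below (f i) (f a) → below (f i) (f b) := by
    intro a b w
    induction w with
    | nil => exact id
    | cons hadj w ih =>
      intro ha
      rw [SimpleGraph.fromRel_adj, ← hf, ← hf] at hadj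
      exact ih (step _ _ _ h ha (f.injective.ne hadj.1) hadj.2 (hn _))
  obtain ⟨w⟩ := hc.preconnected i r
  have := key _ _ w (Or.inl rfl)
  rw [hr] at this
  revert h this
  generalize f i = x; revert x; decide

theorem rank_eq (k : ℕ) : rankConn HH GG k = (fam k).card := by
  have : {q : Quot Iso | ∃ K : MGraph, Quot.mk Iso K = q ∧ Conn K ∧ Sub HH K ∧ Sub K GG ∧
      K.n = HH.n + k} = (fun S => Quot.mk Iso (ind S)) '' (fam k : Set (Finset (Fin 11))) := by
    ext q
    constructor
    · rintro ⟨K, rfl, hc, ⟨g, hg⟩, ⟨f, hf⟩, hn⟩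
      have h5 : ∃ i, f i = (5 : Fin 11) := by
        refine ⟨g (0 : Fin 1), gm_diag _ _ ?_⟩
        have := hf (g (0 : Fin 1)) (g (0 : Fin 1))
        rw [hg] at this
        exact this
      set S : Finset (Fin 11) := Finset.univ.map f with hS
      have mem : ∀ v, v ∈ S ↔ ∃ i, f i = v := by intro v; simp [hS]; rfl
      refine ⟨S, ?_, ?_⟩
      · simp only [fam, Finset.coe_filter, Finset.mem_univ, true_and, Set.mem_ofPred_eq]
        refine ⟨(mem _).2 h5, ?_, ?_⟩
        · intro v hv
          obtain ⟨i, rfl⟩ := (mem _).1 hv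
          exact (mem _).2 (par_of f hf h5 hc i)
        · rw [hS, Finset.card_map, Finset.card_univ, Fintype.card_fin]; exact hn
      · apply mk_eq.2
        have hx : ∀ i : Fin S.card, ∃ j, f j = S.orderEmbOfFin rfl i :=
          fun i => (mem _).1 (Finset.orderEmbOfFin_mem _ _ _)
        choose e he using hx
        have hinj : Function.Injective e := by
          intro a b hab
          apply (S.orderEmbOfFin rfl).injective
          rw [← he, ← he, hab]
        have hbij : Function.Bijective e := by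
          rw [Fintype.bijective_iff_injective_and_card]
          refine ⟨hinj, ?_⟩
          simp [hS]
        refine ⟨Equiv.ofBijective e hbij, fun i j => ?_⟩
        change K.m (e i) (e j) = gm _ _
        rw [← he, ← he]; exact (hf _ _).symm
    · rintro ⟨S, hS, rfl⟩
      simp only [fam, Finset.coe_filter, Finset.mem_univ, true_and, Set.mem_ofPred_eq] at hS
      obtain ⟨h1, h2, h3⟩ := hS
      have mem : ∀ v ∈ S, ∃ i, S.orderEmbOfFin rfl i = v := by
        intro v hv
        have := Finset.range_orderEmbOfFin S rfl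
        exact (Set.ext_iff.1 this v).2 hv
      refine ⟨ind S, rfl, ?_, ?_, ⟨(S.orderEmbOfFin rfl).toEmbedding, fun _ _ => rfl⟩, h3⟩
      · exact conn_of (K := ind S) (S.orderEmbOfFin rfl).toEmbedding (fun _ _ => rfl) (mem _ h1)
          (fun i => mem _ (h2 _ (Finset.orderEmbOfFin_mem _ _ _)))
      · obtain ⟨r, hr⟩ := mem _ h1
        refine ⟨⟨fun _ => r, fun a b _ => Subsingleton.elim (α := Fin 1) a b⟩, fun _ _ => ?_⟩
        change gm _ _ = 6
        simp only [Function.Embedding.coeFn_mk, hr]; rfl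
  unfold rankConn
  rw [this, Set.InjOn.ncard_image, Set.ncard_coe_finset]
  have sub : ∀ S T : Finset (Fin 11), Iso (ind S) (ind T) → S ⊆ T := by
    rintro S T ⟨e, he⟩ v hv
    obtain ⟨i, rfl⟩ := (Set.ext_iff.1 (Finset.range_orderEmbOfFin S rfl) v).2 hv
    rw [← gm_diag _ _ (he i i)]
    exact Finset.orderEmbOfFin_mem _ _ _
  intro S _ T _ h
  have h' := mk_eq.1 h
  exact Finset.Subset.antisymm (sub _ _ h') (sub _ _ (iso_equiv.symm h'))

theorem fam_cards : (fam 5).card = 11 ∧ (fam 6).card = 10 ∧ (fam 7).card = 11 := by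
  decide +kernel

theorem conn_GG : Conn GG :=
  conn_of (K := GG) (Function.Embedding.refl _) (fun _ _ => rfl) ⟨(5 : Fin 11), rfl⟩
    (fun i => ⟨par i, rfl⟩)

theorem conn_HH : Conn HH := by
  have : Nonempty (Fin HH.n) := ⟨(0 : Fin 1)⟩
  exact ⟨fun i j => by rw [Subsingleton.elim (α := Fin 1) i j]⟩

theorem sub_HG : Sub HH GG :=
  ⟨⟨fun _ => (5 : Fin 11), fun a b _ => Subsingleton.elim (α := Fin 1) a b⟩, fun _ _ => rfl⟩

end Pool.Agent.H30.MG
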