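import Mathlib

set_option autoImplicit false

namespace Pool.Agent.H30.MG

/-- A finite graph with loops and multiple edges: `m i j` is the number of edges joining `i` and
`j` (the number of loops at `i` when `i = j`). -/
structure MGraph where
  n : ℕ
  m : Fin n → Fin n → ℕ
  symm : ∀ i j, m i j = m j i

/-- Isomorphism of graphs. -/
def Iso (G H : MGraph) : Prop := ∃ e : Fin G.n ≃ Fin H.n, ∀ i j, H.m (e i) (e j) = G.m i j

/-- `H` is isomorphic to an induced subgraph of `G`. -/
def Sub (H G : MGraph) : Prop := ∃ f : Fin H.n ↪ Fin G.n, ∀ i j, G.m (f i) (f j) = H.m i j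

/-- `G` is connected: the underlying simple graph is connected. -/
def Conn (G : MGraph) : Prop := (SimpleGraph.fromRel (fun i j : Fin G.n => 0 < G.m i j)).Connected

/-- `r_k` of the interval `[H,G]^c`: the number of isomorphism classes of connected graphs `K` with
`H ≤ K ≤ G` and `|K| = |H| + k`. -/
noncomputable def rankConn (H G : MGraph) (k : ℕ) : ℕ :=
  Set.ncard {q : Quot Iso | ∃ K : MGraph, Quot.mk Iso K = q ∧ Conn K ∧ Sub H K ∧ Sub K G ∧
    K.n = H.n + k}

end Pool.Agent.H30.MG
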