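import Mathlib

set_option autoImplicit false
open Classical

namespace Pool.Agent.H30.MobA

abbrev PP := Σ n : ℕ, Equiv.Perm (Fin n)

def Emb (x y : PP) (e : Fin x.1 → Fin y.1) : Prop :=
  StrictMono e ∧ ∀ i j, x.2 i < x.2 j ↔ y.2 (e i) < y.2 (e j)

def Le (x y : PP) : Prop := ∃ e : Fin x.1 → Fin y.1, Emb x y e

theorem strictMono_fin_id {n : ℕ} (e : Fin n → Fin n) (h : StrictMono e) (i : Fin n) : e i = i := by
  have h1 : (OrderEmbedding.ofStrictMono e h) = OrderEmbedding.ofStrictMono id strictMono_id := by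
    apply DFunLike.ext'
    have a := Finset.orderEmbOfFin_unique (s := (Finset.univ : Finset (Fin n))) (k := n) (by simp)
      (f := e) (by simp) h
    have b := Finset.orderEmbOfFin_unique (s := (Finset.univ : Finset (Fin n))) (k := n) (by simp)
      (f := id) (by simp) strictMono_id
    simp only [OrderEmbedding.coe_ofStrictMono]
    rw [a, b]
  have := congrArg (fun f : Fin n ↪o Fin n => f i) h1
  simpa using this

theorem Le.size_le {x y : PP} (h : Le x y) : x.1 ≤ y.1 := by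
  obtain ⟨e, he, -⟩ := h
  simpa using Fintype.card_le_of_injective e he.injective

theorem Le.eq_of_size {x y : PP} (h : Le x y) (hs : x.1 = y.1) : x = y := by
  obtain ⟨n, a⟩ := x
  obtain ⟨n', b⟩ := y
  dsimp only at hs
  subst hs
  obtain ⟨e, he, h2⟩ := h
  dsimp only at e he h2
  have hid := strictMono_fin_id e he
  simp only [hid] at h2
  have hm : StrictMono (fun i => b (a.symm i)) := by
    intro i j hij
    apply (h2 _ _).1
    simpa using hij
  have h3 := strictMono_fin_id _ hm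
  have : a = b := by
    ext i
    have := h3 (a i)
    simp only [Equiv.symm_apply_apply] at this
    rw [this]
  rw [this]

theorem Le.refl (x : PP) : Le x x := ⟨id, strictMono_id, fun _ _ => Iff.rfl⟩

theorem Le.trans {x y z : PP} (h1 : Le x y) (h2 : Le y z) : Le x z := by
  obtain ⟨e, he, he2⟩ := h1
  obtain ⟨f, hf, hf2⟩ := h2
  exact ⟨f ∘ e, hf.comp he, fun i j => (he2 i j).trans (hf2 _ _)⟩

noncomputable def mu (x : PP) : (n : ℕ) → Equiv.Perm (Fin n) → ℤ
  | n, b =>
    if x = ⟨n, b⟩ then 1 else if Le x ⟨n, b⟩ then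
      - ∑ k : Fin n, ∑ ρ : Equiv.Perm (Fin k.1),
        (if Le x ⟨k.1, ρ⟩ ∧ Le ⟨k.1, ρ⟩ ⟨n, b⟩ then mu x k.1 ρ else 0)
    else 0
termination_by n => n
decreasing_by exact k.2

theorem exists_mu : ∃ m : PP → PP → ℤ, (∀ x, m x x = 1) ∧ (∀ x y, ¬ Le x y → m x y = 0) ∧
    (∀ x y, x ≠ y → Le x y → ∑ k ∈ Finset.range (y.1 + 1), ∑ ρ : Equiv.Perm (Fin k),
      (if Le x ⟨k, ρ⟩ ∧ Le ⟨k, ρ⟩ y then m x ⟨k, ρ⟩ else 0) = 0) := by
  refine ⟨fun x y => mu x y.1 y.2, ?_, ?_, ?_⟩
  · intro x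
    dsimp only
    rw [mu]
    simp
  · intro x y h
    dsimp only
    rw [mu]
    have : x ≠ y := by
      rintro rfl
      exact h (Le.refl _)
    rw [if_neg this, if_neg h]
  · intro x y hne h
    obtain ⟨n, b⟩ := y
    dsimp only
    rw [Finset.sum_range_succ]
    have h1 : ∑ ρ : Equiv.Perm (Fin n),
        (if Le x ⟨n, ρ⟩ ∧ Le ⟨n, ρ⟩ ⟨n, b⟩ then mu x n ρ else 0) = mu x n b := by
      rw [Finset.sum_eq_single b]
      · rw [if_pos ⟨h, Le.refl _⟩]
      · intro ρ _ hρ
        rw [if_neg]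
        rintro ⟨-, h2⟩
        have := h2.eq_of_size rfl
        apply hρ
        simpa using this
      · simp
    rw [h1, mu, if_neg hne, if_pos h, Finset.sum_range]
    ring

theorem sum_interval (m : PP → PP → ℤ) (x y : PP)
    (h : ∑ k ∈ Finset.range (y.1 + 1), ∑ ρ : Equiv.Perm (Fin k),
      (if Le x ⟨k, ρ⟩ ∧ Le ⟨k, ρ⟩ y then m x ⟨k, ρ⟩ else 0) = 0)
    (Z : Finset PP) (hZ : ∀ z, z ∈ Z ↔ Le x z ∧ Le z y) : ∑ z ∈ Z, m x z = 0 := by
  rw [Finset.sum_sigma'] at h
  rw [← h, ← Finset.sum_filter]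
  apply Finset.sum_congr
  · ext z
    rw [hZ]
    simp only [Finset.mem_filter, Finset.mem_sigma, Finset.mem_range, Finset.mem_univ, and_true]
    constructor
    · intro h2
      exact ⟨Nat.lt_succ_of_le h2.2.size_le, h2⟩
    · intro h2
      exact h2.2
  · intro z _
    rfl

section pat
variable (val : ℕ → ℕ)

noncomputable def pat (S : Finset ℕ) : PP :=
  ⟨S.card, (Tuple.sort (fun i => val (S.orderEmbOfFin rfl i)))⁻¹⟩

theorem pat_lt (S : Finset ℕ) (hS : Set.InjOn val S) (i j : Fin S.card) :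
    (pat val S).2 i < (pat val S).2 j ↔
      val (S.orderEmbOfFin rfl i) < val (S.orderEmbOfFin rfl j) := by
  set f : Fin S.card → ℕ := fun i => val (S.orderEmbOfFin rfl i) with hf
  have hinj : Function.Injective f := by
    intro a b hab
    have := hS (S.orderEmbOfFin_mem rfl a) (S.orderEmbOfFin_mem rfl b) hab
    exact (S.orderEmbOfFin rfl).injective this
  have hm : StrictMono (f ∘ Tuple.sort f) :=
    (Tuple.monotone_sort f).strictMono_of_injective (hinj.comp (Tuple.sort f).injective)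
  have := hm.lt_iff_lt (a := (Tuple.sort f)⁻¹ i) (b := (Tuple.sort f)⁻¹ j)
  have e1 : ∀ a, Tuple.sort f ((Tuple.sort f)⁻¹ a) = a := fun a => (Tuple.sort f).apply_symm_apply a
  simp only [Function.comp, e1] at this
  exact this.symm

def Good (S T : Finset ℕ) (g : ℕ → ℕ) : Prop :=
  (∀ p ∈ S, g p ∈ T) ∧ (∀ p ∈ S, ∀ q ∈ S, p < q → g p < g q) ∧
    (∀ p ∈ S, ∀ q ∈ S, val p < val q ↔ val (g p) < val (g q))

theorem mem_emb (S : Finset ℕ) (p : ℕ) (hp : p ∈ S) : ∃ i, S.orderEmbOfFin rfl i = p := by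
  have : p ∈ Set.range (S.orderEmbOfFin rfl) := by
    rw [Finset.range_orderEmbOfFin]; exact hp
  exact this

theorem good_of_emb (S T : Finset ℕ) (hS : Set.InjOn val S) (hT : Set.InjOn val T)
    (e : Fin S.card → Fin T.card) (he : Emb (pat val S) (pat val T) e) :
    ∃ g, Good val S T g ∧ ∀ i, g (S.orderEmbOfFin rfl i) = T.orderEmbOfFin rfl (e i) := by
  let g : ℕ → ℕ := fun p => if h : ∃ i, S.orderEmbOfFin rfl i = p then
    T.orderEmbOfFin rfl (e h.choose) else 0
  have hg : ∀ i, g (S.orderEmbOfFin rfl i) = T.orderEmbOfFin rfl (e i) := by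
    intro i
    have h : ∃ j, S.orderEmbOfFin rfl j = S.orderEmbOfFin rfl i := ⟨i, rfl⟩
    have h2 : h.choose = i := (S.orderEmbOfFin rfl).injective h.choose_spec
    simp only [g]
    rw [dif_pos h, h2]
  refine ⟨g, ⟨?_, ?_, ?_⟩, hg⟩
  · intro p hp
    obtain ⟨i, rfl⟩ := mem_emb S p hp
    rw [hg]
    exact T.orderEmbOfFin_mem _ _
  · intro p hp q hq hpq
    obtain ⟨i, rfl⟩ := mem_emb S p hp
    obtain ⟨j, rfl⟩ := mem_emb S q hq
    rw [hg, hg]
    exact (T.orderEmbOfFin rfl).strictMono (he.1 ((S.orderEmbOfFin rfl).lt_iff_lt.1 hpq))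
  · intro p hp q hq
    obtain ⟨i, rfl⟩ := mem_emb S p hp
    obtain ⟨j, rfl⟩ := mem_emb S q hq
    rw [hg, hg, ← pat_lt val S hS, ← pat_lt val T hT]
    exact he.2 i j

theorem good_of_le (S T : Finset ℕ) (hS : Set.InjOn val S) (hT : Set.InjOn val T)
    (h : Le (pat val S) (pat val T)) : ∃ g, Good val S T g := by
  obtain ⟨e, he⟩ := h
  obtain ⟨g, hg, -⟩ := good_of_emb val S T hS hT e he
  exact ⟨g, hg⟩

theorem le_of_good (S T : Finset ℕ) (hS : Set.InjOn val S) (hT : Set.InjOn val T)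
    (g : ℕ → ℕ) (hg : Good val S T g) : Le (pat val S) (pat val T) := by
  have h : ∀ i : Fin S.card, ∃ j, T.orderEmbOfFin rfl j = g (S.orderEmbOfFin rfl i) :=
    fun i => mem_emb T _ (hg.1 _ (S.orderEmbOfFin_mem rfl i))
  choose e he using h
  refine ⟨e, ?_, ?_⟩
  · intro i j hij
    apply (T.orderEmbOfFin rfl).lt_iff_lt.1
    rw [he, he]
    exact hg.2.1 _ (S.orderEmbOfFin_mem rfl i) _ (S.orderEmbOfFin_mem rfl j)
      ((S.orderEmbOfFin rfl).strictMono hij)
  · intro i j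
    rw [pat_lt val S hS, pat_lt val T hT, he, he]
    exact hg.2.2 _ (S.orderEmbOfFin_mem rfl i) _ (S.orderEmbOfFin_mem rfl j)

theorem le_of_subset (S T : Finset ℕ) (hT : Set.InjOn val T) (h : S ⊆ T) :
    Le (pat val S) (pat val T) :=
  le_of_good val S T (hT.mono (by exact_mod_cast h)) hT id
    ⟨fun _ hp => h hp, fun _ _ _ _ h => h, fun _ _ _ _ => Iff.rfl⟩

theorem exists_pat (z : PP) (T : Finset ℕ) (hT : Set.InjOn val T) (h : Le z (pat val T)) :
    ∃ S, S ⊆ T ∧ z = pat val S := by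
  obtain ⟨e, he, he2⟩ := h
  let f : Fin z.1 → ℕ := fun i => T.orderEmbOfFin rfl (e i)
  have hf : StrictMono f := (T.orderEmbOfFin rfl).strictMono.comp he
  let S := Finset.univ.image f
  have hST : S ⊆ T := by
    intro p hp
    obtain ⟨i, -, rfl⟩ := Finset.mem_image.1 hp
    exact T.orderEmbOfFin_mem _ _
  have hS : Set.InjOn val S := hT.mono (by exact_mod_cast hST)
  have hc : S.card = z.1 := by
    rw [Finset.card_image_of_injective _ hf.injective]; simp
  refine ⟨S, hST, Le.eq_of_size ?_ hc.symm⟩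
  have h : ∀ i : Fin z.1, ∃ j, S.orderEmbOfFin rfl j = f i :=
    fun i => mem_emb S _ (Finset.mem_image_of_mem _ (Finset.mem_univ _))
  choose e' he' using h
  refine ⟨e', ?_, ?_⟩
  · intro i j hij
    apply (S.orderEmbOfFin rfl).lt_iff_lt.1
    rw [he', he']
    exact hf hij
  · intro i j
    rw [pat_lt val S hS, he', he', he2, pat_lt val T hT]

theorem fix_of_mono (C : Finset ℕ) (g : ℕ → ℕ) (h1 : ∀ p ∈ C, g p ∈ C)
    (h2 : ∀ p ∈ C, ∀ q ∈ C, p < q → g p < g q) : ∀ p ∈ C, g p = p := by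
  intro p hp
  obtain ⟨i, rfl⟩ := mem_emb C p hp
  have := Finset.orderEmbOfFin_unique (s := C) rfl (f := fun i => g (C.orderEmbOfFin rfl i))
    (fun i => h1 _ (C.orderEmbOfFin_mem rfl i))
    (fun i j hij => h2 _ (C.orderEmbOfFin_mem rfl i) _ (C.orderEmbOfFin_mem rfl j)
      ((C.orderEmbOfFin rfl).strictMono hij))
  exact congrFun this i

theorem boolean (m : PP → PP → ℤ) (hm1 : ∀ x, m x x = 1)
    (hm3 : ∀ x y, x ≠ y → Le x y → ∑ k ∈ Finset.range (y.1 + 1), ∑ ρ : Equiv.Perm (Fin k),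
      (if Le x ⟨k, ρ⟩ ∧ Le ⟨k, ρ⟩ y then m x ⟨k, ρ⟩ else 0) = 0)
    (E X : Finset ℕ) (hinj : Set.InjOn val (E ∪ X : Finset ℕ)) (σ : PP) (hσ : σ = pat val E)
    (hcont : ∀ A T, A ⊂ X → T ⊆ E ∪ A → Le σ (pat val T) → E ⊆ T)
    (hI : ∀ A B, A ⊂ X → B ⊂ X → pat val (E ∪ A) = pat val (E ∪ B) → A = B) :
    ∀ A, A ⊂ X → m σ (pat val (E ∪ A)) = (-1) ^ A.card := by
  intro A
  induction A using Finset.strongInduction with
  | H A ih =>
  intro hA
  by_cases h0 : A = ∅
  · subst h0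
    simp [hσ, hm1]
  have hsub : ∀ B, B ⊆ A → B ⊂ X := fun B hB => lt_of_le_of_lt hB hA
  have hinjA : Set.InjOn val (E ∪ A : Finset ℕ) :=
    hinj.mono (by exact_mod_cast Finset.union_subset_union_right hA.1)
  have hne : σ ≠ pat val (E ∪ A) := by
    intro h
    apply h0
    apply hI A ∅ hA (hsub _ (Finset.empty_subset _))
    rw [← h, hσ]; simp
  have hle : Le σ (pat val (E ∪ A)) := by
    rw [hσ]; exact le_of_subset val _ _ hinjA Finset.subset_union_left
  have hs := sum_interval m σ _ (hm3 _ _ hne hle) (A.powerset.image fun B => pat val (E ∪ B)) (by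
    intro z
    simp only [Finset.mem_image, Finset.mem_powerset]
    constructor
    · rintro ⟨B, hB, rfl⟩
      have hinjB : Set.InjOn val (E ∪ B : Finset ℕ) :=
        hinjA.mono (by exact_mod_cast Finset.union_subset_union_right hB)
      refine ⟨?_, le_of_subset val _ _ hinjA (Finset.union_subset_union_right hB)⟩
      rw [hσ]; exact le_of_subset val _ _ hinjB Finset.subset_union_left
    · rintro ⟨h1, h2⟩
      obtain ⟨T, hT, rfl⟩ := exists_pat val z _ hinjA h2
      have hE := hcont A T hA hT h1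
      refine ⟨T ∩ A, Finset.inter_subset_right, ?_⟩
      congr 1
      ext p
      simp only [Finset.mem_union, Finset.mem_inter]
      have := @hT p
      have := @hE p
      simp only [Finset.mem_union] at *
      tauto)
  rw [Finset.sum_image (fun B hB C hC h => hI B C (hsub _ (by simpa using hB))
    (hsub _ (by simpa using hC)) h)] at hs
  have hs2 := Finset.sum_powerset_neg_one_pow_card_of_nonempty
    (Finset.nonempty_iff_ne_empty.2 h0)
  have hmem : A ∈ A.powerset := Finset.mem_powerset_self A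
  rw [← Finset.add_sum_erase _ _ hmem] at hs hs2
  have h3 : ∑ B ∈ A.powerset.erase A, m σ (pat val (E ∪ B)) =
      ∑ B ∈ A.powerset.erase A, (-1 : ℤ) ^ B.card := by
    apply Finset.sum_congr rfl
    intro B hB
    rw [Finset.mem_erase, Finset.mem_powerset] at hB
    exact ih B (lt_of_le_of_ne hB.2 hB.1) (hsub _ hB.2)
  linarith

theorem sum_side (m : PP → PP → ℤ) (E X : Finset ℕ) (σ : PP) (hX : X.Nonempty)
    (hI : ∀ A B, A ⊂ X → B ⊂ X → pat val (E ∪ A) = pat val (E ∪ B) → A = B)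
    (hb : ∀ A, A ⊂ X → m σ (pat val (E ∪ A)) = (-1) ^ A.card) :
    -1 ≤ ∑ z ∈ (X.powerset.erase X).image (fun B => pat val (E ∪ B)), m σ z := by
  have hsub : ∀ B ∈ X.powerset.erase X, B ⊂ X := by
    intro B hB
    rw [Finset.mem_erase, Finset.mem_powerset] at hB
    exact lt_of_le_of_ne hB.2 hB.1
  rw [Finset.sum_image (fun B hB C hC h => hI B C (hsub _ hB) (hsub _ hC) h)]
  have hs2 := Finset.sum_powerset_neg_one_pow_card_of_nonempty hX
  rw [← Finset.add_sum_erase _ _ (Finset.mem_powerset_self X)] at hs2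
  rw [Finset.sum_congr rfl (fun B hB => hb B (hsub B hB))]
  have : (-1 : ℤ) ^ X.card ≤ 1 := by
    rcases neg_one_pow_eq_or ℤ X.card with h | h <;> rw [h] <;> norm_num
  linarith

end pat

end Pool.Agent.H30.MobA
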