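import Pool.Agent.H30.MobA

set_option autoImplicit false
open Classical

namespace Pool.Agent.H30.MobB
open Pool.Agent.H30.MobA

def val (k p : ℕ) : ℕ :=
  if p % 5 = 4 ∨ 5 * k + 15 ≤ p then 4 * k + 12 + (10 * k + 31 - p)
  else if p / 5 = 0 then
    (if p % 5 = 0 then k + 1 else if p % 5 = 1 then 4 * k + 8 else if p % 5 = 2 then 2 * k + 3
      else 4 * k + 10)
  else if p / 5 ≤ k then
    (if p % 5 = 0 then k + 1 - p / 5 else if p % 5 = 1 then 2 * k + 3 - p / 5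
      else if p % 5 = 2 then 2 * k + 4 + p / 5 else 3 * k + 6 + p / 5)
  else if p / 5 = k + 1 then
    (if p % 5 = 0 then 4 * k + 9 else if p % 5 = 1 then 2 * k + 4 else if p % 5 = 2 then 4 * k + 11
      else 3 * k + 6)
  else
    (if p % 5 = 0 then 3 * k + 5 else if p % 5 = 1 then 0 else if p % 5 = 2 then 4 * k + 7
      else k + 2)

def core (k p : ℕ) : Prop := p % 5 = 4 ∨ 5 * k + 15 ≤ p
def normal (k p : ℕ) : Prop := 1 ≤ p / 5 ∧ p / 5 ≤ k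
def in1 (k p : ℕ) : Prop :=
  core k p ∨ (normal k p ∧ (p % 5 = 1 ∨ p % 5 = 3)) ∨ (¬ normal k p ∧ (p % 5 = 2 ∨ p % 5 = 3))
def in2 (k p : ℕ) : Prop :=
  core k p ∨ (normal k p ∧ (p % 5 = 0 ∨ p % 5 = 2)) ∨ (¬ normal k p ∧ (p % 5 = 0 ∨ p % 5 = 1))
def phi (k p : ℕ) : ℕ :=
  if p % 5 = 4 ∨ 5 * k + 15 ≤ p then p else if 1 ≤ p / 5 ∧ p / 5 ≤ k then p - 1 else p - 2

def U (k : ℕ) : Finset ℕ := Finset.range (10 * k + 31)
noncomputable def E1 (k : ℕ) : Finset ℕ := (U k).filter (in1 k)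
noncomputable def E2 (k : ℕ) : Finset ℕ := (U k).filter (in2 k)

theorem mem_U {k p : ℕ} : p ∈ U k ↔ p < 10 * k + 31 := by simp [U]
theorem mem_E1 {k p : ℕ} : p ∈ E1 k ↔ p < 10 * k + 31 ∧ ((p % 5 = 4 ∨ 5 * k + 15 ≤ p) ∨
    ((1 ≤ p / 5 ∧ p / 5 ≤ k) ∧ (p % 5 = 1 ∨ p % 5 = 3)) ∨
    (¬ (1 ≤ p / 5 ∧ p / 5 ≤ k) ∧ (p % 5 = 2 ∨ p % 5 = 3))) := by
  simp only [E1, Finset.mem_filter, mem_U, in1, core, normal]
theorem mem_E2 {k p : ℕ} : p ∈ E2 k ↔ p < 10 * k + 31 ∧ ((p % 5 = 4 ∨ 5 * k + 15 ≤ p) ∨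
    ((1 ≤ p / 5 ∧ p / 5 ≤ k) ∧ (p % 5 = 0 ∨ p % 5 = 2)) ∨
    (¬ (1 ≤ p / 5 ∧ p / 5 ≤ k) ∧ (p % 5 = 0 ∨ p % 5 = 1))) := by
  simp only [E2, Finset.mem_filter, mem_U, in2, core, normal]

theorem vs (k p : ℕ) :
    ((p % 5 = 4 ∨ 5 * k + 15 ≤ p) ∧ val k p = 4 * k + 12 + (10 * k + 31 - p)) ∨
    (p = 0 ∧ val k p = k + 1) ∨ (p = 1 ∧ val k p = 4 * k + 8) ∨ (p = 2 ∧ val k p = 2 * k + 3) ∨
    (p = 3 ∧ val k p = 4 * k + 10) ∨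
    (p = 5 * k + 5 ∧ val k p = 4 * k + 9) ∨ (p = 5 * k + 6 ∧ val k p = 2 * k + 4) ∨
    (p = 5 * k + 7 ∧ val k p = 4 * k + 11) ∨ (p = 5 * k + 8 ∧ val k p = 3 * k + 6) ∨
    (p = 5 * k + 10 ∧ val k p = 3 * k + 5) ∨ (p = 5 * k + 11 ∧ val k p = 0) ∨
    (p = 5 * k + 12 ∧ val k p = 4 * k + 7) ∨ (p = 5 * k + 13 ∧ val k p = k + 2) ∨
    (1 ≤ p / 5 ∧ p / 5 ≤ k ∧ p % 5 = 0 ∧ val k p + p / 5 = k + 1) ∨
    (1 ≤ p / 5 ∧ p / 5 ≤ k ∧ p % 5 = 1 ∧ val k p + p / 5 = 2 * k + 3) ∨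
    (1 ≤ p / 5 ∧ p / 5 ≤ k ∧ p % 5 = 2 ∧ val k p = 2 * k + 4 + p / 5) ∨
    (1 ≤ p / 5 ∧ p / 5 ≤ k ∧ p % 5 = 3 ∧ val k p = 3 * k + 6 + p / 5) := by
  unfold val
  split_ifs <;> first
    | exact (Or.inl (by omega))
    | exact (Or.inr (Or.inl (by omega)))
    | exact (Or.inr (Or.inr (Or.inl (by omega))))
    | exact (Or.inr (Or.inr (Or.inr (Or.inl (by omega)))))
    | exact (Or.inr (Or.inr (Or.inr (Or.inr (Or.inl (by omega))))))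
    | exact (Or.inr (Or.inr (Or.inr (Or.inr (Or.inr (Or.inl (by omega)))))))
    | exact (Or.inr (Or.inr (Or.inr (Or.inr (Or.inr (Or.inr (Or.inl (by omega))))))))
    | exact (Or.inr (Or.inr (Or.inr (Or.inr (Or.inr (Or.inr (Or.inr (Or.inl (by omega)))))))))
    | exact (Or.inr (Or.inr (Or.inr (Or.inr (Or.inr (Or.inr (Or.inr (Or.inr (Or.inl (by omega))))))))))
    | exact (Or.inr (Or.inr (Or.inr (Or.inr (Or.inr (Or.inr (Or.inr (Or.inr (Or.inr (Or.inl (by omega)))))))))))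
    | exact (Or.inr (Or.inr (Or.inr (Or.inr (Or.inr (Or.inr (Or.inr (Or.inr (Or.inr (Or.inr (Or.inl (by omega))))))))))))
    | exact (Or.inr (Or.inr (Or.inr (Or.inr (Or.inr (Or.inr (Or.inr (Or.inr (Or.inr (Or.inr (Or.inr (Or.inl (by omega)))))))))))))
    | exact (Or.inr (Or.inr (Or.inr (Or.inr (Or.inr (Or.inr (Or.inr (Or.inr (Or.inr (Or.inr (Or.inr (Or.inr (Or.inl (by omega))))))))))))))
    | exact (Or.inr (Or.inr (Or.inr (Or.inr (Or.inr (Or.inr (Or.inr (Or.inr (Or.inr (Or.inr (Or.inr (Or.inr (Or.inr (Or.inl (by omega)))))))))))))))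
    | exact (Or.inr (Or.inr (Or.inr (Or.inr (Or.inr (Or.inr (Or.inr (Or.inr (Or.inr (Or.inr (Or.inr (Or.inr (Or.inr (Or.inr (Or.inl (by omega))))))))))))))))
    | exact (Or.inr (Or.inr (Or.inr (Or.inr (Or.inr (Or.inr (Or.inr (Or.inr (Or.inr (Or.inr (Or.inr (Or.inr (Or.inr (Or.inr (Or.inr (Or.inl (by omega)))))))))))))))))
    | exact (Or.inr (Or.inr (Or.inr (Or.inr (Or.inr (Or.inr (Or.inr (Or.inr (Or.inr (Or.inr (Or.inr (Or.inr (Or.inr (Or.inr (Or.inr (Or.inr (by omega)))))))))))))))))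

theorem ps (k p : ℕ) :
    ((p % 5 = 4 ∨ 5 * k + 15 ≤ p) ∧ phi k p = p) ∨
    (p % 5 ≠ 4 ∧ p < 5 * k + 15 ∧ 1 ≤ p / 5 ∧ p / 5 ≤ k ∧ phi k p = p - 1) ∨
    (p % 5 ≠ 4 ∧ p < 5 * k + 15 ∧ (p / 5 = 0 ∨ k < p / 5) ∧ phi k p = p - 2) := by
  unfold phi
  split_ifs <;> first
    | exact Or.inl (by omega)
    | exact Or.inr (Or.inl (by omega))
    | exact Or.inr (Or.inr (by omega))

theorem val_inj (k : ℕ) : Set.InjOn (val k) (U k) := by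
  intro p hp q hq h
  have hp := mem_U.1 hp
  have hq := mem_U.1 hq
  have h1 := vs k p
  have h2 := vs k q
  omega

end Pool.Agent.H30.MobB
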