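import Pool.Agent.H30.MobB

set_option autoImplicit false
open Classical

namespace Pool.Agent.H30.MobB
open Pool.Agent.H30.MobA

theorem core_fix (k : ℕ) (g : ℕ → ℕ) (hg : Good (val k) (E1 k) (U k) g) :
    ∀ p, p < 10 * k + 31 → core k p → g p = p := by
  have h1 : ∀ r, r ≤ 5 * k + 15 → r ≤ g (5 * k + 15 + r) := by
    intro r
    induction r with
    | zero => intro _; omega
    | succ r ih =>
      intro hr
      have := ih (by omega)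
      have := hg.2.1 (5 * k + 15 + r) (mem_E1.2 (by omega)) (5 * k + 15 + (r + 1))
        (mem_E1.2 (by omega)) (by omega)
      omega
  have h2 : 5 * k + 15 ≤ g (10 * k + 30) := by
    have := h1 (5 * k + 15) le_rfl
    rwa [show 5 * k + 15 + (5 * k + 15) = 10 * k + 30 by ring] at this
  have h3 := fix_of_mono ((U k).filter (core k)) g (by
      intro p hp
      rw [Finset.mem_filter, mem_U] at hp ⊢
      have hc : p % 5 = 4 ∨ 5 * k + 15 ≤ p := hp.2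
      have hpE : p ∈ E1 k := mem_E1.2 (by omega)
      have hlt := mem_U.1 (hg.1 p hpE)
      refine ⟨hlt, ?_⟩
      show g p % 5 = 4 ∨ 5 * k + 15 ≤ g p
      by_cases hl : p = 10 * k + 30
      · rw [hl]; omega
      · have h4 := (hg.2.2 (10 * k + 30) (mem_E1.2 (by omega)) p hpE).1 (by
          have := vs k p
          have := vs k (10 * k + 30)
          omega)
        have := vs k (g p)
        have := vs k (g (10 * k + 30))
        omega)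
    (by
      intro p hp q hq hpq
      rw [Finset.mem_filter, mem_U] at hp hq
      have hc : p % 5 = 4 ∨ 5 * k + 15 ≤ p := hp.2
      have hc2 : q % 5 = 4 ∨ 5 * k + 15 ≤ q := hq.2
      exact hg.2.1 p (mem_E1.2 (by omega)) q (mem_E1.2 (by omega)) hpq)
  intro p hp hc
  exact h3 p (by rw [Finset.mem_filter, mem_U]; exact ⟨hp, hc⟩)

theorem col (k : ℕ) (g : ℕ → ℕ) (hg : Good (val k) (E1 k) (U k) g) (p : ℕ) (hp : p ∈ E1 k)
    (h1 : p % 5 ≠ 4) (h2 : p < 5 * k + 15) : 5 * (p / 5) ≤ g p ∧ g p < 5 * (p / 5) + 4 := by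
  constructor
  · by_cases h0 : p / 5 = 0
    · omega
    · have a := core_fix k g hg (5 * (p / 5) - 1) (by omega) (Or.inl (by omega))
      have := hg.2.1 (5 * (p / 5) - 1) (mem_E1.2 (by omega)) p hp (by omega)
      omega
  · have a := core_fix k g hg (5 * (p / 5) + 4) (by omega) (Or.inl (by omega))
    have := hg.2.1 p hp (5 * (p / 5) + 4) (mem_E1.2 (by omega)) (by omega)
    omega

theorem v0 (k : ℕ) : val k 0 = k + 1 := by have := vs k 0; omega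
theorem v1 (k : ℕ) : val k 1 = 4 * k + 8 := by have := vs k 1; omega
theorem v2 (k : ℕ) : val k 2 = 2 * k + 3 := by have := vs k 2; omega
theorem v3 (k : ℕ) : val k 3 = 4 * k + 10 := by have := vs k 3; omega
theorem v5 (k : ℕ) : val k (5 * k + 5) = 4 * k + 9 := by have := vs k (5 * k + 5); omega
theorem v6 (k : ℕ) : val k (5 * k + 6) = 2 * k + 4 := by have := vs k (5 * k + 6); omega
theorem v7 (k : ℕ) : val k (5 * k + 7) = 4 * k + 11 := by have := vs k (5 * k + 7); omega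
theorem v8 (k : ℕ) : val k (5 * k + 8) = 3 * k + 6 := by have := vs k (5 * k + 8); omega
theorem v10 (k : ℕ) : val k (5 * k + 10) = 3 * k + 5 := by have := vs k (5 * k + 10); omega
theorem v11 (k : ℕ) : val k (5 * k + 11) = 0 := by have := vs k (5 * k + 11); omega
theorem v12 (k : ℕ) : val k (5 * k + 12) = 4 * k + 7 := by have := vs k (5 * k + 12); omega
theorem v13 (k : ℕ) : val k (5 * k + 13) = k + 2 := by have := vs k (5 * k + 13); omega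
theorem n0 (k j : ℕ) (h1 : 1 ≤ j) (h2 : j ≤ k) : val k (5 * j) + j = k + 1 := by
  have := vs k (5 * j); omega
theorem n1 (k j : ℕ) (h1 : 1 ≤ j) (h2 : j ≤ k) : val k (5 * j + 1) + j = 2 * k + 3 := by
  have := vs k (5 * j + 1); omega
theorem n2 (k j : ℕ) (h1 : 1 ≤ j) (h2 : j ≤ k) : val k (5 * j + 2) = 2 * k + 4 + j := by
  have := vs k (5 * j + 2); omega
theorem n3 (k j : ℕ) (h1 : 1 ≤ j) (h2 : j ≤ k) : val k (5 * j + 3) = 3 * k + 6 + j := by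
  have := vs k (5 * j + 3); omega
theorem vc (k p : ℕ) (h : p % 5 = 4 ∨ 5 * k + 15 ≤ p) :
    val k p = 4 * k + 12 + (10 * k + 31 - p) := by
  unfold val; rw [if_pos h]

theorem vA (k p : ℕ) (h : p < 4) :
    (p = 0 ∧ val k p = k + 1) ∨ (p = 1 ∧ val k p = 4 * k + 8) ∨ (p = 2 ∧ val k p = 2 * k + 3) ∨
    (p = 3 ∧ val k p = 4 * k + 10) := by
  rcases (by omega : p = 0 ∨ p = 1 ∨ p = 2 ∨ p = 3) with rfl | rfl | rfl | rfl <;>
    simp [v0, v1, v2, v3]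

theorem vB (k p : ℕ) (h : 5 * k + 5 ≤ p) (h2 : p < 5 * k + 9) :
    (p = 5 * k + 5 ∧ val k p = 4 * k + 9) ∨ (p = 5 * k + 6 ∧ val k p = 2 * k + 4) ∨
    (p = 5 * k + 7 ∧ val k p = 4 * k + 11) ∨ (p = 5 * k + 8 ∧ val k p = 3 * k + 6) := by
  rcases (by omega : p = 5 * k + 5 ∨ p = 5 * k + 6 ∨ p = 5 * k + 7 ∨ p = 5 * k + 8) with
    rfl | rfl | rfl | rfl <;> simp [v5, v6, v7, v8]

theorem vC (k p : ℕ) (h : 5 * k + 10 ≤ p) (h2 : p < 5 * k + 14) :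
    (p = 5 * k + 10 ∧ val k p = 3 * k + 5) ∨ (p = 5 * k + 11 ∧ val k p = 0) ∨
    (p = 5 * k + 12 ∧ val k p = 4 * k + 7) ∨ (p = 5 * k + 13 ∧ val k p = k + 2) := by
  rcases (by omega : p = 5 * k + 10 ∨ p = 5 * k + 11 ∨ p = 5 * k + 12 ∨ p = 5 * k + 13) with
    rfl | rfl | rfl | rfl <;> simp [v10, v11, v12, v13]

theorem vN (k j p : ℕ) (hj : 1 ≤ j) (hj2 : j ≤ k) (h : 5 * j ≤ p) (h2 : p < 5 * j + 4) :
    (p = 5 * j ∧ val k p + j = k + 1) ∨ (p = 5 * j + 1 ∧ val k p + j = 2 * k + 3) ∨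
    (p = 5 * j + 2 ∧ val k p = 2 * k + 4 + j) ∨ (p = 5 * j + 3 ∧ val k p = 3 * k + 6 + j) := by
  rcases (by omega : p = 5 * j ∨ p = 5 * j + 1 ∨ p = 5 * j + 2 ∨ p = 5 * j + 3) with
    rfl | rfl | rfl | rfl
  · exact Or.inl ⟨rfl, n0 k j hj hj2⟩
  · exact Or.inr (Or.inl ⟨rfl, n1 k j hj hj2⟩)
  · exact Or.inr (Or.inr (Or.inl ⟨rfl, n2 k j hj hj2⟩))
  · exact Or.inr (Or.inr (Or.inr ⟨rfl, n3 k j hj hj2⟩))

theorem m2 (k : ℕ) : 2 ∈ E1 k := mem_E1.2 (by omega)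
theorem m3 (k : ℕ) : 3 ∈ E1 k := mem_E1.2 (by omega)
theorem m7 (k : ℕ) : 5 * k + 7 ∈ E1 k := mem_E1.2 (by omega)
theorem m8 (k : ℕ) : 5 * k + 8 ∈ E1 k := mem_E1.2 (by omega)
theorem m12 (k : ℕ) : 5 * k + 12 ∈ E1 k := mem_E1.2 (by omega)
theorem m13 (k : ℕ) : 5 * k + 13 ∈ E1 k := mem_E1.2 (by omega)

theorem special_aux (k a2 a3 a7 a8 a12 a13 b2 b3 b7 b8 b12 b13 : ℕ)
    (w2 : (a2 = 0 ∧ b2 = k + 1) ∨ (a2 = 1 ∧ b2 = 4 * k + 8) ∨ (a2 = 2 ∧ b2 = 2 * k + 3) ∨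
      (a2 = 3 ∧ b2 = 4 * k + 10))
    (w3 : (a3 = 0 ∧ b3 = k + 1) ∨ (a3 = 1 ∧ b3 = 4 * k + 8) ∨ (a3 = 2 ∧ b3 = 2 * k + 3) ∨
      (a3 = 3 ∧ b3 = 4 * k + 10))
    (w7 : (a7 = 5 * k + 5 ∧ b7 = 4 * k + 9) ∨ (a7 = 5 * k + 6 ∧ b7 = 2 * k + 4) ∨
      (a7 = 5 * k + 7 ∧ b7 = 4 * k + 11) ∨ (a7 = 5 * k + 8 ∧ b7 = 3 * k + 6))
    (w8 : (a8 = 5 * k + 5 ∧ b8 = 4 * k + 9) ∨ (a8 = 5 * k + 6 ∧ b8 = 2 * k + 4) ∨
      (a8 = 5 * k + 7 ∧ b8 = 4 * k + 11) ∨ (a8 = 5 * k + 8 ∧ b8 = 3 * k + 6))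
    (w12 : (a12 = 5 * k + 10 ∧ b12 = 3 * k + 5) ∨ (a12 = 5 * k + 11 ∧ b12 = 0) ∨
      (a12 = 5 * k + 12 ∧ b12 = 4 * k + 7) ∨ (a12 = 5 * k + 13 ∧ b12 = k + 2))
    (w13 : (a13 = 5 * k + 10 ∧ b13 = 3 * k + 5) ∨ (a13 = 5 * k + 11 ∧ b13 = 0) ∨
      (a13 = 5 * k + 12 ∧ b13 = 4 * k + 7) ∨ (a13 = 5 * k + 13 ∧ b13 = k + 2))
    (o1 : b13 < b2) (o2 : b2 < b8) (o3 : b8 < b12) (o4 : b12 < b3) (o5 : b3 < b7)
    (p1 : a2 < a3) (p2 : a7 < a8) (p3 : a12 < a13) :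
    (a2 = 2 ∧ a3 = 3 ∧ a7 = 5 * k + 7 ∧ a8 = 5 * k + 8 ∧ a12 = 5 * k + 12 ∧ a13 = 5 * k + 13) ∨
    (a2 = 0 ∧ a3 = 1 ∧ a7 = 5 * k + 5 ∧ a8 = 5 * k + 6 ∧ a12 = 5 * k + 10 ∧ a13 = 5 * k + 11) := by
  have o6 : b13 < b12 := by omega
  have o7 : b8 < b7 := by omega
  rcases w12 with ⟨rfl, rfl⟩ | ⟨rfl, rfl⟩ | ⟨rfl, rfl⟩ | ⟨rfl, rfl⟩ <;>
  rcases w13 with ⟨rfl, rfl⟩ | ⟨rfl, rfl⟩ | ⟨rfl, rfl⟩ | ⟨rfl, rfl⟩ <;>
  first
  | (exfalso; clear w2 w3 w7 w8; omega)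
  | (rcases w7 with ⟨rfl, rfl⟩ | ⟨rfl, rfl⟩ | ⟨rfl, rfl⟩ | ⟨rfl, rfl⟩ <;>
     rcases w8 with ⟨rfl, rfl⟩ | ⟨rfl, rfl⟩ | ⟨rfl, rfl⟩ | ⟨rfl, rfl⟩ <;>
     first
     | (exfalso; clear w2 w3; omega)
     | (rcases w2 with ⟨rfl, rfl⟩ | ⟨rfl, rfl⟩ | ⟨rfl, rfl⟩ | ⟨rfl, rfl⟩ <;>
        rcases w3 with ⟨rfl, rfl⟩ | ⟨rfl, rfl⟩ | ⟨rfl, rfl⟩ | ⟨rfl, rfl⟩ <;>
        first
        | (exfalso; omega)
        | exact Or.inl ⟨rfl, rfl, rfl, rfl, rfl, rfl⟩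
        | exact Or.inr ⟨rfl, rfl, rfl, rfl, rfl, rfl⟩))

theorem special (k : ℕ) (g : ℕ → ℕ) (hg : Good (val k) (E1 k) (U k) g) :
    (g 2 = 2 ∧ g 3 = 3 ∧ g (5 * k + 7) = 5 * k + 7 ∧ g (5 * k + 8) = 5 * k + 8 ∧
      g (5 * k + 12) = 5 * k + 12 ∧ g (5 * k + 13) = 5 * k + 13) ∨
    (g 2 = 0 ∧ g 3 = 1 ∧ g (5 * k + 7) = 5 * k + 5 ∧ g (5 * k + 8) = 5 * k + 6 ∧
      g (5 * k + 12) = 5 * k + 10 ∧ g (5 * k + 13) = 5 * k + 11) := by
  have c2 := col k g hg 2 (m2 k) (by omega) (by omega)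
  have c3 := col k g hg 3 (m3 k) (by omega) (by omega)
  have c7 := col k g hg _ (m7 k) (by omega) (by omega)
  have c8 := col k g hg _ (m8 k) (by omega) (by omega)
  have c12 := col k g hg _ (m12 k) (by omega) (by omega)
  have c13 := col k g hg _ (m13 k) (by omega) (by omega)
  exact special_aux k _ _ _ _ _ _ _ _ _ _ _ _
    (vA k (g 2) (by omega)) (vA k (g 3) (by omega))
    (vB k (g (5 * k + 7)) (by omega) (by omega)) (vB k (g (5 * k + 8)) (by omega) (by omega))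
    (vC k (g (5 * k + 12)) (by omega) (by omega)) (vC k (g (5 * k + 13)) (by omega) (by omega))
    ((hg.2.2 _ (m13 k) _ (m2 k)).1 (by rw [v13, v2]; omega))
    ((hg.2.2 _ (m2 k) _ (m8 k)).1 (by rw [v8, v2]; omega))
    ((hg.2.2 _ (m8 k) _ (m12 k)).1 (by rw [v8, v12]; omega))
    ((hg.2.2 _ (m12 k) _ (m3 k)).1 (by rw [v3, v12]; omega))
    ((hg.2.2 _ (m3 k) _ (m7 k)).1 (by rw [v3, v7]; omega))
    (hg.2.1 _ (m2 k) _ (m3 k) (by omega)) (hg.2.1 _ (m7 k) _ (m8 k) (by omega))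
    (hg.2.1 _ (m12 k) _ (m13 k) (by omega))

theorem E1_cases (k p : ℕ) (hp : p ∈ E1 k) :
    (p < 10 * k + 31 ∧ (p % 5 = 4 ∨ 5 * k + 15 ≤ p)) ∨
    (∃ j, 1 ≤ j ∧ j ≤ k ∧ p = 5 * j + 1) ∨ (∃ j, 1 ≤ j ∧ j ≤ k ∧ p = 5 * j + 3) ∨
    p = 2 ∨ p = 3 ∨ p = 5 * k + 7 ∨ p = 5 * k + 8 ∨ p = 5 * k + 12 ∨ p = 5 * k + 13 := by
  have hp' := mem_E1.1 hp
  by_cases hc : p % 5 = 4 ∨ 5 * k + 15 ≤ p
  · exact Or.inl ⟨hp'.1, hc⟩
  right
  by_cases hn : 1 ≤ p / 5 ∧ p / 5 ≤ k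
  · by_cases h1 : p % 5 = 1
    · exact Or.inl ⟨p / 5, hn.1, hn.2, by omega⟩
    · exact Or.inr (Or.inl ⟨p / 5, hn.1, hn.2, by omega⟩)
  · right; right; omega

theorem phc (k p : ℕ) (h : p % 5 = 4 ∨ 5 * k + 15 ≤ p) : phi k p = p := by
  unfold phi; rw [if_pos h]
theorem ph1 (k j : ℕ) (h1 : 1 ≤ j) (h2 : j ≤ k) : phi k (5 * j + 1) = 5 * j := by
  have := ps k (5 * j + 1); omega
theorem ph3 (k j : ℕ) (h1 : 1 ≤ j) (h2 : j ≤ k) : phi k (5 * j + 3) = 5 * j + 2 := by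
  have := ps k (5 * j + 3); omega
theorem pha2 (k : ℕ) : phi k 2 = 0 := by have := ps k 2; omega
theorem pha3 (k : ℕ) : phi k 3 = 1 := by have := ps k 3; omega
theorem pha7 (k : ℕ) : phi k (5 * k + 7) = 5 * k + 5 := by have := ps k (5 * k + 7); omega
theorem pha8 (k : ℕ) : phi k (5 * k + 8) = 5 * k + 6 := by have := ps k (5 * k + 8); omega
theorem pha12 (k : ℕ) : phi k (5 * k + 12) = 5 * k + 10 := by have := ps k (5 * k + 12); omega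
theorem pha13 (k : ℕ) : phi k (5 * k + 13) = 5 * k + 11 := by have := ps k (5 * k + 13); omega

theorem occ (k : ℕ) (g : ℕ → ℕ) (hg : Good (val k) (E1 k) (U k) g) :
    (∀ p ∈ E1 k, g p = p) ∨ (∀ p ∈ E1 k, g p = phi k p) := by
  rcases special k g hg with ⟨a2, a3, a7, a8, a12, a13⟩ | ⟨a2, a3, a7, a8, a12, a13⟩
  · left
    intro p hp
    rcases E1_cases k p hp with h | ⟨j, h1, h2, rfl⟩ | ⟨j, h1, h2, rfl⟩ | rfl | rfl | rfl | rfl |
      rfl | rfl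
    · exact core_fix k g hg p h.1 h.2
    · have c := col k g hg _ hp (by omega) (by omega)
      have w := vN k j (g (5 * j + 1)) h1 h2 (by omega) (by omega)
      have n := n1 k j h1 h2
      have o1 := (hg.2.2 _ (m13 k) _ hp).1 (by rw [v13]; omega)
      have o2 := (hg.2.2 _ hp _ (m2 k)).1 (by rw [v2]; omega)
      rw [a13, v13] at o1
      rw [a2, v2] at o2
      omega
    · have c := col k g hg _ hp (by omega) (by omega)
      have w := vN k j (g (5 * j + 3)) h1 h2 (by omega) (by omega)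
      have n := n3 k j h1 h2
      have o1 := (hg.2.2 _ (m8 k) _ hp).1 (by rw [v8]; omega)
      rw [a8, v8] at o1
      omega
    all_goals assumption
  · right
    intro p hp
    rcases E1_cases k p hp with h | ⟨j, h1, h2, rfl⟩ | ⟨j, h1, h2, rfl⟩ | rfl | rfl | rfl | rfl |
      rfl | rfl
    · rw [phc k p h.2]; exact core_fix k g hg p h.1 h.2
    · have c := col k g hg _ hp (by omega) (by omega)
      have w := vN k j (g (5 * j + 1)) h1 h2 (by omega) (by omega)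
      have n := n1 k j h1 h2
      have o2 := (hg.2.2 _ hp _ (m2 k)).1 (by rw [v2]; omega)
      rw [a2, v0] at o2
      rw [ph1 k j h1 h2]
      omega
    · have c := col k g hg _ hp (by omega) (by omega)
      have w := vN k j (g (5 * j + 3)) h1 h2 (by omega) (by omega)
      have n := n3 k j h1 h2
      have o1 := (hg.2.2 _ (m8 k) _ hp).1 (by rw [v8]; omega)
      have o2 := (hg.2.2 _ hp _ (m12 k)).1 (by rw [v12]; omega)
      rw [a8, v6] at o1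
      rw [a12, v10] at o2
      rw [ph3 k j h1 h2]
      omega
    · rw [pha2, a2]
    · rw [pha3, a3]
    · rw [pha7, a7]
    · rw [pha8, a8]
    · rw [pha12, a12]
    · rw [pha13, a13]

theorem phi_val (k p : ℕ) (hp : p ∈ E1 k) :
    (val k (phi k p) = val k p ∧ 4 * k + 12 ≤ val k p) ∨
    (val k (phi k p) + 2 = val k p ∧ 4 * k + 10 ≤ val k p ∧ val k p < 4 * k + 12) ∨
    (val k (phi k p) + k + 2 = val k p ∧ 3 * k + 6 ≤ val k p ∧ val k p < 4 * k + 8) ∨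
    (val k (phi k p) + k + 2 = val k p ∧ val k p < 2 * k + 4) := by
  rcases E1_cases k p hp with h | ⟨j, h1, h2, rfl⟩ | ⟨j, h1, h2, rfl⟩ | rfl | rfl | rfl | rfl |
    rfl | rfl
  · rw [phc k p h.2, vc k p h.2]; omega
  · rw [ph1 k j h1 h2]
    have := n0 k j h1 h2
    have := n1 k j h1 h2
    omega
  · rw [ph3 k j h1 h2, n2 k j h1 h2, n3 k j h1 h2]
    omega
  · rw [pha2, v0, v2]; omega
  · rw [pha3, v1, v3]; omega
  · rw [pha7, v5, v7]; omega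
  · rw [pha8, v6, v8]; omega
  · rw [pha12, v10, v12]; omega
  · rw [pha13, v11, v13]; omega

theorem phi_good (k : ℕ) : Good (val k) (E1 k) (E2 k) (phi k) := by
  refine ⟨?_, ?_, ?_⟩
  · intro p hp
    rw [mem_E2]
    rcases E1_cases k p hp with h | ⟨j, h1, h2, rfl⟩ | ⟨j, h1, h2, rfl⟩ | rfl | rfl | rfl | rfl |
      rfl | rfl
    · rw [phc k p h.2]; omega
    · rw [ph1 k j h1 h2]; omega
    · rw [ph3 k j h1 h2]; omega
    · rw [pha2]; omega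
    · rw [pha3]; omega
    · rw [pha7]; omega
    · rw [pha8]; omega
    · rw [pha12]; omega
    · rw [pha13]; omega
  · intro p hp q hq hpq
    have := mem_E1.1 hp
    have := mem_E1.1 hq
    have := ps k p
    have := ps k q
    omega
  · intro p hp q hq
    have := phi_val k p hp
    have := phi_val k q hq
    constructor <;> intro h <;> omega

theorem phi_surj (k q : ℕ) (hq : q ∈ E2 k) : ∃ p ∈ E1 k, phi k p = q := by
  have := mem_E2.1 hq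
  by_cases hc : q % 5 = 4 ∨ 5 * k + 15 ≤ q
  · refine ⟨q, mem_E1.2 (by omega), ?_⟩
    have := ps k q
    omega
  by_cases hn : 1 ≤ q / 5 ∧ q / 5 ≤ k
  · refine ⟨q + 1, mem_E1.2 (by omega), ?_⟩
    have := ps k (q + 1)
    omega
  · refine ⟨q + 2, mem_E1.2 (by omega), ?_⟩
    have := ps k (q + 2)
    omega

end Pool.Agent.H30.MobB
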