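import Pool.Agent.H30.MobC

set_option autoImplicit false
open Classical

namespace Pool.Agent.H30.MobB
open Pool.Agent.H30.MobA

theorem good_lt {val : ℕ → ℕ} {S T : Finset ℕ} {g : ℕ → ℕ} (hg : Good val S T g) {p q : ℕ}
    (hp : p ∈ S) (hq : q ∈ S) : p < q ↔ g p < g q := by
  constructor
  · exact hg.2.1 p hp q hq
  · intro h
    rcases lt_trichotomy p q with h1 | h1 | h1
    · exact h1
    · subst h1; omega
    · have := hg.2.1 q hq p hp h1; omega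

theorem good_mono {val : ℕ → ℕ} {S S' T T' : Finset ℕ} {g : ℕ → ℕ} (hg : Good val S T g)
    (h1 : S' ⊆ S) (h2 : T ⊆ T') : Good val S' T' g :=
  ⟨fun p hp => h2 (hg.1 p (h1 hp)), fun p hp q hq => hg.2.1 p (h1 hp) q (h1 hq),
    fun p hp q hq => hg.2.2 p (h1 hp) q (h1 hq)⟩

theorem good_comp {val : ℕ → ℕ} {S T R : Finset ℕ} {g f : ℕ → ℕ} (hg : Good val S T g)
    (hf : Good val T R f) : Good val S R (f ∘ g) :=
  ⟨fun p hp => hf.1 _ (hg.1 p hp),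
    fun p hp q hq h => hf.2.1 _ (hg.1 p hp) _ (hg.1 q hq) (hg.2.1 p hp q hq h),
    fun p hp q hq => (hg.2.2 p hp q hq).trans (hf.2.2 _ (hg.1 p hp) _ (hg.1 q hq))⟩

theorem pat_eq_of_surj {val : ℕ → ℕ} {S T : Finset ℕ} {g : ℕ → ℕ} (hS : Set.InjOn val S)
    (hT : Set.InjOn val T) (hg : Good val S T g) (hs : ∀ q ∈ T, ∃ p ∈ S, g p = q) :
    pat val S = pat val T := by
  have h := le_of_good val S T hS hT g hg
  refine h.eq_of_size (le_antisymm h.size_le ?_)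
  exact Finset.card_le_card_of_surjOn g (fun q hq => by
    obtain ⟨p, hp, rfl⟩ := hs q hq
    exact ⟨p, hp, rfl⟩)

noncomputable def X1 (k : ℕ) : Finset ℕ := U k \ E1 k
noncomputable def X2 (k : ℕ) : Finset ℕ := U k \ E2 k

theorem E1_sub (k : ℕ) : E1 k ⊆ U k := Finset.filter_subset _ _
theorem E2_sub (k : ℕ) : E2 k ⊆ U k := Finset.filter_subset _ _
theorem X1_sub (k : ℕ) : X1 k ⊆ U k := Finset.sdiff_subset
theorem X2_sub (k : ℕ) : X2 k ⊆ U k := Finset.sdiff_subset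
theorem EX1 (k : ℕ) : E1 k ∪ X1 k = U k := Finset.union_sdiff_of_subset (E1_sub k)
theorem EX2 (k : ℕ) : E2 k ∪ X2 k = U k := Finset.union_sdiff_of_subset (E2_sub k)

theorem inj_sub (k : ℕ) {S : Finset ℕ} (h : S ⊆ U k) : Set.InjOn (val k) S :=
  (val_inj k).mono (by exact_mod_cast h)

theorem X1_cases (k p : ℕ) (hp : p ∈ X1 k) :
    (∃ j, 1 ≤ j ∧ j ≤ k ∧ p = 5 * j) ∨ (∃ j, 1 ≤ j ∧ j ≤ k ∧ p = 5 * j + 2) ∨
    p = 0 ∨ p = 1 ∨ p = 5 * k + 5 ∨ p = 5 * k + 6 ∨ p = 5 * k + 10 ∨ p = 5 * k + 11 := by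
  rw [X1, Finset.mem_sdiff, mem_U, mem_E1] at hp
  by_cases hn : 1 ≤ p / 5 ∧ p / 5 ≤ k
  · by_cases h1 : p % 5 = 0
    · exact Or.inl ⟨p / 5, hn.1, hn.2, by omega⟩
    · exact Or.inr (Or.inl ⟨p / 5, hn.1, hn.2, by omega⟩)
  · right; right; omega

theorem X2_cases (k p : ℕ) (hp : p ∈ X2 k) :
    (∃ j, 1 ≤ j ∧ j ≤ k ∧ p = 5 * j + 1) ∨ (∃ j, 1 ≤ j ∧ j ≤ k ∧ p = 5 * j + 3) ∨
    p = 2 ∨ p = 3 ∨ p = 5 * k + 7 ∨ p = 5 * k + 8 ∨ p = 5 * k + 12 ∨ p = 5 * k + 13 := by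
  rw [X2, Finset.mem_sdiff, mem_U, mem_E2] at hp
  by_cases hn : 1 ≤ p / 5 ∧ p / 5 ≤ k
  · by_cases h1 : p % 5 = 1
    · exact Or.inl ⟨p / 5, hn.1, hn.2, by omega⟩
    · exact Or.inr (Or.inl ⟨p / 5, hn.1, hn.2, by omega⟩)
  · right; right; omega

theorem X1_E2 (k p : ℕ) (hp : p ∈ X1 k) : p ∈ E2 k := by
  rw [mem_E2]
  rcases X1_cases k p hp with ⟨j, h1, h2, rfl⟩ | ⟨j, h1, h2, rfl⟩ | rfl | rfl | rfl | rfl |
    rfl | rfl <;> omega

theorem X2_E1 (k p : ℕ) (hp : p ∈ X2 k) : p ∈ E1 k := by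
  rw [mem_E1]
  rcases X2_cases k p hp with ⟨j, h1, h2, rfl⟩ | ⟨j, h1, h2, rfl⟩ | rfl | rfl | rfl | rfl |
    rfl | rfl <;> omega

theorem X1_nc (k p : ℕ) (hp : p ∈ X1 k) : p % 5 ≠ 4 ∧ p < 5 * k + 15 := by
  rcases X1_cases k p hp with ⟨j, h1, h2, rfl⟩ | ⟨j, h1, h2, rfl⟩ | rfl | rfl | rfl | rfl |
    rfl | rfl <;> omega

theorem X2_nc (k p : ℕ) (hp : p ∈ X2 k) : p % 5 ≠ 4 ∧ p < 5 * k + 15 := by
  rcases X2_cases k p hp with ⟨j, h1, h2, rfl⟩ | ⟨j, h1, h2, rfl⟩ | rfl | rfl | rfl | rfl |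
    rfl | rfl <;> omega

theorem samecol (k p q : ℕ) (hp : p % 5 ≠ 4 ∧ p < 5 * k + 15) (hq : q % 5 ≠ 4 ∧ q < 5 * k + 15)
    (h : ∀ x, x % 5 = 4 → x < 5 * k + 15 → (x < p ↔ x < q)) : p / 5 = q / 5 := by
  have h1 := h (5 * (p / 5) + 4) (by omega) (by omega)
  have h2 := h (5 * (q / 5) + 4) (by omega) (by omega)
  omega

theorem cell1 (k p q : ℕ) (hp : p ∈ X1 k) (hq : q ∈ X1 k)
    (h : ∀ x ∈ E1 k, (x < p ↔ x < q) ∧ (val k x < val k p ↔ val k x < val k q)) : p = q := by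
  have hc := samecol k p q (X1_nc k p hp) (X1_nc k q hq)
    (fun x h1 h2 => (h x (mem_E1.2 (by omega))).1)
  have a2 := (h _ (m2 k)).2
  have a8 := (h _ (m8 k)).2
  have a13 := (h _ (m13 k)).2
  rw [v2] at a2
  rw [v8] at a8
  rw [v13] at a13
  by_cases hn : 1 ≤ p / 5 ∧ p / 5 ≤ k
  · have := (h (5 * (p / 5) + 1) (mem_E1.2 (by omega))).1
    clear a2 a8 a13
    rcases X1_cases k p hp with ⟨j, h1, h2, rfl⟩ | ⟨j, h1, h2, rfl⟩ | rfl | rfl | rfl | rfl |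
      rfl | rfl <;>
    rcases X1_cases k q hq with ⟨j', h1', h2', rfl⟩ | ⟨j', h1', h2', rfl⟩ | rfl | rfl | rfl | rfl |
      rfl | rfl <;> omega
  · rcases X1_cases k p hp with ⟨j, h1, h2, rfl⟩ | ⟨j, h1, h2, rfl⟩ | rfl | rfl | rfl | rfl |
      rfl | rfl <;>
    rcases X1_cases k q hq with ⟨j', h1', h2', rfl⟩ | ⟨j', h1', h2', rfl⟩ | rfl | rfl | rfl | rfl |
      rfl | rfl <;> first
      | (clear a2 a8 a13; omega)
      | (simp only [v0, v1, v5, v6, v10, v11] at a2 a8 a13; omega)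

theorem cell2 (k p q : ℕ) (hp : p ∈ X2 k) (hq : q ∈ X2 k)
    (h : ∀ x ∈ E2 k, (x < p ↔ x < q) ∧ (val k x < val k p ↔ val k x < val k q)) : p = q := by
  have hc := samecol k p q (X2_nc k p hp) (X2_nc k q hq)
    (fun x h1 h2 => (h x (mem_E2.2 (by omega))).1)
  have a2 := (h 1 (mem_E2.2 (by omega))).2
  have a13 := (h (5 * k + 10) (mem_E2.2 (by omega))).2
  rw [v1] at a2
  rw [v10] at a13
  by_cases hn : 1 ≤ p / 5 ∧ p / 5 ≤ k
  · have := (h (5 * (p / 5) + 2) (mem_E2.2 (by omega))).1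
    clear a2 a13
    rcases X2_cases k p hp with ⟨j, h1, h2, rfl⟩ | ⟨j, h1, h2, rfl⟩ | rfl | rfl | rfl | rfl |
      rfl | rfl <;>
    rcases X2_cases k q hq with ⟨j', h1', h2', rfl⟩ | ⟨j', h1', h2', rfl⟩ | rfl | rfl | rfl | rfl |
      rfl | rfl <;> omega
  · rcases X2_cases k p hp with ⟨j, h1, h2, rfl⟩ | ⟨j, h1, h2, rfl⟩ | rfl | rfl | rfl | rfl |
      rfl | rfl <;>
    rcases X2_cases k q hq with ⟨j', h1', h2', rfl⟩ | ⟨j', h1', h2', rfl⟩ | rfl | rfl | rfl | rfl |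
      rfl | rfl <;> first
      | (clear a2 a13; omega)
      | (simp only [v2, v3, v7, v8, v12, v13] at a2 a13; omega)

theorem cross (k p q : ℕ) (hp : p ∈ X1 k) (hq : q ∈ X2 k)
    (h : ∀ x ∈ E1 k, (x < p ↔ phi k x < q)) :
    ∃ j, 1 ≤ j ∧ j ≤ k ∧ p = 5 * j + 2 ∧ q = 5 * j + 1 := by
  have hc := samecol k p q (X1_nc k p hp) (X2_nc k q hq)
    (fun x h1 h2 => by
      have := h x (mem_E1.2 (by omega))
      rwa [phc k x (Or.inl h1)] at this)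
  have a2 := h _ (m2 k)
  have a7 := h _ (m7 k)
  have a12 := h _ (m12 k)
  rw [pha2] at a2
  rw [pha7] at a7
  rw [pha12] at a12
  by_cases hn : 1 ≤ p / 5 ∧ p / 5 ≤ k
  · have b1 := h (5 * (p / 5) + 1) (mem_E1.2 (by omega))
    have b3 := h (5 * (p / 5) + 3) (mem_E1.2 (by omega))
    rw [ph1 k _ hn.1 hn.2] at b1
    rw [ph3 k _ hn.1 hn.2] at b3
    refine ⟨p / 5, hn.1, hn.2, ?_⟩
    clear a2 a7 a12
    rcases X1_cases k p hp with ⟨j, h1, h2, rfl⟩ | ⟨j, h1, h2, rfl⟩ | rfl | rfl | rfl | rfl |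
      rfl | rfl <;>
    rcases X2_cases k q hq with ⟨j', h1', h2', rfl⟩ | ⟨j', h1', h2', rfl⟩ | rfl | rfl | rfl | rfl |
      rfl | rfl <;> omega
  · exfalso
    rcases X1_cases k p hp with ⟨j, h1, h2, rfl⟩ | ⟨j, h1, h2, rfl⟩ | rfl | rfl | rfl | rfl |
      rfl | rfl <;>
    rcases X2_cases k q hq with ⟨j', h1', h2', rfl⟩ | ⟨j', h1', h2', rfl⟩ | rfl | rfl | rfl | rfl |
      rfl | rfl <;> omega

theorem atom (k j : ℕ) (h1 : 1 ≤ j) (h2 : j ≤ k) :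
    pat (val k) (E1 k ∪ {5 * j + 2}) = pat (val k) (E2 k ∪ {5 * j + 1}) := by
  have hn1 : 5 * j + 2 ∉ E1 k := by rw [mem_E1]; omega
  have s1 : E1 k ∪ {5 * j + 2} ⊆ U k :=
    Finset.union_subset (E1_sub k) (by simp only [Finset.singleton_subset_iff, mem_U]; omega)
  have s2 : E2 k ∪ {5 * j + 1} ⊆ U k :=
    Finset.union_subset (E2_sub k) (by simp only [Finset.singleton_subset_iff, mem_U]; omega)
  let g : ℕ → ℕ := fun x => if x = 5 * j + 2 then 5 * j + 1 else phi k x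
  have g1 : g (5 * j + 2) = 5 * j + 1 := by simp [g]
  have g2 : ∀ x ∈ E1 k, g x = phi k x := by
    intro x hx
    have : x ≠ 5 * j + 2 := by rintro rfl; exact hn1 hx
    simp [g, this]
  have hpos : ∀ x ∈ E1 k, (x < 5 * j + 2 → phi k x < 5 * j + 1) ∧
      (5 * j + 2 < x → 5 * j + 1 < phi k x) := by
    intro x hx
    have := mem_E1.1 hx
    have := ps k x
    constructor <;> intro h <;> omega
  have hval : ∀ x ∈ E1 k, (val k x < val k (5 * j + 2) ↔ val k (phi k x) < val k (5 * j + 1)) ∧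
      (val k (5 * j + 2) < val k x ↔ val k (5 * j + 1) < val k (phi k x)) := by
    intro x hx
    have := phi_val k x hx
    have := n1 k j h1 h2
    have := n2 k j h1 h2
    refine ⟨⟨?_, ?_⟩, ⟨?_, ?_⟩⟩ <;> intro h <;> omega
  apply pat_eq_of_surj (inj_sub k s1) (inj_sub k s2) (g := g)
  · refine ⟨?_, ?_, ?_⟩
    · intro p hp
      rcases Finset.mem_union.1 hp with hp | hp
      · rw [g2 p hp]; exact Finset.mem_union_left _ ((phi_good k).1 p hp)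
      · rw [Finset.mem_singleton.1 hp, g1]; simp
    · intro p hp q hq hpq
      rcases Finset.mem_union.1 hp with hp | hp <;> rcases Finset.mem_union.1 hq with hq | hq
      · rw [g2 p hp, g2 q hq]; exact (phi_good k).2.1 p hp q hq hpq
      · rw [Finset.mem_singleton.1 hq] at hpq ⊢
        rw [g2 p hp, g1]; exact (hpos p hp).1 hpq
      · rw [Finset.mem_singleton.1 hp] at hpq ⊢
        rw [g2 q hq, g1]; exact (hpos q hq).2 hpq
      · rw [Finset.mem_singleton] at hp hq; omega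
    · intro p hp q hq
      rcases Finset.mem_union.1 hp with hp | hp <;> rcases Finset.mem_union.1 hq with hq | hq
      · rw [g2 p hp, g2 q hq]; exact (phi_good k).2.2 p hp q hq
      · rw [Finset.mem_singleton.1 hq, g2 p hp, g1]; exact (hval p hp).1
      · rw [Finset.mem_singleton.1 hp, g2 q hq, g1]; exact (hval q hq).2
      · rw [Finset.mem_singleton.1 hp, Finset.mem_singleton.1 hq]; simp
  · intro q hq
    rcases Finset.mem_union.1 hq with hq | hq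
    · obtain ⟨p, hp, rfl⟩ := phi_surj k q hq
      exact ⟨p, Finset.mem_union_left _ hp, g2 p hp⟩
    · rw [Finset.mem_singleton.1 hq]
      exact ⟨5 * j + 2, by simp, g1⟩

end Pool.Agent.H30.MobB
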