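import Pool.Agent.H30.MobD

set_option autoImplicit false
open Classical

namespace Pool.Agent.H30.MobB
open Pool.Agent.H30.MobA

theorem contain (k : ℕ) (T : Finset ℕ) (hT : T ⊆ U k) (g : ℕ → ℕ)
    (hg : Good (val k) (E1 k) T g) :
    ((∀ p ∈ E1 k, g p = p) ∧ E1 k ⊆ T) ∨ ((∀ p ∈ E1 k, g p = phi k p) ∧ E2 k ⊆ T) := by
  rcases occ k g (good_mono hg (Finset.Subset.refl _) hT) with h | h
  · left
    refine ⟨h, fun p hp => ?_⟩
    rw [← h p hp]; exact hg.1 p hp
  · right
    refine ⟨h, fun q hq => ?_⟩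
    obtain ⟨p, hp, rfl⟩ := phi_surj k q hq
    rw [← h p hp]; exact hg.1 p hp

theorem not2 (k : ℕ) (A : Finset ℕ) (hA : A ⊂ X1 k) : ¬ E2 k ⊆ E1 k ∪ A := by
  intro h
  apply hA.2
  intro p hp
  rcases Finset.mem_union.1 (h (X1_E2 k p hp)) with h1 | h1
  · exact absurd h1 (Finset.mem_sdiff.1 hp).2
  · exact h1

theorem not1 (k : ℕ) (A : Finset ℕ) (hA : A ⊂ X2 k) : ¬ E1 k ⊆ E2 k ∪ A := by
  intro h
  apply hA.2
  intro p hp
  rcases Finset.mem_union.1 (h (X2_E1 k p hp)) with h1 | h1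
  · exact absurd h1 (Finset.mem_sdiff.1 hp).2
  · exact h1

theorem sub1 (k : ℕ) {A : Finset ℕ} (hA : A ⊆ X1 k) : E1 k ∪ A ⊆ U k :=
  Finset.union_subset (E1_sub k) (hA.trans (X1_sub k))
theorem sub2 (k : ℕ) {A : Finset ℕ} (hA : A ⊆ X2 k) : E2 k ∪ A ⊆ U k :=
  Finset.union_subset (E2_sub k) (hA.trans (X2_sub k))

theorem sig_eq (k : ℕ) : pat (val k) (E1 k) = pat (val k) (E2 k) :=
  pat_eq_of_surj (inj_sub k (E1_sub k)) (inj_sub k (E2_sub k)) (phi_good k) (phi_surj k)

theorem hI1_aux (k : ℕ) (A B : Finset ℕ) (hA : A ⊂ X1 k) (hB : B ⊂ X1 k)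
    (h : pat (val k) (E1 k ∪ A) = pat (val k) (E1 k ∪ B)) : A ⊆ B := by
  obtain ⟨f, hf⟩ := good_of_le (val k) _ _ (inj_sub k (sub1 k hA.1)) (inj_sub k (sub1 k hB.1))
    (h ▸ Le.refl _)
  rcases contain k _ (sub1 k hB.1) f (good_mono hf Finset.subset_union_left
    (Finset.Subset.refl _)) with ⟨h1, -⟩ | ⟨-, h1⟩
  · intro p hp
    have hp' : p ∈ E1 k ∪ A := Finset.mem_union_right _ hp
    have hpX := hA.1 hp
    have hB' : f p ∈ B := by
      rcases Finset.mem_union.1 (hf.1 p hp') with h2 | h2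
      · exfalso
        have a := good_lt hf hp' (Finset.mem_union_left _ h2)
        have b := good_lt hf (Finset.mem_union_left _ h2) hp'
        rw [h1 _ h2] at a b
        have : p = f p := by omega
        exact (Finset.mem_sdiff.1 hpX).2 (this ▸ h2)
      · exact h2
    have := cell1 k p (f p) hpX (hB.1 hB') (fun x hx => by
      have a := good_lt hf (Finset.mem_union_left _ hx) hp'
      have b := hf.2.2 x (Finset.mem_union_left _ hx) p hp'
      rw [h1 x hx] at a b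
      exact ⟨a, b⟩)
    rw [this]; exact hB'
  · exact absurd h1 (not2 k B hB)

theorem hI2_aux (k : ℕ) (A B : Finset ℕ) (hA : A ⊂ X2 k) (hB : B ⊂ X2 k)
    (h : pat (val k) (E2 k ∪ A) = pat (val k) (E2 k ∪ B)) : A ⊆ B := by
  obtain ⟨f, hf⟩ := good_of_le (val k) _ _ (inj_sub k (sub2 k hA.1)) (inj_sub k (sub2 k hB.1))
    (h ▸ Le.refl _)
  rcases contain k _ (sub2 k hB.1) (f ∘ phi k) (good_comp (phi_good k)
    (good_mono hf Finset.subset_union_left (Finset.Subset.refl _))) with ⟨-, h1⟩ | ⟨h0, -⟩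
  · exact absurd h1 (not1 k B hB)
  · have h1 : ∀ q ∈ E2 k, f q = q := by
      intro q hq
      obtain ⟨p, hp, rfl⟩ := phi_surj k q hq
      exact h0 p hp
    intro p hp
    have hp' : p ∈ E2 k ∪ A := Finset.mem_union_right _ hp
    have hpX := hA.1 hp
    have hB' : f p ∈ B := by
      rcases Finset.mem_union.1 (hf.1 p hp') with h2 | h2
      · exfalso
        have a := good_lt hf hp' (Finset.mem_union_left _ h2)
        have b := good_lt hf (Finset.mem_union_left _ h2) hp'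
        rw [h1 _ h2] at a b
        have : p = f p := by omega
        exact (Finset.mem_sdiff.1 hpX).2 (this ▸ h2)
      · exact h2
    have := cell2 k p (f p) hpX (hB.1 hB') (fun x hx => by
      have a := good_lt hf (Finset.mem_union_left _ hx) hp'
      have b := hf.2.2 x (Finset.mem_union_left _ hx) p hp'
      rw [h1 x hx] at a b
      exact ⟨a, b⟩)
    rw [this]; exact hB'

theorem small (k : ℕ) (A B : Finset ℕ) (hA : A ⊂ X1 k) (hB : B ⊂ X2 k)
    (h : pat (val k) (E1 k ∪ A) = pat (val k) (E2 k ∪ B)) : A.card ≤ 1 := by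
  obtain ⟨f, hf⟩ := good_of_le (val k) _ _ (inj_sub k (sub1 k hA.1)) (inj_sub k (sub2 k hB.1))
    (h ▸ Le.refl _)
  rcases contain k _ (sub2 k hB.1) f (good_mono hf Finset.subset_union_left
    (Finset.Subset.refl _)) with ⟨-, h1⟩ | ⟨h1, -⟩
  · exact absurd h1 (not1 k B hB)
  have key : ∀ p ∈ A, ∃ j, 1 ≤ j ∧ j ≤ k ∧ p = 5 * j + 2 ∧ f p = 5 * j + 1 := by
    intro p hp
    have hp' : p ∈ E1 k ∪ A := Finset.mem_union_right _ hp
    have hpX := hA.1 hp
    have hB' : f p ∈ B := by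
      rcases Finset.mem_union.1 (hf.1 p hp') with h2 | h2
      · exfalso
        obtain ⟨x, hx, hx2⟩ := phi_surj k _ h2
        have a := good_lt hf hp' (Finset.mem_union_left _ hx)
        have b := good_lt hf (Finset.mem_union_left _ hx) hp'
        rw [h1 _ hx] at a b
        have : p = x := by omega
        exact (Finset.mem_sdiff.1 hpX).2 (this ▸ hx)
      · exact h2
    exact cross k p (f p) hpX (hB.1 hB') (fun x hx => by
      have a := good_lt hf (Finset.mem_union_left _ hx) hp'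
      rw [h1 x hx] at a
      exact a)
  rw [Finset.card_le_one]
  intro p hp q hq
  obtain ⟨i, i1, i2, rfl, fi⟩ := key p hp
  obtain ⟨j, j1, j2, rfl, fj⟩ := key q hq
  have a := hf.2.2 _ (Finset.mem_union_right _ hp) _ (Finset.mem_union_right _ hq)
  have b := hf.2.2 _ (Finset.mem_union_right _ hq) _ (Finset.mem_union_right _ hp)
  rw [fi, fj, n2 k i i1 i2, n2 k j j1 j2] at a b
  have := n1 k i i1 i2
  have := n1 k j j1 j2
  omega

theorem main (m : PP → PP → ℤ) (hm1 : ∀ x, m x x = 1)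
    (hm3 : ∀ x y, x ≠ y → Le x y → ∑ k ∈ Finset.range (y.1 + 1), ∑ ρ : Equiv.Perm (Fin k),
      (if Le x ⟨k, ρ⟩ ∧ Le ⟨k, ρ⟩ y then m x ⟨k, ρ⟩ else 0) = 0) (k : ℕ) :
    m (pat (val k) (E1 k)) (pat (val k) (U k)) ≤ 3 - k := by
  set σ := pat (val k) (E1 k) with hσ
  have hI1 : ∀ A B, A ⊂ X1 k → B ⊂ X1 k → pat (val k) (E1 k ∪ A) = pat (val k) (E1 k ∪ B) →
      A = B := fun A B hA hB h =>
    Finset.Subset.antisymm (hI1_aux k A B hA hB h) (hI1_aux k B A hB hA h.symm)
  have hI2 : ∀ A B, A ⊂ X2 k → B ⊂ X2 k → pat (val k) (E2 k ∪ A) = pat (val k) (E2 k ∪ B) →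
      A = B := fun A B hA hB h =>
    Finset.Subset.antisymm (hI2_aux k A B hA hB h) (hI2_aux k B A hB hA h.symm)
  have hc : ∀ T, T ⊆ U k → Le σ (pat (val k) T) → E1 k ⊆ T ∨ E2 k ⊆ T := by
    intro T hT h
    obtain ⟨g, hg⟩ := good_of_le (val k) _ _ (inj_sub k (E1_sub k)) (inj_sub k hT) h
    rcases contain k T hT g hg with h | h
    · exact Or.inl h.2
    · exact Or.inr h.2
  have b1 := boolean (val k) m hm1 hm3 (E1 k) (X1 k) (inj_sub k (sub1 k (Finset.Subset.refl _)))
    σ hσ (fun A T hA hT h => by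
      rcases hc T (hT.trans (sub1 k hA.1)) h with h | h
      · exact h
      · exact absurd (h.trans hT) (not2 k A hA)) hI1
  have b2 := boolean (val k) m hm1 hm3 (E2 k) (X2 k) (inj_sub k (sub2 k (Finset.Subset.refl _)))
    σ (sig_eq k) (fun A T hA hT h => by
      rcases hc T (hT.trans (sub2 k hA.1)) h with h | h
      · exact absurd (h.trans hT) (not1 k A hA)
      · exact h) hI2
  have x10 : 0 ∈ X1 k := by rw [X1, Finset.mem_sdiff, mem_U, mem_E1]; omega
  have x22 : 2 ∈ X2 k := by rw [X2, Finset.mem_sdiff, mem_U, mem_E2]; omega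
  have s1 := sum_side (val k) m (E1 k) (X1 k) σ ⟨0, x10⟩ hI1 b1
  have s2 := sum_side (val k) m (E2 k) (X2 k) σ ⟨2, x22⟩ hI2 b2
  set Z1 := ((X1 k).powerset.erase (X1 k)).image (fun B => pat (val k) (E1 k ∪ B)) with hZ1
  set Z2 := ((X2 k).powerset.erase (X2 k)).image (fun B => pat (val k) (E2 k ∪ B)) with hZ2
  have mZ1 : ∀ z, z ∈ Z1 ↔ ∃ B, B ⊂ X1 k ∧ pat (val k) (E1 k ∪ B) = z := by
    intro z
    simp only [hZ1, Finset.mem_image, Finset.mem_erase, Finset.mem_powerset]
    constructor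
    · rintro ⟨B, hB, rfl⟩
      exact ⟨B, lt_of_le_of_ne hB.2 hB.1, rfl⟩
    · rintro ⟨B, hB, rfl⟩
      exact ⟨B, ⟨hB.ne, hB.1⟩, rfl⟩
  have mZ2 : ∀ z, z ∈ Z2 ↔ ∃ B, B ⊂ X2 k ∧ pat (val k) (E2 k ∪ B) = z := by
    intro z
    simp only [hZ2, Finset.mem_image, Finset.mem_erase, Finset.mem_powerset]
    constructor
    · rintro ⟨B, hB, rfl⟩
      exact ⟨B, lt_of_le_of_ne hB.2 hB.1, rfl⟩
    · rintro ⟨B, hB, rfl⟩
      exact ⟨B, ⟨hB.ne, hB.1⟩, rfl⟩
  set τ := pat (val k) (U k) with hτ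
  have hlt : ∀ T, T ⊂ U k → pat (val k) T ≠ τ := by
    intro T hT h
    have h1 : (pat (val k) T).1 = τ.1 := by rw [h]
    have h2 : T.card = (U k).card := h1
    have := Finset.card_lt_card hT
    omega
  have ss1 : ∀ B, B ⊂ X1 k → E1 k ∪ B ⊂ U k := by
    intro B hB
    refine ⟨sub1 k hB.1, fun h => not2 k B hB ((E2_sub k).trans h)⟩
  have ss2 : ∀ B, B ⊂ X2 k → E2 k ∪ B ⊂ U k := by
    intro B hB
    refine ⟨sub2 k hB.1, fun h => not1 k B hB ((E1_sub k).trans h)⟩
  have hne : σ ≠ τ := by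
    have := hlt _ (ss1 ∅ (Finset.Nonempty.empty_ssubset ⟨0, x10⟩))
    simpa using this
  have hle : Le σ τ := le_of_subset _ _ _ (val_inj k) (E1_sub k)
  have hτn : τ ∉ Z1 ∪ Z2 := by
    rw [Finset.mem_union, mZ1, mZ2]
    rintro (⟨B, hB, h⟩ | ⟨B, hB, h⟩)
    · exact hlt _ (ss1 B hB) h
    · exact hlt _ (ss2 B hB) h
  have hs := sum_interval m σ τ (hm3 _ _ hne hle) (insert τ (Z1 ∪ Z2)) (by
    intro z
    rw [Finset.mem_insert, Finset.mem_union, mZ1, mZ2]
    constructor
    · rintro (rfl | ⟨B, hB, rfl⟩ | ⟨B, hB, rfl⟩)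
      · exact ⟨hle, Le.refl _⟩
      · exact ⟨le_of_subset _ _ _ (inj_sub k (sub1 k hB.1)) Finset.subset_union_left,
          le_of_subset _ _ _ (val_inj k) (sub1 k hB.1)⟩
      · refine ⟨?_, le_of_subset _ _ _ (val_inj k) (sub2 k hB.1)⟩
        rw [hσ, sig_eq]
        exact le_of_subset _ _ _ (inj_sub k (sub2 k hB.1)) Finset.subset_union_left
    · rintro ⟨h1, h2⟩
      obtain ⟨T, hT, rfl⟩ := exists_pat _ z _ (val_inj k) h2
      by_cases hTU : T = U k
      · left; rw [hTU]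
      right
      rcases hc T hT h1 with h | h
      · left
        refine ⟨T \ E1 k, ⟨Finset.sdiff_subset_sdiff hT (Finset.Subset.refl _), ?_⟩, ?_⟩
        · intro h3
          apply hTU
          apply Finset.Subset.antisymm hT
          rw [← EX1]
          exact Finset.union_subset h (h3.trans Finset.sdiff_subset)
        · rw [Finset.union_sdiff_of_subset h]
      · right
        refine ⟨T \ E2 k, ⟨Finset.sdiff_subset_sdiff hT (Finset.Subset.refl _), ?_⟩, ?_⟩
        · intro h3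
          apply hTU
          apply Finset.Subset.antisymm hT
          rw [← EX2]
          exact Finset.union_subset h (h3.trans Finset.sdiff_subset)
        · rw [Finset.union_sdiff_of_subset h])
  rw [Finset.sum_insert hτn] at hs
  have hu := Finset.sum_union_inter (s₁ := Z1) (s₂ := Z2) (f := fun z => m σ z)
  have hσW : σ ∈ Z1 ∩ Z2 := by
    rw [Finset.mem_inter, mZ1, mZ2]
    refine ⟨⟨∅, Finset.Nonempty.empty_ssubset ⟨0, x10⟩, by simp [hσ]⟩,
      ⟨∅, Finset.Nonempty.empty_ssubset ⟨2, x22⟩, by simp [hσ, sig_eq]⟩⟩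
  have hW : ∑ z ∈ Z1 ∩ Z2, m σ z ≤ 1 - k := by
    rw [← Finset.add_sum_erase _ _ hσW, hm1]
    have e1 : ∀ z ∈ (Z1 ∩ Z2).erase σ, m σ z = -1 := by
      intro z hz
      rw [Finset.mem_erase, Finset.mem_inter, mZ1, mZ2] at hz
      obtain ⟨hz0, ⟨A, hA, rfl⟩, ⟨B, hB, h⟩⟩ := hz
      have c := small k A B hA hB h.symm
      have c0 : A.card ≠ 0 := by
        intro h0
        rw [Finset.card_eq_zero] at h0
        apply hz0
        rw [h0]; simp [hσ]
      rw [b1 A hA, show A.card = 1 by omega]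
      norm_num
    rw [Finset.sum_congr rfl e1]
    have sa : ∀ j, 1 ≤ j → j ≤ k → ({5 * j + 2} : Finset ℕ) ⊂ X1 k := by
      intro j h1 h2
      refine ⟨?_, fun h => ?_⟩
      · rw [Finset.singleton_subset_iff, X1, Finset.mem_sdiff, mem_U, mem_E1]; omega
      · have := h x10
        simp at this
    have sb : ∀ j, 1 ≤ j → j ≤ k → ({5 * j + 1} : Finset ℕ) ⊂ X2 k := by
      intro j h1 h2
      refine ⟨?_, fun h => ?_⟩
      · rw [Finset.singleton_subset_iff, X2, Finset.mem_sdiff, mem_U, mem_E2]; omega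
      · have := h x22
        simp only [Finset.mem_singleton] at this
        omega
    have e2 : (Finset.Icc 1 k).card ≤ ((Z1 ∩ Z2).erase σ).card := by
      apply Finset.card_le_card_of_injOn (fun j => pat (val k) (E1 k ∪ {5 * j + 2}))
      · intro j hj
        have hj := Finset.mem_Icc.1 hj
        simp only [Finset.mem_coe, Finset.mem_erase, Finset.mem_inter, mZ1, mZ2]
        refine ⟨fun h => ?_, ⟨_, sa j hj.1 hj.2, rfl⟩, ⟨_, sb j hj.1 hj.2, (atom k j hj.1 hj.2).symm⟩⟩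
        have := hI1 _ ∅ (sa j hj.1 hj.2) (Finset.Nonempty.empty_ssubset ⟨0, x10⟩)
          (by rw [h]; simp [hσ])
        simp at this
      · intro i hi j hj h
        have hi := Finset.mem_Icc.1 hi
        have hj := Finset.mem_Icc.1 hj
        have := hI1 _ _ (sa i hi.1 hi.2) (sa j hj.1 hj.2) h
        simp only [Finset.singleton_inj] at this
        omega
    simp only [Nat.card_Icc, Nat.add_sub_cancel] at e2
    simp only [Finset.sum_const, smul_neg, nsmul_eq_mul, mul_one]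
    have : (k : ℤ) ≤ ((Z1 ∩ Z2).erase σ).card := by exact_mod_cast e2
    linarith
  linarith

theorem count (k : ℕ) :
    {e | Emb (pat (val k) (E1 k)) (pat (val k) (U k)) e}.ncard ≤ 2 := by
  have key : ∀ e, Emb (pat (val k) (E1 k)) (pat (val k) (U k)) e →
      (∀ i, (U k).orderEmbOfFin rfl (e i) = (E1 k).orderEmbOfFin rfl i) ∨
      (∀ i, (U k).orderEmbOfFin rfl (e i) = phi k ((E1 k).orderEmbOfFin rfl i)) := by
    intro e he
    obtain ⟨g, hg, hg2⟩ := good_of_emb (val k) _ _ (inj_sub k (E1_sub k)) (val_inj k) e he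
    rcases occ k g hg with h | h
    · left; intro i; rw [← hg2, h _ ((E1 k).orderEmbOfFin_mem rfl i)]
    · right; intro i; rw [← hg2, h _ ((E1 k).orderEmbOfFin_mem rfl i)]
  have := Set.ncard_le_ncard_of_injOn (s := {e | Emb (pat (val k) (E1 k)) (pat (val k) (U k)) e})
    (t := (Set.univ : Set Bool))
    (fun e => decide (∀ i, (U k).orderEmbOfFin rfl (e i) = (E1 k).orderEmbOfFin rfl i))
    (fun _ _ => Set.mem_univ _) (by
      intro e he e' he' h
      simp only [decide_eq_decide] at h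
      funext i
      apply ((U k).orderEmbOfFin rfl).injective
      by_cases h1 : ∀ i, (U k).orderEmbOfFin rfl (e i) = (E1 k).orderEmbOfFin rfl i
      · exact (h1 i).trans ((h.1 h1) i).symm
      · have h2 := mt h.2 h1
        exact (((key e he).resolve_left h1) i).trans (((key e' he').resolve_left h2) i).symm)
    Set.finite_univ
  simpa [Set.ncard_univ] using this

end Pool.Agent.H30.MobB
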