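import Mathlib

/-! Good subgroups of HNN extensions and unrestricted wreath products with the integers. -/

namespace Pool.Agent.H30.NB

open HNNExtension HNNExtension.NormalWord Function

theorem hnn_good {G : Type} [Group G] {A B : Subgroup G} (φ : A ≃* B) (T : Subgroup G)
    (hT : ∀ a : A, (a : G) ∈ T ↔ (φ a : G) ∈ T) :
    ∃ T' : Subgroup (HNNExtension G A B φ), t ∈ T' ∧ ∀ g, of g ∈ T' ↔ g ∈ T := by
  let P : HNNExtension G A B φ → Prop := fun z => ∃ w : ReducedWord G A B,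
    w.prod φ = z ∧ w.head ∈ T ∧ ∀ p ∈ w.toList, p.2 ∈ T
  have h1 : ∀ g ∈ T, ∀ z, P z → P (of g * z) := by
    rintro g hg z ⟨w, rfl, h1, h2⟩
    exact ⟨⟨g * w.head, w.toList, w.chain⟩, by simp [ReducedWord.prod, mul_assoc],
      T.mul_mem hg h1, h2⟩
  have h2 : ∀ u : ℤˣ, ∀ z, P z → P (t ^ (u : ℤ) * z) := by
    rintro u z ⟨⟨g, l, hc⟩, rfl, h1, h2⟩
    by_cases hx : l.IsChain (fun a b => a.2 ∈ toSubgroup A B a.1 → a.1 = b.1) ∧
        ∀ b ∈ l.head?, g ∈ toSubgroup A B u → u = b.1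
    · refine ⟨⟨1, (u, g) :: l, List.isChain_cons.2 ⟨hx.2, hc⟩⟩, by simp [ReducedWord.prod, mul_assoc],
        T.one_mem, ?_⟩
      intro p hp
      rcases List.mem_cons.1 hp with rfl | hp
      · exact h1
      · exact h2 p hp
    · rcases l with _ | ⟨⟨v, g'⟩, l⟩
      · exact absurd ⟨hc, by simp⟩ hx
      have hx' : g ∈ toSubgroup A B u ∧ u ≠ v := by
        by_contra hn
        refine hx ⟨hc, ?_⟩
        intro b hb hg
        obtain rfl : (v, g') = b := by simpa using hb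
        by_contra h
        exact hn ⟨hg, h⟩
      have hg' : g' ∈ T := h2 (v, g') (by simp)
      have hl : ∀ p ∈ l, p.2 ∈ T := fun p hp => h2 p (by simp [hp])
      rcases Int.units_eq_one_or u with rfl | rfl <;> rcases Int.units_eq_one_or v with rfl | rfl
      · exact absurd rfl hx'.2
      · refine ⟨⟨(φ ⟨g, hx'.1⟩ : G) * g', l, hc.tail⟩, ?_, T.mul_mem ((hT ⟨g, hx'.1⟩).1 h1) hg', hl⟩
        simp [ReducedWord.prod, mul_assoc, equiv_eq_conj]
      · refine ⟨⟨(φ.symm ⟨g, hx'.1⟩ : G) * g', l, hc.tail⟩, ?_,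
          T.mul_mem ((hT _).2 (by simpa using h1)) hg', hl⟩
        simp [ReducedWord.prod, mul_assoc, equiv_symm_eq_conj]
      · exact absurd rfl hx'.2
  refine ⟨Subgroup.closure (of '' (T : Set G) ∪ {t}), Subgroup.subset_closure (by simp), fun g =>
    ⟨fun hg => ?_, fun hg => Subgroup.subset_closure (Or.inl ⟨g, hg, rfl⟩)⟩⟩
  have key : ∀ z ∈ Subgroup.closure (of '' (T : Set G) ∪ {(t : HNNExtension G A B φ)}), P z := by
    intro z hz
    induction hz using Subgroup.closure_induction_left with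
    | one => exact ⟨ReducedWord.empty G A B, by simp [ReducedWord.prod], T.one_mem, by simp⟩
    | mul_left x hx y _ ih =>
      rcases hx with ⟨a, ha, rfl⟩ | rfl
      · exact h1 a ha y ih
      · simpa using h2 1 y ih
    | inv_mul_cancel x hx y _ ih =>
      rcases hx with ⟨a, ha, rfl⟩ | rfl
      · simpa using h1 a⁻¹ (T.inv_mem ha) y ih
      · simpa using h2 (-1) y ih
  obtain ⟨w, e, h3, -⟩ := key _ hg
  have h4 := ReducedWord.toList_eq_nil_of_mem_of_range φ w ⟨g, e.symm⟩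
  have : (of w.head : HNNExtension G A B φ) = of g := by simpa [ReducedWord.prod, h4] using e
  exact of_injective φ this ▸ h3

theorem hnn_step {G L : Type} [Group G] [Group L] (e1 e2 : L →* G) (h1 : Injective e1)
    (h2 : Injective e2) (T : Subgroup G) (hT : ∀ g, e1 g ∈ T ↔ e2 g ∈ T) :
    ∃ (G' : Type) (_ : Group G') (ι : G →* G') (T' : Subgroup G'), Injective ι ∧
      (∀ g, ι g ∈ T' ↔ g ∈ T) ∧ ∃ r ∈ T', ∀ g, r * ι (e1 g) * r⁻¹ = ι (e2 g) := by
  let φ : e1.range ≃* e2.range := (MonoidHom.ofInjective h1).symm.trans (MonoidHom.ofInjective h2)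
  have hφ : ∀ g, (φ ⟨e1 g, g, rfl⟩ : G) = e2 g := by
    intro g
    have : (MonoidHom.ofInjective h1).symm ⟨e1 g, g, rfl⟩ = g :=
      (MulEquiv.symm_apply_eq _).2 (Subtype.ext (MonoidHom.ofInjective_apply h1).symm)
    simp [φ, this, MonoidHom.ofInjective_apply]
  obtain ⟨T', ht, hT'⟩ := hnn_good φ T (by
    rintro ⟨_, g, rfl⟩
    rw [hφ]
    exact hT g)
  refine ⟨_, inferInstance, of, T', of_injective φ, hT', t, ht, fun g => ?_⟩
  rw [← hφ, equiv_eq_conj]

theorem hnn_list {G L : Type} [Group G] [Group L] (T : Subgroup G)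
    (l : List ((L →* G) × (L →* G)))
    (h : ∀ p ∈ l, Injective p.1 ∧ Injective p.2 ∧ ∀ g, p.1 g ∈ T ↔ p.2 g ∈ T) :
    ∃ (G' : Type) (_ : Group G') (ι : G →* G') (T' : Subgroup G'), Injective ι ∧
      (∀ g, ι g ∈ T' ↔ g ∈ T) ∧ ∀ p ∈ l, ∃ r ∈ T', ∀ g, r * ι (p.1 g) * r⁻¹ = ι (p.2 g) := by
  induction l with
  | nil => exact ⟨G, inferInstance, MonoidHom.id G, T, injective_id, fun _ => Iff.rfl, by simp⟩
  | cons p l ih =>
    obtain ⟨G1, _, ι, T1, a1, a2, a3⟩ := ih fun q hq => h q (by simp [hq])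
    obtain ⟨b1, b2, b3⟩ := h p (by simp)
    obtain ⟨G2, _, κ, T2, c1, c2, c3⟩ := hnn_step (ι.comp p.1) (ι.comp p.2) (a1.comp b1)
      (a1.comp b2) T1 fun g => by simp [a2, b3]
    refine ⟨G2, inferInstance, κ.comp ι, T2, c1.comp a1, fun g => by simp [a2, c2], ?_⟩
    intro q hq
    rcases List.mem_cons.1 hq with rfl | hq
    · exact c3
    · obtain ⟨r, hr, e⟩ := a3 q hq
      exact ⟨κ r, (c2 r).2 hr, fun g => by simp [← e]⟩

/-- An overgroup with an element whose centraliser meets the group in a given subgroup. -/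
theorem exists_cent {G : Type} [Group G] (T : Subgroup G) :
    ∃ (G' : Type) (_ : Group G') (ρ : G →* G') (k : G'), ∀ g, Commute k (ρ g) ↔ g ∈ T := by
  classical
  let ρ : G →* Equiv.Perm (Option (G ⧸ T)) :=
    { toFun := fun g => (MulAction.toPerm g).optionCongr
      map_one' := by ext (_ | c) <;> simp
      map_mul' := fun a b => by ext (_ | c) <;> simp [mul_smul] }
  have hn : ∀ g, ρ g none = none := fun _ => rfl
  have hs : ∀ g a : G, ρ g (some (a : G ⧸ T)) = some ((g * a : G) : G ⧸ T) := fun _ _ => rfl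
  refine ⟨_, inferInstance, ρ, Equiv.swap none (some ((1 : G) : G ⧸ T)), fun g => ⟨fun h => ?_,
    fun h => ?_⟩⟩
  · have := congrArg (· none) h.eq
    simp only [Equiv.Perm.mul_apply, hn, Equiv.swap_apply_left, hs, mul_one,
      Option.some.injEq] at this
    simpa using QuotientGroup.eq.1 this
  · refine Commute.symm ?_
    have e : ((g : G) : G ⧸ T) = ((1 : G) : G ⧸ T) := (QuotientGroup.eq.2 (by simpa using h)).symm
    rw [Commute, SemiconjBy, Equiv.mul_swap_eq_swap_mul, hn, hs, mul_one, e]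

/-- commutator -/
def cm {G : Type} [Group G] (a b : G) : G := a * b * a⁻¹ * b⁻¹

theorem map_cm {G H : Type} [Group G] [Group H] (φ : G →* H) (a b : G) :
    φ (cm a b) = cm (φ a) (φ b) := by simp [cm]

theorem cm_eq_one {G : Type} [Group G] {a b : G} : cm a b = 1 ↔ Commute a b := by
  rw [cm, mul_inv_eq_one, mul_inv_eq_iff_eq_mul]; rfl

/-- The unrestricted wreath product with the integers. -/
@[ext] structure Wr (Γ : Type) where
  f : ℤ → Γ
  n : ℤ

namespace Wr
variable {Γ : Type} [Group Γ]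

instance : Mul (Wr Γ) := ⟨fun a b => ⟨fun i => a.f i * b.f (i - a.n), a.n + b.n⟩⟩
instance : One (Wr Γ) := ⟨⟨fun _ => 1, 0⟩⟩
instance : Inv (Wr Γ) := ⟨fun a => ⟨fun i => (a.f (i + a.n))⁻¹, -a.n⟩⟩

@[simp] theorem mul_f (a b : Wr Γ) (i : ℤ) : (a * b).f i = a.f i * b.f (i - a.n) := rfl
@[simp] theorem mul_n (a b : Wr Γ) : (a * b).n = a.n + b.n := rfl
@[simp] theorem one_f (i : ℤ) : (1 : Wr Γ).f i = 1 := rfl
@[simp] theorem one_n : (1 : Wr Γ).n = 0 := rfl
@[simp] theorem inv_f (a : Wr Γ) (i : ℤ) : a⁻¹.f i = (a.f (i + a.n))⁻¹ := rfl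
@[simp] theorem inv_n (a : Wr Γ) : a⁻¹.n = -a.n := rfl

instance : Group (Wr Γ) := Group.ofLeftAxioms
  (fun a b c => by ext i <;> simp [mul_assoc, sub_sub, add_assoc])
  (fun a => by ext i <;> simp)
  (fun a => by ext i <;> simp)

/-- pure shifts -/
def sh (n : ℤ) : Wr Γ := ⟨fun _ => 1, n⟩

@[simp] theorem sh_f (n i : ℤ) : (sh n : Wr Γ).f i = 1 := rfl
@[simp] theorem sh_n (n : ℤ) : (sh n : Wr Γ).n = n := rfl

theorem sh_pow (m : ℤ) (k : ℕ) : (sh m : Wr Γ) ^ k = sh (m * k) := by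
  induction k with
  | zero => ext i <;> simp
  | succ k ih => rw [pow_succ, ih]; ext i <;> simp [mul_add]

theorem pow_n (a : Wr Γ) (k : ℕ) : (a ^ k).n = k * a.n := by
  induction k with
  | zero => simp
  | succ k ih => rw [pow_succ, mul_n, ih]; push_cast; ring

/-- one coordinate -/
def pt : Γ →* Wr Γ where
  toFun g := ⟨fun i => if i = 0 then g else 1, 0⟩
  map_one' := by ext i <;> simp
  map_mul' a b := by
    ext i
    · by_cases h : i = 0 <;> simp [h]
    · simp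

@[simp] theorem pt_f (g : Γ) (i : ℤ) : (pt g).f i = if i = 0 then g else 1 := rfl
@[simp] theorem pt_n (g : Γ) : (pt g).n = 0 := rfl

theorem pt_inj : Injective (pt : Γ →* Wr Γ) := fun a b h => by
  simpa using congrArg (fun z => z.f 0) h

theorem pt_comm (g : Γ) : ∃ A : Wr Γ, pt g = cm A (sh 1) := by
  refine ⟨⟨fun i => if 0 ≤ i then g else 1, 0⟩, ?_⟩
  ext i
  · simp only [cm, pt_f, mul_f, mul_n, inv_f, inv_n, sh_f, sh_n]
    split_ifs <;> first | omega | simp
  · simp [cm]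

end Wr

end Pool.Agent.H30.NB
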