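import Pool.Agent.H30.OmlDefs

/-! Orthomodular lattices, Sasaki projections and subspace models. -/

namespace Pool.Agent.H30.Oml

open Function

class OML (L : Type) extends Lattice L, BoundedOrder L where
  c : L → L
  cc : ∀ a, c (c a) = a
  c_sup : ∀ a b, c (a ⊔ b) = c a ⊓ c b
  inf_c : ∀ a, a ⊓ c a = ⊥
  sup_c : ∀ a, a ⊔ c a = ⊤
  om : ∀ a b, a ⊔ b = a ⊔ ((a ⊔ b) ⊓ c a)

open OML

variable {L : Type} [OML L] {k : ℕ}

def Term.eval (v : Fin k → L) : Term k → L
  | .var i => v i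
  | .bot => ⊥
  | .top => ⊤
  | .sup s t => s.eval v ⊔ t.eval v
  | .inf s t => s.eval v ⊓ t.eval v
  | .c s => OML.c (s.eval v)

theorem Deriv.sound {R : List (Term k × Term k)} {v : Fin k → L}
    (h : ∀ e ∈ R, e.1.eval v = e.2.eval v) {s t : Term k} (d : Deriv R s t) :
    s.eval v = t.eval v := by
  induction d with
  | rel hr => exact h _ hr
  | refl => rfl
  | symm _ ih => exact ih.symm
  | trans _ _ a b => exact a.trans b
  | sup _ _ a b => simp only [Term.eval, a, b]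
  | inf _ _ a b => simp only [Term.eval, a, b]
  | c _ a => simp only [Term.eval, a]
  | sup_comm => exact _root_.sup_comm _ _
  | sup_assoc => exact _root_.sup_assoc _ _ _
  | inf_comm => exact _root_.inf_comm _ _
  | inf_assoc => exact _root_.inf_assoc _ _ _
  | sup_inf => exact sup_inf_self
  | inf_sup => exact inf_sup_self
  | bot_sup => exact bot_sup_eq _
  | sup_top => exact sup_top_eq _
  | cc => exact OML.cc _
  | c_sup => exact OML.c_sup _ _
  | inf_c => exact OML.inf_c _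
  | sup_c => exact OML.sup_c _
  | om => exact OML.om _ _

theorem Deriv.complete {R : List (Term k × Term k)} {s t : Term k}
    (h : ∀ (L : Type) [OML L] (v : Fin k → L), (∀ e ∈ R, e.1.eval v = e.2.eval v) →
      s.eval v = t.eval v) : Deriv R s t := by
  let S : Setoid (Term k) := ⟨Deriv R, ⟨.refl, .symm, .trans⟩⟩
  let : Max (Quotient S) := ⟨Quotient.map₂ .sup fun _ _ a _ _ b => .sup a b⟩
  let : Min (Quotient S) := ⟨Quotient.map₂ .inf fun _ _ a _ _ b => .inf a b⟩
  let lat : Lattice (Quotient S) := Lattice.mk'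
    (by rintro ⟨a⟩ ⟨b⟩; exact Quotient.sound (.sup_comm a b))
    (by rintro ⟨a⟩ ⟨b⟩ ⟨d⟩; exact Quotient.sound (.sup_assoc a b d))
    (by rintro ⟨a⟩ ⟨b⟩; exact Quotient.sound (.inf_comm a b))
    (by rintro ⟨a⟩ ⟨b⟩ ⟨d⟩; exact Quotient.sound (.inf_assoc a b d))
    (by rintro ⟨a⟩ ⟨b⟩; exact Quotient.sound (.sup_inf a b))
    (by rintro ⟨a⟩ ⟨b⟩; exact Quotient.sound (.inf_sup a b))
  let : OML (Quotient S) :=
    { lat with
      top := ⟦.top⟧
      bot := ⟦.bot⟧
      le_top := by rintro ⟨a⟩; exact sup_eq_right.1 (Quotient.sound (.sup_top a))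
      bot_le := by rintro ⟨a⟩; exact sup_eq_right.1 (Quotient.sound (.bot_sup a))
      c := Quotient.map .c fun _ _ a => .c a
      cc := by rintro ⟨a⟩; exact Quotient.sound (.cc a)
      c_sup := by rintro ⟨a⟩ ⟨b⟩; exact Quotient.sound (.c_sup a b)
      inf_c := by rintro ⟨a⟩; exact Quotient.sound (.inf_c a)
      sup_c := by rintro ⟨a⟩; exact Quotient.sound (.sup_c a)
      om := by rintro ⟨a⟩ ⟨b⟩; exact Quotient.sound (.om a b) }
  have key : ∀ u : Term k, u.eval (fun i => (⟦.var i⟧ : Quotient S)) = ⟦u⟧ := by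
    intro u
    induction u with
    | var => rfl
    | bot => rfl
    | top => rfl
    | sup _ _ a b => simp only [Term.eval, a, b]; rfl
    | inf _ _ a b => simp only [Term.eval, a, b]; rfl
    | c _ a => simp only [Term.eval, a]; rfl
  have := h (Quotient S) (fun i => ⟦.var i⟧) fun e he => by
    rw [key, key]; exact Quotient.sound (.rel he)
  rw [key, key] at this
  exact Quotient.exact this

theorem om' {u b : L} (h : u ≤ b) : b ⊓ (c b ⊔ u) = u := by
  have h1 : c u = c b ⊔ c u := by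
    have := c_sup u b
    rw [sup_eq_right.2 h] at this
    rw [this, sup_eq_right.2 inf_le_left]
  have h2 := om (c b) (c u)
  rw [← h1, cc] at h2
  have h3 := congrArg c h2
  rw [cc, c_sup, cc] at h3
  have h4 := congrArg c (c_sup u (c b))
  rw [cc, cc] at h4
  rw [← h4, sup_comm] at h3
  exact h3.symm

/-- Sasaki projection -/
def sa (a x : L) : L := a ⊓ (c a ⊔ x)

/-- commutation -/
def Cm (a b : L) : Prop := a = a ⊓ b ⊔ a ⊓ c b

theorem sa_le {b u1 u2 : L} (h1 : u1 ≤ b) (h2 : u2 ≤ c b) : b ⊓ (c b ⊔ (u1 ⊔ u2)) = u1 := by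
  rw [sup_comm u1, ← sup_assoc, sup_eq_left.2 h2, om' h1]

theorem sa_sa {a b : L} (h1 : Cm (c a) b) (h2 : Cm b a) (x : L) :
    sa a (sa b x) = a ⊓ b ⊓ (c a ⊔ c b ⊔ x) := by
  unfold sa
  apply le_antisymm
  · refine le_inf (le_inf inf_le_left ?_) (inf_le_right.trans ?_)
    · refine (inf_le_inf_left _ (sup_le_sup_left inf_le_left _)).trans ?_
      conv_lhs => rw [h2]
      rw [sa_le inf_le_right inf_le_right]
      exact inf_le_left
    · rw [sup_assoc]
      exact sup_le_sup_left inf_le_right _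
  · refine le_inf (inf_le_left.trans inf_le_left) ?_
    have e : c b ⊔ x = c b ⊔ b ⊓ (c b ⊔ x) := by
      conv_lhs => rw [om (c b) x, cc, inf_comm]
    generalize hz : b ⊓ (c b ⊔ x) = z at e
    have hb : z ≤ b := hz ▸ inf_le_left
    have e2 : c a ⊔ c b ⊔ x = c b ⊔ ((c a ⊓ b ⊔ z) ⊔ c a ⊓ c b) := by
      rw [sup_assoc, e, sup_right_comm (c a ⊓ b), ← h1, sup_left_comm]
    rw [e2, inf_assoc, sa_le (sup_le inf_le_right hb) inf_le_right]
    exact inf_le_right.trans (sup_le_sup_right inf_le_left _)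

/-- full commutation -/
def Cm4 (a b : L) : Prop := Cm a b ∧ Cm b a ∧ Cm (c a) b ∧ Cm (c b) a

theorem Cm4.comm {a b : L} (h : Cm4 a b) : Function.Commute (sa a) (sa b) := fun x => by
  rw [sa_sa h.2.2.1 h.2.1, sa_sa h.2.2.2 h.1, inf_comm a, sup_comm (c a)]

theorem sa_bot (a : L) : sa a ⊥ = ⊥ := by rw [sa, sup_bot_eq, inf_c]

section
variable {J : Type} [Fintype J]

/-- the standard form -/
def bf (J : Type) [Fintype J] : LinearMap.BilinForm ℚ (J → ℚ) := dotProductBilin ℚ ℚ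

theorem bf_apply (x y : J → ℚ) : bf J x y = x ⬝ᵥ y := rfl

theorem bf_refl : (bf J).IsRefl := fun x y h => by rwa [bf_apply, dotProduct_comm]

theorem bf_disj (W : Submodule ℚ (J → ℚ)) : Disjoint W ((bf J).orthogonal W) :=
  Submodule.disjoint_def.2 fun x h1 h2 => dotProduct_self_eq_zero.1 (h2 x h1)

theorem bf_sup (W : Submodule ℚ (J → ℚ)) : W ⊔ (bf J).orthogonal W = ⊤ :=
  ((LinearMap.BilinForm.isCompl_orthogonal_iff_disjoint bf_refl).2 (bf_disj W)).sup_eq_top

noncomputable instance subOML : OML (Submodule ℚ (J → ℚ)) where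
  c := (bf J).orthogonal
  cc := LinearMap.BilinForm.orthogonal_orthogonal
    ⟨fun x h => dotProduct_self_eq_zero.1 (h x), fun x h => dotProduct_self_eq_zero.1 (h x)⟩ bf_refl
  c_sup a b := by
    refine le_antisymm (le_inf (LinearMap.BilinForm.orthogonal_le le_sup_left)
      (LinearMap.BilinForm.orthogonal_le le_sup_right)) fun x hx y hy => ?_
    obtain ⟨p, hp, q, hq, rfl⟩ := Submodule.mem_sup.1 hy
    have h1 : bf J p x = 0 := hx.1 p hp
    have h2 : bf J q x = 0 := hx.2 q hq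
    show bf J (p + q) x = 0
    simp [h1, h2]
  inf_c a := (bf_disj a).eq_bot
  sup_c a := bf_sup a
  om a b := by
    rw [inf_comm, ← sup_inf_assoc_of_le _ le_sup_left, bf_sup, top_inf_eq]

theorem mem_c {W : Submodule ℚ (J → ℚ)} {x : J → ℚ} : x ∈ c W ↔ ∀ y ∈ W, y ⬝ᵥ x = 0 := Iff.rfl

/-- symmetric idempotent -/
def IsPr (P : Module.End ℚ (J → ℚ)) : Prop :=
  (∀ x, P (P x) = P x) ∧ ∀ x y, P x ⬝ᵥ y = x ⬝ᵥ P y

theorem IsPr.mem_range {P : Module.End ℚ (J → ℚ)} (h : IsPr P) {x : J → ℚ} :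
    x ∈ LinearMap.range P ↔ P x = x := ⟨by rintro ⟨y, rfl⟩; exact h.1 y, fun e => ⟨x, e⟩⟩

theorem IsPr.mem_c {P : Module.End ℚ (J → ℚ)} (h : IsPr P) {x : J → ℚ} :
    x ∈ c (LinearMap.range P) ↔ P x = 0 := by
  rw [Oml.mem_c]
  refine ⟨fun H => dotProduct_self_eq_zero.1 ?_, ?_⟩
  · rw [← h.2]
    exact (h.2 _ _).trans ((dotProduct_comm _ _).trans ((h.2 _ _).trans
      ((dotProduct_comm _ _).trans (H _ ⟨_, rfl⟩))))
  · rintro H _ ⟨y, rfl⟩
    rw [h.2, H, dotProduct_zero]

theorem IsPr.sa {P : Module.End ℚ (J → ℚ)} (h : IsPr P) (W : Submodule ℚ (J → ℚ)) :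
    sa (LinearMap.range P) W = W.map P := by
  ext x
  constructor
  · rintro ⟨h1, h2⟩
    obtain ⟨p, hp, q, hq, rfl⟩ := Submodule.mem_sup.1 h2
    refine ⟨q, hq, ?_⟩
    rw [← h.mem_range.1 h1, map_add, h.mem_c.1 hp, zero_add]
  · rintro ⟨q, hq, rfl⟩
    exact ⟨⟨q, rfl⟩, Submodule.mem_sup.2 ⟨P q - q, h.mem_c.2 (by simp [h.1]), q, hq, by simp⟩⟩

theorem cm_of {P : Module.End ℚ (J → ℚ)} (h : IsPr P) {W : Submodule ℚ (J → ℚ)}
    (hW : ∀ x ∈ W, P x ∈ W) : Cm W (LinearMap.range P) := by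
  refine le_antisymm (fun x hx => ?_) (sup_le inf_le_left inf_le_left)
  have h1 : P x ∈ W ⊓ LinearMap.range P := ⟨hW x hx, x, rfl⟩
  have h2 : x - P x ∈ W ⊓ c (LinearMap.range P) :=
    ⟨W.sub_mem hx (hW x hx), h.mem_c.2 (by simp [h.1])⟩
  simpa using Submodule.add_mem_sup h1 h2

theorem cm4_of {P Q : Module.End ℚ (J → ℚ)} (h : IsPr P) (h' : IsPr Q)
    (e : ∀ x, P (Q x) = Q (P x)) : Cm4 (LinearMap.range P) (LinearMap.range Q) :=
  ⟨cm_of h' fun x hx => h.mem_range.2 (by rw [e, h.mem_range.1 hx]),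
    cm_of h fun x hx => h'.mem_range.2 (by rw [← e, h'.mem_range.1 hx]),
    cm_of h' fun x hx => h.mem_c.2 (by rw [e, h.mem_c.1 hx, map_zero]),
    cm_of h fun x hx => h'.mem_c.2 (by rw [← e, h'.mem_c.1 hx, map_zero])⟩

/-- masked averaging along an involution -/
def pj (s : J → J) (U : J → Bool) : Module.End ℚ (J → ℚ) where
  toFun f j := if U j then (f j + f (s j)) / 2 else 0
  map_add' f g := by funext j; by_cases h : U j <;> simp [h]; ring
  map_smul' a f := by funext j; by_cases h : U j <;> simp [h]; ring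

omit [Fintype J] in
theorem pj_apply (s : J → J) (U : J → Bool) (f : J → ℚ) (j : J) :
    pj s U f j = if U j then (f j + f (s j)) / 2 else 0 := rfl

theorem pj_pr {s : J → J} {U : J → Bool} (hs : Involutive s) (hU : ∀ j, U (s j) = U j) :
    IsPr (pj s U) := by
  refine ⟨fun x => funext fun j => ?_, fun x y => ?_⟩
  · by_cases h : U j <;> simp [pj_apply, h, hU, hs j]
    ring
  · have key := Equiv.sum_comp hs.toPerm fun j => if U j then x j * y (s j) / 2 else 0
    simp only [Involutive.coe_toPerm, hU, hs _] at key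
    have e1 : pj s U x ⬝ᵥ y = ∑ j, (if U j then x j * y j / 2 else 0) +
        ∑ j, (if U j then x (s j) * y j / 2 else 0) := by
      rw [← Finset.sum_add_distrib]
      exact Finset.sum_congr rfl fun j _ => by by_cases h : U j <;> simp [pj_apply, h]; ring
    have e2 : x ⬝ᵥ pj s U y = ∑ j, (if U j then x j * y j / 2 else 0) +
        ∑ j, (if U j then x j * y (s j) / 2 else 0) := by
      rw [← Finset.sum_add_distrib]
      exact Finset.sum_congr rfl fun j _ => by by_cases h : U j <;> simp [pj_apply, h]; ring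
    rw [e1, e2, key]

end

end Pool.Agent.H30.Oml
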