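import Pool.Agent.H30.OmlA
import Pool.Agent.H30.LieQ

/-! A finitely presented orthomodular lattice with undecidable word problem. -/

namespace Pool.Agent.H30.Oml

open Pool.Agent.H30.MulM Pool.Agent.H30.NB Pool.Agent.H30.Sl Function Relation
open Pool.Agent.H30.LieQ (sd complete')

def RelF {X Q : Type} (S : Set (Tr Q)) (a A b B : X → X) (t : Q → X) (p : S × Bool → X) : Prop :=
  (∀ σ : S × Bool, B (t (sd σ.1.1 σ.2).1) = B (p σ)) ∧
  (∀ σ : S × Bool, a^[(sd σ.1.1 σ.2).2.2] (p σ) = b (p σ)) ∧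
  ∀ τ : S, A (a^[τ.1.1.2.1] (p (τ, false))) = A (a^[τ.1.2.2.1] (p (τ, true)))

theorem RelF.half {X Q : Type} {S : Set (Tr Q)} {a A b B : X → X} {t : Q → X} {p : S × Bool → X}
    (H : RelF S a A b B t p) (h1 : Function.Commute a b) (h2 : Function.Commute a B)
    (h3 : Function.Commute A b) (h4 : Function.Commute A B) (σ : S × Bool) (u i : ℕ) :
    A (a^[(sd σ.1.1 σ.2).2.2 * u + i] (B (t (sd σ.1.1 σ.2).1))) = B (b^[u] (A (a^[i] (p σ)))) := by
  obtain ⟨h5, h6, -⟩ := H
  have key : ∀ u, a^[(sd σ.1.1 σ.2).2.2 * u] (p σ) = b^[u] (p σ) := by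
    intro u
    induction u with
    | zero => rfl
    | succ u ih =>
      rw [mul_add, mul_one, iterate_add_apply, h6, h1.iterate_left, ih, iterate_succ_apply']
  rw [h5, h2.iterate_left, h4, add_comm, iterate_add_apply, key, h1.iterate_iterate,
    h3.iterate_right]

variable {L : Type} [OML L]

/-- a product of four Sasaki projections -/
def opr (g : Fin 5 → L) (i : Fin 5) (x : L) : L := sa (g 0) (sa (g 1) (sa (g 2) (sa (g i) x)))

theorem opr_comm {g g' : Fin 5 → L} (h : ∀ i j, Cm4 (g i) (g' j)) (i j : Fin 5) :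
    Function.Commute (opr g i) (opr g' j) := fun x => by
  simp only [opr, fun i j => (h i j).comm.eq]

theorem opr_bot (g : Fin 5 → L) (i : Fin 5) : opr g i ⊥ = ⊥ := by simp only [opr, sa_bot]

section
variable {K : Type}

def inv2 (g g' : K → Option K) (x : K × Bool) : K × Bool :=
  bif x.2 then (g x.1).elim x (·, false) else (g' x.1).elim x (·, true)

theorem inv2_inv {g g' : K → Option K} (h : ∀ k k', g k = some k' ↔ g' k' = some k) :
    Involutive (inv2 g g') := by
  rintro ⟨k, _ | _⟩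
  · rcases e : g' k with _ | k'
    · simp [inv2, e]
    · simp [inv2, e, (h _ _).2 e]
  · rcases e : g k with _ | k'
    · simp [inv2, e]
    · simp [inv2, e, (h _ _).1 e]

def lf (φ : K × K → ℚ) (j : (K × Bool) × (K × Bool)) : ℚ :=
  if j.1.2 = false ∧ j.2.2 = false then φ (j.1.1, j.2.1) else 0

def ds (s t : K × Bool → K × Bool) : Fin 5 → K × Bool → K × Bool :=
  ![id, fun x => (x.1, !x.2), id, s, t]

def dU : Fin 5 → K × Bool → Bool :=
  ![fun x => !x.2, fun _ => true, fun x => x.2, fun _ => true, fun _ => true]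

def P1 (s : K × Bool → K × Bool) (U : K × Bool → Bool) :
    Module.End ℚ ((K × Bool) × (K × Bool) → ℚ) := pj (Prod.map s id) fun j => U j.1

def P2 (s : K × Bool → K × Bool) (U : K × Bool → Bool) :
    Module.End ℚ ((K × Bool) × (K × Bool) → ℚ) := pj (Prod.map id s) fun j => U j.2

theorem P12 (s s' : K × Bool → K × Bool) (U U' : K × Bool → Bool) (f) :
    P1 s U (P2 s' U' f) = P2 s' U' (P1 s U f) := by
  funext ⟨x, y⟩
  by_cases h : U x <;> by_cases h' : U' y <;> simp [P1, P2, pj_apply, h, h']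
  ring

def h1 (g : K → Option K) (φ : K × K → ℚ) (k : K × K) : ℚ := (g k.1).elim 0 fun x => φ (x, k.2)
def h2 (g : K → Option K) (φ : K × K → ℚ) (k : K × K) : ℚ := (g k.2).elim 0 fun x => φ (k.1, x)

theorem P1_lf (g g' : K → Option K) (φ : K × K → ℚ) :
    P1 id (fun x => !x.2) (P1 (fun x => (x.1, !x.2)) (fun _ => true) (P1 id (fun x => x.2)
      (P1 (inv2 g g') (fun _ => true) (lf φ)))) = (1 / 4 : ℚ) • lf (h1 g φ) := by
  funext ⟨⟨k, b⟩, k', b'⟩
  rcases e : g k <;> cases b <;> cases b' <;> simp [P1, pj_apply, lf, inv2, h1, e]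
  ring

theorem P2_lf (g g' : K → Option K) (φ : K × K → ℚ) :
    P2 id (fun x => !x.2) (P2 (fun x => (x.1, !x.2)) (fun _ => true) (P2 id (fun x => x.2)
      (P2 (inv2 g g') (fun _ => true) (lf φ)))) = (1 / 4 : ℚ) • lf (h2 g φ) := by
  funext ⟨⟨k, b⟩, k', b'⟩
  rcases e : g k' <;> cases b <;> cases b' <;> simp [P2, pj_apply, lf, inv2, h2, e]
  ring

theorem ds_inv {s t : K × Bool → K × Bool} (hs : Involutive s) (ht : Involutive t) (i : Fin 5) :
    Involutive (ds s t i) ∧ ∀ x, dU i (ds s t i x) = dU i x := by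
  fin_cases i
  · exact ⟨fun _ => rfl, fun _ => rfl⟩
  · exact ⟨fun x => by simp [ds], fun _ => rfl⟩
  · exact ⟨fun _ => rfl, fun _ => rfl⟩
  · exact ⟨hs, fun _ => rfl⟩
  · exact ⟨ht, fun _ => rfl⟩

theorem subspaces [Fintype K] {g g' f f' : K → Option K}
    (hg : ∀ k k', g k = some k' ↔ g' k' = some k) (hf : ∀ k k', f k = some k' ↔ f' k' = some k) :
    ∃ (L : Type) (_ : OML L) (x y : Fin 5 → L) (v : (K × K → ℚ) → L), (∀ i j, Cm4 (x i) (y j)) ∧
      (∀ φ, opr x 3 (v φ) = v (h1 g φ)) ∧ (∀ φ, opr x 4 (v φ) = v (h1 f φ)) ∧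
      (∀ φ, opr y 3 (v φ) = v (h2 g φ)) ∧ (∀ φ, opr y 4 (v φ) = v (h2 f φ)) ∧
      ∀ φ, v φ = ⊥ ↔ φ = 0 := by
  have hd := ds_inv (inv2_inv hg) (inv2_inv hf)
  have p1 : ∀ i, IsPr (P1 (ds (inv2 g g') (inv2 f f') i) (dU i)) := fun i =>
    pj_pr (fun x => Prod.ext ((hd i).1 _) rfl) fun x => (hd i).2 _
  have p2 : ∀ i, IsPr (P2 (ds (inv2 g g') (inv2 f f') i) (dU i)) := fun i =>
    pj_pr (fun x => Prod.ext rfl ((hd i).1 _)) fun x => (hd i).2 _
  have sp : ∀ w : (K × Bool) × (K × Bool) → ℚ,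
      Submodule.span ℚ {(1 / 4 : ℚ) • w} = Submodule.span ℚ {w} := fun w =>
    Submodule.span_singleton_smul_eq (by norm_num) w
  refine ⟨_, subOML, fun i => LinearMap.range (P1 (ds (inv2 g g') (inv2 f f') i) (dU i)),
    fun i => LinearMap.range (P2 (ds (inv2 g g') (inv2 f f') i) (dU i)),
    fun φ => Submodule.span ℚ {lf φ}, fun i j => cm4_of (p1 i) (p2 j) (P12 _ _ _ _),
    fun φ => ?_, fun φ => ?_, fun φ => ?_, fun φ => ?_, fun φ => ?_⟩
  · simp only [opr, (p1 _).sa, Submodule.map_span, Set.image_singleton]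
    exact (congrArg (fun w => Submodule.span ℚ {w}) (P1_lf g g' φ)).trans (sp _)
  · simp only [opr, (p1 _).sa, Submodule.map_span, Set.image_singleton]
    exact (congrArg (fun w => Submodule.span ℚ {w}) (P1_lf f f' φ)).trans (sp _)
  · simp only [opr, (p2 _).sa, Submodule.map_span, Set.image_singleton]
    exact (congrArg (fun w => Submodule.span ℚ {w}) (P2_lf g g' φ)).trans (sp _)
  · simp only [opr, (p2 _).sa, Submodule.map_span, Set.image_singleton]
    exact (congrArg (fun w => Submodule.span ℚ {w}) (P2_lf f f' φ)).trans (sp _)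
  · refine Submodule.span_singleton_eq_bot.trans ⟨fun h => funext fun k => ?_, ?_⟩
    · simpa [lf] using congrFun h ((k.1, false), (k.2, false))
    · rintro rfl
      funext j
      simp [lf]

end

section
variable {Z : Type} [CommRing Z]

def ga (k : Option Z) : Option (Option Z) := k.map fun v => some (v + 1)
def gA (k : Option Z) : Option (Option Z) := k.elim (some (some 0)) fun _ => none

theorem ga_some (φ : Option Z × Option Z → ℚ) (n : ℕ) (v : Z) (y : Option Z) :
    (h1 ga)^[n] φ (some v, y) = φ (some (v + n), y) := by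
  induction n generalizing v with
  | zero => simp
  | succ n ih => rw [iterate_succ_apply']; simp [h1, ga, ih, add_assoc, add_comm (1 : Z)]

theorem ga_none (φ : Option Z × Option Z → ℚ) (n : ℕ) (y : Option Z) (h : φ (none, y) = 0) :
    (h1 ga)^[n] φ (none, y) = 0 := by
  cases n with
  | zero => exact h
  | succ n => rw [iterate_succ_apply']; rfl

end

theorem model {Q : Type} {F : Set (Q → ℤ → Prop)} (P : ℕ) (h : Q) {D : Q → ℤ → Prop}
    (hD : D ∈ F) (h0 : ∀ v, ¬ D h v) {m : ℕ} (hL : 0 < m)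
    (hp : ∀ q v z, D q (v + m * z) ↔ D q v) :
    ∃ (L : Type) (_ : OML L) (x y : Fin 5 → L) (t : Q → L) (p : Sl.Good F P × Bool → L),
      (∀ i j, Cm4 (x i) (y j)) ∧ t h = ⊥ ∧
      RelF (Sl.Good F P) (opr x 3) (opr x 4) (opr y 3) (opr y 4) t p ∧
      ∀ q (n : ℕ), D q n → opr x 4 ((opr x 3)^[n] (opr y 4 (t q))) ≠ ⊥ := by
  classical
  have : NeZero m := ⟨hL.ne'⟩
  let D' : Q → ZMod m → Prop := fun q v => D q v.val
  have hD' : ∀ q (z : ℤ), D' q z ↔ D q z := fun q z => by
    simp only [D', ZMod.val_intCast]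
    rw [← hp q _ (z / m), Int.emod_add_mul_ediv]
  let φ : Q → ℕ → Option (ZMod m) × Option (ZMod m) → ℚ := fun q M k =>
    k.1.elim 0 fun x => k.2.elim 0 fun y => if D' q (x + M * y) then 1 else 0
  obtain ⟨L, _, x, y, v, a0, a1, a2, a3, a4, a5⟩ := subspaces (K := Option (ZMod m)) (g := ga)
    (g' := fun k => k.map fun v => some (v - 1)) (f := gA)
    (f' := fun k => if k = some 0 then some none else none)
    (by rintro (_ | k) (_ | k') <;> simp [ga, eq_sub_iff_add_eq, eq_comm])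
    (by rintro (_ | k) (_ | k') <;> simp [gA, eq_comm])
  have it : ∀ n ψ, (opr x 3)^[n] (v ψ) = v ((h1 ga)^[n] ψ) := fun n ψ =>
    ((Function.Semiconj.iterate_right (f := v) (fun ψ => (a1 ψ).symm) n) ψ).symm
  refine ⟨L, inferInstance, x, y, fun q => v (φ q 0),
    fun σ => v (φ (sd σ.1.1 σ.2).1 (sd σ.1.1 σ.2).2.2), a0, (a5 _).2 ?_,
    ⟨fun σ => ?_, fun σ => ?_, fun τ => ?_⟩, fun q n hn H => ?_⟩
  · funext ⟨a, b⟩
    rcases a with _ | a <;> rcases b with _ | b <;> simp [φ, D', h0]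
  · rw [a4, a4]
    congr 1
    funext ⟨x, y⟩
    rcases x with _ | x <;> rcases y with _ | y <;> simp [h2, gA, φ]
  · rw [it, a3]
    congr 1
    funext ⟨x, y⟩
    rcases x with _ | x
    · rw [ga_none _ _ _ rfl]
      rcases y with _ | y <;> simp [h2, ga, φ]
    · rw [ga_some]
      rcases y with _ | y <;> simp [h2, ga, φ, mul_add, add_assoc, add_comm]
  · rw [it, it, a2, a2]
    congr 1
    funext ⟨x, y⟩
    rcases x with _ | x
    · rcases y with _ | y
      · simp [h1, gA, ga_some, φ]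
      · obtain ⟨y, rfl⟩ := ZMod.intCast_surjective y
        have := τ.2.2.2.2.2 D hD y
        rw [← hD', ← hD'] at this
        push_cast at this
        simp [h1, gA, ga_some, φ, sd, this]
    · simp [h1, gA]
  · rw [a4, it, a2, a5] at H
    have := congrFun H (none, none)
    have e := (hD' q n).2 hn
    push_cast at e
    simp [h1, h2, gA, ga_some, φ, e] at this

variable {k : ℕ}

def Term.sa (a x : Term k) : Term k := .inf a (.sup (.c a) x)

def Term.opr (g : Fin 5 → Term k) (i : Fin 5) (x : Term k) : Term k :=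
  (g 0).sa ((g 1).sa ((g 2).sa ((g i).sa x)))

def cmT (a b : Term k) : Term k × Term k := (a, .sup (.inf a b) (.inf a (.c b)))

theorem eval_opr (v : Fin k → L) (g : Fin 5 → Term k) (i : Fin 5) (x : Term k) :
    (Term.opr g i x).eval v = opr (fun j => (g j).eval v) i (x.eval v) := rfl

theorem eval_it (v : Fin k → L) (g : Fin 5 → Term k) (i : Fin 5) (n : ℕ) (x : Term k) :
    ((Term.opr g i)^[n] x).eval v = (opr (fun j => (g j).eval v) i)^[n] (x.eval v) :=
  (Function.Semiconj.iterate_right (f := Term.eval v) (fun x => eval_opr v g i x) n) x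

def saC (a x : ℕ) : ℕ := Nat.pair 4 (Nat.pair a (Nat.pair 3 (Nat.pair (Nat.pair 5 a) x)))

theorem saC_prim (a : ℕ) : Primrec (saC a) := by
  have np := Primrec₂.natPair
  exact np.comp (.const 4) (np.comp (.const a) (np.comp (.const 3) (np.comp (.const _) .id)))

theorem opr_prim (g : Fin 5 → Term k) (i : Fin 5) :
    ∃ f : ℕ → ℕ, Primrec f ∧ ∀ x, (Term.opr g i x).code = f x.code :=
  ⟨fun z => saC (g 0).code (saC (g 1).code (saC (g 2).code (saC (g i).code z))),
    (saC_prim _).comp ((saC_prim _).comp ((saC_prim _).comp (saC_prim _))), fun _ => rfl⟩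

theorem undec : ∃ (k : ℕ) (R : List (Term k × Term k)), ¬ ∃ f : ℕ × ℕ → Bool, Computable f ∧
    ∀ u v : Term k, (f (u.code, v.code) = true ↔ Deriv R u v) := by
  classical
  obtain ⟨Q, _, h, q0, E, P, A, B, h1, h2, h3, h4⟩ := machine
  set S := Sl.Good (Fam E h) (P + 1) with hS
  have : Finite S := Sl.Good.finite _ _
  have := Fintype.ofFinite S
  obtain ⟨k, ⟨e⟩⟩ := Finite.exists_equiv_fin ((Fin 5 ⊕ Fin 5) ⊕ Q ⊕ S × Bool)
  let x : Fin 5 → Term k := fun i => .var (e (.inl (.inl i)))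
  let y : Fin 5 → Term k := fun i => .var (e (.inl (.inr i)))
  let t : Q → Term k := fun q => .var (e (.inr (.inl q)))
  let p : S × Bool → Term k := fun σ => .var (e (.inr (.inr σ)))
  let R : List (Term k × Term k) := (t h, .bot) ::
    ((Finset.univ.toList.flatMap fun z : Fin 5 × Fin 5 => [cmT (x z.1) (y z.2), cmT (y z.2) (x z.1),
      cmT (x z.1).c (y z.2), cmT (y z.2).c (x z.1)]) ++
    (Finset.univ.toList.map (fun σ : S × Bool =>
      (Term.opr y 4 (t (sd σ.1.1 σ.2).1), Term.opr y 4 (p σ))) ++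
    (Finset.univ.toList.map (fun σ : S × Bool =>
      ((Term.opr x 3)^[(sd σ.1.1 σ.2).2.2] (p σ), Term.opr y 3 (p σ))) ++
    Finset.univ.toList.map fun τ : S => (Term.opr x 4 ((Term.opr x 3)^[τ.1.1.2.1] (p (τ, false))),
      Term.opr x 4 ((Term.opr x 3)^[τ.1.2.2.1] (p (τ, true)))))))
  have hR : ∀ (L : Type) [OML L] (v : Fin k → L), (∀ z ∈ R, z.1.eval v = z.2.eval v) ↔
      v (e (.inr (.inl h))) = ⊥ ∧
      (∀ z : Fin 5 × Fin 5, Cm4 (v (e (.inl (.inl z.1)))) (v (e (.inl (.inr z.2))))) ∧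
      RelF S (opr (fun i => v (e (.inl (.inl i)))) 3) (opr (fun i => v (e (.inl (.inl i)))) 4)
        (opr (fun i => v (e (.inl (.inr i)))) 3) (opr (fun i => v (e (.inl (.inr i)))) 4)
        (fun q => v (e (.inr (.inl q)))) (fun σ => v (e (.inr (.inr σ)))) := by
    intro L _ v
    simp only [R, List.forall_mem_append, List.forall_mem_cons, List.forall_mem_map,
      List.forall_mem_flatMap, Finset.mem_toList, Finset.mem_univ, true_imp_iff, List.not_mem_nil,
      false_imp_iff, implies_true, and_true, Term.eval, eval_it, eval_opr, x, y, t, p, RelF, cmT,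
      Cm4, Cm]
  refine ⟨k, R, ?_⟩
  rintro ⟨f, hf, H⟩
  let w : ℕ → Term k := fun n => Term.opr x 4 ((Term.opr x 3)^[2 ^ n] (Term.opr y 4 (t q0)))
  have hc : Primrec fun n => (w n).code := by
    have h : Primrec fun n : ℕ => 2 ^ n :=
      (Primrec.nat_iterate Primrec.id (Primrec.const 1)
        (Primrec.nat_double.comp Primrec.snd).to₂).of_eq fun n => by
          induction n with
          | zero => rfl
          | succ n ih => simp only [id] at ih ⊢; rw [iterate_succ_apply', ih, pow_succ']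
    obtain ⟨f3, b1, b2⟩ := opr_prim x 3
    obtain ⟨f4, b3, b4⟩ := opr_prim x 4
    refine (b3.comp (Primrec.nat_iterate h (Primrec.const (Term.opr y 4 (t q0)).code)
      (b1.comp Primrec.snd).to₂)).of_eq fun n => ?_
    rw [b4, (Function.Semiconj.iterate_right (f := Term.code) b2 (2 ^ n)).eq]
  refine h1 (fun n => f ((w n).code, (Term.bot : Term k).code) = true)
    ⟨inferInstance, by simpa using hf.comp (hc.pair (Primrec.const _)).to_comp⟩
    (fun n hn => ?_) fun n hn => ?_
  · refine (H _ _).2 (Deriv.complete fun L _ v hv => ?_)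
    obtain ⟨N, hN⟩ := h3 n hn
    obtain ⟨r1, r2, r⟩ := (hR L v).1 hv
    have cm := opr_comm (g := fun i => v (e (.inl (.inl i)))) (g' := fun i => v (e (.inl (.inr i))))
      fun i j => r2 (i, j)
    have := complete' h2 (Z := fun q n => opr (fun i => v (e (.inl (.inl i)))) 4
      ((opr (fun i => v (e (.inl (.inl i)))) 3)^[n] (opr (fun i => v (e (.inl (.inr i)))) 4
      (v (e (.inr (.inl q)))))) = ⊥) (fun N => by
        rw [r1, opr_bot, iterate_fixed (opr_bot _ _), opr_bot])
      (fun {q q' a M b N} hτ u hu => by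
        have a1 := r.half (cm _ _) (cm _ _) (cm _ _) (cm _ _) (⟨_, hτ⟩, false) u a
        have a2 := r.half (cm _ _) (cm _ _) (cm _ _) (cm _ _) (⟨_, hτ⟩, true) u b
        have a3 := r.2.2 ⟨_, hτ⟩
        exact a1.trans ((congrArg _ (congrArg _ a3)).trans (a2.symm.trans hu))) hN
    simpa only [w, Term.eval, eval_it, eval_opr, x, y, t] using this
  · rw [H]
    intro hq
    obtain ⟨C, b, c1, c2, c3⟩ := h4 n hn
    obtain ⟨D, d1, m, d2, d3, d4⟩ := periodic h2 c1 c3
    obtain ⟨L, _, x', y', t', p', a0, a1, a2, a3⟩ := model (P + 1) h d1 d1.1 d2 d3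
    have := hq.sound (v := fun i => Sum.elim (Sum.elim x' y') (Sum.elim t' p') (e.symm i))
      ((hR L _).2 ⟨by simpa using a1, fun z => by simpa using a0 z.1 z.2, by simpa using a2⟩)
    refine a3 q0 (2 ^ n) (d4 _ c2) ?_
    simpa [w, Term.eval, eval_it, eval_opr, x, y, t] using this

end Pool.Agent.H30.Oml
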