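import Mathlib

/-! Finite presentations of orthomodular lattices. -/

namespace Pool.Agent.H30.Oml

/-- Terms in `k` generators. -/
inductive Term (k : ℕ) : Type
  | var (i : Fin k) : Term k
  | bot : Term k
  | top : Term k
  | sup (s t : Term k) : Term k
  | inf (s t : Term k) : Term k
  | c (s : Term k) : Term k

/-- Goedel number of a term. -/
def Term.code {k : ℕ} : Term k → ℕ
  | .var i => Nat.pair 0 i
  | .bot => Nat.pair 1 0
  | .top => Nat.pair 2 0
  | .sup s t => Nat.pair 3 (Nat.pair s.code t.code)
  | .inf s t => Nat.pair 4 (Nat.pair s.code t.code)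
  | .c s => Nat.pair 5 s.code

/-- The smallest congruence on terms that contains the relations `R` and all instances of the
equational axioms of orthomodular lattices. -/
inductive Deriv {k : ℕ} (R : List (Term k × Term k)) : Term k → Term k → Prop
  | rel {s t : Term k} : (s, t) ∈ R → Deriv R s t
  | refl (s : Term k) : Deriv R s s
  | symm {s t : Term k} : Deriv R s t → Deriv R t s
  | trans {s t u : Term k} : Deriv R s t → Deriv R t u → Deriv R s u
  | sup {s s' t t' : Term k} : Deriv R s s' → Deriv R t t' → Deriv R (.sup s t) (.sup s' t')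
  | inf {s s' t t' : Term k} : Deriv R s s' → Deriv R t t' → Deriv R (.inf s t) (.inf s' t')
  | c {s s' : Term k} : Deriv R s s' → Deriv R (.c s) (.c s')
  | sup_comm (x y : Term k) : Deriv R (.sup x y) (.sup y x)
  | sup_assoc (x y z : Term k) : Deriv R (.sup (.sup x y) z) (.sup x (.sup y z))
  | inf_comm (x y : Term k) : Deriv R (.inf x y) (.inf y x)
  | inf_assoc (x y z : Term k) : Deriv R (.inf (.inf x y) z) (.inf x (.inf y z))
  | sup_inf (x y : Term k) : Deriv R (.sup x (.inf x y)) x
  | inf_sup (x y : Term k) : Deriv R (.inf x (.sup x y)) x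
  | bot_sup (x : Term k) : Deriv R (.sup .bot x) x
  | sup_top (x : Term k) : Deriv R (.sup x .top) .top
  | cc (x : Term k) : Deriv R (.c (.c x)) x
  | c_sup (x y : Term k) : Deriv R (.c (.sup x y)) (.inf (.c x) (.c y))
  | inf_c (x : Term k) : Deriv R (.inf x (.c x)) .bot
  | sup_c (x : Term k) : Deriv R (.sup x (.c x)) .top
  | om (x y : Term k) : Deriv R (.sup x y) (.sup x (.inf (.sup x y) (.c x)))

end Pool.Agent.H30.Oml
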