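import Pool.Agent.H30.OvDefs

set_option autoImplicit false
open Classical

namespace Pool.Agent.H30.Ov
open Pool.Agent.H30.OvDefs Finset

variable {n : ℕ}

theorem cardS (z a : Fin n) :
    (univ.filter fun τ : Equiv.Perm (Fin n) => τ z = a).card = (n - 1).factorial := by
  have h1 : ∀ b : Fin n, (univ.filter fun τ : Equiv.Perm (Fin n) => τ z = b).card =
      (univ.filter fun τ : Equiv.Perm (Fin n) => τ z = a).card := by
    intro b
    apply card_equiv (Equiv.mulLeft (Equiv.swap a b))
    intro τ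
    simp only [mem_filter, mem_univ, true_and, Equiv.coe_mulLeft, Equiv.Perm.coe_mul,
      Function.comp]
    rw [Equiv.swap_apply_eq_iff]; simp
  have h2 := card_eq_sum_card_fiberwise (s := (univ : Finset (Equiv.Perm (Fin n))))
    (t := (univ : Finset (Fin n))) (f := fun τ => τ z) (fun _ _ => by simp)
  simp only [h1, card_univ, Fintype.card_perm, Fintype.card_fin, sum_const, smul_eq_mul] at h2
  have hn : 0 < n := z.pos
  rw [← Nat.mul_factorial_pred (by omega)] at h2
  exact (Nat.eq_of_mul_eq_mul_left hn h2).symm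

theorem cardP (z a j b : Fin n) (hj : j ≠ z) :
    (univ.filter fun τ : Equiv.Perm (Fin n) => τ z = a ∧ τ j = b).card * (n - 1)
      ≤ (n - 1).factorial := by
  rw [← cardS z a]
  have := card_le_card_of_injOn
    (s := (univ.filter fun τ : Equiv.Perm (Fin n) => τ z = a ∧ τ j = b) ×ˢ (univ.erase z))
    (t := univ.filter fun τ : Equiv.Perm (Fin n) => τ z = a)
    (fun x => x.1 * Equiv.swap j x.2) (by
      rintro ⟨τ, i⟩ h
      simp only [coe_product, Set.mem_prod, mem_coe, mem_filter, mem_univ, true_and,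
        mem_erase, and_true] at h ⊢
      rw [Equiv.Perm.mul_apply, Equiv.swap_apply_of_ne_of_ne hj.symm (Ne.symm h.2)]
      exact h.1.1)
    (by
      rintro ⟨τ, i⟩ h ⟨τ', i'⟩ h' e
      simp only [coe_product, Set.mem_prod, mem_coe, mem_filter, mem_univ, true_and,
        mem_erase, and_true] at h h' e
      have e1 : (τ * Equiv.swap j i) i = b := by simp [h.1.2]
      have e2 : (τ * Equiv.swap j i) i' = b := by rw [e]; simp [h'.1.2]
      have : i = i' := (τ * Equiv.swap j i).injective (e1.trans e2.symm)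
      subst this
      simpa using e)
  simpa [card_erase_of_mem] using this

theorem perm_fix {t : ℕ} (f : Fin t → Fin n) (hf : Function.Injective f) (c : Equiv.Perm (Fin t))
    (h : ∀ i j, f i < f j ↔ f (c i) < f (c j)) : c = 1 := by
  have hm : StrictMono (f ∘ Tuple.sort f) :=
    (Tuple.monotone_sort f).strictMono_of_injective (hf.comp (Tuple.sort f).injective)
  have h2 : StrictMono (fun i => (Tuple.sort f).symm (c (Tuple.sort f i))) := by
    intro i j hij
    apply hm.lt_iff_lt.1
    simp only [Function.comp, Equiv.apply_symm_apply]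
    exact (h _ _).1 (hm hij)
  have a := orderEmbOfFin_unique (s := (univ : Finset (Fin t))) (k := t) (by simp)
    (by simp) h2
  have b := orderEmbOfFin_unique (s := (univ : Finset (Fin t))) (k := t) (by simp)
    (f := id) (by simp) strictMono_id
  ext i
  have := congrFun (a.trans b.symm) ((Tuple.sort f).symm i)
  simp only [Equiv.apply_symm_apply, id] at this
  rw [(Tuple.sort f).symm.injective this]; rfl

def Win (τ : Equiv.Perm (Fin n)) (D t : ℕ) : Prop :=
  ∀ i j i' j' : Fin n, (i : ℕ) < t → (j : ℕ) < t → (i' : ℕ) = D + i → (j' : ℕ) = D + j →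
    (τ i < τ j ↔ τ i' < τ j')

theorem cardW (z a : Fin n) (hz : (z : ℕ) = 0) (D t : ℕ) (h0 : 0 < t) (h1 : t ≤ D)
    (h2 : D + t ≤ n) :
    (univ.filter fun τ : Equiv.Perm (Fin n) => τ z = a ∧ Win τ D t).card * t.factorial
      ≤ (n - 1).factorial := by
  rw [← cardS z a]
  let e : Fin t ↪ Fin n := ⟨fun i => ⟨D + i, by have := i.2; omega⟩, fun i j h => by
    simp only [Fin.mk.injEq] at h; exact Fin.ext (by omega)⟩
  have hn : ∀ x : Fin n, (x : ℕ) < t → x ∉ Set.range e := by
    rintro x hx ⟨i, rfl⟩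
    simp only [e, Function.Embedding.coeFn_mk] at hx
    omega
  have := card_le_card_of_injOn
    (s := (univ.filter fun τ : Equiv.Perm (Fin n) => τ z = a ∧ Win τ D t) ×ˢ
      (univ : Finset (Equiv.Perm (Fin t))))
    (t := univ.filter fun τ : Equiv.Perm (Fin n) => τ z = a)
    (fun x => x.1 * x.2.viaFintypeEmbedding e) (by
      rintro ⟨τ, ρ⟩ h
      simp only [coe_product, Set.mem_prod, mem_coe, mem_filter, mem_univ, true_and,
        and_true] at h ⊢
      rw [Equiv.Perm.mul_apply,
        Equiv.Perm.viaFintypeEmbedding_apply_notMem_range _ _ (hn z (by omega))]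
      exact h.1)
    (by
      rintro ⟨τ, ρ⟩ h ⟨τ', ρ'⟩ h' he
      simp only [coe_product, Set.mem_prod, mem_coe, mem_filter, mem_univ, true_and,
        and_true] at h h' he
      have e0 : ∀ x : Fin n, (x : ℕ) < t → τ x = τ' x := by
        intro x hx
        have := congrArg (fun s : Equiv.Perm (Fin n) => s x) he
        simpa [Equiv.Perm.viaFintypeEmbedding_apply_notMem_range _ _ (hn x hx)] using this
      have e1 : ∀ i, τ (e (ρ i)) = τ' (e (ρ' i)) := by
        intro i
        have := congrArg (fun s : Equiv.Perm (Fin n) => s (e i)) he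
        simpa [Equiv.Perm.viaFintypeEmbedding_apply_image] using this
      have := perm_fix (fun i => τ (e i)) (τ.injective.comp e.injective) (ρ * ρ'⁻¹) (by
        intro i j
        have a1 := e1 (ρ'⁻¹ i)
        have a2 := e1 (ρ'⁻¹ j)
        have r : ∀ x, ρ' (ρ'⁻¹ x) = x := fun x => ρ'.apply_symm_apply x
        rw [r] at a1 a2
        simp only [Equiv.Perm.mul_apply]
        rw [a1, a2]
        have i1 := i.2
        have j1 := j.2
        have b1 := h.2 ⟨i, by omega⟩ ⟨j, by omega⟩ (e i) (e j) i1 j1 rfl rfl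
        have b2 := h'.2 ⟨i, by omega⟩ ⟨j, by omega⟩ (e i) (e j) i1 j1 rfl rfl
        rw [← b1, ← b2, e0 _ i1, e0 _ j1])
      have h3 : ρ = ρ' := mul_inv_eq_one.1 this
      subst h3
      simpa using he)
  simpa [Fintype.card_perm] using this

theorem win_mul (τ : Equiv.Perm (Fin n)) (k : ℕ) (hk : k ≤ n) (h : Overlap τ k) (c t : ℕ)
    (ht : c * (n - k) + t ≤ n) : Win τ (c * (n - k)) t := by
  induction c with
  | zero =>
    intro i j i' j' _ _ hi hj
    rw [show i' = i from Fin.ext (by omega), show j' = j from Fin.ext (by omega)]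
  | succ c ih =>
    rw [add_mul, one_mul] at ht ⊢
    intro i j i' j' h1 h2 hi hj
    have a := ih (by omega) i j ⟨c * (n - k) + i, by omega⟩ ⟨c * (n - k) + j, by omega⟩ h1 h2 rfl rfl
    rw [a]
    exact h _ _ _ _ (by dsimp only; omega) (by dsimp only; omega) (by dsimp only; omega)
      (by dsimp only; omega)

theorem cardO (z a : Fin n) (hz : (z : ℕ) = 0) (k t : ℕ) (hk : k ≤ n - 1) (h0 : 0 < t) (h1 : t ≤ k)
    (h2 : 3 * t ≤ n) :
    (univ.filter fun τ : Equiv.Perm (Fin n) => τ z = a ∧ Overlap τ k).card * t.factorial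
      ≤ (n - 1).factorial := by
  obtain ⟨c, c1, c2⟩ : ∃ c, t ≤ c * (n - k) ∧ c * (n - k) + t ≤ n := by
    by_cases h : t ≤ n - k
    · exact ⟨1, by omega, by omega⟩
    · refine ⟨t / (n - k) + 1, ?_, ?_⟩
      · have := Nat.div_add_mod t (n - k)
        have := Nat.mod_lt t (show n - k > 0 by omega)
        nlinarith
      · have := Nat.div_mul_le_self t (n - k)
        rw [add_mul]
        omega
  refine le_trans (Nat.mul_le_mul_right _ (card_le_card ?_)) (cardW z a hz _ t h0 c1 c2)
  intro τ hτ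
  simp only [mem_filter, mem_univ, true_and] at hτ ⊢
  exact ⟨hτ.1, win_mul τ k (by omega) hτ.2 c t c2⟩

theorem swap_lt (a b x y : Fin n) (hab : (a : ℕ) + 1 = b ∨ (b : ℕ) + 1 = a)
    (h : ¬ ((x = a ∧ y = b) ∨ (x = b ∧ y = a))) : Equiv.swap a b x < Equiv.swap a b y ↔ x < y := by
  simp only [Equiv.swap_apply_def, Fin.ext_iff, Fin.lt_def] at *
  split_ifs <;> omega

theorem step (z a b : Fin n) (hz : (z : ℕ) = 0) (hab : (a : ℕ) + 1 = b ∨ (b : ℕ) + 1 = a)
    (K : ℕ) :
    (univ.filter fun τ : Equiv.Perm (Fin n) => MinOverlapping τ ∧ τ z = a).card ≤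
    (univ.filter fun τ : Equiv.Perm (Fin n) => MinOverlapping τ ∧ τ z = b).card +
    ∑ j ∈ (univ.erase z).filter (fun j : Fin n => (j : ℕ) < K),
      (univ.filter fun τ : Equiv.Perm (Fin n) => τ z = b ∧ τ j = a).card +
    ∑ k ∈ Ioc K (n - 1),
      (univ.filter fun τ : Equiv.Perm (Fin n) => τ z = b ∧ Overlap τ k).card := by
  refine le_trans ?_ (add_le_add (add_le_add le_rfl card_biUnion_le) card_biUnion_le)
  refine le_trans ?_ (add_le_add (card_union_le _ _) le_rfl)
  refine le_trans ?_ (card_union_le _ _)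
  apply card_le_card_of_injOn (fun τ => Equiv.swap a b * τ)
  · intro τ hτ
    simp only [mem_coe, mem_filter, mem_univ, true_and, mem_union, mem_biUnion, mem_erase,
      and_true, mem_Ioc] at hτ ⊢
    have hzb : (Equiv.swap a b * τ) z = b := by simp [hτ.2]
    have hne : τ.symm b ≠ z := by
      intro h
      have : b = a := by rw [← hτ.2, ← h]; simp
      omega
    by_cases h1 : ((τ.symm b : Fin n) : ℕ) < K
    · left; right
      exact ⟨τ.symm b, ⟨hne, h1⟩, hzb, by simp⟩
    by_cases h2 : ∃ k, (K < k ∧ k ≤ n - 1) ∧ Overlap (Equiv.swap a b * τ) k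
    · right
      obtain ⟨k, k1, k2⟩ := h2
      exact ⟨k, k1, hzb, k2⟩
    left; left
    refine ⟨?_, hzb⟩
    rintro ⟨k, k1, k2, k3⟩
    have hk : k ≤ K := by
      by_contra hc
      exact h2 ⟨k, ⟨by omega, k2⟩, k3⟩
    apply hτ.1
    refine ⟨k, k1, k2, ?_⟩
    intro i j i' j' hi hj hi' hj'
    have := k3 i j i' j' hi hj hi' hj'
    simp only [Equiv.Perm.mul_apply] at this
    have nb : ∀ x : Fin n, (x : ℕ) < k → τ x ≠ b := by
      intro x hx h
      rw [← h] at h1
      simp at h1
      omega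
    have na : ∀ x : Fin n, 0 < (x : ℕ) → τ x ≠ a := by
      intro x hx h
      have := τ.injective (h.trans hτ.2.symm)
      omega
    have := nb i hi
    have := nb j hj
    have := na i' (by omega)
    have := na j' (by omega)
    rwa [swap_lt a b _ _ hab (by tauto), swap_lt a b _ _ hab (by tauto)] at *
  · intro τ _ τ' _ h
    simpa using h

theorem tele (K : ℕ) (hK : 1 ≤ K) (N : ℕ) :
    ∑ k ∈ Ioc K N, (1 : ℝ) / (k * (k - 1)) ≤ 1 / K := by
  by_cases h : K ≤ N
  · have : ∑ k ∈ Ioc K N, (1 : ℝ) / (k * (k - 1)) = 1 / K - 1 / N := by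
      induction N, h using Nat.le_induction with
      | base => simp
      | succ N h ih =>
        rw [sum_Ioc_succ_top h, ih]
        have : (0 : ℝ) < N := by exact_mod_cast (by omega : 0 < N)
        push_cast
        rw [add_sub_cancel_right]
        field_simp
        ring
    rw [this]
    have : (0 : ℝ) ≤ 1 / N := by positivity
    linarith
  · rw [Ioc_eq_empty (by omega)]
    simp

theorem fact_ge (t : ℕ) (ht : 2 ≤ t) : (t : ℝ) * (t - 1) ≤ t.factorial := by
  obtain ⟨s, rfl⟩ : ∃ s, t = s + 2 := ⟨t - 2, by omega⟩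
  rw [Nat.factorial_succ, Nat.factorial_succ]
  have : (1 : ℝ) ≤ s.factorial := by exact_mod_cast Nat.factorial_pos s
  push_cast
  nlinarith [mul_le_mul_of_nonneg_left this (show (0 : ℝ) ≤ (s + 2) * (s + 1) by positivity)]

theorem step2 (z a b : Fin n) (hz : (z : ℕ) = 0) (hab : (a : ℕ) + 1 = b ∨ (b : ℕ) + 1 = a)
    (K : ℕ) (hK : 1 ≤ K) (hn : 30 * K * K ≤ n) :
    ((univ.filter fun τ : Equiv.Perm (Fin n) => MinOverlapping τ ∧ τ z = a).card : ℝ) ≤
    (univ.filter fun τ : Equiv.Perm (Fin n) => MinOverlapping τ ∧ τ z = b).card +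
      3 / K * (n - 1).factorial := by
  have h := step z a b hz hab K
  have h' : ((univ.filter fun τ : Equiv.Perm (Fin n) => MinOverlapping τ ∧ τ z = a).card : ℝ) ≤
    (univ.filter fun τ : Equiv.Perm (Fin n) => MinOverlapping τ ∧ τ z = b).card +
    ∑ j ∈ (univ.erase z).filter (fun j : Fin n => (j : ℕ) < K),
      ((univ.filter fun τ : Equiv.Perm (Fin n) => τ z = b ∧ τ j = a).card : ℝ) +
    ∑ k ∈ Ioc K (n - 1),
      ((univ.filter fun τ : Equiv.Perm (Fin n) => τ z = b ∧ Overlap τ k).card : ℝ) := by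
    exact_mod_cast h
  set F : ℝ := ((n - 1).factorial : ℝ) with hF
  have F0 : 0 < F := by rw [hF]; positivity
  have K0 : (1 : ℝ) ≤ K := by exact_mod_cast hK
  have hKK : K ≤ K * K := Nat.le_mul_self K
  have n1 : (30 : ℝ) * K * K ≤ n := by exact_mod_cast hn
  have b1 : ∑ j ∈ (univ.erase z).filter (fun j : Fin n => (j : ℕ) < K),
      ((univ.filter fun τ : Equiv.Perm (Fin n) => τ z = b ∧ τ j = a).card : ℝ) ≤ 1 / K * F := by
    have c1 : ((univ.erase z).filter (fun j : Fin n => (j : ℕ) < K)).card ≤ K := by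
      have := card_le_card_of_injOn (s := (univ.erase z).filter (fun j : Fin n => (j : ℕ) < K))
        (t := range K) (fun j => (j : ℕ)) (by intro j hj; simp at hj ⊢; exact hj.2)
        (fun _ _ _ _ h => Fin.ext h)
      simpa using this
    have c2 : (((univ.erase z).filter (fun j : Fin n => (j : ℕ) < K)).card : ℝ) ≤ K := by
      exact_mod_cast c1
    refine le_trans (sum_le_card_nsmul _ _ (F / (K * K)) ?_) ?_
    · intro j hj
      have := cardP z b j a (by simp at hj; exact hj.1)
      have h3 : ((univ.filter fun τ : Equiv.Perm (Fin n) => τ z = b ∧ τ j = a).card : ℝ) *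
          ((n - 1 : ℕ) : ℝ) ≤ F := by rw [hF]; exact_mod_cast this
      have h4 : (K : ℝ) * K ≤ ((n - 1 : ℕ) : ℝ) := by
        have : K * K ≤ n - 1 := by rw [mul_assoc] at hn; omega
        exact_mod_cast this
      rw [le_div_iff₀ (by positivity)]
      exact le_trans (mul_le_mul_of_nonneg_left h4 (by positivity)) h3
    · rw [nsmul_eq_mul]
      refine le_trans (mul_le_mul_of_nonneg_right c2 (by positivity)) (le_of_eq ?_)
      field_simp
  have b2 : ∑ k ∈ Ioc K (n - 1),
      ((univ.filter fun τ : Equiv.Perm (Fin n) => τ z = b ∧ Overlap τ k).card : ℝ) ≤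
      2 / K * F := by
    have s0 : 10 ≤ n / 3 := by rw [mul_assoc] at hn; omega
    have s1 : (n : ℝ) ≤ 3 * ((n / 3 : ℕ) : ℝ) + 2 := by exact_mod_cast (by omega : n ≤ 3 * (n / 3) + 2)
    have s2 : (10 : ℝ) ≤ ((n / 3 : ℕ) : ℝ) := by exact_mod_cast s0
    have s3 : (10 : ℝ) * K ≤ ((n / 3 : ℕ) : ℝ) := by
      have : 10 * K ≤ n / 3 := by rw [mul_assoc] at hn; omega
      exact_mod_cast this
    set s : ℝ := ((n / 3 : ℕ) : ℝ) with hs
    have sp : 0 < s * (s - 1) := by nlinarith
    have c1 : ∀ k ∈ Ioc K (n - 1),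
        ((univ.filter fun τ : Equiv.Perm (Fin n) => τ z = b ∧ Overlap τ k).card : ℝ) ≤
        1 / (k * (k - 1)) * F + F / (s * (s - 1)) := by
      intro k hk
      rw [mem_Ioc] at hk
      have k2 : (2 : ℝ) ≤ k := by exact_mod_cast (by omega : 2 ≤ k)
      have kp : (0 : ℝ) < k * (k - 1) := by nlinarith
      by_cases hks : k ≤ n / 3
      · have := cardO z b hz k k hk.2 (by omega) le_rfl (by omega)
        have h3 : ((univ.filter fun τ : Equiv.Perm (Fin n) => τ z = b ∧ Overlap τ k).card : ℝ) *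
          (k.factorial : ℝ) ≤ F := by rw [hF]; exact_mod_cast this
        have h4 := le_trans (mul_le_mul_of_nonneg_left (fact_ge k (by omega)) (by positivity)) h3
        rw [← le_div_iff₀ kp] at h4
        have : 0 ≤ F / (s * (s - 1)) := by positivity
        rw [one_div_mul_eq_div]
        linarith
      · have := cardO z b hz k (n / 3) hk.2 (by omega) (by omega) (by omega)
        have h3 : ((univ.filter fun τ : Equiv.Perm (Fin n) => τ z = b ∧ Overlap τ k).card : ℝ) *
          ((n / 3).factorial : ℝ) ≤ F := by rw [hF]; exact_mod_cast this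
        have h4 := le_trans (mul_le_mul_of_nonneg_left (fact_ge (n / 3) (by omega))
          (by positivity)) h3
        rw [← le_div_iff₀ sp] at h4
        have : 0 ≤ 1 / (k * (k - 1)) * F := by positivity
        linarith
    refine le_trans (sum_le_sum c1) ?_
    rw [sum_add_distrib, ← sum_mul, sum_const, nsmul_eq_mul, Nat.card_Ioc]
    have c2 := mul_le_mul_of_nonneg_right (tele K hK (n - 1)) F0.le
    have c3 : ((n - 1 - K : ℕ) : ℝ) ≤ n := by exact_mod_cast (by omega : n - 1 - K ≤ n)
    have c4 : (n : ℝ) * (F / (s * (s - 1))) ≤ 1 / K * F := by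
      rw [mul_div_assoc', div_le_iff₀ sp, one_div_mul_eq_div, div_mul_eq_mul_div,
        le_div_iff₀ (by positivity)]
      have : (n : ℝ) * K ≤ s * (s - 1) := by nlinarith
      nlinarith
    have c5 := mul_le_mul_of_nonneg_right c3 (show 0 ≤ F / (s * (s - 1)) by positivity)
    have : (2 : ℝ) / K * F = 1 / K * F + 1 / K * F := by ring
    linarith
  have : (3 : ℝ) / K * F = 1 / K * F + 2 / K * F := by ring
  linarith

theorem p_eq (z a : Fin n) (hz : (z : ℕ) = 0) : p n (a + 1) =
    ((univ.filter fun τ : Equiv.Perm (Fin n) => MinOverlapping τ ∧ τ z = a).card : ℝ) /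
      (n - 1).factorial := by
  unfold p
  congr 3
  ext τ
  simp only [mem_filter, mem_univ, true_and]
  constructor
  · rintro ⟨h, y, hy, h2⟩
    rw [show z = y from Fin.ext (by omega)]
    exact ⟨h, Fin.ext (by omega)⟩
  · rintro ⟨h, h2⟩
    exact ⟨h, z, hz, by rw [h2]⟩

theorem adj (m : ℕ) : Filter.Tendsto (fun n => p n (m + 1) - p n (m + 2)) Filter.atTop (nhds 0) := by
  rw [Metric.tendsto_atTop]
  intro ε hε
  obtain ⟨K, hK⟩ := exists_nat_gt (3 / ε)
  have K0 : (0 : ℝ) < K := lt_trans (by positivity) hK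
  have K1 : 1 ≤ K := by exact_mod_cast K0
  refine ⟨30 * K * K + m + 2, fun n hn => ?_⟩
  have e1 := p_eq (n := n) ⟨0, by omega⟩ ⟨m, by omega⟩ rfl
  have e2 := p_eq (n := n) ⟨0, by omega⟩ ⟨m + 1, by omega⟩ rfl
  have s1 := step2 (n := n) ⟨0, by omega⟩ ⟨m, by omega⟩ ⟨m + 1, by omega⟩ rfl (Or.inl rfl) K K1
    (by omega)
  have s2 := step2 (n := n) ⟨0, by omega⟩ ⟨m + 1, by omega⟩ ⟨m, by omega⟩ rfl (Or.inr rfl) K K1
    (by omega)
  have F0 : (0 : ℝ) < (n - 1).factorial := by positivity
  have h3 : 3 / (K : ℝ) < ε := by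
    rw [div_lt_iff₀ K0]; rw [div_lt_iff₀ hε] at hK; linarith
  rw [Real.dist_eq, sub_zero]
  dsimp only at e1 e2
  rw [e1, e2, ← sub_div, abs_div, abs_of_pos F0, div_lt_iff₀ F0, abs_lt]
  have := mul_lt_mul_of_pos_right h3 F0
  constructor <;> linarith

theorem main (a b : ℕ) (ha : 1 ≤ a) (hab : a ≤ b) :
    Filter.Tendsto (fun n => p n a - p n b) Filter.atTop (nhds 0) := by
  induction b, hab using Nat.le_induction with
  | base => simp
  | succ b hb ih =>
    obtain ⟨c, rfl⟩ : ∃ c, b = c + 1 := ⟨b - 1, by omega⟩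
    have := ih.add (adj c)
    simpa using this

end Pool.Agent.H30.Ov
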