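import Mathlib

set_option autoImplicit false
open Classical

namespace Pool.Agent.H30.OvDefs

/-- The first `k` and the last `k` entries of `τ` are order-isomorphic (positions from `0`). -/
def Overlap {n : ℕ} (τ : Equiv.Perm (Fin n)) (k : ℕ) : Prop :=
  ∀ i j i' j' : Fin n, (i : ℕ) < k → (j : ℕ) < k → (i' : ℕ) = n - k + i → (j' : ℕ) = n - k + j →
    (τ i < τ j ↔ τ i' < τ j')

def MinOverlapping {n : ℕ} (τ : Equiv.Perm (Fin n)) : Prop :=
  ¬ ∃ k, 2 ≤ k ∧ k ≤ n - 1 ∧ Overlap τ k

/-- Proportion of minimal overlapping permutations among those of length `n` whose first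
entry is `m` (values counted from `1`). -/
noncomputable def p (n m : ℕ) : ℝ :=
  ((Finset.univ.filter fun τ : Equiv.Perm (Fin n) =>
    MinOverlapping τ ∧ ∃ z : Fin n, (z : ℕ) = 0 ∧ (τ z : ℕ) + 1 = m).card : ℝ) / (n - 1).factorial

end Pool.Agent.H30.OvDefs
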