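import Mathlib

set_option autoImplicit false

namespace Pool.Agent.H30.Picker

open Finset

/-- Jensen-type consequence of the exponential potential. -/
theorem jensen {ι : Type} [Fintype ι] [DecidableEq ι] (u : ι → ℝ) (lam N : ℝ) (hl : 0 < lam)
    (hN : 0 < N) (h : ∑ t, Real.exp (lam * u t) ≤ N) (S : Finset ι) (hS : 0 < S.card) :
    ∑ t ∈ S, u t ≤ S.card * (Real.log (N / S.card) / lam) := by
  have hc : (0 : ℝ) < S.card := by exact_mod_cast hS
  set mu := Real.log (N / S.card) with hmu
  have he : Real.exp mu = N / S.card := Real.exp_log (by positivity)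
  have h1 : ∑ t ∈ S, (lam * u t - mu + 1) ≤ ∑ t ∈ S, Real.exp (lam * u t) / Real.exp mu := by
    apply Finset.sum_le_sum
    intro t _
    rw [← Real.exp_sub]
    exact Real.add_one_le_exp _
  have h2 : ∑ t ∈ S, Real.exp (lam * u t) ≤ N :=
    le_trans (Finset.sum_le_sum_of_subset_of_nonneg (Finset.subset_univ S)
      (fun t _ _ => (Real.exp_pos _).le)) h
  rw [← Finset.sum_div, he] at h1
  have h3 : (∑ t ∈ S, Real.exp (lam * u t)) / (N / S.card) ≤ S.card := by
    rw [div_le_iff₀ (by positivity)]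
    have : (S.card : ℝ) * (N / S.card) = N := by field_simp
    linarith
  have h4 : ∑ t ∈ S, (lam * u t - mu + 1) = lam * ∑ t ∈ S, u t - S.card * mu + S.card := by
    rw [Finset.sum_add_distrib, Finset.sum_sub_distrib, Finset.mul_sum]
    simp
  have h5 : lam * ∑ t ∈ S, u t ≤ S.card * mu := by linarith
  have : (S.card : ℝ) * (mu / lam) = (S.card * mu) / lam := by ring
  rw [this, le_div_iff₀ hl]
  linarith

/-- The invariant kept by Chooser. -/
def Inv {ι : Type} [Fintype ι] (lam N : ℝ) (K : ℕ) (u : ι → ℝ) : Prop :=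
  ∑ t, Real.exp (lam * u t) ≤ N ∧
    ∀ S : Finset ι, S.card ≤ K + 1 →
      ∑ t ∈ S, u t ≤ S.card * (Real.log (N / (K + 1 : ℕ)) / lam) + S.card * ((K : ℝ) + 1 - S.card)

theorem pot_step (lam a b : ℝ) (hl : 0 < lam) (hab : b ≤ a) :
    Real.exp (lam * (a + (-1 - lam / 2))) + Real.exp (lam * (b + (1 - lam / 2)))
      ≤ Real.exp (lam * a) + Real.exp (lam * b) := by
  have hc := Real.cosh_le_exp_half_sq lam
  rw [Real.cosh_eq] at hc
  have e1 : Real.exp (lam * (a + (-1 - lam / 2)))
      = Real.exp (lam * a) * (Real.exp (-lam) / Real.exp (lam ^ 2 / 2)) := by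
    rw [← Real.exp_sub, ← Real.exp_add]; congr 1; ring
  have e2 : Real.exp (lam * (b + (1 - lam / 2)))
      = Real.exp (lam * b) * (Real.exp lam / Real.exp (lam ^ 2 / 2)) := by
    rw [← Real.exp_sub, ← Real.exp_add]; congr 1; ring
  rw [e1, e2]
  have hE : 0 < Real.exp (lam ^ 2 / 2) := Real.exp_pos _
  set x := Real.exp (-lam) / Real.exp (lam ^ 2 / 2) with hx
  set y := Real.exp lam / Real.exp (lam ^ 2 / 2) with hy
  have hxy : x + y ≤ 2 := by
    rw [hx, hy, ← add_div, div_le_iff₀ hE]; linarith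
  have hx1 : x ≤ 1 := by
    rw [hx, div_le_one hE]
    apply Real.exp_le_exp.2
    nlinarith [sq_nonneg lam]
  have hAB : Real.exp (lam * b) ≤ Real.exp (lam * a) :=
    Real.exp_le_exp.2 (mul_le_mul_of_nonneg_left hab hl.le)
  have hB : 0 < Real.exp (lam * b) := Real.exp_pos _
  nlinarith [mul_nonneg (sub_nonneg.2 hAB) (sub_nonneg.2 hx1),
    mul_nonneg hB.le (sub_nonneg.2 hxy)]

theorem inv_step {ι : Type} [Fintype ι] [DecidableEq ι] (lam N : ℝ) (K : ℕ) (hl : 0 < lam)
    (hN : 0 < N) (u u' : ι → ℝ) (i j : ι) (hij : u j ≤ u i)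
    (hu' : ∀ t, u' t = u t + (if t = j then 1 - lam / 2 else 0)
      + (if t = i then -1 - lam / 2 else 0))
    (h : Inv lam N K u) : Inv lam N K u' := by
  obtain ⟨h1, h2⟩ := h
  have hpot : ∑ t, Real.exp (lam * u' t) ≤ N := by
    refine le_trans ?_ h1
    by_cases e : i = j
    · subst e
      apply Finset.sum_le_sum
      intro t _
      apply Real.exp_le_exp.2
      apply mul_le_mul_of_nonneg_left _ hl.le
      rw [hu']
      split_ifs <;> linarith
    · have hj : j ∈ (Finset.univ : Finset ι).erase i := by simp [Ne.symm e]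
      rw [← Finset.add_sum_erase _ _ (Finset.mem_univ i), ← Finset.add_sum_erase _ _ hj,
        ← Finset.add_sum_erase _ (fun t => Real.exp (lam * u t)) (Finset.mem_univ i),
        ← Finset.add_sum_erase _ (fun t => Real.exp (lam * u t)) hj]
      have hs : ∑ t ∈ (Finset.univ.erase i).erase j, Real.exp (lam * u' t)
          = ∑ t ∈ (Finset.univ.erase i).erase j, Real.exp (lam * u t) := by
        apply Finset.sum_congr rfl
        intro t ht
        simp only [Finset.mem_erase] at ht
        rw [hu']; simp [ht.1, ht.2.1]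
      have hi' : u' i = u i + (-1 - lam / 2) := by rw [hu']; simp [e]
      have hj' : u' j = u j + (1 - lam / 2) := by rw [hu']; simp [Ne.symm e]
      rw [hs, hi', hj']
      have := pot_step lam (u i) (u j) hl hij
      linarith
  refine ⟨hpot, ?_⟩
  intro S hS
  have hsum : ∑ t ∈ S, u' t = ∑ t ∈ S, u t + (if j ∈ S then 1 - lam / 2 else 0)
      + (if i ∈ S then -1 - lam / 2 else 0) := by
    simp only [hu', Finset.sum_add_distrib, Finset.sum_ite_eq']
  rcases Nat.lt_or_ge S.card (K + 1) with hlt | hge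
  · by_cases hj : j ∈ S
    · by_cases hi : i ∈ S
      · rw [hsum]; simp only [hi, hj, if_true]
        have := h2 S hS
        linarith
      · rw [hsum]; simp only [hi, hj, if_true, if_false]
        have hA := h2 (S.erase j) (by rw [Finset.card_erase_of_mem hj]; omega)
        have hB := h2 (insert i S) (by rw [Finset.card_insert_of_notMem hi]; omega)
        have hpos : 0 < S.card := Finset.card_pos.2 ⟨j, hj⟩
        rw [Finset.card_erase_of_mem hj] at hA
        rw [Finset.card_insert_of_notMem hi, Finset.sum_insert hi] at hB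
        have hC := Finset.add_sum_erase S u hj
        have hc1 : ((S.card - 1 : ℕ) : ℝ) = S.card - 1 := by
          rw [Nat.cast_sub hpos]; simp
        rw [hc1] at hA
        push_cast at hA hB ⊢
        nlinarith
    · rw [hsum]; simp only [hj, if_false]
      have := h2 S hS
      split_ifs <;> linarith
  · have he : S.card = K + 1 := le_antisymm hS hge
    have := jensen u' lam N hl hN hpot S (by omega)
    rw [he] at this ⊢
    push_cast at this ⊢
    linarith

theorem inv_zero {ι : Type} [Fintype ι] (lam : ℝ) (K : ℕ) (hl : 0 < lam)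
    (hK : K + 1 ≤ Fintype.card ι) : Inv lam (Fintype.card ι) K (fun _ : ι => (0 : ℝ)) := by
  refine ⟨by simp, ?_⟩
  intro S hS
  have h1 : (0 : ℝ) ≤ Real.log ((Fintype.card ι : ℝ) / (K + 1 : ℕ)) := by
    apply Real.log_nonneg
    rw [le_div_iff₀ (by positivity)]
    simpa using (show ((K + 1 : ℕ) : ℝ) ≤ Fintype.card ι by exact_mod_cast hK)
  have h2 : (S.card : ℝ) ≤ K + 1 := by exact_mod_cast hS
  simp only [Finset.sum_const_zero]
  have : (0 : ℝ) ≤ (K : ℝ) + 1 - S.card := by linarith
  positivity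

/-- number of cells of `P` in row `i` -/
def rc {n : ℕ} (P : Finset (Fin n × Fin n)) (i : Fin n) : ℕ :=
  (Finset.filter (fun x : Fin n × Fin n => x.1 = i) P).card

theorem rc_insert {n : ℕ} (P : Finset (Fin n × Fin n)) (a : Fin n × Fin n) (ha : a ∉ P)
    (i : Fin n) : (rc (insert a P) i : ℝ) = rc P i + if i = a.1 then 1 else 0 := by
  unfold rc
  rw [Finset.filter_insert]
  by_cases h : a.1 = i
  · rw [if_pos h, Finset.card_insert_of_notMem (by simp [ha]), if_pos h.symm]; push_cast; rfl
  · rw [if_neg h, if_neg (Ne.symm h)]; simp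

theorem rc_add_le {n : ℕ} (P C : Finset (Fin n × Fin n)) (h : Disjoint P C) (i : Fin n) :
    rc P i + rc C i ≤ n := by
  unfold rc
  rw [← Finset.card_union_of_disjoint (Finset.disjoint_filter_filter h)]
  calc _ ≤ (Finset.univ.image (fun y : Fin n => (i, y))).card := by
        apply Finset.card_le_card
        intro x hx
        simp only [Finset.mem_union, Finset.mem_filter] at hx
        have : x.1 = i := by rcases hx with h | h <;> exact h.2
        simp only [Finset.mem_image, Finset.mem_univ, true_and]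
        exact ⟨x.2, by rw [← this]⟩
    _ ≤ n := le_trans Finset.card_image_le (by simp)

/-- the adjusted lead -/
noncomputable def uu {n : ℕ} (lam : ℝ) (P C : Finset (Fin n × Fin n)) (i : Fin n) : ℝ :=
  (rc P i : ℝ) - rc C i - lam / 2 * ((rc P i : ℝ) + rc C i)

theorem bound {n : ℕ} (hn : 0 < n) (lam : ℝ) (hl : 0 < lam) (K : ℕ) (k : ℤ)
    (W : Set (Finset (Fin n × Fin n) × Finset (Fin n × Fin n)))
    (hW : ∀ p ∈ W,
            ((p.1 ∪ p.2).card + 2 > n * n ∧
              ∃ i : Fin n, k ≤ ((Finset.filter (fun x : Fin n × Fin n => x.1 = i) p.1).card : ℤ)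
                  - ((Finset.filter (fun x : Fin n × Fin n => x.1 = i) p.2).card : ℤ)) ∨
            ∃ a b : Fin n × Fin n, a ≠ b ∧ a ∉ p.1 ∪ p.2 ∧ b ∉ p.1 ∪ p.2 ∧
              (insert a p.1, insert b p.2) ∈ W ∧ (insert b p.1, insert a p.2) ∈ W) :
    ∀ m : ℕ, ∀ p ∈ W, n * n - (p.1 ∪ p.2).card ≤ m → Disjoint p.1 p.2 →
      Inv lam n K (uu lam p.1 p.2) →
      (k : ℝ) ≤ Real.log ((n : ℝ) / (K + 1 : ℕ)) / lam + K + lam / 2 * n := by
  have hN : (0 : ℝ) < n := by exact_mod_cast hn
  have key : ∀ (P C : Finset (Fin n × Fin n)) (a b : Fin n × Fin n), a ≠ b → a ∉ P ∪ C →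
      b ∉ P ∪ C → Disjoint P C → Inv lam n K (uu lam P C) → uu lam P C a.1 ≤ uu lam P C b.1 →
      Disjoint (insert a P) (insert b C) ∧ Inv lam n K (uu lam (insert a P) (insert b C)) ∧
        (insert a P ∪ insert b C).card = (P ∪ C).card + 2 := by
    intro P C a b hab ha hb hd hI hle
    simp only [Finset.mem_union, not_or] at ha hb
    refine ⟨?_, ?_, ?_⟩
    · rw [Finset.disjoint_insert_left, Finset.disjoint_insert_right]
      simp [hab, ha.2, hb.1, hd]
    · apply inv_step lam n K hl hN (uu lam P C) _ b.1 a.1 hle _ hI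
      intro t
      unfold uu
      rw [rc_insert P a ha.1, rc_insert C b hb.2]
      split_ifs <;> ring
    · rw [Finset.insert_union, Finset.union_insert, Finset.card_insert_of_notMem,
        Finset.card_insert_of_notMem]
      · simp [hb.1, hb.2]
      · simp [hab, ha.1, ha.2]
  have hcard : ∀ S : Finset (Fin n × Fin n), S.card ≤ n * n := fun S => by
    simpa using Finset.card_le_univ S
  intro m
  induction m with
  | zero =>
    intro p hp hm hd hI
    rcases hW p hp with ⟨_, i, hi⟩ | ⟨a, b, hab, ha, hb, h1, h2⟩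
    · have h1 := hI.2 {i} (by simp)
      have h2 := rc_add_le p.1 p.2 hd i
      have h3 : (k : ℝ) ≤ (rc p.1 i : ℝ) - rc p.2 i := by unfold rc; exact_mod_cast hi
      have h4 : (rc p.1 i : ℝ) + rc p.2 i ≤ n := by exact_mod_cast h2
      simp only [Finset.sum_singleton, Finset.card_singleton, uu] at h1
      push_cast at h1 ⊢
      nlinarith
    · exfalso
      rcases le_total (uu lam p.1 p.2 a.1) (uu lam p.1 p.2 b.1) with h | h
      · have := (key _ _ a b hab ha hb hd hI h).2.2
        have := hcard (insert a p.1 ∪ insert b p.2)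
        omega
      · have := (key _ _ b a hab.symm hb ha hd hI h).2.2
        have := hcard (insert b p.1 ∪ insert a p.2)
        omega
  | succ m ih =>
    intro p hp hm hd hI
    rcases hW p hp with ⟨_, i, hi⟩ | ⟨a, b, hab, ha, hb, h1, h2⟩
    · have h1 := hI.2 {i} (by simp)
      have h2 := rc_add_le p.1 p.2 hd i
      have h3 : (k : ℝ) ≤ (rc p.1 i : ℝ) - rc p.2 i := by unfold rc; exact_mod_cast hi
      have h4 : (rc p.1 i : ℝ) + rc p.2 i ≤ n := by exact_mod_cast h2
      simp only [Finset.sum_singleton, Finset.card_singleton, uu] at h1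
      push_cast at h1 ⊢
      nlinarith
    · rcases le_total (uu lam p.1 p.2 a.1) (uu lam p.1 p.2 b.1) with h | h
      · obtain ⟨k1, k2, k3⟩ := key _ _ a b hab ha hb hd hI h
        exact ih _ h1 (by simp only; omega) k1 k2
      · obtain ⟨k1, k2, k3⟩ := key _ _ b a hab.symm hb ha hd hI h
        exact ih _ h2 (by simp only; omega) k1 k2

/-- Chooser keeps every lead at most `sqrt (n log n) + sqrt n`. -/
theorem main {n : ℕ} (hn : 2 ≤ n) (k : ℤ)
    (W : Set (Finset (Fin n × Fin n) × Finset (Fin n × Fin n)))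
    (h0 : ((∅ : Finset (Fin n × Fin n)), (∅ : Finset (Fin n × Fin n))) ∈ W)
    (hW : ∀ p ∈ W,
            ((p.1 ∪ p.2).card + 2 > n * n ∧
              ∃ i : Fin n, k ≤ ((Finset.filter (fun x : Fin n × Fin n => x.1 = i) p.1).card : ℤ)
                  - ((Finset.filter (fun x : Fin n × Fin n => x.1 = i) p.2).card : ℤ)) ∨
            ∃ a b : Fin n × Fin n, a ≠ b ∧ a ∉ p.1 ∪ p.2 ∧ b ∉ p.1 ∪ p.2 ∧
              (insert a p.1, insert b p.2) ∈ W ∧ (insert b p.1, insert a p.2) ∈ W) :
    (k : ℝ) ≤ Real.sqrt (n * Real.log n) + Real.sqrt n := by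
  have hN : (1 : ℝ) < n := by exact_mod_cast hn
  have hL : 0 < Real.log n := Real.log_pos hN
  set R := Real.sqrt (n * Real.log n) with hR
  have hR2 : R * R = n * Real.log n := Real.mul_self_sqrt (by positivity)
  have hRpos : 0 < R := Real.sqrt_pos.2 (by positivity)
  have hl : 0 < R / n := by positivity
  have hK : Nat.sqrt n + 1 ≤ n := Nat.sqrt_lt_self (by omega)
  have hI : Inv (R / n) n (Nat.sqrt n)
      (uu (R / n) (∅ : Finset (Fin n × Fin n)) (∅ : Finset (Fin n × Fin n))) := by
    have := inv_zero (ι := Fin n) (R / n) (Nat.sqrt n) hl (by simpa using hK)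
    have e : uu (R / n) (∅ : Finset (Fin n × Fin n)) (∅ : Finset (Fin n × Fin n))
        = fun _ => (0 : ℝ) := by
      funext i; simp [uu, rc]
    rw [e]; simpa using this
  have hb := bound (by omega) (R / n) hl (Nat.sqrt n) k W hW _ _ h0 le_rfl (by simp) hI
  have hs1 : (Nat.sqrt n : ℝ) ≤ Real.sqrt n := Real.nat_sqrt_le_real_sqrt
  have hs2 : Real.sqrt n ≤ ((Nat.sqrt n + 1 : ℕ) : ℝ) := by
    push_cast; exact Real.real_sqrt_le_nat_sqrt_succ
  have hsp : 0 < Real.sqrt n := Real.sqrt_pos.2 (by linarith)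
  have hlog : Real.log ((n : ℝ) / (Nat.sqrt n + 1 : ℕ)) ≤ Real.log n / 2 := by
    rw [← Real.log_sqrt (by linarith)]
    apply Real.log_le_log (by positivity)
    rw [div_le_iff₀ (by positivity)]
    have := Real.mul_self_sqrt (show (0 : ℝ) ≤ n by linarith)
    nlinarith
  have h1 : Real.log ((n : ℝ) / (Nat.sqrt n + 1 : ℕ)) / (R / n) ≤ R / 2 := by
    rw [div_le_iff₀ hl]
    have : R / 2 * (R / n) = Real.log n / 2 := by
      field_simp; nlinarith
    linarith
  have h2 : R / n / 2 * n = R / 2 := by field_simp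
  linarith

end Pool.Agent.H30.Picker
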