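import Pool.Agent.H30.PlacDefs
import Pool.Agent.H37.RE

namespace Pool.Agent.H30.Plac

open Pool.Agent.H37

/-- product of the bicyclic monoid: `(i, j)` is `a ^ i b ^ j` with `b a = 1` -/
def mu (p q : ℕ × ℕ) : ℕ × ℕ := (p.1 + q.1 - min p.2 q.1, p.2 + q.2 - min p.2 q.1)

theorem mu_assoc (p q r : ℕ × ℕ) : mu (mu p q) r = mu p (mu q r) := by
  simp only [mu, Prod.mk.injEq]; omega

def ph (a b x : ℕ) : ℕ × ℕ := if x = a then (1, 0) else if x = b then (0, 1) else (0, 0)

def PH (a b : ℕ) : List ℕ → ℕ × ℕ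
  | [] => (0, 0)
  | x :: w => mu (ph a b x) (PH a b w)

theorem PH_app (a b : ℕ) : ∀ u v, PH a b (u ++ v) = mu (PH a b u) (PH a b v)
  | [], v => by simp [PH, mu]
  | x :: u, v => by rw [List.cons_append, PH, PH_app a b u v, PH, mu_assoc]

variable {L : Set ℕ} {lt : ℕ → ℕ → Prop}

theorem inv (h : RecOrd L lt) {a b : ℕ} (ha : a ∈ L) (hb : b ∈ L) (hab : lt a b)
    (hn : ∀ y ∈ L, lt a y → ¬ lt y b) {s t : List ℕ} (e : PEq L lt s t) : PH a b s = PH a b t := by
  have ne : a ≠ b := fun e => h.irr a ha (e ▸ hab)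
  have nba : ¬ lt b a := fun e => h.irr a ha (h.tr a ha b hb a ha hab e)
  induction e with
  | refl => rfl
  | symm _ _ _ ih => exact ih.symm
  | trans _ _ _ _ _ i1 i2 => exact i1.trans i2
  | rel s t e =>
    obtain ⟨u, v, p, q, k, rfl, rfl⟩ := e
    rw [PH_app, PH_app, PH_app, PH_app]
    congr 2
    cases k with
    | @one x y z hx hy hz h1 h2 =>
      have h3 : lt x z := h1.elim (fun h1 => h.tr x hx y hy z hz h1 h2) fun e => e ▸ h2
      by_cases c1 : x = a ∧ z = b
      · obtain ⟨rfl, rfl⟩ := c1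
        obtain rfl : x = y := h1.resolve_left fun h1 => hn y hy h1 h2
        simp [PH, ph, mu, ne.symm]
      · have c2 : ¬ (x = b ∧ z = a) := fun c => nba (c.1 ▸ c.2 ▸ h3)
        have c3 : x ≠ z := fun e => h.irr x hx (e ▸ h3)
        simp only [PH, ← mu_assoc]
        congr 2
        unfold ph
        split_ifs <;> simp_all [mu]
    | @two x y z hx hy hz h1 h2 =>
      have h3 : lt x z := h2.elim (fun h2 => h.tr x hx y hy z hz h1 h2) fun e => e ▸ h1
      by_cases c1 : x = a ∧ z = b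
      · obtain ⟨rfl, rfl⟩ := c1
        obtain rfl : y = z := h2.resolve_left fun h2 => hn y hy h1 h2
        simp [PH, ph, mu, ne.symm]
      · have c2 : ¬ (x = b ∧ z = a) := fun c => nba (c.1 ▸ c.2 ▸ h3)
        have c3 : x ≠ z := fun e => h.irr x hx (e ▸ h3)
        simp only [PH]
        congr 1
        simp only [← mu_assoc]
        congr 1
        unfold ph
        split_ifs <;> simp_all [mu]

def sys (a b : ℕ) : Sys :=
  [([.inr b, .inr a, .inl 0], [.inr a, .inr b, .inl 0]),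
   ([.inl 0, .inr a, .inr b], [.inl 0, .inr b, .inr a]),
   ([.inl 0, .inr a, .inl 0], [.inl 0, .inl 0, .inr a]),
   ([.inr b, .inl 0, .inl 0], [.inl 0, .inr b, .inl 0])]

theorem solv_iff (h : RecOrd L lt) {a b : ℕ} (ha : a ∈ L) (hb : b ∈ L) (hab : lt a b) :
    Solv L lt (sys a b) ↔ ∃ y ∈ L, lt a y ∧ lt y b := by
  constructor
  · rintro ⟨σ, -, hs⟩
    by_contra hn
    have ne : b ≠ a := fun e => h.irr a ha (e ▸ hab)
    have key := fun e he => inv h ha hb hab (fun y hy h1 h2 => hn ⟨y, hy, h1, h2⟩) (hs e he)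
    simp only [sys, List.forall_mem_cons, ev, List.flatMap_cons, List.flatMap_nil, Sum.elim_inl,
      Sum.elim_inr, PH_app, PH, ph, if_true, ne, if_false] at key
    generalize PH a b (σ 0) = p at key
    obtain ⟨i, j⟩ := p
    simp only [mu, Prod.mk.injEq] at key
    omega
  · rintro ⟨y, hy, h1, h2⟩
    refine ⟨fun _ => [y], by simpa using hy, ?_⟩
    simp only [sys, List.forall_mem_cons]
    exact ⟨.rel _ _ ⟨[], [], _, _, .one ha hy hb (Or.inl h1) h2, rfl, rfl⟩,
      .rel _ _ ⟨[], [], _, _, .two ha hy hb h1 (Or.inl h2), rfl, rfl⟩,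
      .rel _ _ ⟨[], [], _, _, .two ha hy hy h1 (Or.inr rfl), rfl, rfl⟩,
      .rel _ _ ⟨[], [], _, _, .one hy hy hb (Or.inr rfl) h2, rfl, rfl⟩, by simp⟩

def L0 : Set ℕ := {x | x.unpair.2 < 2 ∨ Kst x.unpair.1 x.unpair.2 = true}

def lt0 (x y : ℕ) : Prop := x.unpair.1 < y.unpair.1 ∨ (x.unpair.1 = y.unpair.1 ∧
  x.unpair.2 ≠ 1 ∧ (y.unpair.2 = 1 ∨ x.unpair.2 < y.unpair.2))

theorem rec0 : RecOrd L0 lt0 where
  memc := computablePred_of (fun x => decide (x.unpair.2 < 2) || Kst x.unpair.1 x.unpair.2)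
    (by fun_prop) fun x => by simp [L0]
  ltc := computablePred_of (fun p => decide (p.1.unpair.1 < p.2.unpair.1) ||
      (decide (p.1.unpair.1 = p.2.unpair.1) && (!decide (p.1.unpair.2 = 1) &&
        (decide (p.2.unpair.2 = 1) || decide (p.1.unpair.2 < p.2.unpair.2)))))
    (by fun_prop) fun x => by simp [lt0]
  irr := fun x _ => by unfold lt0; omega
  tr := fun x _ y _ z _ => by unfold lt0; omega
  tot := fun x _ y _ => by
    by_cases e : x.unpair.1 = y.unpair.1 ∧ x.unpair.2 = y.unpair.2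
    · refine Or.inr (Or.inl ?_)
      rw [← Nat.pair_unpair x, e.1, e.2, Nat.pair_unpair]
    · unfold lt0; omega

theorem main : ¬ ∃ f : Sys → Bool, Computable f ∧
    ∀ S, Over L0 S → (f S = true ↔ Solv L0 lt0 S) := by
  rintro ⟨f, hf, h⟩
  refine K_not_computable (fun n => f (sys (Nat.pair n 0) (Nat.pair n 1))) ?_ fun n => ?_
  · refine CI.comp1 hf ?_
    unfold sys
    fun_prop
  · have ha : Nat.pair n 0 ∈ L0 := by simp [L0]
    have hb : Nat.pair n 1 ∈ L0 := by simp [L0]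
    rw [h _ (by simp [Over, sys]; grind), solv_iff rec0 ha hb (by simp [lt0])]
    constructor
    · rintro ⟨y, hy, h1, h2⟩
      simp only [lt0, Nat.unpair_pair] at h1 h2
      rcases hy with hy | hy
      · omega
      · exact ⟨_, show y.unpair.1 = n by omega ▸ hy⟩
    · rintro ⟨s, hs⟩
      exact ⟨Nat.pair n (s + 2), Or.inr (by simpa using Kst_mono (by omega) hs), by simp [lt0],
        by simp [lt0]⟩

end Pool.Agent.H30.Plac
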