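import Mathlib

/-! The plactic monoid of a totally ordered set of natural numbers and its Diophantine problem. -/

namespace Pool.Agent.H30.Plac

variable (L : Set ℕ) (lt : ℕ → ℕ → Prop)

/-- the Knuth relations between words of letters of `L` -/
inductive Knuth : List ℕ → List ℕ → Prop
  | one {x y z : ℕ} : x ∈ L → y ∈ L → z ∈ L → (lt x y ∨ x = y) → lt y z → Knuth [z, x, y] [x, z, y]
  | two {x y z : ℕ} : x ∈ L → y ∈ L → z ∈ L → lt x y → (lt y z ∨ y = z) → Knuth [y, x, z] [y, z, x]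

/-- equality in the plactic monoid: the congruence generated by the Knuth relations -/
def PEq : List ℕ → List ℕ → Prop :=
  Relation.EqvGen fun s t => ∃ u v a b, Knuth L lt a b ∧ s = u ++ a ++ v ∧ t = u ++ b ++ v

/-- `inl` is a variable, `inr` a constant -/
def ev (σ : ℕ → List ℕ) (w : List (ℕ ⊕ ℕ)) : List ℕ := w.flatMap (Sum.elim σ fun c => [c])

abbrev Sys : Type := List (List (ℕ ⊕ ℕ) × List (ℕ ⊕ ℕ))

def Over (S : Sys) : Prop := ∀ e ∈ S, ∀ c, Sum.inr c ∈ e.1 ++ e.2 → c ∈ L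

def Solv (S : Sys) : Prop :=
  ∃ σ : ℕ → List ℕ, (∀ n, ∀ x ∈ σ n, x ∈ L) ∧ ∀ e ∈ S, PEq L lt (ev σ e.1) (ev σ e.2)

structure RecOrd : Prop where
  memc : ComputablePred (· ∈ L)
  ltc : ComputablePred fun p : ℕ × ℕ => lt p.1 p.2
  irr : ∀ x ∈ L, ¬ lt x x
  tr : ∀ x ∈ L, ∀ y ∈ L, ∀ z ∈ L, lt x y → lt y z → lt x z
  tot : ∀ x ∈ L, ∀ y ∈ L, lt x y ∨ x = y ∨ lt y x

end Pool.Agent.H30.Plac
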