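import Mathlib

/-! Elementary product probability on Boolean configurations. -/

namespace Pool.Agent.H30.Qd

open Finset

variable {E : Type} [Fintype E] [DecidableEq E]

noncomputable def wt (p : ℝ) (ω : E → Bool) : ℝ := ∏ e, if ω e then p else 1 - p

noncomputable def Ex (p : ℝ) (f : (E → Bool) → ℝ) : ℝ := ∑ ω, wt p ω * f ω

open Classical in
noncomputable def ind (P : Prop) : ℝ := if P then 1 else 0

noncomputable def Pr (p : ℝ) (A : (E → Bool) → Prop) : ℝ := Ex p fun ω => ind (A ω)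

def Dep {α : Sort*} (f : (E → Bool) → α) (T : Finset E) : Prop :=
  ∀ ω ω', (∀ e ∈ T, ω e = ω' e) → f ω = f ω'

theorem ind_pos {P : Prop} (h : P) : ind P = 1 := if_pos h
theorem ind_neg {P : Prop} (h : ¬ P) : ind P = 0 := if_neg h
theorem ind_nonneg (P : Prop) : 0 ≤ ind P := by unfold ind; split_ifs <;> norm_num
theorem ind_le_one (P : Prop) : ind P ≤ 1 := by unfold ind; split_ifs <;> norm_num
theorem ind_mono {P Q : Prop} (h : P → Q) : ind P ≤ ind Q := by
  by_cases hP : P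
  · rw [ind_pos hP, ind_pos (h hP)]
  · rw [ind_neg hP]; exact ind_nonneg Q
theorem ind_le {P : Prop} {x : ℝ} (h0 : 0 ≤ x) (h : P → 1 ≤ x) : ind P ≤ x := by
  by_cases hP : P
  · rw [ind_pos hP]; exact h hP
  · rw [ind_neg hP]; exact h0
theorem ind_and (P Q : Prop) : ind (P ∧ Q) = ind P * ind Q := by
  by_cases hP : P <;> by_cases hQ : Q <;> simp [ind, hP, hQ]
theorem ind_not (P : Prop) : ind (¬ P) = 1 - ind P := by
  by_cases hP : P <;> simp [ind, hP]
theorem ind_forall {ι : Type} (s : Finset ι) (P : ι → Prop) :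
    ind (∀ i ∈ s, P i) = ∏ i ∈ s, ind (P i) := by
  classical
  induction s using Finset.induction_on with
  | empty => simp [ind]
  | insert a s ha ih => rw [prod_insert ha, ← ih, ← ind_and]; simp

variable {p : ℝ}

omit [DecidableEq E] in
theorem wt_nonneg (h0 : 0 ≤ p) (h1 : p ≤ 1) (ω : E → Bool) : 0 ≤ wt p ω :=
  prod_nonneg fun e _ => by split_ifs <;> linarith

theorem Ex_coords (h : E → Bool → ℝ) :
    Ex p (fun ω => ∏ e, h e (ω e)) = ∏ e, (p * h e true + (1 - p) * h e false) := by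
  have := Finset.prod_univ_sum (fun _ : E => (univ : Finset Bool))
    (fun e b => (if b then p else 1 - p) * h e b)
  rw [Fintype.piFinset_univ] at this
  simp only [Ex, wt, ← prod_mul_distrib]
  rw [← this]
  simp

theorem Ex_const (c : ℝ) : Ex p (fun _ : E → Bool => c) = c := by
  have := Ex_coords (p := p) (fun (_ : E) _ => (1 : ℝ))
  simp only [Ex, prod_const_one, mul_one, add_sub_cancel] at this
  simp only [Ex, ← sum_mul, this, one_mul]

theorem Ex_mono (h0 : 0 ≤ p) (h1 : p ≤ 1) {f g : (E → Bool) → ℝ} (h : ∀ ω, f ω ≤ g ω) :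
    Ex p f ≤ Ex p g :=
  sum_le_sum fun ω _ => mul_le_mul_of_nonneg_left (h ω) (wt_nonneg h0 h1 ω)

theorem Ex_nonneg (h0 : 0 ≤ p) (h1 : p ≤ 1) {f : (E → Bool) → ℝ} (h : ∀ ω, 0 ≤ f ω) :
    0 ≤ Ex p f := by
  have := Ex_mono h0 h1 (f := fun _ => 0) h
  rwa [Ex_const] at this

theorem Ex_add (f g : (E → Bool) → ℝ) : Ex p (fun ω => f ω + g ω) = Ex p f + Ex p g := by
  simp only [Ex, mul_add, sum_add_distrib]

theorem Ex_sub (f g : (E → Bool) → ℝ) : Ex p (fun ω => f ω - g ω) = Ex p f - Ex p g := by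
  simp only [Ex, mul_sub, sum_sub_distrib]

theorem Ex_mul (c : ℝ) (f : (E → Bool) → ℝ) : Ex p (fun ω => c * f ω) = c * Ex p f := by
  simp only [Ex, mul_sum]
  exact sum_congr rfl fun _ _ => by ring

theorem Ex_sum {ι : Type} (s : Finset ι) (f : ι → (E → Bool) → ℝ) :
    Ex p (fun ω => ∑ i ∈ s, f i ω) = ∑ i ∈ s, Ex p (f i) := by
  simp only [Ex, mul_sum]
  exact sum_comm

theorem Ex_glue (T : Finset E) (f : (E → Bool) → ℝ) :
    Ex p f = Ex p fun ω => Ex p fun ω' => f (T.piecewise ω ω') := by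
  let Φ : (E → Bool) × (E → Bool) → (E → Bool) × (E → Bool) :=
    fun x => (T.piecewise x.1 x.2, T.piecewise x.2 x.1)
  have hΦ : Function.Involutive Φ := by
    intro x
    ext e <;> by_cases he : e ∈ T <;> simp [Φ, he]
  have hw : ∀ x, wt p (Φ x).1 * wt p (Φ x).2 = wt p x.1 * wt p x.2 := by
    intro x
    simp only [wt, ← prod_mul_distrib]
    refine prod_congr rfl fun e _ => ?_
    by_cases he : e ∈ T <;> simp [Φ, he, mul_comm]
  have h1 : (Ex p fun ω => Ex p fun ω' => f (T.piecewise ω ω')) =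
      ∑ x : (E → Bool) × (E → Bool), wt p (Φ x).1 * wt p (Φ x).2 * f (Φ x).1 := by
    simp only [hw, Ex, mul_sum, Fintype.sum_prod_type, mul_assoc]
    rfl
  have h3 : ∑ x : (E → Bool) × (E → Bool), wt p (Φ x).1 * wt p (Φ x).2 * f (Φ x).1 = _ :=
    Equiv.sum_comp hΦ.toPerm (fun x => wt p x.1 * wt p x.2 * f x.1)
  rw [h1, h3]
  have h2 := Ex_const (p := p) (E := E) 1
  simp only [Ex, mul_one] at h2
  simp only [Fintype.sum_prod_type, Ex]
  refine sum_congr rfl fun ω _ => ?_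
  rw [← sum_mul, ← mul_sum, h2, mul_one]

theorem Ex_indep {T T' : Finset E} (hT : Disjoint T T') {f g : (E → Bool) → ℝ} (hf : Dep f T)
    (hg : Dep g T') : Ex p (fun ω => f ω * g ω) = Ex p f * Ex p g := by
  rw [Ex_glue T]
  have : ∀ ω ω', f (T.piecewise ω ω') * g (T.piecewise ω ω') = f ω * g ω' := by
    intro ω ω'
    rw [hf (T.piecewise ω ω') ω fun e he => by simp [he],
      hg (T.piecewise ω ω') ω' fun e he => by simp [disjoint_right.1 hT he]]
  simp only [this, Ex_mul]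
  simp only [mul_comm _ (Ex p g), Ex_mul]

theorem Ex_prod {ι : Type} (s : Finset ι) (T : ι → Finset E) (f : ι → (E → Bool) → ℝ)
    (hT : ∀ i ∈ s, ∀ j ∈ s, i ≠ j → Disjoint (T i) (T j)) (hf : ∀ i ∈ s, Dep (f i) (T i)) :
    Ex p (fun ω => ∏ i ∈ s, f i ω) = ∏ i ∈ s, Ex p (f i) := by
  classical
  induction s using Finset.induction_on with
  | empty => simp [Ex_const]
  | insert a s ha ih =>
    simp only [prod_insert ha]
    rw [Ex_indep (T := T a) (T' := s.biUnion T), ih (fun i hi j hj => hT i (by simp [hi]) j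
      (by simp [hj])) fun i hi => hf i (by simp [hi])]
    · rw [disjoint_biUnion_right]
      intro i hi
      exact hT a (by simp) i (by simp [hi]) (fun h => ha (h ▸ hi))
    · exact hf a (by simp)
    · intro ω ω' h
      exact prod_congr rfl fun i hi => hf i (by simp [hi]) ω ω' fun e he =>
        h e (mem_biUnion.2 ⟨i, hi, he⟩)

theorem Ex_coord (e : E) (h : Bool → ℝ) :
    Ex p (fun ω => h (ω e)) = p * h true + (1 - p) * h false := by
  have := Ex_coords (p := p) (fun e' b => if e' = e then h b else 1)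
  simp only [prod_ite_eq', mem_univ, if_true] at this
  rw [this, prod_eq_single e]
  · simp
  · intro b _ hb; simp [hb]
  · simp

theorem Pr_nonneg (h0 : 0 ≤ p) (h1 : p ≤ 1) (A : (E → Bool) → Prop) : 0 ≤ Pr p A :=
  Ex_nonneg h0 h1 fun _ => ind_nonneg _

theorem Pr_le_one (h0 : 0 ≤ p) (h1 : p ≤ 1) (A : (E → Bool) → Prop) : Pr p A ≤ 1 := by
  have := Ex_mono h0 h1 (f := fun ω => ind (A ω)) (g := fun _ => 1) fun _ => ind_le_one _
  rwa [Ex_const] at this

theorem Pr_mono (h0 : 0 ≤ p) (h1 : p ≤ 1) {A B : (E → Bool) → Prop} (h : ∀ ω, A ω → B ω) :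
    Pr p A ≤ Pr p B := Ex_mono h0 h1 fun ω => ind_mono (h ω)

theorem Pr_not (A : (E → Bool) → Prop) : Pr p (fun ω => ¬ A ω) = 1 - Pr p A := by
  simp only [Pr, ind_not, Ex_sub, Ex_const]

theorem Pr_or (h0 : 0 ≤ p) (h1 : p ≤ 1) (A B : (E → Bool) → Prop) :
    Pr p (fun ω => A ω ∨ B ω) ≤ Pr p A + Pr p B := by
  rw [Pr, Pr, Pr, ← Ex_add]
  refine Ex_mono h0 h1 fun ω => ind_le (add_nonneg (ind_nonneg _) (ind_nonneg _)) ?_
  rintro (h | h)
  · rw [ind_pos h]; linarith [ind_nonneg (B ω)]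
  · rw [ind_pos h]; linarith [ind_nonneg (A ω)]

theorem Pr_exists (h0 : 0 ≤ p) (h1 : p ≤ 1) {ι : Type} (s : Finset ι)
    (A : ι → (E → Bool) → Prop) : Pr p (fun ω => ∃ i ∈ s, A i ω) ≤ ∑ i ∈ s, Pr p (A i) := by
  simp only [Pr]
  rw [← Ex_sum]
  refine Ex_mono h0 h1 fun ω => ind_le (sum_nonneg fun _ _ => ind_nonneg _) ?_
  rintro ⟨i, hi, h⟩
  rw [← ind_pos h]
  exact single_le_sum (f := fun i => ind (A i ω)) (fun _ _ => ind_nonneg _) hi

theorem Pr_cond (h0 : 0 ≤ p) (h1 : p ≤ 1) {α : Type} {T T' : Finset E} (hT : Disjoint T T')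
    (c : (E → Bool) → α) (hc : Dep c T) (I : α → Prop) (B : α → (E → Bool) → Prop)
    (hB : ∀ x, Dep (B x) T') {ε : ℝ} (hε : 0 ≤ ε) (h : ∀ x, I x → Pr p (B x) ≤ ε) :
    Pr p (fun ω => I (c ω) ∧ B (c ω) ω) ≤ ε := by
  rw [Pr, Ex_glue T, ← Ex_const (p := p) (E := E) ε]
  refine Ex_mono h0 h1 fun ω => ?_
  have : ∀ ω', ind (I (c (T.piecewise ω ω')) ∧ B (c (T.piecewise ω ω')) (T.piecewise ω ω')) =
      ind (I (c ω)) * ind (B (c ω) ω') := by
    intro ω'
    rw [hc (T.piecewise ω ω') ω fun e he => by simp [he], ind_and,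
      hB (c ω) (T.piecewise ω ω') ω' fun e he => by simp [disjoint_right.1 hT he]]
  simp only [this, Ex_mul]
  by_cases hI : I (c ω)
  · rw [ind_pos hI, one_mul]; exact h _ hI
  · rw [ind_neg hI, zero_mul]; exact hε

end Pool.Agent.H30.Qd
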