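import Pool.Agent.H30.LdA

/-! Definable vertex sets with bounded quantifier depth and the defining sentence. -/

namespace Pool.Agent.H30.Qd

open Ld Function

variable {V : Type}

inductive Dfb (R : V → V → Prop) (U : Set V) (A : Set (Set V)) : ℕ → Set V → Prop
  | base (d : ℕ) (S : Set V) : S ∈ A → Dfb R U A d S
  | top (d : ℕ) : Dfb R U A d U
  | diff (d : ℕ) (S T : Set V) : Dfb R U A d S → Dfb R U A d T → Dfb R U A d (S \ T)
  | union (d : ℕ) (S T : Set V) : Dfb R U A d S → Dfb R U A d T → Dfb R U A d (S ∪ T)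
  | nb (d : ℕ) (S : Set V) : Dfb R U A d S →
      Dfb R U A (d + 1) {v | v ∈ U ∧ ∃ u ∈ S, u ∈ U ∧ R v u}
  | succ (d : ℕ) (S : Set V) : Dfb R U A d S → Dfb R U A (d + 1) S

def Good (R : V → V → Prop) (U : Set V) (A : Set (Set V)) (d : ℕ) : Prop :=
  ∀ u ∈ U, ∀ v ∈ U, u ≠ v → ∃ D, Dfb R U A d D ∧ u ∈ D ∧ v ∉ D

variable {R R' : V → V → Prop} {U U' : Set V} {A A' : Set (Set V)}

theorem Dfb.mono {d d' : ℕ} {S : Set V} (h : Dfb R U A d S) (hd : d ≤ d') : Dfb R U A d' S := by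
  induction hd with
  | refl => exact h
  | step _ ih => exact .succ _ _ ih

theorem Dfb.inter {d : ℕ} {S T : Set V} (h : Dfb R U A d S) (h' : Dfb R U A d T) :
    Dfb R U A d (S ∩ T) := by
  have := Dfb.diff d _ _ h (Dfb.diff d _ _ h h')
  rwa [Set.sdiff_sdiff_right_self] at this

theorem Dfb.empty (d : ℕ) : Dfb R U A d ∅ := by
  have := Dfb.diff (R := R) (A := A) d _ _ (Dfb.top (U := U) d) (Dfb.top d)
  rwa [Set.sdiff_self] at this

theorem Dfb.bU {α : Type} {d : ℕ} (s : Finset α) (f : α → Set V)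
    (h : ∀ a ∈ s, Dfb R U A d (f a)) : Dfb R U A d {v | ∃ a ∈ s, v ∈ f a} := by
  classical
  induction s using Finset.induction_on with
  | empty => simpa using Dfb.empty d
  | insert a s ha ih =>
    have := Dfb.union d _ _ (h a (by simp)) (ih fun b hb => h b (by simp [hb]))
    convert this using 1
    ext v; simp

theorem Dfb.bI {α : Type} {d : ℕ} (s : Finset α) (f : α → Set V)
    (h : ∀ a ∈ s, Dfb R U A d (f a)) : Dfb R U A d {v | v ∈ U ∧ ∀ a ∈ s, v ∈ f a} := by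
  classical
  induction s using Finset.induction_on with
  | empty => simpa using Dfb.top d
  | insert a s ha ih =>
    have := Dfb.inter (h a (by simp)) (ih fun b hb => h b (by simp [hb]))
    convert this using 1
    ext v; simp; tauto

theorem Dfb.of_sep [Fintype V] {d : ℕ} {S : Set V} (hS : S ⊆ U)
    (h : ∀ u ∈ S, ∀ v ∈ U, v ∉ S → ∃ D, Dfb R U A d D ∧ u ∈ D ∧ v ∉ D) : Dfb R U A d S := by
  classical
  choose! D hD using h
  have := Dfb.bU (R := R) (U := U) (A := A) (d := d) (Finset.univ.filter (· ∈ S))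
    (fun u => {w | w ∈ U ∧ ∀ v ∈ Finset.univ.filter (fun v => v ∈ U ∧ v ∉ S), w ∈ D u v})
    (fun u hu => Dfb.bI _ _ fun v hv => by
      simp only [Finset.mem_filter, Finset.mem_univ, true_and] at hu hv
      exact (hD u hu v hv.1 hv.2).1)
  convert this using 1
  ext w
  simp only [Finset.mem_filter, Finset.mem_univ, true_and, Set.mem_ofPred_eq]
  constructor
  · intro hw
    exact ⟨w, hw, hS hw, fun v hv => (hD w hw v hv.1 hv.2).2.1⟩
  · rintro ⟨u, hu, hw, h⟩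
    by_contra hn
    exact (hD u hu w hw hn).2.2 (h w ⟨hw, hn⟩)

theorem Dfb.congr (hR : ∀ u ∈ U, ∀ v ∈ U, (R u v ↔ R' u v)) {d : ℕ} {S : Set V}
    (h : Dfb R U A d S) : Dfb R' U A d S := by
  induction h with
  | base d S h => exact .base d S h
  | top d => exact .top d
  | diff d S T _ _ i1 i2 => exact .diff d S T i1 i2
  | union d S T _ _ i1 i2 => exact .union d S T i1 i2
  | nb d S _ ih =>
    have := Dfb.nb d S ih
    convert this using 1
    ext v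
    simp only [Set.mem_ofPred_eq]
    refine and_congr_right fun hv => exists_congr fun u => and_congr_right fun _ =>
      and_congr_right fun hu => hR v hv u hu
  | succ d S _ ih => exact .succ d S ih

theorem Dfb.trans {e : ℕ} (hU : U' ⊆ U) (h0 : Dfb R U A e U') (hA : ∀ S ∈ A', Dfb R U A e S)
    {d : ℕ} {S : Set V} (h : Dfb R U' A' d S) : Dfb R U A (d + e) S := by
  induction h with
  | base d S h => exact (hA S h).mono (by omega)
  | top d => exact h0.mono (by omega)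
  | diff d S T _ _ i1 i2 => exact .diff _ S T i1 i2
  | union d S T _ _ i1 i2 => exact .union _ S T i1 i2
  | nb d S _ ih =>
    have h1 : Dfb R U A (d + e) U' := h0.mono (by omega)
    have := Dfb.inter (h1.mono (Nat.le_succ _)) (Dfb.nb _ _ (Dfb.inter ih h1))
    rw [show d + 1 + e = d + e + 1 by omega]
    convert this using 1
    ext v
    simp only [Set.mem_ofPred_eq, Set.mem_inter_iff]
    constructor
    · rintro ⟨hv, u, hu, hu', hr⟩
      exact ⟨hv, hU hv, u, ⟨hu, hu'⟩, hU hu', hr⟩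
    · rintro ⟨hv, _, u, ⟨hu, hu'⟩, _, hr⟩
      exact ⟨hv, u, hu, hu', hr⟩
  | succ d S _ ih =>
    rw [show d + 1 + e = d + e + 1 by omega]
    exact .succ _ S ih

theorem Good.congr (hR : ∀ u ∈ U, ∀ v ∈ U, (R u v ↔ R' u v)) {d : ℕ} (h : Good R U A d) :
    Good R' U A d := fun u hu v hv huv => by
  obtain ⟨D, h1, h2⟩ := h u hu v hv huv
  exact ⟨D, h1.congr hR, h2⟩

theorem Good.mono {d d' : ℕ} (hA : A ⊆ A') (hd : d ≤ d') (h : Good R U A d) : Good R U A' d' :=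
  fun u hu v hv huv => by
    obtain ⟨D, h1, h2⟩ := h u hu v hv huv
    have := Dfb.trans (e := 0) (A := A') subset_rfl (Dfb.top 0) (fun S hS => .base 0 S (hA hS)) h1
    exact ⟨D, this.mono (by omega), h2⟩

theorem Good.step [Fintype V] {d : ℕ} (hU : U' ⊆ U) (h0 : Dfb R U A 0 U')
    (hA : ∀ S ∈ A', Dfb R U A 1 S) (h : Good R U' A' d)
    (hb : ∀ u ∈ U, u ∉ U' → ∀ v ∈ U, v ∉ U' → u ≠ v → ∃ y ∈ U', ¬ (R u y ↔ R v y)) :
    Good R U A (d + 2) := by
  have h1 : ∀ u ∈ U', ∀ v ∈ U, u ≠ v → ∃ D, Dfb R U A (d + 1) D ∧ u ∈ D ∧ v ∉ D := by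
    intro u hu v hv huv
    by_cases hv' : v ∈ U'
    · obtain ⟨D, a, b⟩ := h u hu v hv' huv
      exact ⟨D, Dfb.trans hU (h0.mono (by omega)) hA a, b⟩
    · exact ⟨U', h0.mono (by omega), hu, hv'⟩
  intro u hu v hv huv
  by_cases hu' : u ∈ U'
  · obtain ⟨D, a, b⟩ := h1 u hu' v hv huv
    exact ⟨D, a.mono (by omega), b⟩
  by_cases hv' : v ∈ U'
  · exact ⟨U \ U', (Dfb.diff 0 _ _ (.top 0) h0).mono (by omega), ⟨hu, hu'⟩, fun h => h.2 hv'⟩
  obtain ⟨y, hy, hr⟩ := hb u hu hu' v hv hv' huv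
  have h2 : Dfb R U A (d + 1) {y} := Dfb.of_sep (by simpa using hU hy) fun a ha b hb hab => by
    rw [Set.mem_singleton_iff] at ha hab
    subst ha
    exact h1 a hy b hb (Ne.symm hab)
  have h3 := Dfb.nb _ _ h2
  by_cases hr' : R u y
  · refine ⟨_, h3, ⟨hu, y, rfl, hU hy, hr'⟩, ?_⟩
    rintro ⟨_, z, hz, _, hz'⟩
    rw [Set.mem_singleton_iff] at hz
    subst hz
    exact hr (by tauto)
  · refine ⟨_, Dfb.diff _ _ _ (.top _) h3, ⟨hu, ?_⟩, ?_⟩
    · rintro ⟨_, z, hz, _, hz'⟩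
      rw [Set.mem_singleton_iff] at hz
      subst hz
      exact hr' hz'
    · intro h
      exact h.2 ⟨hv, y, rfl, hU hy, by tauto⟩

inductive Un (C : Type) : Type
  | pt (c : C)
  | tr
  | df (φ ψ : Un C)
  | un (φ ψ : Un C)
  | nb (φ : Un C)

variable {C : Type}

def Un.d : Un C → ℕ
  | .pt _ => 0
  | .tr => 0
  | .df φ ψ => max φ.d ψ.d
  | .un φ ψ => max φ.d ψ.d
  | .nb φ => φ.d + 1

def Un.sem {W : Type} (H : SimpleGraph W) (pal : C → W) : Un C → W → Prop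
  | .pt c, v => v = pal c
  | .tr, _ => True
  | .df φ ψ, v => φ.sem H pal v ∧ ¬ ψ.sem H pal v
  | .un φ ψ, v => φ.sem H pal v ∨ ψ.sem H pal v
  | .nb φ, v => ∃ u, H.Adj v u ∧ φ.sem H pal u

def Un.fm : Un C → ℕ → Fm C
  | .pt c, i => .eq (.inl i) (.inr c)
  | .tr, _ => Fm.fls.nt
  | .df φ ψ, i => (φ.fm i).an (ψ.fm i).nt
  | .un φ ψ, i => (φ.fm i).orr (ψ.fm i)
  | .nb φ, i => .ex (i + 1) ((Fm.adj (.inl i) (.inl (i + 1))).an (φ.fm (i + 1)))

theorem Un.dp_fm (φ : Un C) : ∀ i, dp 0 (φ.fm i) = φ.d := by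
  induction φ with
  | pt c => intro i; rfl
  | tr => intro i; rfl
  | df φ ψ i1 i2 => intro i; simp [Un.fm, Un.d, i1, i2]
  | un φ ψ i1 i2 => intro i; simp [Un.fm, Un.d, i1, i2]
  | nb φ ih => intro i; simp [Un.fm, Un.d, ih, dp]

theorem Un.ev_fm {W : Type} (H : SimpleGraph W) (pal : C → W) (φ : Un C) :
    ∀ i e, ev H pal 0 (φ.fm i) e ↔ φ.sem H pal (e i) := by
  induction φ with
  | pt c => intro i e; rfl
  | tr => intro i e; simp [Un.fm, Un.sem, ev]
  | df φ ψ i1 i2 => intro i e; simp [Un.fm, Un.sem, i1, i2]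
  | un φ ψ i1 i2 => intro i e; simp [Un.fm, Un.sem, i1, i2]
  | nb φ ih => intro i e; simp [Un.fm, Un.sem, ih, ev]

theorem Dfb.toUn (G : SimpleGraph V) (x : C → V) {d : ℕ} {S : Set V}
    (h : Dfb G.Adj Set.univ (Set.range fun c => ({x c} : Set V)) d S) :
    ∃ φ : Un C, φ.d ≤ d ∧ ∀ v, φ.sem G x v ↔ v ∈ S := by
  induction h with
  | base d S h =>
    obtain ⟨c, rfl⟩ := h
    exact ⟨.pt c, Nat.zero_le _, fun v => Iff.rfl⟩
  | top d => exact ⟨.tr, Nat.zero_le _, fun v => Iff.rfl⟩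
  | diff d S T _ _ i1 i2 =>
    obtain ⟨φ, a1, a2⟩ := i1
    obtain ⟨ψ, b1, b2⟩ := i2
    exact ⟨.df φ ψ, max_le a1 b1, fun v => by simp [Un.sem, a2, b2]⟩
  | union d S T _ _ i1 i2 =>
    obtain ⟨φ, a1, a2⟩ := i1
    obtain ⟨ψ, b1, b2⟩ := i2
    exact ⟨.un φ ψ, max_le a1 b1, fun v => by simp [Un.sem, a2, b2]⟩
  | nb d S _ ih =>
    obtain ⟨φ, a1, a2⟩ := ih
    exact ⟨.nb φ, Nat.succ_le_succ a1, fun v => by simp [Un.sem, a2, and_comm]⟩
  | succ d S _ ih =>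
    obtain ⟨φ, a1, a2⟩ := ih
    exact ⟨φ, a1.trans (Nat.le_succ _), a2⟩

theorem Good.sentence {N k d : ℕ} (G : SimpleGraph (Fin N)) (x : Fin k → Fin N) (c0 : Fin k)
    (h : Good G.Adj Set.univ (Set.range fun c => ({x c} : Set (Fin N))) d) :
    ∃ φ : FirstOrder.Language.graph.Sentence, qd φ ≤ k + d + 2 ∧
      ∀ (m : ℕ) (H : SimpleGraph (Fin m)), Sat H φ ↔ Nonempty (G ≃g H) := by
  classical
  have h1 : ∀ v : Fin N, ∃ φ : Un (Fin k), φ.d ≤ d ∧ ∀ w, φ.sem G x w ↔ w = v := fun v =>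
    (Dfb.of_sep (S := {v}) (Set.subset_univ _) fun a ha b hb hab => by
      rw [Set.mem_singleton_iff] at ha hab
      subst ha
      exact h a trivial b hb (Ne.symm hab)).toUn G x
  choose φ hφd hφ using h1
  let L := List.finRange N
  let bl : Prop → Fm (Fin k) := fun P => if P then Fm.fls.nt else Fm.fls
  have hbl : ∀ (W : Type) (H : SimpleGraph W) (pal : Fin k → W) e P, ev H pal 0 (bl P) e ↔ P := by
    intro W H pal e P
    by_cases hP : P <;> simp [bl, hP, ev]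
  have hbd : ∀ P, dp 0 (bl P) = 0 := by
    intro P
    by_cases hP : P <;> simp [bl, hP, dp]
  let ψ : Fm (Fin k) := Fm.an (.all 0 (.dj L fun v => (φ v).fm 0))
    (Fm.an (.cj L fun v => .ex 0 ((φ v).fm 0))
      (.all 0 (.all 1 (.cj L fun u => .cj L fun v => .imp ((φ u).fm 0) (.imp ((φ v).fm 1)
        (Fm.an (Fm.iff (.eq (.inl 0) (.inl 1)) (bl (u = v)))
          (Fm.iff (.adj (.inl 0) (.inl 1)) (bl (G.Adj u v)))))))))
  have key : ∀ (W : Type) (H : SimpleGraph W) (pal : Fin k → W) e, ev H pal 0 ψ e ↔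
      (∀ y, ∃ v, (φ v).sem H pal y) ∧ (∀ v, ∃ y, (φ v).sem H pal y) ∧
        ∀ y z u v, (φ u).sem H pal y → (φ v).sem H pal z →
          (y = z ↔ u = v) ∧ (H.Adj y z ↔ G.Adj u v) := by
    intro W H pal e
    simp [ψ, L, Un.ev_fm, hbl, ev]
  have hG : Sat G (Phi 0 ψ (Equiv.refl _) c0) := by
    rw [sat_Phi]
    refine ⟨x, (key _ _ _ _).2 ⟨fun y => ⟨y, (hφ y y).2 rfl⟩, fun v => ⟨v, (hφ v v).2 rfl⟩, ?_⟩⟩
    intro y z u v h1 h2
    rw [hφ] at h1 h2
    subst h1 h2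
    exact ⟨Iff.rfl, Iff.rfl⟩
  refine ⟨Phi 0 ψ (Equiv.refl _) c0, ?_, fun m H => ⟨fun hs => ?_, fun ⟨e⟩ => (sat_iso e _).1 hG⟩⟩
  · rw [qd_Phi]
    have : dp 0 ψ ≤ d + 2 := by
      simp only [ψ, dp_an, dp_all]
      have a1 := dp_dj 0 L (fun v => (φ v).fm 0) d (fun v => by rw [Un.dp_fm]; exact hφd v)
      have a2 := dp_cj 0 L (fun v => Fm.ex 0 ((φ v).fm 0)) (d + 1)
        (fun v => by rw [dp_ex, Un.dp_fm]; exact Nat.succ_le_succ (hφd v))
      have a3 := dp_cj 0 L (fun u => Fm.cj L fun v => .imp ((φ u).fm 0) (.imp ((φ v).fm 1)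
        (Fm.an (Fm.iff (.eq (.inl 0) (.inl 1)) (bl (u = v)))
          (Fm.iff (.adj (.inl 0) (.inl 1)) (bl (G.Adj u v)))))) d
        (fun u => dp_cj 0 L _ d fun v => by
          have := hφd u
          have := hφd v
          simp only [dp_an, dp_iff, Un.dp_fm, hbd, dp]
          omega)
      omega
    omega
  · rw [sat_Phi] at hs
    obtain ⟨pal, hs⟩ := hs
    obtain ⟨s1, s2, s3⟩ := (key _ _ _ _).1 hs
    choose f hf using s2
    have hinj : Injective f := fun u v huv => (s3 _ _ u v (hf u) (hf v)).1.1 huv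
    have hsur : Surjective f := fun y => by
      obtain ⟨v, hv⟩ := s1 y
      exact ⟨v, (s3 _ _ v v (hf v) hv).1.2 rfl⟩
    exact ⟨⟨Equiv.ofBijective f ⟨hinj, hsur⟩, fun {u v} => (s3 _ _ u v (hf u) (hf v)).2⟩⟩

theorem qd_Q {m : ℕ} (φ : BF m)
    (Q : (m : ℕ) → BF m → ℕ → Prop)
    (h1 : ∀ m k', Q m .falsum k') (h2 : ∀ m k' t₁ t₂, Q m (.equal t₁ t₂) k')
    (h3 : ∀ m k' l (R : FirstOrder.Language.graph.Relations l) ts, Q m (.rel R ts) k')
    (h4 : ∀ m k' ψ χ, Q m ψ k' → Q m χ k' → Q m (.imp ψ χ) k')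
    (h5 : ∀ m k' (ψ : BF (m + 1)), Q (m + 1) ψ k' → Q m (.all ψ) (k' + 1)) :
    ∀ k, qd φ ≤ k → Q m φ k := by
  induction φ with
  | falsum => intro k _; exact h1 _ _
  | equal t₁ t₂ => intro k _; exact h2 _ _ _ _
  | rel R ts => intro k _; exact h3 _ _ _ _ _
  | imp φ ψ i1 i2 =>
    intro k hk
    exact h4 _ _ _ _ (i1 k ((le_max_left _ _).trans hk)) (i2 k ((le_max_right _ _).trans hk))
  | all φ ih =>
    intro k hk
    obtain ⟨k, rfl⟩ : ∃ j, k = j + 1 := ⟨k - 1, by simp only [qd] at hk; omega⟩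
    exact h5 _ _ _ (ih k (by simp only [qd] at hk; omega))

end Pool.Agent.H30.Qd
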