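import Pool.Agent.H30.QdA

/-! The weighted concentration step and the grouping of small sets. -/

namespace Pool.Agent.H30.Qd

open Finset Real
open scoped Classical

variable {E : Type} [Fintype E] [DecidableEq E] {V ι : Type} {p : ℝ}

theorem exp_neg_le {x : ℝ} (h0 : 0 ≤ x) (h1 : x ≤ 1) : exp (-x) ≤ 1 - x / 2 := by
  have h2 := add_one_le_exp x
  have h3 : exp (-x) * exp x = 1 := by rw [← exp_add]; simp
  have h4 := exp_pos (-x)
  nlinarith [mul_le_mul_of_nonneg_left h2 h4.le, mul_nonneg h0 (sub_nonneg.2 h1)]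

theorem lower_tail (h0 : 0 ≤ p) (h1 : p ≤ 1) (U : Finset V) (T : V → Finset E)
    (hT : ∀ i ∈ U, ∀ j ∈ U, i ≠ j → Disjoint (T i) (T j)) (W : V → (E → Bool) → ℝ)
    (hW : ∀ v ∈ U, Dep (W v) (T v)) (hW0 : ∀ v ∈ U, ∀ ω, 0 ≤ W v ω)
    (hW1 : ∀ v ∈ U, ∀ ω, W v ω ≤ 1) (M : ℝ) (hM : ∑ v ∈ U, Ex p (W v) = M) :
    Pr p (fun ω => ∑ v ∈ U, W v ω ≤ M / 4) ≤ exp (-M / 4) := by
  calc Pr p (fun ω => ∑ v ∈ U, W v ω ≤ M / 4)
      ≤ Ex p (fun ω => exp (M / 4) * ∏ v ∈ U, exp (-W v ω)) := by
        refine Ex_mono h0 h1 fun ω => ind_le (by positivity) fun h => ?_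
        rw [← exp_sum, ← exp_add, sum_neg_distrib]
        exact one_le_exp (by linarith)
    _ = exp (M / 4) * ∏ v ∈ U, Ex p (fun ω => exp (-W v ω)) := by
        rw [Ex_mul, Ex_prod U T _ hT fun v hv ω ω' h => by rw [hW v hv ω ω' h]]
    _ ≤ exp (M / 4) * ∏ v ∈ U, exp (-(Ex p (W v)) / 2) := by
        refine mul_le_mul_of_nonneg_left (prod_le_prod
          (fun v _ => Ex_nonneg h0 h1 fun _ => (exp_pos _).le) fun v hv => ?_) (exp_pos _).le
        have a1 := Ex_mono h0 h1 (f := fun ω => exp (-W v ω))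
          (g := fun ω => 1 - (1 / 2) * W v ω) fun ω => by
            have := exp_neg_le (hW0 v hv ω) (hW1 v hv ω); linarith
        rw [Ex_sub, Ex_const, Ex_mul] at a1
        have a2 := add_one_le_exp (-(Ex p (W v)) / 2)
        linarith
    _ = exp (-M / 4) := by
        rw [← exp_sum, ← exp_add, ← sum_div, sum_neg_distrib, hM]
        congr 1; ring

theorem upper_mass (h0 : 0 ≤ p) (h1 : p ≤ 1) (U : Finset V) (T : V → Finset E)
    (hT : ∀ i ∈ U, ∀ j ∈ U, i ≠ j → Disjoint (T i) (T j)) (A : V → (E → Bool) → Prop)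
    (hA : ∀ v ∈ U, Dep (A v) (T v)) (ρ : ℝ) (hρ : ∀ v ∈ U, Pr p (A v) = ρ) (y : ℝ) (hy : 0 ≤ y) :
    Ex p (fun ω => (∑ v ∈ U, ind (A v ω)) *
      ind (exp y * U.card * ρ < ∑ v ∈ U, ind (A v ω))) ≤
      U.card * ρ * exp (y - exp y * U.card * ρ * (y - 1)) := by
  set h := exp y * U.card * ρ with hh
  simp only [sum_mul]
  rw [Ex_sum, mul_assoc, ← nsmul_eq_mul, ← sum_const]
  refine sum_le_sum fun v hv => ?_
  have hρ0 : 0 ≤ ρ := hρ v hv ▸ Pr_nonneg h0 h1 _
  let g : V → (E → Bool) → ℝ := fun u ω => if u = v then ind (A u ω) * exp y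
    else exp (y * ind (A u ω))
  calc Ex p (fun ω => ind (A v ω) * ind (h < ∑ v ∈ U, ind (A v ω)))
      ≤ Ex p (fun ω => exp (-(y * h)) * ∏ u ∈ U, g u ω) := by
        refine Ex_mono h0 h1 fun ω => ?_
        have g0 : ∀ u ∈ U, 0 ≤ g u ω := fun u _ => by
          have := ind_nonneg (A u ω)
          simp only [g]; split_ifs <;> positivity
        rw [← ind_and]
        refine ind_le (mul_nonneg (exp_pos _).le (prod_nonneg g0)) fun ⟨a1, a2⟩ => ?_
        have : ∏ u ∈ U, g u ω = ∏ u ∈ U, exp (y * ind (A u ω)) := by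
          refine prod_congr rfl fun u _ => ?_
          simp only [g]
          split_ifs with hu
          · subst hu; simp [ind_pos a1]
          · rfl
        rw [this, ← exp_sum, ← exp_add, ← mul_sum]
        exact one_le_exp (by nlinarith)
    _ = exp (-(y * h)) * ∏ u ∈ U, Ex p (g u) := by
        rw [Ex_mul, Ex_prod U T _ hT fun u hu ω ω' h => by simp only [g, hA u hu ω ω' h]]
    _ ≤ exp (-(y * h)) * ∏ u ∈ U, ((if u = v then ρ * exp y else 1) * exp (exp y * ρ)) := by
        refine mul_le_mul_of_nonneg_left (prod_le_prod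
          (fun u _ => Ex_nonneg h0 h1 fun ω => ?_) fun u hu => ?_) (exp_pos _).le
        · have := ind_nonneg (A u ω)
          simp only [g]; split_ifs <;> positivity
        · have e1 : 1 ≤ exp (exp y * ρ) := one_le_exp (by positivity)
          by_cases huv : u = v
          · simp only [g, huv, if_true, mul_comm _ (exp y)]
            rw [Ex_mul]
            change exp y * Pr p (A v) ≤ _
            rw [hρ v hv]
            exact le_mul_of_one_le_right (by positivity) e1
          · have : g u = fun ω => 1 + (exp y - 1) * ind (A u ω) := by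
              funext ω
              simp only [g, huv, if_false]
              by_cases ha : A u ω
              · simp [ind_pos ha]
              · simp [ind_neg ha]
            rw [this, Ex_add, Ex_const, Ex_mul]
            change 1 + _ * Pr p (A u) ≤ _
            rw [hρ u hu, if_neg huv, one_mul]
            have := add_one_le_exp (exp y * ρ)
            nlinarith
    _ = ρ * exp (y - h * (y - 1)) := by
        rw [prod_mul_distrib, prod_ite_eq', if_pos hv, prod_const, ← exp_nat_mul]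
        have : y - h * (y - 1) = -(y * h) + (y + U.card * (exp y * ρ)) := by rw [hh]; ring
        rw [this, exp_add, exp_add]; ring

theorem card_ind (U : Finset V) (A : V → Prop) :
    ((U.filter A).card : ℝ) = ∑ v ∈ U, ind (A v) := by
  simp [ind]

theorem weighted (h0 : 0 ≤ p) (h1 : p ≤ 1) (U : Finset V) (T : V → Finset E)
    (hT : ∀ i ∈ U, ∀ j ∈ U, i ≠ j → Disjoint (T i) (T j)) (I : Finset ι) (hI : I.Nonempty)
    (A : ι → V → (E → Bool) → Prop) (hA : ∀ t ∈ I, ∀ v ∈ U, Dep (A t v) (T v)) (ρ : ι → ℝ)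
    (hρ : ∀ t ∈ I, ∀ v ∈ U, Pr p (A t v) = ρ t)
    (hd : ∀ t ∈ I, ∀ t' ∈ I, ∀ v ω, A t v ω → A t' v ω → t = t')
    (y : ℝ) (hy : 1 ≤ y) (a : ℕ) (ha : 0 < a) (haρ : ∀ t ∈ I, (a : ℝ) ≤ exp y * U.card * ρ t) :
    Pr p (fun ω => ((∑ t ∈ I.filter (fun t => ((U.filter (A t · ω)).card : ℝ) ≤
        exp y * U.card * ρ t), min (U.filter (A t · ω)).card a : ℕ) : ℝ) ≤
          I.card * a / exp y / 8) ≤
      exp (-(I.card * a / exp y) / 4) + 8 * exp (y - a * (y - 1)) := by
  set M : ℝ := I.card * a / exp y with hM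
  set ε := exp (y - a * (y - 1)) with hε
  have ha' : (0 : ℝ) < a := by exact_mod_cast ha
  have hIc : (0 : ℝ) < I.card := by exact_mod_cast hI.card_pos
  have hM0 : 0 < M := by positivity
  have hpos : ∀ t ∈ I, 0 < exp y * U.card * ρ t := fun t ht => ha'.trans_le (haρ t ht)
  have hN : (U.card : ℝ) ≠ 0 := by
    obtain ⟨t, ht⟩ := hI
    intro h
    simpa [h] using hpos t ht
  have hρ0 : ∀ t ∈ I, ρ t ≠ 0 := fun t ht h => by simpa [h] using hpos t ht
  let w : ι → ℝ := fun t => a / (exp y * U.card * ρ t)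
  have w0 : ∀ t ∈ I, 0 ≤ w t := fun t ht => (div_pos ha' (hpos t ht)).le
  have w1 : ∀ t ∈ I, w t ≤ 1 := fun t ht => (div_le_one (hpos t ht)).2 (haρ t ht)
  let W : V → (E → Bool) → ℝ := fun v ω => ∑ t ∈ I, w t * ind (A t v ω)
  let X : ι → (E → Bool) → ℝ := fun t ω => ∑ v ∈ U, ind (A t v ω)
  let Λ : (E → Bool) → ℝ := fun ω => ∑ t ∈ I, w t * (X t ω * ind (exp y * U.card * ρ t < X t ω))
  have X0 : ∀ t ω, 0 ≤ X t ω := fun t ω => sum_nonneg fun _ _ => ind_nonneg _
  have A1 := lower_tail h0 h1 U T hT W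
    (fun v hv ω ω' h => sum_congr rfl fun t ht => by rw [hA t ht v hv ω ω' h])
    (fun v _ ω => sum_nonneg fun t ht => mul_nonneg (w0 t ht) (ind_nonneg _))
    (fun v _ ω => by
      by_cases h : ∃ t ∈ I, A t v ω
      · obtain ⟨t, ht, h⟩ := h
        simp only [W]
        rw [sum_eq_single_of_mem t ht fun t' ht' hne => by
          rw [ind_neg fun h' => hne (hd t' ht' t ht v ω h' h), mul_zero], ind_pos h, mul_one]
        exact w1 t ht
      · simp only [W]
        rw [sum_eq_zero fun t ht => by rw [ind_neg fun h' => h ⟨t, ht, h'⟩, mul_zero]]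
        norm_num) M
    (by
      have : ∀ v ∈ U, Ex p (W v) = M / U.card := by
        intro v hv
        simp only [W]
        rw [Ex_sum, sum_congr rfl (g := fun _ => a / (exp y * U.card)) fun t ht => by
          rw [Ex_mul]
          change _ * Pr p (A t v) = _
          rw [hρ t ht v hv]
          have := hρ0 t ht
          simp only [w]; field_simp]
        rw [sum_const, nsmul_eq_mul, hM]; field_simp
      rw [sum_congr rfl this, sum_const, nsmul_eq_mul]; field_simp)
  have A2 : Ex p Λ ≤ M * ε := by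
    simp only [Λ]
    rw [Ex_sum]
    calc _ ≤ ∑ _t ∈ I, a / exp y * ε := by
          refine sum_le_sum fun t ht => ?_
          rw [Ex_mul]
          have b1 := upper_mass h0 h1 U T hT (A t) (hA t ht) (ρ t) (hρ t ht) y (by linarith)
          have b2 : exp (y - exp y * U.card * ρ t * (y - 1)) ≤ ε :=
            exp_le_exp.2 (by nlinarith [haρ t ht])
          have b3 : 0 ≤ U.card * ρ t := by
            have := hpos t ht
            rw [mul_assoc] at this
            exact ((mul_pos_iff_of_pos_left (exp_pos y)).1 this).le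
          calc _ ≤ w t * (U.card * ρ t * ε) := mul_le_mul_of_nonneg_left
                (b1.trans (mul_le_mul_of_nonneg_left b2 b3)) (w0 t ht)
            _ = _ := by have := hρ0 t ht; simp only [w]; field_simp
      _ = M * ε := by rw [sum_const, nsmul_eq_mul, hM]; ring
  have A3 : Pr p (fun ω => M / 8 ≤ Λ ω) ≤ 8 * ε := by
    have Λ0 : ∀ ω, 0 ≤ Λ ω := fun ω => sum_nonneg fun t ht =>
      mul_nonneg (w0 t ht) (mul_nonneg (X0 t ω) (ind_nonneg _))
    calc _ ≤ Ex p (fun ω => 8 / M * Λ ω) := Ex_mono h0 h1 fun ω =>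
          ind_le (mul_nonneg (by positivity) (Λ0 ω)) fun h => by
            rw [div_mul_eq_mul_div, le_div_iff₀ hM0]; linarith
      _ ≤ 8 / M * (M * ε) := by
          rw [Ex_mul]; exact mul_le_mul_of_nonneg_left A2 (by positivity)
      _ = 8 * ε := by field_simp
  refine (Pr_mono h0 h1 fun ω h => ?_).trans ((Pr_or h0 h1 _ _).trans (add_le_add A1 A3))
  by_contra hc
  rw [not_or, not_le, not_le] at hc
  have c1 : ∑ v ∈ U, W v ω = ∑ t ∈ I, w t * X t ω := by
    simp only [W, X, mul_sum]; exact sum_comm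
  have c2 : ∑ t ∈ I, w t * X t ω - Λ ω ≤ ((∑ t ∈ I.filter (fun t =>
      ((U.filter (A t · ω)).card : ℝ) ≤ exp y * U.card * ρ t),
        min (U.filter (A t · ω)).card a : ℕ) : ℝ) := by
    simp only [Λ]
    rw [← sum_sub_distrib, Nat.cast_sum, sum_filter]
    refine sum_le_sum fun t ht => ?_
    rw [Nat.cast_min, card_ind]
    change _ ≤ if X t ω ≤ _ then min (X t ω) a else 0
    split_ifs with hx
    · rw [ind_neg (not_lt.2 hx), mul_zero, mul_zero, sub_zero]
      refine le_min (by nlinarith [w1 t ht, X0 t ω]) ?_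
      simp only [w]
      rw [div_mul_eq_mul_div, div_le_iff₀ (hpos t ht)]
      exact mul_le_mul_of_nonneg_left hx ha'.le
    · rw [ind_pos (not_le.1 hx)]; simp
  linarith [hc.1, hc.2]

theorem sub_sum (f : ι → ℕ) (a : ℕ) (I : Finset ι) (hf : ∀ t ∈ I, f t ≤ a)
    (h : a ≤ ∑ t ∈ I, f t) : ∃ J ⊆ I, a ≤ ∑ t ∈ J, f t ∧ ∑ t ∈ J, f t ≤ 2 * a := by
  induction I using Finset.induction_on with
  | empty => exact ⟨∅, subset_rfl, h, by simp⟩
  | insert b I hb ih =>
    by_cases h' : a ≤ ∑ t ∈ I, f t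
    · obtain ⟨J, h1, h2⟩ := ih (fun t ht => hf t (by simp [ht])) h'
      exact ⟨J, h1.trans (subset_insert _ _), h2⟩
    · refine ⟨_, subset_rfl, h, ?_⟩
      have := hf b (by simp)
      rw [sum_insert hb]; omega

theorem grouping (B : ι → Finset V) (a : ℕ) (S : ℝ) (haS : 2 * a ≤ S) (K : ℕ) :
    ∀ I : Finset ι, (∀ t ∈ I, ∀ t' ∈ I, t ≠ t' → Disjoint (B t) (B t')) →
      (∀ t ∈ I, ((B t).card : ℝ) ≤ S) → 2 * a * K ≤ ∑ t ∈ I, min (B t).card a →
      ∃ C : ℕ → Finset V, (∀ j < K, (∃ J ⊆ I, C j = J.biUnion B) ∧ a ≤ (C j).card ∧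
        ((C j).card : ℝ) ≤ S) ∧ ∀ i < K, ∀ j < K, i ≠ j → Disjoint (C i) (C j) := by
  induction K with
  | zero => intro I _ _ _; exact ⟨fun _ => ∅, by simp, by simp⟩
  | succ K ih =>
    intro I hd hS h
    obtain ⟨J, hJ, j1, j2, j3⟩ : ∃ J ⊆ I, a ≤ (J.biUnion B).card ∧
        ((J.biUnion B).card : ℝ) ≤ S ∧ ∑ t ∈ J, min (B t).card a ≤ 2 * a := by
      by_cases hb : ∃ t ∈ I, a ≤ (B t).card
      · obtain ⟨t, ht, hb⟩ := hb
        refine ⟨{t}, by simpa using ht, by simpa using hb, by simpa using hS t ht, ?_⟩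
        rw [sum_singleton]; omega
      · push Not at hb
        have e : ∀ t ∈ I, min (B t).card a = (B t).card := fun t ht => min_eq_left (hb t ht).le
        rw [sum_congr rfl e] at h
        obtain ⟨J, hJ, j1, j2⟩ := sub_sum (fun t => (B t).card) a I (fun t ht => (hb t ht).le)
          (by nlinarith)
        have e2 : (J.biUnion B).card = ∑ t ∈ J, (B t).card :=
          card_biUnion fun t ht t' ht' hne => hd t (hJ ht) t' (hJ ht') hne
        refine ⟨J, hJ, e2 ▸ j1, ?_, ?_⟩
        · rw [e2]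
          exact le_trans (by exact_mod_cast j2) haS
        · rw [sum_congr rfl fun t ht => e t (hJ ht)]; exact j2
    obtain ⟨C, c1, c2⟩ := ih (I \ J)
      (fun t ht t' ht' => hd t (sdiff_subset ht) t' (sdiff_subset ht'))
      (fun t ht => hS t (sdiff_subset ht)) (by
        have := sum_sdiff (f := fun t => min (B t).card a) hJ
        nlinarith)
    have c3 : ∀ j < K, Disjoint (C j) (J.biUnion B) := by
      intro j hj
      obtain ⟨⟨J', hJ', e⟩, _⟩ := c1 j hj
      rw [e, disjoint_biUnion_left]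
      intro t ht
      rw [disjoint_biUnion_right]
      intro t' ht'
      have := mem_sdiff.1 (hJ' ht)
      exact hd t this.1 t' (hJ ht') fun h => this.2 (h ▸ ht')
    refine ⟨fun j => if j < K then C j else J.biUnion B, fun j _ => ?_, fun i hi j hj hij => ?_⟩
    · by_cases hj : j < K
      · simp only [hj, if_true]
        obtain ⟨⟨J', hJ', e⟩, r⟩ := c1 j hj
        exact ⟨⟨J', hJ'.trans sdiff_subset, e⟩, r⟩
      · simp only [hj, if_false]
        exact ⟨⟨J, hJ, rfl⟩, j1, j2⟩
    · by_cases h1 : i < K <;> by_cases h2 : j < K <;> simp only [h1, h2, if_true, if_false]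
      · exact c2 i h1 j h2 hij
      · exact c3 i h1
      · exact (c3 j h2).symm
      · omega

end Pool.Agent.H30.Qd
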