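import Pool.Agent.H30.QdB
import Pool.Agent.H30.QdC

/-! One exposure round in the random graph. -/

namespace Pool.Agent.H30.Qd

open Finset Real
open scoped Classical

variable {V : Type} [Fintype V] {p : ℝ}

def adjR (ω : Sym2 V → Bool) (u v : V) : Prop := u ≠ v ∧ ω s(u, v) = true

def cls (C : ℕ → Finset V) (K : ℕ) : Set (Set V) := {S | ∃ j < K, S = C j}

def Inv (U : Finset V) (C : ℕ → Finset V) (K s : ℕ) (S : ℝ) : Prop :=
  (∀ j < K, C j ⊆ U ∧ s ≤ (C j).card ∧ ((C j).card : ℝ) ≤ S) ∧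
    ∀ i < K, ∀ j < K, i ≠ j → Disjoint (C i) (C j)

noncomputable def Wd (C : ℕ → Finset V) (K : ℕ) : Finset V := (range K).biUnion C

def bit (D : Finset V) (v : V) (ω : Sym2 V → Bool) : Prop := ∃ c ∈ D, ω s(v, c) = true

def Bad (U : Finset V) (C : ℕ → Finset V) (K d : ℕ) (ω : Sym2 V → Bool) : Prop :=
  ¬ Good (adjR ω) U (cls C K) d

noncomputable def ed (D : Finset V) (v : V) : Finset (Sym2 V) := D.image fun c => s(v, c)

def pat (U : Finset V) (C : ℕ → Finset V) (K : ℕ) (ω : Sym2 V → Bool) (v : V) (j : ℕ) : Prop :=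
  v ∈ U \ Wd C K ∧ j < K ∧ bit (C j) v ω

def back (U : Finset V) (C : ℕ → Finset V) (K : ℕ) (ω : Sym2 V → Bool) : Prop :=
  ∃ u ∈ Wd C K, ∃ v ∈ Wd C K, u ≠ v ∧ ∀ y ∈ U \ Wd C K, (ω s(y, u) = true ↔ ω s(y, v) = true)

noncomputable def qq (p : ℝ) (D : Finset V) : ℝ := 1 - (1 - p) ^ D.card

omit [Fintype V] in
theorem sub_Wd {C : ℕ → Finset V} {K j : ℕ} (h : j < K) : C j ⊆ Wd C K :=
  subset_biUnion_of_mem C (mem_range.2 h)

omit [Fintype V] in
theorem bit_dep {D D' : Finset V} (h : D ⊆ D') (v : V) : Dep (bit D v) (ed D' v) := by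
  intro ω ω' hω
  exact propext (exists_congr fun c => and_congr_right fun hc => by
    rw [hω _ (mem_image_of_mem _ (h hc))])

omit [Fintype V] in
theorem ed_disj {D D' : Finset V} (h : Disjoint D D') (v : V) : Disjoint (ed D v) (ed D' v) := by
  rw [disjoint_left]
  intro e h1 h2
  obtain ⟨c, hc, rfl⟩ := mem_image.1 h1
  obtain ⟨c', hc', e⟩ := mem_image.1 h2
  rw [Sym2.congr_right] at e
  exact disjoint_left.1 h hc (e ▸ hc')

omit [Fintype V] in
theorem ed_disj' {D D' : Finset V} {u v : V} (hu : u ∉ D') (huv : u ≠ v) :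
    Disjoint (ed D u) (ed D' v) := by
  rw [disjoint_left]
  intro e h1 h2
  obtain ⟨c, _, rfl⟩ := mem_image.1 h1
  obtain ⟨c', hc', e⟩ := mem_image.1 h2
  rcases Sym2.eq_iff.1 e with ⟨h, _⟩ | ⟨_, h⟩
  · exact huv h.symm
  · exact hu (h ▸ hc')

theorem Pr_bit (D : Finset V) (v : V) : Pr p (bit D v) = qq p D := by
  have h := Pr_not (p := p) (bit D v)
  have : Pr p (fun ω => ¬ bit D v ω) = (1 - p) ^ D.card := by
    have e : ∀ ω, ind (¬ bit D v ω) = ∏ c ∈ D, ind (ω s(v, c) = false) := by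
      intro ω; rw [← ind_forall]; simp [bit]
    simp only [Pr, e]
    rw [Ex_prod D (fun c => {s(v, c)}) _ (fun i _ j _ hij => by
      rw [disjoint_singleton, Ne, Sym2.congr_right]; exact hij)
      (fun c _ ω ω' h => by rw [h _ (mem_singleton_self _)])]
    rw [prod_congr rfl (g := fun _ => 1 - p) fun c _ => by
      rw [Ex_coord s(v, c) fun b => ind (b = false)]; simp [ind]]
    simp
  rw [qq]; linarith

theorem Pr_iff {E : Type} [Fintype E] [DecidableEq E] {T T' : Finset E} (hT : Disjoint T T')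
    {A B : (E → Bool) → Prop} (hA : Dep A T) (hB : Dep B T') {x : ℝ} (ha : Pr p A = x)
    (hb : Pr p B = x) : Pr p (fun ω => A ω ↔ B ω) = 1 - 2 * x * (1 - x) := by
  have e : ∀ ω, ind (A ω ↔ B ω) = 1 - ind (A ω) - ind (B ω) + 2 * (ind (A ω) * ind (B ω)) := by
    intro ω
    by_cases h1 : A ω <;> by_cases h2 : B ω <;> norm_num [ind, h1, h2]
  simp only [Pr, e] at *
  rw [Ex_add, Ex_sub, Ex_sub, Ex_const, Ex_mul, Ex_indep hT (fun ω ω' h => by rw [hA ω ω' h])
    (fun ω ω' h => by rw [hB ω ω' h]), ha, hb]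
  ring

theorem Pr_pairs (h0 : 0 ≤ p) (h1 : p ≤ 1) (D : Finset V) (A : V → V → (Sym2 V → Bool) → Prop)
    {x : ℝ} (hx : 0 ≤ x) (h : ∀ u ∈ D, ∀ v ∈ D, u ≠ v → Pr p (A u v) ≤ x) :
    Pr p (fun ω => ∃ u ∈ D, ∃ v ∈ D, u ≠ v ∧ A u v ω) ≤ (Fintype.card V : ℝ) ^ 2 * x := by
  have hD : (D.card : ℝ) ≤ Fintype.card V := by exact_mod_cast card_le_univ D
  calc _ ≤ ∑ u ∈ D, ∑ v ∈ D, x := by
        refine (Pr_exists h0 h1 D _).trans (sum_le_sum fun u hu =>
          (Pr_exists h0 h1 D _).trans (sum_le_sum fun v hv => ?_))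
        by_cases huv : u = v
        · have : (fun ω => u ≠ v ∧ A u v ω) = fun _ => False := by simp [huv]
          rw [this, Pr]; simp only [ind_neg not_false, Ex_const]; exact hx
        · exact (Pr_mono h0 h1 fun ω h => h.2).trans (h u hu v hv huv)
    _ ≤ _ := by
        simp only [sum_const, nsmul_eq_mul]
        rw [← mul_assoc, pow_two]
        gcongr

theorem Pr_back (h0 : 0 ≤ p) (h1 : p ≤ 1 / 2) (U : Finset V) (C : ℕ → Finset V) (K : ℕ) :
    Pr p (back U C K) ≤ (Fintype.card V : ℝ) ^ 2 * exp (-(p * (U \ Wd C K).card)) := by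
  refine Pr_pairs h0 (by linarith) _ _ (exp_pos _).le fun u hu v hv huv => ?_
  simp only [Pr, ind_forall]
  have d1 : ∀ y w, w ∈ Wd C K → Dep (fun ω : Sym2 V → Bool => ω s(y, w) = true) (ed {w} y) :=
    fun y w _ ω ω' h => by simp only [h s(y, w) (by simp [ed])]
  have d2 : ∀ y w : V, Pr p (fun ω : Sym2 V → Bool => ω s(y, w) = true) = p := fun y w => by
    rw [Pr, Ex_coord s(y, w) fun b => ind (b = true)]; simp [ind]
  rw [Ex_prod _ (ed (Wd C K)) _ (fun i hi j _ hij => ed_disj' (mem_sdiff.1 hi).2 hij)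
    (fun y _ ω ω' h => by
      simp only [h _ (mem_image_of_mem _ hu), h _ (mem_image_of_mem _ hv)])]
  refine (prod_congr rfl (g := fun _ => 1 - 2 * p * (1 - p)) fun y _ =>
    Pr_iff (ed_disj (by simpa using huv) y) (d1 y u hu) (d1 y v hv) (d2 y u) (d2 y v)).trans_le ?_
  rw [prod_const, mul_comm p, neg_mul_eq_mul_neg, exp_nat_mul]
  have := add_one_le_exp (-p)
  exact pow_le_pow_left₀ (by nlinarith) (by nlinarith) _

omit [Fintype V] in
theorem pat_dep (U : Finset V) (C : ℕ → Finset V) (K : ℕ) :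
    Dep (pat U C K) ((U \ Wd C K).biUnion (ed (Wd C K))) := by
  intro ω ω' h
  funext v j
  refine propext (and_congr_right fun hv => and_congr_right fun hj => ?_)
  rw [bit_dep (sub_Wd hj) v ω ω' fun e he => h e (mem_biUnion.2 ⟨v, hv, he⟩)]

theorem good_of {U : Finset V} {C : ℕ → Finset V} {K d : ℕ} (hC : ∀ j < K, C j ⊆ U)
    {ω : Sym2 V → Bool} {A : Set (Set V)}
    (hA : ∀ S ∈ A, S ⊆ (U \ Wd C K : Finset V) ∧
      ∀ v ∈ S, ∀ w ∈ U \ Wd C K, pat U C K ω v = pat U C K ω w → w ∈ S)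
    (h : Good (adjR ω) (U \ Wd C K : Finset V) A d) (hb : ¬ back U C K ω) :
    Good (adjR ω) U (cls C K) (d + 2) := by
  have hU : ((U \ Wd C K : Finset V) : Set V) ⊆ U := coe_subset.2 sdiff_subset
  have h0 : Dfb (adjR ω) U (cls C K) 0 (U \ Wd C K : Finset V) := by
    have := Dfb.diff 0 _ _ (Dfb.top 0) (Dfb.bU (R := adjR ω) (U := U) (A := cls C K) (d := 0)
      (range K) (fun j => (C j : Set V)) fun j hj => .base _ _ ⟨j, mem_range.1 hj, rfl⟩)
    convert this using 1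
    ext v; simp [Wd]
  refine Good.step hU h0 (fun S hS => ?_) h fun u hu hu' v hv hv' huv => ?_
  · obtain ⟨s1, s2⟩ := hA S hS
    refine Dfb.of_sep (s1.trans hU) fun u hu v hv hvS => ?_
    by_cases hv' : v ∈ U \ Wd C K
    · have hu' : u ∈ U \ Wd C K := s1 hu
      have : ∃ j < K, ¬ (bit (C j) u ω ↔ bit (C j) v ω) := by
        by_contra hc
        push Not at hc
        refine hvS (s2 u hu v hv' (funext fun j => propext ?_))
        simp only [pat, hu', hv', true_and]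
        exact and_congr_right (hc j)
      obtain ⟨j, hj, hne⟩ := this
      have h3 := Dfb.nb (R := adjR ω) (U := U) (A := cls C K) 0 (C j) (.base _ _ ⟨j, hj, rfl⟩)
      have h4 : ∀ w ∈ U \ Wd C K, (w ∈ {v | v ∈ (U : Set V) ∧ ∃ u ∈ (C j : Set V), u ∈ (U : Set V) ∧
          adjR ω v u} ↔ bit (C j) w ω) := by
        intro w hw
        rw [mem_sdiff] at hw
        constructor
        · rintro ⟨_, c, hc, _, _, h⟩; exact ⟨c, hc, h⟩
        · rintro ⟨c, hc, h⟩
          exact ⟨hw.1, c, hc, hC j hj hc, fun e => hw.2 (e ▸ sub_Wd hj hc), h⟩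
      by_cases hb : bit (C j) u ω
      · exact ⟨_, h3, (h4 u hu').2 hb, fun h => hne (iff_of_true hb ((h4 v hv').1 h))⟩
      · refine ⟨_, Dfb.diff _ _ _ (.top _) h3, ⟨hU hu', fun h => hb ((h4 u hu').1 h)⟩,
          fun h => h.2 ((h4 v hv').2 (by tauto))⟩
    · exact ⟨_, h0.mono (by omega), s1 hu, hv'⟩
  · have a1 : u ∈ Wd C K := by by_contra h; exact hu' (mem_coe.2 (mem_sdiff.2 ⟨hu, h⟩))
    have a2 : v ∈ Wd C K := by by_contra h; exact hv' (mem_coe.2 (mem_sdiff.2 ⟨hv, h⟩))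
    by_contra hc
    push Not at hc
    refine hb ⟨u, a1, v, a2, huv, fun y hy => ?_⟩
    have b1 : u ≠ y := fun e => (mem_sdiff.1 hy).2 (e ▸ a1)
    have b2 : v ≠ y := fun e => (mem_sdiff.1 hy).2 (e ▸ a2)
    have := hc y hy
    simpa [adjR, b1, b2, Sym2.eq_swap] using this

def Nxt (U : Finset V) (C : ℕ → Finset V) (K K' a : ℕ) (S : ℝ) (f : V → ℕ → Prop)
    (C' : ℕ → Finset V) : Prop :=
  Inv (U \ Wd C K) C' K' a S ∧ ∀ j < K', ∀ v ∈ C' j, ∀ w ∈ U \ Wd C K, f v = f w → w ∈ C' j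

theorem step (h0 : 0 ≤ p) (h1 : p ≤ 1 / 2) {U : Finset V} {C : ℕ → Finset V} {K K' a d : ℕ}
    {S ε η : ℝ} (hC : ∀ j < K, C j ⊆ U) (hε : 0 ≤ ε)
    (hη : Pr p (fun ω => ¬ ∃ C', Nxt U C K K' a S (pat U C K ω) C') ≤ η)
    (h : ∀ C', Inv (U \ Wd C K) C' K' a S → Pr p (Bad (U \ Wd C K) C' K' d) ≤ ε) :
    Pr p (Bad U C K (d + 2)) ≤
      η + (Fintype.card V : ℝ) ^ 2 * exp (-(p * (U \ Wd C K).card)) + ε := by
  have h1' : p ≤ 1 := by linarith
  let c : (Sym2 V → Bool) → ℕ → Finset V :=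
    fun ω => Classical.epsilon (Nxt U C K K' a S (pat U C K ω))
  have A3 := Pr_cond h0 h1' (T := (U \ Wd C K).biUnion (ed (Wd C K)))
    (T' := (U \ Wd C K).biUnion (ed (U \ Wd C K))) (by
      rw [disjoint_biUnion_left]
      intro u hu
      rw [disjoint_left]
      intro e e1 e2
      obtain ⟨w, hw, rfl⟩ := mem_image.1 e1
      obtain ⟨v, hv, e2⟩ := mem_biUnion.1 e2
      obtain ⟨z, hz, e2⟩ := mem_image.1 e2
      rcases Sym2.eq_iff.1 e2 with ⟨_, h⟩ | ⟨h, _⟩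
      · exact (mem_sdiff.1 hz).2 (h ▸ hw)
      · exact (mem_sdiff.1 hv).2 (h ▸ hw)) c
    (fun ω ω' h => by simp only [c, pat_dep U C K ω ω' h])
    (fun C' => Inv (U \ Wd C K) C' K' a S) (fun C' => Bad (U \ Wd C K) C' K' d)
    (fun C' ω ω' h => by
      have : ∀ u ∈ ((U \ Wd C K : Finset V) : Set V), ∀ v ∈ ((U \ Wd C K : Finset V) : Set V),
          (adjR ω u v ↔ adjR ω' u v) := fun u hu v hv => by
        rw [adjR, adjR, h _ (mem_biUnion.2 ⟨u, hu, mem_image_of_mem _ hv⟩)]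
      exact propext (not_congr ⟨Good.congr this, Good.congr fun u hu v hv =>
        (this u hu v hv).symm⟩)) hε h
  refine (Pr_mono h0 h1' fun ω hω => ?_).trans ((Pr_or h0 h1' _ _).trans (add_le_add
    ((Pr_or h0 h1' _ _).trans (add_le_add hη (Pr_back h0 h1 U C K))) A3))
  by_contra hc
  rw [not_or, not_or, not_not] at hc
  obtain ⟨⟨c1, c2⟩, c3⟩ := hc
  have c4 : Nxt U C K K' a S (pat U C K ω) (c ω) := Classical.epsilon_spec c1
  refine hω (good_of hC (A := cls (c ω) K') ?_ ?_ c2)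
  · rintro _ ⟨j, hj, rfl⟩
    exact ⟨coe_subset.2 (c4.1.1 j hj).1, c4.2 j hj⟩
  · by_contra h
    exact c3 ⟨c4.1, h⟩

theorem final (h0 : 0 ≤ p) (h1 : p ≤ 1 / 2) {U : Finset V} {C : ℕ → Finset V} {K s : ℕ} {S κ : ℝ}
    (hC : Inv U C K s S) (hκ : ∀ j < K, κ ≤ 2 * qq p (C j) * (1 - qq p (C j))) :
    Pr p (Bad U C K 2) ≤ (Fintype.card V : ℝ) ^ 2 * exp (-(κ * K)) +
      (Fintype.card V : ℝ) ^ 2 * exp (-(p * (U \ Wd C K).card)) := by
  have h1' : p ≤ 1 := by linarith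
  have A1 := Pr_pairs h0 h1' (U \ Wd C K)
    (fun u v ω => ∀ j ∈ range K, (bit (C j) u ω ↔ bit (C j) v ω)) (x := exp (-(κ * K)))
    (exp_pos _).le fun u hu v hv huv => by
      have hu' := (mem_sdiff.1 hu).2
      have hv' := (mem_sdiff.1 hv).2
      simp only [Pr, ind_forall]
      rw [Ex_prod _ (fun j => ed (C j) u ∪ ed (C j) v) _ (fun i hi j hj hij => by
          rw [mem_range] at hi hj
          have := hC.2 i hi j hj hij
          simp only [disjoint_union_left, disjoint_union_right]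
          exact ⟨⟨ed_disj this u, ed_disj' (fun h => hv' (sub_Wd hj h)) huv.symm⟩,
            ed_disj' (fun h => hu' (sub_Wd hj h)) huv, ed_disj this v⟩)
        (fun j _ ω ω' h => by
          simp only [bit_dep subset_rfl u ω ω' fun e he => h e (mem_union_left _ he),
            bit_dep subset_rfl v ω ω' fun e he => h e (mem_union_right _ he)])]
      rw [mul_comm κ, neg_mul_eq_mul_neg, exp_nat_mul, ← card_range K, ← prod_const, card_range]
      refine prod_le_prod (fun j _ => Pr_nonneg h0 h1' _) fun j hj => ?_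
      rw [mem_range] at hj
      have := Pr_iff (p := p) (ed_disj' (D := C j) (fun h => hu' (sub_Wd hj h)) huv)
        (bit_dep subset_rfl u) (bit_dep subset_rfl v) (Pr_bit _ u) (Pr_bit _ v)
      rw [Pr] at this
      rw [this]
      linarith [add_one_le_exp (-κ), hκ j hj]
  refine (Pr_mono h0 h1' fun ω hω => ?_).trans ((Pr_or h0 h1' _ _).trans (add_le_add
    A1 (Pr_back h0 h1 U C K)))
  by_contra hc
  rw [not_or] at hc
  refine hω (good_of (d := 0) (fun j hj => (hC.1 j hj).1)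
    (A := {S | ∃ v ∈ U \ Wd C K, S = {v}}) ?_ ?_ hc.2)
  · rintro _ ⟨v, hv, rfl⟩
    refine ⟨by simpa using hv, fun u hu w hw h => ?_⟩
    rw [Set.mem_singleton_iff] at hu
    subst hu
    by_contra hne
    refine hc.1 ⟨u, hv, w, hw, fun e => hne (e ▸ rfl), fun j hj => ?_⟩
    have := congrFun h j
    simpa [pat, hv, hw, mem_range.1 hj] using this
  · intro u hu v _ huv
    exact ⟨{u}, .base _ _ ⟨u, hu, rfl⟩, rfl, fun h => huv (Set.mem_singleton_iff.1 h).symm⟩

noncomputable def pp (p : ℝ) (C : ℕ → Finset V) (x : ℕ → Prop) (l : ℕ) : ℝ :=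
  ∏ i ∈ range l, if x i then qq p (C i) else 1 - qq p (C i)

theorem produce (h0 : 0 ≤ p) (h1 : p ≤ 1) {U : Finset V} {C : ℕ → Finset V} {K s : ℕ} {S S' : ℝ}
    (hC : Inv U C K s S') {ι : Type} (I : Finset ι) (x : ι → ℕ → Prop) (l : ι → ℕ)
    (hl : ∀ t ∈ I, l t ≤ K)
    (hd : ∀ t ∈ I, ∀ t' ∈ I, (∀ i < l t, i < l t' → (x t i ↔ x t' i)) → t = t')
    (y : ℝ) (hy : 1 ≤ y) (a K' : ℕ) (ha : 0 < a) (hK' : 0 < K') (haS : 2 * a ≤ S)
    (hlo : ∀ t ∈ I, (a : ℝ) ≤ exp y * (U \ Wd C K).card * pp p C (x t) (l t))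
    (hhi : ∀ t ∈ I, exp y * (U \ Wd C K).card * pp p C (x t) (l t) ≤ S)
    (hI : 16 * exp y * K' ≤ I.card) :
    Pr p (fun ω => ¬ ∃ C', Nxt U C K K' a S (pat U C K ω) C') ≤
      exp (-(4 * K')) + 8 * exp (y - a * (y - 1)) := by
  let A : ι → V → (Sym2 V → Bool) → Prop :=
    fun t v ω => ∀ i ∈ range (l t), (bit (C i) v ω ↔ x t i)
  have hK0 : (0 : ℝ) < K' := by exact_mod_cast hK'
  have ha1 : (1 : ℝ) ≤ a := by exact_mod_cast ha
  have hI0 : I.Nonempty := by
    rw [← card_pos]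
    have : (0 : ℝ) < I.card := lt_of_lt_of_le (by positivity) hI
    exact_mod_cast this
  have hAd : ∀ t ∈ I, ∀ t' ∈ I, ∀ v ω, A t v ω → A t' v ω → t = t' :=
    fun t ht t' ht' v ω a1 a2 => hd t ht t' ht' fun i i1 i2 =>
      (a1 i (mem_range.2 i1)).symm.trans (a2 i (mem_range.2 i2))
  have hM : 16 * K' * (a : ℝ) ≤ I.card * a / exp y := by
    rw [le_div_iff₀ (exp_pos y)]; nlinarith
  have := weighted h0 h1 (U \ Wd C K) (ed (Wd C K))
    (fun i hi j _ hij => ed_disj' (mem_sdiff.1 hi).2 hij) I hI0 A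
    (fun t ht v _ ω ω' h => propext (forall₂_congr fun i hi => by
      rw [bit_dep (sub_Wd ((mem_range.1 hi).trans_le (hl t ht))) v ω ω' h]))
    (fun t => pp p C (x t) (l t)) (fun t ht v _ => by
      simp only [Pr, A, ind_forall]
      rw [Ex_prod _ (fun i => ed (C i) v) _ (fun i hi j hj hij => ed_disj (hC.2 i
        ((mem_range.1 hi).trans_le (hl t ht)) j ((mem_range.1 hj).trans_le (hl t ht)) hij) v)
        (fun j _ ω ω' h => by simp only [bit_dep subset_rfl v ω ω' h])]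
      refine prod_congr rfl fun i _ => ?_
      split_ifs with hx
      · simp only [hx, iff_true]; exact Pr_bit _ _
      · simp only [hx, iff_false]; rw [← Pr_bit (C i) v]; exact Pr_not _) hAd y hy a ha hlo
  refine (Pr_mono h0 h1 fun ω hω => ?_).trans (this.trans (add_le_add_left
    (exp_le_exp.2 (by nlinarith)) _))
  by_contra hc
  rw [not_le] at hc
  obtain ⟨C', c1, c2⟩ := grouping (fun t => (U \ Wd C K).filter (A t · ω)) a S haS K'
    (I.filter fun t => (((U \ Wd C K).filter (A t · ω)).card : ℝ) ≤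
      exp y * (U \ Wd C K).card * pp p C (x t) (l t))
    (fun t ht t' ht' hne => disjoint_left.2 fun v v1 v2 => hne (hAd t (mem_filter.1 ht).1 t'
      (mem_filter.1 ht').1 v ω (mem_filter.1 v1).2 (mem_filter.1 v2).2))
    (fun t ht => (mem_filter.1 ht).2.trans (hhi t (mem_filter.1 ht).1)) (by
      have : ((2 * a * K' : ℕ) : ℝ) ≤ I.card * a / exp y / 8 := by push_cast; linarith
      have := Nat.cast_le.1 (this.trans hc.le)
      convert this)
  refine hω ⟨C', ⟨fun j hj => ⟨?_, (c1 j hj).2⟩, c2⟩, fun j hj v hv w hw h => ?_⟩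
  · obtain ⟨J, _, e⟩ := (c1 j hj).1
    rw [e]
    exact biUnion_subset.2 fun t _ => filter_subset _ _
  · obtain ⟨J, hJ, e⟩ := (c1 j hj).1
    rw [e] at hv ⊢
    obtain ⟨t, ht, hv⟩ := mem_biUnion.1 hv
    rw [mem_filter] at hv
    refine mem_biUnion.2 ⟨t, ht, mem_filter.2 ⟨hw, fun i hi => ?_⟩⟩
    have hi' := (mem_range.1 hi).trans_le (hl t (mem_filter.1 (hJ ht)).1)
    have := congrFun h i
    simp only [pat, hv.1, hw, hi', true_and, eq_iff_iff] at this
    exact this.symm.trans (hv.2 i hi)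

end Pool.Agent.H30.Qd
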