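import Pool.Agent.H30.QdD

/-! The two phases of rounds. -/

namespace Pool.Agent.H30.Qd

open Finset Real
open scoped Classical

variable {V : Type} {p : ℝ}

theorem qq_nonneg (h0 : 0 ≤ p) (h1 : p ≤ 1) (D : Finset V) : 0 ≤ qq p D :=
  sub_nonneg.2 (pow_le_one₀ (by linarith) (by linarith))

theorem qq_le_one (h1 : p ≤ 1) (D : Finset V) : qq p D ≤ 1 :=
  sub_le_self _ (pow_nonneg (by linarith) _)

theorem qq_le (h1 : p ≤ 1) (D : Finset V) : qq p D ≤ p * D.card := by
  have := one_add_mul_le_pow (a := -p) (by linarith) D.card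
  rw [← sub_eq_add_neg] at this
  rw [qq]; linarith

theorem qq_ge (h0 : 0 ≤ p) (h1 : p ≤ 1) {D : Finset V} {s : ℕ} (hs : s ≤ D.card) :
    p * s ≤ qq p D * (1 + p * s) := by
  have a1 := one_add_mul_le_pow (a := p) (by linarith) s
  have a2 : (1 - p) ^ D.card ≤ (1 - p) ^ s := pow_le_pow_of_le_one (by linarith) (by linarith) hs
  have a3 : (1 - p) ^ s * (1 + p) ^ s ≤ 1 := by
    rw [← mul_pow]; exact pow_le_one₀ (by nlinarith) (by nlinarith)
  have a4 : 0 ≤ (1 - p) ^ s := pow_nonneg (by linarith) _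
  have a5 : 0 ≤ p * s := by positivity
  rw [qq]
  nlinarith [mul_le_mul_of_nonneg_left a1 a4, mul_le_mul_of_nonneg_right a2 (by linarith : 0 ≤ 1 + p * s)]

theorem qq_half (h0 : 0 ≤ p) (h1 : p ≤ 1) {D : Finset V} {s : ℕ} (hs : s ≤ D.card)
    (h : p * s ≤ 1) : p * s / 2 ≤ qq p D := by
  nlinarith [qq_ge h0 h1 hs, qq_nonneg h0 h1 D]

theorem qq_top (h0 : 0 < p) (h1 : p ≤ 1 / 2) {D : Finset V} (h : (D.card : ℝ) ≤ 4 / p) :
    exp (-8) ≤ 1 - qq p D := by
  have a1 : exp (-(2 * p)) ≤ 1 - p := by have := exp_neg_le (x := 2 * p) (by linarith) (by linarith); linarith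
  have a2 := pow_le_pow_left₀ (exp_pos _).le a1 D.card
  rw [← exp_nat_mul] at a2
  rw [le_div_iff₀ h0] at h
  rw [qq, sub_sub_cancel]
  exact (exp_le_exp.2 (by nlinarith)).trans a2

theorem pp_ge (h0 : 0 ≤ p) (h1 : p ≤ 1) (C : ℕ → Finset V) {x : ℕ → Prop} {l j : ℕ} (hj : j < l)
    (hx : ∀ i < l, (x i ↔ i = j)) {β : ℝ} (b0 : 0 ≤ β) (hb : ∀ i < l, β ≤ 1 - qq p (C i)) :
    qq p (C j) * β ^ l ≤ pp p C x l := by
  have : qq p (C j) * β ^ l = ∏ i ∈ range l, ((if i = j then qq p (C j) else 1) * β) := by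
    rw [prod_mul_distrib, prod_ite_eq', if_pos (mem_range.2 hj), prod_const, card_range]
  rw [this]
  refine prod_le_prod (fun i _ => ?_) fun i hi => ?_
  · have := qq_nonneg h0 h1 (C j)
    split_ifs <;> positivity
  · rw [mem_range] at hi
    have := hb i hi
    have a := qq_nonneg h0 h1 (C i)
    by_cases h : i = j
    · subst h
      rw [if_pos rfl, if_pos ((hx i hi).2 rfl)]; nlinarith
    · rw [if_neg h, if_neg fun h' => h ((hx i hi).1 h')]; linarith

theorem pp_le (h0 : 0 ≤ p) (h1 : p ≤ 1) (C : ℕ → Finset V) {x : ℕ → Prop} {l : ℕ} {F : Finset ℕ}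
    (hF : F ⊆ range l) {β : ℝ} (hb : ∀ i ∈ F, x i ∧ qq p (C i) ≤ β) :
    pp p C x l ≤ β ^ F.card := by
  have : β ^ F.card = ∏ i ∈ range l, if i ∈ F then β else 1 := by
    rw [prod_ite_mem, inter_eq_right.2 hF, prod_const]
  rw [this]
  refine prod_le_prod (fun i _ => ?_) fun i _ => ?_
  · have := qq_nonneg h0 h1 (C i)
    have := qq_le_one h1 (C i)
    split_ifs <;> linarith
  · have := qq_nonneg h0 h1 (C i)
    have := qq_le_one h1 (C i)
    by_cases h : i ∈ F
    · rw [if_pos h, if_pos (hb i h).1]; exact (hb i h).2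
    · rw [if_neg h]; split_ifs <;> linarith

theorem half_le_pow {k l : ℕ} (hk : 0 < k) (hl : l ≤ k) : (1 : ℝ) / 2 ≤ (1 - 1 / (2 * k)) ^ l := by
  have k1 : (1 : ℝ) ≤ k := by exact_mod_cast hk
  have l1 : (l : ℝ) ≤ k := by exact_mod_cast hl
  have e : (1 : ℝ) / (2 * k) ≤ 1 := by rw [div_le_one (by linarith)]; linarith
  have := one_add_mul_le_pow (a := -(1 / (2 * (k : ℝ)))) (by linarith) l
  rw [← sub_eq_add_neg] at this
  have e2 : (l : ℝ) * (1 / (2 * k)) ≤ 1 / 2 := by
    rw [mul_one_div, div_le_div_iff₀ (by linarith) (by norm_num)]; linarith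
  linarith

theorem divt (f : ℕ → ℝ) (τ : ℝ) {a b : ℕ} (hab : a ≤ b) (ha : τ < f a) (hb : f b ≤ τ) :
    ∃ l, a ≤ l ∧ l < b ∧ τ < f l ∧ f (l + 1) ≤ τ := by
  induction hab with
  | refl => linarith
  | @step b hab ih =>
    by_cases h : f b ≤ τ
    · obtain ⟨l, h1, h2, h3⟩ := ih h
      exact ⟨l, h1, by omega, h3⟩
    · exact ⟨b, hab, by omega, not_le.1 h, hb⟩

theorem reindex {K k : ℕ} {J : Finset ℕ} (hJ : J ⊆ range K) (hk : k ≤ J.card) :
    ∃ σ : ℕ → ℕ, (∀ i < K, σ i < K) ∧ (∀ i < K, ∀ j < K, σ i = σ j → i = j) ∧ ∀ i < k, σ i ∈ J := by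
  let l := J.toList ++ (range K \ J).toList
  have hl : l.length = K := by
    have := card_sdiff_add_card_eq_card hJ
    simp only [l, List.length_append, length_toList, card_range] at *
    omega
  have hn : l.Nodup := by
    refine List.nodup_append.2 ⟨nodup_toList _, nodup_toList _, fun a ha b hb e => ?_⟩
    rw [mem_toList] at ha hb
    exact (mem_sdiff.1 hb).2 (e ▸ ha)
  refine ⟨fun i => l.getD i 0, fun i hi => ?_, fun i hi j hj h => ?_, fun i hi => ?_⟩
  · beta_reduce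
    rw [List.getD_eq_getElem _ _ (hl ▸ hi)]
    have := List.getElem_mem (l := l) (hl ▸ hi)
    rw [List.mem_append, mem_toList, mem_toList] at this
    exact mem_range.1 (this.elim (fun h => hJ h) fun h => (mem_sdiff.1 h).1)
  · simp only [List.getD_eq_getElem _ _ (hl ▸ hi : i < l.length),
      List.getD_eq_getElem _ _ (hl ▸ hj : j < l.length)] at h
    exact hn.getElem_inj_iff.1 h
  · have : i < J.toList.length := by rw [length_toList]; omega
    simp only [l]
    rw [List.getD_append _ _ _ _ this, List.getD_eq_getElem _ _ this, ← mem_toList]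
    exact List.getElem_mem _

theorem Inv.re {U : Finset V} {C : ℕ → Finset V} {K K' s s' : ℕ} {S : ℝ} (h : Inv U C K s S)
    {σ : ℕ → ℕ} (h1 : ∀ i < K, σ i < K) (h2 : ∀ i < K, ∀ j < K, σ i = σ j → i = j) (hK : K' ≤ K)
    (hs : ∀ i < K', s' ≤ (C (σ i)).card) : Inv U (C ∘ σ) K' s' S :=
  ⟨fun j hj => ⟨(h.1 _ (h1 j (by omega))).1, hs j hj, (h.1 _ (h1 j (by omega))).2.2⟩,
    fun i hi j hj hij => h.2 _ (h1 i (by omega)) _ (h1 j (by omega)) fun e =>
      hij (h2 i (by omega) j (by omega) e)⟩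

theorem Bad.re {U : Finset V} {C : ℕ → Finset V} {K K' d d' : ℕ} {σ : ℕ → ℕ}
    (h1 : ∀ i < K, σ i < K) (hK : K' ≤ K) (hd : d' ≤ d) {ω : Sym2 V → Bool} (h : Bad U C K d ω) :
    Bad U (C ∘ σ) K' d' ω := fun h' => h (h'.mono (by
      rintro _ ⟨j, hj, rfl⟩
      exact ⟨σ j, h1 j (by omega), rfl⟩) hd)

theorem Inv.card {U : Finset V} {C : ℕ → Finset V} {K s : ℕ} {S : ℝ} (h : Inv U C K s S) :
    (U.card : ℝ) ≤ (U \ Wd C K).card + K * S := by
  have a1 : U.card ≤ (U \ Wd C K).card + (Wd C K).card := card_le_card_sdiff_add_card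
  have a2 : (Wd C K).card ≤ ∑ j ∈ range K, (C j).card := card_biUnion_le
  have a3 : ∑ j ∈ range K, ((C j).card : ℝ) ≤ ∑ _j ∈ range K, S :=
    sum_le_sum fun j hj => (h.1 j (mem_range.1 hj)).2.2
  rw [sum_const, card_range, nsmul_eq_mul, ← Nat.cast_sum] at a3
  have : (U.card : ℝ) ≤ ((U \ Wd C K).card : ℕ) + ((∑ j ∈ range K, (C j).card : ℕ) : ℝ) := by
    exact_mod_cast a1.trans (Nat.add_le_add_left a2 _)
  linarith

structure Par (n p y η : ℝ) (K m : ℕ) : Prop where
  n0 : 0 < n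
  p0 : 0 < p
  p1 : p ≤ 1 / 2
  y2 : 2 ≤ y
  y8 : 8 * exp 2 ≤ exp y
  m0 : 0 < m
  hm : 16 * exp y * K ≤ m * m
  mK : 4 * m ≤ K
  tail : (1 - exp (-8)) ^ (K - 2 * m) ≤ 4 / (p * exp y * n)
  big : 8 / (p * exp y * n) < exp (-8) ^ (2 * m) / (4 * m)
  hη : exp (-(4 * K)) + n ^ 2 * exp (-(p * (n / 2))) + n ^ 2 * exp (-(2 / 3 * exp (-8) * K)) ≤ η

variable [Fintype V] {y η : ℝ} {K m : ℕ}

theorem round2 (P : Par (Fintype.card V) p y η K m) {U : Finset V} {C : ℕ → Finset V} {s : ℕ}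
    (hC : Inv U C K s (4 / p)) (s1 : 1 ≤ s) (hs : p * s ≤ 1)
    (hσ : 32 / (p ^ 2 * exp y * Fintype.card V) < s)
    (hN : (Fintype.card V : ℝ) / 2 ≤ (U \ Wd C K).card)
    (hom : (∀ i < 2 * m, qq p (C i) ≤ 1 / (4 * m)) ∨ ∀ i < 2 * m, 1 / (4 * m) ≤ qq p (C i)) :
    Pr p (fun ω => ¬ ∃ C', Nxt U C K K (2 * s) (4 / p) (pat U C K ω) C') ≤
      exp (-(4 * K)) + 8 * exp 4 / (exp y * (2 * s : ℕ)) := by
  set n : ℝ := (Fintype.card V : ℝ)
  set N : ℝ := ((U \ Wd C K).card : ℝ)
  have hp := P.p0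
  have h1 : p ≤ 1 := by linarith [P.p1]
  have n0 := P.n0
  have m0 := P.m0
  have mK := P.mK
  have ey := exp_pos y
  have N0 : 0 < N := by linarith
  have Nn : N ≤ n := by simp only [N, n]; exact_mod_cast card_le_univ _
  set τ := 4 / (p * exp y * N) with hτ
  have τ1 : 4 / (p * exp y * n) ≤ τ := by rw [hτ]; gcongr
  have τ2 : τ ≤ 8 / (p * exp y * n) := by
    rw [hτ, div_le_div_iff₀ (by positivity) (by positivity)]
    nlinarith [mul_pos hp ey]
  have τ0 : 0 < τ := by positivity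
  have hq : ∀ i < K, p * s / 2 ≤ qq p (C i) := fun i hi => qq_half hp.le h1 (hC.1 i hi).2.1 hs
  have hq' : ∀ i < K, exp (-8) ≤ 1 - qq p (C i) := fun i hi => qq_top hp P.p1 (hC.1 i hi).2.2
  let x : ℕ × ℕ → ℕ → Prop := fun t i => i = t.1 ∨ t.2 ≤ i
  have key : ∀ t ∈ range m ×ˢ Ico m (2 * m), ∃ l, t.2 ≤ l ∧ l < K ∧ τ < pp p C (x t) l ∧
      pp p C (x t) (l + 1) ≤ τ := by
    intro t ht
    simp only [mem_product, mem_range, mem_Ico] at ht
    refine divt _ τ (by omega) ?_ ?_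
    · have hx : ∀ i < t.2, (x t i ↔ i = t.1) := fun i hi => by simp only [x]; omega
      have m1 : (1 : ℝ) ≤ m := by exact_mod_cast m0
      rcases hom with hom | hom
      · have b1 : (1 : ℝ) / (2 * (2 * m : ℕ)) = 1 / (4 * m) := by push_cast; ring
        have b2 := half_le_pow (k := 2 * m) (l := t.2) (by omega) (by omega)
        rw [b1] at b2
        refine lt_of_lt_of_le ?_ (pp_ge hp.le h1 C (by omega) hx (β := 1 - 1 / (4 * m))
          (by rw [sub_nonneg, div_le_one (by linarith)]; linarith)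
          fun i hi => by linarith [hom i (by omega)])
        have b3 := hq t.1 (by omega)
        have b4 : 8 / (p * exp y * n) = p * (32 / (p ^ 2 * exp y * n)) / 4 := by field_simp; ring
        have b5 : 0 ≤ p * s := by positivity
        nlinarith [mul_lt_mul_of_pos_left hσ hp]
      · refine lt_of_lt_of_le ?_ (pp_ge hp.le h1 C (by omega) hx (β := exp (-8)) (exp_pos _).le
          fun i hi => hq' i (by omega))
        have b1 : exp (-8) ^ (2 * m) ≤ exp (-8) ^ t.2 :=
          pow_le_pow_of_le_one (exp_pos _).le (exp_le_one_iff.2 (by norm_num)) (by omega)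
        refine (τ2.trans_lt P.big).trans_le ?_
        rw [div_eq_mul_one_div, mul_comm]
        exact mul_le_mul (hom t.1 (by omega)) b1 (by positivity) (qq_nonneg hp.le h1 _)
    · have := pp_le hp.le h1 C (x := x t) (l := K) (F := Ico (2 * m) K) (β := 1 - exp (-8))
        (fun i hi => mem_range.2 (mem_Ico.1 hi).2) fun i hi => by
          rw [mem_Ico] at hi
          exact ⟨Or.inr (by omega), by linarith [hq' i hi.2]⟩
      rw [Nat.card_Ico] at this
      exact this.trans (P.tail.trans τ1)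
  choose! l l1 l2 l3 l4 using key
  have e1 : exp y * N * τ = 4 / p := by rw [hτ]; field_simp
  refine (produce hp.le h1 hC (range m ×ˢ Ico m (2 * m)) x (fun t => l t + 1)
    (fun t ht => l2 t ht) (fun t ht t' ht' h => ?_) y (by linarith [P.y2]) (2 * s) K (by omega)
    (by omega) ?_ (fun t ht => ?_) (fun t ht => ?_) ?_).trans (add_le_add_right ?_ _)
  · have a1 := l1 t ht
    have a2 := l1 t' ht'
    simp only [mem_product, mem_range, mem_Ico] at ht ht'
    have b1 : t.1 = t'.1 ∨ t'.2 ≤ t.1 := (h t.1 (by omega) (by omega)).1 (Or.inl rfl)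
    have b2 := h (min t.2 t'.2) (by omega) (by omega)
    simp only [x] at b2
    ext <;> omega
  · rw [le_div_iff₀ hp]; push_cast; linarith
  · have : pp p C (x t) (l t + 1) = pp p C (x t) (l t) * qq p (C (l t)) := by
      rw [pp, prod_range_succ, if_pos (Or.inr (l1 t ht))]; rfl
    have a1 : τ * (p * s / 2) ≤ pp p C (x t) (l t + 1) := this ▸
      mul_le_mul (l3 t ht).le (hq _ (l2 t ht)) (by positivity) (τ0.trans (l3 t ht)).le
    calc ((2 * s : ℕ) : ℝ) = exp y * N * (τ * (p * s / 2)) := by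
          rw [← mul_assoc, e1]; push_cast; field_simp; ring
      _ ≤ _ := mul_le_mul_of_nonneg_left a1 (by positivity)
  · rw [← e1]; exact mul_le_mul_of_nonneg_left (l4 t ht) (by positivity)
  · rw [card_product, card_range, Nat.card_Ico, show 2 * m - m = m by omega]
    push_cast; exact P.hm
  · set a : ℝ := ((2 * s : ℕ) : ℝ)
    have a2 : 2 ≤ a := by simp only [a]; exact_mod_cast (by omega : 2 ≤ 2 * s)
    have a3 : exp (y - a * (y - 1)) ≤ exp (4 - (y + a)) := exp_le_exp.2 (by nlinarith [P.y2])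
    rw [exp_sub 4, exp_add] at a3
    have a4 : exp 4 / (exp y * exp a) ≤ exp 4 / (exp y * a) := by
      have := add_one_le_exp a
      gcongr; linarith
    rw [mul_div_assoc]; linarith

theorem back_le (P : Par (Fintype.card V) p y η K m) {N : ℝ} (hN : (Fintype.card V : ℝ) / 2 ≤ N) :
    (Fintype.card V : ℝ) ^ 2 * exp (-(p * N)) ≤
      (Fintype.card V : ℝ) ^ 2 * exp (-(p * ((Fintype.card V : ℝ) / 2))) := by
  have := P.p0
  gcongr

theorem phase2 (P : Par (Fintype.card V) p y η K m) (r : ℕ) :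
    ∀ (s : ℕ) (U : Finset V) (C : ℕ → Finset V), 1 ≤ s →
      32 / (p ^ 2 * exp y * Fintype.card V) < s → 1 / 2 ≤ p * s * 2 ^ r → Inv U C K s (4 / p) →
      (Fintype.card V : ℝ) / 2 + (r + 1) * (K * (4 / p)) ≤ U.card →
      Pr p (Bad U C K (2 * r + 2)) ≤ 8 * exp 4 / (exp y * s) + (r + 1) * η := by
  have hp := P.p0
  have h1 : p ≤ 1 := by linarith [P.p1]
  have hη := P.hη
  have e1 := exp_pos (-(4 * (K : ℝ)))
  have e2 : 0 ≤ (Fintype.card V : ℝ) ^ 2 * exp (-(p * (Fintype.card V / 2))) := by positivity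
  have e3 : 0 ≤ (Fintype.card V : ℝ) ^ 2 * exp (-(2 / 3 * exp (-8) * K)) := by positivity
  have KS : 0 ≤ K * (4 / p) := by positivity
  have fin : ∀ (r s : ℕ) (U : Finset V) (C : ℕ → Finset V), 1 / 2 ≤ p * s → Inv U C K s (4 / p) →
      (Fintype.card V : ℝ) / 2 + (r + 1) * (K * (4 / p)) ≤ U.card →
      Pr p (Bad U C K (2 * r + 2)) ≤ 8 * exp 4 / (exp y * s) + (r + 1) * η := by
    intro r s U C hs hC hU
    have r0 : (0 : ℝ) ≤ r := by positivity
    have a1 := final hp.le P.p1 hC (κ := 2 / 3 * exp (-8)) fun j hj => by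
      have b1 := qq_ge hp.le h1 (hC.1 j hj).2.1
      have b2 := qq_top hp P.p1 (hC.1 j hj).2.2
      have b3 := qq_le_one h1 (C j)
      have b4 : 1 / 3 ≤ qq p (C j) := by nlinarith
      nlinarith [exp_pos (-8)]
    have a2 := back_le P (N := (U \ Wd C K).card) (by nlinarith [hC.card])
    have a3 : Pr p (Bad U C K (2 * r + 2)) ≤ Pr p (Bad U C K 2) :=
      Pr_mono hp.le h1 fun ω h => Bad.re (σ := id) (fun _ h => h) le_rfl (by omega) h
    have a4 : 0 ≤ 8 * exp 4 / (exp y * s) := by positivity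
    nlinarith
  induction r with
  | zero => intro s U C _ _ h hC hU; exact fin 0 s U C (by simpa using h) hC hU
  | succ r ih =>
    intro s U C s1 hσ h hC hU
    by_cases hs : 1 / 2 ≤ p * s
    · exact fin _ s U C hs hC hU
    obtain ⟨σ, σ1, σ2, hom⟩ : ∃ σ : ℕ → ℕ, (∀ i < K, σ i < K) ∧
        (∀ i < K, ∀ j < K, σ i = σ j → i = j) ∧ ((∀ i < 2 * m, qq p (C (σ i)) ≤ 1 / (4 * m)) ∨
          ∀ i < 2 * m, 1 / (4 * m) ≤ qq p (C (σ i))) := by
      have := card_filter_add_card_filter_not (s := range K) fun i => qq p (C i) ≤ 1 / (4 * m)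
      have mK := P.mK
      rw [card_range] at this
      by_cases hc : 2 * m ≤ ((range K).filter fun i => qq p (C i) ≤ 1 / (4 * m)).card
      · obtain ⟨σ, a, b, c⟩ := reindex (filter_subset _ _) hc
        exact ⟨σ, a, b, Or.inl fun i hi => (mem_filter.1 (c i hi)).2⟩
      · obtain ⟨σ, a, b, c⟩ := reindex (k := 2 * m)
          (filter_subset (fun i => ¬ qq p (C i) ≤ 1 / (4 * m)) (range K)) (by omega)
        exact ⟨σ, a, b, Or.inr fun i hi => (not_le.1 (mem_filter.1 (c i hi)).2).le⟩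
    have hC' := hC.re σ1 σ2 le_rfl fun i hi => (hC.1 _ (σ1 i hi)).2.1
    have r0 : (0 : ℝ) ≤ r := by positivity
    have c1 := hC'.card
    push_cast at hU
    have hN : (Fintype.card V : ℝ) / 2 ≤ (U \ Wd (C ∘ σ) K).card := by nlinarith
    have s0 : (1 : ℝ) ≤ s := by exact_mod_cast s1
    have η0 : 0 ≤ η := by linarith
    have a1 := step hp.le P.p1 (d := 2 * r + 2) (fun j hj => (hC'.1 j hj).1) (by positivity)
      (round2 P hC' s1 (by linarith) hσ hN hom) fun C' h' =>
        ih (2 * s) _ C' (by omega) (hσ.trans_le (by push_cast; linarith))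
          (by push_cast; rw [pow_succ] at h; linarith) h' (by linarith)
    have a2 := back_le P hN
    have a3 : Pr p (Bad U C K (2 * (r + 1) + 2)) ≤ Pr p (Bad U (C ∘ σ) K (2 * r + 2 + 2)) :=
      Pr_mono hp.le h1 fun ω h => Bad.re σ1 le_rfl (by omega) h
    have a4 : 8 * exp 4 / (exp y * s) = 2 * (8 * exp 4 / (exp y * (2 * s : ℕ))) := by
      push_cast; field_simp
    push_cast at a1 a4 ⊢
    linarith

theorem phase1 (P : Par (Fintype.card V) p y η K m) {g T R : ℕ} (g1 : 1 ≤ g)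
    (hg : (g : ℝ) ≤ Fintype.card V * p / 8)
    (hT : 32 / (p * exp y * Fintype.card V) ≤ 1 / (2 * (256 ^ T * K : ℕ)))
    (hR : 1 / 2 ≤ p * 2 ^ R) (e : ℕ) :
    ∀ (s : ℕ) (U : Finset V) (C : ℕ → Finset V), e ≤ T → 1 ≤ s →
      32 / (p ^ 2 * exp y * Fintype.card V) < s * g ^ e → Inv U C (256 ^ e * K) s (4 / p) →
      (Fintype.card V : ℝ) / 2 + (R + 1) * (K * (4 / p)) + e * ((256 ^ T * K : ℕ) * (4 / p)) ≤
        U.card →
      Pr p (Bad U C (256 ^ e * K) (2 * e + (2 * R + 2))) ≤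
        8 * exp 4 / exp y + (R + 1) * η + e * (η + 8 * exp 2 / g) := by
  set n : ℝ := (Fintype.card V : ℝ)
  set z : ℝ := 32 / (p ^ 2 * exp y * n) with hz
  have hp := P.p0
  have n0 := P.n0
  have ey := exp_pos y
  have h1 : p ≤ 1 := by linarith [P.p1]
  have hη := P.hη
  have e1 := exp_pos (-(4 * (K : ℝ)))
  have e2 : 0 ≤ n ^ 2 * exp (-(p * (n / 2))) := by positivity
  have e3 : 0 ≤ n ^ 2 * exp (-(2 / 3 * exp (-8) * K)) := by positivity
  have η0 : 0 ≤ η := by linarith
  have g0 : (1 : ℝ) ≤ g := by exact_mod_cast g1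
  have K0 : 0 < K := by have := P.m0; have := P.mK; omega
  have z0 : 0 ≤ z := by positivity
  have fin : ∀ (e s : ℕ) (U : Finset V) (C : ℕ → Finset V), Inv U C (256 ^ e * K) s (4 / p) →
      K ≤ ((range (256 ^ e * K)).filter fun j => z < (C j).card).card →
      n / 2 + (R + 1) * (K * (4 / p)) + e * ((256 ^ T * K : ℕ) * (4 / p)) ≤ U.card →
      Pr p (Bad U C (256 ^ e * K) (2 * e + (2 * R + 2))) ≤
        8 * exp 4 / exp y + (R + 1) * η + e * (η + 8 * exp 2 / g) := by
    intro e s U C hC hJ hU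
    obtain ⟨σ, σ1, σ2, σ3⟩ := reindex (filter_subset _ _) hJ
    have kK : K ≤ 256 ^ e * K := Nat.le_mul_of_pos_left _ (by positivity)
    have hC' := hC.re σ1 σ2 kK (s' := ⌊z⌋₊ + 1) fun i hi =>
      (Nat.floor_lt z0).2 (mem_filter.1 (σ3 i hi)).2
    have s0 : (1 : ℝ) ≤ (⌊z⌋₊ + 1 : ℕ) := by exact_mod_cast Nat.le_add_left _ _
    have b1 : 0 ≤ e * ((256 ^ T * K : ℕ) * (4 / p)) := by positivity
    have a1 := phase2 P R _ U _ (by omega) (by push_cast; exact Nat.lt_floor_add_one z)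
      (hR.trans (by rw [mul_right_comm]; exact le_mul_of_one_le_right (by positivity) s0)) hC'
      (by linarith)
    have a3 : Pr p (Bad U C (256 ^ e * K) (2 * e + (2 * R + 2))) ≤
        Pr p (Bad U (C ∘ σ) K (2 * R + 2)) :=
      Pr_mono hp.le h1 fun ω h => Bad.re σ1 kK (by omega) h
    have a4 : 8 * exp 4 / (exp y * (⌊z⌋₊ + 1 : ℕ)) ≤ 8 * exp 4 / exp y := by
      gcongr; exact le_mul_of_one_le_right ey.le s0
    have a5 : 0 ≤ e * (η + 8 * exp 2 / g) := by positivity
    linarith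
  induction e with
  | zero =>
    intro s U C _ _ hs hC hU
    refine fin 0 s U C hC ?_ hU
    rw [filter_true_of_mem fun j hj => hs.trans_le (by
      simpa using (hC.1 j (mem_range.1 hj)).2.1)]
    simp
  | succ e ih =>
    intro s U C eT s1 hs hC hU
    by_cases hJ : K ≤ ((range (256 ^ (e + 1) * K)).filter fun j => z < (C j).card).card
    · exact fin _ s U C hC hJ hU
    set K' := 256 ^ e * K with hK'
    have kK : K ≤ K' := Nat.le_mul_of_pos_left _ (by positivity)
    have k1 : 256 ^ (e + 1) * K = 256 * K' := by rw [hK']; ring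
    have k2 : 256 * K' ≤ 256 ^ T * K :=
      k1 ▸ Nat.mul_le_mul_right _ (Nat.pow_le_pow_right (by norm_num) eT)
    have := card_filter_add_card_filter_not (s := range (256 ^ (e + 1) * K))
      fun j => z < (C j).card
    rw [card_range] at this
    obtain ⟨σ, σ1, σ2, σ3⟩ := reindex (k := 128 * K')
      (filter_subset (fun j => ¬ z < (C j).card) (range (256 ^ (e + 1) * K))) (by omega)
    have hC' := hC.re σ1 σ2 (K' := 128 * K') (by omega) fun i hi => (hC.1 _ (σ1 i (by omega))).2.1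
    have tz : ∀ i < 128 * K', (((C ∘ σ) i).card : ℝ) ≤ z := fun i hi =>
      not_lt.1 (mem_filter.1 (σ3 i hi)).2
    have k3 : ((128 * K' : ℕ) : ℝ) ≤ (256 ^ T * K : ℕ) := by exact_mod_cast (by omega)
    have k4 : (1 : ℝ) ≤ (128 * K' : ℕ) := by exact_mod_cast (by omega)
    have pz : p * z ≤ 1 / (2 * (128 * K' : ℕ)) := by
      have : p * z = 32 / (p * exp y * n) := by rw [hz]; field_simp
      rw [this]; refine hT.trans ?_; gcongr
    have pz1 : p * z ≤ 1 / 2 := pz.trans (by gcongr; linarith)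
    have sz : (s : ℝ) ≤ z := le_trans (by exact_mod_cast (hC'.1 0 (by omega)).2.1) (tz 0 (by omega))
    have hq : ∀ i < 128 * K', qq p ((C ∘ σ) i) ≤ p * z := fun i hi =>
      (qq_le h1 _).trans (mul_le_mul_of_nonneg_left (tz i hi) hp.le)
    have c1 := hC'.card
    have c2 : ((128 * K' : ℕ) : ℝ) * (4 / p) ≤ (256 ^ T * K : ℕ) * (4 / p) := by gcongr
    have c3 : 0 ≤ (e : ℝ) * ((256 ^ T * K : ℕ) * (4 / p)) := by positivity
    have c4 : 0 ≤ ((R : ℝ) + 1) * (K * (4 / p)) := by positivity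
    rw [Nat.cast_succ] at hU ⊢
    set N : ℝ := ((U \ Wd (C ∘ σ) (128 * K')).card : ℝ)
    have hN : n / 2 ≤ N := by linarith
    have Nn : N ≤ n := by simp only [N, n]; exact_mod_cast card_le_univ _
    have s0 : (1 : ℝ) ≤ s := by exact_mod_cast s1
    have x1 : 1 ≤ exp 2 := one_le_exp (by norm_num)
    have x2 : exp 2 ≤ 8 := by
      have := Real.exp_one_lt_d9
      have h2 : exp 2 = exp 1 * exp 1 := by rw [← exp_add]; norm_num
      nlinarith [exp_pos 1]
    have y8 := P.y8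
    have npz : n * (p * z) = 32 / (p * exp y) := by rw [hz]; field_simp
    have a0 := produce hp.le h1 hC' (range (128 * K')) (fun j i => i = j) (fun j => j + 1)
      (S := 4 / p) (fun t ht => mem_range.1 ht)
      (fun t _ t' _ h => by have := h (min t t') (by omega) (by omega); omega) 2 (by norm_num)
      (g * s) K' (by positivity) (by omega) (by
        have : 32 / (p * exp y) ≤ 16 / p := by
          rw [div_le_div_iff₀ (by positivity) hp]; nlinarith
        have h3 : (g : ℝ) * s ≤ n * p / 8 * z := by gcongr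
        have h4 : n * p / 8 * z = n * (p * z) / 8 := by ring
        have h5 : 16 / p = 4 * (4 / p) := by ring
        push_cast; linarith)
      (fun t ht => by
        rw [mem_range] at ht
        have b1 := pp_ge hp.le h1 (C ∘ σ) (x := fun i => i = t) (l := t + 1) (j := t) (by omega)
          (fun _ _ => Iff.rfl) (β := 1 - 1 / (2 * (128 * K' : ℕ)))
          (by rw [sub_nonneg, div_le_one (by linarith)]; linarith)
          fun i hi => by linarith [hq i (by omega)]
        have b2 := half_le_pow (k := 128 * K') (l := t + 1) (by omega) (by omega)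
        have b3 := qq_half hp.le h1 (hC'.1 t ht).2.1 (by nlinarith)
        have b4 : p * s / 2 * (1 / 2) ≤ pp p (C ∘ σ) (fun i => i = t) (t + 1) :=
          (mul_le_mul b3 b2 (by norm_num) (qq_nonneg hp.le h1 _)).trans b1
        calc ((g * s : ℕ) : ℝ) ≤ n * p / 8 * s := by push_cast; gcongr
          _ = 1 * (n / 2) * (p * s / 2 * (1 / 2)) := by ring
          _ ≤ _ := by gcongr)
      (fun t ht => by
        rw [mem_range] at ht
        have b1 := pp_le hp.le h1 (C ∘ σ) (x := fun i => i = t) (l := t + 1) (F := {t}) (by simp)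
          (β := p * z) fun i hi => by rw [mem_singleton.1 hi]; exact ⟨rfl, hq t ht⟩
        rw [card_singleton, pow_one] at b1
        calc exp 2 * N * _ ≤ exp 2 * N * (p * z) :=
              mul_le_mul_of_nonneg_left b1 (mul_nonneg (by linarith) (by linarith))
          _ ≤ exp 2 * n * (p * z) := by gcongr
          _ ≤ 4 / p := by
            rw [mul_assoc, npz, ← mul_div_assoc, div_le_div_iff₀ (by positivity) hp]; nlinarith)
      (by rw [card_range]; push_cast; nlinarith [(Nat.cast_nonneg K' : (0 : ℝ) ≤ K')])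
    have a1 := step hp.le P.p1 (d := 2 * e + (2 * R + 2)) (fun j hj => (hC'.1 j hj).1)
      (by positivity) a0 fun C' h' => ih (g * s) _ C' (by omega) (Nat.mul_pos g1 s1)
        (by push_cast; rw [pow_succ] at hs; linarith) h' (by linarith)
    have a2 := back_le P hN
    have a3 : Pr p (Bad U C (256 ^ (e + 1) * K) (2 * (e + 1) + (2 * R + 2))) ≤
        Pr p (Bad U (C ∘ σ) (128 * K') (2 * e + (2 * R + 2) + 2)) :=
      Pr_mono hp.le h1 fun ω h => Bad.re σ1 (by omega) (by omega) h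
    have a4 : exp (-(4 * (K' : ℝ))) ≤ exp (-(4 * K)) := by
      have : (K : ℝ) ≤ K' := by exact_mod_cast kK
      gcongr
    have a5 : exp (2 - (g * s : ℕ) * (2 - 1)) ≤ exp 2 / g := by
      rw [exp_sub]
      have := add_one_le_exp (((g * s : ℕ) : ℝ) * (2 - 1))
      gcongr
      push_cast at this ⊢
      nlinarith
    rw [mul_div_assoc 8 (exp 2)] at a1 ⊢
    linarith

end Pool.Agent.H30.Qd
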