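import Pool.Agent.H30.QdE

/-! Transfer to the random graph and the choice of parameters. -/

namespace Pool.Agent.H30.Qd

open Finset Real
open scoped Classical

variable {V : Type}

def gr (ω : Sym2 V → Bool) : SimpleGraph V where
  Adj := adjR ω
  symm := ⟨fun u v h => ⟨h.1.symm, by rw [Sym2.eq_swap]; exact h.2⟩⟩
  loopless := ⟨fun u h => h.1 rfl⟩

theorem Pr_gr [Fintype V] (p : ℝ) (G : SimpleGraph V) : Pr p (fun ω => gr ω = G) =
    p ^ G.edgeSet.ncard * (1 - p) ^ ((Fintype.card V).choose 2 - G.edgeSet.ncard) := by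
  have e : ∀ ω : Sym2 V → Bool, ind (gr ω = G) =
      ∏ e, ind (e.IsDiag ∨ (ω e = true ↔ e ∈ G.edgeSet)) := by
    intro ω
    rw [← ind_forall]
    congr 1
    simp only [mem_univ, true_imp_iff, eq_iff_iff, Sym2.forall, Sym2.mk_isDiag_iff,
      SimpleGraph.mem_edgeSet, SimpleGraph.ext_iff, funext_iff]
    refine forall₂_congr fun u v => ?_
    by_cases h : u = v
    · simp [h]
    · simp [gr, adjR, h]
  simp only [Pr, e]
  rw [Ex_coords fun e b => ind (e.IsDiag ∨ (b = true ↔ e ∈ G.edgeSet))]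
  let F := univ.filter (· ∈ G.edgeSet)
  let D := univ.filter fun e : Sym2 V => ¬ e.IsDiag
  have hF : F ⊆ D := fun e he => by
    simp only [F, D, mem_filter, mem_univ, true_and] at he ⊢
    exact G.not_isDiag_of_mem_edgeSet he
  have c1 : G.edgeSet.ncard = F.card := by rw [Set.ncard_eq_toFinset_card']; simp [F]
  have c2 : (Fintype.card V).choose 2 = D.card := by
    rw [← Sym2.card_subtype_not_diag, Fintype.card_subtype]
  rw [c1, c2, ← card_sdiff_of_subset hF, ← prod_const, ← prod_const, ← univ_inter F,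
    ← prod_ite_mem, univ_inter, ← univ_inter (D \ F), ← prod_ite_mem, ← prod_mul_distrib]
  refine prod_congr rfl fun e _ => ?_
  by_cases h1 : e ∈ G.edgeSet
  · simp [F, h1, ind, G.not_isDiag_of_mem_edgeSet h1]
  · by_cases h2 : e.IsDiag <;> simp [F, D, h1, h2, ind]

noncomputable def PG [Fintype V] (p : ℝ) (A : (Sym2 V → Bool) → Prop) : ℝ := Pr p A

theorem PG_bounds [Fintype V] {p : ℝ} (h0 : 0 ≤ p) (h1 : p ≤ 1) {A B : (Sym2 V → Bool) → Prop}
    (h : ∀ ω, B ω → A ω) : 1 - PG p (fun ω => ¬ B ω) ≤ PG p A ∧ PG p A ≤ 1 := by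
  refine ⟨?_, Pr_le_one h0 h1 _⟩
  rw [PG, Pr_not, sub_sub_cancel]
  exact Pr_mono h0 h1 h

theorem transfer [Fintype V] [Fintype (SimpleGraph V)] (p : ℝ) (P : SimpleGraph V → Prop)
    [DecidablePred P] : ∑ G ∈ univ.filter P,
      p ^ G.edgeSet.ncard * (1 - p) ^ ((Fintype.card V).choose 2 - G.edgeSet.ncard) =
      PG p (fun ω => P (gr ω)) := by
  simp only [← Pr_gr, PG, Pr]
  rw [← Ex_sum]
  congr 1
  funext ω
  simp only [ind]
  rw [sum_ite_eq]
  simp

theorem bound {γ : ℝ} (γ0 : 0 < γ) (γ1 : γ ≤ 1 / 2) : ∃ c₀ c₁ c₂ : ℝ, 0 < c₁ ∧ ∀ (n : ℕ) (p : ℝ),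
    0 < n → c₀ ≤ log n → exp (γ * log n) ^ 2 ≤ p * n → p ≤ 1 / 2 →
    ∃ k d : ℕ, ((k + d + 2 : ℕ) : ℝ) ≤ c₁ * log n ∧ ∃ x : Fin (k) → Fin n, 0 < k ∧
      PG p (fun ω => ¬ Good (adjR ω) Set.univ (Set.range fun c => ({x c} : Set (Fin n))) d) ≤
        c₂ / log n := by
  obtain ⟨T, hT⟩ : ∃ T : ℕ, 1 ≤ γ * T := by
    obtain ⟨T, h⟩ := exists_nat_ge (1 / γ)
    exact ⟨T, by rw [div_le_iff₀ γ0] at h; linarith⟩
  set A : ℝ := 6 * exp 8 with hA
  set θ : ℝ := γ / 20 with hθ
  set H : ℝ := 256 ^ T with hH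
  set B : ℝ := 128 * A * H * (T + 4) with hB
  have e8 : 1 ≤ exp 8 := one_le_exp (by norm_num)
  have e2 : 4 < exp 2 := by
    have := add_one_le_exp 1
    have h2 : exp 2 = exp 1 * exp 1 := by rw [← exp_add]; norm_num
    have := Real.exp_one_gt_d9
    nlinarith
  have A1 : 1 ≤ A := by linarith
  have H1 : 1 ≤ H := one_le_pow₀ (by norm_num)
  have θ0 : 0 < θ := by positivity
  have θ1 : θ ≤ 1 / 40 := by linarith
  have T0 : (0 : ℝ) ≤ T := by positivity
  have AH : 1 ≤ A * H := one_le_mul_of_one_le_of_one_le A1 H1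
  have B1 : 128 * (A * H) ≤ B := by rw [hB]; nlinarith
  refine ⟨1024 * exp 2 * A / θ ^ 2 + 6 * B / γ ^ 3, 2 * A * H + 2 * T + 10,
    8 * exp 4 * (128 * A) / θ ^ 2 + 3 * (T + 4) + 8 * exp 2 * T, by positivity, ?_⟩
  intro n p n0 hl hp p1
  set l := log n with hl'
  set u := exp (γ * l) with hu
  have N0 : (0 : ℝ) < n := by exact_mod_cast n0
  have en : exp l = n := exp_log N0
  have u0 : 0 < u := exp_pos _
  clear_value u l A θ H B
  have p0 : 0 < p := by
    by_contra h
    nlinarith [mul_nonneg (neg_nonneg.2 (not_lt.1 h)) N0.le]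
  have B0 : 0 ≤ B := by linarith
  have c1 : 0 ≤ 6 * B / γ ^ 3 := by positivity
  have c2 : 0 ≤ 1024 * exp 2 * A / θ ^ 2 := by positivity
  have l1 : 1024 * exp 2 * A ≤ l * θ ^ 2 := (div_le_iff₀ (by positivity)).1 (by linarith)
  have l2 : 6 * B ≤ l * γ ^ 3 := (div_le_iff₀ (by positivity)).1 (by linarith)
  have l0 : 0 ≤ l := by linarith
  have l3 : 2 ≤ θ * l := by
    have h1 : l * θ ^ 2 = θ * l * θ := by ring
    have h2 : θ * l * θ ≤ θ * l * 1 := mul_le_mul_of_nonneg_left (by linarith) (by positivity)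
    have h3 : 4 * 1 ≤ exp 2 * A := mul_le_mul e2.le A1 (by norm_num) (by linarith)
    linarith
  have l4 : 1 ≤ l := by linarith [mul_le_mul_of_nonneg_right θ1 l0]
  clear c1 c2 hl
  have uB : B * l ^ 2 ≤ u := by
    have := Real.pow_div_factorial_le_exp (γ * l) (by positivity) 3
    norm_num [Nat.factorial] at this
    have h2 : (γ * l) ^ 3 = l * γ ^ 3 * l ^ 2 := by ring
    linarith [mul_le_mul_of_nonneg_right l2 (sq_nonneg l)]
  have ll : l ≤ l ^ 2 := by linarith [mul_le_mul_of_nonneg_right l4 l0]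
  have uB' : 128 * (A * H) * l ^ 2 ≤ u := le_trans (by gcongr) uB
  have ul : 128 * l ^ 2 ≤ u := by linarith [mul_le_mul_of_nonneg_right AH (sq_nonneg l)]
  have u1 : 128 ≤ u := by linarith
  have u2 : 128 * u ≤ u ^ 2 := by linarith [mul_le_mul_of_nonneg_right u1 u0.le]
  have uu : u ≤ p * n := by linarith
  have un : u ≤ n := by linarith [mul_le_mul_of_nonneg_right p1 N0.le]
  set K := ⌈A * l⌉₊ with hK
  set m := ⌊θ * l⌋₊ with hm
  set R := ⌈2 * l⌉₊ with hR
  set g := ⌈u⌉₊ with hg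
  have K1 : A * l ≤ K := Nat.le_ceil _
  have Al : l ≤ A * l := le_mul_of_one_le_left l0 A1
  have K2 : (K : ℝ) ≤ 2 * (A * l) := by
    have := Nat.ceil_lt_add_one (a := A * l) (by linarith); linarith
  have m1 : (m : ℝ) ≤ θ * l := Nat.floor_le (by positivity)
  have m2 : θ * l / 2 ≤ m := by have := Nat.lt_floor_add_one (θ * l); linarith
  have m3 : 40 * (m : ℝ) ≤ l := by linarith [mul_le_mul_of_nonneg_right θ1 l0]
  have R1 : 2 * l ≤ R := Nat.le_ceil _
  have R2 : (R : ℝ) ≤ 2 * l + 1 := (Nat.ceil_lt_add_one (by linarith)).le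
  have g1 : u ≤ g := Nat.le_ceil _
  have g2 : (g : ℝ) ≤ u + 1 := (Nat.ceil_lt_add_one u0.le).le
  clear_value K m R g
  clear hK hm hR hg
  have K0 : (0 : ℝ) < K := by linarith
  have m0 : (0 : ℝ) < m := by linarith
  set L : ℝ := m * m / (16 * K) with hL
  have L1 : θ ^ 2 * l / (128 * A) ≤ L := by
    rw [hL, div_le_div_iff₀ (by positivity) (by positivity)]
    have : θ * l / 2 * (θ * l / 2) ≤ m * m := by gcongr
    calc θ ^ 2 * l * (16 * K) ≤ θ ^ 2 * l * (16 * (2 * (A * l))) := by gcongr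
      _ = θ * l / 2 * (θ * l / 2) * (128 * A) := by ring
      _ ≤ _ := by gcongr
  have L2 : 8 * exp 2 ≤ L := le_trans (by rw [le_div_iff₀ (by positivity)]; linarith) L1
  have L3 : L ≤ n := by
    rw [hL, div_le_iff₀ (by positivity)]
    have : (m : ℝ) * m ≤ n * K := mul_le_mul (by linarith) (by linarith) m0.le N0.le
    linarith [mul_pos N0 K0]
  clear_value L
  have L0 : 0 < L := by linarith
  have eL : exp (log L) = L := exp_log L0
  have en1 : exp (-l) = 1 / n := by rw [exp_neg, en, one_div]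
  have en3 : exp (-(3 * l)) = 1 / n ^ 3 := by
    rw [exp_neg, ← en, ← exp_nat_mul, one_div]; norm_num
  have n3 : (n : ℝ) ^ 2 * (1 / n ^ 3) = 1 / n := by field_simp
  have e88 : exp (-8) * exp 8 = 1 := by rw [← exp_add]; simp
  have eK : 6 * l ≤ exp (-8) * K := by
    calc 6 * l = exp (-8) * (A * l) := by rw [hA]; linear_combination (-6 * l) * e88
      _ ≤ _ := by gcongr
  have mK : 4 * m ≤ K := by exact_mod_cast (by linarith : 4 * (m : ℝ) ≤ K)
  have pLn : u ^ 2 ≤ p * L * n := by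
    linarith [mul_le_mul_of_nonneg_left (by linarith : 1 ≤ L) (mul_pos p0 N0).le]
  have P : Par (Fintype.card (Fin n)) p (log L) (3 / n) K m := by
    rw [Fintype.card_fin]
    refine ⟨N0, p0, p1, (le_log_iff_exp_le L0).2 (by linarith), eL.symm ▸ L2,
      by exact_mod_cast m0, by rw [eL, hL]; field_simp; rfl, mK, ?_, ?_, ?_⟩
    · have a1 : 1 - exp (-8) ≤ exp (-exp (-8)) := by linarith [add_one_le_exp (-exp (-8))]
      have a2 := pow_le_pow_left₀ (sub_nonneg.2 (exp_le_one_iff.2 (by norm_num))) a1 (K - 2 * m)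
      rw [← exp_nat_mul, Nat.cast_sub (by omega)] at a2
      have a3 : exp ((K - (2 * m : ℕ)) * -exp (-8)) ≤ exp (-(3 * l)) := by
        have : (2 * m : ℕ) * exp (-8) ≤ K / 2 * exp (-8) := by gcongr; push_cast; linarith
        exact exp_le_exp.2 (by linarith)
      refine (a2.trans a3).trans ?_
      rw [en3, eL, div_le_div_iff₀ (by positivity) (by positivity)]
      have n1 : (1 : ℝ) ≤ n := by linarith
      calc 1 * (p * L * n) ≤ 1 * (1 * n * n) := by gcongr; linarith
        _ ≤ 4 * (n * n * n) := by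
          linarith [mul_pos N0 N0, mul_le_mul_of_nonneg_left n1 (mul_pos N0 N0).le]
        _ = _ := by ring
    · rw [eL, ← exp_nat_mul, div_lt_div_iff₀ (by positivity) (by positivity)]
      have a1 : exp (-(γ * l)) ≤ exp ((2 * m : ℕ) * -8) := by
        refine exp_le_exp.2 ?_
        push_cast
        have : θ * l = γ * l / 20 := by rw [hθ]; ring
        linarith [mul_nonneg γ0.le l0]
      have a2 : exp (-(γ * l)) * u ^ 2 = u := by rw [exp_neg, ← hu]; field_simp
      calc 8 * (4 * (m : ℝ)) < u := by linarith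
        _ = exp (-(γ * l)) * u ^ 2 := a2.symm
        _ ≤ _ := by gcongr
    · have a1 : exp (-(4 * (K : ℝ))) ≤ 1 / n := en1 ▸ exp_le_exp.2 (by linarith)
      have a2 : exp (-(p * (n / 2))) ≤ 1 / n ^ 3 := en3 ▸ exp_le_exp.2 (by linarith)
      have a3 : exp (-(2 / 3 * exp (-8) * K)) ≤ 1 / n ^ 3 := en3 ▸ exp_le_exp.2 (by linarith)
      have a4 := mul_le_mul_of_nonneg_left a2 (sq_nonneg (n : ℝ))
      have a5 := mul_le_mul_of_nonneg_left a3 (sq_nonneg (n : ℝ))
      have : 3 / (n : ℝ) = 1 / n + 1 / n + 1 / n := by ring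
      linarith
  have k1 : ((256 ^ T * K : ℕ) : ℝ) = H * K := by rw [hH]; push_cast; ring
  have k2 : 64 * (H * K) ≤ u := by
    calc 64 * (H * K) ≤ 64 * (H * (2 * (A * l ^ 2))) := by
          gcongr; linarith [mul_le_mul_of_nonneg_left ll (by linarith : 0 ≤ A)]
      _ = 128 * (A * H) * l ^ 2 := by ring
      _ ≤ u := uB'
  have HK : 0 < H * K := by positivity
  have k3 : 256 ^ T * K ≤ n := by exact_mod_cast (by rw [k1]; linarith : ((256 ^ T * K : ℕ) : ℝ) ≤ n)
  let C : ℕ → Finset (Fin n) := fun j => if h : j < n then {⟨j, h⟩} else ∅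
  have pn1 : 1 ≤ p * n := by linarith
  have main := phase1 P (g := g) (T := T) (R := R) (by exact_mod_cast (by linarith : (1 : ℝ) ≤ g))
    (by rw [Fintype.card_fin]; linarith)
    (by
      rw [Fintype.card_fin, eL, k1, div_le_div_iff₀ (by positivity) (by positivity)]
      linarith)
    (by
      have a1 : exp l ≤ exp (R * log 2) := exp_le_exp.2 (by
        linarith [mul_le_mul R1 Real.log_two_gt_d9.le (by norm_num) (Nat.cast_nonneg R)])
      rw [exp_nat_mul, exp_log (x := 2) (by norm_num), en] at a1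
      linarith [mul_le_mul_of_nonneg_left a1 p0.le])
    T 1 univ C le_rfl le_rfl
    (by
      have a1 : exp l ≤ exp (T * (γ * l)) :=
        exp_le_exp.2 (by linarith [mul_le_mul_of_nonneg_right hT l0])
      rw [exp_nat_mul, en, ← hu] at a1
      have a2 : u ^ T ≤ (g : ℝ) ^ T := by gcongr
      rw [Fintype.card_fin, eL, Nat.cast_one, one_mul]
      refine lt_of_lt_of_le ?_ (a1.trans a2)
      rw [div_lt_iff₀ (by positivity)]
      have : n * (p ^ 2 * L * n) = (p * n) ^ 2 * L := by ring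
      linarith [mul_le_mul_of_nonneg_right (one_le_pow₀ pn1 (n := 2)) L0.le])
    ⟨fun j hj => by
      simp only [C, dif_pos (hj.trans_le k3), subset_univ, card_singleton, le_refl, true_and]
      rw [le_div_iff₀ p0]; push_cast; linarith,
     fun i hi j hj hij => by
      simp only [C, dif_pos (hj.trans_le k3), dif_pos (hi.trans_le k3)]
      simpa using hij⟩
    (by
      rw [card_univ, Fintype.card_fin, k1]
      have a1 : (R + 1) * (K * (4 / p)) + T * (H * K * (4 / p)) =
        ((R + 1) * K + T * (H * K)) * 4 / p := by ring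
      have a2 : ((R + 1) * K + T * (H * K)) * 4 / p ≤ n / 2 := by
        rw [div_le_iff₀ p0]
        have b1 : (K : ℝ) ≤ H * K := le_mul_of_one_le_left K0.le H1
        have b2 : ((R : ℝ) + 1) * K ≤ 4 * l * (H * K) := by gcongr; linarith
        have b3 : (T : ℝ) * (H * K) ≤ T * l * (H * K) := by
          gcongr; exact le_mul_of_one_le_right T0 l4
        have b4 : (T + 4) * l * (H * K) ≤ (T + 4) * l * (H * (2 * (A * l))) := by gcongr
        have b5 : B * l ^ 2 = 64 * ((T + 4) * l * (H * (2 * (A * l)))) := by rw [hB]; ring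
        have b6 : 0 ≤ (T + 4) * l * (H * K) := by positivity
        linarith
      linarith)
  refine ⟨256 ^ T * K, 2 * T + (2 * R + 2), ?_, Fin.castLE k3, ?_, ?_⟩
  · rw [Nat.cast_add, Nat.cast_add, k1]
    push_cast
    have b1 : H * K ≤ H * (2 * (A * l)) := by gcongr
    have b2 : (T : ℝ) ≤ T * l := le_mul_of_one_le_right T0 l4
    linarith
  · exact_mod_cast (k1 ▸ HK : (0 : ℝ) < (256 ^ T * K : ℕ))
  · have : cls C (256 ^ T * K) = Set.range fun c => ({Fin.castLE k3 c} : Set (Fin n)) := by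
      ext S
      constructor
      · rintro ⟨j, hj, rfl⟩
        exact ⟨⟨j, hj⟩, by simp [C, dif_pos (hj.trans_le k3), Fin.castLE]⟩
      · rintro ⟨j, rfl⟩
        exact ⟨j, j.2, by simp [C, dif_pos (j.2.trans_le k3), Fin.castLE]⟩
    unfold Bad at main
    rw [this, coe_univ, eL] at main
    refine le_trans main ?_
    have lp : 0 < l := by linarith
    have a1 : 8 * exp 4 / L ≤ 8 * exp 4 * (128 * A) / θ ^ 2 / l := by
      refine (div_le_div_of_nonneg_left (by positivity) (by positivity) L1).trans_eq ?_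
      field_simp
    have a2 : (R + 1) * (3 / (n : ℝ)) + T * (3 / n) ≤ 3 * (T + 4) / l := by
      rw [← add_mul, ← mul_div_assoc, div_le_div_iff₀ N0 lp]
      have b2 : (T : ℝ) ≤ T * l := le_mul_of_one_le_right T0 l4
      calc (R + 1 + T) * 3 * l ≤ ((T + 4) * l) * 3 * l := by gcongr; linarith
        _ = 3 * (T + 4) * l ^ 2 := by ring
        _ ≤ _ := by gcongr; linarith [sq_nonneg l]
    have a3 : T * (8 * exp 2 / g) ≤ 8 * exp 2 * T / l := by
      rw [← mul_div_assoc, mul_comm]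
      exact div_le_div_of_nonneg_left (by positivity) lp (by linarith)
    rw [add_div, add_div]
    linarith

end Pool.Agent.H30.Qd
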