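import Mathlib

set_option autoImplicit false

namespace Pool.Agent.H30.Rc

theorem exists_irr (F : Subfield ℝ) (h : ∃ x ∈ F, Irrational x) :
    ∃ s ∈ F, Irrational s ∧ 1 < s ∧ s < 4 / 3 := by
  obtain ⟨x, hx, hi⟩ := h
  obtain ⟨q, h1, h2⟩ := exists_rat_btwn (show 1 - x < 4 / 3 - x by norm_num)
  exact ⟨x + q, F.add_mem hx (SubfieldClass.ratCast_mem F q), hi.add_ratCast q, by linarith,
    by linarith⟩

theorem irr_zero {s : ℝ} (hs : Irrational s) (a b : ℤ) (h : (a : ℝ) + s * b = 0) : a = 0 ∧ b = 0 := by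
  by_cases hb : b = 0
  · subst hb
    simp at h
    exact ⟨h, rfl⟩
  · exfalso
    have : s = ((-a / b : ℚ) : ℝ) := by
      have hb' : (b : ℝ) ≠ 0 := by exact_mod_cast hb
      push_cast
      field_simp
      linarith
    exact hs ⟨_, this.symm⟩

theorem core {s : ℝ} (h1 : 1 < s) (h2 : s < 4 / 3) (x y z : ℤ) (t : ℝ) (a1 : 0 ≤ t)
    (a2 : t ≤ s * z) (a3 : 3 * t ≤ 7 * x + 3 * s * y) (a4 : 3 * t ≤ 3 * x + 7 * s * y)
    (a5 : x + s * y + s * z - t ≤ s) :
    ((x = 0 ∧ y = 0) ∨ (x = 1 ∧ y = 0) ∨ (x = 0 ∧ y = 1)) ∧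
      ((z = 0 ∧ t = 0) ∨ (z = 1 ∧ t = x + s * y)) := by
  have z0 : 0 ≤ z := by
    have : (0 : ℝ) ≤ z := by by_contra hh; nlinarith
    exact_mod_cast this
  have z1 : z ≤ 1 := by
    have : (z : ℝ) < 2 := by by_contra hh; nlinarith
    have : z < 2 := by exact_mod_cast this
    omega
  rcases (by omega : z = 0 ∨ z = 1) with rfl | rfl
  · have ht : t = 0 := by simp at a2; linarith
    subst ht
    refine ⟨?_, Or.inl ⟨rfl, rfl⟩⟩
    simp only [Int.cast_zero, mul_zero, add_zero, sub_zero] at a3 a4 a5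
    have y0 : -1 < y := by
      have : (-1 : ℝ) < y := by by_contra hh; nlinarith
      exact_mod_cast this
    have y1 : y < 2 := by
      have : (y : ℝ) < 2 := by by_contra hh; nlinarith
      exact_mod_cast this
    rcases (by omega : y = 0 ∨ y = 1) with rfl | rfl
    · simp only [Int.cast_zero, mul_zero, add_zero] at a3 a5
      have b1 : 0 ≤ x := by
        have : (0 : ℝ) ≤ x := by linarith
        exact_mod_cast this
      have b2 : x < 2 := by
        have : (x : ℝ) < 2 := by linarith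
        exact_mod_cast this
      omega
    · simp only [Int.cast_one, mul_one] at a3 a5
      have b1 : -1 < x := by
        have : (-1 : ℝ) < x := by linarith
        exact_mod_cast this
      have b2 : x ≤ 0 := by
        have : (x : ℝ) ≤ 0 := by linarith
        exact_mod_cast this
      omega
  · simp only [Int.cast_one, mul_one] at a2 a5
    have x0 : 0 ≤ x := by
      have : (0 : ℝ) ≤ x := by linarith
      exact_mod_cast this
    have y0 : 0 ≤ y := by
      have : (0 : ℝ) ≤ y := by by_contra hh; nlinarith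
      exact_mod_cast this
    have x0' : (0 : ℝ) ≤ x := by exact_mod_cast x0
    have y0' : (0 : ℝ) ≤ y := by exact_mod_cast y0
    have y1 : y ≤ 1 := by
      have : (y : ℝ) ≤ 1 := by by_contra hh; nlinarith
      exact_mod_cast this
    rcases (by omega : y = 0 ∨ y = 1) with rfl | rfl
    · simp only [Int.cast_zero, mul_zero, add_zero] at a3 a4 a5 ⊢
      have b2 : x < 2 := by
        have : (x : ℝ) < 2 := by linarith
        exact_mod_cast this
      exact ⟨by simp; omega, Or.inr ⟨trivial, by linarith⟩⟩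
    · simp only [Int.cast_one, mul_one] at a3 a4 a5 ⊢
      have b2 : x ≤ 0 := by
        have : (x : ℝ) ≤ 0 := by linarith
        exact_mod_cast this
      have : x = 0 := by omega
      subst this
      simp only [Int.cast_zero] at a5 ⊢
      exact ⟨by simp, Or.inr ⟨trivial, by linarith⟩⟩

theorem main (F : Subfield ℝ) (h : ∃ x ∈ F, Irrational x) :
    ∃ (A : Fin 5 → Fin 5 → ℝ) (b : Fin 5 → ℝ), (∀ i j, A i j ∈ F) ∧ (∀ i, b i ∈ F) ∧
      ∀ y : Fin 5 → ℤ, (∀ i, ∑ j, A i j * (y j : ℝ) ≤ b i) ↔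
        (y = 0 ∨ ∃ k, y = Pi.single k 1) := by
  obtain ⟨s, hF, hi, h1, h2⟩ := exists_irr F h
  have n : ∀ k : ℤ, (k : ℝ) ∈ F := fun k => intCast_mem F k
  have n2 : ∀ k l : ℤ, (k : ℝ) + l * s ∈ F := fun k l => F.add_mem (n k) (F.mul_mem (n l) hF)
  let P : Fin 5 → Fin 5 → ℤ := ![![0, 0, 0, -1, 0], ![0, 0, 0, 1, 0], ![-7, 0, 0, -4, 0],
    ![-3, 0, 0, 0, 0], ![1, 0, 0, 0, 0]]
  let Q : Fin 5 → Fin 5 → ℤ := ![![0, 0, 0, 0, -1], ![0, 0, -1, -1, 0], ![0, -3, 0, 0, 0],
    ![0, -7, 0, 0, -4], ![0, 1, 1, 1, 1]]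
  let R : Fin 5 → ℤ := ![0, 0, 0, 0, 1]
  refine ⟨fun i j => P i j + Q i j * s, fun i => (0 : ℤ) + R i * s, fun i j => n2 _ _,
    fun i => n2 _ _, fun y => ?_⟩
  constructor
  · intro hy
    have a1 := hy 0
    have a2 := hy 1
    have a3 := hy 2
    have a4 := hy 3
    have a5 := hy 4
    simp [P, Q, R, Fin.sum_univ_five] at a1 a2 a3 a4 a5
    have := core h1 h2 (y 0 + y 3) (y 1 + y 4) (y 2 + y 3 + y 4) (y 3 + s * y 4)
      (by linarith) (by push_cast; linarith) (by push_cast; linarith) (by push_cast; linarith)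
      (by push_cast; linarith)
    obtain ⟨c1, ⟨c2, c3⟩ | ⟨c2, c3⟩⟩ := this
    · obtain ⟨d1, d2⟩ := irr_zero hi _ _ c3
      rcases c1 with c1 | c1 | c1
      · left; ext i; fin_cases i <;> simp <;> omega
      · right; refine ⟨0, ?_⟩; ext i; fin_cases i <;> simp <;> omega
      · right; refine ⟨1, ?_⟩; ext i; fin_cases i <;> simp <;> omega
    · obtain ⟨d1, d2⟩ := irr_zero hi (y 0) (y 1) (by push_cast at c3; linarith)
      right
      rcases c1 with c1 | c1 | c1
      · refine ⟨2, ?_⟩; ext i; fin_cases i <;> simp <;> omega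
      · refine ⟨3, ?_⟩; ext i; fin_cases i <;> simp <;> omega
      · refine ⟨4, ?_⟩; ext i; fin_cases i <;> simp <;> omega
  · rintro (rfl | ⟨k, rfl⟩) i
    · fin_cases i <;> simp [R] <;> linarith
    · fin_cases k <;> fin_cases i <;> simp [P, Q, R, Fin.sum_univ_five] <;> linarith

theorem quad_irr (F : Subfield ℝ) (h : Module.finrank ℚ F = 2) : ∃ x ∈ F, Irrational x := by
  by_contra hc
  push Not at hc
  have hs : Function.Surjective (algebraMap ℚ F) := by
    intro x
    have := hc x.1 x.2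
    simp only [Irrational, not_not] at this
    obtain ⟨q, hq⟩ := this
    exact ⟨q, Subtype.ext (by simpa using hq)⟩
  have := LinearMap.finrank_range_le (Algebra.linearMap ℚ F)
  rw [LinearMap.range_eq_top.2 hs, finrank_top, h] at this
  simp at this

end Pool.Agent.H30.Rc
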