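import Pool.Agent.H30.RkDefs

set_option autoImplicit false

namespace Pool.Agent.H30.Rk
open MvPolynomial Pool.Agent.H30.RkDefs

instance : Fact (Nat.Prime 3) := ⟨by norm_num⟩

theorem two (l : List (MvPolynomial (Fin 3) (ZMod 3))) (h : ∀ q ∈ l, q.totalDegree ≤ 1)
    (h2 : l.prod.totalDegree ≤ 2) :
    ∃ f g : MvPolynomial (Fin 3) (ZMod 3), f.totalDegree ≤ 1 ∧ g.totalDegree ≤ 1 ∧ l.prod = f * g := by
  induction l with
  | nil => exact ⟨1, 1, by simp, by simp, by simp⟩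
  | cons a l ih =>
    rw [List.prod_cons] at h2 ⊢
    by_cases h0 : a = 0 ∨ l.prod = 0
    · exact ⟨0, 0, by simp, by simp, by simpa using h0⟩
    push Not at h0
    rw [totalDegree_mul_of_isDomain h0.1 h0.2] at h2
    have ha := h a (by simp)
    by_cases h1 : a.totalDegree = 1
    · exact ⟨a, l.prod, ha, by omega, rfl⟩
    · obtain ⟨f, g, f1, g1, e⟩ := ih (fun q hq => h q (by simp [hq])) (by omega)
      exact ⟨a * f, g, (totalDegree_mul a f).trans (by omega), g1, by rw [e, mul_assoc]⟩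

theorem aff (f : MvPolynomial (Fin 3) (ZMod 3)) (h : f.totalDegree ≤ 1) :
    ∃ a b c d : ZMod 3, ∀ x : Fin 3 → ZMod 3, eval x f = a + b * x 0 + c * x 1 + d * x 2 := by
  rw [f.as_sum]
  apply Finset.sum_induction _ (fun f : MvPolynomial (Fin 3) (ZMod 3) =>
    ∃ a b c d : ZMod 3, ∀ x : Fin 3 → ZMod 3, eval x f = a + b * x 0 + c * x 1 + d * x 2)
  · rintro f g ⟨a, b, c, d, h1⟩ ⟨a', b', c', d', h2⟩
    exact ⟨a + a', b + b', c + c', d + d', fun x => by rw [map_add, h1, h2]; ring⟩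
  · exact ⟨0, 0, 0, 0, by simp⟩
  · intro m hm
    have h1 := (le_totalDegree hm).trans h
    rw [Finsupp.sum_fintype _ _ (by simp), Fin.sum_univ_three] at h1
    have e : ∀ x : Fin 3 → ZMod 3, eval x (monomial m (coeff m f)) =
        coeff m f * (x 0 ^ m 0 * x 1 ^ m 1 * x 2 ^ m 2) := by
      intro x
      rw [eval_monomial, Finsupp.prod_fintype _ _ (by simp), Fin.prod_univ_three]
    rcases (by omega : (m 0 = 0 ∧ m 1 = 0 ∧ m 2 = 0) ∨ (m 0 = 1 ∧ m 1 = 0 ∧ m 2 = 0) ∨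
      (m 0 = 0 ∧ m 1 = 1 ∧ m 2 = 0) ∨ (m 0 = 0 ∧ m 1 = 0 ∧ m 2 = 1)) with h | h | h | h
    · exact ⟨coeff m f, 0, 0, 0, fun x => by rw [e, h.1, h.2.1, h.2.2]; ring⟩
    · exact ⟨0, coeff m f, 0, 0, fun x => by rw [e, h.1, h.2.1, h.2.2]; ring⟩
    · exact ⟨0, 0, coeff m f, 0, fun x => by rw [e, h.1, h.2.1, h.2.2]; ring⟩
    · exact ⟨0, 0, 0, coeff m f, fun x => by rw [e, h.1, h.2.1, h.2.2]; ring⟩

noncomputable def P : MvPolynomial (Fin 3) (ZMod 3) := X 0 * X 2 + (1 - X 2) * X 1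

theorem fin : ∀ k a b c d a' b' c' d' : ZMod 3,
    ¬ (0 - k = a * a' ∧ 0 - k = (a + b) * (a' + b') ∧ 1 - k = (a + c) * (a' + c') ∧
      0 - k = (a + d) * (a' + d') ∧ 1 - k = (a + b + c) * (a' + b' + c') ∧
      1 - k = (a + b + d) * (a' + b' + d') ∧ 0 - k = (a + c + d) * (a' + c' + d') ∧
      1 - k = (a + b + c + d) * (a' + b' + c' + d')) := by
  decide +kernel

theorem deg_le (c : ZMod 3) : (P - C c).totalDegree ≤ 2 := by
  refine (totalDegree_sub _ _).trans (max_le ?_ (by simp))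
  refine (totalDegree_add _ _).trans (max_le ?_ ?_)
  · exact (totalDegree_mul _ _).trans (by simp)
  · refine (totalDegree_mul _ _).trans ?_
    have := totalDegree_sub (1 : MvPolynomial (Fin 3) (ZMod 3)) (X 2)
    simp at this ⊢
    omega

theorem noprod (c : ZMod 3) (f g : MvPolynomial (Fin 3) (ZMod 3)) (hf : f.totalDegree ≤ 1)
    (hg : g.totalDegree ≤ 1)
    (h : ∀ x : Fin 3 → ZMod 3, (∀ i, x i ∈ ({0, 1} : Set (ZMod 3))) →
      eval x P - c = eval x f * eval x g) : False := by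
  obtain ⟨a, b, e, d, h1⟩ := aff f hf
  obtain ⟨a', b', e', d', h2⟩ := aff g hg
  have k : ∀ u v w : ZMod 3, u ∈ ({0, 1} : Set (ZMod 3)) → v ∈ ({0, 1} : Set (ZMod 3)) →
      w ∈ ({0, 1} : Set (ZMod 3)) → u * w + (1 - w) * v - c =
        (a + b * u + e * v + d * w) * (a' + b' * u + e' * v + d' * w) := by
    intro u v w hu hv hw
    have := h ![u, v, w] (by intro i; fin_cases i <;> assumption)
    rw [h1, h2] at this
    simpa [P] using this
  have z : (0 : ZMod 3) ∈ ({0, 1} : Set (ZMod 3)) := by simp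
  have o : (1 : ZMod 3) ∈ ({0, 1} : Set (ZMod 3)) := by simp
  apply fin c a b e d a' b' e' d'
  refine ⟨?_, ?_, ?_, ?_, ?_, ?_, ?_, ?_⟩
  · linear_combination k 0 0 0 z z z
  · linear_combination k 1 0 0 o z z
  · linear_combination k 0 1 0 z o z
  · linear_combination k 0 0 1 z z o
  · linear_combination k 1 1 0 o o z
  · linear_combination k 1 0 1 o z o
  · linear_combination k 0 1 1 z o o
  · linear_combination k 1 1 1 o o o

theorem deg_eq : P.totalDegree = 2 := by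
  have h := deg_le 0
  simp only [map_zero, sub_zero] at h
  by_contra hc
  exact noprod 0 P 1 (by omega) (by simp) (by simp)

theorem main (c : ZMod 3) (P0 : MvPolynomial (Fin 3) (ZMod 3))
    (h1 : P0.totalDegree ≤ (P - C c).totalDegree)
    (h2 : ∀ x : Fin 3 → ZMod 3, (∀ i, x i ∈ ({0, 1} : Set (ZMod 3))) → eval x P0 = 0) :
    ¬ RankLe 1 1 (P - C c - P0) := by
  rintro ⟨l, l1, l2, l3⟩
  have hd : (P - C c - P0).totalDegree ≤ 2 :=
    (totalDegree_sub _ _).trans (max_le (deg_le c) (h1.trans (deg_le c)))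
  have key : ∀ f g : MvPolynomial (Fin 3) (ZMod 3), f.totalDegree ≤ 1 → g.totalDegree ≤ 1 →
      P - C c - P0 ≠ f * g := by
    intro f g hf hg e
    apply noprod c f g hf hg
    intro x hx
    have := congrArg (eval x) e
    simpa [h2 x hx] using this
  match l, l1, l2, l3 with
  | [], _, l2, _ => exact key 0 0 (by simp) (by simp) (by simpa using l2.symm)
  | [q], _, l2, l3 =>
    obtain ⟨⟨m, m1, m2⟩, h3⟩ := l3 q (by simp)
    obtain ⟨f, g, f1, g1, e⟩ := two m m1 (by rw [m2]; omega)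
    exact key f g f1 g1 (by rw [← l2, ← e, m2]; simp)
  | _ :: _ :: _, l1, _, _ => simp at l1

end Pool.Agent.H30.Rk
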