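import Mathlib

set_option autoImplicit false

namespace Pool.Agent.H30.RkDefs
open MvPolynomial

/-- `Q` is a product of polynomials each of degree at most `d`. -/
def RankLeOne {n p : ℕ} (d : ℕ) (Q : MvPolynomial (Fin n) (ZMod p)) : Prop :=
  ∃ l : List (MvPolynomial (Fin n) (ZMod p)), (∀ q ∈ l, q.totalDegree ≤ d) ∧ l.prod = Q

/-- The degree-`d` rank of `P` is at most `k`. -/
def RankLe {n p : ℕ} (d k : ℕ) (P : MvPolynomial (Fin n) (ZMod p)) : Prop :=
  ∃ l : List (MvPolynomial (Fin n) (ZMod p)), l.length ≤ k ∧ l.sum = P ∧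
    ∀ q ∈ l, RankLeOne d q ∧ q.totalDegree ≤ P.totalDegree

end Pool.Agent.H30.RkDefs
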