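import Pool.Agent.H30.UcI1

/-!
Tracks cut into segments: the interval graph of a schedule of optional transpositions.
-/

namespace Pool.Agent.H30.Uc.It

open Finset Equiv

def Ct (K M E : ℕ) (S : List (ℕ × ℕ)) (t a : ℕ) : Prop :=
  (a < K ∧ ((t = 0 ∧ a ≠ 0) ∨ t = 1 + a ∨ t = 1 + K + a ∨ t = 1 + 2 * K + a ∨ t = 1 + 3 * K + a ∨
    t = 1 + 4 * K + a ∨ (1 + 5 * K ≤ t ∧ t < 1 + 5 * K + S.length ∧
      (a = (S.getD (t - (1 + 5 * K)) (0, 0)).1 ∨ a = (S.getD (t - (1 + 5 * K)) (0, 0)).2)) ∨
    (E ≤ a ∧ a < E + M ∧ t + E = 1 + 5 * K + S.length + a) ∨ (a = 0 ∧ t = 1 + 5 * K + S.length + M) ∨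
    (a ≠ 0 ∧ t = 2 + 5 * K + S.length + M))) ∨ (a = K ∧ t = 1 + 5 * K + S.length) ∨ a = K + 1

def Al (K M E : ℕ) (S : List (ℕ × ℕ)) (x : ℕ × ℕ) (t : ℕ) : Prop :=
  x.2 ≤ t ∧ ∀ u < t, x.2 ≤ u → ¬ Ct K M E S u x.1

def Vx (K M E : ℕ) (S : List (ℕ × ℕ)) (x : ℕ × ℕ) : Prop :=
  (x.1 < K ∧ x.2 < 3 + 5 * K + S.length + M ∧
    ((x.1 = 0 ∧ x.2 = 0) ∨ (1 ≤ x.2 ∧ Ct K M E S (x.2 - 1) x.1))) ∨ (x.1 = K ∧ x.2 = M + 2) ∨
    (x.1 = K + 1 ∧ (x.2 = 0 ∨ x.2 = 3 + 5 * K + S.length + M))

def Ad (K M E : ℕ) (S : List (ℕ × ℕ)) (x y : ℕ × ℕ) : Prop :=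
  x ≠ y ∧ ∃ t ≤ 3 + 5 * K + S.length + M, Al K M E S x t ∧ Al K M E S y t

theorem R_seq {S p q} (h : R S p q) : ∃ P : ℕ → Perm ℕ, P 0 = p ∧ (∀ τ, S.length ≤ τ → P τ = q) ∧
    ∀ τ, P (τ + 1) = P τ ∨ (τ < S.length ∧
      P (τ + 1) = swap (S.getD τ (0, 0)).1 (S.getD τ (0, 0)).2 * P τ) := by
  induction S generalizing p with
  | nil => exact ⟨fun _ => p, rfl, fun _ _ => Eq.symm h, fun _ => Or.inl rfl⟩
  | cons e S ih =>
    have : ∃ p', R S p' q ∧ (p' = p ∨ p' = swap e.1 e.2 * p) := by
      rcases h with h | h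
      · exact ⟨_, h, Or.inl rfl⟩
      · exact ⟨_, h, Or.inr rfl⟩
    obtain ⟨p', a, b⟩ := this
    obtain ⟨P, c, d, f⟩ := ih a
    refine ⟨fun τ => Nat.casesOn τ p P, rfl, fun τ hτ => ?_, fun τ => ?_⟩
    · cases τ with
      | zero => simp at hτ
      | succ τ => exact d τ (by simpa using hτ)
    · cases τ with
      | zero => simpa [c] using b
      | succ τ => simpa using f τ

theorem surj {K : ℕ} {f : ℕ → ℕ} (h1 : ∀ x < K, f x < K)
    (h2 : ∀ x < K, ∀ y < K, f x = f y → x = y) : ∀ y < K, ∃ x < K, f x = y := by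
  have : (range K).image f = range K := eq_of_subset_of_card_le
    (fun y hy => by obtain ⟨x, a, rfl⟩ := mem_image.1 hy; exact mem_range.2 (h1 x (mem_range.1 a)))
    (by rw [card_image_of_injOn fun x a y b => h2 x (by simpa using a) y (by simpa using b)])
  intro y hy
  have := this ▸ mem_range.2 hy
  simpa using this

theorem two {K a b : ℕ} {f g : ℕ → ℕ} (f1 : ∀ x < K, f x < K)
    (f2 : ∀ x < K, ∀ y < K, f x = f y → x = y) (g1 : ∀ x < K, g x < K)
    (g2 : ∀ x < K, ∀ y < K, g x = g y → x = y) (ha : a < K) (hb : b < K)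
    (h : ∀ x < K, x ≠ a → x ≠ b → g x = f x) :
    (∀ x < K, g x = f x) ∨ ∀ x < K, g (swap a b x) = f x := by
  have k : ∀ z < K, (z = a ∨ z = b) → g z = f a ∨ g z = f b := fun z hz e => by
    obtain ⟨x, x1, x2⟩ := surj f1 f2 _ (g1 z hz)
    by_cases x3 : x = a
    · exact Or.inl (x3 ▸ x2.symm)
    by_cases x4 : x = b
    · exact Or.inr (x4 ▸ x2.symm)
    have := g2 x x1 z hz ((h x x1 x3 x4).trans x2)
    omega
  have k1 := k a ha (Or.inl rfl)
  have k2 := k b hb (Or.inr rfl)
  have k3 := g2 a ha b hb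
  by_cases e : g a = f a ∧ g b = f b
  · refine Or.inl fun x hx => ?_
    by_cases x3 : x = a
    · exact x3 ▸ e.1
    by_cases x4 : x = b
    · exact x4 ▸ e.2
    exact h x hx x3 x4
  · have ab : a ≠ b := by rintro rfl; omega
    refine Or.inr fun x hx => ?_
    rw [swap_apply_def]
    split_ifs with x3 x4
    · subst x3; omega
    · subst x4; omega
    · exact h x hx x3 x4

theorem R_of {K : ℕ} (S : List (ℕ × ℕ)) (hS : ∀ e ∈ S, e.1 < K ∧ e.2 < K) (f : ℕ → ℕ → ℕ)
    (f1 : ∀ τ ≤ S.length, ∀ x < K, f τ x < K)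
    (f2 : ∀ τ ≤ S.length, ∀ x < K, ∀ y < K, f τ x = f τ y → x = y)
    (h : ∀ τ < S.length, ∀ x < K, x ≠ (S.getD τ (0, 0)).1 → x ≠ (S.getD τ (0, 0)).2 →
      f (τ + 1) x = f τ x) (p : Perm ℕ) :
    ∃ q, R S p q ∧ ∀ x, p x < K → q x < K ∧ f S.length (q x) = f 0 (p x) := by
  induction S generalizing f p with
  | nil => exact ⟨p, rfl, fun x hx => ⟨hx, rfl⟩⟩
  | cons e S ih =>
    have he := hS e List.mem_cons_self
    have ih := ih (fun e' h' => hS e' (List.mem_cons_of_mem _ h')) (fun τ => f (τ + 1))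
      (fun τ hτ => f1 _ (by simpa using hτ)) (fun τ hτ => f2 _ (by simpa using hτ))
      (fun τ hτ => by simpa using h (τ + 1) (by simpa using hτ))
    rcases two (f1 0 (by simp)) (f2 0 (by simp)) (f1 1 (by simp)) (f2 1 (by simp)) he.1 he.2
      (by simpa using h 0 (by simp)) with k | k
    · obtain ⟨q, a, b⟩ := ih p
      exact ⟨q, Or.inl a, fun x hx => ⟨(b x hx).1, (b x hx).2.trans (k _ hx)⟩⟩
    · obtain ⟨q, a, b⟩ := ih (swap e.1 e.2 * p)
      refine ⟨q, Or.inr a, fun x hx => ?_⟩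
      have : (swap e.1 e.2 * p) x < K := by
        rw [Perm.mul_apply, swap_apply_def]; split_ifs <;> omega
      exact ⟨(b x this).1, (b x this).2.trans (k _ hx)⟩

section
variable {K M E : ℕ} {S : List (ℕ × ℕ)}

theorem Ad.symm {x y} (h : Ad K M E S x y) : Ad K M E S y x :=
  ⟨h.1.symm, let ⟨t, a, b, c⟩ := h.2; ⟨t, a, c, b⟩⟩

theorem al_self (x) : Al K M E S x x.2 := ⟨le_rfl, fun u a b => by omega⟩

theorem uq {a s s' t} (ha : a < K) (h1 : Vx K M E S (a, s)) (h2 : Vx K M E S (a, s'))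
    (h3 : Al K M E S (a, s) t) (h4 : Al K M E S (a, s') t) : s = s' := by
  have k : ∀ {s s'}, Vx K M E S (a, s') → Al K M E S (a, s) t → Al K M E S (a, s') t → s' ≤ s := by
    intro s s' h2 h3 h4
    by_contra x
    rcases h2 with ⟨-, -, h | ⟨-, h⟩⟩ | h | h
    · dsimp only at h; omega
    · exact h3.2 (s' - 1) (by have := h4.1; dsimp only at this; omega) (by dsimp only; omega) h
    · dsimp only at h; omega
    · dsimp only at h; omega
  exact le_antisymm (k h1 h4 h3) (k h2 h3 h4)

theorem seg {a} (ha : a < K) (t : ℕ) (h1 : 1 ≤ t) (h2 : t < 3 + 5 * K + S.length + M) :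
    ∃ s, Vx K M E S (a, s) ∧ Al K M E S (a, s) t := by
  induction t with
  | zero => omega
  | succ t ih =>
    by_cases x : Ct K M E S t a
    · exact ⟨t + 1, Or.inl ⟨ha, h2, Or.inr ⟨h1, x⟩⟩, al_self _⟩
    · have : ∃ s, Vx K M E S (a, s) ∧ Al K M E S (a, s) t := by
        by_cases y : t = 0
        · subst y
          have : a = 0 := by
            by_contra z
            exact x (Or.inl ⟨ha, Or.inl ⟨rfl, z⟩⟩)
          exact ⟨0, Or.inl ⟨ha, by dsimp only; omega, Or.inl ⟨this, rfl⟩⟩, al_self _⟩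
        · exact ih (by omega) (by omega)
      obtain ⟨s, b, c, d⟩ := this
      refine ⟨s, b, by dsimp only at c ⊢; omega, fun u e f => ?_⟩
      by_cases z : u = t
      · exact z ▸ x
      · exact d u (by omega) f

theorem g_fwd (hM : 1 ≤ M) (hE : M < E) (hK : E + M ≤ K) (hS : ∀ e ∈ S, e.1 < K ∧ e.2 < K) {σ}
    (h : R S 1 σ) (h0 : σ 0 = 0) (h1 : ∀ j < M, σ (1 + j) = E + j) :
    UW (Vx K M E S) (Ad K M E S) (K + 2 * M) := by
  obtain ⟨P, p0, p1, p2⟩ := R_seq h
  have pk : ∀ τ x, K ≤ x → P τ x = x := fun τ x hx => by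
    induction τ with
    | zero => rw [p0]; rfl
    | succ τ ih =>
      rcases p2 τ with a | ⟨a, b⟩
      · rw [a, ih]
      · have := hS (S.getD τ (0, 0)) (by rw [List.getD_eq_getElem _ _ a]; exact List.getElem_mem _)
        rw [b, Perm.mul_apply, ih, swap_apply_of_ne_of_ne (by omega) (by omega)]
  obtain ⟨col, c1, c2, c3, c4, c5⟩ : ∃ col : ℕ → ℕ → ℕ, (∀ t, ∀ a < K, col t a < K) ∧
      (∀ t a b, col t a = col t b → a = b) ∧
      (∀ t, ∀ a < K, ¬ Ct K M E S t a → col (t + 1) a = col t a) ∧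
      (∀ t ≤ 1, col t 0 = M ∧ ∀ a, 1 ≤ a → a ≤ M → col t a < M) ∧
      (∀ t, 1 + 5 * K + S.length ≤ t → col t 0 = M ∧ ∀ a, E ≤ a → a < E + M → col t a < M) := by
    refine ⟨fun t a => if (P (t - (1 + 5 * K))).symm a = 0 then M else
      if (P (t - (1 + 5 * K))).symm a ≤ M then (P (t - (1 + 5 * K))).symm a - 1 else
        (P (t - (1 + 5 * K))).symm a, fun t a ha => ?_, fun t a b e => ?_, fun t a ha x => ?_,
        fun t ht => ?_, fun t ht => ?_⟩
    · have : (P (t - (1 + 5 * K))).symm a < K := by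
        by_contra x
        have := pk (t - (1 + 5 * K)) _ (not_lt.1 x)
        rw [apply_symm_apply] at this; omega
      dsimp only; split_ifs <;> omega
    · refine (P (t - (1 + 5 * K))).symm.injective ?_
      dsimp only at e; split_ifs at e <;> omega
    · have : (P (t + 1 - (1 + 5 * K))).symm a = (P (t - (1 + 5 * K))).symm a := by
        by_cases y : t < 1 + 5 * K
        · rw [show t + 1 - (1 + 5 * K) = t - (1 + 5 * K) by omega]
        rw [show t + 1 - (1 + 5 * K) = t - (1 + 5 * K) + 1 by omega]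
        rcases p2 (t - (1 + 5 * K)) with z | ⟨z, w⟩
        · rw [z]
        · rw [w, symm_apply_eq, Perm.mul_apply, apply_symm_apply, swap_apply_of_ne_of_ne]
          · intro e; exact x (by unfold Ct; omega)
          · intro e; exact x (by unfold Ct; omega)
      simp only [this]
    · dsimp only
      rw [show t - (1 + 5 * K) = 0 by omega, p0]
      refine ⟨if_pos rfl, fun a x y => ?_⟩
      have : (1 : Perm ℕ).symm a = a := rfl
      simp only [this]; split_ifs <;> omega
    · dsimp only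
      rw [p1 (t - (1 + 5 * K)) (by omega)]
      refine ⟨if_pos (by rw [symm_apply_eq, h0]), fun a x y => ?_⟩
      have : σ.symm a = 1 + (a - E) := by
        rw [symm_apply_eq, h1 _ (by omega)]; omega
      simp only [this]; split_ifs <;> omega
  have ca : ∀ a < K, ∀ s t, Al K M E S (a, s) t → col t a = col s a := fun a ha s t x => by
    induction t with
    | zero => have := x.1; dsimp only at this; rw [show s = 0 by omega]
    | succ t ih =>
      by_cases y : s = t + 1
      · rw [y]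
      · have := x.1
        dsimp only at this
        rw [c3 t a ha (x.2 t (by omega) (by dsimp only; omega)),
          ih ⟨by dsimp only; omega, fun u b c => x.2 u (by omega) c⟩]
  have yy : ∀ s t, Al K M E S (K + 1, s) t → t = s := fun s t x => by
    by_contra y
    have := x.1
    exact x.2 s (by dsimp only at this; omega) le_rfl (Or.inr (Or.inr rfl))
  have pr : ∀ a s b r, Vx K M E S (a, s) → Vx K M E S (b, r) → a ≤ b → Ad K M E S (a, s) (b, r) →
      (if a < K then col s a else if a = K then K else 0) ≠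
        if b < K then col r b else if b = K then K else 0 := by
    rintro a s b r x y ab ⟨ne, t, tT, z, w⟩
    by_cases hb : b < K
    · rw [if_pos hb, if_pos (by omega), ← ca a (by omega) s t z, ← ca b hb r t w]
      intro e
      obtain rfl := c2 t a b e
      exact ne (by rw [uq hb x y z w])
    have y' : (b = K ∧ r = M + 2) ∨ (b = K + 1 ∧ (r = 0 ∨ r = 3 + 5 * K + S.length + M)) := by
      rcases y with y | y | y <;> dsimp only at y <;> omega
    by_cases ha : a < K
    · have := c1 s a ha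
      rw [if_pos ha, if_neg hb]
      split_ifs with e
      · omega
      obtain rfl : b = K + 1 := by omega
      obtain rfl := yy r t w
      rw [← ca a ha s t z]
      have z1 := z.1
      have : a = 0 := by
        by_contra n
        rcases x with ⟨-, x1, x⟩ | x | x <;> dsimp only at *
        · exact z.2 (2 + 5 * K + S.length + M) (by omega) (by dsimp only; omega)
            (by unfold Ct; dsimp only; omega)
        all_goals omega
      subst this
      rcases y' with y' | ⟨-, y' | y'⟩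
      · omega
      · rw [(c4 t (by omega)).1]; omega
      · rw [(c5 t (by omega)).1]; omega
    have x' : (a = K ∧ s = M + 2) ∨ (a = K + 1 ∧ (s = 0 ∨ s = 3 + 5 * K + S.length + M)) := by
      rcases x with x | x | x <;> dsimp only at x <;> omega
    rw [if_neg ha, if_neg hb]
    split_ifs with e1 e2
    · exact absurd (by rw [Prod.mk.injEq]; omega) ne
    · omega
    · omega
    · obtain rfl : a = K + 1 := by omega
      obtain rfl : b = K + 1 := by omega
      exact absurd (by rw [← yy s t z, ← yy r t w]) ne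
  have aP : ∀ t, M + 2 ≤ t → t ≤ 1 + 5 * K + S.length → Al K M E S (K, M + 2) t := fun t x y =>
    ⟨x, fun u a b c => by unfold Ct at c; dsimp only at *; omega⟩
  have e0 := (c4 0 (by omega)).1
  have eT := (c5 (2 + 5 * K + S.length + M) (by omega)).1
  refine ⟨fun x => if x.1 < K then col x.2 x.1 else if x.1 = K then K else 0,
    {(K, M + 2), (0, 0), (0, 2 + 5 * K + S.length + M)}, ?_, ?_, ?_, ?_, ?_⟩
  · simp only [mem_insert, mem_singleton]
    rintro _ (rfl | rfl | rfl) <;> unfold Vx Ct <;> dsimp only <;> omega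
  · rintro ⟨a, s⟩ ⟨b, r⟩ x y z
    rcases le_total a b with ab | ab
    · exact pr a s b r x y ab z
    · exact (pr b r a s y x ab z.symm).symm
  · simp only [mem_insert, mem_singleton]
    rintro _ (rfl | rfl | rfl) <;> dsimp only <;> split_ifs <;> omega
  · rintro ⟨a, s⟩ x y
    simp only [mem_insert, mem_singleton, Prod.mk.injEq] at y
    have dP : a < K → ∀ t, M + 2 ≤ t → t ≤ 1 + 5 * K + S.length → Al K M E S (a, s) t →
        ∃ d ∈ ({(K, M + 2), (0, 0), (0, 2 + 5 * K + S.length + M)} : Finset (ℕ × ℕ)),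
          Ad K M E S (a, s) d ∧ (if a < K then col s a else if a = K then K else 0) <
            if d.1 < K then col d.2 d.1 else if d.1 = K then K else 0 := fun ha t u v w =>
      ⟨(K, M + 2), by simp, ⟨by rw [ne_eq, Prod.mk.injEq]; omega, t, by omega, w, aP t u v⟩,
        by have := c1 s a ha; dsimp only; split_ifs <;> omega⟩
    rcases x with ⟨x1, x2, x3⟩ | x | ⟨x1, x2 | x2⟩ <;> dsimp only at *
    · by_cases z : s = 1 ∧ a ≤ M
      · have : 1 ≤ a := by unfold Ct at x3; omega
        refine ⟨(0, 0), by simp, ⟨by rw [ne_eq, Prod.mk.injEq]; omega, 1, by omega,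
          z.1 ▸ al_self _, by simp, fun u a b c => by unfold Ct at c; dsimp only at *; omega⟩, ?_⟩
        have := (c4 s (by omega)).2 a this z.2
        dsimp only; split_ifs <;> omega
      by_cases z2 : s < M + 2
      · refine dP x1 (M + 2) le_rfl (by omega) ⟨by dsimp only; omega, fun u a b c => ?_⟩
        unfold Ct at c x3; dsimp only at *; omega
      by_cases z3 : s ≤ 1 + 5 * K + S.length
      · exact dP x1 s (by omega) z3 (al_self _)
      have : E ≤ a ∧ a < E + M := by unfold Ct at x3; omega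
      refine ⟨(0, 2 + 5 * K + S.length + M), by simp, ⟨by rw [ne_eq, Prod.mk.injEq]; omega,
        2 + 5 * K + S.length + M, by omega, ⟨by dsimp only; omega, fun u a b c => ?_⟩, al_self _⟩, ?_⟩
      · unfold Ct at c x3; dsimp only at *; omega
      · have := (c5 s (by omega)).2 a this.1 this.2
        dsimp only; split_ifs <;> omega
    · omega
    · refine ⟨(0, 0), by simp, ⟨by rw [ne_eq, Prod.mk.injEq]; omega, 0, by omega,
        x2 ▸ al_self _, al_self _⟩, by dsimp only; split_ifs <;> omega⟩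
    · refine ⟨(0, 2 + 5 * K + S.length + M), by simp, ⟨by rw [ne_eq, Prod.mk.injEq]; omega, s,
        by omega, al_self _, by dsimp only; omega, fun u a b c => ?_⟩,
        by dsimp only; split_ifs <;> omega⟩
      unfold Ct at c; dsimp only at *; omega
  · rw [sum_insert (by simp; omega), sum_insert (by simp; omega), sum_singleton]
    dsimp only; split_ifs <;> omega

end

end Pool.Agent.H30.Uc.It
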