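import Pool.Agent.H30.SgDefs
import Pool.Agent.H30.UcI2

/-!
Nine families of chords that force a table with prescribed pair marginals.
-/

namespace Pool.Agent.H30.Sg

open Finset Pool.Agent.H30.Uc.It

def P (N k s l t i : ℕ) : ℕ := ((s * N + l) * 4 + t) * k + i

theorem lx {k a i b j : ℕ} (hi : i < k) (hj : j < k) :
    a * k + i < b * k + j ↔ a < b ∨ (a = b ∧ i < j) := by
  rcases lt_trichotomy a b with h | rfl | h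
  · have := Nat.mul_le_mul_right k (show a + 1 ≤ b from h)
    rw [add_mul] at this; omega
  · omega
  · have := Nat.mul_le_mul_right k (show b + 1 ≤ a from h)
    rw [add_mul] at this; omega

theorem P_lt {N k s l t i s' l' t' i'} (h1 : l < N) (h2 : l' < N) (h3 : t < 4) (h4 : t' < 4)
    (h5 : i < k) (h6 : i' < k) : P N k s l t i < P N k s' l' t' i' ↔
    s < s' ∨ (s = s' ∧ (l < l' ∨ (l = l' ∧ (t < t' ∨ (t = t' ∧ i < i'))))) := by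
  have a := lx (a := s) (b := s') h1 h2
  have b := lx (a := s') (b := s) h2 h1
  rw [P, P, lx h5 h6]
  omega

def ls (τ : ℕ) : ℕ := [0, 1, 1, 1, 3, 4, 4, 6, 7].getD τ 0
def lt (τ : ℕ) : ℕ := [0, 1, 2, 3, 0, 2, 3, 0, 3].getD τ 0
def rs (τ : ℕ) : ℕ := [1, 7, 4, 2, 4, 7, 5, 7, 8].getD τ 0
def rt (τ : ℕ) : ℕ := [0, 2, 1, 0, 0, 1, 0, 0, 0].getD τ 0
def ll (τ Y X Z : ℕ) : ℕ := [Y, Y, Y, Y, X, X, X, Z, Z].getD τ 0
def rl (τ Y X Z : ℕ) : ℕ := [Y, Z, X, Y, X, Z, X, Z, Z].getD τ 0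

def ch (N k τ Y X Z i : ℕ) : ℕ × ℕ :=
  (P N k (ls τ) (ll τ Y X Z) (lt τ) i, P N k (rs τ) (rl τ Y X Z) (rt τ) i)

theorem P_inj {N k s l t i s' l' t' i'} (h1 : l < N) (h2 : l' < N) (h3 : t < 4) (h4 : t' < 4)
    (h5 : i < k) (h6 : i' < k) (e : P N k s l t i = P N k s' l' t' i') :
    s = s' ∧ t = t' ∧ i = i' := by
  have a := (P_lt (s := s) (s' := s') h1 h2 h3 h4 h5 h6).not.1 (by omega)
  have b := (P_lt (s := s') (s' := s) h2 h1 h4 h3 h6 h5).not.1 (by omega)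
  omega

theorem bd {N τ Y X Z} (hY : Y < N) (hX : X < N) (hZ : Z < N) (h : τ < 9) :
    ll τ Y X Z < N ∧ rl τ Y X Z < N ∧ lt τ < 4 ∧ rt τ < 4 := by
  interval_cases τ <;> simp [lt, rt, ll, rl, *]

theorem dd : ∀ τ < 9, ∀ τ' < 9, (ls τ = ls τ' → lt τ = lt τ' → τ = τ') ∧
    (rs τ = rs τ' → rt τ = rt τ' → τ = τ') ∧ (ls τ ≠ rs τ' ∨ lt τ ≠ rt τ') := by decide

section
variable {N k τ Y X Z i τ' Y' X' Z' i' : ℕ} (hY : Y < N) (hX : X < N) (hZ : Z < N) (hi : i < k)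
  (hY' : Y' < N) (hX' : X' < N) (hZ' : Z' < N) (hi' : i' < k)
include hY hX hZ hi hY' hX' hZ' hi'

theorem nc (h : τ < 9) (h' : τ' < 9) (e1 : τ ≤ 3 → τ' ≤ 3 → Y = Y')
    (e2 : τ = 2 ∨ τ = 4 ∨ τ = 5 ∨ τ = 6 → τ' = 2 ∨ τ' = 4 ∨ τ' = 5 ∨ τ' = 6 → X = X')
    (e3 : τ = 1 ∨ τ = 5 ∨ τ = 7 ∨ τ = 8 → τ' = 1 ∨ τ' = 5 ∨ τ' = 7 ∨ τ' = 8 → Z = Z')
    (e4 : τ = τ' → i = i') : ¬ Cross (ch N k τ Y X Z i) (ch N k τ' Y' X' Z' i') := by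
  interval_cases τ <;> interval_cases τ' <;>
    simp [Cross, ch, ls, lt, rs, rt, ll, rl, P_lt, *] at *

theorem cr (h : (τ = τ' ∧ (τ = 0 ∨ τ = 3 ∨ τ = 4 ∨ τ = 6 ∨ τ = 7 ∨ τ = 8) ∧ i ≠ i' ) ∨
    (τ = 1 ∧ τ' = 1 ∧ Y = Y' ∧ Z = Z' ∧ i ≠ i') ∨ (τ = 2 ∧ τ' = 2 ∧ Y = Y' ∧ X = X' ∧ i ≠ i') ∨
    (τ = 5 ∧ τ' = 5 ∧ X = X' ∧ Z = Z' ∧ i ≠ i') ∨
    (τ = 0 ∧ (τ' = 1 ∨ τ' = 2 ∨ τ' = 3) ∧ Y' < Y) ∨ ((τ = 1 ∨ τ = 2) ∧ τ' = 3 ∧ Y' < Y) ∨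
    (τ = 4 ∧ (τ' = 2 ∨ τ' = 5 ∨ τ' = 6) ∧ X' < X) ∨ ((τ = 2 ∨ τ = 5) ∧ τ' = 6 ∧ X' < X) ∨
    (τ = 7 ∧ (τ' = 1 ∨ τ' = 5 ∨ τ' = 8) ∧ Z' < Z) ∨ ((τ = 1 ∨ τ = 5) ∧ τ' = 8 ∧ Z' < Z)) :
    Cross (ch N k τ Y X Z i) (ch N k τ' Y' X' Z' i') := by
  rcases h with ⟨rfl, rfl | rfl | rfl | rfl | rfl | rfl, h⟩ | ⟨rfl, rfl, h⟩ | ⟨rfl, rfl, h⟩ |
    ⟨rfl, rfl, h⟩ | ⟨rfl, rfl | rfl | rfl, h⟩ | ⟨rfl | rfl, rfl, h⟩ | ⟨rfl, rfl | rfl | rfl, h⟩ |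
    ⟨rfl | rfl, rfl, h⟩ | ⟨rfl, rfl | rfl | rfl, h⟩ | ⟨rfl | rfl, rfl, h⟩ <;>
    simp [Cross, ch, ls, lt, rs, rt, ll, rl, P_lt, hY, hX, hZ, hi, hY', hX', hZ', hi'] <;> omega

theorem ds (h : τ < 9) (h' : τ' < 9) :
    ((ch N k τ Y X Z i).1 = (ch N k τ' Y' X' Z' i').1 → τ = τ' ∧ i = i') ∧
    ((ch N k τ Y X Z i).2 = (ch N k τ' Y' X' Z' i').2 → τ = τ' ∧ i = i') ∧
    (ch N k τ Y X Z i).1 ≠ (ch N k τ' Y' X' Z' i').2 := by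
  have b := bd hY hX hZ h
  have b' := bd hY' hX' hZ' h'
  have d := dd τ h τ' h'
  refine ⟨fun e => ?_, fun e => ?_, fun e => ?_⟩
  · have := P_inj b.1 b'.1 b.2.2.1 b'.2.2.1 hi hi' e; omega
  · have := P_inj b.2.1 b'.2.1 b.2.2.2 b'.2.2.2 hi hi' e; omega
  · have := P_inj b.1 b'.2.1 b.2.2.1 b'.2.2.2 hi hi' e; omega

omit hY' hX' hZ' hi' in
theorem pc (h : τ < 9) : ∃ s, (s = 1 ∨ s = 2 ∨ s = 4 ∨ s = 5 ∨ s = 7 ∨ s = 8) ∧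
    (ch N k τ Y X Z i).1 < P N k s 0 0 0 ∧ P N k s 0 0 0 ≤ (ch N k τ Y X Z i).2 := by
  have a : 0 < N := by omega
  have b : 0 < k := by omega
  refine ⟨[1, 2, 2, 2, 4, 5, 5, 7, 8].getD τ 0, ?_⟩
  simp only [← not_lt]
  interval_cases τ <;> simp [ch, ls, lt, rs, rt, ll, rl, P_lt, *]

end

def TT (k : ℕ) (y z a c : ℕ → ℕ) : Prop :=
  ∃ φ ψ : ℕ → ℕ, (∀ i < k, φ i < k ∧ ψ i < k ∧ y (φ i) = y i ∧ z (ψ i) = z i ∧ a (φ i) = c (ψ i)) ∧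
    (∀ i < k, ∀ j < k, φ i = φ j → i = j) ∧ ∀ i < k, ∀ j < k, ψ i = ψ j → i = j

def cd (N k : ℕ) (y z a c : ℕ → ℕ) (p : ℕ × ℕ) : ℕ × ℕ :=
  ch N k p.1 (y p.2) (if p.1 = 5 then c p.2 else a p.2) (z p.2) p.2

def CC (N k : ℕ) (y z a c : ℕ → ℕ) : Prop :=
  ∃ f : ℕ → ℕ → ℕ, (∀ τ < 9, ∀ i < k, f τ i < k) ∧ ∀ τ < 9, ∀ i < k, ∀ τ' < 9, ∀ i' < k,
    Cross (cd N k y z a c (τ, i)) (cd N k y z a c (τ', i')) → f τ i ≠ f τ' i'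

theorem sq {k : ℕ} (l s u : ℕ → ℕ) (s1 : ∀ i < k, s i < k) (s2 : ∀ i < k, ∀ j < k, s i = s j → i = j)
    (u1 : ∀ i < k, u i < k) (u2 : ∀ i < k, ∀ j < k, u i = u j → i = j)
    (h : ∀ i < k, l (s i) ≤ l (u i)) : ∀ i < k, l (s i) = l (u i) := by
  have e : ∀ s : ℕ → ℕ, (∀ i < k, s i < k) → (∀ i < k, ∀ j < k, s i = s j → i = j) →
      ∑ i ∈ range k, l (s i) = ∑ i ∈ range k, l i := fun s a b =>
    sum_nbij s (fun i hi => mem_range.2 (a i (mem_range.1 hi)))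
      (fun i hi j hj => b i (by simpa using hi) j (by simpa using hj))
      (fun j hj => by simpa using surj a b j (by simpa using hj)) fun _ _ => rfl
  have := (sum_eq_sum_iff_of_le (s := range k) fun i hi => h i (mem_range.1 hi)).1
    ((e s s1 s2).trans (e u u1 u2).symm)
  exact fun i hi => this i (mem_range.2 hi)

variable {N k : ℕ} {y z a c : ℕ → ℕ}

theorem tt_cc (hN : ∀ i < k, y i < N ∧ z i < N ∧ a i < N ∧ c i < N) (h : TT k y z a c) :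
    CC N k y z a c := by
  obtain ⟨φ, ψ, h1, h2, h3⟩ := h
  choose! φ' p1 p2 using surj (fun i hi => (h1 i hi).1) h2
  choose! ψ' q1 q2 using surj (fun i hi => (h1 i hi).2.1) h3
  refine ⟨fun τ i => if τ = 5 then ψ' i else if τ = 2 ∨ τ = 4 ∨ τ = 6 then φ' i else i,
    fun τ _ i hi => ?_, fun τ ht i hi τ' ht' i' hi' x e => ?_⟩
  · have := p1 i hi
    have := q1 i hi
    dsimp only; split_ifs <;> omega
  have key : ∀ τ, ∀ i < k, ∀ γ, (if τ = 5 then ψ' i else if τ = 2 ∨ τ = 4 ∨ τ = 6 then φ' i else i) = γ →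
      (τ ≤ 3 → y i = y γ) ∧
      (τ = 2 ∨ τ = 4 ∨ τ = 5 ∨ τ = 6 → (if τ = 5 then c i else a i) = a (φ γ)) ∧
      (τ = 1 ∨ τ = 5 ∨ τ = 7 ∨ τ = 8 → z i = z γ) ∧
      i = if τ = 5 then ψ γ else if τ = 2 ∨ τ = 4 ∨ τ = 6 then φ γ else γ := by
    intro τ i hi γ e
    split_ifs at e ⊢ with u v
    · have := h1 γ (e ▸ q1 i hi)
      have w : ψ γ = i := e ▸ q2 i hi
      rw [w] at this; omega
    · have := h1 γ (e ▸ p1 i hi)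
      have w : φ γ = i := e ▸ p2 i hi
      rw [w] at this ⊢; omega
    · subst e; omega
  obtain ⟨a1, a2, a3, a4⟩ := key τ i hi _ e
  obtain ⟨b1, b2, b3, b4⟩ := key τ' i' hi' _ rfl
  have n := hN i hi
  have n' := hN i' hi'
  refine nc n.1 (by split_ifs <;> omega) n.2.1 hi n'.1 (by split_ifs <;> omega) n'.2.1 hi' ht ht'
    (fun u v => (a1 u).trans (b1 v).symm) (fun u v => (a2 u).trans (b2 v).symm)
    (fun u v => (a3 u).trans (b3 v).symm) (fun u => ?_) x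
  subst u; exact a4.trans b4.symm

theorem cc_tt (hN : ∀ i < k, y i < N ∧ z i < N ∧ a i < N ∧ c i < N) (h : CC N k y z a c) :
    TT k y z a c := by
  obtain ⟨f, f1, f2⟩ := h
  have X := fun τ (ht : τ < 9) i (hi : i < k) τ' (ht' : τ' < 9) i' (hi' : i' < k)
      (e : f τ i = f τ' i') h => f2 τ ht i hi τ' ht' i' hi'
    (cr (τ := τ) (τ' := τ') (hN i hi).1 (X := if τ = 5 then c i else a i)
      (by have := hN i hi; split_ifs <;> omega) (hN i hi).2.1 hi (hN i' hi').1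
      (X' := if τ' = 5 then c i' else a i') (by have := hN i' hi'; split_ifs <;> omega)
      (hN i' hi').2.1 hi' h) e
  have inv : ∀ τ < 9, (∀ i < k, ∀ j < k, f τ i = f τ j → i = j) → ∃ s : ℕ → ℕ,
      (∀ i < k, s i < k) ∧ (∀ i < k, f τ (s i) = i) ∧ ∀ i < k, ∀ j < k, s i = s j → i = j :=
    fun τ ht h => by
      choose! s s1 s2 using surj (f1 τ ht) h
      exact ⟨s, s1, s2, fun i hi j hj e => by rw [← s2 i hi, e, s2 j hj]⟩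
  have ac : ∀ τ, (τ = 0 ∨ τ = 3 ∨ τ = 4 ∨ τ = 6 ∨ τ = 7 ∨ τ = 8) →
      ∀ i < k, ∀ j < k, f τ i = f τ j → i = j := fun τ ht i hi j hj e => by
    by_contra n
    exact X τ (by omega) i hi τ (by omega) j hj e (Or.inl ⟨rfl, ht, n⟩)
  obtain ⟨s0, a0, b0, c0⟩ := inv 0 (by omega) (ac 0 (by omega))
  obtain ⟨s3, a3, b3, c3⟩ := inv 3 (by omega) (ac 3 (by omega))
  obtain ⟨s4, a4, b4, c4⟩ := inv 4 (by omega) (ac 4 (by omega))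
  obtain ⟨s6, a6, b6, c6⟩ := inv 6 (by omega) (ac 6 (by omega))
  obtain ⟨s7, a7, b7, c7⟩ := inv 7 (by omega) (ac 7 (by omega))
  obtain ⟨s8, a8, b8, c8⟩ := inv 8 (by omega) (ac 8 (by omega))
  have eY := sq y s0 s3 a0 c0 a3 c3 fun γ hγ => not_lt.1 fun n =>
    X 0 (by omega) _ (a0 γ hγ) 3 (by omega) _ (a3 γ hγ) (by rw [b0 γ hγ, b3 γ hγ]) (by simp [n])
  have eX := sq a s4 s6 a4 c4 a6 c6 fun γ hγ => not_lt.1 fun n =>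
    X 4 (by omega) _ (a4 γ hγ) 6 (by omega) _ (a6 γ hγ) (by rw [b4 γ hγ, b6 γ hγ]) (by simp [n])
  have eZ := sq z s7 s8 a7 c7 a8 c8 fun γ hγ => not_lt.1 fun n =>
    X 7 (by omega) _ (a7 γ hγ) 8 (by omega) _ (a8 γ hγ) (by rw [b7 γ hγ, b8 γ hγ]) (by simp [n])
  have gY : ∀ τ, τ = 1 ∨ τ = 2 → ∀ i < k, y i = y (s0 (f τ i)) := fun τ ht i hi => by
    have t9 : τ < 9 := by omega
    have hγ := f1 τ t9 i hi
    have u := X 0 (by decide) _ (a0 _ hγ) τ t9 i hi (b0 _ hγ)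
    have v := X τ t9 i hi 3 (by decide) _ (a3 _ hγ) (b3 _ hγ).symm
    have := eY _ hγ
    rcases ht with rfl | rfl <;> simp at u v <;> omega
  have gX : ∀ τ, τ = 2 ∨ τ = 5 → ∀ i < k, (if τ = 5 then c i else a i) = a (s4 (f τ i)) :=
    fun τ ht i hi => by
      have t9 : τ < 9 := by omega
      have hγ := f1 τ t9 i hi
      have u := X 4 (by decide) _ (a4 _ hγ) τ t9 i hi (b4 _ hγ)
      have v := X τ t9 i hi 6 (by decide) _ (a6 _ hγ) (b6 _ hγ).symm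
      have := eX _ hγ
      rcases ht with rfl | rfl <;> simp at u v ⊢ <;> omega
  have gZ : ∀ τ, τ = 1 ∨ τ = 5 → ∀ i < k, z i = z (s7 (f τ i)) := fun τ ht i hi => by
    have t9 : τ < 9 := by omega
    have hγ := f1 τ t9 i hi
    have u := X 7 (by decide) _ (a7 _ hγ) τ t9 i hi (b7 _ hγ)
    have v := X τ t9 i hi 8 (by decide) _ (a8 _ hγ) (b8 _ hγ).symm
    have := eZ _ hγ
    rcases ht with rfl | rfl <;> simp at u v <;> omega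
  have i1 : ∀ i < k, ∀ j < k, f 1 i = f 1 j → i = j := fun i hi j hj e => by
    by_contra n
    exact X 1 (by omega) i hi 1 (by omega) j hj e (Or.inr (Or.inl ⟨rfl, rfl,
      by rw [gY 1 (by omega) i hi, gY 1 (by omega) j hj, e],
      by rw [gZ 1 (by omega) i hi, gZ 1 (by omega) j hj, e], n⟩))
  obtain ⟨s2, a2, b2, c2⟩ := inv 2 (by omega) fun i hi j hj e => by
    by_contra n
    exact X 2 (by omega) i hi 2 (by omega) j hj e (Or.inr (Or.inr (Or.inl ⟨rfl, rfl,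
      by rw [gY 2 (by omega) i hi, gY 2 (by omega) j hj, e],
      by rw [gX 2 (by omega) i hi, gX 2 (by omega) j hj, e], n⟩)))
  obtain ⟨s5, a5, b5, c5⟩ := inv 5 (by omega) fun i hi j hj e => by
    by_contra n
    exact X 5 (by omega) i hi 5 (by omega) j hj e (Or.inr (Or.inr (Or.inr (Or.inl ⟨rfl, rfl,
      by rw [gX 5 (by omega) i hi, gX 5 (by omega) j hj, e],
      by rw [gZ 5 (by omega) i hi, gZ 5 (by omega) j hj, e], n⟩))))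
  have g1 := f1 1 (by omega)
  refine ⟨fun i => s2 (f 1 i), fun i => s5 (f 1 i), fun i hi => ⟨a2 _ (g1 i hi), a5 _ (g1 i hi),
    ?_, ?_, ?_⟩, fun i hi j hj e => i1 i hi j hj (c2 _ (g1 i hi) _ (g1 j hj) e),
    fun i hi j hj e => i1 i hi j hj (c5 _ (g1 i hi) _ (g1 j hj) e)⟩
  · rw [gY 2 (by omega) _ (a2 _ (g1 i hi)), b2 _ (g1 i hi), ← gY 1 (by omega) i hi]
  · rw [gZ 5 (by omega) _ (a5 _ (g1 i hi)), b5 _ (g1 i hi), ← gZ 1 (by omega) i hi]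
  · have u := gX 2 (by omega) _ (a2 _ (g1 i hi))
    have v := gX 5 (by omega) _ (a5 _ (g1 i hi))
    rw [b2 _ (g1 i hi), if_neg (by omega)] at u
    rw [b5 _ (g1 i hi), if_pos rfl] at v
    exact u.trans v.symm

end Pool.Agent.H30.Sg
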