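import Pool.Agent.H30.SgA
import Pool.Agent.Lead.Ham.One3

/-!
One-in-three satisfiability as a table problem.
-/

namespace Pool.Agent.H30.Sg

open Finset Pool.Agent.H38.NP Pool.Agent.Lead.Ham

def yl (i : ℕ) : ℕ := i / 3

def xa (i : ℕ) : ℕ := if i % 3 = 0 then 0 else if i % 6 = 1 ∨ i % 6 = 5 then 2 else 1

def zl (p s : ℕ → ℕ) (i : ℕ) : ℕ :=
  if i % 6 = 1 ∨ i % 6 = 3 then 4 * (i / 6) else if i % 6 = 4 then 4 * (i / 6) + 1 else
  if i % 6 = 0 then 4 * p (i / 6) + 1 else
  if i % 6 + 3 * s (i / 6) = 5 then 4 * (i / 18) + 2 else 4 * (i / 18) + 3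

def xc (s : ℕ → ℕ) (i : ℕ) : ℕ :=
  if i % 3 = 0 then 0 else if i % 6 = 1 then 2 else if i % 6 = 4 then 1 else
  if i % 6 + 3 * s (i / 6) = 5 then (if i / 6 % 3 = 0 then 1 else 2) else
    (if i / 6 % 3 = 0 then 2 else 1)

variable {m : ℕ} {n p s : ℕ → ℕ}

theorem t_bwd (hs : ∀ o, s o ≤ 1) (hn : ∀ o < 3 * m, n o < 3 * m ∧ p (n o) = o)
    (hp : ∀ o < 3 * m, p o < 3 * m ∧ n (p o) = o) (h : TT (18 * m) yl (zl p s) xa (xc s)) :
    ∃ st : ℕ → ℕ, (∀ o < 3 * m, st o ≤ 1 ∧ st (n o) = st o) ∧ ∀ j < m,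
      (if st (3 * j) = s (3 * j) then 1 else 0) + (if st (3 * j + 1) = s (3 * j + 1) then 1 else 0) +
        (if st (3 * j + 2) = s (3 * j + 2) then 1 else 0) = 1 := by
  obtain ⟨φ, ψ, h1, h2, h3⟩ := h
  have y3 : ∀ i < 18 * m, ∀ j < 18 * m, i ≠ j → i / 3 = j / 3 → i / 3 % 2 = 0 ∨ i / 3 % 2 = 1 →
      xa (φ i) ≠ xa (φ j) := fun i hi j hj a b _ => by
    have u := (h1 i hi).2.2.1
    have v := (h1 j hj).2.2.1
    have w : φ i ≠ φ j := fun e => a (h2 i hi j hj e)
    unfold yl at u v; unfold xa; split_ifs <;> omega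
  have z0 : ∀ i < 18 * m, zl p s i % 4 = 0 → (xa (φ i) = 0 ∧ ψ i = zl p s i / 4 * 6 + 3) ∨
      (xa (φ i) = 2 ∧ ψ i = zl p s i / 4 * 6 + 1) := fun i hi a => by
    obtain ⟨-, -, -, u, v⟩ := h1 i hi
    rw [← u] at a; rw [v, ← u]; clear u v
    generalize ψ i = j at *
    unfold zl at a ⊢; unfold xc; split_ifs at a ⊢ <;> omega
  have z1 : ∀ i < 18 * m, zl p s i % 4 = 1 → (xa (φ i) = 1 ∧ ψ i = zl p s i / 4 * 6 + 4) ∨
      (xa (φ i) = 0 ∧ ψ i = n (zl p s i / 4) * 6) := fun i hi a => by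
    obtain ⟨-, b, -, u, v⟩ := h1 i hi
    rw [← u] at a; rw [v, ← u]; clear u v
    generalize ψ i = j at *
    have := (hp (j / 6) (by omega)).2
    by_cases x : j % 6 = 0
    · have e : zl p s j / 4 = p (j / 6) := by unfold zl; split_ifs <;> omega
      rw [e, this]; unfold xc; split_ifs <;> omega
    · unfold zl at a ⊢; unfold xc; split_ifs at a ⊢ <;> omega
  have z2 : ∀ i < 18 * m, 2 ≤ zl p s i % 4 → xa (φ i) = 1 ∨ xa (φ i) = 2 := fun i hi a => by
    obtain ⟨-, -, -, u, v⟩ := h1 i hi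
    rw [← u] at a; rw [v]; clear u v
    generalize ψ i = j at *
    unfold zl at a; unfold xc; split_ifs at a ⊢ <;> omega
  have z3 : ∀ i < 18 * m, zl p s i % 4 = 2 → ψ i / 18 = zl p s i / 4 ∧
      ψ i % 6 + 3 * s (ψ i / 6) = 5 ∧ (xa (φ i) = 1 ↔ ψ i / 6 % 3 = 0) := fun i hi a => by
    obtain ⟨-, -, -, u, v⟩ := h1 i hi
    rw [← u] at a; rw [v, ← u]; clear u v
    generalize ψ i = j at *
    unfold zl at a ⊢; unfold xc; split_ifs at a ⊢ <;> omega
  have ne : ∀ i < 18 * m, ∀ j < 18 * m, i ≠ j → ψ i ≠ ψ j := fun i hi j hj a e => a (h3 i hi j hj e)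
  have g : ∀ o < 3 * m, (xa (φ (6 * o)) = 0 ∧ xa (φ (6 * o + 2)) = 1 ∧ xa (φ (6 * o + 4)) = 1 ∧
      xa (φ (6 * o + 5)) = 2) ∨ (xa (φ (6 * o)) = 1 ∧ xa (φ (6 * o + 2)) = 2 ∧
      xa (φ (6 * o + 4)) = 0 ∧ xa (φ (6 * o + 5)) = 1) := fun o ho => by
    have e1 : zl p s (6 * o + 1) = 4 * o := by unfold zl; split_ifs <;> omega
    have e3 : zl p s (6 * o + 3) = 4 * o := by unfold zl; split_ifs <;> omega
    have a0 := z1 (6 * o) (by omega) (by unfold zl; split_ifs <;> omega)
    have a4 := z1 (6 * o + 4) (by omega) (by unfold zl; split_ifs <;> omega)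
    have a1 := z0 (6 * o + 1) (by omega) (by omega)
    have a3 := z0 (6 * o + 3) (by omega) (by omega)
    have a2 := z2 (6 * o + 2) (by omega) (by unfold zl; split_ifs <;> omega)
    have a5 := z2 (6 * o + 5) (by omega) (by unfold zl; split_ifs <;> omega)
    have b := ne (6 * o + 1) (by omega) (6 * o + 3) (by omega) (by omega)
    have c1 := y3 (6 * o) (by omega) (6 * o + 1) (by omega) (by omega) (by omega) (by omega)
    have c2 := y3 (6 * o) (by omega) (6 * o + 2) (by omega) (by omega) (by omega) (by omega)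
    have c3 := y3 (6 * o + 1) (by omega) (6 * o + 2) (by omega) (by omega) (by omega) (by omega)
    have c4 := y3 (6 * o + 3) (by omega) (6 * o + 4) (by omega) (by omega) (by omega) (by omega)
    have c5 := y3 (6 * o + 3) (by omega) (6 * o + 5) (by omega) (by omega) (by omega) (by omega)
    have c6 := y3 (6 * o + 4) (by omega) (6 * o + 5) (by omega) (by omega) (by omega) (by omega)
    rw [e1] at a1; rw [e3] at a3
    have a0 : xa (φ (6 * o)) = 1 ∨ xa (φ (6 * o)) = 0 := a0.imp And.left And.left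
    have a4 : xa (φ (6 * o + 4)) = 1 ∨ xa (φ (6 * o + 4)) = 0 := a4.imp And.left And.left
    omega
  refine ⟨fun o => 1 - xa (φ (6 * o)), fun o ho => ⟨Nat.sub_le _ _, ?_⟩, fun j hj => ?_⟩
  · obtain ⟨u, v⟩ := hn o ho
    have e4 : zl p s (6 * o + 4) = 4 * o + 1 := by unfold zl; split_ifs <;> omega
    have e0 : zl p s (6 * n o) = 4 * o + 1 := by
      unfold zl
      rw [show 6 * n o / 6 = n o by omega, v]; split_ifs <;> omega
    have a0 := z1 (6 * n o) (by omega) (by omega)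
    have a4 := z1 (6 * o + 4) (by omega) (by omega)
    have b := ne (6 * n o) (by omega) (6 * o + 4) (by omega) (by omega)
    have c := g o ho
    rw [e0] at a0; rw [e4] at a4
    dsimp only; omega
  · have k : ∀ o, 3 * j ≤ o → o ≤ 3 * j + 2 → ∃ r, ψ (6 * o + 5 - 3 * s o) = r ∧ r / 18 = j ∧
        r % 6 + 3 * s (r / 6) = 5 ∧ (1 - xa (φ (6 * o)) = s o ↔ r / 6 % 3 = 0) := fun o a b => by
      have := hs o
      have e : zl p s (6 * o + 5 - 3 * s o) = 4 * j + 2 := by
        unfold zl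
        rw [show (6 * o + 5 - 3 * s o) / 6 = o by omega]; split_ifs <;> omega
      obtain ⟨u, v, w⟩ := z3 (6 * o + 5 - 3 * s o) (by omega) (by omega)
      refine ⟨_, rfl, by omega, v, Iff.trans ?_ w⟩
      have c := g o (by omega)
      rcases (show s o = 0 ∨ s o = 1 by omega) with x | x <;> rw [x]
      · rw [show 6 * o + 5 - 3 * 0 = 6 * o + 5 by omega]; omega
      · rw [show 6 * o + 5 - 3 * 1 = 6 * o + 2 by omega]; omega
    obtain ⟨r0, a0, b0, c0, d0⟩ := k (3 * j) (by omega) (by omega)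
    obtain ⟨r1, a1, b1, c1, d1⟩ := k (3 * j + 1) (by omega) (by omega)
    obtain ⟨r2, a2, b2, c2, d2⟩ := k (3 * j + 2) (by omega) (by omega)
    have s0 := hs (3 * j)
    have s1 := hs (3 * j + 1)
    have s2 := hs (3 * j + 2)
    have q : ∀ r r', r % 6 + 3 * s (r / 6) = 5 → r' % 6 + 3 * s (r' / 6) = 5 → r ≠ r' →
        r / 6 ≠ r' / 6 := fun r r' a b c e => by rw [e] at a; omega
    have n1 := q _ _ c0 c1 (a0 ▸ a1 ▸ ne _ (by omega) _ (by omega) (by omega))
    have n2 := q _ _ c0 c2 (a0 ▸ a2 ▸ ne _ (by omega) _ (by omega) (by omega))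
    have n3 := q _ _ c1 c2 (a1 ▸ a2 ▸ ne _ (by omega) _ (by omega) (by omega))
    simp only [d0, d1, d2]
    clear d0 d1 d2 a0 a1 a2 c0 c1 c2
    split_ifs <;> omega

theorem t_fwd (hs : ∀ o, s o ≤ 1) (hn : ∀ o < 3 * m, n o < 3 * m ∧ p (n o) = o)
    (hp : ∀ o < 3 * m, p o < 3 * m ∧ n (p o) = o) (st w : ℕ → ℕ) (h0 : ∀ o, st o ≤ 1)
    (h1 : ∀ o < 3 * m, st (n o) = st o) (h2 : ∀ j, w j < 3)
    (h3 : ∀ o < 3 * m, st o = s o ↔ o % 3 = w (o / 3)) : TT (18 * m) yl (zl p s) xa (xc s) := by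
  obtain ⟨sw, w1, w2⟩ : ∃ sw : ℕ → ℕ, (∀ o, sw o / 3 = o / 3 ∧ (sw o % 3 = 0 ↔ o % 3 = w (o / 3))) ∧
      ∀ o, sw (sw o) = o := by
    have e : ∀ o, (if o % 3 = 0 then o + w (o / 3) else if o % 3 = w (o / 3) then o - o % 3 else o)
        / 3 = o / 3 := fun o => by have := h2 (o / 3); split_ifs <;> omega
    refine ⟨fun o => if o % 3 = 0 then o + w (o / 3) else if o % 3 = w (o / 3) then o - o % 3 else o,
      fun o => ⟨e o, ?_⟩, fun o => ?_⟩
    · have := h2 (o / 3); dsimp only; split_ifs <;> omega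
    · have := h2 (o / 3); dsimp only; rw [e o]; split_ifs <;> omega
  obtain ⟨ψ, q1, q2⟩ : ∃ ψ : ℕ → ℕ, (∀ o t, t < 6 → ψ (6 * o + t) =
      if t = 2 ∨ t = 5 then 6 * sw o + (if s (sw o) = s o then t else 7 - t) else
      if st o = 1 then 6 * o + t else if t = 0 then 6 * p o + 4 else if t = 4 then 6 * n o + 0 else
        6 * o + (4 - t)) ∧ True :=
    ⟨fun i => if i % 6 = 2 ∨ i % 6 = 5 then 6 * sw (i / 6) + (if s (sw (i / 6)) = s (i / 6) then i % 6
      else 7 - i % 6) else if st (i / 6) = 1 then 6 * (i / 6) + i % 6 else if i % 6 = 0 then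
      6 * p (i / 6) + 4 else if i % 6 = 4 then 6 * n (i / 6) + 0 else 6 * (i / 6) + (4 - i % 6),
      fun o t ht => by
        simp only [show (6 * o + t) / 6 = o by omega, show (6 * o + t) % 6 = t by omega], trivial⟩
  have zz : ∀ o t, t < 6 → zl p s (6 * o + t) = (if t = 1 ∨ t = 3 then 4 * o else
      if t = 4 then 4 * o + 1 else if t = 0 then 4 * p o + 1 else
      if t + 3 * s o = 5 then 4 * (o / 3) + 2 else 4 * (o / 3) + 3) ∧
      xc s (6 * o + t) = if t % 3 = 0 then 0 else if t = 1 then 2 else if t = 4 then 1 else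
      if t + 3 * s o = 5 then (if o % 3 = 0 then 1 else 2) else (if o % 3 = 0 then 2 else 1) :=
    fun o t ht => by
      simp only [zl, xc, show (6 * o + t) / 6 = o by omega, show (6 * o + t) % 6 = t by omega,
        show (6 * o + t) % 3 = t % 3 by omega, show (6 * o + t) / 18 = o / 3 by omega, and_self]
  have main : ∀ o < 3 * m, ∀ t < 6, ψ (6 * o + t) < 18 * m ∧
      zl p s (ψ (6 * o + t)) = zl p s (6 * o + t) ∧ ψ (ψ (6 * o + t)) = 6 * o + t ∧
      xc s (ψ (6 * o + t)) = xa (if st o = 1 then t else t / 3 * 3 + (t + 2) % 3) := by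
    intro o ho t ht
    obtain ⟨n1, n2⟩ := hn o ho
    obtain ⟨p1, p2⟩ := hp o ho
    have a1 := h1 o ho
    have a2 := h1 _ p1
    rw [p2] at a2
    have a3 := w1 o
    have a4 := w2 o
    have a5 := h3 o ho
    have a6 := hs o
    have a7 := hs (sw o)
    have a8 := h0 o
    rw [q1 o t ht, (zz o t ht).1]
    by_cases x : t = 2 ∨ t = 5
    · rw [if_pos x]
      have b : (if s (sw o) = s o then t else 7 - t) < 6 := by split_ifs <;> omega
      rw [q1 _ _ b, (zz _ _ b).1, (zz _ _ b).2, a4]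
      unfold xa
      rcases x with rfl | rfl <;> by_cases u : s (sw o) = s o <;> by_cases v : st o = 1 <;>
        simp only [u, v, eq_comm (a := s o), if_true, if_false] <;> norm_num <;> split_ifs <;> omega
    rw [if_neg x]
    by_cases u : st o = 1
    · rw [if_pos u, if_pos u, q1 o t ht, (zz o t ht).1, (zz o t ht).2, if_neg x, if_pos u]
      unfold xa
      refine ⟨by omega, rfl, rfl, ?_⟩
      split_ifs <;> omega
    rw [if_neg u, if_neg u]
    have : t = 0 ∨ t = 1 ∨ t = 3 ∨ t = 4 := by omega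
    rcases this with rfl | rfl | rfl | rfl
    · rw [if_pos rfl, q1 _ 4 (by omega), (zz _ 4 (by omega)).1, (zz _ 4 (by omega)).2, p2]
      simp [xa, ← a2, u]; omega
    · rw [if_neg (by omega), if_neg (by omega), q1 _ (4 - 1) (by omega), (zz _ (4 - 1) (by omega)).1,
        (zz _ (4 - 1) (by omega)).2]
      simp [xa, u]; omega
    · rw [if_neg (by omega), if_neg (by omega), q1 _ (4 - 3) (by omega), (zz _ (4 - 3) (by omega)).1,
        (zz _ (4 - 3) (by omega)).2]
      simp [xa, u]; omega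
    · rw [if_neg (by omega), if_pos rfl, q1 _ 0 (by omega), (zz _ 0 (by omega)).1,
        (zz _ 0 (by omega)).2, n2]
      simp [xa, a1, u]; omega
  have main' := fun i (hi : i < 18 * m) => main (i / 6) (by omega) (i % 6) (by omega)
  simp only [Nat.div_add_mod] at main'
  refine ⟨fun i => if st (i / 6) = 1 then i else i / 3 * 3 + (i + 2) % 3, ψ, fun i hi => ?_,
    fun i hi j hj e => ?_, fun i hi j hj e => ?_⟩
  · obtain ⟨a, b, -, d⟩ := main' i hi
    refine ⟨by dsimp only; split_ifs <;> omega, a, by unfold yl; dsimp only; split_ifs <;> omega, b, ?_⟩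
    rw [d]; unfold xa; dsimp only; split_ifs <;> omega
  · have : i / 6 = j / 6 := by dsimp only at e; split_ifs at e <;> omega
    dsimp only at e; rw [this] at e; split_ifs at e <;> omega
  · rw [← (main' i hi).2.2.1, e, (main' j hj).2.2.1]

theorem one3_tt (φ : F3) : One3 φ ↔
    TT (18 * φ.length) yl (zl (pv φ) (sg φ)) xa (xc (sg φ)) := by
  have hs : ∀ o, sg φ o ≤ 1 := fun o => Bool.toNat_le _
  have hn := fun o (h : o < 3 * φ.length) => And.intro (nx_spec h).1 (nx_spec h).2.2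
  have hp := fun o (h : o < 3 * φ.length) => And.intro (pv_spec h).1 (pv_spec h).2.2
  rw [one3_iff]
  constructor
  · rintro ⟨a, h⟩
    refine t_fwd hs hn hp (fun o => (a (litAt φ o).1).toNat)
      (fun j => if a (litAt φ (3 * j)).1 = (litAt φ (3 * j)).2 then 0 else
        if a (litAt φ (3 * j + 1)).1 = (litAt φ (3 * j + 1)).2 then 1 else 2)
      (fun o => Bool.toNat_le _) (fun o ho => by simp only [(nx_spec ho).2.1])
      (fun j => by split_ifs <;> omega) fun o ho => ?_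
    have := h (o / 3) (by omega)
    obtain ⟨j, rfl | rfl | rfl⟩ : ∃ j, o = 3 * j ∨ o = 3 * j + 1 ∨ o = 3 * j + 2 := ⟨o / 3, by omega⟩
    all_goals
      simp only [show 3 * j / 3 = j by omega, show (3 * j + 1) / 3 = j by omega,
        show (3 * j + 2) / 3 = j by omega, show 3 * j % 3 = 0 by omega,
        show (3 * j + 1) % 3 = 1 by omega, show (3 * j + 2) % 3 = 2 by omega, sg] at this ⊢
      revert this
      generalize a (litAt φ (3 * j)).1 = x1, (litAt φ (3 * j)).2 = y1,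
        a (litAt φ (3 * j + 1)).1 = x2, (litAt φ (3 * j + 1)).2 = y2,
        a (litAt φ (3 * j + 2)).1 = x3, (litAt φ (3 * j + 2)).2 = y3
      revert x1 y1 x2 y2 x3 y3
      decide
  · intro h
    classical
    obtain ⟨st, h1, h2⟩ := t_bwd hs hn hp h
    refine ⟨fun v => if h : ∃ o < 3 * φ.length, (litAt φ o).1 = v then decide (st h.choose = 1)
      else true, fun j hj => ?_⟩
    have k : ∀ o < 3 * φ.length, ((if h : ∃ o' < 3 * φ.length, (litAt φ o').1 = (litAt φ o).1 then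
        decide (st h.choose = 1) else true) == (litAt φ o).2).toNat =
          if st o = sg φ o then 1 else 0 := fun o ho => by
      have e : ∃ o' < 3 * φ.length, (litAt φ o').1 = (litAt φ o).1 := ⟨o, ho, rfl⟩
      rw [dif_pos e, ← nx_const (f := fun o => decide (st o = 1))
        (fun o ho => by simp only [(h1 o ho).2]) ho e.choose_spec.1 e.choose_spec.2]
      have := (h1 o ho).1
      unfold sg
      rcases (show st o = 0 ∨ st o = 1 by omega) with x | x <;> cases (litAt φ o).2 <;> simp [x]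
    unfold Ex1
    rw [k _ (by omega), k _ (by omega), k _ (by omega)]
    exact h2 j hj

end Pool.Agent.H30.Sg
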