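import Pool.Agent.H30.SgB

/-!
Colouring g-segment graphs is NP-complete for every fixed g at least seven.
-/

namespace Pool.Agent.H30.Sg

open Finset Pool.Agent.H38.NP Pool.Agent.H38.ER Pool.Agent.Lead.Ham Pool.Agent.H30.Uc

def cl (N k : ℕ) (y z a c : ℕ → ℕ) : List (ℕ × ℕ) :=
  ((List.range 9).product (List.range k)).map (cd N k y z a c)

theorem cl_spec {N k g : ℕ} {y z a c : ℕ → ℕ} (hg : 7 ≤ g)
    (hN : ∀ i < k, y i < N ∧ z i < N ∧ a i < N ∧ c i < N) :
    ChordSet (cl N k y z a c) ∧ Seg g (cl N k y z a c) ∧ (Col (cl N k y z a c) k ↔ CC N k y z a c) := by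
  have D := fun τ (ht : τ < 9) i (hi : i < k) τ' (ht' : τ' < 9) i' (hi' : i' < k) =>
    ds (τ := τ) (τ' := τ') (hN i hi).1 (X := if τ = 5 then c i else a i)
      (by have := hN i hi; split_ifs <;> omega) (hN i hi).2.1 hi (hN i' hi').1
      (X' := if τ' = 5 then c i' else a i') (by have := hN i' hi'; split_ifs <;> omega)
      (hN i' hi').2.1 hi' ht ht'
  have Q := fun τ (ht : τ < 9) i (hi : i < k) => pc (τ := τ) (hN i hi).1
    (X := if τ = 5 then c i else a i) (by have := hN i hi; split_ifs <;> omega) (hN i hi).2.1 hi ht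
  have mem : ∀ p : ℕ × ℕ, p ∈ (List.range 9).product (List.range k) ↔ p.1 < 9 ∧ p.2 < k :=
    fun ⟨τ, i⟩ => by simp only [List.pair_mem_product, List.mem_range]
  have nd : ((List.range 9).product (List.range k)).Nodup := List.nodup_range.product List.nodup_range
  refine ⟨⟨fun x hx => ?_, List.nodup_append.2 ⟨?_, ?_, ?_⟩⟩, ?_, ?_, ?_⟩
  · obtain ⟨p, hp, rfl⟩ := List.mem_map.1 hx
    obtain ⟨s, -, u, v⟩ := Q _ ((mem p).1 hp).1 _ ((mem p).1 hp).2
    exact u.trans_le v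
  · rw [cl, List.map_map]
    exact nd.map_on fun p hp q hq e => Prod.ext_iff.2
      ((D _ ((mem p).1 hp).1 _ ((mem p).1 hp).2 _ ((mem q).1 hq).1 _ ((mem q).1 hq).2).1 e)
  · rw [cl, List.map_map]
    exact nd.map_on fun p hp q hq e => Prod.ext_iff.2
      ((D _ ((mem p).1 hp).1 _ ((mem p).1 hp).2 _ ((mem q).1 hq).1 _ ((mem q).1 hq).2).2.1 e)
  · rw [cl, List.map_map, List.map_map]
    intro u hu v hv
    obtain ⟨p, hp, rfl⟩ := List.mem_map.1 hu
    obtain ⟨q, hq, rfl⟩ := List.mem_map.1 hv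
    exact (D _ ((mem p).1 hp).1 _ ((mem p).1 hp).2 _ ((mem q).1 hq).1 _ ((mem q).1 hq).2).2.2
  · refine ⟨fun j => (P N k (j.1 + 1 + j.1 / 2) 0 0 0 : ℝ) - 1 / 2, fun x hx => ?_⟩
    obtain ⟨p, hp, rfl⟩ := List.mem_map.1 hx
    obtain ⟨s, w, u, v⟩ := Q _ ((mem p).1 hp).1 _ ((mem p).1 hp).2
    refine ⟨⟨s - 1 - s / 3, by omega⟩, ?_⟩
    dsimp only
    rw [show s - 1 - s / 3 + 1 + (s - 1 - s / 3) / 2 = s by omega]
    have u' : ((cd N k y z a c p).1 : ℝ) + 1 ≤ P N k s 0 0 0 := by exact_mod_cast u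
    have v' : (P N k s 0 0 0 : ℝ) ≤ (cd N k y z a c p).2 := by exact_mod_cast v
    constructor <;> linarith
  · rintro ⟨f, f1, f2⟩
    have m : ∀ τ < 9, ∀ i < k, cd N k y z a c (τ, i) ∈ cl N k y z a c := fun τ u i v =>
      List.mem_map_of_mem ((mem (τ, i)).2 ⟨u, v⟩)
    exact ⟨fun τ i => f (cd N k y z a c (τ, i)), fun τ u i v => f1 _ (m τ u i v),
      fun τ u i v τ' u' i' v' => f2 _ (m τ u i v) _ (m τ' u' i' v')⟩
  · rintro ⟨f, f1, f2⟩
    have : ∀ x ∈ cl N k y z a c, ∃ p : ℕ × ℕ, (p.1 < 9 ∧ p.2 < k) ∧ cd N k y z a c p = x :=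
      fun x hx => let ⟨p, hp, e⟩ := List.mem_map.1 hx; ⟨p, (mem p).1 hp, e⟩
    choose! r r1 r2 using this
    refine ⟨fun x => f (r x).1 (r x).2, fun x hx => f1 _ (r1 x hx).1 _ (r1 x hx).2,
      fun x hx x' hx' h => f2 _ (r1 x hx).1 _ (r1 x hx).2 _ (r1 x' hx').1 _ (r1 x' hx').2 ?_⟩
    rw [Prod.mk.eta, Prod.mk.eta, r2 x hx, r2 x' hx']; exact h

def rd (φ : F3) : List (ℕ × ℕ) × Bin :=
  (cl (12 * φ.length) (18 * φ.length) yl (zl (pv φ) (sg φ)) xa (xc (sg φ)), Bin.mk (18 * φ.length))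

@[fun_prop] theorem pt_ch {α : Type} [Enc α] {N k τ Y X Z i : α → ℕ} (h1 : PT N) (h2 : PT k)
    (h3 : PT τ) (h4 : PT Y) (h5 : PT X) (h6 : PT Z) (h7 : PT i) :
    PT fun a => ch (N a) (k a) (τ a) (Y a) (X a) (Z a) (i a) := by
  unfold ch P ls lt rs rt ll rl; fun_prop

@[fun_prop] theorem pt_sg {α : Type} [Enc α] {φ : α → F3} {i : α → ℕ} (h1 : PT φ) (h2 : PT i) :
    PT fun a => sg (φ a) (i a) := by unfold sg; fun_prop

@[fun_prop] theorem pt_zl {α : Type} [Enc α] {φ : α → F3} {i : α → ℕ} (h1 : PT φ) (h2 : PT i) :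
    PT fun a => zl (pv (φ a)) (sg (φ a)) (i a) := by unfold zl; fun_prop

@[fun_prop] theorem pt_xc {α : Type} [Enc α] {φ : α → F3} {i : α → ℕ} (h1 : PT φ) (h2 : PT i) :
    PT fun a => xc (sg (φ a)) (i a) := by unfold xc; fun_prop

@[fun_prop] theorem pt_xa {α : Type} [Enc α] {i : α → ℕ} (h2 : PT i) :
    PT fun a => xa (i a) := by unfold xa; fun_prop

theorem pt_rd : PT rd := by
  refine PT.mk ?_ (pt_bin (by fun_prop))
  unfold cl cd
  refine PT.map ?_ (by fun_prop)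
  exact pt_ch (by fun_prop) (by fun_prop) (by fun_prop) (by unfold yl; fun_prop)
    (PT.ite (by fun_prop) (pt_xc (by fun_prop) (by fun_prop)) (by fun_prop))
    (pt_zl (by fun_prop) (by fun_prop)) (by fun_prop)

theorem hard {g : ℕ} (hg : 7 ≤ g) : NPH (fun _ => True) (SegCol g) := by
  refine one3_nph.reduce rd pt_rd fun φ hφ => ⟨trivial, ?_⟩
  have hN : ∀ i < 18 * φ.length, yl i < 12 * φ.length ∧ zl (pv φ) (sg φ) i < 12 * φ.length ∧
      xa i < 12 * φ.length ∧ xc (sg φ) i < 12 * φ.length := fun i hi => by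
    have := (pv_spec (φ := φ) (o := i / 6) (by omega)).1
    refine ⟨by unfold yl; omega, ?_, ?_, ?_⟩
    · unfold zl; split_ifs <;> omega
    · unfold xa; split_ifs <;> omega
    · unfold xc; split_ifs <;> omega
  obtain ⟨a, b, c⟩ := cl_spec hg hN
  rw [one3_tt]
  exact ⟨fun h => ⟨a, b, c.2 (tt_cc hN h)⟩, fun h => cc_tt hN (c.1 h.2.2)⟩

def crB (a b : ℕ × ℕ) : Bool :=
  (decide (a.1 < b.1) && (decide (b.1 < a.2) && decide (a.2 < b.2))) ||
    (decide (b.1 < a.1) && (decide (a.1 < b.2) && decide (b.2 < a.2)))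

theorem crB_iff {a b} : crB a b = true ↔ Cross a b := by simp [crB, Cross]

theorem inNP (g : ℕ) : InNP (lang (SegCol g)) := by
  refine inNP_lang (fun a (w : List ℕ × List ℕ × ℕ) =>
    a.1.all (fun c => decide (c.1 < c.2)) &&
    decide ((a.1.map (fun c => c.1) ++ a.1.map (fun c => c.2)).Nodup) &&
    decide (w.1.length = g - 1) &&
    a.1.all (fun c => w.1.any fun e => decide (c.1 ≤ e) && decide (e < c.2)) &&
    a.1.all (fun c => decide (w.2.1.getD (a.1.idxOf c) 0 < w.2.2)) &&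
    a.1.all (fun c => a.1.all fun d => !crB c d ||
      decide (w.2.1.getD (a.1.idxOf c) 0 ≠ w.2.1.getD (a.1.idxOf d) 0)) &&
    decide ((Bin.mk w.2.2).val ≤ a.2.val))
    (PT.and (PT.and (PT.and (PT.and (PT.and (PT.and (by fun_prop) (by fun_prop))
      (by fun_prop)) (by fun_prop)) (by fun_prop)) (by unfold crB; fun_prop))
      (pt_ble (by fun_prop) (by fun_prop)))
    (B := fun a => 5 * ((g + a.1.length) * (2 * ((a.1.map fun c => c.2).sum + a.1.length + 1) + 1)) +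
      5 * a.1.length + 5)
    ((PT.pb (f := fun a : List (ℕ × ℕ) × Bin => 5 * ((g + a.1.length) *
      (2 * ((a.1.map fun c => c.2).sum + a.1.length + 1) + 1)) + 5 * a.1.length + 5)
      (by fun_prop)).mono fun a => by simp) ?_ ?_
  · rintro ⟨C, k⟩ ⟨⟨h1, h2⟩, ⟨e, he⟩, h3⟩
    obtain ⟨f, f1, f2⟩ : Col C (min k.val C.length) := by
      rcases le_total k.val C.length with h | h
      · rw [min_eq_left h]; exact h3
      · rw [min_eq_right h]
        refine ⟨fun c => C.idxOf c, fun c hc => List.idxOf_lt_length_of_mem hc,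
          fun a ha b hb x y => ?_⟩
        obtain rfl := (List.idxOf_inj ha).1 y
        unfold Cross at x; omega
    have gd : ∀ c ∈ C, (C.map f).getD (C.idxOf c) 0 = f c := fun c hc => by
      have := List.idxOf_lt_length_of_mem hc
      simp [List.getD_eq_getElem?_getD, this]
    refine ⟨(List.ofFn fun i => min ⌊e i⌋₊ (C.map fun c => c.2).sum, C.map f, min k.val C.length),
      ?_, ?_⟩
    · have s1 := sz_le_of_forall (l := List.ofFn fun i => min ⌊e i⌋₊ (C.map fun c => c.2).sum)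
        (B := (C.map fun c => c.2).sum + C.length + 1) fun x hx => by
          obtain ⟨i, rfl⟩ := List.mem_ofFn.1 hx
          simp only [sz_nat]; omega
      have s2 := sz_le_of_forall (l := C.map f) (B := (C.map fun c => c.2).sum + C.length + 1)
        fun x hx => by
          obtain ⟨v, hv, rfl⟩ := List.mem_map.1 hx
          have := f1 v hv; simp only [sz_nat]; omega
      simp only [List.length_map, List.length_ofFn] at s1 s2
      have s3 := Nat.mul_le_mul_right (2 * ((C.map fun c => c.2).sum + C.length + 1) + 1)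
        (show g - 1 ≤ g + C.length by omega)
      have s4 := Nat.mul_le_mul_right (2 * ((C.map fun c => c.2).sum + C.length + 1) + 1)
        (show C.length ≤ g + C.length by omega)
      simp only [sz_prod, sz_nat]; omega
    · simp only [Bool.and_eq_true, List.all_eq_true, decide_eq_true_eq, Bool.or_eq_true,
        List.any_eq_true, Bool.not_eq_true']
      refine ⟨⟨⟨⟨⟨⟨h1, h2⟩, by simp⟩, fun c hc => ?_⟩, fun c hc => ?_⟩, fun c hc d hd => ?_⟩,
        min_le_left _ _⟩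
      · obtain ⟨i, u, v⟩ := he c hc
        have e0 : 0 ≤ e i := (Nat.cast_nonneg _).trans u.le
        have a1 := Nat.le_floor u.le
        have a2 := (Nat.floor_lt e0).2 v
        have a3 : c.2 ≤ (C.map fun c => c.2).sum := List.le_sum_of_mem (List.mem_map_of_mem hc)
        exact ⟨_, List.mem_ofFn.2 ⟨i, rfl⟩, by omega, by omega⟩
      · rw [gd c hc]; exact f1 c hc
      · rw [gd c hc, gd d hd]
        cases x : crB c d
        · exact Or.inl rfl
        · exact Or.inr (f2 c hc d hd (crB_iff.1 x))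
  · rintro ⟨C, k⟩ ⟨E, f, K⟩ h
    simp only [Bool.and_eq_true, List.all_eq_true, decide_eq_true_eq, Bool.or_eq_true,
      List.any_eq_true, Bool.not_eq_true'] at h
    obtain ⟨⟨⟨⟨⟨⟨h1, h2⟩, h3⟩, h4⟩, h5⟩, h6⟩, h7⟩ := h
    refine ⟨⟨h1, h2⟩, ⟨fun i => (E.getD i 0 : ℝ) + 1 / 2, fun c hc => ?_⟩,
      fun c => f.getD (C.idxOf c) 0, fun c hc => (h5 c hc).trans_le h7, fun c hc d hd x => ?_⟩
    · obtain ⟨e, he, u, v⟩ := h4 c hc
      obtain ⟨i, hi, rfl⟩ := List.getElem_of_mem he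
      refine ⟨⟨i, h3 ▸ hi⟩, ?_⟩
      dsimp only
      rw [List.getD_eq_getElem _ _ hi]
      have u' : (c.1 : ℝ) ≤ E[i] := by exact_mod_cast u
      have v' : (E[i] : ℝ) + 1 ≤ c.2 := by exact_mod_cast v
      constructor <;> linarith
    · exact (h6 c hc d hd).resolve_left (by rw [crB_iff.2 x]; simp)

theorem npc {g : ℕ} (hg : 7 ≤ g) : NPComplete (lang (SegCol g)) :=
  ⟨inNP g, (hard hg).npHard fun _ _ => Iff.rfl⟩

end Pool.Agent.H30.Sg
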