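import Pool.Agent.H30.SgC

/-!
Three families of nested chords suffice.
-/

namespace Pool.Agent.H30.Sg

open Finset Pool.Agent.H30.Uc.It

theorem fib {k : ℕ} (f g : ℕ → ℕ × ℕ)
    (h : ∀ x, ((range k).filter (f · = x)).card = ((range k).filter (g · = x)).card) :
    ∃ σ : ℕ → ℕ, (∀ i < k, σ i < k ∧ g (σ i) = f i) ∧ ∀ i < k, ∀ j < k, σ i = σ j → i = j := by
  have e : ∀ x, ∃ s : ℕ → ℕ, (∀ i < k, f i = x → s i < k ∧ g (s i) = x) ∧
      ∀ i < k, ∀ j < k, f i = x → f j = x → s i = s j → i = j := fun x => by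
    obtain ⟨s, a, b⟩ := Set.Finite.exists_injOn_of_encard_le
      (t := (((range k).filter (g · = x) : Finset ℕ) : Set ℕ))
      (finite_toSet ((range k).filter (f · = x)))
      (by rw [Set.encard_coe_eq_coe_finsetCard, Set.encard_coe_eq_coe_finsetCard, h x])
    exact ⟨s, fun i hi e => by simpa using a (show i ∈ _ by simp [hi, e]),
      fun i hi j hj u v => b (by simp [hi, u]) (by simp [hj, v])⟩
  choose s s1 s2 using e
  refine ⟨fun i => s (f i) i, fun i hi => s1 _ i hi rfl, fun i hi j hj e => ?_⟩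
  have : f i = f j := by rw [← (s1 _ i hi rfl).2, ← (s1 _ j hj rfl).2]; exact congrArg g e
  exact s2 (f j) i hi j hj this rfl (by dsimp only at e; rw [this] at e; exact e)

theorem heads {k : ℕ} (tp q : ℕ → ℕ) (f : ℕ → ℕ → ℕ) (f1 : ∀ i < k, ∀ d ≤ tp i, f i d < k)
    (f2 : ∀ i < k, ∀ j < k, ∀ d, d ≤ tp i → d ≤ tp j → f i d = f j d → i = j)
    (f3 : ∀ i < k, ∀ j < k, ∀ d, d ≤ tp i → d + 1 ≤ tp j → f i d = f j (d + 1) → q i = q j) :
    ∃ hd l : ℕ → ℕ, (∀ γ < k, hd γ < k ∧ l γ ≤ tp (hd γ) ∧ f (hd γ) (l γ) = γ) ∧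
      ∑ i ∈ range k, tp i ≤ ∑ γ ∈ range k, l γ ∧ (∑ γ ∈ range k, l γ ≤ ∑ i ∈ range k, tp i →
      ∃ σ : ℕ → ℕ, (∀ γ < k, σ γ < k ∧ q (σ γ) = q (hd γ) ∧ tp (σ γ) = l γ) ∧
        ∀ i < k, ∀ j < k, σ i = σ j → i = j) := by
  classical
  have ex : ∀ γ < k, ∃ i d, (i < k ∧ d ≤ tp i ∧ f i d = γ) ∧
      ∀ j < k, ∀ e ≤ tp j, f j e = γ → e ≤ d := fun γ hγ => by
    obtain ⟨i, a, b⟩ := surj (f := fun i => f i 0) (fun i hi => f1 i hi 0 (by omega))
      (fun i hi j hj => f2 i hi j hj 0 (by omega) (by omega)) γ hγ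
    obtain ⟨⟨j, e⟩, u, v⟩ := exists_max_image (((range k).sigma fun i => range (tp i + 1)).filter
      fun x => f x.1 x.2 = γ) (fun x => x.2) ⟨⟨i, 0⟩, by simp [a, b]⟩
    refine ⟨j, e, by simpa [Nat.lt_succ_iff, and_assoc] using u, fun j' p e' r s => ?_⟩
    exact v ⟨j', e'⟩ (by simp [p, s, Nat.lt_succ_iff, r])
  choose! hd l h1 h2 using ex
  let F : (Σ _ : ℕ, ℕ) → Σ _ : ℕ, ℕ := fun x => ⟨f x.1 x.2, x.2⟩
  have m1 : ∀ x ∈ (range k).sigma fun i => range (tp i + 1),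
      F x ∈ (range k).sigma fun γ => range (l γ + 1) := fun ⟨i, d⟩ hx => by
    simp only [mem_sigma, mem_range, Nat.lt_succ_iff] at hx ⊢
    exact ⟨f1 i hx.1 d hx.2, h2 _ (f1 i hx.1 d hx.2) i hx.1 d hx.2 rfl⟩
  have m2 : Set.InjOn F ((range k).sigma fun i => range (tp i + 1) : Finset _) := by
    rintro ⟨i, d⟩ hx ⟨j, e⟩ hy h
    simp only [coe_sigma, Set.mem_sigma_iff, mem_coe, mem_range, Nat.lt_succ_iff] at hx hy
    simp only [F, Sigma.mk.injEq, heq_eq_eq] at h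
    obtain ⟨h, rfl⟩ := h
    rw [f2 i hx.1 j hy.1 d hx.2 hy.2 h]
  have c := card_le_card_of_injOn F m1 m2
  simp only [card_sigma, card_range, sum_add_distrib] at c
  refine ⟨hd, l, h1, by omega, fun hl => ?_⟩
  have sj : ∀ γ < k, ∀ d ≤ l γ, ∃ i < k, d ≤ tp i ∧ f i d = γ := fun γ hγ d hd => by
    obtain ⟨⟨i, e⟩, a, b⟩ := surjOn_of_injOn_of_card_le F m1 m2
      (by simp only [card_sigma, card_range, sum_add_distrib]; omega)
      (show (⟨γ, d⟩ : Σ _ : ℕ, ℕ) ∈ _ by simp [hγ, Nat.lt_succ_iff, hd])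
    simp only [coe_sigma, Set.mem_sigma_iff, mem_coe, mem_range, Nat.lt_succ_iff] at a
    simp only [F, Sigma.mk.injEq, heq_eq_eq] at b
    obtain ⟨b, rfl⟩ := b
    exact ⟨i, a.1, a.2, b⟩
  have qq : ∀ γ < k, ∀ t d, d + t = l γ → ∀ i < k, d ≤ tp i → f i d = γ → q i = q (hd γ) := by
    intro γ hγ t
    induction t with
    | zero =>
      intro d e i hi a b
      obtain rfl : d = l γ := e
      rw [f2 i hi _ (h1 γ hγ).1 _ a (h1 γ hγ).2.1 (b.trans (h1 γ hγ).2.2.symm)]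
    | succ t ih =>
      intro d e i hi a b
      obtain ⟨j, u, v, w⟩ := sj γ hγ (d + 1) (by omega)
      rw [f3 i hi j u d a v (b.trans w.symm), ih (d + 1) (by omega) j u v w]
  have ct : ∀ b d, ((range k).filter fun i => q i = b ∧ d ≤ tp i).card =
      ((range k).filter fun γ => q (hd γ) = b ∧ d ≤ l γ).card := fun b d => by
    refine card_nbij (fun i => f i d) (fun i hi => ?_) (fun i hi j hj => ?_) fun γ hγ => ?_
    · simp only [coe_filter, mem_range, Set.mem_setOf_eq] at hi ⊢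
      have a := f1 i hi.1 d hi.2.2
      have b := h2 _ a i hi.1 d hi.2.2 rfl
      exact ⟨a, by rw [← qq _ a (l (f i d) - d) d (by omega) i hi.1 hi.2.2 rfl]; exact hi.2.1, b⟩
    · simp only [coe_filter, mem_range, Set.mem_setOf_eq] at hi hj
      exact f2 i hi.1 j hj.1 d hi.2.2 hj.2.2
    · simp only [coe_filter, mem_range, Set.mem_setOf_eq] at hγ
      obtain ⟨i, u, v, w⟩ := sj γ hγ.1 d hγ.2.2
      exact ⟨i, by simpa using ⟨u, by
        rw [qq γ hγ.1 (l γ - d) d (by omega) i u v w]; exact hγ.2.1, v⟩, w⟩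
  have sp : ∀ (u v : ℕ → ℕ) b d, ((range k).filter fun i => u i = b ∧ d ≤ v i).card =
      ((range k).filter fun i => (u i, v i) = (b, d)).card +
      ((range k).filter fun i => u i = b ∧ d + 1 ≤ v i).card := fun u v b d => by
    simp only [card_filter, ← sum_add_distrib, Prod.mk.injEq]
    exact sum_congr rfl fun i _ => by split_ifs <;> omega
  obtain ⟨σ, a, b⟩ := fib (k := k) (fun γ => (q (hd γ), l γ)) (fun i => (q i, tp i)) fun ⟨b, d⟩ => by
    have e1 := ct b d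
    have e2 := ct b (d + 1)
    have e3 := sp q tp b d
    have e4 := sp (fun γ => q (hd γ)) l b d
    omega
  exact ⟨σ, fun γ hγ => ⟨(a γ hγ).1, by simpa using (a γ hγ).2⟩, b⟩

def Q (N k s b t i : ℕ) : ℕ := ((s * (4 * N + 1) + b) * (4 * N + 2) + t) * k + i

theorem Q_lt {N k s l t i s' l' t' i'} (h1 : l < 4 * N + 1) (h2 : l' < 4 * N + 1) (h3 : t < 4 * N + 2)
    (h4 : t' < 4 * N + 2) (h5 : i < k) (h6 : i' < k) : Q N k s l t i < Q N k s' l' t' i' ↔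
    s < s' ∨ (s = s' ∧ (l < l' ∨ (l = l' ∧ (t < t' ∨ (t = t' ∧ i < i'))))) := by
  have a := lx (a := s) (b := s') h1 h2
  have b := lx (a := s') (b := s) h2 h1
  have c := lx (a := s * (4 * N + 1) + l) (b := s' * (4 * N + 1) + l') h3 h4
  have d := lx (a := s' * (4 * N + 1) + l') (b := s * (4 * N + 1) + l) h4 h3
  rw [Q, Q, lx h5 h6]
  omega

def c3 (N k τ q d i : ℕ) : ℕ × ℕ :=
  if τ = 2 then (Q N k 0 (2 * q) d i, Q N k 2 (2 * q + 2 * N - d) (4 * N + 1) i)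
  else (Q N k τ (2 * q + 2 * N - d) (4 * N + 1) i, Q N k (τ + 1) (2 * q) d i)

section
variable {N k τ q d i τ' q' d' i' : ℕ} (h : τ < 3) (hq : q < N) (hd : d ≤ 2 * q + 2 * N) (hi : i < k)
  (h' : τ' < 3) (hq' : q' < N) (hd' : d' ≤ 2 * q' + 2 * N) (hi' : i' < k)
include h hq hd hi h' hq' hd' hi'

theorem c3_iff : Cross (c3 N k τ q d i) (c3 N k τ' q' d' i') ↔
    if τ = τ' then ((2 * q + d' < 2 * q' + d ∨ (2 * q + d' = 2 * q' + d ∧ i < i')) ∧
      (q < q' ∨ (q = q' ∧ (d < d' ∨ (d = d' ∧ i < i'))))) ∨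
      ((2 * q' + d < 2 * q + d' ∨ (2 * q + d' = 2 * q' + d ∧ i' < i)) ∧
      (q' < q ∨ (q = q' ∧ (d' < d ∨ (d = d' ∧ i' < i))))) else
    if τ = (τ' + 1) % 3 then 2 * q + 2 * N < 2 * q' + d else 2 * q' + 2 * N < 2 * q + d' := by
  have a1 : 2 * q < 4 * N + 1 := by omega
  have a2 : 2 * q' < 4 * N + 1 := by omega
  have a3 : 2 * q + 2 * N - d < 4 * N + 1 := by omega
  have a4 : 2 * q' + 2 * N - d' < 4 * N + 1 := by omega
  have a5 : d < 4 * N + 2 := by omega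
  have a6 : d' < 4 * N + 2 := by omega
  have a7 : 4 * N + 1 < 4 * N + 2 := by omega
  interval_cases τ <;> interval_cases τ' <;>
    simp [Cross, c3, Q_lt a1, Q_lt a2, Q_lt a3, Q_lt a4, a1, a2, a3, a4, a5, a6, a7, hi, hi'] <;> omega

theorem c3_ds : ((c3 N k τ q d i).1 = (c3 N k τ' q' d' i').1 → τ = τ' ∧ i = i' ∧ (q = q' → d = d')) ∧
    ((c3 N k τ q d i).2 = (c3 N k τ' q' d' i').2 → τ = τ' ∧ i = i' ∧ (q = q' → d = d')) ∧
    (c3 N k τ q d i).1 ≠ (c3 N k τ' q' d' i').2 := by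
  have k : ∀ {s l t s' l' t'}, l < 4 * N + 1 → l' < 4 * N + 1 → t < 4 * N + 2 → t' < 4 * N + 2 →
      Q N k s l t i = Q N k s' l' t' i' → s = s' ∧ l = l' ∧ t = t' ∧ i = i' :=
    fun {s l t s' l' t'} h1 h2 h3 h4 e => by
      have a := (Q_lt (s := s) (s' := s') h1 h2 h3 h4 hi hi').not.1 (by omega)
      have b := (Q_lt (s := s') (s' := s) h2 h1 h4 h3 hi' hi).not.1 (by omega)
      omega
  unfold c3
  split_ifs <;> refine ⟨fun e => ?_, fun e => ?_, fun e => ?_⟩ <;>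
    have := k (by omega) (by omega) (by omega) (by omega) e <;> omega

omit h' hq' hd' hi' in
theorem c3_pc : ∃ s, (s = 1 ∨ s = 2) ∧
    (c3 N k τ q d i).1 < Q N k s 0 0 0 ∧ Q N k s 0 0 0 ≤ (c3 N k τ q d i).2 := by
  refine ⟨if τ = 0 then 1 else 2, by split_ifs <;> omega, ?_⟩
  unfold c3
  split_ifs <;> dsimp only <;> rw [← not_lt, Q_lt (by omega) (by omega) (by omega) (by omega)
    (by omega) (by omega), Q_lt (by omega) (by omega) (by omega) (by omega) (by omega) (by omega)] <;>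
    omega

end

end Pool.Agent.H30.Sg
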