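import Pool.Agent.H38.NP.Defs

/-!
Colouring g-segment chord sets.
-/

namespace Pool.Agent.H30.Sg

open Pool.Agent.H38.NP

/-- Two chords (left endpoint, right endpoint) intersect. -/
def Cross (a b : ℕ × ℕ) : Prop :=
  (a.1 < b.1 ∧ b.1 < a.2 ∧ a.2 < b.2) ∨ (b.1 < a.1 ∧ a.1 < b.2 ∧ b.2 < a.2)

/-- A chord set: left endpoints precede right endpoints, and all endpoints are distinct. -/
def ChordSet (C : List (ℕ × ℕ)) : Prop :=
  (∀ c ∈ C, c.1 < c.2) ∧ (C.map Prod.fst ++ C.map Prod.snd).Nodup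

/-- `C` is a `g`-segment graph: `g - 1` reals pierce all chords. -/
def Seg (g : ℕ) (C : List (ℕ × ℕ)) : Prop :=
  ∃ e : Fin (g - 1) → ℝ, ∀ c ∈ C, ∃ i, (c.1 : ℝ) < e i ∧ e i < c.2

/-- `C` has a colouring with `k` colours. -/
def Col (C : List (ℕ × ℕ)) (k : ℕ) : Prop :=
  ∃ f : ℕ × ℕ → ℕ, (∀ c ∈ C, f c < k) ∧ ∀ a ∈ C, ∀ b ∈ C, Cross a b → f a ≠ f b

/-- The yes-instances of the colouring problem for `g`-segment graphs. -/
def SegCol (g : ℕ) (a : List (ℕ × ℕ) × Bin) : Prop :=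
  ChordSet a.1 ∧ Seg g a.1 ∧ Col a.1 a.2.val

end Pool.Agent.H30.Sg
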