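import Pool.Agent.H30.SgD

/-!
Colouring g-segment graphs is NP-complete for every fixed g at least three.
-/

namespace Pool.Agent.H30.Sg

open Finset Pool.Agent.H38.NP Pool.Agent.H38.ER Pool.Agent.Lead.Ham Pool.Agent.H30.Uc.It

def qq (y z a : ℕ → ℕ) (τ i : ℕ) : ℕ := if τ = 0 then a i else if τ = 1 then z i else y i

def tp (N : ℕ) (y z a c : ℕ → ℕ) (τ i : ℕ) : ℕ :=
  2 * qq y z a τ i + 2 * N - 2 * (if τ = 0 then y i else if τ = 1 then c i else z i)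

def ix (N k : ℕ) (y z a c : ℕ → ℕ) : List (ℕ × ℕ × ℕ) :=
  ((List.range 3).product ((List.range k).product (List.range (4 * N + 1)))).filter fun p =>
    decide (p.2.2 ≤ tp N y z a c p.1 p.2.1)

def cf (N k : ℕ) (y z a : ℕ → ℕ) (p : ℕ × ℕ × ℕ) : ℕ × ℕ :=
  c3 N k p.1 (qq y z a p.1 p.2.1) p.2.2 p.2.1

def C3 (N k : ℕ) (y z a c : ℕ → ℕ) : Prop :=
  ∃ f : ℕ → ℕ → ℕ → ℕ, (∀ τ < 3, ∀ i < k, ∀ d ≤ tp N y z a c τ i, f τ i d < k) ∧
    ∀ τ < 3, ∀ i < k, ∀ d ≤ tp N y z a c τ i, ∀ τ' < 3, ∀ i' < k, ∀ d' ≤ tp N y z a c τ' i',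
      Cross (cf N k y z a (τ, i, d)) (cf N k y z a (τ', i', d')) → f τ i d ≠ f τ' i' d'

section
variable {N k : ℕ} {y z a c : ℕ → ℕ} (hN : ∀ i < k, y i < N ∧ z i < N ∧ a i < N ∧ c i < N)
include hN

theorem qb (τ i) (hi : i < k) : qq y z a τ i < N := by
  have := hN i hi; unfold qq; split_ifs <;> omega

theorem cf_iff {τ i d τ' i' d'} (h : τ < 3) (hi : i < k) (hd : d ≤ tp N y z a c τ i) (h' : τ' < 3)
    (hi' : i' < k) (hd' : d' ≤ tp N y z a c τ' i') {q q'} (e : qq y z a τ i = q)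
    (e' : qq y z a τ' i' = q') : Cross (cf N k y z a (τ, i, d)) (cf N k y z a (τ', i', d')) ↔
    if τ = τ' then ((2 * q + d' < 2 * q' + d ∨ (2 * q + d' = 2 * q' + d ∧ i < i')) ∧
      (q < q' ∨ (q = q' ∧ (d < d' ∨ (d = d' ∧ i < i'))))) ∨
      ((2 * q' + d < 2 * q + d' ∨ (2 * q + d' = 2 * q' + d ∧ i' < i)) ∧
      (q' < q ∨ (q = q' ∧ (d' < d ∨ (d = d' ∧ i' < i))))) else
    if τ = (τ' + 1) % 3 then 2 * q + 2 * N < 2 * q' + d else 2 * q' + 2 * N < 2 * q + d' := by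
  subst e e'
  exact c3_iff h (qb hN τ i hi) (hd.trans (Nat.sub_le _ _)) hi h' (qb hN τ' i' hi')
    (hd'.trans (Nat.sub_le _ _)) hi'

theorem tt_c3 (h : TT k y z a c) : C3 N k y z a c := by
  obtain ⟨φ, ψ, h1, h2, h3⟩ := h
  choose! φ' p1 p2 using surj (fun i hi => (h1 i hi).1) h2
  choose! ψ' q1 q2 using surj (fun i hi => (h1 i hi).2.1) h3
  refine ⟨fun τ i _ => if τ = 0 then φ' i else if τ = 1 then ψ' i else i,
    fun τ _ i hi _ _ => ?_, fun τ ht i hi d hd τ' ht' i' hi' d' hd' x e => ?_⟩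
  · have := p1 i hi
    have := q1 i hi
    dsimp only; split_ifs <;> omega
  rw [cf_iff hN ht hi hd ht' hi' hd' rfl rfl] at x
  have key : ∀ τ, ∀ i < k, ∀ γ, (if τ = 0 then φ' i else if τ = 1 then ψ' i else i) = γ →
      γ < k ∧ i = if τ = 0 then φ γ else if τ = 1 then ψ γ else γ := by
    intro τ i hi γ e
    split_ifs at e ⊢ with u v
    · exact ⟨e ▸ p1 i hi, e ▸ (p2 i hi).symm⟩
    · exact ⟨e ▸ q1 i hi, e ▸ (q2 i hi).symm⟩
    · exact ⟨e ▸ hi, e⟩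
  dsimp only at e
  generalize hγ : (if τ' = 0 then φ' i' else if τ' = 1 then ψ' i' else i') = γ at e
  obtain ⟨g, a4⟩ := key τ i hi γ e
  obtain ⟨-, b4⟩ := key τ' i' hi' γ hγ
  obtain ⟨n1, n2, n3, n4, n5⟩ := h1 γ g
  have m1 := hN _ n1
  have m2 := hN _ n2
  have m3 := hN _ g
  clear e hγ hi hi'
  interval_cases τ <;> interval_cases τ' <;> simp only [tp, qq] at x hd hd' <;>
    norm_num at x hd hd' a4 b4 <;> subst a4 b4 <;> omega

theorem c3_tt (hs : ∑ i ∈ range k, c i ≤ ∑ i ∈ range k, a i) (h : C3 N k y z a c) :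
    TT k y z a c := by
  obtain ⟨f, f1, f2⟩ := h
  have H := fun τ (ht : τ < 3) => heads (tp N y z a c τ) (qq y z a τ) (f τ) (f1 τ ht)
    (fun i hi j hj d u v e => by
      by_contra n
      refine f2 τ ht i hi d u τ ht j hj d v ((cf_iff hN ht hi u ht hj v rfl rfl).2 ?_) e
      rw [if_pos rfl]; omega)
    (fun i hi j hj d u v e => by
      by_contra n
      refine f2 τ ht i hi d u τ ht j hj _ v ((cf_iff hN ht hi u ht hj v rfl rfl).2 ?_) e
      rw [if_pos rfl]; omega)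
  obtain ⟨h0, l0, a0, b0, c0⟩ := H 0 (by omega)
  obtain ⟨h1, l1, a1, b1, c1⟩ := H 1 (by omega)
  obtain ⟨h2, l2, a2, b2, c2⟩ := H 2 (by omega)
  have e0 : ∀ γ ∈ range k, l0 γ + 2 * y (h2 γ) ≤ 2 * a (h0 γ) + 2 * N := fun γ hγ => by
    obtain ⟨u1, u2, u3⟩ := a0 γ (mem_range.1 hγ)
    obtain ⟨v1, v2, v3⟩ := a2 γ (mem_range.1 hγ)
    have := mt (cf_iff hN (by omega) u1 u2 (by omega) v1 v2 rfl rfl).2
      fun x => f2 0 (by omega) _ u1 _ u2 2 (by omega) _ v1 _ v2 x (u3.trans v3.symm)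
    simp [qq] at this; omega
  have e1 : ∀ γ ∈ range k, l1 γ + 2 * a (h0 γ) ≤ 2 * z (h1 γ) + 2 * N := fun γ hγ => by
    obtain ⟨u1, u2, u3⟩ := a1 γ (mem_range.1 hγ)
    obtain ⟨v1, v2, v3⟩ := a0 γ (mem_range.1 hγ)
    have := mt (cf_iff hN (by omega) u1 u2 (by omega) v1 v2 rfl rfl).2
      fun x => f2 1 (by omega) _ u1 _ u2 0 (by omega) _ v1 _ v2 x (u3.trans v3.symm)
    simp [qq] at this; omega
  have e2 : ∀ γ ∈ range k, l2 γ + 2 * z (h1 γ) ≤ 2 * y (h2 γ) + 2 * N := fun γ hγ => by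
    obtain ⟨u1, u2, u3⟩ := a2 γ (mem_range.1 hγ)
    obtain ⟨v1, v2, v3⟩ := a1 γ (mem_range.1 hγ)
    have := mt (cf_iff hN (by omega) u1 u2 (by omega) v1 v2 rfl rfl).2
      fun x => f2 2 (by omega) _ u1 _ u2 1 (by omega) _ v1 _ v2 x (u3.trans v3.symm)
    simp [qq] at this; omega
  have t0 : ∀ i < k, tp N y z a c 0 i + 2 * y i = 2 * a i + 2 * N := fun i hi => by
    have := hN i hi; simp [tp, qq]; omega
  have t1 : ∀ i < k, tp N y z a c 1 i + 2 * c i = 2 * z i + 2 * N := fun i hi => by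
    have := hN i hi; simp [tp, qq]; omega
  have t2 : ∀ i < k, tp N y z a c 2 i + 2 * z i = 2 * y i + 2 * N := fun i hi => by
    have := hN i hi; simp [tp, qq]; omega
  have s0 := sum_congr rfl fun i (hi : i ∈ range k) => t0 i (mem_range.1 hi)
  have s1 := sum_congr rfl fun i (hi : i ∈ range k) => t1 i (mem_range.1 hi)
  have s2 := sum_congr rfl fun i (hi : i ∈ range k) => t2 i (mem_range.1 hi)
  have r0 := sum_le_sum e0
  have r1 := sum_le_sum e1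
  have r2 := sum_le_sum e2
  have w0 := (sum_eq_sum_iff_of_le e0).1
  have w1 := (sum_eq_sum_iff_of_le e1).1
  have w2 := (sum_eq_sum_iff_of_le e2).1
  simp only [sum_add_distrib, ← mul_sum] at s0 s1 s2 r0 r1 r2 w0 w1 w2
  have w0 := w0 (by omega)
  have w1 := w1 (by omega)
  have w2 := w2 (by omega)
  obtain ⟨σ0, x0, y0⟩ := c0 (by omega)
  obtain ⟨σ1, x1, y1⟩ := c1 (by omega)
  obtain ⟨σ2, x2, y2⟩ := c2 (by omega)
  choose! r g1 g2 using surj (fun i hi => (x2 i hi).1) y2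
  have ri : ∀ i < k, ∀ j < k, r i = r j → i = j := fun i hi j hj e => by
    rw [← g2 i hi, e, g2 j hj]
  refine ⟨fun i => σ0 (r i), fun i => σ1 (r i), fun i hi => ?_,
    fun i hi j hj e => ri i hi j hj (y0 _ (g1 i hi) _ (g1 j hj) e),
    fun i hi j hj e => ri i hi j hj (y1 _ (g1 i hi) _ (g1 j hj) e)⟩
  have g := g1 i hi
  obtain ⟨u0, v0, z0⟩ := x0 _ g
  obtain ⟨u1, v1, z1⟩ := x1 _ g
  obtain ⟨u2, v2, z2⟩ := x2 _ g
  have k0 := t0 _ u0
  have k1 := t1 _ u1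
  have k2 := t2 _ u2
  have j0 := w0 _ (mem_range.2 g)
  have j1 := w1 _ (mem_range.2 g)
  have j2 := w2 _ (mem_range.2 g)
  rw [g2 i hi] at v2 z2 k2
  simp [qq] at v0 v1 v2
  dsimp only
  omega

theorem cl3_spec {g : ℕ} (hg : 3 ≤ g) :
    ChordSet ((ix N k y z a c).map (cf N k y z a)) ∧ Seg g ((ix N k y z a c).map (cf N k y z a)) ∧
      (Col ((ix N k y z a c).map (cf N k y z a)) k ↔ C3 N k y z a c) := by
  have mem : ∀ p : ℕ × ℕ × ℕ, p ∈ ix N k y z a c ↔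
      p.1 < 3 ∧ p.2.1 < k ∧ p.2.2 ≤ tp N y z a c p.1 p.2.1 := fun ⟨τ, i, d⟩ => by
    simp only [ix, List.mem_filter, List.pair_mem_product, List.mem_range, decide_eq_true_eq]
    refine ⟨fun h => ⟨h.1.1, h.1.2.1, h.2⟩, fun h => ⟨⟨h.1, h.2.1, ?_⟩, h.2.2⟩⟩
    have := qb hN τ i h.2.1
    have := h.2.2
    unfold tp at this; omega
  have D := fun p (hp : p ∈ ix N k y z a c) q (hq : q ∈ ix N k y z a c) =>
    c3_ds ((mem p).1 hp).1 (qb hN p.1 _ ((mem p).1 hp).2.1) (((mem p).1 hp).2.2.trans (Nat.sub_le _ _))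
      ((mem p).1 hp).2.1 ((mem q).1 hq).1 (qb hN q.1 _ ((mem q).1 hq).2.1)
      (((mem q).1 hq).2.2.trans (Nat.sub_le _ _)) ((mem q).1 hq).2.1
  have Q' := fun p (hp : p ∈ ix N k y z a c) => c3_pc ((mem p).1 hp).1
    (qb hN p.1 _ ((mem p).1 hp).2.1) (((mem p).1 hp).2.2.trans (Nat.sub_le _ _)) ((mem p).1 hp).2.1
  have nd : (ix N k y z a c).Nodup :=
    (List.nodup_range.product (List.nodup_range.product List.nodup_range)).filter _
  have ee : ∀ p q : ℕ × ℕ × ℕ, p.1 = q.1 ∧ p.2.1 = q.2.1 ∧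
      (qq y z a p.1 p.2.1 = qq y z a q.1 q.2.1 → p.2.2 = q.2.2) → p = q := fun p q h =>
    Prod.ext h.1 (Prod.ext h.2.1 (h.2.2 (by rw [h.1, h.2.1])))
  refine ⟨⟨fun x hx => ?_, List.nodup_append.2 ⟨?_, ?_, ?_⟩⟩, ?_, ?_, ?_⟩
  · obtain ⟨p, hp, rfl⟩ := List.mem_map.1 hx
    obtain ⟨s, -, u, v⟩ := Q' p hp
    exact u.trans_le v
  · rw [List.map_map]
    exact nd.map_on fun p hp q hq e => ee p q ((D p hp q hq).1 e)
  · rw [List.map_map]
    exact nd.map_on fun p hp q hq e => ee p q ((D p hp q hq).2.1 e)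
  · rw [List.map_map, List.map_map]
    intro u hu v hv
    obtain ⟨p, hp, rfl⟩ := List.mem_map.1 hu
    obtain ⟨q, hq, rfl⟩ := List.mem_map.1 hv
    exact (D p hp q hq).2.2
  · refine ⟨fun j => (Q N k (j.1 + 1) 0 0 0 : ℝ) - 1 / 2, fun x hx => ?_⟩
    obtain ⟨p, hp, rfl⟩ := List.mem_map.1 hx
    obtain ⟨s, w, u, v⟩ := Q' p hp
    refine ⟨⟨s - 1, by omega⟩, ?_⟩
    dsimp only
    rw [show s - 1 + 1 = s by omega]
    have u' : ((cf N k y z a p).1 : ℝ) + 1 ≤ Q N k s 0 0 0 := by exact_mod_cast u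
    have v' : (Q N k s 0 0 0 : ℝ) ≤ (cf N k y z a p).2 := by exact_mod_cast v
    constructor <;> linarith
  · rintro ⟨f, f1, f2⟩
    have m : ∀ τ < 3, ∀ i < k, ∀ d ≤ tp N y z a c τ i,
        cf N k y z a (τ, i, d) ∈ (ix N k y z a c).map (cf N k y z a) := fun τ u i v d w =>
      List.mem_map_of_mem ((mem (τ, i, d)).2 ⟨u, v, w⟩)
    exact ⟨fun τ i d => f (cf N k y z a (τ, i, d)), fun τ u i v d w => f1 _ (m τ u i v d w),
      fun τ u i v d w τ' u' i' v' d' w' => f2 _ (m τ u i v d w) _ (m τ' u' i' v' d' w')⟩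
  · rintro ⟨f, f1, f2⟩
    have : ∀ x ∈ (ix N k y z a c).map (cf N k y z a), ∃ p : ℕ × ℕ × ℕ,
        (p.1 < 3 ∧ p.2.1 < k ∧ p.2.2 ≤ tp N y z a c p.1 p.2.1) ∧ cf N k y z a p = x :=
      fun x hx => let ⟨p, hp, e⟩ := List.mem_map.1 hx; ⟨p, (mem p).1 hp, e⟩
    choose! r r1 r2 using this
    refine ⟨fun x => f (r x).1 (r x).2.1 (r x).2.2,
      fun x hx => f1 _ (r1 x hx).1 _ (r1 x hx).2.1 _ (r1 x hx).2.2,
      fun x hx x' hx' h => f2 _ (r1 x hx).1 _ (r1 x hx).2.1 _ (r1 x hx).2.2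
        _ (r1 x' hx').1 _ (r1 x' hx').2.1 _ (r1 x' hx').2.2 ?_⟩
    simp only [Prod.mk.eta]
    rw [r2 x hx, r2 x' hx']; exact h

end

theorem sum6 (f : ℕ → ℕ) (h : ∀ o, f (6 * o) + f (6 * o + 1) + f (6 * o + 2) + f (6 * o + 3) +
    f (6 * o + 4) + f (6 * o + 5) = 6) (n : ℕ) : ∑ i ∈ range (6 * n), f i = 6 * n := by
  induction n with
  | zero => rfl
  | succ n ih =>
    have := h n
    simp only [show 6 * (n + 1) = 6 * n + 1 + 1 + 1 + 1 + 1 + 1 by omega, sum_range_succ, ih,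
      add_assoc, Nat.reduceAdd] at this ⊢
    omega

def rd3 (φ : F3) : List (ℕ × ℕ) × Bin :=
  ((ix (12 * φ.length) (18 * φ.length) yl (zl (pv φ) (sg φ)) xa (xc (sg φ))).map
    (cf (12 * φ.length) (18 * φ.length) yl (zl (pv φ) (sg φ)) xa), Bin.mk (18 * φ.length))

theorem pt_c3 {α : Type} [Enc α] {N k τ q d i : α → ℕ} (h1 : PT N) (h2 : PT k)
    (h3 : PT τ) (h4 : PT q) (h5 : PT d) (h7 : PT i) :
    PT fun a => c3 (N a) (k a) (τ a) (q a) (d a) (i a) := by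
  unfold c3 Q; fun_prop

theorem pt_qq {α : Type} [Enc α] {φ : α → F3} {τ i : α → ℕ} (h1 : PT φ) (h2 : PT τ) (h3 : PT i) :
    PT fun a => qq yl (zl (pv (φ a)) (sg (φ a))) xa (τ a) (i a) :=
  PT.ite (by fun_prop) (pt_xa h3) (PT.ite (by fun_prop) (pt_zl h1 h3) (by unfold yl; fun_prop))

theorem pt_rd3 : PT rd3 := by
  refine PT.mk (PT.map ?_ (PT.filter ?_ (by fun_prop))) (pt_bin (by fun_prop))
  · exact pt_c3 (by fun_prop) (by fun_prop) (by fun_prop)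
      (pt_qq (by fun_prop) (by fun_prop) (by fun_prop)) (by fun_prop) (by fun_prop)
  · exact PT.le (by fun_prop) (PT.sub (PT.add (PT.mul (PT.const 2)
      (pt_qq (by fun_prop) (by fun_prop) (by fun_prop))) (by fun_prop)) (PT.mul (PT.const 2)
      (PT.ite (by fun_prop) (by unfold yl; fun_prop) (PT.ite (by fun_prop)
        (pt_xc (by fun_prop) (by fun_prop)) (pt_zl (by fun_prop) (by fun_prop))))))

theorem hard3 {g : ℕ} (hg : 3 ≤ g) : NPH (fun _ => True) (SegCol g) := by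
  refine one3_nph.reduce rd3 pt_rd3 fun φ hφ => ⟨trivial, ?_⟩
  have hN : ∀ i < 18 * φ.length, yl i < 12 * φ.length ∧ zl (pv φ) (sg φ) i < 12 * φ.length ∧
      xa i < 12 * φ.length ∧ xc (sg φ) i < 12 * φ.length := fun i hi => by
    have := (pv_spec (φ := φ) (o := i / 6) (by omega)).1
    refine ⟨by unfold yl; omega, ?_, ?_, ?_⟩
    · unfold zl; split_ifs <;> omega
    · unfold xa; split_ifs <;> omega
    · unfold xc; split_ifs <;> omega
  have hs : ∑ i ∈ range (18 * φ.length), xc (sg φ) i ≤ ∑ i ∈ range (18 * φ.length), xa i := by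
    rw [show 18 * φ.length = 6 * (3 * φ.length) by omega, sum6, sum6]
    · intro o
      simp [xa, Nat.add_mod, Nat.mul_mod]
    · intro o
      have : sg φ o ≤ 1 := Bool.toNat_le _
      have e : ∀ t < 6, (6 * o + t) / 6 = o ∧ (6 * o + t) % 6 = t ∧ (6 * o + t) % 3 = t % 3 :=
        fun t ht => by omega
      simp only [xc, e 1 (by omega), e 2 (by omega), e 3 (by omega), e 4 (by omega), e 5 (by omega),
        show 6 * o % 3 = 0 by omega]
      norm_num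
      split_ifs <;> omega
  obtain ⟨a, b, c⟩ := cl3_spec hN hg
  rw [one3_tt]
  exact ⟨fun h => ⟨a, b, c.2 (tt_c3 hN h)⟩, fun h => c3_tt hN hs (c.1 h.2.2)⟩

theorem npc3 {g : ℕ} (hg : 3 ≤ g) : NPComplete (lang (SegCol g)) :=
  ⟨inNP g, (hard3 hg).npHard fun _ _ => Iff.rfl⟩

end Pool.Agent.H30.Sg
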