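import Pool.Agent.H30.ShufDefs
import Pool.Agent.H30.MulM

/-! Generic lemmas: shuffles, list descriptions of typed automata, the checking machine. -/

namespace Pool.Agent.H30.Shuf

open Pool.Agent.H30.MulM

theorem Sh.appL (p : List ℕ) {u v w : List ℕ} (h : Sh u v w) : Sh (p ++ u) v (p ++ w) := by
  induction p with
  | nil => exact h
  | cons x p ih => exact ih.left x

theorem Sh.appR (p : List ℕ) {u v w : List ℕ} (h : Sh u v w) : Sh u (p ++ v) (p ++ w) := by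
  induction p with
  | nil => exact h
  | cons x p ih => exact ih.right x

theorem Sh.self (u : List ℕ) : Sh u [] u := by simpa using Sh.nil.appL u

theorem Sh.count {u v w : List ℕ} (h : Sh u v w) (x : ℕ) : w.count x = u.count x + v.count x := by
  induction h with
  | nil => rfl
  | left y _ ih => simp only [List.count_cons, ih]; omega
  | right y _ ih => simp only [List.count_cons, ih]; omega

theorem Sh.mem {u v w : List ℕ} (h : Sh u v w) (x : ℕ) : x ∈ w ↔ x ∈ u ∨ x ∈ v := by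
  simp only [← List.count_pos_iff, h.count x]
  omega

theorem Sh.takeL {u v w : List ℕ} (p : List ℕ) (hv : ∀ y v', v = y :: v' → y ∉ p)
    (h : Sh u v (p ++ w)) : ∃ u', u = p ++ u' ∧ Sh u' v w := by
  induction p generalizing u with
  | nil => exact ⟨u, rfl, h⟩
  | cons x p ih =>
    cases h with
    | left _ h =>
      obtain ⟨u', rfl, h'⟩ := ih (fun y v' e hy => hv y v' e (by simp [hy])) h
      exact ⟨u', rfl, h'⟩
    | right _ h => exact absurd (by simp) (hv x _ rfl)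

theorem Sh.takeR {u v w : List ℕ} (p : List ℕ) (hu : ∀ y u', u = y :: u' → y ∉ p)
    (h : Sh u v (p ++ w)) : ∃ v', v = p ++ v' ∧ Sh u v' w := by
  induction p generalizing v with
  | nil => exact ⟨v, rfl, h⟩
  | cons x p ih =>
    cases h with
    | right _ h =>
      obtain ⟨u', rfl, h'⟩ := ih (fun y v' e hy => hu y v' e (by simp [hy])) h
      exact ⟨u', rfl, h'⟩
    | left _ h => exact absurd (by simp) (hu x _ rfl)

theorem Sh.eq_of_nil {u w : List ℕ} (h : Sh u [] w) : u = w := by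
  obtain ⟨u', e, h'⟩ := Sh.takeL (u := u) (v := []) (w := []) w (fun _ _ e => by cases e)
    (by simpa using h)
  cases h'
  simpa using e

def Par (i : ℕ) (A : FA) : Prop :=
  (∀ p ∈ A.1, p % 2 = i) ∧ (∀ t ∈ A.2.1, t.1 % 2 = i ∧ t.2.2 % 2 = i) ∧ ∀ q ∈ A.2.2, q % 2 = i

theorem dfa_desc {σ : Type} [Finite σ] (δ : σ → ℕ → σ) (s0 : σ) (acc : σ → Prop) (K : ℕ) :
    ∃ A : FA, Par 1 A ∧ ∀ w, w ∈ A.lang ↔ (∀ x ∈ w, x < K) ∧ acc (w.foldl δ s0) := by
  classical
  obtain ⟨e, he⟩ := Countable.exists_injective_nat σ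
  have := Fintype.ofFinite σ
  let T : List (ℕ × ℕ × ℕ) := ((Finset.univ ×ˢ Finset.range K).image
    fun t : σ × ℕ => (2 * e t.1 + 1, t.2, 2 * e (δ t.1 t.2) + 1)).toList
  have hT : ∀ t, t ∈ T ↔ ∃ s x, x < K ∧ (2 * e s + 1, x, 2 * e (δ s x) + 1) = t := by simp [T]
  have hR : ∀ w s q, Run T (2 * e s + 1) w q ↔ (∀ x ∈ w, x < K) ∧ q = 2 * e (w.foldl δ s) + 1 := by
    intro w
    induction w with
    | nil => simp [Run, eq_comm]
    | cons x w ih =>
      intro s q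
      simp only [Run, hT, Prod.mk.injEq, List.forall_mem_cons, List.foldl_cons]
      constructor
      · rintro ⟨_, ⟨s', _, hx, h1, rfl, rfl⟩, h⟩
        obtain rfl : s' = s := he (by omega)
        exact ⟨⟨hx, ((ih _ _).1 h).1⟩, ((ih _ _).1 h).2⟩
      · rintro ⟨⟨hx, hw⟩, h⟩
        exact ⟨_, ⟨s, x, hx, rfl, rfl, rfl⟩, (ih _ _).2 ⟨hw, h⟩⟩
  refine ⟨([2 * e s0 + 1], T, ((Finset.univ.filter acc).image fun s => 2 * e s + 1).toList),
    ⟨by simp, fun t ht => ?_, by simp⟩, fun w => ?_⟩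
  · obtain ⟨s, x, -, rfl⟩ := (hT t).1 ht
    dsimp only
    omega
  · simp only [FA.lang, Set.mem_ofPred_eq, List.mem_singleton, exists_eq_left, hR,
      Finset.mem_toList, Finset.mem_image, Finset.mem_filter, Finset.mem_univ, true_and]
    constructor
    · rintro ⟨_, ⟨s, hs, rfl⟩, h1, h2⟩
      obtain rfl : s = w.foldl δ s0 := he (by omega)
      exact ⟨h1, hs⟩
    · rintro ⟨h1, h2⟩
      exact ⟨_, ⟨_, h2, rfl⟩, h1, rfl⟩

def FA.un (A B : FA) : FA := (A.1 ++ B.1, A.2.1 ++ B.2.1, A.2.2 ++ B.2.2)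

theorem run_un {T T' : List (ℕ × ℕ × ℕ)} {i : ℕ} (h : ∀ t ∈ T, t.1 % 2 = i ∧ t.2.2 % 2 = i)
    {T2 : List (ℕ × ℕ × ℕ)} (h' : ∀ t ∈ T', t.1 % 2 ≠ i) (h2 : ∀ t, t ∈ T2 ↔ t ∈ T ∨ t ∈ T') :
    ∀ w p q, p % 2 = i → (Run T2 p w q ↔ Run T p w q ∧ q % 2 = i) := by
  intro w
  induction w with
  | nil => intro p q hp; exact ⟨fun e => ⟨e, e ▸ hp⟩, fun e => e.1⟩
  | cons x w ih =>
    intro p q hp
    constructor
    · rintro ⟨p', h1, h3⟩
      rcases (h2 _).1 h1 with h1 | h1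
      · have := (ih p' q (h _ h1).2).1 h3
        exact ⟨⟨p', h1, this.1⟩, this.2⟩
      · exact absurd hp (h' _ h1)
    · rintro ⟨⟨p', h1, h3⟩, h4⟩
      exact ⟨p', (h2 _).2 (Or.inl h1), (ih p' q (h _ h1).2).2 ⟨h3, h4⟩⟩

theorem un_lang {A B : FA} (hA : Par 1 A) (hB : Par 0 B) (w : List ℕ) :
    w ∈ (A.un B).lang ↔ w ∈ A.lang ∨ w ∈ B.lang := by
  have r1 := run_un (T' := B.2.1) hA.2.1 (T2 := A.2.1 ++ B.2.1)
    (fun t ht => by have := hB.2.1 t ht; omega) (by simp) w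
  have r2 := run_un (T' := A.2.1) hB.2.1 (T2 := A.2.1 ++ B.2.1)
    (fun t ht => by have := hA.2.1 t ht; omega) (by simp [or_comm]) w
  constructor
  · rintro ⟨p, hp, q, hq, h⟩
    rcases List.mem_append.1 hp with hp | hp
    · obtain ⟨h1, h2⟩ := (r1 p q (hA.1 p hp)).1 h
      rcases List.mem_append.1 hq with hq | hq
      · exact Or.inl ⟨p, hp, q, hq, h1⟩
      · have := hB.2.2 q hq; omega
    · obtain ⟨h1, h2⟩ := (r2 p q (hB.1 p hp)).1 h
      rcases List.mem_append.1 hq with hq | hq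
      · have := hA.2.2 q hq; omega
      · exact Or.inr ⟨p, hp, q, hq, h1⟩
  · rintro (⟨p, hp, q, hq, h⟩ | ⟨p, hp, q, hq, h⟩)
    · exact ⟨p, by simp [FA.un, hp], q, by simp [FA.un, hq],
        (r1 p q (hA.1 p hp)).2 ⟨h, hA.2.2 q hq⟩⟩
    · exact ⟨p, by simp [FA.un, hp], q, by simp [FA.un, hq],
        (r2 p q (hB.1 p hp)).2 ⟨h, hB.2.2 q hq⟩⟩

/-- acceptance for a typed deterministic counter machine -/
def Ac {σ : Type} (δ : σ → ℕ → Bool → Option (σ × ℕ)) (fin : σ → Prop) : σ × ℕ → List ℕ → Prop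
  | c, [] => fin c.1
  | c, x :: w => ∃ s d, δ c.1 x (decide (c.2 = 0)) = some (s, d) ∧ Ac δ fin (s, upd d c.2) w

theorem cm_desc {σ : Type} [Finite σ] (δ : σ → ℕ → Bool → Option (σ × ℕ)) (s0 : σ)
    (fin late : σ → Prop) (K : ℕ) (h1 : ∀ s x s', δ s x true ≠ some (s', 2))
    (h2 : ∀ s x z s' d, δ s x z = some (s', d) → (late s → late s' ∧ d ≠ 1) ∧ (d = 2 → late s')) :
    ∃ M : CM, IsDCM M ∧ ∀ w, w ∈ M.lang ↔ (∀ x ∈ w, x < K) ∧ Ac δ fin (s0, 0) w := by
  classical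
  obtain ⟨e, he⟩ := Countable.exists_injective_nat σ
  have := Fintype.ofFinite σ
  let T : List ((ℕ × ℕ × Bool) × (ℕ × ℕ)) := (Finset.univ ×ˢ Finset.range K ×ˢ
    Finset.univ).toList.filterMap
    fun t : σ × ℕ × Bool => (δ t.1 t.2.1 t.2.2).map fun r => ((e t.1, t.2), (e r.1, r.2))
  have hT : ∀ t, t ∈ T ↔ ∃ s x z s' d, x < K ∧ δ s x z = some (s', d) ∧
      ((e s, x, z), (e s', d)) = t := by
    intro t
    simp only [T, List.mem_filterMap, Finset.mem_toList, Finset.mem_product, Finset.mem_univ,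
      Finset.mem_range, true_and, and_true, Option.map_eq_some_iff, Prod.exists]
    constructor
    · rintro ⟨s, x, z, hx, s', d, h⟩
      exact ⟨s, x, z, s', d, hx, h⟩
    · rintro ⟨s, x, z, s', d, hx, h⟩
      exact ⟨s, x, z, hx, s', d, h⟩
  have hT' : ∀ s x z q d, ((e s, x, z), (q, d)) ∈ T ↔
      x < K ∧ ∃ s', δ s x z = some (s', d) ∧ q = e s' := by
    intro s x z q d
    rw [hT]
    constructor
    · rintro ⟨s1, _, _, s', _, hx, h, e1⟩
      simp only [Prod.mk.injEq] at e1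
      obtain ⟨⟨e1, rfl, rfl⟩, rfl, rfl⟩ := e1
      cases he e1
      exact ⟨hx, s', h, rfl⟩
    · rintro ⟨hx, s', h, rfl⟩
      exact ⟨s, x, z, s', d, hx, h, rfl⟩
  refine ⟨(e s0, T, ((Finset.univ.filter fin).image e).toList), ⟨?_, ?_, ?_⟩, ?_⟩
  · intro t ht t' ht' h
    obtain ⟨s, x, z, s', d, -, g, rfl⟩ := (hT t).1 ht
    obtain ⟨_, q, d'⟩ := t'
    cases h
    obtain ⟨-, s2, g2, rfl⟩ := (hT' _ _ _ _ _).1 ht'
    cases g.symm.trans g2
    rfl
  · intro t ht hz hd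
    obtain ⟨s, x, z, s', d, -, g, rfl⟩ := (hT t).1 ht
    cases hz
    cases hd
    exact h1 _ _ _ g
  · have key : ∀ w s c ds c', CRun T (e s, c) w ds c' →
        (late s → 1 ∉ ds) ∧ ¬ List.Sublist [2, 1] ds := by
      intro w
      induction w with
      | nil => rintro s c _ _ ⟨rfl, -⟩; simp
      | cons x w ih =>
        rintro s c _ c' ⟨q, d, ds, h, rfl, hr⟩
        obtain ⟨-, s', g, rfl⟩ := (hT' _ _ _ _ _).1 h
        obtain ⟨i1, i2⟩ := ih _ _ _ _ hr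
        obtain ⟨g1, g2⟩ := h2 _ _ _ _ _ g
        refine ⟨fun hl => by simp [(g1 hl).2.symm, i1 (g1 hl).1], fun hs => ?_⟩
        rcases List.sublist_cons_iff.1 hs with hs | ⟨r, e1, hs⟩
        · exact i2 hs
        · cases e1
          exact i1 (g2 rfl) (List.singleton_sublist.1 hs)
    exact fun w ds c h => (key w s0 0 ds c h).2
  · have key : ∀ w s c, (∃ ds c', CRun T (e s, c) w ds c' ∧ ∃ s', fin s' ∧ e s' = c'.1) ↔
        (∀ x ∈ w, x < K) ∧ Ac δ fin (s, c) w := by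
      intro w
      induction w with
      | nil =>
        intro s c
        simp only [CRun, Ac, List.not_mem_nil, IsEmpty.forall_iff, implies_true, true_and]
        constructor
        · rintro ⟨_, _, ⟨-, rfl⟩, s', h, e1⟩
          exact he e1 ▸ h
        · exact fun h => ⟨_, _, ⟨rfl, rfl⟩, s, h, rfl⟩
      | cons x w ih =>
        intro s c
        simp only [List.forall_mem_cons]
        constructor
        · rintro ⟨_, c', ⟨q, d, ds, h, rfl, hr⟩, hf⟩
          obtain ⟨hx, s', g, rfl⟩ := (hT' _ _ _ _ _).1 h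
          have := (ih _ _).1 ⟨ds, c', hr, hf⟩
          exact ⟨⟨hx, this.1⟩, s', d, g, this.2⟩
        · rintro ⟨⟨hx, hw⟩, s', d, g, ha⟩
          obtain ⟨ds, c', hr, hf⟩ := (ih _ _).2 ⟨hw, ha⟩
          exact ⟨_, c', ⟨_, d, ds, (hT' _ _ _ _ _).2 ⟨hx, s', g, rfl⟩, rfl, hr⟩, hf⟩
    intro w
    rw [← key]
    simp [CM.lang]

end Pool.Agent.H30.Shuf
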