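import Pool.Agent.H30.ShufA

/-! The checking machine, histories, the format automaton and the residue automaton. -/

namespace Pool.Agent.H30.Shuf

open Pool.Agent.H30.MulM

abbrev a (n : ℕ) : List ℕ := List.replicate n 1

variable {Q : Type} (ins : Q → Bool → Option Q × ℕ × ℕ)

def kd (τ : Q × Bool) : ℕ := (ins τ.1 τ.2).2.1
def pp (τ : Q × Bool) : ℕ := (ins τ.1 τ.2).2.2

abbrev CS : Type := Fin 3 ⊕ (Σ τ : Q × Bool, ZMod (pp ins τ + 1) × Option Bool)

variable (dc : ℕ → Option (Option (Q × Bool)))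

def dC : CS ins → ℕ → Bool → Option (CS ins × ℕ)
  | .inl i, x, _ => if i = 0 then (if x = 0 then some (.inl 1, 0) else none) else if i = 1 then
      (match dc x with
        | some (some τ) => some (.inr ⟨τ, 0, none⟩, 0)
        | _ => none) else none
  | .inr ⟨τ, i, none⟩, x, _ =>
      if x = 1 then some (.inr ⟨τ, i + 1, none⟩, if kd ins τ = 1 ∧ i + 1 ≠ 0 then 0 else 1)
      else if x = 3 then some (.inr ⟨τ, 0, some (decide ((kd ins τ = 1 ∧ i ≠ 0) ∨
        (kd ins τ ≠ 0 ∧ kd ins τ ≠ 1 ∧ i = 0)))⟩, 0) else none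
  | .inr ⟨τ, i, some b⟩, x, z =>
      if x = 1 then (if kd ins τ = 0 ∧ i + 1 ≠ 0 then some (.inr ⟨τ, i + 1, some b⟩, 0)
        else if z = true then some (.inr ⟨τ, i + 1, some true⟩, 0)
        else some (.inr ⟨τ, i + 1, some b⟩, 2))
      else if x = 2 ∧ (b = true ∨ z = false ∨ (kd ins τ = 0 ∧ i ≠ 0)) then some (.inl 2, 0) else none

def fC (s : CS ins) : Prop := s = .inl 0 ∨ s = .inl 2

def lC : CS ins → Prop
  | .inl i => i = 2
  | .inr ⟨_, _, b⟩ => b ≠ none

theorem dC_h1 : ∀ s x s', dC ins dc s x true ≠ some (s', 2) := by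
  rintro (i | ⟨τ, i, _ | b⟩) x s' <;> simp only [dC]
  · split_ifs <;> (try split) <;> simp
  · split_ifs <;> simp
  · split_ifs <;> simp_all

theorem dC_h2 : ∀ s x z s' d, dC ins dc s x z = some (s', d) →
    (lC ins s → lC ins s' ∧ d ≠ 1) ∧ (d = 2 → lC ins s') := by
  rintro (i | ⟨τ, i, _ | b⟩) x z s' d h <;> simp only [dC] at h
  · split_ifs at h with h1 h2 h3
    · cases h; simp [lC, h1]
    · split at h
      · cases h; simp [lC, h3]
      · cases h
  · split_ifs at h <;> cases h <;> simp [lC]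
  · split_ifs at h <;> cases h <;> simp [lC]

theorem ac_end (c : ℕ) (w : List ℕ) : Ac (dC ins dc) (fC ins) (.inl 2, c) w ↔ w = [] := by
  cases w <;> simp [Ac, fC, dC]

def DD (τ : Q × Bool) (j : ℕ) : ℕ := if kd ins τ = 0 then j / (pp ins τ + 1) else j
def UU (τ : Q × Bool) (j : ℕ) : ℕ := if kd ins τ = 1 then j / (pp ins τ + 1) else j

theorem cast_succ_ne (p j : ℕ) : ((j : ZMod (p + 1)) + 1 = 0) ↔ p + 1 ∣ j + 1 := by
  rw [← ZMod.natCast_eq_zero_iff]
  push_cast
  rfl

theorem ac2 (τ : Q × Bool) (b0 : Bool) (c0 : ℕ) : ∀ (w : List ℕ) (j : ℕ),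
    Ac (dC ins dc) (fC ins) (.inr ⟨τ, (j : ZMod _), some (b0 || decide (c0 < DD ins τ j))⟩,
      c0 - DD ins τ j) w ↔ ∃ m, w = a m ++ [2] ∧ (b0 = true ∨ c0 ≠ DD ins τ (j + m) ∨
        (kd ins τ = 0 ∧ ¬ pp ins τ + 1 ∣ j + m))
  | [], j => by simp [Ac, fC]
  | x :: w, j => by
    by_cases h1 : x = 1
    · subst h1
      have step : ∃ d, dC ins dc (.inr ⟨τ, (j : ZMod _), some (b0 || decide (c0 < DD ins τ j))⟩) 1
          (decide (c0 - DD ins τ j = 0)) = some (.inr ⟨τ, ((j + 1 : ℕ) : ZMod _),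
            some (b0 || decide (c0 < DD ins τ (j + 1)))⟩, d) ∧
          upd d (c0 - DD ins τ j) = c0 - DD ins τ (j + 1) := by
        simp only [dC, if_true, ne_eq, cast_succ_ne, Nat.cast_add, Nat.cast_one]
        by_cases h2 : kd ins τ = 0 ∧ ¬ pp ins τ + 1 ∣ j + 1
        · have : DD ins τ (j + 1) = DD ins τ j := by simp [DD, h2.1, Nat.succ_div, h2.2]
          exact ⟨0, by rw [if_pos h2, this], by simp [upd, this]⟩
        · have : DD ins τ (j + 1) = DD ins τ j + 1 := by
            by_cases h3 : kd ins τ = 0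
            · simp [DD, h3, Nat.succ_div, not_not.1 (not_and.1 h2 h3)]
            · simp [DD, h3]
          rw [if_neg h2, this]
          by_cases h3 : c0 - DD ins τ j = 0
          · refine ⟨0, ?_, by simp [upd]; omega⟩
            simp [h3, show c0 < DD ins τ j + 1 by omega]
          · refine ⟨2, ?_, by simp [upd]; omega⟩
            simp [h3, show ¬ c0 < DD ins τ j + 1 by omega, show ¬ c0 < DD ins τ j by omega]
      obtain ⟨d, e1, e2⟩ := step
      simp only [Ac, e1, Option.some.injEq, Prod.mk.injEq]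
      constructor
      · rintro ⟨_, _, ⟨rfl, rfl⟩, h⟩
        rw [e2, ac2 τ b0 c0 w (j + 1)] at h
        obtain ⟨m, rfl, h⟩ := h
        exact ⟨m + 1, rfl, by rwa [show j + (m + 1) = j + 1 + m by omega]⟩
      · rintro ⟨m, e, h⟩
        rcases m with _ | m
        · simp at e
        · refine ⟨_, _, ⟨rfl, rfl⟩, ?_⟩
          rw [e2, ac2 τ b0 c0 w (j + 1)]
          exact ⟨m, by simpa [List.replicate_succ] using e,
            by rwa [show j + 1 + m = j + (m + 1) by omega]⟩
    · simp only [Ac, dC, if_neg h1, ne_eq, ZMod.natCast_eq_zero_iff]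
      constructor
      · rintro ⟨s, d, h, h'⟩
        split_ifs at h with h2
        cases h
        rw [ac_end] at h'
        refine ⟨0, by simp [h2.1, h'], ?_⟩
        have := h2.2
        simp only [Bool.or_eq_true, decide_eq_true_eq, decide_eq_false_iff_not] at this
        rcases this with (h | h) | h | h
        exacts [Or.inl h, Or.inr (Or.inl (by simp; omega)), Or.inr (Or.inl (by simp; omega)),
          Or.inr (Or.inr h)]
      · rintro ⟨m, e, h⟩
        rcases m with _ | m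
        · cases e
          refine ⟨.inl 2, 0, if_pos ⟨rfl, ?_⟩, (ac_end _ _ _ _).2 rfl⟩
          simp only [Bool.or_eq_true, decide_eq_true_eq, decide_eq_false_iff_not]
          simp only [add_zero] at h
          rcases h with h | h | h
          · exact Or.inl (Or.inl h)
          · by_cases h2 : c0 < DD ins τ j
            · exact Or.inl (Or.inr h2)
            · exact Or.inr (Or.inl (by omega))
          · exact Or.inr (Or.inr h)
        · simp [List.replicate_succ, h1] at e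

theorem bad_iff (τ : Q × Bool) (N N' : ℕ) :
    (((kd ins τ = 1 ∧ ¬ pp ins τ + 1 ∣ N) ∨ (kd ins τ ≠ 0 ∧ kd ins τ ≠ 1 ∧ pp ins τ + 1 ∣ N)) ∨
      UU ins τ N ≠ DD ins τ N' ∨ (kd ins τ = 0 ∧ ¬ pp ins τ + 1 ∣ N')) ↔
      ¬ ok (kd ins τ) (pp ins τ + 1) N N' := by
  have key : ∀ u v : ℕ, u = (pp ins τ + 1) * v ↔ pp ins τ + 1 ∣ u ∧ v = u / (pp ins τ + 1) := by
    intro u v
    constructor
    · rintro rfl; simp
    · rintro ⟨h, rfl⟩; exact (Nat.mul_div_cancel' h).symm
  by_cases h0 : kd ins τ = 0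
  · simp only [ok, UU, DD, h0, key]; simp; tauto
  · by_cases h1 : kd ins τ = 1
    · simp only [ok, UU, DD, h1, key]; simp; tauto
    · simp only [ok, UU, DD, h0, h1]; simp; tauto

theorem ac1 (τ : Q × Bool) : ∀ (w : List ℕ) (j : ℕ),
    Ac (dC ins dc) (fC ins) (.inr ⟨τ, (j : ZMod _), none⟩, UU ins τ j) w ↔
      ∃ m N', w = a m ++ 3 :: (a N' ++ [2]) ∧ ¬ ok (kd ins τ) (pp ins τ + 1) (j + m) N'
  | [], j => by simp [Ac, fC]
  | x :: w, j => by
    by_cases h1 : x = 1
    · subst h1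
      have e2 : upd (if kd ins τ = 1 ∧ (j : ZMod (pp ins τ + 1)) + 1 ≠ 0 then 0 else 1)
          (UU ins τ j) = UU ins τ (j + 1) := by
        simp only [ne_eq, cast_succ_ne]
        by_cases h3 : kd ins τ = 1
        · by_cases h4 : pp ins τ + 1 ∣ j + 1 <;> simp [UU, upd, h3, h4, Nat.succ_div]
        · simp [UU, upd, h3]
      have ih := ac1 τ w (j + 1)
      push_cast at ih
      simp only [Ac, dC, if_true, Option.some.injEq, Prod.mk.injEq]
      constructor
      · rintro ⟨_, _, ⟨rfl, rfl⟩, h⟩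
        rw [e2, ih] at h
        obtain ⟨m, N', rfl, h⟩ := h
        exact ⟨m + 1, N', rfl, by rwa [show j + (m + 1) = j + 1 + m by omega]⟩
      · rintro ⟨m, N', e, h⟩
        rcases m with _ | m
        · simp at e
        · refine ⟨_, _, ⟨rfl, rfl⟩, ?_⟩
          rw [e2, ih]
          exact ⟨m, N', by simpa [List.replicate_succ] using e,
            by rwa [show j + 1 + m = j + (m + 1) by omega]⟩
    · have h2 := ac2 ins dc τ (decide ((kd ins τ = 1 ∧ (j : ZMod (pp ins τ + 1)) ≠ 0) ∨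
        (kd ins τ ≠ 0 ∧ kd ins τ ≠ 1 ∧ (j : ZMod (pp ins τ + 1)) = 0))) (UU ins τ j) w 0
      have d0 : DD ins τ 0 = 0 := by simp [DD]
      simp only [d0, Nat.cast_zero, not_lt_zero, decide_false, Bool.or_false, Nat.sub_zero,
        zero_add, decide_eq_true_eq] at h2
      simp only [Ac, dC, if_neg h1]
      constructor
      · rintro ⟨s, d, h, h'⟩
        split_ifs at h with h3
        cases h
        obtain ⟨m, rfl, h⟩ := h2.1 h'
        simp only [ne_eq, ZMod.natCast_eq_zero_iff] at h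
        exact ⟨0, m, by simp [h3], (bad_iff ins τ _ _).1 h⟩
      · rintro ⟨m, N', e, h⟩
        rcases m with _ | m
        · cases e
          refine ⟨_, 0, if_pos rfl, h2.2 ⟨N', rfl, ?_⟩⟩
          simp only [ne_eq, ZMod.natCast_eq_zero_iff]
          exact (bad_iff ins τ _ _).2 h
        · simp [List.replicate_succ, h1] at e

theorem ac0 (w : List ℕ) : Ac (dC ins dc) (fC ins) (.inl 0, 0) w ↔ w = [] ∨
    ∃ x τ N N', dc x = some (some τ) ∧ w = 0 :: x :: (a N ++ 3 :: (a N' ++ [2])) ∧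
      ¬ ok (kd ins τ) (pp ins τ + 1) N N' := by
  have h1 := fun τ w => ac1 ins dc τ w 0
  have u0 : ∀ τ, UU ins τ 0 = 0 := fun τ => by simp [UU]
  simp only [u0, Nat.cast_zero, zero_add] at h1
  rcases w with _ | ⟨y, _ | ⟨x, w⟩⟩
  · simp [Ac, fC]
  · simp [Ac, dC, fC]
  · constructor
    · rintro ⟨s, d, h, s', d', h', h2⟩
      simp only [dC, if_true] at h
      split_ifs at h with h3
      cases h
      simp only [dC, one_ne_zero, if_false, if_true] at h'
      split at h'
      · cases h'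
        rename_i τ e
        obtain ⟨m, N', rfl, h⟩ := (h1 τ w).1 h2
        exact Or.inr ⟨x, τ, m, N', e, by rw [h3], h⟩
      · cases h'
    · rintro (h | ⟨x', τ, N, N', e, e', h⟩)
      · cases h
      · cases e'
        exact ⟨.inl 1, 0, rfl, .inr ⟨τ, 0, none⟩, 0, by simp [dC, e], (h1 τ _).2 ⟨N, N', rfl, h⟩⟩

end Pool.Agent.H30.Shuf
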