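import Pool.Agent.H30.ShufB

/-! Histories, format and residue automata, and the reduction. -/

namespace Pool.Agent.H30.Shuf

open Pool.Agent.H30.MulM

variable {Q : Type} (ins : Q → Bool → Option Q × ℕ × ℕ) (lc : Option (Q × Bool) → ℕ)
  (dc : ℕ → Option (Option (Q × Bool)))

def enc : List ((Q × Bool) × ℕ) → ℕ → List ℕ
  | [], F => lc none :: (a F ++ [2])
  | t :: h, F => lc (some t.1) :: (a t.2 ++ 2 :: 3 :: enc h F)

def Ch : Option Q → List ((Q × Bool) × ℕ) → Prop
  | q, [] => q = none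
  | q, t :: h => q = some t.1.1 ∧ Ch (ins t.1.1 t.1.2).1 h

def fst : List ((Q × Bool) × ℕ) → ℕ → ℕ
  | [], F => F
  | t :: _, _ => t.2

def Good : List ((Q × Bool) × ℕ) → ℕ → Prop
  | [], _ => True
  | t :: h, F => ok (kd ins t.1) (pp ins t.1 + 1) t.2 (fst h F) ∧ Good h F

theorem halt_iff_hist (q : Option Q) (N : ℕ) :
    Halt ins q N ↔ ∃ h F, Ch ins q h ∧ fst h F = N ∧ Good ins h F := by
  constructor
  · intro h
    induction h with
    | stop N => exact ⟨[], N, rfl, rfl, trivial⟩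
    | @step s N N' b h1 _ ih =>
      obtain ⟨h, F, c, rfl, g⟩ := ih
      exact ⟨((s, b), N) :: h, F, ⟨rfl, c⟩, rfl, h1, g⟩
  · rintro ⟨h, F, c, rfl, g⟩
    induction h generalizing q with
    | nil => cases c; exact Halt.stop _
    | cons t h ih =>
      obtain ⟨rfl, c⟩ := c
      exact Halt.step t.1.2 g.1 (ih _ c g.2)

variable {lc} in
theorem enc_form (h4 : ∀ τ, 4 ≤ lc τ) : ∀ h F, ∃ τ rest,
    enc lc h F = lc τ :: (a (fst h F) ++ 2 :: rest) ∧ (rest = [] ∨ ∃ r, rest = 3 :: r) ∧ 0 ∉ rest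
  | [], F => ⟨none, [], rfl, Or.inl rfl, by simp⟩
  | t :: h, F => by
    obtain ⟨τ, r, e, -, h0⟩ := enc_form h4 h F
    refine ⟨some t.1, _, rfl, Or.inr ⟨_, rfl⟩, ?_⟩
    have := h4 τ
    simp [e, h0, List.mem_replicate]
    omega

/-- residue automaton -/
def dR (s : Fin 7) (x : ℕ) : Fin 7 :=
  if s = 0 then (if 4 ≤ x then 1 else if x = 2 then 3 else 6)
  else if s = 1 then (if x = 1 then 1 else if x = 2 then 2 else 6)
  else if s = 2 then (if x = 3 then 0 else 6)
  else if s = 3 then (if 4 ≤ x then 4 else 6)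
  else if s = 4 then (if x = 3 then 5 else 6)
  else if s = 5 then (if x = 0 then 6 else 5) else 6

def aR (s : Fin 7) (w : List ℕ) : Prop := w.foldl dR s = 4 ∨ w.foldl dR s = 5

theorem aR_cons (s : Fin 7) (x : ℕ) (w : List ℕ) : aR s (x :: w) ↔ aR (dR s x) w := Iff.rfl

theorem aR6 : ∀ w, ¬ aR 6 w
  | [] => by simp [aR]
  | _ :: w => aR6 w

theorem aR_zero : ∀ w s, aR s w → 0 ∉ w
  | [], _, _ => by simp
  | x :: w, s, h => by
    have := aR_zero w _ ((aR_cons _ _ _).1 h)
    have hx : x ≠ 0 := by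
      rintro rfl
      rw [aR_cons, show dR s 0 = 6 by clear h this; revert s; decide] at h
      exact aR6 _ h
    simp [this, hx.symm]

theorem aR5 : ∀ w, 0 ∉ w → aR 5 w
  | [], _ => Or.inr rfl
  | x :: w, h => by
    rw [aR_cons, show dR 5 x = 5 by
      have : x ≠ 0 := fun e => h (by simp [e])
      simp [dR, this]]
    exact aR5 w fun e => h (by simp [e])

theorem aR1 (n : ℕ) (w : List ℕ) : aR 1 (a n ++ w) ↔ aR 1 w := by
  induction n with
  | zero => rfl
  | succ n ih => exact ih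

theorem aR_head {s : Fin 7} {x : ℕ} {w : List ℕ} (h : aR s (x :: w)) : dR s x ≠ 6 := fun e =>
  aR6 w (e ▸ (aR_cons _ _ _).1 h)

variable {lc} in
theorem bad_sh (h4 : ∀ τ, 4 ≤ lc τ) : ∀ h F, ¬ Good ins h F → ∃ x τ N N', aR 0 x ∧
    ¬ ok (kd ins τ) (pp ins τ + 1) N N' ∧
    Sh x (lc (some τ) :: (a N ++ 3 :: (a N' ++ [2]))) (enc lc h F)
  | [], _, h => absurd trivial h
  | t :: h, F, g => by
    by_cases h1 : ok (kd ins t.1) (pp ins t.1 + 1) t.2 (fst h F)
    · obtain ⟨x, τ, N, N', r, b, s⟩ := bad_sh h4 h F fun g' => g ⟨h1, g'⟩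
      refine ⟨lc (some t.1) :: (a t.2 ++ 2 :: 3 :: x), τ, N, N', ?_, b,
        (((s.left 3).left 2).appL _).left _⟩
      rw [aR_cons, show dR 0 (lc (some t.1)) = 1 by simp [dR, h4], aR1]
      exact r
    · obtain ⟨τ, r, e, hr, h0⟩ := enc_form h4 h F
      refine ⟨2 :: lc τ :: r, t.1, t.2, _, ?_, h1, ?_⟩
      · rw [aR_cons, aR_cons, show dR (dR 0 2) (lc τ) = 4 by simp [dR, h4]]
        rcases hr with rfl | ⟨r, rfl⟩
        · exact Or.inl rfl
        · exact aR5 r fun e => h0 (by simp [e])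
      · rw [enc, e]
        exact (((((((Sh.self r).right 2).appR _).left _).right 3).left 2).appR _).right _

theorem a_split {n m x : ℕ} {u v : List ℕ} (hx : x ≠ 1) (e : a n ++ x :: u = a m ++ v) :
    ∃ k, n = m + k ∧ v = a k ++ x :: u := by
  induction m generalizing n with
  | zero => exact ⟨n, by simp, e.symm⟩
  | succ m ih =>
    rcases n with _ | n
    · simp [List.replicate_succ, hx] at e
    · obtain ⟨k, rfl, h⟩ := ih (n := n) (by simpa [List.replicate_succ] using e)
      exact ⟨k, by omega, h⟩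

variable {lc} in
theorem forced (h4 : ∀ τ, 4 ≤ lc τ) (hi : Function.Injective lc) {τ : Q × Bool} {N N' : ℕ} :
    ∀ h F x, aR 0 x → Sh x (lc (some τ) :: (a N ++ 3 :: (a N' ++ [2]))) (enc lc h F) →
      Good ins h F → ok (kd ins τ) (pp ins τ + 1) N N'
  | [], F, x, _, s, _ => by
    have := (s.mem 3).2 (Or.inr (by simp))
    have h := h4 none
    simp [enc, List.mem_replicate] at this
    omega
  | t :: h, F, x, r, s, g => by
    have t4 := h4 (some τ)
    rw [enc] at s
    generalize e : lc (some t.1) = l at s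
    cases s with
    | left _ s =>
      rename_i u
      have s2 : Sh u (lc (some τ) :: (a N ++ 3 :: (a N' ++ [2]))) ((a t.2 ++ [2, 3]) ++ enc lc h F) := by
        simpa using s
      obtain ⟨u', rfl, s'⟩ := s2.takeL _ (by
        rintro _ _ ⟨⟩
        simp [List.mem_replicate]
        omega)
      rw [aR_cons, ← e, show dR 0 (lc (some t.1)) = 1 by simp [dR, h4], List.append_assoc,
        aR1] at r
      exact forced h4 hi h F u' r s' g.2
    | right _ s =>
      obtain rfl : t.1 = τ := by simpa using hi e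
      obtain ⟨v, e1, s1⟩ := Sh.takeR (u := x) (a t.2) (by
        rintro y u rfl hy
        rw [(List.mem_replicate.1 hy).2] at r
        exact aR_head r rfl) s
      clear s
      obtain ⟨k, rfl, rfl⟩ := a_split (by norm_num) e1
      obtain ⟨x1, rfl, s2⟩ := Sh.takeL (v := a k ++ 3 :: (a N' ++ [2])) (w := 3 :: enc lc h F) [2] (by
        intro y v e
        rcases k with _ | k <;> cases e <;> simp) s1
      replace r : aR 3 x1 := r
      obtain ⟨v, e2, s3⟩ := Sh.takeR (u := x1) (w := enc lc h F) [3] (by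
        rintro y u rfl hy
        rw [List.mem_singleton.1 hy] at r
        exact aR_head r rfl) s2
      rcases k with _ | k
      swap
      · simp [List.replicate_succ] at e2
      obtain rfl : a N' ++ [2] = v := by simpa using e2
      obtain ⟨τ', rest, e3, -, -⟩ := enc_form h4 h F
      rw [e3] at s3
      have t4' := h4 τ'
      obtain ⟨x2, rfl, s4⟩ := Sh.takeL (v := a N' ++ [2]) (w := a (fst h F) ++ 2 :: rest) [lc τ'] (by
        intro y v e
        rcases N' with _ | N' <;> cases e <;> simp <;> omega) s3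
      rw [List.singleton_append, aR_cons, show dR 3 (lc τ') = 4 by simp [dR, h4]] at r
      obtain ⟨v, e4, -⟩ := Sh.takeR (u := x2) (v := a N' ++ [2]) (w := rest) (a (fst h F) ++ [2]) (by
        rintro y u rfl hy
        rcases List.mem_append.1 hy with hy | hy
        · rw [(List.mem_replicate.1 hy).2] at r
          exact aR_head r rfl
        · rw [List.mem_singleton.1 hy] at r
          exact aR_head r rfl) (by simpa using s4)
      rw [List.append_assoc] at e4
      obtain ⟨k, rfl, e5⟩ := a_split (by norm_num) e4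
      rcases k with _ | k
      · exact g.1
      · simp [List.replicate_succ] at e5

open Classical in
/-- format automaton -/
noncomputable def dF : Option (Fin 4 × Option (Option Q)) → ℕ → Option (Fin 4 × Option (Option Q))
  | none, _ => none
  | some (i, q), x =>
    if i = 0 then (if x = 0 then some (1, q) else none)
    else if i = 1 then (match dc x with
      | none => none
      | some none => if q = some none then some (2, none) else none
      | some (some τ) => if q = some (some τ.1) then some (2, some (ins τ.1 τ.2).1) else none)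
    else if i = 2 then (if x = 1 then some (2, q) else if x = 2 then some (3, q) else none)
    else if x = 3 ∧ q ≠ none then some (1, q) else none

def aF (s : Option (Fin 4 × Option (Option Q))) (w : List ℕ) : Prop :=
  w.foldl (dF ins dc) s = some (3, none)

theorem aF_cons (s) (x : ℕ) (w : List ℕ) : aF ins dc s (x :: w) ↔ aF ins dc (dF ins dc s x) w :=
  Iff.rfl

theorem aF_none : ∀ w, ¬ aF ins dc none w
  | [] => by simp [aF]
  | _ :: w => aF_none w

theorem aF2 (q) (n : ℕ) (w : List ℕ) :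
    aF ins dc (some (2, q)) (a n ++ w) ↔ aF ins dc (some (2, q)) w := by
  induction n with
  | zero => rfl
  | succ n ih => exact ih

variable {lc dc} in
theorem aF_enc (h1 : ∀ τ, dc (lc τ) = some τ) :
    ∀ h F q, Ch ins q h → aF ins dc (some (1, some q)) (enc lc h F)
  | [], F, q, c => by
    cases c
    rw [enc, aF_cons, show dF ins dc (some (1, some none)) (lc none) = some (2, none) by
      simp [dF, h1], aF2]
    rfl
  | t :: h, F, q, c => by
    obtain ⟨rfl, c⟩ := c
    rw [enc, aF_cons, show dF ins dc (some (1, some (some t.1.1))) (lc (some t.1)) =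
      some (2, some (ins t.1.1 t.1.2).1) by simp [dF, h1], aF2, aF_cons, aF_cons,
      show dF ins dc (dF ins dc (some (2, some (ins t.1.1 t.1.2).1)) 2) 3 =
        some (1, some (ins t.1.1 t.1.2).1) by simp [dF]]
    exact aF_enc h1 h F _ c

variable {lc dc} in
theorem parse (h2 : ∀ x τ, dc x = some τ → x = lc τ) : ∀ w : List ℕ,
    (∀ q, aF ins dc (some (1, some q)) w → ∃ h F, w = enc lc h F ∧ Ch ins q h) ∧
    (∀ q, aF ins dc (some (2, q)) w → ∃ N, (q = none ∧ w = a N ++ [2]) ∨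
      ∃ q' h F, q = some q' ∧ w = a N ++ 2 :: 3 :: enc lc h F ∧ Ch ins q' h) ∧
    (∀ q, aF ins dc (some (3, q)) w → (q = none ∧ w = []) ∨
      ∃ q' h F, q = some q' ∧ w = 3 :: enc lc h F ∧ Ch ins q' h)
  | [] => by simp [aF]
  | x :: w => by
    obtain ⟨i1, i2, i3⟩ := parse h2 w
    refine ⟨fun q h => ?_, fun q h => ?_, fun q h => ?_⟩
    · rw [aF_cons] at h
      simp only [dF, one_ne_zero, if_false, if_true] at h
      split at h
      · exact absurd h (aF_none _ _ _)
      · rename_i e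
        split_ifs at h with hq
        · cases hq
          obtain ⟨N, ⟨-, rfl⟩ | ⟨_, _, _, g, -⟩⟩ := i2 _ h
          · exact ⟨[], N, by rw [h2 _ _ e]; rfl, rfl⟩
          · cases g
        · exact absurd h (aF_none _ _ _)
      · rename_i τ e
        split_ifs at h with hq
        · cases hq
          obtain ⟨N, ⟨g, -⟩ | ⟨_, h', F, g, rfl, c⟩⟩ := i2 _ h
          · cases g
          · cases g
            exact ⟨(τ, N) :: h', F, by rw [h2 _ _ e]; rfl, rfl, c⟩
        · exact absurd h (aF_none _ _ _)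
    · rw [aF_cons] at h
      simp only [dF, show (2 : Fin 4) ≠ 0 by decide, show (2 : Fin 4) ≠ 1 by decide, if_false,
        if_true] at h
      split_ifs at h with e1 e2
      · subst e1
        obtain ⟨N, ⟨g, rfl⟩ | ⟨q', h', F, g, rfl, c⟩⟩ := i2 _ h
        · exact ⟨N + 1, Or.inl ⟨g, rfl⟩⟩
        · exact ⟨N + 1, Or.inr ⟨q', h', F, g, rfl, c⟩⟩
      · subst e2
        obtain ⟨g, rfl⟩ | ⟨q', h', F, g, rfl, c⟩ := i3 _ h
        · exact ⟨0, Or.inl ⟨g, rfl⟩⟩
        · exact ⟨0, Or.inr ⟨q', h', F, g, rfl, c⟩⟩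
      · exact absurd h (aF_none _ _ _)
    · rw [aF_cons] at h
      simp only [dF, show (3 : Fin 4) ≠ 0 by decide, show (3 : Fin 4) ≠ 1 by decide,
        show (3 : Fin 4) ≠ 2 by decide, if_false] at h
      split_ifs at h with e1
      · obtain ⟨rfl, hq⟩ := e1
        obtain ⟨q', rfl⟩ := Option.ne_none_iff_exists'.1 hq
        obtain ⟨h', F, rfl, c⟩ := i1 _ h
        exact Or.inr ⟨q', h', F, rfl, rfl, c⟩
      · exact absurd h (aF_none _ _ _)

/-- automaton for a wrong initial value -/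
def tI (K M : ℕ) : List (ℕ × ℕ × ℕ) :=
  ((2, 0, 4) :: ((List.range K).map (fun x => (4, x, 6)) ++ (List.range K).map fun x => (0, x, 0))) ++
    ((List.range M).map (fun i => (6 + 2 * i, 1, 8 + 2 * i)) ++
      ((List.range M).map (fun i => (6 + 2 * i, 2, 0)) ++ [(6 + 2 * M, 1, 0)]))

theorem mem_tI {K M p x q : ℕ} : (p, x, q) ∈ tI K M ↔ (p = 2 ∧ x = 0 ∧ q = 4) ∨
    (x < K ∧ p = 4 ∧ q = 6) ∨ (x < K ∧ p = 0 ∧ q = 0) ∨
    (6 ≤ p ∧ p < 6 + 2 * M ∧ p % 2 = 0 ∧ x = 1 ∧ q = p + 2) ∨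
    (6 ≤ p ∧ p < 6 + 2 * M ∧ p % 2 = 0 ∧ x = 2 ∧ q = 0) ∨
    (p = 6 + 2 * M ∧ x = 1 ∧ q = 0) := by
  simp only [tI, List.mem_append, List.mem_cons, List.mem_map, List.mem_range, Prod.mk.injEq,
    List.not_mem_nil, or_false, or_assoc]
  constructor
  · rintro (h | ⟨i, h⟩ | ⟨i, h⟩ | ⟨i, h⟩ | ⟨i, h⟩ | h) <;> omega
  · rintro (h | h | h | h | h | h)
    · exact Or.inl h
    · exact Or.inr (Or.inl ⟨x, by omega⟩)
    · exact Or.inr (Or.inr (Or.inl ⟨x, by omega⟩))
    · exact Or.inr (Or.inr (Or.inr (Or.inl ⟨(p - 6) / 2, by omega⟩)))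
    · exact Or.inr (Or.inr (Or.inr (Or.inr (Or.inl ⟨(p - 6) / 2, by omega⟩))))
    · exact Or.inr (Or.inr (Or.inr (Or.inr (Or.inr h))))

def AI (K M : ℕ) : FA := ([2], tI K M, [0])

theorem AI_par (K M : ℕ) : Par 0 (AI K M) := by
  refine ⟨by simp [AI], ?_, by simp [AI]⟩
  rintro ⟨p, x, q⟩ h
  have := mem_tI.1 h
  dsimp only
  omega

theorem run0 {K M : ℕ} : ∀ w, Run (tI K M) 0 w 0 ↔ ∀ x ∈ w, x < K
  | [] => by simp [Run]
  | x :: w => by
    simp only [Run, List.forall_mem_cons, ← run0 (K := K) (M := M) w]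
    constructor
    · rintro ⟨p, h, h'⟩
      obtain ⟨h1, rfl⟩ : x < K ∧ p = 0 := by have := mem_tI.1 h; omega
      exact ⟨h1, h'⟩
    · exact fun h => ⟨0, mem_tI.2 (by omega), h.2⟩

theorem runI {K M : ℕ} (hK : 4 ≤ K) (r : List ℕ) : ∀ j i, i ≤ M →
    (Run (tI K M) (6 + 2 * i) (a j ++ 2 :: r) 0 ↔ i + j ≠ M ∧ ∀ x ∈ r, x < K)
  | 0, i, hi => by
    simp only [List.replicate_zero, List.nil_append, Run, ← run0 (K := K) (M := M) r]
    constructor
    · rintro ⟨p, h, h'⟩
      obtain ⟨h1, rfl⟩ : i ≠ M ∧ p = 0 := by have := mem_tI.1 h; omega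
      exact ⟨h1, h'⟩
    · exact fun h => ⟨0, mem_tI.2 (by have := h.1; omega), h.2⟩
  | j + 1, i, hi => by
    simp only [List.replicate_succ, List.cons_append, Run]
    by_cases hM : i = M
    · constructor
      · rintro ⟨p, h, h'⟩
        obtain rfl : p = 0 := by have := mem_tI.1 h; omega
        exact ⟨by omega, fun x hx => (run0 _).1 h' x (by simp [hx])⟩
      · refine fun h => ⟨0, mem_tI.2 (by omega), (run0 _).2 fun x hx => ?_⟩
        simp only [List.mem_append, List.mem_replicate, List.mem_cons] at hx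
        rcases hx with hx | hx | hx
        exacts [by omega, by omega, h.2 x hx]
    · have ih := runI (M := M) hK r j (i + 1) (by omega)
      constructor
      · rintro ⟨p, h, h'⟩
        obtain rfl : p = 6 + 2 * (i + 1) := by have := mem_tI.1 h; omega
        have := ih.1 h'
        exact ⟨by omega, this.2⟩
      · exact fun h => ⟨6 + 2 * (i + 1), mem_tI.2 (by omega), ih.2 ⟨by omega, h.2⟩⟩

theorem AI_iff {K M : ℕ} (hK : 4 ≤ K) {l j : ℕ} {r : List ℕ} :
    0 :: l :: (a j ++ 2 :: r) ∈ (AI K M).lang ↔ l < K ∧ j ≠ M ∧ ∀ x ∈ r, x < K := by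
  have := runI (M := M) hK r j 0 (by omega)
  simp only [mul_zero, add_zero, zero_add] at this
  simp only [FA.lang, AI, Set.mem_ofPred_eq, List.mem_singleton, exists_eq_left, Run, ← this]
  constructor
  · rintro ⟨p, h, p', h', h2⟩
    obtain rfl : p = 4 := by have := mem_tI.1 h; omega
    obtain ⟨h1, rfl⟩ : l < K ∧ p' = 6 := by have := mem_tI.1 h'; omega
    exact ⟨h1, h2⟩
  · exact fun h => ⟨4, mem_tI.2 (by omega), 6, mem_tI.2 (by omega), h.2⟩

theorem AI_sub {K M : ℕ} (hK : 4 ≤ K) {w : List ℕ} (h : w ∈ (AI K M).lang) :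
    (∀ x ∈ w, x < K) ∧ 0 ∈ w := by
  have key : ∀ w p q, Run (tI K M) p w q → ∀ x ∈ w, x < K := by
    intro w
    induction w with
    | nil => simp
    | cons y w ih =>
      rintro p q ⟨p', h, h'⟩
      have := mem_tI.1 h
      exact List.forall_mem_cons.2 ⟨by omega, ih _ _ h'⟩
  simp only [FA.lang, AI, Set.mem_ofPred_eq, List.mem_singleton, exists_eq_left] at h
  refine ⟨key _ _ _ h, ?_⟩
  rcases w with _ | ⟨y, w⟩
  · cases h
  · obtain ⟨p, h, -⟩ := h
    obtain rfl : y = 0 := by have := mem_tI.1 h; omega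
    simp

theorem fold_prod {α β : Type} (f : α → ℕ → α) (g : β → ℕ → β) : ∀ (w : List ℕ) (s : α) (t : β),
    w.foldl (fun c x => (f c.1 x, g c.2 x)) (s, t) = (w.foldl f s, w.foldl g t)
  | [], _, _ => rfl
  | _ :: w, _, _ => fold_prod f g w _ _

theorem fold_seen : ∀ (w : List ℕ) (b : Bool),
    w.foldl (fun c x => c || decide (x = 0)) b = true ↔ b = true ∨ 0 ∈ w
  | [], b => by simp
  | x :: w, b => by
    rw [List.foldl_cons, fold_seen w, List.mem_cons, Bool.or_eq_true, decide_eq_true_eq, or_assoc,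
      eq_comm (a := x)]

theorem comp_tI (K : ℕ) : Primrec fun M : ℕ => tI K M := by
  have l1 : ∀ c : ℕ, Primrec fun i : ℕ => c + 2 * i := fun c =>
    Primrec.nat_add.comp (Primrec.const _) (Primrec.nat_mul.comp (Primrec.const _) Primrec.id)
  have m1 : Primrec fun M : ℕ => (List.range M).map fun i => (6 + 2 * i, 1, 8 + 2 * i) :=
    Primrec.list_map Primrec.list_range (((l1 6).pair ((Primrec.const 1).pair (l1 8))).comp
      Primrec.snd).to₂
  have m2 : Primrec fun M : ℕ => (List.range M).map fun i => (6 + 2 * i, 2, 0) :=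
    Primrec.list_map Primrec.list_range (((l1 6).pair (Primrec.const (2, 0))).comp Primrec.snd).to₂
  have m3 : Primrec fun M : ℕ => [(6 + 2 * M, 1, 0)] :=
    Primrec.list_cons.comp ((l1 6).pair (Primrec.const (1, 0))) (Primrec.const [])
  unfold tI
  exact Primrec.list_append.comp (Primrec.const _)
    (Primrec.list_append.comp m1 (Primrec.list_append.comp m2 m3))

theorem comp_g (A B : FA) (M : CM) (K : ℕ) :
    Computable fun n : ℕ => ((A, B.un (AI K (2 ^ n)), M) : FA × FA × CM) := by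
  have p2 : Primrec fun n : ℕ => 2 ^ n :=
    (Primrec₂.unpaired'.1 Nat.Primrec.pow).comp (Primrec.const 2) Primrec.id
  have t2 : Primrec fun n : ℕ => B.2.1 ++ tI K (2 ^ n) :=
    Primrec.list_append.comp (Primrec.const B.2.1) ((comp_tI K).comp p2)
  have t3 : Primrec fun n : ℕ => ((B.1 ++ [2], B.2.1 ++ tI K (2 ^ n), B.2.2 ++ [0]) : FA) :=
    (Primrec.const _).pair (t2.pair (Primrec.const _))
  exact ((Primrec.const A).pair (t3.pair (Primrec.const M))).to_comp

theorem reduction : ∃ (p : ℕ → Prop) (g : ℕ → FA × FA × CM), ¬ ComputablePred p ∧ Computable g ∧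
    ∀ n, IsDCM (g n).2.2 ∧ shuffle (g n).2.1.lang (g n).2.2.lang ⊆ (g n).1.lang ∧
      ((g n).1.lang ⊆ shuffle (g n).2.1.lang (g n).2.2.lang ↔ ¬ p n) := by
  classical
  obtain ⟨Q, hQ, ins, q0, hU⟩ := MulM.exists_undec
  obtain ⟨m, ⟨e⟩⟩ := Finite.exists_equiv_fin (Option (Q × Bool))
  obtain ⟨lc, dc, K, hK, h1, h2, h4, h5⟩ : ∃ (lc : Option (Q × Bool) → ℕ)
      (dc : ℕ → Option (Option (Q × Bool))) (K : ℕ), 4 ≤ K ∧ (∀ τ, dc (lc τ) = some τ) ∧
      (∀ x τ, dc x = some τ → x = lc τ) ∧ (∀ τ, 4 ≤ lc τ) ∧ ∀ τ, lc τ < K := by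
    refine ⟨fun τ => e τ + 4, fun x => if h : 4 ≤ x ∧ x - 4 < m then some (e.symm ⟨x - 4, h.2⟩)
      else none, m + 4, by omega, fun τ => by simp, fun x τ h => ?_, fun τ => by simp,
      fun τ => by simp⟩
    dsimp only at h ⊢
    split_ifs at h with h'
    cases h
    simp only [Equiv.apply_symm_apply]
    omega
  have hi : Function.Injective lc := fun s t h => by simpa [h1] using congrArg dc h
  obtain ⟨A, -, hA⟩ := dfa_desc (fun (c : Fin 7 × Bool) x => (dR c.1 x, c.2 || decide (x = 0)))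
    (0, false) (fun c => (c.1 = 4 ∨ c.1 = 5) ∨ c.2 = true) K
  obtain ⟨B, pB, hB⟩ := dfa_desc (fun (c : (Fin 7 × Bool) × Option (Fin 4 × Option (Option Q))) x =>
    ((dR c.1.1 x, c.1.2 || decide (x = 0)), dF ins dc c.2 x)) ((0, false), some (0, some (some q0)))
    (fun c => (c.1.1 = 4 ∨ c.1.1 = 5) ∨ (c.1.2 = true ∧ c.2 ≠ some (3, none))) K
  obtain ⟨M, dM, hM⟩ := cm_desc (dC ins dc) (.inl 0) (fC ins) (lC ins) K (dC_h1 ins dc)
    (dC_h2 ins dc)
  have hA' : ∀ w, w ∈ A.lang ↔ (∀ x ∈ w, x < K) ∧ (aR 0 w ∨ 0 ∈ w) := fun w => by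
    rw [hA, fold_prod dR fun c x => c || decide (x = 0)]
    simp only [fold_seen, aR, Bool.false_eq_true, false_or]
  have hB' : ∀ w, w ∈ B.lang ↔ (∀ x ∈ w, x < K) ∧
      (aR 0 w ∨ (0 ∈ w ∧ ¬ aF ins dc (some (0, some (some q0))) w)) := fun w => by
    rw [hB, fold_prod (fun (c : Fin 7 × Bool) x => (dR c.1 x, c.2 || decide (x = 0))) (dF ins dc),
      fold_prod dR fun c x => c || decide (x = 0)]
    simp only [fold_seen, aR, aF, Bool.false_eq_true, false_or]
  simp only [ac0] at hM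
  refine ⟨_, fun n => (A, B.un (AI K (2 ^ n)), M), hU, ?_, fun n => ⟨dM, ?_, ?_, ?_⟩⟩
  · exact comp_g A B M K
  · rintro w ⟨u, hu, v, hv, s⟩
    have hu := (un_lang pB (AI_par _ _) u).1 hu
    obtain ⟨v1, hv⟩ := (hM v).1 hv
    have u1 : (∀ x ∈ u, x < K) ∧ (aR 0 u ∨ 0 ∈ u) := by
      rcases hu with hu | hu
      · obtain ⟨c1, c2⟩ := (hB' u).1 hu
        exact ⟨c1, c2.imp id fun h => h.1⟩
      · exact ⟨(AI_sub hK hu).1, Or.inr (AI_sub hK hu).2⟩
    refine (hA' w).2 ⟨fun x hx => ((s.mem x).1 hx).elim (u1.1 x) (v1 x), ?_⟩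
    rcases hv with rfl | ⟨x, τ, N, N', -, rfl, -⟩
    · exact s.eq_of_nil ▸ u1.2
    · exact Or.inr ((s.mem 0).2 (Or.inr (by simp)))
  · intro hs hh
    obtain ⟨h, F, c, f, g⟩ := (halt_iff_hist ins _ _).1 hh
    obtain ⟨τ', rest, e3, -, h0⟩ := enc_form h4 h F
    have z0 : 0 ∉ enc lc h F := by
      have := h4 τ'
      simp [e3, h0, List.mem_replicate]
      omega
    have hlt : ∀ (h : List ((Q × Bool) × ℕ)), ∀ x ∈ enc lc h F, x < K := by
      intro h
      induction h with
      | nil => simp [enc, h5, List.mem_replicate]; omega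
      | cons t h ih =>
        intro x hx
        simp only [enc, List.mem_cons, List.mem_append, List.mem_replicate] at hx
        rcases hx with rfl | hx | hx | hx | hx
        exacts [h5 _, by omega, by omega, by omega, ih x hx]
    obtain ⟨u, hu, v, hv, s⟩ := hs ((hA' (0 :: enc lc h F)).2
      ⟨List.forall_mem_cons.2 ⟨by omega, hlt h⟩, Or.inr (by simp)⟩)
    have hu := (un_lang pB (AI_par _ _) u).1 hu
    rcases ((hM v).1 hv).2 with rfl | ⟨x, τ, N, N', e1, rfl, bad⟩
    · obtain rfl := s.eq_of_nil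
      rcases hu with hu | hu
      · rcases ((hB' _).1 hu).2 with r | r
        · exact aR_zero _ _ r (by simp)
        · exact r.2 (aF_enc ins h1 h F _ c)
      · rw [e3, AI_iff hK] at hu
        exact hu.2.1 f
    · have hc := s.count 0
      rw [List.count_cons_self, List.count_cons_self, List.count_eq_zero.2 z0] at hc
      have u0 : 0 ∉ u := List.count_eq_zero.1 (by omega)
      have r : aR 0 u := by
        rcases hu with hu | hu
        · exact ((hB' _).1 hu).2.resolve_right fun r => u0 r.1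
        · exact absurd (AI_sub hK hu).2 u0
      cases s with
      | left _ s => exact u0 (by simp)
      | right _ s =>
        rw [h2 _ _ e1] at s
        exact bad (forced ins h4 hi h F u r s g)
  · intro hh w hw
    obtain ⟨w1, hw⟩ := (hA' w).1 hw
    have triv : w ∈ (B.un (AI K (2 ^ n))).lang → w ∈ shuffle (B.un (AI K (2 ^ n))).lang M.lang :=
      fun h => ⟨w, h, [], (hM _).2 ⟨by simp, Or.inl rfl⟩, Sh.self w⟩
    by_cases hF : aF ins dc (some (0, some (some q0))) w
    swap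
    · exact triv ((un_lang pB (AI_par _ _) w).2 (Or.inl ((hB' w).2
        ⟨w1, hw.imp id fun h => ⟨h, hF⟩⟩)))
    rcases w with _ | ⟨y, w⟩
    · simp [aF] at hF
    rw [aF_cons] at hF
    simp only [dF, if_true] at hF
    split_ifs at hF with hy
    swap
    · exact absurd hF (aF_none _ _ _)
    subst hy
    obtain ⟨h, F, rfl, c⟩ := (parse ins h2 w).1 _ hF
    by_cases f : fst h F = 2 ^ n
    · obtain ⟨x, τ, N, N', r, bad, s⟩ := bad_sh ins h4 h F fun g =>
        hh ((halt_iff_hist ins _ _).2 ⟨h, F, c, f, g⟩)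
      have s := s.right 0
      exact ⟨x, (un_lang pB (AI_par _ _) x).2 (Or.inl ((hB' x).2
        ⟨fun y hy => w1 y ((s.mem y).2 (Or.inl hy)), Or.inl r⟩)), _,
        (hM _).2 ⟨fun y hy => w1 y ((s.mem y).2 (Or.inr hy)),
          Or.inr ⟨_, τ, N, N', h1 _, rfl, bad⟩⟩, s⟩
    · obtain ⟨τ', rest, e3, -, -⟩ := enc_form h4 h F
      refine triv ((un_lang pB (AI_par _ _) _).2 (Or.inr ?_))
      rw [e3] at w1 ⊢
      exact (AI_iff hK).2 ⟨h5 _, f, fun x hx => w1 x (by simp [hx])⟩

theorem undec (R : Set (List ℕ) → Set (List ℕ) → Prop) (hR : ∀ X Y, Y ⊆ X → (R X Y ↔ X ⊆ Y)) :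
    ¬ ∃ f : FA × FA × CM → Bool, Computable f ∧ ∀ (A B : FA) (M : CM), IsDCM M →
      (f (A, B, M) = true ↔ R A.lang (shuffle B.lang M.lang)) := by
  rintro ⟨f, hf, h⟩
  obtain ⟨p, g, hp, hg, hn⟩ := reduction
  apply hp
  have : ComputablePred fun n => f (g n) = true :=
    ComputablePred.computable_iff.2 ⟨_, hf.comp hg, rfl⟩
  refine this.not.of_eq fun n => ?_
  obtain ⟨h1, h2, h3⟩ := hn n
  rw [h (g n).1 (g n).2.1 (g n).2.2 h1, hR _ _ h2, h3, not_not]

end Pool.Agent.H30.Shuf
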