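import Mathlib

/-! Shuffle, finite automata and one-counter machines given by finite lists; letters and states
are natural numbers. -/

namespace Pool.Agent.H30.Shuf

/-- `Sh u v w`: the word `w` is an interleaving of `u` and `v` -/
inductive Sh : List ℕ → List ℕ → List ℕ → Prop
  | nil : Sh [] [] []
  | left (x : ℕ) {u v w : List ℕ} : Sh u v w → Sh (x :: u) v (x :: w)
  | right (x : ℕ) {u v w : List ℕ} : Sh u v w → Sh u (x :: v) (x :: w)

def shuffle (L1 L2 : Set (List ℕ)) : Set (List ℕ) := {w | ∃ u ∈ L1, ∃ v ∈ L2, Sh u v w}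

/-- finite automaton: initial states, transitions (state, letter, state), final states -/
abbrev FA : Type := List ℕ × List (ℕ × ℕ × ℕ) × List ℕ

def Run (T : List (ℕ × ℕ × ℕ)) : ℕ → List ℕ → ℕ → Prop
  | p, [], q => p = q
  | p, x :: w, q => ∃ p', (p, x, p') ∈ T ∧ Run T p' w q

def FA.lang (A : FA) : Set (List ℕ) := {w | ∃ p ∈ A.1, ∃ q ∈ A.2.2, Run A.2.1 p w q}

/-- real-time one-counter machine: initial state, transitions
((state, letter, counter is zero), (state, action)), final states -/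
abbrev CM : Type := ℕ × List ((ℕ × ℕ × Bool) × (ℕ × ℕ)) × List ℕ

/-- action `1` increments, action `2` decrements, any other action keeps the counter -/
def upd (d c : ℕ) : ℕ := if d = 1 then c + 1 else if d = 2 then c - 1 else c

/-- computation from a configuration (state, counter) on a word, with its list of actions -/
def CRun (T : List ((ℕ × ℕ × Bool) × (ℕ × ℕ))) : ℕ × ℕ → List ℕ → List ℕ → ℕ × ℕ → Prop
  | c, [], ds, c' => ds = [] ∧ c = c'
  | c, x :: w, ds, c' => ∃ q d ds', ((c.1, x, decide (c.2 = 0)), (q, d)) ∈ T ∧ ds = d :: ds' ∧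
      CRun T (q, upd d c.2) w ds' c'

def CM.lang (M : CM) : Set (List ℕ) := {w | ∃ ds c, CRun M.2.1 (M.1, 0) w ds c ∧ c.1 ∈ M.2.2}

/-- deterministic, never decrements zero, and no increment follows a decrement -/
def IsDCM (M : CM) : Prop :=
  (∀ t ∈ M.2.1, ∀ t' ∈ M.2.1, t.1 = t'.1 → t = t') ∧ (∀ t ∈ M.2.1, t.1.2.2 = true → t.2.2 ≠ 2) ∧
    ∀ w ds c, CRun M.2.1 (M.1, 0) w ds c → ¬ List.Sublist [2, 1] ds

end Pool.Agent.H30.Shuf
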