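import Pool.Agent.H59.PureSieve

/-! Two-sided pure Brun sieve with an extra periodic weight. -/

set_option autoImplicit false

namespace Pool.Agent.H30.Sieve2

open Finset Pool.Agent.H59.PureSieve

theorem core (Q : Finset ℕ) (hQ : ∀ p ∈ Q, p.Prime) (f : ℕ → ℕ → ℝ)
    (hf0 : ∀ p x, 0 ≤ f p x) (hper : ∀ p ∈ Q, Function.Periodic (f p) p)
    (N : ℝ) (hN : 1 ≤ N) (hc : ∑ p ∈ Q, ∑ x ∈ range p, f p x ≤ N)
    (h : ℕ → ℝ) (q : ℕ) (hq : 0 < q) (hh0 : ∀ x, 0 ≤ h x) (hhp : Function.Periodic h q)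
    (hcop : ∀ p ∈ Q, Nat.Coprime p q) (r J : ℕ) :
    |∑ x ∈ range J, h x * T Q (fun p => f p x) r
      - J * ((∑ x ∈ range q, h x) / q) * T Q (fun p => (∑ x ∈ range p, f p x) / p) r|
      ≤ 3 * N ^ r * ∑ x ∈ range q, h x := by
  set c : ℕ → ℝ := fun p => ∑ x ∈ range p, f p x with hcdef
  set H := ∑ x ∈ range q, h x with hH
  have hH0 : 0 ≤ H := Finset.sum_nonneg (fun x _ => hh0 x)
  have hc0 : ∀ p, 0 ≤ c p := fun p => Finset.sum_nonneg (fun x _ => hf0 p x)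
  have h4 : ∑ S ∈ Q.powerset, ∏ p ∈ S, c p / N ≤ 3 := by
    rw [← Finset.prod_one_add]
    refine (Real.prod_one_add_le_exp_sum Q (f := fun p => c p / N)
      (fun p => div_nonneg (hc0 p) (by linarith))).trans ?_
    refine le_trans (Real.exp_le_exp.2 ?_) Real.exp_one_lt_three.le
    rw [← Finset.sum_div, div_le_one (by linarith)]
    exact hc
  unfold T
  simp_rw [Finset.mul_sum]
  rw [Finset.sum_comm, ← Finset.sum_sub_distrib]
  refine le_trans (Finset.abs_sum_le_sum_abs _ _) ?_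
  have : 3 * N ^ r * H ≥ ∑ S ∈ Q.powerset, N ^ r * H * ∏ p ∈ S, c p / N := by
    rw [← Finset.mul_sum]
    have : 0 ≤ N ^ r * H := by positivity
    nlinarith
  refine le_trans (Finset.sum_le_sum (fun S hS => ?_)) this
  have hSQ := Finset.mem_powerset.1 hS
  have hp0 : 0 ≤ ∏ p ∈ S, c p / N :=
    Finset.prod_nonneg (fun p _ => div_nonneg (hc0 p) (by linarith))
  split_ifs with hr
  · have hD : 0 < ∏ p ∈ S, p := Finset.prod_pos (fun p hp => (hQ p (hSQ hp)).pos)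
    have hper1 := prod_periodic S f (fun p hp => hper p (hSQ hp))
    have hper2 : Function.Periodic (fun x => h x * ∏ p ∈ S, f p x) ((∏ p ∈ S, p) * q) := by
      intro x
      have e1 : h (x + (∏ p ∈ S, p) * q) = h x := hhp.nat_mul _ x
      have e2 := hper1.nat_mul q x
      simp only [Nat.cast_id] at e2
      simp only [e1]
      rw [mul_comm (∏ p ∈ S, p) q, e2]
    have k1 := periodic_count (fun x => h x * ∏ p ∈ S, f p x) _ (Nat.mul_pos hD hq) hper2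
      (fun x => mul_nonneg (hh0 x) (Finset.prod_nonneg (fun p _ => hf0 p x))) J
    rw [sum_crt h (fun x => ∏ p ∈ S, f p x) q _ hD
      (Nat.Coprime.prod_left (fun p hp => hcop p (hSQ hp))) hhp hper1,
      sum_prod_crt S (fun p hp => hQ p (hSQ hp)) f (fun p hp => hper p (hSQ hp))] at k1
    have k2 : ∏ p ∈ S, c p / (p : ℝ) = (∏ p ∈ S, c p) / ((∏ p ∈ S, p : ℕ) : ℝ) := by
      rw [Finset.prod_div_distrib]; push_cast; rfl
    have k3 : ∏ p ∈ S, c p ≤ N ^ r * ∏ p ∈ S, c p / N := by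
      have : ∏ p ∈ S, c p = N ^ S.card * ∏ p ∈ S, c p / N := by
        rw [Finset.prod_div_distrib, Finset.prod_const]
        field_simp
      rw [this]
      exact mul_le_mul_of_nonneg_right (pow_le_pow_right₀ hN hr) hp0
    have e : ∑ x ∈ range J, h x * ((-1) ^ S.card * ∏ p ∈ S, f p x)
        - J * (H / q) * ((-1) ^ S.card * ∏ p ∈ S, c p / (p : ℝ))
        = (-1) ^ S.card * (∑ x ∈ range J, h x * ∏ p ∈ S, f p x
          - J * ((H * ∏ p ∈ S, c p) / (((∏ p ∈ S, p) * q : ℕ) : ℝ))) := by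
      rw [mul_sub, Finset.mul_sum, k2]
      congr 1
      · exact Finset.sum_congr rfl (fun x _ => by ring)
      · push_cast
        have : (0 : ℝ) < q := by exact_mod_cast hq
        have : (0 : ℝ) < ∏ p ∈ S, (p : ℝ) :=
          Finset.prod_pos (fun p hp => by exact_mod_cast (hQ p (hSQ hp)).pos)
        field_simp
    rw [e, abs_mul, abs_pow, abs_neg, abs_one, one_pow, one_mul]
    refine le_trans k1 ?_
    calc H * ∏ p ∈ S, c p ≤ H * (N ^ r * ∏ p ∈ S, c p / N) := mul_le_mul_of_nonneg_left k3 hH0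
      _ = _ := by ring
  · simp only [mul_zero, Finset.sum_const_zero, sub_zero, abs_zero]
    positivity

theorem level_small (Q : Finset ℕ) (t : ℕ → ℝ) (h0 : ∀ q, 0 ≤ t q) (h1 : ∀ q ∈ Q, t q ≤ 1 / 2)
    (w : ℕ) (hw : ∑ q ∈ Q, t q ≤ w) :
    1 / 8 ^ w ≤ ∏ q ∈ Q, (1 - t q) ∧
    ∑ S ∈ Q.powerset, (if S.card = 6 * w + 1 + 1 then ∏ q ∈ S, t q else 0)
      ≤ (∏ q ∈ Q, (1 - t q)) / 2 := by
  have l := level_le Q t h0 (6 * w + 1 + 1)
  have p := prod_lower Q t (fun q _ => h0 q) h1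
  set E := ∑ S ∈ Q.powerset, (if S.card = 6 * w + 1 + 1 then ∏ q ∈ S, t q else 0) with hE
  have e1 : Real.exp (2 * ∑ q ∈ Q, t q) ≤ Real.exp 1 ^ (2 * w) := by
    rw [← Real.exp_nat_mul, mul_one]
    exact Real.exp_le_exp.2 (by push_cast; linarith)
  have e2 : (Real.exp 1 ^ (2 * w))⁻¹ ≤ Real.exp (-(2 * ∑ q ∈ Q, t q)) := by
    rw [Real.exp_neg]
    exact inv_anti₀ (Real.exp_pos _) e1
  have hx := Real.exp_one_lt_d9
  have hx0 := Real.exp_pos 1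
  have e3 : Real.exp 1 ^ (2 * w) ≤ 8 ^ w := by
    rw [pow_mul]
    exact pow_le_pow_left₀ (by positivity) (by nlinarith) w
  have h8 : (0 : ℝ) < 8 ^ w := by positivity
  have e5 : (2 : ℝ) ^ (6 * w + 1 + 1) = 4 * (8 ^ w * 8 ^ w) := by
    rw [← mul_pow, pow_succ, pow_succ, pow_mul]; norm_num; ring
  have e6 : E ≤ 1 / (4 * 8 ^ w) := by
    rw [le_div_iff₀ (by positivity)]
    rw [e5] at l
    have : (E * (4 * 8 ^ w)) * 8 ^ w ≤ 1 * 8 ^ w := by nlinarith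
    exact le_of_mul_le_mul_right this h8
  have e7 : 1 / (8 : ℝ) ^ w ≤ (Real.exp 1 ^ (2 * w))⁻¹ := by
    rw [one_div]
    exact inv_anti₀ (by positivity) e3
  have e9 : 1 / (4 * (8 : ℝ) ^ w) = (1 / 8 ^ w) / 4 := by field_simp
  have h2 : 0 ≤ 1 / ((8 : ℝ) ^ w) := by positivity
  constructor <;> linarith

theorem upper (Q : Finset ℕ) (hQ : ∀ p ∈ Q, p.Prime) (f : ℕ → ℕ → ℝ)
    (hf0 : ∀ p x, 0 ≤ f p x) (hf1 : ∀ p x, f p x ≤ 1)
    (hper : ∀ p ∈ Q, Function.Periodic (f p) p)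
    (hhalf : ∀ p ∈ Q, (∑ x ∈ range p, f p x) / p ≤ 1 / 2) (w : ℕ)
    (hw : ∑ p ∈ Q, (∑ x ∈ range p, f p x) / p ≤ w)
    (N : ℝ) (hN : 1 ≤ N) (hc : ∑ p ∈ Q, ∑ x ∈ range p, f p x ≤ N)
    (h : ℕ → ℝ) (q : ℕ) (hq : 0 < q) (hh0 : ∀ x, 0 ≤ h x) (hhp : Function.Periodic h q)
    (hcop : ∀ p ∈ Q, Nat.Coprime p q) (J : ℕ) :
    ∑ x ∈ range J, h x * ∏ p ∈ Q, (1 - f p x) ≤
      3 / 2 * J * ((∑ x ∈ range q, h x) / q) * ∏ p ∈ Q, (1 - (∑ x ∈ range p, f p x) / p)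
        + 3 * N ^ (6 * w + 2) * ∑ x ∈ range q, h x := by
  have hc0 : ∀ p : ℕ, 0 ≤ (∑ x ∈ range p, f p x) / p :=
    fun p => div_nonneg (Finset.sum_nonneg (fun x _ => hf0 p x)) (Nat.cast_nonneg p)
  have k := abs_le.1 (core Q hQ f hf0 hper N hN hc h q hq hh0 hhp hcop (6 * w + 2) J)
  have hev : (-1 : ℝ) ^ (6 * w + 2) = 1 := Even.neg_one_pow ⟨3 * w + 1, by ring⟩
  have hodd : (-1 : ℝ) ^ (6 * w + 1) = -1 := Odd.neg_one_pow ⟨3 * w, by ring⟩
  have h1 : ∑ x ∈ range J, h x * ∏ p ∈ Q, (1 - f p x)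
      ≤ ∑ x ∈ range J, h x * T Q (fun p => f p x) (6 * w + 2) := by
    refine Finset.sum_le_sum (fun x _ => mul_le_mul_of_nonneg_left ?_ (hh0 x))
    have b := bonferroni Q (fun p => f p x) (fun p _ => hf0 p x) (fun p _ => hf1 p x) (6 * w + 2)
    rw [hev] at b; linarith
  have b := bonferroni Q (fun p => (∑ x ∈ range p, f p x) / p) (fun p _ => hc0 p)
    (fun p hp => by linarith [hhalf p hp]) (6 * w + 1)
  have s := T_succ Q (fun p => (∑ x ∈ range p, f p x) / p) (6 * w + 1)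
  have l := (level_small Q _ hc0 hhalf w hw).2
  rw [hodd] at b
  rw [hev] at s
  have hH : 0 ≤ (J : ℝ) * ((∑ x ∈ range q, h x) / q) :=
    mul_nonneg (Nat.cast_nonneg _) (div_nonneg (Finset.sum_nonneg (fun x _ => hh0 x))
      (Nat.cast_nonneg _))
  have h2 : T Q (fun p => (∑ x ∈ range p, f p x) / p) (6 * w + 2)
      ≤ 3 / 2 * ∏ p ∈ Q, (1 - (∑ x ∈ range p, f p x) / p) := by
    have : 6 * w + 1 + 1 = 6 * w + 2 := rfl
    rw [this] at s l
    linarith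
  have h3 := mul_le_mul_of_nonneg_left h2 hH
  linarith [k.2]

theorem lower (Q : Finset ℕ) (hQ : ∀ p ∈ Q, p.Prime) (f : ℕ → ℕ → ℝ)
    (hf0 : ∀ p x, 0 ≤ f p x) (hf1 : ∀ p x, f p x ≤ 1)
    (hper : ∀ p ∈ Q, Function.Periodic (f p) p)
    (hhalf : ∀ p ∈ Q, (∑ x ∈ range p, f p x) / p ≤ 1 / 2) (w : ℕ)
    (hw : ∑ p ∈ Q, (∑ x ∈ range p, f p x) / p ≤ w)
    (N : ℝ) (hN : 1 ≤ N) (hc : ∑ p ∈ Q, ∑ x ∈ range p, f p x ≤ N) (J : ℕ) :
    1 / 2 * J * ∏ p ∈ Q, (1 - (∑ x ∈ range p, f p x) / p) - 3 * N ^ (6 * w + 2)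
      ≤ ∑ x ∈ range J, ∏ p ∈ Q, (1 - f p x) := by
  have hc0 : ∀ p : ℕ, 0 ≤ (∑ x ∈ range p, f p x) / p :=
    fun p => div_nonneg (Finset.sum_nonneg (fun x _ => hf0 p x)) (Nat.cast_nonneg p)
  have k := abs_le.1 (core Q hQ f hf0 hper N hN hc (fun _ => 1) 1 one_pos (fun _ => zero_le_one)
    (fun _ => rfl) (fun p _ => Nat.coprime_one_right p) (6 * w + 1) J)
  simp only [one_mul, Finset.range_one, Finset.sum_singleton, Nat.cast_one, div_one,
    mul_one] at k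
  have hev : (-1 : ℝ) ^ (6 * w + 1 + 1) = 1 := Even.neg_one_pow ⟨3 * w + 1, by ring⟩
  have hodd : (-1 : ℝ) ^ (6 * w + 1) = -1 := Odd.neg_one_pow ⟨3 * w, by ring⟩
  have h1 : ∑ x ∈ range J, T Q (fun p => f p x) (6 * w + 1)
      ≤ ∑ x ∈ range J, ∏ p ∈ Q, (1 - f p x) := by
    refine Finset.sum_le_sum (fun x _ => ?_)
    have b := bonferroni Q (fun p => f p x) (fun p _ => hf0 p x) (fun p _ => hf1 p x) (6 * w + 1)
    rw [hodd] at b; linarith
  have b := bonferroni Q (fun p => (∑ x ∈ range p, f p x) / p) (fun p _ => hc0 p)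
    (fun p hp => by linarith [hhalf p hp]) (6 * w + 1 + 1)
  have s := T_succ Q (fun p => (∑ x ∈ range p, f p x) / p) (6 * w + 1)
  have l := (level_small Q _ hc0 hhalf w hw).2
  rw [hev] at b s
  have h2 : 1 / 2 * ∏ p ∈ Q, (1 - (∑ x ∈ range p, f p x) / p)
      ≤ T Q (fun p => (∑ x ∈ range p, f p x) / p) (6 * w + 1) := by linarith
  have h3 := mul_le_mul_of_nonneg_left h2 (Nat.cast_nonneg (α := ℝ) J)
  have h4 : N ^ (6 * w + 1) ≤ N ^ (6 * w + 2) := pow_le_pow_right₀ hN (by omega)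
  linarith [k.1]

end Pool.Agent.H30.Sieve2
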