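import Pool.Agent.H30.SimData

set_option autoImplicit false

namespace Pool.Agent.H30.Sim

abbrev Ed := Sym2 (Fin 6)

theorem ix_comm (i j : ℕ) (_h : i ≠ j) : ix i j = ix j i := by
  unfold ix; split_ifs <;> omega

open Classical in
noncomputable def toF (m : ℕ) : Finset Ed :=
  Finset.univ.filter fun e => ∃ i j : Fin 6, e = s(i, j) ∧ i ≠ j ∧ m.testBit (ix i j) = true

theorem mem_toF (m : ℕ) (i j : Fin 6) :
    s(i, j) ∈ toF m ↔ i ≠ j ∧ m.testBit (ix i j) = true := by
  unfold toF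
  simp only [Finset.mem_filter, Finset.mem_univ, true_and]
  constructor
  · rintro ⟨a, b, h, hab, ht⟩
    rcases Sym2.eq_iff.1 h with ⟨rfl, rfl⟩ | ⟨rfl, rfl⟩
    · exact ⟨hab, ht⟩
    · refine ⟨hab.symm, ?_⟩
      rw [ix_comm _ _ (fun h => hab (Fin.ext h).symm)]; exact ht
  · rintro ⟨h1, h2⟩; exact ⟨i, j, rfl, h1, h2⟩

theorem nd_toF (m : ℕ) (e : Ed) (h : e ∈ toF m) : ¬ e.IsDiag := by
  induction e using Sym2.ind with
  | h i j => rw [mem_toF] at h; simpa using h.1

def act (σ : Equiv.Perm (Fin 6)) (A : Finset Ed) : Finset Ed := A.image (Sym2.map σ)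

theorem act_act (σ τ : Equiv.Perm (Fin 6)) (A : Finset Ed) :
    act σ (act τ A) = act (σ * τ) A := by
  unfold act
  rw [Finset.image_image]
  congr 1
  funext e
  simp [Sym2.map_map]

theorem act_one (A : Finset Ed) : act 1 A = A := by
  unfold act
  simp

theorem act_mono (σ : Equiv.Perm (Fin 6)) {A B : Finset Ed} (h : A ⊆ B) : act σ A ⊆ act σ B :=
  Finset.image_subset_image h

theorem act_insert (σ : Equiv.Perm (Fin 6)) (e : Ed) (A : Finset Ed) :
    act σ (insert e A) = insert (Sym2.map σ e) (act σ A) := Finset.image_insert _ _ _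

theorem mem_act (σ : Equiv.Perm (Fin 6)) (e : Ed) (A : Finset Ed) :
    Sym2.map σ e ∈ act σ A ↔ e ∈ A := by
  unfold act
  exact (Sym2.map.injective σ.injective).mem_finset_image

theorem prs_mem (i j : Fin 6) (h : i < j) : (i.val, j.val) ∈ prs := by
  revert i j; decide

theorem prs_lt : ∀ p ∈ prs, p.1 < p.2 ∧ p.2 < 6 := by decide

theorem ix_inj (i j k l : Fin 6) (h1 : i ≠ j) (h2 : k ≠ l) (h : ix i j = ix k l) :
    s(i, j) = s(k, l) := by
  revert i j k l; decide

theorem toF_or (m : ℕ) (i j : Fin 6) (h : i ≠ j) :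
    toF (m ||| 2 ^ ix i j) = insert s(i, j) (toF m) := by
  ext e
  induction e using Sym2.ind with
  | h k l =>
    rw [Finset.mem_insert, mem_toF, mem_toF, Nat.testBit_or, Nat.testBit_two_pow]
    constructor
    · rintro ⟨h1, h2⟩
      simp only [Bool.or_eq_true, decide_eq_true_eq] at h2
      rcases h2 with h2 | h2
      · exact Or.inr ⟨h1, h2⟩
      · exact Or.inl (ix_inj _ _ _ _ h h1 h2).symm
    · rintro (h1 | ⟨h1, h2⟩)
      · rcases Sym2.eq_iff.1 h1 with ⟨rfl, rfl⟩ | ⟨rfl, rfl⟩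
        · simp [h]
        · refine ⟨h.symm, ?_⟩
          rw [ix_comm _ _ (fun h' => h (Fin.ext h'))]; simp
      · simp [h1, h2]

/-- `f` represents `σ`. -/
def Rep (f : ℕ → ℕ) (σ : Equiv.Perm (Fin 6)) : Prop := ∀ i : Fin 6, f i = σ i

theorem exists_rep (c : ℕ) (h : inj (pf c) = true) : ∃ σ, Rep (pf c) σ := by
  let g : Fin 6 → Fin 6 := fun i => ⟨pf c i, Nat.mod_lt _ (by norm_num)⟩
  have hg : Function.Injective g := by
    intro i j hij
    have hij' : pf c i = pf c j := congrArg Fin.val hij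
    by_contra hne
    unfold inj at h
    rw [List.all_eq_true] at h
    rcases lt_or_gt_of_ne hne with hlt | hlt
    · have := h _ (prs_mem i j hlt); simp [hij'] at this
    · have := h _ (prs_mem j i hlt); simp [hij'] at this
  exact ⟨Equiv.ofBijective g (Finite.injective_iff_bijective.1 hg), fun i => rfl⟩

theorem sub_iff {f : ℕ → ℕ} {σ : Equiv.Perm (Fin 6)} (hr : Rep f σ) (h x : ℕ) :
    sub f h x = true ↔ act σ (toF h) ⊆ toF x := by
  unfold sub
  rw [List.all_eq_true]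
  constructor
  · intro H e he
    unfold act at he
    obtain ⟨e0, he0, rfl⟩ := Finset.mem_image.1 he
    induction e0 using Sym2.ind with
    | h i j =>
      have key : ∀ i j : Fin 6, i < j → s(i, j) ∈ toF h → s(σ i, σ j) ∈ toF x := by
        intro i j hlt hm
        rw [mem_toF] at hm ⊢
        have := H _ (prs_mem i j hlt)
        simp only [hm.2, Bool.not_true, Bool.false_or, hr i, hr j] at this
        exact ⟨fun h' => hm.1 (σ.injective h'), this⟩
      have hne := ((mem_toF _ _ _).1 he0).1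
      rw [Sym2.map_mk]
      rcases lt_or_gt_of_ne hne with hlt | hlt
      · exact key i j hlt he0
      · rw [Sym2.eq_swap]; rw [Sym2.eq_swap] at he0; exact key j i hlt he0
  · intro H p hp
    obtain ⟨h1, h2⟩ := prs_lt p hp
    let i : Fin 6 := ⟨p.1, by omega⟩
    let j : Fin 6 := ⟨p.2, h2⟩
    have hij : i ≠ j := fun h' => by have := congrArg Fin.val h'; simp [i, j] at this; omega
    by_cases ht : h.testBit (ix p.1 p.2) = true
    · have hm : s(i, j) ∈ toF h := (mem_toF _ _ _).2 ⟨hij, ht⟩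
      have := H ((mem_act σ _ _).2 hm)
      rw [Sym2.map_mk, mem_toF] at this
      have e1 : f p.1 = σ i := hr i
      have e2 : f p.2 = σ j := hr j
      simp [e1, e2, this.2]
    · simp [ht]

theorem eqv_imp {f : ℕ → ℕ} {σ : Equiv.Perm (Fin 6)} (hr : Rep f σ) (x h : ℕ)
    (H : eqv f x h = true) : toF x = act σ (toF h) := by
  unfold eqv at H
  rw [List.all_eq_true] at H
  have key : ∀ i j : Fin 6, i < j → (s(i, j) ∈ toF h ↔ s(σ i, σ j) ∈ toF x) := by
    intro i j hlt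
    rw [mem_toF, mem_toF]
    have := H _ (prs_mem i j hlt)
    simp only [hr i, hr j, beq_iff_eq] at this
    rw [this]
    simp [σ.injective.ne_iff]
  ext e
  obtain ⟨e0, rfl⟩ : ∃ e0, e = Sym2.map σ e0 :=
    ⟨Sym2.map σ.symm e, by simp [Sym2.map_map]⟩
  rw [mem_act]
  induction e0 using Sym2.ind with
  | h i j =>
    rw [Sym2.map_mk]
    rcases lt_trichotomy i j with hlt | rfl | hlt
    · exact (key i j hlt).symm
    · simp [mem_toF]
    · rw [Sym2.eq_swap, Sym2.eq_swap (a := i)]; exact (key j i hlt).symm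

theorem sep_imp (σ : Equiv.Perm (Fin 6)) (h g : ℕ) (hh : h ∈ HL) (hg : g ∈ GdL) :
    ¬ act σ (toF h) ⊆ toF g := by
  have hr : Rep (lf [σ 0, σ 1, σ 2, σ 3, σ 4, σ 5]) σ := by
    intro i; fin_cases i <;> rfl
  rw [← sub_iff hr]
  have hs := sep_true
  have hm : ∀ i : Fin 6, (i : ℕ) ∈ r6 := by decide
  have hne : ∀ i j : Fin 6, i ≠ j → (((σ i : ℕ) == (σ j : ℕ)) = false) := by
    intro i j hij
    simp only [beq_eq_false_iff_ne, ne_eq]
    exact fun h' => hij (σ.injective (Fin.ext h'))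
  unfold sep at hs
  have h1 := List.all_eq_true.1 (List.all_eq_true.1 hs _ (hm (σ 0))) _ (hm (σ 1))
  rw [hne 0 1 (by decide), Bool.false_or] at h1
  have h2 := List.all_eq_true.1 h1 _ (hm (σ 2))
  rw [hne 0 2 (by decide), hne 1 2 (by decide), Bool.false_or, Bool.false_or] at h2
  have h3 := List.all_eq_true.1 h2 _ (hm (σ 3))
  rw [hne 0 3 (by decide), hne 1 3 (by decide), hne 2 3 (by decide)] at h3
  simp only [Bool.false_or] at h3
  have h4 := List.all_eq_true.1 h3 _ (hm (σ 4))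
  rw [hne 0 4 (by decide), hne 1 4 (by decide), hne 2 4 (by decide), hne 3 4 (by decide)] at h4
  simp only [Bool.false_or] at h4
  have h5 := List.all_eq_true.1 h4 _ (hm (σ 5))
  rw [hne 0 5 (by decide), hne 1 5 (by decide), hne 2 5 (by decide), hne 3 5 (by decide),
    hne 4 5 (by decide)] at h5
  simp only [Bool.false_or] at h5
  have h6 := List.all_eq_true.1 (List.all_eq_true.1 h5 _ hh) _ hg
  simpa using h6

def LL : Set (Finset Ed) := {l | ∃ σ : Equiv.Perm (Fin 6), ∃ h ∈ HL, l = act σ (toF h)}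

def Good2 (A B : Finset Ed) : Prop :=
  ∃ σ : Equiv.Perm (Fin 6), ∃ t < 398, A = act σ (toF (TA t)) ∧ B = act σ (toF (TB t))

def Good1 (A B : Finset Ed) : Prop :=
  ∃ e : Ed, ¬ e.IsDiag ∧ e ∉ A ∧ e ∉ B ∧ Good2 (insert e A) B

theorem chkAll_imp : ∀ (l : List ℕ) (s : ℕ), chkAll l s = true →
    ∀ t < l.length, ∃ w, chkT (s + t) w = true := by
  intro l
  induction l with
  | nil => intro s _ t ht; simp at ht
  | cons w ws ih =>
    intro s h t ht
    simp only [chkAll, Bool.and_eq_true] at h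
    cases t with
    | zero => exact ⟨w, h.1⟩
    | succ t =>
      obtain ⟨w', hw⟩ := ih (s + 1) h.2 t (by simpa using ht)
      exact ⟨w', by rw [← hw]; congr 1; omega⟩

theorem chkP_imp (a b : ℕ) : ∀ (l : List (ℕ × ℕ)) (w : ℕ), chkP a b l w = true →
    ∀ p ∈ l, ∃ w', chkE a b p.1 p.2 w' = true := by
  intro l
  induction l with
  | nil => intro w _ p hp; simp at hp
  | cons q qs ih =>
    intro w h p hp
    simp only [chkP, Bool.and_eq_true] at h
    rcases List.mem_cons.1 hp with rfl | hp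
    · exact ⟨_, h.1⟩
    · exact ih _ h.2 p hp

theorem chkT_all (t : ℕ) (ht : t < 398) : ∃ w, chkT t w = true := by
  have := chkAll_imp WL 0 chkAll_true t (by
    have : WL.length = 398 := by decide +kernel
    omega)
  simpa using this

theorem getD_mem (l : List ℕ) (i : ℕ) (h : i < l.length) : l.getD i 0 ∈ l := by
  rw [List.getD_eq_getElem _ _ h]; exact List.getElem_mem h

theorem good2_safe {A B : Finset Ed} (h : Good2 A B) : ∀ l ∈ LL, ¬ l ⊆ A := by
  obtain ⟨σ, t, ht, rfl, -⟩ := h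
  rintro l ⟨τ, h, hh, rfl⟩ hsub
  obtain ⟨w, hw⟩ := chkT_all t ht
  simp only [chkT, Bool.and_eq_true, decide_eq_true_eq] at hw
  obtain ⟨⟨⟨⟨h1, h2⟩, h3⟩, -⟩, -⟩ := hw
  obtain ⟨ρ, hρ⟩ := exists_rep _ h1
  rw [sub_iff hρ] at h3
  apply sep_imp (ρ * σ⁻¹ * τ) h _ hh (getD_mem GdL _ h2)
  refine subset_trans ?_ h3
  have := act_mono (ρ * σ⁻¹) hsub
  rw [act_act, act_act, inv_mul_cancel_right] at this
  exact this

theorem nd_map (σ : Equiv.Perm (Fin 6)) (e : Ed) (h : ¬ e.IsDiag) : ¬ (Sym2.map σ e).IsDiag := by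
  induction e using Sym2.ind with
  | h i j => simpa [σ.injective.eq_iff] using h

theorem good2_free {A B : Finset Ed} (h : Good2 A B) : ∃ e : Ed, ¬ e.IsDiag ∧ e ∉ A ∧ e ∉ B := by
  obtain ⟨σ, t, ht, rfl, rfl⟩ := h
  obtain ⟨w, hw⟩ := chkT_all t ht
  simp only [chkT, Bool.and_eq_true, decide_eq_true_eq] at hw
  obtain ⟨⟨-, h4⟩, -⟩ := hw
  obtain ⟨p, hp, h5⟩ := List.any_eq_true.1 h4
  obtain ⟨h1, h2⟩ := prs_lt p hp
  let i : Fin 6 := ⟨p.1, by omega⟩
  let j : Fin 6 := ⟨p.2, h2⟩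
  have hij : i ≠ j := fun h' => by have := congrArg Fin.val h'; simp [i, j] at this; omega
  simp only [Bool.and_eq_true, Bool.not_eq_true'] at h5
  refine ⟨Sym2.map σ s(i, j), nd_map _ _ (by simpa using hij), ?_, ?_⟩
  · rw [mem_act, mem_toF]; simp [i, j, h5.1]
  · rw [mem_act, mem_toF]; simp [i, j, h5.2]

theorem good2_step {A B : Finset Ed} (h : Good2 A B) (e : Ed) (hd : ¬ e.IsDiag) (hA : e ∉ A)
    (hB : e ∉ B) : (∃ l ∈ LL, l ⊆ insert e B) ∨ Good1 A (insert e B) := by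
  obtain ⟨σ, t, ht, rfl, rfl⟩ := h
  obtain ⟨w, hw⟩ := chkT_all t ht
  simp only [chkT, Bool.and_eq_true, decide_eq_true_eq] at hw
  obtain ⟨-, h4⟩ := hw
  obtain ⟨e0, rfl⟩ : ∃ e0, e = Sym2.map σ e0 :=
    ⟨Sym2.map σ.symm e, by simp [Sym2.map_map]⟩
  rw [mem_act] at hA hB
  obtain ⟨i, j, hlt, rfl⟩ : ∃ i j : Fin 6, i < j ∧ e0 = s(i, j) := by
    induction e0 using Sym2.ind with
    | h i j =>
      rcases lt_trichotomy i j with hlt | rfl | hlt
      · exact ⟨i, j, hlt, rfl⟩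
      · simp at hd
      · exact ⟨j, i, hlt, Sym2.eq_swap⟩
  obtain ⟨v, hv⟩ := chkP_imp _ _ _ _ h4 _ (prs_mem i j hlt)
  rw [mem_toF] at hA hB
  have hA' : (TA t).testBit (ix i j) = false := by simpa [hlt.ne] using hA
  have hB' : (TB t).testBit (ix i j) = false := by simpa [hlt.ne] using hB
  simp only [chkE, hA', hB', Bool.false_or, Bool.and_eq_true] at hv
  obtain ⟨h1, h2⟩ := hv
  obtain ⟨ρ, hρ⟩ := exists_rep _ h1
  rw [← act_insert, ← toF_or _ _ _ hlt.ne]
  split_ifs at h2 with hc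
  · left
    rw [sub_iff hρ] at h2
    refine ⟨_, ⟨σ * ρ, _, getD_mem HL _ hc, rfl⟩, ?_⟩
    rw [← act_act]; exact act_mono σ h2
  · right
    simp only [Bool.and_eq_true, decide_eq_true_eq, Bool.not_eq_true'] at h2
    obtain ⟨⟨⟨⟨⟨k1, k2⟩, k3⟩, k4⟩, k5⟩, k6⟩ := h2
    set k := (v / 46656 - 12) % 36 with hk
    have hk36 : k < 36 := Nat.mod_lt _ (by norm_num)
    let i' : Fin 6 := ⟨k / 6, by omega⟩
    let j' : Fin 6 := ⟨k % 6, by omega⟩
    have hij : i' ≠ j' := fun h' => by have := congrArg Fin.val h'; simp [i', j'] at this; omega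
    have hix : ix i' j' = k := by
      simp only [ix, i', j', k1, if_true]; omega
    refine ⟨Sym2.map σ s(i', j'), nd_map _ _ (by simpa using hij), ?_, ?_, ?_⟩
    · rw [mem_act, mem_toF, hix]; simp [k3]
    · rw [mem_act, mem_toF, hix]; simp only [k4]; simp
    · refine ⟨σ * ρ, _, k2, ?_, ?_⟩
      · rw [← act_insert, ← toF_or _ _ _ hij, hix, eqv_imp hρ _ _ k5, act_act]
      · rw [eqv_imp hρ _ _ k6, act_act]

theorem toF_zero : toF 0 = ∅ := by
  ext e
  induction e using Sym2.ind with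
  | h i j => simp [mem_toF]

theorem good1_zero : Good1 ∅ ∅ := by
  refine ⟨s(0, 1), by simp, by simp, by simp, 1, 0, by norm_num, ?_, ?_⟩
  · have : TA 0 = 0 ||| 2 ^ ix (0 : Fin 6) (1 : Fin 6) := by decide +kernel
    rw [act_one, this, toF_or _ _ _ (by decide), toF_zero]
  · have : TB 0 = 0 := by decide +kernel
    rw [act_one, this, toF_zero]

theorem LL_ne (l : Finset Ed) (hl : l ∈ LL) : l.Nonempty ∧ ∀ x ∈ l, ¬ x.IsDiag := by
  constructor
  · rw [Finset.nonempty_iff_ne_empty]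
    rintro rfl
    obtain ⟨e, -, -, -, h⟩ := good1_zero
    exact good2_safe h _ hl (Finset.empty_subset _)
  · obtain ⟨σ, h, -, rfl⟩ := hl
    intro x hx
    obtain ⟨e, he, rfl⟩ := Finset.mem_image.1 hx
    exact nd_map _ _ (nd_toF _ _ he)

theorem LL_act (σ : Equiv.Perm (Fin 6)) (l : Finset Ed) (hl : l ∈ LL) :
    l.image (Sym2.map σ) ∈ LL := by
  obtain ⟨τ, h, hh, rfl⟩ := hl
  exact ⟨σ * τ, h, hh, act_act σ τ _⟩

end Pool.Agent.H30.Sim
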