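import Pool.Agent.H30.NBb

/-! A multiplicative machine with inseparable acceptance and finite rejection classes. -/

namespace Pool.Agent.H30.Sl

open Pool.Agent.H30.MulM Pool.Agent.H30.NB Pool.Agent.H38.CM Function Relation

theorem exists_out (g : ℕ → ℕ → Bool) (hg : Primrec₂ g) (o : ℕ → ℕ → ℕ) (ho : Primrec₂ o) :
    ∃ w : W, ∀ x k, g x k = true → ∃ k' u, g x k' = true ∧ Ev w (init x) u ∧ u 3 = o x k' := by
  have hp : Nat.Primrec' (n := 2) fun v => if g v.head v.tail.head then 0 else 1 := by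
    apply Nat.Primrec'.prim_iff.2
    refine Primrec.ite ?_ (Primrec.const 0) (Primrec.const 1)
    refine Primrec.eq.comp (hg.comp Primrec.vector_head
      (Primrec.vector_head.comp Primrec.vector_tail)) (Primrec.const true)
  have hq : Nat.Primrec' (n := 2) fun v => o v.head v.tail.head :=
    Nat.Primrec'.prim_iff.2 (ho.comp Primrec.vector_head
      (Primrec.vector_head.comp Primrec.vector_tail))
  obtain ⟨w, hw⟩ := comp_of_prim hp ![0, 1] 2 4 (fun i => by fin_cases i <;> simp) (by omega)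
    (fun i => by fin_cases i <;> simp)
  obtain ⟨z, hz⟩ := comp_of_prim hq ![0, 1] 3 4 (fun i => by fin_cases i <;> simp) (by omega)
    (fun i => by fin_cases i <;> simp)
  have hw' : ∀ v, ∃ u, Ev (.seq w (.seq z (.inc 1))) v u ∧
      u 2 = (if g (v 0) (v 1) then 0 else 1) ∧ u 3 = o (v 0) (v 1) ∧ u 0 = v 0 ∧ u 1 = v 1 + 1 := by
    intro v
    obtain ⟨u, e, a1, a2⟩ := hw v
    obtain ⟨u', e', b1, b2⟩ := hz u
    have c0 := a2 0 (by omega) (by omega)
    have c1 := a2 1 (by omega) (by omega)
    refine ⟨_, Ev.seq e (Ev.seq e' (Ev.inc _ _)), ?_, ?_, ?_, ?_⟩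
    · rw [update_of_ne (by omega), b2 2 (by omega) (by omega), a1]; simp [List.Vector.tail_ofFn]
    · rw [update_of_ne (by omega), b1]; simp [List.Vector.tail_ofFn, c0, c1]
    · rw [update_of_ne (by omega), b2 0 (by omega) (by omega), c0]
    · rw [update_self, b2 1 (by omega) (by omega), c1]
  refine ⟨.seq (.inc 2) (.loop 2 (.seq w (.seq z (.inc 1)))), fun x k hk => ?_⟩
  have key : ∀ j (v : ℕ → ℕ), v 0 = x → v 1 + j = k → v 2 = 1 →
      ∃ k' u, g x k' = true ∧ Ev (.loop 2 (.seq w (.seq z (.inc 1)))) v u ∧ u 3 = o x k' := by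
    intro j
    induction j with
    | zero =>
      intro v h0 h1 h2
      obtain ⟨y, f1, a1, a0, a2, a3⟩ := hw' (update v 2 0)
      rw [update_of_ne (by omega), update_of_ne (by omega), h0, show v 1 = k by omega] at a1 a0
      exact ⟨k, y, hk, Ev.l1 (n := 0) h2 f1 (Ev.l0 (by simpa [hk] using a1)), a0⟩
    | succ j ih =>
      intro v h0 h1 h2
      obtain ⟨y, f1, a1, a0, a2, a3⟩ := hw' (update v 2 0)
      rw [update_of_ne (by omega)] at a2 a3
      rw [update_of_ne (by omega), update_of_ne (by omega), h0] at a1 a0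
      by_cases hy : g x (v 1) = true
      · exact ⟨_, y, hy, Ev.l1 (n := 0) h2 f1 (Ev.l0 (by simpa [hy] using a1)), a0⟩
      · obtain ⟨k', u, b1, hu, b2⟩ := ih y (by omega) (by omega) (by simpa [hy] using a1)
        exact ⟨k', u, b1, Ev.l1 (n := 0) h2 f1 hu, b2⟩
  obtain ⟨k', u, b1, hu, b2⟩ := key k (update (init x) 2 (init x 2 + 1)) (by simp [init])
    (by simp [init]) (by simp [init])
  exact ⟨k', u, b1, Ev.seq (Ev.inc _ _) hu, b2⟩

/-- No computable predicate contains `A` and avoids `B`. -/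
def Insep (A B : ℕ → Prop) : Prop :=
  ∀ p : ℕ → Prop, ComputablePred p → (∀ n, A n → p n) → (∀ n, B n → ¬ p n) → False

open Nat.Partrec.Code in
theorem exists_sep : ∃ (w : W) (A B : ℕ → Prop), Insep A B ∧
    (∀ n, A n → ∃ u, Ev w (init n) u ∧ u 3 = 0) ∧ ∀ n, B n → ∃ u, Ev w (init n) u ∧ u 3 ≠ 0 := by
  have he : Primrec₂ fun x k => evaln k (Denumerable.ofNat Nat.Partrec.Code x) x :=
    primrec_evaln.comp (((Primrec.snd.pair
      ((Primrec.ofNat Nat.Partrec.Code).comp Primrec.fst))).pair Primrec.fst)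
  obtain ⟨w, hw⟩ := exists_out
    (fun x k => (evaln k (Denumerable.ofNat Nat.Partrec.Code x) x).isSome)
    (Primrec.option_isSome.comp he)
    (fun x k => (evaln k (Denumerable.ofNat Nat.Partrec.Code x) x).getD 0)
    (Primrec.option_getD.comp he (Primrec.const 0))
  have key : ∀ n y, y ∈ (Denumerable.ofNat Nat.Partrec.Code n).eval n →
      ∃ u, Ev w (init n) u ∧ u 3 = y := by
    intro n y hy
    obtain ⟨k, hk⟩ := evaln_complete.1 hy
    obtain ⟨k', u, h1, h2, h3⟩ := hw n k (Option.isSome_iff_exists.2 ⟨y, hk⟩)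
    obtain ⟨y', hy'⟩ := Option.isSome_iff_exists.1 h1
    refine ⟨u, h2, ?_⟩
    rw [h3, hy']
    exact Part.mem_unique (evaln_sound hy') hy
  refine ⟨w, fun n => 0 ∈ (Denumerable.ofNat Nat.Partrec.Code n).eval n,
    fun n => 1 ∈ (Denumerable.ofNat Nat.Partrec.Code n).eval n, ?_, fun n h => key n 0 h,
    fun n h => ?_⟩
  · rintro p ⟨_, hp⟩ h1 h2
    have : Computable fun n => bif decide (p n) then 1 else 0 :=
      hp.cond (Computable.const 1) (Computable.const 0)
    obtain ⟨c, hc⟩ := exists_code.1 (Partrec.nat_iff.1 this)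
    by_cases h : p (Encodable.encode c)
    · exact h2 _ (by simp [hc, h]) h
    · exact h (h1 _ (by simp [hc, h]))
  · obtain ⟨u, h1, h2⟩ := key n 1 h
    exact ⟨u, h1, by omega⟩

/-- One step of a machine given by its edges. -/
def Step {S : Type} (E : S → ℕ → ℕ → S → Prop) (c d : S × ℕ) : Prop :=
  ∃ k p, E c.1 k p d.1 ∧ ok k p c.2 d.2

inductive Edge {Q : Type} (ins : Q → Bool → Option Q × ℕ × ℕ) (π : ℕ) :
    Option (Option Q × Bool) → ℕ → ℕ → Option (Option Q × Bool) → Prop
  | ins (s : Q) (b : Bool) : Edge ins π (some (some s, false)) (ins s b).2.1 ((ins s b).2.2 + 1)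
      (some ((ins s b).1, true))
  | tick (o : Option Q) : Edge ins π (some (o, true)) 0 π (some (o, false))
  | acc : Edge ins π (some (none, false)) 2 7 none

theorem ok_mul {k p N N' m : ℕ} (h : ok k p N N') (hc : p.Coprime m) : ok k p (N * m) (N' * m) := by
  unfold ok at h ⊢
  split_ifs at h ⊢
  · rw [h, mul_assoc]
  · rw [h, mul_assoc]
  · exact ⟨by rw [h.1], fun h' => h.2 (hc.dvd_of_dvd_mul_right h')⟩

theorem machine : ∃ (S : Type) (_ : Finite S) (h q0 : S) (E : S → ℕ → ℕ → S → Prop) (P : ℕ)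
    (A B : ℕ → Prop), Insep A B ∧ (∀ s k p s', E s k p s' → 0 < p ∧ p ≤ P) ∧
    (∀ n, A n → ∃ N, ReflTransGen (Step E) (q0, 2 ^ n) (h, N)) ∧
    ∀ n, B n → ∃ (C : Set (S × ℕ)) (b : ℕ), (∀ c ∈ C, 0 < c.2 ∧ c.2 ≤ b ∧ c.1 ≠ h) ∧
      (q0, 2 ^ n) ∈ C ∧ ∀ c d, Step E c d → (c ∈ C ↔ d ∈ C) := by
  obtain ⟨w, A, B, h1, h2, h3⟩ := exists_sep
  have := St.finite w
  obtain ⟨P, hP⟩ := Finite.exists_le fun z : St w × Bool => (ins w z.1 z.2).2.2 + 1
  obtain ⟨π, hπ, pπ⟩ := Nat.exists_infinite_primes (P + 8)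
  have cop : ∀ p j, 0 < p → p < π → p.Coprime (π ^ j) := fun p j a b =>
    ((Nat.coprime_of_lt_prime a.ne' b pπ).symm).pow_right j
  have sim : ∀ {c d : Option (St w) × ℕ}, ReflTransGen (MS w) c d → ∃ j,
      ReflTransGen (Step (Edge (ins w) π)) (some (c.1, false), c.2)
        (some (d.1, false), d.2 * π ^ j) := by
    intro c d h
    induction h with
    | refl => exact ⟨0, by simpa using ReflTransGen.refl⟩
    | @tail d e _ hs ih =>
      obtain ⟨j, hj⟩ := ih
      obtain ⟨s, b, e1, e2, e3⟩ := hs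
      have := hP (s, b)
      refine ⟨j + 1, (hj.tail (c := (some (e.1, true), e.2 * π ^ j)) ⟨_, _, ?_,
        ok_mul e3 (cop _ j (by omega) (by dsimp only at this; omega))⟩).tail
        ⟨_, _, .tick _, by simp [ok]; ring⟩⟩
      rw [e1, e2]
      exact .ins s b
  have run : ∀ n u, Ev w (init n) u → ∃ N, N ≠ 0 ∧ (7 ∣ N ↔ u 3 ≠ 0) ∧
      ReflTransGen (Step (Edge (ins w) π)) (some (some (entry w), false), 2 ^ n)
        (some (none, false), N) := by
    intro n u hu
    obtain ⟨N, a1, a2, a3⟩ := run_of_ev hu (2 ^ n) (by positivity) (val_init n)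
    obtain ⟨j, hj⟩ := sim a3
    have a4 := val_zero 3 a1
    rw [pr_eq, Nat.nth_prime_three_eq_seven, a2] at a4
    refine ⟨_, mul_ne_zero a1 (pow_ne_zero j pπ.ne_zero), ?_, hj⟩
    rw [(cop 7 j (by omega) (by omega)).dvd_mul_right]
    tauto
  have bd : ∀ s k p s', Edge (ins w) π s k p s' → 0 < p ∧ p ≤ π := by
    intro s k p s' h
    cases h with
    | ins s b => have := hP (s, b); dsimp only at this; omega
    | tick o => omega
    | acc => omega
  refine ⟨_, inferInstance, none, some (some (entry w), false), Edge (ins w) π, π, A, B, h1, bd,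
    fun n hn => ?_, fun n hn => ?_⟩
  · obtain ⟨u, a1, a2⟩ := h2 n hn
    obtain ⟨N, b1, b2, b3⟩ := run n u a1
    exact ⟨N, b3.tail ⟨_, _, .acc, by simp [ok, b2, a2]⟩⟩
  obtain ⟨u, a1, a2⟩ := h3 n hn
  obtain ⟨N, b1, b2, b3⟩ := run n u a1
  let Φ : Option (Option (St w) × Bool) × ℕ → ℕ := fun c =>
    2 * c.2.factorization π + if (c.1.map Prod.snd) = some true then 1 else 0
  refine ⟨{c | ReflTransGen (Step (Edge (ins w) π)) c (some (none, false), N)},
    π ^ (2 * N.factorization π) * N, fun c hc => ?_, b3, fun c d hs =>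
      ⟨fun hc => ?_, fun hd => ReflTransGen.head hs hd⟩⟩
  · have key : 0 < c.2 ∧ c.1 ≠ none ∧ ∃ l, Φ c + l = 2 * N.factorization π ∧ c.2 ≤ π ^ l * N := by
      induction hc using ReflTransGen.head_induction_on with
      | refl => exact ⟨by omega, by simp, 0, by simp [Φ], by simp⟩
      | @head c d hs _ ih =>
        obtain ⟨c1, c2⟩ := c
        obtain ⟨d1, d2⟩ := d
        obtain ⟨k, p, e1, e2⟩ := hs
        obtain ⟨i1, i2, l, i3, i4⟩ := ih
        dsimp only at e1 e2 i1 i2 i4 ⊢
        obtain ⟨p1, p2⟩ := bd _ _ _ _ e1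
        have q1 : 0 < c2 ∧ c2 ≤ π * d2 := by
          unfold ok at e2
          split_ifs at e2
          · subst e2
            exact ⟨Nat.pos_of_mul_pos_left i1, by nlinarith [Nat.mul_le_mul p1 (le_refl c2)]⟩
          · subst e2
            exact ⟨by positivity, Nat.mul_le_mul_right _ p2⟩
          · obtain ⟨rfl, -⟩ := e2
            exact ⟨i1, by nlinarith⟩
        refine ⟨q1.1, by cases e1 <;> simp, l + 1, ?_, q1.2.trans (by
          rw [pow_succ', mul_assoc]; exact Nat.mul_le_mul_left _ i4)⟩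
        cases e1 with
        | ins s b =>
          have := hP (s, b)
          have f0 : ((ins w s b).2.2 + 1).factorization π = 0 :=
            Nat.factorization_eq_zero_of_lt (by dsimp only at this; omega)
          have : c2.factorization π = d2.factorization π := by
            unfold ok at e2
            split_ifs at e2
            · rw [e2, Nat.factorization_mul p1.ne' q1.1.ne']; simp [f0]
            · rw [e2, Nat.factorization_mul p1.ne' i1.ne']; simp [f0]
            · rw [e2.1]
          simp only [Φ, Option.map_some, Option.some.injEq] at i3 ⊢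
          simp only [↓reduceIte, Bool.false_eq_true] at i3 ⊢
          omega
        | tick o =>
          have : d2.factorization π = c2.factorization π + 1 := by
            obtain rfl : d2 = π * c2 := by simpa [ok] using e2
            rw [Nat.factorization_mul p1.ne' q1.1.ne']
            simp [pπ.factorization_self, add_comm]
          simp only [Φ, Option.map_some, Option.some.injEq] at i3 ⊢
          simp only [↓reduceIte, Bool.false_eq_true] at i3 ⊢
          omega
        | acc => exact absurd rfl i2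
    obtain ⟨k1, k2, l, k3, k4⟩ := key
    exact ⟨k1, k4.trans (Nat.mul_le_mul_right _ (Nat.pow_le_pow_right pπ.pos (by omega))), k2⟩
  · obtain ⟨c1, c2⟩ := c
    obtain ⟨d1, d2⟩ := d
    obtain ⟨k, p, e1, e2⟩ := hs
    dsimp only at e1 e2
    rcases hc.cases_head with e | ⟨⟨f1, f2⟩, ⟨k', p', g1, g2⟩, g3⟩
    · obtain ⟨rfl, rfl⟩ := Prod.mk.inj e
      cases e1
      exact absurd (b2.2 a2) (by simpa [ok] using e2.2)
    · dsimp only at g1 g2
      suffices (d1, d2) = (f1, f2) from this ▸ g3
      cases e1 with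
      | ins s b =>
        cases g1 with
        | ins _ b' =>
          have e : ins w s b' = ins w s b := by
            cases b <;> cases b'
            · rfl
            · exact ins_det w s g2 e2
            · exact (ins_det w s e2 g2).symm
            · rfl
          rw [e] at g2 ⊢
          rw [ok_fun e2 g2]
      | tick o =>
        cases g1
        simp only [ok, ↓reduceIte] at e2 g2
        rw [e2, g2]
      | acc =>
        cases g1
        rw [e2.1, g2.1]

end Pool.Agent.H30.Sl
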