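import Pool.Agent.H30.SortDefs

set_option autoImplicit false

namespace Pool.Agent.H30.Sort
open Pool.Agent.H30.SortDefs Equiv

def inv {n : ℕ} (σ : Perm (Fin n)) : ℕ :=
  (Finset.univ.filter fun p : Fin n × Fin n => p.1 < p.2 ∧ σ p.2 < σ p.1).card

theorem inv_swap {n : ℕ} (σ : Perm (Fin n)) (i j : Fin n) (h : (i : ℕ) + 1 = j) :
    inv (swap i j * σ) ≤ inv σ + 1 := by
  unfold inv
  refine le_trans (Finset.card_le_card (t := insert (σ.symm i, σ.symm j) (Finset.univ.filter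
    fun p : Fin n × Fin n => p.1 < p.2 ∧ σ p.2 < σ p.1)) ?_) (Finset.card_insert_le _ _)
  rintro ⟨a, b⟩ hp
  simp only [Finset.mem_filter, Finset.mem_univ, true_and, Perm.mul_apply, Finset.mem_insert,
    Prod.mk.injEq, Equiv.eq_symm_apply] at hp ⊢
  by_cases h1 : σ a = i ∧ σ b = j
  · exact Or.inl h1
  · right
    refine ⟨hp.1, ?_⟩
    have := hp.2
    simp only [Equiv.swap_apply_def, Fin.ext_iff, Fin.lt_def] at this h1 ⊢
    split_ifs at this <;> omega

theorem walk {n : ℕ} (a b : Cyc n) (w : (Gamma n).Walk a b) (π : Perm (Fin n)) (c : Perm (Fin n))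
    (h : b.1 = π * c * π⁻¹) : ∃ ρ : Perm (Fin n), a.1 = ρ * c * ρ⁻¹ ∧ inv ρ ≤ inv π + w.length := by
  induction w with
  | nil => exact ⟨π, h, by simp⟩
  | @cons u v _ huv w ih =>
    obtain ⟨ρ, h1, h2⟩ := ih h
    obtain ⟨-, ⟨i, j, e, h3⟩ | ⟨i, j, e, h3⟩⟩ := (SimpleGraph.fromRel_adj _ _ _).1 huv
    · refine ⟨swap i j * ρ, ?_, ?_⟩
      · have : u.1 = swap i j * v.1 * swap i j := by
          rw [h3]; simp [mul_assoc]
        rw [this, h1]; simp [mul_assoc]
      · have := inv_swap ρ i j e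
        simp only [SimpleGraph.Walk.length_cons]
        omega
    · refine ⟨swap i j * ρ, ?_, ?_⟩
      · rw [h3, h1]; simp [mul_assoc]
      · have := inv_swap ρ i j e
        simp only [SimpleGraph.Walk.length_cons]
        omega

def conj {n : ℕ} (π : Perm (Fin n)) (γ : Cyc n) : Cyc n :=
  ⟨π * γ.1 * π⁻¹, γ.2.1.conj, by
    rw [Perm.support_conj, γ.2.2]; simp⟩

theorem reach (n : ℕ) (c : Cyc (n + 1)) (π : Perm (Fin (n + 1))) :
    (Gamma (n + 1)).Reachable c (conj π c) := by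
  have hπ : π ∈ Submonoid.closure (Set.range fun i : Fin n => swap i.castSucc i.succ) := by
    rw [Perm.mclosure_swap_castSucc_succ]; trivial
  induction hπ using Submonoid.closure_induction_left with
  | one =>
    have : conj 1 c = c := Subtype.ext (by simp [conj])
    rw [this]
  | mul_left x hx y _ ih =>
    obtain ⟨i, rfl⟩ := hx
    refine ih.trans ?_
    by_cases e : conj y c = conj (swap i.castSucc i.succ * y) c
    · rw [← e]
    · apply SimpleGraph.Adj.reachable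
      refine (SimpleGraph.fromRel_adj _ _ _).2 ⟨e, Or.inl ⟨i.castSucc, i.succ, by simp, ?_⟩⟩
      simp [conj, mul_assoc]

def c18 : Cyc 18 := ⟨finRotate 18, isCycle_finRotate, support_finRotate⟩

def f1 : Fin 18 → Fin 18 := ![0, 12, 11, 10, 9, 8, 7, 6, 5, 17, 4, 3, 16, 2, 15, 1, 14, 13]
def f2 : Fin 18 → Fin 18 := ![0, 15, 13, 11, 10, 8, 7, 6, 5, 4, 3, 2, 1, 17, 16, 14, 12, 9]
def p1 : Perm (Fin 18) := ⟨f1, f2, by decide, by decide⟩

theorem chk : ∀ k : Fin 18, 83 ≤ (Finset.univ.filter fun p : Fin 18 × Fin 18 =>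
    p.1 < p.2 ∧ f1 (p.2 + k) < f1 (p.1 + k)).card := by decide +kernel

theorem lower (ρ : Perm (Fin 18)) (h : p1 * finRotate 18 * p1⁻¹ = ρ * finRotate 18 * ρ⁻¹) :
    83 ≤ inv ρ := by
  have h1 : ∀ x, p1⁻¹ (ρ (x + 1)) = p1⁻¹ (ρ x) + 1 := by
    intro x
    have := congrArg (fun s : Perm (Fin 18) => p1⁻¹ (s (ρ x))) h
    simpa [finRotate_apply] using this.symm
  have h2 : ∀ x : Fin 18, p1⁻¹ (ρ x) = x + p1⁻¹ (ρ 0) := by
    intro x
    induction x using Fin.induction with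
    | zero => simp
    | succ i ih =>
      rw [← Fin.coeSucc_eq_succ, h1, ih]
      abel
  have h3 : ∀ x, ρ x = f1 (x + p1⁻¹ (ρ 0)) := by
    intro x
    rw [← h2]
    exact (p1.apply_symm_apply _).symm
  have := chk (p1⁻¹ (ρ 0))
  unfold inv
  simp only [← h3] at this
  exact this

theorem main : (Gamma 18).Reachable c18 (conj p1 c18) ∧ 83 ≤ (Gamma 18).dist c18 (conj p1 c18) := by
  have r : (Gamma 18).Reachable c18 (conj p1 c18) := reach 17 c18 p1
  refine ⟨r, ?_⟩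
  obtain ⟨w, hw⟩ := r.symm.exists_walk_length_eq_dist
  obtain ⟨ρ, h1, h2⟩ := walk _ _ w 1 (finRotate 18) (by simp [c18])
  have h3 := lower ρ h1
  have h4 : inv (1 : Perm (Fin 18)) = 0 := by decide +kernel
  rw [SimpleGraph.dist_comm]
  omega

end Pool.Agent.H30.Sort
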