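import Mathlib

set_option autoImplicit false

namespace Pool.Agent.H30.SortDefs

/-- The `n`-cycles of `Fin n` (for `n ≥ 2`). -/
def Cyc (n : ℕ) : Type := {γ : Equiv.Perm (Fin n) // γ.IsCycle ∧ γ.support = Finset.univ}

/-- Two distinct `n`-cycles are adjacent if they are conjugate by an adjacent transposition. -/
def Gamma (n : ℕ) : SimpleGraph (Cyc n) := SimpleGraph.fromRel fun γ δ =>
  ∃ i j : Fin n, (i : ℕ) + 1 = j ∧ δ.1 = Equiv.swap i j * γ.1 * Equiv.swap i j

/-- Inversions of a word. -/
def invL : List ℕ → ℕ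
  | [] => 0
  | x :: l => l.countP (· < x) + invL l

def Admissible (n : ℕ) (l : List ℕ) : Prop := ∀ k ∈ Finset.Icc 1 n, 2 * (l.take k).sum ≤ k * (n + 1)

instance (n : ℕ) (l : List ℕ) : Decidable (Admissible n l) := by unfold Admissible; infer_instance

/-- Move the value `v` left, one step at a time, past smaller values, as long as the word stays
admissible (at most `f` steps). -/
def moveLeft (n v : ℕ) : ℕ → List ℕ → List ℕ
  | 0, l => l
  | f + 1, l =>
    let x := l.idxOf v
    let l' := l.take (x - 1) ++ [v, l.getD (x - 1) 0] ++ l.drop (x + 1)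
    if 0 < x ∧ l.getD (x - 1) 0 < v ∧ Admissible n l' then moveLeft n v f l' else l

/-- The permutation `π₀` in one-line notation. -/
def pi0 (n : ℕ) : List ℕ :=
  (List.range (n / 2)).foldl (fun l t => moveLeft n (n - t) n l)
    ((List.range' 1 (n - n / 2)).reverse ++ (List.range' (n - n / 2 + 1) (n / 2)).reverse)

end Pool.Agent.H30.SortDefs
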