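import Mathlib

set_option autoImplicit false

namespace Pool.Agent.H30.SqA

def Iso (f : ℕ → ℚ) (i l : ℕ) : Prop :=
  ∀ a < l, ∀ b < l, (f (i + a) < f (i + b) ↔ f (i + l + a) < f (i + l + b))

def SqFree (f : ℕ → ℚ) (n : ℕ) : Prop := ∀ i l, 2 ≤ l → i + 2 * l ≤ n → ¬ Iso f i l

def UD (f : ℕ → ℚ) (n c : ℕ) : Prop :=
  ∀ i, i + 1 < n → ((i + c) % 4 < 2 → f i < f (i + 1)) ∧ (2 ≤ (i + c) % 4 → f (i + 1) < f i)

theorem UD.lt_iff {f : ℕ → ℚ} {n c : ℕ} (h : UD f n c) (i : ℕ) (hi : i + 1 < n) :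
    f i < f (i + 1) ↔ (i + c) % 4 < 2 := by
  constructor
  · intro h1
    by_contra h2
    have := (h i hi).2 (by omega)
    linarith
  · exact (h i hi).1

theorem UD.mod4 {f : ℕ → ℚ} {n c i l : ℕ} (h : UD f n c) (hl : 2 ≤ l) (hn : i + 2 * l ≤ n)
    (hI : Iso f i l) : l % 4 = 0 := by
  have a := hI 0 (by omega) 1 (by omega)
  simp only [Nat.add_zero] at a
  rw [h.lt_iff i (by omega), h.lt_iff (i + l) (by omega)] at a
  by_cases h3 : l = 2
  · omega
  have b := hI 1 (by omega) 2 (by omega)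
  rw [show i + 2 = i + 1 + 1 by ring, show i + l + 2 = i + l + 1 + 1 by ring,
    h.lt_iff (i + 1) (by omega), h.lt_iff (i + l + 1) (by omega)] at b
  omega

theorem Iso.rc {F G : ℕ → ℚ} {N i l : ℕ} (h : ∀ q, q < N → G q = - F (N - 1 - q))
    (hn : i + 2 * l ≤ N) (hI : Iso F i l) : Iso G (N - i - 2 * l) l := by
  intro a ha b hb
  rw [h _ (by omega), h _ (by omega), h _ (by omega), h _ (by omega)]
  simp only [neg_lt_neg_iff]
  have := hI (l - 1 - b) (by omega) (l - 1 - a) (by omega)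
  rw [show N - 1 - (N - i - 2 * l + b) = i + l + (l - 1 - b) by omega,
    show N - 1 - (N - i - 2 * l + a) = i + l + (l - 1 - a) by omega,
    show N - 1 - (N - i - 2 * l + l + b) = i + (l - 1 - b) by omega,
    show N - 1 - (N - i - 2 * l + l + a) = i + (l - 1 - a) by omega]
  exact this.symm

def D (g : ℕ → ℚ) (a : ℕ) (B : ℚ) (p : ℕ) : ℚ :=
  if p % 2 = 1 then g (p / 2) else if p % 4 = 0 then -B - p else B + 2 * a - p

structure Good (g : ℕ → ℚ) (a : ℕ) (B : ℚ) : Prop where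
  odd : a % 2 = 1
  bd : ∀ j, j < a → -B < g j ∧ g j < B
  inj : ∀ i j, i < a → j < a → g i = g j → i = j
  sq : SqFree g a
  anti : ∀ j, j < a → g j = - g (a - 1 - j)

theorem D_odd (g : ℕ → ℚ) (a : ℕ) (B : ℚ) (p : ℕ) (h : p % 2 = 1) : D g a B p = g (p / 2) := by
  unfold D; rw [if_pos h]
theorem D_low (g : ℕ → ℚ) (a : ℕ) (B : ℚ) (p : ℕ) (h : p % 4 = 0) : D g a B p = -B - p := by
  unfold D; rw [if_neg (by omega), if_pos h]
theorem D_high (g : ℕ → ℚ) (a : ℕ) (B : ℚ) (p : ℕ) (h : p % 4 = 2) :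
    D g a B p = B + 2 * a - p := by
  unfold D; rw [if_neg (by omega), if_neg (by omega)]

theorem D_cases {g : ℕ → ℚ} {a : ℕ} {B : ℚ} (hg : Good g a B) (p : ℕ) (hp : p < 2 * a + 1) :
    (p % 2 = 1 ∧ -B < D g a B p ∧ D g a B p < B) ∨
    (p % 4 = 0 ∧ D g a B p ≤ -B ∧ -(B + 2 * a + 1) < D g a B p) ∨
    (p % 4 = 2 ∧ B ≤ D g a B p ∧ D g a B p < B + 2 * a + 1) := by
  have h0 : (0 : ℚ) ≤ p := by positivity
  have h1 : (p : ℚ) ≤ 2 * a := by exact_mod_cast (by omega : p ≤ 2 * a)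
  rcases (by omega : p % 2 = 1 ∨ p % 4 = 0 ∨ p % 4 = 2) with h | h | h
  · left; rw [D_odd _ _ _ _ h]; exact ⟨h, hg.bd _ (by omega)⟩
  · right; left; rw [D_low _ _ _ _ h]; exact ⟨h, by linarith, by linarith⟩
  · right; right; rw [D_high _ _ _ _ h]; exact ⟨h, by linarith, by linarith⟩

theorem Good.pos {g : ℕ → ℚ} {a : ℕ} {B : ℚ} (hg : Good g a B) : 0 < B := by
  have := hg.bd 0 (by have := hg.odd; omega)
  linarith [this.1, this.2]

theorem D_UD {g : ℕ → ℚ} {a : ℕ} {B : ℚ} (hg : Good g a B) : UD (D g a B) (2 * a + 1) 0 := by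
  intro i hi
  have h1 := D_cases hg i (by omega)
  have h2 := D_cases hg (i + 1) hi
  constructor <;> intro h <;> rcases h1 with h1 | h1 | h1 <;> rcases h2 with h2 | h2 | h2 <;>
    first | (exfalso; omega) | linarith [h1.2.1, h1.2.2, h2.2.1, h2.2.2]

theorem D_good {g : ℕ → ℚ} {a : ℕ} {B : ℚ} (hg : Good g a B) :
    Good (D g a B) (2 * a + 1) (B + 2 * a + 1) := by
  have hB := hg.pos
  have ha : (0 : ℚ) ≤ a := by positivity
  refine ⟨by omega, ?_, ?_, ?_, ?_⟩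
  · intro j hj
    rcases D_cases hg j hj with h | h | h <;> constructor <;> linarith [h.2.1, h.2.2]
  · intro i j hi hj h
    have h1 := D_cases hg i hi
    have h2 := D_cases hg j hj
    rcases h1 with h1 | h1 | h1 <;> rcases h2 with h2 | h2 | h2
    · rw [D_odd _ _ _ _ h1.1, D_odd _ _ _ _ h2.1] at h
      have := hg.inj _ _ (by omega) (by omega) h
      omega
    · linarith [h1.2.1, h1.2.2, h2.2.1, h2.2.2]
    · linarith [h1.2.1, h1.2.2, h2.2.1, h2.2.2]
    · linarith [h1.2.1, h1.2.2, h2.2.1, h2.2.2]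
    · rw [D_low _ _ _ _ h1.1, D_low _ _ _ _ h2.1] at h
      have : (i : ℚ) = j := by linarith
      exact_mod_cast this
    · linarith [h1.2.1, h1.2.2, h2.2.1, h2.2.2]
    · linarith [h1.2.1, h1.2.2, h2.2.1, h2.2.2]
    · linarith [h1.2.1, h1.2.2, h2.2.1, h2.2.2]
    · rw [D_high _ _ _ _ h1.1, D_high _ _ _ _ h2.1] at h
      have : (i : ℚ) = j := by linarith
      exact_mod_cast this
  · intro i l hl hn hI
    have h4 := (D_UD hg).mod4 hl hn hI
    apply hg.sq (i / 2) (l / 2) (by omega) (by omega)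
    intro x hx y hy
    have := hI (2 * (i / 2 + x) + 1 - i) (by omega) (2 * (i / 2 + y) + 1 - i) (by omega)
    rw [D_odd _ _ _ _ (by omega), D_odd _ _ _ _ (by omega), D_odd _ _ _ _ (by omega),
      D_odd _ _ _ _ (by omega)] at this
    rw [show (i + (2 * (i / 2 + x) + 1 - i)) / 2 = i / 2 + x by omega,
      show (i + (2 * (i / 2 + y) + 1 - i)) / 2 = i / 2 + y by omega,
      show (i + l + (2 * (i / 2 + x) + 1 - i)) / 2 = i / 2 + l / 2 + x by omega,
      show (i + l + (2 * (i / 2 + y) + 1 - i)) / 2 = i / 2 + l / 2 + y by omega] at this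
    exact this
  · intro j hj
    have ho := hg.odd
    have hc : ((2 * a + 1 - 1 - j : ℕ) : ℚ) = 2 * a - j := by
      rw [show 2 * a + 1 - 1 - j = 2 * a - j by omega, Nat.cast_sub (by omega)]
      push_cast; ring
    rcases (by omega : j % 2 = 1 ∨ j % 4 = 0 ∨ j % 4 = 2) with h | h | h
    · rw [D_odd _ _ _ _ h, D_odd _ _ _ _ (by omega), hg.anti _ (by omega)]
      congr 2; omega
    · rw [D_low _ _ _ _ h, D_high _ _ _ _ (by omega), hc]; ring
    · rw [D_high _ _ _ _ h, D_low _ _ _ _ (by omega), hc]; ring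

theorem exists_good (N : ℕ) : ∃ g a B, N ≤ a ∧ Good g a B := by
  induction N with
  | zero =>
    refine ⟨fun _ => 0, 1, 1, by omega, by omega, by intro j _; norm_num, by intro i j _ _ _; omega,
      by intro i l _ _; omega, by intro j _; simp⟩
  | succ N ih =>
    obtain ⟨g, a, B, h, hg⟩ := ih
    exact ⟨_, _, _, by omega, D_good hg⟩

def ins (f : ℕ → ℚ) (p : ℕ) (x : ℚ) (q : ℕ) : ℚ :=
  if q < p then f q else if q = p then x else f (q - 1)

theorem iso2 (F : ℕ → ℚ) (i : ℕ) (h : (F i < F (i + 1) ∧ F (i + 2) < F (i + 3)) ∨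
    (F (i + 1) < F i ∧ F (i + 3) < F (i + 2))) : Iso F i 2 := by
  intro a ha b hb
  have e : i + 2 + 1 = i + 3 := by ring
  rcases h with h | h <;> interval_cases a <;> interval_cases b <;>
    simp only [Nat.add_zero, e, lt_irrefl] <;> constructor <;> intro _ <;> linarith [h.1, h.2]

theorem ins_mid {f : ℕ → ℚ} {n c : ℕ} (h : UD f n c) (p : ℕ) (x : ℚ) (h3 : 3 ≤ p) (hp : p + 3 ≤ n)
    (hx : ∀ q, q < n → x ≠ f q) : ∃ i l, 2 ≤ l ∧ i + 2 * l ≤ n + 1 ∧ Iso (ins f p x) i l := by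
  obtain ⟨r, rfl⟩ : ∃ r, p = r + 3 := ⟨p - 3, by omega⟩
  have e0 : ins f (r + 3) x r = f r := by unfold ins; rw [if_pos (by omega)]
  have e1 : ins f (r + 3) x (r + 1) = f (r + 1) := by unfold ins; rw [if_pos (by omega)]
  have e2 : ins f (r + 3) x (r + 2) = f (r + 2) := by unfold ins; rw [if_pos (by omega)]
  have e3 : ins f (r + 3) x (r + 3) = x := by unfold ins; rw [if_neg (by omega), if_pos rfl]
  have e4 : ins f (r + 3) x (r + 4) = f (r + 3) := by
    unfold ins; rw [if_neg (by omega), if_neg (by omega)]; rfl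
  have e5 : ins f (r + 3) x (r + 5) = f (r + 4) := by
    unfold ins; rw [if_neg (by omega), if_neg (by omega)]; rfl
  have e6 : ins f (r + 3) x (r + 6) = f (r + 5) := by
    unfold ins; rw [if_neg (by omega), if_neg (by omega)]; rfl
  have u0 := h r (by omega)
  have u1 := h (r + 1) (by omega)
  have u3 := h (r + 3) (by omega)
  have u4 := h (r + 4) (by omega)
  have x2 := lt_or_gt_of_ne (hx (r + 2) (by omega))
  have x3 := lt_or_gt_of_ne (hx (r + 3) (by omega))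
  have i0 := iso2 (ins f (r + 3) x) r
  have i1 := iso2 (ins f (r + 3) x) (r + 1)
  have i2 := iso2 (ins f (r + 3) x) (r + 2)
  have i3 := iso2 (ins f (r + 3) x) (r + 3)
  simp only [add_assoc, Nat.reduceAdd, e0, e1, e2, e3, e4, e5, e6] at i0 i1 i2 i3 u0 u1 u3 u4
  rcases (by omega : (r + c) % 4 = 0 ∨ (r + c) % 4 = 1 ∨ (r + c) % 4 = 2 ∨ (r + c) % 4 = 3) with
    h4 | h4 | h4 | h4
  · rcases x2 with x2 | x2
    · exact ⟨r + 2, 2, le_rfl, by omega, i2 (Or.inr ⟨x2, u3.2 (by omega)⟩)⟩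
    · exact ⟨r, 2, le_rfl, by omega, i0 (Or.inl ⟨u0.1 (by omega), x2⟩)⟩
  · rcases x3 with x3 | x3
    · exact ⟨r + 3, 2, le_rfl, by omega, i3 (Or.inl ⟨x3, u4.1 (by omega)⟩)⟩
    · exact ⟨r + 1, 2, le_rfl, by omega, i1 (Or.inr ⟨u1.2 (by omega), x3⟩)⟩
  · rcases x2 with x2 | x2
    · exact ⟨r, 2, le_rfl, by omega, i0 (Or.inr ⟨u0.2 (by omega), x2⟩)⟩
    · exact ⟨r + 2, 2, le_rfl, by omega, i2 (Or.inl ⟨x2, u3.1 (by omega)⟩)⟩
  · rcases x3 with x3 | x3
    · exact ⟨r + 1, 2, le_rfl, by omega, i1 (Or.inl ⟨u1.1 (by omega), x3⟩)⟩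
    · exact ⟨r + 3, 2, le_rfl, by omega, i3 (Or.inr ⟨x3, u4.2 (by omega)⟩)⟩

theorem getD_ins (f : ℕ → ℚ) (n p : ℕ) (x : ℚ) (hp : p ≤ n) (q : ℕ) (hq : q ≤ n) :
    (((List.range n).map f).take p ++ x :: ((List.range n).map f).drop p).getD q 0
      = ins f p x q := by
  have hl : (((List.range n).map f).take p).length = p := by simp [hp]
  unfold ins
  rw [List.getD_eq_getElem?_getD]
  split_ifs with h1 h2
  · rw [List.getElem?_append_left (by omega), List.getElem?_take_of_lt h1]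
    simp [show q < n by omega]
  · rw [List.getElem?_append_right (by omega), hl, h2]
    simp
  · rw [List.getElem?_append_right (by omega), hl]
    obtain ⟨r, rfl⟩ : ∃ r, q = p + (r + 1) := ⟨q - p - 1, by omega⟩
    rw [show p + (r + 1) - p = r + 1 by omega, List.getElem?_cons_succ, List.getElem?_drop]
    simp [show p + r < n by omega]

end Pool.Agent.H30.SqA
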