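import Pool.Agent.H30.SqA

set_option autoImplicit false

namespace Pool.Agent.H30.SqA

def P (p : ℕ) : ℕ := [2, 19, 16, 6, 10, 15, 14, 1, 17, 18, 13, 3, 5, 9, 8, 4, 11, 12, 7].getD p 0

def sig (Q : ℕ → ℚ) (m : ℕ) (B : ℚ) (p : ℕ) : ℚ :=
  if p < 19 then B + P p else if p < 19 + m then Q (p - 19) else - (B + P (37 + m - p))

theorem sig_l (Q : ℕ → ℚ) (m : ℕ) (B : ℚ) (p : ℕ) (h : p < 19) : sig Q m B p = B + P p := by
  unfold sig; rw [if_pos h]
theorem sig_m (Q : ℕ → ℚ) (m : ℕ) (B : ℚ) (p : ℕ) (h : 19 ≤ p) (h2 : p < 19 + m) :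
    sig Q m B p = Q (p - 19) := by
  unfold sig; rw [if_neg (by omega), if_pos h2]
theorem sig_r (Q : ℕ → ℚ) (m : ℕ) (B : ℚ) (p : ℕ) (h2 : 19 + m ≤ p) :
    sig Q m B p = - (B + P (37 + m - p)) := by
  unfold sig; rw [if_neg (by omega), if_neg (by omega)]

theorem sig_anti {Q : ℕ → ℚ} {m : ℕ} {B : ℚ} (hQ : Good Q m B) (p : ℕ) (hp : p < 38 + m) :
    sig Q m B p = - sig Q m B (38 + m - 1 - p) := by
  rcases (by omega : p < 19 ∨ (19 ≤ p ∧ p < 19 + m) ∨ 19 + m ≤ p) with h | h | h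
  · rw [sig_l _ _ _ _ h, sig_r _ _ _ _ (by omega), neg_neg]
    congr 3; omega
  · rw [sig_m _ _ _ _ h.1 h.2, sig_m _ _ _ _ (by omega) (by omega), hQ.anti _ (by omega)]
    congr 2; omega
  · rw [sig_r _ _ _ _ h, sig_l _ _ _ _ (by omega)]
    congr 4; omega

theorem P_inj : ∀ i < 19, ∀ j < 19, P i = P j → i = j := by decide

theorem sig_inj {Q : ℕ → ℚ} {m : ℕ} {B : ℚ} (hQ : Good Q m B) (p q : ℕ) (hp : p < 38 + m)
    (hq : q < 38 + m) (h : sig Q m B p = sig Q m B q) : p = q := by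
  have hB := hQ.pos
  have n0 : ∀ j, (0 : ℚ) ≤ P j := fun j => by positivity
  rcases (by omega : p < 19 ∨ (19 ≤ p ∧ p < 19 + m) ∨ 19 + m ≤ p) with h1 | h1 | h1 <;>
  rcases (by omega : q < 19 ∨ (19 ≤ q ∧ q < 19 + m) ∨ 19 + m ≤ q) with h2 | h2 | h2
  · rw [sig_l _ _ _ _ h1, sig_l _ _ _ _ h2] at h
    exact P_inj _ h1 _ h2 (by exact_mod_cast (add_left_cancel h))
  · rw [sig_l _ _ _ _ h1, sig_m _ _ _ _ h2.1 h2.2] at h
    linarith [(hQ.bd (q - 19) (by omega)).2, n0 p]
  · rw [sig_l _ _ _ _ h1, sig_r _ _ _ _ h2] at h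
    linarith [n0 p, n0 (37 + m - q)]
  · rw [sig_l _ _ _ _ h2, sig_m _ _ _ _ h1.1 h1.2] at h
    linarith [(hQ.bd (p - 19) (by omega)).2, n0 q]
  · rw [sig_m _ _ _ _ h2.1 h2.2, sig_m _ _ _ _ h1.1 h1.2] at h
    have := hQ.inj _ _ (by omega) (by omega) h
    omega
  · rw [sig_r _ _ _ _ h2, sig_m _ _ _ _ h1.1 h1.2] at h
    linarith [(hQ.bd (p - 19) (by omega)).1, n0 (37 + m - q)]
  · rw [sig_l _ _ _ _ h2, sig_r _ _ _ _ h1] at h
    linarith [n0 q, n0 (37 + m - p)]
  · rw [sig_r _ _ _ _ h1, sig_m _ _ _ _ h2.1 h2.2] at h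
    linarith [(hQ.bd (q - 19) (by omega)).1, n0 (37 + m - p)]
  · rw [sig_r _ _ _ _ h1, sig_r _ _ _ _ h2] at h
    have := P_inj (37 + m - p) (by omega) (37 + m - q) (by omega)
      (by exact_mod_cast (add_left_cancel (neg_injective h)))
    omega

theorem P_ud : ∀ i < 18, ((i + 1) % 4 < 2 → P i < P (i + 1)) ∧ (2 ≤ (i + 1) % 4 → P (i + 1) < P i) := by
  decide

theorem sig_UD {Q : ℕ → ℚ} {m : ℕ} {B : ℚ} (hQ : Good Q m B) (hU : UD Q m 0) (hm : m % 4 = 3) :
    UD (sig Q m B) (38 + m) 1 := by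
  have n0 : ∀ j, (0 : ℚ) ≤ P j := fun j => by positivity
  have left : ∀ i, i ≤ 18 → ((i + 1) % 4 < 2 → sig Q m B i < sig Q m B (i + 1)) ∧
      (2 ≤ (i + 1) % 4 → sig Q m B (i + 1) < sig Q m B i) := by
    intro i hi
    by_cases h : i = 18
    · subst h
      refine ⟨by omega, fun _ => ?_⟩
      rw [sig_l _ _ _ 18 (by omega), sig_m _ _ _ _ (by omega) (by omega)]
      linarith [(hQ.bd (18 + 1 - 19) (by omega)).2, n0 18]
    · rw [sig_l _ _ _ _ (by omega), sig_l _ _ _ _ (by omega)]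
      have := P_ud i (by omega)
      constructor
      · intro h1
        have : (P i : ℚ) < P (i + 1) := by exact_mod_cast this.1 h1
        linarith
      · intro h1
        have : (P (i + 1) : ℚ) < P i := by exact_mod_cast this.2 h1
        linarith
  intro i hi
  rcases (by omega : i ≤ 18 ∨ (19 ≤ i ∧ i + 1 < 19 + m) ∨ 18 + m ≤ i) with h | h | h
  · exact left i h
  · rw [sig_m _ _ _ _ (by omega) (by omega), sig_m _ _ _ _ (by omega) (by omega),
      show i + 1 - 19 = i - 19 + 1 by omega]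
    have := hU (i - 19) (by omega)
    exact ⟨fun h1 => this.1 (by omega), fun h1 => this.2 (by omega)⟩
  · rw [sig_anti hQ i (by omega), sig_anti hQ (i + 1) (by omega)]
    have := left (38 + m - 1 - (i + 1)) (by omega)
    rw [show 38 + m - 1 - (i + 1) + 1 = 38 + m - 1 - i by omega] at this
    simp only [neg_lt_neg_iff]
    exact ⟨fun h1 => this.1 (by omega), fun h1 => this.2 (by omega)⟩

def key (p : ℕ) : ℕ :=
  if p < 19 then 10 + P p else if (p - 19) % 4 = 0 then 0 else if (p - 19) % 4 = 2 then 4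
    else if (p - 19) % 8 = 1 then 1 else if (p - 19) % 8 = 5 then 3 else 2

def chk (i l : ℕ) : Bool := (List.range l).any fun a => (List.range l).any fun b =>
  decide (key (i + a) < key (i + b)) && decide (key (i + l + b) < key (i + l + a))

theorem fin_check0 : ∀ i < 19, ∀ l < 22, (l % 4 = 0 ∧ 2 ≤ l ∧ i + l ≤ 21 ∧ (i ≠ 8 ∨ l ≠ 8)) →
    chk i l = true := by
  decide +kernel

theorem fin_check (i : ℕ) (hi : i < 19) (l : ℕ) (hl : l < 22) (h1 : l % 4 = 0) (h2 : 2 ≤ l)
    (h3 : i + l ≤ 21) (h4 : i ≠ 8 ∨ l ≠ 8) :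
    ∃ a < l, ∃ b < l, key (i + a) < key (i + b) ∧ key (i + l + b) < key (i + l + a) := by
  have := fin_check0 i hi l hl ⟨h1, h2, h3, h4⟩
  simpa [chk] using this

section main
variable {g : ℕ → ℚ} {a : ℕ} {B : ℚ} (hg : Good g a B) (ha : 20 ≤ a)
include hg ha

theorem key_cases (p : ℕ) (hp : p < 50) :
    let s := sig (D (D g a B) (2 * a + 1) (B + 2 * a + 1)) (2 * (2 * a + 1) + 1)
      (B + 2 * a + 1 + 2 * ((2 * a + 1 : ℕ) : ℚ) + 1) p
    (key p = 0 ∧ s ≤ -(B + 2 * a + 1)) ∨ (key p = 1 ∧ -(B + 2 * a + 1) < s ∧ s ≤ -B) ∨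
    (key p = 2 ∧ -B < s ∧ s < B) ∨ (key p = 3 ∧ B ≤ s ∧ s < B + 2 * a + 1) ∨
    (key p = 4 ∧ B + 2 * a + 1 ≤ s ∧ s < B + 2 * a + 1 + 2 * ((2 * a + 1 : ℕ) : ℚ) + 1) ∨
    (10 ≤ key p ∧ s = B + 2 * a + 1 + 2 * ((2 * a + 1 : ℕ) : ℚ) + 1 + key p - 10) := by
  intro s
  by_cases h : p < 19
  · right; right; right; right; right
    have : key p = 10 + P p := by unfold key; rw [if_pos h]
    refine ⟨by omega, ?_⟩
    simp only [s]
    rw [sig_l _ _ _ _ h, this]
    push_cast; ring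
  have hs : s = D (D g a B) (2 * a + 1) (B + 2 * a + 1) (p - 19) := sig_m _ _ _ _ (by omega) (by omega)
  rw [hs]
  rcases D_cases (D_good hg) (p - 19) (by omega) with h1 | h1 | h1
  · rw [D_odd _ _ _ _ h1.1]
    rcases D_cases hg ((p - 19) / 2) (by omega) with h2 | h2 | h2
    · right; right; left
      refine ⟨?_, h2.2.1, h2.2.2⟩
      unfold key
      rw [if_neg h, if_neg (by omega), if_neg (by omega), if_neg (by omega), if_neg (by omega)]
    · right; left
      refine ⟨?_, h2.2.2, h2.2.1⟩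
      unfold key
      rw [if_neg h, if_neg (by omega), if_neg (by omega), if_pos (by omega)]
    · right; right; right; left
      refine ⟨?_, h2.2.1, h2.2.2⟩
      unfold key
      rw [if_neg h, if_neg (by omega), if_neg (by omega), if_neg (by omega), if_pos (by omega)]
  · left
    refine ⟨?_, h1.2.1⟩
    unfold key
    rw [if_neg h, if_pos h1.1]
  · right; right; right; right; left
    refine ⟨?_, h1.2.1, h1.2.2⟩
    unfold key
    rw [if_neg h, if_neg (by omega), if_pos h1.1]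

theorem key_lt (p q : ℕ) (hp : p < 50) (hq : q < 50) (h : key p < key q) :
    sig (D (D g a B) (2 * a + 1) (B + 2 * a + 1)) (2 * (2 * a + 1) + 1)
      (B + 2 * a + 1 + 2 * ((2 * a + 1 : ℕ) : ℚ) + 1) p <
    sig (D (D g a B) (2 * a + 1) (B + 2 * a + 1)) (2 * (2 * a + 1) + 1)
      (B + 2 * a + 1 + 2 * ((2 * a + 1 : ℕ) : ℚ) + 1) q := by
  have h1 := key_cases hg ha p hp
  have h2 := key_cases hg ha q hq
  have hB := hg.pos
  have h0 : (0 : ℚ) ≤ a := by positivity
  have h3 : (0 : ℚ) ≤ ((2 * a + 1 : ℕ) : ℚ) := by positivity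
  have h4 : (key p : ℚ) < key q := by exact_mod_cast h
  dsimp only at h1 h2
  rcases h2 with h2 | h2 | h2 | h2 | h2 | h2
  · omega
  · rcases h1 with h1 | h1 | h1 | h1 | h1 | h1 <;> first | (exfalso; omega) | linarith [h1.2, h2.2.1]
  · rcases h1 with h1 | h1 | h1 | h1 | h1 | h1
    · linarith [h1.2, h2.2.1]
    · linarith [h1.2.2, h2.2.1]
    all_goals (exfalso; omega)
  · rcases h1 with h1 | h1 | h1 | h1 | h1 | h1
    · linarith [h1.2, h2.2.1]
    · linarith [h1.2.2, h2.2.1]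
    · linarith [h1.2.2, h2.2.1]
    all_goals (exfalso; omega)
  · rcases h1 with h1 | h1 | h1 | h1 | h1 | h1
    · linarith [h1.2, h2.2.1]
    · linarith [h1.2.2, h2.2.1]
    · linarith [h1.2.2, h2.2.1]
    · linarith [h1.2.2, h2.2.1]
    all_goals (exfalso; omega)
  · have h5 : (10 : ℚ) ≤ key q := by exact_mod_cast h2.1
    rcases h1 with h1 | h1 | h1 | h1 | h1 | h1
    · linarith [h1.2, h2.2]
    · linarith [h1.2.2, h2.2]
    · linarith [h1.2.2, h2.2]
    · linarith [h1.2.2, h2.2]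
    · linarith [h1.2.2, h2.2]
    · linarith [h1.2, h2.2]

theorem sig_sq : SqFree (sig (D (D g a B) (2 * a + 1) (B + 2 * a + 1)) (2 * (2 * a + 1) + 1)
      (B + 2 * a + 1 + 2 * ((2 * a + 1 : ℕ) : ℚ) + 1)) (38 + (2 * (2 * a + 1) + 1)) := by
  have h1 := D_good hg
  have hQ := D_good h1
  have hU := sig_UD hQ (D_UD h1) (by omega)
  have left : ∀ i l, i < 19 → 2 ≤ l → i + 2 * l ≤ 38 + (2 * (2 * a + 1) + 1) →
      ¬ Iso (sig (D (D g a B) (2 * a + 1) (B + 2 * a + 1)) (2 * (2 * a + 1) + 1)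
      (B + 2 * a + 1 + 2 * ((2 * a + 1 : ℕ) : ℚ) + 1)) i l := by
    intro i l hi hl hn hI
    have h4 := hU.mod4 hl hn hI
    by_cases h8 : i = 8 ∧ l = 8
    · obtain ⟨rfl, rfl⟩ := h8
      have := (hI 3 (by omega) 7 (by omega)).1
        (key_lt hg ha _ _ (by omega) (by omega) (by decide))
      rw [sig_m _ _ _ _ (by omega) (by omega), sig_m _ _ _ _ (by omega) (by omega),
        D_low _ _ _ _ (by omega), D_low _ _ _ _ (by omega)] at this
      norm_num at this
      linarith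
    by_cases hs : i + l ≤ 21
    · obtain ⟨x, hx, y, hy, k1, k2⟩ := fin_check i hi l (by omega) h4 hl hs (by omega)
      have a1 := key_lt hg ha _ _ (by omega) (by omega) k1
      have a2 := key_lt hg ha _ _ (by omega) (by omega) k2
      have := (hI x hx y hy).1 a1
      linarith
    · have := (hI (21 - i) (by omega) (18 - i) (by omega)).1 (by
        rw [show i + (21 - i) = 21 by omega, show i + (18 - i) = 18 by omega]
        exact key_lt hg ha _ _ (by omega) (by omega) (by decide))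
      rw [sig_m _ _ _ _ (by omega) (by omega), sig_m _ _ _ _ (by omega) (by omega)] at this
      have c1 := D_cases h1 (i + l + (21 - i) - 19) (by omega)
      have c2 := D_cases h1 (i + l + (18 - i) - 19) (by omega)
      rcases c1 with c1 | c1 | c1 <;> rcases c2 with c2 | c2 | c2 <;>
        first | (exfalso; omega) | linarith [c1.2.1, c2.2.2]
  intro i l hl hn hI
  by_cases hi : i < 19
  · exact left i l hi hl hn hI
  by_cases hj : i + 2 * l ≤ 19 + (2 * (2 * a + 1) + 1)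
  · apply hQ.sq (i - 19) l hl (by omega)
    intro x hx y hy
    have := hI x hx y hy
    rw [sig_m _ _ _ _ (by omega) (by omega), sig_m _ _ _ _ (by omega) (by omega),
      sig_m _ _ _ _ (by omega) (by omega), sig_m _ _ _ _ (by omega) (by omega)] at this
    rw [show i - 19 + x = i + x - 19 by omega, show i - 19 + y = i + y - 19 by omega,
      show i - 19 + l + x = i + l + x - 19 by omega, show i - 19 + l + y = i + l + y - 19 by omega]
    exact this
  · exact left _ l (by omega) hl (by omega) (hI.rc (fun q hq => sig_anti hQ q hq) hn)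

end main

theorem ins_left (f : ℕ → ℚ) (C : ℚ) (hf : ∀ p, p < 19 → f p = C + P p) (p : ℕ) (hp : p ≤ 2)
    (x : ℚ) (hx : ∀ q, q < 19 → x ≠ f q) :
    ∃ i l, 2 ≤ l ∧ i + 2 * l ≤ 20 ∧ Iso (ins f p x) i l := by
  have f0 : f 0 = C + 2 := by rw [hf 0 (by omega)]; simp [P]
  have f1 : f 1 = C + 19 := by rw [hf 1 (by omega)]; simp [P]
  have f2 : f 2 = C + 16 := by rw [hf 2 (by omega)]; simp [P]
  have f3 : f 3 = C + 6 := by rw [hf 3 (by omega)]; simp [P]
  have f4 : f 4 = C + 10 := by rw [hf 4 (by omega)]; simp [P]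
  have f5 : f 5 = C + 15 := by rw [hf 5 (by omega)]; simp [P]
  have f6 : f 6 = C + 14 := by rw [hf 6 (by omega)]; simp [P]
  have f7 : f 7 = C + 1 := by rw [hf 7 (by omega)]; simp [P]
  have f8 : f 8 = C + 17 := by rw [hf 8 (by omega)]; simp [P]
  have f9 : f 9 = C + 18 := by rw [hf 9 (by omega)]; simp [P]
  have f10 : f 10 = C + 13 := by rw [hf 10 (by omega)]; simp [P]
  have f11 : f 11 = C + 3 := by rw [hf 11 (by omega)]; simp [P]
  have f12 : f 12 = C + 5 := by rw [hf 12 (by omega)]; simp [P]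
  have f13 : f 13 = C + 9 := by rw [hf 13 (by omega)]; simp [P]
  have f14 : f 14 = C + 8 := by rw [hf 14 (by omega)]; simp [P]
  have x0 := lt_or_gt_of_ne (hx 0 (by omega))
  have x1 := lt_or_gt_of_ne (hx 1 (by omega))
  have x2 := lt_or_gt_of_ne (hx 2 (by omega))
  rw [f0] at x0
  rw [f1] at x1
  rw [f2] at x2
  interval_cases p
  · rcases x0 with x0 | x0
    · refine ⟨0, 4, by omega, by omega, ?_⟩
      intro a ha b hb
      interval_cases a <;> interval_cases b <;>
        simp only [ins, Nat.reduceAdd, Nat.reduceSub, Nat.reduceLT, Nat.reduceEqDiff, if_true,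
          if_false, lt_irrefl, f0, f1, f2, f3, f4, f5, f6, OfNat.ofNat_ne_zero, one_ne_zero,
          not_lt_zero] <;> constructor <;> intro _ <;> linarith
    · refine ⟨0, 2, by omega, by omega, iso2 _ _ (Or.inr ?_)⟩
      simp [ins, f0, f1, f2]
      constructor <;> linarith
  · rcases x0 with x0 | x0
    · refine ⟨0, 2, by omega, by omega, iso2 _ _ (Or.inr ?_)⟩
      simp [ins, f0, f1, f2]
      constructor <;> linarith
    rcases x1 with x1 | x1
    · rcases x2 with x2 | x2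
      · refine ⟨0, 4, by omega, by omega, ?_⟩
        intro a ha b hb
        interval_cases a <;> interval_cases b <;>
          simp only [ins, Nat.reduceAdd, Nat.reduceSub, Nat.reduceLT, Nat.reduceEqDiff, if_true,
            if_false, lt_irrefl, f0, f1, f2, f3, f4, f5, f6] <;> constructor <;> intro _ <;> linarith
      · refine ⟨0, 8, by omega, by omega, ?_⟩
        intro a ha b hb
        interval_cases a <;> interval_cases b <;>
          simp only [ins, Nat.reduceAdd, Nat.reduceSub, Nat.reduceLT, Nat.reduceEqDiff, if_true,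
            if_false, lt_irrefl, f0, f1, f2, f3, f4, f5, f6, f7, f8, f9, f10, f11, f12, f13,
            f14] <;> constructor <;> intro _ <;> linarith
    · refine ⟨1, 2, by omega, by omega, iso2 _ _ (Or.inr ?_)⟩
      simp [ins, f1, f2, f3]
      constructor <;> linarith
  · rcases x1 with x1 | x1
    · refine ⟨1, 2, by omega, by omega, iso2 _ _ (Or.inr ?_)⟩
      simp [ins, f1, f2, f3]
      constructor <;> linarith
    · refine ⟨0, 8, by omega, by omega, ?_⟩
      intro a ha b hb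
      interval_cases a <;> interval_cases b <;>
        simp only [ins, Nat.reduceAdd, Nat.reduceSub, Nat.reduceLT, Nat.reduceEqDiff, if_true,
          if_false, lt_irrefl, f0, f1, f2, f3, f4, f5, f6, f7, f8, f9, f10, f11, f12, f13,
          f14] <;> constructor <;> intro _ <;> linarith

theorem main (N : ℕ) : ∃ (f : ℕ → ℚ) (n : ℕ), N ≤ n ∧ (∀ p q, p < n → q < n → f p = f q → p = q) ∧
    SqFree f n ∧ ∀ p, p ≤ n → ∀ x, (∀ q, q < n → x ≠ f q) →
      ∃ i l, 2 ≤ l ∧ i + 2 * l ≤ n + 1 ∧ Iso (ins f p x) i l := by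
  obtain ⟨g, a, B, hN, hg⟩ := exists_good (N + 20)
  have ha : 20 ≤ a := by omega
  have h1 := D_good hg
  have hQ := D_good h1
  have hU := sig_UD hQ (D_UD h1) (by omega)
  refine ⟨_, _, by omega, sig_inj hQ, sig_sq hg ha, ?_⟩
  set f := sig (D (D g a B) (2 * a + 1) (B + 2 * a + 1)) (2 * (2 * a + 1) + 1)
      (B + 2 * a + 1 + 2 * ((2 * a + 1 : ℕ) : ℚ) + 1) with hf
  set n := 38 + (2 * (2 * a + 1) + 1) with hn
  have anti : ∀ p, p < n → f p = - f (n - 1 - p) := sig_anti hQ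
  have left : ∀ p, p ≤ 2 → ∀ x, (∀ q, q < n → x ≠ f q) →
      ∃ i l, 2 ≤ l ∧ i + 2 * l ≤ n + 1 ∧ Iso (ins f p x) i l := by
    intro p hp x hx
    obtain ⟨i, l, h2, h3, h4⟩ := ins_left f _ (fun p hp => sig_l _ _ _ p hp) p hp x
      (fun q hq => hx q (by omega))
    exact ⟨i, l, h2, by omega, h4⟩
  intro p hp x hx
  by_cases h2 : p ≤ 2
  · exact left p h2 x hx
  by_cases h3 : p + 3 ≤ n
  · exact ins_mid hU p x (by omega) h3 hx
  obtain ⟨i, l, k1, k2, k3⟩ := left (n - p) (by omega) (-x) (by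
    intro q hq h
    apply hx (n - 1 - q) (by omega)
    rw [anti q hq] at h
    exact neg_injective h)
  refine ⟨n + 1 - i - 2 * l, l, k1, by omega, k3.rc ?_ k2⟩
  intro q hq
  unfold ins
  rcases (by omega : q < p ∨ q = p ∨ p < q) with h | h | h
  · rw [if_pos h, if_neg (by omega), if_neg (by omega), anti q (by omega)]
    congr 2; omega
  · rw [if_neg (by omega), if_pos h, if_neg (by omega), if_pos (by omega), neg_neg]
  · rw [if_neg (by omega), if_neg (by omega), if_pos (by omega), anti (q - 1) (by omega)]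
    congr 2; omega

end Pool.Agent.H30.SqA
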