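import Mathlib

set_option autoImplicit false

namespace Pool.Agent.H30.TetDefs

/-- Quarter turn on cells. -/
def rot (c : ℤ × ℤ) : ℤ × ℤ := (-c.2, c.1)

/-- The L-tetromino turned `k` quarter turns and translated by `v` (no reflection). -/
def tile (k : ℕ) (v : ℤ × ℤ) : Finset (ℤ × ℤ) :=
  ({(0, 0), (1, 0), (2, 0), (2, 1)} : Finset (ℤ × ℤ)).image fun c => rot^[k] c + v

/-- The `m × n` rectangle is partitioned into L-tetrominoes of one orientation class. -/
def Tileable (m n : ℕ) : Prop :=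
  ∃ T : Finset (Finset (ℤ × ℤ)), (∀ t ∈ T, ∃ k v, t = tile k v) ∧
    (∀ s ∈ T, ∀ t ∈ T, s ≠ t → Disjoint s t) ∧
    T.biUnion id = Finset.Ico (0 : ℤ) m ×ˢ Finset.Ico (0 : ℤ) n

end Pool.Agent.H30.TetDefs
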