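import Pool.Agent.H65.FreeBasic

/-! Free group lemmas: centralizers of letters, products of three squares, and orbits of a
one-parameter family of automorphisms as solution sets of twisted equations. -/

namespace Pool.Agent.H30.Tw

open FreeGroup hiding map_mul map_inv map_one

section Basic

variable {ι : Type} [DecidableEq ι]

/-- Exponent sum of the letter `a`. -/
def ex (a : ι) : FreeGroup ι →* Multiplicative ℤ := lift fun i => .ofAdd (if i = a then 1 else 0)

theorem ex_of (a i : ι) : ex a (of i) = .ofAdd (if i = a then 1 else 0) := by simp [ex]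

theorem cent {a : ι} {p : FreeGroup ι} (h : p * of a = of a * p) : p = of a ^ (ex a p).toAdd := by
  obtain ⟨t, i, j, rfl, h2⟩ := Pool.Agent.H65.FreeBasic.comm_root h
  have h3 := congrArg (fun g => (ex a g).toAdd) h2
  simp only [ex_of, if_true, toAdd_ofAdd, map_zpow, toAdd_zpow, smul_eq_mul] at h3 ⊢
  rw [h2, ← zpow_mul]
  congr 1
  linear_combination i * h3

@[ext] structure He where
  y : ZMod 2
  z : ZMod 2
  w : ZMod 2

instance : Group He where
  mul a b := ⟨a.y + b.y, a.z + b.z, a.w + b.w + a.y * b.z⟩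
  one := ⟨0, 0, 0⟩
  inv a := ⟨-a.y, -a.z, -a.w + a.y * a.z⟩
  mul_assoc a b c := He.ext (add_assoc _ _ _) (add_assoc _ _ _) (by
    change a.w + b.w + a.y * b.z + c.w + (a.y + b.y) * c.z =
      a.w + (b.w + c.w + b.y * c.z) + a.y * (b.z + c.z)
    ring)
  one_mul a := He.ext (zero_add _) (zero_add _) (by change 0 + a.w + 0 * a.z = a.w; ring)
  mul_one a := He.ext (add_zero _) (add_zero _) (by change a.w + 0 + a.y * 0 = a.w; ring)
  inv_mul_cancel a := He.ext (neg_add_cancel _) (neg_add_cancel _) (by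
    change -a.w + a.y * a.z + a.w + -a.y * a.z = 0
    ring)

theorem dec1 : ∀ a1 a2 a3 b1 b2 b3 c1 c2 c3 : ZMod 2, (He.mk a1 a2 a3 * He.mk a1 a2 a3 *
    (He.mk b1 b2 b3 * He.mk b1 b2 b3) * (He.mk c1 c2 c3 * He.mk c1 c2 c3)).w = (1 : He).w →
    a1 * a2 + b1 * b2 + c1 * c2 = 0 := by decide

theorem dec2 : ∀ a1 a2 a3 b1 b2 b3 : ZMod 2, a1 * a1 + a2 * a2 + a3 * a3 = 0 →
    b1 * b1 + b2 * b2 + b3 * b3 = 0 → a1 * b1 + a2 * b2 + a3 * b3 = 0 → ∃ α β : ZMod 2,
    ¬ (α = 0 ∧ β = 0) ∧ α * a1 + β * b1 = 0 ∧ α * a2 + β * b2 = 0 ∧ α * a3 + β * b3 = 0 := by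
  intro a1 a2 a3 b1 b2 b3 h1 h2 h3
  suffices h : (a1 = 0 ∧ a2 = 0 ∧ a3 = 0) ∨ (b1 = 0 ∧ b2 = 0 ∧ b3 = 0) ∨
      (a1 + b1 = 0 ∧ a2 + b2 = 0 ∧ a3 + b3 = 0) by
    rcases h with h | h | h
    exacts [⟨1, 0, by decide, by simpa using h⟩, ⟨0, 1, by decide, by simpa using h⟩,
      ⟨1, 1, by decide, by simpa using h⟩]
  have h4 := And.intro h1 (And.intro h2 h3)
  clear h1 h2 h3
  revert a1 a2 a3 b1 b2 b3
  decide

theorem lyndon {G : Type} [Group G] [IsFreeGroup G] {x y z : G} (h : x * x * (y * y) * (z * z) = 1) :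
    x * z = z * x ∧ y * z = z * y := by
  classical
  let H := Subgroup.closure ({x, y, z} : Set G)
  let x' : H := ⟨x, Subgroup.subset_closure (by simp)⟩
  let y' : H := ⟨y, Subgroup.subset_closure (by simp)⟩
  let z' : H := ⟨z, Subgroup.subset_closure (by simp)⟩
  have h' : x' * x' * (y' * y') * (z' * z') = 1 := Subtype.ext h
  have hs : ∀ e e' : IsFreeGroup.Generators H, e = e' := fun e e' => by_contra fun he => by
    let l : IsFreeGroup.Generators H → H →* Multiplicative (ZMod 2) := fun d =>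
      IsFreeGroup.lift fun i => .ofAdd (if i = d then 1 else 0)
    have k : ∀ d d', (l d x').toAdd * (l d' x').toAdd + (l d y').toAdd * (l d' y').toAdd +
        (l d z').toAdd * (l d' z').toAdd = 0 := fun d d' => by
      let g : H →* He := IsFreeGroup.lift fun i => ⟨if i = d then 1 else 0, if i = d' then 1 else 0, 0⟩
      have g1 : (MonoidHom.mk' (fun a : He => Multiplicative.ofAdd a.y) fun _ _ => rfl).comp g = l d :=
        IsFreeGroup.ext_hom fun i => by simp [g, l]
      have g2 : (MonoidHom.mk' (fun a : He => Multiplicative.ofAdd a.z) fun _ _ => rfl).comp g = l d' :=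
        IsFreeGroup.ext_hom fun i => by simp [g, l]
      rw [← g1, ← g2]
      have := congrArg (fun t => (g t).w) h'
      simp only [map_mul, map_one] at this
      exact dec1 _ _ _ _ _ _ _ _ _ this
    obtain ⟨α, β, h0, h1, h2, h3⟩ := dec2 _ _ _ _ _ _ (k e e) (k e' e') (k e e')
    have k4 : ∀ (t : G) (ht : t ∈ H), α * (l e ⟨t, ht⟩).toAdd + β * (l e' ⟨t, ht⟩).toAdd = 0 := by
      intro t ht
      induction ht using Subgroup.closure_induction with
      | mem t ht => rcases ht with rfl | rfl | rfl <;> assumption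
      | one =>
        change α * (l e 1).toAdd + β * (l e' 1).toAdd = 0
        simp
      | mul s t hs ht a b =>
        change α * (l e (⟨s, hs⟩ * ⟨t, ht⟩)).toAdd + β * (l e' (⟨s, hs⟩ * ⟨t, ht⟩)).toAdd = 0
        simp only [map_mul, toAdd_mul]
        linear_combination a + b
      | inv t ht a =>
        change α * (l e (⟨t, ht⟩⁻¹)).toAdd + β * (l e' (⟨t, ht⟩⁻¹)).toAdd = 0
        simp only [map_inv, toAdd_inv]
        linear_combination -a
    have k5 := k4 _ (IsFreeGroup.of e).2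
    have k6 := k4 _ (IsFreeGroup.of e').2
    simp [l, he, Ne.symm he] at k5 k6
    exact h0 ⟨k5, k6⟩
  have c1 : ∀ e (v : H), IsFreeGroup.of e * v * (IsFreeGroup.of e)⁻¹ = v := fun e v =>
    DFunLike.congr_fun (IsFreeGroup.ext_hom (f := (MulAut.conj (IsFreeGroup.of e)).toMonoidHom)
      (g := MonoidHom.id H) fun i => by simp [hs i e]) v
  have c2 : ∀ u v : H, u * v * u⁻¹ = v := fun u v =>
    DFunLike.congr_fun (IsFreeGroup.ext_hom (f := (MulAut.conj u).toMonoidHom)
      (g := MonoidHom.id H) fun i => by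
        have := c1 i u
        rw [mul_inv_eq_iff_eq_mul] at this
        simp [← this]) v
  exact ⟨congrArg Subtype.val (mul_inv_eq_iff_eq_mul.1 (c2 x' z')),
    congrArg Subtype.val (mul_inv_eq_iff_eq_mul.1 (c2 y' z'))⟩

/-- One equation for two equations. -/
def W {G : Type} [Group G] (a u v : G) : G := u * a * (u * a) * (v * v) * (a⁻¹ * a⁻¹)

theorem W_iff {a : ι} {u v : FreeGroup ι} (hu : ex a u = 1) (hv : ex a v = 1) :
    W (of a) u v = 1 ↔ u = 1 ∧ v = 1 := by
  refine ⟨fun h => ?_, fun h => by simp [W, h.1, h.2]⟩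
  obtain ⟨h1, h2⟩ := lyndon h
  have h3 : u * of a = of a * u := by
    rw [mul_inv_cancel_right, eq_inv_mul_iff_mul_eq] at h1
    exact h1.symm
  have h4 : v * of a = of a * v := by
    rw [mul_inv_eq_iff_eq_mul, mul_assoc, eq_inv_mul_iff_mul_eq] at h2
    exact h2.symm
  exact ⟨by simpa [hu] using cent h3, by simpa [hv] using cent h4⟩

def fd {G : Type} [Group G] (a b : G) : List G → G
  | [] => 1
  | p :: l => W a (p * a * p⁻¹ * a⁻¹) (W a (p * b * p⁻¹ * b⁻¹) (fd a b l))

theorem map_fd {G H : Type} [Group G] [Group H] (f : G →* H) (a b : G) (l : List G) :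
    f (fd a b l) = fd (f a) (f b) (l.map f) := by
  induction l with
  | nil => simp [fd]
  | cons p l ih => simp [fd, W, ih]

theorem ex_cm (a : ι) (p q : FreeGroup ι) : ex a (p * q * p⁻¹ * q⁻¹) = 1 := by
  simp only [map_mul, map_inv, mul_inv_cancel_comm, mul_inv_cancel]

theorem ex_W {a : ι} {u v : FreeGroup ι} (hu : ex a u = 1) (hv : ex a v = 1) :
    ex a (W (of a) u v) = 1 := by simp [W, hu, hv]

theorem fd_iff {a b : ι} (hab : a ≠ b) (l : List (FreeGroup ι)) :
    ex a (fd (of a) (of b) l) = 1 ∧ (fd (of a) (of b) l = 1 ↔ ∀ p ∈ l, p = 1) := by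
  induction l with
  | nil => simp [fd]
  | cons p l ih =>
    refine ⟨ex_W (ex_cm _ _ _) (ex_W (ex_cm _ _ _) ih.1), ?_⟩
    rw [fd, W_iff (ex_cm _ _ _) (ex_W (ex_cm _ _ _) ih.1), W_iff (ex_cm _ _ _) ih.1, ih.2,
      List.forall_mem_cons, ← and_assoc]
    refine and_congr_left fun _ => ⟨fun h => ?_, fun h => by simp [h]⟩
    have h1 := cent (mul_inv_eq_iff_eq_mul.1 (mul_inv_eq_one.1 h.1))
    have h2 := cent (mul_inv_eq_iff_eq_mul.1 (mul_inv_eq_one.1 h.2))
    have h3 : ex a p = 1 := by rw [h2]; simp [ex_of, hab.symm]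
    simpa [h3] using h1

theorem fix (D : ι → Prop) [DecidablePred D] {x : FreeGroup ι}
    (h : lift (fun i => if D i then (of i)⁻¹ else of i) x = x) (f : ι → FreeGroup ι)
    (hf : ∀ i, ¬ D i → f i = of i) : lift f x = x := by
  let fl : ι × Bool → ι × Bool := fun p => (p.1, if D p.1 then !p.2 else p.2)
  have k : ∀ L : List (ι × Bool), lift (fun i => if D i then (of i)⁻¹ else of i) (mk L) =
      mk (L.map fl) := fun L => by
    induction L with
    | nil => rfl
    | cons p L ih =>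
      rw [List.map_cons, ← List.singleton_append, ← mul_mk, map_mul, ih, ← List.singleton_append,
        ← mul_mk]
      obtain ⟨i, _ | _⟩ := p <;> by_cases hi : D i <;> simp [fl, hi, lift_mk] <;> rfl
  have h1 : IsReduced (x.toWord.map fl) := by
    refine (List.isChain_map _).2 (isReduced_toWord.imp fun p q hpq e => ?_)
    have e' : p.1 = q.1 := e
    simp only [fl, e', hpq e']
  have h2 : x.toWord.map fl = x.toWord := by
    rw [← h1.reduce_eq, ← toWord_mk, ← k, mk_toWord, h]
  have h3 : ∀ p ∈ x.toWord, ¬ D p.1 := fun p hp hD => by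
    obtain ⟨i, hi, rfl⟩ := List.getElem_of_mem hp
    have := List.getElem_of_eq h2 (i := i) (by simpa using hi)
    simp only [List.getElem_map, fl, hD, if_true] at this
    simpa using congrArg Prod.snd this
  rw [← mk_toWord (x := x)]
  generalize x.toWord = L at h3
  induction L with
  | nil => rfl
  | cons p L ih =>
    rw [← List.singleton_append, ← mul_mk, map_mul, ih fun q hq => h3 q (List.mem_cons_of_mem _ hq)]
    congr 1
    have := hf _ (h3 p List.mem_cons_self)
    obtain ⟨i, _ | _⟩ := p <;> simp [lift_mk, this] <;> rfl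

/-- Deleting the letter `d`. -/
def del (d : ι) : FreeGroup ι →* FreeGroup ι := lift fun i => if i = d then 1 else of i

theorem flow (d : ι) (τ : ℤ → FreeGroup ι →* FreeGroup ι) (h0 : ∀ x, τ 0 x = x)
    (h1 : ∀ i j x, τ (i + j) x = τ i (τ j x)) (h2 : τ 1 (of d) = of d)
    (h3 : ∀ x, del d (τ 1 x) = τ 1 (del d x)) {X Y : FreeGroup ι} (hX : del d X = X)
    (hY : del d Y = Y) : (∃ Z, X * of d * τ 1 Z = Z * (Y * of d)) ↔ ∃ j, Y = τ j X := by
  classical
  have i1 : ∀ x, τ (-1) (τ 1 x) = x := fun x => by rw [← h1]; exact h0 x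
  have i2 : ∀ x, τ 1 (τ (-1) x) = x := fun x => by rw [← h1]; exact h0 x
  constructor
  · rintro ⟨Z, h⟩
    let θ : Equiv.Perm (FreeGroup ι) := ⟨fun q => X * τ 1 q, fun q => τ (-1) (X⁻¹ * q),
      fun q => by simp [i1], fun q => by simp [i2]⟩
    let O : FreeGroup ι → Prop := fun q => ∃ j : ℤ, q = (θ ^ j) 1
    have hO : ∀ q, O (θ q) ↔ O q := fun q =>
      ⟨fun ⟨j, e⟩ => ⟨-1 + j, by rw [zpow_add, Equiv.Perm.mul_apply, ← e]; simp⟩,
        fun ⟨j, e⟩ => ⟨1 + j, by rw [zpow_add, Equiv.Perm.mul_apply, ← e]; simp⟩⟩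
    let M : FreeGroup ι →* Equiv.Perm (FreeGroup ι × ℤ) := MonoidHom.mk'
      (fun f => ⟨fun p => (p.1 * f⁻¹, p.2), fun p => (p.1 * f, p.2), fun p => by simp, fun p => by simp⟩)
      fun f g => Equiv.ext fun p => by simp [mul_assoc]
    let S : Equiv.Perm (FreeGroup ι × ℤ) := ⟨fun p => (p.1, p.2 - if O p.1 then 1 else 0),
      fun p => (p.1, p.2 + if O p.1 then 1 else 0), fun p => by simp, fun p => by simp⟩
    let ρ : FreeGroup ι →* Equiv.Perm (FreeGroup ι × ℤ) := lift fun i => if i = d then S else M (of i)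
    have a1 : ∀ x, del d x = x → ρ x = M x := fun x hx => by
      have : ρ.comp (del d) = M.comp (del d) := by
        refine FreeGroup.ext_hom _ _ fun i => ?_
        by_cases hi : i = d <;> simp [del, ρ, hi]
      simpa only [MonoidHom.comp_apply, hx] using DFunLike.congr_fun this x
    have a2 : ∀ x, ∃ c : FreeGroup ι → ℤ, ∀ p i, ρ x (p, i) = (p * (del d x)⁻¹, i + c p) := by
      intro x
      induction x using FreeGroup.induction_on with
      | C1 => exact ⟨0, by simp⟩
      | of i =>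
        by_cases hi : i = d
        · exact ⟨fun p => -if O p then 1 else 0, fun p j => by simp [ρ, hi, del, S, sub_eq_add_neg]⟩
        · exact ⟨0, fun p j => by simp [ρ, hi, del, M]⟩
      | inv_of i ih =>
        obtain ⟨c, hc⟩ := ih
        refine ⟨fun p => -c (p * del d (of i)), fun p j => ?_⟩
        rw [map_inv, Equiv.Perm.inv_eq_iff_eq, hc]
        simp
      | mul x y ih1 ih2 =>
        obtain ⟨c, hc⟩ := ih1
        obtain ⟨c', hc'⟩ := ih2
        exact ⟨fun p => c' p + c (p * (del d y)⁻¹), fun p j => by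
          simp [hc, hc', mul_assoc, add_assoc]⟩
    let Θ : Equiv.Perm (FreeGroup ι × ℤ) := θ.prodCongr (Equiv.refl ℤ)
    have a3 : ρ.comp (τ 1) = (MulAut.conj Θ).toMonoidHom.comp ρ := by
      refine FreeGroup.ext_hom _ _ fun i => ?_
      change ρ (τ 1 (of i)) = Θ * ρ (of i) * Θ⁻¹
      rw [eq_mul_inv_iff_mul_eq]
      refine Equiv.ext fun p => ?_
      by_cases hi : i = d
      · simp [hi, h2, ρ, S, Θ, hO, Prod.map]
      · rw [a1 (τ 1 (of i)) (by rw [h3]; simp [del, hi])]
        simp [hi, ρ, M, Θ, θ, Prod.map, mul_assoc]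
    have a4 : θ (del d Z) = del d Z * Y := by
      have := congrArg (del d) h
      simp only [map_mul, hX, hY, h3, show del d (of d) = 1 by simp [del], mul_one] at this
      exact this
    have a5 : ρ (of d) = S := by simp [ρ]
    obtain ⟨c, hc⟩ := a2 Z
    have a6 := congrArg (fun g => (ρ g (θ (del d Z), 0)).2) h
    have a7 : ρ (τ 1 Z) = Θ * ρ Z * Θ⁻¹ := DFunLike.congr_fun a3 Z
    have a8 : Θ⁻¹ (θ (del d Z), 0) = (del d Z, 0) := by
      rw [Equiv.Perm.inv_eq_iff_eq]
      rfl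
    have a9 : O (θ 1) := (hO 1).2 ⟨0, rfl⟩
    simp only [map_mul, Equiv.Perm.mul_apply, a7, a8, a5, a1 X hX, a1 Y hY, hc] at a6
    obtain ⟨j, hj⟩ : O (del d Z) := by
      by_contra hn
      simp [M, S, Θ, a9, hO, hn] at a6
      rw [a4] at a6
      simp at a6
    have b1 : ∀ (j : ℤ) p q, ((θ ^ j) p)⁻¹ * (θ ^ j) q = τ j (p⁻¹ * q) := fun j => by
      induction j using Int.induction_on with
      | zero => simp [h0]
      | succ j ih =>
        intro p q
        rw [h1, zpow_add_one, Equiv.Perm.mul_apply, Equiv.Perm.mul_apply, ih]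
        simp [θ, mul_assoc]
      | pred j ih =>
        intro p q
        rw [sub_eq_add_neg, h1, zpow_add, Equiv.Perm.mul_apply, Equiv.Perm.mul_apply, ih]
        congr 1
        change (τ (-1) (X⁻¹ * p))⁻¹ * τ (-1) (X⁻¹ * q) = _
        simp [mul_assoc]
    refine ⟨j, ?_⟩
    have b2 := b1 j 1 (θ 1)
    rw [← Equiv.Perm.mul_apply (θ ^ j) θ, ← zpow_add_one, add_comm, zpow_add, Equiv.Perm.mul_apply,
      ← hj, zpow_one, a4] at b2
    simpa [θ] using b2
  · rintro ⟨j, rfl⟩
    clear hY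
    induction j using Int.induction_on with
    | zero => exact ⟨1, by simp [h0]⟩
    | succ j ih =>
      obtain ⟨Z, h⟩ := ih
      refine ⟨Z * (τ j X * of d), ?_⟩
      rw [add_comm, h1, map_mul, map_mul, h2, ← mul_assoc, h]
    | pred j ih =>
      obtain ⟨Z, h⟩ := ih
      refine ⟨τ (-1) ((X * of d)⁻¹ * Z), ?_⟩
      have e : τ (-1) (of d) = of d := by rw [← h2, i1, h2]
      rw [i2, mul_inv_cancel_left, sub_eq_neg_add, h1, ← e, ← map_mul, e, ← map_mul, mul_assoc, ← h,
        inv_mul_cancel_left, i1]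

end Basic

end Pool.Agent.H30.Tw
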