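import Pool.Agent.H30.TwA
import Pool.Agent.H65.Dprm2

/-! Twisted equations over the free group of rank five define integer multiplication. -/

namespace Pool.Agent.H30.Tw

open FreeGroup hiding map_mul map_inv map_one
open Pool.Agent.H65.Dprm

abbrev F5 : Type := FreeGroup (Fin 5)

def ψ (p q : ℤ) : F5 →* F5 := lift fun i => if i = 1 then of 0 ^ p * of 1 * of 0 ^ q else of i

def κ : F5 →* F5 := lift fun i => if 3 ≤ i then (of i)⁻¹ else of i

theorem ψ_of (p q : ℤ) (i : Fin 5) :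
    ψ p q (of i) = if i = 1 then of 0 ^ p * of 1 * of 0 ^ q else of i := by simp [ψ]

theorem ψ_add (p q p' q' : ℤ) (x : F5) : ψ (p + p') (q + q') x = ψ p q (ψ p' q' x) := by
  refine DFunLike.congr_fun (FreeGroup.ext_hom _ ((ψ p q).comp (ψ p' q')) fun i => ?_) x
  by_cases h : i = 1
  · simp only [h, ψ_of, MonoidHom.comp_apply, if_true, map_mul, map_zpow]
    simp only [show ¬ (0 : Fin 5) = 1 by decide, if_false]
    group
  · simp [h, ψ_of]

theorem ψ_zero (x : F5) : ψ 0 0 x = x :=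
  DFunLike.congr_fun (FreeGroup.ext_hom _ (MonoidHom.id _) fun i => by
    by_cases h : i = 1 <;> simp [h, ψ_of]) x

theorem del_ψ {d : Fin 5} (h0 : 0 ≠ d) (h1 : 1 ≠ d) (p q : ℤ) (x : F5) :
    del d (ψ p q x) = ψ p q (del d x) := by
  refine DFunLike.congr_fun (FreeGroup.ext_hom ((del d).comp (ψ p q)) ((ψ p q).comp (del d))
    fun i => ?_) x
  by_cases h : i = 1
  · simp [h, ψ_of, del, h0, h1]
  · by_cases h' : i = d <;> simp [h, h', ψ_of, del, h1.symm]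

theorem κ_ψ (p q : ℤ) (x : F5) : κ (ψ p q x) = ψ p q (κ x) := by
  refine DFunLike.congr_fun (FreeGroup.ext_hom (κ.comp (ψ p q)) ((ψ p q).comp κ) fun i => ?_) x
  fin_cases i <;> simp [ψ_of, κ]

theorem κ_κ (x : F5) : κ (κ x) = x :=
  DFunLike.congr_fun (FreeGroup.ext_hom (κ.comp κ) (MonoidHom.id _) fun i => by
    fin_cases i <;> simp [κ]) x

theorem fix5 {x : F5} (h : κ x = x) {d : Fin 5} (hd : 3 ≤ d) : del d x = x :=
  fix (fun i => 3 ≤ i) h _ fun i hi => if_neg fun e : i = d => hi (e ▸ hd)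

theorem pow_cent {a b : Fin 5} (hab : a ≠ b) {n : ℤ} {p : F5} (h : p * of b = of b * p)
    (h' : ex a p = .ofAdd n) : n = 0 := by
  rw [cent h] at h'
  simpa [ex_of, hab.symm] using (congrArg Multiplicative.toAdd h').symm

theorem flow1 {x y : F5} (hx : κ x = x) (hy : κ y = y) (n : ℤ) :
    (∃ Z, x * of 3 * of 1 * of 4 * ψ 0 1 Z = Z * (y * of 3 * (of 1 * of 0 ^ n) * of 4)) ↔
      y = ψ 0 n x := by
  have := flow 4 (fun j => ψ 0 j) ψ_zero (fun i j x => by simpa using ψ_add 0 i 0 j x)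
    (by simp [ψ_of]) (del_ψ (by decide) (by decide) 0 1) (X := x * of 3 * of 1)
    (Y := y * of 3 * (of 1 * of 0 ^ n)) (by simp only [map_mul, fix5 hx (d := 4) (by decide)]; simp [del])
    (by simp only [map_mul, fix5 hy (d := 4) (by decide)]; simp [del])
  rw [this]
  refine ⟨fun ⟨j, h⟩ => ?_, fun h => ⟨n, by simp [h, ψ_of]⟩⟩
  simp only [map_mul, ψ_of] at h
  simp only [show ¬ (3 : Fin 5) = 1 by decide, if_false, if_true, zpow_zero, one_mul] at h
  have h1 := congrArg (del 3) h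
  simp only [map_mul, del_ψ (show (0 : Fin 5) ≠ 3 by decide) (show (1 : Fin 5) ≠ 3 by decide),
    fix5 hx le_rfl, fix5 hy le_rfl, map_zpow] at h1
  simp only [del, lift_apply_of, show ¬ (1 : Fin 5) = 3 by decide, show ¬ (0 : Fin 5) = 3 by decide,
    if_true, if_false, mul_one] at h1
  have h2 : (ψ 0 j x)⁻¹ * y = of 1 * of 0 ^ j * (of 1 * of 0 ^ n)⁻¹ := by
    rw [inv_mul_eq_iff_eq_mul, ← mul_assoc, ← h1, mul_inv_cancel_right]
  have h3 : (ψ 0 j x)⁻¹ * y * of 3 = of 3 * ((ψ 0 j x)⁻¹ * y) := by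
    conv_rhs => rw [h2]
    rw [mul_assoc, inv_mul_eq_iff_eq_mul, ← mul_assoc, ← mul_assoc, ← h, mul_inv_cancel_right]
  have h4 : (ψ 0 j x)⁻¹ * y = 1 := by
    have := congrArg (del 3) (cent h3)
    rw [map_mul, map_inv, del_ψ (by decide) (by decide), fix5 hx le_rfl, fix5 hy le_rfl] at this
    simpa [del] using this
  have h5 := congrArg (fun g => (ex 0 g).toAdd) (h4.symm.trans h2)
  simp [ex_of] at h5
  obtain rfl : j = n := by omega
  exact (inv_mul_eq_one.1 h4).symm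

theorem flow2 (n m k : ℤ) : (∃ x, of 1 * of 2 * ψ 1 n x = x * (of 0 ^ m * of 1 * of 0 ^ k * of 2)) ↔
    n * m = k := by
  have := flow 2 (fun j => ψ j (n * j)) (by simpa using ψ_zero)
    (fun i j x => by simpa only [mul_add] using ψ_add _ _ _ _ x)
    (by simp [ψ_of]) (del_ψ (by decide) (by decide) _ _) (X := of 1)
    (Y := of 0 ^ m * of 1 * of 0 ^ k) (by simp [del]) (by simp [del])
  rw [mul_one] at this
  rw [this]
  refine ⟨fun ⟨j, h⟩ => ?_, fun h => ⟨m, by simp [h, ψ_of]⟩⟩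
  rw [ψ_of, if_pos rfl] at h
  have h1 := congrArg (fun g => (ex 0 g).toAdd) h
  simp [ex_of] at h1
  have h2 : (of 0 ^ (m - j) * of 1 : F5) = of 1 * of 0 ^ (m - j) := by
    calc _ = of 0 ^ (-j) * (of 0 ^ m * of 1 * of 0 ^ k) * (of 0 : F5) ^ (-k) := by group
      _ = of 1 * of 0 ^ (n * j - k) := by rw [h]; group
      _ = _ := by rw [show n * j - k = m - j by omega]
  have := pow_cent (a := 0) (by decide) h2 (n := m - j) (by simp [ex_of, ← ofAdd_zsmul])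
  obtain rfl : m = j := by omega
  omega

abbrev Sy : Type := FreeGroup (ℕ ⊕ ℕ)

abbrev Vr : Type := ℕ ⊕ ℕ × ℕ × ℕ

def au : ℕ → F5 →* F5
  | 1 => ψ 0 1
  | 2 => ψ 1 0
  | 3 => κ
  | _ => MonoidHom.id _

def cs (m : ℕ) : F5 := if h : m < 5 then of ⟨m, h⟩ else 1

def ev (x : ℕ → F5) : Sy →* F5 := lift (Sum.elim cs fun j => au (j % 4) (x (j / 4)))

def K (m : ℕ) : Sy := of (.inl m)

def en (v : Vr) : ℕ := Encodable.encode v

def V (v : Vr) (t : ℕ) : Sy := of (.inr (4 * en v + t))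

theorem ev_K (x : ℕ → F5) (m : ℕ) : ev x (K m) = cs m := by simp [ev, K]

theorem ev_V (x : ℕ → F5) (v : Vr) (t : ℕ) (ht : t < 4) :
    ev x (V v t) = au t (x (en v)) := by
  simp only [ev, V, lift_apply_of, Sum.elim_inr]
  rw [show (4 * en v + t) % 4 = t by omega,
    show (4 * en v + t) / 4 = en v by omega]

theorem ev_V0 (x : ℕ → F5) (v : Vr) : ev x (V v 0) = x (en v) := ev_V x v 0 (by decide)
theorem ev_V1 (x : ℕ → F5) (v : Vr) : ev x (V v 1) = ψ 0 1 (x (en v)) := ev_V x v 1 (by decide)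
theorem ev_V2 (x : ℕ → F5) (v : Vr) : ev x (V v 2) = ψ 1 0 (x (en v)) := ev_V x v 2 (by decide)
theorem ev_V3 (x : ℕ → F5) (v : Vr) : ev x (V v 3) = κ (x (en v)) := ev_V x v 3 (by decide)

def cm (i : ℕ) : Sy := V (.inl i) 0 * K 0 * (K 0 * V (.inl i) 0)⁻¹

def tr : Eqn ℕ → List Sy
  | .add i j k => [V (.inl i) 0 * V (.inl j) 0 * (V (.inl k) 0)⁻¹]
  | .cst i c => [V (.inl i) 0 * (K 0 ^ c)⁻¹]
  | .mul i j k => [cm i, cm j, cm k, V (.inr (i, j, 0)) 3 * (V (.inr (i, j, 0)) 0)⁻¹,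
      V (.inr (i, j, 1)) 3 * (V (.inr (i, j, 1)) 0)⁻¹,
      V (.inr (i, j, 0)) 0 * K 3 * K 1 * K 4 * V (.inr (i, j, 2)) 1 *
        (V (.inr (i, j, 2)) 0 * (V (.inr (i, j, 1)) 0 * K 3 * (K 1 * V (.inl i) 0) * K 4))⁻¹,
      K 1 * K 2 * V (.inr (i, j, 1)) 2 *
        (V (.inr (i, j, 0)) 0 * (V (.inl j) 0 * K 1 * V (.inl k) 0 * K 2))⁻¹]

theorem system : ∃ (P : ℕ → Prop) (i : ℕ) (w : Sy), ¬ ComputablePred P ∧ ∀ m : ℕ, P m ↔
    ∃ x, ev x (W (K 0) (of (.inr i) * (K 0)⁻¹ ^ m * K 1 * K 0 ^ m * (of (.inr i))⁻¹ * (K 1)⁻¹) w) = 1 := by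
  obtain ⟨i, S, hS⟩ := h10
  refine ⟨_, 4 * en (.inl i : Vr) + 0, fd (K 0) (K 1) (cm i :: S.flatMap tr), hS,
    fun m => ?_⟩
  have c0 : cs 0 = of 0 := rfl
  have c1 : cs 1 = of 1 := rfl
  have c2 : cs 2 = of 2 := rfl
  have c3 : cs 3 = of 3 := rfl
  have c4 : cs 4 = of 4 := rfl
  have e : ∀ x, ev x (W (K 0) (V (.inl i) 0 * (K 0)⁻¹ ^ m * K 1 * K 0 ^ m * (V (.inl i) 0)⁻¹ * (K 1)⁻¹)
      (fd (K 0) (K 1) (cm i :: S.flatMap tr))) = 1 ↔
      x (en (.inl i : Vr)) * (of 0 ^ m)⁻¹ * of 1 =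
        of 1 * (x (en (.inl i : Vr)) * (of 0 ^ m)⁻¹) ∧
      ev x (cm i) = 1 ∧ ∀ q ∈ S, ∀ p ∈ tr q, ev x p = 1 := fun x => by
    have := fd_iff (show (0 : Fin 5) ≠ 1 by decide) ((cm i :: S.flatMap tr).map (ev x))
    rw [show ∀ a u v, ev x (W a u v) = W (ev x a) (ev x u) (ev x v) by simp [W], map_fd, ev_K, ev_K,
      c0, c1, W_iff _ this.1, this.2, List.forall_mem_map, List.forall_mem_cons,
      List.forall_mem_flatMap]
    · refine and_congr_left fun _ => ?_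
      simp only [map_mul, map_inv, map_pow, ev_K, ev_V0, c0, c1]
      rw [mul_inv_eq_one, mul_inv_eq_iff_eq_mul, ← eq_mul_inv_iff_mul_eq, inv_pow, mul_assoc (of 1)]
    · simp only [map_mul, map_inv, map_pow, ev_K, c0, c1]
      refine Multiplicative.toAdd.injective ?_
      simp [ex_of]
  have hc : ∀ x j, ev x (cm j) = 1 ↔ x (en (.inl j : Vr)) * of 0 =
      of 0 * x (en (.inl j : Vr)) := fun x j => by
    simp only [cm, map_mul, map_inv, ev_K, ev_V0, c0, mul_inv_eq_one]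
  change _ ↔ ∃ x, ev x (W (K 0) (V (.inl i) 0 * (K 0)⁻¹ ^ m * K 1 * K 0 ^ m * (V (.inl i) 0)⁻¹ *
    (K 1)⁻¹) _) = 1
  simp only [e]
  constructor
  · rintro ⟨z, hz, h⟩
    have k1 : ∀ n m : ℤ, ∃ x Z : F5, κ x = x ∧
        x * of 3 * of 1 * of 4 * ψ 0 1 Z = Z * (ψ 0 n x * of 3 * (of 1 * of 0 ^ n) * of 4) ∧
        of 1 * of 2 * ψ 1 n x = x * (of 0 ^ m * of 1 * of 0 ^ (n * m) * of 2) := fun n m => by
      obtain ⟨x, hx⟩ := (flow2 n m _).2 rfl
      have a : ∀ y, κ (del 3 (del 4 y)) = del 3 (del 4 y) := fun y =>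
        DFunLike.congr_fun (FreeGroup.ext_hom (κ.comp ((del 3).comp (del 4))) ((del 3).comp (del 4))
          fun i => by fin_cases i <;> simp [κ, del]) y
      obtain ⟨Z, hZ⟩ := (flow1 (a x) (by rw [κ_ψ, a]) n).2 rfl
      refine ⟨_, Z, a x, hZ, ?_⟩
      have := congrArg (fun y => del 3 (del 4 y)) hx
      simp only [map_mul, map_zpow, del_ψ (show (0 : Fin 5) ≠ 3 by decide) (by decide),
        del_ψ (show (0 : Fin 5) ≠ 4 by decide) (by decide)] at this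
      simpa [del] using this
    choose X Z k1 k2 k3 using k1
    let τ : Vr → F5 := Sum.elim (fun j => of 0 ^ z j) fun t =>
      [X (z t.1) (z t.2.1), ψ 0 (z t.1) (X (z t.1) (z t.2.1)), Z (z t.1) (z t.2.1)].getD t.2.2 1
    obtain ⟨x, hx⟩ : ∃ x : ℕ → F5, ∀ v, x (en v) = τ v :=
      ⟨fun n => (Encodable.decode n : Option Vr).elim 1 τ, fun v => by
        simp only [en, Encodable.encodek]; rfl⟩
    have hm : ∀ j, ev x (cm j) = 1 := fun j => by
      rw [hc, hx]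
      exact (Commute.refl _).zpow_left _
    refine ⟨x, by simp [hx, τ, hz], hm i, fun q hq => ?_⟩
    have h1 := h q hq
    rcases q with ⟨j, k, l⟩ | ⟨j, k, l⟩ | ⟨j, d⟩ <;> simp only [Eqn.Sat] at h1 <;>
      simp only [tr, List.forall_mem_cons, hm, map_mul, map_inv, map_zpow, ev_K, ev_V0, ev_V1, ev_V2,
        ev_V3, hx, c0, c1, c2, c3, c4, mul_inv_eq_one, τ, Sum.elim_inl, Sum.elim_inr,
        List.getD_cons_succ, List.getD_cons_zero, true_and]
    · simp [← h1, zpow_add]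
    · refine ⟨k1 _ _, by rw [κ_ψ, k1], k2 _ _, ?_, by simp⟩
      rw [← ψ_add, ← h1]
      simpa using k3 _ _
    · simp [h1]
  · rintro ⟨x, h1, h2, h⟩
    refine ⟨fun j => (ex 0 (x (en (.inl j : Vr)))).toAdd, ?_, fun q hq => ?_⟩
    · have := pow_cent (a := 0) (by decide) h1
        (n := (ex 0 (x (en (.inl i : Vr)))).toAdd - m)
        (Multiplicative.toAdd.injective (by simp [ex_of, sub_eq_add_neg]))
      simp only
      omega
    · have h1 := h q hq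
      rcases q with ⟨j, k, l⟩ | ⟨j, k, l⟩ | ⟨j, d⟩ <;> simp only [Eqn.Sat] <;>
        simp only [tr, List.forall_mem_cons, hc, map_mul, map_inv, map_zpow, ev_K, ev_V0, ev_V1, ev_V2,
          ev_V3, c0, c1, c2, c3, c4, mul_inv_eq_one] at h1
      · simp [← h1.1]
      · obtain ⟨a1, a2, a3, a4, a5, a6, a7, -⟩ := h1
        rw [cent a1] at a6
        rw [(flow1 a4 a5 _).1 ⟨_, a6⟩, ← ψ_add, cent a2, cent a3, add_zero, zero_add] at a7
        exact (flow2 _ _ _).1 ⟨_, a7⟩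
      · simp [h1.1, ex_of]

end Pool.Agent.H30.Tw
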