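import Pool.Agent.H30.UcDefs
import Pool.Agent.H30.KidD

/-!
The up-color domination weight of bipartite graphs is NP-complete.
-/

namespace Pool.Agent.H30.Uc

open Finset Pool.Agent.H38.NP Pool.Agent.H38.ER Pool.Agent.H30.Kid

def UW {X : Type} (W : X → Prop) (A : X → X → Prop) (k : ℕ) : Prop :=
  ∃ (c : X → ℕ) (D : Finset X), (∀ d ∈ D, W d) ∧ (∀ u v, W u → W v → A u v → c u ≠ c v) ∧
    (∀ d ∈ D, c d ≠ 0) ∧ (∀ v, W v → v ∉ D → ∃ d ∈ D, A v d ∧ c v < c d) ∧ ∑ d ∈ D, c d ≤ k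

theorem uw_iff {X V : Type} [DecidableEq X] {G : SimpleGraph V} {W : X → Prop} {A : X → X → Prop}
    (e : V → X) (inj : Function.Injective e) (mem : ∀ x, W x ↔ ∃ u, e u = x)
    (adj : ∀ u v, G.Adj u v ↔ A (e u) (e v)) (k : ℕ) : UCW G k ↔ UW W A k := by
  classical
  constructor
  · rintro ⟨c, D, h1, h2, h3, h4⟩
    refine ⟨Function.extend e c 0, D.image e, fun d hd => ?_, fun u v hu hv h => ?_, fun d hd => ?_,
      fun v hv h => ?_, ?_⟩
    · obtain ⟨u, -, rfl⟩ := mem_image.1 hd; exact (mem _).2 ⟨u, rfl⟩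
    · obtain ⟨u, rfl⟩ := (mem _).1 hu
      obtain ⟨v, rfl⟩ := (mem _).1 hv
      rw [inj.extend_apply, inj.extend_apply]; exact h1 u v ((adj _ _).2 h)
    · obtain ⟨u, hu, rfl⟩ := mem_image.1 hd
      rw [inj.extend_apply]; exact h2 u hu
    · obtain ⟨v, rfl⟩ := (mem _).1 hv
      obtain ⟨d, a, b, c'⟩ := h3 v fun h' => h (mem_image_of_mem _ h')
      exact ⟨e d, mem_image_of_mem _ a, (adj _ _).1 b, by rwa [inj.extend_apply, inj.extend_apply]⟩
    · rw [sum_image fun a _ b _ h => inj h]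
      simpa only [inj.extend_apply] using h4
  · rintro ⟨c, D, h0, h1, h2, h3, h4⟩
    have hD : (D.preimage e inj.injOn).image e = D := by
      ext x
      simp only [mem_image, mem_preimage]
      exact ⟨fun ⟨u, a, b⟩ => b ▸ a, fun h => let ⟨u, hu⟩ := (mem x).1 (h0 x h); ⟨u, hu ▸ h, hu⟩⟩
    refine ⟨fun v => c (e v), D.preimage e inj.injOn, fun u v h => h1 _ _ ((mem _).2 ⟨u, rfl⟩)
      ((mem _).2 ⟨v, rfl⟩) ((adj _ _).1 h), fun d hd => h2 _ (mem_preimage.1 hd), fun v hv => ?_, ?_⟩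
    · obtain ⟨d, a, b, c'⟩ := h3 (e v) ((mem _).2 ⟨v, rfl⟩) fun h => hv (mem_preimage.2 h)
      obtain ⟨u, rfl⟩ := (mem _).1 (h0 d a)
      exact ⟨u, mem_preimage.2 a, (adj _ _).2 b, c'⟩
    · rw [← hD, sum_image fun a _ b _ h => inj h] at h4; exact h4

def ed (n : ℕ) (E : List (ℕ × ℕ)) (u v : ℕ) : Bool :=
  (decide (u < n) && decide (v < n) && decide (u ≠ v) && decide ((u, v) ∈ E)) ||
    (decide (n ≤ u) && decide (v = u + 1))

def uV (n : ℕ) (E : List (ℕ × ℕ)) : List (ℕ × ℕ × ℕ) :=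
  ((List.range 4).product ((List.range (n + 3)).product (List.range (n + 3)))).filter fun x =>
    (decide (x.1 ≤ 1) && decide (x.2.1 = 0) && decide (x.2.2 = 0)) ||
    (decide (x.1 = 2) && decide (x.2.2 = 0)) || (decide (x.1 = 3) && ed n E x.2.1 x.2.2)

def uR (x y : ℕ × ℕ × ℕ) : Bool :=
  (decide (x.1 = 0) && (decide (y.1 = 1) || decide (y.1 = 2))) ||
    (decide (x.1 = 3) && decide (y.1 = 2) && (decide (y.2.1 = x.2.1) || decide (y.2.1 = x.2.2)))

theorem uV_nodup (n E) : (uV n E).Nodup :=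
  (List.nodup_range.product (List.nodup_range.product List.nodup_range)).filter _

theorem mem_uV {n E t u v} : (t, u, v) ∈ uV n E ↔ (t ≤ 1 ∧ u = 0 ∧ v = 0) ∨
    (t = 2 ∧ u < n + 3 ∧ v = 0) ∨ (t = 3 ∧ n ≤ u ∧ u < n + 2 ∧ v = u + 1) ∨
    (t = 3 ∧ u < n ∧ v < n ∧ u ≠ v ∧ (u, v) ∈ E) := by
  simp only [uV, ed, List.mem_filter, List.pair_mem_product, List.mem_range, Bool.or_eq_true,
    Bool.and_eq_true, decide_eq_true_eq]
  constructor
  · rintro ⟨h, (g | g) | ⟨g, g' | g'⟩⟩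
    · omega
    · omega
    · exact Or.inr (Or.inr (Or.inr ⟨g, g'.1.1.1, g'.1.1.2, g'.1.2, g'.2⟩))
    · omega
  · rintro (h | h | h | ⟨h1, h2, h3, h4, h5⟩)
    · omega
    · omega
    · omega
    · exact ⟨by omega, Or.inr ⟨h1, Or.inl ⟨⟨⟨h2, h3⟩, h4⟩, h5⟩⟩⟩

theorem ta_uR {t u v s x y} : TA uR (t, u, v) (s, x, y) ↔ (t = 0 ∧ (s = 1 ∨ s = 2)) ∨
    (s = 0 ∧ (t = 1 ∨ t = 2)) ∨ (t = 3 ∧ s = 2 ∧ (x = u ∨ x = v)) ∨
    (s = 3 ∧ t = 2 ∧ (u = x ∨ u = y)) := by
  simp only [TA, uR, ne_eq, Prod.mk.injEq, Bool.or_eq_true, Bool.and_eq_true, decide_eq_true_eq]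
  constructor
  · rintro ⟨-, (h | h) | (h | h)⟩ <;> omega
  · rintro (h | h | h | h) <;> omega

theorem u_fwd {n E I} (hI : IndepN n E I) : UW (· ∈ uV n E) (TA uR) (n - I.card + 3) := by
  refine ⟨fun x => if x.1 = 0 then 2 else if x.1 = 2 then 1 else 0,
    insert (0, 0, 0) ((insert (n + 1) (range n \ I)).image fun v => (2, v, 0)), ?_, ?_, ?_, ?_, ?_⟩
  · simp only [mem_insert, mem_image, mem_sdiff, mem_range]
    rintro _ (rfl | ⟨v, h, rfl⟩) <;> rw [mem_uV] <;> omega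
  · rintro ⟨t, u, v⟩ ⟨s, x, y⟩ - - h
    have := ta_uR.1 h
    dsimp only; split_ifs <;> omega
  · simp only [mem_insert, mem_image]
    rintro _ (rfl | ⟨v, h, rfl⟩) <;> simp
  · rintro ⟨t, u, v⟩ h1 h2
    have m : ∀ w, (w = n + 1 ∨ (w < n ∧ w ∉ I)) → (2, w, 0) ∈ insert (0, 0, 0)
        ((insert (n + 1) (range n \ I)).image fun v => (2, v, 0)) := fun w hw =>
      mem_insert_of_mem (mem_image.2 ⟨w, by simpa using hw, rfl⟩)
    rcases mem_uV.1 h1 with ⟨a, rfl, rfl⟩ | ⟨rfl, a, rfl⟩ | ⟨rfl, a, b, rfl⟩ | ⟨rfl, a, b, c, d⟩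
    · obtain rfl : t = 1 := by
        by_contra x
        obtain rfl : t = 0 := by omega
        exact h2 (mem_insert_self _ _)
      exact ⟨(0, 0, 0), mem_insert_self _ _, ta_uR.2 (by omega), by simp⟩
    · exact ⟨(0, 0, 0), mem_insert_self _ _, ta_uR.2 (by omega), by simp⟩
    · exact ⟨(2, n + 1, 0), m _ (Or.inl rfl), ta_uR.2 (by omega), by simp⟩
    · by_cases x : u ∈ I
      · exact ⟨(2, v, 0), m _ (Or.inr ⟨b, fun y => hI.2 u x v y c d⟩), ta_uR.2 (by omega), by simp⟩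
      · exact ⟨(2, u, 0), m _ (Or.inr ⟨a, x⟩), ta_uR.2 (by omega), by simp⟩
  · rw [sum_insert (by simp), sum_image fun a _ b _ h => by simpa using h]
    have := card_sdiff_add_card_eq_card (show I ⊆ range n from fun v hv => mem_range.2 (hI.1 v hv))
    have := card_insert_le (n + 1) (range n \ I)
    simp at *; omega

theorem u_bwd {n E k} (h : UW (· ∈ uV n E) (TA uR) k) : ∃ I, IndepN n E I ∧ n + 3 ≤ k + I.card := by
  obtain ⟨c, D, h0, h1, h2, h3, h4⟩ := h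
  set C := (D.filter fun x => 2 ≤ x.1 ∧ x.2.1 < n).image fun x => x.2.1 with hC
  refine ⟨range n \ C, ⟨fun v hv => mem_range.1 (mem_sdiff.1 hv).1, fun u hu v hv hne hE => ?_⟩, ?_⟩
  · obtain ⟨u1, u2⟩ := mem_sdiff.1 hu
    obtain ⟨v1, v2⟩ := mem_sdiff.1 hv
    have u1 := mem_range.1 u1
    have v1 := mem_range.1 v1
    obtain ⟨⟨s, x, y⟩, a, b, -⟩ := h3 (3, u, v) (mem_uV.2 (Or.inr (Or.inr (Or.inr
      ⟨rfl, u1, v1, hne, hE⟩)))) fun h => u2 (mem_image.2 ⟨_, mem_filter.2 ⟨h, by simp [u1]⟩, rfl⟩)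
    have b := ta_uR.1 b
    have : x ∈ C := mem_image.2 ⟨_, mem_filter.2 ⟨a, by dsimp only; omega⟩, rfl⟩
    have : x = u ∨ x = v := by omega
    rcases this with rfl | rfl <;> contradiction
  have a1 := le_card_sdiff C (range n)
  have a2 : C.card ≤ ∑ d ∈ D.filter fun x => 2 ≤ x.1 ∧ x.2.1 < n, c d :=
    card_image_le.trans (by
      simpa using card_nsmul_le_sum _ c 1 fun d hd => Nat.pos_of_ne_zero (h2 d (mem_filter.1 hd).1))
  have a3 := sum_filter_add_sum_filter_not D (fun x => 2 ≤ x.1 ∧ x.2.1 < n) c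
  let w : ℕ × ℕ × ℕ → ℕ := fun x => if x ∈ D then c x else 0
  have a4 : ∑ x ∈ ({(0, 0, 0), (1, 0, 0), (2, n, 0), (2, n + 1, 0), (2, n + 2, 0), (3, n, n + 1),
      (3, n + 1, n + 2)} : Finset (ℕ × ℕ × ℕ)), w x ≤
      ∑ d ∈ D.filter fun x => ¬ (2 ≤ x.1 ∧ x.2.1 < n), c d := by
    rw [← sum_filter]
    refine sum_le_sum_of_subset fun x hx => ?_
    obtain ⟨a, b⟩ := mem_filter.1 hx
    refine mem_filter.2 ⟨b, ?_⟩
    simp only [mem_insert, mem_singleton] at a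
    rcases a with rfl | rfl | rfl | rfl | rfl | rfl | rfl <;> simp
  rw [sum_insert (by simp), sum_insert (by simp), sum_insert (by simp), sum_insert (by simp),
    sum_insert (by simp), sum_insert (by simp), sum_singleton] at a4
  have dom : ∀ t u v, (t, u, v) ∈ uV n E → 1 ≤ w (t, u, v) ∨ ∃ s x y, (s, x, y) ∈ uV n E ∧
      TA uR (t, u, v) (s, x, y) ∧ c (t, u, v) < w (s, x, y) := fun t u v h => by
    by_cases a : (t, u, v) ∈ D
    · exact Or.inl (by simp only [w, if_pos a]; exact Nat.pos_of_ne_zero (h2 _ a))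
    · obtain ⟨⟨s, x, y⟩, b, d, e⟩ := h3 _ h a
      exact Or.inr ⟨s, x, y, h0 _ b, d, by simpa [w, b] using e⟩
  have nb : ∀ s x y, (s, x, y) ∈ uV n E → (s = 0 → x = 0 ∧ y = 0) ∧ (s = 2 → y = 0) ∧
      (s = 3 → (x = n ∨ y = n) → x = n ∧ y = n + 1) := fun s x y h => by
    rcases mem_uV.1 h with h | h | h | ⟨a, b, c, d, -⟩ <;> omega
  have d1 : 1 ≤ w (1, 0, 0) ∨ 1 ≤ w (0, 0, 0) := by
    rcases dom 1 0 0 (mem_uV.2 (by omega)) with h | ⟨s, x, y, a, b, d⟩
    · exact Or.inl h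
    · have := ta_uR.1 b
      have := nb s x y a
      obtain ⟨rfl, rfl, rfl⟩ : s = 0 ∧ x = 0 ∧ y = 0 := by omega
      omega
  have d2 : ∀ u, n ≤ u → u < n + 2 → 1 ≤ w (3, u, u + 1) ∨ c (3, u, u + 1) < w (2, u, 0) ∨
      c (3, u, u + 1) < w (2, u + 1, 0) := fun u p q => by
    rcases dom 3 u (u + 1) (mem_uV.2 (by omega)) with h | ⟨s, x, y, a, b, d⟩
    · exact Or.inl h
    · have := ta_uR.1 b
      have := nb s x y a
      have : (s = 2 ∧ x = u ∧ y = 0) ∨ (s = 2 ∧ x = u + 1 ∧ y = 0) := by omega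
      rcases this with ⟨rfl, rfl, rfl⟩ | ⟨rfl, rfl, rfl⟩ <;> omega
  have d3 : 1 ≤ w (2, n, 0) ∨ c (2, n, 0) < w (0, 0, 0) ∨ c (2, n, 0) < w (3, n, n + 1) := by
    rcases dom 2 n 0 (mem_uV.2 (by omega)) with h | ⟨s, x, y, a, b, d⟩
    · exact Or.inl h
    · have := ta_uR.1 b
      have := nb s x y a
      have : (s = 0 ∧ x = 0 ∧ y = 0) ∨ (s = 3 ∧ x = n ∧ y = n + 1) := by omega
      rcases this with ⟨rfl, rfl, rfl⟩ | ⟨rfl, rfl, rfl⟩ <;> omega
  have d4 := d2 n (by omega) (by omega)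
  have d5 : 1 ≤ w (3, n + 1, n + 2) ∨ c (3, n + 1, n + 2) < w (2, n + 1, 0) ∨
      c (3, n + 1, n + 2) < w (2, n + 2, 0) := d2 (n + 1) (by omega) (by omega)
  have d6 := h1 (2, n, 0) (3, n, n + 1) (mem_uV.2 (by omega)) (mem_uV.2 (by omega))
    (ta_uR.2 (by omega))
  rw [card_range] at a1
  omega

theorem hard : NPH (fun _ => True) BipUCW := by
  have hV : PT fun a : ℕ × List (ℕ × ℕ) × ℕ => uV a.1 a.2.1 := by unfold uV ed; fun_prop
  refine indep_nph.reduce (fun a => (((uV a.1 a.2.1).length,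
    tgE (uV a.1 a.2.1) uR (0, 0, 0)), Bin.mk (a.1 - a.2.2 + 3)))
    (PT.mk (PT.mk hV.length (PT.tgE (r := fun _ => uR) _ hV (by unfold uR; fun_prop)))
      (pt_bin (by fun_prop))) fun ⟨n, E, κ⟩ ha => ⟨trivial, ?_⟩
  obtain ⟨h1, h2⟩ := ha
  dsimp only at h1 h2 ⊢
  obtain ⟨e, inj, mem, adj⟩ := tg_spec (uV_nodup n E) uR (0, 0, 0)
  have key := uw_iff e inj mem adj (n - κ + 3)
  constructor
  · rintro ⟨I, hI, rfl⟩
    refine ⟨⟨SimpleGraph.Coloring.mk (fun v => if (e v).1 = 0 ∨ (e v).1 = 3 then 0 else 1)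
      fun {u v} h => ?_⟩, by simp, key.2 (u_fwd hI)⟩
    have := (ta_uR (t := (e u).1) (s := (e v).1)).1 ((adj u v).1 h)
    split_ifs <;> omega
  · rintro ⟨-, -, h⟩
    obtain ⟨I, hI, h'⟩ := u_bwd (key.1 h)
    exact ⟨I, hI, by have := h2 I hI; omega⟩

theorem ucw_nat (n E k) : UCW (graphOf n E) k ↔ UW (· < n) (TA (eR E)) k :=
  uw_iff Fin.val Fin.val_injective (fun x => by simp [Fin.exists_iff])
    (fun u v => by simp [graphOf_adj, TA, eR, Fin.ext_iff]) k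

theorem bip_nat (n E) : (graphOf n E).IsBipartite ↔
    ∃ b : ℕ → ℕ, (∀ v, b v ≤ 1) ∧ ∀ u < n, ∀ v < n, TA (eR E) u v → b u ≠ b v := by
  have adj : ∀ u v : Fin n, (graphOf n E).Adj u v ↔ TA (eR E) u v := fun u v => by
    simp [graphOf_adj, TA, eR, Fin.ext_iff]
  constructor
  · rintro ⟨C⟩
    refine ⟨fun v => if h : v < n then C ⟨v, h⟩ else 0, fun v => ?_, fun u hu v hv h => ?_⟩
    · dsimp only; split_ifs <;> omega
    · simp only [dif_pos hu, dif_pos hv]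
      exact fun e => C.valid ((adj ⟨u, hu⟩ ⟨v, hv⟩).2 h) (Fin.ext e)
  · rintro ⟨b, h1, h2⟩
    exact ⟨SimpleGraph.Coloring.mk (fun v => ⟨b v, by have := h1 v; omega⟩) fun {u v} h e =>
      h2 u u.2 v v.2 ((adj u v).1 h) (congrArg Fin.val e)⟩

theorem uw_small {n E k} {b : ℕ → ℕ} (h1 : ∀ v, b v ≤ 1)
    (h2 : ∀ u < n, ∀ v < n, TA (eR E) u v → b u ≠ b v) (hk : 2 * n ≤ k) :
    UW (· < n) (TA (eR E)) k := by
  refine ⟨fun v => b v + 1, range n, fun d hd => mem_range.1 hd, fun u v hu hv h => ?_,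
    by simp, fun v hv h => absurd (mem_range.2 hv) h, ?_⟩
  · have := h2 u hu v hv h; dsimp only; omega
  · have := sum_le_card_nsmul (range n) (fun v => b v + 1) 2 fun v _ => by have := h1 v; omega
    simp only [card_range, smul_eq_mul] at this ⊢; omega

def adjB (E : List (ℕ × ℕ)) (u v : ℕ) : Bool :=
  decide (u ≠ v) && (decide ((u, v) ∈ E) || decide ((v, u) ∈ E))

theorem adjB_iff {E u v} : adjB E u v = true ↔ TA (eR E) u v := by simp [adjB, TA, eR]

@[fun_prop] theorem pt_adjB {α : Type} [Enc α] {E : α → List (ℕ × ℕ)} {u v : α → ℕ} (h : PT E)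
    (hu : PT u) (hv : PT v) : PT fun a => adjB (E a) (u a) (v a) := by unfold adjB; fun_prop

def prop (n : ℕ) (E : List (ℕ × ℕ)) (c : List ℕ) : Bool :=
  (List.range n).all fun u => (List.range n).all fun v =>
    !adjB E u v || decide (c.getD u 0 ≠ c.getD v 0)

theorem prop_iff {n E c} : prop n E c = true ↔
    ∀ u < n, ∀ v < n, TA (eR E) u v → c.getD u 0 ≠ c.getD v 0 := by
  simp only [prop, List.all_eq_true, List.mem_range, Bool.or_eq_true, Bool.not_eq_true',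
    decide_eq_true_eq, ← adjB_iff]
  refine forall₄_congr fun u _ v _ => ?_
  cases adjB E u v <;> simp

theorem getD_map {n v} (f : ℕ → ℕ) (h : v < n) : ((List.range n).map f).getD v 0 = f v := by
  simp [List.getD_eq_getElem?_getD, h]

theorem inNP : InNP (lang BipUCW) := by
  refine inNP_lang (fun a (w : List ℕ × List ℕ × List ℕ) =>
    decide ((Bin.mk 1).val ≤ a.2.val) && w.1.all (fun x => decide (x ≤ 1)) &&
    prop a.1.1 a.1.2 w.1 && prop a.1.1 a.1.2 w.2.1 && decide w.2.2.Nodup &&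
    w.2.2.all (fun d => decide (d < a.1.1) && decide (w.2.1.getD d 0 ≠ 0)) &&
    (List.range a.1.1).all (fun v => decide (v ∈ w.2.2) ||
      w.2.2.any fun d => adjB a.1.2 v d && decide (w.2.1.getD v 0 < w.2.1.getD d 0)) &&
    decide ((Bin.mk (w.2.2.map fun d => w.2.1.getD d 0).sum).val ≤ a.2.val))
    (PT.and (PT.and (PT.and (PT.and (PT.and (PT.and (PT.and (pt_ble (PT.const _) (by fun_prop))
      (by fun_prop)) (by unfold prop; fun_prop)) (by unfold prop; fun_prop)) (by fun_prop))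
      (by fun_prop)) (by fun_prop)) (pt_ble (by fun_prop) (by fun_prop)))
    (B := fun a => 5 * (a.1.1 * (2 * (2 * a.1.1 + 1) + 1)) + 3)
    ((PT.pb (f := fun a : (ℕ × List (ℕ × ℕ)) × Bin => 5 * (a.1.1 * (2 * (2 * a.1.1 + 1) + 1)) + 3)
      (by fun_prop)).mono fun a => by simp) ?_ ?_
  · rintro ⟨⟨n, E⟩, k⟩ ⟨h1, h2, h3⟩
    obtain ⟨b, b1, b2⟩ := (bip_nat n E).1 h1
    have h4 : UW (· < n) (TA (eR E)) (min k.val (2 * n)) := by
      rcases le_total k.val (2 * n) with h | h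
      · rw [min_eq_left h]; exact (ucw_nat _ _ _).1 h3
      · rw [min_eq_right h]; exact uw_small b1 b2 le_rfl
    obtain ⟨c, D, d0, d1, d2, d3, d4⟩ := h4
    have cD : ∀ d ∈ D, c d ≤ 2 * n := fun d hd =>
      (single_le_sum (fun _ _ => Nat.zero_le _) hd).trans (d4.trans (min_le_right _ _))
    have cb : ∀ v < n, c v ≤ 2 * n := fun v hv => by
      by_cases h : v ∈ D
      · exact cD v h
      · obtain ⟨d, x, -, y⟩ := d3 v hv h
        have := cD d x; omega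
    refine ⟨((List.range n).map b, (List.range n).map c, D.toList), ?_, ?_⟩
    · have s1 := sz_le_of_forall (l := (List.range n).map b) (B := 2 * n + 1) fun x hx => by
        obtain ⟨v, -, rfl⟩ := List.mem_map.1 hx
        have := b1 v; simp; omega
      have s2 := sz_le_of_forall (l := (List.range n).map c) (B := 2 * n + 1) fun x hx => by
        obtain ⟨v, hv, rfl⟩ := List.mem_map.1 hx
        have := cb v (List.mem_range.1 hv); simp; omega
      have s3 := sz_le_of_forall (l := D.toList) (B := 2 * n + 1) fun x hx => by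
        have := d0 x (mem_toList.1 hx); simp; omega
      have s4 : D.toList.length ≤ n := by
        simpa using card_le_card (show D ⊆ range n from fun v hv => mem_range.2 (d0 v hv))
      have s5 := Nat.mul_le_mul_right (2 * (2 * n + 1) + 1) s4
      simp only [List.length_map, List.length_range] at s1 s2
      simp only [sz_prod]; omega
    · simp only [Bool.and_eq_true, List.all_eq_true, decide_eq_true_eq, List.mem_range, prop_iff,
        Bool.or_eq_true, List.any_eq_true, mem_toList, adjB_iff]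
      refine ⟨⟨⟨⟨⟨⟨⟨h2, fun x hx => ?_⟩, fun u hu v hv h => ?_⟩, fun u hu v hv h => ?_⟩,
        nodup_toList _⟩, fun d hd => ⟨d0 d hd, ?_⟩⟩, fun v hv => ?_⟩, ?_⟩
      · obtain ⟨v, -, rfl⟩ := List.mem_map.1 hx; exact b1 v
      · rw [getD_map _ hu, getD_map _ hv]; exact b2 u hu v hv h
      · rw [getD_map _ hu, getD_map _ hv]; exact d1 u v hu hv h
      · rw [getD_map _ (d0 d hd)]; exact d2 d hd
      · by_cases h : v ∈ D
        · exact Or.inl h
        · obtain ⟨d, x, y, z⟩ := d3 v hv h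
          exact Or.inr ⟨d, x, y, by rwa [getD_map _ hv, getD_map _ (d0 d x)]⟩
      · rw [sum_map_toList, sum_congr rfl fun d hd => getD_map c (d0 d hd)]
        exact d4.trans (min_le_left _ _)
  · rintro ⟨⟨n, E⟩, k⟩ ⟨b, c, D⟩ h
    simp only [Bool.and_eq_true, List.all_eq_true, decide_eq_true_eq, List.mem_range, prop_iff,
      Bool.or_eq_true, List.any_eq_true, adjB_iff] at h
    obtain ⟨⟨⟨⟨⟨⟨⟨h1, h2⟩, h3⟩, h4⟩, h5⟩, h6⟩, h7⟩, h8⟩ := h
    refine ⟨(bip_nat n E).2 ⟨fun v => b.getD v 0, fun v => ?_, h3⟩, h1, (ucw_nat _ _ _).2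
      ⟨fun v => c.getD v 0, D.toFinset, fun d hd => (h6 d (List.mem_toFinset.1 hd)).1,
        fun u v hu hv => h4 u hu v hv, fun d hd => (h6 d (List.mem_toFinset.1 hd)).2,
        fun v hv h => ?_, by rwa [List.sum_toFinset _ h5]⟩⟩
    · dsimp only
      by_cases x : v < b.length
      · rw [List.getD_eq_getElem _ _ x]; exact h2 _ (List.getElem_mem _)
      · rw [List.getD_eq_default _ _ (by omega)]; omega
    · rcases h7 v hv with x | ⟨d, x, y⟩
      · exact absurd (List.mem_toFinset.2 x) h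
      · exact ⟨d, List.mem_toFinset.2 x, y⟩

theorem bip_npc : NPComplete (lang BipUCW) := ⟨inNP, hard.npHard fun _ _ => Iff.rfl⟩

end Pool.Agent.H30.Uc
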