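import Pool.Agent.H38.NP.Defs

/-!
The up-color domination weight.
-/

namespace Pool.Agent.H30.Uc

open Pool.Agent.H38.NP

/-- The up-color domination weight of `G` is at most `k`: there are a proper colouring `c` by
natural numbers and an up-color dominating set `D` for it of weight at most `k`. -/
def UCW {V : Type} (G : SimpleGraph V) (k : ℕ) : Prop :=
  ∃ (c : V → ℕ) (D : Finset V), (∀ u v, G.Adj u v → c u ≠ c v) ∧ (∀ d ∈ D, c d ≠ 0) ∧
    (∀ v ∉ D, ∃ d ∈ D, G.Adj v d ∧ c v < c d) ∧ ∑ d ∈ D, c d ≤ k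

/-- The yes-instances of UCW for bipartite graphs. -/
def BipUCW (a : (ℕ × List (ℕ × ℕ)) × Bin) : Prop :=
  (graphOf a.1.1 a.1.2).IsBipartite ∧ 1 ≤ a.2.val ∧ UCW (graphOf a.1.1 a.1.2) a.2.val

end Pool.Agent.H30.Uc
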