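import Pool.Agent.H30.UcB

/-!
Products of optional transpositions: a reduction from satisfiability.
-/

namespace Pool.Agent.H30.Uc.It

open Finset Equiv

def R : List (ℕ × ℕ) → Perm ℕ → Perm ℕ → Prop
  | [], p, q => q = p
  | e :: S, p, q => R S p q ∨ R S (swap e.1 e.2 * p) q

theorem R_app {S T p q} : R (S ++ T) p q ↔ ∃ r, R S p r ∧ R T r q := by
  induction S generalizing p with
  | nil => simp [R]
  | cons e S ih => simp only [List.cons_append, R, ih, or_and_right, exists_or]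

theorem R_refl (S p) : R S p p := by
  induction S with
  | nil => rfl
  | cons e S ih => exact Or.inl ih

theorem R_cl {S p q x} (Z : ℕ → Prop) (h : R S p q) (hZ : ∀ e ∈ S, Z e.1 ↔ Z e.2) (hx : Z (p x)) :
    Z (q x) := by
  induction S generalizing p with
  | nil => rw [show q = p from h]; exact hx
  | cons e S ih =>
    have h2 := fun e' h' => hZ e' (List.mem_cons_of_mem _ h')
    rcases h with h | h
    · exact ih h h2 hx
    · refine ih h h2 ?_
      have := hZ e List.mem_cons_self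
      rw [Perm.mul_apply, swap_apply_def]
      split_ifs with a b
      · exact this.1 (a ▸ hx)
      · exact this.2 (b ▸ hx)
      · exact hx

theorem R_range {g : ℕ → List (ℕ × ℕ)} {k p q} : R ((List.range (k + 1)).flatMap g) p q ↔
    ∃ r, R ((List.range k).flatMap g) p r ∧ R (g k) r q := by
  rw [List.range_succ, List.flatMap_append, R_app]; simp

def tr (m : ℕ) (b : Bool) : ℕ := if b = true then 0 else 6 * m + 1

def nd (m : ℕ) (vr : ℕ → ℕ) (sg : ℕ → Bool) (i o : ℕ) : List (ℕ × ℕ) :=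
  if vr o = i then [(1 + o, tr m (sg o)), (tr m (sg o), 1 + 3 * m + o)] else []

def ph (m : ℕ) (vr : ℕ → ℕ) (sg : ℕ → Bool) (i : ℕ) : List (ℕ × ℕ) :=
  [(0, 6 * m + 1)] ++ (List.range (3 * m)).flatMap (nd m vr sg i)

def sh (m b j : ℕ) : List (ℕ × ℕ) := [(b + j, b + m + j), (b + j, b + 2 * m + j)]

def sched (m n : ℕ) (vr : ℕ → ℕ) (sg : ℕ → Bool) : List (ℕ × ℕ) :=
  (List.range m).flatMap (sh m 1) ++ ((List.range n).flatMap (ph m vr sg) ++
    ([(0, 6 * m + 1)] ++ (List.range m).flatMap (sh m (3 * m + 1))))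

def Oc (m j o : ℕ) : Prop := o = j ∨ o = j + m ∨ o = j + 2 * m

theorem tr_cases (m b c) : (tr m b = 0 ∨ tr m b = 6 * m + 1) ∧ (tr m c = 0 ∨ tr m c = 6 * m + 1) ∧
    (tr m b = tr m c ↔ b = c) := by
  cases b <;> cases c <;> simp [tr]

theorem sched_lt {m n vr sg} : ∀ e ∈ sched m n vr sg, e.1 < 6 * m + 2 ∧ e.2 < 6 * m + 2 := by
  intro e he
  simp only [sched, ph, sh, nd, List.mem_append, List.mem_flatMap, List.mem_range, List.mem_cons,
    List.not_mem_nil, or_false] at he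
  rcases he with ⟨j, a, rfl | rfl⟩ | ⟨i, -, rfl | ⟨o, a, b⟩⟩ | rfl | ⟨j, a, rfl | rfl⟩
  any_goals (dsimp only; omega)
  have := tr_cases m (sg o) true
  split_ifs at b
  · simp only [List.mem_cons, List.not_mem_nil, or_false] at b
    rcases b with rfl | rfl <;> dsimp only <;> omega
  · simp at b

theorem nd_cases {m vr sg i k p q} (h : R (nd m vr sg i k) p q) : q = p ∨ (vr k = i ∧
    (q = swap (1 + k) (tr m (sg k)) * p ∨ q = swap (tr m (sg k)) (1 + 3 * m + k) * p ∨
      q = swap (tr m (sg k)) (1 + 3 * m + k) * (swap (1 + k) (tr m (sg k)) * p))) := by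
  unfold nd at h
  split_ifs at h with a
  · simp only [R] at h; tauto
  · exact Or.inl h

section
variable {m : ℕ} {vr : ℕ → ℕ} {sg : ℕ → Bool}

def Dd (m : ℕ) (vr : ℕ → ℕ) (i k x : ℕ) : Prop :=
  ∃ o < 3 * m, (vr o < i ∨ (vr o = i ∧ o < k)) ∧ (x = 1 + o ∨ x = 1 + 3 * m + o)

def Ok (m : ℕ) (vr : ℕ → ℕ) (sg : ℕ → Bool) (α : ℕ → Bool) (i : ℕ) (p : Perm ℕ) : Prop :=
  ∀ j < m, (∃ o, Oc m j o ∧ p (1 + j) = 1 + o) ∨ ∃ o, Oc m j o ∧ vr o < i ∧ α (vr o) = sg o

theorem b_in {i b α p} (hα : α i = !b) (hp : Dd m vr i 0 (p 0) ∨ (p 0 = tr m b ∧ Ok m vr sg α (i + 1) p))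
    (k : ℕ) (hk : k ≤ 3 * m) {q} (h : R ((List.range k).flatMap (nd m vr sg i)) p q) :
    Dd m vr i k (q 0) ∨ (q 0 = tr m b ∧ Ok m vr sg α (i + 1) q) := by
  induction k generalizing q with
  | zero => rw [show q = p from h]; exact hp
  | succ k ih =>
    obtain ⟨r, h1, h2⟩ := R_range.1 h
    have t := tr_cases m b (sg k)
    rcases ih (by omega) h1 with ⟨o, a, c, d⟩ | ⟨a, c⟩
    · refine Or.inl ⟨o, a, by omega, ?_⟩
      rcases nd_cases h2 with rfl | ⟨v, rfl | rfl | rfl⟩
      · exact d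
      all_goals
        have : o ≠ k := by rintro rfl; omega
        simp only [Perm.mul_apply, swap_apply_def]
        split_ifs <;> omega
    · rcases nd_cases h2 with rfl | ⟨v, h3⟩
      · exact Or.inr ⟨a, c⟩
      by_cases e : b = sg k
      · refine Or.inl ⟨k, by omega, by omega, ?_⟩
        have := t.2.2.2 e
        rcases h3 with rfl | rfl | rfl <;> simp only [Perm.mul_apply, swap_apply_def] <;>
          split_ifs <;> omega
      · have e' : tr m b ≠ tr m (sg k) := fun x => e (t.2.2.1 x)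
        refine Or.inr ⟨?_, fun j hj => ?_⟩
        · rcases h3 with rfl | rfl | rfl <;> simp only [Perm.mul_apply, swap_apply_def] <;>
            split_ifs <;> omega
        · rcases c j hj with ⟨o, x, y⟩ | x
          · by_cases z : o = k
            · subst z
              refine Or.inr ⟨o, x, by omega, ?_⟩
              rw [v, hα]; cases b <;> cases h' : sg o <;> simp_all
            · refine Or.inl ⟨o, x, ?_⟩
              unfold Oc at x
              rcases h3 with rfl | rfl | rfl <;> simp only [Perm.mul_apply, swap_apply_def] <;>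
                split_ifs <;> omega
          · exact Or.inr x

theorem b_out {p} (h0 : p 0 = 0) (hp : Ok m vr sg (fun _ => true) 0 p) (i : ℕ) {q}
    (h : R ((List.range i).flatMap (ph m vr sg)) p q) :
    Dd m vr i 0 (q 0) ∨ ((q 0 = 0 ∨ q 0 = 6 * m + 1) ∧ ∃ α, Ok m vr sg α i q) := by
  induction i generalizing q with
  | zero => rw [show q = p from h]; exact Or.inr ⟨Or.inl h0, _, hp⟩
  | succ i ih =>
    obtain ⟨r, h1, h2⟩ := R_range.1 h
    obtain ⟨s, h3, h4⟩ := R_app.1 h2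
    have key : ∃ b α, α i = (!b) ∧ (Dd m vr i 0 (s 0) ∨ (s 0 = tr m b ∧ Ok m vr sg α (i + 1) s)) := by
      rcases ih h1 with ⟨o, a, c, d⟩ | ⟨a, α, c⟩
      · refine ⟨true, fun _ => false, rfl, Or.inl ⟨o, a, c, ?_⟩⟩
        exact R_cl (fun x => x = 1 + o ∨ x = 1 + 3 * m + o) h3 (by simp; omega) d
      · have e : s 0 = 0 ∨ s 0 = 6 * m + 1 :=
          R_cl (fun x => x = 0 ∨ x = 6 * m + 1) h3 (by simp) a
        refine ⟨decide (s 0 = 0), Function.update α i (!decide (s 0 = 0)), by simp,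
          Or.inr ⟨by unfold tr; simp only [decide_eq_true_eq]; split_ifs <;> omega, fun j hj => ?_⟩⟩
        rcases c j hj with ⟨o, x, y⟩ | ⟨o, x, y, z⟩
        · exact Or.inl ⟨o, x, R_cl (fun x => x = 1 + o) h3 (by unfold Oc at x; simp; omega) y⟩
        · exact Or.inr ⟨o, x, by omega, by rw [Function.update_of_ne (by omega)]; exact z⟩
    obtain ⟨b, α, a, c⟩ := key
    rcases b_in a c _ le_rfl h4 with ⟨o, x, y, z⟩ | ⟨x, y⟩
    · exact Or.inl ⟨o, x, by omega, z⟩
    · exact Or.inr ⟨x ▸ (tr_cases m b b).1, α, y⟩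

theorem mem_sh {b e} (h : e ∈ (List.range m).flatMap (sh m b)) :
    ∃ j < m, e.1 = b + j ∧ (e.2 = b + m + j ∨ e.2 = b + 2 * m + j) := by
  simp only [sh, List.mem_flatMap, List.mem_range, List.mem_cons, List.not_mem_nil, or_false] at h
  obtain ⟨j, a, rfl | rfl⟩ := h <;> exact ⟨j, a, by simp⟩

theorem sched_bwd {n σ} (h : R (sched m n vr sg) 1 σ) (h0 : σ 0 = 0)
    (h1 : ∀ j < m, 3 * m < σ (1 + j)) : ∃ α : ℕ → Bool, ∀ j < m, ∃ o, Oc m j o ∧ α (vr o) = sg o := by
  obtain ⟨p, a, h⟩ := R_app.1 h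
  obtain ⟨q, b, c⟩ := R_app.1 h
  have fin : ∀ u x, (u = 3 * m ∨ u = 6 * m) → 1 ≤ q x ∧ q x ≤ u → 1 ≤ σ x ∧ σ x ≤ u :=
    fun u x hu hx => R_cl (fun x => 1 ≤ x ∧ x ≤ u) c (fun e he => by
      rcases List.mem_append.1 he with he | he
      · obtain rfl := List.mem_singleton.1 he; dsimp only; omega
      · obtain ⟨j, x, y, z⟩ := mem_sh he; omega) hx
  rcases b_out (vr := vr) (sg := sg) (p := p)
    (R_cl (· = 0) a (fun e he => by obtain ⟨j, x, y, z⟩ := mem_sh he; omega) rfl)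
    (fun j hj => Or.inl (by
      have := R_cl (x := 1 + j) (fun x => x = 1 + j ∨ x = 1 + (j + m) ∨ x = 1 + (j + 2 * m)) a
        (fun e he => by obtain ⟨j, x, y, z⟩ := mem_sh he; omega) (Or.inl rfl)
      rcases this with x | x | x <;> exact ⟨_, by simp [Oc], x⟩)) n b with ⟨o, x, -, z⟩ | ⟨-, α, y⟩
  · have := fin (6 * m) 0 (by omega) (by omega); omega
  · refine ⟨α, fun j hj => ?_⟩
    rcases y j hj with ⟨o, x, z⟩ | ⟨o, x, -, z⟩
    · unfold Oc at x
      have := fin (3 * m) (1 + j) (by omega) (by omega)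
      have := h1 j hj; omega
    · exact ⟨o, x, z⟩

theorem sh_f {b p} {u v : ℕ → ℕ} (hb : 1 ≤ b)
    (huv : ∀ j < m, (u j = j ∧ Oc m j (v j)) ∨ (v j = j ∧ Oc m j (u j))) (h0 : p 0 = 0)
    (hp : ∀ j < m, p (1 + j) = b + u j) (k : ℕ) (hk : k ≤ m) :
    ∃ q, R ((List.range k).flatMap (sh m b)) p q ∧ q 0 = 0 ∧
      ∀ j < m, q (1 + j) = b + if j < k then v j else u j := by
  induction k with
  | zero => exact ⟨p, rfl, h0, by simpa using hp⟩
  | succ k ih =>
    obtain ⟨r, a, c, d⟩ := ih (by omega)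
    have e := huv k (by omega)
    unfold Oc at e huv
    have : u k = v k ∨ u k + v k = 2 * k + m ∨ u k + v k = 2 * k + 2 * m := by omega
    rcases this with x | x | x
    · refine ⟨r, R_range.2 ⟨r, a, R_refl _ _⟩, c, fun j hj => ?_⟩
      rw [d j hj]
      by_cases y : j = k
      · subst y; split_ifs <;> omega
      · split_ifs <;> omega
    · refine ⟨swap (b + k) (b + m + k) * r, R_range.2 ⟨r, a, by simp [sh, R]⟩, ?_, fun j hj => ?_⟩
      · simp only [Perm.mul_apply, swap_apply_def, c]; split_ifs <;> omega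
      · have := huv j hj
        simp only [Perm.mul_apply, swap_apply_def, d j hj]
        by_cases y : j = k
        · subst y; split_ifs <;> omega
        · split_ifs <;> omega
    · refine ⟨swap (b + k) (b + 2 * m + k) * r, R_range.2 ⟨r, a, by simp [sh, R]⟩, ?_, fun j hj => ?_⟩
      · simp only [Perm.mul_apply, swap_apply_def, c]; split_ifs <;> omega
      · have := huv j hj
        simp only [Perm.mul_apply, swap_apply_def, d j hj]
        by_cases y : j = k
        · subst y; split_ifs <;> omega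
        · split_ifs <;> omega

theorem f_in {i p} {α : ℕ → Bool} {w : ℕ → ℕ} (hw : ∀ j < m, Oc m j (w j) ∧ α (vr (w j)) = sg (w j))
    (h0 : p 0 = tr m (!α i))
    (hp : ∀ j < m, p (1 + j) = if vr (w j) < i then 1 + 3 * m + w j else 1 + w j)
    (k : ℕ) (hk : k ≤ 3 * m) : ∃ q, R ((List.range k).flatMap (nd m vr sg i)) p q ∧
      q 0 = tr m (!α i) ∧ ∀ j < m, q (1 + j) =
        if vr (w j) < i ∨ (vr (w j) = i ∧ w j < k) then 1 + 3 * m + w j else 1 + w j := by
  induction k with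
  | zero => exact ⟨p, rfl, h0, by simpa using hp⟩
  | succ k ih =>
    obtain ⟨r, a, c, d⟩ := ih (by omega)
    by_cases x : vr k = i ∧ ∃ j < m, w j = k
    · obtain ⟨x, j', y, z⟩ := x
      have t := tr_cases m (!α i) (sg k)
      have e : tr m (!α i) ≠ tr m (sg k) := fun h => by
        have := t.2.2.1 h
        have := (hw j' y).2
        rw [z, x] at this; simp_all
      refine ⟨swap (tr m (sg k)) (1 + 3 * m + k) * (swap (1 + k) (tr m (sg k)) * r),
        R_range.2 ⟨r, a, by simp [nd, R, x]⟩, ?_, fun j hj => ?_⟩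
      · simp only [Perm.mul_apply, swap_apply_def, c]; split_ifs <;> omega
      · have := (hw j hj).1
        unfold Oc at this
        simp only [Perm.mul_apply, swap_apply_def, d j hj]
        by_cases y : w j = k
        · have : vr (w j) = i := by rw [y]; exact x
          split_ifs <;> omega
        · split_ifs <;> omega
    · refine ⟨r, R_range.2 ⟨r, a, R_refl _ _⟩, c, fun j hj => ?_⟩
      rw [d j hj]
      by_cases y : w j = k
      · have : vr (w j) ≠ i := fun h => x ⟨y ▸ h, j, hj, y⟩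
        split_ifs <;> omega
      · split_ifs <;> omega

theorem f_out {p} {α : ℕ → Bool} {w : ℕ → ℕ} (hw : ∀ j < m, Oc m j (w j) ∧ α (vr (w j)) = sg (w j))
    (h0 : p 0 = 0) (hp : ∀ j < m, p (1 + j) = 1 + w j) (i : ℕ) :
    ∃ q, R ((List.range i).flatMap (ph m vr sg)) p q ∧ (q 0 = 0 ∨ q 0 = 6 * m + 1) ∧
      ∀ j < m, q (1 + j) = if vr (w j) < i then 1 + 3 * m + w j else 1 + w j := by
  induction i with
  | zero => exact ⟨p, rfl, Or.inl h0, by simpa using hp⟩
  | succ i ih =>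
    obtain ⟨r, a, c, d⟩ := ih
    have t := (tr_cases m (!α i) true).1
    obtain ⟨s, s1, s2, s3⟩ : ∃ s, R [(0, 6 * m + 1)] r s ∧ s 0 = tr m (!α i) ∧
        ∀ j < m, s (1 + j) = r (1 + j) := by
      by_cases x : r 0 = tr m (!α i)
      · exact ⟨r, R_refl _ _, x, fun _ _ => rfl⟩
      · refine ⟨swap 0 (6 * m + 1) * r, Or.inr rfl, ?_, fun j hj => ?_⟩
        · simp only [Perm.mul_apply, swap_apply_def]; split_ifs <;> omega
        · have := (hw j hj).1
          unfold Oc at this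
          simp only [Perm.mul_apply, swap_apply_def, d j hj]; split_ifs <;> omega
    obtain ⟨q, q1, q2, q3⟩ := f_in hw s2 (fun j hj => (s3 j hj).trans (d j hj)) _ le_rfl
    refine ⟨q, R_range.2 ⟨r, a, R_app.2 ⟨s, s1, q1⟩⟩, q2 ▸ t, fun j hj => ?_⟩
    have := (hw j hj).1
    unfold Oc at this
    rw [q3 j hj]; split_ifs <;> omega

theorem sched_fwd {n} (hn : ∀ o < 3 * m, vr o < n) {α : ℕ → Bool}
    (h : ∀ j < m, ∃ o, Oc m j o ∧ α (vr o) = sg o) :
    ∃ σ, R (sched m n vr sg) 1 σ ∧ σ 0 = 0 ∧ ∀ j < m, σ (1 + j) = 3 * m + 1 + j := by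
  choose! w hw using h
  obtain ⟨p, p1, p2, p3⟩ := sh_f (m := m) (b := 1) (p := 1) (u := id) (v := w) le_rfl
    (fun j hj => Or.inl ⟨rfl, (hw j hj).1⟩) rfl (fun _ _ => rfl) m le_rfl
  obtain ⟨q, q1, q2, q3⟩ := f_out hw p2 (fun j hj => by rw [p3 j hj, if_pos hj]) n
  have q4 : ∀ j < m, q (1 + j) = 3 * m + 1 + w j := fun j hj => by
    have := (hw j hj).1
    unfold Oc at this
    rw [q3 j hj, if_pos (hn _ (by omega))]; omega
  obtain ⟨s, s1, s2, s3⟩ : ∃ s, R [(0, 6 * m + 1)] q s ∧ s 0 = 0 ∧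
      ∀ j < m, s (1 + j) = q (1 + j) := by
    by_cases x : q 0 = 0
    · exact ⟨q, R_refl _ _, x, fun _ _ => rfl⟩
    · refine ⟨swap 0 (6 * m + 1) * q, Or.inr rfl, ?_, fun j hj => ?_⟩
      · simp only [Perm.mul_apply, swap_apply_def]; split_ifs <;> omega
      · have := (hw j hj).1
        unfold Oc at this
        simp only [Perm.mul_apply, swap_apply_def, q4 j hj]; split_ifs <;> omega
  obtain ⟨σ, a, b, c⟩ := sh_f (m := m) (b := 3 * m + 1) (p := s) (u := w) (v := id) (by omega)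
    (fun j hj => Or.inr ⟨rfl, (hw j hj).1⟩) s2 (fun j hj => (s3 j hj).trans (q4 j hj)) m le_rfl
  exact ⟨σ, R_app.2 ⟨p, p1, R_app.2 ⟨q, q1, R_app.2 ⟨s, s1, a⟩⟩⟩, b,
    fun j hj => by rw [c j hj, if_pos hj]; rfl⟩

end

end Pool.Agent.H30.Uc.It
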