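import Pool.Agent.H30.UcI2

/-!
From a light up-color dominating set of the interval graph back to the schedule.
-/

namespace Pool.Agent.H30.Uc.It

open Finset Equiv

theorem top {q : ℕ} {g : ℕ → ℕ} (h : ∀ i ≤ q, ∀ j ≤ q, g i = g j → i = j) : ∃ i ≤ q, q ≤ g i := by
  by_contra x
  push Not at x
  have := card_le_card_of_injOn (s := range (q + 1)) (t := range q) g
    (fun i hi => by simpa using x i (by simpa [Nat.lt_succ_iff] using hi))
    (fun i hi j hj => h i (by simpa [Nat.lt_succ_iff] using hi) j (by simpa [Nat.lt_succ_iff] using hj))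
  simp at this

variable {K M E : ℕ} {S : List (ℕ × ℕ)}

theorem al : ∀ x t u, Al K M E S x t → Ct K M E S u x.1 → u < x.2 ∨ t ≤ u := fun x t u a b => by
  by_contra y
  exact a.2 u (by omega) (by omega) b

theorem zL (hM : 1 ≤ M) (hE : M < E) (hK : E + M ≤ K) :
    ∀ a s w, (a ≤ M ∧ s ≤ 1) ∨ (a = K + 1 ∧ s = 0) → Ad K M E S (a, s) w → w.2 ≤ M + 1 := by
  rintro a s w x ⟨-, t, -, y, z⟩
  have := z.1
  rcases x with x | x
  · have := al _ _ (1 + a) y (by unfold Ct; dsimp only; omega)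
    dsimp only at this; omega
  · have := al _ _ 0 y (by unfold Ct; dsimp only; omega)
    dsimp only at this; omega

theorem zM (hM : 1 ≤ M) (hE : M < E) (hK : E + M ≤ K) :
    ∀ i < K, ∀ w, Vx K M E S w → Ad K M E S (i, 2 + 2 * K + i) w →
    M + 2 ≤ w.2 ∧ w.2 ≤ 4 * K := by
  rintro i hi ⟨b, r⟩ x ⟨-, t, -, y, z⟩
  have a1 := y.1
  have a2 := z.1
  have a3 := al _ _ (1 + 3 * K + i) y (by unfold Ct; dsimp only; omega)
  by_cases hb : b < K
  · have := al _ _ (1 + K + b) z (by unfold Ct; dsimp only; omega)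
    dsimp only at *; omega
  · rcases x with x | x | x
    · exact absurd x.1 hb
    · dsimp only at *; omega
    · have := al _ _ r z (by unfold Ct; dsimp only at *; omega)
      dsimp only at *; omega

theorem zR (hM : 1 ≤ M) (hE : M < E) (hK : E + M ≤ K) :
    ∀ a s w, Vx K M E S w → 1 + 5 * K + S.length < s → Ad K M E S (a, s) w →
    4 * K < w.2 := by
  rintro a s ⟨b, r⟩ x hs ⟨-, t, -, y, z⟩
  have a1 := y.1
  have a2 := z.1
  by_cases hb : b < K
  · have := al _ _ (1 + 4 * K + b) z (by unfold Ct; dsimp only; omega)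
    dsimp only at *; omega
  · rcases x with x | x | x
    · exact absurd x.1 hb
    · have := al _ _ (1 + 5 * K + S.length) z (by unfold Ct; dsimp only at *; omega)
      dsimp only at *; omega
    · have := al _ _ r z (by unfold Ct; dsimp only at *; omega)
      dsimp only at *; omega

theorem vL (hE : M < E) (hK : E + M ≤ K) : ∀ i ≤ M, Vx K M E S (i, min i 1) := fun i hi => by
  unfold Vx Ct; dsimp only; omega

theorem vR (hK : E + M ≤ K) : ∀ i < M, Vx K M E S (E + i, 2 + 5 * K + S.length + i) :=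
  fun i hi => by unfold Vx Ct; dsimp only; omega

theorem vR0 (hE : M < E) (hK : E + M ≤ K) : Vx K M E S (0, 2 + 5 * K + S.length + M) := by
  unfold Vx Ct; dsimp only; omega

theorem vM {r} (hr : r = 2 * K ∨ r = 3 * K) : ∀ i < K, Vx K M E S (i, 2 + r + i) := fun i hi => by
  refine Or.inl ⟨hi, by dsimp only; omega, Or.inr ⟨by dsimp only; omega, Or.inl ⟨hi, ?_⟩⟩⟩
  rcases hr with rfl | rfl
  · exact Or.inr (Or.inr (Or.inr (Or.inl (by dsimp only; omega))))
  · exact Or.inr (Or.inr (Or.inr (Or.inr (Or.inl (by dsimp only; omega)))))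

theorem aL : ∀ i ≤ M, Al K M E S (i, min i 1) 1 ∨ K ≤ M := fun i hi => by
  by_cases x : K ≤ M
  · exact Or.inr x
  exact Or.inl ⟨by dsimp only; omega, fun u a b c => by unfold Ct at c; dsimp only at *; omega⟩

theorem aR (hE : M < E) (hK : E + M ≤ K) : ∀ i ≤ M, Al K M E S
    (if i < M then E + i else 0, 2 + 5 * K + S.length + i) (2 + 5 * K + S.length + M) :=
  fun i hi => ⟨by dsimp only; omega, fun u a b c => by
    unfold Ct at c; dsimp only at *; split_ifs at c <;> omega⟩

theorem aM {r} (hE : M < E) (hM : 1 ≤ M) (hK : E + M ≤ K) (hr : r = 2 * K ∨ r = 3 * K) : ∀ i ≤ K,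
    Al K M E S (i, if i < K then 2 + r + i else M + 2) (1 + K + r) := fun i hi =>
  ⟨by dsimp only; split_ifs <;> omega, fun u a b c => by
    unfold Ct at c; dsimp only at *; split_ifs at b <;> omega⟩

theorem g_core (hM : 1 ≤ M) (hE : M < E) (hK : E + M ≤ K)
    (h : UW (Vx K M E S) (Ad K M E S) (K + 2 * M)) : ∃ c : ℕ × ℕ → ℕ,
    (∀ u v, Vx K M E S u → Vx K M E S v → Ad K M E S u v → c u ≠ c v) ∧
    (∀ v, Vx K M E S v → v.1 < K → c v < K) ∧ c (0, 0) = M ∧ (∀ j, 1 ≤ j → j ≤ M → c (j, 1) < M) ∧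
    c (0, 2 + 5 * K + S.length + M) = M ∧
    ∀ i < M, c (E + i, 2 + 5 * K + S.length + i) < M := by
  obtain ⟨c, D, h0, h1, h2, h3, h4⟩ := h
  have s3 : ∀ x ∈ D, ∀ y ∈ D, ∀ z ∈ D, x ≠ y → x ≠ z → y ≠ z → c x + c y + c z ≤ K + 2 * M :=
    fun x hx y hy z hz a b d => by
      have := sum_le_sum_of_subset (f := c) (show ({x, y, z} : Finset _) ⊆ D by
        simp [insert_subset_iff, *])
      rw [sum_insert (by simp [*]), sum_insert (by simp [*]), sum_singleton] at this; omega
  have s4 : ∀ x ∈ D, ∀ y ∈ D, ∀ z ∈ D, ∀ w ∈ D, x ≠ y → x ≠ z → y ≠ z → w ≠ x → w ≠ y → w ≠ z →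
      c x + c y + c z + 1 ≤ K + 2 * M := fun x hx y hy z hz w hw a b d e f g => by
    have := sum_le_sum_of_subset (f := c) (show ({w, x, y, z} : Finset _) ⊆ D by
      simp [insert_subset_iff, *])
    rw [sum_insert (by simp [*]), sum_insert (by simp [*]), sum_insert (by simp [*]),
      sum_singleton] at this
    have := h2 w hw; omega
  have clq : ∀ (q t : ℕ) (g : ℕ → ℕ × ℕ), t ≤ 3 + 5 * K + S.length + M →
      (∀ i ≤ q, Vx K M E S (g i) ∧ Al K M E S (g i) t) →
      (∀ i ≤ q, ∀ j ≤ q, (g i).1 = (g j).1 → i = j) → ∃ i ≤ q, q ≤ c (g i) := fun q t g a b d =>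
    top fun i hi j hj e => by
      by_contra x
      exact h1 _ _ (b i hi).1 (b j hj).1
        ⟨fun y => x (d i hi j hj (by rw [y])), t, a, (b i hi).2, (b j hj).2⟩ e
  have al := @al K M E S
  have zL := zL hM hE hK (S := S)
  have zM := zM hM hE hK (S := S)
  have zR := zR hM hE hK (S := S)
  have dom : ∀ v, Vx K M E S v → v ∈ D ∨ ∃ d ∈ D, Ad K M E S v d ∧ c v < c d := fun v hv => by
    by_cases x : v ∈ D
    · exact Or.inl x
    · exact Or.inr (h3 v hv x)
  have vL := vL hE hK (S := S)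
  have vR := vR hK (S := S)
  have vR0 := vR0 hE hK (S := S)
  obtain ⟨zl, zl1, zl2⟩ := clq M 1 (fun i => (i, min i 1)) (by omega) (fun i hi => ⟨vL i hi,
    (aL i hi).resolve_right (by omega)⟩)
    (fun i _ j _ e => e)
  obtain ⟨zr, zr1, zr2⟩ := clq M (2 + 5 * K + S.length + M)
    (fun i => (if i < M then E + i else 0, 2 + 5 * K + S.length + i)) (by omega)
    (fun i hi => ⟨by
      split_ifs with x
      · exact vR i x
      · obtain rfl : i = M := by omega
        exact vR0, aR hE hK i hi⟩)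
    (fun i _ j _ e => by dsimp only at e; split_ifs at e <;> omega)
  have vzr : Vx K M E S (if zr < M then E + zr else 0, 2 + 5 * K + S.length + zr) := by
    split_ifs with x
    · exact vR zr x
    · obtain rfl : zr = M := by omega
      exact vR0
  obtain ⟨wl, l1, l2, l3⟩ : ∃ w ∈ D, w.2 ≤ M + 1 ∧ (M < c w ∨ (M ≤ c w ∧ w.1 < K)) := by
    rcases dom _ (vL zl zl1) with x | ⟨d, x, y, z⟩
    · exact ⟨_, x, by dsimp only; omega, Or.inr ⟨zl2, by dsimp only; omega⟩⟩
    · exact ⟨d, x, zL _ _ _ (by omega) y, by omega⟩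
  obtain ⟨wr, r1, r2, r3⟩ : ∃ w ∈ D, 4 * K < w.2 ∧ (M < c w ∨ (M ≤ c w ∧ w.1 < K)) := by
    rcases dom _ vzr with x | ⟨d, x, y, z⟩
    · exact ⟨_, x, by dsimp only; omega, Or.inr ⟨zr2, by dsimp only; split_ifs <;> omega⟩⟩
    · exact ⟨d, x, zR _ _ _ (h0 d x) (by omega) y, by omega⟩
  have vP : Vx K M E S (K, M + 2) := Or.inr (Or.inl ⟨rfl, rfl⟩)
  have mid : ∀ r q, (r = 2 * K ∨ r = 3 * K) → q ≤ K → ∃ i ≤ q,
      (i < K ∧ Vx K M E S (i, 2 + r + i) ∧ q ≤ c (i, 2 + r + i)) ∨ (i = K ∧ q ≤ c (K, M + 2)) := by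
    intro r q hr hq
    have v := vM (M := M) (E := E) (S := S) hr
    obtain ⟨i, a, b⟩ := clq q (1 + K + r) (fun i => (i, if i < K then 2 + r + i else M + 2))
      (by omega) (fun i hi => ⟨by
        split_ifs with x
        · exact v i x
        · obtain rfl : i = K := by omega
          exact vP, aM hE hM hK hr i (by omega)⟩) (fun i _ j _ e => e)
    refine ⟨i, a, ?_⟩
    split_ifs at b with x
    · exact Or.inl ⟨x, v i x, b⟩
    · obtain rfl : i = K := by omega
      exact Or.inr ⟨rfl, b⟩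
  have md : ∀ i < K, Vx K M E S (i, 2 + 2 * K + i) →
      ∃ w ∈ D, M + 2 ≤ w.2 ∧ w.2 ≤ 4 * K ∧ c (i, 2 + 2 * K + i) ≤ c w := fun i hi hv => by
    rcases dom _ hv with x | ⟨d, x, y, z⟩
    · exact ⟨_, x, by dsimp only; omega, by dsimp only; omega, le_rfl⟩
    · have := zM i hi d (h0 d x) y
      exact ⟨d, x, this.1, this.2, z.le⟩
  have ne : ∀ x y : ℕ × ℕ, x.2 ≠ y.2 → x ≠ y := fun x y a b => a (by rw [b])
  obtain ⟨w, w1, w2, w3, w4⟩ : ∃ w ∈ D, M + 2 ≤ w.2 ∧ w.2 ≤ 4 * K ∧ K ≤ c w := by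
    obtain ⟨i, -, ⟨a, b, d⟩ | ⟨-, a⟩⟩ := mid (2 * K) K (Or.inl rfl) le_rfl
    · obtain ⟨w, x, y, z, u⟩ := md i a b
      exact ⟨w, x, y, z, by omega⟩
    rcases dom _ vP with x | ⟨d, x, y, z⟩
    · exact ⟨_, x, le_rfl, by dsimp only; omega, a⟩
    by_cases e : M + 2 ≤ d.2 ∧ d.2 ≤ 4 * K
    · exact ⟨d, x, e.1, e.2, by omega⟩
    obtain ⟨i, i1, ⟨a', b, f⟩ | ⟨f, -⟩⟩ := mid (2 * K) (K - 1) (Or.inl rfl) (by omega)
    · obtain ⟨w, x', y', z', u⟩ := md i a' b
      by_cases g : d.2 ≤ M + 1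
      · have := s3 d x w x' wr r1 (ne _ _ (by omega)) (ne _ _ (by omega)) (ne _ _ (by omega))
        omega
      · have := s3 d x w x' wl l1 (ne _ _ (by omega)) (ne _ _ (by omega)) (ne _ _ (by omega))
        omega
    · omega
  have n1 := ne w wl (by omega)
  have n2 := ne w wr (by omega)
  have n3 := ne wl wr (by omega)
  have t3 := s3 w w1 wl l1 wr r1 n1 n2 n3
  have hD : ∀ d ∈ D, d = w ∨ d = wl ∨ d = wr := fun d hd => by
    by_contra x
    push Not at x
    have := s4 w w1 wl l1 wr r1 d hd n1 n2 n3 x.1 x.2.1 x.2.2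
    omega
  have cK : ∀ v, Vx K M E S v → c v < K ∨ v = w := fun v hv => by
    rcases dom v hv with x | ⟨d, x, -, y⟩
    · rcases hD v x with rfl | rfl | rfl
      · exact Or.inr rfl
      all_goals omega
    · rcases hD d x with rfl | rfl | rfl <;> omega
  have wP : w = (K, M + 2) := by
    obtain ⟨i, -, ⟨a, b, d⟩ | ⟨-, a⟩⟩ := mid (2 * K) K (Or.inl rfl) le_rfl
    · obtain ⟨j, -, ⟨a', b', d'⟩ | ⟨-, a'⟩⟩ := mid (3 * K) K (Or.inr rfl) le_rfl
      · have x := (cK _ b).resolve_left (by omega)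
        have y := (cK _ b').resolve_left (by omega)
        rw [← y, Prod.mk.injEq] at x; omega
      · exact ((cK _ vP).resolve_left (by omega)).symm
    · exact ((cK _ vP).resolve_left (by omega)).symm
  have dL : ∀ d ∈ D, d.2 ≤ M + 1 → d = wl := fun d hd x => by
    rcases hD d hd with rfl | rfl | rfl
    · omega
    · rfl
    · omega
  have dR : ∀ d ∈ D, 4 * K < d.2 → d = wr := fun d hd x => by
    rcases hD d hd with rfl | rfl | rfl
    · omega
    · omega
    · rfl
  have eL : wl = (0, 0) := by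
    rcases dom (K + 1, 0) (Or.inr (Or.inr ⟨rfl, Or.inl rfl⟩)) with x | ⟨d, x, y, -⟩
    · have := dL _ x (by simp)
      rw [← this] at l3 t3; dsimp only at l3; omega
    · rw [← dL d x (zL _ _ _ (by omega) y)]
      obtain ⟨n, t, -, y, z⟩ := y
      obtain ⟨b, r⟩ := d
      have := al _ _ 0 y (by unfold Ct; dsimp only; omega)
      have := z.1
      have := h0 _ x
      rw [ne_eq, Prod.mk.injEq] at n
      rw [Prod.mk.injEq]
      unfold Vx at this; dsimp only at *; omega
  have eR : wr = (0, 2 + 5 * K + S.length + M) := by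
    rcases dom (K + 1, 3 + 5 * K + S.length + M) (Or.inr (Or.inr ⟨rfl, Or.inr rfl⟩)) with
      x | ⟨d, x, y, -⟩
    · have := dR _ x (by dsimp only; omega)
      rw [← this] at r3 t3; dsimp only at r3; omega
    · have g := zR _ _ _ (h0 d x) (by omega) y
      rw [← dR d x g]
      obtain ⟨n, t, tT, y, z⟩ := y
      obtain ⟨b, r⟩ := d
      have y1 := y.1
      have v := h0 _ x
      rw [ne_eq, Prod.mk.injEq] at n
      rw [Prod.mk.injEq]
      rcases v with v | v | v
      · have v1 := v.1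
        have v2 := v.2.1
        have : b = 0 := by
          by_contra e
          have := al _ _ (2 + 5 * K + S.length + M) z (by unfold Ct; dsimp only at *; omega)
          dsimp only at *; omega
        subst this
        have := al _ _ (1 + 5 * K + S.length + M) z (by unfold Ct; dsimp only at *; omega)
        dsimp only at *; omega
      · dsimp only at *; omega
      · dsimp only at *; omega
  refine ⟨c, h1, fun v hv x => (cK v hv).resolve_right ?_, by rw [← eL]; omega, fun j a b => ?_,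
    by rw [← eR]; omega, fun i hi => ?_⟩
  · rintro rfl; rw [wP] at x; omega
  · have v := vL j b
    rw [min_eq_right a] at v
    rcases dom _ v with x | ⟨d, x, y, z⟩
    · have := dL _ x (by dsimp only; omega)
      rw [eL, Prod.mk.injEq] at this; omega
    · have := dL d x (zL _ _ _ (by omega) y)
      subst this; omega
  · rcases dom _ (vR i hi) with x | ⟨d, x, y, z⟩
    · have := dR _ x (by dsimp only; omega)
      rw [eR, Prod.mk.injEq] at this; omega
    · have := dR d x (zR _ _ _ (h0 d x) (by omega) y)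
      subst this; omega

theorem g_bwd (hM : 1 ≤ M) (hE : M < E) (hK : E + M ≤ K) (hS : ∀ e ∈ S, e.1 < K ∧ e.2 < K)
    (h : UW (Vx K M E S) (Ad K M E S) (K + 2 * M)) :
    ∃ σ, R S 1 σ ∧ σ 0 = 0 ∧ ∀ j < M, E ≤ σ (1 + j) := by
  obtain ⟨c, h1, h2, h3, h4, h5, h6⟩ := g_core hM hE hK h
  have sg := fun a (ha : a < K) t => seg (K := K) (M := M) (E := E) (S := S) ha t
  choose! st s1 s2 using sg
  have f1 : ∀ t, 1 ≤ t → t < 3 + 5 * K + S.length + M → ∀ x < K, c (x, st x t) < K :=
    fun t a b x hx => h2 _ (s1 x hx t a b) hx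
  have f2 : ∀ t, 1 ≤ t → t < 3 + 5 * K + S.length + M → ∀ x < K, ∀ y < K,
      c (x, st x t) = c (y, st y t) → x = y := fun t a b x hx y hy e => by
    by_contra n
    exact h1 _ _ (s1 x hx t a b) (s1 y hy t a b)
      ⟨fun z => n (congrArg Prod.fst z), t, b.le, s2 x hx t a b, s2 y hy t a b⟩ e
  have f3 : ∀ t, 1 ≤ t → t + 1 < 3 + 5 * K + S.length + M → ∀ x < K, ¬ Ct K M E S t x →
      c (x, st x (t + 1)) = c (x, st x t) := fun t a b x hx n => by
    have k := s2 x hx t a (by omega)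
    rw [uq hx (s1 x hx (t + 1) (by omega) b) (s1 x hx t a (by omega)) (s2 x hx (t + 1) (by omega) b)
      ⟨k.1.trans (Nat.le_succ _), fun u p q => by
        by_cases z : u = t
        · exact z ▸ n
        · exact k.2 u (by omega) q⟩]
  have f4 : ∀ t, 1 ≤ t → t + 1 < 3 + 5 * K + S.length + M →
      (t < 1 + 5 * K ∨ 1 + 5 * K + S.length ≤ t) → ∀ x < K,
      c (x, st x (t + 1)) = c (x, st x t) := fun t a b d x hx => by
    by_cases n : Ct K M E S t x
    · rcases two (a := x) (b := x) (f1 t a (by omega)) (f2 t a (by omega)) (f1 (t + 1) (by omega) b)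
        (f2 (t + 1) (by omega) b) hx hx (fun y hy p _ => f3 t a b y hy fun q => by
          unfold Ct at n q; omega) with k | k
      · exact k x hx
      · simpa using k x hx
    · exact f3 t a b x hx n
  have f5 : ∀ u t, 1 ≤ t → t + u < 3 + 5 * K + S.length + M →
      (t + u ≤ 1 + 5 * K ∨ 1 + 5 * K + S.length ≤ t) → ∀ x < K,
      c (x, st x (t + u)) = c (x, st x t) := fun u t a b d x hx => by
    induction u with
    | zero => rfl
    | succ u ih => rw [← add_assoc, f4 (t + u) (by omega) b (by omega) x hx, ih (by omega) (by omega)]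
  obtain ⟨σ, a, b⟩ := R_of S hS (fun τ x => c (x, st x (1 + 5 * K + τ)))
    (fun τ hτ => f1 _ (by omega) (by omega)) (fun τ hτ => f2 _ (by omega) (by omega))
    (fun τ hτ x hx p q => f3 (1 + 5 * K + τ) (by omega) (by omega) x hx fun n => by
      unfold Ct at n; rw [Nat.add_sub_cancel_left] at n; omega) 1
  have k : ∀ x < K, σ x < K ∧ c (σ x, st (σ x) (2 + 5 * K + S.length + M)) = c (x, st x 1) :=
    fun x hx => by
      obtain ⟨p, q⟩ := b x hx
      refine ⟨p, ?_⟩
      rw [show 2 + 5 * K + S.length + M = 1 + 5 * K + S.length + (M + 1) by omega,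
        f5 _ _ (by omega) (by omega) (by omega) _ p, q]
      exact f5 (5 * K) 1 le_rfl (by omega) (by omega) x hx
  have e : ∀ x s t, x < K → 1 ≤ t → t < 3 + 5 * K + S.length + M → Vx K M E S (x, s) →
      Al K M E S (x, s) t → st x t = s := fun x s t p q r u v => uq p (s1 x p t q r) u (s2 x p t q r) v
  have e1 := e 0 0 1 (by omega) le_rfl (by omega) (by unfold Vx; dsimp only; omega)
    ⟨by simp, fun u a b c => by unfold Ct at c; dsimp only at *; omega⟩
  have e2 := e 0 (2 + 5 * K + S.length + M) _ (by omega) (by omega) (by omega)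
    (by unfold Vx Ct; dsimp only; omega) (al_self _)
  have e3 : ∀ i < M, c (E + i, st (E + i) (2 + 5 * K + S.length + M)) < M := fun i hi => by
    rw [e (E + i) (2 + 5 * K + S.length + i) _ (by omega) (by omega) (by omega)
      (by unfold Vx Ct; dsimp only; omega)
      ⟨by dsimp only; omega, fun u a b c => by unfold Ct at c; dsimp only at *; omega⟩]
    exact h6 i hi
  have ij := f2 (2 + 5 * K + S.length + M) (by omega) (by omega)
  refine ⟨σ, a, ?_, fun j hj => ?_⟩
  · obtain ⟨p, q⟩ := k 0 (by omega)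
    exact ij _ p 0 (by omega) (by rw [q, e1, e2, h3, h5])
  · obtain ⟨p, q⟩ := k (1 + j) (by omega)
    rw [e (1 + j) 1 1 (by omega) le_rfl (by omega) (by unfold Vx Ct; dsimp only; omega)
      (al_self _)] at q
    obtain ⟨i, x, y⟩ := surj e3 (fun x hx y hy z => by
      have := ij _ (by omega) _ (by omega) z; omega) _ (h4 (1 + j) (by omega) (by omega))
    have := ij _ p _ (by omega) (q.trans y.symm)
    omega

end Pool.Agent.H30.Uc.It
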