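import Pool.Agent.H30.UcDefs

/-!
Interval graphs and the up-color domination weight.
-/

namespace Pool.Agent.H30.Uc

open Pool.Agent.H38.NP

/-- `G` is the intersection graph of a family of nonempty intervals of the real line. -/
def IsInterval {V : Type} (G : SimpleGraph V) : Prop :=
  ∃ I : V → Set ℝ, (∀ v, (I v).OrdConnected ∧ (I v).Nonempty) ∧
    ∀ u v, G.Adj u v ↔ u ≠ v ∧ (I u ∩ I v).Nonempty

/-- The yes-instances of UCW for interval graphs. -/
def IntUCW (a : (ℕ × List (ℕ × ℕ)) × Bin) : Prop :=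
  IsInterval (graphOf a.1.1 a.1.2) ∧ 1 ≤ a.2.val ∧ UCW (graphOf a.1.1 a.1.2) a.2.val

end Pool.Agent.H30.Uc
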