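import Pool.Agent.H30.UcI3
import Pool.Agent.H30.UcIDefs

/-!
The up-color domination weight of interval graphs is NP-hard.
-/

namespace Pool.Agent.H30.Uc.It

open Finset Pool.Agent.H38.NP Pool.Agent.H38.ER Pool.Agent.H30.Kid

def ct (K M E : ℕ) (S : List (ℕ × ℕ)) (t a : ℕ) : Bool :=
  (decide (a < K) && ((decide (t = 0) && decide (a ≠ 0)) || (decide (t = 1 + a) ||
    (decide (t = 1 + K + a) || (decide (t = 1 + 2 * K + a) || (decide (t = 1 + 3 * K + a) ||
    (decide (t = 1 + 4 * K + a) || ((decide (1 + 5 * K ≤ t) && (decide (t < 1 + 5 * K + S.length) &&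
      (decide (a = (S.getD (t - (1 + 5 * K)) (0, 0)).1) ||
        decide (a = (S.getD (t - (1 + 5 * K)) (0, 0)).2)))) ||
    ((decide (E ≤ a) && (decide (a < E + M) && decide (t + E = 1 + 5 * K + S.length + a))) ||
    ((decide (a = 0) && decide (t = 1 + 5 * K + S.length + M)) ||
    (decide (a ≠ 0) && decide (t = 2 + 5 * K + S.length + M)))))))))))) ||
    ((decide (a = K) && decide (t = 1 + 5 * K + S.length)) || decide (a = K + 1))

theorem ct_iff {K M E S t a} : ct K M E S t a = true ↔ Ct K M E S t a := by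
  simp only [ct, Ct, Bool.or_eq_true, Bool.and_eq_true, decide_eq_true_eq]

@[fun_prop] theorem pt_ct {α : Type} [Enc α] {K M E t a : α → ℕ} {S : α → List (ℕ × ℕ)}
    (h1 : PT K) (h2 : PT M) (h3 : PT E) (h4 : PT S) (h5 : PT t) (h6 : PT a) :
    PT fun x => ct (K x) (M x) (E x) (S x) (t x) (a x) := by unfold ct; fun_prop

def alB (K M E : ℕ) (S : List (ℕ × ℕ)) (x : ℕ × ℕ) (t : ℕ) : Bool :=
  decide (x.2 ≤ t) && (List.range t).all fun u => decide (u < x.2) || !ct K M E S u x.1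

theorem alB_iff {K M E S x t} : alB K M E S x t = true ↔ Al K M E S x t := by
  simp only [alB, Al, Bool.or_eq_true, Bool.and_eq_true, decide_eq_true_eq, List.all_eq_true,
    List.mem_range, ← ct_iff, Bool.not_eq_true', Bool.not_eq_true]
  refine and_congr_right fun _ => forall₂_congr fun u _ => ⟨fun h a => ?_, fun h => ?_⟩
  · exact h.resolve_left (by omega)
  · by_cases a : u < x.2
    · exact Or.inl a
    · exact Or.inr (h (by omega))

@[fun_prop] theorem pt_alB {α : Type} [Enc α] {K M E t : α → ℕ} {S : α → List (ℕ × ℕ)}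
    {y : α → ℕ × ℕ} (h1 : PT K) (h2 : PT M) (h3 : PT E) (h4 : PT S) (h5 : PT y) (h6 : PT t) :
    PT fun x => alB (K x) (M x) (E x) (S x) (y x) (t x) := by unfold alB; fun_prop

def iV (K M E : ℕ) (S : List (ℕ × ℕ)) : List (ℕ × ℕ) :=
  ((List.range (K + 2)).product (List.range (4 + 5 * K + S.length + M))).filter fun x =>
    (decide (x.1 < K) && (decide (x.2 < 3 + 5 * K + S.length + M) &&
      ((decide (x.1 = 0) && decide (x.2 = 0)) || (decide (1 ≤ x.2) && ct K M E S (x.2 - 1) x.1)))) ||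
    ((decide (x.1 = K) && decide (x.2 = M + 2)) || (decide (x.1 = K + 1) &&
      (decide (x.2 = 0) || decide (x.2 = 3 + 5 * K + S.length + M))))

theorem iV_nodup (K M E S) : (iV K M E S).Nodup :=
  (List.nodup_range.product List.nodup_range).filter _

theorem vx_le {K M E S x} (h : Vx K M E S x) : x.1 < K + 2 ∧ x.2 ≤ 3 + 5 * K + S.length + M := by
  rcases h with ⟨a, b, -⟩ | h | h <;> omega

theorem mem_iV {K M E S x} : x ∈ iV K M E S ↔ Vx K M E S x := by
  obtain ⟨a, s⟩ := x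
  simp only [iV, List.mem_filter, List.pair_mem_product, List.mem_range, Bool.or_eq_true,
    Bool.and_eq_true, decide_eq_true_eq, ct_iff]
  exact ⟨fun h => h.2, fun h => ⟨by have := vx_le h; dsimp only at this; omega, h⟩⟩

def iR (K M E : ℕ) (S : List (ℕ × ℕ)) (x y : ℕ × ℕ) : Bool :=
  (List.range (4 + 5 * K + S.length + M)).any fun t => alB K M E S x t && alB K M E S y t

theorem ta_iR {K M E S x y} : TA (iR K M E S) x y ↔ Ad K M E S x y := by
  simp only [TA, Ad, iR, List.any_eq_true, List.mem_range, Bool.and_eq_true, alB_iff]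
  refine and_congr_right fun _ => ⟨?_, fun ⟨t, a, b⟩ => Or.inl ⟨t, by omega, b⟩⟩
  rintro (⟨t, a, b⟩ | ⟨t, a, b⟩)
  · exact ⟨t, by omega, b⟩
  · exact ⟨t, by omega, b.symm⟩

theorem g_spec (K M E S) : IsInterval (graphOf (iV K M E S).length
      (tgE (iV K M E S) (iR K M E S) (0, 0))) ∧ ∀ k, UCW (graphOf (iV K M E S).length
      (tgE (iV K M E S) (iR K M E S) (0, 0))) k ↔ UW (Vx K M E S) (Ad K M E S) k := by
  obtain ⟨e, inj, mem, adj⟩ := tg_spec (iV_nodup K M E S) (iR K M E S) (0, 0)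
  refine ⟨⟨fun v => {r | ((e v).2 : ℝ) ≤ r ∧ ∃ t ≤ 3 + 5 * K + S.length + M,
    Al K M E S (e v) t ∧ r ≤ t}, fun v => ⟨⟨?_⟩, ?_⟩, fun u v => ?_⟩,
    uw_iff e inj (fun x => mem_iV.symm.trans (mem x)) fun u v => (adj u v).trans ta_iR⟩
  · rintro x ⟨a, -⟩ y ⟨-, t, b, c, d⟩ z ⟨p, q⟩
    exact ⟨a.trans p, t, b, c, q.trans d⟩
  · exact ⟨(e v).2, le_rfl, _, (vx_le (mem_iV.1 ((mem _).2 ⟨v, rfl⟩))).2, al_self _, le_rfl⟩
  · rw [adj, ta_iR]
    refine and_congr inj.ne_iff ⟨?_, ?_⟩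
    · rintro ⟨t, a, b, c⟩
      exact ⟨t, ⟨by exact_mod_cast b.1, t, a, b, le_rfl⟩, by exact_mod_cast c.1, t, a, c, le_rfl⟩
    · rintro ⟨r, ⟨a, t, b, c, d⟩, a', t', b', c', d'⟩
      have x1 : (e u).2 ≤ t' := by exact_mod_cast a.trans d'
      have x2 : (e v).2 ≤ t := by exact_mod_cast a'.trans d
      have x3 := c.1
      have x4 := c'.1
      exact ⟨max (e u).2 (e v).2, by omega, ⟨by omega, fun w p q => c.2 w (by omega) q⟩,
        by omega, fun w p q => c'.2 w (by omega) q⟩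

def lit (φ : List (Lit × Lit × Lit)) (o : ℕ) : Lit :=
  if o < φ.length then (φ.getD o ((0, true), (0, true), (0, true))).1 else
  if o < 2 * φ.length then (φ.getD (o - φ.length) ((0, true), (0, true), (0, true))).2.1 else
    (φ.getD (o - 2 * φ.length) ((0, true), (0, true), (0, true))).2.2

@[fun_prop] theorem pt_lit {α : Type} [Enc α] {φ : α → List (Lit × Lit × Lit)} {o : α → ℕ}
    (h1 : PT φ) (h2 : PT o) : PT fun x => lit (φ x) (o x) := by unfold lit; fun_prop

theorem sat_iff {φ} : Sat3 φ ↔ ∃ α : ℕ → Bool, ∀ j < φ.length, ∃ o, Oc φ.length j o ∧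
    α (lit φ o).1 = (lit φ o).2 := by
  refine exists_congr fun α => ?_
  rw [List.forall_mem_iff_getElem]
  refine forall₂_congr fun j hj => ?_
  have e1 : lit φ j = φ[j].1 := by rw [lit, if_pos hj, List.getD_eq_getElem]
  have e2 : lit φ (j + φ.length) = φ[j].2.1 := by
    rw [lit, if_neg (by omega), if_pos (by omega), Nat.add_sub_cancel, List.getD_eq_getElem]
  have e3 : lit φ (j + 2 * φ.length) = φ[j].2.2 := by
    rw [lit, if_neg (by omega), if_neg (by omega), Nat.add_sub_cancel, List.getD_eq_getElem]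
  simp only [Oc, or_and_right, exists_or, exists_eq_left, e1, e2, e3]

def sc (φ : List (Lit × Lit × Lit)) : List (ℕ × ℕ) :=
  sched φ.length (((List.range (3 * φ.length)).map fun o => (lit φ o).1).sum + 1)
    (fun o => (lit φ o).1) fun o => (lit φ o).2

theorem pt_sc : PT sc := by unfold sc sched ph nd sh tr; fun_prop

theorem sat_ne : NPH (fun φ : List (Lit × Lit × Lit) => 1 ≤ φ.length) Sat3 := by
  refine sat3_nph.reduce (fun φ => ((0, true), (0, false), (0, true)) :: φ) (by fun_prop)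
    fun φ _ => ⟨by simp, exists_congr fun a => ?_⟩
  rw [List.forall_mem_cons]
  cases a 0 <;> simp

theorem pt_iV {α : Type} [Enc α] {K M E : α → ℕ} {S : α → List (ℕ × ℕ)}
    (h1 : PT K) (h2 : PT M) (h3 : PT E) (h4 : PT S) :
    PT fun x => iV (K x) (M x) (E x) (S x) := by unfold iV; fun_prop

theorem pt_iR {α : Type} [Enc α] {K M E : α → ℕ} {S : α → List (ℕ × ℕ)}
    (h1 : PT K) (h2 : PT M) (h3 : PT E) (h4 : PT S) :
    PT fun p : α × (ℕ × ℕ) × (ℕ × ℕ) => iR (K p.1) (M p.1) (E p.1) (S p.1) p.2.1 p.2.2 := by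
  unfold iR; fun_prop

def gr (K M E : ℕ) (S : List (ℕ × ℕ)) : (ℕ × List (ℕ × ℕ)) × Bin :=
  (((iV K M E S).length, tgE (iV K M E S) (iR K M E S) (0, 0)), Bin.mk (K + 2 * M))

theorem pt_gr {α : Type} [Enc α] {K M E : α → ℕ} {S : α → List (ℕ × ℕ)}
    (h1 : PT K) (h2 : PT M) (h3 : PT E) (h4 : PT S) :
    PT fun x => gr (K x) (M x) (E x) (S x) :=
  PT.mk (PT.mk (pt_iV h1 h2 h3 h4).length (PT.tgE (r := fun x => iR (K x) (M x) (E x) (S x)) _
    (pt_iV h1 h2 h3 h4) (pt_iR h1 h2 h3 h4))) (pt_bin (by fun_prop))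

theorem gr_iff {K M E S} (h : 1 ≤ M) :
    IntUCW (gr K M E S) ↔ UW (Vx K M E S) (Ad K M E S) (K + 2 * M) :=
  ⟨fun h => ((g_spec K M E S).2 _).1 h.2.2, fun h' => ⟨(g_spec K M E S).1,
    show 1 ≤ K + 2 * M by omega, ((g_spec K M E S).2 _).2 h'⟩⟩

theorem int_hard : NPH (fun _ => True) IntUCW := by
  refine sat_ne.reduce (fun φ => gr (6 * φ.length + 2) φ.length (3 * φ.length + 1) (sc φ))
    (pt_gr (by fun_prop) (by fun_prop) (by fun_prop) pt_sc) fun φ hφ => ⟨trivial, ?_⟩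
  rw [sat_iff, gr_iff hφ]
  constructor
  · rintro ⟨α, h⟩
    obtain ⟨σ, a, b, c⟩ := sched_fwd
      (n := ((List.range (3 * φ.length)).map fun o => (lit φ o).1).sum + 1)
      (vr := fun o => (lit φ o).1) (sg := fun o => (lit φ o).2)
      (fun o ho => Nat.lt_succ_of_le (List.le_sum_of_mem
        (List.mem_map.2 ⟨o, List.mem_range.2 ho, rfl⟩))) h
    exact g_fwd hφ (by omega) (by omega) sched_lt a b c
  · intro h
    obtain ⟨σ, a, b, c⟩ := g_bwd hφ (by omega) (by omega) sched_lt h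
    exact sched_bwd a b c

end Pool.Agent.H30.Uc.It
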