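import Pool.Agent.H30.UcI4

/-!
The up-color domination weight of interval graphs is in NP.
-/

namespace Pool.Agent.H30.Uc.It

open Finset Pool.Agent.H38.NP Pool.Agent.H38.ER Pool.Agent.H30.Kid

theorem int_nat (n E) : IsInterval (graphOf n E) ↔ ∃ a b : ℕ → ℕ,
    (∀ v < n, a v ≤ b v ∧ b v ≤ n * n) ∧
    ∀ u < n, ∀ v < n, TA (eR E) u v ↔ u ≠ v ∧ a u ≤ b v ∧ a v ≤ b u := by
  classical
  have adj : ∀ u v : Fin n, (graphOf n E).Adj u v ↔ TA (eR E) u v := fun u v => by
    simp [graphOf_adj, TA, eR, Fin.ext_iff]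
  constructor
  · rintro ⟨I, h1, h2⟩
    have : ∀ u v, ∃ x, (I u ∩ I v).Nonempty → x ∈ I u ∩ I v := fun u v => by
      by_cases h : (I u ∩ I v).Nonempty
      · exact ⟨h.some, fun _ => h.some_mem⟩
      · exact ⟨0, fun h' => absurd h' h⟩
    choose pt hpt using this
    let Q : Finset ℝ := univ.image fun p : Fin n × Fin n => pt p.1 p.2
    have mQ : ∀ u v, pt u v ∈ Q := fun u v => mem_image.2 ⟨(u, v), mem_univ _, rfl⟩
    have ne : ∀ v, (Q.filter (· ∈ I v)).Nonempty := fun v =>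
      ⟨pt v v, mem_filter.2 ⟨mQ v v, (hpt v v (by simpa using (h1 v).2)).1⟩⟩
    let ρ : ℝ → ℕ := fun x => (Q.filter (· < x)).card
    have r1 : ∀ x y, x ≤ y → ρ x ≤ ρ y := fun x y h => card_le_card fun z hz =>
      mem_filter.2 ⟨(mem_filter.1 hz).1, (mem_filter.1 hz).2.trans_le h⟩
    have r2 : ∀ x, ∀ y ∈ Q, ρ x ≤ ρ y → x ≤ y := fun x y hy h => by
      by_contra n
      refine absurd h (not_le.2 (card_lt_card ⟨fun z hz =>
        mem_filter.2 ⟨(mem_filter.1 hz).1, (mem_filter.1 hz).2.trans (not_le.1 n)⟩, fun g => ?_⟩))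
      exact lt_irrefl _ (mem_filter.1 (g (mem_filter.2 ⟨hy, not_le.1 n⟩))).2
    refine ⟨fun v => if h : v < n then ρ (min' _ (ne ⟨v, h⟩)) else 0,
      fun v => if h : v < n then ρ (max' _ (ne ⟨v, h⟩)) else 0, fun v hv => ?_,
      fun u hu v hv => ?_⟩
    · simp only [dif_pos hv]
      refine ⟨r1 _ _ (min'_le_max' _ _), (card_filter_le _ _).trans (card_image_le.trans ?_)⟩
      simp
    · simp only [dif_pos hu, dif_pos hv]
      refine ((adj ⟨u, hu⟩ ⟨v, hv⟩).symm.trans (h2 _ _)).trans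
        (and_congr (by simp [Fin.ext_iff]) ⟨fun h => ?_, fun ⟨p, q⟩ => ?_⟩)
      · have a := mem_filter.2 (show _ ∧ pt _ _ ∈ I _ from ⟨mQ _ _, (hpt _ _ h).1⟩)
        have b := mem_filter.2 (show _ ∧ pt _ _ ∈ I _ from ⟨mQ _ _, (hpt _ _ h).2⟩)
        exact ⟨r1 _ _ ((min'_le _ _ a).trans (le_max' _ _ b)),
          r1 _ _ ((min'_le _ _ b).trans (le_max' _ _ a))⟩
      · have a1 := mem_filter.1 (min'_mem _ (ne ⟨u, hu⟩))
        have a2 := mem_filter.1 (max'_mem _ (ne ⟨u, hu⟩))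
        have b1 := mem_filter.1 (min'_mem _ (ne ⟨v, hv⟩))
        have b2 := mem_filter.1 (max'_mem _ (ne ⟨v, hv⟩))
        exact ⟨max (min' _ (ne ⟨u, hu⟩)) (min' _ (ne ⟨v, hv⟩)),
          (h1 _).1.out a1.2 a2.2 ⟨le_max_left _ _, max_le (min'_le_max' _ _) (r2 _ _ a2.1 q)⟩,
          (h1 _).1.out b1.2 b2.2 ⟨le_max_right _ _, max_le (r2 _ _ b2.1 p) (min'_le_max' _ _)⟩⟩
  · rintro ⟨a, b, h1, h2⟩
    refine ⟨fun v => Set.Icc (a v : ℝ) (b v), fun v => ⟨Set.ordConnected_Icc,
      Set.nonempty_Icc.2 (by exact_mod_cast (h1 v v.2).1)⟩, fun u v => ?_⟩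
    rw [adj, h2 u u.2 v v.2, Set.Icc_inter_Icc, Set.nonempty_Icc]
    have := (h1 u u.2).1
    have := (h1 v v.2).1
    refine and_congr (by simp [Fin.ext_iff]) ?_
    norm_cast
    omega

theorem uw_small' {n E} : UW (· < n) (TA (eR E)) (n * n) := by
  refine ⟨fun v => v + 1, range n, fun d hd => mem_range.1 hd, fun u v hu hv h => ?_,
    by simp, fun v hv h => absurd (mem_range.2 hv) h, ?_⟩
  · have := h.1; dsimp only; omega
  · have := sum_le_card_nsmul (range n) (fun v => v + 1) n fun v hv => mem_range.1 hv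
    simpa using this

def itv (n : ℕ) (E : List (ℕ × ℕ)) (a b : List ℕ) : Bool :=
  (List.range n).all fun u => decide (a.getD u 0 ≤ b.getD u 0) && (List.range n).all fun v =>
    decide (adjB E u v = (decide (u ≠ v) && (decide (a.getD u 0 ≤ b.getD v 0) &&
      decide (a.getD v 0 ≤ b.getD u 0))))

theorem itv_iff {n E a b} : itv n E a b = true ↔ ∀ u < n, a.getD u 0 ≤ b.getD u 0 ∧
    ∀ v < n, TA (eR E) u v ↔ u ≠ v ∧ a.getD u 0 ≤ b.getD v 0 ∧ a.getD v 0 ≤ b.getD u 0 := by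
  simp only [itv, List.all_eq_true, List.mem_range, Bool.and_eq_true, decide_eq_true_eq, ← adjB_iff]
  refine forall₂_congr fun u _ => and_congr_right fun _ => forall₂_congr fun v _ => ?_
  rw [Bool.eq_iff_iff]; simp

theorem int_of {n E} {a b : ℕ → ℕ} (h : ∀ u < n, a u ≤ b u ∧
    ∀ v < n, TA (eR E) u v ↔ u ≠ v ∧ a u ≤ b v ∧ a v ≤ b u) : IsInterval (graphOf n E) := by
  refine ⟨fun v => Set.Icc (a v : ℝ) (b v), fun v => ⟨Set.ordConnected_Icc,
    Set.nonempty_Icc.2 (by exact_mod_cast (h v v.2).1)⟩, fun u v => ?_⟩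
  have adj : (graphOf n E).Adj u v ↔ TA (eR E) u v := by simp [graphOf_adj, TA, eR, Fin.ext_iff]
  rw [adj, (h u u.2).2 v v.2, Set.Icc_inter_Icc, Set.nonempty_Icc]
  have := (h u u.2).1
  have := (h v v.2).1
  refine and_congr (by simp [Fin.ext_iff]) ?_
  norm_cast
  omega

theorem int_inNP : InNP (lang IntUCW) := by
  refine inNP_lang (fun a (w : List ℕ × List ℕ × List ℕ × List ℕ) =>
    decide ((Bin.mk 1).val ≤ a.2.val) && itv a.1.1 a.1.2 w.1 w.2.1 &&
    prop a.1.1 a.1.2 w.2.2.1 && decide w.2.2.2.Nodup &&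
    w.2.2.2.all (fun d => decide (d < a.1.1) && decide (w.2.2.1.getD d 0 ≠ 0)) &&
    (List.range a.1.1).all (fun v => decide (v ∈ w.2.2.2) ||
      w.2.2.2.any fun d => adjB a.1.2 v d && decide (w.2.2.1.getD v 0 < w.2.2.1.getD d 0)) &&
    decide ((Bin.mk (w.2.2.2.map fun d => w.2.2.1.getD d 0).sum).val ≤ a.2.val))
    (PT.and (PT.and (PT.and (PT.and (PT.and (PT.and (pt_ble (PT.const _) (by fun_prop))
      (by unfold itv; fun_prop)) (by unfold prop; fun_prop)) (by fun_prop))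
      (by fun_prop)) (by fun_prop)) (pt_ble (by fun_prop) (by fun_prop)))
    (B := fun a => 9 * (a.1.1 * (2 * (a.1.1 * a.1.1 + a.1.1 + 1) + 1)) + 5)
    ((PT.pb (f := fun a : (ℕ × List (ℕ × ℕ)) × Bin =>
      9 * (a.1.1 * (2 * (a.1.1 * a.1.1 + a.1.1 + 1) + 1)) + 5)
      (by fun_prop)).mono fun a => by simp) ?_ ?_
  · rintro ⟨⟨n, E⟩, k⟩ ⟨h1, h2, h3⟩
    obtain ⟨a, b, b1, b2⟩ := (int_nat n E).1 h1
    have h4 : UW (· < n) (TA (eR E)) (min k.val (n * n)) := by
      rcases le_total k.val (n * n) with h | h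
      · rw [min_eq_left h]; exact (ucw_nat _ _ _).1 h3
      · rw [min_eq_right h]; exact uw_small'
    obtain ⟨c, D, d0, d1, d2, d3, d4⟩ := h4
    have cD : ∀ d ∈ D, c d ≤ n * n := fun d hd =>
      (single_le_sum (fun _ _ => Nat.zero_le _) hd).trans (d4.trans (min_le_right _ _))
    have cb : ∀ v < n, c v ≤ n * n := fun v hv => by
      by_cases h : v ∈ D
      · exact cD v h
      · obtain ⟨d, x, -, y⟩ := d3 v hv h
        have := cD d x; omega
    refine ⟨((List.range n).map a, (List.range n).map b, (List.range n).map c, D.toList), ?_, ?_⟩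
    · have s0 := sz_le_of_forall (l := (List.range n).map a) (B := n * n + n + 1) fun x hx => by
        obtain ⟨v, hv, rfl⟩ := List.mem_map.1 hx
        have := b1 v (List.mem_range.1 hv); simp; omega
      have s1 := sz_le_of_forall (l := (List.range n).map b) (B := n * n + n + 1) fun x hx => by
        obtain ⟨v, hv, rfl⟩ := List.mem_map.1 hx
        have := b1 v (List.mem_range.1 hv); simp; omega
      have s2 := sz_le_of_forall (l := (List.range n).map c) (B := n * n + n + 1) fun x hx => by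
        obtain ⟨v, hv, rfl⟩ := List.mem_map.1 hx
        have := cb v (List.mem_range.1 hv); simp; omega
      have s3 := sz_le_of_forall (l := D.toList) (B := n * n + n + 1) fun x hx => by
        have := d0 x (mem_toList.1 hx); simp; omega
      have s4 : D.toList.length ≤ n := by
        simpa using card_le_card (show D ⊆ range n from fun v hv => mem_range.2 (d0 v hv))
      have s5 := Nat.mul_le_mul_right (2 * (n * n + n + 1) + 1) s4
      simp only [List.length_map, List.length_range] at s0 s1 s2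
      simp only [sz_prod]; omega
    · simp only [Bool.and_eq_true, List.all_eq_true, decide_eq_true_eq, List.mem_range, prop_iff,
        Bool.or_eq_true, List.any_eq_true, mem_toList, adjB_iff, itv_iff]
      refine ⟨⟨⟨⟨⟨⟨h2, fun u hu => ⟨?_, fun v hv => ?_⟩⟩, fun u hu v hv h => ?_⟩,
        nodup_toList _⟩, fun d hd => ⟨d0 d hd, ?_⟩⟩, fun v hv => ?_⟩, ?_⟩
      · rw [getD_map _ hu, getD_map _ hu]; exact (b1 u hu).1
      · rw [getD_map _ hu, getD_map _ hv, getD_map _ hu, getD_map _ hv]; exact b2 u hu v hv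
      · rw [getD_map _ hu, getD_map _ hv]; exact d1 u v hu hv h
      · rw [getD_map _ (d0 d hd)]; exact d2 d hd
      · by_cases h : v ∈ D
        · exact Or.inl h
        · obtain ⟨d, x, y, z⟩ := d3 v hv h
          exact Or.inr ⟨d, x, y, by rwa [getD_map _ hv, getD_map _ (d0 d x)]⟩
      · rw [sum_map_toList, sum_congr rfl fun d hd => getD_map c (d0 d hd)]
        exact d4.trans (min_le_left _ _)
  · rintro ⟨⟨n, E⟩, k⟩ ⟨a, b, c, D⟩ h
    simp only [Bool.and_eq_true, List.all_eq_true, decide_eq_true_eq, List.mem_range, prop_iff,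
      Bool.or_eq_true, List.any_eq_true, adjB_iff, itv_iff] at h
    obtain ⟨⟨⟨⟨⟨⟨h1, h3⟩, h4⟩, h5⟩, h6⟩, h7⟩, h8⟩ := h
    refine ⟨int_of (a := fun v => a.getD v 0) (b := fun v => b.getD v 0) h3, h1, (ucw_nat _ _ _).2
      ⟨fun v => c.getD v 0, D.toFinset, fun d hd => (h6 d (List.mem_toFinset.1 hd)).1,
        fun u v hu hv => h4 u hu v hv, fun d hd => (h6 d (List.mem_toFinset.1 hd)).2,
        fun v hv h => ?_, by rwa [List.sum_toFinset _ h5]⟩⟩
    rcases h7 v hv with x | ⟨d, x, y⟩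
    · exact absurd (List.mem_toFinset.2 x) h
    · exact ⟨d, List.mem_toFinset.2 x, y⟩

theorem int_npc : NPComplete (lang IntUCW) := ⟨int_inNP, int_hard.npHard fun _ _ => Iff.rfl⟩

end Pool.Agent.H30.Uc.It
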