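import Pool.Agent.H30.UcB

/-!
Dynamic programming for the up-color domination weight of trees: the tables.
-/

namespace Pool.Agent.H30.Uc

open Finset Pool.Agent.H38.NP Pool.Agent.H30.Kid

abbrev St := ℕ × Bool × Bool × ℕ

abbrev Tb := List ((ℕ × ℕ) × St)

def ch (n : ℕ) (E : List (ℕ × ℕ)) (p v : ℕ) : List ℕ :=
  (List.range n).filter fun u => decide (u ≠ p) && adjB E v u

def ok (c : ℕ) (i : Bool) (g : St) : Bool :=
  decide (g.1 ≠ c) && (!g.2.2.1 || (i && decide (g.1 < c)))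

def Loc (B : ℕ) (l : List ℕ) (x : St) (g : ℕ → St) : Prop :=
  x.1 ≤ B ∧ x.2.2.2 ≤ B ∧ (x.2.1 = true → x.1 ≠ 0) ∧ (∀ u ∈ l, ok x.1 x.2.1 (g u) = true) ∧
    x.2.2.2 = cond x.2.1 x.1 0 + (l.map fun u => (g u).2.2.2).sum ∧
    ((!x.2.1 && !x.2.2.1) = true → ∃ u ∈ l, (g u).2.1 = true ∧ x.1 < (g u).1)

def R (n : ℕ) (E : List (ℕ × ℕ)) (B : ℕ) : ℕ → ℕ → ℕ → St → Prop
  | 0, _, _, _ => False
  | t + 1, p, v, x => ∃ g : ℕ → St, (∀ u ∈ ch n E p v, R n E B t v u (g u)) ∧ Loc B (ch n E p v) x g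

def prs (B : ℕ) : List (ℕ × Bool) := (List.range (B + 1)).product [true, false]

def kstep (B : ℕ) (T : Tb) (v c : ℕ) (i : Bool) (u : ℕ) (K : List (ℕ × Bool)) : List (ℕ × Bool) :=
  (prs B).filter fun y => K.any fun k => T.any fun e => decide (e.1 = (v, u)) && ok c i e.2 &&
    decide (y.1 = e.2.2.2.2 + k.1) && (!y.2 || k.2 || (e.2.2.1 && decide (c < e.2.1)))

def knap (B : ℕ) (T : Tb) (v c : ℕ) (i : Bool) (l : List ℕ) : List (ℕ × Bool) :=
  l.foldr (kstep B T v c i) [(0, false)]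

theorem mem_knap {B T v c i} {l : List ℕ} (hl : l.Nodup) (x b) : (x, b) ∈ knap B T v c i l ↔
    x ≤ B ∧ ∃ g : ℕ → St, (∀ u ∈ l, ((v, u), g u) ∈ T ∧ ok c i (g u) = true) ∧
      x = (l.map fun u => (g u).2.2.2).sum ∧ (b = true → ∃ u ∈ l, (g u).2.1 = true ∧ c < (g u).1) := by
  induction l generalizing x b with
  | nil =>
    simp only [knap, List.foldr_nil, List.mem_singleton, Prod.mk.injEq]
    constructor
    · rintro ⟨rfl, rfl⟩; exact ⟨Nat.zero_le _, default, by simp⟩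
    · rintro ⟨-, g, -, h1, h2⟩
      exact ⟨h1, by simpa using h2⟩
  | cons u l ih =>
    obtain ⟨hu, hl⟩ := List.nodup_cons.1 hl
    have e : knap B T v c i (u :: l) = kstep B T v c i u (knap B T v c i l) := rfl
    have pm : (x, b) ∈ prs B ↔ x ≤ B := by cases b <;> simp [prs]
    rw [e, kstep, List.mem_filter, pm]
    refine and_congr_right fun hx => ?_
    simp only [List.any_eq_true, Bool.and_eq_true, decide_eq_true_eq, Bool.or_eq_true,
      Bool.not_eq_true']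
    constructor
    · rintro ⟨⟨y, d⟩, hk, ⟨w, z⟩, h1, ⟨⟨rfl, h2⟩, h3⟩, h4⟩
      obtain ⟨-, g, g1, g2, g3⟩ := (ih hl y d).1 hk
      have up : ∀ a ∈ l, Function.update g u z a = g a := fun a ha =>
        Function.update_of_ne (by rintro rfl; exact hu ha) _ _
      refine ⟨Function.update g u z, ?_, ?_, fun hb => ?_⟩
      · intro a ha
        rcases List.mem_cons.1 ha with rfl | ha
        · simpa using ⟨h1, h2⟩
        · rw [up a ha]; exact g1 a ha
      · rw [List.map_cons, List.sum_cons, Function.update_self,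
          List.map_congr_left fun a ha => by rw [up a ha], ← g2]
        exact h3
      · rcases h4 with (h | h) | h
        · rw [hb] at h; cases h
        · obtain ⟨a, ha, h⟩ := g3 h
          exact ⟨a, List.mem_cons_of_mem _ ha, by rwa [up a ha]⟩
        · exact ⟨u, List.mem_cons_self, by simpa using h⟩
    · rintro ⟨g, g1, g2, g3⟩
      rw [List.map_cons, List.sum_cons] at g2
      classical
      refine ⟨((l.map fun u => (g u).2.2.2).sum, decide (∃ u ∈ l, (g u).2.1 = true ∧ c < (g u).1)),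
        (ih hl _ _).2 ⟨by omega, g, fun a ha => g1 a (List.mem_cons_of_mem _ ha), rfl, by simp⟩,
        ((v, u), g u), (g1 u List.mem_cons_self).1, ⟨⟨rfl, (g1 u List.mem_cons_self).2⟩, g2⟩, ?_⟩
      cases b
      · simp
      · obtain ⟨a, ha, h⟩ := g3 rfl
        rcases List.mem_cons.1 ha with rfl | ha
        · exact Or.inr h
        · exact Or.inl (Or.inr (by simpa using ⟨a, ha, h⟩))

def cands (n B : ℕ) : Tb := ((List.range n).product (List.range n)).product
  ((List.range (B + 1)).product ([true, false].product ([true, false].product (List.range (B + 1)))))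

def tstep (n : ℕ) (E : List (ℕ × ℕ)) (B : ℕ) (T : Tb) : Tb :=
  (cands n B).filter fun e => (!e.2.2.1 || decide (e.2.1 ≠ 0)) &&
    decide (cond e.2.2.1 e.2.1 0 ≤ e.2.2.2.2) &&
    decide ((e.2.2.2.2 - cond e.2.2.1 e.2.1 0, !e.2.2.1 && !e.2.2.2.1) ∈
      knap B T e.1.2 e.2.1 e.2.2.1 (ch n E e.1.1 e.1.2))

theorem ch_nodup (n E p v) : (ch n E p v).Nodup := List.nodup_range.filter _

theorem mem_ch {n E p v u} : u ∈ ch n E p v ↔ u < n ∧ u ≠ p ∧ TA (eR E) v u := by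
  simp [ch, adjB_iff]

theorem mem_tab (n E B t p v x) :
    ((p, v), x) ∈ (tstep n E B)^[t] [] ↔ p < n ∧ v < n ∧ R n E B t p v x := by
  induction t generalizing p v x with
  | zero => simp [R]
  | succ t ih =>
    obtain ⟨c, i, f, s⟩ := x
    have cm : ((p, v), c, i, f, s) ∈ cands n B ↔ (p < n ∧ v < n) ∧ c ≤ B ∧ s ≤ B := by
      cases i <;> cases f <;> simp [cands]
    rw [Function.iterate_succ_apply', tstep, List.mem_filter, cm]
    simp only [Bool.and_eq_true, decide_eq_true_eq, mem_knap (ch_nodup _ _ _ _), ih, R, Loc]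
    constructor
    · rintro ⟨⟨⟨a1, a2⟩, a3, a4⟩, ⟨a5, a6⟩, -, g, g1, g2, g3⟩
      exact ⟨a1, a2, g, fun u hu => (g1 u hu).1.2.2, a3, a4, fun h => by simpa [h] using a5,
        fun u hu => (g1 u hu).2, (Nat.sub_eq_iff_eq_add' a6).1 g2, g3⟩
    · rintro ⟨a1, a2, g, g1, a3, a4, a5, g2, g3, g4⟩
      exact ⟨⟨⟨a1, a2⟩, a3, a4⟩, ⟨by cases i <;> simp_all, by omega⟩, by omega, g,
        fun u hu => ⟨⟨a2, (mem_ch.1 hu).1, g1 u hu⟩, g2 u hu⟩, by omega, g4⟩

section
variable {α : Type} [Enc α]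

theorem pt_knap {B v c : α → ℕ} {T : α → Tb} {i : α → Bool} {l : α → List ℕ} (hB : PT B)
    (hT : PT T) (hv : PT v) (hc : PT c) (hi : PT i) (hl : PT l) :
    PT fun a => knap (B a) (T a) (v a) (c a) (i a) (l a) := by
  have hp : PT fun a => prs (B a) := by unfold prs; fun_prop
  refine PT.foldr (f := fun a => kstep (B a) (T a) (v a) (c a) (i a)) ?_ hl (PT.const _)
    (hp.pb.add (PB.const (sz [((0 : ℕ), false)]))) fun a k => ?_
  · unfold kstep ok prs; fun_prop
  · cases (l a).drop k with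
    | nil => exact Nat.le_add_left _ _
    | cons u r => exact (sz_le_of_sublist List.filter_sublist).trans (Nat.le_add_right _ _)

theorem pt_cands : PT fun a : ℕ × List (ℕ × ℕ) => cands a.1 (2 * a.1) := by unfold cands; fun_prop

def st2 (a : ℕ × List (ℕ × ℕ)) (T : Tb) : Tb := tstep a.1 a.2 (2 * a.1) T

theorem pt_st2 : PT fun p : (ℕ × List (ℕ × ℕ)) × Tb => st2 p.1 p.2 := by
  have h1 : PT fun q : ((ℕ × List (ℕ × ℕ)) × Tb) × (ℕ × ℕ) × St =>
      ch q.1.1.1 q.1.1.2 q.2.1.1 q.2.1.2 := by unfold ch; fun_prop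
  have h2 : PT fun q : ((ℕ × List (ℕ × ℕ)) × Tb) × (ℕ × ℕ) × St =>
      knap (2 * q.1.1.1) q.1.2 q.2.1.2 q.2.2.1 q.2.2.2.1 (ch q.1.1.1 q.1.1.2 q.2.1.1 q.2.1.2) :=
    pt_knap (by fun_prop) (by fun_prop) (by fun_prop) (by fun_prop) (by fun_prop) h1
  have h3 : PT fun q : ((ℕ × List (ℕ × ℕ)) × Tb) × (ℕ × ℕ) × St =>
      (q.2.2.2.2.2 - cond q.2.2.2.1 q.2.2.1 0, !q.2.2.2.1 && !q.2.2.2.2.1) := by fun_prop
  have h4 : PT fun q : ((ℕ × List (ℕ × ℕ)) × Tb) × (ℕ × ℕ) × St =>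
      (!q.2.2.2.1 || decide (q.2.2.1 ≠ 0)) && decide (cond q.2.2.2.1 q.2.2.1 0 ≤ q.2.2.2.2.2) := by
    fun_prop
  unfold st2 tstep
  exact PT.filter (PT.and h4 (PT.mem h2 h3)) (pt_cands.comp (PT.fst PT.id'))

theorem st2_sub (a T) : (st2 a T).Sublist (cands a.1 (2 * a.1)) := List.filter_sublist

attribute [local irreducible] st2 cands

theorem pt_tab : PT fun a : ℕ × List (ℕ × ℕ) => (st2 a)^[a.1] [] := by
  refine PT.iterate (step := st2) pt_st2 (PT.fst PT.id') (PT.const _) pt_cands.pb fun a i _ => ?_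
  cases i with
  | zero => exact Nat.zero_le _
  | succ i =>
    rw [Function.iterate_succ_apply']
    exact sz_le_of_sublist (st2_sub _ _)

def alg (a : ℕ × List (ℕ × ℕ)) : ℕ :=
  (List.range (2 * a.1 + 1)).findIdx fun s => ((st2 a)^[a.1] []).any fun e =>
    decide (e.1 = (0, 0)) && !e.2.2.2.1 && decide (e.2.2.2.2 = s)

theorem pt_alg : PT alg := by
  unfold alg
  refine PT.findIdx (PT.any (by fun_prop) ?_) (by fun_prop)
  exact pt_tab.comp (PT.fst PT.id')
end

end Pool.Agent.H30.Uc
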