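import Pool.Agent.H30.UcT

/-!
Correctness of the dynamic programme on trees.
-/

namespace Pool.Agent.H30.Uc

open Finset Pool.Agent.H38.NP Pool.Agent.H30.Kid

structure Rooted (n : ℕ) (E : List (ℕ × ℕ)) (d par : ℕ → ℕ) : Prop where
  pos : 0 < n
  d0 : d 0 = 0
  p0 : par 0 = 0
  lt : ∀ v < n, d v < n
  up : ∀ v < n, v ≠ 0 → par v < n ∧ TA (eR E) v (par v) ∧ d (par v) + 1 = d v
  ad : ∀ u < n, ∀ v < n, TA (eR E) u v → (u ≠ 0 ∧ par u = v) ∨ (v ≠ 0 ∧ par v = u)

theorem rooted_of_tree {n E} (h : (graphOf n E).IsTree) : ∃ d par, Rooted n E d par := by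
  have adj : ∀ u v : Fin n, (graphOf n E).Adj u v ↔ TA (eR E) u v := fun u v => by
    simp [graphOf_adj, TA, eR, Fin.ext_iff]
  have hn : 0 < n := Fin.pos_iff_nonempty.2 h.connected.nonempty
  generalize graphOf n E = G at h adj
  let r : Fin n := ⟨0, hn⟩
  choose p p1 p2 using fun v => h.connected.exists_path_of_dist r v
  have key : ∀ w v, G.Adj w v → G.dist r w + 1 = G.dist r v → (p v).penultimate = w := by
    intro w v a b
    have c : ((p w).concat a).IsPath :=
      SimpleGraph.Walk.isPath_of_length_eq_dist _ (by rw [SimpleGraph.Walk.length_concat, p2, b])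
    have e : p v = (p w).concat a :=
      congrArg Subtype.val ((h.isAcyclic.subsingleton_path r v).elim ⟨_, p1 v⟩ ⟨_, c⟩)
    rw [e, SimpleGraph.Walk.penultimate_concat]
  have pos : ∀ v w, G.dist r w + 1 = G.dist r v → v.val ≠ 0 := fun v w a b => by
    obtain rfl : v = r := Fin.ext b
    simp at a
  refine ⟨fun v => if hv : v < n then G.dist r ⟨v, hv⟩ else 0,
    fun v => if hv : v < n ∧ v ≠ 0 then (p ⟨v, hv.1⟩).penultimate else 0, hn, ?_, by simp,
    fun v hv => ?_, fun v hv h0 => ?_, fun u hu v hv a => ?_⟩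
  · simp [hn, r]
  · simp only [dif_pos hv, ← p2]; simpa using (p1 ⟨v, hv⟩).length_lt
  · simp only [dif_pos hv, dif_pos (And.intro hv h0), Fin.is_lt, dite_true, Fin.eta, true_and]
    have nn : ¬ (p ⟨v, hv⟩).Nil := SimpleGraph.Walk.not_nil_of_ne fun e => h0 (congrArg Fin.val e).symm
    have a := (p ⟨v, hv⟩).adj_penultimate nn
    refine ⟨(adj ⟨v, hv⟩ _).1 a.symm, ?_⟩
    have b := SimpleGraph.dist_le (p ⟨v, hv⟩).dropLast
    rw [SimpleGraph.Walk.length_dropLast, p2] at b
    have := h.dist_eq_dist_add_one_of_adj r a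
    omega
  · have a' := (adj ⟨u, hu⟩ ⟨v, hv⟩).2 a
    rcases h.dist_eq_dist_add_one_of_adj r a' with b | b
    · have := pos _ _ b.symm
      exact Or.inl ⟨this, by rw [dif_pos (And.intro hu this), key _ _ a'.symm b.symm]⟩
    · have := pos _ _ b.symm
      exact Or.inr ⟨this, by rw [dif_pos (And.intro hv this), key _ _ a' b.symm]⟩

variable {n : ℕ} {E : List (ℕ × ℕ)} {d par : ℕ → ℕ}

theorem Rooted.mem (h : Rooted n E d par) {v u} (hv : v < n) :
    u ∈ ch n E (par v) v ↔ u < n ∧ u ≠ 0 ∧ par u = v := by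
  rw [mem_ch]
  refine and_congr_right fun hu => ⟨fun ⟨a, b⟩ => ?_, ?_⟩
  · rcases h.ad v hv u hu b with c | c
    · exact absurd c.2.symm a
    · exact c
  · rintro ⟨a, rfl⟩
    obtain ⟨b, c, e⟩ := h.up u hu a
    refine ⟨fun f => ?_, c.symm⟩
    by_cases g : par u = 0
    · rw [g, h.p0] at f; exact a f
    · have := (h.up _ b g).2.2
      rw [← f] at this; omega

theorem Rooted.dep (h : Rooted n E d par) {v u} (hv : v < n) (hu : u ∈ ch n E (par v) v) :
    u < n ∧ d u = d v + 1 := by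
  obtain ⟨a, b, rfl⟩ := (h.mem hv).1 hu
  exact ⟨a, (h.up u a b).2.2.symm⟩

theorem Rooted.tot (h : Rooted n E d par) (s a : ℕ → ℕ)
    (e : ∀ v < n, s v = a v + ((ch n E (par v) v).map s).sum) : s 0 = ∑ v ∈ range n, a v := by
  have h1 : ∑ v ∈ range n, s v = ∑ v ∈ range n, a v +
      ∑ v ∈ range n, ∑ u ∈ (range n).erase 0 with par u = v, s u := by
    rw [← sum_add_distrib]
    refine sum_congr rfl fun v hv => ?_
    rw [e v (mem_range.1 hv), ← List.sum_toFinset _ (ch_nodup _ _ _ _)]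
    congr 2
    ext u
    simp only [List.mem_toFinset, h.mem (mem_range.1 hv), mem_filter, mem_erase, mem_range]
    tauto
  rw [sum_fiberwise_of_maps_to fun u hu => mem_range.2
    (h.up u (mem_range.1 (mem_erase.1 hu).2) (mem_erase.1 hu).1).1,
    ← add_sum_erase _ _ (mem_range.2 h.pos)] at h1
  omega

theorem Rooted.sound (h : Rooted n E d par) {B : ℕ} {x : St} (hx : R n E B n 0 0 x)
    (hf : x.2.2.1 = false) : UW (· < n) (TA (eR E)) x.2.2.2 := by
  have H : ∀ k, ∃ σ : ℕ → St, σ 0 = x ∧ ∀ v < n, (d v = k → R n E B (n - k) (par v) v (σ v)) ∧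
      (d v < k → Loc B (ch n E (par v) v) (σ v) σ) := by
    intro k
    induction k with
    | zero =>
      refine ⟨fun _ => x, rfl, fun v hv => ⟨fun e => ?_, by omega⟩⟩
      obtain rfl : v = 0 := by_contra fun c => by have := (h.up v hv c).2.2; omega
      rw [h.p0]; exact hx
    | succ k ih =>
      obtain ⟨σ, s0, hσ⟩ := ih
      have : ∀ v, ∃ g : ℕ → St, v < n → d v = k →
          (∀ u ∈ ch n E (par v) v, R n E B (n - (k + 1)) v u (g u)) ∧
            Loc B (ch n E (par v) v) (σ v) g := fun v => by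
        by_cases c : v < n ∧ d v = k
        · have a := (hσ v c.1).1 c.2
          have := h.lt v c.1
          rw [show n - k = n - (k + 1) + 1 by omega] at a
          obtain ⟨g, a⟩ := a
          exact ⟨g, fun _ _ => a⟩
        · exact ⟨σ, fun a b => absurd ⟨a, b⟩ c⟩
      choose g hg using this
      have cg : ∀ (l : List ℕ) (y : St) (f f' : ℕ → St), (∀ u ∈ l, f' u = f u) → Loc B l y f →
          Loc B l y f' := fun l y f f' e ⟨a1, a2, a3, a4, a5, a6⟩ =>
        ⟨a1, a2, a3, fun u hu => e u hu ▸ a4 u hu, by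
          rw [a5, List.map_congr_left (g := fun u => (f' u).2.2.2) fun u hu => by rw [e u hu]],
          fun z =>
          let ⟨u, hu, w⟩ := a6 z; ⟨u, hu, e u hu ▸ w⟩⟩
      refine ⟨fun u => if d u = k + 1 then g (par u) u else σ u, by simp [h.d0, s0],
        fun v hv => ⟨fun e => ?_, fun e => ?_⟩⟩
      · have v0 : v ≠ 0 := by rintro rfl; have := h.d0; omega
        obtain ⟨a, -, b⟩ := h.up v hv v0
        beta_reduce
        rw [if_pos e]
        exact (hg _ a (by omega)).1 v ((h.mem a).2 ⟨hv, v0, rfl⟩)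
      · beta_reduce
        rw [if_neg (show ¬ d v = k + 1 by omega)]
        by_cases c : d v = k
        · refine cg _ _ _ _ (fun u hu => ?_) (hg v hv c).2
          rw [if_pos (by rw [(h.dep hv hu).2, c]), ((h.mem hv).1 hu).2.2]
        · refine cg _ _ _ _ (fun u hu => ?_) ((hσ v hv).2 (by omega))
          rw [if_neg (by rw [(h.dep hv hu).2]; omega)]
  obtain ⟨σ, s0, hσ⟩ := H n
  have L : ∀ v < n, Loc B (ch n E (par v) v) (σ v) σ := fun v hv => (hσ v hv).2 (h.lt v hv)
  have K : ∀ u < n, u ≠ 0 → (σ u).1 ≠ (σ (par u)).1 ∧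
      ((σ u).2.2.1 = true → (σ (par u)).2.1 = true ∧ (σ u).1 < (σ (par u)).1) := fun u hu u0 => by
    have a := (h.up u hu u0).1
    have := (L _ a).2.2.2.1 u ((h.mem a).2 ⟨hu, u0, rfl⟩)
    simp only [ok, Bool.and_eq_true, decide_eq_true_eq, Bool.or_eq_true, Bool.not_eq_true'] at this
    exact ⟨this.1, fun z => this.2.resolve_left (by simp [z])⟩
  refine ⟨fun v => (σ v).1, (range n).filter fun v => (σ v).2.1 = true,
    fun v hv => mem_range.1 (mem_filter.1 hv).1, fun u v hu hv a => ?_,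
    fun v hv => (L v (mem_range.1 (mem_filter.1 hv).1)).2.2.1 (mem_filter.1 hv).2,
    fun v hv a => ?_, ?_⟩
  · rcases h.ad u hu v hv a with ⟨b, rfl⟩ | ⟨b, rfl⟩
    · exact (K u hu b).1
    · exact (K v hv b).1.symm
  · have i0 : (σ v).2.1 = false := by simpa [hv] using a
    cases f0 : (σ v).2.2.1
    · obtain ⟨u, hu, b, c⟩ := (L v hv).2.2.2.2.2 (by simp [i0, f0])
      exact ⟨u, mem_filter.2 ⟨mem_range.2 (mem_ch.1 hu).1, b⟩, (mem_ch.1 hu).2.2, c⟩
    · have v0 : v ≠ 0 := by rintro rfl; rw [s0, hf] at f0; cases f0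
      obtain ⟨b, c⟩ := (K v hv v0).2 f0
      exact ⟨par v, mem_filter.2 ⟨mem_range.2 (h.up v hv v0).1, b⟩, (h.up v hv v0).2.1, c⟩
  · have := h.tot (fun v => (σ v).2.2.2) (fun v => cond (σ v).2.1 (σ v).1 0)
      fun v hv => (L v hv).2.2.2.2.1
    rw [← s0, this, sum_filter]
    exact le_of_eq (sum_congr rfl fun v _ => by cases (σ v).2.1 <;> simp)

def sub (n : ℕ) (E : List (ℕ × ℕ)) (par a : ℕ → ℕ) : ℕ → ℕ → ℕ
  | 0, _ => 0
  | t + 1, v => a v + ((ch n E (par v) v).map (sub n E par a t)).sum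

theorem Rooted.complete (h : Rooted n E d par) {B k : ℕ} (hk : k ≤ B)
    (hu : UW (· < n) (TA (eR E)) k) :
    ∃ x : St, R n E B n 0 0 x ∧ x.2.2.1 = false ∧ x.2.2.2 ≤ k := by
  classical
  obtain ⟨c, D, d0, d1, d2, d3, d4⟩ := hu
  have cD : ∀ v ∈ D, c v ≤ B := fun v hv =>
    (single_le_sum (fun _ _ => Nat.zero_le _) hv).trans (d4.trans hk)
  have cb : ∀ v < n, c v ≤ B := fun v hv => by
    by_cases h : v ∈ D
    · exact cD v h
    · obtain ⟨d, x, -, y⟩ := d3 v hv h
      have := cD d x; omega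
  let a : ℕ → ℕ := fun v => cond (decide (v ∈ D)) (c v) 0
  let s : ℕ → ℕ := fun v => sub n E par a (n - d v) v
  have hs : ∀ v < n, s v = a v + ((ch n E (par v) v).map s).sum := fun v hv => by
    have := h.lt v hv
    simp only [s]
    rw [show n - d v = n - (d v + 1) + 1 by omega, sub]
    congr 2
    exact List.map_congr_left fun u hu => by rw [(h.dep hv hu).2]
  have s0 : s 0 ≤ k := by
    rw [h.tot s a hs]
    refine le_trans (le_of_eq ?_) d4
    rw [← sum_subset (show D ⊆ range n from fun v hv => mem_range.2 (d0 v hv))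
      fun v _ hv => by simp [a, hv]]
    exact sum_congr rfl fun v hv => by simp [a, hv]
  have sb : ∀ j, ∀ v < n, d v = j → s v ≤ k := by
    intro j
    induction j with
    | zero =>
      intro v hv e
      obtain rfl : v = 0 := by_contra fun c => by have := (h.up v hv c).2.2; omega
      exact s0
    | succ j ih =>
      intro v hv e
      have v0 : v ≠ 0 := by rintro rfl; have := h.d0; omega
      obtain ⟨x, -, y⟩ := h.up v hv v0
      have z := ih _ x (by omega)
      have w := List.le_sum_of_mem (List.mem_map_of_mem (f := s) ((h.mem x).2 ⟨hv, v0, rfl⟩))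
      rw [hs _ x] at z; omega
  let σ : ℕ → St := fun v => (c v, decide (v ∈ D),
    decide (v ∉ D ∧ ¬ ∃ u ∈ ch n E (par v) v, u ∈ D ∧ c v < c u), s v)
  have fl : ∀ v < n, (σ v).2.2.1 = true → v ≠ 0 ∧ par v ∈ D ∧ c v < c (par v) := fun v hv f => by
    simp only [σ, decide_eq_true_eq] at f
    obtain ⟨u, x, y, z⟩ := d3 v hv f.1
    rcases h.ad v hv u (d0 u x) y with ⟨b, rfl⟩ | b
    · exact ⟨b, x, z⟩
    · exact absurd ⟨u, (h.mem hv).2 ⟨d0 u x, b⟩, x, z⟩ f.2
  have H : ∀ t, ∀ v < n, d v + t = n → R n E B t (par v) v (σ v) := by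
    intro t
    induction t with
    | zero => intro v hv e; have := h.lt v hv; omega
    | succ t ih =>
      intro v hv e
      refine ⟨σ, fun u hu => ?_, cb v hv, (sb _ v hv rfl).trans hk,
        fun z => d2 v (by simpa [σ] using z), fun u hu => ?_, hs v hv, fun z => ?_⟩
      · have := ih u (h.dep hv hu).1 (by rw [(h.dep hv hu).2]; omega)
        rwa [((h.mem hv).1 hu).2.2] at this
      · obtain ⟨x, y, rfl⟩ := (h.mem hv).1 hu
        simp only [ok, Bool.and_eq_true, decide_eq_true_eq, Bool.or_eq_true, Bool.not_eq_true']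
        refine ⟨d1 _ _ x hv (h.up u x y).2.1, ?_⟩
        cases f : (σ u).2.2.1
        · exact Or.inl rfl
        · exact Or.inr (by simpa [σ] using (fl u x f).2)
      · simp only [σ, Bool.and_eq_true, Bool.not_eq_true', decide_eq_false_iff_not,
          decide_eq_true_eq] at z ⊢
        exact by_contra fun w => z.2 ⟨z.1, w⟩
  refine ⟨σ 0, by simpa [h.p0] using H n 0 h.pos (by rw [h.d0]; omega), ?_, s0⟩
  cases f : (σ 0).2.2.1
  · rfl
  · exact absurd rfl (fl 0 h.pos f).1

theorem alg_spec {n E} (h : (graphOf n E).IsTree) :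
    IsLeast {k | UCW (graphOf n E) k} (alg (n, E)) := by
  obtain ⟨b, b1, b2⟩ := (bip_nat n E).1 h.isBipartite
  obtain ⟨d, par, h⟩ := rooted_of_tree h
  have P : ∀ s, (((st2 (n, E))^[n] []).any fun e =>
      decide (e.1 = (0, 0)) && !e.2.2.2.1 && decide (e.2.2.2.2 = s)) = true ↔
      ∃ x : St, R n E (2 * n) n 0 0 x ∧ x.2.2.1 = false ∧ x.2.2.2 = s := fun s => by
    have e : st2 (n, E) = tstep n E (2 * n) := rfl
    simp only [List.any_eq_true, Bool.and_eq_true, decide_eq_true_eq, Bool.not_eq_true', e]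
    constructor
    · rintro ⟨⟨_, x⟩, a, ⟨rfl, b⟩, c⟩
      exact ⟨x, ((mem_tab _ _ _ _ _ _ _).1 a).2.2, b, c⟩
    · rintro ⟨x, a, b, c⟩
      exact ⟨((0, 0), x), (mem_tab _ _ _ _ _ _ _).2 ⟨h.pos, h.pos, a⟩, ⟨rfl, b⟩, c⟩
  obtain ⟨x, x1, x2, x3⟩ := h.complete le_rfl (uw_small b1 b2 le_rfl)
  have lt : alg (n, E) < (List.range (2 * n + 1)).length := List.findIdx_lt_length_of_exists
    ⟨_, List.mem_range.2 (Nat.lt_succ_of_le x3), (P _).2 ⟨x, x1, x2, rfl⟩⟩
  constructor
  · have := List.findIdx_getElem (w := lt)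
    rw [List.getElem_range] at this
    obtain ⟨y, y1, y2, y3⟩ := (P _).1 this
    have z := h.sound y1 y2
    rw [y3] at z
    exact (ucw_nat _ _ _).2 z
  · intro k hk
    by_contra c
    push Not at c
    rw [List.length_range] at lt
    obtain ⟨y, y1, y2, y3⟩ := h.complete (show k ≤ 2 * n by omega) ((ucw_nat _ _ _).1 hk)
    have := List.not_of_lt_findIdx (lt_of_le_of_lt y3 c)
    rw [List.getElem_range, (P _).2 ⟨y, y1, y2, rfl⟩] at this
    cases this

end Pool.Agent.H30.Uc
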