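import Mathlib

/-! Divisibility and multiplicative finite embeddability of ultrafilters on positive integers. -/

namespace Pool.Agent.H30.UfDiv

open Filter

/-- the product of ultrafilters: `A ∈ mul F G` iff `{n | {m | n * m ∈ A} ∈ G} ∈ F` -/
def mul (F G : Ultrafilter ℕ+) : Ultrafilter ℕ+ := F.bind fun n => G.map (n * ·)

theorem mem_mul {F G : Ultrafilter ℕ+} {A : Set ℕ+} :
    A ∈ mul F G ↔ {n | {m | n * m ∈ A} ∈ G} ∈ F := Iff.rfl

def DivM (F G : Ultrafilter ℕ+) : Prop := ∃ H1 H2, G = mul (mul H1 F) H2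

def FeS (A B : Set ℕ+) : Prop := ∀ S : Finset ℕ+, ↑S ⊆ A → ∃ k : ℕ+, ∀ a ∈ S, k * a ∈ B

def Fe (F G : Ultrafilter ℕ+) : Prop := ∀ B ∈ G, ∃ A ∈ F, FeS A B

/-- numbers with exactly `n` prime factors counted with multiplicity -/
def Lv (n : ℕ) : Set ℕ+ := {x | (x : ℕ).primeFactorsList.length = n}

def InL (F : Ultrafilter ℕ+) : Prop := ∃ n, Lv n ∈ F

def Mini (ρ : Ultrafilter ℕ+ → Ultrafilter ℕ+ → Prop) (F : Ultrafilter ℕ+) : Prop :=
  F ≠ pure 1 ∧ ∀ G, ρ G F → G = pure 1 ∨ (ρ G F ∧ ρ F G)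

noncomputable def idx (x : ℕ+) : ℕ := (Nat.count Nat.Prime x).unpair.1

def Pi (i : ℕ) : Set ℕ+ := {x | (x : ℕ).Prime ∧ idx x = i}

theorem Pi_inf (i : ℕ) : (Pi i).Infinite := by
  refine Set.infinite_of_injective_forall_mem
    (f := fun k : ℕ => (⟨Nat.nth Nat.Prime (Nat.pair i k), (Nat.prime_nth_prime _).pos⟩ : ℕ+))
    (fun a b h => ?_) fun k => ⟨Nat.prime_nth_prime _, ?_⟩
  · have := Nat.nth_injective Nat.infinite_setOfPred_prime (congrArg PNat.val h)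
    exact (Nat.pair_eq_pair.1 this).2
  · show (Nat.count Nat.Prime (Nat.nth Nat.Prime _)).unpair.1 = i
    rw [Nat.count_nth_of_infinite Nat.infinite_setOfPred_prime, Nat.unpair_pair]

theorem ex_W (i : ℕ) : ∃ W : Ultrafilter ℕ+, Pi i ∈ W ∧ ∀ s : Set ℕ+, s.Finite → sᶜ ∈ W := by
  have : (cofinite ⊓ 𝓟 (Pi i)).NeBot := by
    rw [inf_principal_neBot_iff]
    intro s hs
    by_contra h
    rw [Set.not_nonempty_iff_eq_empty] at h
    exact Pi_inf i ((mem_cofinite.1 hs).subset fun x hx hx' => h.subset ⟨hx', hx⟩)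
  refine ⟨Ultrafilter.of (cofinite ⊓ 𝓟 (Pi i)), Ultrafilter.of_le _ ?_, fun s hs =>
    Ultrafilter.of_le _ ?_⟩
  · exact mem_inf_of_right (mem_principal_self _)
  · exact mem_inf_of_left hs.compl_mem_cofinite

noncomputable def W (i : ℕ) : Ultrafilter ℕ+ := (ex_W i).choose

theorem W_gt (i : ℕ) (a : ℕ+) : {x | a < x} ∈ W i := by
  have := (ex_W i).choose_spec.2 _ (Set.finite_Iic a)
  simpa [Set.Ioi, W] using this

noncomputable def G : Ultrafilter ℕ+ := (hyperfilter ℕ).bind fun i => mul (W 0) (W (i + 1))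

theorem mem_G {A : Set ℕ+} : A ∈ G ↔ {i | A ∈ mul (W 0) (W (i + 1))} ∈ hyperfilter ℕ := Iff.rfl

/-- the basic members of `G` -/
def B (j : ℕ) : Set ℕ+ :=
  {x | ∃ n m : ℕ+, x = n * m ∧ n ∈ Pi 0 ∧ (m : ℕ).Prime ∧ j < idx m ∧ idx m < n ∧ n < m ∧ j < n}

theorem B_mem (j : ℕ) : B j ∈ G := by
  rw [mem_G]
  refine mem_of_superset (mem_hyperfilter_of_finite_compl (s := {i | j ≤ i})
    ((Set.finite_Iio j).subset fun x hx => by simpa using hx)) fun i hi => ?_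
  refine mem_mul.2 (mem_of_superset (inter_mem (ex_W 0).choose_spec.1
    (W_gt 0 ⟨i + 1, by omega⟩)) fun n hn => ?_)
  refine mem_of_superset (inter_mem (ex_W (i + 1)).choose_spec.1 (W_gt (i + 1) n)) fun m hm => ?_
  have h1 : i + 1 < (n : ℕ) := hn.2
  have h2 : j ≤ i := hi
  exact ⟨n, m, rfl, hn.1, hm.1.1, by rw [hm.1.2]; omega, by rw [hm.1.2]; omega, hm.2, by omega⟩

theorem split {a b n m : ℕ+} (ha : a ≠ 1) (hb : b ≠ 1) (hn : (n : ℕ).Prime) (hm : (m : ℕ).Prime)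
    (e : a * b = n * m) : (a = n ∧ b = m) ∨ (a = m ∧ b = n) := by
  have e' : (a : ℕ) * b = n * m := by exact_mod_cast congrArg PNat.val e
  have ha' : (a : ℕ) ≠ 1 := fun h => ha (PNat.eq h)
  have hb' : (b : ℕ) ≠ 1 := fun h => hb (PNat.eq h)
  rcases (Nat.Prime.dvd_mul hn).1 ⟨m, e'⟩ with ⟨c, hc⟩ | ⟨c, hc⟩
  · rw [hc, mul_assoc] at e'
    have e2 := Nat.eq_of_mul_eq_mul_left hn.pos e'
    rcases hm.eq_one_or_self_of_dvd b ⟨c, by rw [← e2, mul_comm]⟩ with h | h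
    · exact absurd h hb'
    · rw [h] at e2
      have : c = 1 := Nat.eq_of_mul_eq_mul_right hm.pos (by simpa using e2)
      exact Or.inl ⟨PNat.eq (by simp [hc, this]), PNat.eq h⟩
  · rw [hc, mul_left_comm] at e'
    have e2 := Nat.eq_of_mul_eq_mul_left hn.pos e'
    rcases hm.eq_one_or_self_of_dvd a ⟨c, e2.symm⟩ with h | h
    · exact absurd h ha'
    · rw [h] at e2
      have : c = 1 := Nat.eq_of_mul_eq_mul_left hm.pos (by simpa using e2)
      exact Or.inr ⟨PNat.eq h, PNat.eq (by simp [hc, this])⟩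

theorem ne_one {X : Ultrafilter ℕ+} (h : X ≠ pure 1) : {x | x ≠ 1} ∈ X := by
  by_contra h'
  rw [← Ultrafilter.compl_mem_iff_notMem] at h'
  apply h
  refine Ultrafilter.eq_of_le (le_pure_iff.2 ?_)
  simpa [Set.compl_ofPred] using h'

theorem irred {X Y : Ultrafilter ℕ+} (e : G = mul X Y) : X = pure 1 ∨ Y = pure 1 := by
  by_contra h
  rw [not_or] at h
  have key : ∀ j, ∃ a : ℕ+, {b | ∃ n m : ℕ+, ((a = n ∧ b = m) ∨ (a = m ∧ b = n)) ∧ n ∈ Pi 0 ∧
      (m : ℕ).Prime ∧ j < idx m ∧ idx m < n ∧ n < m ∧ j < n} ∈ Y := by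
    intro j
    have h1 := mem_mul.1 (e ▸ B_mem j)
    obtain ⟨a, ha, ha1⟩ := X.nonempty_of_mem (inter_mem h1 (ne_one h.1))
    refine ⟨a, mem_of_superset (inter_mem ha (ne_one h.2)) ?_⟩
    rintro b ⟨⟨n, m, e, h1, h2, h3⟩, hb⟩
    exact ⟨n, m, split ha1 hb h1.1 h2 e, h1, h2, h3⟩
  obtain ⟨a, ha⟩ := key 0
  obtain ⟨a', ha'⟩ := key a
  obtain ⟨b, ⟨n, m, h1, h2, -, h3, h4, h5, -⟩, ⟨n', m', g1, g2, -, g3, -, -, g6⟩⟩ :=
    Y.nonempty_of_mem (inter_mem ha ha')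
  have h5' : (n : ℕ) < m := h5
  have := h2.2
  have := g2.2
  rcases h1 with ⟨rfl, rfl⟩ | ⟨rfl, rfl⟩ <;> rcases g1 with ⟨rfl, rfl⟩ | ⟨rfl, rfl⟩ <;> omega

theorem mul_one' (X : Ultrafilter ℕ+) : mul X (pure 1) = X := by
  ext A
  rw [mem_mul]
  simp

theorem one_mul' (X : Ultrafilter ℕ+) : mul (pure 1) X = X := by
  ext A
  rw [mem_mul]
  simp

theorem div_G {K : Ultrafilter ℕ+} (h : DivM K G) : K = pure 1 ∨ K = G := by
  obtain ⟨H1, H2, e⟩ := h
  rcases irred e with h | rfl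
  · left
    by_contra hK
    have h1 : ({1} : Set ℕ+) ∈ mul H1 K := by rw [h]; simp
    obtain ⟨a, ha⟩ := H1.nonempty_of_mem (mem_mul.1 h1)
    obtain ⟨b, hb, hb1⟩ := K.nonempty_of_mem (inter_mem ha (ne_one hK))
    have : (a : ℕ) * b = 1 := by exact_mod_cast congrArg PNat.val hb
    exact hb1 (PNat.eq (Nat.eq_one_of_mul_eq_one_left this))
  · rw [mul_one'] at e
    rcases irred e with rfl | h
    · exact Or.inr (by rw [e, one_mul'])
    · exact Or.inl h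

theorem fe_G : Fe (W 0) G := by
  intro A hA
  obtain ⟨i, hi⟩ := (hyperfilter ℕ).nonempty_of_mem (mem_G.1 hA)
  refine ⟨_, mem_mul.1 hi, fun S hS => ?_⟩
  have : ⋂ a ∈ S, {m | a * m ∈ A} ∈ (W (i + 1) : Filter ℕ+) :=
    (biInter_finset_mem S).2 fun a ha => hS ha
  obtain ⟨k, hk⟩ := (W (i + 1)).nonempty_of_mem this
  exact ⟨k, fun a ha => by rw [mul_comm]; exact Set.mem_iInter₂.1 hk a ha⟩

theorem W_ne : W 0 ≠ pure 1 := fun h => by
  have := W_gt 0 1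
  rw [h] at this
  simp at this

theorem not_fe : ¬ Fe G (W 0) := by
  intro h
  obtain ⟨A, hA, hf⟩ := h _ (ex_W 0).choose_spec.1
  obtain ⟨_, hx, n, m, rfl, h1, h2, -⟩ := G.nonempty_of_mem (inter_mem hA (B_mem 0))
  obtain ⟨k, hk⟩ := hf {n * m} (by simpa using hx)
  have := (hk _ (Finset.mem_singleton_self _)).1
  rw [← mul_assoc, PNat.mul_coe, PNat.mul_coe] at this
  refine Nat.not_prime_mul ?_ h2.ne_one this
  intro h
  exact h1.1.ne_one (Nat.eq_one_of_mul_eq_one_left h)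

theorem fe_refl (X : Ultrafilter ℕ+) : Fe X X := fun A hA =>
  ⟨A, hA, fun _ hS => ⟨1, fun a ha => by simpa using hS ha⟩⟩

theorem G_ne : G ≠ pure 1 := fun h => by
  have := B_mem 0
  rw [h] at this
  obtain ⟨n, m, e, -, h2, -⟩ := Ultrafilter.mem_pure.1 this
  have : 1 = (n : ℕ) * m := by exact_mod_cast congrArg PNat.val e
  exact h2.ne_one (Nat.eq_one_of_mul_eq_one_left this.symm)

theorem not_div : ¬ DivM (W 0) G := fun h => by
  rcases div_G h with h | h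
  · exact W_ne h
  · exact not_fe (h ▸ fe_refl _)

theorem W_L : Lv 1 ∈ W 0 := mem_of_superset (ex_W 0).choose_spec.1 fun x hx => by
  show List.length _ = 1
  rw [Nat.primeFactorsList_prime hx.1]
  rfl

theorem G_L : Lv 2 ∈ G := mem_of_superset (B_mem 0) (by
  rintro _ ⟨n, m, rfl, h1, h2, -⟩
  show List.length _ = 2
  rw [PNat.mul_coe, (Nat.perm_primeFactorsList_mul n.ne_zero m.ne_zero).length_eq,
    Nat.primeFactorsList_prime h1.1, Nat.primeFactorsList_prime h2]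
  rfl)

theorem G_min : Mini DivM G := by
  refine ⟨G_ne, fun K hK => ?_⟩
  rcases div_G hK with h | rfl
  · exact Or.inl h
  · exact Or.inr ⟨hK, hK⟩

theorem G_not_min : ¬ Mini Fe G := fun h => by
  rcases h.2 _ fe_G with h | h
  · exact W_ne h
  · exact not_fe h.2

end Pool.Agent.H30.UfDiv
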