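import Pool.Agent.H30.WordDefs

set_option autoImplicit false
open Classical

namespace Pool.Agent.H30.Word
open Pool.Agent.H30.WordDefs

def W (n r : ℕ) (hn : 0 < n) : List (Fin n) :=
  (List.range (r * n)).map fun k => ⟨k % n, Nat.mod_lt _ hn⟩

theorem sub {n r : ℕ} (hn : 0 < n) (π : Equiv.Perm (Fin n)) (e : Fin n → ℕ) (he : StrictMono e)
    (h1 : ∀ i, e i < r * n) (h2 : ∀ i, e i % n = π i) : (List.ofFn π).Sublist (W n r hn) := by
  have e1 : List.ofFn π = (List.ofFn e).map fun k => (⟨k % n, Nat.mod_lt _ hn⟩ : Fin n) := by
    rw [List.map_ofFn]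
    congr 1
    funext i
    exact Fin.ext (h2 i).symm
  rw [e1, W]
  apply List.Sublist.map
  apply List.sublist_of_subperm_of_pairwise (r := (· < ·))
  · apply List.subperm_of_subset (List.nodup_ofFn.2 he.injective)
    intro x hx
    obtain ⟨i, rfl⟩ := List.mem_ofFn.1 hx
    exact List.mem_range.2 (h1 i)
  · exact List.pairwise_ofFn.2 fun i j hij => he hij
  · exact List.pairwise_lt_range

theorem numPerms_eq {n : ℕ} (w : List (Fin n)) : numPerms w =
    (Finset.univ.filter fun π : Equiv.Perm (Fin n) => (List.ofFn π).Sublist w).card := by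
  rw [numPerms, ← Set.ncard_coe_finset]
  congr 1
  ext; simp

theorem all {n : ℕ} (hn : 0 < n) : numPerms (W n n hn) = n.factorial := by
  rw [numPerms_eq, Finset.filter_true_of_mem]
  · simp [Fintype.card_perm]
  · intro π _
    apply sub hn π (fun i => i * n + π i)
    · intro i j hij
      have h1 : (i : ℕ) + 1 ≤ j := hij
      have := (π i).2
      have := Nat.mul_le_mul_right n h1
      dsimp only
      nlinarith
    · intro i
      have h1 : (i : ℕ) + 1 ≤ n := i.2
      have := (π i).2
      have := Nat.mul_le_mul_right n h1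
      nlinarith
    · intro i
      simp [Nat.mod_eq_of_lt (π i).2]

theorem many {n r : ℕ} (hn : 0 < n) : r ^ n ≤ numPerms (W n r hn) * 2 ^ (n + r) := by
  let key : (Fin n → Fin r) → Fin n → ℕ := fun f v => f v * n + v
  have kinj : ∀ f, Function.Injective (key f) := by
    intro f a b h
    have := congrArg (· % n) h
    simpa [key, Nat.mod_eq_of_lt a.2, Nat.mod_eq_of_lt b.2, Fin.ext_iff] using this
  have km : ∀ f, StrictMono (key f ∘ Tuple.sort (key f)) := fun f =>
    (Tuple.monotone_sort _).strictMono_of_injective ((kinj f).comp (Equiv.injective _))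
  let g : (Fin n → Fin r) → Fin n → ℕ := fun f i => f (Tuple.sort (key f) i) + i
  have gm : ∀ f, StrictMono (g f) := by
    intro f i j hij
    have h1 := km f hij
    have h2 : (i : ℕ) < j := hij
    simp only [Function.comp, key] at h1
    have h3 : (f (Tuple.sort (key f) i) : ℕ) ≤ f (Tuple.sort (key f) j) := by
      by_contra hc
      have h4 : (f (Tuple.sort (key f) j) : ℕ) + 1 ≤ f (Tuple.sort (key f) i) := by omega
      have := Nat.mul_le_mul_right n h4
      have := (Tuple.sort (key f) j).2
      simp only [key] at *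
      nlinarith
    simp only [g]
    omega
  rw [numPerms_eq]
  have := Finset.card_le_card_of_injOn (s := (Finset.univ : Finset (Fin n → Fin r)))
    (t := (Finset.univ.filter fun π : Equiv.Perm (Fin n) => (List.ofFn π).Sublist (W n r hn)) ×ˢ
      (Finset.range (n + r)).powerset)
    (fun f => (Tuple.sort (key f), Finset.univ.image (g f))) (by
      intro f _
      simp only [Finset.coe_product, Set.mem_prod, Finset.mem_coe, Finset.mem_filter,
        Finset.mem_univ, true_and, Finset.mem_powerset]
      constructor
      · apply sub hn _ _ (km f)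
        · intro i
          have h1 : (f (Tuple.sort (key f) i) : ℕ) + 1 ≤ r := (f _).2
          have := Nat.mul_le_mul_right n h1
          have := (Tuple.sort (key f) i).2
          simp only [Function.comp, key] at *
          nlinarith
        · intro i
          simp [key, Nat.mod_eq_of_lt]
      · intro x hx
        obtain ⟨i, -, rfl⟩ := Finset.mem_image.1 hx
        have := (f (Tuple.sort (key f) i)).2
        have := i.2
        simp only [g, Finset.mem_range]
        omega)
    (by
      intro f _ f' _ h
      simp only [Prod.mk.injEq] at h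
      have hc : (Finset.univ.image (g f)).card = n := by
        rw [Finset.card_image_of_injective _ (gm f).injective]; simp
      have a := Finset.orderEmbOfFin_unique hc (f := g f) (by simp) (gm f)
      have b := Finset.orderEmbOfFin_unique hc (f := g f') (by rw [h.2]; simp) (gm f')
      have c : g f = g f' := a.trans b.symm
      funext v
      have := congrFun c ((Tuple.sort (key f)).symm v)
      simp only [g] at this
      rw [← h.1] at this
      simp only [Equiv.apply_symm_apply] at this
      exact Fin.ext (by omega))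
  simpa using this

theorem pow_le (n : ℕ) : n ^ n ≤ 3 ^ n * n.factorial := by
  have h1 := Real.pow_div_factorial_le_exp (n : ℝ) (by positivity) n
  have h2 : Real.exp n ≤ 3 ^ n := by
    rw [← Real.exp_one_pow]
    exact pow_le_pow_left₀ (Real.exp_pos _).le Real.exp_one_lt_three.le n
  rw [div_le_iff₀ (by positivity)] at h1
  have : (n : ℝ) ^ n ≤ 3 ^ n * n.factorial :=
    h1.trans (mul_le_mul_of_nonneg_right h2 (by positivity))
  exact_mod_cast this

theorem main (n m : ℕ) (hn : 1 ≤ n) (h1 : 1 ≤ m) (hm : m ≤ n.factorial) :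
    h n m ≤ 13 * ell m n := by
  have hne : {l : ℕ | m ≤ l.choose n}.Nonempty := by
    obtain ⟨k, rfl⟩ : ∃ k, n = k + 1 := ⟨n - 1, by omega⟩
    refine ⟨m + k, ?_⟩
    show m ≤ (m + k).choose (k + 1)
    clear hm hn
    induction k with
    | zero => simp
    | succ k ih =>
      rw [← add_assoc, Nat.choose_succ_succ]
      simp only [Nat.succ_eq_add_one]
      omega
  have hl : m ≤ (ell m n).choose n := Nat.sInf_mem hne
  set l := ell m n
  have hnl : n ≤ l := by
    by_contra hc
    rw [Nat.choose_eq_zero_of_lt (by omega)] at hl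
    omega
  obtain ⟨r, hr1, hr2⟩ : ∃ r, 12 * l ≤ r * n ∧ r * n ≤ 13 * l := by
    refine ⟨12 * l / n + 1, ?_, ?_⟩
    · have := Nat.div_add_mod (12 * l) n
      have := Nat.mod_lt (12 * l) (show n > 0 by omega)
      nlinarith
    · have := Nat.div_mul_le_self (12 * l) n
      nlinarith
  by_cases hrn : n ≤ r
  · refine le_trans (Nat.sInf_le ⟨W n n hn, rfl, by rw [all]; exact hm⟩) ?_
    simp only [W, List.length_map, List.length_range]
    nlinarith
  · refine le_trans (Nat.sInf_le ⟨W n r hn, rfl, ?_⟩) (by simpa [W] using hr2)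
    have a1 := many (r := r) hn
    have a2 : 2 ^ (n + r) ≤ 4 ^ n := by
      rw [show 4 = 2 ^ 2 by norm_num, ← pow_mul]
      exact Nat.pow_le_pow_right (by norm_num) (by omega)
    have a3 : n.factorial * l.choose n ≤ l ^ n := by
      rw [← Nat.descFactorial_eq_factorial_mul_choose]
      exact Nat.descFactorial_le_pow _ _
    have a4 := pow_le n
    have a5 : (12 * l) ^ n ≤ (r * n) ^ n := Nat.pow_le_pow_left hr1 n
    rw [mul_pow, mul_pow, show 12 = 4 * 3 by norm_num, mul_pow] at a5
    have a6 : n ^ n * (4 ^ n * m) ≤ n ^ n * (4 ^ n * numPerms (W n r hn)) := by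
      calc n ^ n * (4 ^ n * m) ≤ (3 ^ n * n.factorial) * (4 ^ n * l.choose n) := by gcongr
        _ = 4 ^ n * 3 ^ n * (n.factorial * l.choose n) := by ring
        _ ≤ 4 ^ n * 3 ^ n * l ^ n := by gcongr
        _ ≤ r ^ n * n ^ n := a5
        _ ≤ (numPerms (W n r hn) * 4 ^ n) * n ^ n := by
          gcongr
          exact a1.trans (by gcongr)
        _ = _ := by ring
    exact Nat.le_of_mul_le_mul_left (Nat.le_of_mul_le_mul_left a6 (by positivity)) (by positivity)

end Pool.Agent.H30.Word
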