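import Mathlib

set_option autoImplicit false

namespace Pool.Agent.H30.WordDefs

/-- Number of permutations of `Fin n` that are subsequences of the word `w`. -/
noncomputable def numPerms {n : ℕ} (w : List (Fin n)) : ℕ :=
  {π : Equiv.Perm (Fin n) | (List.ofFn π).Sublist w}.ncard

/-- Minimum length of a word containing at least `m` permutations. -/
noncomputable def h (n m : ℕ) : ℕ := sInf {L | ∃ w : List (Fin n), w.length = L ∧ m ≤ numPerms w}

/-- Least `l` with `m ≤ choose l n`. -/
noncomputable def ell (m n : ℕ) : ℕ := sInf {l | m ≤ l.choose n}

end Pool.Agent.H30.WordDefs
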